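import Pool.Agent.Lib.MP_73b196_co.St.Spec

/-!
# Structure theorem: A1
-/

set_option autoImplicit false

namespace Pool.Agent.Lib.MP_73b196_co.St

theorem A1_ne {V : Type} [DecidableEq V] {S X : Finset V} {x s : V} (hd : Disjoint X S)
    (hx : x ∈ X) (hs : s ∈ S) : x ∉ ({s} : Finset V) := by
  intro h
  rw [Finset.mem_singleton] at h
  subst h
  exact Finset.disjoint_left.1 hd hx hs

theorem A1_dis {V : Type} [DecidableEq V] {S X : Finset V} {s : V} (hd : Disjoint X S)
    (hs : s ∈ S) : Disjoint X ({s} : Finset V) := by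
  rw [Finset.disjoint_singleton_right]
  intro h
  exact Finset.disjoint_left.1 hd h hs

/-- `X`, `Y` and two adjacent vertices of the separator. -/
theorem A1_cm {V : Type} [Fintype V] [DecidableEq V] {Δ : Set (Finset V)} {x y : V}
    {S X Y : Finset V} {s s' : V} (hef : EdgeFacet Δ x y) (h : PMS Δ x y S X Y) (hs : s ∈ S)
    (hs' : s' ∈ S) (ha : adj Δ s s') : CM Δ [X, Y, {s}, {s'}] := by
  refine ⟨?_, ?_⟩
  · intro A hA
    simp only [List.mem_cons, List.not_mem_nil, or_false] at hA
    rcases hA with rfl | rfl | rfl | rfl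
    · exact h.cX
    · exact h.cY
    · exact conn_single (h.sS hs)
    · exact conn_single (h.sS hs')
  · have hxy : touch Δ X Y := ⟨x, h.hx, y, h.hy, hef.ne, hef.mem⟩
    refine List.Pairwise.cons ?_ (List.Pairwise.cons ?_ (List.Pairwise.cons ?_
      (List.Pairwise.cons ?_ List.Pairwise.nil)))
    · intro B hB
      simp only [List.mem_cons, List.not_mem_nil, or_false] at hB
      rcases hB with rfl | rfl | rfl
      · exact ⟨h.dXY, hxy⟩
      · exact ⟨A1_dis h.dXS hs, touch_symm (h.tX s hs)⟩
      · exact ⟨A1_dis h.dXS hs', touch_symm (h.tX s' hs')⟩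
    · intro B hB
      simp only [List.mem_cons, List.not_mem_nil, or_false] at hB
      rcases hB with rfl | rfl
      · exact ⟨A1_dis h.dSY.symm hs, touch_symm (h.tY s hs)⟩
      · exact ⟨A1_dis h.dSY.symm hs', touch_symm (h.tY s' hs')⟩
    · intro B hB
      simp only [List.mem_cons, List.not_mem_nil, or_false] at hB
      subst hB
      exact ⟨Finset.disjoint_singleton.2 ha.1, touch_single.2 ha⟩
    · intro B hB
      exact absurd hB List.not_mem_nil

theorem tA1 : StmtA1 := by
  intro V _ _ Δ x y S X Y s s' hP hef h hs hs' ha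
  exact hP.k4two (A1_cm hef h hs hs' ha)
    (h.not_fill (A1_ne h.dXS h.hx hs) (A1_ne h.dSY.symm h.hy hs))
    (h.not_fill (A1_ne h.dXS h.hx hs') (A1_ne h.dSY.symm h.hy hs'))

end Pool.Agent.Lib.MP_73b196_co.St
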