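import Pool.Agent.Lib.MP_73b196_co.St.Spec

/-!
# Structure theorem: A2
-/

set_option autoImplicit false

namespace Pool.Agent.Lib.MP_73b196_co.St

theorem A2_ne {V : Type} [DecidableEq V] {S X : Finset V} {x s : V} (hd : Disjoint X S)
    (hx : x ∈ X) (hs : s ∈ S) : x ∉ ({s} : Finset V) := by
  intro h
  rw [Finset.mem_singleton] at h
  subst h
  exact Finset.disjoint_left.1 hd hx hs

theorem A2_dis {V : Type} [DecidableEq V] {S X : Finset V} {s : V} (hd : Disjoint X S)
    (hs : s ∈ S) : Disjoint ({s} : Finset V) X := by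
  rw [Finset.disjoint_singleton_left]
  intro h
  exact Finset.disjoint_left.1 hd h hs

/-- Triples of vertices of a clique in the separator are faces. -/
theorem A2_three {V : Type} [Fintype V] [DecidableEq V] {Δ : Set (Finset V)} {x y : V}
    {S X Y C : Finset V} (hP : InP Δ) (hef : EdgeFacet Δ x y) (h : PMS Δ x y S X Y) (hCS : C ⊆ S)
    (hC : Clq Δ C) : ∀ a ∈ C, ∀ b ∈ C, ∀ c ∈ C, a ≠ b → a ≠ c → b ≠ c →
      ({a, b, c} : Finset V) ∈ Δ := by
  intro a ha b hb c hc hab hac hbc
  have hxy : touch Δ X Y := ⟨x, h.hx, y, h.hy, hef.ne, hef.mem⟩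
  have hm : CM Δ [{a}, {b}, {c}, X, Y] := by
    refine ⟨?_, ?_⟩
    · intro A hA
      simp only [List.mem_cons, List.not_mem_nil, or_false] at hA
      rcases hA with rfl | rfl | rfl | rfl | rfl
      · exact conn_single (h.sS (hCS ha))
      · exact conn_single (h.sS (hCS hb))
      · exact conn_single (h.sS (hCS hc))
      · exact h.cX
      · exact h.cY
    · refine List.Pairwise.cons ?_ (List.Pairwise.cons ?_ (List.Pairwise.cons ?_
        (List.Pairwise.cons ?_ (List.Pairwise.cons ?_ List.Pairwise.nil))))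
      · intro B hB
        simp only [List.mem_cons, List.not_mem_nil, or_false] at hB
        rcases hB with rfl | rfl | rfl | rfl
        · exact ⟨Finset.disjoint_singleton.2 hab, touch_single.2 (hC.2 a ha b hb hab)⟩
        · exact ⟨Finset.disjoint_singleton.2 hac, touch_single.2 (hC.2 a ha c hc hac)⟩
        · exact ⟨A2_dis h.dXS (hCS ha), h.tX a (hCS ha)⟩
        · exact ⟨A2_dis h.dSY.symm (hCS ha), h.tY a (hCS ha)⟩
      · intro B hB
        simp only [List.mem_cons, List.not_mem_nil, or_false] at hB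
        rcases hB with rfl | rfl | rfl
        · exact ⟨Finset.disjoint_singleton.2 hbc, touch_single.2 (hC.2 b hb c hc hbc)⟩
        · exact ⟨A2_dis h.dXS (hCS hb), h.tX b (hCS hb)⟩
        · exact ⟨A2_dis h.dSY.symm (hCS hb), h.tY b (hCS hb)⟩
      · intro B hB
        simp only [List.mem_cons, List.not_mem_nil, or_false] at hB
        rcases hB with rfl | rfl
        · exact ⟨A2_dis h.dXS (hCS hc), h.tX c (hCS hc)⟩
        · exact ⟨A2_dis h.dSY.symm (hCS hc), h.tY c (hCS hc)⟩
      · intro B hB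
        simp only [List.mem_cons, List.not_mem_nil, or_false] at hB
        subst hB
        exact ⟨h.dXY, hxy⟩
      · intro B hB
        exact absurd hB List.not_mem_nil
  rcases hP.k5 _ _ _ _ _ hm with h1 | h1
  · exact hP.cx.fill_three.1 h1
  · exfalso
    have hp : [({a} : Finset V), X, Y].Perm [X, Y, {a}] := by
      have := List.perm_append_comm (l₁ := [({a} : Finset V)]) (l₂ := [X, Y])
      exact this
    exact h.not_fill (A2_ne h.dXS h.hx (hCS ha)) (A2_ne h.dSY.symm h.hy (hCS ha))
      ((fill_perm hp).1 h1)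

theorem tA2 (h1 : StmtA1) : StmtA2 := by
  intro V _ _ Δ x y S X Y C hP hef h hCS hC
  have h3 := A2_three hP hef h hCS hC
  refine ⟨hP.clq_mem hC h3, ?_, ?_⟩
  · refine hP.clq_fill hC h.cX ?_ (fun c hc => h.tX c (hCS hc)) h3 ?_
    · exact Finset.disjoint_of_subset_right hCS h.dXS
    · intro a ha b hb hab
      exact (h1 V Δ x y S X Y a b hP hef h (hCS ha) (hCS hb) (hC.2 a ha b hb hab)).1
  · refine hP.clq_fill hC h.cY ?_ (fun c hc => h.tY c (hCS hc)) h3 ?_
    · exact Finset.disjoint_of_subset_right hCS h.dSY.symm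
    · intro a ha b hb hab
      exact (h1 V Δ x y S X Y a b hP hef h (hCS ha) (hCS hb) (hC.2 a ha b hb hab)).2

end Pool.Agent.Lib.MP_73b196_co.St
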