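import Pool.Agent.Lib.MP_73b196_co.St.Spec

/-!
# A3: a connected part of a separator has a dominating vertex
-/

set_option autoImplicit false

namespace Pool.Agent.Lib.MP_73b196_co.St

theorem A3_mem {V : Type} [Fintype V] [DecidableEq V] {F : Finset V} {s : V}
    (h : (F ∩ {s}).Nonempty) : s ∈ F := by
  obtain ⟨v, hv⟩ := h
  rw [Finset.mem_inter, Finset.mem_singleton] at hv
  rw [← hv.2]
  exact hv.1

theorem A3_ne {V : Type} [Fintype V] [DecidableEq V] {F A : Finset V} {s : V} (h1 : s ∈ F)
    (h2 : s ∈ A) : (F ∩ A).Nonempty := ⟨s, Finset.mem_inter.2 ⟨h1, h2⟩⟩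

/-- no induced path with four vertices (the ends may be adjacent) -/
theorem A3_path (h1 : StmtA1) {V : Type} [Fintype V] [DecidableEq V] {Δ : Set (Finset V)} {x y : V}
    {S X Y : Finset V} {a b c d : V} (hP : InP Δ) (he : EdgeFacet Δ x y) (h : PMS Δ x y S X Y)
    (ha : a ∈ S) (hb : b ∈ S) (hc : c ∈ S) (hd : d ∈ S) (hab : adj Δ a b) (hbc : adj Δ b c)
    (hcd : adj Δ c d) (hac : ¬ adj Δ a c) (hbd : ¬ adj Δ b d) (nac : a ≠ c) (nbd : b ≠ d)
    (nad : a ≠ d) : False := by
  have hX : ∀ s ∈ S, s ∉ X := fun s hs hsX => Finset.disjoint_left.1 h.dXS hsX hs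
  have hY : ∀ s ∈ S, s ∉ Y := fun s hs hsY => Finset.disjoint_left.1 h.dSY hs hsY
  have cXa : Conn Δ (insert a X) := h.cX.insert (h.sS ha) (h.tX a ha)
  have cYd : Conn Δ (insert d Y) := h.cY.insert (h.sS hd) (h.tY d hd)
  have txy : touch Δ X Y := ⟨x, h.hx, y, h.hy, he.ne, he.mem⟩
  have hm : CM Δ [insert a X, insert d Y, {b}, {c}] := by
    constructor
    · intro A hA
      simp only [List.mem_cons, List.not_mem_nil, or_false] at hA
      rcases hA with rfl | rfl | rfl | rfl
      · exact cXa
      · exact cYd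
      · exact conn_single (h.sS hb)
      · exact conn_single (h.sS hc)
    · simp only [List.pairwise_cons, List.mem_cons, List.not_mem_nil, or_false, forall_eq_or_imp,
        forall_eq, List.Pairwise.nil, and_true, IsEmpty.forall_iff, implies_true]
      refine ⟨⟨⟨?_, ?_⟩, ⟨?_, ?_⟩, ?_, ?_⟩, ⟨⟨?_, ?_⟩, ?_, ?_⟩, ?_, ?_⟩
      · rw [Finset.disjoint_insert_left, Finset.disjoint_insert_right, Finset.mem_insert]
        refine ⟨?_, hX d hd, h.dXY⟩
        rintro (h2 | h2)
        · exact nad h2
        · exact hY a ha h2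
      · exact touch_mono (Finset.subset_insert _ _) (Finset.subset_insert _ _) txy
      · rw [Finset.disjoint_singleton_right, Finset.mem_insert]
        rintro (h2 | h2)
        · exact hab.1 h2.symm
        · exact hX b hb h2
      · exact touch_mono (Finset.subset_insert _ _) (Finset.Subset.refl _) (touch_symm (h.tX b hb))
      · rw [Finset.disjoint_singleton_right, Finset.mem_insert]
        rintro (h2 | h2)
        · exact nac h2.symm
        · exact hX c hc h2
      · exact touch_mono (Finset.subset_insert _ _) (Finset.Subset.refl _) (touch_symm (h.tX c hc))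
      · rw [Finset.disjoint_singleton_right, Finset.mem_insert]
        rintro (h2 | h2)
        · exact nbd h2
        · exact hY b hb h2
      · exact touch_mono (Finset.subset_insert _ _) (Finset.Subset.refl _) (touch_symm (h.tY b hb))
      · rw [Finset.disjoint_singleton_right, Finset.mem_insert]
        rintro (h2 | h2)
        · exact hcd.1 h2
        · exact hY c hc h2
      · exact touch_mono (Finset.subset_insert _ _) (Finset.Subset.refl _) (touch_symm (h.tY c hc))
      · rw [Finset.disjoint_singleton_right, Finset.mem_singleton]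
        exact hbc.1.symm
      · exact touch_single.2 hbc
  have f1 : fill Δ [insert a X, insert d Y, {b}] := by
    obtain ⟨F, hF, hF'⟩ := (h1 V Δ x y S X Y a b hP he h ha hb hab).2
    refine ⟨F, hF, ?_⟩
    have hYF := hF' Y (by simp)
    have haF := A3_mem (hF' {a} (by simp))
    have hbF := A3_mem (hF' {b} (by simp))
    intro A hA
    simp only [List.mem_cons, List.not_mem_nil, or_false] at hA
    rcases hA with rfl | rfl | rfl
    · exact A3_ne haF (Finset.mem_insert_self _ _)
    · exact hYF.mono (Finset.inter_subset_inter_left (Finset.subset_insert _ _))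
    · exact A3_ne hbF (Finset.mem_singleton_self _)
  have f2 : fill Δ [insert a X, insert d Y, {c}] := by
    obtain ⟨F, hF, hF'⟩ := (h1 V Δ x y S X Y c d hP he h hc hd hcd).1
    refine ⟨F, hF, ?_⟩
    have hXF := hF' X (by simp)
    have hcF := A3_mem (hF' {c} (by simp))
    have hdF := A3_mem (hF' {d} (by simp))
    intro A hA
    simp only [List.mem_cons, List.not_mem_nil, or_false] at hA
    rcases hA with rfl | rfl | rfl
    · exact hXF.mono (Finset.inter_subset_inter_left (Finset.subset_insert _ _))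
    · exact A3_ne hdF (Finset.mem_insert_self _ _)
    · exact A3_ne hcF (Finset.mem_singleton_self _)
  have h23 := h1 V Δ x y S X Y b c hP he h hb hc hbc
  have f3 : fill Δ [insert a X, {b}, {c}] := by
    obtain ⟨F, hF, hF'⟩ := h23.1
    refine ⟨F, hF, ?_⟩
    have hXF := hF' X (by simp)
    intro A hA
    simp only [List.mem_cons, List.not_mem_nil, or_false] at hA
    rcases hA with rfl | rfl | rfl
    · exact hXF.mono (Finset.inter_subset_inter_left (Finset.subset_insert _ _))
    · exact hF' {b} (by simp)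
    · exact hF' {c} (by simp)
  have f4 : fill Δ [insert d Y, {b}, {c}] := by
    obtain ⟨F, hF, hF'⟩ := h23.2
    refine ⟨F, hF, ?_⟩
    have hYF := hF' Y (by simp)
    intro A hA
    simp only [List.mem_cons, List.not_mem_nil, or_false] at hA
    rcases hA with rfl | rfl | rfl
    · exact hYF.mono (Finset.inter_subset_inter_left (Finset.subset_insert _ _))
    · exact hF' {b} (by simp)
    · exact hF' {c} (by simp)
  obtain ⟨F, hF, hF'⟩ := hP.k4all hm f1 f2 f3 f4
  have hbF := A3_mem (hF' {b} (by simp))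
  have hcF := A3_mem (hF' {c} (by simp))
  have g1 : (F ∩ X).Nonempty := by
    obtain ⟨v, hv⟩ := hF' (insert a X) (by simp)
    rw [Finset.mem_inter, Finset.mem_insert] at hv
    rcases hv.2 with h2 | h2
    · exact absurd (hP.cx.adj_of_face hF (h2 ▸ hv.1) hcF nac) hac
    · exact A3_ne hv.1 h2
  have g2 : (F ∩ Y).Nonempty := by
    obtain ⟨v, hv⟩ := hF' (insert d Y) (by simp)
    rw [Finset.mem_inter, Finset.mem_insert] at hv
    rcases hv.2 with h2 | h2
    · exact absurd (hP.cx.adj_of_face hF hbF (h2 ▸ hv.1) nbd) hbd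
    · exact A3_ne hv.1 h2
  have g3 := h.xy F hF g1 g2
  rw [g3, Finset.mem_insert, Finset.mem_singleton] at hbF
  rcases hbF with h2 | h2
  · exact hX b hb (h2 ▸ h.hx)
  · exact hY b hb (h2 ▸ h.hy)

theorem tA3 (h1 : StmtA1) : StmtA3 := by
  classical
  intro V _ _ Δ x y S X Y C hP he h hCS hC
  obtain ⟨d, hdC, hmax⟩ := C.exists_max_image (fun d => (C.filter fun c => adj Δ d c).card) hC.2.1
  refine ⟨d, hdC, ?_⟩
  by_contra hcon
  push Not at hcon
  obtain ⟨c0, hc0, hc0d, hc0n⟩ := hcon
  -- the set of `d` and its neighbours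
  have hB1 : (C.filter fun c => c = d ∨ adj Δ d c) ⊆ C := Finset.filter_subset _ _
  have hB2 : (C.filter fun c => c = d ∨ adj Δ d c).Nonempty :=
    ⟨d, Finset.mem_filter.2 ⟨hdC, Or.inl rfl⟩⟩
  have hB3 : (C \ C.filter fun c => c = d ∨ adj Δ d c).Nonempty := by
    refine ⟨c0, Finset.mem_sdiff.2 ⟨hc0, ?_⟩⟩
    rw [Finset.mem_filter]
    rintro ⟨-, h2 | h2⟩
    · exact hc0d h2
    · exact hc0n h2
  obtain ⟨a, haB, b, hbB, hab⟩ := hC.2.2 _ hB1 hB2 hB3
  rw [Finset.mem_filter] at haB
  rw [Finset.mem_sdiff, Finset.mem_filter] at hbB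
  obtain ⟨hbC, hbn⟩ := hbB
  have hbd : b ≠ d := fun h2 => hbn ⟨hbC, Or.inl h2⟩
  have hdb : ¬ adj Δ d b := fun h2 => hbn ⟨hbC, Or.inr h2⟩
  have had : adj Δ d a := by
    rcases haB.2 with h2 | h2
    · rw [h2] at hab
      exact absurd hab hdb
    · exact h2
  have haC := haB.1
  -- a neighbour of `d` which is not a neighbour of `a`
  obtain ⟨c, hcC, hdc, hca, hac⟩ : ∃ c ∈ C, adj Δ d c ∧ c ≠ a ∧ ¬ adj Δ a c := by
    by_contra hno
    push Not at hno
    have hsub : (C.filter fun c => adj Δ d c).erase a ⊆ (C.filter fun c => adj Δ a c).erase d := by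
      intro c hc
      rw [Finset.mem_erase, Finset.mem_filter] at hc
      rw [Finset.mem_erase, Finset.mem_filter]
      exact ⟨hc.2.2.1.symm, hc.2.1, hno c hc.2.1 hc.2.2 hc.1⟩
    have hss : (C.filter fun c => adj Δ d c).erase a ⊂ (C.filter fun c => adj Δ a c).erase d := by
      refine Finset.ssubset_iff_subset_ne.2 ⟨hsub, fun h2 => ?_⟩
      have h3 : b ∈ (C.filter fun c => adj Δ a c).erase d := by
        rw [Finset.mem_erase, Finset.mem_filter]
        exact ⟨hbd, hbC, hab⟩
      rw [← h2, Finset.mem_erase, Finset.mem_filter] at h3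
      exact hdb h3.2.2
    have h4 := Finset.card_lt_card hss
    have h5 : a ∈ C.filter fun c => adj Δ d c := Finset.mem_filter.2 ⟨haC, had⟩
    have h6 : d ∈ C.filter fun c => adj Δ a c := Finset.mem_filter.2 ⟨hdC, adj_symm had⟩
    rw [Finset.card_erase_of_mem h5, Finset.card_erase_of_mem h6] at h4
    have h7 := hmax a haC
    omega
  exact A3_path h1 hP he h (hCS hcC) (hCS hdC) (hCS haC) (hCS hbC) (adj_symm hdc) had hab
    (fun h2 => hac (adj_symm h2)) hdb hca hbd.symm (fun h2 => hdb (h2 ▸ hdc))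

end Pool.Agent.Lib.MP_73b196_co.St
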