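import Pool.Agent.Lib.MP_73b196_co.St.Spec

/-!
# A4: every separator contains a minimal one
-/

set_option autoImplicit false

namespace Pool.Agent.Lib.MP_73b196_co.St

variable {V : Type} [Fintype V] [DecidableEq V] {Δ : Set (Finset V)}
  {C E N S X Y X' Y' : Finset V} {s x y : V}

theorem A4_left (h : Spl Δ x y S X Y) : X ⊆ vs Δ := by
  rw [← h.un]
  exact fun v hv => Finset.mem_union_left _ (Finset.mem_union_left _ hv)

theorem A4_mid (h : Spl Δ x y S X Y) : S ⊆ vs Δ := by
  rw [← h.un]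
  exact fun v hv => Finset.mem_union_left _ (Finset.mem_union_right _ hv)

theorem A4_right (h : Spl Δ x y S X Y) : Y ⊆ vs Δ := by
  rw [← h.un]
  exact fun v hv => Finset.mem_union_right _ hv

/-- If `s` does not touch the component of `x`, it may be removed from the separator. -/
theorem A4_side (hcx : IsCx Δ) (h : Spl Δ x y S X Y) (hC : IsComp Δ X C) (hxC : x ∈ C)
    (hn : ¬ touch Δ {s} C) :
    Spl Δ x y (S.erase s) C ((vs Δ \ C) \ S.erase s) := by
  have hCX : C ⊆ X := hC.1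
  have hCv : C ⊆ vs Δ := hCX.trans (A4_left h)
  have hSv : S.erase s ⊆ vs Δ := (Finset.erase_subset s S).trans (A4_mid h)
  refine ⟨?_, ?_, ?_, ?_, hxC, ?_, fun F hF => ?_⟩
  · ext v
    simp only [Finset.mem_union, Finset.mem_sdiff]
    constructor
    · rintro ((h1 | h1) | h1)
      · exact hCv h1
      · exact hSv h1
      · exact h1.1.1
    · intro h1
      by_cases h2 : v ∈ C
      · exact Or.inl (Or.inl h2)
      · by_cases h3 : v ∈ S.erase s
        · exact Or.inl (Or.inr h3)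
        · exact Or.inr ⟨⟨h1, h2⟩, h3⟩
  · exact (h.dXS.mono_left hCX).mono_right (Finset.erase_subset s S)
  · rw [Finset.disjoint_left]
    intro v h1 h2
    rw [Finset.mem_sdiff, Finset.mem_sdiff] at h2
    exact h2.1.2 h1
  · rw [Finset.disjoint_left]
    intro v h1 h2
    rw [Finset.mem_sdiff] at h2
    exact h2.2 h1
  · rw [Finset.mem_sdiff, Finset.mem_sdiff]
    refine ⟨⟨A4_right h h.hy, fun h1 => ?_⟩, fun h1 => ?_⟩
    · exact (Finset.disjoint_left.1 h.dXY) (hCX h1) h.hy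
    · exact (Finset.disjoint_left.1 h.dSY) (Finset.mem_of_mem_erase h1) h.hy
  · by_cases he : F = {x, y}
    · exact Or.inr (Or.inr he)
    · by_cases hFC : (F ∩ C).Nonempty
      · left
        obtain ⟨a, ha⟩ := hFC
        rw [Finset.mem_inter] at ha
        have h1 := h.sub_left hF he ⟨a, Finset.mem_inter.2 ⟨ha.1, hCX ha.2⟩⟩
        intro b hb
        by_cases hba : b = a
        · rw [hba]
          exact Finset.mem_union_left _ ha.2
        · have hadj : adj Δ a b := hcx.adj_of_face hF ha.1 hb (fun h2 => hba h2.symm)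
          rcases Finset.mem_union.1 (h1 hb) with h2 | h2
          · exact Finset.mem_union_left _ (hC.mem_of_adj ha.2 h2 hadj)
          · refine Finset.mem_union_right _ (Finset.mem_erase.2 ⟨?_, h2⟩)
            rintro rfl
            exact hn (touch_single_left.2 ⟨a, ha.2, adj_symm hadj⟩)
      · right; left
        intro b hb
        have hbv : b ∈ vs Δ := hcx.sub_vs hF hb
        have hbC : b ∉ C := fun h1 => hFC ⟨b, Finset.mem_inter.2 ⟨hb, h1⟩⟩
        rw [Finset.mem_union, Finset.mem_sdiff, Finset.mem_sdiff]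
        by_cases h3 : b ∈ S.erase s
        · exact Or.inr h3
        · exact Or.inl ⟨⟨hbv, hbC⟩, h3⟩

/-- A component of the rest does not touch the component of `x`. -/
theorem A4_rest (h : Spl Δ x y S X Y) (hX : IsComp Δ X X') (hyY : y ∈ Y')
    (hE : ∀ e ∈ E, e ∈ vs Δ ∧ e ∉ X' ∧ e ∉ S ∧ e ∉ Y') : ¬ touch Δ E X' := by
  rintro ⟨a, ha, b, hb, hab⟩
  obtain ⟨h1, h2, h3, h4⟩ := hE a ha
  rw [← h.un, Finset.mem_union, Finset.mem_union] at h1
  rcases h1 with (h1 | h1) | h1
  · exact h2 (hX.mem_of_adj hb h1 (adj_symm hab))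
  · exact h3 h1
  · have h5 := (h.no_edge (hX.1 hb) h1 (adj_symm hab)).2
    rw [h5] at h4
    exact h4 hyY

theorem tA4 (h2 : StmtA2) : StmtA4 := by
  classical
  intro V _ _ Δ x y U X₀ Y₀ hctx hspl
  have hcx : IsCx Δ := hctx.inP.cx
  obtain ⟨S, hS, hmin⟩ := Finset.exists_min_image
    (U.powerset.filter fun S => ∃ X Y, Spl Δ x y S X Y) Finset.card
    ⟨U, Finset.mem_filter.2 ⟨Finset.mem_powerset.2 (Finset.Subset.refl U), X₀, Y₀, hspl⟩⟩
  rw [Finset.mem_filter, Finset.mem_powerset] at hS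
  obtain ⟨hSU, X, Y, h⟩ := hS
  have hmin' : ∀ s ∈ S, ∀ X Y, ¬ Spl Δ x y (S.erase s) X Y := by
    intro s hs X Y hsp
    have h3 := hmin (S.erase s) (Finset.mem_filter.2
      ⟨Finset.mem_powerset.2 ((Finset.erase_subset s S).trans hSU), X, Y, hsp⟩)
    rw [Finset.card_erase_of_mem hs] at h3
    have h4 : 0 < S.card := Finset.card_pos.2 ⟨s, hs⟩
    omega
  obtain ⟨X', hX', hxX'⟩ := exists_comp (A4_left h) h.hx
  obtain ⟨Y', hY', hyY'⟩ := exists_comp (A4_right h) h.hy
  have htX : ∀ s ∈ S, touch Δ {s} X' := by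
    intro s hs
    by_contra hn
    exact hmin' s hs _ _ (A4_side hcx h hX' hxX' hn)
  have htY : ∀ s ∈ S, touch Δ {s} Y' := by
    intro s hs
    by_contra hn
    exact hmin' s hs _ _ (A4_side hcx h.symm hY' hyY' hn).symm
  have hdXS : Disjoint X' S := h.dXS.mono_left hX'.1
  have hdSY : Disjoint S Y' := h.dSY.mono_right hY'.1
  have hdXY : Disjoint X' Y' := (h.dXY.mono_left hX'.1).mono_right hY'.1
  have hSv : S ⊆ vs Δ := A4_mid h
  have hpms : PMS Δ x y S X' Y' := by
    refine ⟨hxX', hyY', hX'.2.1, hY'.2.1, hSv, hdXS, hdXY, hdSY, htX, htY, fun F hF h3 h4 => ?_⟩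
    by_contra hne
    obtain ⟨a, ha⟩ := h3
    obtain ⟨b, hb⟩ := h4
    rw [Finset.mem_inter] at ha hb
    have h5 := h.sub_left hF hne ⟨a, Finset.mem_inter.2 ⟨ha.1, hX'.1 ha.2⟩⟩ hb.1
    rcases Finset.mem_union.1 h5 with h6 | h6
    · exact (Finset.disjoint_left.1 h.dXY) h6 (hY'.1 hb.2)
    · exact (Finset.disjoint_left.1 h.dSY) h6 (hY'.1 hb.2)
  have hxy : adj Δ x y := hctx.adj
  have hall : ∀ v ∈ vs Δ, v ∈ X' ∨ v ∈ S ∨ v ∈ Y' := by
    by_contra hcon
    push Not at hcon
    obtain ⟨e, hev, heX, heS, heY⟩ := hcon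
    set R : Finset V := (vs Δ \ X') \ (S ∪ Y') with hR
    have hRm : ∀ v, v ∈ R ↔ v ∈ vs Δ ∧ v ∉ X' ∧ v ∉ S ∧ v ∉ Y' := by
      intro v
      rw [hR, Finset.mem_sdiff, Finset.mem_sdiff, Finset.mem_union, not_or]
      tauto
    obtain ⟨E, hE, heE⟩ := exists_comp (Δ := Δ) (U := R) (v := e)
      (fun v hv => ((hRm v).1 hv).1) ((hRm e).2 ⟨hev, heX, heS, heY⟩)
    have hEm : ∀ e ∈ E, e ∈ vs Δ ∧ e ∉ X' ∧ e ∉ S ∧ e ∉ Y' := fun v hv => (hRm v).1 (hE.1 hv)
    have hEX : ¬ touch Δ E X' := A4_rest h hX' hyY' hEm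
    have hEY : ¬ touch Δ E Y' := A4_rest h.symm hY' hxX' (fun v hv =>
      ⟨(hEm v hv).1, (hEm v hv).2.2.2, (hEm v hv).2.2.1, (hEm v hv).2.1⟩)
    set N : Finset V := S.filter fun s => touch Δ {s} E with hN
    have hNS : N ⊆ S := Finset.filter_subset _ _
    have hxE : x ∉ E := fun h3 => (hEm x h3).2.1 hxX'
    have hyE : y ∉ E := fun h3 => (hEm y h3).2.2.2 hyY'
    have hxS : x ∉ S := fun h3 => (Finset.disjoint_left.1 hdXS) hxX' h3
    have hyS : y ∉ S := fun h3 => (Finset.disjoint_left.1 hdSY) h3 hyY'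
    have hNΔ : N ∉ Δ := by
      intro hNf
      have hc := hctx.irr.conn N hNf
      have h3 : ¬ touch Δ E ((vs Δ \ N) \ E) := by
        rintro ⟨a, ha, b, hb, hab⟩
        rw [Finset.mem_sdiff, Finset.mem_sdiff] at hb
        obtain ⟨⟨hbv, hbN⟩, hbE⟩ := hb
        by_cases hbX : b ∈ X'
        · exact hEX ⟨a, ha, b, hbX, hab⟩
        by_cases hbY : b ∈ Y'
        · exact hEY ⟨a, ha, b, hbY, hab⟩
        by_cases hbS : b ∈ S
        · exact hbN (Finset.mem_filter.2 ⟨hbS, touch_single_left.2 ⟨a, ha, adj_symm hab⟩⟩)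
        · exact hbE (hE.mem_of_adj ha ((hRm b).2 ⟨hbv, hbX, hbS, hbY⟩) hab)
      have h4 := hc.sub_of_closed (Finset.Subset.refl _) h3
        ⟨e, Finset.mem_inter.2 ⟨Finset.mem_sdiff.2 ⟨hev, fun h5 => heS (hNS h5)⟩, heE⟩⟩
      exact hxE (h4 (Finset.mem_sdiff.2 ⟨hctx.mem_left, fun h5 => hxS (hNS h5)⟩))
    have hncl : ¬ Clq Δ N := fun hcl =>
      hNΔ (h2 V Δ x y S X' Y' N hctx.inP hctx.ef hpms hNS hcl).1
    have hex : ∃ s ∈ N, ∃ s' ∈ N, s ≠ s' ∧ ¬ adj Δ s s' := by
      by_contra hcon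
      push Not at hcon
      exact hncl ⟨hNS.trans hSv, fun a ha b hb hab => hcon a ha b hb hab⟩
    obtain ⟨s, hs, s', hs', hss, hnadj⟩ := hex
    have hsS := hNS hs
    have hs'S := hNS hs'
    have hsE : touch Δ {s} E := (Finset.mem_filter.1 hs).2
    have hs'E : touch Δ {s'} E := (Finset.mem_filter.1 hs').2
    have hcE : Conn Δ (insert s E) := hE.2.1.insert (hSv hsS) hsE
    have hdX1 : Disjoint X' (insert s E) := by
      rw [Finset.disjoint_insert_right]
      refine ⟨fun h3 => (Finset.disjoint_left.1 hdXS) h3 hsS, ?_⟩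
      rw [Finset.disjoint_left]
      exact fun v h3 h4 => (hEm v h4).2.1 h3
    have hdY1 : Disjoint Y' (insert s E) := by
      rw [Finset.disjoint_insert_right]
      refine ⟨fun h3 => (Finset.disjoint_left.1 hdSY) hsS h3, ?_⟩
      rw [Finset.disjoint_left]
      exact fun v h3 h4 => (hEm v h4).2.2.2 h3
    have hdX2 : Disjoint X' {s'} := by
      rw [Finset.disjoint_singleton_right]
      exact fun h3 => (Finset.disjoint_left.1 hdXS) h3 hs'S
    have hdY2 : Disjoint Y' {s'} := by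
      rw [Finset.disjoint_singleton_right]
      exact fun h3 => (Finset.disjoint_left.1 hdSY) hs'S h3
    have hd12 : Disjoint (insert s E) {s'} := by
      rw [Finset.disjoint_singleton_right, Finset.mem_insert, not_or]
      exact ⟨fun h3 => hss h3.symm, fun h3 => (hEm s' h3).2.2.1 hs'S⟩
    have ht1 : ∀ Z, touch Δ {s} Z → touch Δ Z (insert s E) := fun Z hZ =>
      touch_mono (Finset.Subset.refl _) (Finset.singleton_subset_iff.2
        (Finset.mem_insert_self s E)) (touch_symm hZ)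
    have hcm : CM Δ [X', Y', insert s E, {s'}] := by
      constructor
      · intro A hA
        simp only [List.mem_cons, List.not_mem_nil, or_false] at hA
        rcases hA with rfl | rfl | rfl | rfl
        · exact hX'.2.1
        · exact hY'.2.1
        · exact hcE
        · exact conn_single (hSv hs'S)
      · simp only [List.pairwise_cons, List.mem_cons, List.not_mem_nil, or_false,
          forall_eq_or_imp, forall_eq, List.Pairwise.nil, and_true, false_imp_iff,
          implies_true]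
        refine ⟨⟨⟨hdXY, x, hxX', y, hyY', hxy⟩, ⟨hdX1, ht1 _ (htX s hsS)⟩,
          ⟨hdX2, touch_symm (htX s' hs'S)⟩⟩, ⟨⟨hdY1, ht1 _ (htY s hsS)⟩,
          ⟨hdY2, touch_symm (htY s' hs'S)⟩⟩, ⟨hd12, ?_⟩⟩
        exact touch_symm (touch_mono (Finset.Subset.refl _) (Finset.subset_insert s E) hs'E)
    refine hctx.inP.k4three hcm ?_ ?_ ?_
    · refine hpms.not_fill ?_ ?_
      · rw [Finset.mem_insert, not_or]
        exact ⟨fun h3 => hxS (h3 ▸ hsS), hxE⟩
      · rw [Finset.mem_insert, not_or]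
        exact ⟨fun h3 => hyS (h3 ▸ hsS), hyE⟩
    · refine hpms.not_fill ?_ ?_
      · rw [Finset.mem_singleton]
        exact fun h3 => hxS (h3 ▸ hs'S)
      · rw [Finset.mem_singleton]
        exact fun h3 => hyS (h3 ▸ hs'S)
    · rintro ⟨F, hF, hFm⟩
      obtain ⟨a, ha⟩ := hFm X' (by simp)
      obtain ⟨b, hb⟩ := hFm (insert s E) (by simp)
      obtain ⟨c, hc⟩ := hFm {s'} (by simp)
      rw [Finset.mem_inter] at ha hb hc
      have hc' : c = s' := Finset.mem_singleton.1 hc.2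
      subst hc'
      rcases Finset.mem_insert.1 hb.2 with h3 | h3
      · subst h3
        exact hnadj (hcx.adj_of_face hF hb.1 hc.1 hss)
      · refine hEX ⟨b, h3, a, ha.2, hcx.adj_of_face hF hb.1 ha.1 ?_⟩
        rintro rfl
        exact (hEm b h3).2.1 ha.2
  refine ⟨S, X', Y', hSU, ⟨⟨?_, hdXS, hdXY, hdSY, hxX', hyY', fun F hF => ?_⟩,
    hX'.2.1, hY'.2.1, htX, htY⟩⟩
  · ext v
    rw [Finset.mem_union, Finset.mem_union]
    constructor
    · rintro ((h3 | h3) | h3)
      · exact hX'.2.1.1 h3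
      · exact hSv h3
      · exact hY'.2.1.1 h3
    · intro h3
      rcases hall v h3 with h4 | h4 | h4
      · exact Or.inl (Or.inl h4)
      · exact Or.inl (Or.inr h4)
      · exact Or.inr h4
  · by_cases hFX : (F ∩ X').Nonempty
    · by_cases hFY : (F ∩ Y').Nonempty
      · exact Or.inr (Or.inr (hpms.xy F hF hFX hFY))
      · left
        intro b hb
        rw [Finset.mem_union]
        rcases hall b (hcx.sub_vs hF hb) with h4 | h4 | h4
        · exact Or.inl h4
        · exact Or.inr h4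
        · exact absurd ⟨b, Finset.mem_inter.2 ⟨hb, h4⟩⟩ hFY
    · right; left
      intro b hb
      rw [Finset.mem_union]
      rcases hall b (hcx.sub_vs hF hb) with h4 | h4 | h4
      · exact absurd ⟨b, Finset.mem_inter.2 ⟨hb, h4⟩⟩ hFX
      · exact Or.inr h4
      · exact Or.inl h4

end Pool.Agent.Lib.MP_73b196_co.St
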