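import Pool.Agent.Lib.MP_73b196_co.St.Spec

/-!
# A5: separators are nonempty
-/

set_option autoImplicit false

namespace Pool.Agent.Lib.MP_73b196_co.St

variable {V : Type} [Fintype V] [DecidableEq V] {Δ : Set (Finset V)} {X Y : Finset V} {x y : V}

/-- If the separator is empty, the side of `x` is `{x}`. -/
theorem A5_side (hctx : Ctx Δ x y) (h : Spl Δ x y ∅ X Y) : ∀ a ∈ X, a = x := by
  intro a ha
  by_contra hne
  have hX : X ⊆ vs Δ := by
    rw [← h.un]
    exact fun v hv => Finset.mem_union_left _ (Finset.mem_union_left _ hv)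
  have hY : Y ⊆ vs Δ := by
    rw [← h.un]
    exact fun v hv => Finset.mem_union_right _ hv
  have hx : ({x} : Finset V) ∈ Δ := mem_vs.1 hctx.mem_left
  have hc := hctx.irr.conn {x} hx
  have hyx : y ≠ x := fun h1 => hctx.ef.ne h1.symm
  have hyX : y ∉ X := fun h1 => (Finset.disjoint_left.1 h.dXY) h1 h.hy
  obtain ⟨b, hb, c, hcc, hbc⟩ := hc.2.2 (X \ {x})
    (Finset.sdiff_subset_sdiff hX (Finset.Subset.refl _))
    ⟨a, Finset.mem_sdiff.2 ⟨ha, by rwa [Finset.mem_singleton]⟩⟩
    ⟨y, by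
      rw [Finset.mem_sdiff, Finset.mem_sdiff, Finset.mem_singleton]
      exact ⟨⟨hY h.hy, hyx⟩, fun h1 => hyX (Finset.mem_sdiff.1 h1).1⟩⟩
  rw [Finset.mem_sdiff, Finset.mem_singleton] at hb
  rw [Finset.mem_sdiff, Finset.mem_sdiff, Finset.mem_singleton, Finset.mem_sdiff,
    Finset.mem_singleton] at hcc
  obtain ⟨⟨hcv, hcx⟩, hcn⟩ := hcc
  have hcY : c ∈ Y := by
    rw [← h.un, Finset.mem_union, Finset.mem_union] at hcv
    rcases hcv with (h1 | h1) | h1
    · exact absurd ⟨h1, hcx⟩ hcn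
    · exact absurd h1 (Finset.notMem_empty c)
    · exact h1
  exact hb.2 (h.no_edge hb.1 hcY hbc).1

theorem tA5 : StmtA5 := by
  intro V _ _ Δ x y U X Y hctx h
  by_contra hU
  rw [Finset.not_nonempty_iff_eq_empty] at hU
  subst hU
  have h1 := A5_side hctx h
  have h2 := A5_side hctx.symm h.symm
  refine hctx.irr.noApex x fun F hF => ?_
  refine hctx.inP.cx.down {x, y} hctx.ef.mem _ ?_
  intro a ha
  rw [Finset.mem_insert, Finset.mem_singleton]
  rcases Finset.mem_insert.1 ha with h3 | h3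
  · exact Or.inl h3
  · have h4 := hctx.inP.cx.sub_vs hF h3
    rw [← h.un, Finset.mem_union, Finset.mem_union] at h4
    rcases h4 with (h4 | h4) | h4
    · exact Or.inl (h1 a h4)
    · exact absurd h4 (Finset.notMem_empty a)
    · exact Or.inr (h2 a h4)

end Pool.Agent.Lib.MP_73b196_co.St
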