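import Pool.Agent.Lib.MP_73b196_co.St.Spec

/-!
# A6: separators with two elements are minimal
-/

set_option autoImplicit false

namespace Pool.Agent.Lib.MP_73b196_co.St

variable {V : Type} [Fintype V] [DecidableEq V] {Δ : Set (Finset V)} {S X Y X' Y' : Finset V}
  {x y : V}

theorem A6_side (h : Spl Δ x y S X Y) (h' : MS Δ x y S X' Y') : X' ⊆ X := by
  refine h'.cX.sub_of_closed (U := (X ∪ Y) \ {y}) ?_ ?_ ⟨x, Finset.mem_inter.2 ⟨h'.hx, h.hx⟩⟩
  · intro a ha
    have h1 : a ∈ vs Δ := h'.cX.1 ha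
    have h2 : a ∉ S := fun h3 => (Finset.disjoint_left.1 h'.dXS) ha h3
    rw [← h.un, Finset.mem_union, Finset.mem_union] at h1
    rw [Finset.mem_sdiff, Finset.mem_union, Finset.mem_singleton]
    refine ⟨?_, ?_⟩
    · rcases h1 with (h1 | h1) | h1
      · exact Or.inl h1
      · exact absurd h1 h2
      · exact Or.inr h1
    · rintro rfl
      exact (Finset.disjoint_left.1 h'.dXY) ha h'.hy
  · rintro ⟨a, ha, b, hb, hab⟩
    rw [Finset.mem_sdiff, Finset.mem_sdiff, Finset.mem_union, Finset.mem_singleton] at hb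
    obtain ⟨⟨h1, h2⟩, h3⟩ := hb
    rcases h1 with h1 | h1
    · exact h3 h1
    · exact h2 (h.no_edge ha h1 hab).2

theorem A6_eq (h : Spl Δ x y S X Y) (h' : MS Δ x y S X' Y') (hY : Y' ⊆ Y) : X ⊆ X' := by
  intro a ha
  have h1 : a ∈ vs Δ := by
    rw [← h.un]
    exact Finset.mem_union_left _ (Finset.mem_union_left _ ha)
  rw [← h'.un, Finset.mem_union, Finset.mem_union] at h1
  rcases h1 with (h1 | h1) | h1
  · exact h1
  · exact absurd h1 fun h2 => (Finset.disjoint_left.1 h.dXS) ha h2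
  · exact absurd (hY h1) fun h2 => (Finset.disjoint_left.1 h.dXY) ha h2

theorem tA6 (h4 : StmtA4) (h5 : StmtA5) : StmtA6 := by
  intro V _ _ Δ x y s t X Y hctx h1 hst h
  obtain ⟨S, X', Y', hS, hms⟩ := h4 V Δ x y {s, t} X Y hctx h
  have hne : S.Nonempty := h5 V Δ x y S X' Y' hctx hms.toSpl
  have hcard : 2 ≤ S.card := by
    have h2 : S.card ≠ 1 := by
      intro h3
      obtain ⟨u, hu⟩ := Finset.card_eq_one.1 h3
      rw [hu] at hms
      exact h1 u X' Y' hms.toSpl
    have h3 := Finset.card_pos.2 hne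
    omega
  have hSe : S = {s, t} := Finset.eq_of_subset_of_card_le hS (by
    rw [Finset.card_pair hst]
    exact hcard)
  rw [hSe] at hms
  have hX : X' ⊆ X := A6_side h hms
  have hY : Y' ⊆ Y := A6_side h.symm hms.symm
  have hX' : X ⊆ X' := A6_eq h hms hY
  have hY' : Y ⊆ Y' := A6_eq h.symm hms.symm hX
  rw [Finset.Subset.antisymm hX' hX, Finset.Subset.antisymm hY' hY]
  exact hms

end Pool.Agent.Lib.MP_73b196_co.St
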