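import Pool.Agent.Lib.MP_73b196_co.St.FinSpec

/-!
# G1: property (P) for minors with the added edge in the class
-/

set_option autoImplicit false
set_option linter.unusedSectionVars false

namespace Pool.Agent.Lib.MP_73b196_co.St

open Pool.Agent.Lib.MP_73b196_co.Fib (Dg PP ad cone pw On)

theorem tG1 : StmtG1 := by
  intro V _ _ n Γ x y hD hE hcard hxy hP hx hy hP'
  by_cases hm : ({x, y} : Finset V) ∈ Γ
  · exact Fib.pp_of_mem hm (hD Γ hcard hP)
  have hvs : vs (ad Γ x y) = vs Γ := by
    ext v
    rw [mem_vs, mem_vs]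
    constructor
    · rintro (h1 | h1)
      · exfalso
        have h2 : x ∈ ({v} : Finset V) := by rw [h1]; simp
        have h3 : y ∈ ({v} : Finset V) := by rw [h1]; simp
        rw [Finset.mem_singleton] at h2 h3
        exact hxy (h2.trans h3.symm)
      · exact h1
    · exact fun h1 => Or.inr h1
  have hdel : del (ad Γ x y) x y = Γ := by
    ext F
    constructor
    · rintro ⟨h1 | h1, h2⟩
      · exact absurd h1 h2
      · exact h1
    · exact fun h1 => ⟨Or.inr h1, fun h2 => hm (h2 ▸ h1)⟩
  have h1 := hE (ad Γ x y) x y (by rw [hvs]; exact hcard) hP' ⟨hxy, Or.inl rfl, ?_⟩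
  · rw [hdel] at h1
    exact h1
  · rintro F (hF | hF) hxF hyF
    · exact hF
    · refine absurd (hP.cx.down F hF _ ?_) hm
      rw [Finset.insert_subset_iff, Finset.singleton_subset_iff]
      exact ⟨hxF, hyF⟩

end Pool.Agent.Lib.MP_73b196_co.St
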