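import Pool.Agent.Lib.MP_73b196_co.St.FinSpec

/-!
# G2: a minor
-/

set_option autoImplicit false

namespace Pool.Agent.Lib.MP_73b196_co.St

open Pool.Agent.Lib.MP_73b196_co.Fib (Dg PP ad cone pw On)

variable {V : Type} [Fintype V] [DecidableEq V] {Δ : Set (Finset V)}

omit [Fintype V] in
theorem G2_image {A F : Finset V} {a : V} (h : ∀ v ∈ F, v ∈ A → v = a) :
    F.image (fun v => if v ∈ A then a else v) = F := by
  ext v
  rw [Finset.mem_image]
  constructor
  · rintro ⟨w, hw, rfl⟩
    by_cases hwA : w ∈ A
    · rw [if_pos hwA, ← h w hw hwA]
      exact hw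
    · rw [if_neg hwA]
      exact hw
  · intro hv
    refine ⟨v, hv, ?_⟩
    by_cases hvA : v ∈ A
    · rw [if_pos hvA, h v hv hvA]
    · rw [if_neg hvA]

theorem tG2 : StmtG2 := by
  intro V _ _ Δ C U a b hP hC hd ha hb hab hta htb hF
  have hcx := hP.cx
  obtain ⟨c, hc, hac⟩ := touch_single_left.1 hta
  obtain ⟨d, hdC, hbd⟩ := touch_single_left.1 htb
  have hav : a ∈ vs Δ := (hcx.adj_vs hac).1
  have hCU : ∀ v ∈ U, v ∉ C := fun v hv hv' => Finset.disjoint_left.1 hd hv' hv
  have hconn : Conn Δ (insert a C) := hC.insert hav hta
  have key := (hP.con hconn (Finset.mem_insert_self a C)).ind U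
  have hEq : ind (con Δ (insert a C) a) U = ad (ind Δ U) a b := by
    ext G
    constructor
    · rintro ⟨⟨F, hFΔ, rfl⟩, hGU⟩
      by_cases hFC : (F ∩ C).Nonempty
      · have h1 := hF F hFΔ hFC
        have h2 : a ∈ F.image (fun v => if v ∈ insert a C then a else v) := by
          obtain ⟨v, hv⟩ := hFC
          rw [Finset.mem_inter] at hv
          exact Finset.mem_image.2 ⟨v, hv.1, if_pos (Finset.mem_insert_of_mem hv.2)⟩
        have h3 : F.image (fun v => if v ∈ insert a C then a else v) ⊆ {a, b} := by
          intro w hw
          obtain ⟨v, hv, rfl⟩ := Finset.mem_image.1 hw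
          by_cases hvA : v ∈ insert a C
          · rw [if_pos hvA]
            simp
          · rw [if_neg hvA]
            have h4 := hGU hw
            rw [if_neg hvA] at h4
            exact h1 (Finset.mem_inter.2 ⟨hv, h4⟩)
        by_cases h5 : b ∈ F.image (fun v => if v ∈ insert a C then a else v)
        · left
          refine Finset.Subset.antisymm h3 ?_
          intro w hw
          simp only [Finset.mem_insert, Finset.mem_singleton] at hw
          rcases hw with rfl | rfl
          · exact h2
          · exact h5
        · right
          have h6 : F.image (fun v => if v ∈ insert a C then a else v) = {a} := by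
            refine Finset.Subset.antisymm ?_ (Finset.singleton_subset_iff.2 h2)
            intro w hw
            have h7 := h3 hw
            simp only [Finset.mem_insert, Finset.mem_singleton] at h7 ⊢
            rcases h7 with h7 | h7
            · exact h7
            · exact absurd (h7 ▸ hw) h5
          rw [h6]
          exact ⟨mem_vs.1 hav, Finset.singleton_subset_iff.2 ha⟩
      · right
        have h1 : F.image (fun v => if v ∈ insert a C then a else v) = F := by
          refine G2_image ?_
          intro v hv hvA
          rcases Finset.mem_insert.1 hvA with h2 | h2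
          · exact h2
          · exact absurd ⟨v, Finset.mem_inter.2 ⟨hv, h2⟩⟩ hFC
        rw [h1] at hGU ⊢
        exact ⟨hFΔ, hGU⟩
    · rintro (h | ⟨h1, h2⟩)
      · rw [h]
        refine ⟨⟨{d, b}, ?_, ?_⟩, ?_⟩
        · rw [Finset.pair_comm]
          exact hbd.2
        · rw [Finset.image_insert, Finset.image_singleton, if_pos (Finset.mem_insert_of_mem hdC),
            if_neg]
          rw [Finset.mem_insert]
          rintro (h1 | h1)
          · exact hab h1.symm
          · exact hCU b hb h1
        · intro w hw
          simp only [Finset.mem_insert, Finset.mem_singleton] at hw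
          rcases hw with rfl | rfl
          · exact ha
          · exact hb
      · refine ⟨⟨G, h1, G2_image ?_⟩, h2⟩
        intro v hv hvA
        rcases Finset.mem_insert.1 hvA with h3 | h3
        · exact h3
        · exact absurd h3 (hCU v (h2 hv))
  rw [← hEq]
  exact key

end Pool.Agent.Lib.MP_73b196_co.St
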