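import Pool.Agent.Lib.MP_73b196_co.St.FinSpec

/-!
# G3: a minor for hollow triangles
-/

set_option autoImplicit false

namespace Pool.Agent.Lib.MP_73b196_co.St

variable {V : Type} [Fintype V] [DecidableEq V] {Δ : Set (Finset V)} {C U F : Finset V}
  {a b c v : V}

omit [Fintype V] in
theorem G3_ret (hc : c ∉ C) (v : V) :
    (if v ∈ insert c C then c else v) = if v ∈ C then c else v := by
  by_cases hv : v = c
  · subst hv
    rw [if_pos (Finset.mem_insert_self v C), if_neg hc]
  · by_cases hvC : v ∈ C
    · rw [if_pos hvC, if_pos (Finset.mem_insert_of_mem hvC)]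
    · rw [if_neg hvC, if_neg]
      rw [Finset.mem_insert, not_or]
      exact ⟨hv, hvC⟩

omit [Fintype V] in
/-- The retraction does not change sets which are disjoint from `C`. -/
theorem G3_img (hc : c ∉ C) (hF : Disjoint F C) :
    F.image (fun v => if v ∈ insert c C then c else v) = F := by
  have h1 : F.image (fun v => if v ∈ insert c C then c else v) = F.image id := by
    refine Finset.image_congr ?_
    intro v hv
    show (if v ∈ insert c C then c else v) = v
    rw [G3_ret hc, if_neg (Finset.disjoint_left.1 hF hv)]
  rw [h1, Finset.image_id]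

theorem G3_core (h : InP Δ) (hC : Conn Δ C) (hd : Disjoint C U) (ha : a ∈ U) (hb : b ∈ U)
    (hcU : c ∈ U) (hab : adj Δ a b) (hac : adj Δ a c) (hbc : adj Δ b c)
    (htc : touch Δ {c} C) (hf : fill Δ [{a}, {b}, C])
    (hU : ∀ F ∈ Δ, (F ∩ C).Nonempty → F ∩ U ⊆ {a, b, c}) :
    InP (insert {a, b, c} (ind Δ U)) := by
  have hcx := h.cx
  have hUC : ∀ v ∈ U, v ∉ C := fun v hv hvC => Finset.disjoint_left.1 hd hvC hv
  have hcC : c ∉ C := hUC c hcU
  have hconn : Conn Δ (insert c C) := hC.insert (hcx.adj_vs hac).2 htc
  have h1 : InP (ind (con Δ (insert c C) c) U) :=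
    (h.con hconn (Finset.mem_insert_self c C)).ind U
  have h2 : ind (con Δ (insert c C) c) U = insert {a, b, c} (ind Δ U) := by
    refine Set.ext fun G => ?_
    rw [Set.mem_insert_iff]
    constructor
    · rintro ⟨⟨F, hF, rfl⟩, hGU⟩
      by_cases hFC : (F ∩ C).Nonempty
      · have h3 : ∀ v ∈ F, v ∉ C → v ∈ ({a, b, c} : Finset V) := by
          intro v hv hvC
          refine hU F hF hFC (Finset.mem_inter.2 ⟨hv, hGU ?_⟩)
          rw [Finset.mem_image]
          exact ⟨v, hv, by rw [G3_ret hcC, if_neg hvC]⟩
        have h4 : F.image (fun v => if v ∈ insert c C then c else v) ⊆ {a, b, c} := by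
          intro w hw
          obtain ⟨v, hv, rfl⟩ := Finset.mem_image.1 hw
          rw [G3_ret hcC]
          by_cases hvC : v ∈ C
          · rw [if_pos hvC]
            simp
          · rw [if_neg hvC]
            exact h3 v hv hvC
        set G := F.image (fun v => if v ∈ insert c C then c else v) with hG
        by_cases haG : a ∈ G
        · by_cases hbG : b ∈ G
          · by_cases hcG : c ∈ G
            · left
              refine Finset.Subset.antisymm h4 ?_
              intro v hv
              simp only [Finset.mem_insert, Finset.mem_singleton] at hv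
              rcases hv with rfl | rfl | rfl
              · exact haG
              · exact hbG
              · exact hcG
            · right
              refine ⟨hcx.down _ hab.2 _ ?_, hGU⟩
              intro v hv
              have h5 := h4 hv
              simp only [Finset.mem_insert, Finset.mem_singleton] at h5 ⊢
              rcases h5 with rfl | rfl | rfl
              · exact Or.inl rfl
              · exact Or.inr rfl
              · exact absurd hv hcG
          · right
            refine ⟨hcx.down _ hac.2 _ ?_, hGU⟩
            intro v hv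
            have h5 := h4 hv
            simp only [Finset.mem_insert, Finset.mem_singleton] at h5 ⊢
            rcases h5 with rfl | rfl | rfl
            · exact Or.inl rfl
            · exact absurd hv hbG
            · exact Or.inr rfl
        · right
          refine ⟨hcx.down _ hbc.2 _ ?_, hGU⟩
          intro v hv
          have h5 := h4 hv
          simp only [Finset.mem_insert, Finset.mem_singleton] at h5 ⊢
          rcases h5 with rfl | rfl | rfl
          · exact absurd hv haG
          · exact Or.inl rfl
          · exact Or.inr rfl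
      · right
        have h3 : Disjoint F C := by
          rw [Finset.disjoint_iff_inter_eq_empty]
          exact Finset.not_nonempty_iff_eq_empty.1 hFC
        rw [G3_img hcC h3] at hGU ⊢
        exact ⟨hF, hGU⟩
    · rintro (rfl | ⟨hG, hGU⟩)
      · obtain ⟨F, hF, hFm⟩ := hf
        obtain ⟨a', ha'⟩ := hFm {a} (by simp)
        obtain ⟨b', hb'⟩ := hFm {b} (by simp)
        obtain ⟨z, hz⟩ := hFm C (by simp)
        rw [Finset.mem_inter, Finset.mem_singleton] at ha' hb'
        rw [Finset.mem_inter] at hz
        obtain ⟨ha1, rfl⟩ := ha'
        obtain ⟨hb1, rfl⟩ := hb'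
        have h3 : ({a', b', z} : Finset V) ∈ Δ := by
          refine hcx.down F hF _ ?_
          intro v hv
          simp only [Finset.mem_insert, Finset.mem_singleton] at hv
          rcases hv with rfl | rfl | rfl
          · exact ha1
          · exact hb1
          · exact hz.1
        refine ⟨⟨{a', b', z}, h3, ?_⟩, ?_⟩
        · rw [Finset.image_insert, Finset.image_insert, Finset.image_singleton, G3_ret hcC,
            G3_ret hcC, G3_ret hcC, if_neg (hUC a' ha), if_neg (hUC b' hb), if_pos hz.2]
        · intro v hv
          simp only [Finset.mem_insert, Finset.mem_singleton] at hv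
          rcases hv with rfl | rfl | rfl
          · exact ha
          · exact hb
          · exact hcU
      · refine ⟨⟨G, hG, G3_img hcC ?_⟩, hGU⟩
        exact (hd.mono_right hGU).symm
  rw [← h2]
  exact h1

theorem tG3 : StmtG3 := by
  intro V _ _ Δ C U a b c h hC hd ha hb hc hab hac hbc hnf hta htb htc hU
  have hUC : ∀ v ∈ U, v ∉ C := fun v hv hvC => Finset.disjoint_left.1 hd hvC hv
  have hsd : ∀ u v : V, u ≠ v → Disjoint ({u} : Finset V) {v} := fun u v huv => by
    rw [Finset.disjoint_singleton]
    exact huv
  have hsC : ∀ v ∈ U, Disjoint ({v} : Finset V) C := fun v hv => by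
    rw [Finset.disjoint_singleton_left]
    exact hUC v hv
  have hcm : CM Δ [{a}, {b}, {c}, C] := by
    constructor
    · intro A hA
      simp only [List.mem_cons, List.not_mem_nil, or_false] at hA
      rcases hA with rfl | rfl | rfl | rfl
      · exact conn_single (h.cx.adj_vs hab).1
      · exact conn_single (h.cx.adj_vs hab).2
      · exact conn_single (h.cx.adj_vs hac).2
      · exact hC
    · simp only [List.pairwise_cons, List.mem_cons, List.not_mem_nil, or_false,
        forall_eq_or_imp, forall_eq, List.Pairwise.nil, and_true, false_imp_iff,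
        implies_true]
      exact ⟨⟨⟨hsd a b hab.1, touch_single.2 hab⟩, ⟨hsd a c hac.1, touch_single.2 hac⟩,
        ⟨hsC a ha, hta⟩⟩, ⟨⟨hsd b c hbc.1, touch_single.2 hbc⟩, ⟨hsC b hb, htb⟩⟩,
        ⟨hsC c hc, htc⟩⟩
  rcases h.k4 _ _ _ _ hcm with h1 | h1 | h1
  · exact absurd (h.cx.fill_three.1 h1) hnf
  · exact G3_core h hC hd ha hb hc hab hac hbc htc h1 hU
  · have h2 : ({a, b, c} : Finset V) = {a, c, b} := by
      ext v
      simp only [Finset.mem_insert, Finset.mem_singleton]
      tauto
    rw [h2]
    refine G3_core h hC hd ha hc hb hac hab (adj_symm hbc) htb h1 fun F hF hFC => ?_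
    rw [← h2]
    exact hU F hF hFC

end Pool.Agent.Lib.MP_73b196_co.St
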