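import Pool.Agent.Lib.MP_73b196_co.St.FinSpec

/-!
# H1: property (P) if `x` is a cone vertex
-/

set_option autoImplicit false
set_option linter.unusedSectionVars false

namespace Pool.Agent.Lib.MP_73b196_co.St

open Pool.Agent.Lib.MP_73b196_co.Fib (Dg PP Pr Mv Cn Fb Tab ad cone pw On)

variable {V : Type} [Fintype V] [DecidableEq V] {Δ : Set (Finset V)}

theorem H1_pp (x y : V) : PP ({∅, {x}, {y}} : Set (Finset V)) x y := by
  intro T T' hT
  have h1 : Cn (pw {x} ∪ pw {y}) 2 T T' := Fib.match_cn (hT {x} (by simp)) (hT {y} (by simp))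
  have h2 : ∀ A B : Tab V, Mv (pw {x} ∪ pw {y}) 2 A B → Pr ({∅, {x}, {y}} : Set (Finset V)) x y A B := by
    intro A B hAB
    refine Or.inr (Fib.Mv.mono ?_ le_rfl hAB)
    intro F hF
    simp only [Set.mem_insert_iff, Set.mem_singleton_iff] at hF
    rcases hF with rfl | rfl | rfl
    · exact ⟨{x}, Or.inl (Finset.Subset.refl _), Finset.empty_subset _⟩
    · exact ⟨{x}, Or.inl (Finset.Subset.refl _), Finset.Subset.refl _⟩
    · exact ⟨{y}, Or.inr (Finset.Subset.refl _), Finset.Subset.refl _⟩
  clear hT
  induction h1 with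
  | refl => exact Relation.ReflTransGen.refl
  | tail _ h ih => exact Relation.ReflTransGen.tail ih (h2 _ _ h)

theorem tH1 (hFaceP : Fib.StmtFaceP) : StmtH1 := by
  intro V _ _ Δ x y hD hP hxy hA
  have hcx := hP.cx
  have hx : x ∈ vs Δ := (hcx.adj_vs ⟨hxy.ne, hxy.mem⟩).1
  have hy : y ∈ vs Δ := (hcx.adj_vs ⟨hxy.ne, hxy.mem⟩).2
  have hEq : del Δ x y = ({∅, {x}, {y}} : Set (Finset V)) ∪ ind Δ (vs Δ \ {y}) := by
    ext F
    constructor
    · rintro ⟨h1, h2⟩
      by_cases hyF : y ∈ F
      · left
        have h3 := hxy.facet _ (hA F h1) (Finset.mem_insert_self _ _) (Finset.mem_insert_of_mem hyF)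
        have h4 : F ⊆ {x, y} := h3 ▸ Finset.subset_insert x F
        have h5 : x ∉ F := by
          intro h5
          apply h2
          refine Finset.Subset.antisymm h4 ?_
          rw [Finset.insert_subset_iff, Finset.singleton_subset_iff]
          exact ⟨h5, hyF⟩
        have h6 : F = {y} := by
          refine Finset.Subset.antisymm ?_ (Finset.singleton_subset_iff.2 hyF)
          intro v hv
          have h7 := h4 hv
          simp only [Finset.mem_insert, Finset.mem_singleton] at h7 ⊢
          rcases h7 with h7 | h7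
          · exact absurd (h7 ▸ hv) h5
          · exact h7
        simp [h6]
      · right
        refine ⟨h1, fun v hv => ?_⟩
        rw [Finset.mem_sdiff, Finset.mem_singleton]
        exact ⟨hcx.sub_vs h1 hv, fun h => hyF (h ▸ hv)⟩
    · rintro (h1 | ⟨h1, h2⟩)
      · simp only [Set.mem_insert_iff, Set.mem_singleton_iff] at h1
        rcases h1 with rfl | rfl | rfl
        · refine ⟨hcx.empty, fun h => ?_⟩
          have : x ∈ (∅ : Finset V) := by rw [h]; simp
          simp at this
        · refine ⟨mem_vs.1 hx, fun h => ?_⟩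
          have : y ∈ ({x} : Finset V) := by rw [h]; simp
          exact hxy.ne (Finset.mem_singleton.1 this).symm
        · refine ⟨mem_vs.1 hy, fun h => ?_⟩
          have : x ∈ ({y} : Finset V) := by rw [h]; simp
          exact hxy.ne (Finset.mem_singleton.1 this)
      · refine ⟨h1, fun h => ?_⟩
        have : y ∈ F := by rw [h]; simp
        have := h2 this
        simp at this
  have hint : ({x, y} : Finset V) ∩ (vs Δ \ {y}) = {x} := by
    ext v
    simp only [Finset.mem_inter, Finset.mem_insert, Finset.mem_singleton, Finset.mem_sdiff]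
    constructor
    · rintro ⟨h1 | h1, h2, h3⟩
      · exact h1
      · exact absurd h1 h3
    · rintro rfl
      exact ⟨Or.inl rfl, hx, hxy.ne⟩
  have hxW : ({x} : Finset V) ∈ ind Δ (vs Δ \ {y}) := by
    refine ⟨mem_vs.1 hx, ?_⟩
    rw [Finset.singleton_subset_iff, Finset.mem_sdiff, Finset.mem_singleton]
    exact ⟨hx, hxy.ne⟩
  rw [hEq]
  refine hFaceP V _ _ {x, y} (vs Δ \ {y}) x y ?_ (fun F hF => hF.2) ?_ ?_ (by simp) (by simp)
    (H1_pp x y) ?_
  · intro F hF
    simp only [Set.mem_insert_iff, Set.mem_singleton_iff] at hF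
    rcases hF with rfl | rfl | rfl
    · exact Finset.empty_subset _
    · simp
    · simp
  · rw [hint]
    simp
  · rw [hint]
    exact hxW
  · refine hD _ ?_ (hP.ind _)
    rw [vs_ind]
    refine Finset.card_lt_card ⟨Finset.inter_subset_left, fun h1 => ?_⟩
    have := (Finset.mem_inter.1 (h1 hy)).2
    simp at this

end Pool.Agent.Lib.MP_73b196_co.St
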