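import Pool.Agent.Lib.MP_73b196_co.St.FinSpec

/-!
# H3: property (P) if the edge facet separates
-/

set_option autoImplicit false
set_option linter.unusedSectionVars false

namespace Pool.Agent.Lib.MP_73b196_co.St

open Pool.Agent.Lib.MP_73b196_co.Fib (Dg PP ad cone pw On)

variable {V : Type} [Fintype V] [DecidableEq V] {Δ : Set (Finset V)}

/-- A face lies on one of the two sides. -/
theorem H3_split (h : IsCx Δ) {A B P F : Finset V} (hun : A ∪ B = vs Δ \ P) (ht : ¬ touch Δ A B)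
    (hd : Disjoint A B) (hF : F ∈ Δ) : F ⊆ A ∪ P ∨ F ⊆ B ∪ P := by
  by_cases hA : (F ∩ A).Nonempty
  · left
    obtain ⟨a, ha⟩ := hA
    rw [Finset.mem_inter] at ha
    intro v hv
    rw [Finset.mem_union]
    by_cases hvP : v ∈ P
    · exact Or.inr hvP
    left
    have h1 : v ∈ A ∪ B := by
      rw [hun]
      exact Finset.mem_sdiff.2 ⟨h.sub_vs hF hv, hvP⟩
    rcases Finset.mem_union.1 h1 with h2 | h2
    · exact h2
    · exfalso
      refine ht ⟨a, ha.2, v, h2, h.adj_of_face hF ha.1 hv ?_⟩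
      rintro rfl
      exact Finset.disjoint_left.1 hd ha.2 h2
  · right
    intro v hv
    rw [Finset.mem_union]
    by_cases hvP : v ∈ P
    · exact Or.inr hvP
    left
    have h1 : v ∈ A ∪ B := by
      rw [hun]
      exact Finset.mem_sdiff.2 ⟨h.sub_vs hF hv, hvP⟩
    rcases Finset.mem_union.1 h1 with h2 | h2
    · exact absurd ⟨v, Finset.mem_inter.2 ⟨hv, h2⟩⟩ hA
    · exact h2

/-- One part. -/
theorem H3_part {x y : V} {U : Finset V} (hD : HD V (vs Δ).card) (hE : HE V (vs Δ).card)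
    (hP : InP Δ) (hxy : EdgeFacet Δ x y) (hx : x ∈ U) (hy : y ∈ U)
    (hcard : (vs (ind Δ U)).card < (vs Δ).card) :
    PP (del (ind Δ U) x y) x y ∧ Dg (ad (del (ind Δ U) x y) x y) ∧
      ∅ ∈ del (ind Δ U) x y ∧ {x} ∈ del (ind Δ U) x y ∧ {y} ∈ del (ind Δ U) x y := by
  have hcx := hP.cx
  have hxv : x ∈ vs Δ := (hcx.adj_vs ⟨hxy.ne, hxy.mem⟩).1
  have hyv : y ∈ vs Δ := (hcx.adj_vs ⟨hxy.ne, hxy.mem⟩).2
  have hxyU : ({x, y} : Finset V) ⊆ U := by
    rw [Finset.insert_subset_iff, Finset.singleton_subset_iff]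
    exact ⟨hx, hy⟩
  have had : ad (del (ind Δ U) x y) x y = ind Δ U := by
    ext F
    constructor
    · rintro (h1 | h1)
      · rw [h1]
        exact ⟨hxy.mem, hxyU⟩
      · exact h1.1
    · intro h1
      by_cases h2 : F = {x, y}
      · exact Or.inl h2
      · exact Or.inr ⟨h1, h2⟩
  refine ⟨hE _ x y hcard (hP.ind U) ⟨hxy.ne, ⟨hxy.mem, hxyU⟩, fun F hF => hxy.facet F hF.1⟩, ?_,
    ⟨⟨hcx.empty, Finset.empty_subset _⟩, ?_⟩, ⟨⟨mem_vs.1 hxv, Finset.singleton_subset_iff.2 hx⟩, ?_⟩,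
    ⟨⟨mem_vs.1 hyv, Finset.singleton_subset_iff.2 hy⟩, ?_⟩⟩
  · rw [had]
    exact hD _ hcard (hP.ind U)
  · intro h
    have : x ∈ (∅ : Finset V) := by rw [h]; simp
    simp at this
  · intro h
    have : y ∈ ({x} : Finset V) := by rw [h]; simp
    exact hxy.ne (Finset.mem_singleton.1 this).symm
  · intro h
    have : x ∈ ({y} : Finset V) := by rw [h]; simp
    exact hxy.ne (Finset.mem_singleton.1 this)

theorem tH3 (hPar : Fib.StmtPar) : StmtH3 := by
  intro V _ _ Δ x y A B hD hE hP hxy hun hd hA hB ht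
  have hcx := hP.cx
  have hAv : ∀ v ∈ A, v ∈ vs Δ ∧ v ∉ ({x, y} : Finset V) := fun v hv =>
    Finset.mem_sdiff.1 (hun ▸ Finset.mem_union_left B hv)
  have hBv : ∀ v ∈ B, v ∈ vs Δ ∧ v ∉ ({x, y} : Finset V) := fun v hv =>
    Finset.mem_sdiff.1 (hun ▸ Finset.mem_union_right A hv)
  have hcard1 : (vs (ind Δ (A ∪ {x, y}))).card < (vs Δ).card := by
    rw [vs_ind]
    obtain ⟨b, hb⟩ := hB
    refine Finset.card_lt_card ⟨Finset.inter_subset_left, fun h1 => ?_⟩
    rcases Finset.mem_union.1 (Finset.mem_inter.1 (h1 (hBv b hb).1)).2 with h2 | h2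
    · exact Finset.disjoint_left.1 hd h2 hb
    · exact (hBv b hb).2 h2
  have hcard2 : (vs (ind Δ (B ∪ {x, y}))).card < (vs Δ).card := by
    rw [vs_ind]
    obtain ⟨a, ha⟩ := hA
    refine Finset.card_lt_card ⟨Finset.inter_subset_left, fun h1 => ?_⟩
    rcases Finset.mem_union.1 (Finset.mem_inter.1 (h1 (hAv a ha).1)).2 with h2 | h2
    · exact Finset.disjoint_left.1 hd ha h2
    · exact (hAv a ha).2 h2
  obtain ⟨p1, d1, e1, x1, y1⟩ := H3_part (U := A ∪ {x, y}) hD hE hP hxy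
    (Finset.mem_union_right _ (by simp)) (Finset.mem_union_right _ (by simp)) hcard1
  obtain ⟨p2, d2, e2, x2, y2⟩ := H3_part (U := B ∪ {x, y}) hD hE hP hxy
    (Finset.mem_union_right _ (by simp)) (Finset.mem_union_right _ (by simp)) hcard2
  have hEq : del Δ x y = del (ind Δ (A ∪ {x, y})) x y ∪ del (ind Δ (B ∪ {x, y})) x y := by
    ext F
    constructor
    · rintro ⟨h1, h2⟩
      rcases H3_split hcx hun ht hd h1 with h3 | h3
      · exact Or.inl ⟨⟨h1, h3⟩, h2⟩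
      · exact Or.inr ⟨⟨h1, h3⟩, h2⟩
    · rintro (⟨h1, h2⟩ | ⟨h1, h2⟩)
      · exact ⟨h1.1, h2⟩
      · exact ⟨h1.1, h2⟩
  have hint : (A ∪ {x, y}) ∩ (B ∪ {x, y}) = {x, y} := by
    ext v
    rw [Finset.mem_inter, Finset.mem_union, Finset.mem_union]
    constructor
    · rintro ⟨h1 | h1, h2 | h2⟩
      · exact absurd h2 (Finset.disjoint_left.1 hd h1)
      · exact h2
      · exact h1
      · exact h1
    · exact fun h1 => ⟨Or.inr h1, Or.inr h1⟩
  rw [hEq]
  exact (hPar V _ _ _ _ x y hxy.ne (fun F hF => hF.1.2) (fun F hF => hF.1.2) hint e1 x1 y1 e2 x2 y2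
    p1 d1 p2 d2).1

end Pool.Agent.Lib.MP_73b196_co.St
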