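import Pool.Agent.Lib.MP_73b196_co.St.FinSpec

/-!
# H4: a cone with an edge
-/

set_option autoImplicit false
set_option linter.unusedSectionVars false

namespace Pool.Agent.Lib.MP_73b196_co.St

open Pool.Agent.Lib.MP_73b196_co.Fib (Dg PP ad cone pw On)

variable {V : Type} [Fintype V] [DecidableEq V] {Δ : Set (Finset V)} {x y p : V}

theorem H4_ad (h : ({x, y} : Finset V) ∈ Δ) : ad (del Δ x y) x y = Δ := by
  ext F
  constructor
  · rintro (rfl | h')
    · exact h
    · exact h'.1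
  · intro hF
    by_cases he : F = {x, y}
    · exact Or.inl he
    · exact Or.inr ⟨hF, he⟩

theorem H4_cone (hcx : IsCx Δ) (hEF : EdgeFacet Δ x y) (hp : ApexD Δ x y p) :
    cone p (del (ind Δ (vs Δ \ {p})) x y) = del Δ x y := by
  ext F
  constructor
  · rintro ⟨⟨h1, -⟩, h2⟩
    have h3 := hp.2.2 _ h1 h2
    refine ⟨hcx.down _ h3 _ ?_, ?_⟩
    · exact Finset.insert_erase_subset p F
    · rintro rfl
      apply h2
      rw [Finset.erase_eq_of_notMem]
      simp only [Finset.mem_insert, Finset.mem_singleton, not_or]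
      exact ⟨hp.1, hp.2.1⟩
  · rintro ⟨hF, hne⟩
    refine ⟨⟨hcx.down F hF _ (Finset.erase_subset _ _), ?_⟩, ?_⟩
    · intro z hz
      rw [Finset.mem_erase] at hz
      rw [Finset.mem_sdiff, Finset.mem_singleton]
      exact ⟨hcx.sub_vs hF hz.2, hz.1⟩
    · intro he
      apply hne
      apply hEF.facet F hF
      · have : x ∈ F.erase p := by
          rw [he]
          simp
        exact Finset.mem_of_mem_erase this
      · have : y ∈ F.erase p := by
          rw [he]
          simp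
        exact Finset.mem_of_mem_erase this

theorem tH4 (h1 : Fib.StmtConeP) (h2 : Fib.StmtConeD) : StmtH4 := by
  intro V _ _ Δ x y p hHD hHE hP hEF hp
  have hcx := hP.cx
  have hxV : x ∈ vs Δ := hcx.sub_vs hEF.mem (by simp)
  have hyV : y ∈ vs Δ := hcx.sub_vs hEF.mem (by simp)
  have hx1 : ({x} : Finset V) ≠ {x, y} := by
    intro e
    have h5 : y ∈ ({x, y} : Finset V) := by simp
    rw [← e, Finset.mem_singleton] at h5
    exact hEF.ne h5.symm
  have hy1 : ({y} : Finset V) ≠ {x, y} := by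
    intro e
    have h5 : x ∈ ({x, y} : Finset V) := by simp
    rw [← e, Finset.mem_singleton] at h5
    exact hEF.ne h5
  have hpV : p ∈ vs Δ :=
    hcx.sub_vs (hp.2.2 {x} (mem_vs.1 hxV) hx1) (Finset.mem_insert_self _ _)
  have hsub : ({x, y} : Finset V) ⊆ vs Δ \ {p} := by
    intro z hz
    rw [Finset.mem_insert, Finset.mem_singleton] at hz
    rw [Finset.mem_sdiff, Finset.mem_singleton]
    rcases hz with rfl | rfl
    · exact ⟨hxV, fun h => hp.1 h.symm⟩
    · exact ⟨hyV, fun h => hp.2.1 h.symm⟩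
  have hcard : (vs (ind Δ (vs Δ \ {p}))).card < (vs Δ).card := by
    apply Finset.card_lt_card
    rw [vs_ind]
    refine ⟨Finset.inter_subset_left, fun h => ?_⟩
    have := (Finset.mem_inter.1 (h hpV)).2
    simp at this
  have hind := hP.ind (vs Δ \ {p})
  have hEF' : EdgeFacet (ind Δ (vs Δ \ {p})) x y :=
    ⟨hEF.ne, ⟨hEF.mem, hsub⟩, fun F hF hx hy => hEF.facet F hF.1 hx hy⟩
  have hPP := hHE _ x y hcard hind hEF'
  have hDg := hHD _ hcard hind
  have hfree : ∀ F ∈ del (ind Δ (vs Δ \ {p})) x y, p ∉ F := by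
    rintro F ⟨⟨-, hF⟩, -⟩ hpF
    have := hF hpF
    simp at this
  rw [← H4_cone hcx hEF hp]
  refine ⟨Fib.pp_cone hp.1 hp.2.1 (h1 V _ p x y hfree hp.1 hp.2.1 hPP), ?_⟩
  have h3 := h2 V (del (ind Δ (vs Δ \ {p})) x y) p x y hEF.ne hfree hp.1 hp.2.1
    ⟨⟨hcx.empty, Finset.empty_subset _⟩, fun e => by
      have h5 : x ∈ ({x, y} : Finset V) := by simp
      rw [← e] at h5
      simp at h5⟩
    ⟨⟨mem_vs.1 hxV, Finset.singleton_subset_iff.2 (hsub (by simp))⟩, hx1⟩
    ⟨⟨mem_vs.1 hyV, Finset.singleton_subset_iff.2 (hsub (by simp))⟩, hy1⟩ hPP ?_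
  · rwa [H4_cone hcx hEF hp, H4_ad hEF.mem] at h3
  · rw [H4_ad (Δ := ind Δ (vs Δ \ {p})) ⟨hEF.mem, hsub⟩]
    exact hDg

end Pool.Agent.Lib.MP_73b196_co.St
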