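import Pool.Agent.Lib.MP_73b196_co.St.FinSpec

/-!
# H5: (P) for a cut vertex
-/

set_option autoImplicit false
set_option linter.unusedSectionVars false

namespace Pool.Agent.Lib.MP_73b196_co.St

open Pool.Agent.Lib.MP_73b196_co.Fib (Dg PP ad cone pw On)

variable {V : Type} [Fintype V] [DecidableEq V] {Δ Γ : Set (Finset V)} {x y u : V}
  {X Y : Finset V}

theorem H5_symm (h : PP Γ y x) : PP Γ x y := by
  have e : ({y, x} : Finset V) = {x, y} := Finset.pair_comm y x
  unfold PP Fib.Pr Fib.ad at h ⊢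
  rw [e] at h
  exact h

/-- one side of the cut vertex -/
theorem H5_side (h1 : StmtG1) (h2 : StmtG2) (hHD : HD V (vs Δ).card) (hHE : HE V (vs Δ).card)
    (hP : InP Δ) (hEF : EdgeFacet Δ x y) (hMS : MS Δ x y {u} X Y) :
    PP (ind Δ (X ∪ {u})) x u := by
  have hcx := hP.cx
  have hxy : adj Δ x y := ⟨hEF.ne, hEF.mem⟩
  have hyU : y ∉ X ∪ {u} := by
    intro h
    rcases Finset.mem_union.1 h with h | h
    · exact Finset.disjoint_left.1 hMS.dXY h hMS.hy
    · exact Finset.disjoint_left.1 hMS.dSY h hMS.hy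
  have hxu : x ≠ u := by
    rintro rfl
    exact Finset.disjoint_left.1 hMS.dXS hMS.hx (Finset.mem_singleton_self _)
  have huV : u ∈ vs Δ := by
    rw [← hMS.un]
    simp
  have hxV := (hcx.adj_vs hxy).1
  have hyV := (hcx.adj_vs hxy).2
  have hcard : (vs (ind Δ (X ∪ {u}))).card < (vs Δ).card := by
    apply Finset.card_lt_card
    rw [vs_ind]
    refine ⟨Finset.inter_subset_left, fun h => ?_⟩
    exact hyU (Finset.mem_inter.1 (h hyV)).2
  have hxU : x ∈ X ∪ {u} := Finset.mem_union_left _ hMS.hx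
  have huU : u ∈ X ∪ {u} := by simp
  refine h1 V (vs Δ).card (ind Δ (X ∪ {u})) x u hHD hHE hcard hxu (hP.ind _)
    ⟨mem_vs.1 hxV, by simpa using hxU⟩ ⟨mem_vs.1 huV, by simp⟩ ?_
  refine h2 V Δ Y (X ∪ {u}) x u hP hMS.cY ?_ hxU huU hxu ?_ ?_ ?_
  · rw [Finset.disjoint_left]
    intro z hz hzU
    rcases Finset.mem_union.1 hzU with h | h
    · exact Finset.disjoint_left.1 hMS.dXY h hz
    · exact Finset.disjoint_left.1 hMS.dSY h hz
  · exact touch_single_left.2 ⟨y, hMS.hy, hxy⟩
  · exact hMS.tY u (Finset.mem_singleton_self u)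
  · intro F hF hFY z hz
    rw [Finset.mem_inter] at hz
    rcases hMS.face F hF with h | h | h
    · exfalso
      obtain ⟨w, hw⟩ := hFY
      rw [Finset.mem_inter] at hw
      rcases Finset.mem_union.1 (h hw.1) with h' | h'
      · exact Finset.disjoint_left.1 hMS.dXY h' hw.2
      · exact Finset.disjoint_left.1 hMS.dSY h' hw.2
    · rcases Finset.mem_union.1 hz.2 with h' | h'
      · rcases Finset.mem_union.1 (h hz.1) with h'' | h''
        · exact absurd h'' (Finset.disjoint_left.1 hMS.dXY h')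
        · exact absurd h'' (Finset.disjoint_left.1 hMS.dXS h')
      · exact Finset.mem_insert_of_mem h'
    · rw [h, Finset.mem_insert, Finset.mem_singleton] at hz
      rcases hz.1 with h' | h'
      · rw [h']
        exact Finset.mem_insert_self _ _
      · rw [h'] at hz
        exact absurd hz.2 hyU

theorem tH5 (h1 : StmtG1) (h2 : StmtG2) (h3 : Fib.StmtSer) : StmtH5 := by
  intro V _ _ Δ x y u X Y hHD hHE hP hEF hMS
  have hcx := hP.cx
  have hs1 := H5_side h1 h2 hHD hHE hP hEF hMS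
  have hs2 := H5_side h1 h2 hHD hHE hP hEF.symm hMS.symm
  have huV : u ∈ vs Δ := by
    rw [← hMS.un]
    simp
  have hxX := hMS.hx
  have hyY := hMS.hy
  have hxW : x ∉ Y ∪ {u} := by
    intro h
    rcases Finset.mem_union.1 h with h | h
    · exact Finset.disjoint_left.1 hMS.dXY hxX h
    · exact Finset.disjoint_left.1 hMS.dXS hxX h
  have hyU : y ∉ X ∪ {u} := by
    intro h
    rcases Finset.mem_union.1 h with h | h
    · exact Finset.disjoint_left.1 hMS.dXY h hyY
    · exact Finset.disjoint_left.1 hMS.dSY h hyY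
  have hdel : del Δ x y = ind Δ (X ∪ {u}) ∪ ind Δ (Y ∪ {u}) := by
    ext F
    constructor
    · rintro ⟨hF, hne⟩
      rcases hMS.face F hF with h | h | h
      · exact Or.inl ⟨hF, h⟩
      · exact Or.inr ⟨hF, h⟩
      · exact absurd h hne
    · rintro (⟨hF, h⟩ | ⟨hF, h⟩)
      · refine ⟨hF, ?_⟩
        rintro rfl
        exact hyU (h (by simp))
      · refine ⟨hF, ?_⟩
        rintro rfl
        exact hxW (h (by simp))
  rw [hdel]
  refine h3 V (ind Δ (X ∪ {u})) (ind Δ (Y ∪ {u})) (X ∪ {u}) (Y ∪ {u}) x u y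
    (fun F hF => hF.2) (fun F hF => hF.2) ?_ ⟨mem_vs.1 huV, by simp⟩ ⟨mem_vs.1 huV, by simp⟩
    (Finset.mem_union_left _ hxX) (Finset.mem_union_left _ hyY) ?_ ?_ hs1 (H5_symm hs2)
  · ext z
    simp only [Finset.mem_inter, Finset.mem_union, Finset.mem_singleton]
    constructor
    · rintro ⟨h | h, h' | h'⟩
      · exact absurd h' (Finset.disjoint_left.1 hMS.dXY h)
      · exact h'
      · exact h
      · exact h
    · intro h
      exact ⟨Or.inr h, Or.inr h⟩
  · rintro rfl
    exact hxW (by simp)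
  · rintro rfl
    exact hyU (by simp)

end Pool.Agent.Lib.MP_73b196_co.St
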