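import Pool.Agent.Lib.MP_73b196_co.St.FinSpec

/-!
# H6: crossed cones
-/

set_option autoImplicit false
set_option linter.unusedSectionVars false

namespace Pool.Agent.Lib.MP_73b196_co.St

open Pool.Agent.Lib.MP_73b196_co.Fib (Dg PP PPc Cr ad cone pw On)

variable {V : Type} [Fintype V] [DecidableEq V] {Δ : Set (Finset V)}

/-- A cone over an induced complex. -/
theorem H6_cone (h : IsCx Δ) {X : Finset V} {s t : V}
    (hc : ∀ F ∈ Δ, F ⊆ X ∪ {s, t} → insert s F ∈ Δ) :
    cone s (ind Δ (insert t X)) = ind Δ (X ∪ {s, t}) := by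
  ext F
  constructor
  · rintro ⟨h1, h2⟩
    have h3 : F.erase s ⊆ X ∪ {s, t} := by
      intro v hv
      rcases Finset.mem_insert.1 (h2 hv) with h4 | h4
      · rw [h4]
        exact Finset.mem_union_right _ (by simp)
      · exact Finset.mem_union_left _ h4
    have h4 : F ⊆ insert s (F.erase s) := by
      intro v hv
      by_cases hvs : v = s
      · rw [hvs]
        exact Finset.mem_insert_self _ _
      · exact Finset.mem_insert_of_mem (Finset.mem_erase.2 ⟨hvs, hv⟩)
    refine ⟨h.down _ (hc _ h1 h3) _ h4, h4.trans ?_⟩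
    rw [Finset.insert_subset_iff]
    exact ⟨Finset.mem_union_right _ (by simp), h3⟩
  · rintro ⟨h1, h2⟩
    refine ⟨h.down _ h1 _ (Finset.erase_subset _ _), ?_⟩
    intro v hv
    rw [Finset.mem_erase] at hv
    rcases Finset.mem_union.1 (h2 hv.2) with h3 | h3
    · exact Finset.mem_insert_of_mem h3
    · simp only [Finset.mem_insert, Finset.mem_singleton] at h3
      rcases h3 with h3 | h3
      · exact absurd h3 hv.1
      · rw [h3]
        exact Finset.mem_insert_self _ _

/-- One side of the crossed cones. -/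
theorem H6_side (hG1 : StmtG1) (hG2 : StmtG2) (hConeP : Fib.StmtConeP) {x y s t : V}
    {X Y : Finset V} (hD : HD V (vs Δ).card) (hE : HE V (vs Δ).card) (hP : InP Δ)
    (hxy : EdgeFacet Δ x y) (hst : s ≠ t) (h : MS Δ x y {s, t} X Y) :
    PP (ind Δ (insert t X)) x t ∧ Dg (ad (ind Δ (insert t X)) x t) ∧
      PPc (ind Δ (insert t X)) s x t := by
  have hcx := hP.cx
  have hXs : ∀ v ∈ X, v ≠ s ∧ v ≠ t := by
    intro v hv
    have h1 := Finset.disjoint_left.1 h.dXS hv
    simp only [Finset.mem_insert, Finset.mem_singleton, not_or] at h1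
    exact h1
  have hYs : ∀ v ∈ Y, v ≠ s ∧ v ≠ t := by
    intro v hv
    have h1 := Finset.disjoint_right.1 h.dSY hv
    simp only [Finset.mem_insert, Finset.mem_singleton, not_or] at h1
    exact h1
  have hx : x ∈ vs Δ := (hcx.adj_vs ⟨hxy.ne, hxy.mem⟩).1
  have hy : y ∈ vs Δ := (hcx.adj_vs ⟨hxy.ne, hxy.mem⟩).2
  have ht : t ∈ vs Δ := h.pms.sS (by simp)
  have hxt : x ≠ t := (hXs x h.hx).2
  have hxG : ({x} : Finset V) ∈ ind Δ (insert t X) :=
    ⟨mem_vs.1 hx, Finset.singleton_subset_iff.2 (Finset.mem_insert_of_mem h.hx)⟩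
  have htG : ({t} : Finset V) ∈ ind Δ (insert t X) :=
    ⟨mem_vs.1 ht, Finset.singleton_subset_iff.2 (Finset.mem_insert_self _ _)⟩
  have hyU : y ∉ insert t X := by
    rw [Finset.mem_insert]
    rintro (h1 | h1)
    · exact (hYs y h.hy).2 h1
    · exact Finset.disjoint_left.1 h.dXY h1 h.hy
  have hcard : (vs (ind Δ (insert t X))).card < (vs Δ).card := by
    rw [vs_ind]
    refine Finset.card_lt_card ⟨Finset.inter_subset_left, fun h1 => ?_⟩
    exact hyU (Finset.mem_inter.1 (h1 hy)).2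
  have hvs : vs (ad (ind Δ (insert t X)) x t) = vs (ind Δ (insert t X)) := by
    ext v
    rw [mem_vs, mem_vs]
    constructor
    · rintro (h1 | h1)
      · exfalso
        have h2 : x ∈ ({v} : Finset V) := by rw [h1]; simp
        have h3 : t ∈ ({v} : Finset V) := by rw [h1]; simp
        rw [Finset.mem_singleton] at h2 h3
        exact hxt (h2.trans h3.symm)
      · exact h1
    · exact fun h1 => Or.inr h1
  have hInP : InP (ad (ind Δ (insert t X)) x t) := by
    refine hG2 V Δ Y (insert t X) x t hP h.cY ?_ (Finset.mem_insert_of_mem h.hx)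
      (Finset.mem_insert_self _ _) hxt ⟨x, by simp, y, h.hy, hxy.ne, hxy.mem⟩ (h.tY t (by simp)) ?_
    · rw [Finset.disjoint_insert_right]
      exact ⟨fun h1 => (hYs t h1).2 rfl, h.dXY.symm⟩
    · rintro F hF ⟨v, hv⟩
      rw [Finset.mem_inter] at hv
      rcases h.face F hF with h1 | h1 | h1
      · exfalso
        rcases Finset.mem_union.1 (h1 hv.1) with h2 | h2
        · exact Finset.disjoint_left.1 h.dXY h2 hv.2
        · exact Finset.disjoint_left.1 h.dSY h2 hv.2
      · intro w hw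
        rw [Finset.mem_inter, Finset.mem_insert] at hw
        rcases hw.2 with h2 | h2
        · rw [h2]
          simp
        · exfalso
          rcases Finset.mem_union.1 (h1 hw.1) with h3 | h3
          · exact Finset.disjoint_left.1 h.dXY h2 h3
          · exact Finset.disjoint_left.1 h.dXS h2 h3
      · intro w hw
        rw [Finset.mem_inter, h1] at hw
        rw [Finset.mem_insert, Finset.mem_singleton] at hw
        rcases hw.1 with h2 | h2
        · rw [h2]
          simp
        · exact absurd (h2 ▸ hw.2) hyU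
  have hPP := hG1 V _ (ind Δ (insert t X)) x t hD hE hcard hxt (hP.ind _) hxG htG hInP
  refine ⟨hPP, hD _ (by rw [hvs]; exact hcard) hInP, ?_⟩
  refine hConeP V _ s x t ?_ (hXs x h.hx).1.symm hst hPP
  intro F hF hsF
  rcases Finset.mem_insert.1 (hF.2 hsF) with h1 | h1
  · exact hst h1
  · exact (hXs s h1).1 rfl

theorem tH6 (hG1 : StmtG1) (hG2 : StmtG2) (hConeP : Fib.StmtConeP) (hCrossP : Fib.StmtCrossP)
    (hCrossD : Fib.StmtCrossD) : StmtH6 := by
  intro V _ _ Δ x y s t X Y hD hE hP hxy hst h hs ht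
  have hcx := hP.cx
  obtain ⟨p1, d1, c1⟩ := H6_side hG1 hG2 hConeP hD hE hP hxy hst h
  have hpair : ({s, t} : Finset V) = {t, s} := Finset.pair_comm s t
  have h' : MS Δ y x {t, s} Y X := by
    rw [← hpair]
    exact h.symm
  obtain ⟨p2, d2, c2⟩ := H6_side hG1 hG2 hConeP hD hE hP hxy.symm hst.symm h'
  have e1 : cone s (ind Δ (insert t X)) = ind Δ (X ∪ {s, t}) := H6_cone hcx hs
  have e2 : cone t (ind Δ (insert s Y)) = ind Δ (Y ∪ {s, t}) := by
    rw [hpair]
    exact H6_cone hcx (by rw [← hpair]; exact ht)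
  have hXs : ∀ v ∈ X, v ≠ s ∧ v ≠ t := by
    intro v hv
    have h1 := Finset.disjoint_left.1 h.dXS hv
    simp only [Finset.mem_insert, Finset.mem_singleton, not_or] at h1
    exact h1
  have hYs : ∀ v ∈ Y, v ≠ s ∧ v ≠ t := by
    intro v hv
    have h1 := Finset.disjoint_right.1 h.dSY hv
    simp only [Finset.mem_insert, Finset.mem_singleton, not_or] at h1
    exact h1
  have hyU : y ∉ X ∪ {s, t} := by
    rw [Finset.mem_union]
    rintro (h1 | h1)
    · exact Finset.disjoint_left.1 h.dXY h1 h.hy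
    · exact Finset.disjoint_left.1 h.dSY h1 h.hy
  have hxW : x ∉ Y ∪ {s, t} := by
    rw [Finset.mem_union]
    rintro (h1 | h1)
    · exact Finset.disjoint_left.1 h.dXY h.hx h1
    · exact Finset.disjoint_left.1 h.dXS h.hx h1
  have hdel : del Δ x y = cone s (ind Δ (insert t X)) ∪ cone t (ind Δ (insert s Y)) := by
    rw [e1, e2]
    ext F
    constructor
    · rintro ⟨h1, h2⟩
      rcases h.face F h1 with h3 | h3 | h3
      · exact Or.inl ⟨h1, h3⟩
      · exact Or.inr ⟨h1, h3⟩
      · exact absurd h3 h2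
    · rintro (⟨h1, h2⟩ | ⟨h1, h2⟩)
      · refine ⟨h1, ?_⟩
        rintro rfl
        exact hyU (h2 (by simp))
      · refine ⟨h1, ?_⟩
        rintro rfl
        exact hxW (h2 (by simp))
  have had : Δ = ad (del Δ x y) x y := by
    ext F
    constructor
    · intro hF
      by_cases hF' : F = {x, y}
      · exact Or.inl hF'
      · exact Or.inr ⟨hF, hF'⟩
    · rintro (hF | hF)
      · rw [hF]
        exact hxy.mem
      · exact hF.1
  have hsv : s ∈ vs Δ := h.pms.sS (by simp)
  have htv : t ∈ vs Δ := h.pms.sS (by simp)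
  have hxv : x ∈ vs Δ := (hcx.adj_vs ⟨hxy.ne, hxy.mem⟩).1
  have hyv : y ∈ vs Δ := (hcx.adj_vs ⟨hxy.ne, hxy.mem⟩).2
  have hon1 : On (cone s (ind Δ (insert t X))) (X ∪ {s, t}) := by
    rw [e1]
    exact fun F hF => hF.2
  have hon2 : On (cone t (ind Δ (insert s Y))) (Y ∪ {s, t}) := by
    rw [e2]
    exact fun F hF => hF.2
  have hint : (X ∪ {s, t}) ∩ (Y ∪ {s, t}) = {s, t} := by
    ext v
    rw [Finset.mem_inter, Finset.mem_union, Finset.mem_union]
    constructor
    · rintro ⟨h1 | h1, h2 | h2⟩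
      · exact absurd h2 (Finset.disjoint_left.1 h.dXY h1)
      · exact h2
      · exact h1
      · exact h1
    · exact fun h1 => ⟨Or.inr h1, Or.inr h1⟩
  have htG : ({t} : Finset V) ∈ ind Δ (insert t X) := ⟨mem_vs.1 htv, by simp⟩
  have hsG : ({s} : Finset V) ∈ ind Δ (insert s Y) := ⟨mem_vs.1 hsv, by simp⟩
  have hxG : ({x} : Finset V) ∈ ind Δ (insert t X) := ⟨mem_vs.1 hxv, by simp [h.hx]⟩
  have hyG : ({y} : Finset V) ∈ ind Δ (insert s Y) := ⟨mem_vs.1 hyv, by simp [h.hy]⟩
  refine ⟨?_, ?_⟩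
  · rw [hdel]
    exact hCrossP V _ _ (X ∪ {s, t}) (Y ∪ {s, t}) s t x y hon1 hon2 hint hst htG hsG
      (Finset.mem_union_left _ h.hx) (Finset.mem_union_left _ h.hy) (hXs x h.hx).1 (hXs x h.hx).2
      (hYs y h.hy).1 (hYs y h.hy).2 c1 c2
  · have hCr : Cr (ind Δ (insert t X)) (ind Δ (insert s Y)) (X ∪ {s, t}) (Y ∪ {s, t}) s t x y := by
      refine ⟨hon1, hon2, ?_, ?_, hint, hst, (hXs x h.hx).1, (hXs x h.hx).2, (hYs y h.hy).1,
        (hYs y h.hy).2, Finset.mem_union_left _ h.hx, Finset.mem_union_left _ h.hy,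
        ⟨hcx.empty, Finset.empty_subset _⟩, ⟨hcx.empty, Finset.empty_subset _⟩, htG, hxG, hsG, hyG⟩
      · intro F hF hsF
        rcases Finset.mem_insert.1 (hF.2 hsF) with h1 | h1
        · exact hst h1
        · exact (hXs s h1).1 rfl
      · intro F hF htF
        rcases Finset.mem_insert.1 (hF.2 htF) with h1 | h1
        · exact hst h1.symm
        · exact (hYs t h1).2 rfl
    have h1 := hCrossD V _ _ _ _ s t x y hCr p1 d1 p2 d2
    rw [← hdel, ← had] at h1
    exact h1

end Pool.Agent.Lib.MP_73b196_co.St
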