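import Pool.Agent.Lib.MP_73b196_co.St.FinSpec

/-!
# H7: the induction step for (P)
-/

set_option autoImplicit false
set_option linter.unusedSectionVars false

namespace Pool.Agent.Lib.MP_73b196_co.St

open Pool.Agent.Lib.MP_73b196_co.Fib (Dg PP ad cone pw On)

variable {V : Type} [Fintype V] [DecidableEq V] {Δ : Set (Finset V)} {x y : V}

theorem H7_symm (h : PP (del Δ y x) y x) : PP (del Δ x y) x y := by
  have e : ({y, x} : Finset V) = {x, y} := Finset.pair_comm y x
  unfold PP Fib.Pr Fib.ad del at h ⊢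
  rw [e] at h
  exact h

theorem tH7 (hA4 : StmtA4) (hA5 : StmtA5) (hA6 : StmtA6) (hS : StmtThmS) (h1 : StmtH1)
    (h2 : StmtH2) (h3 : StmtH3) (h4 : StmtH4) (h5 : StmtH5) (h6 : StmtH6) : StmtH7 := by
  intro V _ _ Δ x y hHD hHE hP hEF
  have hcx := hP.cx
  have hxV : x ∈ vs Δ := mem_vs.2 (hcx.down _ hEF.mem _ (by simp))
  by_cases hap : ∃ p, Apex Δ p
  · obtain ⟨p, hp⟩ := hap
    have h7 := hp {x, y} hEF.mem
    have h8 := hEF.facet _ h7 (by simp) (by simp)
    have h9 : p ∈ ({x, y} : Finset V) := by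
      rw [← h8]
      exact Finset.mem_insert_self _ _
    rw [Finset.mem_insert, Finset.mem_singleton] at h9
    rcases h9 with rfl | rfl
    · exact h1 V Δ p y hHD hP hEF hp
    · exact H7_symm (h1 V Δ p x hHD hP hEF.symm hp)
  by_cases hcon : ∀ F ∈ Δ, Conn Δ (vs Δ \ F)
  · have hctx : Ctx Δ x y := ⟨hP, ⟨fun p hp => hap ⟨p, hp⟩, hcon⟩, hEF⟩
    by_cases hcut : ∃ u X Y, Spl Δ x y {u} X Y
    · obtain ⟨u, X, Y, hSpl⟩ := hcut
      obtain ⟨S, X', Y', hSu, hMS⟩ := hA4 V Δ x y {u} X Y hctx hSpl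
      have hne := hA5 V Δ x y S X' Y' hctx hMS.toSpl
      have hSe : S = {u} := by
        rcases Finset.subset_singleton_iff.1 hSu with h | h
        · rw [h] at hne
          exact absurd hne (by simp)
        · exact h
      rw [hSe] at hMS
      exact h5 V Δ x y u X' Y' hHD hHE hP hEF hMS
    · rcases hS V Δ x y hctx with ⟨p, hp⟩ | h | ⟨s, t, X, Y, hst, hSpl, hs, ht⟩
      · exact (h4 V Δ x y p hHD hHE hP hEF hp).1
      · exact absurd h hcut
      · have hMS := hA6 V Δ x y s t X Y hctx (fun u X Y h => hcut ⟨u, X, Y, h⟩) hst hSpl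
        exact (h6 V Δ x y s t X Y hHD hHE hP hEF hst hMS hs ht).1
  · push Not at hcon
    obtain ⟨F, hF, hn⟩ := hcon
    by_cases hne : (vs Δ \ F).Nonempty
    · obtain ⟨A, B, hAB, hd, hA, hB, ht⟩ := not_conn Finset.sdiff_subset hne hn
      by_cases hFe : F = {x, y}
      · rw [hFe] at hAB
        exact h3 V Δ x y A B hHD hHE hP hEF hAB hd hA hB ht
      · exact h2 V Δ x y F A B hHD hHE hP hEF hF hFe hAB hd hA hB ht
    · exfalso
      apply hap
      have hsub : vs Δ ⊆ F := Finset.sdiff_eq_empty_iff_subset.1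
        (Finset.not_nonempty_iff_eq_empty.1 hne)
      refine ⟨x, fun G hG => hcx.down F hF _ ?_⟩
      exact Finset.insert_subset (hsub hxV) ((hcx.sub_vs hG).trans hsub)

end Pool.Agent.Lib.MP_73b196_co.St
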