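import Pool.Agent.Lib.MP_73b196_co.St.FinSpec

/-!
# I1: cone vertex, or no vertices
-/

set_option autoImplicit false
set_option linter.unusedSectionVars false

namespace Pool.Agent.Lib.MP_73b196_co.St

open Pool.Agent.Lib.MP_73b196_co.Fib (Dg PP ad cone pw On)

theorem tI1 (h1 : Fib.StmtCone) : StmtI1 := by
  intro V _ _ Δ hHD hP hor
  have hcx := hP.cx
  rcases hor with h0 | ⟨p, hp⟩
  · have he : Δ = pw ∅ := by
      ext F
      constructor
      · intro hF
        have := hcx.sub_vs hF
        rw [h0] at this
        exact this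
      · intro hF
        have : F = ∅ := Finset.subset_empty.1 hF
        rw [this]
        exact hcx.empty
    rw [he]
    exact Fib.dg_pw ∅
  · have hpV : p ∈ vs Δ := hcx.sub_vs (hp ∅ hcx.empty) (Finset.mem_insert_self _ _)
    have hcard : (vs (ind Δ (vs Δ \ {p}))).card < (vs Δ).card := by
      apply Finset.card_lt_card
      rw [vs_ind]
      refine ⟨Finset.inter_subset_left, fun h => ?_⟩
      have := (Finset.mem_inter.1 (h hpV)).2
      simp at this
    have he : cone p (ind Δ (vs Δ \ {p})) = Δ := by
      ext F
      constructor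
      · rintro ⟨h2, -⟩
        exact hcx.down _ (hp _ h2) _ (Finset.insert_erase_subset p F)
      · intro hF
        refine ⟨hcx.down F hF _ (Finset.erase_subset _ _), ?_⟩
        intro z hz
        rw [Finset.mem_erase] at hz
        rw [Finset.mem_sdiff, Finset.mem_singleton]
        exact ⟨hcx.sub_vs hF hz.2, hz.1⟩
    have h3 := h1 V (ind Δ (vs Δ \ {p})) p (by
      rintro F ⟨-, hF⟩ hpF
      have := hF hpF
      simp at this) (hHD _ hcard (hP.ind _))
    rwa [he] at h3

end Pool.Agent.Lib.MP_73b196_co.St
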