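import Pool.Agent.Lib.MP_73b196_co.St.FinSpec

/-!
# I2: a separating face
-/

set_option autoImplicit false
set_option linter.unusedSectionVars false

namespace Pool.Agent.Lib.MP_73b196_co.St

open Pool.Agent.Lib.MP_73b196_co.Fib (Dg PP ad cone pw On)

variable {V : Type} [Fintype V] [DecidableEq V] {Δ : Set (Finset V)}

/-- A face lies on one of the two sides. -/
theorem I2_split (h : IsCx Δ) {A B P F : Finset V} (hun : A ∪ B = vs Δ \ P) (ht : ¬ touch Δ A B)
    (hd : Disjoint A B) (hF : F ∈ Δ) : F ⊆ A ∪ P ∨ F ⊆ B ∪ P := by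
  by_cases hA : (F ∩ A).Nonempty
  · left
    obtain ⟨a, ha⟩ := hA
    rw [Finset.mem_inter] at ha
    intro v hv
    rw [Finset.mem_union]
    by_cases hvP : v ∈ P
    · exact Or.inr hvP
    left
    have h1 : v ∈ A ∪ B := by
      rw [hun]
      exact Finset.mem_sdiff.2 ⟨h.sub_vs hF hv, hvP⟩
    rcases Finset.mem_union.1 h1 with h2 | h2
    · exact h2
    · exfalso
      refine ht ⟨a, ha.2, v, h2, h.adj_of_face hF ha.1 hv ?_⟩
      rintro rfl
      exact Finset.disjoint_left.1 hd ha.2 h2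
  · right
    intro v hv
    rw [Finset.mem_union]
    by_cases hvP : v ∈ P
    · exact Or.inr hvP
    left
    have h1 : v ∈ A ∪ B := by
      rw [hun]
      exact Finset.mem_sdiff.2 ⟨h.sub_vs hF hv, hvP⟩
    rcases Finset.mem_union.1 h1 with h2 | h2
    · exact absurd ⟨v, Finset.mem_inter.2 ⟨hv, h2⟩⟩ hA
    · exact h2

theorem tI2 (hFace : Fib.StmtFace) : StmtI2 := by
  intro V _ _ Δ F A B hD hP hF hun hd hA hB ht
  have hcx := hP.cx
  have hAv : ∀ v ∈ A, v ∈ vs Δ ∧ v ∉ F := fun v hv =>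
    Finset.mem_sdiff.1 (hun ▸ Finset.mem_union_left B hv)
  have hBv : ∀ v ∈ B, v ∈ vs Δ ∧ v ∉ F := fun v hv =>
    Finset.mem_sdiff.1 (hun ▸ Finset.mem_union_right A hv)
  have hcard1 : (vs (ind Δ (A ∪ F))).card < (vs Δ).card := by
    rw [vs_ind]
    obtain ⟨b, hb⟩ := hB
    refine Finset.card_lt_card ⟨Finset.inter_subset_left, fun h1 => ?_⟩
    rcases Finset.mem_union.1 (Finset.mem_inter.1 (h1 (hBv b hb).1)).2 with h2 | h2
    · exact Finset.disjoint_left.1 hd h2 hb
    · exact (hBv b hb).2 h2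
  have hcard2 : (vs (ind Δ (B ∪ F))).card < (vs Δ).card := by
    rw [vs_ind]
    obtain ⟨a, ha⟩ := hA
    refine Finset.card_lt_card ⟨Finset.inter_subset_left, fun h1 => ?_⟩
    rcases Finset.mem_union.1 (Finset.mem_inter.1 (h1 (hAv a ha).1)).2 with h2 | h2
    · exact Finset.disjoint_left.1 hd ha h2
    · exact (hAv a ha).2 h2
  have hEq : Δ = ind Δ (A ∪ F) ∪ ind Δ (B ∪ F) := by
    ext G
    constructor
    · intro h1
      rcases I2_split hcx hun ht hd h1 with h3 | h3
      · exact Or.inl ⟨h1, h3⟩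
      · exact Or.inr ⟨h1, h3⟩
    · rintro (h1 | h1)
      · exact h1.1
      · exact h1.1
  have hint : (A ∪ F) ∩ (B ∪ F) = F := by
    ext v
    rw [Finset.mem_inter, Finset.mem_union, Finset.mem_union]
    constructor
    · rintro ⟨h1 | h1, h2 | h2⟩
      · exact absurd h2 (Finset.disjoint_left.1 hd h1)
      · exact h2
      · exact h1
      · exact h1
    · exact fun h1 => ⟨Or.inr h1, Or.inr h1⟩
  have hD1 := hD _ hcard1 (hP.ind _)
  have hD2 := hD _ hcard2 (hP.ind _)
  rw [hEq]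
  exact hFace V _ _ (A ∪ F) (B ∪ F) (fun G hG => hG.2) (fun G hG => hG.2)
    (by rw [hint]; exact ⟨hF, Finset.subset_union_right⟩)
    (by rw [hint]; exact ⟨hF, Finset.subset_union_right⟩) hD1 hD2

end Pool.Agent.Lib.MP_73b196_co.St
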