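import Pool.Agent.Lib.MP_73b196_co.St.FinSpec

/-!
# I3: a separating pair of nonadjacent vertices
-/

set_option autoImplicit false
set_option linter.unusedSectionVars false

namespace Pool.Agent.Lib.MP_73b196_co.St

open Pool.Agent.Lib.MP_73b196_co.Fib (Dg PP ad cone pw On)

variable {V : Type} [Fintype V] [DecidableEq V] {Δ : Set (Finset V)}

theorem I3_vs (Γ : Set (Finset V)) {a b : V} (hab : a ≠ b) : vs (ad Γ a b) = vs Γ := by
  ext v
  rw [mem_vs, mem_vs]
  constructor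
  · rintro (h1 | h1)
    · exfalso
      have h2 : a ∈ ({v} : Finset V) := by rw [h1]; simp
      have h3 : b ∈ ({v} : Finset V) := by rw [h1]; simp
      rw [Finset.mem_singleton] at h2 h3
      exact hab (h2.trans h3.symm)
    · exact h1
  · exact fun h1 => Or.inr h1

/-- A face meeting a component. -/
theorem I3_face (h : IsCx Δ) {P C F : Finset V} (hC : IsComp Δ (vs Δ \ P) C) (hF : F ∈ Δ)
    (hne : (F ∩ C).Nonempty) : F ⊆ C ∪ P := by
  obtain ⟨u, hu⟩ := hne
  rw [Finset.mem_inter] at hu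
  intro v hv
  rw [Finset.mem_union]
  by_cases hvP : v ∈ P
  · exact Or.inr hvP
  · left
    by_cases huv : u = v
    · exact huv ▸ hu.2
    · exact hC.mem_of_adj hu.2 (Finset.mem_sdiff.2 ⟨h.sub_vs hF hv, hvP⟩)
        (h.adj_of_face hF hu.1 hv huv)

/-- All components touch both vertices of the pair. -/
theorem I3_touch (hI : Irr Δ) {a b : V} (ha : a ∈ vs Δ) (hb : b ∈ vs Δ) (hab : a ≠ b)
    {C : Finset V} (hC : IsComp Δ (vs Δ \ {a, b}) C) : touch Δ {a} C := by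
  have h1 := hI.conn {b} (mem_vs.1 hb)
  have h2 : (vs Δ \ {b}) \ {a} = vs Δ \ {a, b} := by
    ext v
    simp only [Finset.mem_sdiff, Finset.mem_insert, Finset.mem_singleton]
    tauto
  refine touch_symm (h1.comp_touch (B := {a}) ?_ (Finset.singleton_nonempty a) ?_)
  · rw [Finset.singleton_subset_iff, Finset.mem_sdiff, Finset.mem_singleton]
    exact ⟨ha, hab⟩
  · rw [h2]
    exact hC

theorem tI3 (hG1 : StmtG1) (hG2 : StmtG2) (hPar : Fib.StmtPar) : StmtI3 := by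
  intro V _ _ Δ hD hE hP hI hN
  have hcx := hP.cx
  unfold NoPair at hN
  push Not at hN
  obtain ⟨a, ha, b, hb, hab, hnab, hnc⟩ := hN
  have hR : vs Δ \ {a, b} ⊆ vs Δ := Finset.sdiff_subset
  have hne : (vs Δ \ {a, b}).Nonempty := by
    rw [Finset.sdiff_nonempty]
    intro h1
    have h2 := hI.conn ∅ hcx.empty
    rw [Finset.sdiff_empty] at h2
    obtain ⟨v, hv, hav⟩ := touch_single_left.1 (h2.2.2 {a} (Finset.singleton_subset_iff.2 ha)
      (Finset.singleton_nonempty a) ⟨b, Finset.mem_sdiff.2 ⟨hb, by simpa using hab.symm⟩⟩)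
    rw [Finset.mem_sdiff, Finset.mem_singleton] at hv
    have h3 := h1 hv.1
    simp only [Finset.mem_insert, Finset.mem_singleton] at h3
    rcases h3 with h3 | h3
    · exact hv.2 h3
    · exact hnab (h3 ▸ hav)
  obtain ⟨v, hv⟩ := hne
  obtain ⟨C1, hC1, hv1⟩ := exists_comp hR hv
  obtain ⟨C2, hC2, hv2⟩ := exists_comp_notMem hR hv hnc
  have hd12 : Disjoint C1 C2 := by
    rw [Finset.disjoint_left]
    intro w hw1 hw2
    have h1 := hC1.eq_of hC2 ⟨w, Finset.mem_inter.2 ⟨hw1, hw2⟩⟩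
    exact hv2 (h1 ▸ hv1)
  have hpair : ({a, b} : Finset V) = {b, a} := Finset.pair_comm a b
  have ha1 : touch Δ {a} C1 := I3_touch hI ha hb hab hC1
  have ha2 : touch Δ {a} C2 := I3_touch hI ha hb hab hC2
  have hb1 : touch Δ {b} C1 := I3_touch hI hb ha hab.symm (by rw [← hpair]; exact hC1)
  have hb2 : touch Δ {b} C2 := I3_touch hI hb ha hab.symm (by rw [← hpair]; exact hC2)
  have hC1P : ∀ w ∈ C1, w ∈ vs Δ ∧ w ≠ a ∧ w ≠ b := by
    intro w hw
    have h1 := hC1.1 hw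
    simpa only [Finset.mem_sdiff, Finset.mem_insert, Finset.mem_singleton, not_or] using h1
  have hC2P : ∀ w ∈ C2, w ∈ vs Δ ∧ w ≠ a ∧ w ≠ b := by
    intro w hw
    have h1 := hC2.1 hw
    simpa only [Finset.mem_sdiff, Finset.mem_insert, Finset.mem_singleton, not_or] using h1
  obtain ⟨w2, hw2⟩ := hC2.2.1.2.1
  -- the two parts
  have haU : a ∈ C1 ∪ {a, b} := Finset.mem_union_right _ (by simp)
  have hbU : b ∈ C1 ∪ {a, b} := Finset.mem_union_right _ (by simp)
  have haW : a ∈ vs Δ \ C1 := Finset.mem_sdiff.2 ⟨ha, fun h => (hC1P a h).2.1 rfl⟩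
  have hbW : b ∈ vs Δ \ C1 := Finset.mem_sdiff.2 ⟨hb, fun h => (hC1P b h).2.2 rfl⟩
  have hEq : Δ = ind Δ (C1 ∪ {a, b}) ∪ ind Δ (vs Δ \ C1) := by
    ext F
    constructor
    · intro hF
      by_cases h1 : (F ∩ C1).Nonempty
      · exact Or.inl ⟨hF, I3_face hcx hC1 hF h1⟩
      · refine Or.inr ⟨hF, fun w hw => Finset.mem_sdiff.2 ⟨hcx.sub_vs hF hw, fun h2 => ?_⟩⟩
        exact h1 ⟨w, Finset.mem_inter.2 ⟨hw, h2⟩⟩
    · rintro (h | h)
      · exact h.1
      · exact h.1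
  have hint : (C1 ∪ {a, b}) ∩ (vs Δ \ C1) = {a, b} := by
    ext w
    rw [Finset.mem_inter, Finset.mem_union, Finset.mem_sdiff]
    constructor
    · rintro ⟨h1 | h1, h2⟩
      · exact absurd h1 h2.2
      · exact h1
    · intro h1
      refine ⟨Or.inr h1, ?_⟩
      simp only [Finset.mem_insert, Finset.mem_singleton] at h1
      rcases h1 with rfl | rfl
      · exact Finset.mem_sdiff.1 haW
      · exact Finset.mem_sdiff.1 hbW
  have hd2U : Disjoint C2 (C1 ∪ {a, b}) := by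
    rw [Finset.disjoint_union_right]
    refine ⟨hd12.symm, ?_⟩
    rw [Finset.disjoint_left]
    intro w hw h1
    simp only [Finset.mem_insert, Finset.mem_singleton] at h1
    rcases h1 with h1 | h1
    · exact (hC2P w hw).2.1 h1
    · exact (hC2P w hw).2.2 h1
  have hInP1 : InP (ad (ind Δ (C1 ∪ {a, b})) a b) := by
    refine hG2 V Δ C2 _ a b hP hC2.2.1 hd2U haU hbU hab ha2 hb2 ?_
    intro F hF h1 w hw
    rw [Finset.mem_inter] at hw
    rcases Finset.mem_union.1 (I3_face hcx hC2 hF h1 hw.1) with h2 | h2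
    · exact absurd hw.2 (Finset.disjoint_left.1 hd2U h2)
    · exact h2
  have hInP2 : InP (ad (ind Δ (vs Δ \ C1)) a b) := by
    refine hG2 V Δ C1 _ a b hP hC1.2.1 Finset.disjoint_sdiff haW hbW hab ha1 hb1 ?_
    intro F hF h1 w hw
    rw [Finset.mem_inter] at hw
    rcases Finset.mem_union.1 (I3_face hcx hC1 hF h1 hw.1) with h2 | h2
    · exact absurd h2 (Finset.mem_sdiff.1 hw.2).2
    · exact h2
  have hcard1 : (vs (ind Δ (C1 ∪ {a, b}))).card < (vs Δ).card := by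
    rw [vs_ind]
    refine Finset.card_lt_card ⟨Finset.inter_subset_left, fun h1 => ?_⟩
    exact Finset.disjoint_left.1 hd2U hw2 (Finset.mem_inter.1 (h1 (hC2P w2 hw2).1)).2
  have hcard2 : (vs (ind Δ (vs Δ \ C1))).card < (vs Δ).card := by
    rw [vs_ind]
    refine Finset.card_lt_card ⟨Finset.inter_subset_left, fun h1 => ?_⟩
    exact (Finset.mem_sdiff.1 (Finset.mem_inter.1 (h1 (hC1P v hv1).1)).2).2 hv1
  have hm : ∀ U : Finset V, a ∈ U → b ∈ U → ({a} : Finset V) ∈ ind Δ U ∧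
      ({b} : Finset V) ∈ ind Δ U ∧ (∅ : Finset V) ∈ ind Δ U := by
    intro U h1 h2
    exact ⟨⟨mem_vs.1 ha, Finset.singleton_subset_iff.2 h1⟩,
      ⟨mem_vs.1 hb, Finset.singleton_subset_iff.2 h2⟩, ⟨hcx.empty, Finset.empty_subset _⟩⟩
  obtain ⟨m1, m2, m3⟩ := hm _ haU hbU
  obtain ⟨n1, n2, n3⟩ := hm _ haW hbW
  have hPP1 := hG1 V _ _ a b hD hE hcard1 hab (hP.ind _) m1 m2 hInP1
  have hPP2 := hG1 V _ _ a b hD hE hcard2 hab (hP.ind _) n1 n2 hInP2
  have hD1 := hD _ (by rw [I3_vs _ hab]; exact hcard1) hInP1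
  have hD2 := hD _ (by rw [I3_vs _ hab]; exact hcard2) hInP2
  rw [hEq]
  exact (hPar V _ _ _ _ a b hab (fun F hF => hF.2) (fun F hF => hF.2) hint m3 m1 m2 n3 n1 n2
    hPP1 hD1 hPP2 hD2).2

end Pool.Agent.Lib.MP_73b196_co.St
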