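import Pool.Agent.Lib.MP_73b196_co.St.FinSpec

/-!
# I4: a separating hollow triangle

If the hollow triangle is the whole complex it is a cone over two points with one more edge
(`Fib.StmtConeD`).
-/

set_option autoImplicit false

namespace Pool.Agent.Lib.MP_73b196_co.St

open Pool.Agent.Lib.MP_73b196_co.Fib (Dg PP ad cone pw On)

variable {V : Type} [Fintype V] [DecidableEq V]

/-- Two vertices without edge. -/
def I4_two (x y : V) : Set (Finset V) := {F | F = ∅ ∨ F = {x} ∨ F = {y}}

omit [Fintype V] in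
theorem I4_subset_pair {x y : V} {F : Finset V} (h : F ⊆ {x, y}) :
    F = ∅ ∨ F = {x} ∨ F = {y} ∨ F = {x, y} := by
  by_cases hx : x ∈ F
  · by_cases hy : y ∈ F
    · refine Or.inr (Or.inr (Or.inr (Finset.Subset.antisymm h ?_)))
      rw [Finset.insert_subset_iff, Finset.singleton_subset_iff]
      exact ⟨hx, hy⟩
    · refine Or.inr (Or.inl (Finset.Subset.antisymm (fun w hw => ?_) ?_))
      · have h1 := h hw
        rw [Finset.mem_insert, Finset.mem_singleton] at h1
        rw [Finset.mem_singleton]
        rcases h1 with h1 | h1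
        · exact h1
        · exact absurd (h1 ▸ hw) hy
      · rw [Finset.singleton_subset_iff]
        exact hx
  · by_cases hy : y ∈ F
    · refine Or.inr (Or.inr (Or.inl (Finset.Subset.antisymm (fun w hw => ?_) ?_)))
      · have h1 := h hw
        rw [Finset.mem_insert, Finset.mem_singleton] at h1
        rw [Finset.mem_singleton]
        rcases h1 with h1 | h1
        · exact absurd (h1 ▸ hw) hx
        · exact h1
      · rw [Finset.singleton_subset_iff]
        exact hy
    · refine Or.inl (Finset.eq_empty_of_forall_notMem fun w hw => ?_)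
      have h1 := h hw
      rw [Finset.mem_insert, Finset.mem_singleton] at h1
      rcases h1 with h1 | h1
      · exact hx (h1 ▸ hw)
      · exact hy (h1 ▸ hw)

omit [Fintype V] in
theorem I4_cn {Δ : Set (Finset V)} {x y : V} {S S' : Fib.Tab V}
    (h : Fib.Cn Δ 2 S S') : Relation.ReflTransGen (Fib.Pr Δ x y) S S' := by
  induction h with
  | refl => exact Relation.ReflTransGen.refl
  | tail _ h ih => exact Relation.ReflTransGen.tail ih (Or.inr h)

theorem I4_pp (x y : V) : PP (I4_two x y) x y := by
  intro T T' hT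
  have h1 : Fib.Cn (pw {x} ∪ pw {y}) 2 T T' :=
    Fib.match_cn (hT {x} (Or.inr (Or.inl rfl))) (hT {y} (Or.inr (Or.inr rfl)))
  have h2 : Fib.Cn (I4_two x y) 2 T T' := by
    refine h1.mono (fun F hF => ?_) le_rfl
    rcases hF with rfl | rfl | rfl
    · exact ⟨{x}, Or.inl (Finset.Subset.refl _), Finset.empty_subset _⟩
    · exact ⟨{x}, Or.inl (Finset.Subset.refl _), Finset.Subset.refl _⟩
    · exact ⟨{y}, Or.inr (Finset.Subset.refl _), Finset.Subset.refl _⟩
  exact I4_cn h2

omit [Fintype V] in
theorem I4_dg (x y : V) : Dg (ad (I4_two x y) x y) := by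
  have h1 : ad (I4_two x y) x y = pw {x, y} := by
    ext F
    show (F = {x, y} ∨ F = ∅ ∨ F = {x} ∨ F = {y}) ↔ F ⊆ {x, y}
    constructor
    · rintro (rfl | rfl | rfl | rfl)
      · exact Finset.Subset.refl _
      · exact Finset.empty_subset _
      · rw [Finset.singleton_subset_iff]
        exact Finset.mem_insert_self _ _
      · rw [Finset.singleton_subset_iff]
        exact Finset.mem_insert_of_mem (Finset.mem_singleton_self _)
    · intro h
      have h2 := I4_subset_pair h
      tauto
  rw [h1]
  exact Fib.dg_pw _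

/-- The hollow triangle. -/
theorem I4_hollow (hC : Fib.StmtConeD) {a b c : V} (hab : a ≠ b) (hac : a ≠ c) (hbc : b ≠ c) :
    Dg (ad (cone a (I4_two b c)) b c) := by
  refine hC V (I4_two b c) a b c hbc ?_ hab hac (Or.inl rfl) (Or.inr (Or.inl rfl))
    (Or.inr (Or.inr rfl)) (I4_pp b c) (I4_dg b c)
  rintro F (rfl | rfl | rfl)
  · exact Finset.notMem_empty a
  · rw [Finset.mem_singleton]
    exact hab
  · rw [Finset.mem_singleton]
    exact hac

/-- Every component touches the vertex `a`. -/
theorem I4_touch {Δ : Set (Finset V)} {T E C : Finset V} {a : V} (hi : Irr Δ) (hE : E ∈ Δ)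
    (hT : ∀ v, v ∈ T ↔ v = a ∨ v ∈ E) (haE : a ∉ E) (ha : a ∈ vs Δ)
    (hC : IsComp Δ (vs Δ \ T) C) : touch Δ {a} C := by
  have h1 := hi.conn E hE
  have hCsub : C ⊆ vs Δ \ E := by
    intro v hv
    have h2 := Finset.mem_sdiff.1 (hC.1 hv)
    exact Finset.mem_sdiff.2 ⟨h2.1, fun h => h2.2 ((hT v).2 (Or.inr h))⟩
  have haC : a ∉ C := fun h => (Finset.mem_sdiff.1 (hC.1 h)).2 ((hT a).2 (Or.inl rfl))
  obtain ⟨p, hp, q, hq, hpq⟩ := h1.2.2 C hCsub hC.2.1.2.1
    ⟨a, Finset.mem_sdiff.2 ⟨Finset.mem_sdiff.2 ⟨ha, haE⟩, haC⟩⟩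
  rw [Finset.mem_sdiff, Finset.mem_sdiff] at hq
  by_cases hqa : q = a
  · subst hqa
    exact touch_single_left.2 ⟨p, hp, adj_symm hpq⟩
  · exfalso
    refine hq.2 (hC.mem_of_adj hp (Finset.mem_sdiff.2 ⟨hq.1.1, fun h => ?_⟩) hpq)
    rcases (hT q).1 h with h | h
    · exact hqa h
    · exact hq.1.2 h

/-- A face meeting a component. -/
theorem I4_face {Δ : Set (Finset V)} {T C F : Finset V} (hcx : IsCx Δ)
    (hC : IsComp Δ (vs Δ \ T) C) (hF : F ∈ Δ) (h : (F ∩ C).Nonempty) : F ⊆ C ∪ T := by
  obtain ⟨f, hf⟩ := h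
  rw [Finset.mem_inter] at hf
  intro v hv
  by_cases hvT : v ∈ T
  · exact Finset.mem_union_right _ hvT
  · refine Finset.mem_union_left _ ?_
    by_cases hvf : v = f
    · exact hvf ▸ hf.2
    · exact hC.mem_of_adj hf.2 (Finset.mem_sdiff.2 ⟨hcx.sub_vs hF hv, hvT⟩)
        (hcx.adj_of_face hF hf.1 hv (Ne.symm hvf))

theorem I4_card {Δ : Set (Finset V)} {U T : Finset V} {p b c : V} (hp : p ∈ vs Δ) (hU : p ∉ U)
    (hb : b ∈ T) (hc : c ∈ T) (hbc : b ≠ c) :
    (vs (ind Δ U)).card < (vs Δ).card ∧ (vs (insert T (ind Δ U))).card < (vs Δ).card := by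
  have h1 : (vs (ind Δ U)).card < (vs Δ).card := by
    rw [vs_ind]
    refine Finset.card_lt_card ⟨Finset.inter_subset_left, fun h => ?_⟩
    exact hU (Finset.mem_inter.1 (h hp)).2
  refine ⟨h1, lt_of_le_of_lt (Finset.card_le_card fun v hv => ?_) h1⟩
  rw [mem_vs] at hv ⊢
  rcases hv with hv | hv
  · exfalso
    rw [← hv, Finset.mem_singleton] at hb hc
    exact hbc (hb.trans hc.symm)
  · exact hv

theorem tI4 (hG : StmtG3) (hTri : Fib.StmtTri) (hCone : Fib.StmtConeD) : StmtI4 := by
  classical
  intro V _ _ Δ a b c hD hP hi hab hac hbc hT hn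
  have hcx := hP.cx
  obtain ⟨hav, hbv⟩ := hcx.adj_vs hab
  have hcv := (hcx.adj_vs hac).2
  have hTv : ({a, b, c} : Finset V) ⊆ vs Δ := by
    rw [Finset.insert_subset_iff, Finset.insert_subset_iff, Finset.singleton_subset_iff]
    exact ⟨hav, hbv, hcv⟩
  have hprop : ∀ F : Finset V, F ⊆ {a, b, c} → F ≠ {a, b, c} → F ∈ Δ := by
    intro F hF hne
    have h1 : ∃ v ∈ ({a, b, c} : Finset V), v ∉ F := by
      by_contra hcon
      push Not at hcon
      exact hne (Finset.Subset.antisymm hF hcon)
    obtain ⟨v, hv, hvF⟩ := h1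
    rw [Finset.mem_insert, Finset.mem_insert, Finset.mem_singleton] at hv
    rcases hv with rfl | rfl | rfl
    · refine hcx.down _ hbc.2 _ fun w hw => ?_
      have h2 := hF hw
      rw [Finset.mem_insert, Finset.mem_insert, Finset.mem_singleton] at h2
      rw [Finset.mem_insert, Finset.mem_singleton]
      rcases h2 with rfl | h2
      · exact absurd hw hvF
      · exact h2
    · refine hcx.down _ hac.2 _ fun w hw => ?_
      have h2 := hF hw
      rw [Finset.mem_insert, Finset.mem_insert, Finset.mem_singleton] at h2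
      rw [Finset.mem_insert, Finset.mem_singleton]
      rcases h2 with h2 | rfl | h2
      · exact Or.inl h2
      · exact absurd hw hvF
      · exact Or.inr h2
    · refine hcx.down _ hab.2 _ fun w hw => ?_
      have h2 := hF hw
      rw [Finset.mem_insert, Finset.mem_insert, Finset.mem_singleton] at h2
      rw [Finset.mem_insert, Finset.mem_singleton]
      rcases h2 with h2 | h2 | rfl
      · exact Or.inl h2
      · exact Or.inr h2
      · exact absurd hw hvF
  by_cases hemp : vs Δ \ {a, b, c} = ∅
  · -- the complex is the hollow triangle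
    have hvT : vs Δ ⊆ {a, b, c} := Finset.sdiff_eq_empty_iff_subset.1 hemp
    have h1 : Δ = ad (cone a (I4_two b c)) b c := by
      ext F
      show F ∈ Δ ↔ (F = {b, c} ∨ (F.erase a = ∅ ∨ F.erase a = {b} ∨ F.erase a = {c}))
      constructor
      · intro hF
        have h2 : F ⊆ {a, b, c} := (hcx.sub_vs hF).trans hvT
        have h3 : F.erase a ⊆ {b, c} := by
          intro w hw
          rw [Finset.mem_erase] at hw
          have h4 := h2 hw.2
          rw [Finset.mem_insert] at h4
          exact h4.resolve_left hw.1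
        rcases I4_subset_pair h3 with h3 | h3 | h3 | h3
        · exact Or.inr (Or.inl h3)
        · exact Or.inr (Or.inr (Or.inl h3))
        · exact Or.inr (Or.inr (Or.inr h3))
        · by_cases haF : a ∈ F
          · exfalso
            apply hT
            rw [← h3, Finset.insert_erase haF]
            exact hF
          · left
            rw [← h3, Finset.erase_eq_of_notMem haF]
      · have key : ∀ (e : Finset V), e ⊆ {a, b, c} → insert a e ∈ Δ → F.erase a = e → F ∈ Δ := by
          intro e _ he h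
          refine hcx.down _ he _ ?_
          rw [← h]
          exact Finset.insert_erase_subset a F
        rintro (rfl | h | h | h)
        · exact hbc.2
        · exact key ∅ (Finset.empty_subset _) (mem_vs.1 hav) h
        · refine key {b} ?_ hab.2 h
          rw [Finset.singleton_subset_iff]
          simp
        · refine key {c} ?_ hac.2 h
          rw [Finset.singleton_subset_iff]
          simp
    rw [h1]
    exact I4_hollow hCone hab.1 hac.1 hbc.1
  · obtain ⟨v, hv⟩ := Finset.nonempty_iff_ne_empty.2 hemp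
    obtain ⟨C1, hC1, hvC1⟩ := exists_comp (Δ := Δ) Finset.sdiff_subset hv
    obtain ⟨C2, hC2, hvC2⟩ := exists_comp_notMem (Δ := Δ) Finset.sdiff_subset hv hn
    have hne : C1 ≠ C2 := fun h => hvC2 (h ▸ hvC1)
    have hdis : ∀ w ∈ C1, w ∉ C2 := fun w hw hw' =>
      hne (hC1.eq_of hC2 ⟨w, Finset.mem_inter.2 ⟨hw, hw'⟩⟩)
    obtain ⟨p, hp⟩ := hC2.2.1.2.1
    have hCT : ∀ C, IsComp Δ (vs Δ \ {a, b, c}) C → ∀ w ∈ C, w ∈ vs Δ ∧
        w ∉ ({a, b, c} : Finset V) := fun C hC w hw => Finset.mem_sdiff.1 (hC.1 hw)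
    have hta : ∀ C, IsComp Δ (vs Δ \ {a, b, c}) C → touch Δ {a} C := fun C hC =>
      I4_touch hi hbc.2 (fun w => by simp only [Finset.mem_insert, Finset.mem_singleton])
        (by
          rw [Finset.mem_insert, Finset.mem_singleton]
          rintro (h | h)
          · exact hab.1 h
          · exact hac.1 h) hav hC
    have htb : ∀ C, IsComp Δ (vs Δ \ {a, b, c}) C → touch Δ {b} C := fun C hC =>
      I4_touch hi hac.2 (fun w => by
          simp only [Finset.mem_insert, Finset.mem_singleton]
          tauto)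
        (by
          rw [Finset.mem_insert, Finset.mem_singleton]
          rintro (h | h)
          · exact hab.1 h.symm
          · exact hbc.1 h) hbv hC
    have htc : ∀ C, IsComp Δ (vs Δ \ {a, b, c}) C → touch Δ {c} C := fun C hC =>
      I4_touch hi hab.2 (fun w => by
          simp only [Finset.mem_insert, Finset.mem_singleton]
          tauto)
        (by
          rw [Finset.mem_insert, Finset.mem_singleton]
          rintro (h | h)
          · exact hac.1 h.symm
          · exact hbc.1 h.symm) hcv hC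
    have haT : a ∈ ({a, b, c} : Finset V) := by simp
    have hbT : b ∈ ({a, b, c} : Finset V) := by simp
    have hcT : c ∈ ({a, b, c} : Finset V) := by simp
    set U : Finset V := C1 ∪ {a, b, c} with hU
    set W : Finset V := vs Δ \ C1 with hW
    have hTU : ({a, b, c} : Finset V) ⊆ U := Finset.subset_union_right
    have hTW : ({a, b, c} : Finset V) ⊆ W := fun w hw =>
      Finset.mem_sdiff.2 ⟨hTv hw, fun h => (hCT C1 hC1 w h).2 hw⟩
    have hUW : U ∩ W = {a, b, c} := by
      ext w
      rw [Finset.mem_inter]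
      constructor
      · rintro ⟨h1, h2⟩
        rcases Finset.mem_union.1 h1 with h | h
        · exact absurd h (Finset.mem_sdiff.1 h2).2
        · exact h
      · exact fun h => ⟨hTU h, hTW h⟩
    have hpU : p ∉ U := by
      rw [hU, Finset.mem_union]
      rintro (h | h)
      · exact hdis p h hp
      · exact (hCT C2 hC2 p hp).2 h
    have hvW : v ∉ W := fun h => (Finset.mem_sdiff.1 h).2 hvC1
    have hdec : Δ = ind Δ U ∪ ind Δ W := by
      ext F
      constructor
      · intro hF
        by_cases h : (F ∩ C1).Nonempty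
        · exact Or.inl ⟨hF, I4_face hcx hC1 hF h⟩
        · refine Or.inr ⟨hF, fun w hw => Finset.mem_sdiff.2 ⟨hcx.sub_vs hF hw, fun h' => ?_⟩⟩
          exact h ⟨w, Finset.mem_inter.2 ⟨hw, h'⟩⟩
      · rintro (h | h)
        · exact h.1
        · exact h.1
    have hI1 : InP (insert {a, b, c} (ind Δ U)) := by
      refine hG V Δ C2 U a b c hP hC2.2.1 ?_ (hTU haT) (hTU hbT) (hTU hcT) hab hac hbc hT
        (hta C2 hC2) (htb C2 hC2) (htc C2 hC2) ?_
      · rw [Finset.disjoint_left]
        intro w hw hw'
        rcases Finset.mem_union.1 hw' with h | h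
        · exact hdis w h hw
        · exact (hCT C2 hC2 w hw).2 h
      · intro F hF h w hw
        rw [Finset.mem_inter] at hw
        rcases Finset.mem_union.1 hw.2 with h1 | h1
        · exfalso
          rcases Finset.mem_union.1 (I4_face hcx hC2 hF h hw.1) with h2 | h2
          · exact hdis w h1 h2
          · exact (hCT C1 hC1 w h1).2 h2
        · exact h1
    have hI2 : InP (insert {a, b, c} (ind Δ W)) := by
      refine hG V Δ C1 W a b c hP hC1.2.1 ?_ (hTW haT) (hTW hbT) (hTW hcT) hab hac hbc hT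
        (hta C1 hC1) (htb C1 hC1) (htc C1 hC1) ?_
      · rw [Finset.disjoint_left]
        exact fun w hw hw' => (Finset.mem_sdiff.1 hw').2 hw
      · intro F hF h w hw
        rw [Finset.mem_inter] at hw
        rcases Finset.mem_union.1 (I4_face hcx hC1 hF h hw.1) with h2 | h2
        · exact absurd h2 (Finset.mem_sdiff.1 hw.2).2
        · exact h2
    have k1 := I4_card (hCT C2 hC2 p hp).1 hpU hbT hcT hbc.1
    have k2 := I4_card (hCT C1 hC1 v hvC1).1 hvW hbT hcT hbc.1
    rw [hdec]
    exact hTri V (ind Δ U) (ind Δ W) U W a b c hab.1 hac.1 hbc.1 (fun F hF => hF.2)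
      (fun F hF => hF.2) hUW (fun F hF hne' => ⟨⟨hprop F hF hne', hF.trans hTU⟩,
        ⟨hprop F hF hne', hF.trans hTW⟩⟩) (hD _ k1.1 (hP.ind U)) (hD _ k1.2 hI1)
      (hD _ k2.1 (hP.ind W)) (hD _ k2.2 hI2)

end Pool.Agent.Lib.MP_73b196_co.St
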