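import Pool.Agent.Lib.MP_73b196_co.St.FinSpec

/-!
# I5: an edge facet
-/

set_option autoImplicit false
set_option linter.unusedSectionVars false

namespace Pool.Agent.Lib.MP_73b196_co.St

open Pool.Agent.Lib.MP_73b196_co.Fib (Dg PP ad cone pw On)

variable {V : Type} [Fintype V] [DecidableEq V] {Δ : Set (Finset V)}

/-- The side of a cut vertex is a single vertex. -/
theorem I5_side {x y u : V} {X Y : Finset V} (hc : Ctx Δ x y) (hN : NoPair Δ)
    (h : Spl Δ x y {u} X Y) : X = {x} := by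
  by_contra hne
  have hux : u ≠ x := by
    rintro rfl
    exact Finset.disjoint_left.1 h.dXS h.hx (by simp)
  have hu : u ∈ vs Δ := by
    rw [← h.un]
    simp
  have h1 : (X \ {x}).Nonempty := by
    rw [Finset.sdiff_nonempty]
    exact fun h2 => hne (Finset.Subset.antisymm h2 (Finset.singleton_subset_iff.2 h.hx))
  have hun : (X \ {x}) ∪ Y = vs Δ \ {x, u} := by
    rw [← h.un]
    ext v
    simp only [Finset.mem_union, Finset.mem_sdiff, Finset.mem_singleton, Finset.mem_insert, not_or]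
    constructor
    · rintro (⟨h2, h3⟩ | h2)
      · refine ⟨Or.inl (Or.inl h2), h3, ?_⟩
        rintro rfl
        exact Finset.disjoint_left.1 h.dXS h2 (by simp)
      · refine ⟨Or.inr h2, ?_, ?_⟩
        · rintro rfl
          exact Finset.disjoint_left.1 h.dXY h.hx h2
        · rintro rfl
          exact Finset.disjoint_left.1 h.dSY (by simp) h2
    · rintro ⟨(h2 | h2) | h2, h3, h4⟩
      · exact Or.inl ⟨h2, h3⟩
      · exact absurd h2 h4
      · exact Or.inr h2
  have hconn : ¬ Conn Δ (vs Δ \ {x, u}) := by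
    intro h2
    obtain ⟨a, ha, b, hb, hab⟩ := h2.touch_of h1 ⟨y, h.hy⟩
      (Finset.disjoint_of_subset_left Finset.sdiff_subset h.dXY) hun
    rw [Finset.mem_sdiff, Finset.mem_singleton] at ha
    exact ha.2 (h.no_edge ha.1 hb hab).1
  by_cases hadj : adj Δ x u
  · exact hconn (hc.irr.conn _ hadj.2)
  · exact hconn (hN x hc.mem_left u hu hux.symm hadj)

theorem I5_adj {x y u : V} (hc : Ctx Δ x y) (hu : u ≠ x) (huy : u ≠ y) (huv : u ∈ vs Δ)
    (hvs : ∀ v ∈ vs Δ, v = x ∨ v = u ∨ v = y) : adj Δ x u := by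
  have h1 := hc.irr.conn {y} (mem_vs.1 hc.mem_right)
  have hx : x ∈ vs Δ \ {y} := by
    rw [Finset.mem_sdiff, Finset.mem_singleton]
    exact ⟨hc.mem_left, hc.ef.ne⟩
  obtain ⟨v, hv, hxv⟩ := touch_single_left.1 (h1.2.2 {x} (Finset.singleton_subset_iff.2 hx)
    (Finset.singleton_nonempty x) ⟨u, by
      simp only [Finset.mem_sdiff, Finset.mem_singleton]
      exact ⟨⟨huv, huy⟩, hu⟩⟩)
  simp only [Finset.mem_sdiff, Finset.mem_singleton] at hv
  rcases hvs v hv.1.1 with h2 | h2 | h2
  · exact absurd h2 hv.2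
  · exact h2 ▸ hxv
  · exact absurd h2 hv.1.2

theorem tI5 (hA6 : StmtA6) (hS : StmtThmS) (hH4 : StmtH4) (hH6 : StmtH6) (hI3 : StmtI3) :
    StmtI5 := by
  intro V _ _ Δ x y hD hE hc
  by_cases hN : NoPair Δ
  swap
  · exact hI3 V Δ hD hE hc.inP hc.irr hN
  have hcx := hc.inP.cx
  have hcut : ∀ u X Y, Spl Δ x y {u} X Y → Dg Δ := by
    intro u X Y h
    have e1 := I5_side hc hN h
    have e2 := I5_side hc.symm hN h.symm
    have hux : u ≠ x := by
      rintro rfl
      exact Finset.disjoint_left.1 h.dXS h.hx (by simp)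
    have huy : u ≠ y := by
      rintro rfl
      exact Finset.disjoint_left.1 h.dSY (by simp) h.hy
    have hu : u ∈ vs Δ := by
      rw [← h.un]
      simp
    have hvs : ∀ v ∈ vs Δ, v = x ∨ v = u ∨ v = y := by
      intro v hv
      rw [← h.un, e1, e2] at hv
      simp only [Finset.mem_union, Finset.mem_singleton] at hv
      tauto
    have a1 := I5_adj hc hux huy hu hvs
    have a2 := I5_adj hc.symm huy hux hu (fun v hv => by
      rcases hvs v hv with h1 | h1 | h1
      · exact Or.inr (Or.inr h1)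
      · exact Or.inr (Or.inl h1)
      · exact Or.inl h1)
    refine (hH4 V Δ x y u hD hE hc.inP hc.ef ⟨hux, huy, ?_⟩).2
    intro F hF hne
    rcases h.face F hF with h1 | h1 | h1
    · refine hcx.down _ a1.2 _ ?_
      rw [Finset.insert_subset_iff]
      refine ⟨by simp, h1.trans ?_⟩
      rw [e1]
      intro v hv
      simpa using hv
    · refine hcx.down _ a2.2 _ ?_
      rw [Finset.insert_subset_iff]
      refine ⟨by simp, h1.trans ?_⟩
      rw [e2]
      intro v hv
      simpa using hv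
    · exact absurd h1 hne
  rcases hS V Δ x y hc with ⟨p, hp⟩ | ⟨u, X, Y, h⟩ | ⟨s, t, X, Y, hst, h, hs, ht⟩
  · exact (hH4 V Δ x y p hD hE hc.inP hc.ef hp).2
  · exact hcut u X Y h
  · by_cases hu : ∃ u X Y, Spl Δ x y {u} X Y
    · obtain ⟨u, X', Y', h'⟩ := hu
      exact hcut u X' Y' h'
    · have hM := hA6 V Δ x y s t X Y hc (fun u X' Y' h' => hu ⟨u, X', Y', h'⟩) hst h
      exact (hH6 V Δ x y s t X Y hD hE hc.inP hc.ef hst hM hs ht).2

end Pool.Agent.Lib.MP_73b196_co.St
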