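import Mathlib

/-!
# Structure of the complexes without the excluded minors: definitions

`V` is a fixed finite ambient set; a complex is a family `Δ : Set (Finset V)` which contains the empty
set and is closed under subsets; its vertex set `vs Δ` is the set of all `v` with `{v} ∈ Δ` (it may be
smaller than `V`). Deletion of vertices and contraction of edges stay inside `V`.

All notions used in the structure theorem:
* `adj Δ a b` : `a ≠ b` and `{a, b}` is a face,
* `touch Δ A B` : some vertex of `A` is adjacent to some vertex of `B`,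
* `Conn Δ A` : `A` is a nonempty set of vertices, connected in the 1-skeleton (cut form: every
  splitting of `A` in two nonempty parts has an edge between the parts),
* `fill Δ L` : some face meets all the sets of the list `L`,
* `CM Δ L` : the sets of the list `L` are connected, pairwise disjoint and pairwise touch each other,
* `InP Δ` : the class (all rules which the excluded minors give),
* `Irr Δ` : irreducible (no cone vertex, no separating face),
* `EdgeFacet Δ x y`, `Spl Δ x y S X Y` (the set `S` separates `x` from `y` in `Δ` minus the facet `xy`),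
  `MS Δ x y S X Y` (minimal separators).
-/

set_option autoImplicit false

namespace Pool.Agent.Lib.MP_73b196_co.St

variable {V : Type} [Fintype V] [DecidableEq V]

/-- A simplicial complex whose vertex set is a subset of `V`. -/
structure IsCx (Δ : Set (Finset V)) : Prop where
  empty : ∅ ∈ Δ
  down : ∀ F ∈ Δ, ∀ G, G ⊆ F → G ∈ Δ

open Classical in
/-- The vertex set. -/
noncomputable def vs (Δ : Set (Finset V)) : Finset V := Finset.univ.filter fun v => {v} ∈ Δ

/-- Adjacency in the 1-skeleton. -/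
def adj (Δ : Set (Finset V)) (a b : V) : Prop := a ≠ b ∧ ({a, b} : Finset V) ∈ Δ

/-- Some vertex of `A` is adjacent to some vertex of `B`. -/
def touch (Δ : Set (Finset V)) (A B : Finset V) : Prop := ∃ a ∈ A, ∃ b ∈ B, adj Δ a b

/-- `A` is a nonempty connected set of vertices. -/
def Conn (Δ : Set (Finset V)) (A : Finset V) : Prop :=
  A ⊆ vs Δ ∧ A.Nonempty ∧ ∀ B, B ⊆ A → B.Nonempty → (A \ B).Nonempty → touch Δ B (A \ B)

/-- Some face meets all the sets in the list. -/
def fill (Δ : Set (Finset V)) (L : List (Finset V)) : Prop := ∃ F ∈ Δ, ∀ A ∈ L, (F ∩ A).Nonempty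

/-- Clique model: connected, pairwise disjoint, pairwise adjacent sets. -/
def CM (Δ : Set (Finset V)) (L : List (Finset V)) : Prop :=
  (∀ A ∈ L, Conn Δ A) ∧ L.Pairwise fun A B => Disjoint A B ∧ touch Δ A B

/-- The class of complexes without the excluded minors, in terms of models. -/
structure InP (Δ : Set (Finset V)) : Prop where
  cx : IsCx Δ
  /-- Among four pairwise adjacent sets, at least one of three given triples is filled. -/
  k4 : ∀ A B C D, CM Δ [A, B, C, D] → fill Δ [A, B, C] ∨ fill Δ [A, B, D] ∨ fill Δ [A, C, D]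
  /-- Two unfilled triples never meet in exactly one set. -/
  k5 : ∀ A B C D E, CM Δ [A, B, C, D, E] → fill Δ [A, B, C] ∨ fill Δ [A, D, E]
  /-- Two unfilled triples are never disjoint. -/
  k6 : ∀ A B C D E F, CM Δ [A, B, C, D, E, F] → fill Δ [A, B, C] ∨ fill Δ [D, E, F]
  /-- No minimal nonface of size at least four: if all triples are filled, everything is filled. -/
  nf : ∀ 𝒜 : Finset (Finset V), (∀ A ∈ 𝒜, Conn Δ A) →
    (∀ A ∈ 𝒜, ∀ B ∈ 𝒜, A ≠ B → Disjoint A B ∧ touch Δ A B) →
    (∀ A ∈ 𝒜, ∀ B ∈ 𝒜, ∀ C ∈ 𝒜, A ≠ B → A ≠ C → B ≠ C → fill Δ [A, B, C]) →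
    ∃ F ∈ Δ, ∀ A ∈ 𝒜, (F ∩ A).Nonempty
  /-- No model of the complex `X6` with the facets `{v,w,s}, {w,s,t}, {s,t,u}, {t,u,z}, {u,z,v}`
  (the set `{v,s,u}` is a hollow triangle, and `vt, wu, wz, sz` are the nonadjacent pairs). -/
  x6 : ∀ v w s t u z : Finset V, (∀ A ∈ [v, w, s, t, u, z], Conn Δ A) →
    [v, w, s, t, u, z].Pairwise (fun A B => Disjoint A B) →
    fill Δ [v, w, s] → fill Δ [w, s, t] → fill Δ [s, t, u] → fill Δ [t, u, z] → fill Δ [u, z, v] →
    ¬ fill Δ [v, s, u] → ¬ touch Δ v t → ¬ touch Δ w u → ¬ touch Δ w z → ¬ touch Δ s z → False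

/-- `p` is a cone vertex. -/
def Apex (Δ : Set (Finset V)) (p : V) : Prop := ∀ F ∈ Δ, insert p F ∈ Δ

/-- The induced complex on `U`. -/
def ind (Δ : Set (Finset V)) (U : Finset V) : Set (Finset V) := {F | F ∈ Δ ∧ F ⊆ U}

/-- The contraction of the set `A` to the vertex `a`. -/
def con (Δ : Set (Finset V)) (A : Finset V) (a : V) : Set (Finset V) :=
  {G | ∃ F ∈ Δ, F.image (fun v => if v ∈ A then a else v) = G}

/-- Irreducible: no cone vertex and no separating face. -/
structure Irr (Δ : Set (Finset V)) : Prop where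
  noApex : ∀ p, ¬ Apex Δ p
  conn : ∀ F ∈ Δ, Conn Δ (vs Δ \ F)

/-- The edge `xy` is a facet. -/
structure EdgeFacet (Δ : Set (Finset V)) (x y : V) : Prop where
  ne : x ≠ y
  mem : ({x, y} : Finset V) ∈ Δ
  facet : ∀ F ∈ Δ, x ∈ F → y ∈ F → F = {x, y}

/-- The standing assumptions of the structure theorem for edge facets. -/
structure Ctx (Δ : Set (Finset V)) (x y : V) : Prop where
  inP : InP Δ
  irr : Irr Δ
  ef : EdgeFacet Δ x y

/-- `p` is a cone vertex of `Δ` minus the facet `xy`. -/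
def ApexD (Δ : Set (Finset V)) (x y p : V) : Prop :=
  p ≠ x ∧ p ≠ y ∧ ∀ F ∈ Δ, F ≠ {x, y} → insert p F ∈ Δ

/-- `S` separates `X` from `Y` in `Δ` minus the facet `xy`, with `x ∈ X` and `y ∈ Y`. -/
structure Spl (Δ : Set (Finset V)) (x y : V) (S X Y : Finset V) : Prop where
  un : X ∪ S ∪ Y = vs Δ
  dXS : Disjoint X S
  dXY : Disjoint X Y
  dSY : Disjoint S Y
  hx : x ∈ X
  hy : y ∈ Y
  face : ∀ F ∈ Δ, F ⊆ X ∪ S ∨ F ⊆ Y ∪ S ∨ F = {x, y}

/-- `S` is a minimal separator of `x` and `y` in `Δ` minus the facet `xy`, with the sides `X`, `Y`. -/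
structure MS (Δ : Set (Finset V)) (x y : V) (S X Y : Finset V) : Prop extends Spl Δ x y S X Y where
  cX : Conn Δ X
  cY : Conn Δ Y
  tX : ∀ s ∈ S, touch Δ {s} X
  tY : ∀ s ∈ S, touch Δ {s} Y

/-- `S` separates the connected sets `X` and `Y`, all vertices of `S` touch `X` and `Y` (other vertices
may exist). -/
structure PMS (Δ : Set (Finset V)) (x y : V) (S X Y : Finset V) : Prop where
  hx : x ∈ X
  hy : y ∈ Y
  cX : Conn Δ X
  cY : Conn Δ Y
  sS : S ⊆ vs Δ
  dXS : Disjoint X S
  dXY : Disjoint X Y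
  dSY : Disjoint S Y
  tX : ∀ s ∈ S, touch Δ {s} X
  tY : ∀ s ∈ S, touch Δ {s} Y
  xy : ∀ F ∈ Δ, (F ∩ X).Nonempty → (F ∩ Y).Nonempty → F = {x, y}

/-- `C` is a connected component of the graph induced on `U`. -/
def IsComp (Δ : Set (Finset V)) (U C : Finset V) : Prop :=
  C ⊆ U ∧ Conn Δ C ∧ ¬ touch Δ C (U \ C)

/-- A set of pairwise adjacent vertices. -/
def Clq (Δ : Set (Finset V)) (C : Finset V) : Prop := C ⊆ vs Δ ∧ ∀ a ∈ C, ∀ b ∈ C, a ≠ b → adj Δ a b

/-- No pair of nonadjacent vertices separates the complex. -/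
def NoPair (Δ : Set (Finset V)) : Prop :=
  ∀ a ∈ vs Δ, ∀ b ∈ vs Δ, a ≠ b → ¬ adj Δ a b → Conn Δ (vs Δ \ {a, b})

/-- The third possibility in the structure theorem: two crossed cones. -/
def Crossed (Δ : Set (Finset V)) (x y : V) : Prop :=
  ∃ s t X Y, s ≠ t ∧ Spl Δ x y {s, t} X Y ∧ (∀ F ∈ Δ, F ⊆ X ∪ {s, t} → insert s F ∈ Δ) ∧
    ∀ F ∈ Δ, F ⊆ Y ∪ {s, t} → insert t F ∈ Δ

open Classical in
/-- The vertices of `S` which are adjacent to all other vertices of `S`. -/
noncomputable def dom (Δ : Set (Finset V)) (S : Finset V) : Finset V :=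
  S.filter fun a => ∀ b ∈ S, b ≠ a → adj Δ a b

/-- `Δ` with the side `Y` of a separator `S` which is a clique contracted to `y`. -/
def GX (Δ : Set (Finset V)) (X S : Finset V) (x y : V) : Set (Finset V) :=
  {F | (F ∈ Δ ∧ F ⊆ X ∪ S) ∨ F ⊆ insert y S ∨ F = {x, y}}

/-- The statement of the structure theorem for edge facets. -/
def Concl (Δ : Set (Finset V)) (x y : V) : Prop :=
  (∃ p, ApexD Δ x y p) ∨ (∃ u X Y, Spl Δ x y {u} X Y) ∨ Crossed Δ x y

/-- Induction hypothesis for theorem A (`x` and `y` have a common neighbour). -/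
def HypA (V : Type) [Fintype V] [DecidableEq V] (n : ℕ) : Prop :=
  ∀ (Δ : Set (Finset V)) (x y : V), (vs Δ).card < n → Ctx Δ x y →
    (∃ p, adj Δ x p ∧ adj Δ y p) → ∃ p, ApexD Δ x y p

/-- Induction hypothesis for the structure theorem. -/
def HypS (V : Type) [Fintype V] [DecidableEq V] (n : ℕ) : Prop :=
  ∀ (Δ : Set (Finset V)) (x y : V), (vs Δ).card < n → Ctx Δ x y → Concl Δ x y

end Pool.Agent.Lib.MP_73b196_co.St
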