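import Pool.Agent.Lib.MP_73b196_co.St.S3
import Pool.Agent.Lib.MP_73b196_co.St.A1
import Pool.Agent.Lib.MP_73b196_co.St.A2
import Pool.Agent.Lib.MP_73b196_co.St.A4
import Pool.Agent.Lib.MP_73b196_co.St.A5
import Pool.Agent.Lib.MP_73b196_co.St.A6
import Pool.Agent.Lib.MP_73b196_co.St.G1
import Pool.Agent.Lib.MP_73b196_co.St.G2
import Pool.Agent.Lib.MP_73b196_co.St.G3
import Pool.Agent.Lib.MP_73b196_co.St.H1
import Pool.Agent.Lib.MP_73b196_co.St.H2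
import Pool.Agent.Lib.MP_73b196_co.St.H3
import Pool.Agent.Lib.MP_73b196_co.St.H4
import Pool.Agent.Lib.MP_73b196_co.St.H5
import Pool.Agent.Lib.MP_73b196_co.St.H6
import Pool.Agent.Lib.MP_73b196_co.St.H7
import Pool.Agent.Lib.MP_73b196_co.St.I1
import Pool.Agent.Lib.MP_73b196_co.St.I2
import Pool.Agent.Lib.MP_73b196_co.St.I3
import Pool.Agent.Lib.MP_73b196_co.St.I4
import Pool.Agent.Lib.MP_73b196_co.St.I5
import Pool.Agent.Lib.MP_73b196_co.St.I6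
import Pool.Agent.Lib.MP_73b196_co.Fib.Face
import Pool.Agent.Lib.MP_73b196_co.Fib.Cone
import Pool.Agent.Lib.MP_73b196_co.Fib.ConeD
import Pool.Agent.Lib.MP_73b196_co.Fib.CrossD
import Pool.Agent.Lib.MP_73b196_co.Fib.GG
import Pool.Agent.Lib.MP_73b196_co.Fib.Par
import Pool.Agent.Lib.MP_73b196_co.Fib.Real
import Pool.Agent.Lib.MP_73b196_co.Fib.Slice
import Pool.Agent.Lib.MP_73b196_co.Fib.Tri
import Pool.Agent.Lib.MP_73b196_co.Fib.Unit
import Pool.Agent.Lib.MP_73b196_co.Fib.Lat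
import Pool.Agent.Lib.MP_73b196_co.Fib.Omega
import Pool.Agent.Lib.MP_73b196_co.Fib.Bridge
import Pool.Agent.Lib.MP_73b196_co.Str.InP
import Pool.Agent.Lib.MP_73b196_co.Str.Nec

/-!
# The characterisation, given S2
-/

set_option autoImplicit false

namespace Pool.Agent.Lib.MP_73b196_co.St

theorem all_coneD : Fib.StmtConeD := Fib.tConeD Fib.tUnit

theorem all_gg : Fib.StmtGG := Fib.tGG Fib.tFace

theorem all_par : Fib.StmtPar := Fib.tPar Fib.tUnit all_gg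

theorem all_tri : Fib.StmtTri := Fib.tTri all_gg

theorem all_crossD : Fib.StmtCrossD :=
  Fib.tCrossD Fib.tUnit Fib.tFace Fib.tCone (Fib.tOmega Fib.tFace Fib.tCone) Fib.tSlice Fib.tReal
    Fib.tLat

theorem all_A4 : StmtA4 := tA4 (tA2 tA1)

theorem all_A6 : StmtA6 := tA6 all_A4 tA5

theorem all_H4 : StmtH4 := tH4 Fib.tConeP all_coneD

theorem all_H6 : StmtH6 := tH6 tG1 tG2 Fib.tConeP Fib.tCrossP all_crossD

theorem all_H7 : StmtH7 :=
  tH7 all_A4 tA5 all_A6 thmS (tH1 Fib.tFaceP) (tH2 Fib.tFaceP) (tH3 all_par) all_H4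
    (tH5 tG1 tG2 Fib.tSer) all_H6

theorem all_I3 : StmtI3 := tI3 tG1 tG2 all_par

theorem all_I6 (hS2 : StmtS2) : StmtI6 :=
  tI6 hS2 all_H7 (tI1 Fib.tCone) (tI2 Fib.tFace) all_I3 (tI4 tG3 all_tri all_coneD)
    (tI5 all_A6 thmS all_H4 all_H6 all_I3)

/-- The characterisation, given S2. -/
theorem main_of_S2 (hS2 : StmtS2) (n : ℕ) (Δ : Set (Finset (Fin n))) (hΔ : IsComplex Δ) :
    MarkovDegreeLE Δ 4 ↔ Str.Good Δ := by
  constructor
  · exact fun h => Str.good_of_mdle hΔ h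
  · intro h
    exact (Fib.tBridge n Δ hΔ).2 (all_I6 hS2 (Fin n) Δ (Str.good_inP ⟨hΔ.empty, hΔ.down⟩ h))

end Pool.Agent.Lib.MP_73b196_co.St
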