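import Pool.Agent.Lib.MP_73b196_co.St.Spec

/-!
# B1: the reduction for a separating nonadjacent pair
-/

set_option autoImplicit false
set_option linter.unusedSectionVars false

namespace Pool.Agent.Lib.MP_73b196_co.St

variable {V : Type} [Fintype V] [DecidableEq V] {Δ : Set (Finset V)} {C E F W : Finset V}
  {a b x y : V}

/-- every component touches `a` -/
theorem B1_touch (hcx : IsCx Δ) (hirr : Irr Δ) (ha : a ∈ vs Δ) (hb : b ∈ vs Δ) (hab : a ≠ b)
    (hC : IsComp Δ (vs Δ \ {a, b}) C) : touch Δ {a} C := by
  obtain ⟨hCU, hCc, hCn⟩ := hC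
  have hcon := hirr.conn {b} (mem_vs.1 hb)
  have haC : a ∉ C := by
    intro h
    have := hCU h
    simp at this
  have h1 : C ⊆ vs Δ \ {b} := by
    intro z hz
    have := hCU hz
    simp only [Finset.mem_sdiff, Finset.mem_insert, Finset.mem_singleton, not_or] at this ⊢
    exact ⟨this.1, this.2.2⟩
  have h2 : ((vs Δ \ {b}) \ C).Nonempty := by
    refine ⟨a, ?_⟩
    simp only [Finset.mem_sdiff, Finset.mem_singleton]
    exact ⟨⟨ha, hab⟩, haC⟩
  obtain ⟨c, hc, e, he, hce⟩ := hcon.2.2 C h1 hCc.2.1 h2
  by_cases hea : e = a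
  · subst hea
    exact ⟨e, by simp, c, hc, adj_symm hce⟩
  · exfalso
    apply hCn
    refine ⟨c, hc, e, ?_, hce⟩
    simp only [Finset.mem_sdiff, Finset.mem_singleton, Finset.mem_insert, not_or] at he ⊢
    exact ⟨⟨he.1.1, hea, he.1.2⟩, he.2⟩

theorem B1_touch' (hcx : IsCx Δ) (hirr : Irr Δ) (ha : a ∈ vs Δ) (hb : b ∈ vs Δ) (hab : a ≠ b)
    (hC : IsComp Δ (vs Δ \ {a, b}) C) : touch Δ {b} C := by
  rw [Finset.pair_comm] at hC
  exact B1_touch hcx hirr hb ha hab.symm hC

/-- the faces which meet a component -/
theorem B1_face (hcx : IsCx Δ) (hC : IsComp Δ (vs Δ \ {a, b}) C) (hF : F ∈ Δ)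
    (hFC : (F ∩ C).Nonempty) : F ⊆ C ∪ {a, b} := by
  obtain ⟨c, hc⟩ := hFC
  rw [Finset.mem_inter] at hc
  intro z hz
  by_cases hzC : z ∈ C
  · exact Finset.mem_union_left _ hzC
  by_cases hzab : z ∈ ({a, b} : Finset V)
  · exact Finset.mem_union_right _ hzab
  exfalso
  apply hC.2.2
  refine ⟨c, hc.2, z, ?_, hcx.adj_of_face hF hc.1 hz ?_⟩
  · exact Finset.mem_sdiff.2 ⟨Finset.mem_sdiff.2 ⟨hcx.sub_vs hF hz, hzab⟩, hzC⟩
  · rintro rfl
    exact hzC hc.2

theorem B1_vs (hW : W ⊆ vs Δ) (ha : a ∈ vs Δ) (hb : b ∈ vs Δ) :
    vs (insert {a, b} (ind Δ (W ∪ {a, b}))) = W ∪ {a, b} := by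
  ext v
  rw [mem_vs]
  constructor
  · rintro (h | h)
    · have : v ∈ ({a, b} : Finset V) := by
        rw [← h]
        simp
      exact Finset.mem_union_right _ this
    · exact h.2 (by simp)
  · intro hv
    refine Or.inr ⟨?_, by simpa using hv⟩
    apply mem_vs.1
    rcases Finset.mem_union.1 hv with h | h
    · exact hW h
    · rw [Finset.mem_insert, Finset.mem_singleton] at h
      rcases h with rfl | rfl
      · exact ha
      · exact hb

/-- the reduced complex is a contraction -/
theorem B1_con (hcx : IsCx Δ) (hab : a ≠ b) (ha : a ∈ vs Δ) (hb : b ∈ vs Δ)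
    (hE : IsComp Δ (vs Δ \ {a, b}) E) (hEW : Disjoint E W) (hEb : touch Δ {b} E) :
    insert {a, b} (ind Δ (W ∪ {a, b})) = ind (con Δ (insert a E) a) (W ∪ {a, b}) := by
  have haE : a ∉ E := by
    intro h
    have := hE.1 h
    simp at this
  have hbE : b ∉ E := by
    intro h
    have := hE.1 h
    simp at this
  have hfix : ∀ F : Finset V, Disjoint F E →
      F.image (fun v => if v ∈ insert a E then a else v) = F := by
    intro F hF
    have : ∀ v ∈ F, (if v ∈ insert a E then a else v) = v := by
      intro v hv
      by_cases hva : v = a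
      · subst hva
        simp
      · have hvE : v ∉ E := Finset.disjoint_left.1 hF hv
        rw [if_neg]
        simp [hva, hvE]
    rw [Finset.image_congr (g := id) (fun v hv => this v hv), Finset.image_id]
  ext G
  constructor
  · rintro (rfl | ⟨hG, hGW⟩)
    · refine ⟨?_, Finset.subset_union_right⟩
      obtain ⟨b', hb', e, he, hbe⟩ := hEb
      rw [Finset.mem_singleton] at hb'
      subst hb'
      refine ⟨{b', e}, hbe.2, ?_⟩
      rw [Finset.image_insert, Finset.image_singleton, if_neg, if_pos, Finset.pair_comm]
      · exact Finset.mem_insert_of_mem he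
      · rw [Finset.mem_insert]
        rintro (h | h)
        · exact hab h.symm
        · exact hbE h
    · refine ⟨⟨G, hG, hfix G ?_⟩, hGW⟩
      rw [Finset.disjoint_left]
      intro v hv hvE
      rcases Finset.mem_union.1 (hGW hv) with h | h
      · exact Finset.disjoint_left.1 hEW hvE h
      · rw [Finset.mem_insert, Finset.mem_singleton] at h
        rcases h with rfl | rfl
        · exact haE hvE
        · exact hbE hvE
  · rintro ⟨⟨F, hF, rfl⟩, hG⟩
    by_cases hFE : (F ∩ E).Nonempty
    · have hsub := B1_face hcx hE hF hFE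
      have hsub' : F.image (fun v => if v ∈ insert a E then a else v) ⊆ {a, b} := by
        intro z hz
        obtain ⟨v, hv, rfl⟩ := Finset.mem_image.1 hz
        by_cases hvE : v ∈ insert a E
        · rw [if_pos hvE]
          simp
        · rw [if_neg hvE]
          rcases Finset.mem_union.1 (hsub hv) with h | h
          · exact absurd (Finset.mem_insert_of_mem h) hvE
          · exact h
      by_cases heq : F.image (fun v => if v ∈ insert a E then a else v) = {a, b}
      · exact Or.inl heq
      · refine Or.inr ⟨?_, hG⟩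
        have haF : a ∈ F.image (fun v => if v ∈ insert a E then a else v) := by
          obtain ⟨e, he⟩ := hFE
          rw [Finset.mem_inter] at he
          refine Finset.mem_image.2 ⟨e, he.1, ?_⟩
          rw [if_pos (Finset.mem_insert_of_mem he.2)]
        have hb' : b ∉ F.image (fun v => if v ∈ insert a E then a else v) := by
          intro hbF
          apply heq
          refine Finset.Subset.antisymm hsub' ?_
          intro z hz
          rw [Finset.mem_insert, Finset.mem_singleton] at hz
          rcases hz with rfl | rfl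
          · exact haF
          · exact hbF
        refine hcx.down {a} (mem_vs.1 ha) _ ?_
        intro z hz
        have := hsub' hz
        rw [Finset.mem_insert, Finset.mem_singleton] at this
        rcases this with rfl | rfl
        · simp
        · exact absurd hz hb'
    · have hd : Disjoint F E := by
        rw [Finset.disjoint_iff_inter_eq_empty]
        exact Finset.not_nonempty_iff_eq_empty.1 hFE
      rw [hfix F hd] at hG ⊢
      exact Or.inr ⟨hF, hG⟩

/-- connectedness of the complements of faces, the main case -/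
theorem B1_part (hF : Conn Δ (vs Δ \ F)) (hW : IsComp Δ (vs Δ \ {a, b}) W) {A B : Finset V}
    (hAB : A ∪ B = (W ∪ {a, b}) \ F) (hd : Disjoint A B) (hA : A.Nonempty) (hB : B.Nonempty)
    (hn : ¬ touch (insert {a, b} (ind Δ (W ∪ {a, b}))) A B) (ha : a ∉ B) (hb : b ∉ B)
    (hWv : W ∪ {a, b} ⊆ vs Δ) : False := by
  have hAs : A ⊆ (W ∪ {a, b}) \ F := by
    rw [← hAB]
    exact Finset.subset_union_left
  have hBs : B ⊆ (W ∪ {a, b}) \ F := by
    rw [← hAB]
    exact Finset.subset_union_right
  have h1 : B ⊆ vs Δ \ F := hBs.trans (Finset.sdiff_subset_sdiff hWv (Finset.Subset.refl _))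
  have h2 : ((vs Δ \ F) \ B).Nonempty := by
    obtain ⟨z, hz⟩ := hA
    refine ⟨z, Finset.mem_sdiff.2 ⟨?_, Finset.disjoint_left.1 hd hz⟩⟩
    exact (hAs.trans (Finset.sdiff_subset_sdiff hWv (Finset.Subset.refl _))) hz
  obtain ⟨β, hβ, c, hc, hβc⟩ := hF.2.2 B h1 hB h2
  rw [Finset.mem_sdiff, Finset.mem_sdiff] at hc
  have hβW : β ∈ W := by
    have := hBs hβ
    rw [Finset.mem_sdiff, Finset.mem_union, Finset.mem_insert, Finset.mem_singleton] at this
    rcases this.1 with h | h | h
    · exact h
    · exact absurd (h ▸ hβ) ha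
    · exact absurd (h ▸ hβ) hb
  by_cases hcW : c ∈ W ∪ {a, b}
  · have hcA : c ∈ A := by
      have : c ∈ A ∪ B := by
        rw [hAB]
        exact Finset.mem_sdiff.2 ⟨hcW, hc.1.2⟩
      rcases Finset.mem_union.1 this with h | h
      · exact h
      · exact absurd h hc.2
    apply hn
    refine ⟨c, hcA, β, hβ, hβc.1.symm, Or.inr ⟨?_, ?_⟩⟩
    · rw [Finset.pair_comm]
      exact hβc.2
    · intro z hz
      rw [Finset.mem_insert, Finset.mem_singleton] at hz
      rcases hz with rfl | rfl
      · exact hcW
      · exact Finset.mem_union_left _ hβW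
  · apply hW.2.2
    refine ⟨β, hβW, c, ?_, hβc⟩
    rw [Finset.mem_union, not_or] at hcW
    exact Finset.mem_sdiff.2 ⟨Finset.mem_sdiff.2 ⟨hc.1.1, hcW.2⟩, hcW.1⟩

theorem tB1 : StmtB1 := by
  intro V _ _ Δ x y a b hctx ha hb hab hnadj hncon
  have hcx := hctx.inP.cx
  have hxV := hctx.mem_left
  have hyV := hctx.mem_right
  have hxy := hctx.adj
  have habΔ : ({a, b} : Finset V) ∉ Δ := fun h => hnadj ⟨hab, h⟩
  have hUv : vs Δ \ {a, b} ⊆ vs Δ := Finset.sdiff_subset
  -- the pairs are different
  have hpair : ¬ (x ∈ ({a, b} : Finset V) ∧ y ∈ ({a, b} : Finset V)) := by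
    rintro ⟨h1, h2⟩
    rw [Finset.mem_insert, Finset.mem_singleton] at h1 h2
    rcases h1 with rfl | rfl <;> rcases h2 with rfl | rfl
    · exact hxy.1 rfl
    · exact hnadj hxy
    · exact hnadj (adj_symm hxy)
    · exact hxy.1 rfl
  -- the component
  obtain ⟨W, hW, hxW, hyW⟩ : ∃ W, IsComp Δ (vs Δ \ {a, b}) W ∧ x ∈ W ∪ {a, b} ∧
      y ∈ W ∪ {a, b} := by
    by_cases hx : x ∈ ({a, b} : Finset V)
    · have hy : y ∉ ({a, b} : Finset V) := fun h => hpair ⟨hx, h⟩
      obtain ⟨W, hW, hyW⟩ := exists_comp hUv (Finset.mem_sdiff.2 ⟨hyV, hy⟩)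
      exact ⟨W, hW, Finset.mem_union_right _ hx, Finset.mem_union_left _ hyW⟩
    · obtain ⟨W, hW, hxW⟩ := exists_comp hUv (Finset.mem_sdiff.2 ⟨hxV, hx⟩)
      refine ⟨W, hW, Finset.mem_union_left _ hxW, ?_⟩
      by_cases hy : y ∈ ({a, b} : Finset V)
      · exact Finset.mem_union_right _ hy
      · exact Finset.mem_union_left _
          (hW.mem_of_adj hxW (Finset.mem_sdiff.2 ⟨hyV, hy⟩) hxy)
  have hWU := hW.1
  have hWvs : W ⊆ vs Δ := hWU.trans hUv
  have hWab : W ∪ {a, b} ⊆ vs Δ := by
    refine Finset.union_subset hWvs ?_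
    intro z hz
    rw [Finset.mem_insert, Finset.mem_singleton] at hz
    rcases hz with rfl | rfl
    · exact ha
    · exact hb
  have haW : a ∉ W := by
    intro h
    have := hWU h
    simp at this
  have hbW : b ∉ W := by
    intro h
    have := hWU h
    simp at this
  have hta := B1_touch hcx hctx.irr ha hb hab hW
  have htb := B1_touch' hcx hctx.irr ha hb hab hW
  -- another component
  obtain ⟨w₀, hw₀⟩ := hW.2.1.2.1
  obtain ⟨E, hE, hwE⟩ := exists_comp_notMem hUv (hWU hw₀) hncon
  have hEW : Disjoint E W := by
    rw [Finset.disjoint_iff_inter_eq_empty]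
    by_contra hne
    have := hE.eq_of hW (Finset.nonempty_iff_ne_empty.2 hne)
    rw [this] at hwE
    exact hwE hw₀
  have hneV : W ∪ {a, b} ≠ vs Δ := by
    intro h
    obtain ⟨e, he⟩ := hE.2.1.2.1
    have h1 := hE.1 he
    rw [Finset.mem_sdiff] at h1
    rw [← h, Finset.mem_union] at h1
    rcases h1.1 with h2 | h2
    · exact Finset.disjoint_left.1 hEW he h2
    · exact h1.2 h2
  have hvs := B1_vs hWvs ha hb
  have hcon := B1_con hcx hab ha hb hE hEW (B1_touch' hcx hctx.irr ha hb hab hE)
  refine ⟨W, hW, hxW, hyW, hneV, hta, htb, ?_, ?_, ?_⟩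
  · -- the class
    rw [hcon]
    refine (InP.con hctx.inP ?_ (Finset.mem_insert_self a E)).ind _
    exact hE.2.1.insert ha (B1_touch hcx hctx.irr ha hb hab hE)
  · -- irreducible
    refine ⟨?_, ?_⟩
    · intro p hp
      have h1 : p ∈ ({a, b} : Finset V) := by
        rcases hp {a, b} (Or.inl rfl) with h | h
        · rw [← h]
          exact Finset.mem_insert_self _ _
        · exfalso
          exact habΔ (hcx.down _ h.1 _ (Finset.subset_insert _ _))
      obtain ⟨a', ha', wa, hwa, hadja⟩ := hta
      obtain ⟨b', hb', wb, hwb, hadjb⟩ := htb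
      rw [Finset.mem_singleton] at ha' hb'
      subst ha' hb'
      rw [Finset.mem_insert, Finset.mem_singleton] at h1
      rcases h1 with rfl | rfl
      · have h2 : ({b', wb} : Finset V) ∈ insert {p, b'} (ind Δ (W ∪ {p, b'})) := by
          refine Or.inr ⟨hadjb.2, ?_⟩
          intro z hz
          rw [Finset.mem_insert, Finset.mem_singleton] at hz
          rcases hz with rfl | rfl
          · simp
          · exact Finset.mem_union_left _ hwb
        rcases hp _ h2 with h3 | h3
        · have h4 : wb ∈ ({p, b'} : Finset V) := by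
            rw [← h3]
            simp
          rw [Finset.mem_insert, Finset.mem_singleton] at h4
          rcases h4 with rfl | rfl
          · exact haW hwb
          · exact hbW hwb
        · apply habΔ
          refine hcx.down _ h3.1 _ ?_
          intro z hz
          simp only [Finset.mem_insert, Finset.mem_singleton] at hz ⊢
          tauto
      · have h2 : ({a', wa} : Finset V) ∈ insert {a', p} (ind Δ (W ∪ {a', p})) := by
          refine Or.inr ⟨hadja.2, ?_⟩
          intro z hz
          rw [Finset.mem_insert, Finset.mem_singleton] at hz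
          rcases hz with rfl | rfl
          · simp
          · exact Finset.mem_union_left _ hwa
        rcases hp _ h2 with h3 | h3
        · have h4 : wa ∈ ({a', p} : Finset V) := by
            rw [← h3]
            simp
          rw [Finset.mem_insert, Finset.mem_singleton] at h4
          rcases h4 with rfl | rfl
          · exact haW hwa
          · exact hbW hwa
        · apply habΔ
          refine hcx.down _ h3.1 _ ?_
          intro z hz
          simp only [Finset.mem_insert, Finset.mem_singleton] at hz ⊢
          tauto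
    · intro F hF
      rw [hvs]
      rcases hF with rfl | ⟨hF, hFs⟩
      · have h1 : (W ∪ {a, b}) \ {a, b} = W := by
          ext z
          simp only [Finset.mem_sdiff, Finset.mem_union, Finset.mem_insert, Finset.mem_singleton]
          constructor
          · rintro ⟨h | h, h'⟩
            · exact h
            · exact absurd h h'
          · intro h
            refine ⟨Or.inl h, ?_⟩
            rintro (rfl | rfl)
            · exact haW h
            · exact hbW h
        rw [h1]
        exact Conn.mono (Set.subset_insert _ _)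
          ((conn_ind Finset.subset_union_left).2 hW.2.1)
      · have hconF := hctx.irr.conn F hF
        have hnF : ¬ (a ∈ F ∧ b ∈ F) := by
          rintro ⟨h1, h2⟩
          apply habΔ
          refine hcx.down F hF _ ?_
          intro z hz
          rw [Finset.mem_insert, Finset.mem_singleton] at hz
          rcases hz with rfl | rfl
          · exact h1
          · exact h2
        refine conn_of ?_ ?_ ?_
        · rw [hvs]
          exact Finset.sdiff_subset
        · by_cases haF : a ∈ F
          · refine ⟨b, Finset.mem_sdiff.2 ⟨by simp, fun h => hnF ⟨haF, h⟩⟩⟩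
          · refine ⟨a, Finset.mem_sdiff.2 ⟨by simp, haF⟩⟩
        · intro A B hAB hd hA hB hn
          have hadj : adj (insert {a, b} (ind Δ (W ∪ {a, b}))) a b := ⟨hab, Or.inl rfl⟩
          by_cases hBab : a ∈ B ∨ b ∈ B
          · -- exchange the parts
            have h1 : a ∉ A ∧ b ∉ A := by
              constructor
              · intro haA
                rcases hBab with h | h
                · exact Finset.disjoint_left.1 hd haA h
                · exact hn ⟨a, haA, b, h, hadj⟩
              · intro hbA
                rcases hBab with h | h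
                · exact hn ⟨b, hbA, a, h, adj_symm hadj⟩
                · exact Finset.disjoint_left.1 hd hbA h
            exact B1_part hconF hW (by rw [Finset.union_comm]; exact hAB) hd.symm hB hA
              (fun h => hn (touch_symm h)) h1.1 h1.2 hWab
          · push Not at hBab
            exact B1_part hconF hW hAB hd hA hB hn hBab.1 hBab.2 hWab
  · -- the edge facet
    refine ⟨hctx.ef.ne, Or.inr ⟨hctx.ef.mem, ?_⟩, ?_⟩
    · intro z hz
      rw [Finset.mem_insert, Finset.mem_singleton] at hz
      rcases hz with rfl | rfl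
      · exact hxW
      · exact hyW
    · intro F hF hxF hyF
      rcases hF with rfl | hF
      · exact absurd ⟨hxF, hyF⟩ hpair
      · exact hctx.ef.facet F hF.1 hxF hyF

end Pool.Agent.Lib.MP_73b196_co.St
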