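import Pool.Agent.Lib.MP_73b196_co.St.Spec

/-!
# B2: a cut vertex of the reduced complex gives a cut vertex
-/

set_option autoImplicit false

namespace Pool.Agent.Lib.MP_73b196_co.St

variable {V : Type} [Fintype V] [DecidableEq V] {Δ : Set (Finset V)} {F W X1 Y1 : Finset V}
  {a b p s t u x y : V}

/-- The hypotheses. -/
structure B2_H (Δ : Set (Finset V)) (x y a b : V) (W : Finset V) : Prop where
  ctx : Ctx Δ x y
  ha : a ∈ vs Δ
  hb : b ∈ vs Δ
  hab : a ≠ b
  nadj : ¬ adj Δ a b
  comp : IsComp Δ (vs Δ \ {a, b}) W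
  hx : x ∈ W ∪ {a, b}
  hy : y ∈ W ∪ {a, b}
  ta : touch Δ {a} W
  tb : touch Δ {b} W

/-- The reduced complex. -/
def B2_D (Δ : Set (Finset V)) (a b : V) (W : Finset V) : Set (Finset V) :=
  insert {a, b} (ind Δ (W ∪ {a, b}))

omit [Fintype V] in
theorem B2_D_swap : B2_D Δ b a W = B2_D Δ a b W := by
  unfold B2_D
  rw [Finset.pair_comm b a]

theorem B2_H.swap (h : B2_H Δ x y a b W) : B2_H Δ x y b a W where
  ctx := h.ctx
  ha := h.hb
  hb := h.ha
  hab := h.hab.symm
  nadj := fun h' => h.nadj (adj_symm h')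
  comp := by
    rw [Finset.pair_comm b a]
    exact h.comp
  hx := by
    rw [Finset.pair_comm b a]
    exact h.hx
  hy := by
    rw [Finset.pair_comm b a]
    exact h.hy
  ta := h.tb
  tb := h.ta

theorem B2_H.symm (h : B2_H Δ x y a b W) : B2_H Δ y x a b W :=
  ⟨h.ctx.symm, h.ha, h.hb, h.hab, h.nadj, h.comp, h.hy, h.hx, h.ta, h.tb⟩

theorem B2_H.memW (h : B2_H Δ x y a b W) {v : V} (hv : v ∈ W) : v ∈ vs Δ ∧ v ≠ a ∧ v ≠ b := by
  have h1 := h.comp.1 hv
  simp only [Finset.mem_sdiff, Finset.mem_insert, Finset.mem_singleton, not_or] at h1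
  exact h1

theorem B2_H.sub (h : B2_H Δ x y a b W) : W ∪ {a, b} ⊆ vs Δ := by
  intro v hv
  rcases Finset.mem_union.1 hv with h1 | h1
  · exact (h.memW h1).1
  · rw [Finset.mem_insert, Finset.mem_singleton] at h1
    rcases h1 with rfl | rfl
    · exact h.ha
    · exact h.hb

/-- A face containing `a` and `b` is not a face of `Δ`. -/
theorem B2_H.not_mem (h : B2_H Δ x y a b W) (hF : F ∈ Δ) (h1 : a ∈ F) (h2 : b ∈ F) : False :=
  h.nadj (h.ctx.inP.cx.adj_of_face hF h1 h2 h.hab)

theorem B2_H.ne (h : B2_H Δ x y a b W) : ({a, b} : Finset V) ≠ {x, y} := by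
  intro e
  have h1 := h.ctx.ef.mem
  rw [← e] at h1
  exact h.not_mem h1 (by simp) (by simp)

theorem B2_H.D_of (h : B2_H Δ x y a b W) (hF : F ∈ B2_D Δ a b W) (h1 : a ∈ F) (h2 : b ∈ F) :
    F = {a, b} := by
  rcases hF with hF | hF
  · exact hF
  · exact (h.not_mem hF.1 h1 h2).elim

theorem B2_H.vsD (h : B2_H Δ x y a b W) : vs (B2_D Δ a b W) = W ∪ {a, b} := by
  ext v
  rw [mem_vs]
  constructor
  · rintro (h1 | h1)
    · exfalso
      have e1 : a ∈ ({v} : Finset V) := by rw [h1]; simp
      have e2 : b ∈ ({v} : Finset V) := by rw [h1]; simp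
      rw [Finset.mem_singleton] at e1 e2
      exact h.hab (e1.trans e2.symm)
    · exact h1.2 (Finset.mem_singleton_self v)
  · intro hv
    exact Or.inr ⟨mem_vs.1 (h.sub hv), Finset.singleton_subset_iff.2 hv⟩

theorem B2_H.D_sub (h : B2_H Δ x y a b W) (hF : F ∈ B2_D Δ a b W) : F ⊆ W ∪ {a, b} := by
  rcases hF with hF | hF
  · rw [hF]
    exact Finset.subset_union_right
  · exact hF.2

/-- Every face of `Δ` is contained in `W + a + b` or in the rest. -/
theorem B2_H.face (h : B2_H Δ x y a b W) (hF : F ∈ Δ) :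
    F ⊆ W ∪ {a, b} ∨ F ⊆ (vs Δ \ (W ∪ {a, b})) ∪ {a, b} := by
  have cx := h.ctx.inP.cx
  by_cases hW : (F ∩ W).Nonempty
  · left
    obtain ⟨w, hw⟩ := hW
    rw [Finset.mem_inter] at hw
    intro v hv
    rw [Finset.mem_union]
    by_cases h1 : v ∈ ({a, b} : Finset V)
    · exact Or.inr h1
    left
    by_cases h2 : w = v
    · exact h2 ▸ hw.2
    · exact h.comp.mem_of_adj hw.2 (Finset.mem_sdiff.2 ⟨cx.sub_vs hF hv, h1⟩)
        (cx.adj_of_face hF hw.1 hv h2)
  · right
    intro v hv
    rw [Finset.mem_union, Finset.mem_sdiff, Finset.mem_union, not_or]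
    by_cases h1 : v ∈ ({a, b} : Finset V)
    · exact Or.inr h1
    · exact Or.inl ⟨cx.sub_vs hF hv, fun h2 => hW ⟨v, Finset.mem_inter.2 ⟨hv, h2⟩⟩, h1⟩

theorem B2_H.ext1 (h : B2_H Δ x y a b W) (hs : Spl (B2_D Δ a b W) x y {u} X1 Y1)
    (hab : {a, b} ⊆ X1 ∪ {u}) : ∃ X Y, Spl Δ x y {u} X Y := by
  have hU := hs.un
  rw [h.vsD] at hU
  have hR : ∀ v, v ∈ X1 ∪ {u} ∪ Y1 → v ∉ vs Δ \ (W ∪ {a, b}) := by
    intro v hv h1
    rw [hU] at hv
    exact (Finset.mem_sdiff.1 h1).2 hv
  refine ⟨X1 ∪ (vs Δ \ (W ∪ {a, b})), Y1, ?_, ?_, ?_, hs.dSY, Finset.mem_union_left _ hs.hx,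
    hs.hy, ?_⟩
  · have e : X1 ∪ (vs Δ \ (W ∪ {a, b})) ∪ {u} ∪ Y1 =
        (X1 ∪ {u} ∪ Y1) ∪ (vs Δ \ (W ∪ {a, b})) := by
      ext v
      simp only [Finset.mem_union]
      tauto
    rw [e, hU, Finset.union_sdiff_of_subset h.sub]
  · rw [Finset.disjoint_union_left]
    refine ⟨hs.dXS, ?_⟩
    rw [Finset.disjoint_singleton_right]
    exact hR u (by simp)
  · rw [Finset.disjoint_union_left]
    refine ⟨hs.dXY, ?_⟩
    rw [Finset.disjoint_right]
    intro v hv
    exact hR v (Finset.mem_union_right _ hv)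
  · intro F hF
    rcases h.face hF with h1 | h1
    · rcases hs.face F (Or.inr ⟨hF, h1⟩) with h2 | h2 | h2
      · left
        intro v hv
        rcases Finset.mem_union.1 (h2 hv) with h3 | h3
        · exact Finset.mem_union_left _ (Finset.mem_union_left _ h3)
        · exact Finset.mem_union_right _ h3
      · exact Or.inr (Or.inl h2)
      · exact Or.inr (Or.inr h2)
    · left
      intro v hv
      rcases Finset.mem_union.1 (h1 hv) with h3 | h3
      · exact Finset.mem_union_left _ (Finset.mem_union_right _ h3)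
      · rcases Finset.mem_union.1 (hab h3) with h4 | h4
        · exact Finset.mem_union_left _ (Finset.mem_union_left _ h4)
        · exact Finset.mem_union_right _ h4

/-- Extension of a splitting by one vertex. -/
theorem B2_H.ext (h : B2_H Δ x y a b W) (hs : Spl (B2_D Δ a b W) x y {u} X1 Y1) :
    ∃ u X Y, Spl Δ x y {u} X Y := by
  rcases hs.face {a, b} (Or.inl rfl) with h1 | h1 | h1
  · obtain ⟨X, Y, h2⟩ := h.ext1 hs h1
    exact ⟨u, X, Y, h2⟩
  · obtain ⟨X, Y, h2⟩ := h.symm.ext1 hs.symm h1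
    exact ⟨u, Y, X, h2.symm⟩
  · exact absurd h1 h.ne

/-- If `b = x` has no neighbour in `W` other than `y`, then `a` is a cut vertex. -/
theorem B2_H.cut (h : B2_H Δ x y a b W) (hbx : b = x) (hya : y ≠ a)
    (hw : ∀ w ∈ W, adj Δ b w → ({b, w} : Finset V) = {x, y}) :
    Spl (B2_D Δ a b W) x y {a} {x} ((W ∪ {a, b}) \ {x, a}) := by
  subst hbx
  have cx := h.ctx.inP.cx
  have hby := h.ctx.ef.ne
  refine ⟨?_, ?_, ?_, ?_, by simp, ?_, ?_⟩
  · rw [h.vsD]
    ext v
    simp only [Finset.mem_union, Finset.mem_sdiff, Finset.mem_insert, Finset.mem_singleton,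
      not_or]
    constructor
    · rintro ((h1 | h1) | h1)
      · exact Or.inr (Or.inr h1)
      · exact Or.inr (Or.inl h1)
      · exact h1.1
    · intro h1
      by_cases h2 : v = b
      · exact Or.inl (Or.inl h2)
      by_cases h3 : v = a
      · exact Or.inl (Or.inr h3)
      exact Or.inr ⟨h1, h2, h3⟩
  · rw [Finset.disjoint_singleton]
    exact h.hab.symm
  · rw [Finset.disjoint_singleton_left]
    simp
  · rw [Finset.disjoint_singleton_left]
    simp
  · rw [Finset.mem_sdiff, Finset.mem_insert, Finset.mem_singleton, not_or]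
    exact ⟨h.hy, hby.symm, hya⟩
  · intro F hF
    by_cases hbF : b ∈ F
    · rcases hF with hF | hF
      · left
        rw [hF]
        intro v hv
        rw [Finset.mem_insert, Finset.mem_singleton] at hv
        rw [Finset.mem_union, Finset.mem_singleton, Finset.mem_singleton]
        exact hv.symm
      · by_cases hyF : y ∈ F
        · exact Or.inr (Or.inr (h.ctx.ef.facet F hF.1 hbF hyF))
        · left
          intro v hv
          rw [Finset.mem_union, Finset.mem_singleton, Finset.mem_singleton]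
          by_cases hvb : v = b
          · exact Or.inl hvb
          exfalso
          have hadj : adj Δ b v := cx.adj_of_face hF.1 hbF hv fun e => hvb e.symm
          rcases Finset.mem_union.1 (hF.2 hv) with h1 | h1
          · have h2 := hw v h1 hadj
            have h3 : v ∈ ({b, y} : Finset V) := by
              rw [← h2]
              simp
            rw [Finset.mem_insert, Finset.mem_singleton] at h3
            rcases h3 with h3 | h3
            · exact hvb h3
            · exact hyF (h3 ▸ hv)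
          · rw [Finset.mem_insert, Finset.mem_singleton] at h1
            rcases h1 with h1 | h1
            · exact h.nadj (adj_symm (h1 ▸ hadj))
            · exact hvb h1
    · right
      left
      intro v hv
      have h1 := h.D_sub hF hv
      by_cases hva : v = a
      · exact Finset.mem_union_right _ (Finset.mem_singleton.2 hva)
      · refine Finset.mem_union_left _ (Finset.mem_sdiff.2 ⟨h1, ?_⟩)
        rw [Finset.mem_insert, Finset.mem_singleton, not_or]
        exact ⟨fun e => hbF (e ▸ hv), hva⟩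

/-- If all edges from `b` to `W` are `xy`, there is a cut vertex. -/
theorem B2_H.only (h : B2_H Δ x y a b W) (hxa : x ≠ a) (hya : y ≠ a)
    (hw : ∀ w ∈ W, adj Δ b w → ({b, w} : Finset V) = {x, y}) : ∃ u X Y, Spl Δ x y {u} X Y := by
  obtain ⟨w, hwW, hbw⟩ := touch_single_left.1 h.tb
  have h1 : b ∈ ({x, y} : Finset V) := by
    rw [← hw w hwW hbw]
    exact Finset.mem_insert_self _ _
  rw [Finset.mem_insert, Finset.mem_singleton] at h1
  rcases h1 with h1 | h1
  · exact h.ext (h.cut h1 hya hw)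
  · obtain ⟨u, X, Y, h2⟩ := h.symm.ext (h.symm.cut h1 hxa fun w hwW hbw => by
      rw [Finset.pair_comm y x]
      exact hw w hwW hbw)
    exact ⟨u, Y, X, h2.symm⟩

theorem B2_H.apex (h : B2_H Δ x y a b W) (hp : ApexD (B2_D Δ a b W) x y a) :
    ∃ u X Y, Spl Δ x y {u} X Y := by
  refine h.only hp.1.symm hp.2.1.symm fun w hwW hbw => ?_
  by_contra hne
  have hwab := h.memW hwW
  have h1 : ({b, w} : Finset V) ∈ B2_D Δ a b W := by
    refine Or.inr ⟨hbw.2, ?_⟩
    rw [Finset.insert_subset_iff, Finset.singleton_subset_iff]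
    exact ⟨by simp, Finset.mem_union_left _ hwW⟩
  have h2 := h.D_of (hp.2.2 _ h1 hne) (by simp) (by simp)
  have h3 : w ∈ ({a, b} : Finset V) := by
    rw [← h2]
    simp
  rw [Finset.mem_insert, Finset.mem_singleton] at h3
  rcases h3 with h3 | h3
  · exact hwab.2.1 h3
  · exact hwab.2.2 h3

/-- A vertex which can be added to `{a, b}` is `a` or `b`. -/
theorem B2_H.mem_pair (h : B2_H Δ x y a b W) (hp : insert p {a, b} ∈ B2_D Δ a b W) :
    p = a ∨ p = b := by
  have h1 := h.D_of hp (by simp) (by simp)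
  have h2 : p ∈ ({a, b} : Finset V) := by
    rw [← h1]
    exact Finset.mem_insert_self _ _
  rwa [Finset.mem_insert, Finset.mem_singleton] at h2

theorem B2_H.cross1 (h : B2_H Δ x y a b W) (hat : a ≠ t)
    (hs : Spl (B2_D Δ a b W) x y {a, t} X1 Y1)
    (h1 : ∀ F ∈ B2_D Δ a b W, F ⊆ X1 ∪ {a, t} → insert a F ∈ B2_D Δ a b W)
    (hab : {a, b} ⊆ X1 ∪ {a, t}) : ∃ u X Y, Spl Δ x y {u} X Y := by
  have hfac : ∀ F ∈ B2_D Δ a b W, F ⊆ X1 ∪ {a, t} → b ∈ F → F ⊆ {a, b} := by
    intro F hF h2 h3
    have h4 := h.D_of (h1 F hF h2) (Finset.mem_insert_self _ _) (Finset.mem_insert_of_mem h3)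
    rw [← h4]
    exact Finset.subset_insert _ _
  have haX : a ∉ X1 := fun h' => Finset.disjoint_left.1 hs.dXS h' (by simp)
  have haY : a ∉ Y1 := fun h' => Finset.disjoint_left.1 hs.dSY (by simp) h'
  by_cases hbt : b = t
  · subst hbt
    have hbX : b ∉ X1 := fun h' => Finset.disjoint_left.1 hs.dXS h' (by simp)
    refine h.ext (u := a) (X1 := X1) (Y1 := Y1 ∪ {b}) ⟨?_, ?_, ?_, ?_, hs.hx,
      Finset.mem_union_left _ hs.hy, ?_⟩
    · rw [← hs.un]
      ext v
      simp only [Finset.mem_union, Finset.mem_insert, Finset.mem_singleton]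
      tauto
    · rw [Finset.disjoint_singleton_right]
      exact haX
    · rw [Finset.disjoint_union_right]
      exact ⟨hs.dXY, Finset.disjoint_singleton_right.2 hbX⟩
    · rw [Finset.disjoint_singleton_left, Finset.mem_union, Finset.mem_singleton, not_or]
      exact ⟨haY, h.hab⟩
    · intro F hF
      rcases hs.face F hF with h2 | h2 | h2
      · by_cases hbF : b ∈ F
        · right
          left
          intro v hv
          have h3 := hfac F hF h2 hbF hv
          simp only [Finset.mem_union, Finset.mem_insert, Finset.mem_singleton] at h3 ⊢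
          tauto
        · left
          intro v hv
          have h3 := h2 hv
          have h4 : v ≠ b := fun e => hbF (e ▸ hv)
          simp only [Finset.mem_union, Finset.mem_insert, Finset.mem_singleton] at h3 ⊢
          tauto
      · right
        left
        intro v hv
        have h3 := h2 hv
        simp only [Finset.mem_union, Finset.mem_insert, Finset.mem_singleton] at h3 ⊢
        tauto
      · exact Or.inr (Or.inr h2)
  · have hbX : b ∈ X1 := by
      have h2 : b ∈ X1 ∪ {a, t} := hab (by simp)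
      simp only [Finset.mem_union, Finset.mem_insert, Finset.mem_singleton] at h2
      rcases h2 with h2 | h2 | h2
      · exact h2
      · exact absurd h2.symm h.hab
      · exact absurd h2 hbt
    refine h.only (fun e => haX (e ▸ hs.hx)) (fun e => haY (e ▸ hs.hy)) fun w hwW hbw => ?_
    have hwab := h.memW hwW
    have h3 : ({b, w} : Finset V) ∈ B2_D Δ a b W := by
      refine Or.inr ⟨hbw.2, ?_⟩
      rw [Finset.insert_subset_iff, Finset.singleton_subset_iff]
      exact ⟨by simp, Finset.mem_union_left _ hwW⟩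
    rcases hs.face _ h3 with h2 | h2 | h2
    · exfalso
      have h4 : w ∈ ({a, b} : Finset V) := hfac _ h3 h2 (by simp) (by simp)
      rw [Finset.mem_insert, Finset.mem_singleton] at h4
      rcases h4 with h4 | h4
      · exact hwab.2.1 h4
      · exact hwab.2.2 h4
    · exfalso
      have h4 : b ∈ Y1 ∪ {a, t} := h2 (by simp)
      rcases Finset.mem_union.1 h4 with h5 | h5
      · exact Finset.disjoint_left.1 hs.dXY hbX h5
      · exact Finset.disjoint_left.1 hs.dXS hbX h5
    · exact h2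

theorem B2_H.cross2 (h : B2_H Δ x y a b W) (hst : s ≠ t)
    (hs : Spl (B2_D Δ a b W) x y {s, t} X1 Y1)
    (h1 : ∀ F ∈ B2_D Δ a b W, F ⊆ X1 ∪ {s, t} → insert s F ∈ B2_D Δ a b W)
    (hab : {a, b} ⊆ X1 ∪ {s, t}) : ∃ u X Y, Spl Δ x y {u} X Y := by
  rcases h.mem_pair (h1 _ (Or.inl rfl) hab) with h2 | h2
  · subst h2
    exact h.cross1 hst hs h1 hab
  · subst h2
    rw [← B2_D_swap] at hs h1
    rw [Finset.pair_comm] at hab
    exact h.swap.cross1 hst hs h1 hab

theorem tB2 : StmtB2 := by
  intro V _ _ Δ x y a b W hc ha hb hab hn hW hx hy hta htb hC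
  have h : B2_H Δ x y a b W := ⟨hc, ha, hb, hab, hn, hW, hx, hy, hta, htb⟩
  rcases hC with ⟨p, hp⟩ | ⟨u, X1, Y1, hs⟩ | ⟨s, t, X1, Y1, hst, hs, h1, h2⟩
  · rcases h.mem_pair (hp.2.2 {a, b} (Or.inl rfl) h.ne) with e | e
    · subst e
      exact h.apex hp
    · subst e
      have hp' : ApexD (B2_D Δ p a W) x y p := by
        rw [B2_D_swap]
        exact hp
      exact h.swap.apex hp'
  · exact h.ext hs
  · rcases hs.face {a, b} (Or.inl rfl) with h3 | h3 | h3
    · exact h.cross2 hst hs h1 h3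
    · have e : ({s, t} : Finset V) = {t, s} := Finset.pair_comm s t
      rw [e] at hs h2 h3
      obtain ⟨u, X, Y, h4⟩ := h.symm.cross2 hst.symm hs.symm h2 h3
      exact ⟨u, Y, X, h4.symm⟩
    · exact absurd h3 h.ne

end Pool.Agent.Lib.MP_73b196_co.St
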