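import Pool.Agent.Lib.MP_73b196_co.St.Spec

/-!
# B3: separators with one element which is a common neighbour
-/

set_option autoImplicit false

namespace Pool.Agent.Lib.MP_73b196_co.St

variable {V : Type} [Fintype V] [DecidableEq V] {Δ : Set (Finset V)} {X Y : Finset V}
  {x y u : V}

/-- If `x` is adjacent to the separating vertex `u`, the side of `x` is `{x}`. -/
theorem B3_side (hctx : Ctx Δ x y) (h : Spl Δ x y {u} X Y) (hu : adj Δ x u) : ∀ a ∈ X, a = x := by
  intro a ha
  by_contra hne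
  have hX : X ⊆ vs Δ := by
    rw [← h.un]
    exact fun v hv => Finset.mem_union_left _ (Finset.mem_union_left _ hv)
  have hY : Y ⊆ vs Δ := by
    rw [← h.un]
    exact fun v hv => Finset.mem_union_right _ hv
  have hc := hctx.irr.conn {x, u} hu.2
  have hyx : y ≠ x := fun h1 => hctx.ef.ne h1.symm
  have hyX : y ∉ X := fun h1 => (Finset.disjoint_left.1 h.dXY) h1 h.hy
  have huX : ∀ v ∈ X, v ≠ u := fun v hv h1 =>
    (Finset.disjoint_left.1 h.dXS) hv (Finset.mem_singleton.2 h1)
  have huY : ∀ v ∈ Y, v ≠ u := fun v hv h1 =>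
    (Finset.disjoint_left.1 h.dSY) (Finset.mem_singleton.2 h1) hv
  obtain ⟨b, hb, c, hcc, hbc⟩ := hc.2.2 (X \ {x})
    (by
      intro v hv
      rw [Finset.mem_sdiff, Finset.mem_singleton] at hv
      rw [Finset.mem_sdiff, Finset.mem_insert, Finset.mem_singleton, not_or]
      exact ⟨hX hv.1, hv.2, huX v hv.1⟩)
    ⟨a, Finset.mem_sdiff.2 ⟨ha, by rwa [Finset.mem_singleton]⟩⟩
    ⟨y, by
      rw [Finset.mem_sdiff, Finset.mem_sdiff, Finset.mem_insert, Finset.mem_singleton, not_or]
      exact ⟨⟨hY h.hy, hyx, huY y h.hy⟩, fun h1 => hyX (Finset.mem_sdiff.1 h1).1⟩⟩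
  rw [Finset.mem_sdiff, Finset.mem_singleton] at hb
  rw [Finset.mem_sdiff, Finset.mem_sdiff, Finset.mem_insert, Finset.mem_singleton, not_or,
    Finset.mem_sdiff, Finset.mem_singleton] at hcc
  obtain ⟨⟨hcv, hcx, hcu⟩, hcn⟩ := hcc
  have hcY : c ∈ Y := by
    rw [← h.un, Finset.mem_union, Finset.mem_union, Finset.mem_singleton] at hcv
    rcases hcv with (h1 | h1) | h1
    · exact absurd ⟨h1, hcx⟩ hcn
    · exact absurd h1 hcu
    · exact h1
  exact hb.2 (h.no_edge hb.1 hcY hbc).1

theorem tB3 : StmtB3 := by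
  intro V _ _ Δ x y p u X Y hctx hxp hyp h
  have hp : p = u := Finset.mem_singleton.1 (h.mem_of_common hxp hyp)
  subst hp
  have h1 := B3_side hctx h hxp
  have h2 := B3_side hctx.symm h.symm hyp
  ext v
  rw [Finset.mem_insert, Finset.mem_insert, Finset.mem_singleton]
  constructor
  · intro hv
    rw [← h.un, Finset.mem_union, Finset.mem_union, Finset.mem_singleton] at hv
    rcases hv with (h3 | h3) | h3
    · exact Or.inl (h1 v h3)
    · exact Or.inr (Or.inr h3)
    · exact Or.inr (Or.inl (h2 v h3))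
  · rintro (rfl | rfl | rfl)
    · exact hctx.mem_left
    · exact hctx.mem_right
    · exact (hctx.inP.cx.adj_vs hxp).2

end Pool.Agent.Lib.MP_73b196_co.St
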