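import Pool.Agent.Lib.MP_73b196_co.St.Spec

/-!
# No separating pairs if there is a common neighbour
-/

set_option autoImplicit false

namespace Pool.Agent.Lib.MP_73b196_co.St

theorem tB4 (hB1 : StmtB1) (hB2 : StmtB2) (hB3 : StmtB3) : StmtB4 := by
  rintro V _ _ Δ x y hA h ⟨p, hxp, hyp⟩ a ha b hb hab hnab
  by_contra hc
  obtain ⟨W, hW, hx, hy, hne, hta, htb, hD⟩ := hB1 V Δ x y a b h ha hb hab hnab hc
  have hcx := h.inP.cx
  have hvs : ∀ v, v ∈ vs (insert {a, b} (ind Δ (W ∪ {a, b}))) → v ∈ vs Δ ∧ v ∈ W ∪ {a, b} := by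
    intro v hv
    rw [mem_vs] at hv
    rcases hv with hv | hv
    · exfalso
      have ha' : a ∈ ({v} : Finset V) := by rw [hv]; simp
      have hb' : b ∈ ({v} : Finset V) := by rw [hv]; simp
      rw [Finset.mem_singleton] at ha' hb'
      exact hab (ha'.trans hb'.symm)
    · exact ⟨mem_vs.2 hv.1, hv.2 (Finset.mem_singleton_self v)⟩
  have hsub : W ∪ {a, b} ⊆ vs Δ := by
    intro v hv
    rcases Finset.mem_union.1 hv with hv | hv
    · exact (Finset.mem_sdiff.1 (hW.1 hv)).1
    · rcases Finset.mem_insert.1 hv with rfl | hv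
      · exact ha
      · rw [Finset.mem_singleton.1 hv]
        exact hb
  have hcard : (vs (insert {a, b} (ind Δ (W ∪ {a, b})))).card < (vs Δ).card := by
    apply Finset.card_lt_card
    refine Finset.ssubset_iff_subset_ne.2 ⟨fun v hv => (hvs v hv).1, ?_⟩
    intro heq
    apply hne
    refine Finset.Subset.antisymm hsub ?_
    intro v hv
    rw [← heq] at hv
    exact (hvs v hv).2
  -- the common neighbour is in `W + a + b`
  have hpvs : p ∈ vs Δ := (hcx.adj_vs hxp).2
  have hp : p ∈ W ∪ {a, b} := by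
    by_contra hp
    have hpab : p ∉ ({a, b} : Finset V) := fun h1 => hp (Finset.mem_union_right _ h1)
    have hpW : p ∉ W := fun h1 => hp (Finset.mem_union_left _ h1)
    have key : ∀ z, adj Δ z p → z ∈ W ∪ {a, b} → z ∈ ({a, b} : Finset V) := by
      intro z hz hzW
      rcases Finset.mem_union.1 hzW with h1 | h1
      · exact absurd (hW.mem_of_adj h1 (Finset.mem_sdiff.2 ⟨hpvs, hpab⟩) hz) hpW
      · exact h1
    have h1 := key x hxp hx
    have h2 := key y hyp hy
    simp only [Finset.mem_insert, Finset.mem_singleton] at h1 h2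
    rcases h1 with rfl | rfl <;> rcases h2 with rfl | rfl
    · exact h.ef.ne rfl
    · exact hnab h.adj
    · exact hnab (adj_symm h.adj)
    · exact h.ef.ne rfl
  have hadj : ∀ z, adj Δ z p → z ∈ W ∪ {a, b} →
      adj (insert {a, b} (ind Δ (W ∪ {a, b}))) z p := by
    intro z hz hzW
    refine ⟨hz.1, Or.inr ⟨hz.2, ?_⟩⟩
    intro v hv
    simp only [Finset.mem_insert, Finset.mem_singleton] at hv
    rcases hv with rfl | rfl
    · exact hzW
    · exact hp
  obtain ⟨q, hq⟩ := hA _ x y hcard hD ⟨p, hadj x hxp hx, hadj y hyp hy⟩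
  obtain ⟨u, X, Y, hs⟩ := hB2 V Δ x y a b W h ha hb hab hnab hW hx hy hta htb (Or.inl ⟨q, hq⟩)
  have hV := hB3 V Δ x y p u X Y h hxp hyp hs
  rw [hV] at ha hb
  simp only [Finset.mem_insert, Finset.mem_singleton] at ha hb
  rcases ha with rfl | rfl | rfl <;> rcases hb with rfl | rfl | rfl
  · exact hab rfl
  · exact hnab h.adj
  · exact hnab hxp
  · exact hnab (adj_symm h.adj)
  · exact hab rfl
  · exact hnab hyp
  · exact hnab (adj_symm hxp)
  · exact hnab (adj_symm hyp)
  · exact hab rfl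

end Pool.Agent.Lib.MP_73b196_co.St
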