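import Pool.Agent.Lib.MP_73b196_co.St.Defs

/-!
# Basic lemmas
-/

set_option autoImplicit false

namespace Pool.Agent.Lib.MP_73b196_co.St

variable {V : Type} [Fintype V] [DecidableEq V] {Δ Γ : Set (Finset V)}
  {A B C D F S U X Y : Finset V} {a b p s v x y : V} {L L' : List (Finset V)}

theorem mem_vs : v ∈ vs Δ ↔ {v} ∈ Δ := by
  simp [vs]

theorem IsCx.sub_vs (h : IsCx Δ) (hF : F ∈ Δ) : F ⊆ vs Δ := fun _ hv =>
  mem_vs.2 (h.down F hF _ (Finset.singleton_subset_iff.2 hv))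

theorem adj_symm (h : adj Δ a b) : adj Δ b a :=
  ⟨h.1.symm, by rw [Finset.pair_comm]; exact h.2⟩

theorem IsCx.adj_of_face (h : IsCx Δ) (hF : F ∈ Δ) (ha : a ∈ F) (hb : b ∈ F) (hab : a ≠ b) :
    adj Δ a b :=
  ⟨hab, h.down F hF _ (Finset.insert_subset ha (Finset.singleton_subset_iff.2 hb))⟩

theorem IsCx.adj_vs (h : IsCx Δ) (hab : adj Δ a b) : a ∈ vs Δ ∧ b ∈ vs Δ :=
  ⟨h.sub_vs hab.2 (Finset.mem_insert_self _ _),
    h.sub_vs hab.2 (Finset.mem_insert_of_mem (Finset.mem_singleton_self _))⟩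

theorem touch_symm (h : touch Δ A B) : touch Δ B A := by
  obtain ⟨a, ha, b, hb, hab⟩ := h
  exact ⟨b, hb, a, ha, adj_symm hab⟩

theorem touch_mono {A' B' : Finset V} (hA : A ⊆ A') (hB : B ⊆ B') (h : touch Δ A B) :
    touch Δ A' B' := by
  obtain ⟨a, ha, b, hb, hab⟩ := h
  exact ⟨a, hA ha, b, hB hb, hab⟩

theorem touch_single : touch Δ {a} {b} ↔ adj Δ a b := by
  simp [touch]

theorem touch_single_left : touch Δ {a} B ↔ ∃ b ∈ B, adj Δ a b := by
  simp [touch]

theorem touch_union_left : touch Δ (A ∪ B) C ↔ touch Δ A C ∨ touch Δ B C := by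
  constructor
  · rintro ⟨a, ha, b, hb, hab⟩
    rcases Finset.mem_union.1 ha with h | h
    · exact Or.inl ⟨a, h, b, hb, hab⟩
    · exact Or.inr ⟨a, h, b, hb, hab⟩
  · rintro (h | h)
    · exact touch_mono Finset.subset_union_left (Finset.Subset.refl _) h
    · exact touch_mono Finset.subset_union_right (Finset.Subset.refl _) h

theorem touch_union_right : touch Δ A (B ∪ C) ↔ touch Δ A B ∨ touch Δ A C := by
  constructor
  · intro h
    rcases touch_union_left.1 (touch_symm h) with h | h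
    · exact Or.inl (touch_symm h)
    · exact Or.inr (touch_symm h)
  · rintro (h | h)
    · exact touch_mono (Finset.Subset.refl _) Finset.subset_union_left h
    · exact touch_mono (Finset.Subset.refl _) Finset.subset_union_right h

theorem IsCx.touch_iff_fill (h : IsCx Δ) (hd : Disjoint A B) : touch Δ A B ↔ fill Δ [A, B] := by
  constructor
  · rintro ⟨a, ha, b, hb, hab⟩
    refine ⟨{a, b}, hab.2, ?_⟩
    intro C hC
    simp only [List.mem_cons, List.not_mem_nil, or_false] at hC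
    rcases hC with rfl | rfl
    · exact ⟨a, Finset.mem_inter.2 ⟨by simp, ha⟩⟩
    · exact ⟨b, Finset.mem_inter.2 ⟨by simp, hb⟩⟩
  · rintro ⟨F, hF, hL⟩
    obtain ⟨a, ha⟩ := hL A (by simp)
    obtain ⟨b, hb⟩ := hL B (by simp)
    rw [Finset.mem_inter] at ha hb
    refine ⟨a, ha.2, b, hb.2, h.adj_of_face hF ha.1 hb.1 ?_⟩
    rintro rfl
    exact Finset.disjoint_left.1 hd ha.2 hb.2

theorem IsCx.fill_three (h : IsCx Δ) : fill Δ [{a}, {b}, {v}] ↔ ({a, b, v} : Finset V) ∈ Δ := by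
  constructor
  · rintro ⟨F, hF, hL⟩
    have h1 : ∀ z : V, {z} ∈ [({a} : Finset V), {b}, {v}] → z ∈ F := by
      intro z hz
      obtain ⟨w, hw⟩ := hL {z} hz
      rw [Finset.mem_inter, Finset.mem_singleton] at hw
      exact hw.2 ▸ hw.1
    refine h.down F hF _ ?_
    intro z hz
    simp only [Finset.mem_insert, Finset.mem_singleton] at hz
    rcases hz with rfl | rfl | rfl
    · exact h1 z (by simp)
    · exact h1 z (by simp)
    · exact h1 z (by simp)
  · intro hF
    refine ⟨_, hF, ?_⟩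
    intro C hC
    simp only [List.mem_cons, List.not_mem_nil, or_false] at hC
    rcases hC with rfl | rfl | rfl
    · exact ⟨a, by simp⟩
    · exact ⟨b, by simp⟩
    · exact ⟨v, by simp⟩

theorem fill_perm (h : L.Perm L') : fill Δ L ↔ fill Δ L' := by
  simp only [fill, h.mem_iff]

theorem CM_perm (h : L.Perm L') (hL : CM Δ L) : CM Δ L' := by
  refine ⟨fun A hA => hL.1 A (h.mem_iff.2 hA), ?_⟩
  refine (h.pairwise_iff ?_).1 hL.2
  intro A B hAB
  exact ⟨hAB.1.symm, touch_symm hAB.2⟩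

theorem CM_sub (h : L'.Sublist L) (hL : CM Δ L) : CM Δ L' :=
  ⟨fun A hA => hL.1 A (h.subset hA), hL.2.sublist h⟩

theorem conn_single (hv : v ∈ vs Δ) : Conn Δ {v} := by
  refine ⟨Finset.singleton_subset_iff.2 hv, Finset.singleton_nonempty v, ?_⟩
  intro B hB hBne hne
  rcases Finset.subset_singleton_iff.1 hB with rfl | rfl
  · exact absurd hBne (by simp)
  · simp at hne

theorem Conn.union (hA : Conn Δ A) (hB : Conn Δ B) (h : touch Δ A B ∨ (A ∩ B).Nonempty) :
    Conn Δ (A ∪ B) := by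
  refine ⟨Finset.union_subset hA.1 hB.1, hA.2.1.mono Finset.subset_union_left, ?_⟩
  intro P hP hPne hQne
  by_cases hA1 : (A ∩ P).Nonempty ∧ (A \ (A ∩ P)).Nonempty
  · refine touch_mono Finset.inter_subset_right ?_ (hA.2.2 (A ∩ P) Finset.inter_subset_left
      hA1.1 hA1.2)
    intro z hz
    simp only [Finset.mem_sdiff, Finset.mem_inter, Finset.mem_union] at hz ⊢
    tauto
  by_cases hB1 : (B ∩ P).Nonempty ∧ (B \ (B ∩ P)).Nonempty
  · refine touch_mono Finset.inter_subset_right ?_ (hB.2.2 (B ∩ P) Finset.inter_subset_left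
      hB1.1 hB1.2)
    intro z hz
    simp only [Finset.mem_sdiff, Finset.mem_inter, Finset.mem_union] at hz ⊢
    tauto
  -- each of `A`, `B` lies on one side
  have key : ∀ E : Finset V, ¬ ((E ∩ P).Nonempty ∧ (E \ (E ∩ P)).Nonempty) →
      E ⊆ P ∨ ∀ z ∈ E, z ∉ P := by
    intro E hE
    by_cases h1 : (E ∩ P).Nonempty
    · left
      intro z hz
      by_contra hzP
      exact hE ⟨h1, z, by simp [hz, hzP]⟩
    · right
      intro z hz hzP
      exact h1 ⟨z, Finset.mem_inter.2 ⟨hz, hzP⟩⟩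
  obtain ⟨p, hp⟩ := hPne
  obtain ⟨q, hq⟩ := hQne
  have hpU := Finset.mem_union.1 (hP hp)
  rw [Finset.mem_sdiff, Finset.mem_union] at hq
  rcases key A hA1 with hA2 | hA2 <;> rcases key B hB1 with hB2 | hB2
  · exfalso
    rcases hq.1 with h1 | h1
    · exact hq.2 (hA2 h1)
    · exact hq.2 (hB2 h1)
  · rcases h with h | ⟨z, hz⟩
    · refine touch_mono hA2 ?_ h
      intro z hz
      exact Finset.mem_sdiff.2 ⟨Finset.mem_union_right _ hz, hB2 z hz⟩
    · rw [Finset.mem_inter] at hz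
      exact absurd (hA2 hz.1) (hB2 z hz.2)
  · rcases h with h | ⟨z, hz⟩
    · refine touch_mono hB2 ?_ (touch_symm h)
      intro z hz
      exact Finset.mem_sdiff.2 ⟨Finset.mem_union_left _ hz, hA2 z hz⟩
    · rw [Finset.mem_inter] at hz
      exact absurd (hB2 hz.2) (hA2 z hz.1)
  · exfalso
    rcases hpU with h1 | h1
    · exact hA2 p h1 hp
    · exact hB2 p h1 hp

theorem Conn.insert (hA : Conn Δ A) (hv : v ∈ vs Δ) (h : touch Δ {v} A) : Conn Δ (insert v A) := by
  rw [Finset.insert_eq]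
  exact (conn_single hv).union hA (Or.inl h)

/-- Attaching a set of vertices which touch a connected set. -/
theorem Conn.attach (hA : Conn Δ A) (hB : B ⊆ vs Δ) (h : ∀ b ∈ B, touch Δ {b} A) :
    Conn Δ (A ∪ B) := by
  induction B using Finset.induction_on with
  | empty => simpa using hA
  | insert b B hbB ih =>
    rw [Finset.union_insert]
    refine Conn.insert (ih (fun z hz => hB (Finset.mem_insert_of_mem hz))
      (fun z hz => h z (Finset.mem_insert_of_mem hz))) (hB (Finset.mem_insert_self _ _)) ?_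
    exact touch_mono (Finset.Subset.refl _) Finset.subset_union_left
      (h b (Finset.mem_insert_self _ _))

theorem Conn.mono (hΓ : Γ ⊆ Δ) (hA : Conn Γ A) : Conn Δ A := by
  refine ⟨fun v hv => mem_vs.2 (hΓ (mem_vs.1 (hA.1 hv))), hA.2.1, ?_⟩
  intro B hB hBne hne
  obtain ⟨a, ha, b, hb, hab⟩ := hA.2.2 B hB hBne hne
  exact ⟨a, ha, b, hb, hab.1, hΓ hab.2⟩

/-- Cut form with two parts. -/
theorem Conn.touch_of (hU : Conn Δ U) (hA : A.Nonempty) (hB : B.Nonempty) (hd : Disjoint A B)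
    (hAB : A ∪ B = U) : touch Δ A B := by
  subst hAB
  have h1 : (A ∪ B) \ A = B := by
    rw [Finset.union_sdiff_left]
    exact hd.symm.sdiff_eq_left
  have := hU.2.2 A Finset.subset_union_left hA (by rw [h1]; exact hB)
  rwa [h1] at this

/-- To prove connectedness consider two disjoint parts without edges between them. -/
theorem conn_of (hU : U ⊆ vs Δ) (hne : U.Nonempty)
    (h : ∀ A B, A ∪ B = U → Disjoint A B → A.Nonempty → B.Nonempty → ¬ touch Δ A B → False) :
    Conn Δ U := by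
  refine ⟨hU, hne, ?_⟩
  intro B hB hBne hne'
  by_contra hn
  exact h B (U \ B) (Finset.union_sdiff_of_subset hB) Finset.disjoint_sdiff hBne hne' hn

theorem not_conn (hU : U ⊆ vs Δ) (hne : U.Nonempty) (h : ¬ Conn Δ U) :
    ∃ A B, A ∪ B = U ∧ Disjoint A B ∧ A.Nonempty ∧ B.Nonempty ∧ ¬ touch Δ A B := by
  by_contra hc
  exact h (conn_of hU hne fun A B h1 h2 h3 h4 h5 => hc ⟨A, B, h1, h2, h3, h4, h5⟩)

theorem vs_ind : vs (ind Δ U) = vs Δ ∩ U := by
  ext v
  rw [Finset.mem_inter, mem_vs, mem_vs]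
  simp [St.ind]

theorem adj_ind : adj (ind Δ U) a b ↔ adj Δ a b ∧ a ∈ U ∧ b ∈ U := by
  simp only [adj, St.ind, Set.mem_setOf_eq, Finset.insert_subset_iff, Finset.singleton_subset_iff]
  tauto

theorem touch_ind (hA : A ⊆ U) (hB : B ⊆ U) : touch (ind Δ U) A B ↔ touch Δ A B := by
  constructor
  · rintro ⟨a, ha, b, hb, hab⟩
    exact ⟨a, ha, b, hb, (adj_ind.1 hab).1⟩
  · rintro ⟨a, ha, b, hb, hab⟩
    exact ⟨a, ha, b, hb, adj_ind.2 ⟨hab, hA ha, hB hb⟩⟩

theorem conn_ind (hA : A ⊆ U) : Conn (ind Δ U) A ↔ Conn Δ A := by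
  constructor
  · exact Conn.mono fun F hF => hF.1
  · intro h
    refine ⟨?_, h.2.1, ?_⟩
    · rw [vs_ind]
      exact Finset.subset_inter h.1 hA
    · intro B hB hBne hne
      rw [touch_ind (hB.trans hA) (Finset.sdiff_subset.trans hA)]
      exact h.2.2 B hB hBne hne

theorem IsCx.fill_ind (h : IsCx Δ) (hne : L ≠ []) (hL : ∀ A ∈ L, A ⊆ U) :
    fill (ind Δ U) L ↔ fill Δ L := by
  constructor
  · rintro ⟨F, hF, hFL⟩
    exact ⟨F, hF.1, hFL⟩
  · rintro ⟨F, hF, hFL⟩
    refine ⟨F ∩ U, ⟨h.down F hF _ Finset.inter_subset_left, Finset.inter_subset_right⟩, ?_⟩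
    intro A hA
    obtain ⟨z, hz⟩ := hFL A hA
    rw [Finset.mem_inter] at hz
    exact ⟨z, Finset.mem_inter.2 ⟨Finset.mem_inter.2 ⟨hz.1, hL A hA hz.2⟩, hz.2⟩⟩

theorem IsCx.ind (h : IsCx Δ) (U : Finset V) : IsCx (ind Δ U) :=
  ⟨⟨h.empty, Finset.empty_subset _⟩,
    fun F hF G hG => ⟨h.down F hF.1 G hG, hG.trans hF.2⟩⟩

private theorem base_sub (h : Conn (St.ind Δ U) A) : A ⊆ U := by
  have := h.1
  rw [vs_ind] at this
  exact this.trans Finset.inter_subset_right

private theorem base_CM (h : CM (St.ind Δ U) L) : CM Δ L ∧ ∀ A ∈ L, A ⊆ U := by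
  have hs : ∀ A ∈ L, A ⊆ U := fun A hA => base_sub (h.1 A hA)
  refine ⟨⟨fun A hA => (conn_ind (hs A hA)).1 (h.1 A hA), ?_⟩, hs⟩
  refine h.2.imp_of_mem ?_
  intro A B hA hB hAB
  exact ⟨hAB.1, (touch_ind (hs A hA) (hs B hB)).1 hAB.2⟩

theorem InP.ind (h : InP Δ) (U : Finset V) : InP (ind Δ U) where
  cx := h.cx.ind U
  k4 := by
    intro A B C D hM
    obtain ⟨hM', hs⟩ := base_CM hM
    rw [h.cx.fill_ind (by simp) (fun E hE => hs E (by simp at hE ⊢; tauto)),
      h.cx.fill_ind (by simp) (fun E hE => hs E (by simp at hE ⊢; tauto)),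
      h.cx.fill_ind (by simp) (fun E hE => hs E (by simp at hE ⊢; tauto))]
    exact h.k4 A B C D hM'
  k5 := by
    intro A B C D E hM
    obtain ⟨hM', hs⟩ := base_CM hM
    rw [h.cx.fill_ind (by simp) (fun E hE => hs E (by simp at hE ⊢; tauto)),
      h.cx.fill_ind (by simp) (fun E hE => hs E (by simp at hE ⊢; tauto))]
    exact h.k5 A B C D E hM'
  k6 := by
    intro A B C D E F hM
    obtain ⟨hM', hs⟩ := base_CM hM
    rw [h.cx.fill_ind (by simp) (fun E hE => hs E (by simp at hE ⊢; tauto)),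
      h.cx.fill_ind (by simp) (fun E hE => hs E (by simp at hE ⊢; tauto))]
    exact h.k6 A B C D E F hM'
  nf := by
    intro 𝒜 h1 h2 h3
    have hs : ∀ A ∈ 𝒜, A ⊆ U := fun A hA => base_sub (h1 A hA)
    obtain ⟨F, hF, hFA⟩ := h.nf 𝒜 (fun A hA => (conn_ind (hs A hA)).1 (h1 A hA))
      (fun A hA B hB hAB => ⟨(h2 A hA B hB hAB).1,
        (touch_ind (hs A hA) (hs B hB)).1 (h2 A hA B hB hAB).2⟩)
      (fun A hA B hB C hC hAB hAC hBC => by
        refine (h.cx.fill_ind (by simp) ?_).1 (h3 A hA B hB C hC hAB hAC hBC)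
        intro E hE
        simp only [List.mem_cons, List.not_mem_nil, or_false] at hE
        rcases hE with rfl | rfl | rfl
        · exact hs _ hA
        · exact hs _ hB
        · exact hs _ hC)
    refine ⟨F ∩ U, ⟨h.cx.down F hF _ Finset.inter_subset_left, Finset.inter_subset_right⟩, ?_⟩
    intro A hA
    obtain ⟨z, hz⟩ := hFA A hA
    rw [Finset.mem_inter] at hz
    exact ⟨z, Finset.mem_inter.2 ⟨Finset.mem_inter.2 ⟨hz.1, hs A hA hz.2⟩, hz.2⟩⟩
  x6 := by
    intro v w s t u z hC hd f1 f2 f3 f4 f5 f6 t1 t2 t3 t4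
    have hs : ∀ A ∈ [v, w, s, t, u, z], A ⊆ U := fun A hA => base_sub (hC A hA)
    have hf : ∀ A B C : Finset V, A ∈ [v, w, s, t, u, z] → B ∈ [v, w, s, t, u, z] →
        C ∈ [v, w, s, t, u, z] → (fill (St.ind Δ U) [A, B, C] ↔ fill Δ [A, B, C]) := by
      intro A B C hA hB hC
      refine h.cx.fill_ind (by simp) ?_
      intro E hE
      simp only [List.mem_cons, List.not_mem_nil, or_false] at hE
      rcases hE with rfl | rfl | rfl
      · exact hs _ hA
      · exact hs _ hB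
      · exact hs _ hC
    have ht : ∀ A B : Finset V, A ∈ [v, w, s, t, u, z] → B ∈ [v, w, s, t, u, z] →
        (touch (St.ind Δ U) A B ↔ touch Δ A B) := fun A B hA hB =>
      touch_ind (hs A hA) (hs B hB)
    refine h.x6 v w s t u z (fun A hA => (conn_ind (hs A hA)).1 (hC A hA)) hd
      ((hf _ _ _ (by simp) (by simp) (by simp)).1 f1)
      ((hf _ _ _ (by simp) (by simp) (by simp)).1 f2)
      ((hf _ _ _ (by simp) (by simp) (by simp)).1 f3)
      ((hf _ _ _ (by simp) (by simp) (by simp)).1 f4)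
      ((hf _ _ _ (by simp) (by simp) (by simp)).1 f5)
      (fun h' => f6 ((hf _ _ _ (by simp) (by simp) (by simp)).2 h'))
      (fun h' => t1 ((ht _ _ (by simp) (by simp)).2 h'))
      (fun h' => t2 ((ht _ _ (by simp) (by simp)).2 h'))
      (fun h' => t3 ((ht _ _ (by simp) (by simp)).2 h'))
      (fun h' => t4 ((ht _ _ (by simp) (by simp)).2 h'))

/-- The edges of `Δ` and of `insert {a, b} Δ` agree except for the pair `a, b`. -/
theorem touch_insert (hAB : ¬ (a ∈ A ∧ b ∈ B)) (hBA : ¬ (b ∈ A ∧ a ∈ B)) :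
    touch (insert {a, b} Δ) A B ↔ touch Δ A B := by
  constructor
  · rintro ⟨u, hu, w, hw, hne, h⟩
    rcases h with h | h
    · exfalso
      have h1 : u ∈ ({a, b} : Finset V) := by rw [← h]; simp
      have h2 : w ∈ ({a, b} : Finset V) := by rw [← h]; simp
      simp only [Finset.mem_insert, Finset.mem_singleton] at h1 h2
      rcases h1 with rfl | rfl <;> rcases h2 with rfl | rfl
      · exact hne rfl
      · exact hAB ⟨hu, hw⟩
      · exact hBA ⟨hu, hw⟩
      · exact hne rfl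
    · exact ⟨u, hu, w, hw, hne, h⟩
  · rintro ⟨u, hu, w, hw, hne, h⟩
    exact ⟨u, hu, w, hw, hne, Set.mem_insert_of_mem _ h⟩

theorem conn_insert (hab : ¬ (a ∈ A ∧ b ∈ A)) (hA : A ⊆ vs Δ) :
    Conn (insert {a, b} Δ) A ↔ Conn Δ A := by
  constructor
  · intro h
    refine ⟨hA, h.2.1, ?_⟩
    intro B hB hBne hne
    refine (touch_insert ?_ ?_).1 (h.2.2 B hB hBne hne)
    · rintro ⟨h1, h2⟩
      exact hab ⟨hB h1, (Finset.mem_sdiff.1 h2).1⟩
    · rintro ⟨h1, h2⟩
      exact hab ⟨(Finset.mem_sdiff.1 h2).1, hB h1⟩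
  · exact Conn.mono (Set.subset_insert _ _)

end Pool.Agent.Lib.MP_73b196_co.St
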