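import Pool.Agent.Lib.MP_73b196_co.St.Spec

/-!
# C1: the contraction of one side of a clique separator
-/

set_option autoImplicit false

namespace Pool.Agent.Lib.MP_73b196_co.St

variable {V : Type} [Fintype V] [DecidableEq V] {Δ : Set (Finset V)} {F S X Y : Finset V} {x y : V}

omit [Fintype V] in
theorem C1_img (h : ∀ v ∈ F, v ∉ Y) : F.image (fun v => if v ∈ Y then y else v) = F := by
  have e : F.image (fun v => if v ∈ Y then y else v) = F.image id :=
    Finset.image_congr fun v hv => if_neg (h v hv)
  rw [e, Finset.image_id]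

theorem C1_con (hm : MS Δ x y S X Y) (cx : IsCx Δ) (hxy : ({x, y} : Finset V) ∈ Δ) (hS : S ∈ Δ)
    (hF : ∃ F ∈ Δ, S ⊆ F ∧ (F ∩ Y).Nonempty) : con Δ Y y = GX Δ X S x y := by
  have hYX : ∀ v ∈ X, v ∉ Y := fun v hv => Finset.disjoint_left.1 hm.dXY hv
  have hYS : ∀ v ∈ S, v ∉ Y := fun v hv => Finset.disjoint_left.1 hm.dSY hv
  ext G
  constructor
  · rintro ⟨F, hF, rfl⟩
    rcases hm.face F hF with h | h | h
    · have e : F.image (fun v => if v ∈ Y then y else v) = F := C1_img fun v hv => by
        rcases Finset.mem_union.1 (h hv) with h1 | h1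
        · exact hYX v h1
        · exact hYS v h1
      rw [e]
      exact Or.inl ⟨hF, h⟩
    · refine Or.inr (Or.inl fun w hw => ?_)
      obtain ⟨v, hv, rfl⟩ := Finset.mem_image.1 hw
      by_cases hvY : v ∈ Y
      · rw [if_pos hvY]
        exact Finset.mem_insert_self _ _
      · rw [if_neg hvY]
        rcases Finset.mem_union.1 (h hv) with h1 | h1
        · exact absurd h1 hvY
        · exact Finset.mem_insert_of_mem h1
    · refine Or.inr (Or.inr ?_)
      rw [h, Finset.image_insert, Finset.image_singleton, if_neg (hYX x hm.hx), if_pos hm.hy]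
  · rintro (⟨h1, h2⟩ | h | h)
    · refine ⟨G, h1, C1_img fun v hv => ?_⟩
      rcases Finset.mem_union.1 (h2 hv) with h3 | h3
      · exact hYX v h3
      · exact hYS v h3
    · by_cases hy : y ∈ G
      · obtain ⟨F, hF, hSF, z, hz⟩ := hF
        rw [Finset.mem_inter] at hz
        have hGS : ∀ v ∈ G.erase y, v ∈ S := fun v hv => by
          rw [Finset.mem_erase] at hv
          rcases Finset.mem_insert.1 (h hv.2) with h3 | h3
          · exact absurd h3 hv.1
          · exact h3
        refine ⟨insert z (G.erase y), cx.down F hF _ ?_, ?_⟩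
        · intro v hv
          rcases Finset.mem_insert.1 hv with h3 | h3
          · rw [h3]
            exact hz.1
          · exact hSF (hGS v h3)
        · rw [Finset.image_insert, if_pos hz.2, C1_img fun v hv => hYS v (hGS v hv),
            Finset.insert_erase hy]
      · have hGS : G ⊆ S := fun v hv => by
          rcases Finset.mem_insert.1 (h hv) with h3 | h3
          · exact absurd (h3 ▸ hv) hy
          · exact h3
        exact ⟨G, cx.down S hS G hGS, C1_img fun v hv => hYS v (hGS hv)⟩
    · refine ⟨{x, y}, hxy, ?_⟩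
      rw [h, Finset.image_insert, Finset.image_singleton, if_neg (hYX x hm.hx), if_pos hm.hy]

/-- A clique meeting two parts without edges between is impossible. -/
theorem C1_clq {A B : Finset V} (hS : Clq Δ S) (hd : Disjoint A B) (ht : ¬ touch Δ A B)
    {s : V} (hs : s ∈ S) (hsA : s ∈ A) : ∀ v ∈ S, v ∉ B := by
  intro v hv hvB
  refine ht ⟨s, hsA, v, hvB, hS.2 s hs v hv ?_⟩
  rintro rfl
  exact Finset.disjoint_left.1 hd hsA hvB

theorem C1_part (hm : MS Δ x y S X Y) (hirr : Irr Δ) (hxy : ({x, y} : Finset V) ∈ Δ)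
    {A B : Finset V} (hAB : A ∪ B = (X \ {x}) ∪ S) (hd : Disjoint A B) (hB : B.Nonempty)
    (ht : ¬ touch Δ A B) (hSB : ∀ v ∈ S, v ∉ B) (hSne : S.Nonempty) : False := by
  obtain ⟨s, hs⟩ := hSne
  have hxS : x ∉ S := Finset.disjoint_left.1 hm.dXS hm.hx
  have hyS : y ∉ S := fun h => Finset.disjoint_left.1 hm.dSY h hm.hy
  have hBX : ∀ v ∈ B, v ∈ X ∧ v ≠ x := by
    intro v hv
    have h1 : v ∈ (X \ {x}) ∪ S := by
      rw [← hAB]
      exact Finset.mem_union_right _ hv
    rcases Finset.mem_union.1 h1 with h2 | h2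
    · rw [Finset.mem_sdiff, Finset.mem_singleton] at h2
      exact h2
    · exact absurd hv (hSB v h2)
  have hsub : X ∪ S ⊆ vs Δ := by
    rw [← hm.un]
    exact Finset.subset_union_left
  have hBU : B ⊆ vs Δ \ {x, y} := by
    intro v hv
    obtain ⟨h1, h2⟩ := hBX v hv
    rw [Finset.mem_sdiff, Finset.mem_insert, Finset.mem_singleton, not_or]
    refine ⟨hsub (Finset.mem_union_left _ h1), h2, ?_⟩
    rintro rfl
    exact Finset.disjoint_left.1 hm.dXY h1 hm.hy
  have hsU : s ∈ (vs Δ \ {x, y}) \ B := by
    rw [Finset.mem_sdiff, Finset.mem_sdiff, Finset.mem_insert, Finset.mem_singleton, not_or]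
    refine ⟨⟨hsub (Finset.mem_union_right _ hs), ?_, ?_⟩, hSB s hs⟩
    · rintro rfl
      exact hxS hs
    · rintro rfl
      exact hyS hs
  obtain ⟨b, hb, v, hv, hbv⟩ := (hirr.conn _ hxy).2.2 B hBU hB ⟨s, hsU⟩
  rw [Finset.mem_sdiff, Finset.mem_sdiff, Finset.mem_insert, Finset.mem_singleton, not_or] at hv
  have hvA : v ∈ (X \ {x}) ∪ S → v ∈ A := by
    intro h
    rw [← hAB] at h
    rcases Finset.mem_union.1 h with h1 | h1
    · exact h1
    · exact absurd h1 hv.2
  have hv1 : v ∈ X ∪ S ∪ Y := by
    rw [hm.un]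
    exact hv.1.1
  rcases Finset.mem_union.1 hv1 with h1 | h1
  · refine ht ⟨v, hvA ?_, b, hb, adj_symm hbv⟩
    rcases Finset.mem_union.1 h1 with h2 | h2
    · refine Finset.mem_union_left _ (Finset.mem_sdiff.2 ⟨h2, ?_⟩)
      rw [Finset.mem_singleton]
      exact hv.1.2.1
    · exact Finset.mem_union_right _ h2
  · exact (hBX b hb).2 (hm.toSpl.no_edge (hBX b hb).1 h1 hbv).1

theorem tC1 (h2 : StmtA2) (h5 : StmtA5) : StmtC1 := by
  intro V _ _ Δ x y S X Y hc hm hS
  obtain ⟨hSf, -, hFY⟩ := h2 V Δ x y S X Y S hc.inP hc.ef hm.pms (Finset.Subset.refl _) hS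
  have cx := hc.inP.cx
  have hSne : S.Nonempty := h5 V Δ x y S X Y hc hm.toSpl
  have hcon : con Δ Y y = GX Δ X S x y := C1_con hm cx hc.ef.mem hSf hFY
  have hxS : x ∉ S := Finset.disjoint_left.1 hm.dXS hm.hx
  have hyS : y ∉ S := fun h => Finset.disjoint_left.1 hm.dSY h hm.hy
  have hyX : y ∉ X := fun h => Finset.disjoint_left.1 hm.dXY h hm.hy
  have hyXS : y ∉ X ∪ S := by
    rw [Finset.mem_union, not_or]
    exact ⟨hyX, hyS⟩
  have hxyS : x ∉ insert y S := by
    rw [Finset.mem_insert, not_or]
    exact ⟨hc.ef.ne, hxS⟩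
  have hsub : X ∪ S ⊆ vs Δ := by
    rw [← hm.un]
    exact Finset.subset_union_left
  have hvs : vs (GX Δ X S x y) = insert y (X ∪ S) := by
    ext v
    rw [mem_vs]
    constructor
    · rintro (⟨-, h⟩ | h | h)
      · exact Finset.mem_insert_of_mem (h (Finset.mem_singleton_self v))
      · rcases Finset.mem_insert.1 (h (Finset.mem_singleton_self v)) with h1 | h1
        · exact Finset.mem_insert.2 (Or.inl h1)
        · exact Finset.mem_insert_of_mem (Finset.mem_union_right _ h1)
      · exfalso
        have e1 : x ∈ ({v} : Finset V) := by rw [h]; simp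
        have e2 : y ∈ ({v} : Finset V) := by rw [h]; simp
        rw [Finset.mem_singleton] at e1 e2
        exact hc.ef.ne (e1.trans e2.symm)
    · intro h
      rcases Finset.mem_insert.1 h with rfl | h
      · refine Or.inr (Or.inl ?_)
        rw [Finset.singleton_subset_iff]
        exact Finset.mem_insert_self _ _
      · exact Or.inl ⟨mem_vs.1 (hsub h), Finset.singleton_subset_iff.2 h⟩
  have hfac : ∀ F ∈ GX Δ X S x y, x ∈ F → y ∈ F → F = {x, y} := by
    rintro F (⟨-, h⟩ | h | h) hx hy
    · exact absurd (h hy) hyXS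
    · exact absurd (h hx) hxyS
    · exact h
  refine ⟨⟨?_, ⟨?_, ?_⟩, ⟨hc.ef.ne, Or.inr (Or.inr rfl), hfac⟩⟩, hvs⟩
  · rw [← hcon]
    exact hc.inP.con hm.cY hm.hy
  · intro p hp
    have h1 := hfac _ (hp {x, y} (Or.inr (Or.inr rfl))) (by simp) (by simp)
    have h3 : p ∈ ({x, y} : Finset V) := by
      rw [← h1]
      exact Finset.mem_insert_self _ _
    rw [Finset.mem_insert, Finset.mem_singleton] at h3
    obtain ⟨s, hs⟩ := hSne
    have hsx : s ≠ x := fun e => hxS (e ▸ hs)
    have hsy : s ≠ y := fun e => hyS (e ▸ hs)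
    rcases h3 with rfl | rfl
    · have h4 : ({y, s} : Finset V) ∈ GX Δ X S p y := by
        refine Or.inr (Or.inl ?_)
        rw [Finset.insert_subset_iff, Finset.singleton_subset_iff]
        exact ⟨Finset.mem_insert_self _ _, Finset.mem_insert_of_mem hs⟩
      have h6 := hfac _ (hp _ h4) (by simp) (by simp)
      have h7 : s ∈ ({p, y} : Finset V) := by
        rw [← h6]
        simp
      rw [Finset.mem_insert, Finset.mem_singleton] at h7
      rcases h7 with h7 | h7
      · exact hsx h7
      · exact hsy h7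
    · obtain ⟨x', hx', hsx'⟩ := touch_single_left.1 (hm.tX s hs)
      have h4 : ({s, x'} : Finset V) ∈ GX Δ X S x p := by
        refine Or.inl ⟨hsx'.2, ?_⟩
        rw [Finset.insert_subset_iff, Finset.singleton_subset_iff]
        exact ⟨Finset.mem_union_right _ hs, Finset.mem_union_left _ hx'⟩
      rcases hp _ h4 with ⟨-, h⟩ | h | h
      · exact hyXS (h (Finset.mem_insert_self _ _))
      · have h6 : x' ∈ insert p S := h (by simp)
        rcases Finset.mem_insert.1 h6 with h7 | h7
        · exact hyX (h7 ▸ hx')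
        · exact Finset.disjoint_left.1 hm.dXS hx' h7
      · have h7 : s ∈ ({x, p} : Finset V) := by
          rw [← h]
          simp
        rw [Finset.mem_insert, Finset.mem_singleton] at h7
        rcases h7 with h7 | h7
        · exact hsx h7
        · exact hsy h7
  · -- connectedness
    have key : ∀ F : Finset V, Conn Δ (lft Y y (insert y (X ∪ S) \ F)) →
        Conn (GX Δ X S x y) (vs (GX Δ X S x y) \ F) := by
      intro F h
      have h1 := (conn_con (B := insert y (X ∪ S) \ F) cx hm.cY hm.hy (by
        rw [hcon, hvs]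
        exact Finset.sdiff_subset)).2 h
      rw [hcon] at h1
      rw [hvs]
      exact h1
    have hYX : ∀ v ∈ X, v ∉ Y := fun v hv => Finset.disjoint_left.1 hm.dXY hv
    have hYS : ∀ v ∈ S, v ∉ Y := fun v hv => Finset.disjoint_left.1 hm.dSY hv
    have case1 : ∀ F ∈ Δ, F ⊆ X ∪ S → Conn (GX Δ X S x y) (vs (GX Δ X S x y) \ F) := by
      intro F hF hFS
      have hyF : y ∉ F := fun h => hyXS (hFS h)
      refine key F ?_
      have hyU : y ∈ insert y (X ∪ S) \ F :=
        Finset.mem_sdiff.2 ⟨Finset.mem_insert_self _ _, hyF⟩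
      have e : lft Y y (insert y (X ∪ S) \ F) = vs Δ \ F := by
        unfold lft
        rw [if_pos hyU, ← hm.un]
        ext v
        simp only [Finset.mem_union, Finset.mem_sdiff, Finset.mem_insert]
        constructor
        · rintro (⟨h1 | h1, h3⟩ | h1)
          · subst h1
            exact ⟨Or.inr hm.hy, h3⟩
          · exact ⟨Or.inl h1, h3⟩
          · refine ⟨Or.inr h1, fun h3 => ?_⟩
            rcases Finset.mem_union.1 (hFS h3) with h4 | h4
            · exact hYX v h4 h1
            · exact hYS v h4 h1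
        · rintro ⟨h1 | h1, h3⟩
          · exact Or.inl ⟨Or.inr h1, h3⟩
          · exact Or.inr h1
      rw [e]
      exact hc.irr.conn F hF
    have nolft : ∀ F : Finset V, y ∈ F → lft Y y (insert y (X ∪ S) \ F) = (X ∪ S) \ F := by
      intro F hyF
      have hyU : y ∉ insert y (X ∪ S) \ F := fun h => (Finset.mem_sdiff.1 h).2 hyF
      unfold lft
      rw [if_neg hyU]
      ext v
      simp only [Finset.mem_union, Finset.mem_sdiff, Finset.mem_insert]
      constructor
      · rintro ⟨⟨h1 | h1, h3⟩, -⟩
        · subst h1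
          exact absurd hyF h3
        · exact ⟨h1, h3⟩
      · rintro ⟨h1, h3⟩
        refine ⟨⟨Or.inr h1, h3⟩, ?_⟩
        rcases h1 with h4 | h4
        · exact hYX v h4
        · exact hYS v h4
    rintro F (⟨hF, h⟩ | h | h)
    · exact case1 F hF h
    · by_cases hyF : y ∈ F
      · refine key F ?_
        rw [nolft F hyF]
        have e : (X ∪ S) \ F = X ∪ (S \ F) := by
          ext v
          simp only [Finset.mem_union, Finset.mem_sdiff]
          constructor
          · rintro ⟨h1 | h1, h3⟩
            · exact Or.inl h1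
            · exact Or.inr ⟨h1, h3⟩
          · rintro (h1 | ⟨h1, h3⟩)
            · refine ⟨Or.inl h1, fun h3 => ?_⟩
              rcases Finset.mem_insert.1 (h h3) with h4 | h4
              · exact hyX (h4 ▸ h1)
              · exact Finset.disjoint_left.1 hm.dXS h1 h4
            · exact ⟨Or.inr h1, h3⟩
        rw [e]
        refine hm.cX.attach (fun v hv => hsub (Finset.mem_union_right _
          (Finset.mem_sdiff.1 hv).1)) fun v hv => hm.tX v (Finset.mem_sdiff.1 hv).1
      · have hFS : F ⊆ S := fun v hv => by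
          rcases Finset.mem_insert.1 (h hv) with h3 | h3
          · exact absurd (h3 ▸ hv) hyF
          · exact h3
        exact case1 F (cx.down S hSf F hFS) (hFS.trans Finset.subset_union_right)
    · subst h
      refine key _ ?_
      rw [nolft _ (by simp)]
      have e : (X ∪ S) \ {x, y} = (X \ {x}) ∪ S := by
        ext v
        simp only [Finset.mem_union, Finset.mem_sdiff, Finset.mem_insert, Finset.mem_singleton,
          not_or]
        constructor
        · rintro ⟨h1 | h1, h3, -⟩
          · exact Or.inl ⟨h1, h3⟩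
          · exact Or.inr h1
        · rintro (⟨h1, h3⟩ | h1)
          · exact ⟨Or.inl h1, h3, fun h => hyX (h ▸ h1)⟩
          · exact ⟨Or.inr h1, fun h => hxS (h ▸ h1), fun h => hyS (h ▸ h1)⟩
      rw [e]
      refine conn_of ?_ ?_ ?_
      · intro v hv
        refine hsub ?_
        rcases Finset.mem_union.1 hv with h1 | h1
        · exact Finset.mem_union_left _ (Finset.mem_sdiff.1 h1).1
        · exact Finset.mem_union_right _ h1
      · exact hSne.mono Finset.subset_union_right
      · intro A B hAB hd hA hB ht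
        obtain ⟨s, hs⟩ := hSne
        have hsAB : s ∈ A ∪ B := by
          rw [hAB]
          exact Finset.mem_union_right _ hs
        rcases Finset.mem_union.1 hsAB with h1 | h1
        · exact C1_part hm hc.irr hc.ef.mem hAB hd hB ht (C1_clq hS hd ht hs h1) ⟨s, hs⟩
        · have ht' : ¬ touch Δ B A := fun h => ht (touch_symm h)
          exact C1_part hm hc.irr hc.ef.mem (A := B) (B := A)
            (by rw [Finset.union_comm]; exact hAB) hd.symm hA ht'
            (C1_clq hS hd.symm ht' hs h1) ⟨s, hs⟩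

end Pool.Agent.Lib.MP_73b196_co.St
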