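import Pool.Agent.Lib.MP_73b196_co.St.Spec

/-!
# C2: cone vertices and common neighbours
-/

set_option autoImplicit false

namespace Pool.Agent.Lib.MP_73b196_co.St

variable {V : Type} [Fintype V] [DecidableEq V] {Δ : Set (Finset V)} {E F P Q : Finset V}
  {a p q x y : V}

/-- Cone vertices may be added to a face other than `xy`. -/
theorem C2_add (hP : ∀ p ∈ P, ApexD Δ x y p) (hF : F ∈ Δ) (hne : F ≠ {x, y}) : F ∪ P ∈ Δ := by
  induction P using Finset.induction_on with
  | empty => rwa [Finset.union_empty]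
  | insert p P hpP ih =>
    have h1 := ih fun q hq => hP q (Finset.mem_insert_of_mem hq)
    rw [Finset.union_insert]
    refine (hP p (Finset.mem_insert_self _ _)).2.2 _ h1 fun e => hne ?_
    have h2 : P = ∅ := by
      rw [Finset.eq_empty_iff_forall_notMem]
      intro q hq
      have h3 : q ∈ ({x, y} : Finset V) := by
        rw [← e]
        exact Finset.mem_union_right _ hq
      have h4 := hP q (Finset.mem_insert_of_mem hq)
      rw [Finset.mem_insert, Finset.mem_singleton] at h3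
      rcases h3 with h3 | h3
      · exact h4.1 h3
      · exact h4.2.1 h3
    rwa [h2, Finset.union_empty] at e

theorem C2_touch (hc : Ctx Δ x y) (hP : insert y P ∈ Δ) (hx : x ∉ P)
    (hE : IsComp Δ ((vs Δ \ P) \ {x, y}) E) : touch Δ {x} E := by
  have hEmem : ∀ v ∈ E, v ∈ vs Δ ∧ v ∉ P ∧ v ≠ x ∧ v ≠ y := by
    intro v hv
    have h := hE.1 hv
    simp only [Finset.mem_sdiff, Finset.mem_insert, Finset.mem_singleton, not_or] at h
    exact ⟨h.1.1, h.1.2, h.2.1, h.2.2⟩
  have hEU : E ⊆ vs Δ \ insert y P := by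
    intro v hv
    obtain ⟨h1, h2, h3, h4⟩ := hEmem v hv
    rw [Finset.mem_sdiff, Finset.mem_insert, not_or]
    exact ⟨h1, h4, h2⟩
  have hxU : x ∈ (vs Δ \ insert y P) \ E := by
    rw [Finset.mem_sdiff, Finset.mem_sdiff, Finset.mem_insert, not_or]
    exact ⟨⟨hc.mem_left, hc.ef.ne, hx⟩, fun h => (hEmem x h).2.2.1 rfl⟩
  obtain ⟨e, he, v, hv, hev⟩ := (hc.irr.conn _ hP).2.2 E hEU hE.2.1.2.1 ⟨x, hxU⟩
  rw [Finset.mem_sdiff, Finset.mem_sdiff, Finset.mem_insert, not_or] at hv
  by_cases hvx : v = x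
  · subst hvx
    exact touch_single_left.2 ⟨e, he, adj_symm hev⟩
  · refine absurd (hE.mem_of_adj he ?_ hev) hv.2
    simp only [Finset.mem_sdiff, Finset.mem_insert, Finset.mem_singleton, not_or]
    exact ⟨⟨hv.1.1, hv.1.2.2⟩, hvx, hv.1.2.1⟩

theorem tC2 : StmtC2 := by
  classical
  intro V _ _ Δ x y a hA hc hp hxa hya hna
  have cx := hc.inP.cx
  obtain ⟨P, hPdef⟩ : ∃ P : Finset V, ∀ v, v ∈ P ↔ ApexD Δ x y v :=
    ⟨Finset.univ.filter fun v => ApexD Δ x y v, fun v => by simp⟩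
  have hPall : ∀ p ∈ P, ApexD Δ x y p := fun p hp => (hPdef p).1 hp
  have hPne : P.Nonempty := by
    obtain ⟨p, hp⟩ := hp
    exact ⟨p, (hPdef p).2 hp⟩
  have haP : a ∉ P := fun h => hna ((hPdef a).1 h)
  have hxP : x ∉ P := fun h => (hPall x h).1 rfl
  have hyP : y ∉ P := fun h => (hPall y h).2.1 rfl
  have hemp : (∅ : Finset V) ≠ {x, y} := by
    intro e
    have : x ∈ (∅ : Finset V) := by rw [e]; simp
    simp at this
  have hPf : P ∈ Δ := by
    have := C2_add hPall cx.empty hemp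
    rwa [Finset.empty_union] at this
  have hPvs : P ⊆ vs Δ := cx.sub_vs hPf
  have hxv := hc.mem_left
  have hyv := hc.mem_right
  have hav : a ∈ vs Δ := (cx.adj_vs hxa).2
  have hfac := hc.ef.facet
  -- the induced complex
  have hvs : vs (ind Δ (vs Δ \ P)) = vs Δ \ P := by
    rw [vs_ind]
    exact Finset.inter_eq_right.2 Finset.sdiff_subset
  have hxy' : ({x, y} : Finset V) ∈ ind Δ (vs Δ \ P) := by
    refine ⟨hc.ef.mem, ?_⟩
    rw [Finset.insert_subset_iff, Finset.singleton_subset_iff, Finset.mem_sdiff, Finset.mem_sdiff]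
    exact ⟨⟨hxv, hxP⟩, hyv, hyP⟩
  have hnirr : ¬ Irr (ind Δ (vs Δ \ P)) := by
    intro hirr
    have hc' : Ctx (ind Δ (vs Δ \ P)) x y :=
      ⟨hc.inP.ind _, hirr, ⟨hc.ef.ne, hxy', fun F hF h1 h2 => hfac F hF.1 h1 h2⟩⟩
    have hcard : (vs (ind Δ (vs Δ \ P))).card < (vs Δ).card := by
      rw [hvs]
      exact Finset.card_lt_card (Finset.sdiff_ssubset hPvs hPne)
    obtain ⟨q, hq⟩ := hA _ x y hcard hc' ⟨a, adj_ind.2 ⟨hxa, Finset.mem_sdiff.2 ⟨hxv, hxP⟩,
      Finset.mem_sdiff.2 ⟨hav, haP⟩⟩, adj_ind.2 ⟨hya, Finset.mem_sdiff.2 ⟨hyv, hyP⟩,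
      Finset.mem_sdiff.2 ⟨hav, haP⟩⟩⟩
    have hqP : q ∉ P := by
      have h1 := (hq.2.2 ∅ (cx.ind _).empty hemp).2 (Finset.mem_insert_self _ _)
      exact (Finset.mem_sdiff.1 h1).2
    refine hqP ((hPdef q).2 ⟨hq.1, hq.2.1, fun F hF hne => ?_⟩)
    have hF' : F \ P ∈ ind Δ (vs Δ \ P) := by
      refine ⟨cx.down F hF _ Finset.sdiff_subset, ?_⟩
      intro v hv
      rw [Finset.mem_sdiff] at hv ⊢
      exact ⟨cx.sub_vs hF hv.1, hv.2⟩
    have hF1 : F \ P ≠ {x, y} := by
      intro e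
      have h1 : x ∈ F \ P := by rw [e]; simp
      have h2 : y ∈ F \ P := by rw [e]; simp
      exact hne (hfac F hF (Finset.mem_sdiff.1 h1).1 (Finset.mem_sdiff.1 h2).1)
    have h3 := (hq.2.2 _ hF' hF1).1
    have h4 : insert q (F \ P) ≠ {x, y} := by
      intro e
      have h5 : q ∈ ({x, y} : Finset V) := by
        rw [← e]
        exact Finset.mem_insert_self _ _
      rw [Finset.mem_insert, Finset.mem_singleton] at h5
      rcases h5 with h5 | h5
      · exact hq.1 h5
      · exact hq.2.1 h5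
    have h5 := C2_add (P := F ∩ P) (fun p hp => hPall p (Finset.mem_inter.1 hp).2) h3 h4
    have h6 : insert q (F \ P) ∪ (F ∩ P) = insert q F := by
      rw [Finset.insert_union]
      congr 1
      ext v
      simp only [Finset.mem_union, Finset.mem_sdiff, Finset.mem_inter]
      tauto
    rwa [h6] at h5
  have hnoApex : ∀ p, ¬ Apex (ind Δ (vs Δ \ P)) p := by
    intro p hap
    have h1 := hfac _ (hap _ hxy').1 (by simp) (by simp)
    have h2 : p ∈ ({x, y} : Finset V) := by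
      rw [← h1]
      exact Finset.mem_insert_self _ _
    rw [Finset.mem_insert, Finset.mem_singleton] at h2
    have hmem : ∀ z, adj Δ z a → z ∈ vs Δ → z ∉ P → ({z, a} : Finset V) ∈ ind Δ (vs Δ \ P) := by
      intro z hz h3 h4
      refine ⟨hz.2, ?_⟩
      rw [Finset.insert_subset_iff, Finset.singleton_subset_iff, Finset.mem_sdiff,
        Finset.mem_sdiff]
      exact ⟨⟨h3, h4⟩, hav, haP⟩
    have hcon : ({x, y, a} : Finset V) ∉ Δ := by
      intro h
      have h3 := hfac _ h (by simp) (by simp)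
      have h4 : a ∈ ({x, y} : Finset V) := by
        rw [← h3]
        simp
      rw [Finset.mem_insert, Finset.mem_singleton] at h4
      rcases h4 with h4 | h4
      · exact hxa.1 h4.symm
      · exact hya.1 h4.symm
    rcases h2 with rfl | rfl
    · exact hcon (hap _ (hmem y hya hyv hyP)).1
    · have h3 := (hap _ (hmem x hxa hxv hxP)).1
      rw [Finset.insert_comm] at h3
      exact hcon h3
  obtain ⟨F, hF, hFn⟩ : ∃ F ∈ ind Δ (vs Δ \ P),
      ¬ Conn (ind Δ (vs Δ \ P)) (vs (ind Δ (vs Δ \ P)) \ F) := by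
    by_contra hcon
    push Not at hcon
    exact hnirr ⟨hnoApex, hcon⟩
  rw [hvs, conn_ind Finset.sdiff_subset] at hFn
  have hFxy : F = {x, y} := by
    by_contra hne
    have h1 := hc.irr.conn _ (C2_add hPall hF.1 hne)
    refine hFn ?_
    have e : (vs Δ \ P) \ F = vs Δ \ (F ∪ P) := by
      ext v
      simp only [Finset.mem_sdiff, Finset.mem_union]
      tauto
    rw [e]
    exact h1
  subst hFxy
  have hQvs : (vs Δ \ P) \ {x, y} ⊆ vs Δ := Finset.sdiff_subset.trans Finset.sdiff_subset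
  have haQ : a ∈ (vs Δ \ P) \ {x, y} := by
    simp only [Finset.mem_sdiff, Finset.mem_insert, Finset.mem_singleton, not_or]
    exact ⟨⟨hav, haP⟩, hxa.1.symm, hya.1.symm⟩
  obtain ⟨E, hE, haE⟩ := exists_comp_notMem hQvs haQ hFn
  have hEmem : ∀ v ∈ E, v ∉ P ∧ v ≠ x ∧ v ≠ y := by
    intro v hv
    have h := hE.1 hv
    simp only [Finset.mem_sdiff, Finset.mem_insert, Finset.mem_singleton, not_or] at h
    exact ⟨h.1.2, h.2.1, h.2.2⟩
  have hsing : ∀ z : V, z = x ∨ z = y → ({z} : Finset V) ≠ {x, y} := by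
    intro z _ e
    have h1 : x ∈ ({z} : Finset V) := by rw [e]; simp
    have h2 : y ∈ ({z} : Finset V) := by rw [e]; simp
    rw [Finset.mem_singleton] at h1 h2
    exact hc.ef.ne (h1.trans h2.symm)
  have hyf : insert y P ∈ Δ := by
    have := C2_add hPall (mem_vs.1 hyv) (hsing y (Or.inr rfl))
    rwa [← Finset.insert_eq] at this
  have hxf : insert x P ∈ Δ := by
    have := C2_add hPall (mem_vs.1 hxv) (hsing x (Or.inl rfl))
    rwa [← Finset.insert_eq] at this
  refine ⟨E, hE.2.1, fun h => (hEmem x h).2.1 rfl, fun h => (hEmem y h).2.2 rfl, haE,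
    fun p hp h => (hEmem p hp).1 ((hPdef p).2 h), fun e he v hev => ?_, C2_touch hc hyf hxP hE, ?_⟩
  · by_cases h1 : v = x
    · exact Or.inr (Or.inl h1)
    by_cases h2 : v = y
    · exact Or.inr (Or.inr (Or.inl h2))
    by_cases h3 : v ∈ P
    · exact Or.inr (Or.inr (Or.inr (hPall v h3)))
    refine Or.inl (hE.mem_of_adj he ?_ hev)
    simp only [Finset.mem_sdiff, Finset.mem_insert, Finset.mem_singleton, not_or]
    exact ⟨⟨(cx.adj_vs hev).2, h3⟩, h1, h2⟩
  · refine C2_touch hc.symm hxf hyP ?_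
    rwa [Finset.pair_comm y x]

end Pool.Agent.Lib.MP_73b196_co.St
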