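import Pool.Agent.Lib.MP_73b196_co.St.Spec

/-!
# A common neighbour of `x` and `y` is a cone vertex of a large side
-/

set_option autoImplicit false

namespace Pool.Agent.Lib.MP_73b196_co.St

theorem tC3 (hA2 : StmtA2) (hC1 : StmtC1) (hC2 : StmtC2) : StmtC3 := by
  intro V _ _ Δ x y p S X Y hA h hM hcl hY hp hxp F hF hFs
  have hcx := h.inP.cx
  obtain ⟨hD, hvD⟩ := hC1 V Δ x y S X Y h hM hcl
  have hSΔ : S ∈ Δ := (hA2 V Δ x y S X Y S h.inP h.ef hM.pms (Finset.Subset.refl _) hcl).1
  have hxS : x ∉ S := Finset.disjoint_left.1 hM.dXS hM.hx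
  have hyS : y ∉ S := fun hy => Finset.disjoint_left.1 hM.dSY hy hM.hy
  have hyX : y ∉ X := fun hy => Finset.disjoint_left.1 hM.dXY hy hM.hy
  have hyXS : y ∉ X ∪ S := by
    rw [Finset.mem_union, not_or]
    exact ⟨hyX, hyS⟩
  have hpx : p ≠ x := fun e => hxS (e ▸ hp)
  have hpy : p ≠ y := fun e => hyS (e ▸ hp)
  -- the complex `D` is smaller
  have hlt : (vs (GX Δ X S x y)).card < (vs Δ).card := by
    refine Finset.card_lt_card ?_
    rw [Finset.ssubset_iff_subset_ne]
    refine ⟨?_, ?_⟩
    · rw [hvD, ← hM.un]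
      intro v hv
      rw [Finset.mem_insert] at hv
      rcases hv with rfl | hv
      · exact Finset.mem_union_right _ hM.hy
      · exact Finset.mem_union_left _ hv
    · intro e
      refine hY ?_
      refine Finset.eq_singleton_iff_unique_mem.2 ⟨hM.hy, ?_⟩
      intro v hv
      have h1 : v ∈ vs Δ := by
        rw [← hM.un]
        exact Finset.mem_union_right _ hv
      rw [← e, hvD, Finset.mem_insert, Finset.mem_union] at h1
      rcases h1 with h1 | h1 | h1
      · exact h1
      · exact absurd hv (Finset.disjoint_left.1 hM.dXY h1)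
      · exact absurd hv (Finset.disjoint_left.1 hM.dSY h1)
  have hxpD : adj (GX Δ X S x y) x p := by
    refine ⟨hpx.symm, Or.inl ⟨hxp.2, ?_⟩⟩
    refine Finset.insert_subset (Finset.mem_union_left _ hM.hx) (Finset.singleton_subset_iff.2 ?_)
    exact Finset.mem_union_right _ hp
  have hypD : adj (GX Δ X S x y) y p := by
    refine ⟨hpy.symm, Or.inr (Or.inl ?_)⟩
    refine Finset.insert_subset (Finset.mem_insert_self _ _) (Finset.singleton_subset_iff.2 ?_)
    exact Finset.mem_insert_of_mem hp
  have hq := hA (GX Δ X S x y) x y hlt hD ⟨p, hxpD, hypD⟩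
  -- `p` is a cone vertex of `D` minus `xy`
  have hpD : ApexD (GX Δ X S x y) x y p := by
    by_contra hn
    obtain ⟨E, -, hxE, -, hpE, -, hnb, -, htE⟩ := hC2 V (GX Δ X S x y) x y p
      (fun Γ x y h1 h2 h3 => hA Γ x y (h1.trans hlt) h2 h3) hD hq hxpD hypD hn
    obtain ⟨e, he, hye⟩ := touch_single_left.1 htE
    have heS : e ∈ S := by
      rcases hye.2 with h1 | h1 | h1
      · exact absurd (h1.2 (Finset.mem_insert_self _ _)) hyXS
      · have h2 := h1 (Finset.mem_insert_of_mem (Finset.mem_singleton_self e))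
        rw [Finset.mem_insert] at h2
        rcases h2 with h2 | h2
        · exact absurd h2.symm hye.1
        · exact h2
      · exfalso
        have h2 : e ∈ ({x, y} : Finset V) := by
          rw [← h1]
          simp
        rw [Finset.mem_insert, Finset.mem_singleton] at h2
        rcases h2 with h2 | h2
        · exact hxE (h2 ▸ he)
        · exact hye.1 h2.symm
    have hep : adj (GX Δ X S x y) e p := by
      refine ⟨fun e' => hpE (e' ▸ he), Or.inr (Or.inl ?_)⟩
      refine Finset.insert_subset (Finset.mem_insert_of_mem heS) (Finset.singleton_subset_iff.2 ?_)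
      exact Finset.mem_insert_of_mem hp
    rcases hnb e he p hep with h1 | h1 | h1 | h1
    · exact hpE h1
    · exact hpx h1
    · exact hpy h1
    · exact hn h1
  have hyF : y ∉ F := fun hy => hyXS (hFs hy)
  have hne : F ≠ {x, y} := by
    rintro rfl
    exact hyF (by simp)
  rcases hpD.2.2 F (Or.inl ⟨hF, hFs⟩) hne with h1 | h1 | h1
  · exact h1.1
  · refine hcx.down S hSΔ _ ?_
    intro v hv
    have h2 := h1 hv
    rw [Finset.mem_insert] at h2
    rcases h2 with rfl | h2
    · exfalso
      rw [Finset.mem_insert] at hv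
      rcases hv with h3 | h3
      · exact hpy h3.symm
      · exact hyF h3
    · exact h2
  · exfalso
    have h2 : p ∈ ({x, y} : Finset V) := by
      rw [← h1]
      exact Finset.mem_insert_self _ _
    rw [Finset.mem_insert, Finset.mem_singleton] at h2
    rcases h2 with h2 | h2
    · exact hpx h2
    · exact hpy h2

end Pool.Agent.Lib.MP_73b196_co.St
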