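import Pool.Agent.Lib.MP_73b196_co.St.Spec

/-!
# C4: a clique separator with two large sides
-/

set_option autoImplicit false

namespace Pool.Agent.Lib.MP_73b196_co.St

theorem tC4 (h3 : StmtC3) : StmtC4 := by
  intro V _ _ Δ x y S X Y hH hc ⟨p, hxp, hyp⟩ hm hS hX hY
  have hpS : p ∈ S := hm.toSpl.mem_of_common hxp hyp
  refine ⟨p, hxp.1.symm, hyp.1.symm, fun F hF hne => ?_⟩
  rcases hm.face F hF with h | h | h
  · exact h3 V Δ x y p S X Y hH hc hm hS hY hpS hxp F hF h
  · exact h3 V Δ y x p S Y X hH hc.symm hm.symm hS hX hpS hyp F hF h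
  · exact absurd h hne

end Pool.Agent.Lib.MP_73b196_co.St
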