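import Pool.Agent.Lib.MP_73b196_co.St.Spec

/-!
# Statement C5: the contraction of `y` to `s`
-/

set_option autoImplicit false

namespace Pool.Agent.Lib.MP_73b196_co.St

variable {V : Type} [Fintype V] [DecidableEq V] {Δ : Set (Finset V)} {x y s t a b c : V}
  {S X B C F : Finset V}

/-- The complex `D`. -/
def C5_D (Δ : Set (Finset V)) (x y s : V) : Set (Finset V) :=
  insert {x, s} (ind Δ (vs Δ \ {y}))

theorem C5_D_mem (h : IsCx Δ) (hF : F ∈ Δ) (hy : y ∉ F) : F ∈ C5_D Δ x y s := by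
  right
  refine ⟨hF, fun v hv => ?_⟩
  rw [Finset.mem_sdiff, Finset.mem_singleton]
  exact ⟨h.sub_vs hF hv, fun e => hy (e ▸ hv)⟩

theorem C5_D_adj (h : IsCx Δ) (hab : adj Δ a b) (ha : a ≠ y) (hb : b ≠ y) :
    adj (C5_D Δ x y s) a b := by
  refine ⟨hab.1, C5_D_mem h hab.2 ?_⟩
  rw [Finset.mem_insert, Finset.mem_singleton, not_or]
  exact ⟨ha.symm, hb.symm⟩

theorem C5_vs (hxs : x ≠ s) : vs (C5_D Δ x y s) = vs Δ \ {y} := by
  ext v
  rw [mem_vs]
  constructor
  · rintro (h | h)
    · exfalso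
      have hx : x ∈ ({v} : Finset V) := by rw [h]; simp
      have hs : s ∈ ({v} : Finset V) := by rw [h]; simp
      rw [Finset.mem_singleton] at hx hs
      exact hxs (hx.trans hs.symm)
    · exact h.2 (Finset.mem_singleton_self v)
  · intro h
    right
    exact ⟨mem_vs.1 (Finset.mem_sdiff.1 h).1, Finset.singleton_subset_iff.2 h⟩

/-- The neighbours of `y`. -/
theorem C5_nbr (hcx : IsCx Δ) (hm : MS Δ x y S X {y}) (h : adj Δ y c) : c = x ∨ c ∈ S := by
  have hc : c ∈ vs Δ := (hcx.adj_vs h).2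
  rw [← hm.un, Finset.mem_union, Finset.mem_union, Finset.mem_singleton] at hc
  rcases hc with (hc | hc) | hc
  · exact Or.inl (hm.no_edge hc (Finset.mem_singleton_self y) (adj_symm h)).1
  · exact Or.inr hc
  · exact absurd hc.symm h.1

theorem C5_eq_con (hc : Ctx Δ x y) (hm : MS Δ x y S X {y}) (hSΔ : S ∈ Δ) (hs : s ∈ S) :
    C5_D Δ x y s = con Δ {y, s} s := by
  have hcx := hc.inP.cx
  have hyS : y ∉ S := fun h => Finset.disjoint_left.1 hm.dSY h (Finset.mem_singleton_self y)
  have hxS : x ∉ S := fun h => Finset.disjoint_left.1 hm.dXS hm.hx h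
  have hsx : x ≠ s := fun e => hxS (e ▸ hs)
  have hsy : s ≠ y := fun e => hyS (e ▸ hs)
  have hxy : x ≠ y := hc.ef.ne
  have hfix : ∀ v, v ≠ y → (if v ∈ ({y, s} : Finset V) then s else v) = v := by
    intro v hv
    by_cases hvs : v = s
    · rw [hvs]
      simp
    · rw [if_neg]
      rw [Finset.mem_insert, Finset.mem_singleton, not_or]
      exact ⟨hv, hvs⟩
  have hyim : (if y ∈ ({y, s} : Finset V) then s else y) = s := by
    rw [if_pos (Finset.mem_insert_self _ _)]
  have himg : ∀ F : Finset V, y ∉ F →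
      F.image (fun v => if v ∈ ({y, s} : Finset V) then s else v) = F := by
    intro F hyF
    ext v
    rw [Finset.mem_image]
    constructor
    · rintro ⟨u, hu, rfl⟩
      rw [hfix u fun e => hyF (e ▸ hu)]
      exact hu
    · intro hv
      exact ⟨v, hv, hfix v fun e => hyF (e ▸ hv)⟩
  have himg2 : ({x, y} : Finset V).image (fun v => if v ∈ ({y, s} : Finset V) then s else v)
      = {x, s} := by
    rw [Finset.image_insert, Finset.image_singleton, hfix x hxy, hyim]
  ext G
  constructor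
  · rintro (h | h)
    · exact ⟨{x, y}, hc.ef.mem, himg2.trans h.symm⟩
    · refine ⟨G, h.1, himg G fun hy => ?_⟩
      exact (Finset.mem_sdiff.1 (h.2 hy)).2 (Finset.mem_singleton_self y)
  · rintro ⟨F, hF, rfl⟩
    by_cases hyF : y ∈ F
    · rcases hm.face F hF with hf | hf | hf
      · exfalso
        rcases Finset.mem_union.1 (hf hyF) with h' | h'
        · exact Finset.disjoint_left.1 hm.dXY h' (Finset.mem_singleton_self y)
        · exact hyS h'
      · have h1 : F.image (fun v => if v ∈ ({y, s} : Finset V) then s else v) ⊆ S := by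
          intro v hv
          obtain ⟨u, hu, rfl⟩ := Finset.mem_image.1 hv
          have h2 := hf hu
          rw [Finset.mem_union, Finset.mem_singleton] at h2
          rcases h2 with h2 | h2
          · rw [h2, hyim]
            exact hs
          · rw [hfix u fun e => hyS (e ▸ h2)]
            exact h2
        exact C5_D_mem hcx (hcx.down S hSΔ _ h1) fun h => hyS (h1 h)
      · rw [hf, himg2]
        exact Or.inl rfl
    · rw [himg F hyF]
      exact C5_D_mem hcx hF hyF

theorem C5_un (hU : B ∪ C = (vs Δ \ {y}) \ F) (hy : y ∈ vs Δ) (hyF : y ∉ F) :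
    C ∪ (B ∪ {y}) = vs Δ \ F := by
  rw [← Finset.union_assoc, Finset.union_comm C B, hU]
  ext v
  rw [Finset.mem_union, Finset.mem_sdiff, Finset.mem_sdiff, Finset.mem_sdiff, Finset.mem_singleton]
  constructor
  · rintro (h | h)
    · exact ⟨h.1.1, h.2⟩
    · rw [h]
      exact ⟨hy, hyF⟩
  · intro h
    by_cases e : v = y
    · exact Or.inr e
    · exact Or.inl ⟨⟨h.1, e⟩, h.2⟩

/-- `F = {x, s}`; the vertex `s'` is in the part `B`. -/
theorem C5_one (hc : Ctx Δ x y) (hN : NoPair Δ) (hm : MS Δ x y S X {y}) (hS : Clq Δ S)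
    (hs : s ∈ S) (hxs : ¬ adj Δ x s) (ht : t ∈ S)
    (hU : B ∪ C = (vs Δ \ {y}) \ {x, s}) (hd : Disjoint B C) (hC : C.Nonempty)
    (hn : ¬ touch (C5_D Δ x y s) B C) (htB : t ∈ B) : False := by
  have hcx := hc.inP.cx
  have hyS : y ∉ S := fun h => Finset.disjoint_left.1 hm.dSY h (Finset.mem_singleton_self y)
  have hxS : x ∉ S := fun h => Finset.disjoint_left.1 hm.dXS hm.hx h
  have hsx : x ≠ s := fun e => hxS (e ▸ hs)
  have hsy : s ≠ y := fun e => hyS (e ▸ hs)
  have hxy : x ≠ y := hc.ef.ne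
  have hmem : ∀ v, v ∈ B ∨ v ∈ C ↔ (v ∈ vs Δ ∧ v ≠ y) ∧ v ≠ x ∧ v ≠ s := by
    intro v
    rw [← Finset.mem_union, hU, Finset.mem_sdiff, Finset.mem_sdiff, Finset.mem_singleton,
      Finset.mem_insert, Finset.mem_singleton, not_or]
  have hconn := hN x hc.mem_left s (hS.1 hs) hsx hxs
  have htouch := hconn.touch_of (A := C) (B := B ∪ {y}) hC
    ⟨y, Finset.mem_union_right _ (Finset.mem_singleton_self y)⟩ (by
      rw [Finset.disjoint_left]
      intro v hv hv'
      rw [Finset.mem_union, Finset.mem_singleton] at hv'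
      rcases hv' with hv' | hv'
      · exact Finset.disjoint_left.1 hd hv' hv
      · exact ((hmem v).1 (Or.inr hv)).1.2 hv') (C5_un hU hc.mem_right (by
      rw [Finset.mem_insert, Finset.mem_singleton, not_or]
      exact ⟨hxy.symm, hsy.symm⟩))
  obtain ⟨u, hu, v, hv, huv⟩ := htouch
  have huy : u ≠ y := ((hmem u).1 (Or.inr hu)).1.2
  rw [Finset.mem_union, Finset.mem_singleton] at hv
  rcases hv with hv | hv
  · exact hn ⟨v, hv, u, hu, C5_D_adj hcx (adj_symm huv) ((hmem v).1 (Or.inl hv)).1.2 huy⟩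
  · rw [hv] at huv
    rcases C5_nbr hcx hm (adj_symm huv) with h | h
    · exact ((hmem u).1 (Or.inr hu)).2.1 h
    · have htu : t ≠ u := fun e => Finset.disjoint_left.1 hd htB (e ▸ hu)
      exact hn ⟨t, htB, u, hu, C5_D_adj hcx (hS.2 t ht u h htu) (fun e => hyS (e ▸ ht)) huy⟩

/-- `F ∈ Δ`, `s ∉ F`; the vertex `s` is in the part `B`. -/
theorem C5_two (hc : Ctx Δ x y) (hm : MS Δ x y S X {y}) (hS : Clq Δ S)
    (hs : s ∈ S) (hF : F ∈ Δ) (hyF : y ∉ F)
    (hU : B ∪ C = (vs Δ \ {y}) \ F) (hd : Disjoint B C) (hC : C.Nonempty)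
    (hn : ¬ touch (C5_D Δ x y s) B C) (hsB : s ∈ B) : False := by
  have hcx := hc.inP.cx
  have hyS : y ∉ S := fun h => Finset.disjoint_left.1 hm.dSY h (Finset.mem_singleton_self y)
  have hxS : x ∉ S := fun h => Finset.disjoint_left.1 hm.dXS hm.hx h
  have hsx : x ≠ s := fun e => hxS (e ▸ hs)
  have hsy : s ≠ y := fun e => hyS (e ▸ hs)
  have hxy : x ≠ y := hc.ef.ne
  have hmem : ∀ v, v ∈ B ∨ v ∈ C ↔ (v ∈ vs Δ ∧ v ≠ y) ∧ v ∉ F := by
    intro v
    rw [← Finset.mem_union, hU, Finset.mem_sdiff, Finset.mem_sdiff, Finset.mem_singleton]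
  have hconn := hc.irr.conn F hF
  have htouch := hconn.touch_of (A := C) (B := B ∪ {y}) hC
    ⟨y, Finset.mem_union_right _ (Finset.mem_singleton_self y)⟩ (by
      rw [Finset.disjoint_left]
      intro v hv hv'
      rw [Finset.mem_union, Finset.mem_singleton] at hv'
      rcases hv' with hv' | hv'
      · exact Finset.disjoint_left.1 hd hv' hv
      · exact ((hmem v).1 (Or.inr hv)).1.2 hv') (C5_un hU hc.mem_right hyF)
  obtain ⟨u, hu, v, hv, huv⟩ := htouch
  have huy : u ≠ y := ((hmem u).1 (Or.inr hu)).1.2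
  rw [Finset.mem_union, Finset.mem_singleton] at hv
  rcases hv with hv | hv
  · exact hn ⟨v, hv, u, hu, C5_D_adj hcx (adj_symm huv) ((hmem v).1 (Or.inl hv)).1.2 huy⟩
  · rw [hv] at huv
    rcases C5_nbr hcx hm (adj_symm huv) with h | h
    · refine hn ⟨s, hsB, u, hu, ?_, ?_⟩
      · rw [h]
        exact hsx.symm
      · rw [h, Finset.pair_comm]
        exact Or.inl rfl
    · have hsu : s ≠ u := fun e => Finset.disjoint_left.1 hd hsB (e ▸ hu)
      exact hn ⟨s, hsB, u, hu, C5_D_adj hcx (hS.2 s hs u h hsu) hsy huy⟩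

/-- `F ∈ Δ`, `s ∈ F`; the vertex `x` is in the part `B`. -/
theorem C5_three (hc : Ctx Δ x y) (hm : MS Δ x y S X {y}) (hS : Clq Δ S)
    (hF : F ∈ Δ) (hyF : y ∉ F) (hU : B ∪ C = (vs Δ \ {y}) \ F) (hd : Disjoint B C)
    (hC : C.Nonempty) (hn : ¬ touch (C5_D Δ x y s) B C) (hxB : x ∈ B) :
    ¬ S ⊆ F ∧ ∃ X' Y', Spl Δ x y F X' Y' := by
  have hcx := hc.inP.cx
  have hyS : y ∉ S := fun h => Finset.disjoint_left.1 hm.dSY h (Finset.mem_singleton_self y)
  have hxS : x ∉ S := fun h => Finset.disjoint_left.1 hm.dXS hm.hx h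
  have hxy : x ≠ y := hc.ef.ne
  have hmem : ∀ v, v ∈ B ∨ v ∈ C ↔ (v ∈ vs Δ ∧ v ≠ y) ∧ v ∉ F := by
    intro v
    rw [← Finset.mem_union, hU, Finset.mem_sdiff, Finset.mem_sdiff, Finset.mem_singleton]
  have hdl : ∀ v, v ∈ B → v ∉ C := fun v h => Finset.disjoint_left.1 hd h
  have hnt : ∀ u ∈ B, ∀ v ∈ C, ¬ adj Δ u v := by
    intro u hu v hv huv
    exact hn ⟨u, hu, v, hv, C5_D_adj hcx huv ((hmem u).1 (Or.inl hu)).1.2
      ((hmem v).1 (Or.inr hv)).1.2⟩
  have hconn := hc.irr.conn F hF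
  have htouch := hconn.touch_of (A := C) (B := B ∪ {y}) hC
    ⟨y, Finset.mem_union_right _ (Finset.mem_singleton_self y)⟩ (by
      rw [Finset.disjoint_left]
      intro v hv hv'
      rw [Finset.mem_union, Finset.mem_singleton] at hv'
      rcases hv' with hv' | hv'
      · exact Finset.disjoint_left.1 hd hv' hv
      · exact ((hmem v).1 (Or.inr hv)).1.2 hv') (C5_un hU hc.mem_right hyF)
  obtain ⟨u, hu, v, hv, huv⟩ := htouch
  rw [Finset.mem_union, Finset.mem_singleton] at hv
  have huS : u ∈ S := by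
    rcases hv with hv | hv
    · exact absurd (adj_symm huv) (hnt v hv u hu)
    · rw [hv] at huv
      rcases C5_nbr hcx hm (adj_symm huv) with h | h
      · exact absurd (h ▸ hu) (hdl x hxB)
      · exact h
  have hSB : ∀ w ∈ S, w ∉ B := by
    intro w hw hwB
    have hwu : w ≠ u := fun e => hdl w hwB (e ▸ hu)
    exact hnt w hwB u hu (hS.2 w hw u huS hwu)
  refine ⟨fun h => ((hmem u).1 (Or.inr hu)).2 (h huS), B, C ∪ {y}, ?_⟩
  refine ⟨?_, ?_, ?_, ?_, hxB, Finset.mem_union_right _ (Finset.mem_singleton_self y), ?_⟩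
  · have h1 := C5_un hU hc.mem_right hyF
    have h2 : F ∪ (vs Δ \ F) = vs Δ := Finset.union_sdiff_of_subset (hcx.sub_vs hF)
    rw [← h2, ← h1]
    ext w
    simp only [Finset.mem_union, Finset.mem_singleton]
    clear * -
    tauto
  · rw [Finset.disjoint_left]
    intro w hw
    exact ((hmem w).1 (Or.inl hw)).2
  · rw [Finset.disjoint_left]
    intro w hw
    rw [Finset.mem_union, Finset.mem_singleton, not_or]
    exact ⟨hdl w hw, ((hmem w).1 (Or.inl hw)).1.2⟩
  · rw [Finset.disjoint_left]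
    intro w hw hw'
    rw [Finset.mem_union, Finset.mem_singleton] at hw'
    rcases hw' with hw' | hw'
    · exact ((hmem w).1 (Or.inr hw')).2 hw
    · exact hyF (hw' ▸ hw)
  · intro G hG
    by_contra hcon
    rw [not_or, not_or, Finset.not_subset, Finset.not_subset] at hcon
    obtain ⟨⟨g, hgG, hg⟩, ⟨k, hkG, hk⟩, hne⟩ := hcon
    have hgV := hcx.sub_vs hG hgG
    have hkV := hcx.sub_vs hG hkG
    rw [Finset.mem_union, not_or] at hg
    rw [Finset.mem_union, Finset.mem_union, Finset.mem_singleton, not_or, not_or] at hk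
    have hkB : k ∈ B := ((hmem k).2 ⟨⟨hkV, hk.1.2⟩, hk.2⟩).resolve_right hk.1.1
    by_cases hgy : g = y
    · rw [hgy] at hgG
      have hky : adj Δ y k := hcx.adj_of_face hG hgG hkG fun e => hk.1.2 e.symm
      rcases C5_nbr hcx hm hky with h | h
      · exact hne (hc.ef.facet G hG (h ▸ hkG) hgG)
      · exact hSB k h hkB
    · have hgC : g ∈ C := ((hmem g).2 ⟨⟨hgV, hgy⟩, hg.2⟩).resolve_left hg.1
      exact hnt k hkB g hgC (hcx.adj_of_face hG hkG hgG fun e => hk.1.1 (e ▸ hgC))

theorem tC5 : StmtC5 := by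
  intro V _ _ Δ x y s s' S X hc hN hm hS hSΔ hs hxs hs' hss
  have hcx := hc.inP.cx
  have hyS : y ∉ S := fun h => Finset.disjoint_left.1 hm.dSY h (Finset.mem_singleton_self y)
  have hxS : x ∉ S := fun h => Finset.disjoint_left.1 hm.dXS hm.hx h
  have hsx : x ≠ s := fun e => hxS (e ▸ hs)
  have hsy : s ≠ y := fun e => hyS (e ▸ hs)
  have hxy : x ≠ y := hc.ef.ne
  have hxV := hc.mem_left
  have hyV := hc.mem_right
  have hsV := hS.1 hs
  have hvs := C5_vs (Δ := Δ) (y := y) hsx
  have hys : adj Δ y s := adj_symm (touch_single.1 (hm.tY s hs))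
  have hInP : InP (C5_D Δ x y s) := by
    rw [C5_eq_con hc hm hSΔ hs]
    exact hc.inP.con ((conn_single hsV).insert hyV (touch_single.2 hys)) (by simp)
  have hEF : EdgeFacet (C5_D Δ x y s) x s := by
    refine ⟨hsx, Or.inl rfl, ?_⟩
    intro F hF hx hs
    rcases hF with hF | hF
    · exact hF
    · exact absurd (hcx.adj_of_face hF.1 hx hs hsx) hxs
  by_contra hcon
  rw [not_or] at hcon
  obtain ⟨hcon1, hcon2⟩ := hcon
  apply hcon1
  refine ⟨hInP, ⟨?_, ?_⟩, hEF⟩
  · intro p hp
    change Apex (C5_D Δ x y s) p at hp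
    have h1 := hEF.facet _ (hp {x, s} (Or.inl rfl)) (by simp) (by simp)
    have h2 : p ∈ ({x, s} : Finset V) := by
      rw [← h1]
      exact Finset.mem_insert_self _ _
    rw [Finset.mem_insert, Finset.mem_singleton] at h2
    rcases h2 with h2 | h2
    · rw [h2] at hp
      have h3 : ({s, s'} : Finset V) ∈ C5_D Δ x y s := by
        refine C5_D_mem hcx (hS.2 s hs s' hs' hss.symm).2 ?_
        rw [Finset.mem_insert, Finset.mem_singleton, not_or]
        exact ⟨hsy.symm, fun e => hyS (e ▸ hs')⟩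
      have h4 := hEF.facet _ (hp _ h3) (by simp) (by simp)
      have h5 : s' ∈ ({x, s} : Finset V) := by
        rw [← h4]
        simp
      rw [Finset.mem_insert, Finset.mem_singleton] at h5
      rcases h5 with h5 | h5
      · exact hxS (h5 ▸ hs')
      · exact hss h5
    · rw [h2] at hp
      obtain ⟨q, hq, hsq⟩ := touch_single_left.1 (hm.tX s hs)
      have hqx : q ≠ x := by
        intro e
        rw [e] at hsq
        exact hxs (adj_symm hsq)
      obtain ⟨r, hr, hxr⟩ := touch_single_left.1 (hm.cX.2.2 {x} (Finset.singleton_subset_iff.2 hm.hx)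
        (Finset.singleton_nonempty x) ⟨q, by
          rw [Finset.mem_sdiff, Finset.mem_singleton]
          exact ⟨hq, hqx⟩⟩)
      rw [Finset.mem_sdiff, Finset.mem_singleton] at hr
      have hry : r ≠ y := by
        intro e
        exact Finset.disjoint_left.1 hm.dXY hr.1 (e ▸ Finset.mem_singleton_self y)
      have h3 : ({x, r} : Finset V) ∈ C5_D Δ x y s := by
        refine C5_D_mem hcx hxr.2 ?_
        rw [Finset.mem_insert, Finset.mem_singleton, not_or]
        exact ⟨hxy.symm, hry.symm⟩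
      have h4 := hEF.facet _ (hp _ h3) (by simp) (by simp)
      have h5 : r ∈ ({x, s} : Finset V) := by
        rw [← h4]
        simp
      rw [Finset.mem_insert, Finset.mem_singleton] at h5
      rcases h5 with h5 | h5
      · exact hr.2 h5
      · exact Finset.disjoint_left.1 hm.dXS hr.1 (h5 ▸ hs)
  · intro F hF
    change Conn (C5_D Δ x y s) (vs (C5_D Δ x y s) \ F)
    by_contra hnc
    have hne : (vs (C5_D Δ x y s) \ F).Nonempty := by
      rw [hvs]
      rcases hF with hF | hF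
      · refine ⟨s', ?_⟩
        rw [hF, Finset.mem_sdiff, Finset.mem_sdiff, Finset.mem_singleton, Finset.mem_insert,
          Finset.mem_singleton, not_or]
        exact ⟨⟨hS.1 hs', fun e => hyS (e ▸ hs')⟩, fun e => hxS (e ▸ hs'), hss⟩
      · by_cases hxF : x ∈ F
        · refine ⟨s, ?_⟩
          rw [Finset.mem_sdiff, Finset.mem_sdiff, Finset.mem_singleton]
          exact ⟨⟨hsV, hsy⟩, fun h => hxs (hcx.adj_of_face hF.1 hxF h hsx)⟩
        · refine ⟨x, ?_⟩
          rw [Finset.mem_sdiff, Finset.mem_sdiff, Finset.mem_singleton]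
          exact ⟨⟨hxV, hxy⟩, hxF⟩
    obtain ⟨B, C, hU, hd, hB, hC, hnt⟩ := not_conn Finset.sdiff_subset hne hnc
    rw [hvs] at hU
    have hU' : C ∪ B = (vs Δ \ {y}) \ F := by rw [Finset.union_comm, hU]
    have hnt' : ¬ touch (C5_D Δ x y s) C B := fun h => hnt (touch_symm h)
    rcases hF with hF | hF
    · rw [hF] at hU hU'
      have h1 : s' ∈ B ∪ C := by
        rw [hU, Finset.mem_sdiff, Finset.mem_sdiff, Finset.mem_singleton, Finset.mem_insert,
          Finset.mem_singleton, not_or]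
        exact ⟨⟨hS.1 hs', fun e => hyS (e ▸ hs')⟩, fun e => hxS (e ▸ hs'), hss⟩
      rcases Finset.mem_union.1 h1 with h1 | h1
      · exact C5_one hc hN hm hS hs hxs hs' hU hd hC hnt h1
      · exact C5_one hc hN hm hS hs hxs hs' hU' hd.symm hB hnt' h1
    · have hyF : y ∉ F := fun h => (Finset.mem_sdiff.1 (hF.2 h)).2 (Finset.mem_singleton_self y)
      by_cases hsF : s ∈ F
      · have hxF : x ∉ F := fun h => hxs (hcx.adj_of_face hF.1 h hsF hsx)
        have h1 : x ∈ B ∪ C := by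
          rw [hU, Finset.mem_sdiff, Finset.mem_sdiff, Finset.mem_singleton]
          exact ⟨⟨hxV, hxy⟩, hxF⟩
        rcases Finset.mem_union.1 h1 with h1 | h1
        · exact hcon2 ⟨F, hF.1, hsF, C5_three hc hm hS hF.1 hyF hU hd hC hnt h1⟩
        · exact hcon2 ⟨F, hF.1, hsF, C5_three hc hm hS hF.1 hyF hU' hd.symm hB hnt' h1⟩
      · have h1 : s ∈ B ∪ C := by
          rw [hU, Finset.mem_sdiff, Finset.mem_sdiff, Finset.mem_singleton]
          exact ⟨⟨hsV, hsy⟩, hsF⟩
        rcases Finset.mem_union.1 h1 with h1 | h1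
        · exact C5_two hc hm hS hs hF.1 hyF hU hd hC hnt h1
        · exact C5_two hc hm hS hs hF.1 hyF hU' hd.symm hB hnt' h1

end Pool.Agent.Lib.MP_73b196_co.St
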