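import Pool.Agent.Lib.MP_73b196_co.St.Spec

/-!
# Statement C6: clique separators with the side `{y}`
-/

set_option autoImplicit false

namespace Pool.Agent.Lib.MP_73b196_co.St

theorem C6_hypA_mono {V : Type} [Fintype V] [DecidableEq V] {m n : ℕ} (h : HypA V n) (hmn : m ≤ n) :
    HypA V m := fun Δ x y hc hctx hp => h Δ x y (lt_of_lt_of_le hc hmn) hctx hp

theorem C6_fill_three {V : Type} [DecidableEq V] {Δ : Set (Finset V)} {A : Finset V} {a b : V}
    (h : fill Δ [{a}, A, {b}]) : ∃ F ∈ Δ, a ∈ F ∧ b ∈ F ∧ ∃ e ∈ A, e ∈ F := by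
  obtain ⟨F, hF, hL⟩ := h
  have h1 := hL {a} (by simp)
  have h2 := hL A (by simp)
  have h3 := hL {b} (by simp)
  obtain ⟨u, hu⟩ := h1
  obtain ⟨v, hv⟩ := h2
  obtain ⟨w, hw⟩ := h3
  rw [Finset.mem_inter, Finset.mem_singleton] at hu hw
  rw [Finset.mem_inter] at hv
  exact ⟨F, hF, hu.2 ▸ hu.1, hw.2 ▸ hw.1, v, hv.2, hv.1⟩

/-- `{x}`, `{y}`, `A` is not filled. -/
theorem C6_not_fill {V : Type} [Fintype V] [DecidableEq V] {Δ : Set (Finset V)} {x y : V}
    {A : Finset V} (h : EdgeFacet Δ x y) (hx : x ∉ A) (hy : y ∉ A) : ¬ fill Δ [{x}, {y}, A] := by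
  rintro ⟨F, hF, hL⟩
  have h1 := hL {x} (by simp)
  have h2 := hL {y} (by simp)
  have h3 := hL A (by simp)
  obtain ⟨u, hu⟩ := h1
  obtain ⟨w, hw⟩ := h2
  obtain ⟨v, hv⟩ := h3
  rw [Finset.mem_inter, Finset.mem_singleton] at hu hw
  rw [Finset.mem_inter] at hv
  have h4 := h.facet F hF (hu.2 ▸ hu.1) (hw.2 ▸ hw.1)
  have h5 := hv.1
  rw [h4, Finset.mem_insert, Finset.mem_singleton] at h5
  rcases h5 with h5 | h5
  · exact hx (h5 ▸ hv.2)
  · exact hy (h5 ▸ hv.2)

/-- Faces inside the contraction. -/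
theorem C6_D_mem {V : Type} [Fintype V] [DecidableEq V] {Δ : Set (Finset V)} {x y s : V}
    {F : Finset V} (h : IsCx Δ) (hF : F ∈ Δ) (hy : y ∉ F) :
    F ∈ insert {x, s} (ind Δ (vs Δ \ {y})) := by
  right
  refine ⟨hF, fun v hv => ?_⟩
  rw [Finset.mem_sdiff, Finset.mem_singleton]
  exact ⟨h.sub_vs hF hv, fun e => hy (e ▸ hv)⟩

theorem C6_vs_D {V : Type} [Fintype V] [DecidableEq V] {Δ : Set (Finset V)} {x y s : V}
    (hxs : x ≠ s) : vs (insert {x, s} (ind Δ (vs Δ \ {y}))) = vs Δ \ {y} := by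
  ext v
  rw [mem_vs]
  constructor
  · rintro (h | h)
    · exfalso
      have hx : x ∈ ({v} : Finset V) := by rw [h]; simp
      have hs : s ∈ ({v} : Finset V) := by rw [h]; simp
      rw [Finset.mem_singleton] at hx hs
      exact hxs (hx.trans hs.symm)
    · exact h.2 (Finset.mem_singleton_self v)
  · intro h
    right
    exact ⟨mem_vs.1 (Finset.mem_sdiff.1 h).1, Finset.singleton_subset_iff.2 h⟩

/-- The first case of `C5`. -/
theorem C6_first (h2 : StmtA2) (h5 : StmtC2) {V : Type} [Fintype V] [DecidableEq V]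
    {Δ : Set (Finset V)} {x y s p : V} {S X : Finset V} (hA : HypA V (vs Δ).card)
    (hc : Ctx Δ x y) (hm : MS Δ x y S X {y}) (hS : Clq Δ S) (hs : s ∈ S) (hp : p ∈ S)
    (hxs : ¬ adj Δ x s) (hxp : adj Δ x p) (hyp : adj Δ y p)
    (hD : Ctx (insert {x, s} (ind Δ (vs Δ \ {y}))) x s) : ∃ q, ApexD Δ x y q := by
  have hcx := hc.inP.cx
  have hyS : y ∉ S := fun h => Finset.disjoint_left.1 hm.dSY h (Finset.mem_singleton_self y)
  have hxS : x ∉ S := fun h => Finset.disjoint_left.1 hm.dXS hm.hx h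
  have hsx : x ≠ s := fun e => hxS (e ▸ hs)
  have hsp : s ≠ p := fun e => hxs (e ▸ hxp)
  have hpy : p ≠ y := fun e => hyS (e ▸ hp)
  have hpx : p ≠ x := fun e => hxS (e ▸ hp)
  have hsy : s ≠ y := fun e => hyS (e ▸ hs)
  have hxy : x ≠ y := hc.ef.ne
  obtain ⟨hSΔ, -, F0, hF0, hSF0, hyF0⟩ := h2 V Δ x y S X {y} S hc.inP hc.ef hm.pms
    (Finset.Subset.refl S) hS
  have hySΔ : insert y S ∈ Δ := by
    refine hcx.down F0 hF0 _ (Finset.insert_subset ?_ hSF0)
    obtain ⟨u, hu⟩ := hyF0
    rw [Finset.mem_inter, Finset.mem_singleton] at hu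
    exact hu.2 ▸ hu.1
  have hvs := C6_vs_D (Δ := Δ) (y := y) hsx
  have hcard : (vs (insert {x, s} (ind Δ (vs Δ \ {y})))).card < (vs Δ).card := by
    rw [hvs]
    apply Finset.card_lt_card
    refine ⟨Finset.sdiff_subset, fun h => ?_⟩
    have := h hc.mem_right
    rw [Finset.mem_sdiff] at this
    exact this.2 (Finset.mem_singleton_self y)
  have hxpD : adj (insert {x, s} (ind Δ (vs Δ \ {y}))) x p := by
    refine ⟨hpx.symm, C6_D_mem hcx hxp.2 ?_⟩
    rw [Finset.mem_insert, Finset.mem_singleton]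
    rintro (e | e)
    · exact hxy e.symm
    · exact hpy e.symm
  have hSpD : ∀ t ∈ S, t ≠ p → adj (insert {x, s} (ind Δ (vs Δ \ {y}))) t p := by
    intro t ht htp
    refine ⟨htp, C6_D_mem hcx (hS.2 t ht p hp htp).2 ?_⟩
    rw [Finset.mem_insert, Finset.mem_singleton]
    rintro (e | e)
    · exact hyS (e ▸ ht)
    · exact hpy e.symm
  by_cases hq : ∃ q ∈ S, ApexD (insert {x, s} (ind Δ (vs Δ \ {y}))) x s q
  · obtain ⟨q, hqS, hq1, hq2, hq3⟩ := hq
    refine ⟨q, hq1, fun e => hyS (e ▸ hqS), fun F hF hne => ?_⟩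
    rcases hm.face F hF with hf | hf | hf
    · have hyF : y ∉ F := by
        intro h
        rcases Finset.mem_union.1 (hf h) with h' | h'
        · exact Finset.disjoint_left.1 hm.dXY h' (Finset.mem_singleton_self y)
        · exact hyS h'
      have h3 : F ≠ {x, s} := by
        intro e
        rw [e] at hF
        exact hxs ⟨hsx, hF⟩
      rcases hq3 F (C6_D_mem hcx hF hyF) h3 with h4 | h4
      · exfalso
        have h6 : q ∈ ({x, s} : Finset V) := by
          rw [← h4]
          exact Finset.mem_insert_self q F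
        rw [Finset.mem_insert, Finset.mem_singleton] at h6
        rcases h6 with h6 | h6
        · exact hq1 h6
        · exact hq2 h6
      · exact h4.1
    · refine hcx.down _ hySΔ _ (Finset.insert_subset (Finset.mem_insert_of_mem hqS) ?_)
      intro v hv
      have := hf hv
      rw [Finset.mem_union, Finset.mem_singleton] at this
      rw [Finset.mem_insert]
      exact this
    · exact absurd hf hne
  · exfalso
    have hpA : ¬ ApexD (insert {x, s} (ind Δ (vs Δ \ {y}))) x s p := fun h => hq ⟨p, hp, h⟩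
    obtain ⟨E, hE, hxE, hsE, hpE, -, hadj, htx, hts⟩ := h5 V
      (insert {x, s} (ind Δ (vs Δ \ {y}))) x s p (C6_hypA_mono hA hcard.le) hD
      (hA _ x s hcard hD ⟨p, hxpD, hSpD s hs hsp⟩) hxpD (hSpD s hs hsp) hpA
    have hEV : E ⊆ vs Δ \ {y} := by
      rw [← hvs]
      exact hE.1
    have hyE : y ∉ E := fun h => (Finset.mem_sdiff.1 (hEV h)).2 (Finset.mem_singleton_self y)
    have hEp : ∀ e ∈ E, ¬ adj Δ e p := by
      intro e he hep
      have h6 : adj (insert {x, s} (ind Δ (vs Δ \ {y}))) e p := by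
        refine ⟨hep.1, C6_D_mem hcx hep.2 ?_⟩
        rw [Finset.mem_insert, Finset.mem_singleton]
        rintro (e' | e')
        · exact hyE (e' ▸ he)
        · exact hpy e'.symm
      rcases hadj e he p h6 with h7 | h7 | h7 | h7
      · exact hpE h7
      · exact hpx h7
      · exact hsp h7.symm
      · exact hpA h7
    have hvsi : vs (ind Δ (vs Δ \ {y})) = vs Δ \ {y} := by
      rw [vs_ind, Finset.inter_eq_right]
      exact Finset.sdiff_subset
    have hEΔ : Conn Δ E := by
      refine (conn_ind hEV).1 ((conn_insert (fun h => hxE h.1) ?_).1 hE)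
      rw [hvsi]
      exact hEV
    have htxΔ : touch Δ {x} E := by
      obtain ⟨a, ha, b, hb, hab⟩ := (touch_insert (fun h => hsE h.2) (fun h => hxE h.2)).1 htx
      exact ⟨a, ha, b, hb, (adj_ind.1 hab).1⟩
    have htsΔ : touch Δ {s} E := by
      obtain ⟨a, ha, b, hb, hab⟩ := (touch_insert (fun h => hsE h.2) (fun h => hxE h.2)).1 hts
      exact ⟨a, ha, b, hb, (adj_ind.1 hab).1⟩
    have hxV := hc.mem_left
    have hyV := hc.mem_right
    have hpV : p ∈ vs Δ := (hcx.adj_vs hxp).2
    have hsV : s ∈ vs Δ := hS.1 hs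
    have hEs : Conn Δ (insert s E) := hEΔ.insert hsV htsΔ
    have hys : adj Δ y s := adj_symm (touch_single.1 (hm.tY s hs))
    have hCM : CM Δ [{x}, {y}, insert s E, {p}] := by
      refine ⟨?_, ?_⟩
      · intro A hA'
        simp only [List.mem_cons, List.not_mem_nil, or_false] at hA'
        rcases hA' with rfl | rfl | rfl | rfl
        · exact conn_single hxV
        · exact conn_single hyV
        · exact hEs
        · exact conn_single hpV
      · simp only [List.pairwise_cons, List.mem_cons, List.not_mem_nil, or_false, forall_eq_or_imp,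
          forall_eq, IsEmpty.forall_iff, implies_true, List.Pairwise.nil, and_true,
          Finset.disjoint_singleton_left, Finset.disjoint_singleton_right, Finset.mem_insert,
          Finset.mem_singleton, not_or]
        refine ⟨⟨⟨hxy, touch_single.2 hc.adj⟩, ⟨⟨hsx, hxE⟩, touch_mono (Finset.Subset.refl _)
          (Finset.subset_insert _ _) htxΔ⟩, hpx.symm, touch_single.2 hxp⟩,
          ⟨⟨⟨hsy.symm, hyE⟩, ?_⟩, hpy.symm, touch_single.2 hyp⟩, ⟨hsp.symm, hpE⟩, ?_⟩
        · exact ⟨y, Finset.mem_singleton_self y, s, Finset.mem_insert_self s E, hys⟩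
        · exact ⟨s, Finset.mem_insert_self s E, p, Finset.mem_singleton_self p, hS.2 s hs p hp hsp⟩
    refine hc.inP.k4three hCM (C6_not_fill hc.ef ?_ ?_) (C6_not_fill hc.ef ?_ ?_) ?_
    · rw [Finset.mem_insert, not_or]
      exact ⟨hsx, hxE⟩
    · rw [Finset.mem_insert, not_or]
      exact ⟨hsy.symm, hyE⟩
    · rw [Finset.mem_singleton]
      exact hpx.symm
    · rw [Finset.mem_singleton]
      exact hpy.symm
    · intro hf
      obtain ⟨F, hF, hxF, hpF, e, he, heF⟩ := C6_fill_three hf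
      rcases Finset.mem_insert.1 he with he | he
      · rw [he] at heF
        exact hxs (hcx.adj_of_face hF hxF heF hsx)
      · exact hEp e he (hcx.adj_of_face hF heF hpF fun e' => hpE (e' ▸ he))

/-- The claim for one vertex `s`. -/
theorem C6_claim (h2 : StmtA2) (h3 : StmtA4) (h5 : StmtC2) (h6 : StmtC4) (h7 : StmtC5) {V : Type}
    [Fintype V] [DecidableEq V]
    {Δ : Set (Finset V)} {x y s p : V} {S X : Finset V} (hA : HypA V (vs Δ).card)
    (hc : Ctx Δ x y) (hN : NoPair Δ) (hm : MS Δ x y S X {y}) (hS : Clq Δ S) (hs : s ∈ S)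
    (hp : p ∈ S) (hxs : ¬ adj Δ x s) (hxp : adj Δ x p) (hyp : adj Δ y p)
    (hno : ¬ ∃ q, ApexD Δ x y q) :
    ∃ S2 Y2, MS Δ x y S2 {x} Y2 ∧ Clq Δ S2 ∧ insert s S2 ∈ Δ := by
  have hcx := hc.inP.cx
  have hsp : s ≠ p := fun e => hxs (e ▸ hxp)
  obtain ⟨hSΔ, -, -⟩ := h2 V Δ x y S X {y} S hc.inP hc.ef hm.pms (Finset.Subset.refl S) hS
  rcases h7 V Δ x y s p S X hc hN hm hS hSΔ hs hxs hp hsp.symm with hD | ⟨F, hF, hsF, hSF, X', Y', hspl⟩
  · exact absurd (C6_first h2 h5 hA hc hm hS hs hp hxs hxp hyp hD) hno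
  · obtain ⟨S2, X2, Y2, hS2F, hm2⟩ := h3 V Δ x y F X' Y' hc hspl
    have hS2c : Clq Δ S2 := ⟨hS2F.trans (hcx.sub_vs hF), fun a ha b hb hab =>
      hcx.adj_of_face hF (hS2F ha) (hS2F hb) hab⟩
    have hY2 : Y2 ≠ {y} := by
      rintro rfl
      apply hSF
      intro v hv
      apply hS2F
      rw [hm2.symm.mem_iff]
      exact hm.symm.mem_iff.1 hv
    by_cases hX2 : X2 = {x}
    · subst hX2
      exact ⟨S2, Y2, hm2, hS2c, hcx.down F hF _ (Finset.insert_subset hsF hS2F)⟩
    · exact absurd (h6 V Δ x y S2 X2 Y2 hA hc ⟨p, hxp, hyp⟩ hm2 hS2c hX2 hY2) hno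

/-- There is a vertex of `S` which is not adjacent to `x`. -/
theorem C6_exists (h2 : StmtA2) {V : Type} [Fintype V] [DecidableEq V]
    {Δ : Set (Finset V)} {x y : V} {S X : Finset V}
    (hc : Ctx Δ x y) (hm : MS Δ x y S X {y}) (hS : Clq Δ S) (hX : X ≠ {x}) :
    ∃ s ∈ S, ¬ adj Δ x s := by
  by_contra hcon
  push Not at hcon
  have hcx := hc.inP.cx
  have hyS : y ∉ S := fun h => Finset.disjoint_left.1 hm.dSY h (Finset.mem_singleton_self y)
  have hxS : x ∉ S := fun h => Finset.disjoint_left.1 hm.dXS hm.hx h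
  have hxy : x ≠ y := hc.ef.ne
  have hxV := hc.mem_left
  have hyV := hc.mem_right
  obtain ⟨hSΔ, -, -⟩ := h2 V Δ x y S X {y} S hc.inP hc.ef hm.pms (Finset.Subset.refl S) hS
  have hyadj : ∀ s ∈ S, adj Δ y s := fun s hs => adj_symm (touch_single.1 (hm.tY s hs))
  have htri : ∀ a ∈ S, ∀ b ∈ S, a ≠ b → ({x, a, b} : Finset V) ∈ Δ := by
    intro a ha b hb hab
    have hxa : x ≠ a := fun e => hxS (e ▸ ha)
    have hxb : x ≠ b := fun e => hxS (e ▸ hb)
    have hya : y ≠ a := fun e => hyS (e ▸ ha)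
    have hyb : y ≠ b := fun e => hyS (e ▸ hb)
    have hCM : CM Δ [{x}, {y}, {a}, {b}] := by
      refine ⟨?_, ?_⟩
      · intro A hA'
        simp only [List.mem_cons, List.not_mem_nil, or_false] at hA'
        rcases hA' with rfl | rfl | rfl | rfl
        · exact conn_single hxV
        · exact conn_single hyV
        · exact conn_single (hS.1 ha)
        · exact conn_single (hS.1 hb)
      · simp only [List.pairwise_cons, List.mem_cons, List.not_mem_nil, or_false, forall_eq_or_imp,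
          forall_eq, IsEmpty.forall_iff, implies_true, List.Pairwise.nil, and_true,
          Finset.disjoint_singleton_left, Finset.mem_singleton, touch_single]
        exact ⟨⟨⟨hxy, hc.adj⟩, ⟨hxa, hcon a ha⟩, hxb, hcon b hb⟩,
          ⟨⟨hya, hyadj a ha⟩, hyb, hyadj b hb⟩, hab, hS.2 a ha b hb hab⟩
    have h3 := (hc.inP.k4two hCM
      (C6_not_fill hc.ef (by rw [Finset.mem_singleton]; exact hxa)
        (by rw [Finset.mem_singleton]; exact hya))
      (C6_not_fill hc.ef (by rw [Finset.mem_singleton]; exact hxb)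
        (by rw [Finset.mem_singleton]; exact hyb))).1
    exact hcx.fill_three.1 h3
  have hClq : Clq Δ (insert x S) := by
    refine ⟨Finset.insert_subset hxV hS.1, ?_⟩
    intro a ha b hb hab
    rcases Finset.mem_insert.1 ha with ha | ha
    · rcases Finset.mem_insert.1 hb with hb | hb
      · exact absurd (ha.trans hb.symm) hab
      · rw [ha]
        exact hcon b hb
    · rcases Finset.mem_insert.1 hb with hb | hb
      · rw [hb]
        exact adj_symm (hcon a ha)
      · exact hS.2 a ha b hb hab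
  have hxSΔ : insert x S ∈ Δ := by
    refine hc.inP.clq_mem hClq ?_
    intro a ha b hb c hcc hab hac hbc
    rcases Finset.mem_insert.1 ha with ha | ha
    · rw [ha]
      rcases Finset.mem_insert.1 hb with hb | hb
      · exact absurd (ha.trans hb.symm) hab
      · rcases Finset.mem_insert.1 hcc with hcc | hcc
        · exact absurd (ha.trans hcc.symm) hac
        · exact htri b hb c hcc hbc
    · rcases Finset.mem_insert.1 hb with hb | hb
      · rcases Finset.mem_insert.1 hcc with hcc | hcc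
        · exact absurd (hb.trans hcc.symm) hbc
        · rw [hb, Finset.insert_comm]
          exact htri a ha c hcc hac
      · rcases Finset.mem_insert.1 hcc with hcc | hcc
        · rw [hcc]
          have := htri a ha b hb hab
          refine hcx.down _ this _ ?_
          intro v hv
          simp only [Finset.mem_insert, Finset.mem_singleton] at hv ⊢
          tauto
        · refine hcx.down _ hSΔ _ ?_
          intro v hv
          simp only [Finset.mem_insert, Finset.mem_singleton] at hv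
          rcases hv with rfl | rfl | rfl
          · exact ha
          · exact hb
          · exact hcc
  have hconn := hc.irr.conn _ hxSΔ
  obtain ⟨u, hu, hux⟩ : ∃ u ∈ X, u ≠ x := by
    by_contra hn
    push Not at hn
    apply hX
    ext v
    rw [Finset.mem_singleton]
    exact ⟨hn v, fun e => e ▸ hm.hx⟩
  have htouch := hconn.touch_of (A := X \ {x}) (B := {y})
    ⟨u, by rw [Finset.mem_sdiff, Finset.mem_singleton]; exact ⟨hu, hux⟩⟩
    (Finset.singleton_nonempty y) (by
      rw [Finset.disjoint_singleton_right, Finset.mem_sdiff]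
      intro h
      exact Finset.disjoint_left.1 hm.dXY h.1 (Finset.mem_singleton_self y)) (by
      ext v
      have hun : v ∈ vs Δ ↔ (v ∈ X ∨ v ∈ S) ∨ v = y := by
        rw [← hm.un, Finset.mem_union, Finset.mem_union, Finset.mem_singleton]
      have hd : v ∈ X → v ∉ S := fun h h' => Finset.disjoint_left.1 hm.dXS h h'
      have e1 : v = y → v ∉ S := fun e => e ▸ hyS
      have e2 : v = y → v ≠ x := fun e e' => hxy (e'.symm.trans e)
      rw [Finset.mem_union, Finset.mem_sdiff, Finset.mem_sdiff, Finset.mem_singleton,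
        Finset.mem_singleton, Finset.mem_insert, hun]
      tauto)
  obtain ⟨a, ha, b, hb, hab⟩ := htouch
  rw [Finset.mem_sdiff, Finset.mem_singleton] at ha
  exact ha.2 (hm.no_edge ha.1 hb hab).1

theorem tC6 (h2 : StmtA2) (h3 : StmtA4) (h5 : StmtC2) (h6 : StmtC4) (h7 : StmtC5) : StmtC6 := by
  intro V _ _ Δ x y S X hA hc hN ⟨p, hxp, hyp⟩ hm hS hX
  by_cases hno : ∃ q, ApexD Δ x y q
  · exact Or.inl hno
  right
  have hp : p ∈ S := hm.mem_of_common hxp hyp
  obtain ⟨s0, hs0, hxs0⟩ := C6_exists h2 hc hm hS hX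
  obtain ⟨S2, Y2, hm2, hS2, hs2⟩ := C6_claim h2 h3 h5 h6 h7 hA hc hN hm hS hs0 hp hxs0 hxp hyp hno
  refine ⟨S2, Y2, hm2, hS2, fun s hs => ?_⟩
  have hyS : y ∉ S := fun h => Finset.disjoint_left.1 hm.dSY h (Finset.mem_singleton_self y)
  by_cases hxs : adj Δ x s
  · have : s ∈ S2 := hm2.mem_iff.2 ⟨hxs, fun e => hyS (e ▸ hs)⟩
    rw [Finset.insert_eq_of_mem this]
    exact hc.inP.cx.down _ hs2 _ (Finset.subset_insert _ _)
  · obtain ⟨S3, Y3, hm3, -, hs3⟩ := C6_claim h2 h3 h5 h6 h7 hA hc hN hm hS hs hp hxs hxp hyp hno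
    have e : S3 = S2 := by
      ext v
      rw [hm3.mem_iff, hm2.mem_iff]
    rw [← e]
    exact hs3

end Pool.Agent.Lib.MP_73b196_co.St
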