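import Pool.Agent.Lib.MP_73b196_co.St.Spec

/-!
# C7: a minimal separator which is a clique gives a cone vertex (common neighbour)
-/

set_option autoImplicit false

namespace Pool.Agent.Lib.MP_73b196_co.St

variable {V : Type} [Fintype V] [DecidableEq V] {Δ : Set (Finset V)}
  {S X Y : Finset V} {x y : V}

/-- If the side of `x` is `{x}` then `S + x` is a face. -/
theorem C7_face (h2 : StmtA2) (hc : Ctx Δ x y) (hm : MS Δ x y S {x} Y) (hS : Clq Δ S) :
    insert x S ∈ Δ := by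
  obtain ⟨-, ⟨F, hF, hSF, hFX⟩, -⟩ := h2 V Δ x y S {x} Y S hc.inP hc.ef hm.pms
    (Finset.Subset.refl _) hS
  obtain ⟨v, hv⟩ := hFX
  rw [Finset.mem_inter, Finset.mem_singleton] at hv
  obtain ⟨hv, rfl⟩ := hv
  exact hc.inP.cx.down F hF _ (Finset.insert_subset hv hSF)

/-- The case `X ≠ {x}`, `Y = {y}`. -/
theorem C7_half (h2 : StmtA2) (h6 : StmtC6) (hH : HypA V (vs Δ).card) (hc : Ctx Δ x y)
    (hN : NoPair Δ) (hp : ∃ p, adj Δ x p ∧ adj Δ y p) (hm : MS Δ x y S X {y}) (hS : Clq Δ S)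
    (hX : X ≠ {x}) : ∃ q, ApexD Δ x y q := by
  have hcx := hc.inP.cx
  have hSiff : ∀ {v : V}, v ∈ S ↔ adj Δ y v ∧ v ≠ x := fun {v} => hm.symm.mem_iff
  rcases h6 V Δ x y S X hH hc hN hp hm hS hX with h | ⟨S2, Y2, hm2, hS2, hins⟩
  · exact h
  have hS2iff : ∀ {v : V}, v ∈ S2 ↔ adj Δ x v ∧ v ≠ y := fun {v} => hm2.mem_iff
  have hY2 : Y2 ≠ {y} := by
    rintro rfl
    have e : S2 = S := by
      ext v
      rw [hSiff]
      exact hm2.symm.mem_iff
    subst e
    refine hX (Finset.Subset.antisymm ?_ (Finset.singleton_subset_iff.2 hm.hx))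
    intro v hv
    have hvv : v ∈ vs Δ := hm.cX.1 hv
    rw [← hm2.un, Finset.mem_union, Finset.mem_union] at hvv
    rcases hvv with (h | h) | h
    · exact h
    · exact absurd h (Finset.disjoint_left.1 hm.dXS hv)
    · exact absurd h (Finset.disjoint_left.1 hm.dXY hv)
  have hp' : ∃ p, adj Δ y p ∧ adj Δ x p := by
    obtain ⟨p, h1, h3⟩ := hp
    exact ⟨p, h3, h1⟩
  rcases h6 V Δ y x S2 Y2 hH hc.symm hN hp' hm2.symm hS2 hY2 with ⟨q, hq⟩ | ⟨S3, X3, hm3, hS3, hins3⟩
  · exact ⟨q, hq.symm⟩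
  have hS3S : S3 = S := by
    ext v
    rw [hSiff]
    exact hm3.mem_iff
  subst hS3S
  obtain ⟨p, hpx, hpy⟩ := hp
  have hpS : p ∈ S3 := hSiff.2 ⟨hpy, hpx.1.symm⟩
  have hpS2 : p ∈ S2 := hS2iff.2 ⟨hpx, hpy.1.symm⟩
  have hxS : x ∉ S3 := fun h => (hSiff.1 h).2 rfl
  have hyS : y ∉ S3 := fun h => (hSiff.1 h).1.1 rfl
  have hxS2 : x ∉ S2 := fun h => (hS2iff.1 h).1.1 rfl
  have hyS2 : y ∉ S2 := fun h => (hS2iff.1 h).2 rfl
  -- mixed triples
  have hA : ∀ a ∈ S3, ∀ b ∈ S2, ∀ c ∈ S2, ({a, b, c} : Finset V) ∈ Δ := by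
    intro a ha b hb c hcc
    refine hcx.down _ (hins a ha) _ ?_
    intro v hv
    simp only [Finset.mem_insert, Finset.mem_singleton] at hv ⊢
    rcases hv with rfl | rfl | rfl
    · exact Or.inl rfl
    · exact Or.inr hb
    · exact Or.inr hcc
  have hB : ∀ b ∈ S2, ∀ a ∈ S3, ∀ c ∈ S3, ({b, a, c} : Finset V) ∈ Δ := by
    intro b hb a ha c hcc
    refine hcx.down _ (hins3 b hb) _ ?_
    intro v hv
    simp only [Finset.mem_insert, Finset.mem_singleton] at hv ⊢
    rcases hv with rfl | rfl | rfl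
    · exact Or.inl rfl
    · exact Or.inr ha
    · exact Or.inr hcc
  have hperm : ∀ a b c : V, ({a, b, c} : Finset V) = {b, a, c} := fun a b c =>
    Finset.insert_comm a b {c}
  have hperm2 : ∀ a b c : V, ({a, b, c} : Finset V) = {c, a, b} := by
    intro a b c
    ext v
    simp only [Finset.mem_insert, Finset.mem_singleton]
    tauto
  have hSS : ∀ a ∈ S3, ∀ b ∈ S3, ∀ c ∈ S3, ({a, b, c} : Finset V) ∈ Δ := by
    intro a ha b hb c hcc
    refine hcx.down _ (hins3 p hpS2) _ ?_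
    intro v hv
    simp only [Finset.mem_insert, Finset.mem_singleton] at hv ⊢
    rcases hv with rfl | rfl | rfl
    · exact Or.inr ha
    · exact Or.inr hb
    · exact Or.inr hcc
  have hS2S2 : ∀ a ∈ S2, ∀ b ∈ S2, ∀ c ∈ S2, ({a, b, c} : Finset V) ∈ Δ := by
    intro a ha b hb c hcc
    refine hcx.down _ (hins p hpS) _ ?_
    intro v hv
    simp only [Finset.mem_insert, Finset.mem_singleton] at hv ⊢
    rcases hv with rfl | rfl | rfl
    · exact Or.inr ha
    · exact Or.inr hb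
    · exact Or.inr hcc
  have htriple : ∀ a ∈ S3 ∪ S2, ∀ b ∈ S3 ∪ S2, ∀ c ∈ S3 ∪ S2, ({a, b, c} : Finset V) ∈ Δ := by
    intro a ha b hb c hcc
    rcases Finset.mem_union.1 ha with ha | ha <;> rcases Finset.mem_union.1 hb with hb | hb <;>
      rcases Finset.mem_union.1 hcc with hcc | hcc
    · exact hSS a ha b hb c hcc
    · rw [hperm2]
      exact hB c hcc a ha b hb
    · rw [hperm]
      exact hB b hb a ha c hcc
    · exact hA a ha b hb c hcc
    · exact hB a ha b hb c hcc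
    · rw [hperm]
      exact hA b hb a ha c hcc
    · rw [hperm2]
      exact hA c hcc a ha b hb
    · exact hS2S2 a ha b hb c hcc
  have hFclq : Clq Δ (S3 ∪ S2) := by
    refine ⟨Finset.union_subset hm.pms.sS hm2.pms.sS, ?_⟩
    intro a ha b hb hab
    exact hcx.adj_of_face (htriple a ha b hb b hb) (by simp) (by simp) hab
  have hF : S3 ∪ S2 ∈ Δ := hc.inP.clq_mem hFclq fun a ha b hb c hcc _ _ _ =>
    htriple a ha b hb c hcc
  -- the complement of `F` is `{x, y}`
  have hxF : x ∉ S3 ∪ S2 := by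
    rw [Finset.mem_union, not_or]
    exact ⟨hxS, hxS2⟩
  have hyF : y ∉ S3 ∪ S2 := by
    rw [Finset.mem_union, not_or]
    exact ⟨hyS, hyS2⟩
  have hV : ∀ v ∈ vs Δ, v ∉ S3 ∪ S2 → v = x ∨ v = y := by
    intro v hv hvF
    by_contra hn
    rw [not_or] at hn
    obtain ⟨a, ha, b, hb, hab⟩ := (hc.irr.conn _ hF).2.2 {x, y} (by
      intro w hw
      rw [Finset.mem_insert, Finset.mem_singleton] at hw
      rcases hw with rfl | rfl
      · exact Finset.mem_sdiff.2 ⟨hc.mem_left, hxF⟩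
      · exact Finset.mem_sdiff.2 ⟨hc.mem_right, hyF⟩) ⟨x, by simp⟩ ⟨v, by
        rw [Finset.mem_sdiff, Finset.mem_sdiff, Finset.mem_insert, Finset.mem_singleton, not_or]
        exact ⟨⟨hv, hvF⟩, hn⟩⟩
    rw [Finset.mem_sdiff, Finset.mem_sdiff, Finset.mem_insert, Finset.mem_singleton, not_or] at hb
    rw [Finset.mem_insert, Finset.mem_singleton] at ha
    obtain ⟨⟨-, hbF⟩, hbx, hby⟩ := hb
    rcases ha with rfl | rfl
    · exact hbF (Finset.mem_union_right _ (hS2iff.2 ⟨hab, hby⟩))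
    · exact hbF (Finset.mem_union_left _ (hSiff.2 ⟨hab, hbx⟩))
  have hxS2f : insert x S2 ∈ Δ := C7_face h2 hc hm2 hS2
  have hySf : insert y S3 ∈ Δ := C7_face h2 hc.symm hm3 hS
  refine ⟨p, hpx.1.symm, hpy.1.symm, fun G hG hGne => ?_⟩
  have hxy : ¬ (x ∈ G ∧ y ∈ G) := fun h => hGne (hc.ef.facet G hG h.1 h.2)
  by_cases hxG : x ∈ G
  · refine hcx.down _ hxS2f _ ?_
    intro v hv
    rw [Finset.mem_insert] at hv ⊢
    rcases hv with rfl | hv
    · exact Or.inr hpS2
    · by_cases hvx : v = x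
      · exact Or.inl hvx
      · right
        refine hS2iff.2 ⟨hcx.adj_of_face hG hxG hv (fun e => hvx e.symm), ?_⟩
        rintro rfl
        exact hxy ⟨hxG, hv⟩
  by_cases hyG : y ∈ G
  · refine hcx.down _ hySf _ ?_
    intro v hv
    rw [Finset.mem_insert] at hv ⊢
    rcases hv with rfl | hv
    · exact Or.inr hpS
    · by_cases hvy : v = y
      · exact Or.inl hvy
      · right
        refine hSiff.2 ⟨hcx.adj_of_face hG hyG hv (fun e => hvy e.symm), ?_⟩
        rintro rfl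
        exact hxG hv
  · refine hcx.down _ hF _ ?_
    intro v hv
    rw [Finset.mem_insert] at hv
    rcases hv with rfl | hv
    · exact Finset.mem_union_left _ hpS
    · by_contra hvF
      rcases hV v (hcx.sub_vs hG hv) hvF with rfl | rfl
      · exact hxG hv
      · exact hyG hv

theorem tC7 (h2 : StmtA2) (h4 : StmtC4) (h6 : StmtC6) : StmtC7 := by
  classical
  intro V _ _ Δ x y S X Y hH hc hN hp hm hS
  have hcx := hc.inP.cx
  have hp' : ∃ p, adj Δ y p ∧ adj Δ x p := by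
    obtain ⟨p, h1, h3⟩ := hp
    exact ⟨p, h3, h1⟩
  by_cases hX : X = {x}
  · subst hX
    by_cases hY : Y = {y}
    · subst hY
      obtain ⟨p, hpx, hpy⟩ := hp
      have hpS : p ∈ S := hm.toSpl.mem_of_common hpx hpy
      have h1 := C7_face h2 hc hm hS
      have h3 := C7_face h2 hc.symm hm.symm hS
      refine ⟨p, hpx.1.symm, hpy.1.symm, fun F hF hne => ?_⟩
      rcases hm.face F hF with h | h | h
      · refine hcx.down _ h1 _ (Finset.insert_subset (Finset.mem_insert_of_mem hpS) ?_)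
        rwa [Finset.insert_eq]
      · refine hcx.down _ h3 _ (Finset.insert_subset (Finset.mem_insert_of_mem hpS) ?_)
        rwa [Finset.insert_eq]
      · exact absurd h hne
    · obtain ⟨q, hq⟩ := C7_half h2 h6 hH hc.symm hN hp' hm.symm hS hY
      exact ⟨q, hq.symm⟩
  · by_cases hY : Y = {y}
    · subst hY
      exact C7_half h2 h6 hH hc hN hp hm hS hX
    · exact h4 V Δ x y S X Y hH hc hp hm hS hX hY

end Pool.Agent.Lib.MP_73b196_co.St
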