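import Pool.Agent.Lib.MP_73b196_co.St.Base

/-!
# Components
-/

set_option autoImplicit false

namespace Pool.Agent.Lib.MP_73b196_co.St

variable {V : Type} [Fintype V] [DecidableEq V] {Δ : Set (Finset V)}
  {A B C C' U : Finset V} {a b v : V}

/-- The component of `v` in `U`: the union of all connected subsets of `U` which contain `v`. -/
theorem exists_comp (hU : U ⊆ vs Δ) (hv : v ∈ U) : ∃ C, IsComp Δ U C ∧ v ∈ C := by
  classical
  obtain ⟨C, hC, hmax⟩ := Finset.exists_max_image (U.powerset.filter fun A => Conn Δ A ∧ v ∈ A)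
    Finset.card ⟨{v}, by
      rw [Finset.mem_filter, Finset.mem_powerset, Finset.singleton_subset_iff]
      exact ⟨hv, conn_single (hU hv), Finset.mem_singleton_self v⟩⟩
  rw [Finset.mem_filter, Finset.mem_powerset] at hC
  refine ⟨C, ⟨hC.1, hC.2.1, ?_⟩, hC.2.2⟩
  rintro ⟨a, ha, b, hb, hab⟩
  rw [Finset.mem_sdiff] at hb
  have h1 : Conn Δ (insert b C) :=
    hC.2.1.insert (hU hb.1) (touch_single_left.2 ⟨a, ha, adj_symm hab⟩)
  have h2 := hmax (insert b C) (by
    rw [Finset.mem_filter, Finset.mem_powerset, Finset.insert_subset_iff]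
    exact ⟨⟨hb.1, hC.1⟩, h1, Finset.mem_insert_of_mem hC.2.2⟩)
  rw [Finset.card_insert_of_notMem hb.2] at h2
  omega

/-- If the edges leaving `C` inside `U` are excluded, a connected subset of `U` meeting `C` lies in
`C`. -/
theorem Conn.sub_of_closed (hA : Conn Δ A) (hAU : A ⊆ U) (hC : ¬ touch Δ C (U \ C))
    (h : (A ∩ C).Nonempty) : A ⊆ C := by
  by_contra hn
  obtain ⟨x, hxA, hxC⟩ := Finset.not_subset.1 hn
  obtain ⟨a, ha, b, hb, hab⟩ := hA.2.2 (A ∩ C) Finset.inter_subset_left h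
    ⟨x, by
      rw [Finset.mem_sdiff, Finset.mem_inter]
      exact ⟨hxA, fun h => hxC h.2⟩⟩
  rw [Finset.mem_sdiff, Finset.mem_inter] at hb
  refine hC ⟨a, (Finset.mem_inter.1 ha).2, b, ?_, hab⟩
  rw [Finset.mem_sdiff]
  exact ⟨hAU hb.1, fun h => hb.2 ⟨hb.1, h⟩⟩

theorem IsComp.sub_of_conn (hC : IsComp Δ U C) (hA : Conn Δ A) (hAU : A ⊆ U)
    (h : (A ∩ C).Nonempty) : A ⊆ C :=
  hA.sub_of_closed hAU hC.2.2 h

theorem IsComp.mem_of_adj (hC : IsComp Δ U C) (ha : a ∈ C) (hb : b ∈ U) (hab : adj Δ a b) :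
    b ∈ C := by
  by_contra hn
  exact hC.2.2 ⟨a, ha, b, Finset.mem_sdiff.2 ⟨hb, hn⟩, hab⟩

theorem IsComp.eq_of (hC : IsComp Δ U C) (hC' : IsComp Δ U C') (h : (C ∩ C').Nonempty) : C = C' := by
  refine Finset.Subset.antisymm (hC'.sub_of_conn hC.2.1 hC.1 h) ?_
  refine hC.sub_of_conn hC'.2.1 hC'.1 ?_
  rwa [Finset.inter_comm]

/-- A disconnected set has a component which does not contain `v`. -/
theorem exists_comp_notMem (hU : U ⊆ vs Δ) (hv : v ∈ U) (hn : ¬ Conn Δ U) :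
    ∃ C, IsComp Δ U C ∧ v ∉ C := by
  obtain ⟨C₀, hC₀, hv₀⟩ := exists_comp hU hv
  have h1 : ¬ U ⊆ C₀ := by
    intro h
    have h2 : C₀ = U := Finset.Subset.antisymm hC₀.1 h
    rw [← h2] at hn
    exact hn hC₀.2.1
  obtain ⟨w, hw, hwC⟩ := Finset.not_subset.1 h1
  obtain ⟨C, hC, hwC'⟩ := exists_comp hU hw
  refine ⟨C, hC, fun h => hwC ?_⟩
  rw [hC₀.eq_of hC ⟨v, Finset.mem_inter.2 ⟨hv₀, h⟩⟩]
  exact hwC'

/-- A component of `A \ B` touches `B`, if `A` is connected. -/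
theorem Conn.comp_touch (hA : Conn Δ A) (hBA : B ⊆ A) (hB : B.Nonempty) (hC : IsComp Δ (A \ B) C) :
    touch Δ C B := by
  have hCA : C ⊆ A := hC.1.trans Finset.sdiff_subset
  obtain ⟨b₀, hb₀⟩ := hB
  obtain ⟨a, ha, b, hb, hab⟩ := hA.2.2 C hCA hC.2.1.2.1 ⟨b₀, by
    rw [Finset.mem_sdiff]
    exact ⟨hBA hb₀, fun h => (Finset.mem_sdiff.1 (hC.1 h)).2 hb₀⟩⟩
  rw [Finset.mem_sdiff] at hb
  by_cases hbB : b ∈ B
  · exact ⟨a, ha, b, hbB, hab⟩
  · exact absurd (hC.mem_of_adj ha (Finset.mem_sdiff.2 ⟨hb.1, hbB⟩) hab) hb.2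

/-- Two disjoint connected subsets of a connected set grow to a partition. PROOF: take `A'`, `B'`
disjoint, connected, containing `A` and `B`, inside `U`, with `A' ∪ B'` of maximal size; if
`A' ∪ B' ≠ U`, an edge between `A' ∪ B'` and the rest makes one of them larger. -/
theorem grow (hU : Conn Δ U) (hA : Conn Δ A) (hB : Conn Δ B) (hAU : A ⊆ U) (hBU : B ⊆ U)
    (hd : Disjoint A B) :
    ∃ A' B', A ⊆ A' ∧ B ⊆ B' ∧ Disjoint A' B' ∧ A' ∪ B' = U ∧ Conn Δ A' ∧ Conn Δ B' ∧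
      touch Δ A' B' := by
  classical
  obtain ⟨⟨A', B'⟩, hP, hmax⟩ := Finset.exists_max_image
    ((U.powerset ×ˢ U.powerset).filter fun p => A ⊆ p.1 ∧ B ⊆ p.2 ∧ Disjoint p.1 p.2 ∧
      Conn Δ p.1 ∧ Conn Δ p.2) (fun p => (p.1 ∪ p.2).card) ⟨(A, B), by
      rw [Finset.mem_filter, Finset.mem_product, Finset.mem_powerset, Finset.mem_powerset]
      exact ⟨⟨hAU, hBU⟩, Finset.Subset.refl _, Finset.Subset.refl _, hd, hA, hB⟩⟩
  rw [Finset.mem_filter, Finset.mem_product, Finset.mem_powerset, Finset.mem_powerset] at hP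
  obtain ⟨⟨h1, h2⟩, h3, h4, h5, h6, h7⟩ := hP
  simp only at h1 h2 h3 h4 h5 h6 h7
  have hun : A' ∪ B' = U := by
    by_contra hn
    have h8 : A' ∪ B' ⊆ U := Finset.union_subset h1 h2
    have h9 : (U \ (A' ∪ B')).Nonempty := by
      rw [Finset.sdiff_nonempty]
      exact fun h => hn (Finset.Subset.antisymm h8 h)
    obtain ⟨a, ha, c, hc, hac⟩ := hU.2.2 (A' ∪ B') h8
      (h6.2.1.mono Finset.subset_union_left) h9
    rw [Finset.mem_sdiff, Finset.mem_union, not_or] at hc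
    obtain ⟨hcU, hcA, hcB⟩ := hc
    have hcv : c ∈ vs Δ := hU.1 hcU
    rcases Finset.mem_union.1 ha with ha | ha
    · have h10 := hmax (insert c A', B') (by
        rw [Finset.mem_filter, Finset.mem_product, Finset.mem_powerset, Finset.mem_powerset]
        refine ⟨⟨Finset.insert_subset_iff.2 ⟨hcU, h1⟩, h2⟩,
          h3.trans (Finset.subset_insert c A'), h4, Finset.disjoint_insert_left.2 ⟨hcB, h5⟩,
          h6.insert hcv (touch_single_left.2 ⟨a, ha, adj_symm hac⟩), h7⟩)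
      simp only [Finset.insert_union] at h10
      rw [Finset.card_insert_of_notMem (by
        rw [Finset.mem_union, not_or]
        exact ⟨hcA, hcB⟩)] at h10
      omega
    · have h10 := hmax (A', insert c B') (by
        rw [Finset.mem_filter, Finset.mem_product, Finset.mem_powerset, Finset.mem_powerset]
        refine ⟨⟨h1, Finset.insert_subset_iff.2 ⟨hcU, h2⟩⟩, h3,
          h4.trans (Finset.subset_insert c B'), Finset.disjoint_insert_right.2 ⟨hcA, h5⟩,
          h6, h7.insert hcv (touch_single_left.2 ⟨a, ha, adj_symm hac⟩)⟩)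
      simp only [Finset.union_insert] at h10
      rw [Finset.card_insert_of_notMem (by
        rw [Finset.mem_union, not_or]
        exact ⟨hcA, hcB⟩)] at h10
      omega
  exact ⟨A', B', h3, h4, h5, hun, h6, h7, hU.touch_of h6.2.1 h7.2.1 h5 hun⟩

end Pool.Agent.Lib.MP_73b196_co.St
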