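import Pool.Agent.Lib.MP_73b196_co.St.Base

/-!
# Contraction of a connected set `A` to a vertex `a ∈ A`
-/

set_option autoImplicit false

namespace Pool.Agent.Lib.MP_73b196_co.St

variable {V : Type} [Fintype V] [DecidableEq V] {Δ : Set (Finset V)}
  {A B C : Finset V} {a b u v : V} {L : List (Finset V)}

/-- The preimage of a set of vertices of the contraction. -/
def lft (A : Finset V) (a : V) (B : Finset V) : Finset V := if a ∈ B then B ∪ A else B \ A

omit [Fintype V] in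
theorem Ctr_mem_lft : v ∈ lft A a B ↔ (if v ∈ A then a else v) ∈ B := by
  unfold lft
  by_cases ha : a ∈ B
  · rw [if_pos ha, Finset.mem_union]
    by_cases hv : v ∈ A
    · simp [hv, ha]
    · simp [hv]
  · rw [if_neg ha, Finset.mem_sdiff]
    by_cases hv : v ∈ A
    · simp [hv, ha]
    · simp [hv]

omit [Fintype V] in
theorem Ctr_lft_mono (h : B ⊆ C) : lft A a B ⊆ lft A a C := by
  intro v hv
  rw [Ctr_mem_lft] at hv ⊢
  exact h hv

omit [Fintype V] in
theorem Ctr_lft_sdiff : lft A a (B \ C) = lft A a B \ lft A a C := by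
  ext v
  rw [Finset.mem_sdiff, Ctr_mem_lft, Ctr_mem_lft, Ctr_mem_lft, Finset.mem_sdiff]

omit [Fintype V] in
theorem Ctr_lft_disjoint (h : Disjoint B C) : Disjoint (lft A a B) (lft A a C) := by
  rw [Finset.disjoint_left]
  intro v hv hv'
  rw [Ctr_mem_lft] at hv hv'
  exact Finset.disjoint_left.1 h hv hv'

/-- Vertices of the contraction are fixed by the retraction. -/
theorem Ctr_fix (ha : a ∈ A) (hv : v ∈ vs (con Δ A a)) : (if v ∈ A then a else v) = v := by
  rw [mem_vs] at hv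
  obtain ⟨F, _, hF⟩ := hv
  have h1 : v ∈ F.image (fun v => if v ∈ A then a else v) := by
    rw [hF]
    exact Finset.mem_singleton_self v
  obtain ⟨w, _, hw⟩ := Finset.mem_image.1 h1
  by_cases hwA : w ∈ A
  · rw [if_pos hwA] at hw
    subst hw
    rw [if_pos ha]
  · rw [if_neg hwA] at hw
    subst hw
    rw [if_neg hwA]

theorem vs_con (hΔ : IsCx Δ) (hA : A ⊆ vs Δ) (ha : a ∈ A) : vs (con Δ A a) = insert a (vs Δ \ A) := by
  ext v
  rw [mem_vs, Finset.mem_insert, Finset.mem_sdiff]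
  constructor
  · rintro ⟨F, hFΔ, hF⟩
    have h1 : v ∈ F.image (fun v => if v ∈ A then a else v) := by
      rw [hF]
      exact Finset.mem_singleton_self v
    obtain ⟨w, hwF, hw⟩ := Finset.mem_image.1 h1
    by_cases hwA : w ∈ A
    · rw [if_pos hwA] at hw
      exact Or.inl hw.symm
    · rw [if_neg hwA] at hw
      subst hw
      exact Or.inr ⟨hΔ.sub_vs hFΔ hwF, hwA⟩
  · rintro (rfl | ⟨h1, h2⟩)
    · refine ⟨{v}, mem_vs.1 (hA ha), ?_⟩
      rw [Finset.image_singleton, if_pos ha]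
    · refine ⟨{v}, mem_vs.1 h1, ?_⟩
      rw [Finset.image_singleton, if_neg h2]

/-- The image of an edge. -/
theorem adj_con_of (h : adj Δ u v) (hne : (if u ∈ A then a else u) ≠ (if v ∈ A then a else v)) :
    adj (con Δ A a) (if u ∈ A then a else u) (if v ∈ A then a else v) := by
  refine ⟨hne, {u, v}, h.2, ?_⟩
  rw [Finset.image_insert, Finset.image_singleton]

theorem touch_con (hΔ : IsCx Δ) (ha : a ∈ A) (hd : Disjoint B C)
    (hB : B ⊆ vs (con Δ A a)) (hC : C ⊆ vs (con Δ A a)) :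
    touch (con Δ A a) B C ↔ touch Δ (lft A a B) (lft A a C) := by
  constructor
  · rintro ⟨b, hb, c, hc, hne, F, hFΔ, hF⟩
    have h1 : b ∈ F.image (fun v => if v ∈ A then a else v) := by
      rw [hF]
      exact Finset.mem_insert_self _ _
    have h2 : c ∈ F.image (fun v => if v ∈ A then a else v) := by
      rw [hF]
      exact Finset.mem_insert_of_mem (Finset.mem_singleton_self _)
    obtain ⟨u, huF, hu⟩ := Finset.mem_image.1 h1
    obtain ⟨v, hvF, hv⟩ := Finset.mem_image.1 h2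
    refine ⟨u, ?_, v, ?_, hΔ.adj_of_face hFΔ huF hvF ?_⟩
    · rw [Ctr_mem_lft, hu]
      exact hb
    · rw [Ctr_mem_lft, hv]
      exact hc
    · rintro rfl
      exact hne (hu.symm.trans hv)
  · rintro ⟨u, hu, v, hv, huv⟩
    rw [Ctr_mem_lft] at hu hv
    refine ⟨_, hu, _, hv, adj_con_of huv ?_⟩
    intro h
    rw [h] at hu
    exact Finset.disjoint_left.1 hd hu hv

theorem conn_con (hΔ : IsCx Δ) (hA : Conn Δ A) (ha : a ∈ A) (hB : B ⊆ vs (con Δ A a)) :
    Conn (con Δ A a) B ↔ Conn Δ (lft A a B) := by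
  have hvs := vs_con hΔ hA.1 ha
  constructor
  · rintro ⟨_, ⟨b, hb⟩, hcut⟩
    refine ⟨?_, ⟨b, ?_⟩, ?_⟩
    · intro w hw
      rw [Ctr_mem_lft] at hw
      by_cases hwA : w ∈ A
      · exact hA.1 hwA
      · rw [if_neg hwA] at hw
        have h1 := hB hw
        rw [hvs, Finset.mem_insert, Finset.mem_sdiff] at h1
        rcases h1 with rfl | h1
        · exact absurd ha hwA
        · exact h1.1
    · rw [Ctr_mem_lft, Ctr_fix ha (hB hb)]
      exact hb
    · rintro E hE ⟨e, he⟩ ⟨e', he'⟩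
      by_cases hsat : ∀ w ∈ A, w ∈ lft A a B → (w ∈ E ↔ a ∈ E)
      · have hsat' : ∀ w, w ∈ lft A a B → (w ∈ E ↔ (if w ∈ A then a else w) ∈ E) := by
          intro w hw
          by_cases hwA : w ∈ A
          · rw [if_pos hwA]
            exact hsat w hwA hw
          · rw [if_neg hwA]
        rw [Finset.mem_sdiff] at he'
        obtain ⟨he1, he2⟩ := he'
        have he0 := hE he
        have h1 := hcut (B.filter fun b => b ∈ E) (Finset.filter_subset _ _)
          ⟨_, Finset.mem_filter.2 ⟨Ctr_mem_lft.1 he0, (hsat' e he0).1 he⟩⟩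
          ⟨_, Finset.mem_sdiff.2 ⟨Ctr_mem_lft.1 he1, fun h =>
            he2 ((hsat' e' he1).2 (Finset.mem_filter.1 h).2)⟩⟩
        rw [touch_con hΔ ha Finset.disjoint_sdiff
          ((Finset.filter_subset _ _).trans hB) (Finset.sdiff_subset.trans hB)] at h1
        refine touch_mono ?_ ?_ h1
        · intro w hw
          rw [Ctr_mem_lft, Finset.mem_filter] at hw
          exact (hsat' w (Ctr_mem_lft.2 hw.1)).2 hw.2
        · intro w hw
          rw [Ctr_mem_lft, Finset.mem_sdiff, Finset.mem_filter] at hw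
          have hw1 := Ctr_mem_lft.2 hw.1
          rw [Finset.mem_sdiff]
          exact ⟨hw1, fun h => hw.2 ⟨hw.1, (hsat' w hw1).1 h⟩⟩
      · push Not at hsat
        obtain ⟨w, hwA, hwB, hw⟩ := hsat
        have haB : a ∈ B := by
          rw [Ctr_mem_lft, if_pos hwA] at hwB
          exact hwB
        have hAB : A ⊆ lft A a B := by
          intro v hv
          rw [Ctr_mem_lft, if_pos hv]
          exact haB
        have h1 : (E ∩ A).Nonempty ∧ (A \ (E ∩ A)).Nonempty := by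
          rcases hw with ⟨hw1, hw2⟩ | ⟨hw1, hw2⟩
          · exact ⟨⟨w, Finset.mem_inter.2 ⟨hw1, hwA⟩⟩, ⟨a, Finset.mem_sdiff.2 ⟨ha, fun h =>
              hw2 (Finset.mem_inter.1 h).1⟩⟩⟩
          · exact ⟨⟨a, Finset.mem_inter.2 ⟨hw2, ha⟩⟩, ⟨w, Finset.mem_sdiff.2 ⟨hwA, fun h =>
              hw1 (Finset.mem_inter.1 h).1⟩⟩⟩
        have h2 := hA.2.2 (E ∩ A) Finset.inter_subset_right h1.1 h1.2
        refine touch_mono Finset.inter_subset_left ?_ h2
        intro v hv
        rw [Finset.mem_sdiff, Finset.mem_inter] at hv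
        rw [Finset.mem_sdiff]
        exact ⟨hAB hv.1, fun h => hv.2 ⟨h, hv.1⟩⟩
  · rintro ⟨_, ⟨b, hb⟩, hcut⟩
    refine ⟨hB, ⟨_, Ctr_mem_lft.1 hb⟩, ?_⟩
    rintro E hE ⟨e, he⟩ ⟨e', he'⟩
    rw [touch_con hΔ ha Finset.disjoint_sdiff (hE.trans hB) (Finset.sdiff_subset.trans hB),
      Ctr_lft_sdiff]
    refine hcut _ (Ctr_lft_mono hE) ⟨e, ?_⟩ ⟨e', ?_⟩
    · rw [Ctr_mem_lft, Ctr_fix ha (hB (hE he))]
      exact he
    · rw [← Ctr_lft_sdiff, Ctr_mem_lft, Ctr_fix ha (hB (Finset.mem_sdiff.1 he').1)]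
      exact he'

omit [Fintype V] in
theorem Ctr_inter (F : Finset V) :
    (F.image (fun v => if v ∈ A then a else v) ∩ B).Nonempty ↔ (F ∩ lft A a B).Nonempty := by
  constructor
  · rintro ⟨b, hb⟩
    rw [Finset.mem_inter, Finset.mem_image] at hb
    obtain ⟨⟨w, hwF, rfl⟩, hb⟩ := hb
    exact ⟨w, Finset.mem_inter.2 ⟨hwF, Ctr_mem_lft.2 hb⟩⟩
  · rintro ⟨w, hw⟩
    rw [Finset.mem_inter, Ctr_mem_lft] at hw
    exact ⟨_, Finset.mem_inter.2 ⟨Finset.mem_image.2 ⟨w, hw.1, rfl⟩, hw.2⟩⟩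

/-- Here the sets of `L` should be sets of vertices of the contraction. -/
theorem fill_con (hΔ : IsCx Δ) (ha : a ∈ A) (hL : ∀ B ∈ L, B ⊆ vs (con Δ A a)) :
    fill (con Δ A a) L ↔ fill Δ (L.map (lft A a)) := by
  constructor
  · rintro ⟨G, ⟨F, hFΔ, rfl⟩, hG⟩
    refine ⟨F, hFΔ, fun B' hB' => ?_⟩
    obtain ⟨B, hB, rfl⟩ := List.mem_map.1 hB'
    exact (Ctr_inter F).1 (hG B hB)
  · rintro ⟨F, hFΔ, hF⟩
    exact ⟨_, ⟨F, hFΔ, rfl⟩, fun B hB => (Ctr_inter F).2 (hF _ (List.mem_map.2 ⟨B, hB, rfl⟩))⟩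

theorem IsCx.con (h : IsCx Δ) : IsCx (con Δ A a) := by
  refine ⟨⟨∅, h.empty, Finset.image_empty _⟩, ?_⟩
  rintro G ⟨F, hFΔ, rfl⟩ G' hG'
  refine ⟨F.filter fun v => (if v ∈ A then a else v) ∈ G', h.down F hFΔ _
    (Finset.filter_subset _ _), ?_⟩
  ext v
  rw [Finset.mem_image]
  constructor
  · rintro ⟨w, hw, rfl⟩
    exact (Finset.mem_filter.1 hw).2
  · intro hv
    obtain ⟨w, hwF, hw⟩ := Finset.mem_image.1 (hG' hv)
    refine ⟨w, Finset.mem_filter.2 ⟨hwF, ?_⟩, hw⟩
    rw [hw]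
    exact hv

theorem Ctr_CM (hΔ : IsCx Δ) (hA : Conn Δ A) (ha : a ∈ A) (h : CM (con Δ A a) L) :
    CM Δ (L.map (lft A a)) := by
  refine ⟨?_, ?_⟩
  · intro B' hB'
    obtain ⟨B, hB, rfl⟩ := List.mem_map.1 hB'
    exact (conn_con hΔ hA ha (h.1 B hB).1).1 (h.1 B hB)
  · rw [List.pairwise_map]
    refine h.2.imp_of_mem ?_
    intro B C hB hC hBC
    exact ⟨Ctr_lft_disjoint hBC.1,
      (touch_con hΔ ha hBC.1 (h.1 B hB).1 (h.1 C hC).1).1 hBC.2⟩

/-- The class is closed under contraction. PROOF: all rules for `con Δ A a` are the rules of `Δ` for the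
lifted sets `lft A a B` (`touch_con`, `conn_con`, `fill_con`; the lifts of disjoint sets are
disjoint). -/
theorem InP.con (h : InP Δ) (hA : Conn Δ A) (ha : a ∈ A) : InP (con Δ A a) := by
  have hΔ := h.cx
  refine ⟨hΔ.con, ?_, ?_, ?_, ?_, ?_⟩
  · intro B₁ B₂ B₃ B₄ hm
    have h1 := h.k4 _ _ _ _ (Ctr_CM hΔ hA ha hm)
    have hv : ∀ B ∈ [B₁, B₂, B₃, B₄], B ⊆ vs (St.con Δ A a) := fun B hB => (hm.1 B hB).1
    rw [fill_con hΔ ha (fun B hB => hv B (by
        simp only [List.mem_cons, List.not_mem_nil, or_false] at hB ⊢; tauto)),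
      fill_con hΔ ha (fun B hB => hv B (by
        simp only [List.mem_cons, List.not_mem_nil, or_false] at hB ⊢; tauto)),
      fill_con hΔ ha (fun B hB => hv B (by
        simp only [List.mem_cons, List.not_mem_nil, or_false] at hB ⊢; tauto))]
    exact h1
  · intro B₁ B₂ B₃ B₄ B₅ hm
    have h1 := h.k5 _ _ _ _ _ (Ctr_CM hΔ hA ha hm)
    have hv : ∀ B ∈ [B₁, B₂, B₃, B₄, B₅], B ⊆ vs (St.con Δ A a) := fun B hB => (hm.1 B hB).1
    rw [fill_con hΔ ha (fun B hB => hv B (by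
        simp only [List.mem_cons, List.not_mem_nil, or_false] at hB ⊢; tauto)),
      fill_con hΔ ha (fun B hB => hv B (by
        simp only [List.mem_cons, List.not_mem_nil, or_false] at hB ⊢; tauto))]
    exact h1
  · intro B₁ B₂ B₃ B₄ B₅ B₆ hm
    have h1 := h.k6 _ _ _ _ _ _ (Ctr_CM hΔ hA ha hm)
    have hv : ∀ B ∈ [B₁, B₂, B₃, B₄, B₅, B₆], B ⊆ vs (St.con Δ A a) := fun B hB => (hm.1 B hB).1
    rw [fill_con hΔ ha (fun B hB => hv B (by
        simp only [List.mem_cons, List.not_mem_nil, or_false] at hB ⊢; tauto)),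
      fill_con hΔ ha (fun B hB => hv B (by
        simp only [List.mem_cons, List.not_mem_nil, or_false] at hB ⊢; tauto))]
    exact h1
  · intro 𝒜 hc hp ht
    obtain ⟨F, hFΔ, hF⟩ := h.nf (𝒜.image (lft A a)) (by
        intro B' hB'
        obtain ⟨B, hB, rfl⟩ := Finset.mem_image.1 hB'
        exact (conn_con hΔ hA ha (hc B hB).1).1 (hc B hB)) (by
        intro B' hB' C' hC' hne
        obtain ⟨B, hB, rfl⟩ := Finset.mem_image.1 hB'
        obtain ⟨C, hC, rfl⟩ := Finset.mem_image.1 hC'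
        have hBC := hp B hB C hC (fun e => hne (by rw [e]))
        exact ⟨Ctr_lft_disjoint hBC.1,
          (touch_con hΔ ha hBC.1 (hc B hB).1 (hc C hC).1).1 hBC.2⟩) (by
        intro B' hB' C' hC' D' hD' hBC hBD hCD
        obtain ⟨B, hB, rfl⟩ := Finset.mem_image.1 hB'
        obtain ⟨C, hC, rfl⟩ := Finset.mem_image.1 hC'
        obtain ⟨D, hD, rfl⟩ := Finset.mem_image.1 hD'
        have h1 := ht B hB C hC D hD (fun e => hBC (by rw [e])) (fun e => hBD (by rw [e]))
          (fun e => hCD (by rw [e]))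
        rw [fill_con hΔ ha ?_] at h1
        · exact h1
        · intro E hE
          simp only [List.mem_cons, List.not_mem_nil, or_false] at hE
          rcases hE with rfl | rfl | rfl
          · exact (hc _ hB).1
          · exact (hc _ hC).1
          · exact (hc _ hD).1)
    exact ⟨_, ⟨F, hFΔ, rfl⟩, fun B hB => (Ctr_inter F).2
      (hF _ (Finset.mem_image.2 ⟨B, hB, rfl⟩))⟩
  · intro v w s t u z hc hd f1 f2 f3 f4 f5 f6 t1 t2 t3 t4
    have hv : ∀ B ∈ [v, w, s, t, u, z], B ⊆ vs (St.con Δ A a) := fun B hB => (hc B hB).1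
    have hd' : ([v, w, s, t, u, z].map (lft A a)).Pairwise (fun A B => Disjoint A B) := by
      rw [List.pairwise_map]
      exact hd.imp fun hBC => Ctr_lft_disjoint hBC
    have hc' : ∀ B ∈ [v, w, s, t, u, z].map (lft A a), Conn Δ B := by
      intro B' hB'
      obtain ⟨B, hB, rfl⟩ := List.mem_map.1 hB'
      exact (conn_con hΔ hA ha (hc B hB).1).1 (hc B hB)
    have hfill : ∀ B₁ B₂ B₃ : Finset V, B₁ ∈ [v, w, s, t, u, z] → B₂ ∈ [v, w, s, t, u, z] →
        B₃ ∈ [v, w, s, t, u, z] → (fill (St.con Δ A a) [B₁, B₂, B₃] ↔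
          fill Δ [lft A a B₁, lft A a B₂, lft A a B₃]) := by
      intro B₁ B₂ B₃ h1 h2 h3
      refine fill_con hΔ ha ?_
      intro E hE
      simp only [List.mem_cons, List.not_mem_nil, or_false] at hE
      rcases hE with rfl | rfl | rfl
      · exact hv _ h1
      · exact hv _ h2
      · exact hv _ h3
    have htouch : ∀ B₁ B₂ : Finset V, B₁ ∈ [v, w, s, t, u, z] → B₂ ∈ [v, w, s, t, u, z] →
        Disjoint B₁ B₂ → (touch (St.con Δ A a) B₁ B₂ ↔ touch Δ (lft A a B₁) (lft A a B₂)) :=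
      fun B₁ B₂ h1 h2 h3 => touch_con hΔ ha h3 (hv _ h1) (hv _ h2)
    simp only [List.pairwise_cons, List.mem_cons, List.not_mem_nil, or_false, forall_eq_or_imp,
      forall_eq] at hd
    refine h.x6 (lft A a v) (lft A a w) (lft A a s) (lft A a t) (lft A a u) (lft A a z) hc' hd'
      ((hfill v w s (by simp) (by simp) (by simp)).1 f1)
      ((hfill w s t (by simp) (by simp) (by simp)).1 f2)
      ((hfill s t u (by simp) (by simp) (by simp)).1 f3)
      ((hfill t u z (by simp) (by simp) (by simp)).1 f4)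
      ((hfill u z v (by simp) (by simp) (by simp)).1 f5)
      (fun hh => f6 ((hfill v s u (by simp) (by simp) (by simp)).2 hh))
      (fun hh => t1 ((htouch v t (by simp) (by simp) ?_).2 hh))
      (fun hh => t2 ((htouch w u (by simp) (by simp) ?_).2 hh))
      (fun hh => t3 ((htouch w z (by simp) (by simp) ?_).2 hh))
      (fun hh => t4 ((htouch s z (by simp) (by simp) ?_).2 hh))
    · exact hd.1.2.2.1
    · exact hd.2.1.2.2.1
    · exact hd.2.1.2.2.2
    · exact hd.2.2.1.2.2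

end Pool.Agent.Lib.MP_73b196_co.St
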