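import Pool.Agent.Lib.MP_73b196_co.St.Rules
import Pool.Agent.Lib.MP_73b196_co.St.Comp

/-!
# Hollow cycles

`HC Δ n z`: the sequence `z : ℤ → V` is periodic with period `n ≥ 3` and runs around a hollow cycle (a hollow
triangle, `n = 3`, or an induced cycle of length `n ≥ 4`). `arc z a b` is the set of the `z i`, `a ≤ i < b`.
For a set `X` off the cycle (`Off z X`): `At Δ z X i` means that `X` touches `z i`, `Fl Δ z X i` that some face
contains `z i`, `z (i+1)` and an element of `X` (we say that `X` fills the edge `i`).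
-/

set_option autoImplicit false

namespace Pool.Agent.Lib.MP_73b196_co.St

variable {V : Type} [Fintype V] [DecidableEq V] {Δ : Set (Finset V)} {n : ℕ} {z : ℤ → V}
  {A B X Y : Finset V} {a b c d i j k : ℤ} {v : V}

/-- A hollow cycle with `n` vertices `z 0, ..., z (n-1)`, extended periodically. -/
structure HC (Δ : Set (Finset V)) (n : ℕ) (z : ℤ → V) : Prop where
  three : 3 ≤ n
  per : ∀ i j : ℤ, z i = z j ↔ (n : ℤ) ∣ i - j
  adjIff : ∀ i j : ℤ, adj Δ (z i) (z j) ↔ (n : ℤ) ∣ i - j - 1 ∨ (n : ℤ) ∣ i - j + 1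
  hollow : ∀ i j k : ℤ, z i ≠ z j → z i ≠ z k → z j ≠ z k → ({z i, z j, z k} : Finset V) ∉ Δ

/-- The arc of the `z i`, `a ≤ i < b`. -/
noncomputable def arc (z : ℤ → V) (a b : ℤ) : Finset V := (Finset.Ico a b).image z

/-- `X` is disjoint from the cycle. -/
def Off (z : ℤ → V) (X : Finset V) : Prop := ∀ i, z i ∉ X

/-- `X` touches `z i`. -/
def At (Δ : Set (Finset V)) (z : ℤ → V) (X : Finset V) (i : ℤ) : Prop := touch Δ X {z i}

/-- `X` fills the edge `z i, z (i+1)`. -/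
def Fl (Δ : Set (Finset V)) (z : ℤ → V) (X : Finset V) (i : ℤ) : Prop :=
  fill Δ [X, {z i}, {z (i + 1)}]

/-- `X` is attached to at least three vertices of the cycle. -/
def At3 (Δ : Set (Finset V)) (n : ℕ) (z : ℤ → V) (X : Finset V) : Prop :=
  ∃ i j k : ℤ, i < j ∧ j < k ∧ k < i + n ∧ At Δ z X i ∧ At Δ z X j ∧ At Δ z X k

/-- `X` has the centre `c`: it fills the edges `c-1` and `c` and is attached to `z (c-1), z c, z (c+1)`
only. -/
def Ctr (Δ : Set (Finset V)) (n : ℕ) (z : ℤ → V) (X : Finset V) (c : ℤ) : Prop :=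
  Fl Δ z X (c - 1) ∧ Fl Δ z X c ∧ ∀ i : ℤ, c + 1 < i → i < c - 1 + n → ¬ At Δ z X i

/-- Small: `X` fills the edge `k` and is attached to its two ends only. -/
def Sm (Δ : Set (Finset V)) (n : ℕ) (z : ℤ → V) (X : Finset V) (k : ℤ) : Prop :=
  Fl Δ z X k ∧ ∀ i : ℤ, k + 1 < i → i < k + n → ¬ At Δ z X i

/-- Big: `X` fills all edges of the cycle except the edge `k`. -/
def Bg (Δ : Set (Finset V)) (n : ℕ) (z : ℤ → V) (X : Finset V) (k : ℤ) : Prop :=
  ¬ Fl Δ z X k ∧ ∀ i : ℤ, k < i → i < k + n → Fl Δ z X i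

/-- `t` is an apex of the hollow cycle. -/
def Ap (Δ : Set (Finset V)) (z : ℤ → V) (t : V) : Prop :=
  (∀ i : ℤ, z i ≠ t) ∧ ∀ i : ℤ, ({t, z i, z (i + 1)} : Finset V) ∈ Δ

/-- The hypotheses of a counterexample of S2 (cone vertices are allowed). -/
structure Vio (Δ : Set (Finset V)) : Prop where
  inP : InP Δ
  conn : ∀ F ∈ Δ, Conn Δ (vs Δ \ F)
  noEF : ∀ x y, ¬ EdgeFacet Δ x y
  noPair : NoPair Δ
  noTri : ∀ a b c, adj Δ a b → adj Δ a c → adj Δ b c → ({a, b, c} : Finset V) ∉ Δ →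
    Conn Δ (vs Δ \ {a, b, c})

theorem HC.eq_of (h : HC Δ n z) (hd : (n : ℤ) ∣ i - j) : z i = z j := (h.per i j).2 hd

theorem HC.eq_add (h : HC Δ n z) (i : ℤ) : z (i + n) = z i := h.eq_of (by simp)

theorem HC.pos (h : HC Δ n z) : (3 : ℤ) ≤ n := by
  have := h.three
  omega

theorem HC.ne_of (h : HC Δ n z) (h1 : i < j) (h2 : j < i + n) : z i ≠ z j := by
  intro e
  have h3 := (h.per j i).1 e.symm
  have h4 := Int.le_of_dvd (by omega) h3
  omega

theorem HC.adj_succ (h : HC Δ n z) (i : ℤ) : adj Δ (z i) (z (i + 1)) :=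
  (h.adjIff _ _).2 (Or.inr (by simp))

/-- Nonadjacent: two vertices with distance at least two in both directions. -/
theorem HC.not_adj (h : HC Δ n z) (h1 : i + 1 < j) (h2 : j + 1 < i + n) : ¬ adj Δ (z i) (z j) := by
  intro e
  rcases (h.adjIff j i).1 (adj_symm e) with h3 | h3
  · have h4 := Int.le_of_dvd (by omega) h3
    omega
  · have h4 := Int.le_of_dvd (by omega) h3
    omega

/-- Adjacent vertices in the window `i < j < i + n`. -/
theorem HC.adj_window (h : HC Δ n z) (h1 : i < j) (h2 : j < i + n) (he : adj Δ (z i) (z j)) :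
    j = i + 1 ∨ j = i + n - 1 := by
  by_contra hn
  push Not at hn
  exact h.not_adj (i := i) (j := j) (by omega) (by omega) he

theorem HC.mem_vs (h : HC Δ n z) (hc : IsCx Δ) (i : ℤ) : z i ∈ vs Δ :=
  (hc.adj_vs (h.adj_succ i)).1

theorem HC.shift (h : HC Δ n z) (k : ℤ) : HC Δ n (fun i => z (i + k)) where
  three := h.three
  per i j := by
    have := h.per (i + k) (j + k)
    simpa using this
  adjIff i j := by
    have := h.adjIff (i + k) (j + k)
    have e : i + k - (j + k) = i - j := by ring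
    rwa [e] at this
  hollow i j l := h.hollow _ _ _

theorem HC.refl (h : HC Δ n z) (k : ℤ) : HC Δ n (fun i => z (k - i)) where
  three := h.three
  per i j := by
    have := h.per (k - i) (k - j)
    have e : k - i - (k - j) = -(i - j) := by ring
    rwa [e, dvd_neg] at this
  adjIff i j := by
    have := h.adjIff (k - i) (k - j)
    have e1 : k - i - (k - j) - 1 = -(i - j + 1) := by ring
    have e2 : k - i - (k - j) + 1 = -(i - j - 1) := by ring
    rw [e1, e2, dvd_neg, dvd_neg] at this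
    rw [this]
    exact or_comm
  hollow i j l := h.hollow _ _ _

/-! ### Arcs -/

theorem mem_arc : v ∈ arc z a b ↔ ∃ i, a ≤ i ∧ i < b ∧ z i = v := by
  unfold arc
  simp only [Finset.mem_image, Finset.mem_Ico]
  constructor
  · rintro ⟨i, ⟨h1, h2⟩, h3⟩
    exact ⟨i, h1, h2, h3⟩
  · rintro ⟨i, h1, h2, h3⟩
    exact ⟨i, ⟨h1, h2⟩, h3⟩

theorem mem_arc_of (h1 : a ≤ i) (h2 : i < b) : z i ∈ arc z a b := mem_arc.2 ⟨i, h1, h2, rfl⟩

theorem arc_single (z : ℤ → V) (a : ℤ) : arc z a (a + 1) = {z a} := by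
  ext v
  rw [mem_arc, Finset.mem_singleton]
  constructor
  · rintro ⟨i, h1, h2, h3⟩
    have : i = a := by omega
    rw [← h3, this]
  · rintro h
    exact ⟨a, le_refl a, by omega, h.symm⟩

theorem arc_union (h1 : a ≤ b) (h2 : b ≤ c) : arc z a b ∪ arc z b c = arc z a c := by
  ext v
  rw [Finset.mem_union, mem_arc, mem_arc, mem_arc]
  constructor
  · rintro (⟨i, h3, h4, h5⟩ | ⟨i, h3, h4, h5⟩)
    · exact ⟨i, h3, by omega, h5⟩
    · exact ⟨i, by omega, h4, h5⟩
  · rintro ⟨i, h3, h4, h5⟩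
    by_cases h6 : i < b
    · exact Or.inl ⟨i, h3, h6, h5⟩
    · exact Or.inr ⟨i, by omega, h4, h5⟩

theorem arc_shift (z : ℤ → V) (k a b : ℤ) :
    arc (fun i => z (i + k)) a b = arc z (a + k) (b + k) := by
  ext v
  rw [mem_arc, mem_arc]
  constructor
  · rintro ⟨i, h1, h2, h3⟩
    exact ⟨i + k, by omega, by omega, h3⟩
  · rintro ⟨i, h1, h2, h3⟩
    exact ⟨i - k, by omega, by omega, by simpa using h3⟩

theorem arc_refl (z : ℤ → V) (k a b : ℤ) :
    arc (fun i => z (k - i)) a b = arc z (k - b + 1) (k - a + 1) := by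
  ext v
  rw [mem_arc, mem_arc]
  constructor
  · rintro ⟨i, h1, h2, h3⟩
    exact ⟨k - i, by omega, by omega, h3⟩
  · rintro ⟨i, h1, h2, h3⟩
    exact ⟨k - i, by omega, by omega, by simpa using h3⟩

/-- Every vertex of the cycle is in the window of `n` indices starting with `a`. -/
theorem HC.window (h : HC Δ n z) (a i : ℤ) : ∃ j, a ≤ j ∧ j < a + n ∧ z j = z i ∧ (n : ℤ) ∣ i - j := by
  have h3 := h.pos
  refine ⟨a + (i - a) % n, ?_, ?_, ?_, ?_⟩
  · have := Int.emod_nonneg (i - a) (b := (n : ℤ)) (by omega)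
    omega
  · have := Int.emod_lt_of_pos (i - a) (b := (n : ℤ)) (by omega)
    omega
  · apply h.eq_of
    have h4 := Int.emod_add_mul_ediv (i - a) n
    refine ⟨-((i - a) / n), ?_⟩
    linarith
  · have h4 := Int.emod_add_mul_ediv (i - a) n
    refine ⟨(i - a) / n, ?_⟩
    linarith

theorem HC.arc_all (h : HC Δ n z) (a b : ℤ) : arc z a (a + n) = arc z b (b + n) := by
  ext v
  rw [mem_arc, mem_arc]
  constructor
  · rintro ⟨i, _, _, h3⟩
    obtain ⟨j, h4, h5, h6, _⟩ := h.window b i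
    exact ⟨j, h4, h5, h6.trans h3⟩
  · rintro ⟨i, _, _, h3⟩
    obtain ⟨j, h4, h5, h6, _⟩ := h.window a i
    exact ⟨j, h4, h5, h6.trans h3⟩

theorem HC.mem_all (h : HC Δ n z) (a i : ℤ) : z i ∈ arc z a (a + n) := by
  obtain ⟨j, h4, h5, h6, _⟩ := h.window a i
  exact mem_arc.2 ⟨j, h4, h5, h6⟩

theorem HC.arc_sub (h : HC Δ n z) (hc : IsCx Δ) : arc z a b ⊆ vs Δ := by
  intro v hv
  obtain ⟨i, _, _, rfl⟩ := mem_arc.1 hv
  exact h.mem_vs hc i

theorem HC.arc_conn (h : HC Δ n z) (hc : IsCx Δ) (hab : a < b) : Conn Δ (arc z a b) := by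
  have key : ∀ m : ℕ, Conn Δ (arc z a (a + 1 + m)) := by
    intro m
    induction m with
    | zero =>
      simp only [Nat.cast_zero, add_zero]
      rw [arc_single]
      exact conn_single (h.mem_vs hc a)
    | succ m ih =>
      have e : arc z a (a + 1 + ((m + 1 : ℕ) : ℤ)) = insert (z (a + 1 + m)) (arc z a (a + 1 + m)) := by
        have e1 : a + 1 + ((m + 1 : ℕ) : ℤ) = (a + 1 + m) + 1 := by push_cast; ring
        rw [e1, ← arc_union (z := z) (a := a) (b := a + 1 + m) (c := a + 1 + m + 1) (by omega)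
          (by omega), arc_single, Finset.union_comm]
        rfl
      rw [e]
      refine ih.insert (h.mem_vs hc _) (touch_single_left.2 ⟨z (a + m), mem_arc_of (by omega)
        (by omega), ?_⟩)
      have := h.adj_succ (a + m)
      have e2 : a + (m : ℤ) + 1 = a + 1 + m := by ring
      rw [e2] at this
      exact adj_symm this
  have e : b = a + 1 + ((b - a - 1).toNat : ℤ) := by
    rw [Int.toNat_of_nonneg (by omega)]
    ring
  rw [e]
  exact key _

theorem HC.arc_disj (h : HC Δ n z) (h1 : b ≤ c) (h2 : d ≤ a + n) :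
    Disjoint (arc z a b) (arc z c d) := by
  rw [Finset.disjoint_left]
  intro v hv hv'
  obtain ⟨i, h3, h4, rfl⟩ := mem_arc.1 hv
  obtain ⟨j, h5, h6, h7⟩ := mem_arc.1 hv'
  exact h.ne_of (i := i) (j := j) (by omega) (by omega) h7.symm

theorem HC.arc_touch (h : HC Δ n z) (h1 : a < b) (h2 : b < c) :
    touch Δ (arc z a b) (arc z b c) := by
  refine ⟨z (b - 1), mem_arc_of (by omega) (by omega), z b, mem_arc_of (by omega) (by omega), ?_⟩
  have := h.adj_succ (b - 1)
  have e : b - 1 + 1 = b := by ring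
  rwa [e] at this

/-- The last arc touches the first one. -/
theorem HC.arc_touch_wrap (h : HC Δ n z) (h1 : a < b) (h2 : c < a + n) :
    touch Δ (arc z a b) (arc z c (a + n)) := by
  refine ⟨z a, mem_arc_of (by omega) (by omega), z (a + n - 1), mem_arc_of (by omega) (by omega), ?_⟩
  refine (h.adjIff _ _).2 (Or.inl ⟨-1, ?_⟩)
  ring

theorem HC.arc_not_touch (h : HC Δ n z) (h1 : b < c) (h2 : d < a + n) :
    ¬ touch Δ (arc z a b) (arc z c d) := by
  rintro ⟨v, hv, w, hw, hvw⟩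
  obtain ⟨i, h3, h4, rfl⟩ := mem_arc.1 hv
  obtain ⟨j, h5, h6, rfl⟩ := mem_arc.1 hw
  exact h.not_adj (i := i) (j := j) (by omega) (by omega) hvw

/-- Three arcs of the cycle are a clique model which is not filled. -/
theorem HC.cm (h : HC Δ n z) (hc : IsCx Δ) (h1 : a < b) (h2 : b < c) (h3 : c < a + n) :
    CM Δ [arc z a b, arc z b c, arc z c (a + n)] := by
  refine ⟨?_, ?_⟩
  · intro A hA
    simp only [List.mem_cons, List.not_mem_nil, or_false] at hA
    rcases hA with rfl | rfl | rfl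
    · exact h.arc_conn hc h1
    · exact h.arc_conn hc h2
    · exact h.arc_conn hc h3
  · simp only [List.pairwise_cons, List.mem_cons, List.not_mem_nil, or_false, List.Pairwise.nil,
      and_true, IsEmpty.forall_iff, implies_true, forall_eq_or_imp, forall_eq]
    exact ⟨⟨⟨h.arc_disj le_rfl (by omega), h.arc_touch h1 h2⟩,
      h.arc_disj (by omega) le_rfl, h.arc_touch_wrap h1 h3⟩,
      h.arc_disj le_rfl (by omega), h.arc_touch h2 h3⟩

/-- A face inside the cycle has at most two elements. -/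
theorem HC.no_three (h : HC Δ n z) (hc : IsCx Δ) {F : Finset V} (hF : F ∈ Δ) (hi : z i ∈ F)
    (hj : z j ∈ F) (hk : z k ∈ F) (h1 : z i ≠ z j) (h2 : z i ≠ z k) (h3 : z j ≠ z k) : False := by
  refine h.hollow i j k h1 h2 h3 (hc.down F hF _ ?_)
  intro v hv
  simp only [Finset.mem_insert, Finset.mem_singleton] at hv
  rcases hv with rfl | rfl | rfl <;> assumption

theorem HC.not_fill (h : HC Δ n z) (hc : IsCx Δ) (h1 : a ≤ b) (h2 : b ≤ c) (h3 : c ≤ a + n) :
    ¬ fill Δ [arc z a b, arc z b c, arc z c (a + n)] := by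
  rintro ⟨F, hF, hm⟩
  obtain ⟨u, hu⟩ := hm (arc z a b) (by simp)
  obtain ⟨v, hv⟩ := hm (arc z b c) (by simp)
  obtain ⟨w, hw⟩ := hm (arc z c (a + n)) (by simp)
  rw [Finset.mem_inter] at hu hv hw
  obtain ⟨i, h5, h6, rfl⟩ := mem_arc.1 hu.2
  obtain ⟨j, h7, h8, rfl⟩ := mem_arc.1 hv.2
  obtain ⟨k, h9, h10, rfl⟩ := mem_arc.1 hw.2
  exact h.no_three hc hF hu.1 hv.1 hw.1 (h.ne_of (by omega) (by omega))
    (h.ne_of (by omega) (by omega)) (h.ne_of (by omega) (by omega))

/-! ### Attachments -/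

theorem Off.ne (hX : Off z X) {x : V} (hx : x ∈ X) : x ≠ z i := fun e => hX i (e ▸ hx)

theorem Off.disj (hX : Off z X) : Disjoint X (arc z a b) := by
  rw [Finset.disjoint_left]
  intro x hx hx'
  obtain ⟨i, _, _, h⟩ := mem_arc.1 hx'
  exact hX i (h ▸ hx)

theorem Off.mono (hX : Off z X) (h : Y ⊆ X) : Off z Y := fun i hi => hX i (h hi)

theorem Off.union (hX : Off z X) (hY : Off z Y) : Off z (X ∪ Y) := fun i hi =>
  (Finset.mem_union.1 hi).elim (hX i) (hY i)

theorem HC.off_iff (h : HC Δ n z) : Off z X ↔ Disjoint X (arc z 0 n) := by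
  constructor
  · intro hX
    exact hX.disj
  · intro hd i hi
    have := h.mem_all 0 i
    rw [zero_add] at this
    exact Finset.disjoint_left.1 hd hi this

theorem Fl.at (hc : IsCx Δ) (hX : Off z X) (h : Fl Δ z X i) : At Δ z X i ∧ At Δ z X (i + 1) := by
  obtain ⟨F, hF, hm⟩ := h
  obtain ⟨x, hx⟩ := hm X (by simp)
  obtain ⟨u, hu⟩ := hm {z i} (by simp)
  obtain ⟨v, hv⟩ := hm {z (i + 1)} (by simp)
  rw [Finset.mem_inter] at hx hu hv
  rw [Finset.mem_singleton] at hu hv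
  refine ⟨⟨x, hx.2, z i, Finset.mem_singleton_self _, ?_⟩, ⟨x, hx.2, z (i + 1),
    Finset.mem_singleton_self _, ?_⟩⟩
  · exact hc.adj_of_face hF hx.1 (hu.2 ▸ hu.1) (hX.ne hx.2)
  · exact hc.adj_of_face hF hx.1 (hv.2 ▸ hv.1) (hX.ne hx.2)

theorem HC.at_congr (h : HC Δ n z) (hd : (n : ℤ) ∣ i - j) : At Δ z X i ↔ At Δ z X j := by
  unfold At
  rw [h.eq_of hd]

theorem HC.fl_congr (h : HC Δ n z) (hd : (n : ℤ) ∣ i - j) : Fl Δ z X i ↔ Fl Δ z X j := by
  unfold Fl
  rw [h.eq_of hd, h.eq_of (i := i + 1) (j := j + 1) (by simpa using hd)]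

theorem Fl.mono (hXY : X ⊆ Y) (h : Fl Δ z X i) : Fl Δ z Y i := by
  obtain ⟨F, hF, hm⟩ := h
  refine ⟨F, hF, fun A hA => ?_⟩
  simp only [List.mem_cons, List.not_mem_nil, or_false] at hA
  rcases hA with rfl | rfl | rfl
  · exact (hm X (by simp)).mono (Finset.inter_subset_inter_left hXY)
  · exact hm _ (by simp)
  · exact hm _ (by simp)

theorem fl_union : Fl Δ z (X ∪ Y) i ↔ Fl Δ z X i ∨ Fl Δ z Y i := by
  constructor
  · rintro ⟨F, hF, hm⟩
    obtain ⟨x, hx⟩ := hm (X ∪ Y) (by simp)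
    rw [Finset.mem_inter, Finset.mem_union] at hx
    rcases hx.2 with h | h
    · refine Or.inl ⟨F, hF, fun A hA => ?_⟩
      simp only [List.mem_cons, List.not_mem_nil, or_false] at hA
      rcases hA with rfl | rfl | rfl
      · exact ⟨x, Finset.mem_inter.2 ⟨hx.1, h⟩⟩
      · exact hm _ (by simp)
      · exact hm _ (by simp)
    · refine Or.inr ⟨F, hF, fun A hA => ?_⟩
      simp only [List.mem_cons, List.not_mem_nil, or_false] at hA
      rcases hA with rfl | rfl | rfl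
      · exact ⟨x, Finset.mem_inter.2 ⟨hx.1, h⟩⟩
      · exact hm _ (by simp)
      · exact hm _ (by simp)
  · rintro (h | h)
    · exact h.mono Finset.subset_union_left
    · exact h.mono Finset.subset_union_right

theorem touch_arc : touch Δ X (arc z a b) ↔ ∃ i, a ≤ i ∧ i < b ∧ At Δ z X i := by
  constructor
  · rintro ⟨x, hx, v, hv, hxv⟩
    obtain ⟨i, h1, h2, rfl⟩ := mem_arc.1 hv
    exact ⟨i, h1, h2, x, hx, z i, Finset.mem_singleton_self _, hxv⟩
  · rintro ⟨i, h1, h2, x, hx, v, hv, hxv⟩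
    rw [Finset.mem_singleton] at hv
    exact ⟨x, hx, v, hv ▸ mem_arc_of h1 h2, hxv⟩

theorem At.mono (hXY : X ⊆ Y) (h : At Δ z X i) : At Δ z Y i :=
  touch_mono hXY (Finset.Subset.refl _) h

/-- `X` and two neighbouring arcs: only the edge between the arcs counts. -/
theorem HC.fill_arcs (h : HC Δ n z) (hc : IsCx Δ) (hX : Off z X) (h1 : a < b) (h2 : b < c)
    (h3 : c < a + n) : fill Δ [X, arc z a b, arc z b c] ↔ Fl Δ z X (b - 1) := by
  constructor
  · rintro ⟨F, hF, hm⟩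
    obtain ⟨x, hx⟩ := hm X (by simp)
    obtain ⟨u, hu⟩ := hm (arc z a b) (by simp)
    obtain ⟨v, hv⟩ := hm (arc z b c) (by simp)
    rw [Finset.mem_inter] at hx hu hv
    obtain ⟨i, h5, h6, rfl⟩ := mem_arc.1 hu.2
    obtain ⟨j, h7, h8, rfl⟩ := mem_arc.1 hv.2
    have hne : z i ≠ z j := h.ne_of (by omega) (by omega)
    rcases h.adj_window (by omega) (by omega) (hc.adj_of_face hF hu.1 hv.1 hne) with h9 | h9
    · have e1 : i = b - 1 := by omega
      have e2 : j = b - 1 + 1 := by omega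
      subst e1
      subst e2
      refine ⟨F, hF, fun A hA => ?_⟩
      simp only [List.mem_cons, List.not_mem_nil, or_false] at hA
      rcases hA with rfl | rfl | rfl
      · exact ⟨x, Finset.mem_inter.2 hx⟩
      · exact ⟨_, Finset.mem_inter.2 ⟨hu.1, Finset.mem_singleton_self _⟩⟩
      · exact ⟨_, Finset.mem_inter.2 ⟨hv.1, Finset.mem_singleton_self _⟩⟩
    · omega
  · rintro ⟨F, hF, hm⟩
    obtain ⟨u, hu⟩ := hm {z (b - 1)} (by simp)
    obtain ⟨v, hv⟩ := hm {z (b - 1 + 1)} (by simp)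
    rw [Finset.mem_inter, Finset.mem_singleton] at hu hv
    refine ⟨F, hF, fun A hA => ?_⟩
    simp only [List.mem_cons, List.not_mem_nil, or_false] at hA
    rcases hA with rfl | rfl | rfl
    · exact hm _ (by simp)
    · exact ⟨z (b - 1), Finset.mem_inter.2 ⟨hu.2 ▸ hu.1, mem_arc_of (by omega) (by omega)⟩⟩
    · refine ⟨z b, Finset.mem_inter.2 ⟨?_, mem_arc_of (by omega) (by omega)⟩⟩
      have e : b - 1 + 1 = b := by ring
      rw [e] at hv
      exact hv.2 ▸ hv.1

/-- The same for the last and the first arc. -/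
theorem HC.fill_arcs_wrap (h : HC Δ n z) (hc : IsCx Δ) (hX : Off z X) (h1 : a < b) (h2 : b < c)
    (h3 : c < a + n) : fill Δ [X, arc z a b, arc z c (a + n)] ↔ Fl Δ z X (a - 1) := by
  have h4 := h.fill_arcs hc hX (a := c) (b := a + n) (c := b + n) h3 (by omega) (by omega)
  have e : arc z (a + n) (b + n) = arc z a b := by
    ext v
    rw [mem_arc, mem_arc]
    constructor
    · rintro ⟨i, h5, h6, h7⟩
      exact ⟨i - n, by omega, by omega, by rw [← h7]; exact h.eq_of ⟨-1, by ring⟩⟩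
    · rintro ⟨i, h5, h6, h7⟩
      exact ⟨i + n, by omega, by omega, by rw [← h7]; exact h.eq_of ⟨1, by ring⟩⟩
  rw [e, h.fl_congr (i := a + n - 1) (j := a - 1) ⟨1, by ring⟩] at h4
  rw [← h4]
  refine fill_perm ?_
  exact (List.Perm.swap _ _ _).cons X

/-- Shifting and reflecting. -/
theorem at_shift (k : ℤ) : At Δ (fun i => z (i + k)) X i ↔ At Δ z X (i + k) := Iff.rfl

theorem fl_shift (k : ℤ) : Fl Δ (fun i => z (i + k)) X i ↔ Fl Δ z X (i + k) := by
  unfold Fl
  have e : i + 1 + k = i + k + 1 := by ring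
  simp only [e]

theorem at_refl (k : ℤ) : At Δ (fun i => z (k - i)) X i ↔ At Δ z X (k - i) := Iff.rfl

theorem fl_refl (k : ℤ) : Fl Δ (fun i => z (k - i)) X i ↔ Fl Δ z X (k - i - 1) := by
  unfold Fl
  have e1 : k - i - 1 + 1 = k - i := by ring
  have e2 : k - (i + 1) = k - i - 1 := by ring
  simp only [e1, e2]
  exact fill_perm ((List.Perm.swap _ _ _).cons X)

theorem off_shift (k : ℤ) (hX : Off z X) : Off (fun i => z (i + k)) X := fun i => hX (i + k)

theorem off_refl (k : ℤ) (hX : Off z X) : Off (fun i => z (k - i)) X := fun i => hX (k - i)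

/-- A face inside `X ∪ cycle`: an edge of the cycle together with a vertex. -/
theorem fl_of_face {F : Finset V} {x : V} (hF : F ∈ Δ) (hx : x ∈ F) (hX : x ∈ X) (hi : z i ∈ F)
    (hi' : z (i + 1) ∈ F) : Fl Δ z X i := by
  refine ⟨F, hF, fun A hA => ?_⟩
  simp only [List.mem_cons, List.not_mem_nil, or_false] at hA
  rcases hA with rfl | rfl | rfl
  · exact ⟨x, Finset.mem_inter.2 ⟨hx, hX⟩⟩
  · exact ⟨_, Finset.mem_inter.2 ⟨hi, Finset.mem_singleton_self _⟩⟩
  · exact ⟨_, Finset.mem_inter.2 ⟨hi', Finset.mem_singleton_self _⟩⟩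

theorem Fl.face (hc : IsCx Δ) (h : Fl Δ z X i) :
    ∃ x ∈ X, ({x, z i, z (i + 1)} : Finset V) ∈ Δ := by
  obtain ⟨F, hF, hm⟩ := h
  obtain ⟨x, hx⟩ := hm X (by simp)
  obtain ⟨u, hu⟩ := hm {z i} (by simp)
  obtain ⟨v, hv⟩ := hm {z (i + 1)} (by simp)
  rw [Finset.mem_inter] at hx hu hv
  rw [Finset.mem_singleton] at hu hv
  refine ⟨x, hx.2, hc.down F hF _ ?_⟩
  intro w hw
  simp only [Finset.mem_insert, Finset.mem_singleton] at hw
  rcases hw with rfl | rfl | rfl
  · exact hx.1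
  · exact hu.2 ▸ hu.1
  · exact hv.2 ▸ hv.1

/-! ### Transfer of `At3`, `Ctr`, `Sm`, `Bg`, `Ap` -/

/-- A component of the complement of the cycle is off the cycle. -/
theorem HC.off_of_sub (h : HC Δ n z) (hX : X ⊆ vs Δ \ arc z 0 n) : Off z X := by
  intro i hi
  have h1 := h.mem_all 0 i
  rw [zero_add] at h1
  exact (Finset.mem_sdiff.1 (hX hi)).2 h1

theorem HC.comp_off (h : HC Δ n z) (hX : IsComp Δ (vs Δ \ arc z 0 n) X) : Off z X :=
  h.off_of_sub hX.1

/-- A component of `vs Δ \ arc z 0 n` contains all its neighbours off the cycle. -/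
theorem HC.comp_closed (_h : HC Δ n z) (hc : IsCx Δ) (hX : IsComp Δ (vs Δ \ arc z 0 n) X) {x y : V}
    (hx : x ∈ X) (hxy : adj Δ x y) : y ∈ X ∨ ∃ i, z i = y ∧ At Δ z X i := by
  by_cases h1 : y ∈ arc z 0 n
  · obtain ⟨i, _, _, h2⟩ := mem_arc.1 h1
    refine Or.inr ⟨i, h2, x, hx, z i, Finset.mem_singleton_self _, ?_⟩
    rw [h2]
    exact hxy
  · exact Or.inl (hX.mem_of_adj hx (Finset.mem_sdiff.2 ⟨(hc.adj_vs hxy).2, h1⟩) hxy)

/-- Two different components are disjoint and do not touch. -/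
theorem comp_disj {U : Finset V} (hX : IsComp Δ U X) (hY : IsComp Δ U Y) (hne : X ≠ Y) :
    Disjoint X Y ∧ ¬ touch Δ X Y := by
  have h1 : Disjoint X Y := by
    rw [Finset.disjoint_left]
    intro v hv hv'
    exact hne (hX.eq_of hY ⟨v, Finset.mem_inter.2 ⟨hv, hv'⟩⟩)
  refine ⟨h1, ?_⟩
  rintro ⟨a, ha, b, hb, hab⟩
  exact Finset.disjoint_left.1 h1 (hX.mem_of_adj ha (hY.1 hb) hab) hb

/-- Attachments can be moved by a multiple of `n` into a window. -/
theorem HC.at_window (h : HC Δ n z) (a : ℤ) (hi : At Δ z X i) :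
    ∃ j, a ≤ j ∧ j < a + n ∧ At Δ z X j ∧ (n : ℤ) ∣ i - j := by
  obtain ⟨j, h1, h2, _, h4⟩ := h.window a i
  exact ⟨j, h1, h2, (h.at_congr h4).1 hi, h4⟩

theorem HC.fl_window (h : HC Δ n z) (a : ℤ) (hi : Fl Δ z X i) :
    ∃ j, a ≤ j ∧ j < a + n ∧ Fl Δ z X j ∧ (n : ℤ) ∣ i - j := by
  obtain ⟨j, h1, h2, _, h4⟩ := h.window a i
  exact ⟨j, h1, h2, (h.fl_congr h4).1 hi, h4⟩

/-- Every edge not congruent to `k` has a representative strictly between `k` and `k+n`. -/
theorem HC.strict_window (h : HC Δ n z) (k i : ℤ) (hi : ¬ (n : ℤ) ∣ i - k) :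
    ∃ j, k < j ∧ j < k + n ∧ (n : ℤ) ∣ i - j := by
  obtain ⟨j, h1, h2, _, h4⟩ := h.window k i
  refine ⟨j, ?_, h2, h4⟩
  rcases lt_or_eq_of_le h1 with h5 | h5
  · exact h5
  · exact absurd (h5 ▸ h4) hi

theorem at3_shift (m : ℤ) : At3 Δ n (fun i => z (i + m)) X ↔ At3 Δ n z X := by
  constructor
  · rintro ⟨i, j, k, h1, h2, h3, h4, h5, h6⟩
    exact ⟨i + m, j + m, k + m, by omega, by omega, by omega, h4, h5, h6⟩
  · rintro ⟨i, j, k, h1, h2, h3, h4, h5, h6⟩
    refine ⟨i - m, j - m, k - m, by omega, by omega, by omega, ?_, ?_, ?_⟩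
    · rw [at_shift, sub_add_cancel]
      exact h4
    · rw [at_shift, sub_add_cancel]
      exact h5
    · rw [at_shift, sub_add_cancel]
      exact h6

theorem at3_refl (m : ℤ) : At3 Δ n (fun i => z (m - i)) X ↔ At3 Δ n z X := by
  constructor
  · rintro ⟨i, j, k, h1, h2, h3, h4, h5, h6⟩
    exact ⟨m - k, m - j, m - i, by omega, by omega, by omega, h6, h5, h4⟩
  · rintro ⟨i, j, k, h1, h2, h3, h4, h5, h6⟩
    refine ⟨m - k, m - j, m - i, by omega, by omega, by omega, ?_, ?_, ?_⟩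
    · rw [at_refl, sub_sub_cancel]
      exact h6
    · rw [at_refl, sub_sub_cancel]
      exact h5
    · rw [at_refl, sub_sub_cancel]
      exact h4

theorem sm_shift (m k : ℤ) : Sm Δ n (fun i => z (i + m)) X k ↔ Sm Δ n z X (k + m) := by
  unfold Sm
  rw [fl_shift]
  refine and_congr_right fun _ => ?_
  constructor
  · intro h i h1 h2 h3
    refine h (i - m) (by omega) (by omega) ?_
    rw [at_shift, sub_add_cancel]
    exact h3
  · intro h i h1 h2 h3
    exact h (i + m) (by omega) (by omega) h3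

theorem bg_shift (m k : ℤ) : Bg Δ n (fun i => z (i + m)) X k ↔ Bg Δ n z X (k + m) := by
  unfold Bg
  rw [fl_shift]
  refine and_congr_right fun _ => ?_
  constructor
  · intro h i h1 h2
    have := h (i - m) (by omega) (by omega)
    rwa [fl_shift, sub_add_cancel] at this
  · intro h i h1 h2
    rw [fl_shift]
    exact h (i + m) (by omega) (by omega)

theorem ctr_shift (m c : ℤ) : Ctr Δ n (fun i => z (i + m)) X c ↔ Ctr Δ n z X (c + m) := by
  unfold Ctr
  rw [fl_shift, fl_shift]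
  have e : c - 1 + m = c + m - 1 := by ring
  rw [e]
  refine and_congr_right fun _ => and_congr_right fun _ => ?_
  constructor
  · intro h i h1 h2 h3
    refine h (i - m) (by omega) (by omega) ?_
    rw [at_shift, sub_add_cancel]
    exact h3
  · intro h i h1 h2 h3
    exact h (i + m) (by omega) (by omega) h3

theorem HC.ctr_refl (h : HC Δ n z) (m c : ℤ) :
    Ctr Δ n (fun i => z (m - i)) X c ↔ Ctr Δ n z X (m - c) := by
  unfold Ctr
  rw [fl_refl, fl_refl]
  have e : m - (c - 1) - 1 = m - c := by ring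
  rw [e]
  constructor
  · rintro ⟨h1, h2, h3⟩
    refine ⟨h2, h1, fun i h4 h5 h6 => ?_⟩
    refine h3 (m - (i - n)) (by omega) (by omega) ?_
    rw [at_refl, sub_sub_cancel]
    exact (h.at_congr ⟨1, by ring⟩).1 h6
  · rintro ⟨h1, h2, h3⟩
    refine ⟨h2, h1, fun i h4 h5 h6 => ?_⟩
    refine h3 (m - (i - n)) (by omega) (by omega) ?_
    rw [at_refl] at h6
    exact (h.at_congr ⟨-1, by ring⟩).1 h6

theorem HC.sm_refl (h : HC Δ n z) (m k : ℤ) :
    Sm Δ n (fun i => z (m - i)) X k ↔ Sm Δ n z X (m - k - 1) := by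
  unfold Sm
  rw [fl_refl]
  refine and_congr_right fun _ => ?_
  constructor
  · intro h1 i h2 h3 h4
    refine h1 (m - (i - n)) (by omega) (by omega) ?_
    rw [at_refl, sub_sub_cancel]
    exact (h.at_congr ⟨1, by ring⟩).1 h4
  · intro h1 i h2 h3 h4
    refine h1 (m - (i - n)) (by omega) (by omega) ?_
    rw [at_refl] at h4
    exact (h.at_congr ⟨-1, by ring⟩).1 h4

theorem HC.bg_refl (h : HC Δ n z) (m k : ℤ) :
    Bg Δ n (fun i => z (m - i)) X k ↔ Bg Δ n z X (m - k - 1) := by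
  unfold Bg
  rw [fl_refl]
  refine and_congr_right fun _ => ?_
  constructor
  · intro h1 i h2 h3
    have h4 := h1 (m - (i - n) - 1) (by omega) (by omega)
    rw [fl_refl] at h4
    exact (h.fl_congr ⟨-1, by ring⟩).1 h4
  · intro h1 i h2 h3
    rw [fl_refl]
    have h4 := h1 (m - (i - n) - 1) (by omega) (by omega)
    exact (h.fl_congr ⟨1, by ring⟩).1 h4

theorem HC.sm_congr (h : HC Δ n z) (hd : (n : ℤ) ∣ i - j) : Sm Δ n z X i ↔ Sm Δ n z X j := by
  have key : ∀ i j : ℤ, (n : ℤ) ∣ i - j → Sm Δ n z X i → Sm Δ n z X j := by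
    intro i j hd hs
    refine ⟨(h.fl_congr hd).1 hs.1, fun l h1 h2 h3 => ?_⟩
    refine hs.2 (l + (i - j)) (by omega) (by omega) ((h.at_congr ?_).1 h3)
    have e : l - (l + (i - j)) = -(i - j) := by ring
    rw [e, dvd_neg]
    exact hd
  exact ⟨key i j hd, key j i (by rw [← dvd_neg, neg_sub]; exact hd)⟩

theorem HC.bg_congr (h : HC Δ n z) (hd : (n : ℤ) ∣ i - j) : Bg Δ n z X i ↔ Bg Δ n z X j := by
  have key : ∀ i j : ℤ, (n : ℤ) ∣ i - j → Bg Δ n z X i → Bg Δ n z X j := by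
    intro i j hd hs
    refine ⟨fun h1 => hs.1 ((h.fl_congr hd).2 h1), fun l h1 h2 => ?_⟩
    have h3 := hs.2 (l + (i - j)) (by omega) (by omega)
    refine (h.fl_congr ?_).1 h3
    have e : l + (i - j) - l = i - j := by ring
    rw [e]
    exact hd
  exact ⟨key i j hd, key j i (by rw [← dvd_neg, neg_sub]; exact hd)⟩

theorem HC.ctr_congr (h : HC Δ n z) (hd : (n : ℤ) ∣ i - j) : Ctr Δ n z X i ↔ Ctr Δ n z X j := by
  have key : ∀ i j : ℤ, (n : ℤ) ∣ i - j → Ctr Δ n z X i → Ctr Δ n z X j := by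
    intro i j hd hs
    have e : i - 1 - (j - 1) = i - j := by ring
    refine ⟨(h.fl_congr (by rw [e]; exact hd)).1 hs.1, (h.fl_congr hd).1 hs.2.1,
      fun l h1 h2 h3 => ?_⟩
    refine hs.2.2 (l + (i - j)) (by omega) (by omega) ((h.at_congr ?_).1 h3)
    have e : l - (l + (i - j)) = -(i - j) := by ring
    rw [e, dvd_neg]
    exact hd
  exact ⟨key i j hd, key j i (by rw [← dvd_neg, neg_sub]; exact hd)⟩

/-- The attachments of a set with centre `c`. -/
theorem HC.ctr_at (h : HC Δ n z) (hc : IsCx Δ) (hX : Off z X) (hs : Ctr Δ n z X c) :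
    At Δ z X i ↔ (n : ℤ) ∣ i - (c - 1) ∨ (n : ℤ) ∣ i - c ∨ (n : ℤ) ∣ i - (c + 1) := by
  have h3 := h.pos
  constructor
  · intro hi
    obtain ⟨j, h1, h2, h4, h5⟩ := h.at_window (c - 1) hi
    rcases lt_or_ge (c + 1) j with h6 | h6
    · exact absurd h4 (hs.2.2 j h6 h2)
    · have h7 : j = c - 1 ∨ j = c ∨ j = c + 1 := by omega
      rcases h7 with rfl | rfl | rfl
      · exact Or.inl h5
      · exact Or.inr (Or.inl h5)
      · exact Or.inr (Or.inr h5)
  · rintro (h1 | h1 | h1)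
    · exact (h.at_congr h1).2 (Fl.at hc hX hs.1).1
    · exact (h.at_congr h1).2 (Fl.at hc hX hs.2.1).1
    · exact (h.at_congr h1).2 (Fl.at hc hX hs.2.1).2

/-- A small set is attached to the ends of its edge only. -/
theorem HC.sm_at (h : HC Δ n z) (hc : IsCx Δ) (hX : Off z X) (hs : Sm Δ n z X k) :
    At Δ z X i ↔ (n : ℤ) ∣ i - k ∨ (n : ℤ) ∣ i - (k + 1) := by
  have h3 := h.pos
  constructor
  · intro hi
    obtain ⟨j, h1, h2, h4, h5⟩ := h.at_window k hi
    rcases lt_or_ge (k + 1) j with h6 | h6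
    · exact absurd h4 (hs.2 j h6 h2)
    · have h7 : j = k ∨ j = k + 1 := by omega
      rcases h7 with rfl | rfl
      · exact Or.inl h5
      · exact Or.inr h5
  · rintro (h1 | h1)
    · exact (h.at_congr h1).2 (Fl.at hc hX hs.1).1
    · exact (h.at_congr h1).2 (Fl.at hc hX hs.1).2

/-- A small set fills its edge only. -/
theorem HC.sm_fl (h : HC Δ n z) (hc : IsCx Δ) (hX : Off z X) (hs : Sm Δ n z X k) :
    Fl Δ z X i ↔ (n : ℤ) ∣ i - k := by
  have h3 := h.pos
  constructor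
  · intro hi
    obtain ⟨j, h1, h2, h4, h5⟩ := h.fl_window k hi
    rcases eq_or_ne j k with h6 | h6
    · exact h6 ▸ h5
    · have h7 := (Fl.at hc hX h4).2
      rcases lt_or_ge (j + 1) (k + n) with h8 | h8
      · exact absurd h7 (hs.2 _ (by omega) h8)
      · have h9 := (Fl.at hc hX h4).1
        exact absurd h9 (hs.2 _ (by omega) h2)
  · intro h1
    exact (h.fl_congr h1).2 hs.1

/-- A big set fills exactly the other edges. -/
theorem HC.bg_fl (h : HC Δ n z) (hs : Bg Δ n z X k) : Fl Δ z X i ↔ ¬ (n : ℤ) ∣ i - k := by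
  constructor
  · intro hi h1
    exact hs.1 ((h.fl_congr h1).1 hi)
  · intro h1
    obtain ⟨j, h2, h3, h4⟩ := h.strict_window k i h1
    exact (h.fl_congr h4).2 (hs.2 j h2 h3)

/-- A big set is attached to all vertices. -/
theorem HC.bg_at (h : HC Δ n z) (hc : IsCx Δ) (hX : Off z X) (hs : Bg Δ n z X k) (i : ℤ) :
    At Δ z X i := by
  have h3 := h.pos
  by_cases h1 : (n : ℤ) ∣ i - k
  · have h2 : Fl Δ z X (i - 1) := (h.bg_fl hs).2 (by
      intro h4
      have h5 := dvd_sub h1 h4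
      have e : i - k - (i - 1 - k) = 1 := by ring
      rw [e] at h5
      have h6 := Int.le_of_dvd (by norm_num) h5
      omega)
    have h7 := (Fl.at hc hX h2).2
    rwa [sub_add_cancel] at h7
  · exact (Fl.at hc hX ((h.bg_fl hs).2 h1)).1

end Pool.Agent.Lib.MP_73b196_co.St
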