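import Pool.Agent.Lib.MP_73b196_co.St.Spec

/-!
# D1: two disjoint connections
-/

set_option autoImplicit false

namespace Pool.Agent.Lib.MP_73b196_co.St

theorem tD1 : StmtD1 := by
  classical
  intro V _ _ Δ U T s1 s2 hU hs1 hs2 hne H
  obtain ⟨Q0, hQ0c, hQ0U, hQ0s, hQ0T⟩ := H s2 hs2
  have h0 : s2 ∉ Q0 := fun h => (Finset.mem_sdiff.1 (hQ0U h)).2 (Finset.mem_singleton_self s2)
  have h0s : s1 ∈ Q0 := hQ0s.resolve_right h0
  obtain ⟨⟨A, B⟩, hP, hmax⟩ := Finset.exists_max_image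
    ((U.powerset ×ˢ U.powerset).filter fun p => Disjoint p.1 p.2 ∧ Conn Δ p.1 ∧ Conn Δ p.2 ∧
      s1 ∈ p.1 ∧ s2 ∈ p.2 ∧ (p.1 ∩ T).Nonempty) (fun p => p.2.card) ⟨(Q0, {s2}), by
      rw [Finset.mem_filter, Finset.mem_product, Finset.mem_powerset, Finset.mem_powerset]
      exact ⟨⟨hQ0U.trans Finset.sdiff_subset, Finset.singleton_subset_iff.2 hs2⟩,
        Finset.disjoint_singleton_right.2 h0, hQ0c, conn_single (hU hs2), h0s,
        Finset.mem_singleton_self s2, hQ0T⟩⟩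
  rw [Finset.mem_filter, Finset.mem_product, Finset.mem_powerset, Finset.mem_powerset] at hP
  obtain ⟨⟨hAU, hBU⟩, hd, hA, hB, hsA, hsB, hAT⟩ := hP
  simp only at hAU hBU hd hA hB hsA hsB hAT
  by_cases hBT : (B ∩ T).Nonempty
  · exact ⟨A, B, hd, hA, hB, hAU, hBU, hsA, hsB, hAT, hBT⟩
  exfalso
  -- a pair with a larger second set does not exist
  have hbig : ∀ (A' : Finset V) (v : V), A' ⊆ U → v ∈ U → v ∉ B → v ∉ A' → Disjoint A' B →
      Conn Δ A' → s1 ∈ A' → (A' ∩ T).Nonempty → touch Δ {v} B → False := by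
    intro A' v hA'U hv hvB hvA' hd' hA' hs hT ht
    have h1 := hmax (A', insert v B) (by
      rw [Finset.mem_filter, Finset.mem_product, Finset.mem_powerset, Finset.mem_powerset]
      exact ⟨⟨hA'U, Finset.insert_subset_iff.2 ⟨hv, hBU⟩⟩,
        Finset.disjoint_insert_right.2 ⟨hvA', hd'⟩, hA', hB.insert (hU hv) ht, hs,
        Finset.mem_insert_of_mem hsB, hT⟩)
    simp only at h1
    rw [Finset.card_insert_of_notMem hvB] at h1
    omega
  -- the neighbours of `B`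
  have hi : ∀ v ∈ U, v ∉ B → touch Δ {v} B → v ∈ A := by
    intro v hv hvB ht
    by_contra hvA
    exact hbig A v hAU hv hvB hvA hd hA hsA hAT ht
  -- the candidates
  have hii : ∀ (a : V) (C : Finset V), a ∈ A → a ≠ s1 → touch Δ {a} B →
      IsComp Δ ((U \ B) \ {a}) C → s1 ∈ C → ¬ (C ∩ T).Nonempty := by
    intro a C ha has ht hC hsC hCT
    have haB : a ∉ B := fun h => Finset.disjoint_left.1 hd ha h
    refine hbig C a ?_ (hAU ha) haB ?_ ?_ hC.2.1 hsC hCT ht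
    · exact hC.1.trans (Finset.sdiff_subset.trans Finset.sdiff_subset)
    · exact fun h => (Finset.mem_sdiff.1 (hC.1 h)).2 (Finset.mem_singleton_self a)
    · rw [Finset.disjoint_left]
      intro z hz hzB
      exact (Finset.mem_sdiff.1 (Finset.mem_sdiff.1 (hC.1 hz)).1).2 hzB
  have hcomp : ∀ a ∈ A, a ≠ s1 → ∃ C, IsComp Δ ((U \ B) \ {a}) C ∧ s1 ∈ C := by
    intro a ha has
    refine exists_comp (fun z hz => hU (Finset.mem_sdiff.1 (Finset.mem_sdiff.1 hz).1).1) ?_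
    rw [Finset.mem_sdiff, Finset.mem_sdiff, Finset.mem_singleton]
    exact ⟨⟨hs1, fun h => Finset.disjoint_left.1 hd hsA h⟩, fun h => has h.symm⟩
  -- there is a candidate
  obtain ⟨a0, ha0, ha0s, ha0t⟩ : ∃ a ∈ A, a ≠ s1 ∧ touch Δ {a} B := by
    obtain ⟨Q, hQc, hQU, hQs, hQT⟩ := H s1 hs1
    have h1 : s1 ∉ Q := fun h => (Finset.mem_sdiff.1 (hQU h)).2 (Finset.mem_singleton_self s1)
    have h2 : s2 ∈ Q := hQs.resolve_left h1
    obtain ⟨t, ht⟩ := hQT
    rw [Finset.mem_inter] at ht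
    obtain ⟨b, hb, v, hv, hbv⟩ := hQc.2.2 (Q ∩ B) Finset.inter_subset_left
      ⟨s2, Finset.mem_inter.2 ⟨h2, hsB⟩⟩ ⟨t, by
        rw [Finset.mem_sdiff, Finset.mem_inter]
        exact ⟨ht.1, fun h => hBT ⟨t, Finset.mem_inter.2 ⟨h.2, ht.2⟩⟩⟩⟩
    rw [Finset.mem_inter] at hb
    rw [Finset.mem_sdiff, Finset.mem_inter] at hv
    have hvB : v ∉ B := fun h => hv.2 ⟨hv.1, h⟩
    have ht' : touch Δ {v} B := touch_single_left.2 ⟨b, hb.2, adj_symm hbv⟩
    exact ⟨v, hi v (Finset.mem_sdiff.1 (hQU hv.1)).1 hvB ht', fun h => h1 (h ▸ hv.1), ht'⟩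
  obtain ⟨C0, hC0, hsC0⟩ := hcomp a0 ha0 ha0s
  -- the candidate with the largest component
  obtain ⟨⟨a, C⟩, hP2, hmax2⟩ := Finset.exists_max_image
    ((A ×ˢ U.powerset).filter fun p => p.1 ≠ s1 ∧ touch Δ {p.1} B ∧
      IsComp Δ ((U \ B) \ {p.1}) p.2 ∧ s1 ∈ p.2) (fun p => p.2.card) ⟨(a0, C0), by
      rw [Finset.mem_filter, Finset.mem_product, Finset.mem_powerset]
      exact ⟨⟨ha0, hC0.1.trans (Finset.sdiff_subset.trans Finset.sdiff_subset)⟩, ha0s, ha0t,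
        hC0, hsC0⟩⟩
  rw [Finset.mem_filter, Finset.mem_product, Finset.mem_powerset] at hP2
  obtain ⟨⟨ha, hCU⟩, has, hat, hC, hsC⟩ := hP2
  simp only at ha hCU has hat hC hsC
  have hCT := hii a C ha has hat hC hsC
  obtain ⟨Q, hQc, hQU, hQs, hQT⟩ := H a (hAU ha)
  obtain ⟨t, ht⟩ := hQT
  rw [Finset.mem_inter] at ht
  have hM : (Q ∩ (B ∪ C)).Nonempty := by
    rcases hQs with h | h
    · exact ⟨s1, Finset.mem_inter.2 ⟨h, Finset.mem_union_right _ hsC⟩⟩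
    · exact ⟨s2, Finset.mem_inter.2 ⟨h, Finset.mem_union_left _ hsB⟩⟩
  obtain ⟨m, hm, v, hv, hmv⟩ := hQc.2.2 (Q ∩ (B ∪ C)) Finset.inter_subset_left hM ⟨t, by
    rw [Finset.mem_sdiff, Finset.mem_inter, Finset.mem_union]
    refine ⟨ht.1, fun h => ?_⟩
    rcases h.2 with h | h
    · exact hBT ⟨t, Finset.mem_inter.2 ⟨h, ht.2⟩⟩
    · exact hCT ⟨t, Finset.mem_inter.2 ⟨h, ht.2⟩⟩⟩
  rw [Finset.mem_inter, Finset.mem_union] at hm
  rw [Finset.mem_sdiff, Finset.mem_inter, Finset.mem_union] at hv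
  have hvB : v ∉ B := fun h => hv.2 ⟨hv.1, Or.inl h⟩
  have hvC : v ∉ C := fun h => hv.2 ⟨hv.1, Or.inr h⟩
  have hvU : v ∈ U := (Finset.mem_sdiff.1 (hQU hv.1)).1
  have hva : v ≠ a := fun h => (Finset.mem_sdiff.1 (hQU hv.1)).2 (Finset.mem_singleton.2 h)
  rcases hm.2 with hmB | hmC
  · have ht' : touch Δ {v} B := touch_single_left.2 ⟨m, hmB, adj_symm hmv⟩
    have hvA : v ∈ A := hi v hvU hvB ht'
    have hvs : v ≠ s1 := fun h => hvC (h ▸ hsC)
    obtain ⟨D, hD, hsD⟩ := hcomp v hvA hvs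
    -- `C` touches `a`
    have hCa : touch Δ {a} C := by
      obtain ⟨E, hE, hsE⟩ := exists_comp (Δ := Δ) (U := A \ {a})
        (fun z hz => hA.1 (Finset.mem_sdiff.1 hz).1) (v := s1) (by
          rw [Finset.mem_sdiff, Finset.mem_singleton]
          exact ⟨hsA, fun h => has h.symm⟩)
      have h1 := hA.comp_touch (Finset.singleton_subset_iff.2 ha) (Finset.singleton_nonempty a) hE
      have h2 : E ⊆ C := hC.sub_of_conn hE.2.1 (by
        intro z hz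
        have h3 := Finset.mem_sdiff.1 (hE.1 hz)
        rw [Finset.mem_sdiff, Finset.mem_sdiff]
        exact ⟨⟨hAU h3.1, fun h => Finset.disjoint_left.1 hd h3.1 h⟩, h3.2⟩)
        ⟨s1, Finset.mem_inter.2 ⟨hsE, hsC⟩⟩
      exact touch_symm (touch_mono h2 (Finset.Subset.refl _) h1)
    have haC : a ∉ C := fun h =>
      (Finset.mem_sdiff.1 (hC.1 h)).2 (Finset.mem_singleton_self a)
    have hCa2 : Conn Δ (insert a C) := hC.2.1.insert (hU (hAU ha)) hCa
    have h1 : insert a C ⊆ D := hD.sub_of_conn hCa2 (by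
      intro z hz
      rw [Finset.mem_sdiff, Finset.mem_sdiff, Finset.mem_singleton]
      rcases Finset.mem_insert.1 hz with rfl | hz
      · exact ⟨⟨hAU ha, fun h => Finset.disjoint_left.1 hd ha h⟩, fun h => hva h.symm⟩
      · exact ⟨Finset.mem_sdiff.1 (Finset.mem_sdiff.1 (hC.1 hz)).1, fun h => hvC (h ▸ hz)⟩)
      ⟨s1, Finset.mem_inter.2 ⟨Finset.mem_insert_of_mem hsC, hsD⟩⟩
    have h2 := hmax2 (v, D) (by
      rw [Finset.mem_filter, Finset.mem_product, Finset.mem_powerset]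
      exact ⟨⟨hvA, hD.1.trans (Finset.sdiff_subset.trans Finset.sdiff_subset)⟩, hvs, ht', hD,
        hsD⟩)
    have h3 := Finset.card_le_card h1
    rw [Finset.card_insert_of_notMem haC] at h3
    simp only at h2
    omega
  · exact hvC (hC.mem_of_adj hmC (by
      rw [Finset.mem_sdiff, Finset.mem_sdiff, Finset.mem_singleton]
      exact ⟨⟨hvU, hvB⟩, hva⟩) hmv)

end Pool.Agent.Lib.MP_73b196_co.St
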