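import Pool.Agent.Lib.MP_73b196_co.St.Spec

/-!
# D2: nonadjacent vertices of a minimum separator do not touch a common component of `Y - y`
-/

set_option autoImplicit false

namespace Pool.Agent.Lib.MP_73b196_co.St

variable {V : Type} [Fintype V] [DecidableEq V]

open Classical in
/-- The hypothesis of `D1`. -/
theorem D2_hyp {Δ : Set (Finset V)} {x y s1 s2 : V} {S X Y : Finset V} (hc : Ctx Δ x y)
    (hm : MS Δ x y S X Y) (hmin : ∀ S' X' Y', Spl Δ x y S' X' Y' → S.card ≤ S'.card)
    (h1 : s1 ∈ S) (h2 : s2 ∈ S) (hne : s1 ≠ s2) (U T : Finset V)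
    (hU : ∀ v, v ∈ U ↔ (v ∈ Y ∧ v ≠ y) ∨ v = s1 ∨ v = s2)
    (hT : ∀ v, v ∈ T ↔ v ∈ U ∧ adj Δ y v) (u : V) (hu : u ∈ U) :
    ∃ Q, Conn Δ Q ∧ Q ⊆ U \ {u} ∧ (s1 ∈ Q ∨ s2 ∈ Q) ∧ (Q ∩ T).Nonempty := by
  by_contra hcon
  push Not at hcon
  have hcx := hc.inP.cx
  have hvX : X ⊆ vs Δ := hm.cX.1
  have hvY : Y ⊆ vs Δ := hm.cY.1
  have hvS : S ⊆ vs Δ := by
    intro v hv
    rw [← hm.un]
    exact Finset.mem_union_left _ (Finset.mem_union_right _ hv)
  have hYS : ∀ v ∈ Y, v ∉ S := fun v hv hs => Finset.disjoint_left.1 hm.dSY hs hv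
  have hXS : ∀ v ∈ X, v ∉ S := fun v hv hs => Finset.disjoint_left.1 hm.dXS hv hs
  have hXY : ∀ v ∈ X, v ∉ Y := fun v hv hs => Finset.disjoint_left.1 hm.dXY hv hs
  have hvU : U ⊆ vs Δ := by
    intro v hv
    rcases (hU v).1 hv with h | h | h
    · exact hvY h.1
    · exact h ▸ hvS h1
    · exact h ▸ hvS h2
  have hUX : ∀ v ∈ U, v ∉ X := by
    intro v hv hvx
    rcases (hU v).1 hv with h | h | h
    · exact hXY v hvx h.1
    · exact hXS v hvx (h ▸ h1)
    · exact hXS v hvx (h ▸ h2)
  have hyU : y ∉ U := by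
    intro h
    rcases (hU y).1 h with h | h | h
    · exact h.2 rfl
    · exact hYS y hm.hy (h ▸ h1)
    · exact hYS y hm.hy (h ▸ h2)
  set M : Finset V := U.filter fun v => ∃ Q, Conn Δ Q ∧ Q ⊆ U \ {u} ∧ (s1 ∈ Q ∨ s2 ∈ Q) ∧ v ∈ Q
    with hM
  have hMu : u ∉ M := by
    intro h
    obtain ⟨-, Q, -, hQ, -, huQ⟩ := Finset.mem_filter.1 h
    exact (Finset.mem_sdiff.1 (hQ huQ)).2 (Finset.mem_singleton_self u)
  have hMU : ∀ v ∈ M, v ∈ U := fun v hv => (Finset.mem_filter.1 hv).1
  set S' : Finset V := (S \ {s1, s2}) ∪ {u} with hS'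
  have hmemS' : ∀ v, v ∈ S' ↔ (v ∈ S ∧ v ≠ s1 ∧ v ≠ s2) ∨ v = u := by
    intro v
    rw [hS', Finset.mem_union, Finset.mem_sdiff, Finset.mem_insert, Finset.mem_singleton,
      Finset.mem_singleton, not_or]
  have hspl : Spl Δ x y S' (X ∪ M) (vs Δ \ (X ∪ M ∪ S')) := by
    have hsub : X ∪ M ∪ S' ⊆ vs Δ := by
      intro v hv
      rw [Finset.mem_union, Finset.mem_union, hmemS'] at hv
      rcases hv with (hv | hv) | hv | hv
      · exact hvX hv
      · exact hvU (hMU v hv)
      · exact hvS hv.1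
      · exact hv ▸ hvU hu
    refine ⟨Finset.union_sdiff_of_subset hsub, ?_, ?_, ?_, Finset.mem_union_left _ hm.hx, ?_, ?_⟩
    · rw [Finset.disjoint_left]
      intro v hv hv'
      rw [hmemS'] at hv'
      rcases Finset.mem_union.1 hv with hv | hv
      · rcases hv' with h | h
        · exact hXS v hv h.1
        · exact hUX u hu (h ▸ hv)
      · rcases hv' with h | h
        · rcases (hU v).1 (hMU v hv) with h' | h' | h'
          · exact hYS v h'.1 h.1
          · exact h.2.1 h'
          · exact h.2.2 h'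
        · exact hMu (h ▸ hv)
    · rw [Finset.disjoint_left]
      intro v hv hv'
      exact (Finset.mem_sdiff.1 hv').2 (Finset.mem_union_left _ hv)
    · rw [Finset.disjoint_left]
      intro v hv hv'
      exact (Finset.mem_sdiff.1 hv').2 (Finset.mem_union_right _ hv)
    · rw [Finset.mem_sdiff, Finset.mem_union, Finset.mem_union, hmemS']
      refine ⟨hvY hm.hy, ?_⟩
      rintro ((h | h) | h | h)
      · exact hXY y h hm.hy
      · exact hyU (hMU y h)
      · exact hYS y hm.hy h.1
      · exact hyU (h ▸ hu)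
    · intro F hF
      by_contra hcon2
      rw [not_or, not_or] at hcon2
      obtain ⟨hF1, hF2, hF3⟩ := hcon2
      obtain ⟨g, hg, hg'⟩ := Finset.not_subset.1 hF1
      obtain ⟨f, hf, hf'⟩ := Finset.not_subset.1 hF2
      have hFv : F ⊆ vs Δ := hcx.sub_vs hF
      have hfX' : f ∈ X ∪ M := by
        by_contra h
        apply hf'
        by_cases hfS : f ∈ S'
        · exact Finset.mem_union_right _ hfS
        · refine Finset.mem_union_left _ (Finset.mem_sdiff.2 ⟨hFv hf, fun h3 => ?_⟩)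
          rcases Finset.mem_union.1 h3 with h3 | h3
          · exact h h3
          · exact hfS h3
      have hgX : g ∉ X := fun h => hg' (Finset.mem_union_left _ (Finset.mem_union_left _ h))
      have hgM : g ∉ M := fun h => hg' (Finset.mem_union_left _ (Finset.mem_union_right _ h))
      have hgS' : g ∉ S' := fun h => hg' (Finset.mem_union_right _ h)
      have hgu : g ≠ u := fun h => hgS' ((hmemS' g).2 (Or.inr h))
      have hfg : f ≠ g := fun h => by
        rcases Finset.mem_union.1 hfX' with h3 | h3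
        · exact hgX (h ▸ h3)
        · exact hgM (h ▸ h3)
      have hadj : adj Δ f g := hcx.adj_of_face hF hf hg hfg
      have hgS : g ∉ S := by
        intro h
        have h4 : g = s1 ∨ g = s2 := by
          by_contra h5
          rw [not_or] at h5
          exact hgS' ((hmemS' g).2 (Or.inl ⟨h, h5.1, h5.2⟩))
        have h5 : g ∈ U := (hU g).2 (Or.inr h4)
        apply hgM
        rw [hM, Finset.mem_filter]
        refine ⟨h5, {g}, conn_single (hvU h5), ?_, ?_, Finset.mem_singleton_self g⟩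
        · rw [Finset.singleton_subset_iff, Finset.mem_sdiff, Finset.mem_singleton]
          exact ⟨h5, hgu⟩
        · rcases h4 with h4 | h4
          · exact Or.inl (h4 ▸ Finset.mem_singleton_self _)
          · exact Or.inr (h4 ▸ Finset.mem_singleton_self _)
      have hgY : g ∈ Y := by
        have h3 := hFv hg
        rw [← hm.un, Finset.mem_union, Finset.mem_union] at h3
        rcases h3 with (h3 | h3) | h3
        · exact absurd h3 hgX
        · exact absurd h3 hgS
        · exact h3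
      rcases Finset.mem_union.1 hfX' with hfX | hfM
      · have h3 := hm.toSpl.sub_left hF hF3 ⟨f, Finset.mem_inter.2 ⟨hf, hfX⟩⟩
        rcases Finset.mem_union.1 (h3 hg) with h4 | h4
        · exact hgX h4
        · exact hgS h4
      · obtain ⟨hfU, Q, hQc, hQU, hQs, hfQ⟩ := Finset.mem_filter.1 hfM
        by_cases hgy : g = y
        · subst hgy
          have h3 : f ∈ T := (hT f).2 ⟨hfU, adj_symm hadj⟩
          have h6 : f ∈ Q ∩ T := Finset.mem_inter.2 ⟨hfQ, h3⟩
          rw [hcon Q hQc hQU hQs] at h6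
          exact absurd h6 (Finset.notMem_empty f)
        · have hgU : g ∈ U := (hU g).2 (Or.inl ⟨hgY, hgy⟩)
          apply hgM
          rw [hM, Finset.mem_filter]
          refine ⟨hgU, insert g Q, hQc.insert (hvU hgU)
            (touch_single_left.2 ⟨f, hfQ, adj_symm hadj⟩), ?_, ?_, Finset.mem_insert_self _ _⟩
          · rw [Finset.insert_subset_iff, Finset.mem_sdiff, Finset.mem_singleton]
            exact ⟨⟨hgU, hgu⟩, hQU⟩
          · exact hQs.imp (Finset.mem_insert_of_mem) (Finset.mem_insert_of_mem)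
  have h3 := hmin _ _ _ hspl
  have h4 : S'.card ≤ (S \ {s1, s2}).card + 1 := by
    rw [hS']
    exact (Finset.card_union_le _ _).trans (by rw [Finset.card_singleton])
  have h5 : (S \ {s1, s2}).card + 2 = S.card := by
    have h6 : ({s1, s2} : Finset V) ⊆ S := by
      rw [Finset.insert_subset_iff, Finset.singleton_subset_iff]
      exact ⟨h1, h2⟩
    have h7 := Finset.card_sdiff_add_card_eq_card h6
    rw [Finset.card_pair hne] at h7
    exact h7
  omega

theorem tD2 (hD1 : StmtD1) : StmtD2 := by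
  classical
  intro V _ _ Δ x y s1 s2 S X Y C hc hm hmin h1 h2 hne hna hC ht1 ht2
  have hcx := hc.inP.cx
  have hvX : X ⊆ vs Δ := hm.cX.1
  have hvY : Y ⊆ vs Δ := hm.cY.1
  have hvS : S ⊆ vs Δ := by
    intro v hv
    rw [← hm.un]
    exact Finset.mem_union_left _ (Finset.mem_union_right _ hv)
  have hYS : ∀ v ∈ Y, v ∉ S := fun v hv hs => Finset.disjoint_left.1 hm.dSY hs hv
  have hXS : ∀ v ∈ X, v ∉ S := fun v hv hs => Finset.disjoint_left.1 hm.dXS hv hs
  have hXY : ∀ v ∈ X, v ∉ Y := fun v hv hs => Finset.disjoint_left.1 hm.dXY hv hs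
  obtain ⟨U, hU⟩ : ∃ U : Finset V, ∀ v, v ∈ U ↔ (v ∈ Y ∧ v ≠ y) ∨ v = s1 ∨ v = s2 := by
    refine ⟨(Y \ {y}) ∪ {s1, s2}, fun v => ?_⟩
    rw [Finset.mem_union, Finset.mem_sdiff, Finset.mem_insert, Finset.mem_singleton,
      Finset.mem_singleton]
  obtain ⟨T, hT⟩ : ∃ T : Finset V, ∀ v, v ∈ T ↔ v ∈ U ∧ adj Δ y v :=
    ⟨U.filter fun v => adj Δ y v, fun v => Finset.mem_filter⟩
  have hs1U : s1 ∈ U := (hU s1).2 (Or.inr (Or.inl rfl))
  have hs2U : s2 ∈ U := (hU s2).2 (Or.inr (Or.inr rfl))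
  have hvU : U ⊆ vs Δ := by
    intro v hv
    rcases (hU v).1 hv with h | h | h
    · exact hvY h.1
    · exact h ▸ hvS h1
    · exact h ▸ hvS h2
  have hUX : ∀ v ∈ U, v ∉ X := by
    intro v hv hvx
    rcases (hU v).1 hv with h | h | h
    · exact hXY v hvx h.1
    · exact hXS v hvx (h ▸ h1)
    · exact hXS v hvx (h ▸ h2)
  have hyU : y ∉ U := by
    intro h
    rcases (hU y).1 h with h | h | h
    · exact h.2 rfl
    · exact hYS y hm.hy (h ▸ h1)
    · exact hYS y hm.hy (h ▸ h2)
  obtain ⟨A, B, hd, hA, hB, hAU, hBU, hsA, hsB, hAT, hBT⟩ := hD1 V Δ U T s1 s2 hvU hs1U hs2U hne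
    (D2_hyp hc hm hmin h1 h2 hne U T hU hT)
  have hCU : C ⊆ U := by
    intro v hv
    have h3 := Finset.mem_sdiff.1 (hC.1 hv)
    rw [Finset.mem_singleton] at h3
    exact (hU v).2 (Or.inl h3)
  -- the connected set `W`
  have hW1 : Conn Δ (insert s1 C) := hC.2.1.insert (hvS h1) ht1
  have hW2 : Conn Δ (insert s2 (insert s1 C)) := hW1.insert (hvS h2)
    (touch_mono (Finset.Subset.refl _) (Finset.subset_insert _ _) ht2)
  have hW3 : Conn Δ (insert s2 (insert s1 C) ∪ A) := hW2.union hA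
    (Or.inr ⟨s1, Finset.mem_inter.2
      ⟨Finset.mem_insert_of_mem (Finset.mem_insert_self _ _), hsA⟩⟩)
  have hW : Conn Δ (insert s2 (insert s1 C) ∪ A ∪ B) := hW3.union hB
    (Or.inr ⟨s2, Finset.mem_inter.2
      ⟨Finset.mem_union_left _ (Finset.mem_insert_self _ _), hsB⟩⟩)
  have hWU : insert s2 (insert s1 C) ∪ A ∪ B ⊆ U := by
    refine Finset.union_subset (Finset.union_subset ?_ hAU) hBU
    rw [Finset.insert_subset_iff, Finset.insert_subset_iff]
    exact ⟨hs2U, hs1U, hCU⟩
  obtain ⟨A', B', hAA', hBB', hd', hAB', hA', hB', htAB⟩ := grow hW hA hB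
    (Finset.subset_union_right.trans Finset.subset_union_left) Finset.subset_union_right hd
  have hA'U : A' ⊆ U := (Finset.subset_union_left.trans hAB'.subset).trans hWU
  have hB'U : B' ⊆ U := (Finset.subset_union_right.trans hAB'.subset).trans hWU
  have hyX : y ∉ X := fun h => hXY y h hm.hy
  have hxU : x ∉ U := fun h => hUX x h hm.hx
  -- disjointness and touching
  have dX : ∀ D : Finset V, D ⊆ U → Disjoint X D := by
    intro D hD
    rw [Finset.disjoint_left]
    exact fun v hv hv' => hUX v (hD hv') hv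
  have dy : ∀ D : Finset V, D ⊆ U → Disjoint {y} D := by
    intro D hD
    rw [Finset.disjoint_singleton_left]
    exact fun h => hyU (hD h)
  have ty : ∀ D : Finset V, (D ∩ T).Nonempty → touch Δ {y} D := by
    rintro D ⟨v, hv⟩
    rw [Finset.mem_inter] at hv
    exact touch_single_left.2 ⟨v, hv.1, ((hT v).1 hv.2).2⟩
  have hCM : CM Δ [X, {y}, A', B'] := by
    refine ⟨?_, ?_⟩
    · intro D hD
      simp only [List.mem_cons, List.not_mem_nil, or_false] at hD
      rcases hD with rfl | rfl | rfl | rfl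
      · exact hm.cX
      · exact conn_single (hvY hm.hy)
      · exact hA'
      · exact hB'
    · simp only [List.pairwise_cons, List.mem_cons, List.not_mem_nil, or_false, forall_eq_or_imp,
        forall_eq, List.Pairwise.nil, and_true, false_imp_iff, implies_true]
      refine ⟨⟨⟨Finset.disjoint_singleton_right.2 hyX, ?_⟩, ⟨dX A' hA'U, ?_⟩, dX B' hB'U, ?_⟩,
        ⟨⟨dy A' hA'U, ?_⟩, dy B' hB'U, ?_⟩, hd', htAB⟩
      · exact ⟨x, hm.hx, y, Finset.mem_singleton_self y, hc.adj⟩
      · exact touch_symm (touch_mono (Finset.singleton_subset_iff.2 (hAA' hsA))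
          (Finset.Subset.refl _) (hm.tX s1 h1))
      · exact touch_symm (touch_mono (Finset.singleton_subset_iff.2 (hBB' hsB))
          (Finset.Subset.refl _) (hm.tX s2 h2))
      · exact touch_mono (Finset.Subset.refl _) hAA' (ty A hAT)
      · exact touch_mono (Finset.Subset.refl _) hBB' (ty B hBT)
  -- unfilled triples
  have hxy : ∀ D : Finset V, D ⊆ U → ¬ fill Δ [X, {y}, D] := by
    rintro D hD ⟨F, hF, hFL⟩
    obtain ⟨a, ha⟩ := hFL X (by simp)
    obtain ⟨b, hb⟩ := hFL {y} (by simp)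
    obtain ⟨c, hc'⟩ := hFL D (by simp)
    rw [Finset.mem_inter] at ha hb hc'
    rw [Finset.mem_singleton] at hb
    have hyF : y ∈ F := hb.2 ▸ hb.1
    rcases hm.face F hF with h | h | h
    · rcases Finset.mem_union.1 (h hyF) with h' | h'
      · exact hyX h'
      · exact hYS y hm.hy h'
    · rcases Finset.mem_union.1 (h ha.1) with h' | h'
      · exact hXY a ha.2 h'
      · exact hXS a ha.2 h'
    · rw [h] at hc'
      rcases Finset.mem_insert.1 hc'.1 with h' | h'
      · exact hxU (h' ▸ hD hc'.2)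
      · exact hyU ((Finset.mem_singleton.1 h') ▸ hD hc'.2)
  have hXAB : ¬ fill Δ [X, A', B'] := by
    rintro ⟨F, hF, hFL⟩
    obtain ⟨a, ha⟩ := hFL X (by simp)
    obtain ⟨b, hb⟩ := hFL A' (by simp)
    obtain ⟨c, hc'⟩ := hFL B' (by simp)
    rw [Finset.mem_inter] at ha hb hc'
    have hne' : F ≠ {x, y} := by
      intro h
      rw [h] at hb
      rcases Finset.mem_insert.1 hb.1 with h' | h'
      · exact hxU (h' ▸ hA'U hb.2)
      · exact hyU ((Finset.mem_singleton.1 h') ▸ hA'U hb.2)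
    have hsub := hm.toSpl.sub_left hF hne' ⟨a, Finset.mem_inter.2 ha⟩
    have hin : ∀ v ∈ F, v ∈ U → v = s1 ∨ v = s2 := by
      intro v hv hvU'
      rcases (hU v).1 hvU' with h | h
      · exfalso
        rcases Finset.mem_union.1 (hsub hv) with h' | h'
        · exact hXY v h' h.1
        · exact hYS v h.1 h'
      · exact h
    have hb1 : b = s1 := by
      rcases hin b hb.1 (hA'U hb.2) with h | h
      · exact h
      · exfalso
        exact Finset.disjoint_left.1 hd' (h ▸ hb.2) (hBB' hsB)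
    have hc1 : c = s2 := by
      rcases hin c hc'.1 (hB'U hc'.2) with h | h
      · exfalso
        exact Finset.disjoint_left.1 hd' (hAA' hsA) (h ▸ hc'.2)
      · exact h
    exact hna (hcx.adj_of_face hF (hb1 ▸ hb.1) (hc1 ▸ hc'.1) hne)
  exact hc.inP.k4three hCM (hxy A' hA'U) (hxy B' hB'U) hXAB

end Pool.Agent.Lib.MP_73b196_co.St
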