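import Pool.Agent.Lib.MP_73b196_co.St.Spec

/-!
# D3: two components of the complement of the dominating vertices of a minimum separator
-/

set_option autoImplicit false

namespace Pool.Agent.Lib.MP_73b196_co.St

variable {V : Type} [Fintype V] [DecidableEq V] {Δ : Set (Finset V)}
  {S X Y C : Finset V} {x y s1 s2 : V}

theorem D3_mem_dom {a : V} : a ∈ dom Δ S ↔ a ∈ S ∧ ∀ b ∈ S, b ≠ a → adj Δ a b := by
  unfold dom
  simp

/-- A component of `Y - y` touching a component `S1` of `T = S - dom S` touches no other element of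
`T`. -/
theorem D3_key (h2 : StmtD2) (hc : Ctx Δ x y) (hm : MS Δ x y S X Y)
    (hmin : ∀ S' X' Y', Spl Δ x y S' X' Y' → S.card ≤ S'.card) {T S1 : Finset V} (hT : T ⊆ S)
    (hS1 : IsComp Δ T S1) (hC : IsComp Δ (Y \ {y}) C) (ht : touch Δ C S1) {m r : V}
    (hmC : m ∈ C) (hr : r ∈ T) (hmr : adj Δ m r) : r ∈ S1 := by
  by_contra hn
  obtain ⟨c, hcC, s, hs, hcs⟩ := ht
  have hsr : ¬ adj Δ s r := fun h => hn (hS1.mem_of_adj hs hr h)
  have hne : s ≠ r := fun e => hn (e ▸ hs)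
  exact h2 V Δ x y s r S X Y C hc hm hmin (hT (hS1.1 hs)) (hT hr) hne hsr hC
    ⟨s, Finset.mem_singleton_self s, c, hcC, adj_symm hcs⟩
    ⟨r, Finset.mem_singleton_self r, m, hmC, adj_symm hmr⟩

theorem tD3 (h3 : StmtA3) (h2 : StmtD2) : StmtD3 := by
  classical
  intro V _ _ Δ x y S X Y hc hm hmin hncl
  have hSv : S ⊆ vs Δ := hm.pms.sS
  have hxS : x ∉ S := fun h => Finset.disjoint_left.1 hm.dXS hm.hx h
  have hyS : y ∉ S := fun h => Finset.disjoint_left.1 hm.dSY h hm.hy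
  set P := dom Δ S with hP
  set T := S \ P with hT
  have hTS : T ⊆ S := Finset.sdiff_subset
  -- an element of `T`
  have h1 : ∃ a ∈ S, ∃ b ∈ S, a ≠ b ∧ ¬ adj Δ a b := by
    by_contra hn
    push Not at hn
    exact hncl ⟨hSv, hn⟩
  obtain ⟨a, ha, b, hb, hab, hnab⟩ := h1
  have haT : a ∈ T := by
    rw [hT, Finset.mem_sdiff]
    exact ⟨ha, fun h => hnab ((D3_mem_dom.1 h).2 b hb hab.symm)⟩
  have hTn : ¬ Conn Δ T := by
    intro hconn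
    obtain ⟨d, hd, hdc⟩ := h3 V Δ x y S X Y T hc.inP hc.ef hm.pms hTS hconn
    have hd' := Finset.mem_sdiff.1 hd
    refine hd'.2 (D3_mem_dom.2 ⟨hd'.1, fun c hcS hcd => ?_⟩)
    by_cases hcP : c ∈ P
    · exact adj_symm ((D3_mem_dom.1 hcP).2 d hd'.1 hcd.symm)
    · exact hdc c (Finset.mem_sdiff.2 ⟨hcS, hcP⟩) hcd
  obtain ⟨S1, hS1, haS1⟩ := exists_comp (hTS.trans hSv) haT
  obtain ⟨S2, hS2, haS2⟩ := exists_comp_notMem (hTS.trans hSv) haT hTn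
  obtain ⟨s2, hs2⟩ := hS2.2.1.2.1
  have hs2T : s2 ∈ T := hS2.1 hs2
  have hs2S1 : s2 ∉ S1 := by
    intro h
    rw [hS1.eq_of hS2 ⟨s2, Finset.mem_inter.2 ⟨h, hs2⟩⟩] at haS1
    exact haS2 haS1
  set R := vs Δ \ (P ∪ {x, y}) with hR
  have hTR : T ⊆ R := by
    intro t ht
    have ht' := Finset.mem_sdiff.1 ht
    rw [hR, Finset.mem_sdiff, Finset.mem_union, Finset.mem_insert, Finset.mem_singleton]
    refine ⟨hSv ht'.1, ?_⟩
    rintro (h | rfl | rfl)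
    · exact ht'.2 h
    · exact hxS ht'.1
    · exact hyS ht'.1
  obtain ⟨W1, hW1, haW1⟩ := exists_comp (Finset.sdiff_subset : R ⊆ vs Δ) (hTR haT)
  obtain ⟨W2, hW2, hs2W2⟩ := exists_comp (Finset.sdiff_subset : R ⊆ vs Δ) (hTR hs2T)
  refine ⟨a, haT, s2, hs2T, W1, W2, hW1, hW2, haW1, hs2W2, ?_⟩
  rintro rfl
  -- the closed set `M`
  set M := R.filter fun v => v ∈ S1 ∨ (∃ C, IsComp Δ (X \ {x}) C ∧ touch Δ C S1 ∧ v ∈ C) ∨
    ∃ C, IsComp Δ (Y \ {y}) C ∧ touch Δ C S1 ∧ v ∈ C with hM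
  have hXv : X ⊆ vs Δ := hm.cX.1
  have hYv : Y ⊆ vs Δ := hm.cY.1
  have hmin' : ∀ S' X' Y', Spl Δ y x S' X' Y' → S.card ≤ S'.card :=
    fun S' X' Y' h => hmin S' Y' X' h.symm
  have hclosed : ¬ touch Δ M (R \ M) := by
    rintro ⟨m, hmM, r, hr, hmr⟩
    rw [hM, Finset.mem_filter] at hmM
    rw [Finset.mem_sdiff, hM, Finset.mem_filter] at hr
    obtain ⟨hrR, hrM⟩ := hr
    have hrn : ¬ (r ∈ S1 ∨ (∃ C, IsComp Δ (X \ {x}) C ∧ touch Δ C S1 ∧ r ∈ C) ∨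
      ∃ C, IsComp Δ (Y \ {y}) C ∧ touch Δ C S1 ∧ r ∈ C) := fun h => hrM ⟨hrR, h⟩
    rw [not_or, not_or] at hrn
    obtain ⟨hn1, hn2, hn3⟩ := hrn
    have hrR' := hrR
    rw [hR, Finset.mem_sdiff, Finset.mem_union, Finset.mem_insert, Finset.mem_singleton] at hrR'
    obtain ⟨hrv, hrP⟩ := hrR'
    have hrx : r ≠ x := fun e => hrP (Or.inr (Or.inl e))
    have hry : r ≠ y := fun e => hrP (Or.inr (Or.inr e))
    have hrT : r ∈ S → r ∈ T := fun h => Finset.mem_sdiff.2 ⟨h, fun h' => hrP (Or.inl h')⟩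
    have hr3 : r ∈ X ∨ r ∈ S ∨ r ∈ Y := by
      rw [← hm.un, Finset.mem_union, Finset.mem_union] at hrv
      tauto
    rcases hmM.2 with hm1 | ⟨C, hC, hCt, hmC⟩ | ⟨C, hC, hCt, hmC⟩
    · rcases hr3 with hr4 | hr4 | hr4
      · obtain ⟨C, hC, hrC⟩ := exists_comp (Finset.sdiff_subset.trans hXv : X \ {x} ⊆ vs Δ)
          (Finset.mem_sdiff.2 ⟨hr4, fun h => hrx (Finset.mem_singleton.1 h)⟩)
        exact hn2 ⟨C, hC, ⟨r, hrC, m, hm1, adj_symm hmr⟩, hrC⟩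
      · exact hn1 (hS1.mem_of_adj hm1 (hrT hr4) hmr)
      · obtain ⟨C, hC, hrC⟩ := exists_comp (Finset.sdiff_subset.trans hYv : Y \ {y} ⊆ vs Δ)
          (Finset.mem_sdiff.2 ⟨hr4, fun h => hry (Finset.mem_singleton.1 h)⟩)
        exact hn3 ⟨C, hC, ⟨r, hrC, m, hm1, adj_symm hmr⟩, hrC⟩
    · have hmX := Finset.mem_sdiff.1 (hC.1 hmC)
      rcases hr3 with hr4 | hr4 | hr4
      · exact hn2 ⟨C, hC, hCt, hC.mem_of_adj hmC
          (Finset.mem_sdiff.2 ⟨hr4, fun h => hrx (Finset.mem_singleton.1 h)⟩) hmr⟩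
      · exact hn1 (D3_key h2 hc.symm hm.symm hmin' hTS hS1 hC hCt hmC (hrT hr4) hmr)
      · exact hmX.2 (Finset.mem_singleton.2 (hm.toSpl.no_edge hmX.1 hr4 hmr).1)
    · have hmY := Finset.mem_sdiff.1 (hC.1 hmC)
      rcases hr3 with hr4 | hr4 | hr4
      · exact hmY.2 (Finset.mem_singleton.2 (hm.toSpl.no_edge hr4 hmY.1 (adj_symm hmr)).2)
      · exact hn1 (D3_key h2 hc hm hmin hTS hS1 hC hCt hmC (hrT hr4) hmr)
      · exact hn3 ⟨C, hC, hCt, hC.mem_of_adj hmC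
          (Finset.mem_sdiff.2 ⟨hr4, fun h => hry (Finset.mem_singleton.1 h)⟩) hmr⟩
  have haM : a ∈ M := Finset.mem_filter.2 ⟨hTR haT, Or.inl haS1⟩
  have hsub : W1 ⊆ M := hW1.2.1.sub_of_closed hW1.1 hclosed
    ⟨a, Finset.mem_inter.2 ⟨haW1, haM⟩⟩
  have hs2M := hsub hs2W2
  rw [hM, Finset.mem_filter] at hs2M
  have hs2S : s2 ∈ S := hTS hs2T
  rcases hs2M.2 with h | ⟨C, hC, -, h⟩ | ⟨C, hC, -, h⟩
  · exact hs2S1 h
  · exact Finset.disjoint_left.1 hm.dXS (Finset.mem_sdiff.1 (hC.1 h)).1 hs2S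
  · exact Finset.disjoint_left.1 hm.dSY hs2S (Finset.mem_sdiff.1 (hC.1 h)).1

end Pool.Agent.Lib.MP_73b196_co.St
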