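import Pool.Agent.Lib.MP_73b196_co.St.Spec

/-!
# Structure theorem for edge facets, statement D4
-/

set_option autoImplicit false
set_option linter.unusedSectionVars false

namespace Pool.Agent.Lib.MP_73b196_co.St

variable {V : Type} [Fintype V] [DecidableEq V] {Δ : Set (Finset V)}
  {A B C D S U W W' X Y : Finset V} {a s x y : V}

theorem D4_dom_sub : dom Δ S ⊆ S := by
  classical
  intro a ha
  unfold dom at ha
  exact (Finset.mem_filter.1 ha).1

theorem D4_dom_adj (ha : a ∈ dom Δ S) : ∀ b ∈ S, b ≠ a → adj Δ a b := by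
  classical
  unfold dom at ha
  exact (Finset.mem_filter.1 ha).2

theorem D4_CM4 (hA : Conn Δ A) (hB : Conn Δ B) (hC : Conn Δ C) (hD : Conn Δ D)
    (dAB : Disjoint A B) (dAC : Disjoint A C) (dAD : Disjoint A D) (dBC : Disjoint B C)
    (dBD : Disjoint B D) (dCD : Disjoint C D) (tAB : touch Δ A B) (tAC : touch Δ A C)
    (tAD : touch Δ A D) (tBC : touch Δ B C) (tBD : touch Δ B D) (tCD : touch Δ C D) :
    CM Δ [A, B, C, D] := by
  refine ⟨?_, ?_⟩
  · intro E hE
    simp only [List.mem_cons, List.not_mem_nil, or_false] at hE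
    rcases hE with rfl | rfl | rfl | rfl
    · exact hA
    · exact hB
    · exact hC
    · exact hD
  · rw [List.pairwise_cons, List.pairwise_cons, List.pairwise_cons]
    refine ⟨?_, ?_, ?_, List.pairwise_singleton _ _⟩
    · intro E hE
      simp only [List.mem_cons, List.not_mem_nil, or_false] at hE
      rcases hE with rfl | rfl | rfl
      · exact ⟨dAB, tAB⟩
      · exact ⟨dAC, tAC⟩
      · exact ⟨dAD, tAD⟩
    · intro E hE
      simp only [List.mem_cons, List.not_mem_nil, or_false] at hE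
      rcases hE with rfl | rfl
      · exact ⟨dBC, tBC⟩
      · exact ⟨dBD, tBD⟩
    · intro E hE
      simp only [List.mem_cons, List.not_mem_nil, or_false] at hE
      subst hE
      exact ⟨dCD, tCD⟩

theorem D4_nofill (h : EdgeFacet Δ x y) (hx : x ∉ A) (hy : y ∉ A) : ¬ fill Δ [{x}, {y}, A] := by
  rintro ⟨F, hF, hF'⟩
  obtain ⟨u, hu⟩ := hF' {x} (by simp)
  obtain ⟨v, hv⟩ := hF' {y} (by simp)
  obtain ⟨w, hw⟩ := hF' A (by simp)
  rw [Finset.mem_inter, Finset.mem_singleton] at hu hv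
  rw [Finset.mem_inter] at hw
  have h1 := h.facet F hF (hu.2 ▸ hu.1) (hv.2 ▸ hv.1)
  rw [h1, Finset.mem_insert, Finset.mem_singleton] at hw
  rcases hw.1 with h2 | h2
  · exact hx (h2 ▸ hw.2)
  · exact hy (h2 ▸ hw.2)

theorem D4_disj (hW : IsComp Δ U W) (hW' : IsComp Δ U W') (hne : W ≠ W') : Disjoint W W' := by
  rw [Finset.disjoint_iff_inter_eq_empty, ← Finset.not_nonempty_iff_eq_empty]
  exact fun h => hne (hW.eq_of hW' h)

theorem D4_ntouch (hW : IsComp Δ U W) (hW' : IsComp Δ U W') (hne : W ≠ W') :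
    ¬ touch Δ W W' := by
  rintro ⟨a, ha, b, hb, hab⟩
  refine hW.2.2 ⟨a, ha, b, ?_, hab⟩
  rw [Finset.mem_sdiff]
  exact ⟨hW'.1 hb, fun h => Finset.disjoint_left.1 (D4_disj hW hW' hne) h hb⟩

/-- the main step: the clique model `x, y, W, a + W'` -/
theorem D4_key (h : Ctx Δ x y) (hW : IsComp Δ U W) (hW' : IsComp Δ U W') (hne : W ≠ W')
    (hxU : x ∉ U) (hyU : y ∉ U) (haU : a ∉ U) (hax : a ≠ x) (hay : a ≠ y) (hav : a ∈ vs Δ)
    (tx : touch Δ {x} W) (ty : touch Δ {y} W) (tx' : touch Δ {x} W') (ty' : touch Δ {y} W')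
    (ta : touch Δ {a} W) (ta' : touch Δ {a} W') :
    fill Δ [{x}, {a}, W] ∧ fill Δ [{y}, {a}, W] := by
  have hnt := D4_ntouch hW hW' hne
  have hxW : x ∉ W := fun h => hxU (hW.1 h)
  have hyW : y ∉ W := fun h => hyU (hW.1 h)
  have haW : a ∉ W := fun h => haU (hW.1 h)
  have hxW' : x ∉ insert a W' := by
    rw [Finset.mem_insert, not_or]
    exact ⟨hax.symm, fun h => hxU (hW'.1 h)⟩
  have hyW' : y ∉ insert a W' := by
    rw [Finset.mem_insert, not_or]
    exact ⟨hay.symm, fun h => hyU (hW'.1 h)⟩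
  have hsub : W' ⊆ insert a W' := Finset.subset_insert a W'
  have hm : CM Δ [{x}, {y}, W, insert a W'] := by
    refine D4_CM4 (conn_single h.mem_left) (conn_single h.mem_right) hW.2.1
      (hW'.2.1.insert hav ta') ?_ ?_ ?_ ?_ ?_ ?_ ?_ tx ?_ ty ?_ ?_
    · exact Finset.disjoint_singleton.2 h.ef.ne
    · exact Finset.disjoint_singleton_left.2 hxW
    · exact Finset.disjoint_singleton_left.2 hxW'
    · exact Finset.disjoint_singleton_left.2 hyW
    · exact Finset.disjoint_singleton_left.2 hyW'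
    · exact Finset.disjoint_insert_right.2 ⟨haW, D4_disj hW hW' hne⟩
    · exact touch_single.2 h.adj
    · exact touch_mono (Finset.Subset.refl _) hsub tx'
    · exact touch_mono (Finset.Subset.refl _) hsub ty'
    · exact touch_symm (touch_mono (Finset.singleton_subset_iff.2 (Finset.mem_insert_self a W'))
        (Finset.Subset.refl _) ta)
  obtain ⟨h1, h2⟩ := h.inP.k4two hm (D4_nofill h.ef hxW hyW) (D4_nofill h.ef hxW' hyW')
  have key : ∀ z : V, fill Δ [{z}, W, insert a W'] → fill Δ [{z}, {a}, W] := by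
    rintro z ⟨F, hF, hF'⟩
    obtain ⟨w, hw⟩ := hF' W (by simp)
    obtain ⟨v, hv⟩ := hF' (insert a W') (by simp)
    rw [Finset.mem_inter] at hw hv
    have hva : v = a := by
      rcases Finset.mem_insert.1 hv.2 with h3 | h3
      · exact h3
      · exfalso
        refine hnt ⟨w, hw.2, v, h3, h.inP.cx.adj_of_face hF hw.1 hv.1 ?_⟩
        rintro rfl
        exact Finset.disjoint_left.1 (D4_disj hW hW' hne) hw.2 h3
    refine ⟨F, hF, ?_⟩
    intro E hE
    simp only [List.mem_cons, List.not_mem_nil, or_false] at hE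
    rcases hE with rfl | rfl | rfl
    · exact hF' {z} (by simp)
    · exact ⟨v, Finset.mem_inter.2 ⟨hv.1, Finset.mem_singleton.2 hva⟩⟩
    · exact hF' E (by simp)
  exact ⟨key x h1, key y h2⟩

/-- a component of the rest which contains a vertex of the separator touches `x` -/
theorem D4_touch (hms : MS Δ x y S X Y) {P : Finset V} (hP : P ⊆ S)
    (hW : IsComp Δ (vs Δ \ (P ∪ {x, y})) W) (hs : s ∈ S) (hsW : s ∈ W) : touch Δ {x} W := by
  obtain ⟨s', hs', b, hb, hsb⟩ := hms.tX s hs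
  obtain rfl := Finset.mem_singleton.1 hs'
  by_cases hbx : b = x
  · subst hbx
    exact ⟨b, Finset.mem_singleton_self b, s', hsW, adj_symm hsb⟩
  · have hXv : X ⊆ vs Δ := hms.cX.1
    have hb' : b ∈ X \ {x} := Finset.mem_sdiff.2 ⟨hb, by simpa using hbx⟩
    obtain ⟨C, hC, hbC⟩ := exists_comp (Finset.sdiff_subset.trans hXv) hb'
    have hCR : C ⊆ vs Δ \ (P ∪ {x, y}) := by
      intro v hv
      have h1 := Finset.mem_sdiff.1 (hC.1 hv)
      rw [Finset.mem_singleton] at h1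
      rw [Finset.mem_sdiff, Finset.mem_union, Finset.mem_insert, Finset.mem_singleton]
      refine ⟨hXv h1.1, ?_⟩
      rintro (h2 | h2 | h2)
      · exact Finset.disjoint_left.1 hms.dXS h1.1 (hP h2)
      · exact h1.2 h2
      · subst h2
        exact Finset.disjoint_left.1 hms.dXY h1.1 hms.hy
    have hsv : s' ∈ vs Δ := (Finset.mem_sdiff.1 (hW.1 hsW)).1
    have hc : Conn Δ (insert s' C) :=
      hC.2.1.insert hsv (touch_single_left.2 ⟨b, hbC, hsb⟩)
    have hsub : insert s' C ⊆ W := hW.sub_of_conn hc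
      (Finset.insert_subset_iff.2 ⟨hW.1 hsW, hCR⟩)
      ⟨s', Finset.mem_inter.2 ⟨Finset.mem_insert_self _ _, hsW⟩⟩
    have ht := hms.cX.comp_touch (Finset.singleton_subset_iff.2 hms.hx)
      (Finset.singleton_nonempty x) hC
    exact touch_symm (touch_mono ((Finset.subset_insert s' C).trans hsub)
      (Finset.Subset.refl _) ht)

/-- every component of the rest touches `x` if `P + y` is a face -/
theorem D4_touchx (h : Ctx Δ x y) {P : Finset V} (hxP : x ∉ P) (hyP : insert y P ∈ Δ)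
    (hW : IsComp Δ (vs Δ \ (P ∪ {x, y})) W) : touch Δ {x} W := by
  have hc := h.irr.conn _ hyP
  have hWs : W ⊆ vs Δ \ insert y P := by
    intro v hv
    have h1 := Finset.mem_sdiff.1 (hW.1 hv)
    simp only [Finset.mem_union, Finset.mem_insert, Finset.mem_singleton, not_or] at h1
    rw [Finset.mem_sdiff, Finset.mem_insert, not_or]
    exact ⟨h1.1, h1.2.2.2, h1.2.1⟩
  have hxW : x ∉ W := by
    intro h1
    have h2 := (Finset.mem_sdiff.1 (hW.1 h1)).2
    simp at h2
  obtain ⟨w, hw, b, hb, hwb⟩ := hc.2.2 W hWs hW.2.1.2.1 ⟨x, by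
    rw [Finset.mem_sdiff, Finset.mem_sdiff, Finset.mem_insert, not_or]
    exact ⟨⟨h.mem_left, h.ef.ne, hxP⟩, hxW⟩⟩
  rw [Finset.mem_sdiff, Finset.mem_sdiff, Finset.mem_insert, not_or] at hb
  by_cases hbx : b = x
  · subst hbx
    exact ⟨b, Finset.mem_singleton_self b, w, hw, adj_symm hwb⟩
  · exact absurd (hW.mem_of_adj hw (by
      rw [Finset.mem_sdiff, Finset.mem_union, Finset.mem_insert, Finset.mem_singleton]
      refine ⟨hb.1.1, ?_⟩
      rintro (h2 | h2 | h2)
      · exact hb.1.2.2 h2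
      · exact hbx h2
      · exact hb.1.2.1 h2) hwb) hb.2

/-- `P` with a common neighbour is a face -/
theorem D4_face (h : Ctx Δ x y) {P : Finset V} (hP : P ∈ Δ) (hxP : x ∉ P) (hyP : y ∉ P)
    (hx : ∀ a ∈ P, adj Δ x a) (hy : ∀ a ∈ P, adj Δ y a) : insert x P ∈ Δ := by
  have hPv : P ⊆ vs Δ := h.inP.cx.sub_vs hP
  have hxa : ∀ a ∈ P, a ≠ x := fun a ha e => hxP (e ▸ ha)
  have hya : ∀ a ∈ P, a ≠ y := fun a ha e => hyP (e ▸ ha)
  have hPadj : ∀ a ∈ P, ∀ b ∈ P, a ≠ b → adj Δ a b := fun a ha b hb hab =>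
    h.inP.cx.adj_of_face hP ha hb hab
  have htri : ∀ a ∈ P, ∀ b ∈ P, a ≠ b → ({x, a, b} : Finset V) ∈ Δ := by
    intro a ha b hb hab
    have hm : CM Δ [{x}, {y}, {a}, {b}] := by
      refine D4_CM4 (conn_single h.mem_left) (conn_single h.mem_right) (conn_single (hPv ha))
        (conn_single (hPv hb)) ?_ ?_ ?_ ?_ ?_ ?_ ?_ ?_ ?_ ?_ ?_ ?_
      · exact Finset.disjoint_singleton.2 h.ef.ne
      · exact Finset.disjoint_singleton.2 (hxa a ha).symm
      · exact Finset.disjoint_singleton.2 (hxa b hb).symm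
      · exact Finset.disjoint_singleton.2 (hya a ha).symm
      · exact Finset.disjoint_singleton.2 (hya b hb).symm
      · exact Finset.disjoint_singleton.2 hab
      · exact touch_single.2 h.adj
      · exact touch_single.2 (hx a ha)
      · exact touch_single.2 (hx b hb)
      · exact touch_single.2 (hy a ha)
      · exact touch_single.2 (hy b hb)
      · exact touch_single.2 (hPadj a ha b hb hab)
    obtain ⟨h1, -⟩ := h.inP.k4two hm
      (D4_nofill h.ef (by simpa using (hxa a ha).symm) (by simpa using (hya a ha).symm))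
      (D4_nofill h.ef (by simpa using (hxa b hb).symm) (by simpa using (hya b hb).symm))
    exact h.inP.cx.fill_three.1 h1
  refine h.inP.clq_mem ⟨Finset.insert_subset_iff.2 ⟨h.mem_left, hPv⟩, ?_⟩ ?_
  · intro a ha b hb hab
    rcases Finset.mem_insert.1 ha with e1 | ha' <;> rcases Finset.mem_insert.1 hb with e2 | hb'
    · exact absurd (e1.trans e2.symm) hab
    · rw [e1]
      exact hx b hb'
    · rw [e2]
      exact adj_symm (hx a ha')
    · exact hPadj a ha' b hb' hab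
  · intro a ha b hb c hc hab hac hbc
    rcases Finset.mem_insert.1 ha with e1 | ha'
    · rcases Finset.mem_insert.1 hb with e2 | hb'
      · exact absurd (e1.trans e2.symm) hab
      rcases Finset.mem_insert.1 hc with e3 | hc'
      · exact absurd (e1.trans e3.symm) hac
      rw [e1]
      exact htri b hb' c hc' hbc
    · rcases Finset.mem_insert.1 hb with e2 | hb'
      · rcases Finset.mem_insert.1 hc with e3 | hc'
        · exact absurd (e2.trans e3.symm) hbc
        rw [e2, Finset.insert_comm a x]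
        exact htri a ha' c hc' hac
      · rcases Finset.mem_insert.1 hc with e3 | hc'
        · rw [e3, Finset.pair_comm b x, Finset.insert_comm a x]
          exact htri a ha' b hb' hab
        · refine h.inP.cx.down P hP _ ?_
          intro v hv
          simp only [Finset.mem_insert, Finset.mem_singleton] at hv
          rcases hv with rfl | rfl | rfl
          · exact ha'
          · exact hb'
          · exact hc'

theorem tD4 (hA2 : StmtA2) (hD3 : StmtD3) : StmtD4 := by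
  intro V _ _ Δ x y S X Y h hms hmin hclq
  obtain ⟨s1, hs1, s2, hs2, W1, W2, hW1, hW2, hsW1, hsW2, hne⟩ :=
    hD3 V Δ x y S X Y h hms hmin hclq
  rw [Finset.mem_sdiff] at hs1 hs2
  have hPS : dom Δ S ⊆ S := D4_dom_sub
  have hdom : ∀ a ∈ dom Δ S, ∀ b ∈ S, b ≠ a → adj Δ a b := fun a ha => D4_dom_adj ha
  have hxS : x ∉ S := fun h1 => Finset.disjoint_left.1 hms.dXS hms.hx h1
  have hyS : y ∉ S := fun h1 => Finset.disjoint_left.1 hms.dSY h1 hms.hy
  have hxP : x ∉ dom Δ S := fun h1 => hxS (hPS h1)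
  have hyP : y ∉ dom Δ S := fun h1 => hyS (hPS h1)
  have hSv : S ⊆ vs Δ := hms.pms.sS
  have hcomm : ∀ W, IsComp Δ (vs Δ \ (dom Δ S ∪ {x, y})) W →
      IsComp Δ (vs Δ \ (dom Δ S ∪ {y, x})) W := by
    intro W hW
    rwa [Finset.pair_comm y x]
  have hxU : x ∉ vs Δ \ (dom Δ S ∪ {x, y}) := by
    intro h1
    have h2 := (Finset.mem_sdiff.1 h1).2
    simp at h2
  have hyU : y ∉ vs Δ \ (dom Δ S ∪ {x, y}) := by
    intro h1
    have h2 := (Finset.mem_sdiff.1 h1).2
    simp at h2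
  have haU : ∀ a ∈ dom Δ S, a ∉ vs Δ \ (dom Δ S ∪ {x, y}) := by
    intro a ha h1
    exact (Finset.mem_sdiff.1 h1).2 (Finset.mem_union_left _ ha)
  have tx1 := D4_touch hms hPS hW1 hs1.1 hsW1
  have tx2 := D4_touch hms hPS hW2 hs2.1 hsW2
  have ty1 := D4_touch hms.symm hPS (hcomm W1 hW1) hs1.1 hsW1
  have ty2 := D4_touch hms.symm hPS (hcomm W2 hW2) hs2.1 hsW2
  have hPne : (dom Δ S).Nonempty := by
    by_contra h0
    rw [Finset.not_nonempty_iff_eq_empty] at h0
    have hc : Conn Δ (vs Δ \ (dom Δ S ∪ {x, y})) := by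
      rw [h0, Finset.empty_union]
      exact h.irr.conn _ h.ef.mem
    have h1 : vs Δ \ (dom Δ S ∪ {x, y}) ⊆ W1 := hW1.sub_of_conn hc (Finset.Subset.refl _)
      ⟨s1, Finset.mem_inter.2 ⟨hW1.1 hsW1, hsW1⟩⟩
    exact hne (hW1.eq_of hW2 ⟨s2, Finset.mem_inter.2 ⟨h1 (hW2.1 hsW2), hsW2⟩⟩)
  have hta : ∀ a ∈ dom Δ S, ∀ W, (∃ s ∈ W, s ∈ S ∧ s ∉ dom Δ S) → touch Δ {a} W := by
    rintro a ha W ⟨s, hsW, hs, hsP⟩
    refine touch_single_left.2 ⟨s, hsW, hdom a ha s hs ?_⟩
    rintro rfl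
    exact hsP ha
  have hfill1 : ∀ a ∈ dom Δ S, fill Δ [{x}, {a}, W1] ∧ fill Δ [{y}, {a}, W1] := by
    intro a ha
    exact D4_key h hW1 hW2 hne hxU hyU (haU a ha) (fun e => hxP (e ▸ ha))
      (fun e => hyP (e ▸ ha)) (hSv (hPS ha)) tx1 ty1 tx2 ty2
      (hta a ha W1 ⟨s1, hsW1, hs1.1, hs1.2⟩) (hta a ha W2 ⟨s2, hsW2, hs2.1, hs2.2⟩)
  have hadj : ∀ z, ∀ a, z ≠ a → fill Δ [{z}, {a}, W1] → adj Δ z a := by
    rintro z a hza ⟨F, hF, hF'⟩
    obtain ⟨u, hu⟩ := hF' {z} (by simp)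
    obtain ⟨v, hv⟩ := hF' {a} (by simp)
    rw [Finset.mem_inter, Finset.mem_singleton] at hu hv
    exact h.inP.cx.adj_of_face hF (hu.2 ▸ hu.1) (hv.2 ▸ hv.1) hza
  have hxa : ∀ a ∈ dom Δ S, adj Δ x a := fun a ha =>
    hadj x a (fun e => hxP (e ▸ ha)) (hfill1 a ha).1
  have hya : ∀ a ∈ dom Δ S, adj Δ y a := fun a ha =>
    hadj y a (fun e => hyP (e ▸ ha)) (hfill1 a ha).2
  have hPc : Clq Δ (dom Δ S) := ⟨hPS.trans hSv, fun a ha b hb hab => hdom a ha b (hPS hb) hab.symm⟩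
  have hPΔ : dom Δ S ∈ Δ := (hA2 V Δ x y S X Y (dom Δ S) h.inP h.ef hms.pms hPS hPc).1
  have hxPΔ : insert x (dom Δ S) ∈ Δ := D4_face h hPΔ hxP hyP hxa hya
  have hyPΔ : insert y (dom Δ S) ∈ Δ := D4_face h.symm hPΔ hyP hxP hya hxa
  refine ⟨hPne, hxPΔ, hyPΔ, ⟨W1, W2, hW1, hW2, hne⟩, ?_⟩
  intro W hW
  have tx : touch Δ {x} W := D4_touchx h hxP hyPΔ hW
  have ty : touch Δ {y} W := D4_touchx h.symm hyP hxPΔ (hcomm W hW)
  have hxW : x ∉ W := fun h1 => hxU (hW.1 h1)
  have hyW : y ∉ W := fun h1 => hyU (hW.1 h1)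
  have hWS : ∃ s ∈ W, s ∈ S ∧ s ∉ dom Δ S := by
    by_contra h0
    push Not at h0
    have hWXY : ∀ w ∈ W, w ∈ X ∨ w ∈ Y := by
      intro w hw
      have h1 := Finset.mem_sdiff.1 (hW.1 hw)
      have h2 : w ∉ S := fun h2 => h1.2 (Finset.mem_union_left _ (h0 w hw h2))
      have h3 := h1.1
      rw [← hms.un, Finset.mem_union, Finset.mem_union] at h3
      rcases h3 with (h3 | h3) | h3
      · exact Or.inl h3
      · exact absurd h3 h2
      · exact Or.inr h3
    by_cases hB : (W ∩ X).Nonempty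
    · by_cases hB' : (W \ (W ∩ X)).Nonempty
      · obtain ⟨u, hu, v, hv, huv⟩ := hW.2.1.2.2 (W ∩ X) Finset.inter_subset_left hB hB'
        rw [Finset.mem_inter] at hu
        rw [Finset.mem_sdiff, Finset.mem_inter] at hv
        have hvY : v ∈ Y := by
          rcases hWXY v hv.1 with h1 | h1
          · exact absurd ⟨hv.1, h1⟩ hv.2
          · exact h1
        have h1 := hms.no_edge hu.2 hvY huv
        exact hxW (h1.1 ▸ hu.1)
      · rw [Finset.sdiff_nonempty, not_not] at hB'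
        obtain ⟨w, hw, hyw⟩ := touch_single_left.1 ty
        have h1 := hms.no_edge (Finset.mem_inter.1 (hB' hw)).2 hms.hy (adj_symm hyw)
        exact hxW (h1.1 ▸ hw)
    · obtain ⟨w, hw, hxw⟩ := touch_single_left.1 tx
      have hwY : w ∈ Y := by
        rcases hWXY w hw with h1 | h1
        · exact absurd ⟨w, Finset.mem_inter.2 ⟨hw, h1⟩⟩ hB
        · exact h1
      have h1 := hms.no_edge hms.hx hwY hxw
      exact hyW (h1.2 ▸ hw)
  refine ⟨tx, ty, fun a ha => ?_⟩
  have h1 : ∀ W', IsComp Δ (vs Δ \ (dom Δ S ∪ {x, y})) W' → W ≠ W' → touch Δ {x} W' →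
      touch Δ {y} W' → touch Δ {a} W' → fill Δ [{x}, {a}, W] ∧ fill Δ [{y}, {a}, W] := by
    intro W' hW' hn t1 t2 t3
    exact D4_key h hW hW' hn hxU hyU (haU a ha) (fun e => hxP (e ▸ ha))
      (fun e => hyP (e ▸ ha)) (hSv (hPS ha)) tx ty t1 t2 (hta a ha W hWS) t3
  by_cases hWW : W = W1
  · exact h1 W2 hW2 (hWW ▸ hne) tx2 ty2 (hta a ha W2 ⟨s2, hsW2, hs2.1, hs2.2⟩)
  · exact h1 W1 hW1 hWW tx1 ty1 (hta a ha W1 ⟨s1, hsW1, hs1.1, hs1.2⟩)

end Pool.Agent.Lib.MP_73b196_co.St
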