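import Pool.Agent.Lib.MP_73b196_co.St.Spec

/-!
# The pieces are irreducible
-/

set_option autoImplicit false

namespace Pool.Agent.Lib.MP_73b196_co.St

theorem tD5 : StmtD5 := by
  intro V _ _ Δ x y P W h hP hxP hyP hPx hPy hW
  obtain ⟨a, ha⟩ := hP
  have hcx := h.inP.cx
  set U : Finset V := W ∪ (P ∪ {x, y}) with hU
  have hxU : x ∈ U := by simp [hU]
  have hyU : y ∈ U := by simp [hU]
  have hPU : P ⊆ U := fun v hv => by simp [hU, hv]
  have hWU : W ⊆ U := fun v hv => by simp [hU, hv]
  have hxa : x ≠ a := fun h1 => hxP (h1 ▸ ha)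
  have hya : y ≠ a := fun h1 => hyP (h1 ▸ ha)
  have hUvs : U ⊆ vs Δ := by
    intro v hv
    simp only [hU, Finset.mem_union, Finset.mem_insert, Finset.mem_singleton] at hv
    rcases hv with hv | hv | hv | hv
    · exact (Finset.mem_sdiff.1 (hW.1 hv)).1
    · exact hcx.sub_vs hPx (Finset.mem_insert_of_mem hv)
    · rw [hv]
      exact h.mem_left
    · rw [hv]
      exact h.mem_right
  have hef : EdgeFacet (ind Δ U) x y := by
    refine ⟨h.ef.ne, ⟨h.ef.mem, ?_⟩, fun F hF hx hy => h.ef.facet F hF.1 hx hy⟩
    intro v hv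
    simp only [Finset.mem_insert, Finset.mem_singleton] at hv
    rcases hv with rfl | rfl
    · exact hxU
    · exact hyU
  refine ⟨h.inP.ind U, ⟨?_, ?_⟩, hef⟩
  · intro p hp
    have h1 := hp _ hef.mem
    have h2 := h.ef.facet _ h1.1 (by simp) (by simp)
    have hpxy : p = x ∨ p = y := by
      have : p ∈ ({x, y} : Finset V) := by
        rw [← h2]
        simp
      simpa using this
    have fa : ∀ z, insert z P ∈ Δ → z ∈ U → ({z, a} : Finset V) ∈ ind Δ U := by
      intro z hz hzU
      refine ⟨hcx.down _ hz _ ?_, ?_⟩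
      · intro v hv
        simp only [Finset.mem_insert, Finset.mem_singleton] at hv ⊢
        rcases hv with rfl | rfl
        · exact Or.inl rfl
        · exact Or.inr ha
      · intro v hv
        simp only [Finset.mem_insert, Finset.mem_singleton] at hv
        rcases hv with rfl | rfl
        · exact hzU
        · exact hPU ha
    rcases hpxy with rfl | rfl
    · have h3 := h.ef.facet _ (hp _ (fa y hPy hyU)).1 (by simp) (by simp)
      have : a ∈ ({p, y} : Finset V) := by
        rw [← h3]
        simp
      simp only [Finset.mem_insert, Finset.mem_singleton] at this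
      rcases this with h4 | h4
      · exact hxa h4.symm
      · exact hya h4.symm
    · have h3 := h.ef.facet _ (hp _ (fa x hPx hxU)).1 (by simp) (by simp)
      have : a ∈ ({x, p} : Finset V) := by
        rw [← h3]
        simp
      simp only [Finset.mem_insert, Finset.mem_singleton] at this
      rcases this with h4 | h4
      · exact hxa h4.symm
      · exact hya h4.symm
  · intro F hF
    rw [vs_ind]
    have hint : vs Δ ∩ U = U := Finset.inter_eq_right.2 hUvs
    rw [hint, conn_ind Finset.sdiff_subset]
    -- the clique `P + x + y` minus `F`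
    have hnot : ∃ k ∈ P ∪ {x, y}, k ∉ F := by
      by_contra hcon
      push Not at hcon
      have h1 := h.ef.facet F hF.1 (hcon x (by simp)) (hcon y (by simp))
      have h2 := hcon a (by simp [ha])
      rw [h1] at h2
      simp only [Finset.mem_insert, Finset.mem_singleton] at h2
      rcases h2 with h4 | h4
      · exact hxa h4.symm
      · exact hya h4.symm
    obtain ⟨k, hk, hkF⟩ := hnot
    have hclq : ∀ c ∈ P ∪ {x, y}, ∀ d ∈ P ∪ {x, y}, c ≠ d → adj Δ c d := by
      intro c hc d hd hcd
      simp only [Finset.mem_union, Finset.mem_insert, Finset.mem_singleton] at hc hd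
      rcases hc with hc | rfl | rfl <;> rcases hd with hd | rfl | rfl
      · exact hcx.adj_of_face hPx (Finset.mem_insert_of_mem hc) (Finset.mem_insert_of_mem hd) hcd
      · exact hcx.adj_of_face hPx (Finset.mem_insert_of_mem hc) (Finset.mem_insert_self _ _) hcd
      · exact hcx.adj_of_face hPy (Finset.mem_insert_of_mem hc) (Finset.mem_insert_self _ _) hcd
      · exact hcx.adj_of_face hPx (Finset.mem_insert_self _ _) (Finset.mem_insert_of_mem hd) hcd
      · exact absurd rfl hcd
      · exact h.adj
      · exact hcx.adj_of_face hPy (Finset.mem_insert_self _ _) (Finset.mem_insert_of_mem hd) hcd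
      · exact adj_symm h.adj
      · exact absurd rfl hcd
    have hkU : k ∈ U \ F := Finset.mem_sdiff.2 ⟨by
      rw [hU]
      exact Finset.mem_union_right _ hk, hkF⟩
    have key : ∀ A B : Finset V, A ∪ B = U \ F → Disjoint A B → A.Nonempty → ¬ touch Δ A B →
        k ∈ B → False := by
      intro A B hAB hd hA hnt hkB
      have hAW : ∀ v ∈ A, v ∈ W := by
        intro v hv
        have h1 : v ∈ U \ F := hAB ▸ Finset.mem_union_left B hv
        obtain ⟨h1, h1F⟩ := Finset.mem_sdiff.1 h1
        rcases Finset.mem_union.1 (hU ▸ h1) with h2 | h2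
        · exact h2
        · exfalso
          by_cases hvk : v = k
          · exact Finset.disjoint_left.1 hd hv (hvk ▸ hkB)
          · exact hnt ⟨v, hv, k, hkB, hclq v h2 k hk hvk⟩
      have hconn := h.irr.conn F hF.1
      obtain ⟨b, hb, c, hc, hbc⟩ := hconn.2.2 A (by
        intro v hv
        have h1 : v ∈ U \ F := hAB ▸ Finset.mem_union_left B hv
        obtain ⟨h1, h1F⟩ := Finset.mem_sdiff.1 h1
        exact Finset.mem_sdiff.2 ⟨hUvs h1, h1F⟩) hA ⟨k, by
          refine Finset.mem_sdiff.2 ⟨Finset.mem_sdiff.2 ⟨hUvs (Finset.mem_sdiff.1 hkU).1, hkF⟩, ?_⟩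
          exact fun h1 => Finset.disjoint_left.1 hd h1 hkB⟩
      obtain ⟨hc1, hcA⟩ := Finset.mem_sdiff.1 hc
      obtain ⟨hcvs, hcF⟩ := Finset.mem_sdiff.1 hc1
      have hcU : c ∈ U := by
        by_cases h2 : c ∈ P ∪ {x, y}
        · rw [hU]
          exact Finset.mem_union_right _ h2
        · exact hWU (hW.mem_of_adj (hAW b hb) (Finset.mem_sdiff.2 ⟨hcvs, h2⟩) hbc)
      have hcB : c ∈ B := by
        have h2 : c ∈ A ∪ B := by
          rw [hAB]
          exact Finset.mem_sdiff.2 ⟨hcU, hcF⟩
        rcases Finset.mem_union.1 h2 with h3 | h3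
        · exact absurd h3 hcA
        · exact h3
      exact hnt ⟨b, hb, c, hcB, hbc⟩
    refine conn_of (fun v hv => hUvs (Finset.mem_sdiff.1 hv).1) ⟨k, hkU⟩ ?_
    intro A B hAB hd hA hB hnt
    have h1 : k ∈ A ∪ B := by
      rw [hAB]
      exact hkU
    rcases Finset.mem_union.1 h1 with h2 | h2
    · exact key B A (by rw [Finset.union_comm]; exact hAB) hd.symm hB (fun h3 => hnt (touch_symm h3)) h2
    · exact key A B hAB hd hA hnt h2

end Pool.Agent.Lib.MP_73b196_co.St
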