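import Pool.Agent.Lib.MP_73b196_co.St.Spec

/-!
# D6: a common cone vertex of all pieces
-/

set_option autoImplicit false

namespace Pool.Agent.Lib.MP_73b196_co.St

variable {V : Type} [Fintype V] [DecidableEq V] {Δ : Set (Finset V)}

/-- The standing assumptions of D6. -/
structure D6_H (Δ : Set (Finset V)) (x y : V) (P : Finset V) : Prop where
  hyp : HypA V (vs Δ).card
  ctx : Ctx Δ x y
  ne : P.Nonempty
  hx : x ∉ P
  hy : y ∉ P
  fx : insert x P ∈ Δ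
  fy : insert y P ∈ Δ
  two : ∃ W1 W2, IsComp Δ (vs Δ \ (P ∪ {x, y})) W1 ∧ IsComp Δ (vs Δ \ (P ∪ {x, y})) W2 ∧ W1 ≠ W2
  tc : ∀ W, IsComp Δ (vs Δ \ (P ∪ {x, y})) W → touch Δ {x} W ∧ touch Δ {y} W ∧
    ∀ a ∈ P, fill Δ [{x}, {a}, W] ∧ fill Δ [{y}, {a}, W]

theorem D6_H.comm {x y : V} {P : Finset V} (h : D6_H Δ x y P) {a b : V} (ha : a ∈ P) (hb : b ∈ P)
    (hab : a ≠ b) : adj Δ a b :=
  h.ctx.inP.cx.adj_of_face h.fx (Finset.mem_insert_of_mem ha) (Finset.mem_insert_of_mem hb) hab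

theorem D6_H.adjx {x y : V} {P : Finset V} (h : D6_H Δ x y P) {a : V} (ha : a ∈ P) : adj Δ x a :=
  h.ctx.inP.cx.adj_of_face h.fx (Finset.mem_insert_self _ _) (Finset.mem_insert_of_mem ha)
    (by rintro rfl; exact h.hx ha)

theorem D6_H.adjy {x y : V} {P : Finset V} (h : D6_H Δ x y P) {a : V} (ha : a ∈ P) : adj Δ y a :=
  h.ctx.inP.cx.adj_of_face h.fy (Finset.mem_insert_self _ _) (Finset.mem_insert_of_mem ha)
    (by rintro rfl; exact h.hy ha)

/-- Elements of a component. -/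
theorem D6_mem {x y : V} {P W : Finset V} (hW : IsComp Δ (vs Δ \ (P ∪ {x, y})) W) {v : V}
    (hv : v ∈ W) : v ∈ vs Δ ∧ v ∉ P ∧ v ≠ x ∧ v ≠ y := by
  have := hW.1 hv
  simp only [Finset.mem_sdiff, Finset.mem_union, Finset.mem_insert, Finset.mem_singleton,
    not_or] at this
  exact ⟨this.1, this.2.1, this.2.2.1, this.2.2.2⟩

theorem D6_disj {x y : V} {P W W' : Finset V} (hW : IsComp Δ (vs Δ \ (P ∪ {x, y})) W)
    (hW' : IsComp Δ (vs Δ \ (P ∪ {x, y})) W') (hne : W ≠ W') {v : V} (hv : v ∈ W) : v ∉ W' := by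
  intro hv'
  exact hne (hW.eq_of hW' ⟨v, Finset.mem_inter.2 ⟨hv, hv'⟩⟩)

theorem D6_other {x y : V} {P : Finset V} (h : D6_H Δ x y P) (W : Finset V) :
    ∃ W', IsComp Δ (vs Δ \ (P ∪ {x, y})) W' ∧ W' ≠ W := by
  obtain ⟨W1, W2, h1, h2, h3⟩ := h.two
  by_cases h4 : W1 = W
  · exact ⟨W2, h2, by rw [← h4]; exact h3.symm⟩
  · exact ⟨W1, h1, h4⟩

theorem D6_card {x y : V} {P W : Finset V} (h : D6_H Δ x y P)
    (hW : IsComp Δ (vs Δ \ (P ∪ {x, y})) W) :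
    (vs (ind Δ (W ∪ (P ∪ {x, y})))).card < (vs Δ).card := by
  obtain ⟨W', hW', hne⟩ := D6_other h W
  obtain ⟨v, hv⟩ := hW'.2.1.2.1
  have h1 := D6_mem hW' hv
  have h2 := D6_disj hW' hW hne hv
  rw [vs_ind]
  refine Finset.card_lt_card
    ((Finset.ssubset_iff_of_subset Finset.inter_subset_left).2 ⟨v, h1.1, ?_⟩)
  simp only [Finset.mem_inter, Finset.mem_union, Finset.mem_insert, Finset.mem_singleton, not_and,
    not_or]
  exact fun _ => ⟨h2, h1.2.1, h1.2.2.1, h1.2.2.2⟩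

theorem D6_hypA {n m : ℕ} (h : HypA V n) (hmn : m ≤ n) : HypA V m :=
  fun Δ x y hc => h Δ x y (hc.trans_le hmn)

theorem D6_adj_ind {x y : V} {P W : Finset V} {u v : V} (huv : adj Δ u v)
    (hu : u ∈ W ∪ (P ∪ {x, y})) (hv : v ∈ W ∪ (P ∪ {x, y})) :
    adj (ind Δ (W ∪ (P ∪ {x, y}))) u v := adj_ind.2 ⟨huv, hu, hv⟩

theorem D6_memP {x y : V} {P W : Finset V} {a : V} (ha : a ∈ P) : a ∈ W ∪ (P ∪ {x, y}) :=
  Finset.mem_union_right _ (Finset.mem_union_left _ ha)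

theorem D6_memx {x y : V} {P W : Finset V} : x ∈ W ∪ (P ∪ {x, y}) := by simp

theorem D6_memy {x y : V} {P W : Finset V} : y ∈ W ∪ (P ∪ {x, y}) := by simp

/-- There is a cone vertex in each piece. -/
theorem D6_apex (h5 : StmtD5) {x y : V} {P W : Finset V} (h : D6_H Δ x y P)
    (hW : IsComp Δ (vs Δ \ (P ∪ {x, y})) W) : ∃ p, ApexD (ind Δ (W ∪ (P ∪ {x, y}))) x y p := by
  obtain ⟨a, ha⟩ := h.ne
  refine h.hyp _ x y (D6_card h hW) (h5 V Δ x y P W h.ctx h.ne h.hx h.hy h.fx h.fy hW) ⟨a, ?_, ?_⟩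
  · exact D6_adj_ind (h.adjx ha) D6_memx (D6_memP ha)
  · exact D6_adj_ind (h.adjy ha) D6_memy (D6_memP ha)

/-- The set `E(W)`. -/
theorem D6_E (h2 : StmtC2) (h5 : StmtD5) {x y a : V} {P W : Finset V} (h : D6_H Δ x y P)
    (hW : IsComp Δ (vs Δ \ (P ∪ {x, y})) W) (ha : a ∈ P)
    (hna : ¬ ApexD (ind Δ (W ∪ (P ∪ {x, y}))) x y a) :
    ∃ E, Conn Δ E ∧ E ⊆ W ∧ (∀ p ∈ E, ¬ ApexD (ind Δ (W ∪ (P ∪ {x, y}))) x y p) ∧
      (∀ e ∈ E, ¬ adj Δ e a) ∧ touch Δ {x} E ∧ ∃ e ∈ E, adj Δ y e := by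
  have hctx := h5 V Δ x y P W h.ctx h.ne h.hx h.hy h.fx h.fy hW
  obtain ⟨E, hE1, hE2, hE3, hE4, hE5, hE6, hE7, hE8⟩ := h2 V (ind Δ (W ∪ (P ∪ {x, y}))) x y a
    (D6_hypA h.hyp (D6_card h hW).le) hctx (D6_apex h5 h hW)
    (D6_adj_ind (h.adjx ha) D6_memx (D6_memP ha))
    (D6_adj_ind (h.adjy ha) D6_memy (D6_memP ha)) hna
  have hax : a ≠ x := by rintro rfl; exact h.hx ha
  have hay : a ≠ y := by rintro rfl; exact h.hy ha
  have hkey : ∀ e ∈ E, ∀ (_ : adj (ind Δ (W ∪ (P ∪ {x, y}))) e a), False := by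
    intro e he hea
    rcases hE6 e he a hea with h1 | h1 | h1 | h1
    · exact hE4 h1
    · exact hax h1
    · exact hay h1
    · exact hna h1
  have hEU : E ⊆ W ∪ (P ∪ {x, y}) := by
    have := hE1.1
    rw [vs_ind] at this
    exact this.trans Finset.inter_subset_right
  have hEW : E ⊆ W := by
    intro e he
    have h1 := hEU he
    simp only [Finset.mem_union, Finset.mem_insert, Finset.mem_singleton] at h1
    rcases h1 with h1 | h1 | h1 | h1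
    · exact h1
    · exfalso
      have hea : e ≠ a := by rintro rfl; exact hE4 he
      exact hkey e he (D6_adj_ind (h.comm h1 ha hea) (D6_memP h1) (D6_memP ha))
    · subst h1; exact absurd he hE2
    · subst h1; exact absurd he hE3
  have hsub : ind Δ (W ∪ (P ∪ {x, y})) ⊆ Δ := fun F hF => hF.1
  refine ⟨E, hE1.mono hsub, hEW, hE5, ?_, ?_, ?_⟩
  · intro e he hea
    exact hkey e he (D6_adj_ind hea (Finset.mem_union_left _ (hEW he)) (D6_memP ha))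
  · obtain ⟨u, hu, v, hv, huv⟩ := hE7
    exact ⟨u, hu, v, hv, (adj_ind.1 huv).1⟩
  · rw [touch_single_left] at hE8
    obtain ⟨e, he, hye⟩ := hE8
    exact ⟨e, he, (adj_ind.1 hye).1⟩

theorem D6_fill_mono {A A' B C : Finset V} (h : fill Δ [A, B, C]) (hA : A ⊆ A') :
    fill Δ [A', B, C] := by
  obtain ⟨F, hF, hL⟩ := h
  refine ⟨F, hF, ?_⟩
  intro D hD
  simp only [List.mem_cons, List.not_mem_nil, or_false] at hD
  rcases hD with rfl | rfl | rfl
  · exact (hL A (by simp)).mono (Finset.inter_subset_inter_left hA)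
  · exact hL _ (by simp)
  · exact hL _ (by simp)

/-- A face with one element in each set. -/
theorem D6_fill {F : Finset V} (hF : F ∈ Δ) {A B C : Finset V} {a b c : V} (ha : a ∈ F)
    (hb : b ∈ F) (hc : c ∈ F) (hA : a ∈ A) (hB : b ∈ B) (hC : c ∈ C) : fill Δ [A, B, C] := by
  refine ⟨F, hF, ?_⟩
  intro D hD
  simp only [List.mem_cons, List.not_mem_nil, or_false] at hD
  rcases hD with rfl | rfl | rfl
  · exact ⟨a, Finset.mem_inter.2 ⟨ha, hA⟩⟩
  · exact ⟨b, Finset.mem_inter.2 ⟨hb, hB⟩⟩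
  · exact ⟨c, Finset.mem_inter.2 ⟨hc, hC⟩⟩

/-- The application of `k4all` to a set `A` and three vertices. -/
theorem D6_k4 (hP : InP Δ) {A : Finset V} {y a b : V} (hA : Conn Δ A) (hyV : y ∈ vs Δ)
    (haV : a ∈ vs Δ) (hbV : b ∈ vs Δ) (hyA : y ∉ A) (haA : a ∉ A) (hbA : b ∉ A)
    (hya : adj Δ y a) (hyb : adj Δ y b) (hab : adj Δ a b)
    (t1 : touch Δ A {y}) (t2 : touch Δ A {a}) (t3 : touch Δ A {b})
    (f1 : fill Δ [A, {y}, {a}]) (f2 : fill Δ [A, {y}, {b}]) (f3 : fill Δ [A, {a}, {b}])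
    (f4 : fill Δ [{y}, {a}, {b}]) : ∃ F ∈ Δ, y ∈ F ∧ a ∈ F ∧ b ∈ F ∧ ∃ d ∈ A, d ∈ F := by
  have hm : CM Δ [A, {y}, {a}, {b}] := by
    constructor
    · intro B hB
      simp only [List.mem_cons, List.not_mem_nil, or_false] at hB
      rcases hB with rfl | rfl | rfl | rfl
      · exact hA
      · exact conn_single hyV
      · exact conn_single haV
      · exact conn_single hbV
    · simp only [List.pairwise_cons, List.mem_cons, List.not_mem_nil, or_false, forall_eq_or_imp,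
        forall_eq, Finset.disjoint_singleton_right, Finset.mem_singleton, IsEmpty.forall_iff,
        implies_true, List.Pairwise.nil, and_true, touch_single]
      exact ⟨⟨⟨hyA, t1⟩, ⟨haA, t2⟩, ⟨hbA, t3⟩⟩, ⟨⟨hya.1.symm, hya⟩, ⟨hyb.1.symm, hyb⟩⟩,
        ⟨hab.1.symm, hab⟩⟩
  obtain ⟨F, hF, hL⟩ := hP.k4all hm f1 f2 f3 f4
  obtain ⟨d, hd⟩ := hL A (by simp)
  obtain ⟨u1, hu1⟩ := hL {y} (by simp)
  obtain ⟨u2, hu2⟩ := hL {a} (by simp)
  obtain ⟨u3, hu3⟩ := hL {b} (by simp)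
  rw [Finset.mem_inter] at hd hu1 hu2 hu3
  rw [Finset.mem_singleton] at hu1 hu2 hu3
  refine ⟨F, hF, ?_, ?_, ?_, d, hd.2, hd.1⟩
  · rw [← hu1.2]; exact hu1.1
  · rw [← hu2.2]; exact hu2.1
  · rw [← hu3.2]; exact hu3.1

theorem D6_ne_xy {x y a b : V} (hax : a ≠ x) (hay : a ≠ y) :
    ({a, b} : Finset V) ≠ {x, y} := by
  intro h
  have : a ∈ ({x, y} : Finset V) := by rw [← h]; simp
  rw [Finset.mem_insert, Finset.mem_singleton] at this
  exact this.elim hax hay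

/-- Part (a). -/
theorem D6_a (h2 : StmtC2) (h5 : StmtD5) {x y a b : V} {P W : Finset V} (h : D6_H Δ x y P)
    (hW : IsComp Δ (vs Δ \ (P ∪ {x, y})) W) (ha : a ∈ P)
    (hna : ¬ ApexD (ind Δ (W ∪ (P ∪ {x, y}))) x y a)
    (hb : ApexD (ind Δ (W ∪ (P ∪ {x, y}))) x y b) : b ∈ P := by
  have hcx := h.ctx.inP.cx
  have hxy : x ≠ y := h.ctx.ef.ne
  have hxV := h.ctx.mem_left
  have hyV := h.ctx.mem_right
  have haV : a ∈ vs Δ := (hcx.adj_vs (h.adjx ha)).2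
  have hax : a ≠ x := by rintro rfl; exact h.hx ha
  have hay : a ≠ y := by rintro rfl; exact h.hy ha
  have hab : a ≠ b := by rintro rfl; exact hna hb
  have hxD : ({x} : Finset V) ∈ ind Δ (W ∪ (P ∪ {x, y})) :=
    ⟨mem_vs.1 hxV, Finset.singleton_subset_iff.2 D6_memx⟩
  have hyD : ({y} : Finset V) ∈ ind Δ (W ∪ (P ∪ {x, y})) :=
    ⟨mem_vs.1 hyV, Finset.singleton_subset_iff.2 D6_memy⟩
  have haD : ({a} : Finset V) ∈ ind Δ (W ∪ (P ∪ {x, y})) :=
    ⟨mem_vs.1 haV, Finset.singleton_subset_iff.2 (D6_memP ha)⟩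
  have hsing : ∀ v : V, ({v} : Finset V) ≠ {x, y} := by
    intro v hv
    have h1 : x ∈ ({v} : Finset V) := by rw [hv]; simp
    have h2 : y ∈ ({v} : Finset V) := by rw [hv]; simp
    rw [Finset.mem_singleton] at h1 h2
    exact hxy (h1.trans h2.symm)
  have hbx := hb.2.2 _ hxD (hsing x)
  have hby := hb.2.2 _ hyD (hsing y)
  have hba := hb.2.2 _ haD (hsing a)
  by_contra hbP
  have hbW : b ∈ W := by
    have h1 := hbx.2 (Finset.mem_insert_self _ _)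
    simp only [Finset.mem_union, Finset.mem_insert, Finset.mem_singleton] at h1
    rcases h1 with h1 | h1 | h1 | h1
    · exact h1
    · exact absurd h1 hbP
    · exact absurd h1 hb.1
    · exact absurd h1 hb.2.1
  have hbV := (D6_mem hW hbW).1
  obtain ⟨E, hE1, hE2, hE3, hE4, hE5, e, he, hye⟩ := D6_E h2 h5 h hW ha hna
  obtain ⟨W', hW', hne⟩ := D6_other h W
  have ht := h.tc W' hW'
  have hadjxb : adj Δ x b := ⟨hb.1.symm, by rw [Finset.pair_comm]; exact hbx.1⟩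
  have hadjyb : adj Δ y b := ⟨hb.2.1.symm, by rw [Finset.pair_comm]; exact hby.1⟩
  have hadjab : adj Δ a b := ⟨hab, by rw [Finset.pair_comm]; exact hba.1⟩
  have hbW' : b ∉ W' := D6_disj hW hW' hne.symm hbW
  have hA : Conn Δ ({x} ∪ E ∪ W') := by
    refine ((conn_single hxV).union hE1 (Or.inl hE5)).union hW'.2.1 (Or.inl ?_)
    exact touch_mono Finset.subset_union_left (Finset.Subset.refl _) ht.1
  have hyA : y ∉ {x} ∪ E ∪ W' := by
    simp only [Finset.mem_union, Finset.mem_singleton, not_or]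
    exact ⟨⟨hxy.symm, fun h1 => (D6_mem hW (hE2 h1)).2.2.2 rfl⟩,
      fun h1 => (D6_mem hW' h1).2.2.2 rfl⟩
  have haA : a ∉ {x} ∪ E ∪ W' := by
    simp only [Finset.mem_union, Finset.mem_singleton, not_or]
    exact ⟨⟨hax, fun h1 => (D6_mem hW (hE2 h1)).2.1 ha⟩, fun h1 => (D6_mem hW' h1).2.1 ha⟩
  have hbA : b ∉ {x} ∪ E ∪ W' := by
    simp only [Finset.mem_union, Finset.mem_singleton, not_or]
    exact ⟨⟨hb.1, fun h1 => hE3 b h1 hb⟩, hbW'⟩
  have hxA : x ∈ {x} ∪ E ∪ W' := by simp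
  have heA : e ∈ {x} ∪ E ∪ W' := by simp [he]
  have hex : e ≠ x := (D6_mem hW (hE2 he)).2.2.1
  have hey : e ≠ y := (D6_mem hW (hE2 he)).2.2.2
  have f1 : fill Δ [{x} ∪ E ∪ W', {y}, {a}] := by
    have h1 := (ht.2.2 a ha).2
    obtain ⟨F, hF, hL⟩ := h1
    refine ⟨F, hF, ?_⟩
    intro D hD
    simp only [List.mem_cons, List.not_mem_nil, or_false] at hD
    rcases hD with rfl | rfl | rfl
    · exact (hL W' (by simp)).mono
        (Finset.inter_subset_inter_left Finset.subset_union_right)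
    · exact hL _ (by simp)
    · exact hL _ (by simp)
  have f2 : fill Δ [{x} ∪ E ∪ W', {y}, {b}] := by
    have h1 : ({e, y} : Finset V) ∈ ind Δ (W ∪ (P ∪ {x, y})) := by
      refine ⟨(adj_symm hye).2, ?_⟩
      intro v hv
      rw [Finset.mem_insert, Finset.mem_singleton] at hv
      rcases hv with rfl | rfl
      · exact Finset.mem_union_left _ (hE2 he)
      · exact D6_memy
    have h3 := hb.2.2 _ h1 (D6_ne_xy hex hey)
    exact D6_fill h3.1 (a := e) (b := y) (c := b) (by simp) (by simp) (by simp) heA (by simp)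
      (by simp)
  have f3 : fill Δ [{x} ∪ E ∪ W', {a}, {b}] := by
    have h1 : ({a, x} : Finset V) ∈ ind Δ (W ∪ (P ∪ {x, y})) := by
      refine ⟨(adj_symm (h.adjx ha)).2, ?_⟩
      intro v hv
      rw [Finset.mem_insert, Finset.mem_singleton] at hv
      rcases hv with rfl | rfl
      · exact D6_memP ha
      · exact D6_memx
    have h3 := hb.2.2 _ h1 (D6_ne_xy hax hay)
    exact D6_fill h3.1 (a := x) (b := a) (c := b) (by simp) (by simp) (by simp) hxA (by simp)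
      (by simp)
  have f4 : fill Δ [{y}, {a}, {b}] := by
    have h1 : ({a, y} : Finset V) ∈ ind Δ (W ∪ (P ∪ {x, y})) := by
      refine ⟨(adj_symm (h.adjy ha)).2, ?_⟩
      intro v hv
      rw [Finset.mem_insert, Finset.mem_singleton] at hv
      rcases hv with rfl | rfl
      · exact D6_memP ha
      · exact D6_memy
    have h3 := hb.2.2 _ h1 (D6_ne_xy hax hay)
    exact D6_fill h3.1 (a := y) (b := a) (c := b) (by simp) (by simp) (by simp) (by simp)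
      (by simp) (by simp)
  obtain ⟨F, hF, hyF, haF, hbF, d, hdA, hdF⟩ := D6_k4 h.ctx.inP hA hyV haV hbV hyA haA hbA
    (h.adjy ha) hadjyb hadjab ⟨x, hxA, y, by simp, h.ctx.adj⟩ ⟨x, hxA, a, by simp, h.adjx ha⟩
    ⟨x, hxA, b, by simp, hadjxb⟩ f1 f2 f3 f4
  simp only [Finset.mem_union, Finset.mem_singleton] at hdA
  rcases hdA with (hd | hd) | hd
  · subst hd
    have h1 := h.ctx.ef.facet F hF hdF hyF
    rw [h1, Finset.mem_insert, Finset.mem_singleton] at haF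
    exact haF.elim hax hay
  · have hda : d ≠ a := by rintro rfl; exact (D6_mem hW (hE2 hd)).2.1 ha
    exact hE4 d hd (hcx.adj_of_face hF hdF haF hda)
  · have hdb : d ≠ b := by rintro rfl; exact hbW' hd
    have h1 : d ∈ W := hW.mem_of_adj hbW (hW'.1 hd) (hcx.adj_of_face hF hbF hdF hdb.symm)
    exact D6_disj hW hW' hne.symm h1 hd

/-- Part (b). -/
theorem D6_b (h2 : StmtC2) (h5 : StmtD5) {x y a b : V} {P W W' : Finset V} (h : D6_H Δ x y P)
    (hW : IsComp Δ (vs Δ \ (P ∪ {x, y})) W) (hW' : IsComp Δ (vs Δ \ (P ∪ {x, y})) W')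
    (ha : a ∈ P) (hb : b ∈ P)
    (hb1 : ApexD (ind Δ (W ∪ (P ∪ {x, y}))) x y b)
    (hb2 : ¬ ApexD (ind Δ (W' ∪ (P ∪ {x, y}))) x y b)
    (ha1 : ¬ ApexD (ind Δ (W ∪ (P ∪ {x, y}))) x y a)
    (ha2 : ApexD (ind Δ (W' ∪ (P ∪ {x, y}))) x y a) : False := by
  have hcx := h.ctx.inP.cx
  have hxy : x ≠ y := h.ctx.ef.ne
  have hxV := h.ctx.mem_left
  have hyV := h.ctx.mem_right
  have haV : a ∈ vs Δ := (hcx.adj_vs (h.adjx ha)).2
  have hbV : b ∈ vs Δ := (hcx.adj_vs (h.adjx hb)).2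
  have hax : a ≠ x := by rintro rfl; exact h.hx ha
  have hay : a ≠ y := by rintro rfl; exact h.hy ha
  have hab : a ≠ b := by rintro rfl; exact ha1 hb1
  obtain ⟨E, hE1, hE2, hE3, hE4, hE5, e, he, hye⟩ := D6_E h2 h5 h hW ha ha1
  obtain ⟨E', hE1', hE2', hE3', hE4', hE5', e', he', hye'⟩ := D6_E h2 h5 h hW' hb hb2
  have hA : Conn Δ ({x} ∪ E ∪ E') := by
    refine ((conn_single hxV).union hE1 (Or.inl hE5)).union hE1' (Or.inl ?_)
    exact touch_mono Finset.subset_union_left (Finset.Subset.refl _) hE5'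
  have hyA : y ∉ {x} ∪ E ∪ E' := by
    simp only [Finset.mem_union, Finset.mem_singleton, not_or]
    exact ⟨⟨hxy.symm, fun h1 => (D6_mem hW (hE2 h1)).2.2.2 rfl⟩,
      fun h1 => (D6_mem hW' (hE2' h1)).2.2.2 rfl⟩
  have haA : a ∉ {x} ∪ E ∪ E' := by
    simp only [Finset.mem_union, Finset.mem_singleton, not_or]
    exact ⟨⟨hax, fun h1 => (D6_mem hW (hE2 h1)).2.1 ha⟩,
      fun h1 => (D6_mem hW' (hE2' h1)).2.1 ha⟩
  have hbA : b ∉ {x} ∪ E ∪ E' := by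
    simp only [Finset.mem_union, Finset.mem_singleton, not_or]
    exact ⟨⟨hb1.1, fun h1 => (D6_mem hW (hE2 h1)).2.1 hb⟩,
      fun h1 => (D6_mem hW' (hE2' h1)).2.1 hb⟩
  have hxA : x ∈ {x} ∪ E ∪ E' := by simp
  have heA : e ∈ {x} ∪ E ∪ E' := by simp [he]
  have heA' : e' ∈ {x} ∪ E ∪ E' := by simp [he']
  have hface : ∀ {W₀ : Finset V} {u c : V} (_ : IsComp Δ (vs Δ \ (P ∪ {x, y})) W₀) (_ : u ∈ W₀)
      (_ : adj Δ y u) (_ : ApexD (ind Δ (W₀ ∪ (P ∪ {x, y}))) x y c),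
      insert c ({u, y} : Finset V) ∈ Δ := by
    intro W₀ u c hW₀ hu hyu hc
    have h1 : ({u, y} : Finset V) ∈ ind Δ (W₀ ∪ (P ∪ {x, y})) := by
      refine ⟨(adj_symm hyu).2, ?_⟩
      intro v hv
      rw [Finset.mem_insert, Finset.mem_singleton] at hv
      rcases hv with rfl | rfl
      · exact Finset.mem_union_left _ hu
      · exact D6_memy
    exact (hc.2.2 _ h1 (D6_ne_xy (D6_mem hW₀ hu).2.2.1 (D6_mem hW₀ hu).2.2.2)).1
  have f1 : fill Δ [{x} ∪ E ∪ E', {y}, {a}] :=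
    D6_fill (hface hW' (hE2' he') hye' ha2) (a := e') (b := y) (c := a) (by simp) (by simp)
      (by simp) heA' (by simp) (by simp)
  have f2 : fill Δ [{x} ∪ E ∪ E', {y}, {b}] :=
    D6_fill (hface hW (hE2 he) hye hb1) (a := e) (b := y) (c := b) (by simp) (by simp)
      (by simp) heA (by simp) (by simp)
  have f3 : fill Δ [{x} ∪ E ∪ E', {a}, {b}] :=
    D6_fill h.fx (a := x) (b := a) (c := b) (by simp) (by simp [ha]) (by simp [hb]) hxA (by simp)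
      (by simp)
  have f4 : fill Δ [{y}, {a}, {b}] :=
    D6_fill h.fy (a := y) (b := a) (c := b) (by simp) (by simp [ha]) (by simp [hb]) (by simp)
      (by simp) (by simp)
  obtain ⟨F, hF, hyF, haF, hbF, d, hdA, hdF⟩ := D6_k4 h.ctx.inP hA hyV haV hbV hyA haA hbA
    (h.adjy ha) (h.adjy hb) (h.comm ha hb hab) ⟨x, hxA, y, by simp, h.ctx.adj⟩
    ⟨x, hxA, a, by simp, h.adjx ha⟩ ⟨x, hxA, b, by simp, h.adjx hb⟩ f1 f2 f3 f4
  simp only [Finset.mem_union, Finset.mem_singleton] at hdA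
  rcases hdA with (hd | hd) | hd
  · subst hd
    have h1 := h.ctx.ef.facet F hF hdF hyF
    rw [h1, Finset.mem_insert, Finset.mem_singleton] at haF
    exact haF.elim hax hay
  · have hda : d ≠ a := by rintro rfl; exact (D6_mem hW (hE2 hd)).2.1 ha
    exact hE4 d hd (hcx.adj_of_face hF hdF haF hda)
  · have hdb : d ≠ b := by rintro rfl; exact (D6_mem hW' (hE2' hd)).2.1 hb
    exact hE4' d hd (hcx.adj_of_face hF hdF hbF hdb)

open Classical in
theorem tD6 (h2 : StmtC2) (h5 : StmtD5) : StmtD6 := by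
  intro V _ _ Δ x y P hyp hctx hne hx hy fx fy two tc
  have h : D6_H Δ x y P := ⟨hyp, hctx, hne, hx, hy, fx, fy, two, tc⟩
  let Q : Finset V → Finset V := fun W =>
    Finset.univ.filter fun p => ApexD (ind Δ (W ∪ (P ∪ {x, y}))) x y p
  let 𝒲 : Finset (Finset V) := Finset.univ.filter fun W =>
    IsComp Δ (vs Δ \ (P ∪ {x, y})) W ∧ ¬ P ⊆ Q W
  have hQ : ∀ W p, p ∈ Q W ↔ ApexD (ind Δ (W ∪ (P ∪ {x, y}))) x y p := by
    intro W p
    simp [Q]
  have h𝒲 : ∀ W, W ∈ 𝒲 ↔ IsComp Δ (vs Δ \ (P ∪ {x, y})) W ∧ ¬ P ⊆ Q W := by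
    intro W
    simp [𝒲]
  by_cases hemp : 𝒲.Nonempty
  · obtain ⟨W0, hW0, hmin⟩ := Finset.exists_min_image 𝒲 (fun W => (Q W).card) hemp
    rw [h𝒲] at hW0
    obtain ⟨hW0c, hW0P⟩ := hW0
    obtain ⟨a0, ha0P, ha0Q⟩ := Finset.not_subset.1 hW0P
    rw [hQ] at ha0Q
    obtain ⟨p, hp⟩ := D6_apex h5 h hW0c
    have hsub : ∀ q ∈ Q W0, q ∈ P := by
      intro q hq
      exact D6_a h2 h5 h hW0c ha0P ha0Q ((hQ _ _).1 hq)
    refine ⟨p, fun W hW => ?_⟩
    by_cases hWP : P ⊆ Q W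
    · exact (hQ _ _).1 (hWP (hsub p ((hQ _ _).2 hp)))
    · by_contra hcon
      obtain ⟨a1, ha1P, ha1Q⟩ := Finset.not_subset.1 hWP
      rw [hQ] at ha1Q
      have hle := hmin W ((h𝒲 W).2 ⟨hW, hWP⟩)
      -- there is an element of `Q W` outside `Q W0`
      have hex : ∃ q ∈ Q W, q ∉ Q W0 := by
        by_contra hno
        push Not at hno
        have h3 : Q W ⊂ Q W0 :=
          (Finset.ssubset_iff_of_subset hno).2 ⟨p, (hQ _ _).2 hp, fun h4 => hcon ((hQ _ _).1 h4)⟩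
        exact absurd (Finset.card_lt_card h3) (not_lt.2 hle)
      obtain ⟨q, hqW, hqW0⟩ := hex
      have hqP : q ∈ P := D6_a h2 h5 h hW ha1P ha1Q ((hQ _ _).1 hqW)
      exact D6_b h2 h5 h hW0c hW hqP (hsub p ((hQ _ _).2 hp)) hp hcon
        (fun h4 => hqW0 ((hQ _ _).2 h4)) ((hQ _ _).1 hqW)
  · obtain ⟨p, hp⟩ := hne
    refine ⟨p, fun W hW => ?_⟩
    by_contra hcon
    apply hemp
    refine ⟨W, (h𝒲 W).2 ⟨hW, fun h4 => hcon ((hQ _ _).1 (h4 hp))⟩⟩

end Pool.Agent.Lib.MP_73b196_co.St
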