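import Pool.Agent.Lib.MP_73b196_co.St.Spec

/-!
# D7: a minimum separator which is not a clique
-/

set_option autoImplicit false

namespace Pool.Agent.Lib.MP_73b196_co.St

theorem tD7 (h4 : StmtD4) (h6 : StmtD6) : StmtD7 := by
  classical
  intro V _ _ Δ x y S X Y hH hc hm hmin hS
  have hcx := hc.inP.cx
  obtain ⟨hP, hxP, hyP, hW, hall⟩ := h4 V Δ x y S X Y hc hm hmin hS
  have hdS : ∀ v ∈ dom Δ S, v ∈ S := fun v hv => (Finset.mem_filter.1 hv).1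
  have hx : x ∉ dom Δ S := fun h => Finset.disjoint_left.1 hm.dXS hm.hx (hdS x h)
  have hy : y ∉ dom Δ S := fun h => Finset.disjoint_left.1 hm.dSY (hdS y h) hm.hy
  obtain ⟨p, hp⟩ := h6 V Δ x y (dom Δ S) hH hc hP hx hy hxP hyP hW hall
  obtain ⟨W1, -, hW1, -, -⟩ := hW
  refine ⟨p, (hp W1 hW1).1, (hp W1 hW1).2.1, fun F hF hne => ?_⟩
  by_cases hR : F ⊆ dom Δ S ∪ {x, y}
  · have h1 : F ∈ ind Δ (W1 ∪ (dom Δ S ∪ {x, y})) :=
      ⟨hF, hR.trans Finset.subset_union_right⟩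
    exact ((hp W1 hW1).2.2 F h1 hne).1
  · obtain ⟨f, hf, hf'⟩ := Finset.not_subset.1 hR
    have hfR : f ∈ vs Δ \ (dom Δ S ∪ {x, y}) := Finset.mem_sdiff.2 ⟨hcx.sub_vs hF hf, hf'⟩
    obtain ⟨W, hWc, hfW⟩ := exists_comp (Δ := Δ) Finset.sdiff_subset hfR
    have h1 : F ∈ ind Δ (W ∪ (dom Δ S ∪ {x, y})) := by
      refine ⟨hF, fun v hv => ?_⟩
      by_cases hv' : v ∈ dom Δ S ∪ {x, y}
      · exact Finset.mem_union_right _ hv'
      · refine Finset.mem_union_left _ ?_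
        by_cases hvf : v = f
        · exact hvf ▸ hfW
        · exact hWc.mem_of_adj hfW (Finset.mem_sdiff.2 ⟨hcx.sub_vs hF hv, hv'⟩)
            (hcx.adj_of_face hF hf hv (Ne.symm hvf))
    exact ((hp W hWc).2.2 F h1 hne).1

end Pool.Agent.Lib.MP_73b196_co.St
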