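import Pool.Agent.Lib.MP_73b196_co.St.Spec

/-!
# Statement E1: both sides of a clique separator have a cone vertex
-/

set_option autoImplicit false

namespace Pool.Agent.Lib.MP_73b196_co.St

theorem E1_fill {V : Type} [DecidableEq V] {Δ : Set (Finset V)} {A B C : Finset V}
    (h : fill Δ [A, B, C]) : ∃ F ∈ Δ, (∃ a ∈ A, a ∈ F) ∧ (∃ b ∈ B, b ∈ F) ∧ ∃ c ∈ C, c ∈ F := by
  obtain ⟨F, hF, hL⟩ := h
  obtain ⟨u, hu⟩ := hL A (by simp)
  obtain ⟨v, hv⟩ := hL B (by simp)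
  obtain ⟨w, hw⟩ := hL C (by simp)
  rw [Finset.mem_inter] at hu hv hw
  exact ⟨F, hF, ⟨u, hu.2, hu.1⟩, ⟨v, hv.2, hv.1⟩, w, hw.2, hw.1⟩

/-- The main contradiction: `D` is `{c}` or the union of `c` and a component of `X - x`. -/
theorem E1_core (h1 : StmtA1) {V : Type} [Fintype V] [DecidableEq V] {Δ : Set (Finset V)}
    {x y a b c : V} {S X Y D : Finset V} (hc : Ctx Δ x y)
    (hno : ∀ p, ¬ (adj Δ x p ∧ adj Δ y p)) (hm : MS Δ x y S X Y) (hS : Clq Δ S) (ha : a ∈ S)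
    (hxa : adj Δ x a) (hb : b ∈ S) (hyb : adj Δ y b)
    (hcb : ∀ F ∈ Δ, F ⊆ Y ∪ S → insert b F ∈ Δ) (hcS : c ∈ S) (hca : c ≠ a) (hcbne : c ≠ b)
    (hyc : ¬ adj Δ y c) (hD : Conn Δ D) (hcD : c ∈ D) (hDX : D ⊆ insert c (X \ {x}))
    (hxD : touch Δ {x} D) : False := by
  have hcx := hc.inP.cx
  have hXS : ∀ v ∈ X, v ∉ S := fun v h h' => Finset.disjoint_left.1 hm.dXS h h'
  have hYS : ∀ v ∈ Y, v ∉ S := fun v h h' => Finset.disjoint_left.1 hm.dSY h' h
  have hXY : ∀ v ∈ X, v ∉ Y := fun v h h' => Finset.disjoint_left.1 hm.dXY h h'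
  have hxS : x ∉ S := hXS x hm.hx
  have hyS : y ∉ S := hYS y hm.hy
  have hxY : x ∉ Y := hXY x hm.hx
  have hab : a ≠ b := fun e => hno a ⟨hxa, e ▸ hyb⟩
  have hxb : ¬ adj Δ x b := fun h => hno b ⟨h, hyb⟩
  have hya : ¬ adj Δ y a := fun h => hno a ⟨hxa, h⟩
  obtain ⟨F, hF, ⟨z, hzY, hzF⟩, ⟨a', ha', haF⟩, c', hc', hcF⟩ := E1_fill
    (h1 V Δ x y S X Y a c hc.inP hc.ef hm.pms ha hcS (hS.2 a ha c hcS hca.symm)).2
  rw [Finset.mem_singleton] at ha' hc'
  rw [ha'] at haF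
  rw [hc'] at hcF
  have hza : z ≠ a := fun e => hYS z hzY (e ▸ ha)
  have hzc : z ≠ c := fun e => hYS z hzY (e ▸ hcS)
  have hzb : z ≠ b := fun e => hYS z hzY (e ▸ hb)
  have haz : adj Δ a z := hcx.adj_of_face hF haF hzF hza.symm
  have hcz : adj Δ c z := hcx.adj_of_face hF hcF hzF hzc.symm
  have hzy : z ≠ y := by
    intro e
    rw [e] at haz
    exact hya (adj_symm haz)
  have hYV : Y ⊆ vs Δ := hm.cY.1
  obtain ⟨Z, hZ, hzZ⟩ := exists_comp (Δ := Δ) (U := Y \ {y}) (v := z)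
    (Finset.sdiff_subset.trans hYV)
    (by rw [Finset.mem_sdiff, Finset.mem_singleton]; exact ⟨hzY, hzy⟩)
  have hZY : ∀ v ∈ Z, v ∈ Y := fun v hv => (Finset.mem_sdiff.1 (hZ.1 hv)).1
  have hyZ : y ∉ Z := fun h => (Finset.mem_sdiff.1 (hZ.1 h)).2 (Finset.mem_singleton_self y)
  have hyZt : touch Δ {y} Z := touch_symm (hm.cY.comp_touch
    (Finset.singleton_subset_iff.2 hm.hy) (Finset.singleton_nonempty y) hZ)
  have hbz : adj Δ b z := by
    refine ⟨hzb.symm, hcb {z} (mem_vs.1 (hYV hzY)) ?_⟩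
    rw [Finset.singleton_subset_iff, Finset.mem_union]
    exact Or.inl hzY
  have hDm : ∀ v ∈ D, v = c ∨ (v ∈ X ∧ v ≠ x) := by
    intro v hv
    have := hDX hv
    rw [Finset.mem_insert, Finset.mem_sdiff, Finset.mem_singleton] at this
    exact this
  have hxc : x ≠ c := fun e => hxS (e ▸ hcS)
  have hyc' : y ≠ c := fun e => hyS (e ▸ hcS)
  have hxD' : x ∉ D := by
    intro h
    rcases hDm x h with h' | h'
    · exact hxc h'
    · exact h'.2 rfl
  have hyD' : y ∉ D := by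
    intro h
    rcases hDm y h with h' | h'
    · exact hyc' h'
    · exact hXY y h'.1 hm.hy
  have haD : a ∉ D := by
    intro h
    rcases hDm a h with h' | h'
    · exact hca h'.symm
    · exact hXS a h'.1 ha
  have hbD : b ∉ D := by
    intro h
    rcases hDm b h with h' | h'
    · exact hcbne h'.symm
    · exact hXS b h'.1 hb
  have hDZ : Disjoint D Z := by
    rw [Finset.disjoint_left]
    intro v hv hvZ
    rcases hDm v hv with h' | h'
    · exact hYS v (hZY v hvZ) (h' ▸ hcS)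
    · exact hXY v h'.1 (hZY v hvZ)
  have hxyc : Conn Δ {x, y} :=
    (conn_single hc.mem_right).insert hc.mem_left (touch_single.2 hc.adj)
  have hCM : CM Δ [{x, y}, {a}, {b}, D, Z] := by
    refine ⟨?_, ?_⟩
    · intro A hA'
      simp only [List.mem_cons, List.not_mem_nil, or_false] at hA'
      rcases hA' with rfl | rfl | rfl | rfl | rfl
      · exact hxyc
      · exact conn_single (hS.1 ha)
      · exact conn_single (hS.1 hb)
      · exact hD
      · exact hZ.2.1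
    · simp only [List.pairwise_cons, List.mem_cons, List.not_mem_nil, or_false, forall_eq_or_imp,
        forall_eq, IsEmpty.forall_iff, implies_true, List.Pairwise.nil, and_true]
      refine ⟨⟨⟨?_, ?_⟩, ⟨?_, ?_⟩, ⟨?_, ?_⟩, ?_, ?_⟩, ⟨⟨?_, ?_⟩, ⟨?_, ?_⟩, ?_, ?_⟩, ⟨⟨?_, ?_⟩, ?_, ?_⟩,
        ?_, ?_⟩
      · rw [Finset.disjoint_singleton_right, Finset.mem_insert, Finset.mem_singleton, not_or]
        exact ⟨fun e => hxS (e ▸ ha), fun e => hyS (e ▸ ha)⟩
      · exact ⟨x, by simp, a, by simp, hxa⟩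
      · rw [Finset.disjoint_singleton_right, Finset.mem_insert, Finset.mem_singleton, not_or]
        exact ⟨fun e => hxS (e ▸ hb), fun e => hyS (e ▸ hb)⟩
      · exact ⟨y, by simp, b, by simp, hyb⟩
      · rw [Finset.disjoint_left]
        intro v hv hvD
        rw [Finset.mem_insert, Finset.mem_singleton] at hv
        rcases hv with hv | hv
        · exact hxD' (hv ▸ hvD)
        · exact hyD' (hv ▸ hvD)
      · exact touch_mono (by simp) (Finset.Subset.refl D) hxD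
      · rw [Finset.disjoint_left]
        intro v hv hvZ
        rw [Finset.mem_insert, Finset.mem_singleton] at hv
        rcases hv with hv | hv
        · exact hxY (hZY x (hv ▸ hvZ))
        · exact hyZ (hv ▸ hvZ)
      · exact touch_mono (by simp) (Finset.Subset.refl Z) hyZt
      · rw [Finset.disjoint_singleton_right, Finset.mem_singleton]
        exact hab.symm
      · exact touch_single.2 (hS.2 a ha b hb hab)
      · rw [Finset.disjoint_singleton_left]
        exact haD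
      · exact ⟨a, by simp, c, hcD, hS.2 a ha c hcS hca.symm⟩
      · rw [Finset.disjoint_singleton_left]
        exact fun h => hYS a (hZY a h) ha
      · exact ⟨a, by simp, z, hzZ, haz⟩
      · rw [Finset.disjoint_singleton_left]
        exact hbD
      · exact ⟨b, by simp, c, hcD, hS.2 b hb c hcS hcbne.symm⟩
      · rw [Finset.disjoint_singleton_left]
        exact fun h => hYS b (hZY b h) hb
      · exact ⟨b, by simp, z, hzZ, hbz⟩
      · exact hDZ
      · exact ⟨c, hcD, z, hzZ, hcz⟩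
  rcases hc.inP.k5 _ _ _ _ _ hCM with hf | hf
  · obtain ⟨G, hG, ⟨v, hv, hvG⟩, ⟨a', ha', haG⟩, b', hb', hbG⟩ := E1_fill hf
    rw [Finset.mem_singleton] at ha' hb'
    rw [ha'] at haG
    rw [hb'] at hbG
    rw [Finset.mem_insert, Finset.mem_singleton] at hv
    rcases hv with hv | hv
    · rw [hv] at hvG
      exact hxb (hcx.adj_of_face hG hvG hbG fun e => hxS (e ▸ hb))
    · rw [hv] at hvG
      exact hya (hcx.adj_of_face hG hvG haG fun e => hyS (e ▸ ha))
  · obtain ⟨G, hG, ⟨v, hv, hvG⟩, ⟨u, hu, huG⟩, w, hw, hwG⟩ := E1_fill hf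
    rw [Finset.mem_insert, Finset.mem_singleton] at hv
    have hwy : w ≠ y := fun e => hyZ (e ▸ hw)
    rcases hv with hv | hv
    · rw [hv] at hvG
      exact hwy (hm.no_edge hm.hx (hZY w hw)
        (hcx.adj_of_face hG hvG hwG fun e => hxY (e ▸ hZY w hw))).2
    · rw [hv] at hvG
      rcases hDm u hu with hu' | hu'
      · rw [hu'] at huG
        exact hyc (hcx.adj_of_face hG hvG huG hyc')
      · exact hu'.2 (hm.no_edge hu'.1 (hZY w hw)
          (hcx.adj_of_face hG huG hwG fun e => hXY u hu'.1 (e ▸ hZY w hw))).1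

theorem E1_one (h1 : StmtA1) {V : Type} [Fintype V] [DecidableEq V] {Δ : Set (Finset V)}
    {x y a b c : V} {S X Y : Finset V} (hc : Ctx Δ x y)
    (hno : ∀ p, ¬ (adj Δ x p ∧ adj Δ y p)) (hm : MS Δ x y S X Y) (hS : Clq Δ S) (ha : a ∈ S)
    (hxa : adj Δ x a) (hb : b ∈ S) (hyb : adj Δ y b)
    (hcb : ∀ F ∈ Δ, F ⊆ Y ∪ S → insert b F ∈ Δ) (hcS : c ∈ S) (hca : c ≠ a) (hcbne : c ≠ b)
    (hxc : adj Δ x c) : False := by
  refine E1_core (D := {c}) h1 hc hno hm hS ha hxa hb hyb hcb hcS hca hcbne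
    (fun h => hno c ⟨hxc, h⟩) (conn_single (hS.1 hcS)) (Finset.mem_singleton_self c) ?_
    (touch_single.2 hxc)
  rw [Finset.singleton_subset_iff]
  exact Finset.mem_insert_self _ _

theorem E1_three (h1 : StmtA1) {V : Type} [Fintype V] [DecidableEq V] {Δ : Set (Finset V)}
    {x y a b c : V} {S X Y : Finset V} (hc : Ctx Δ x y)
    (hno : ∀ p, ¬ (adj Δ x p ∧ adj Δ y p)) (hm : MS Δ x y S X Y) (hS : Clq Δ S) (ha : a ∈ S)
    (hxa : adj Δ x a) (hb : b ∈ S) (hyb : adj Δ y b)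
    (hcb : ∀ F ∈ Δ, F ⊆ Y ∪ S → insert b F ∈ Δ) (hcS : c ∈ S) (hca : c ≠ a) (hcbne : c ≠ b)
    (hyc : ¬ adj Δ y c) : False := by
  have hcx := hc.inP.cx
  have hXS : ∀ v ∈ X, v ∉ S := fun v h h' => Finset.disjoint_left.1 hm.dXS h h'
  have hxb : ¬ adj Δ x b := fun h => hno b ⟨h, hyb⟩
  obtain ⟨F, hF, ⟨w, hwX, hwF⟩, ⟨b', hb', hbF⟩, c', hc', hcF⟩ := E1_fill
    (h1 V Δ x y S X Y b c hc.inP hc.ef hm.pms hb hcS (hS.2 b hb c hcS hcbne.symm)).1
  rw [Finset.mem_singleton] at hb' hc'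
  rw [hb'] at hbF
  rw [hc'] at hcF
  have hwb : w ≠ b := fun e => hXS w hwX (e ▸ hb)
  have hwc : w ≠ c := fun e => hXS w hwX (e ▸ hcS)
  have hwx : w ≠ x := by
    intro e
    rw [e] at hwF hwb
    exact hxb (hcx.adj_of_face hF hwF hbF hwb)
  have hcw : adj Δ c w := hcx.adj_of_face hF hcF hwF hwc.symm
  have hXV : X ⊆ vs Δ := hm.cX.1
  obtain ⟨W, hW, hwW⟩ := exists_comp (Δ := Δ) (U := X \ {x}) (v := w)
    (Finset.sdiff_subset.trans hXV)
    (by rw [Finset.mem_sdiff, Finset.mem_singleton]; exact ⟨hwX, hwx⟩)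
  have hxWt : touch Δ {x} W := touch_symm (hm.cX.comp_touch
    (Finset.singleton_subset_iff.2 hm.hx) (Finset.singleton_nonempty x) hW)
  exact E1_core (D := insert c W) h1 hc hno hm hS ha hxa hb hyb hcb hcS hca hcbne hyc
    (hW.2.1.insert (hS.1 hcS) ⟨c, Finset.mem_singleton_self c, w, hwW, hcw⟩)
    (Finset.mem_insert_self c W) (Finset.insert_subset_insert c hW.1)
    (touch_mono (Finset.Subset.refl _) (Finset.subset_insert c W) hxWt)

theorem tE1 (h1 : StmtA1) (h2 : StmtC3) : StmtE1 := by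
  intro V _ _ Δ x y a b S X Y hA hc hno hm hS hX hY ha hxa hb hyb
  have hca := h2 V Δ x y a S X Y hA hc hm hS hY ha hxa
  have hcb := h2 V Δ y x b S Y X hA hc.symm hm.symm hS hX hb hyb
  have hab : a ≠ b := fun e => hno a ⟨hxa, e ▸ hyb⟩
  have hSab : S = {a, b} := by
    ext c
    rw [Finset.mem_insert, Finset.mem_singleton]
    constructor
    · intro hcS
      by_contra hn
      rw [not_or] at hn
      by_cases hyc : adj Δ y c
      · exact E1_one h1 hc.symm (fun p h => hno p ⟨h.2, h.1⟩) hm.symm hS hb hyb ha hxa hca hcS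
          hn.2 hn.1 hyc
      · exact E1_three h1 hc hno hm hS ha hxa hb hyb hcb hcS hn.1 hn.2 hyc
    · rintro (h | h)
      · exact h ▸ ha
      · exact h ▸ hb
  subst hSab
  exact ⟨a, b, X, Y, hab, hm.toSpl, hca, hcb⟩

end Pool.Agent.Lib.MP_73b196_co.St
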