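import Pool.Agent.Lib.MP_73b196_co.St.Spec

/-!
# Structure theorem: E2
-/

set_option autoImplicit false

namespace Pool.Agent.Lib.MP_73b196_co.St

/-- Faces of the contraction inside `X ∪ S`. -/
theorem E2_back {V : Type} [Fintype V] [DecidableEq V] {Δ : Set (Finset V)} {x y : V}
    {X S G : Finset V} (hcx : IsCx Δ) (hS : S ∈ Δ) (hG : G ∈ GX Δ X S x y) (hy : y ∉ G) :
    G ∈ Δ := by
  rcases hG with h | h | h
  · exact h.1
  · refine hcx.down S hS G fun v hv => ?_
    rcases Finset.mem_insert.1 (h hv) with rfl | h'
    · exact absurd hv hy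
    · exact h'
  · refine absurd ?_ hy
    rw [h]
    simp

theorem tE2 (h2 : StmtA2) (h6 : StmtA6) (h1 : StmtC1) : StmtE2 := by
  intro V _ _ Δ x y S X Y hc hcut hms hclq hno hcr
  obtain ⟨hcΓ, hvΓ⟩ := h1 V Δ x y S X Y hc hms hclq
  obtain ⟨hSΔ, -, -⟩ := h2 V Δ x y S X Y S hc.inP hc.ef hms.pms (Finset.Subset.refl S) hclq
  obtain ⟨s, t, X1, Y1, hst, hsp, hs, ht⟩ := hcr
  have hcx := hc.inP.cx
  have hxy := hc.ef.ne
  have hyX : y ∉ X := fun h => Finset.disjoint_left.1 hms.dXY h hms.hy
  have hyS : y ∉ S := fun h => Finset.disjoint_left.1 hms.dSY h hms.hy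
  have hyXS : y ∉ X ∪ S := by
    rw [Finset.mem_union]
    rintro (h | h)
    · exact hyX h
    · exact hyS h
  have hXSY : Disjoint (X ∪ S) Y := by
    rw [Finset.disjoint_union_left]
    exact ⟨hms.dXY, hms.dSY⟩
  have hyX1 : y ∉ X1 := fun h => Finset.disjoint_left.1 hsp.dXY h hsp.hy
  have hyst : y ∉ ({s, t} : Finset V) := fun h => Finset.disjoint_left.1 hsp.dSY h hsp.hy
  have hxst : x ∉ ({s, t} : Finset V) := fun h => Finset.disjoint_left.1 hsp.dXS hsp.hx h
  have hsub : ∀ v, v ∈ X1 ∪ {s, t} ∪ Y1 → v ≠ y → v ∈ X ∪ S := by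
    intro v hv hvy
    rw [hsp.un, hvΓ] at hv
    rcases Finset.mem_insert.1 hv with h | h
    · exact absurd h hvy
    · exact h
  have hstXS : ∀ v ∈ ({s, t} : Finset V), v ∈ X ∪ S := by
    intro v hv
    refine hsub v (by simp only [Finset.mem_union]; tauto) ?_
    rintro rfl
    exact hyst hv
  have hX1XS : X1 ⊆ X ∪ S := by
    intro v hv
    refine hsub v (by simp only [Finset.mem_union]; tauto) ?_
    rintro rfl
    exact hyX1 hv
  have hX1st : X1 ∪ {s, t} ⊆ X ∪ S := by
    intro v hv
    rcases Finset.mem_union.1 hv with h | h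
    · exact hX1XS h
    · exact hstXS v h
  have hspΔ : Spl Δ x y {s, t} X1 (Y1 ∪ Y) := by
    refine ⟨?_, hsp.dXS, ?_, ?_, hsp.hx, Finset.mem_union_left _ hsp.hy, ?_⟩
    · rw [← Finset.union_assoc, hsp.un, hvΓ, ← hms.un]
      ext v
      simp only [Finset.mem_union, Finset.mem_insert]
      constructor
      · rintro ((rfl | h) | h)
        · exact Or.inr hms.hy
        · exact Or.inl h
        · exact Or.inr h
      · rintro (h | h)
        · exact Or.inl (Or.inr h)
        · exact Or.inr h
    · rw [Finset.disjoint_union_right]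
      exact ⟨hsp.dXY, Finset.disjoint_of_subset_left hX1XS hXSY⟩
    · rw [Finset.disjoint_union_right]
      exact ⟨hsp.dSY, Finset.disjoint_of_subset_left hstXS hXSY⟩
    · intro F hF
      rcases hms.face F hF with h | h | h
      · rcases hsp.face F (Or.inl ⟨hF, h⟩) with h' | h' | h'
        · exact Or.inl h'
        · refine Or.inr (Or.inl (h'.trans ?_))
          exact Finset.union_subset_union Finset.subset_union_left (Finset.Subset.refl _)
        · exact Or.inr (Or.inr h')
      · have hG : insert y (F ∩ S) ∈ GX Δ X S x y :=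
          Or.inr (Or.inl (Finset.insert_subset_insert y Finset.inter_subset_right))
        rcases hsp.face _ hG with h' | h' | h'
        · have := h' (Finset.mem_insert_self y _)
          rcases Finset.mem_union.1 this with h'' | h''
          · exact absurd h'' hyX1
          · exact absurd h'' hyst
        · refine Or.inr (Or.inl fun v hv => ?_)
          rcases Finset.mem_union.1 (h hv) with h'' | h''
          · exact Finset.mem_union_left _ (Finset.mem_union_right _ h'')
          · rcases Finset.mem_union.1 (h' (Finset.mem_insert_of_mem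
              (Finset.mem_inter.2 ⟨hv, h''⟩))) with h3 | h3
            · exact Finset.mem_union_left _ (Finset.mem_union_left _ h3)
            · exact Finset.mem_union_right _ h3
        · exfalso
          have hx : x ∈ insert y (F ∩ S) := by
            rw [h']
            exact Finset.mem_insert_self _ _
          rcases Finset.mem_insert.1 hx with h3 | h3
          · exact hxy h3
          · exact Finset.disjoint_left.1 hms.dXS hms.hx (Finset.mem_inter.1 h3).2
      · exact Or.inr (Or.inr h)
  have hMS := h6 V Δ x y s t X1 (Y1 ∪ Y) hc hcut hst hspΔ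
  have htS : t ∈ S := by
    have hyΓ : ({y} : Finset V) ∈ GX Δ X S x y :=
      Or.inr (Or.inl (Finset.singleton_subset_iff.2 (Finset.mem_insert_self y S)))
    have h3 := ht {y} hyΓ (Finset.singleton_subset_iff.2 (Finset.mem_union_left _ hsp.hy))
    have hty : t ≠ y := fun h => hyst (by rw [← h]; simp)
    rcases h3 with h3 | h3 | h3
    · exact absurd (h3.2 (Finset.mem_insert_of_mem (Finset.mem_singleton_self y))) hyXS
    · rcases Finset.mem_insert.1 (h3 (Finset.mem_insert_self t _)) with h4 | h4
      · exact absurd h4 hty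
      · exact h4
    · exfalso
      have h4 : t ∈ ({x, y} : Finset V) := by
        rw [← h3]
        exact Finset.mem_insert_self _ _
      rw [Finset.mem_insert, Finset.mem_singleton] at h4
      rcases h4 with h4 | h4
      · exact hxst (by rw [← h4]; simp)
      · exact hty h4
  have hsΔ : ∀ F ∈ Δ, F ⊆ X1 ∪ {s, t} → insert s F ∈ Δ := by
    intro F hF hF'
    refine E2_back hcx hSΔ (hs F (Or.inl ⟨hF, hF'.trans hX1st⟩) hF') ?_
    rw [Finset.mem_insert]
    rintro (h | h)
    · exact hyst (by rw [h]; simp)
    · exact hyXS (hX1st (hF' h))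
  have htΔ : ∀ F ∈ Δ, F ⊆ X ∪ S → F ⊆ Y1 ∪ {s, t} → insert t F ∈ Δ := by
    intro F hF hF' hF''
    refine E2_back hcx hSΔ (ht F (Or.inl ⟨hF, hF'⟩) hF'') ?_
    rw [Finset.mem_insert]
    rintro (h | h)
    · exact hyst (by rw [h]; simp)
    · exact hyXS (hF' h)
  refine ⟨s, t, X1, Y1, hst, htS, hX1XS, ?_, hMS, ?_, hsΔ, htΔ⟩
  · rintro rfl
    refine hno ⟨t, ?_, ?_, ?_⟩
    · rintro rfl
      exact hxst (by simp)
    · rintro rfl
      exact hyst (by simp)
    · intro F hF hne
      rcases hsp.face F hF with h | h | h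
      · have h3 : adj Δ t x := touch_single.1 (hMS.tX t (by simp))
        have h4 : insert s ({t, x} : Finset V) ∈ Δ := by
          refine hsΔ _ h3.2 ?_
          intro v hv
          simp only [Finset.mem_insert, Finset.mem_singleton, Finset.mem_union] at hv ⊢
          tauto
        have h5 : insert s ({t, x} : Finset V) ∈ GX Δ X S x y := by
          refine Or.inl ⟨h4, ?_⟩
          intro v hv
          refine hX1st ?_
          simp only [Finset.mem_insert, Finset.mem_singleton, Finset.mem_union] at hv ⊢
          tauto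
        refine hcΓ.inP.cx.down _ h5 _ ?_
        intro v hv
        rcases Finset.mem_insert.1 hv with h6 | h6
        · simp [h6]
        · have h7 := h h6
          simp only [Finset.mem_insert, Finset.mem_singleton, Finset.mem_union] at h7 ⊢
          tauto
      · exact ht F hF h
      · exact absurd h hne
  · rw [← hvΓ, ← hsp.un]
    exact Finset.subset_union_right

end Pool.Agent.Lib.MP_73b196_co.St
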