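import Pool.Agent.Lib.MP_73b196_co.St.Spec

/-!
# The minor X6
-/

set_option autoImplicit false

namespace Pool.Agent.Lib.MP_73b196_co.St

variable {V : Type} [Fintype V] [DecidableEq V] {Δ : Set (Finset V)}

/-- A vertex touching `A` but not adjacent to `x` touches a component of `A - x`. -/
theorem E3_comp {A : Finset V} {x t : V} (hA : Conn Δ A) (hx : x ∈ A) (ht : touch Δ {t} A)
    (hxt : ¬ adj Δ x t) : ∃ W, IsComp Δ (A \ {x}) W ∧ touch Δ {t} W ∧ touch Δ W {x} := by
  obtain ⟨w, hw, htw⟩ := touch_single_left.1 ht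
  have hwx : w ≠ x := by
    rintro rfl
    exact hxt (adj_symm htw)
  obtain ⟨W, hW, hwW⟩ := exists_comp (U := A \ {x})
    (fun v hv => hA.1 (Finset.mem_sdiff.1 hv).1)
    (Finset.mem_sdiff.2 ⟨hw, fun h => hwx (Finset.mem_singleton.1 h)⟩)
  exact ⟨W, hW, touch_single_left.2 ⟨w, hwW, htw⟩,
    hA.comp_touch (Finset.singleton_subset_iff.2 hx) (Finset.singleton_nonempty x) hW⟩

theorem tE3 : StmtE3 := by
  intro V _ _ Δ x y s t u X' Y' X2 Y2 h hK hm hst hs hxt hyt hm2 hut hX hu ht
  have hcx : IsCx Δ := h.inP.cx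
  have hxvs : ({x} : Finset V) ∈ Δ := mem_vs.1 h.mem_left
  have hyvs : ({y} : Finset V) ∈ Δ := mem_vs.1 h.mem_right
  have hxX : x ∈ X' := hm.hx
  have hyY : y ∈ Y' := hm.hy
  have hxX2 : x ∈ X2 := hm2.hx
  have hyY2 : y ∈ Y2 := hm2.hy
  have dX'S : ∀ v, v ∈ X' → v ≠ s ∧ v ≠ t := by
    intro v hv
    have := Finset.disjoint_left.1 hm.dXS hv
    simp only [Finset.mem_insert, Finset.mem_singleton, not_or] at this
    exact this
  have dY'S : ∀ v, v ∈ Y' → v ≠ s ∧ v ≠ t := by
    intro v hv
    have := Finset.disjoint_right.1 hm.dSY hv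
    simp only [Finset.mem_insert, Finset.mem_singleton, not_or] at this
    exact this
  have dX2S : ∀ v, v ∈ X2 → v ≠ u ∧ v ≠ t := by
    intro v hv
    have := Finset.disjoint_left.1 hm2.dXS hv
    simp only [Finset.mem_insert, Finset.mem_singleton, not_or] at this
    exact this
  have dY2S : ∀ v, v ∈ Y2 → v ≠ u ∧ v ≠ t := by
    intro v hv
    have := Finset.disjoint_right.1 hm2.dSY hv
    simp only [Finset.mem_insert, Finset.mem_singleton, not_or] at this
    exact this
  have dXY : ∀ v, v ∈ X' → v ∉ Y' := fun v hv => Finset.disjoint_left.1 hm.dXY hv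
  have dXY2 : ∀ v, v ∈ X2 → v ∉ Y2 := fun v hv => Finset.disjoint_left.1 hm2.dXY hv
  -- `x ~ s` and `y ~ u`
  have hxs : adj Δ x s := by
    refine ⟨(dX'S x hxX).1, ?_⟩
    have := hs {x} hxvs (by simp [hxX])
    rwa [Finset.pair_comm] at this
  have hyu : adj Δ y u := by
    refine ⟨(dY2S y hyY2).1, ?_⟩
    have := hu {y} hyvs (by simp [hyY2])
    rwa [Finset.pair_comm] at this
  have hus : u ≠ s := by
    rintro rfl
    exact hK u ⟨hxs, hyu⟩
  have huY : u ∈ Y' := by
    have h1 := hm.sub_right hyu.2 (by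
      intro h2
      have : u ∈ ({x, y} : Finset V) := by rw [← h2]; simp
      simp only [Finset.mem_insert, Finset.mem_singleton] at this
      rcases this with h3 | h3
      · exact (dX2S x hxX2).1 h3.symm
      · exact hyu.1 h3.symm) ⟨y, by simp [hyY]⟩
    have h2 := h1 (show u ∈ ({y, u} : Finset V) by simp)
    simp only [Finset.mem_union, Finset.mem_insert, Finset.mem_singleton] at h2
    rcases h2 with h2 | h2 | h2
    · exact h2
    · exact absurd h2 hus
    · exact absurd h2 hut
  have hsX2 : s ∈ X2 := by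
    have h1 := hm2.sub_left hxs.2 (by
      intro h2
      have : s ∈ ({x, y} : Finset V) := by rw [← h2]; simp
      simp only [Finset.mem_insert, Finset.mem_singleton] at this
      rcases this with h3 | h3
      · exact hxs.1 h3.symm
      · exact (dY'S y hyY).1 h3.symm) ⟨x, by simp [hxX2]⟩
    have h2 := h1 (show s ∈ ({x, s} : Finset V) by simp)
    simp only [Finset.mem_union, Finset.mem_insert, Finset.mem_singleton] at h2
    rcases h2 with h2 | h2 | h2
    · exact h2
    · exact absurd h2.symm hus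
    · exact absurd h2 hst
  have hsX' : s ∉ X' := fun hh => (dX'S s hh).1 rfl
  set s' : Finset V := X2 \ X' with hs'
  have hss' : s ∈ s' := Finset.mem_sdiff.2 ⟨hsX2, hsX'⟩
  have hxs' : x ∉ s' := fun hh => (Finset.mem_sdiff.1 hh).2 hxX
  have hys' : y ∉ s' := fun hh => dXY2 y (Finset.mem_sdiff.1 hh).1 hyY2
  -- elements of `s'` other than `s` are in `Y'`
  have hs'Y : ∀ v ∈ s', v = s ∨ v ∈ Y' := by
    intro v hv
    obtain ⟨hv1, hv2⟩ := Finset.mem_sdiff.1 hv
    have h1 : v ∈ vs Δ := hm2.cX.1 hv1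
    rw [← hm.un] at h1
    simp only [Finset.mem_union, Finset.mem_insert, Finset.mem_singleton] at h1
    rcases h1 with (h1 | h1 | h1) | h1
    · exact absurd h1 hv2
    · exact Or.inl h1
    · exact absurd h1 (dX2S v hv1).2
    · exact Or.inr h1
  -- connectedness
  have hcs' : Conn Δ s' := by
    refine conn_of (fun v hv => hm2.cX.1 (Finset.mem_sdiff.1 hv).1) ⟨s, hss'⟩ ?_
    intro A B hAB hd hA hB hnt
    have key : ∀ B' A' : Finset V, A' ∪ B' = s' → Disjoint A' B' → B'.Nonempty → ¬ touch Δ A' B' →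
        s ∉ B' → False := by
      intro B' A' hAB' hd' hB' hnt' hsB
      have hsA : s ∈ A' := by
        rcases Finset.mem_union.1 (hAB'.symm ▸ hss') with h1 | h1
        · exact h1
        · exact absurd h1 hsB
      have h1 : touch Δ B' (X2 \ B') := by
        refine hm2.cX.2.2 B' ?_ hB' ⟨s, Finset.mem_sdiff.2 ⟨hsX2, hsB⟩⟩
        intro v hv
        exact (Finset.mem_sdiff.1 (hAB' ▸ Finset.mem_union_right A' hv)).1
      obtain ⟨b, hb, c, hc, hbc⟩ := h1
      obtain ⟨hc1, hc2⟩ := Finset.mem_sdiff.1 hc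
      have hb' : b ∈ s' := hAB' ▸ Finset.mem_union_right A' hb
      by_cases hcX : c ∈ X'
      · rcases hs'Y b hb' with h2 | h2
        · exact hsB (h2 ▸ hb)
        · obtain ⟨-, h3⟩ := hm.no_edge hcX h2 (adj_symm hbc)
          exact hys' (h3 ▸ hb')
      · have hc' : c ∈ s' := Finset.mem_sdiff.2 ⟨hc1, hcX⟩
        rcases Finset.mem_union.1 (hAB'.symm ▸ hc') with h2 | h2
        · exact hnt' ⟨c, h2, b, hb, adj_symm hbc⟩
        · exact hc2 h2
    by_cases hsB : s ∈ B
    · refine key A B (by rw [Finset.union_comm]; exact hAB) hd.symm hA (fun h1 => hnt (touch_symm h1))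
        (fun h1 => Finset.disjoint_left.1 hd h1 hsB)
    · exact key B A hAB hd hB hnt hsB
  -- the components `W` and `Z`
  obtain ⟨W, hW, htW, hWx⟩ := E3_comp hm.cX hxX (hm.tX t (by simp)) hxt
  obtain ⟨Z, hZ, htZ, hZy⟩ := E3_comp hm2.cY hyY2 (hm2.tY t (by simp)) hyt
  have hWX : ∀ w ∈ W, w ∈ X' ∧ w ≠ x := fun w hw => by
    have := hW.1 hw
    simp only [Finset.mem_sdiff, Finset.mem_singleton] at this
    exact this
  have hZY : ∀ z ∈ Z, z ∈ Y2 ∧ z ≠ y := fun z hz => by
    have := hZ.1 hz
    simp only [Finset.mem_sdiff, Finset.mem_singleton] at this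
    exact this
  have hvxy : Conn Δ {x, y} := by
    have := (conn_single (Δ := Δ) h.mem_right).insert h.mem_left (touch_single.2 h.adj)
    exact this
  have htvs : t ∈ vs Δ := by
    rw [← hm.un]
    simp
  have huvs : u ∈ vs Δ := by
    rw [← hm2.un]
    simp
  -- faces
  obtain ⟨w, hwW, x0, hx0, hwx⟩ := hWx
  rw [Finset.mem_singleton.1 hx0] at hwx
  obtain ⟨w', hw'W, htw'⟩ := touch_single_left.1 htW
  obtain ⟨z, hzZ, y0, hy0, hzy⟩ := hZy
  rw [Finset.mem_singleton.1 hy0] at hzy
  obtain ⟨z', hz'Z, htz'⟩ := touch_single_left.1 htZ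
  obtain ⟨v0, hv0, huv0⟩ := touch_single_left.1 (hm2.tX u (by simp))
  have hv0X : v0 ∉ X' := by
    intro hh
    obtain ⟨-, h2⟩ := hm.no_edge hh huY (adj_symm huv0)
    exact hyu.1 h2.symm
  have hv0s : v0 ∈ s' := Finset.mem_sdiff.2 ⟨hv0, hv0X⟩
  have f1 : ({s, w, x} : Finset V) ∈ Δ := hs {w, x} hwx.2 (by
    intro v hv
    simp only [Finset.mem_insert, Finset.mem_singleton] at hv
    rcases hv with rfl | rfl
    · exact Finset.mem_union_left _ (hWX v hwW).1
    · exact Finset.mem_union_left _ hxX)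
  have f2 : ({s, t, w'} : Finset V) ∈ Δ := hs {t, w'} htw'.2 (by
    intro v hv
    simp only [Finset.mem_insert, Finset.mem_singleton] at hv
    rcases hv with rfl | rfl
    · exact Finset.mem_union_right _ (by simp)
    · exact Finset.mem_union_left _ (hWX v hw'W).1)
  have f3 : ({t, u, v0} : Finset V) ∈ Δ := ht {u, v0} huv0.2 (by
    intro v hv
    simp only [Finset.mem_insert, Finset.mem_singleton] at hv
    rcases hv with rfl | rfl
    · exact Finset.mem_union_left _ huY
    · rcases hs'Y v hv0s with h1 | h1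
      · exact Finset.mem_union_right _ (by simp [h1])
      · exact Finset.mem_union_left _ h1) (by
    intro v hv
    simp only [Finset.mem_insert, Finset.mem_singleton] at hv
    rcases hv with rfl | rfl
    · exact Finset.mem_union_right _ (by simp)
    · exact Finset.mem_union_left _ hv0)
  have f4 : ({u, t, z'} : Finset V) ∈ Δ := hu {t, z'} htz'.2 (by
    intro v hv
    simp only [Finset.mem_insert, Finset.mem_singleton] at hv
    rcases hv with rfl | rfl
    · exact Finset.mem_union_right _ (by simp)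
    · exact Finset.mem_union_left _ (hZY v hz'Z).1)
  have f5 : ({u, z, y} : Finset V) ∈ Δ := hu {z, y} hzy.2 (by
    intro v hv
    simp only [Finset.mem_insert, Finset.mem_singleton] at hv
    rcases hv with rfl | rfl
    · exact Finset.mem_union_left _ (hZY v hzZ).1
    · exact Finset.mem_union_left _ hyY2)
  have hfill : ∀ {A B C F : Finset V} {a b c : V}, F ∈ Δ → a ∈ F → b ∈ F → c ∈ F → a ∈ A → b ∈ B →
      c ∈ C → fill Δ [A, B, C] := by
    intro A B C F a b c hF ha hb hc haA hbB hcC
    refine ⟨F, hF, fun D hD => ?_⟩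
    simp only [List.mem_cons, List.not_mem_nil, or_false] at hD
    rcases hD with rfl | rfl | rfl
    · exact ⟨a, Finset.mem_inter.2 ⟨ha, haA⟩⟩
    · exact ⟨b, Finset.mem_inter.2 ⟨hb, hbB⟩⟩
    · exact ⟨c, Finset.mem_inter.2 ⟨hc, hcC⟩⟩
  refine h.inP.x6 {x, y} W s' {t} {u} Z ?_ ?_ ?_ ?_ ?_ ?_ ?_ ?_ ?_ ?_ ?_ ?_
  · intro A hA
    simp only [List.mem_cons, List.not_mem_nil, or_false] at hA
    rcases hA with rfl | rfl | rfl | rfl | rfl | rfl
    · exact hvxy
    · exact hW.2.1
    · exact hcs'
    · exact conn_single htvs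
    · exact conn_single huvs
    · exact hZ.2.1
  · have e1 : Disjoint ({x, y} : Finset V) W := by
      rw [Finset.disjoint_left]
      intro v hv hvW
      simp only [Finset.mem_insert, Finset.mem_singleton] at hv
      rcases hv with rfl | rfl
      · exact (hWX v hvW).2 rfl
      · exact dXY v (hWX v hvW).1 hyY
    have e2 : Disjoint ({x, y} : Finset V) s' := by
      rw [Finset.disjoint_left]
      intro v hv hvs
      simp only [Finset.mem_insert, Finset.mem_singleton] at hv
      rcases hv with rfl | rfl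
      · exact hxs' hvs
      · exact hys' hvs
    have e3 : Disjoint ({x, y} : Finset V) {t} := by
      rw [Finset.disjoint_right]
      intro v hv hv'
      rw [Finset.mem_singleton] at hv
      subst hv
      simp only [Finset.mem_insert, Finset.mem_singleton] at hv'
      rcases hv' with h1 | h1
      · exact (dX'S x hxX).2 h1.symm
      · exact (dY'S y hyY).2 h1.symm
    have e4 : Disjoint ({x, y} : Finset V) {u} := by
      rw [Finset.disjoint_right]
      intro v hv hv'
      rw [Finset.mem_singleton] at hv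
      subst hv
      simp only [Finset.mem_insert, Finset.mem_singleton] at hv'
      rcases hv' with h1 | h1
      · exact (dX2S x hxX2).1 h1.symm
      · exact hyu.1 h1.symm
    have e5 : Disjoint ({x, y} : Finset V) Z := by
      rw [Finset.disjoint_left]
      intro v hv hvZ
      simp only [Finset.mem_insert, Finset.mem_singleton] at hv
      rcases hv with rfl | rfl
      · exact dXY2 v hxX2 (hZY v hvZ).1
      · exact (hZY v hvZ).2 rfl
    have e6 : Disjoint W s' := by
      rw [Finset.disjoint_left]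
      intro v hv hvs
      exact (Finset.mem_sdiff.1 hvs).2 (hWX v hv).1
    have e7 : Disjoint W {t} := by
      rw [Finset.disjoint_left]
      intro v hv hvt
      exact (dX'S v (hWX v hv).1).2 (Finset.mem_singleton.1 hvt)
    have e8 : Disjoint W {u} := by
      rw [Finset.disjoint_left]
      intro v hv hvu
      rw [Finset.mem_singleton.1 hvu] at hv
      exact dXY u (hWX u hv).1 huY
    have e9 : Disjoint W Z := by
      rw [Finset.disjoint_left]
      intro v hv hvZ
      exact dXY2 v (hX (hWX v hv).1) (hZY v hvZ).1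
    have e10 : Disjoint s' {t} := by
      rw [Finset.disjoint_left]
      intro v hv hvt
      exact (dX2S v (Finset.mem_sdiff.1 hv).1).2 (Finset.mem_singleton.1 hvt)
    have e11 : Disjoint s' {u} := by
      rw [Finset.disjoint_left]
      intro v hv hvt
      exact (dX2S v (Finset.mem_sdiff.1 hv).1).1 (Finset.mem_singleton.1 hvt)
    have e12 : Disjoint s' Z := by
      rw [Finset.disjoint_left]
      intro v hv hvZ
      exact dXY2 v (Finset.mem_sdiff.1 hv).1 (hZY v hvZ).1
    have e13 : Disjoint ({t} : Finset V) {u} := by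
      rw [Finset.disjoint_singleton]
      exact hut.symm
    have e14 : Disjoint ({t} : Finset V) Z := by
      rw [Finset.disjoint_right]
      intro v hv hvt
      exact (dY2S v (hZY v hv).1).2 (Finset.mem_singleton.1 hvt)
    have e15 : Disjoint ({u} : Finset V) Z := by
      rw [Finset.disjoint_right]
      intro v hv hvt
      exact (dY2S v (hZY v hv).1).1 (Finset.mem_singleton.1 hvt)
    simp only [List.pairwise_cons, List.mem_cons, List.not_mem_nil, or_false, forall_eq_or_imp,
      forall_eq, false_imp_iff, implies_true, List.Pairwise.nil, and_true]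
    exact ⟨⟨e1, e2, e3, e4, e5⟩, ⟨e6, e7, e8, e9⟩, ⟨e10, e11, e12⟩, ⟨e13, e14⟩, e15⟩
  · exact hfill f1 (a := x) (b := w) (c := s) (by simp) (by simp) (by simp) (by simp) hwW hss'
  · exact hfill f2 (a := w') (b := s) (c := t) (by simp) (by simp) (by simp) hw'W hss' (by simp)
  · exact hfill f3 (a := v0) (b := t) (c := u) (by simp) (by simp) (by simp) hv0s (by simp) (by simp)
  · exact hfill f4 (a := t) (b := u) (c := z') (by simp) (by simp) (by simp) (by simp) (by simp) hz'Z
  · exact hfill f5 (a := u) (b := z) (c := y) (by simp) (by simp) (by simp) (by simp) hzZ (by simp)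
  · rintro ⟨F, hF, hF'⟩
    obtain ⟨a, ha⟩ := hF' {x, y} (by simp)
    obtain ⟨b, hb⟩ := hF' s' (by simp)
    obtain ⟨c, hc⟩ := hF' {u} (by simp)
    rw [Finset.mem_inter] at ha hb hc
    rw [Finset.mem_singleton.1 hc.2] at hc
    rcases Finset.mem_insert.1 ha.2 with h1 | h1
    · rw [h1] at ha
      have hne : x ≠ u := (dX2S x hxX2).1
      obtain ⟨-, h2⟩ := hm.no_edge hxX huY (hcx.adj_of_face hF ha.1 hc.1 hne)
      exact hyu.1 h2.symm
    · rw [Finset.mem_singleton.1 h1] at ha
      have hne : b ≠ y := by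
        rintro rfl
        exact hys' hb.2
      obtain ⟨h2, -⟩ := hm2.no_edge (Finset.mem_sdiff.1 hb.2).1 hyY2
        (hcx.adj_of_face hF hb.1 ha.1 hne)
      exact hxs' (h2 ▸ hb.2)
  · rintro ⟨a, ha, b, hb, hab⟩
    rw [Finset.mem_singleton.1 hb] at hab
    rcases Finset.mem_insert.1 ha with h1 | h1
    · exact hxt (h1 ▸ hab)
    · exact hyt (Finset.mem_singleton.1 h1 ▸ hab)
  · rintro ⟨a, ha, b, hb, hab⟩
    rw [Finset.mem_singleton.1 hb] at hab
    obtain ⟨h1, -⟩ := hm.no_edge (hWX a ha).1 huY hab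
    exact (hWX a ha).2 h1
  · rintro ⟨a, ha, b, hb, hab⟩
    obtain ⟨h1, -⟩ := hm2.no_edge (hX (hWX a ha).1) (hZY b hb).1 hab
    exact (hWX a ha).2 h1
  · rintro ⟨a, ha, b, hb, hab⟩
    obtain ⟨h1, -⟩ := hm2.no_edge (Finset.mem_sdiff.1 ha).1 (hZY b hb).1 hab
    exact hxs' (h1 ▸ ha)

end Pool.Agent.Lib.MP_73b196_co.St
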