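import Pool.Agent.Lib.MP_73b196_co.St.Spec

/-!
# Structure theorem for edge facets, statement E4
-/

set_option autoImplicit false
set_option linter.unusedSectionVars false

namespace Pool.Agent.Lib.MP_73b196_co.St

variable {V : Type} [Fintype V] [DecidableEq V] {Δ : Set (Finset V)}
  {F S U X X1 Y Y1 : Finset V} {a s t u x y : V}

/-- a splitting of the contraction gives a splitting -/
theorem E4_lift (hms : MS Δ x y S X Y) (hv : vs (GX Δ X S x y) = insert y (X ∪ S))
    (h : Spl (GX Δ X S x y) x y U X1 Y1) : Spl Δ x y U X1 (Y1 ∪ Y) := by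
  have hxy : x ≠ y := fun e => Finset.disjoint_left.1 hms.dXY hms.hx (e ▸ hms.hy)
  have hxS : x ∉ S := fun h1 => Finset.disjoint_left.1 hms.dXS hms.hx h1
  have hY : ∀ v ∈ Y, v ∈ insert y (X ∪ S) → v = y := by
    intro v hvY h1
    rcases Finset.mem_insert.1 h1 with h2 | h2
    · exact h2
    · exfalso
      rcases Finset.mem_union.1 h2 with h3 | h3
      · exact Finset.disjoint_left.1 hms.dXY h3 hvY
      · exact Finset.disjoint_left.1 hms.dSY h3 hvY
  have hsub : ∀ v, v ∈ X1 ∪ U → v ∈ insert y (X ∪ S) := by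
    intro v h1
    rw [← hv, ← h.un]
    exact Finset.mem_union_left _ h1
  have hyX : y ∉ X1 ∪ U := by
    intro h1
    rcases Finset.mem_union.1 h1 with h2 | h2
    · exact Finset.disjoint_left.1 h.dXY h2 h.hy
    · exact Finset.disjoint_left.1 h.dSY h2 h.hy
  refine ⟨?_, h.dXS, ?_, ?_, h.hx, Finset.mem_union_left _ h.hy, ?_⟩
  · rw [← Finset.union_assoc, h.un, hv, ← hms.un]
    ext v
    simp only [Finset.mem_union, Finset.mem_insert]
    constructor
    · rintro ((rfl | h1) | h1)
      · exact Or.inr hms.hy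
      · exact Or.inl h1
      · exact Or.inr h1
    · rintro (h1 | h1)
      · exact Or.inl (Or.inr h1)
      · exact Or.inr h1
  · rw [Finset.disjoint_union_right]
    refine ⟨h.dXY, Finset.disjoint_left.2 fun v h1 h2 => ?_⟩
    have h3 := hY v h2 (hsub v (Finset.mem_union_left _ h1))
    exact hyX (Finset.mem_union_left _ (h3 ▸ h1))
  · rw [Finset.disjoint_union_right]
    refine ⟨h.dSY, Finset.disjoint_left.2 fun v h1 h2 => ?_⟩
    have h3 := hY v h2 (hsub v (Finset.mem_union_right _ h1))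
    exact hyX (Finset.mem_union_right _ (h3 ▸ h1))
  · intro F hF
    rcases hms.face F hF with h1 | h1 | h1
    · rcases h.face F (Or.inl ⟨hF, h1⟩) with h2 | h2 | h2
      · exact Or.inl h2
      · refine Or.inr (Or.inl (h2.trans ?_))
        exact Finset.union_subset_union_left Finset.subset_union_left
      · exact Or.inr (Or.inr h2)
    · rcases h.face (insert y (F ∩ S)) (Or.inr (Or.inl
        (Finset.insert_subset_insert y Finset.inter_subset_right))) with h2 | h2 | h2
      · exact absurd (h2 (Finset.mem_insert_self _ _)) hyX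
      · refine Or.inr (Or.inl fun v hvF => ?_)
        rcases Finset.mem_union.1 (h1 hvF) with h3 | h3
        · exact Finset.mem_union_left _ (Finset.mem_union_right _ h3)
        · have h4 := h2 (Finset.mem_insert_of_mem (Finset.mem_inter.2 ⟨hvF, h3⟩))
          rcases Finset.mem_union.1 h4 with h5 | h5
          · exact Finset.mem_union_left _ (Finset.mem_union_left _ h5)
          · exact Finset.mem_union_right _ h5
      · exfalso
        have h3 : x ∈ insert y (F ∩ S) := by
          rw [h2]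
          exact Finset.mem_insert_self _ _
        rcases Finset.mem_insert.1 h3 with h4 | h4
        · exact hxy h4
        · exact hxS (Finset.mem_inter.1 h4).2
    · exact Or.inr (Or.inr h1)

/-- one application of the contraction -/
theorem E4_step (hC1 : StmtC1) (hE2 : StmtE2) (hH : HypS V (vs Δ).card) (h : Ctx Δ x y)
    (hcut : ∀ u X Y, ¬ Spl Δ x y {u} X Y) (hms : MS Δ x y S X Y) (hclq : Clq Δ S)
    (hY : Y ≠ {y}) (hS : ∀ p ∈ S, ¬ adj Δ x p) :
    ∃ s t X1 Y1, s ≠ t ∧ t ∈ S ∧ X1 ⊆ X ∪ S ∧ X1 ≠ {x} ∧ MS Δ x y {s, t} X1 (Y1 ∪ Y) ∧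
      Y1 ⊆ insert y (X ∪ S) ∧
      (∀ F ∈ Δ, F ⊆ X1 ∪ {s, t} → insert s F ∈ Δ) ∧
      (∀ F ∈ Δ, F ⊆ X ∪ S → F ⊆ Y1 ∪ {s, t} → insert t F ∈ Δ) := by
  obtain ⟨hctx, hv⟩ := hC1 V Δ x y S X Y h hms hclq
  have hxy : x ≠ y := h.ef.ne
  have hxS : x ∉ S := fun h1 => Finset.disjoint_left.1 hms.dXS hms.hx h1
  have hyXS : y ∉ X ∪ S := by
    intro h1
    rcases Finset.mem_union.1 h1 with h2 | h2
    · exact Finset.disjoint_left.1 hms.dXY h2 hms.hy
    · exact Finset.disjoint_left.1 hms.dSY h2 hms.hy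
  have hcard : (vs (GX Δ X S x y)).card < (vs Δ).card := by
    apply Finset.card_lt_card
    rw [hv, Finset.ssubset_iff_subset_ne]
    constructor
    · rw [← hms.un]
      refine Finset.insert_subset_iff.2 ⟨Finset.mem_union_right _ hms.hy, ?_⟩
      exact Finset.subset_union_left
    · intro e
      apply hY
      rw [Finset.eq_singleton_iff_unique_mem]
      refine ⟨hms.hy, fun v hvY => ?_⟩
      have h1 : v ∈ insert y (X ∪ S) := by
        rw [e, ← hms.un]
        exact Finset.mem_union_right _ hvY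
      rcases Finset.mem_insert.1 h1 with h2 | h2
      · exact h2
      · exfalso
        rcases Finset.mem_union.1 h2 with h3 | h3
        · exact Finset.disjoint_left.1 hms.dXY h3 hvY
        · exact Finset.disjoint_left.1 hms.dSY h3 hvY
  have hnoA : ¬ ∃ p, ApexD (GX Δ X S x y) x y p := by
    rintro ⟨p, hp⟩
    have hx1 := hp.adj_left hctx.mem_left hxy
    have hy1 := hp.adj_right hctx.mem_right hxy
    have hpS : p ∈ S := by
      rcases hy1.2 with h1 | h1 | h1
      · exact absurd (h1.2 (Finset.mem_insert_self _ _)) hyXS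
      · have h2 : p ∈ insert y S := h1 (by simp)
        rcases Finset.mem_insert.1 h2 with h3 | h3
        · exact absurd h3 hp.2.1
        · exact h3
      · exfalso
        have h2 : p ∈ ({x, y} : Finset V) := by
          rw [← h1]
          simp
        rw [Finset.mem_insert, Finset.mem_singleton] at h2
        rcases h2 with h2 | h2
        · exact hp.1 h2
        · exact hp.2.1 h2
    apply hS p hpS
    refine ⟨hx1.1, ?_⟩
    rcases hx1.2 with h1 | h1 | h1
    · exact h1.1
    · exfalso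
      have h2 : x ∈ insert y S := h1 (by simp)
      rcases Finset.mem_insert.1 h2 with h3 | h3
      · exact hxy h3
      · exact hxS h3
    · exfalso
      have h2 : p ∈ ({x, y} : Finset V) := by
        rw [← h1]
        simp
      rw [Finset.mem_insert, Finset.mem_singleton] at h2
      rcases h2 with h2 | h2
      · exact hp.1 h2
      · exact hp.2.1 h2
  rcases hH (GX Δ X S x y) x y hcard hctx with h1 | ⟨u, X1, Y1, h1⟩ | h1
  · exact absurd h1 hnoA
  · exact absurd (E4_lift hms hv h1) (hcut u X1 (Y1 ∪ Y))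
  · exact hE2 V Δ x y S X Y h hcut hms hclq hnoA h1

/-- a face avoiding `X'` -/
theorem E4_sub {X' Y' U T : Finset V} (hd : Disjoint X' Y') (hd' : Disjoint X' T)
    (h1 : F ⊆ Y' ∪ T) (h2 : F ⊆ (X1 ∪ X') ∪ U) : F ⊆ X1 ∪ U := by
  intro v hv
  have h3 : v ∉ X' := by
    intro h4
    rcases Finset.mem_union.1 (h1 hv) with h5 | h5
    · exact Finset.disjoint_left.1 hd h4 h5
    · exact Finset.disjoint_left.1 hd' h4 h5
  rcases Finset.mem_union.1 (h2 hv) with h4 | h4
  · rcases Finset.mem_union.1 h4 with h5 | h5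
    · exact Finset.mem_union_left _ h5
    · exact absurd h5 h3
  · exact Finset.mem_union_right _ h4

theorem tE4 (hC1 : StmtC1) (hC3 : StmtC3) (hE1 : StmtE1) (hE2 : StmtE2) (hE3 : StmtE3)
    (hA : StmtThmA) : StmtE4 := by
  intro V _ _ Δ x y S X Y hH h hno hcut hms hclq hX hY hS
  obtain ⟨s, t, X1, Y1, hst, htS, hX1, hX1x, hM1, hY1, hs, ht⟩ :=
    E4_step hC1 hE2 hH h hcut hms hclq hY hS
  have hss : s ∈ ({s, t} : Finset V) := by simp
  have htt : t ∈ ({s, t} : Finset V) := by simp
  have hxs : x ≠ s := by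
    rintro rfl
    exact Finset.disjoint_left.1 hM1.dXS hM1.hx hss
  have hadjxs : adj Δ x s := by
    refine ⟨hxs, ?_⟩
    rw [Finset.pair_comm]
    exact hs {x} (mem_vs.1 h.mem_left) (by
      rw [Finset.singleton_subset_iff]
      exact Finset.mem_union_left _ hM1.hx)
  have hst' : adj Δ s t := by
    refine ⟨hst, ?_⟩
    exact hs {t} (mem_vs.1 (hM1.pms.sS htt)) (by
      rw [Finset.singleton_subset_iff]
      exact Finset.mem_union_right _ htt)
  have hys : ¬ adj Δ y s := fun h1 => hno s ⟨hadjxs, h1⟩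
  have hY'y : Y1 ∪ Y ≠ {y} := by
    intro e
    obtain ⟨b, hb, hsb⟩ := touch_single_left.1 (hM1.tY s hss)
    rw [e, Finset.mem_singleton] at hb
    subst hb
    exact hys (adj_symm hsb)
  have hclq' : Clq Δ {s, t} := by
    refine ⟨hM1.pms.sS, ?_⟩
    intro a ha b hb hab
    simp only [Finset.mem_insert, Finset.mem_singleton] at ha hb
    rcases ha with rfl | rfl <;> rcases hb with rfl | rfl
    · exact absurd rfl hab
    · exact hst'
    · exact adj_symm hst'
    · exact absurd rfl hab
  by_cases hyt : adj Δ y t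
  · exact hE1 V Δ x y s t {s, t} X1 (Y1 ∪ Y) (hA V _) h hno hM1 hclq' hX1x hY'y hss hadjxs htt hyt
  have hcut' : ∀ u X Y, ¬ Spl Δ y x {u} X Y := fun u X Y h1 => hcut u Y X h1.symm
  have hS' : ∀ p ∈ ({s, t} : Finset V), ¬ adj Δ y p := by
    intro p hp
    simp only [Finset.mem_insert, Finset.mem_singleton] at hp
    rcases hp with rfl | rfl
    · exact hys
    · exact hyt
  obtain ⟨u, s2, Y1', X1', hus, hs2, -, -, hM2, -, hu, hs2'⟩ :=
    E4_step hC1 hE2 hH h.symm hcut' hM1.symm hclq' hX1x hS'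
  have hyU : y ∉ (X1' ∪ X1) ∪ {u, s2} := by
    intro h1
    rcases Finset.mem_union.1 h1 with h2 | h2
    · exact Finset.disjoint_left.1 hM2.dXY hM2.hx h2
    · exact Finset.disjoint_left.1 hM2.dXS hM2.hx h2
  have hcross : s2 ∈ ({s, t} : Finset V) →
      (∀ F ∈ Δ, F ⊆ X1 ∪ {s, t} → insert s2 F ∈ Δ) → Crossed Δ x y := by
    intro _ h1
    refine ⟨s2, u, X1' ∪ X1, Y1', hus.symm, ?_, ?_, ?_⟩
    · rw [Finset.pair_comm s2 u]
      exact hM2.toSpl.symm
    · intro F hF hF'
      rw [Finset.pair_comm s2 u] at hF'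
      rcases hM1.face F hF with h2 | h2 | h2
      · exact h1 F hF h2
      · exact hs2' F hF h2 (E4_sub hM1.dXY hM1.dXS h2 hF')
      · exfalso
        apply hyU
        apply hF'
        rw [h2]
        simp
    · intro F hF hF'
      rw [Finset.pair_comm s2 u] at hF'
      exact hu F hF hF'
  by_cases hs2s : s2 = s
  · refine hcross hs2 ?_
    rw [hs2s]
    exact hs
  have hs2t : s2 = t := by
    simp only [Finset.mem_insert, Finset.mem_singleton] at hs2
    rcases hs2 with h1 | h1
    · exact absurd h1 hs2s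
    · exact h1
  subst hs2t
  by_cases hcone : ∀ F ∈ Δ, F ⊆ X1 ∪ {s, s2} → insert s2 F ∈ Δ
  · exact hcross hs2 hcone
  have hxt : ¬ adj Δ x s2 := fun h1 =>
    hcone (hC3 V Δ x y s2 {s, s2} X1 (Y1 ∪ Y) (hA V _) h hM1 hclq' hY'y htt h1)
  exact (hE3 V Δ x y s s2 u X1 (Y1 ∪ Y) (X1' ∪ X1) Y1' h hno hM1 hst hs hxt hyt hM2.symm hus
    Finset.subset_union_right hu
    (fun F hF h1 h2 => hs2' F hF h1 (E4_sub hM1.dXY hM1.dXS h1 h2))).elim

end Pool.Agent.Lib.MP_73b196_co.St
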