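import Pool.Agent.Lib.MP_73b196_co.St.Spec

/-!
# F1: two neighbours
-/

set_option autoImplicit false

namespace Pool.Agent.Lib.MP_73b196_co.St

theorem F1_two {V : Type} [Fintype V] [DecidableEq V] {Δ : Set (Finset V)} {x y : V}
    {S X Y : Finset V} (h5 : StmtA5) (hc : Ctx Δ x y) (hcut : ∀ u X Y, ¬ Spl Δ x y {u} X Y)
    (hs : Spl Δ x y S X Y) : ∃ s ∈ S, ∃ s' ∈ S, s ≠ s' := by
  obtain ⟨s, hsS⟩ := h5 V Δ x y S X Y hc hs
  by_contra hcon
  push Not at hcon
  have h1 : S = {s} := by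
    ext v
    rw [Finset.mem_singleton]
    exact ⟨fun h => hcon v h s hsS, fun h => h ▸ hsS⟩
  exact hcut s X Y (h1 ▸ hs)

theorem tF1 (_h4 : StmtA4) (h5 : StmtA5) : StmtF1 := by
  classical
  intro V _ _ Δ x y S Y h
  have hcx := h.ctx.inP.cx
  refine ⟨F1_two h5 h.ctx h.noCut h.ms.toSpl, ?_⟩
  have hxv : x ∈ vs Δ := h.ctx.mem_left
  have hyv : y ∈ vs Δ := h.ctx.mem_right
  have hxy : x ≠ y := h.ctx.ef.ne
  obtain ⟨N, hN⟩ : ∃ N : Finset V, ∀ v, v ∈ N ↔ adj Δ y v ∧ v ≠ x := by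
    refine ⟨(vs Δ).filter fun v => adj Δ y v ∧ v ≠ x, fun v => ?_⟩
    rw [Finset.mem_filter]
    exact ⟨fun h => h.2, fun h => ⟨(hcx.adj_vs h.1).2, h⟩⟩
  have hyN : y ∉ N := fun h' => ((hN y).1 h').1.1 rfl
  have hNv : N ⊆ vs Δ := fun v hv => (hcx.adj_vs ((hN v).1 hv).1).2
  have hspl : Spl Δ x y N ((vs Δ \ N) \ {y}) {y} := by
    refine ⟨?_, ?_, ?_, ?_, ?_, Finset.mem_singleton_self y, ?_⟩
    · ext v
      simp only [Finset.mem_union, Finset.mem_sdiff, Finset.mem_singleton]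
      constructor
      · rintro ((⟨⟨h1, -⟩, -⟩ | h1) | h1)
        · exact h1
        · exact hNv h1
        · exact h1 ▸ hyv
      · intro h1
        by_cases h2 : v = y
        · exact Or.inr h2
        · by_cases h3 : v ∈ N
          · exact Or.inl (Or.inr h3)
          · exact Or.inl (Or.inl ⟨⟨h1, h3⟩, h2⟩)
    · rw [Finset.disjoint_left]
      intro v hv hv'
      exact (Finset.mem_sdiff.1 (Finset.mem_sdiff.1 hv).1).2 hv'
    · rw [Finset.disjoint_left]
      intro v hv hv'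
      exact (Finset.mem_sdiff.1 hv).2 hv'
    · exact Finset.disjoint_singleton_right.2 hyN
    · rw [Finset.mem_sdiff, Finset.mem_sdiff, Finset.mem_singleton]
      exact ⟨⟨hxv, fun h' => ((hN x).1 h').2 rfl⟩, hxy⟩
    · intro F hF
      by_cases hyF : y ∈ F
      · by_cases hxF : x ∈ F
        · exact Or.inr (Or.inr (h.ctx.ef.facet F hF hxF hyF))
        · refine Or.inr (Or.inl fun v hv => ?_)
          by_cases hvy : v = y
          · exact Finset.mem_union_left _ (Finset.mem_singleton.2 hvy)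
          · refine Finset.mem_union_right _ ((hN v).2 ⟨hcx.adj_of_face hF hyF hv (Ne.symm hvy), ?_⟩)
            exact fun h' => hxF (h' ▸ hv)
      · refine Or.inl fun v hv => ?_
        by_cases hvN : v ∈ N
        · exact Finset.mem_union_right _ hvN
        · refine Finset.mem_union_left _ ?_
          rw [Finset.mem_sdiff, Finset.mem_sdiff, Finset.mem_singleton]
          exact ⟨⟨hcx.sub_vs hF hv, hvN⟩, fun h' => hyF (h' ▸ hv)⟩
  obtain ⟨t, ht, t', ht', hne⟩ := F1_two h5 h.ctx h.noCut hspl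
  exact ⟨t, t', hne, ((hN t).1 ht).2, ((hN t').1 ht').2, ((hN t).1 ht).1, ((hN t').1 ht').1⟩

end Pool.Agent.Lib.MP_73b196_co.St
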