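import Pool.Agent.Lib.MP_73b196_co.St.Spec

/-!
# Structure theorem: F2
-/

set_option autoImplicit false

namespace Pool.Agent.Lib.MP_73b196_co.St

/-- If no contraction of `x` into `S` is irreducible, every `s ∈ S` lies in a face with all the
neighbours of `y` other than `x`. -/
theorem F2_key (h2 : StmtA2) (h4 : StmtA4) (h5 : StmtC5) {V : Type} [Fintype V] [DecidableEq V]
    {Δ : Set (Finset V)} {x y : V} {S Y : Finset V} (hF : FH Δ x y S Y) {s s' : V} (hs : s ∈ S)
    (hs' : s' ∈ S) (hne : s' ≠ s)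
    (hcon : ¬ Ctx (insert {y, s} (ind Δ (vs Δ \ {x}))) y s) :
    ∃ F ∈ Δ, s ∈ F ∧ ∀ p, adj Δ y p → p ≠ x → p ∈ F := by
  have hc := hF.ctx
  obtain ⟨hSΔ, -, -⟩ := h2 V Δ x y S {x} Y S hc.inP hc.ef hF.ms.pms (Finset.Subset.refl S) hF.clq
  have hxs := (hF.ms.mem_iff.1 hs).1
  rcases h5 V Δ y x s s' S Y hc.symm hF.noPair hF.ms.symm hF.clq hSΔ hs
    (fun h => hF.noK s ⟨hxs, h⟩) hs' hne with h | ⟨F, hFΔ, hsF, hSF, X', Y', hsp⟩
  · exact absurd h hcon
  · obtain ⟨S2, X2, Y2, hS2F, hms2⟩ := h4 V Δ y x F X' Y' hc.symm hsp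
    have hclq : Clq Δ S2 := by
      refine ⟨hS2F.trans (hc.inP.cx.sub_vs hFΔ), ?_⟩
      intro a ha b hb hab
      exact hc.inP.cx.adj_of_face hFΔ (hS2F ha) (hS2F hb) hab
    rcases hF.one S2 Y2 X2 hms2.symm hclq with h | h
    · exfalso
      subst h
      refine hSF fun p hp => hS2F ?_
      exact hms2.symm.mem_iff.2 (hF.ms.mem_iff.1 hp)
    · subst h
      refine ⟨F, hFΔ, hsF, fun p hp hpx => hS2F (hms2.mem_iff.2 ⟨hp, hpx⟩)⟩

theorem tF2 (h2 : StmtA2) (h4 : StmtA4) (h5 : StmtC5) (h1 : StmtF1) : StmtF2 := by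
  intro V _ _ Δ x y S Y hF
  by_contra hcon
  push Not at hcon
  have hc := hF.ctx
  have hcx := hc.inP.cx
  obtain ⟨⟨s, hs, s', hs', hss⟩, t, t', htt, htx, htx', hyt, hyt'⟩ := h1 V Δ x y S Y hF
  obtain ⟨F, hFΔ, hsF, hF1⟩ := F2_key h2 h4 h5 hF hs hs' hss.symm (hcon s hs)
  obtain ⟨F', hFΔ', hsF', hF1'⟩ := F2_key h2 h4 h5 hF hs' hs hss (hcon s' hs')
  have hxs := (hF.ms.mem_iff.1 hs).1
  have hxs' := (hF.ms.mem_iff.1 hs').1
  have hxy := hc.adj
  -- the vertices of `S` are no neighbours of `y`, and different from `t`, `t'`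
  have hnt : ∀ p q, adj Δ x p → adj Δ y q → p ≠ q := by
    rintro p q hp hq rfl
    exact hF.noK p ⟨hp, hq⟩
  have hsy : ∀ p, adj Δ x p → p ≠ y → p ∉ ({x, y} : Finset V) := by
    intro p hp hpy h
    rw [Finset.mem_insert, Finset.mem_singleton] at h
    rcases h with rfl | h
    · exact hp.1 rfl
    · exact hpy h
  have hty : ∀ p, adj Δ y p → p ≠ x → p ∉ ({x, y} : Finset V) := by
    intro p hp hpx h
    rw [Finset.mem_insert, Finset.mem_singleton] at h
    rcases h with h | rfl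
    · exact hpx h
    · exact hp.1 rfl
  have hsy1 := hsy s hxs (hF.ms.mem_iff.1 hs).2
  have hsy2 := hsy s' hxs' (hF.ms.mem_iff.1 hs').2
  have hty1 := hty t hyt htx
  have hty2 := hty t' hyt' htx'
  have hst := hcx.adj_of_face hFΔ hsF (hF1 t hyt htx) (hnt s t hxs hyt)
  have hst' := hcx.adj_of_face hFΔ hsF (hF1 t' hyt' htx') (hnt s t' hxs hyt')
  have hs't := hcx.adj_of_face hFΔ' hsF' (hF1' t hyt htx) (hnt s' t hxs' hyt)
  have hs't' := hcx.adj_of_face hFΔ' hsF' (hF1' t' hyt' htx') (hnt s' t' hxs' hyt')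
  have htt' := hcx.adj_of_face hFΔ (hF1 t hyt htx) (hF1 t' hyt' htx') htt
  have hss' := hF.clq.2 s hs s' hs' hss
  have hv : Conn Δ ({x, y} : Finset V) :=
    (conn_single hc.mem_right).insert hc.mem_left (touch_single.2 hxy)
  have hm : CM Δ [{x, y}, {s}, {t}, {s'}, {t'}] := by
    refine ⟨?_, ?_⟩
    · intro A hA
      simp only [List.mem_cons, List.not_mem_nil, or_false] at hA
      rcases hA with rfl | rfl | rfl | rfl | rfl
      · exact hv
      · exact conn_single (hcx.adj_vs hxs).2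
      · exact conn_single (hcx.adj_vs hyt).2
      · exact conn_single (hcx.adj_vs hxs').2
      · exact conn_single (hcx.adj_vs hyt').2
    · have hvx : ∀ p, adj Δ x p → touch Δ {x, y} {p} :=
        fun p hp => ⟨x, by simp, p, by simp, hp⟩
      have hvy : ∀ p, adj Δ y p → touch Δ {x, y} {p} :=
        fun p hp => ⟨y, by simp, p, by simp, hp⟩
      have hpq : ∀ p q, adj Δ p q → Disjoint ({p} : Finset V) {q} ∧ touch Δ {p} {q} :=
        fun p q h => ⟨Finset.disjoint_singleton.2 h.1, touch_single.2 h⟩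
      refine List.Pairwise.cons ?_ (List.Pairwise.cons ?_ (List.Pairwise.cons ?_
        (List.Pairwise.cons ?_ (List.Pairwise.cons ?_ List.Pairwise.nil))))
      · intro B hB
        simp only [List.mem_cons, List.not_mem_nil, or_false] at hB
        rcases hB with rfl | rfl | rfl | rfl
        · exact ⟨Finset.disjoint_singleton_right.2 hsy1, hvx s hxs⟩
        · exact ⟨Finset.disjoint_singleton_right.2 hty1, hvy t hyt⟩
        · exact ⟨Finset.disjoint_singleton_right.2 hsy2, hvx s' hxs'⟩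
        · exact ⟨Finset.disjoint_singleton_right.2 hty2, hvy t' hyt'⟩
      · intro B hB
        simp only [List.mem_cons, List.not_mem_nil, or_false] at hB
        rcases hB with rfl | rfl | rfl
        · exact hpq _ _ hst
        · exact hpq _ _ hss'
        · exact hpq _ _ hst'
      · intro B hB
        simp only [List.mem_cons, List.not_mem_nil, or_false] at hB
        rcases hB with rfl | rfl
        · exact hpq _ _ (adj_symm hs't)
        · exact hpq _ _ htt'
      · intro B hB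
        simp only [List.mem_cons, List.not_mem_nil, or_false] at hB
        subst hB
        exact hpq _ _ hs't'
      · intro B hB
        exact absurd hB List.not_mem_nil
  have hunf : ∀ p q, adj Δ x p → adj Δ y q → p ∉ ({x, y} : Finset V) → q ∉ ({x, y} : Finset V) →
      ¬ fill Δ [{x, y}, {p}, {q}] := by
    rintro p q hp hq hp' hq' ⟨G, hG, hGA⟩
    obtain ⟨v, hv⟩ := hGA {x, y} (by simp)
    obtain ⟨p₁, hp₁⟩ := hGA {p} (by simp)
    obtain ⟨q₁, hq₁⟩ := hGA {q} (by simp)
    rw [Finset.mem_inter, Finset.mem_singleton] at hp₁ hq₁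
    obtain ⟨hp1, rfl⟩ := hp₁
    obtain ⟨hq1, rfl⟩ := hq₁
    rw [Finset.mem_inter, Finset.mem_insert, Finset.mem_singleton] at hv
    obtain ⟨hvG, rfl | rfl⟩ := hv
    · refine hF.noK q₁ ⟨hcx.adj_of_face hG hvG hq1 ?_, hq⟩
      rintro rfl
      exact hq' (by simp)
    · refine hF.noK p₁ ⟨hp, hcx.adj_of_face hG hvG hp1 ?_⟩
      rintro rfl
      exact hp' (by simp)
  rcases hc.inP.k5 _ _ _ _ _ hm with h | h
  · exact hunf s t hxs hyt hsy1 hty1 h
  · exact hunf s' t' hxs' hyt' hsy2 hty2 h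

end Pool.Agent.Lib.MP_73b196_co.St
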