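import Pool.Agent.Lib.MP_73b196_co.St.Spec

/-!
# F3: the contraction has a cone vertex
-/

set_option autoImplicit false

namespace Pool.Agent.Lib.MP_73b196_co.St

variable {V : Type} [Fintype V] [DecidableEq V] {Δ : Set (Finset V)}

theorem F3_vs {x y s : V} {S Y : Finset V} (h : FH Δ x y S Y) (hs : s ∈ S) :
    vs (insert {y, s} (ind Δ (vs Δ \ {x}))) = vs Δ \ {x} := by
  have hcx := h.ctx.inP.cx
  have hxs : adj Δ x s := ((h.ms.mem_iff).1 hs).1
  have hsV : s ∈ vs Δ := (hcx.adj_vs hxs).2
  have hyV : y ∈ vs Δ := h.ctx.mem_right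
  have hxy : x ≠ y := h.ctx.ef.ne
  ext v
  rw [mem_vs, Set.mem_insert_iff]
  constructor
  · rintro (hv | hv)
    · have h1 : y ∈ ({v} : Finset V) := by rw [hv]; simp
      have h2 : s ∈ ({v} : Finset V) := by rw [hv]; simp
      rw [Finset.mem_singleton] at h1 h2
      subst h1
      rw [Finset.mem_sdiff, Finset.mem_singleton]
      exact ⟨hyV, hxy.symm⟩
    · exact Finset.singleton_subset_iff.1 hv.2
  · intro hv
    refine Or.inr ⟨mem_vs.1 (Finset.mem_sdiff.1 hv).1, Finset.singleton_subset_iff.2 hv⟩

theorem F3_lift {x y s : V} {S Y N X1 Y1 : Finset V} (h : FH Δ x y S Y) (hs : s ∈ S)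
    (hN : Spl (insert {y, s} (ind Δ (vs Δ \ {x}))) y s N X1 Y1) :
    Spl Δ y x N X1 (insert x Y1) := by
  have hcx := h.ctx.inP.cx
  have hxs : adj Δ x s := ((h.ms.mem_iff).1 hs).1
  have hxV : x ∈ vs Δ := h.ctx.mem_left
  have hun : X1 ∪ N ∪ Y1 = vs Δ \ {x} := by rw [hN.un, F3_vs h hs]
  have hx : x ∉ X1 ∪ N ∪ Y1 := by rw [hun]; simp
  simp only [Finset.mem_union, not_or] at hx
  obtain ⟨⟨hx1, hx2⟩, hx3⟩ := hx
  refine ⟨?_, hN.dXS, ?_, ?_, hN.hx, Finset.mem_insert_self _ _, ?_⟩
  · rw [Finset.union_insert, hun, Finset.insert_sdiff_self_of_mem hxV]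
  · rw [Finset.disjoint_insert_right]
    exact ⟨hx1, hN.dXY⟩
  · rw [Finset.disjoint_insert_right]
    exact ⟨hx2, hN.dSY⟩
  · intro F hF
    by_cases hxF : x ∈ F
    · by_cases hFe : F = {x, y}
      · exact Or.inr (Or.inr (by rw [hFe, Finset.pair_comm]))
      · refine Or.inr (Or.inl ?_)
        have hsub := h.ms.toSpl.sub_left hF hFe ⟨x, by simp [hxF]⟩
        intro f hf
        rcases Finset.mem_union.1 (hsub hf) with hfx | hfS
        · rw [Finset.mem_singleton] at hfx
          simp [hfx]
        · have hfx : f ≠ x := by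
            rintro rfl
            exact (((h.ms.mem_iff).1 hfS).1).1 rfl
          have hfV : f ∈ vs Δ := hcx.sub_vs hF hf
          have hfU : f ∈ X1 ∪ N ∪ Y1 := by
            rw [hun, Finset.mem_sdiff, Finset.mem_singleton]
            exact ⟨hfV, hfx⟩
          rcases Finset.mem_union.1 hfU with hfU | hfU
          · rcases Finset.mem_union.1 hfU with hfU | hfU
            · exfalso
              have hfs : f ≠ s := by
                rintro rfl
                exact (Finset.disjoint_left.1 hN.dXY) hfU hN.hy
              have hadj : adj Δ f s := h.clq.2 f hfS s hs hfs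
              have hmem : ({f, s} : Finset V) ∈ insert {y, s} (ind Δ (vs Δ \ {x})) := by
                refine Or.inr ⟨hadj.2, ?_⟩
                intro v hv
                rw [Finset.mem_insert, Finset.mem_singleton] at hv
                rw [Finset.mem_sdiff, Finset.mem_singleton]
                rcases hv with rfl | rfl
                · exact ⟨hfV, hfx⟩
                · exact ⟨(hcx.adj_vs hxs).2, hxs.1.symm⟩
              rcases hN.face _ hmem with h1 | h1 | h1
              · have := h1 (show s ∈ ({f, s} : Finset V) by simp)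
                rcases Finset.mem_union.1 this with h2 | h2
                · exact (Finset.disjoint_left.1 hN.dXY) h2 hN.hy
                · exact (Finset.disjoint_left.1 hN.dSY) h2 hN.hy
              · have := h1 (show f ∈ ({f, s} : Finset V) by simp)
                rcases Finset.mem_union.1 this with h2 | h2
                · exact (Finset.disjoint_left.1 hN.dXY) hfU h2
                · exact (Finset.disjoint_left.1 hN.dXS) hfU h2
              · have : f ∈ ({y, s} : Finset V) := by rw [← h1]; simp
                rw [Finset.mem_insert, Finset.mem_singleton] at this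
                rcases this with h2 | h2
                · subst h2
                  exact ((h.ms.mem_iff).1 hfS).2 rfl
                · exact hfs h2
            · exact Finset.mem_union_right _ hfU
          · exact Finset.mem_union_left _ (Finset.mem_insert_of_mem hfU)
    · have hFD : F ∈ insert {y, s} (ind Δ (vs Δ \ {x})) := by
        refine Or.inr ⟨hF, ?_⟩
        intro v hv
        rw [Finset.mem_sdiff, Finset.mem_singleton]
        exact ⟨hcx.sub_vs hF hv, by rintro rfl; exact hxF hv⟩
      rcases hN.face F hFD with h1 | h1 | h1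
      · exact Or.inl h1
      · exact Or.inr (Or.inl (h1.trans (Finset.union_subset_union_left (Finset.subset_insert _ _))))
      · exfalso
        refine h.noK s ⟨hxs, ?_⟩
        refine ⟨?_, by rw [← h1]; exact hF⟩
        rintro rfl
        exact ((h.ms.mem_iff).1 hs).2 rfl

theorem tF3 (h6 : StmtA6) : StmtF3 := by
  intro V _ _ Δ x y s S Y hS h hs hD
  have hcx := h.ctx.inP.cx
  have hxs : adj Δ x s := ((h.ms.mem_iff).1 hs).1
  have hxV : x ∈ vs Δ := h.ctx.mem_left
  have hvs := F3_vs h hs
  have hcard : (vs (insert {y, s} (ind Δ (vs Δ \ {x})))).card < (vs Δ).card := by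
    rw [hvs]
    exact Finset.card_lt_card
      ((Finset.ssubset_iff_of_subset Finset.sdiff_subset).2 ⟨x, hxV, by simp⟩)
  rcases hS _ y s hcard hD with h1 | ⟨u, X1, Y1, h1⟩ | ⟨s1, t1, X1, Y1, hne, h1, h2, h3⟩
  · exact h1
  · exact absurd (F3_lift h hs h1).symm (h.noCut _ _ _)
  · have hdcx := hD.inP.cx
    have hms := h6 V Δ y x s1 t1 X1 (insert x Y1) h.ctx.symm
      (fun u X Y hu => h.noCut _ _ _ hu.symm) hne (F3_lift h hs h1)
    have hsN1 : s1 ∈ ({s1, t1} : Finset V) := by simp
    have htN1 : t1 ∈ ({s1, t1} : Finset V) := by simp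
    have ht1V : t1 ∈ vs (insert {y, s} (ind Δ (vs Δ \ {x}))) := by
      rw [← h1.un]
      simp
    have hs1y : s1 ≠ y := by
      rintro rfl
      exact (Finset.disjoint_left.1 h1.dXS) h1.hx hsN1
    have ht1y : t1 ≠ y := by
      rintro rfl
      exact (Finset.disjoint_left.1 h1.dXS) h1.hx htN1
    have ht1s : t1 ≠ s := by
      rintro rfl
      exact (Finset.disjoint_left.1 h1.dSY) htN1 h1.hy
    have ht1x : t1 ≠ x := by
      rintro rfl
      rw [hvs] at ht1V
      simp at ht1V
    have hst : adj Δ s1 t1 := by
      refine ⟨hne, ?_⟩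
      have h4 := h2 {t1} (mem_vs.1 ht1V) (by simp)
      rcases h4 with h4 | h4
      · exfalso
        have : y ∈ (insert s1 {t1} : Finset V) := by rw [h4]; simp
        rw [Finset.mem_insert, Finset.mem_singleton] at this
        rcases this with h5 | h5
        · exact hs1y h5.symm
        · exact ht1y h5.symm
      · exact h4.1
    have hclq : Clq Δ {s1, t1} := by
      have hv := hcx.adj_vs hst
      refine ⟨?_, ?_⟩
      · intro v hv'
        rw [Finset.mem_insert, Finset.mem_singleton] at hv'
        rcases hv' with rfl | rfl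
        · exact hv.1
        · exact hv.2
      · intro a ha b hb hab
        rw [Finset.mem_insert, Finset.mem_singleton] at ha hb
        rcases ha with rfl | rfl <;> rcases hb with rfl | rfl
        · exact absurd rfl hab
        · exact hst
        · exact adj_symm hst
        · exact absurd rfl hab
    have hX1 : X1 = {y} := by
      rcases h.one _ _ _ hms.symm hclq with h4 | h4
      · exfalso
        have : s ∈ insert x Y1 := Finset.mem_insert_of_mem h1.hy
        rw [h4, Finset.mem_singleton] at this
        exact hxs.1 this.symm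
      · exact h4
    refine ⟨t1, ht1y, ht1s, ?_⟩
    intro F hF hFe
    rcases h1.face F hF with h4 | h4 | h4
    · have h5 : touch Δ {t1} X1 := hms.tX t1 htN1
      rw [hX1, touch_single] at h5
      have h6' : ({t1, y} : Finset V) ∈ insert {y, s} (ind Δ (vs Δ \ {x})) := by
        refine Or.inr ⟨h5.2, ?_⟩
        intro v hv
        rw [Finset.mem_insert, Finset.mem_singleton] at hv
        rw [Finset.mem_sdiff, Finset.mem_singleton]
        rcases hv with rfl | rfl
        · exact ⟨(hcx.adj_vs h5).1, ht1x⟩
        · exact ⟨(hcx.adj_vs h5).2, h.ctx.ef.ne.symm⟩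
      have h7 := h2 _ h6' (by
        intro v hv
        rw [Finset.mem_insert, Finset.mem_singleton] at hv
        rcases hv with rfl | rfl
        · simp
        · simp [hX1])
      refine hdcx.down _ h7 _ ?_
      intro v hv
      rw [Finset.mem_insert] at hv
      rcases hv with rfl | hv
      · simp
      · have h8 := h4 hv
        rw [hX1] at h8
        simp only [Finset.mem_union, Finset.mem_insert, Finset.mem_singleton] at h8 ⊢
        tauto
    · exact h3 F hF h4
    · exact absurd h4 hFe

end Pool.Agent.Lib.MP_73b196_co.St
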