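import Pool.Agent.Lib.MP_73b196_co.St.Spec

/-!
# Structure theorem: F4
-/

set_option autoImplicit false

namespace Pool.Agent.Lib.MP_73b196_co.St

/-- A cone vertex of the contraction is adjacent in `Δ` to all vertices other than `x`. -/
theorem F4_adj {V : Type} [Fintype V] [DecidableEq V] {Δ : Set (Finset V)} {x y s a p : V}
    (ha : ApexD (insert {y, s} (ind Δ (vs Δ \ {x}))) y s a) (hys : y ≠ s) (hp : p ∈ vs Δ)
    (hpx : p ≠ x) (hpa : p ≠ a) : adj Δ a p ∧ a ≠ x := by
  obtain ⟨hay, has, h⟩ := ha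
  have h1 : ({p} : Finset V) ∈ (insert {y, s} (ind Δ (vs Δ \ {x})) : Set (Finset V)) := by
    refine Or.inr ⟨mem_vs.1 hp, ?_⟩
    rw [Finset.singleton_subset_iff, Finset.mem_sdiff, Finset.mem_singleton]
    exact ⟨hp, hpx⟩
  have h2 : ({p} : Finset V) ≠ {y, s} := by
    intro he
    have hy : y ∈ ({p} : Finset V) := by rw [he]; simp
    have hs : s ∈ ({p} : Finset V) := by rw [he]; simp
    rw [Finset.mem_singleton] at hy hs
    exact hys (hy.trans hs.symm)
  rcases h {p} h1 h2 with h3 | h3
  · exfalso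
    have h4 : a ∈ ({y, s} : Finset V) := by
      rw [← h3]
      exact Finset.mem_insert_self _ _
    rw [Finset.mem_insert, Finset.mem_singleton] at h4
    rcases h4 with h4 | h4
    · exact hay h4
    · exact has h4
  · refine ⟨⟨hpa.symm, h3.1⟩, ?_⟩
    have h4 := h3.2 (Finset.mem_insert_self _ _)
    rw [Finset.mem_sdiff, Finset.mem_singleton] at h4
    exact h4.2

theorem tF4 : StmtF4 := by
  intro V _ _ Δ x y s s' a a' S Y hF hs hs' hss ha ha'
  by_contra haa
  have hc := hF.ctx
  have hcx := hc.inP.cx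
  have hxs := (hF.ms.mem_iff.1 hs).1
  have hxs' := (hF.ms.mem_iff.1 hs').1
  have hsy := (hF.ms.mem_iff.1 hs).2
  have hsy' := (hF.ms.mem_iff.1 hs').2
  have hxy := hc.adj
  have hyx : y ≠ x := hxy.1.symm
  have hy := F4_adj ha hsy.symm hc.mem_right hyx ha.1.symm
  have hy' := F4_adj ha' hsy.symm hc.mem_right hyx ha'.1.symm
  have hya := adj_symm hy.1
  have hya' := adj_symm hy'.1
  have hax := hy.2
  have hax' := hy'.2
  have hnt : ∀ p q, adj Δ x p → adj Δ y q → p ≠ q := by
    rintro p q hp hq rfl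
    exact hF.noK p ⟨hp, hq⟩
  have hvs := (hcx.adj_vs hxs).2
  have hvs' := (hcx.adj_vs hxs').2
  have hva := (hcx.adj_vs hya).2
  have hva' := (hcx.adj_vs hya').2
  have has := (F4_adj ha hsy.symm hvs hxs.1.symm (hnt s a hxs hya)).1
  have has' := (F4_adj ha hsy.symm hvs' hxs'.1.symm (hnt s' a hxs' hya)).1
  have ha's := (F4_adj ha' hsy.symm hvs hxs.1.symm (hnt s a' hxs hya')).1
  have ha's' := (F4_adj ha' hsy.symm hvs' hxs'.1.symm (hnt s' a' hxs' hya')).1
  have haa' := (F4_adj ha hsy.symm hva' hax' (Ne.symm haa)).1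
  have hss' := hF.clq.2 s hs s' hs' hss
  have hv : Conn Δ ({x, y} : Finset V) :=
    (conn_single hc.mem_right).insert hc.mem_left (touch_single.2 hxy)
  have hnot : ∀ p, p ≠ x → p ≠ y → p ∉ ({x, y} : Finset V) := by
    intro p hpx hpy h
    rw [Finset.mem_insert, Finset.mem_singleton] at h
    rcases h with h | h
    · exact hpx h
    · exact hpy h
  have hs1 := hnot s hxs.1.symm hsy
  have hs2 := hnot s' hxs'.1.symm hsy'
  have ha1 := hnot a hax ha.1
  have ha2 := hnot a' hax' ha'.1
  have hm : CM Δ [{x, y}, {a}, {s}, {a'}, {s'}] := by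
    refine ⟨?_, ?_⟩
    · intro A hA
      simp only [List.mem_cons, List.not_mem_nil, or_false] at hA
      rcases hA with rfl | rfl | rfl | rfl | rfl
      · exact hv
      · exact conn_single hva
      · exact conn_single hvs
      · exact conn_single hva'
      · exact conn_single hvs'
    · have hvx : ∀ p, adj Δ x p → touch Δ {x, y} {p} :=
        fun p hp => ⟨x, by simp, p, by simp, hp⟩
      have hvy : ∀ p, adj Δ y p → touch Δ {x, y} {p} :=
        fun p hp => ⟨y, by simp, p, by simp, hp⟩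
      have hpq : ∀ p q, adj Δ p q → Disjoint ({p} : Finset V) {q} ∧ touch Δ {p} {q} :=
        fun p q h => ⟨Finset.disjoint_singleton.2 h.1, touch_single.2 h⟩
      refine List.Pairwise.cons ?_ (List.Pairwise.cons ?_ (List.Pairwise.cons ?_
        (List.Pairwise.cons ?_ (List.Pairwise.cons ?_ List.Pairwise.nil))))
      · intro B hB
        simp only [List.mem_cons, List.not_mem_nil, or_false] at hB
        rcases hB with rfl | rfl | rfl | rfl
        · exact ⟨Finset.disjoint_singleton_right.2 ha1, hvy a hya⟩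
        · exact ⟨Finset.disjoint_singleton_right.2 hs1, hvx s hxs⟩
        · exact ⟨Finset.disjoint_singleton_right.2 ha2, hvy a' hya'⟩
        · exact ⟨Finset.disjoint_singleton_right.2 hs2, hvx s' hxs'⟩
      · intro B hB
        simp only [List.mem_cons, List.not_mem_nil, or_false] at hB
        rcases hB with rfl | rfl | rfl
        · exact hpq _ _ has
        · exact hpq _ _ haa'
        · exact hpq _ _ has'
      · intro B hB
        simp only [List.mem_cons, List.not_mem_nil, or_false] at hB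
        rcases hB with rfl | rfl
        · exact hpq _ _ (adj_symm ha's)
        · exact hpq _ _ hss'
      · intro B hB
        simp only [List.mem_cons, List.not_mem_nil, or_false] at hB
        subst hB
        exact hpq _ _ ha's'
      · intro B hB
        exact absurd hB List.not_mem_nil
  have hunf : ∀ q p, adj Δ y q → adj Δ x p → q ∉ ({x, y} : Finset V) → p ∉ ({x, y} : Finset V) →
      ¬ fill Δ [{x, y}, {q}, {p}] := by
    rintro q p hq hp hq' hp' ⟨G, hG, hGA⟩
    obtain ⟨v, hv⟩ := hGA {x, y} (by simp)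
    obtain ⟨p₁, hp₁⟩ := hGA {p} (by simp)
    obtain ⟨q₁, hq₁⟩ := hGA {q} (by simp)
    rw [Finset.mem_inter, Finset.mem_singleton] at hp₁ hq₁
    obtain ⟨hp1, rfl⟩ := hp₁
    obtain ⟨hq1, rfl⟩ := hq₁
    rw [Finset.mem_inter, Finset.mem_insert, Finset.mem_singleton] at hv
    obtain ⟨hvG, rfl | rfl⟩ := hv
    · refine hF.noK q₁ ⟨hcx.adj_of_face hG hvG hq1 ?_, hq⟩
      rintro rfl
      exact hq' (by simp)
    · refine hF.noK p₁ ⟨hp, hcx.adj_of_face hG hvG hp1 ?_⟩
      rintro rfl
      exact hp' (by simp)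
  rcases hc.inP.k5 _ _ _ _ _ hm with h | h
  · exact hunf a s hya hxs ha1 hs1 h
  · exact hunf a' s' hya' hxs' ha2 hs2 h

end Pool.Agent.Lib.MP_73b196_co.St
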