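import Pool.Agent.Lib.MP_73b196_co.St.Spec

/-!
# F5: the rest is irreducible
-/

set_option autoImplicit false

namespace Pool.Agent.Lib.MP_73b196_co.St

theorem F5_mem {V : Type} [Fintype V] [DecidableEq V] {F : Finset V} {s : V}
    (h : (F ∩ {s}).Nonempty) : s ∈ F := by
  obtain ⟨v, hv⟩ := h
  rw [Finset.mem_inter, Finset.mem_singleton] at hv
  rw [← hv.2]
  exact hv.1

/-- the last case: the set `Q` is connected -/
theorem F5_conn {V : Type} [Fintype V] [DecidableEq V] {Δ : Set (Finset V)} {x y s s' a : V}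
    {S Y Q : Finset V} (h : FH Δ x y S Y) (hs : s ∈ S) (hs' : s' ∈ S) (hss : s ≠ s')
    (haS : a ∉ S) (hay : a ≠ y) (hQ : Q = vs Δ \ {x, a, y, s}) (c1 : Conn Δ (insert y Q))
    (c2 : Conn Δ (insert s Q)) : Conn Δ Q := by
  have cx := h.ctx.inP.cx
  have hxW := h.ctx.mem_left
  have hyW := h.ctx.mem_right
  have hSW : ∀ t ∈ S, t ∈ vs Δ := fun t ht => h.ms.pms.sS ht
  have hSx : ∀ t ∈ S, t ≠ x := by
    rintro t ht rfl
    exact Finset.disjoint_left.1 h.ms.dXS h.ms.hx ht
  have hSy : ∀ t ∈ S, t ≠ y := by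
    rintro t ht rfl
    exact Finset.disjoint_left.1 h.ms.dSY ht h.ms.hy
  have hSadj : ∀ t ∈ S, adj Δ x t := fun t ht => (h.ms.mem_iff.1 ht).1
  have hQW : Q ⊆ vs Δ := by
    rw [hQ]
    exact Finset.sdiff_subset
  have hQm : ∀ v, v ∈ Q ↔ v ∈ vs Δ ∧ v ≠ x ∧ v ≠ a ∧ v ≠ y ∧ v ≠ s := by
    intro v
    rw [hQ]
    simp only [Finset.mem_sdiff, Finset.mem_insert, Finset.mem_singleton, not_or]
  have hSQ : ∀ t ∈ S, t ≠ s → t ∈ Q := fun t ht hts =>
    (hQm t).2 ⟨hSW t ht, hSx t ht, fun e => haS (e ▸ ht), hSy t ht, hts⟩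
  have hs'Q := hSQ s' hs' hss.symm
  have hyQ : y ∉ Q := fun e => ((hQm y).1 e).2.2.2.1 rfl
  have hsQ : s ∉ Q := fun e => ((hQm s).1 e).2.2.2.2 rfl
  have hxQ : x ∉ Q := fun e => ((hQm x).1 e).2.1 rfl
  by_contra hn
  obtain ⟨E1, hE1, hs'E⟩ := exists_comp hQW hs'Q
  obtain ⟨E2, hE2, hs'E2⟩ := exists_comp_notMem hQW hs'Q hn
  have hdis : ∀ v, v ∈ E1 → v ∉ E2 := by
    intro v h1 h2
    have := hE1.eq_of hE2 ⟨v, Finset.mem_inter.2 ⟨h1, h2⟩⟩
    exact hs'E2 (this ▸ hs'E)
  have hSE : ∀ t ∈ S, t ≠ s → t ∈ E1 := by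
    intro t ht hts
    by_cases e : t = s'
    · rw [e]
      exact hs'E
    · exact hE1.mem_of_adj hs'E (hSQ t ht hts) (h.clq.2 s' hs' t ht (Ne.symm e))
  have hE1Q := hE1.1
  have hE2Q := hE2.1
  have ey : insert y Q \ {y} = Q := by
    rw [Finset.insert_sdiff_of_mem _ (Finset.mem_singleton_self y), Finset.sdiff_singleton_eq_erase,
      Finset.erase_eq_of_notMem hyQ]
  have es : insert s Q \ {s} = Q := by
    rw [Finset.insert_sdiff_of_mem _ (Finset.mem_singleton_self s), Finset.sdiff_singleton_eq_erase,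
      Finset.erase_eq_of_notMem hsQ]
  have tyE : ∀ E, IsComp Δ Q E → touch Δ E {y} := fun E hE =>
    c1.comp_touch (by simp) (Finset.singleton_nonempty y) (by rw [ey]; exact hE)
  have tsE : ∀ E, IsComp Δ Q E → touch Δ E {s} := fun E hE =>
    c2.comp_touch (by simp) (Finset.singleton_nonempty s) (by rw [es]; exact hE)
  have hm : CM Δ [insert y E2, {x}, {s}, E1] := by
    constructor
    · intro A hA
      simp only [List.mem_cons, List.not_mem_nil, or_false] at hA
      rcases hA with rfl | rfl | rfl | rfl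
      · exact hE2.2.1.insert hyW (touch_symm (tyE E2 hE2))
      · exact conn_single hxW
      · exact conn_single (hSW s hs)
      · exact hE1.2.1
    · simp only [List.pairwise_cons, List.mem_cons, List.not_mem_nil, or_false, forall_eq_or_imp,
        forall_eq, List.Pairwise.nil, and_true, IsEmpty.forall_iff, implies_true]
      refine ⟨⟨⟨?_, ?_⟩, ⟨?_, ?_⟩, ?_, ?_⟩, ⟨⟨?_, ?_⟩, ?_, ?_⟩, ?_, ?_⟩
      · rw [Finset.disjoint_singleton_right, Finset.mem_insert]
        rintro (h2 | h2)
        · exact h.ctx.ef.ne h2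
        · exact hxQ (hE2Q h2)
      · exact ⟨y, Finset.mem_insert_self _ _, x, Finset.mem_singleton_self _,
          adj_symm h.ctx.adj⟩
      · rw [Finset.disjoint_singleton_right, Finset.mem_insert]
        rintro (h2 | h2)
        · exact hSy s hs h2
        · exact hsQ (hE2Q h2)
      · exact touch_mono (Finset.subset_insert _ _) (Finset.Subset.refl _) (tsE E2 hE2)
      · rw [Finset.disjoint_left]
        intro v hv hv1
        rcases Finset.mem_insert.1 hv with h2 | h2
        · exact hyQ (hE1Q (h2 ▸ hv1))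
        · exact hdis v hv1 h2
      · exact touch_mono (Finset.singleton_subset_iff.2 (Finset.mem_insert_self _ _))
          (Finset.Subset.refl _) (touch_symm (tyE E1 hE1))
      · rw [Finset.disjoint_singleton_right, Finset.mem_singleton]
        exact hSx s hs
      · exact touch_single.2 (hSadj s hs)
      · rw [Finset.disjoint_singleton_left]
        exact fun h2 => hxQ (hE1Q h2)
      · exact ⟨x, Finset.mem_singleton_self _, s', hs'E, hSadj s' hs'⟩
      · rw [Finset.disjoint_singleton_left]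
        exact fun h2 => hsQ (hE1Q h2)
      · exact touch_symm (tsE E1 hE1)
  -- a vertex of `E2` is not adjacent to `x`
  have hxe : ∀ e ∈ E2, ¬ adj Δ x e := by
    intro e he hadj
    have heQ := (hQm e).1 (hE2Q he)
    have heS : e ∈ S := h.ms.mem_iff.2 ⟨hadj, heQ.2.2.2.1⟩
    exact hdis e (hSE e heS heQ.2.2.2.2) he
  refine h.ctx.inP.k4three hm ?_ ?_ ?_
  · rintro ⟨F, hF, hF'⟩
    have hxF := F5_mem (hF' {x} (by simp))
    have hsF := F5_mem (hF' {s} (by simp))
    obtain ⟨e, he⟩ := hF' (insert y E2) (by simp)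
    rw [Finset.mem_inter, Finset.mem_insert] at he
    rcases he.2 with h2 | h2
    · have h3 := h.ctx.ef.facet F hF hxF (h2 ▸ he.1)
      rw [h3, Finset.mem_insert, Finset.mem_singleton] at hsF
      rcases hsF with h4 | h4
      · exact hSx s hs h4
      · exact hSy s hs h4
    · exact hxe e h2 (cx.adj_of_face hF hxF he.1 fun e' => hxQ (hE2Q (e' ▸ h2)))
  · rintro ⟨F, hF, hF'⟩
    have hxF := F5_mem (hF' {x} (by simp))
    obtain ⟨f, hf⟩ := hF' E1 (by simp)
    obtain ⟨e, he⟩ := hF' (insert y E2) (by simp)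
    rw [Finset.mem_inter] at hf
    rw [Finset.mem_inter, Finset.mem_insert] at he
    rcases he.2 with h2 | h2
    · have h3 := h.ctx.ef.facet F hF hxF (h2 ▸ he.1)
      rw [h3, Finset.mem_insert, Finset.mem_singleton] at hf
      rcases hf.1 with h4 | h4
      · exact hxQ (hE1Q (h4 ▸ hf.2))
      · exact hyQ (hE1Q (h4 ▸ hf.2))
    · exact hxe e h2 (cx.adj_of_face hF hxF he.1 fun e' => hxQ (hE2Q (e' ▸ h2)))
  · rintro ⟨F, hF, hF'⟩
    have hsF := F5_mem (hF' {s} (by simp))
    obtain ⟨f, hf⟩ := hF' E1 (by simp)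
    obtain ⟨e, he⟩ := hF' (insert y E2) (by simp)
    rw [Finset.mem_inter] at hf
    rw [Finset.mem_inter, Finset.mem_insert] at he
    rcases he.2 with h2 | h2
    · exact h.noK s ⟨hSadj s hs, cx.adj_of_face hF (h2 ▸ he.1) hsF (hSy s hs).symm⟩
    · refine hE1.2.2 ⟨f, hf.2, e, Finset.mem_sdiff.2 ⟨hE2Q h2, fun h3 => hdis e h3 h2⟩, ?_⟩
      exact cx.adj_of_face hF hf.1 he.1 fun e' => hdis f hf.2 (e' ▸ h2)

theorem tF5 : StmtF5 := by
  intro V _ _ Δ x y s s' a u S Y h hs hs' hss hD hA hyu hux hua
  have cx := h.ctx.inP.cx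
  have hxW := h.ctx.mem_left
  have hyW := h.ctx.mem_right
  have hSW : ∀ t ∈ S, t ∈ vs Δ := fun t ht => h.ms.pms.sS ht
  have hSx : ∀ t ∈ S, t ≠ x := by
    rintro t ht rfl
    exact Finset.disjoint_left.1 h.ms.dXS h.ms.hx ht
  have hSy : ∀ t ∈ S, t ≠ y := by
    rintro t ht rfl
    exact Finset.disjoint_left.1 h.ms.dSY ht h.ms.hy
  have hSadj : ∀ t ∈ S, adj Δ x t := fun t ht => (h.ms.mem_iff.1 ht).1
  have hys : y ≠ s := (hSy s hs).symm
  have hyx : y ≠ x := h.ctx.ef.ne.symm
  have hay : a ≠ y := hA.1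
  have has : a ≠ s := hA.2.1
  have hyD := hD.mem_left
  have hsD := hD.mem_right
  have adjya := hA.adj_left hyD hys
  have adjsa := hA.adj_right hsD hys
  have hya : adj Δ y a := by
    refine ⟨hay.symm, ?_⟩
    rcases adjya.2 with h2 | h2
    · exfalso
      have h3 : a ∈ ({y, a} : Finset V) := by simp
      rw [h2, Finset.mem_insert, Finset.mem_singleton] at h3
      rcases h3 with h3 | h3
      · exact hay h3
      · exact has h3
    · exact h2.1
  have haS : a ∉ S := fun e => h.noK a ⟨hSadj a e, hya⟩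
  -- the vertices of `D`
  have hvD : vs (insert {y, s} (ind Δ (vs Δ \ {x}))) = vs Δ \ {x} := by
    ext v
    rw [mem_vs, Set.mem_insert_iff]
    constructor
    · rintro (h2 | h2)
      · exfalso
        have h3 : y ∈ ({v} : Finset V) := by rw [h2]; simp
        have h4 : s ∈ ({v} : Finset V) := by rw [h2]; simp
        rw [Finset.mem_singleton] at h3 h4
        exact hys (h3.trans h4.symm)
      · exact h2.2 (Finset.mem_singleton_self v)
    · intro h2
      refine Or.inr ⟨mem_vs.1 (Finset.mem_sdiff.1 h2).1, Finset.singleton_subset_iff.2 h2⟩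
  have hyU : y ∈ vs Δ \ {x, a} := by
    simp only [Finset.mem_sdiff, Finset.mem_insert, Finset.mem_singleton, not_or]
    exact ⟨hyW, hyx, hay.symm⟩
  have hsU : s ∈ vs Δ \ {x, a} := by
    simp only [Finset.mem_sdiff, Finset.mem_insert, Finset.mem_singleton, not_or]
    exact ⟨hSW s hs, hSx s hs, has.symm⟩
  have hUx : vs Δ \ {x, a} ⊆ vs Δ \ {x} :=
    Finset.sdiff_subset_sdiff (Finset.Subset.refl _) (by simp)
  -- `D'` is an induced complex
  have hDD : insert {y, s} (ind Δ (vs Δ \ {x, a})) =
      ind (insert {y, s} (ind Δ (vs Δ \ {x}))) (vs Δ \ {x, a}) := by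
    ext F
    constructor
    · rintro (rfl | h2)
      · refine ⟨Or.inl rfl, ?_⟩
        intro v hv
        rw [Finset.mem_insert, Finset.mem_singleton] at hv
        rcases hv with rfl | rfl
        · exact hyU
        · exact hsU
      · exact ⟨Or.inr ⟨h2.1, h2.2.trans hUx⟩, h2.2⟩
    · rintro ⟨rfl | h2, h3⟩
      · exact Or.inl rfl
      · exact Or.inr ⟨h2.1, h3⟩
  have hef : EdgeFacet (insert {y, s} (ind Δ (vs Δ \ {x, a}))) y s := by
    refine ⟨hys, Or.inl rfl, fun F hF h1 h2 => hD.ef.facet F ?_ h1 h2⟩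
    rw [hDD] at hF
    exact hF.1
  have hvD' : vs (insert {y, s} (ind Δ (vs Δ \ {x, a}))) = vs Δ \ {x, a} := by
    rw [hDD, vs_ind, hvD]
    exact Finset.inter_eq_right.2 hUx
  refine ⟨?_, ⟨?_, ?_⟩, hef⟩
  · rw [hDD]
    exact hD.inP.ind _
  · intro p hp
    have h1 := hp {y, s} (Or.inl rfl)
    have h2 := hef.facet _ h1 (by simp) (by simp)
    have h3 : p ∈ ({y, s} : Finset V) := by
      rw [← h2]
      exact Finset.mem_insert_self _ _
    rw [Finset.mem_insert, Finset.mem_singleton] at h3
    rcases h3 with rfl | rfl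
    · have h4 : ({s, s'} : Finset V) ∈ insert {p, s} (ind Δ (vs Δ \ {x, a})) := by
        refine Or.inr ⟨(h.clq.2 s hs s' hs' hss).2, ?_⟩
        intro v hv
        rw [Finset.mem_insert, Finset.mem_singleton] at hv
        rcases hv with rfl | rfl
        · exact hsU
        · simp only [Finset.mem_sdiff, Finset.mem_insert, Finset.mem_singleton, not_or]
          exact ⟨hSW v hs', hSx v hs', fun e => haS (e ▸ hs')⟩
      have h5 := hef.facet _ (hp _ h4) (by simp) (by simp)
      have h6 : s' ∈ ({p, s} : Finset V) := by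
        rw [← h5]
        simp
      rw [Finset.mem_insert, Finset.mem_singleton] at h6
      rcases h6 with h6 | h6
      · exact hSy s' hs' h6
      · exact hss h6.symm
    · have h4 : ({y, u} : Finset V) ∈ insert {y, p} (ind Δ (vs Δ \ {x, a})) := by
        refine Or.inr ⟨hyu.2, ?_⟩
        intro v hv
        rw [Finset.mem_insert, Finset.mem_singleton] at hv
        rcases hv with rfl | rfl
        · exact hyU
        · simp only [Finset.mem_sdiff, Finset.mem_insert, Finset.mem_singleton, not_or]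
          exact ⟨(cx.adj_vs hyu).2, hux, hua⟩
      have h5 := hef.facet _ (hp _ h4) (by simp) (by simp)
      have h6 : u ∈ ({y, p} : Finset V) := by
        rw [← h5]
        simp
      rw [Finset.mem_insert, Finset.mem_singleton] at h6
      rcases h6 with h6 | h6
      · exact hyu.1 h6.symm
      · exact h.noK u ⟨hSadj u (h6 ▸ hs), hyu⟩
  · intro F hF
    rw [hvD']
    by_cases hFe : F = {y, s}
    · -- `F = {y, s}`
      have hQ : (vs Δ \ {x, a}) \ F = vs Δ \ {x, a, y, s} := by
        rw [hFe]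
        ext v
        simp only [Finset.mem_sdiff, Finset.mem_insert, Finset.mem_singleton, not_or]
        tauto
      rw [hQ]
      have hQU : vs Δ \ {x, a, y, s} ⊆ vs Δ \ {x, a} := by
        intro v
        simp only [Finset.mem_sdiff, Finset.mem_insert, Finset.mem_singleton, not_or]
        tauto
      -- connected sets in `D` and in `Δ`
      have key : ∀ A : Finset V, A ⊆ vs Δ \ {x} → ¬ (y ∈ A ∧ s ∈ A) →
          Conn (insert {y, s} (ind Δ (vs Δ \ {x}))) A → Conn Δ A := by
        intro A hA1 hA2 hA3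
        have h1 : A ⊆ vs (ind Δ (vs Δ \ {x})) := by
          rw [vs_ind]
          exact hA1.trans (Finset.subset_inter Finset.sdiff_subset (Finset.Subset.refl _))
        exact (conn_ind hA1).1 ((conn_insert hA2 h1).1 hA3)
      have c1 : Conn Δ (insert y (vs Δ \ {x, a, y, s})) := by
        have h1 := hD.irr.conn _ adjsa.2
        rw [hvD] at h1
        have h2 : (vs Δ \ {x}) \ {s, a} = insert y (vs Δ \ {x, a, y, s}) := by
          ext v
          simp only [Finset.mem_sdiff, Finset.mem_insert, Finset.mem_singleton, not_or]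
          by_cases hv : v = y
          · subst hv
            tauto
          · tauto
        rw [h2] at h1
        refine key _ ?_ ?_ h1
        · rw [← h2]
          exact Finset.sdiff_subset
        · rintro ⟨-, h3⟩
          simp only [Finset.mem_sdiff, Finset.mem_insert, Finset.mem_singleton, not_or] at h3
          rcases h3 with h3 | h3
          · exact hys h3.symm
          · exact h3.2.2.2.2 trivial
      have c2 : Conn Δ (insert s (vs Δ \ {x, a, y, s})) := by
        have h1 := hD.irr.conn _ adjya.2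
        rw [hvD] at h1
        have h2 : (vs Δ \ {x}) \ {y, a} = insert s (vs Δ \ {x, a, y, s}) := by
          ext v
          simp only [Finset.mem_sdiff, Finset.mem_insert, Finset.mem_singleton, not_or]
          by_cases hv : v = s
          · subst hv
            have := hSW v hs
            have := hSx v hs
            tauto
          · tauto
        rw [h2] at h1
        refine key _ ?_ ?_ h1
        · rw [← h2]
          exact Finset.sdiff_subset
        · rintro ⟨h3, -⟩
          simp only [Finset.mem_sdiff, Finset.mem_insert, Finset.mem_singleton, not_or] at h3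
          rcases h3 with h3 | h3
          · exact hys h3
          · exact h3.2.2.2.1 trivial
      have c3 := F5_conn h hs hs' hss haS hay rfl c1 c2
      have h1 : vs Δ \ {x, a, y, s} ⊆ vs (ind Δ (vs Δ \ {x, a})) := by
        rw [vs_ind]
        exact Finset.subset_inter Finset.sdiff_subset hQU
      refine (conn_insert ?_ h1).2 ((conn_ind hQU).2 c3)
      rintro ⟨h3, -⟩
      simp only [Finset.mem_sdiff, Finset.mem_insert, Finset.mem_singleton, not_or] at h3
      exact h3.2.2.2.1 trivial
    · -- `F ≠ {y, s}`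
      have hFD : F ∈ insert {y, s} (ind Δ (vs Δ \ {x})) := by
        rw [hDD] at hF
        exact hF.1
      have h1 := hD.irr.conn _ (hA.2.2 F hFD hFe)
      rw [hvD] at h1
      have h2 : (vs Δ \ {x}) \ insert a F = (vs Δ \ {x, a}) \ F := by
        ext v
        simp only [Finset.mem_sdiff, Finset.mem_insert, Finset.mem_singleton, not_or]
        tauto
      rw [h2] at h1
      rw [hDD]
      exact (conn_ind Finset.sdiff_subset).2 h1

end Pool.Agent.Lib.MP_73b196_co.St
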