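import Pool.Agent.Lib.MP_73b196_co.St.Spec

/-!
# F6: the neighbours of `y`
-/

set_option autoImplicit false
set_option linter.unusedSectionVars false

namespace Pool.Agent.Lib.MP_73b196_co.St

variable {V : Type} [Fintype V] [DecidableEq V] {Δ : Set (Finset V)}

theorem F6_memD (h : IsCx Δ) {x y s : V} {F : Finset V} :
    F ∈ insert ({y, s} : Finset V) (ind Δ (vs Δ \ {x})) ↔ F = {y, s} ∨ F ∈ Δ ∧ x ∉ F := by
  rw [Set.mem_insert_iff]
  refine or_congr Iff.rfl ⟨?_, ?_⟩
  · rintro ⟨h1, h2⟩
    refine ⟨h1, fun hx => ?_⟩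
    have := h2 hx
    simp at this
  · rintro ⟨h1, h2⟩
    refine ⟨h1, fun v hv => ?_⟩
    rw [Finset.mem_sdiff, Finset.mem_singleton]
    exact ⟨h.sub_vs h1 hv, fun e => h2 (e ▸ hv)⟩

theorem F6_memD' (h : IsCx Δ) {x y s a : V} {F : Finset V} :
    F ∈ insert ({y, s} : Finset V) (ind Δ (vs Δ \ {x, a})) ↔
      F = {y, s} ∨ F ∈ Δ ∧ x ∉ F ∧ a ∉ F := by
  rw [Set.mem_insert_iff]
  refine or_congr Iff.rfl ⟨?_, ?_⟩
  · rintro ⟨h1, h2⟩
    refine ⟨h1, fun hx => ?_, fun ha => ?_⟩
    · have := h2 hx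
      simp at this
    · have := h2 ha
      simp at this
  · rintro ⟨h1, h2, h3⟩
    refine ⟨h1, fun v hv => ?_⟩
    rw [Finset.mem_sdiff, Finset.mem_insert, Finset.mem_singleton]
    refine ⟨h.sub_vs h1 hv, ?_⟩
    rintro (rfl | rfl)
    · exact h2 hv
    · exact h3 hv

theorem F6_ne {y s v : V} {F : Finset V} (hF : v ∈ F) (hy : v ≠ y) (hs : v ≠ s) :
    F ≠ {y, s} := by
  rintro rfl
  simp only [Finset.mem_insert, Finset.mem_singleton] at hF
  rcases hF with h | h
  · exact hy h
  · exact hs h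

theorem F6_single_ne {y s v : V} (hys : y ≠ s) : ({v} : Finset V) ≠ {y, s} := by
  intro e
  have h1 : y ∈ ({v} : Finset V) := by rw [e]; simp
  have h2 : s ∈ ({v} : Finset V) := by rw [e]; simp
  rw [Finset.mem_singleton] at h1 h2
  exact hys (h1.trans h2.symm)

/-- The common setting of the proof of F6. -/
structure F6_Set (Δ : Set (Finset V)) (x y s a : V) (S Y : Finset V) : Prop where
  H : FH Δ x y S Y
  hs : s ∈ S
  hA : ApexD (insert {y, s} (ind Δ (vs Δ \ {x}))) y s a
  hU : ∀ a', ApexD (insert {y, s} (ind Δ (vs Δ \ {x}))) y s a' → a' = a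
  hC : Ctx (insert {y, s} (ind Δ (vs Δ \ {x, a}))) y s

section
variable {x y s a : V} {S Y : Finset V}

theorem F6_Set.cx (K : F6_Set Δ x y s a S Y) : IsCx Δ := K.H.ctx.inP.cx

theorem F6_Set.xs (K : F6_Set Δ x y s a S Y) : adj Δ x s := (K.H.ms.mem_iff.1 K.hs).1

theorem F6_Set.sy (K : F6_Set Δ x y s a S Y) : s ≠ y := (K.H.ms.mem_iff.1 K.hs).2

theorem F6_Set.nys (K : F6_Set Δ x y s a S Y) : ¬ adj Δ y s := fun h => K.H.noK s ⟨K.xs, h⟩

theorem F6_Set.ysD (K : F6_Set Δ x y s a S Y) : ({y, s} : Finset V) ∉ Δ := fun h =>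
  K.nys ⟨K.sy.symm, h⟩

theorem F6_Set.yx (K : F6_Set Δ x y s a S Y) : y ≠ x := K.H.ctx.ef.ne.symm

/-- A face of the contraction, with `a` added. -/
theorem F6_Set.add (K : F6_Set Δ x y s a S Y) {F : Finset V} (hF : F ∈ Δ) (hx : x ∉ F) :
    insert a F ∈ Δ ∧ x ∉ insert a F := by
  have h1 : F ∈ insert ({y, s} : Finset V) (ind Δ (vs Δ \ {x})) := (F6_memD K.cx).2 (Or.inr ⟨hF, hx⟩)
  have h2 : F ≠ {y, s} := fun e => K.ysD (e ▸ hF)
  have h3 := (F6_memD K.cx).1 (K.hA.2.2 F h1 h2)
  rcases h3 with h3 | h3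
  · exact absurd h3 (F6_ne (Finset.mem_insert_self a F) K.hA.1 K.hA.2.1)
  · exact h3

theorem F6_Set.ya (K : F6_Set Δ x y s a S Y) : adj Δ y a ∧ a ≠ x := by
  have h1 := K.add (F := {y}) (mem_vs.1 K.H.ctx.mem_right) (by simp [K.yx.symm])
  refine ⟨⟨K.hA.1.symm, ?_⟩, ?_⟩
  · rw [Finset.pair_comm]
    exact h1.1
  · rintro rfl
    exact h1.2 (Finset.mem_insert_self _ _)

theorem F6_Set.aS (K : F6_Set Δ x y s a S Y) : a ∉ S := fun h =>
  K.H.noK a ⟨(K.H.ms.mem_iff.1 h).1, K.ya.1⟩

/-- `a` is adjacent to all the vertices of the contraction. -/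
theorem F6_Set.adj_a (K : F6_Set Δ x y s a S Y) {v : V} (hv : v ∈ vs Δ) (hx : v ≠ x) (ha : v ≠ a) :
    adj Δ a v :=
  ⟨ha.symm, (K.add (mem_vs.1 hv) (by simpa using hx.symm)).1⟩

theorem F6_Set.vsD (K : F6_Set Δ x y s a S Y) :
    vs (insert ({y, s} : Finset V) (ind Δ (vs Δ \ {x, a}))) = vs Δ \ {x, a} := by
  ext v
  rw [mem_vs, F6_memD' K.cx]
  simp only [Finset.mem_sdiff, Finset.mem_insert, Finset.mem_singleton, not_or, mem_vs]
  constructor
  · rintro (h | ⟨h1, h2, h3⟩)
    · exact absurd h (F6_single_ne K.sy.symm)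
    · exact ⟨h1, fun e => h2 e.symm, fun e => h3 e.symm⟩
  · rintro ⟨h1, h2, h3⟩
    exact Or.inr ⟨h1, fun e => h2 e.symm, fun e => h3 e.symm⟩

theorem F6_Set.noApex (K : F6_Set Δ x y s a S Y) (a' : V) :
    ¬ ApexD (insert {y, s} (ind Δ (vs Δ \ {x, a}))) y s a' := by
  intro h
  have hna : a' ≠ a := by
    rintro rfl
    have h1 : ({y} : Finset V) ∈ insert ({y, s} : Finset V) (ind Δ (vs Δ \ {x, a'})) :=
      (F6_memD' K.cx).2 (Or.inr ⟨mem_vs.1 K.H.ctx.mem_right, by simp [K.yx.symm], by
        simp [h.1]⟩)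
    rcases (F6_memD' K.cx).1 (h.2.2 _ h1 (F6_single_ne K.sy.symm)) with h2 | h2
    · exact F6_ne (Finset.mem_insert_self a' _) h.1 h.2.1 h2
    · exact h2.2.2 (Finset.mem_insert_self _ _)
  refine hna (K.hU a' ⟨h.1, h.2.1, ?_⟩)
  intro F hF hne
  rcases (F6_memD K.cx).1 hF with h1 | ⟨h1, h2⟩
  · exact absurd h1 hne
  have h3 : F \ {a} ∈ Δ := K.cx.down F h1 _ Finset.sdiff_subset
  have h4 : x ∉ F \ {a} := fun hx => h2 (Finset.mem_sdiff.1 hx).1
  have h5 : F \ {a} ∈ insert ({y, s} : Finset V) (ind Δ (vs Δ \ {x, a})) :=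
    (F6_memD' K.cx).2 (Or.inr ⟨h3, h4, by simp⟩)
  have h6 : F \ {a} ≠ {y, s} := fun e => K.ysD (e ▸ h3)
  rcases (F6_memD' K.cx).1 (h.2.2 _ h5 h6) with h7 | ⟨h7, h8, h9⟩
  · exact absurd h7 (F6_ne (Finset.mem_insert_self a' _) h.1 h.2.1)
  have h10 := K.add h7 h8
  refine (F6_memD K.cx).2 (Or.inr ⟨K.cx.down _ h10.1 _ ?_, ?_⟩)
  · intro v hv
    rw [Finset.mem_insert] at hv
    simp only [Finset.mem_insert, Finset.mem_sdiff, Finset.mem_singleton]
    rcases hv with hv | hv
    · exact Or.inr (Or.inl hv)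
    · by_cases hva : v = a
      · exact Or.inl hva
      · exact Or.inr (Or.inr ⟨hv, hva⟩)
  · rw [Finset.mem_insert]
    rintro (hx | hx)
    · exact h8 (hx ▸ Finset.mem_insert_self _ _)
    · exact h2 hx

/-- Transfer of separators. -/
theorem F6_Set.transfer (K : F6_Set Δ x y s a S Y) {N X1 Y1 : Finset V}
    (h : Spl (insert {y, s} (ind Δ (vs Δ \ {x, a}))) y s N X1 Y1) :
    Spl Δ y x (insert a N) X1 (insert x Y1) := by
  have hun : ∀ v, v ∈ X1 ∨ v ∈ N ∨ v ∈ Y1 ↔ v ∈ vs Δ ∧ v ≠ x ∧ v ≠ a := by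
    intro v
    have h1 : v ∈ X1 ∪ N ∪ Y1 ↔ v ∈ vs Δ \ {x, a} := by rw [h.un, K.vsD]
    simp only [Finset.mem_union, Finset.mem_sdiff, Finset.mem_insert, Finset.mem_singleton,
      not_or] at h1
    rw [← h1, or_assoc]
  have hX : ∀ v ∈ X1, v ≠ x ∧ v ≠ a := fun v hv => ((hun v).1 (Or.inl hv)).2
  have hN : ∀ v ∈ N, v ≠ x ∧ v ≠ a := fun v hv => ((hun v).1 (Or.inr (Or.inl hv))).2
  have hY : ∀ v ∈ Y1, v ≠ x ∧ v ≠ a := fun v hv => ((hun v).1 (Or.inr (Or.inr hv))).2
  refine ⟨?_, ?_, ?_, ?_, h.hx, Finset.mem_insert_self _ _, ?_⟩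
  · ext v
    simp only [Finset.mem_union, Finset.mem_insert]
    constructor
    · rintro ((h1 | rfl | h1) | rfl | h1)
      · exact ((hun v).1 (Or.inl h1)).1
      · exact (K.cx.adj_vs K.ya.1).2
      · exact ((hun v).1 (Or.inr (Or.inl h1))).1
      · exact K.H.ctx.mem_left
      · exact ((hun v).1 (Or.inr (Or.inr h1))).1
    · intro hv
      by_cases h1 : v = x
      · exact Or.inr (Or.inl h1)
      by_cases h2 : v = a
      · exact Or.inl (Or.inr (Or.inl h2))
      rcases (hun v).2 ⟨hv, h1, h2⟩ with h3 | h3 | h3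
      · exact Or.inl (Or.inl h3)
      · exact Or.inl (Or.inr (Or.inr h3))
      · exact Or.inr (Or.inr h3)
  · rw [Finset.disjoint_insert_right]
    exact ⟨fun h1 => (hX a h1).2 rfl, h.dXS⟩
  · rw [Finset.disjoint_insert_right]
    exact ⟨fun h1 => (hX x h1).1 rfl, h.dXY⟩
  · rw [Finset.disjoint_insert_right, Finset.mem_insert, Finset.disjoint_insert_left]
    refine ⟨?_, fun h1 => (hY a h1).2 rfl, h.dSY⟩
    rintro (h1 | h1)
    · exact K.ya.2 h1.symm
    · exact (hN x h1).1 rfl
  · intro F hF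
    by_cases hx : x ∈ F
    · rcases K.H.ms.face F hF with h1 | h1 | h1
      · right; left
        intro f hf
        rcases Finset.mem_union.1 (h1 hf) with h2 | h2
        · rw [Finset.mem_singleton.1 h2]
          exact Finset.mem_union_left _ (Finset.mem_insert_self _ _)
        · have h3 := K.H.ms.mem_iff.1 h2
          have h4 : f ≠ a := fun e => K.aS (e ▸ h2)
          rcases (hun f).2 ⟨(K.cx.adj_vs h3.1).2, h3.1.1.symm, h4⟩ with h5 | h5 | h5
          · exfalso
            have h6 : f ≠ s := by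
              rintro rfl
              exact Finset.disjoint_left.1 h.dXY h5 h.hy
            have h7 := K.H.clq.2 f h2 s K.hs h6
            have h8 : adj (insert ({y, s} : Finset V) (ind Δ (vs Δ \ {x, a}))) f s := by
              refine ⟨h6, (F6_memD' K.cx).2 (Or.inr ⟨h7.2, ?_, ?_⟩)⟩
              · simp only [Finset.mem_insert, Finset.mem_singleton, not_or]
                exact ⟨h3.1.1, K.xs.1⟩
              · simp only [Finset.mem_insert, Finset.mem_singleton, not_or]
                exact ⟨h4.symm, K.hA.2.1⟩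
            exact h3.2 (h.no_edge h5 h.hy h8).1
          · exact Finset.mem_union_right _ (Finset.mem_insert_of_mem h5)
          · exact Finset.mem_union_left _ (Finset.mem_insert_of_mem h5)
      · exfalso
        rcases Finset.mem_union.1 (h1 hx) with h2 | h2
        · exact Finset.disjoint_left.1 K.H.ms.dXY (Finset.mem_singleton_self _) h2
        · exact Finset.disjoint_left.1 K.H.ms.dXS (Finset.mem_singleton_self _) h2
      · right; right
        rw [h1, Finset.pair_comm]
    · have h3 : F \ {a} ∈ Δ := K.cx.down F hF _ Finset.sdiff_subset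
      have h5 : F \ {a} ∈ insert ({y, s} : Finset V) (ind Δ (vs Δ \ {x, a})) :=
        (F6_memD' K.cx).2 (Or.inr ⟨h3, fun h => hx (Finset.mem_sdiff.1 h).1, by simp⟩)
      have key : ∀ Z : Finset V, F \ {a} ⊆ Z ∪ N → F ⊆ Z ∪ insert a N := by
        intro Z hZ v hv
        by_cases hva : v = a
        · rw [hva]
          exact Finset.mem_union_right _ (Finset.mem_insert_self _ _)
        · rcases Finset.mem_union.1 (hZ (Finset.mem_sdiff.2 ⟨hv, by simpa using hva⟩)) with h6 | h6
          · exact Finset.mem_union_left _ h6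
          · exact Finset.mem_union_right _ (Finset.mem_insert_of_mem h6)
      rcases h.face _ h5 with h6 | h6 | h6
      · exact Or.inl (key _ h6)
      · right; left
        refine (key _ h6).trans ?_
        exact Finset.union_subset_union_left (Finset.subset_insert _ _)
      · exact absurd (h6 ▸ h3) K.ysD

/-- The first case: a cut vertex of the smaller complex. -/
theorem F6_Set.cut (K : F6_Set Δ x y s a S Y) (hA6 : StmtA6) {u : V} {X1 Y1 : Finset V}
    (h : Spl (insert {y, s} (ind Δ (vs Δ \ {x, a}))) y s {u} X1 Y1) :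
    ∃ u Y2, u ≠ a ∧ MS Δ y x {a, u} {y} Y2 := by
  have hu : u ∈ vs Δ \ {x, a} := by
    rw [← K.vsD, ← h.un]
    simp
  simp only [Finset.mem_sdiff, Finset.mem_insert, Finset.mem_singleton, not_or] at hu
  have h1 := K.transfer h
  have h2 := hA6 V Δ y x a u X1 (insert x Y1) K.H.ctx.symm
    (fun v X Y hv => K.H.noCut v Y X hv.symm) (Ne.symm hu.2.2) h1
  have h3 : adj Δ a u := K.adj_a hu.1 hu.2.1 hu.2.2
  have h4 : Clq Δ {a, u} := by
    refine ⟨K.cx.sub_vs h3.2, ?_⟩
    intro p hp q hq hpq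
    simp only [Finset.mem_insert, Finset.mem_singleton] at hp hq
    rcases hp with rfl | rfl <;> rcases hq with rfl | rfl
    · exact absurd rfl hpq
    · exact h3
    · exact adj_symm h3
    · exact absurd rfl hpq
  rcases K.H.one _ _ _ h2.symm h4 with h5 | h5
  · exfalso
    have h6 : s ∈ insert x Y1 := Finset.mem_insert_of_mem h.hy
    rw [h5, Finset.mem_singleton] at h6
    exact K.xs.1 h6.symm
  · rw [h5] at h2
    exact ⟨u, _, hu.2.2, h2⟩

end

theorem tF6 (hA4 : StmtA4) (hA6 : StmtA6) : StmtF6 := by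
  intro V _ _ Δ x y s a S Y hyp H hs hA hU hC
  have K : F6_Set Δ x y s a S Y := ⟨H, hs, hA, hU, hC⟩
  have hcard : (vs (insert ({y, s} : Finset V) (ind Δ (vs Δ \ {x, a})))).card < (vs Δ).card := by
    rw [K.vsD]
    refine Finset.card_lt_card ⟨Finset.sdiff_subset, fun h => ?_⟩
    have h1 := h K.H.ctx.mem_left
    simp at h1
  rcases hyp _ y s hcard hC with ⟨p, hp⟩ | ⟨u, X1, Y1, h⟩ | ⟨s1, t1, X1, Y1, hst, h, hcs, hct⟩
  · exact absurd hp (K.noApex p)
  · exact K.cut hA6 h
  by_cases hcut : ∃ u X1 Y1, Spl (insert {y, s} (ind Δ (vs Δ \ {x, a}))) y s {u} X1 Y1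
  · obtain ⟨u, X', Y', h'⟩ := hcut
    exact K.cut hA6 h'
  have hMS := hA6 V _ y s s1 t1 X1 Y1 hC (fun u X' Y' h' => hcut ⟨u, X', Y', h'⟩) hst h
  have hmem : ∀ v ∈ ({s1, t1} : Finset V), v ∈ vs Δ ∧ v ≠ x ∧ v ≠ a := by
    intro v hv
    have hu : v ∈ vs Δ \ {x, a} := by
      rw [← K.vsD, ← h.un]
      exact Finset.mem_union_left _ (Finset.mem_union_right _ hv)
    simpa only [Finset.mem_sdiff, Finset.mem_insert, Finset.mem_singleton, not_or] using hu
  obtain ⟨hs1, hs1x, hs1a⟩ := hmem s1 (by simp)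
  obtain ⟨ht1, ht1x, ht1a⟩ := hmem t1 (by simp)
  have hs1y : s1 ≠ y := by
    rintro rfl
    exact Finset.disjoint_left.1 h.dXS h.hx (by simp)
  have ht1y : t1 ≠ y := by
    rintro rfl
    exact Finset.disjoint_left.1 h.dXS h.hx (by simp)
  have hs1s : s1 ≠ s := by
    rintro rfl
    exact Finset.disjoint_right.1 h.dSY h.hy (by simp)
  have ht1s : t1 ≠ s := by
    rintro rfl
    exact Finset.disjoint_right.1 h.dSY h.hy (by simp)
  obtain ⟨S2, X2, Y2, hS2, hM⟩ := hA4 V Δ y x (insert a {s1, t1}) X1 (insert x Y1) K.H.ctx.symm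
    (K.transfer h)
  have e1 : adj Δ a s1 := K.adj_a hs1 hs1x hs1a
  have e2 : adj Δ a t1 := K.adj_a ht1 ht1x ht1a
  have e3 : adj Δ s1 t1 := by
    refine ⟨hst, ?_⟩
    have h1 : ({t1} : Finset V) ∈ insert ({y, s} : Finset V) (ind Δ (vs Δ \ {x, a})) :=
      (F6_memD' K.cx).2 (Or.inr ⟨mem_vs.1 ht1, by simpa using ht1x.symm, by simpa using ht1a.symm⟩)
    have h2 := hcs _ h1 (by
      intro v hv
      rw [Finset.mem_singleton.1 hv]
      exact Finset.mem_union_right _ (by simp))
    rcases (F6_memD' K.cx).1 h2 with h3 | h3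
    · exact absurd h3 (F6_ne (Finset.mem_insert_self s1 _) hs1y hs1s)
    · exact h3.1
  have hclq : Clq Δ S2 := by
    refine ⟨fun v hv => ?_, fun p hp q hq hpq => ?_⟩
    · have h1 := hS2 hv
      simp only [Finset.mem_insert, Finset.mem_singleton] at h1
      rcases h1 with rfl | rfl | rfl
      · exact (K.cx.adj_vs e1).1
      · exact hs1
      · exact ht1
    · have h1 := hS2 hp
      have h2 := hS2 hq
      simp only [Finset.mem_insert, Finset.mem_singleton] at h1 h2
      rcases h1 with rfl | rfl | rfl <;> rcases h2 with rfl | rfl | rfl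
      · exact absurd rfl hpq
      · exact e1
      · exact e2
      · exact adj_symm e1
      · exact absurd rfl hpq
      · exact e3
      · exact adj_symm e2
      · exact adj_symm e3
      · exact absurd rfl hpq
  have hX2 : X2 = {y} := by
    rcases K.H.one _ _ _ hM.symm hclq with h1 | h1
    · exfalso
      have h2 := hM.symm
      rw [h1] at h2
      have h3 := hS2 (h2.mem_iff.2 (K.H.ms.mem_iff.1 K.hs))
      simp only [Finset.mem_insert, Finset.mem_singleton] at h3
      rcases h3 with h3 | h3 | h3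
      · exact K.hA.2.1 h3.symm
      · exact hs1s h3.symm
      · exact ht1s h3.symm
    · exact h1
  rw [hX2] at hM
  have haS : a ∈ S2 := hM.mem_iff.2 K.ya
  by_cases c1 : s1 ∈ S2
  · by_cases c2 : t1 ∈ S2
    · exfalso
      -- the side is a single vertex
      have hX1 : X1 = {y} := by
        by_contra hne
        have h1 : (X1 \ {y}).Nonempty := by
          rw [Finset.sdiff_nonempty]
          exact fun h2 => hne (Finset.Subset.antisymm h2 (Finset.singleton_subset_iff.2 h.hx))
        obtain ⟨v, hv, hyv⟩ := touch_single_left.1 (hMS.cX.2.2 {y}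
          (Finset.singleton_subset_iff.2 h.hx) (Finset.singleton_nonempty y) h1)
        rw [Finset.mem_sdiff, Finset.mem_singleton] at hv
        rcases (F6_memD' K.cx).1 hyv.2 with h2 | ⟨h2, h3, h4⟩
        · have h5 : v ∈ ({y, s} : Finset V) := by
            rw [← h2]
            simp
          simp only [Finset.mem_insert, Finset.mem_singleton] at h5
          rcases h5 with h5 | h5
          · exact hv.2 h5
          · exact Finset.disjoint_left.1 h.dXY hv.1 (h5 ▸ h.hy)
        · simp only [Finset.mem_insert, Finset.mem_singleton, not_or] at h3 h4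
          have h5 := hS2 (hM.mem_iff.2 ⟨⟨hyv.1, h2⟩, Ne.symm h3.2⟩)
          rcases Finset.mem_insert.1 h5 with h6 | h6
          · exact h4.2 h6.symm
          · exact Finset.disjoint_left.1 h.dXS hv.1 h6
      refine K.noApex t1 ⟨ht1y, ht1s, ?_⟩
      intro F hF hne
      rcases h.face F hF with h1 | h1 | h1
      · have h2 : ({y, t1} : Finset V) ∈ insert ({y, s} : Finset V) (ind Δ (vs Δ \ {x, a})) := by
          refine (F6_memD' K.cx).2 (Or.inr ⟨(hM.mem_iff.1 c2).1.2, ?_, ?_⟩)
          · simp only [Finset.mem_insert, Finset.mem_singleton, not_or]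
            exact ⟨K.yx.symm, ht1x.symm⟩
          · simp only [Finset.mem_insert, Finset.mem_singleton, not_or]
            exact ⟨K.hA.1, ht1a.symm⟩
        have h3 := hcs _ h2 (by
          intro v hv
          simp only [Finset.mem_insert, Finset.mem_singleton] at hv
          rcases hv with rfl | rfl
          · exact Finset.mem_union_left _ h.hx
          · exact Finset.mem_union_right _ (by simp))
        refine K.hC.inP.cx.down _ h3 _ ?_
        intro v hv
        rcases Finset.mem_insert.1 hv with h4 | h4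
        · simp [h4]
        · rcases Finset.mem_union.1 (h1 h4) with h5 | h5
          · rw [hX1, Finset.mem_singleton] at h5
            simp [h5]
          · simp only [Finset.mem_insert, Finset.mem_singleton] at h5 ⊢
            rcases h5 with h5 | h5
            · exact Or.inl h5
            · exact Or.inr (Or.inr h5)
      · exact hct F hF h1
      · exact absurd h1 hne
    · refine ⟨s1, Y2, hs1a, ?_⟩
      have h1 : S2 = {a, s1} := by
        ext v
        constructor
        · intro hv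
          have h2 := hS2 hv
          simp only [Finset.mem_insert, Finset.mem_singleton] at h2 ⊢
          rcases h2 with h2 | h2 | h2
          · exact Or.inl h2
          · exact Or.inr h2
          · exact absurd (h2 ▸ hv) c2
        · intro hv
          simp only [Finset.mem_insert, Finset.mem_singleton] at hv
          rcases hv with rfl | rfl
          · exact haS
          · exact c1
      rw [← h1]
      exact hM
  · by_cases c2 : t1 ∈ S2
    · refine ⟨t1, Y2, ht1a, ?_⟩
      have h1 : S2 = {a, t1} := by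
        ext v
        constructor
        · intro hv
          have h2 := hS2 hv
          simp only [Finset.mem_insert, Finset.mem_singleton] at h2 ⊢
          rcases h2 with h2 | h2 | h2
          · exact Or.inl h2
          · exact absurd (h2 ▸ hv) c1
          · exact Or.inr h2
        · intro hv
          simp only [Finset.mem_insert, Finset.mem_singleton] at hv
          rcases hv with rfl | rfl
          · exact haS
          · exact c2
      rw [← h1]
      exact hM
    · exfalso
      have h1 : S2 = {a} := by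
        ext v
        constructor
        · intro hv
          have h2 := hS2 hv
          simp only [Finset.mem_insert, Finset.mem_singleton] at h2 ⊢
          rcases h2 with h2 | h2 | h2
          · exact h2
          · exact absurd (h2 ▸ hv) c1
          · exact absurd (h2 ▸ hv) c2
        · intro hv
          rw [Finset.mem_singleton.1 hv]
          exact haS
      rw [h1] at hM
      exact K.H.noCut a _ _ hM.toSpl.symm

end Pool.Agent.Lib.MP_73b196_co.St
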