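import Pool.Agent.Lib.MP_73b196_co.St.Spec

/-!
# F7: the contradiction in part F
-/

set_option autoImplicit false

namespace Pool.Agent.Lib.MP_73b196_co.St

variable {V : Type} [Fintype V] [DecidableEq V] {Δ : Set (Finset V)}
  {S Y C : Finset V} {x y s a : V}

/-- The cone vertex of the contraction is adjacent to all other vertices of `V - x`. -/
theorem F7_adj (hc : Ctx Δ x y) (ha : ApexD (insert {y, s} (ind Δ (vs Δ \ {x}))) y s a)
    (hys : y ≠ s) {v : V} (hv : v ∈ vs Δ) (hvx : v ≠ x) (hva : v ≠ a) : adj Δ a v := by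
  have hvD : ({v} : Finset V) ∈ insert {y, s} (ind Δ (vs Δ \ {x})) := by
    refine Set.mem_insert_of_mem _ ⟨mem_vs.1 hv, ?_⟩
    rw [Finset.singleton_subset_iff, Finset.mem_sdiff, Finset.mem_singleton]
    exact ⟨hv, hvx⟩
  have hne : ({v} : Finset V) ≠ {y, s} := by
    intro e
    have h1 : y ∈ ({v} : Finset V) := by rw [e]; simp
    have h2 : s ∈ ({v} : Finset V) := by rw [e]; simp
    rw [Finset.mem_singleton] at h1 h2
    exact hys (h1.trans h2.symm)
  refine ⟨hva.symm, ?_⟩
  rcases ha.2.2 {v} hvD hne with h | h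
  · exfalso
    have h1 : a ∈ ({y, s} : Finset V) := by rw [← h]; simp
    rw [Finset.mem_insert, Finset.mem_singleton] at h1
    rcases h1 with h1 | h1
    · exact ha.1 h1
    · exact ha.2.1 h1
  · exact h.1

/-- The splitting given by the component `C`. -/
theorem F7_spl (hc : Ctx Δ x y) (hxa : x ≠ a) (hya : y ≠ a) {Z : Finset V}
    (hZS : Z ⊆ S) (hSv : S ⊆ vs Δ) (hav : a ∈ vs Δ) (hxS : x ∉ S) (hyS : y ∉ S) (haS : a ∉ S)
    (hC : IsComp Δ (vs Δ \ ({x, y, a} ∪ S)) C) (hxC : ∀ c ∈ C, ¬ adj Δ x c)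
    (hy : ∀ v, adj Δ y v → v = x ∨ v = a ∨ v ∈ C) (hZ : ∀ t ∈ S, touch Δ {t} C → t ∈ Z) :
    Spl Δ x y (insert a Z) (vs Δ \ (C ∪ {y} ∪ insert a Z)) (C ∪ {y}) := by
  have hC' : ∀ c ∈ C, c ∈ vs Δ ∧ c ≠ x ∧ c ≠ y ∧ c ≠ a ∧ c ∉ S := by
    intro c hcC
    have h := hC.1 hcC
    simp only [Finset.mem_sdiff, Finset.mem_union, Finset.mem_insert, Finset.mem_singleton,
      not_or] at h
    tauto
  have hcx := hc.inP.cx
  constructor
  · ext v
    simp only [Finset.mem_union, Finset.mem_sdiff, Finset.mem_insert, Finset.mem_singleton]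
    constructor
    · rintro ((h | h) | h)
      · exact h.1
      · rcases h with rfl | h
        · exact hav
        · exact hSv (hZS h)
      · rcases h with h | rfl
        · exact (hC' v h).1
        · exact hc.mem_right
    · intro h
      tauto
  · rw [Finset.disjoint_left]
    intro v h1 h2
    exact (Finset.mem_sdiff.1 h1).2 (Finset.mem_union_right _ h2)
  · rw [Finset.disjoint_left]
    intro v h1 h2
    exact (Finset.mem_sdiff.1 h1).2 (Finset.mem_union_left _ h2)
  · rw [Finset.disjoint_left]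
    intro v h1 h2
    rw [Finset.mem_insert] at h1
    rw [Finset.mem_union, Finset.mem_singleton] at h2
    rcases h1 with rfl | h1
    · rcases h2 with h2 | h2
      · exact (hC' v h2).2.2.2.1 rfl
      · exact hya h2.symm
    · rcases h2 with h2 | rfl
      · exact (hC' v h2).2.2.2.2 (hZS h1)
      · exact hyS (hZS h1)
  · simp only [Finset.mem_union, Finset.mem_sdiff, Finset.mem_insert, Finset.mem_singleton, not_or]
    exact ⟨hc.mem_left, ⟨fun h => (hC' x h).2.1 rfl, hc.ef.ne⟩, hxa, fun h => hxS (hZS h)⟩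
  · simp
  · intro F hF
    by_cases h1 : F ⊆ C ∪ {y} ∪ insert a Z
    · exact Or.inr (Or.inl h1)
    by_cases h2 : F ⊆ vs Δ \ (C ∪ {y} ∪ insert a Z) ∪ insert a Z
    · exact Or.inl h2
    right
    right
    obtain ⟨g, hg, hg'⟩ := Finset.not_subset.1 h1
    obtain ⟨f, hf, hf'⟩ := Finset.not_subset.1 h2
    have hfv := hcx.sub_vs hF hf
    have hgv := hcx.sub_vs hF hg
    simp only [Finset.mem_union, Finset.mem_sdiff, Finset.mem_insert, Finset.mem_singleton,
      not_or] at hg' hf'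
    have hfCy : f ∈ C ∨ f = y := by tauto
    have hfg : f ≠ g := by
      rintro rfl
      tauto
    have hadj := hcx.adj_of_face hF hf hg hfg
    rcases hfCy with hfC | rfl
    · exfalso
      by_cases hgx : g = x
      · exact hxC f hfC (adj_symm (hgx ▸ hadj))
      by_cases hgS : g ∈ S
      · exact hg'.2.2 (hZ g hgS ⟨g, Finset.mem_singleton_self g, f, hfC, adj_symm hadj⟩)
      refine hg'.1.1 (hC.mem_of_adj hfC ?_ hadj)
      simp only [Finset.mem_sdiff, Finset.mem_union, Finset.mem_insert, Finset.mem_singleton,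
        not_or]
      exact ⟨hgv, ⟨hgx, hg'.1.2, hg'.2.1⟩, hgS⟩
    · rcases hy g hadj with rfl | rfl | h
      · exact hc.ef.facet F hF hg hf
      · exact absurd rfl hg'.2.1
      · exact absurd h hg'.1.1

theorem tF7 (h6 : StmtA6) : StmtF7 := by
  classical
  intro V _ _ Δ x y s s' a u S Y Y2 hF hs hs' hss ha hua hms
  have hc := hF.ctx
  have hcx := hc.inP.cx
  have hSiff : ∀ {p : V}, p ∈ S ↔ adj Δ x p ∧ p ≠ y := fun {p} => hF.ms.mem_iff
  have hNiff : ∀ {p : V}, p ∈ ({a, u} : Finset V) ↔ adj Δ y p ∧ p ≠ x := fun {p} => hms.mem_iff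
  have hya : adj Δ y a ∧ a ≠ x := hNiff.1 (by simp)
  have hyu : adj Δ y u ∧ u ≠ x := hNiff.1 (by simp)
  have haS : a ∉ S := fun h => hF.noK a ⟨(hSiff.1 h).1, hya.1⟩
  have huS : u ∉ S := fun h => hF.noK u ⟨(hSiff.1 h).1, hyu.1⟩
  have hxS : x ∉ S := fun h => (hSiff.1 h).1.1 rfl
  have hyS : y ∉ S := fun h => (hSiff.1 h).2 rfl
  have hSv : S ⊆ vs Δ := hF.ms.pms.sS
  have hav : a ∈ vs Δ := (hcx.adj_vs hya.1).2
  have huv : u ∈ vs Δ := (hcx.adj_vs hyu.1).2
  have hys : y ≠ s := (hSiff.1 hs).2.symm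
  have haadj : ∀ {v : V}, v ∈ vs Δ → v ≠ x → v ≠ a → adj Δ a v := fun hv hvx hva =>
    F7_adj hc ha hys hv hvx hva
  have huU : u ∈ vs Δ \ ({x, y, a} ∪ S) := by
    simp only [Finset.mem_sdiff, Finset.mem_union, Finset.mem_insert, Finset.mem_singleton, not_or]
    exact ⟨huv, ⟨hyu.2, hyu.1.1.symm, hua⟩, huS⟩
  obtain ⟨C, hC, huC⟩ := exists_comp (Finset.sdiff_subset : vs Δ \ ({x, y, a} ∪ S) ⊆ vs Δ) huU
  have hC' : ∀ c ∈ C, c ∈ vs Δ ∧ c ≠ x ∧ c ≠ y ∧ c ≠ a ∧ c ∉ S := by
    intro c hcC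
    have h := hC.1 hcC
    simp only [Finset.mem_sdiff, Finset.mem_union, Finset.mem_insert, Finset.mem_singleton,
      not_or] at h
    tauto
  have hxC : ∀ c ∈ C, ¬ adj Δ x c := fun c hcC h =>
    (hC' c hcC).2.2.2.2 (hSiff.2 ⟨h, (hC' c hcC).2.2.1⟩)
  have hyN : ∀ v, adj Δ y v → v = x ∨ v = a ∨ v ∈ C := by
    intro v hv
    by_cases hvx : v = x
    · exact Or.inl hvx
    · have h := hNiff.2 ⟨hv, hvx⟩
      rw [Finset.mem_insert, Finset.mem_singleton] at h
      rcases h with h | rfl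
      · exact Or.inr (Or.inl h)
      · exact Or.inr (Or.inr huC)
  -- at most one element of `S` touches `C`
  have hone : ∀ s1 ∈ S, ∀ s2 ∈ S, s1 ≠ s2 → touch Δ {s1} C → touch Δ {s2} C → False := by
    intro s1 h1 s2 h2 h12 ht1 ht2
    have h1' := hSiff.1 h1
    have h2' := hSiff.1 h2
    have hCM : CM Δ [{x, y}, {a}, {s1}, C, {s2}] := by
      refine ⟨?_, ?_⟩
      · intro A hA
        simp only [List.mem_cons, List.not_mem_nil, or_false] at hA
        rcases hA with rfl | rfl | rfl | rfl | rfl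
        · have h := (conn_single hc.mem_right).insert (v := x) hc.mem_left
            (touch_single.2 hc.adj)
          exact h
        · exact conn_single hav
        · exact conn_single (hSv h1)
        · exact hC.2.1
        · exact conn_single (hSv h2)
      · have hdC : ∀ z : V, z ∉ C → Disjoint ({z} : Finset V) C := fun z hz =>
          Finset.disjoint_singleton_left.2 hz
        have hdxy : ∀ z : V, z ≠ x → z ≠ y → Disjoint ({x, y} : Finset V) {z} := by
          intro z hzx hzy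
          rw [Finset.disjoint_singleton_right, Finset.mem_insert, Finset.mem_singleton]
          tauto
        have e1 : touch Δ {x, y} {s1} := ⟨x, by simp, s1, by simp, h1'.1⟩
        have e2 : touch Δ {x, y} {s2} := ⟨x, by simp, s2, by simp, h2'.1⟩
        have e3 : touch Δ {x, y} {a} := ⟨y, by simp, a, by simp, hya.1⟩
        have e4 : touch Δ {x, y} C := ⟨y, by simp, u, huC, hyu.1⟩
        have e5 : touch Δ {a} {s1} := touch_single.2 (haadj (hSv h1) h1'.1.1.symm
          (fun e => haS (e ▸ h1)))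
        have e6 : touch Δ {a} {s2} := touch_single.2 (haadj (hSv h2) h2'.1.1.symm
          (fun e => haS (e ▸ h2)))
        have e7 : touch Δ {a} C := ⟨a, by simp, u, huC, haadj huv hyu.2 hua⟩
        have e8 : touch Δ {s1} {s2} := touch_single.2 (hF.clq.2 s1 h1 s2 h2 h12)
        have d1 : Disjoint ({x, y} : Finset V) C := by
          rw [Finset.disjoint_left]
          intro v hv hvC
          rw [Finset.mem_insert, Finset.mem_singleton] at hv
          rcases hv with rfl | rfl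
          · exact (hC' v hvC).2.1 rfl
          · exact (hC' v hvC).2.2.1 rfl
        have d2 : Disjoint ({a} : Finset V) {s1} :=
          Finset.disjoint_singleton.2 (fun e => haS (e ▸ h1))
        have d3 : Disjoint ({a} : Finset V) {s2} :=
          Finset.disjoint_singleton.2 (fun e => haS (e ▸ h2))
        simp only [List.pairwise_cons, List.mem_cons, List.not_mem_nil, or_false,
          forall_eq_or_imp, forall_eq, IsEmpty.forall_iff, implies_true, List.Pairwise.nil,
          and_true]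
        refine ⟨⟨⟨hdxy a hya.2 hya.1.1.symm, e3⟩, ⟨hdxy s1 h1'.1.1.symm h1'.2, e1⟩, ⟨d1, e4⟩,
          ⟨hdxy s2 h2'.1.1.symm h2'.2, e2⟩⟩, ⟨⟨d2, e5⟩, ⟨hdC a (fun h => (hC' a h).2.2.2.1 rfl), e7⟩,
          ⟨d3, e6⟩⟩, ⟨⟨hdC s1 (fun h => (hC' s1 h).2.2.2.2 h1), ht1⟩,
          ⟨Finset.disjoint_singleton.2 h12, e8⟩⟩, ⟨(hdC s2 (fun h => (hC' s2 h).2.2.2.2 h2)).symm,
          touch_symm ht2⟩⟩
    rcases hc.inP.k5 _ _ _ _ _ hCM with hf | hf
    · obtain ⟨G, hG, hGA⟩ := hf
      obtain ⟨v, hv⟩ := hGA {x, y} (by simp)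
      obtain ⟨v1, hv1⟩ := hGA {a} (by simp)
      obtain ⟨v2, hv2⟩ := hGA {s1} (by simp)
      rw [Finset.mem_inter, Finset.mem_singleton] at hv1 hv2
      rw [Finset.mem_inter, Finset.mem_insert, Finset.mem_singleton] at hv
      obtain ⟨hv1, rfl⟩ := hv1
      obtain ⟨hv2, rfl⟩ := hv2
      rcases hv with ⟨hv, rfl | rfl⟩
      · exact hF.noK v1 ⟨hcx.adj_of_face hG hv hv1 hya.2.symm, hya.1⟩
      · exact hF.noK v2 ⟨h1'.1, hcx.adj_of_face hG hv hv2 h1'.2.symm⟩
    · obtain ⟨G, hG, hGA⟩ := hf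
      obtain ⟨v, hv⟩ := hGA {x, y} (by simp)
      obtain ⟨c, hcc⟩ := hGA C (by simp)
      obtain ⟨v2, hv2⟩ := hGA {s2} (by simp)
      rw [Finset.mem_inter, Finset.mem_singleton] at hv2
      rw [Finset.mem_inter] at hcc
      rw [Finset.mem_inter, Finset.mem_insert, Finset.mem_singleton] at hv
      obtain ⟨hv2, rfl⟩ := hv2
      rcases hv with ⟨hv, rfl | rfl⟩
      · exact hxC c hcc.2 (hcx.adj_of_face hG hv hcc.1 (hC' c hcc.2).2.1.symm)
      · exact hF.noK v2 ⟨h2'.1, hcx.adj_of_face hG hv hv2 h2'.2.symm⟩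
  by_cases hT : ∃ t0 ∈ S, touch Δ {t0} C
  · obtain ⟨t0, ht0, htt⟩ := hT
    have hspl := F7_spl (Z := {t0}) hc hya.2.symm hya.1.1 (Finset.singleton_subset_iff.2 ht0) hSv
      hav hxS hyS haS hC hxC hyN (by
        intro t ht htC
        rw [Finset.mem_singleton]
        by_contra hne
        exact hone t ht t0 ht0 hne htC htt)
    have hat0 : a ≠ t0 := fun e => haS (e ▸ ht0)
    have ht0' := hSiff.1 ht0
    have hms' := h6 V Δ x y a t0 _ _ hc hF.noCut hat0 hspl
    have hclq : Clq Δ ({a, t0} : Finset V) := by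
      have hadj : adj Δ a t0 := haadj (hSv ht0) ht0'.1.1.symm hat0.symm
      refine ⟨?_, ?_⟩
      · intro v hv
        rw [Finset.mem_insert, Finset.mem_singleton] at hv
        rcases hv with rfl | rfl
        · exact hav
        · exact hSv ht0
      · intro p hp q hq hpq
        rw [Finset.mem_insert, Finset.mem_singleton] at hp hq
        rcases hp with rfl | rfl <;> rcases hq with rfl | rfl
        · exact absurd rfl hpq
        · exact hadj
        · exact adj_symm hadj
        · exact absurd rfl hpq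
    rcases hF.one _ _ _ hms' hclq with h | h
    · -- an element of `S` other than `t0`
      obtain ⟨t1, ht1, ht10⟩ : ∃ t1 ∈ S, t1 ≠ t0 := by
        by_cases e : s = t0
        · exact ⟨s', hs', fun e' => hss (e.trans e'.symm)⟩
        · exact ⟨s, hs, e⟩
      have ht1' := hSiff.1 ht1
      have hmem : t1 ∈ vs Δ \ (C ∪ {y} ∪ {a, t0}) := by
        simp only [Finset.mem_sdiff, Finset.mem_union, Finset.mem_insert, Finset.mem_singleton,
          not_or]
        exact ⟨hSv ht1, ⟨fun h => (hC' t1 h).2.2.2.2 ht1, ht1'.2⟩, fun e => haS (e ▸ ht1), ht10⟩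
      rw [h, Finset.mem_singleton] at hmem
      exact ht1'.1.1 hmem.symm
    · have hmem : u ∈ C ∪ {y} := Finset.mem_union_left _ huC
      rw [h, Finset.mem_singleton] at hmem
      exact hyu.1.1 hmem.symm
  · push Not at hT
    have hspl := F7_spl (Z := ∅) hc hya.2.symm hya.1.1 (Finset.empty_subset _) hSv
      hav hxS hyS haS hC hxC hyN (fun t ht htC => absurd htC (hT t ht))
    exact hF.noCut a _ _ hspl

end Pool.Agent.Lib.MP_73b196_co.St
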