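import Pool.Agent.Lib.MP_73b196_co.St.Spec

/-!
# Structure theorem: F8
-/

set_option autoImplicit false

namespace Pool.Agent.Lib.MP_73b196_co.St

theorem tF8 (h1 : StmtF1) (h2 : StmtF2) (h3 : StmtF3) (h4 : StmtF4) (h5 : StmtF5)
    (h6 : StmtF6) (h7 : StmtF7) : StmtF8 := by
  intro V _ _ Δ x y S Y hS hF
  obtain ⟨⟨s1, hs1, s2, hs2, hs12⟩, t, t', htt, htx, htx', hyt, hyt'⟩ := h1 V Δ x y S Y hF
  obtain ⟨s, hs, hD⟩ := h2 V Δ x y S Y hF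
  obtain ⟨s', hs', hne⟩ : ∃ s' ∈ S, s ≠ s' := by
    by_cases h : s = s1
    · exact ⟨s2, hs2, by rw [h]; exact hs12⟩
    · exact ⟨s1, hs1, h⟩
  obtain ⟨a, ha⟩ := h3 V Δ x y s S Y hS hF hs hD
  have huniq := fun a' ha' => (h4 V Δ x y s s' a a' S Y hF hs hs' hne ha ha').symm
  obtain ⟨u, hyu, hux, hua⟩ : ∃ u, adj Δ y u ∧ u ≠ x ∧ u ≠ a := by
    by_cases h : t = a
    · exact ⟨t', hyt', htx', by rw [← h]; exact htt.symm⟩
    · exact ⟨t, hyt, htx, h⟩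
  have hD' := h5 V Δ x y s s' a u S Y hF hs hs' hne hD ha hyu hux hua
  obtain ⟨w, Y2, hwa, hw⟩ := h6 V Δ x y s a S Y hS hF hs ha huniq hD'
  exact h7 V Δ x y s s' a w S Y Y2 hF hs hs' hne ha hwa hw

end Pool.Agent.Lib.MP_73b196_co.St
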