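import Pool.Agent.Lib.MP_73b196_co.St.Spec
import Pool.Agent.Lib.MP_73b196_co.Fib.Cone

/-!
# The final assembly: every complex of the class has Markov degree at most four

Statements with complete proofs in the docstrings, one module `St/<Name>.lean` for each, theorem
`Pool.Agent.Lib.MP_73b196_co.St.t<Name>`, the statements under `uses` are hypotheses. `Fib.StmtX` are the
statements of the fibre side (`Fib/Spec.lean`, all proved), `Fib.pp_of_mem`, `Fib.pp_cone`, `Fib.dg_pw` are in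
`Fib/Cone.lean`.
-/

set_option autoImplicit false

namespace Pool.Agent.Lib.MP_73b196_co.St

open Pool.Agent.Lib.MP_73b196_co.Fib (Dg PP ad cone pw On)

/-- `Δ` without the facet `xy`. -/
def del {V : Type} [DecidableEq V] (Δ : Set (Finset V)) (x y : V) : Set (Finset V) :=
  {F | F ∈ Δ ∧ F ≠ {x, y}}

/-- Induction hypothesis (D). -/
def HD (V : Type) [Fintype V] [DecidableEq V] (n : ℕ) : Prop :=
  ∀ Δ : Set (Finset V), (vs Δ).card < n → InP Δ → Dg Δ

/-- Induction hypothesis (P). -/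
def HE (V : Type) [Fintype V] [DecidableEq V] (n : ℕ) : Prop :=
  ∀ (Δ : Set (Finset V)) (x y : V), (vs Δ).card < n → InP Δ → EdgeFacet Δ x y →
    PP (del Δ x y) x y

/-- **S2** The second half of the structure theorem: an irreducible complex of the class has an edge facet, a
separating pair of nonadjacent vertices, or a separating hollow triangle. -/
def StmtS2 : Prop := ∀ (V : Type) [Fintype V] [DecidableEq V] (Δ : Set (Finset V)), InP Δ → Irr Δ →
  (∃ x y, EdgeFacet Δ x y) ∨ ¬ NoPair Δ ∨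
    ∃ a b c, adj Δ a b ∧ adj Δ a c ∧ adj Δ b c ∧ ({a, b, c} : Finset V) ∉ Δ ∧
      ¬ Conn Δ (vs Δ \ {a, b, c})

/-- **G1** Proof. If `{x,y} ∈ Γ` then `Dg Γ` (`HD`) and `Fib.pp_of_mem`. Otherwise `xy` is a facet of
`Δ = ad Γ x y` (a face of `Γ` containing `x, y` would contain the face `{x,y}`), `vs Δ = vs Γ`,
`del Δ x y = Γ`, `HE`. -/
def StmtG1 : Prop := ∀ (V : Type) [Fintype V] [DecidableEq V] (n : ℕ) (Γ : Set (Finset V))
  (x y : V), HD V n → HE V n → (vs Γ).card < n → x ≠ y → InP Γ → {x} ∈ Γ → {y} ∈ Γ →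
  InP (ad Γ x y) → PP Γ x y

/-- **G2** A minor. Proof. Contract `C + a` (connected) to `a` and take the induced complex on `U`:
`ind (con Δ (insert a C) a) U = ad (ind Δ U) a b` (`InP.con`, `InP.ind`). A face `F` with `F ∩ C = ∅` is not
changed. For a face `F` meeting `C` the image is `(F - C) + a`; it is contained in `U` only if
`F - C ⊆ U`, so `F - C ⊆ {a,b}`. The pair `{a,b}` is the image of `{c,b}`, `c ∈ C` adjacent to `b`. -/
def StmtG2 : Prop := ∀ (V : Type) [Fintype V] [DecidableEq V] (Δ : Set (Finset V))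
  (C U : Finset V) (a b : V), InP Δ → Conn Δ C → Disjoint C U → a ∈ U → b ∈ U → a ≠ b →
  touch Δ {a} C → touch Δ {b} C → (∀ F ∈ Δ, (F ∩ C).Nonempty → F ∩ U ⊆ {a, b}) →
  InP (ad (ind Δ U) a b)

/-- **G3** A minor for hollow triangles. Proof. `K4{a,b,c,C}` (`InP.k4`): `[a,b,c]` is unfilled, so `[a,b,C]`
or `[a,c,C]` is filled; by symmetry let `[a,b,C]` be filled: a face `{a,b,z}`, `z ∈ C`. Contract `C + c` to `c`
and restrict to `U`: the result is `insert {a,b,c} (ind Δ U)`, as in `G2` (all subsets of `{a,b,c}` are images: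
the pairs are faces of `Δ`). -/
def StmtG3 : Prop := ∀ (V : Type) [Fintype V] [DecidableEq V] (Δ : Set (Finset V))
  (C U : Finset V) (a b c : V), InP Δ → Conn Δ C → Disjoint C U → a ∈ U → b ∈ U → c ∈ U →
  adj Δ a b → adj Δ a c → adj Δ b c → ({a, b, c} : Finset V) ∉ Δ →
  touch Δ {a} C → touch Δ {b} C → touch Δ {c} C →
  (∀ F ∈ Δ, (F ∩ C).Nonempty → F ∩ U ⊆ {a, b, c}) → InP (insert {a, b, c} (ind Δ U))

/-- **H1** (uses `Fib.StmtFaceP`) (P) if `x` is a cone vertex. Proof. A face containing `y` is contained in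
`{x,y}`. `del Δ x y = {∅, {x}, {y}} ∪ ind Δ (vs Δ - y)`, glued along the face `{x}` (`U = {x,y}`,
`W = vs Δ - y`). `PP` for `{∅, {x}, {y}}`: tables with the same `{x}`- and `{y}`-marginals are joined by moves
of degree two (`Fib.match_cn` for `{x}`, `{y}`). `Dg (ind Δ (vs Δ - y))` by `HD`. -/
def StmtH1 : Prop := ∀ (V : Type) [Fintype V] [DecidableEq V] (Δ : Set (Finset V)) (x y : V),
  HD V (vs Δ).card → InP Δ → EdgeFacet Δ x y → Apex Δ x → PP (del Δ x y) x y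

/-- **H2** (uses `Fib.StmtFaceP`) (P) if a face `F ≠ xy` separates. Proof. `x, y` are adjacent, so not in
different parts; not both are in `F`. Say `x, y ∈ A ∪ F =: U` (the other case is symmetric), `W = B ∪ F`, which
does not contain both of `x, y`. `del Δ x y = del (ind Δ U) x y ∪ ind Δ W`, `U ∩ W = F`. `HE` for `ind Δ U`
(smaller since `B ≠ ∅`), `HD` for `ind Δ W`. -/
def StmtH2 : Prop := ∀ (V : Type) [Fintype V] [DecidableEq V] (Δ : Set (Finset V)) (x y : V)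
  (F A B : Finset V), HD V (vs Δ).card → HE V (vs Δ).card → InP Δ → EdgeFacet Δ x y → F ∈ Δ →
  F ≠ {x, y} → A ∪ B = vs Δ \ F → Disjoint A B → A.Nonempty → B.Nonempty → ¬ touch Δ A B →
  PP (del Δ x y) x y

/-- **H3** (uses `Fib.StmtPar`) (P) if `xy` separates. Proof. `U = A+x+y`, `W = B+x+y`,
`Γ1 = del (ind Δ U) x y`, `Γ2 = del (ind Δ W) x y`; `del Δ x y = Γ1 ∪ Γ2`, `ad Γ1 x y = ind Δ U`. `HE`, `HD` for
`ind Δ U`, `ind Δ W`. -/
def StmtH3 : Prop := ∀ (V : Type) [Fintype V] [DecidableEq V] (Δ : Set (Finset V)) (x y : V)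
  (A B : Finset V), HD V (vs Δ).card → HE V (vs Δ).card → InP Δ → EdgeFacet Δ x y →
  A ∪ B = vs Δ \ {x, y} → Disjoint A B → A.Nonempty → B.Nonempty → ¬ touch Δ A B →
  PP (del Δ x y) x y

/-- **H4** (uses `Fib.StmtConeP`, `Fib.StmtConeD`) A cone with an edge. Proof. `U = vs Δ - p`,
`Γ' = del (ind Δ U) x y`. `del Δ x y = cone p Γ'` (`F.erase p ∈ Γ'` gives `F ⊆ insert p (F.erase p) ∈ Δ`),
`Δ = ad (cone p Γ') x y`, `ad Γ' x y = ind Δ U`. `HE`, `HD` for `ind Δ U`; `Fib.pp_cone`. -/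
def StmtH4 : Prop := ∀ (V : Type) [Fintype V] [DecidableEq V] (Δ : Set (Finset V)) (x y p : V),
  HD V (vs Δ).card → HE V (vs Δ).card → InP Δ → EdgeFacet Δ x y → ApexD Δ x y p →
  PP (del Δ x y) x y ∧ Dg Δ

/-- **H5** (uses `G1`, `G2`, `Fib.StmtSer`) (P) for a cut vertex. Proof. `U = X+u`, `W = Y+u`,
`Γ1 = ind Δ U`, `Γ2 = ind Δ W`, `del Δ x y = Γ1 ∪ Γ2`. `PP Γ1 x u` by `G1`, with `InP (ad Γ1 x u)` by `G2`
(`C = Y`, `a = x`, `b = u`: a face meeting `Y` is `{x,y}` or contained in `Y+u`). `PP Γ2 u y` in the same way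
(`C = X`, `a = y`, `b = u`, `ad` is symmetric). -/
def StmtH5 : Prop := ∀ (V : Type) [Fintype V] [DecidableEq V] (Δ : Set (Finset V)) (x y u : V)
  (X Y : Finset V), HD V (vs Δ).card → HE V (vs Δ).card → InP Δ → EdgeFacet Δ x y →
  MS Δ x y {u} X Y → PP (del Δ x y) x y

/-- **H6** (uses `G1`, `G2`, `Fib.StmtConeP`, `Fib.StmtCrossP`, `Fib.StmtCrossD`) Crossed cones. Proof.
`U = X+s+t`, `W = Y+s+t`, `G1 = ind Δ (X+t)`, `G2 = ind Δ (Y+s)`; `cone s G1 = ind Δ U` (as `s` is a cone vertex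
of this side), `cone t G2 = ind Δ W`, `del Δ x y = cone s G1 ∪ cone t G2`, `Δ = ad (..) x y`. `InP (ad G1 x t)`
by `G2` (`C = Y`, `U := X+t`: a face meeting `Y` is `{x,y}` or contained in `Y+s+t`), so `PP G1 x t` by `G1` and
`Dg (ad G1 x t)` by `HD` (its vertex set is `X+t`); in the same way `PP G2 y s`, `Dg (ad G2 y s)` (`C = X`).
`Fib.StmtConeP` gives `PPc`. -/
def StmtH6 : Prop := ∀ (V : Type) [Fintype V] [DecidableEq V] (Δ : Set (Finset V)) (x y s t : V)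
  (X Y : Finset V), HD V (vs Δ).card → HE V (vs Δ).card → InP Δ → EdgeFacet Δ x y → s ≠ t →
  MS Δ x y {s, t} X Y → (∀ F ∈ Δ, F ⊆ X ∪ {s, t} → insert s F ∈ Δ) →
  (∀ F ∈ Δ, F ⊆ Y ∪ {s, t} → insert t F ∈ Δ) → PP (del Δ x y) x y ∧ Dg Δ

/-- **H7** (uses `A4`, `A5`, `A6`, `ThmS`, `H1`, ..., `H6`) The induction step for (P). Proof. `del Δ x y` and `PP`
are symmetric in `x, y`. If some `p` is a cone vertex of `Δ` then `p ∈ {x,y}` (facet): `H1`. If
`vs Δ - F` is not connected for some `F ∈ Δ`: if it is empty then `vs Δ = F ∈ Δ`, so `Δ` has a cone vertex (`x`);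
otherwise there are two parts (`not_conn`): `H2` or `H3`. Otherwise `Ctx Δ x y`, and `ThmS` gives: `ApexD`:
`H4`; a cut vertex `u`: `A4` gives `S ⊆ {u}` with `MS Δ x y S X' Y'`, `S ≠ ∅` (`A5`), so `S = {u}`: `H5`;
crossed cones, if there is no cut vertex: `A6`, `H6`. -/
def StmtH7 : Prop := ∀ (V : Type) [Fintype V] [DecidableEq V] (Δ : Set (Finset V)) (x y : V),
  HD V (vs Δ).card → HE V (vs Δ).card → InP Δ → EdgeFacet Δ x y → PP (del Δ x y) x y

/-- **I1** (uses `Fib.StmtCone`) Cone vertex, or no vertices. Proof. `p ∈ vs Δ` (`insert p ∅ ∈ Δ`),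
`Δ = cone p (ind Δ (vs Δ - p))`, `HD`. If `vs Δ = ∅` then `Δ = {∅} = pw ∅`, `Fib.dg_pw`. -/
def StmtI1 : Prop := ∀ (V : Type) [Fintype V] [DecidableEq V] (Δ : Set (Finset V)),
  HD V (vs Δ).card → InP Δ → (vs Δ = ∅ ∨ ∃ p, Apex Δ p) → Dg Δ

/-- **I2** (uses `Fib.StmtFace`) A separating face. Proof. `U = A ∪ F`, `W = B ∪ F`,
`Δ = ind Δ U ∪ ind Δ W`. -/
def StmtI2 : Prop := ∀ (V : Type) [Fintype V] [DecidableEq V] (Δ : Set (Finset V))
  (F A B : Finset V), HD V (vs Δ).card → InP Δ → F ∈ Δ → A ∪ B = vs Δ \ F → Disjoint A B →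
  A.Nonempty → B.Nonempty → ¬ touch Δ A B → Dg Δ

/-- **I3** (uses `G1`, `G2`, `Fib.StmtPar`) A separating pair of nonadjacent vertices. Proof. Let `a, b` be such a
pair, `C1 ≠ C2` two components of `vs Δ - {a,b}` (`exists_comp`, `exists_comp_notMem`). Every component `C`
touches `a` and `b`: `{b}` is a face, `vs Δ - b` is connected. `U = C1+a+b`, `W = vs Δ - C1`, `Γ1 = ind Δ U`,
`Γ2 = ind Δ W`, `Δ = Γ1 ∪ Γ2`, `U ∩ W = {a,b}`. `InP (ad Γ1 a b)` by `G2` with `C = C2`, `InP (ad Γ2 a b)` by `G2`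
with `C = C1`. `PP Γi a b` by `G1`, `Dg (ad Γi a b)` by `HD`. -/
def StmtI3 : Prop := ∀ (V : Type) [Fintype V] [DecidableEq V] (Δ : Set (Finset V)),
  HD V (vs Δ).card → HE V (vs Δ).card → InP Δ → Irr Δ → ¬ NoPair Δ → Dg Δ

/-- **I4** (uses `G3`, `Fib.StmtTri`) A separating hollow triangle. Proof. As `I3`: components `C1 ≠ C2` of
`vs Δ - {a,b,c}`, every component touches `a` (`{b,c}` is a face), `b` and `c`. `Δ1 = ind Δ (C1+a+b+c)`,
`Δ2 = ind Δ (vs Δ - C1)`, `InP (insert {a,b,c} Δi)` by `G3`; `HD` for `Δi` and `insert {a,b,c} Δi`. -/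
def StmtI4 : Prop := ∀ (V : Type) [Fintype V] [DecidableEq V] (Δ : Set (Finset V)) (a b c : V),
  HD V (vs Δ).card → InP Δ → Irr Δ → adj Δ a b → adj Δ a c → adj Δ b c →
  ({a, b, c} : Finset V) ∉ Δ → ¬ Conn Δ (vs Δ \ {a, b, c}) → Dg Δ

/-- **I5** (uses `A6`, `ThmS`, `H4`, `H6`, `I3`) An edge facet. Proof. If not `NoPair Δ`: `I3`. `ThmS`. `ApexD`: `H4`.
A cut vertex: `Spl Δ x y {u} X Y`. If `X ≠ {x}`: `vs Δ - {x,u} = (X - x) + Y` is not connected, so `{x,u}` is not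
a face (`Irr`), and `¬ NoPair Δ`: contradiction. Similarly `Y = {y}`. So `vs Δ = {x,u,y}`; `vs Δ - y = {x,u}` is
connected, so `x ~ u`, similarly `y ~ u`; so `u` is `ApexD`: `H4`. Crossed cones (no cut vertex): `A6`, `H6`. -/
def StmtI5 : Prop := ∀ (V : Type) [Fintype V] [DecidableEq V] (Δ : Set (Finset V)) (x y : V),
  HD V (vs Δ).card → HE V (vs Δ).card → Ctx Δ x y → Dg Δ

/-- **I6** (uses `S2`, `H7`, `I1`, ..., `I5`) All complexes of the class have Markov degree at most four. Proof.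
Strong induction on `n` for `HD V n` and `HE V n` together. (D): `vs Δ = ∅` or a cone vertex: `I1`. A face `F`
with `vs Δ - F` not connected: if it is empty then `Δ` has a cone vertex (`vs Δ ≠ ∅`, `vs Δ = F ∈ Δ`);
otherwise `not_conn`, `I2`. Otherwise `Irr Δ`, `S2`: `I5`, `I3`, `I4`. (P): `H7`. -/
def StmtI6 : Prop := ∀ (V : Type) [Fintype V] [DecidableEq V] (Δ : Set (Finset V)), InP Δ → Dg Δ

end Pool.Agent.Lib.MP_73b196_co.St
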