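import Pool.Agent.Lib.MP_73b196_co.St.FinSpec

/-!
# H2: (P) if a face `F ≠ xy` separates
-/

set_option autoImplicit false

namespace Pool.Agent.Lib.MP_73b196_co.St

open Pool.Agent.Lib.MP_73b196_co.Fib (Dg PP ad cone pw On)

variable {V : Type} [Fintype V] [DecidableEq V]

/-- Induced complexes on proper subsets have fewer vertices. -/
theorem H2_card {Δ : Set (Finset V)} {U : Finset V} {b : V} (hb : b ∈ vs Δ) (hU : b ∉ U) :
    (vs (ind Δ U)).card < (vs Δ).card := by
  rw [vs_ind]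
  refine Finset.card_lt_card ⟨Finset.inter_subset_left, fun h => ?_⟩
  exact hU (Finset.mem_inter.1 (h hb)).2

theorem H2_main (hF : Fib.StmtFaceP) {Δ : Set (Finset V)} {x y : V} {F A B : Finset V}
    (hD : HD V (vs Δ).card) (hE : HE V (vs Δ).card) (hP : InP Δ) (he : EdgeFacet Δ x y)
    (hFΔ : F ∈ Δ) (hne : F ≠ {x, y}) (hAB : A ∪ B = vs Δ \ F) (hd : Disjoint A B)
    (hA : A.Nonempty) (hB : B.Nonempty) (ht : ¬ touch Δ A B) (hx : x ∈ A ∪ F) (hy : y ∈ A ∪ F) :
    PP (del Δ x y) x y := by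
  have hcx := hP.cx
  have hAv : ∀ v ∈ A, v ∈ vs Δ ∧ v ∉ F := fun v hv =>
    Finset.mem_sdiff.1 (hAB ▸ Finset.mem_union_left B hv)
  have hBv : ∀ v ∈ B, v ∈ vs Δ ∧ v ∉ F := fun v hv =>
    Finset.mem_sdiff.1 (hAB ▸ Finset.mem_union_right A hv)
  have hdis : ∀ v ∈ A, v ∉ B := fun v hv hv' => Finset.disjoint_left.1 hd hv hv'
  have hcov : ∀ v ∈ vs Δ, v ∈ A ∨ v ∈ B ∨ v ∈ F := by
    intro v hv
    by_cases hvF : v ∈ F
    · exact Or.inr (Or.inr hvF)
    · have h1 : v ∈ A ∪ B := by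
        rw [hAB]
        exact Finset.mem_sdiff.2 ⟨hv, hvF⟩
      rcases Finset.mem_union.1 h1 with h | h
      · exact Or.inl h
      · exact Or.inr (Or.inl h)
  -- the intersection
  have hUW : (A ∪ F) ∩ (B ∪ F) = F := by
    ext v
    rw [Finset.mem_inter, Finset.mem_union, Finset.mem_union]
    constructor
    · rintro ⟨h1 | h1, h2 | h2⟩
      · exact absurd h2 (hdis v h1)
      · exact h2
      · exact h1
      · exact h1
    · exact fun h => ⟨Or.inr h, Or.inr h⟩
  -- `x` and `y` are not both in `B ∪ F`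
  have hxyW : ¬ ({x, y} : Finset V) ⊆ B ∪ F := by
    intro h
    rw [Finset.insert_subset_iff, Finset.singleton_subset_iff] at h
    have h1 : x ∈ F := by
      rw [← hUW]
      exact Finset.mem_inter.2 ⟨hx, h.1⟩
    have h2 : y ∈ F := by
      rw [← hUW]
      exact Finset.mem_inter.2 ⟨hy, h.2⟩
    exact hne (he.facet F hFΔ h1 h2)
  have hdec : del Δ x y = del (ind Δ (A ∪ F)) x y ∪ ind Δ (B ∪ F) := by
    ext G
    constructor
    · rintro ⟨hG, hGne⟩
      by_cases hGB : (G ∩ B).Nonempty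
      · refine Or.inr ⟨hG, fun v hv => ?_⟩
        obtain ⟨b, hb⟩ := hGB
        rw [Finset.mem_inter] at hb
        rcases hcov v (hcx.sub_vs hG hv) with h | h | h
        · exfalso
          refine ht ⟨v, h, b, hb.2, hcx.adj_of_face hG hv hb.1 ?_⟩
          rintro rfl
          exact hdis v h hb.2
        · exact Finset.mem_union_left _ h
        · exact Finset.mem_union_right _ h
      · refine Or.inl ⟨⟨hG, fun v hv => ?_⟩, hGne⟩
        rcases hcov v (hcx.sub_vs hG hv) with h | h | h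
        · exact Finset.mem_union_left _ h
        · exact absurd ⟨v, Finset.mem_inter.2 ⟨hv, h⟩⟩ hGB
        · exact Finset.mem_union_right _ h
    · rintro (⟨⟨hG, -⟩, hGne⟩ | ⟨hG, hGW⟩)
      · exact ⟨hG, hGne⟩
      · exact ⟨hG, fun h => hxyW (h ▸ hGW)⟩
  rw [hdec]
  obtain ⟨a, ha⟩ := hA
  obtain ⟨b, hb⟩ := hB
  have hxyU : ({x, y} : Finset V) ⊆ A ∪ F := by
    rw [Finset.insert_subset_iff, Finset.singleton_subset_iff]
    exact ⟨hx, hy⟩
  have h1 : PP (del (ind Δ (A ∪ F)) x y) x y := by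
    refine hE _ x y (H2_card (hBv b hb).1 ?_) (hP.ind _) ⟨he.ne, ⟨he.mem, hxyU⟩, ?_⟩
    · rw [Finset.mem_union]
      rintro (h | h)
      · exact hdis b h hb
      · exact (hBv b hb).2 h
    · intro G hG hxG hyG
      exact he.facet G hG.1 hxG hyG
  have h2 : Dg (ind Δ (B ∪ F)) := by
    refine hD _ (H2_card (hAv a ha).1 ?_) (hP.ind _)
    rw [Finset.mem_union]
    rintro (h | h)
    · exact hdis a ha h
    · exact (hAv a ha).2 h
  refine hF V (del (ind Δ (A ∪ F)) x y) (ind Δ (B ∪ F)) (A ∪ F) (B ∪ F) x y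
    (fun G hG => hG.1.2) (fun G hG => hG.2) ?_ ?_ hx hy h1 h2
  · rw [hUW]
    exact ⟨⟨hFΔ, Finset.subset_union_right⟩, hne⟩
  · rw [hUW]
    exact ⟨hFΔ, Finset.subset_union_right⟩

theorem tH2 (hF : Fib.StmtFaceP) : StmtH2 := by
  intro V _ _ Δ x y F A B hD hE hP he hFΔ hne hAB hd hA hB ht
  have hcx := hP.cx
  have hcov : ∀ v ∈ vs Δ, v ∈ A ∨ v ∈ B ∨ v ∈ F := by
    intro v hv
    by_cases hvF : v ∈ F
    · exact Or.inr (Or.inr hvF)
    · have h1 : v ∈ A ∪ B := by
        rw [hAB]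
        exact Finset.mem_sdiff.2 ⟨hv, hvF⟩
      rcases Finset.mem_union.1 h1 with h | h
      · exact Or.inl h
      · exact Or.inr (Or.inl h)
  have hadj : adj Δ x y := ⟨he.ne, he.mem⟩
  have hv := hcx.adj_vs hadj
  have hBA : B ∪ A = vs Δ \ F := by rw [Finset.union_comm, hAB]
  have ht' : ¬ touch Δ B A := fun h => ht (touch_symm h)
  have caseA : x ∈ A ∪ F → y ∈ A ∪ F → PP (del Δ x y) x y :=
    H2_main hF hD hE hP he hFΔ hne hAB hd hA hB ht
  have caseB : x ∈ B ∪ F → y ∈ B ∪ F → PP (del Δ x y) x y :=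
    H2_main hF hD hE hP he hFΔ hne hBA hd.symm hB hA ht'
  rcases hcov x hv.1 with hx | hx | hx <;> rcases hcov y hv.2 with hy | hy | hy
  · exact caseA (Finset.mem_union_left _ hx) (Finset.mem_union_left _ hy)
  · exact absurd ⟨x, hx, y, hy, hadj⟩ ht
  · exact caseA (Finset.mem_union_left _ hx) (Finset.mem_union_right _ hy)
  · exact absurd ⟨x, hx, y, hy, hadj⟩ ht'
  · exact caseB (Finset.mem_union_left _ hx) (Finset.mem_union_left _ hy)
  · exact caseB (Finset.mem_union_left _ hx) (Finset.mem_union_right _ hy)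
  · exact caseA (Finset.mem_union_right _ hx) (Finset.mem_union_left _ hy)
  · exact caseB (Finset.mem_union_right _ hx) (Finset.mem_union_left _ hy)
  · exact caseA (Finset.mem_union_right _ hx) (Finset.mem_union_right _ hy)

end Pool.Agent.Lib.MP_73b196_co.St
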