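import Pool.Agent.Lib.MP_73b196_co.St.HSpecC

/-!
# Theorem H: face separators of a deletion avoid the minimal component
-/

set_option autoImplicit false

namespace Pool.Agent.Lib.MP_73b196_co.St

theorem H81_main (hpi : StmtHPI) (h0 : StmtHE0) {V : Type} [Fintype V] [DecidableEq V]
    {Δ : Set (Finset V)} {W B : Finset V} {x : V} {F : Finset V} (hE : Ext Δ W B x F) {e : V}
    (he : e ∈ W) {F' P Q : Finset V} (hS : FS Δ e F' P Q) (hFW : F' ⊆ W ∪ nb Δ W)
    (hP : B ∪ (nb Δ W \ F') ⊆ P) : False := by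
  have hc := hE.bad.inP.cx
  have hconn := hE.bad.conn
  have hfull : Full Δ W B := hE.toFull
  have hQW : Q ⊆ W := by
    intro q hq
    by_contra hqW
    have hqU : q ∈ (vs Δ \ {e}) \ F' := by
      rw [← hS.un]
      exact Finset.mem_union_right _ hq
    rw [Finset.mem_sdiff, Finset.mem_sdiff, Finset.mem_singleton] at hqU
    have hqT : q ∉ nb Δ W := fun h => Finset.disjoint_left.1 hS.d
      (hP (Finset.mem_union_right _ (Finset.mem_sdiff.2 ⟨h, hqU.2⟩))) hq
    obtain ⟨E, hEc, hqE⟩ := exists_comp (Δ := Δ) (U := vs Δ \ nb Δ W) Finset.sdiff_subset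
      (Finset.mem_sdiff.2 ⟨hqU.1.1, hqT⟩)
    have hWc : IsComp Δ (vs Δ \ nb Δ W) W := hfull.comp hc
    have hEW : Disjoint E W := by
      rw [Finset.disjoint_left]
      intro v hv hvW
      have : E = W := hEc.eq_of hWc ⟨v, Finset.mem_inter.2 ⟨hv, hvW⟩⟩
      exact hqW (this ▸ hqE)
    have hEsub : E ⊆ (vs Δ \ {e}) \ F' := by
      intro v hv
      rw [Finset.mem_sdiff, Finset.mem_sdiff, Finset.mem_singleton]
      have h1 := Finset.mem_sdiff.1 (hEc.1 hv)
      refine ⟨⟨h1.1, ?_⟩, ?_⟩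
      · rintro rfl
        exact Finset.disjoint_left.1 hEW hv he
      · intro hvF
        rcases Finset.mem_union.1 (hFW hvF) with h2 | h2
        · exact Finset.disjoint_left.1 hEW hv h2
        · exact h1.2 h2
    have hEQ : E ⊆ Q := by
      refine hEc.2.1.sub_of_closed hEsub ?_ ⟨q, Finset.mem_inter.2 ⟨hqE, hq⟩⟩
      intro ht
      refine hS.nt (touch_symm (touch_mono (Finset.Subset.refl _) ?_ ht))
      intro v hv
      rw [Finset.mem_sdiff, ← hS.un, Finset.mem_union] at hv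
      exact hv.1.resolve_right hv.2
    have hnE : nb Δ E ⊆ nb Δ W := hEc.nb_sub hc
    have hnot : nb Δ E ∉ Δ := by
      refine nb_notMem hc hconn hEc.2.1 ⟨e, ?_⟩
      rw [Finset.mem_sdiff, Finset.mem_union, not_or]
      exact ⟨hfull.cA.1 he, fun h => Finset.disjoint_left.1 hEW h he,
        fun h => Finset.disjoint_left.1 nb_disj he (hnE h)⟩
    obtain ⟨t, ht, htF⟩ : ∃ t ∈ nb Δ E, t ∉ F' := by
      by_contra hn
      push Not at hn
      exact hnot (hc.down F' hS.face _ hn)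
    have htP : t ∈ P := hP (Finset.mem_union_right _ (Finset.mem_sdiff.2 ⟨hnE ht, htF⟩))
    obtain ⟨y, hy, hty⟩ := touch_single_left.1 (mem_nb.1 ht).2.2
    exact hS.nt ⟨t, htP, y, hEQ hy, hty⟩
  obtain ⟨q0, hq0⟩ := hS.neQ
  obtain ⟨X, hX, -, hXQ, hXn, -⟩ := h0 V Δ hc e F' Q P hS.symm q0 hq0
  have heX : e ∉ X := by
    intro h
    have h1 : e ∈ (vs Δ \ {e}) \ F' := by
      rw [← hS.un]
      exact Finset.mem_union_right _ (hXQ h)
    rw [Finset.mem_sdiff, Finset.mem_sdiff, Finset.mem_singleton] at h1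
    exact h1.1.2 rfl
  exact hpi V Δ W B x F hE e he X hX (hXQ.trans hQW) heX e F' hS.face hXn (Or.inl rfl)

theorem tH81 (hpi : StmtHPI) (h0 : StmtHE0) : StmtH81 := by
  intro V _ _ Δ W B x F hE e he F' P Q hS
  rw [Finset.disjoint_left]
  intro w hwF hwW
  have hc := hE.bad.inP.cx
  have hfull : Full Δ W B := hE.toFull
  have hFW : F' ⊆ W ∪ nb Δ W := by
    intro v hv
    rw [Finset.mem_union]
    by_cases hvW : v ∈ W
    · exact Or.inl hvW
    · refine Or.inr (hc.mem_nb_of hvW (touch_single_left.2 ⟨w, hwW, ?_⟩))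
      exact hc.adj_of_face hS.face hv hwF (fun h => hvW (h ▸ hwW))
  have hFB : ∀ b ∈ B, b ∉ F' := by
    intro b hb hbF
    rcases Finset.mem_union.1 (hFW hbF) with h1 | h1
    · exact Finset.disjoint_left.1 hfull.d h1 hb
    · rw [hfull.n] at h1
      exact Finset.disjoint_left.1 nb_disj hb h1
  have hRc : Conn Δ (B ∪ (nb Δ W \ F')) := by
    refine hfull.cB.attach (Finset.sdiff_subset.trans nb_sub) ?_
    intro b hb
    have h1 := (Finset.mem_sdiff.1 hb).1
    rw [hfull.n] at h1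
    exact (mem_nb.1 h1).2.2
  have hRU : B ∪ (nb Δ W \ F') ⊆ P ∪ Q := by
    rw [hS.un]
    intro v hv
    rw [Finset.mem_sdiff, Finset.mem_sdiff, Finset.mem_singleton]
    rcases Finset.mem_union.1 hv with h1 | h1
    · refine ⟨⟨hfull.cB.1 h1, ?_⟩, hFB v h1⟩
      rintro rfl
      exact Finset.disjoint_left.1 hfull.d he h1
    · rw [Finset.mem_sdiff] at h1
      refine ⟨⟨nb_sub h1.1, ?_⟩, h1.2⟩
      rintro rfl
      exact Finset.disjoint_left.1 nb_disj he h1.1
  obtain ⟨b0, hb0⟩ := hfull.cB.2.1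
  have hb0R : b0 ∈ B ∪ (nb Δ W \ F') := Finset.mem_union_left _ hb0
  rcases Finset.mem_union.1 (hRU hb0R) with h1 | h1
  · refine H81_main hpi h0 hE he hS hFW (hRc.sub_of_closed hRU ?_
      ⟨b0, Finset.mem_inter.2 ⟨hb0R, h1⟩⟩)
    intro ht
    refine hS.nt (touch_mono (Finset.Subset.refl _) ?_ ht)
    intro v hv
    rw [Finset.mem_sdiff, Finset.mem_union] at hv
    exact hv.1.resolve_left hv.2
  · refine H81_main hpi h0 hE he hS.symm hFW (hRc.sub_of_closed hRU ?_
      ⟨b0, Finset.mem_inter.2 ⟨hb0R, h1⟩⟩)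
    intro ht
    refine hS.nt (touch_symm (touch_mono (Finset.Subset.refl _) ?_ ht))
    intro v hv
    rw [Finset.mem_sdiff, Finset.mem_union] at hv
    exact hv.1.resolve_right hv.2

end Pool.Agent.Lib.MP_73b196_co.St
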