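import Pool.Agent.Lib.MP_73b196_co.St.HSpecC

/-!
# Theorem H, H82: a face separator splits the neighbourhood of the minimal near-face component
-/

set_option autoImplicit false

namespace Pool.Agent.Lib.MP_73b196_co.St

theorem tH82 (hPI : StmtHPI) (h81 : StmtH81) (h7d : StmtHT7d) : StmtH82 := by
  intro V _ _ Δ W B x F hE e he F' P Q hFS hT
  have hcx : IsCx Δ := hE.bad.inP.cx
  have hdis : Disjoint F' W := h81 V Δ W B x F hE e he F' P Q hFS
  have hW : W ⊆ vs Δ := hE.cA.1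
  have hPQ : ∀ v, v ∈ P ∪ Q ↔ (v ∈ vs Δ ∧ v ≠ e) ∧ v ∉ F' := by
    intro v
    rw [hFS.un, Finset.mem_sdiff, Finset.mem_sdiff, Finset.mem_singleton]
  have hdPQ : ∀ v, v ∈ P → v ∈ Q → False := fun v h1 h2 => Finset.disjoint_left.1 hFS.d h1 h2
  have hWP : W \ {e} ⊆ P := by
    intro w hw
    obtain ⟨X, hX, hwX⟩ := exists_comp (Δ := Δ) (U := W \ {e})
      (Finset.sdiff_subset.trans hW) hw
    have hXW : X ⊆ W := hX.1.trans Finset.sdiff_subset
    have heX : e ∉ X := fun h => by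
      have := hX.1 h
      rw [Finset.mem_sdiff, Finset.mem_singleton] at this
      exact this.2 rfl
    have hXPQ : X ⊆ P ∪ Q := by
      intro v hv
      rw [hPQ]
      exact ⟨⟨hW (hXW hv), fun h => heX (h ▸ hv)⟩,
        fun h => Finset.disjoint_left.1 hdis h (hXW hv)⟩
    by_contra hwP
    have hwQ : w ∈ Q := (Finset.mem_union.1 (hXPQ hwX)).resolve_left hwP
    have hXQ : X ⊆ Q := by
      refine hX.2.1.sub_of_closed hXPQ ?_ ⟨w, Finset.mem_inter.2 ⟨hwX, hwQ⟩⟩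
      intro ht
      refine hFS.nt (touch_symm (touch_mono (Finset.Subset.refl _) ?_ ht))
      intro v hv
      rw [Finset.mem_sdiff, Finset.mem_union] at hv
      exact hv.1.resolve_right hv.2
    refine hPI V Δ W B x F hE e he X hX.2.1 hXW heX e F' hFS.face ?_ (Or.inl rfl)
    intro v hv
    rw [Finset.mem_insert]
    obtain ⟨hv1, hv2, hv3⟩ := mem_nb.1 hv
    obtain ⟨u, hu, hvu⟩ := touch_single_left.1 hv3
    by_cases hve : v = e
    · exact Or.inl hve
    by_cases hvW : v ∈ W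
    · exact absurd (hX.mem_of_adj hu (Finset.mem_sdiff.2 ⟨hvW, by
        rw [Finset.mem_singleton]; exact hve⟩) (adj_symm hvu)) hv2
    by_cases hvF : v ∈ F'
    · exact Or.inr hvF
    have hvT : v ∈ nb Δ W :=
      hcx.mem_nb_of hvW (touch_single_left.2 ⟨u, hXW hu, hvu⟩)
    have hvP : v ∈ P := hT (Finset.mem_sdiff.2 ⟨hvT, hvF⟩)
    exact (hFS.nt ⟨v, hvP, u, hXQ hu, hvu⟩).elim
  obtain ⟨-, w, hwQ, hew⟩ := (h7d V Δ hE.bad).1 e F' P Q (hW he) hFS
  by_cases hwW : w ∈ W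
  · refine hdPQ w (hWP (Finset.mem_sdiff.2 ⟨hwW, ?_⟩)) hwQ
    rw [Finset.mem_singleton]
    exact hew.1.symm
  · have hwT : w ∈ nb Δ W :=
      hcx.mem_nb_of hwW (touch_single_left.2 ⟨e, he, adj_symm hew⟩)
    have hwF : w ∉ F' := ((hPQ w).1 (Finset.mem_union_right _ hwQ)).2
    exact hdPQ w (hT (Finset.mem_sdiff.2 ⟨hwT, hwF⟩)) hwQ

end Pool.Agent.Lib.MP_73b196_co.St
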