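import Pool.Agent.Lib.MP_73b196_co.St.HSpecC

/-!
# H82b: the face part and the near vertex lie on different sides
-/

set_option autoImplicit false

namespace Pool.Agent.Lib.MP_73b196_co.St

theorem tH82b (h82 : StmtH82) : StmtH82b := by
  intro V _ _ Δ W B x F h e he F' P Q hFS
  have cx := h.bad.inP.cx
  have heF : e ∉ F := by
    intro hh
    have h1 : e ∈ nb Δ W := by
      rw [h.eq]
      exact Finset.mem_insert_of_mem hh
    exact (mem_nb.1 h1).2.1 he
  have hxW : x ∈ nb Δ W := by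
    rw [h.eq]
    exact Finset.mem_insert_self _ _
  have hxe : x ≠ e := by
    intro hh
    rw [hh] at hxW
    exact (mem_nb.1 hxW).2.1 he
  have hsub : ∀ v ∈ F \ F', v ∈ P ∨ v ∈ Q := by
    intro v hv
    rw [Finset.mem_sdiff] at hv
    rw [← Finset.mem_union, hFS.un, Finset.mem_sdiff, Finset.mem_sdiff, Finset.mem_singleton]
    refine ⟨⟨cx.sub_vs h.face hv.1, ?_⟩, hv.2⟩
    intro hh
    rw [hh] at hv
    exact heF hv.1
  have hn1 : ¬ nb Δ W \ F' ⊆ P := h82 V Δ W B x F h e he F' P Q hFS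
  have hn2 : ¬ nb Δ W \ F' ⊆ Q := h82 V Δ W B x F h e he F' Q P hFS.symm
  have hside : F \ F' ⊆ P ∨ F \ F' ⊆ Q := by
    by_contra hh
    rw [not_or] at hh
    obtain ⟨p, hp, hpP⟩ := Finset.not_subset.1 hh.1
    obtain ⟨q, hq, hqQ⟩ := Finset.not_subset.1 hh.2
    have hpQ : p ∈ Q := (hsub p hp).resolve_left hpP
    have hqP : q ∈ P := (hsub q hq).resolve_right hqQ
    have hne : q ≠ p := by
      intro hqp
      rw [hqp] at hqP
      exact hpP hqP
    exact hFS.nt ⟨q, hqP, p, hpQ,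
      cx.adj_of_face h.face (Finset.mem_sdiff.1 hq).1 (Finset.mem_sdiff.1 hp).1 hne⟩
  have key : ∀ R : Finset V, (x ∈ F' ∨ x ∈ R) → F \ F' ⊆ R → nb Δ W \ F' ⊆ R := by
    intro R hx hR v hv
    rw [Finset.mem_sdiff, h.eq, Finset.mem_insert] at hv
    rcases hv with ⟨hv1 | hv1, hv2⟩
    · rcases hx with hx | hx
      · rw [hv1] at hv2
        exact absurd hx hv2
      · rw [hv1]
        exact hx
    · exact hR (Finset.mem_sdiff.2 ⟨hv1, hv2⟩)
  have hxF' : x ∉ F' := by
    intro hx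
    rcases hside with hs | hs
    · exact hn1 (key P (Or.inl hx) hs)
    · exact hn2 (key Q (Or.inl hx) hs)
  have hxPQ : x ∈ P ∨ x ∈ Q := by
    rw [← Finset.mem_union, hFS.un, Finset.mem_sdiff, Finset.mem_sdiff, Finset.mem_singleton]
    exact ⟨⟨nb_sub hxW, hxe⟩, hxF'⟩
  refine ⟨hxF', ?_, ?_⟩
  · rw [Finset.nonempty_iff_ne_empty]
    intro hem
    rcases hxPQ with hx | hx
    · exact hn1 (key P (Or.inr hx) (by rw [hem]; exact Finset.empty_subset _))
    · exact hn2 (key Q (Or.inr hx) (by rw [hem]; exact Finset.empty_subset _))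
  · rcases hxPQ with hx | hx
    · rcases hside with hs | hs
      · exact absurd (key P (Or.inr hx) hs) hn1
      · exact Or.inl ⟨hx, hs⟩
    · rcases hside with hs | hs
      · exact Or.inr ⟨hx, hs⟩
      · exact absurd (key Q (Or.inr hx) hs) hn2

end Pool.Agent.Lib.MP_73b196_co.St
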