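import Pool.Agent.Lib.MP_73b196_co.St.HSpecA

/-!
# Theorem H, base case, module HC1
-/

set_option autoImplicit false

namespace Pool.Agent.Lib.MP_73b196_co.St

variable {V : Type} [Fintype V] [DecidableEq V] {Δ : Set (Finset V)} {A B C D F S : Finset V}
  {a b c d i j l x y z : V}

omit [Fintype V] in
theorem HC1_s : (F ∩ {x}).Nonempty ↔ x ∈ F := by
  constructor
  · rintro ⟨u, hu⟩
    rw [Finset.mem_inter, Finset.mem_singleton] at hu
    rw [← hu.2]
    exact hu.1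
  · intro hx
    exact ⟨x, Finset.mem_inter.2 ⟨hx, Finset.mem_singleton_self x⟩⟩

omit [Fintype V] in
theorem HC1_p : (F ∩ {x, y}).Nonempty ↔ x ∈ F ∨ y ∈ F := by
  constructor
  · rintro ⟨u, hu⟩
    rw [Finset.mem_inter, Finset.mem_insert, Finset.mem_singleton] at hu
    rcases hu with ⟨hu, rfl | rfl⟩
    · exact Or.inl hu
    · exact Or.inr hu
  · rintro (h | h)
    · exact ⟨x, Finset.mem_inter.2 ⟨h, by simp⟩⟩
    · exact ⟨y, Finset.mem_inter.2 ⟨h, by simp⟩⟩

omit [Fintype V] in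
theorem HC1_fill3 : fill Δ [A, B, C] ↔
    ∃ F ∈ Δ, (F ∩ A).Nonempty ∧ (F ∩ B).Nonempty ∧ (F ∩ C).Nonempty := by
  simp [fill]

theorem HC1_cm4 (hA : Conn Δ A) (hB : Conn Δ B) (hC : Conn Δ C) (hD : Conn Δ D)
    (h1 : Disjoint A B ∧ touch Δ A B) (h2 : Disjoint A C ∧ touch Δ A C)
    (h3 : Disjoint A D ∧ touch Δ A D) (h4 : Disjoint B C ∧ touch Δ B C)
    (h5 : Disjoint B D ∧ touch Δ B D) (h6 : Disjoint C D ∧ touch Δ C D) : CM Δ [A, B, C, D] := by
  refine ⟨?_, ?_⟩
  · intro E hE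
    simp only [List.mem_cons, List.not_mem_nil, or_false] at hE
    rcases hE with rfl | rfl | rfl | rfl
    · exact hA
    · exact hB
    · exact hC
    · exact hD
  · simp only [List.pairwise_cons, List.mem_cons, List.not_mem_nil, or_false, forall_eq_or_imp,
      forall_eq]
    exact ⟨⟨h1, h2, h3⟩, ⟨h4, h5⟩, h6, by simp⟩

/-- Three pairwise nonadjacent vertices `i, c, l`, two nonadjacent common neighbours `x, z` and a further
vertex `y` adjacent to `c` and `l`: at most one of the triples `ixy`, `czy`, `cxy` is unfilled. -/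
theorem HC1_k4 (h : InP Δ) (hic : ¬ adj Δ i c) (hil : ¬ adj Δ i l) (hcl : ¬ adj Δ c l)
    (nic : i ≠ c) (nil : i ≠ l) (ncl : c ≠ l) (hxz : ¬ adj Δ x z) (nxz : x ≠ z)
    (ix : adj Δ i x) (iz : adj Δ i z) (cx : adj Δ c x) (cz : adj Δ c z) (lx : adj Δ l x)
    (lz : adj Δ l z) (ly : adj Δ l y) (cy : adj Δ c y) (niy : i ≠ y) (nxy : x ≠ y)
    (nzy : z ≠ y) :
    (({i, x, y} : Finset V) ∈ Δ ∨ ({c, z, y} : Finset V) ∈ Δ) ∧
    (({i, x, y} : Finset V) ∈ Δ ∨ ({c, x, y} : Finset V) ∈ Δ) ∧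
    (({c, z, y} : Finset V) ∈ Δ ∨ ({c, x, y} : Finset V) ∈ Δ) := by
  have hΔ := h.cx
  have hcA : Conn Δ {z, i} := conn_pair hΔ (adj_symm iz)
  have hcB : Conn Δ {x} := conn_single (hΔ.adj_vs ix).2
  have hcC : Conn Δ {c} := conn_single (hΔ.adj_vs cx).1
  have hcD : Conn Δ {y, l} := conn_pair hΔ (adj_symm ly)
  have hm : CM Δ [{z, i}, {x}, {c}, {y, l}] := by
    refine HC1_cm4 hcA hcB hcC hcD ⟨?_, i, by simp, x, by simp, ix⟩
      ⟨?_, z, by simp, c, by simp, adj_symm cz⟩ ⟨?_, z, by simp, l, by simp, adj_symm lz⟩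
      ⟨?_, x, by simp, c, by simp, adj_symm cx⟩ ⟨?_, x, by simp, l, by simp, adj_symm lx⟩
      ⟨?_, c, by simp, y, by simp, cy⟩
    · rw [Finset.disjoint_singleton_right, Finset.mem_insert, Finset.mem_singleton, not_or]
      exact ⟨nxz, ix.1.symm⟩
    · rw [Finset.disjoint_singleton_right, Finset.mem_insert, Finset.mem_singleton, not_or]
      exact ⟨cz.1, nic.symm⟩
    · simp only [Finset.disjoint_insert_right, Finset.disjoint_singleton_right, Finset.mem_insert,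
        Finset.mem_singleton, not_or]
      exact ⟨⟨nzy.symm, niy.symm⟩, lz.1, nil.symm⟩
    · rw [Finset.disjoint_singleton]
      exact cx.1.symm
    · rw [Finset.disjoint_singleton_left, Finset.mem_insert, Finset.mem_singleton, not_or]
      exact ⟨nxy, lx.1.symm⟩
    · rw [Finset.disjoint_singleton_left, Finset.mem_insert, Finset.mem_singleton, not_or]
      exact ⟨cy.1, ncl⟩
  have n1 : ¬ fill Δ [{z, i}, {x}, {c}] := by
    rw [HC1_fill3]
    rintro ⟨F, hF, h1, h2, h3⟩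
    rw [HC1_p] at h1
    rw [HC1_s] at h2 h3
    rcases h1 with h1 | h1
    · exact hxz (hΔ.adj_of_face hF h2 h1 nxz)
    · exact hic (hΔ.adj_of_face hF h1 h3 nic)
  have f2 : fill Δ [{z, i}, {x}, {y, l}] → ({i, x, y} : Finset V) ∈ Δ := by
    rw [HC1_fill3]
    rintro ⟨F, hF, h1, h2, h3⟩
    rw [HC1_p] at h1 h3
    rw [HC1_s] at h2
    rcases h1 with h1 | h1
    · exact absurd (hΔ.adj_of_face hF h2 h1 nxz) hxz
    · rcases h3 with h3 | h3
      · exact hΔ.down F hF _ (Finset.insert_subset h1 (Finset.insert_subset h2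
          (Finset.singleton_subset_iff.2 h3)))
      · exact absurd (hΔ.adj_of_face hF h1 h3 nil) hil
  have f3 : fill Δ [{z, i}, {c}, {y, l}] → ({c, z, y} : Finset V) ∈ Δ := by
    rw [HC1_fill3]
    rintro ⟨F, hF, h1, h2, h3⟩
    rw [HC1_p] at h1 h3
    rw [HC1_s] at h2
    rcases h1 with h1 | h1
    · rcases h3 with h3 | h3
      · exact hΔ.down F hF _ (Finset.insert_subset h2 (Finset.insert_subset h1
          (Finset.singleton_subset_iff.2 h3)))
      · exact absurd (hΔ.adj_of_face hF h2 h3 ncl) hcl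
    · exact absurd (hΔ.adj_of_face hF h1 h2 nic) hic
  have f4 : fill Δ [{x}, {c}, {y, l}] → ({c, x, y} : Finset V) ∈ Δ := by
    rw [HC1_fill3]
    rintro ⟨F, hF, h1, h2, h3⟩
    rw [HC1_p] at h3
    rw [HC1_s] at h1 h2
    rcases h3 with h3 | h3
    · exact hΔ.down F hF _ (Finset.insert_subset h2 (Finset.insert_subset h1
        (Finset.singleton_subset_iff.2 h3)))
    · exact absurd (hΔ.adj_of_face hF h2 h3 ncl) hcl
  refine ⟨?_, ?_, ?_⟩
  · by_contra hn
    rw [not_or] at hn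
    exact h.k4three hm n1 (fun h1 => hn.1 (f2 h1)) (fun h1 => hn.2 (f3 h1))
  · by_contra hn
    rw [not_or] at hn
    have hm' : CM Δ [{x}, {z, i}, {c}, {y, l}] := CM_perm (List.Perm.swap _ _ _) hm
    exact h.k4three hm' (fun h1 => n1 (Rules_sub h1 (by simp)))
      (fun h1 => hn.1 (f2 (Rules_sub h1 (by simp)))) (fun h1 => hn.2 (f4 h1))
  · by_contra hn
    rw [not_or] at hn
    have hm' : CM Δ [{c}, {z, i}, {x}, {y, l}] :=
      CM_perm ((List.Perm.cons _ (List.Perm.swap _ _ _)).trans (List.Perm.swap _ _ _)) hm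
    exact h.k4three hm' (fun h1 => n1 (Rules_sub h1 (by simp)))
      (fun h1 => hn.1 (f3 (Rules_sub h1 (by simp))))
      (fun h1 => hn.2 (f4 (Rules_sub h1 (by simp))))

theorem HC1_nb_sub (h : BC Δ S a b) (hc : c ∈ vs Δ \ S) : nb Δ {c} ⊆ S := by
  intro v hv
  rw [h.inP.cx.mem_nb_single] at hv
  by_contra hvS
  exact h.ind c hc v (Finset.mem_sdiff.2 ⟨(h.inP.cx.adj_vs hv).2, hvS⟩) hv

theorem HC1_nb_notMem (h : BC Δ S a b) (hc : c ∈ vs Δ \ S) : nb Δ {c} ∉ Δ := by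
  have hΔ := h.inP.cx
  refine nb_notMem hΔ h.conn (conn_single (Finset.mem_sdiff.1 hc).1) ?_
  obtain ⟨d, hd, hdc⟩ : ∃ d ∈ vs Δ \ S, d ≠ c := by
    by_cases hac : a = c
    · exact ⟨b, h.hb, fun e => h.hab (hac.trans e.symm)⟩
    · exact ⟨a, h.ha, hac⟩
  refine ⟨d, ?_⟩
  rw [Finset.mem_sdiff, Finset.mem_union, Finset.mem_singleton, not_or, hΔ.mem_nb_single]
  exact ⟨(Finset.mem_sdiff.1 hd).1, hdc, h.ind c hc d hd⟩

/-- The neighbourhood of a vertex outside `S` is no clique if `S` has no hollow triangle. -/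
theorem HC1_nb_clq (h : BC Δ S a b) (hno : ∀ x ∈ S, ∀ y ∈ S, ∀ z ∈ S, ¬ Hol Δ x y z)
    (hc : c ∈ vs Δ \ S) : ∃ x ∈ nb Δ {c}, ∃ z ∈ nb Δ {c}, x ≠ z ∧ ¬ adj Δ x z := by
  by_contra hn
  push Not at hn
  have hs := HC1_nb_sub h hc
  refine HC1_nb_notMem h hc (h.inP.mem_of_noHol ⟨nb_sub, ?_⟩ ?_)
  · intro x hx z hz hxz
    exact hn x hx z hz hxz
  · intro x hx y hy z hz
    exact hno x (hs hx) y (hs hy) z (hs hz)

/-- **HC1**: part (c) of the base case, the shape of `S`. -/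
theorem tHC1 (h0 : StmtHB0) : StmtHC1 := by
  intro V _ _ Δ S a b h hS hj3
  have hΔ := h.inP.cx
  have hno := h0 V Δ S a b h hS
  obtain ⟨j, hj, hja, hjb⟩ := hj3
  obtain ⟨x, hx, z, hz, hxz, hnxz⟩ := HC1_nb_clq h hno hj
  have hxS : x ∈ S := HC1_nb_sub h hj hx
  have hzS : z ∈ S := HC1_nb_sub h hj hz
  rw [hΔ.mem_nb_single] at hx hz
  have hne : ∀ c ∈ vs Δ \ S, ∀ s ∈ S, c ≠ s := by
    rintro c hc s hs rfl
    exact (Finset.mem_sdiff.1 hc).2 hs
  have hnzx : ¬ adj Δ z x := fun h1 => hnxz (adj_symm h1)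
  have hay : ∀ y ∈ S, y ≠ x → y ≠ z → adj Δ y x ∧ adj Δ y z := by
    intro y hy hyx hyz
    have k1 := HC1_k4 (i := j) (c := a) (l := b) (x := x) (z := z) (y := y) h.inP
      (h.ind j hj a h.ha) (h.ind j hj b h.hb) (h.ind a h.ha b h.hb) hja hjb h.hab hnxz hxz hx hz
      (h.sa x hxS) (h.sa z hzS) (h.sb x hxS) (h.sb z hzS) (h.sb y hy) (h.sa y hy)
      (hne j hj y hy) hyx.symm hyz.symm
    have k2 := HC1_k4 (i := j) (c := a) (l := b) (x := z) (z := x) (y := y) h.inP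
      (h.ind j hj a h.ha) (h.ind j hj b h.hb) (h.ind a h.ha b h.hb) hja hjb h.hab hnzx hxz.symm hz
      hx (h.sa z hzS) (h.sa x hxS) (h.sb z hzS) (h.sb x hxS) (h.sb y hy) (h.sa y hy)
      (hne j hj y hy) hyz.symm hyx.symm
    refine ⟨?_, ?_⟩
    · rcases k1.2.1 with h1 | h1
      · exact hΔ.adj_of_face h1 (by simp) (by simp) hyx
      · exact hΔ.adj_of_face h1 (by simp) (by simp) hyx
    · rcases k2.2.1 with h1 | h1
      · exact hΔ.adj_of_face h1 (by simp) (by simp) hyz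
      · exact hΔ.adj_of_face h1 (by simp) (by simp) hyz
  have hpl : Pl Δ {a} {b} := by
    refine ⟨conn_single (Finset.mem_sdiff.1 h.ha).1, conn_single (Finset.mem_sdiff.1 h.hb).1, ?_, ?_⟩
    · rw [Finset.disjoint_singleton]
      exact h.hab
    · rw [touch_single]
      exact h.ind a h.ha b h.hb
  have hcom : ∀ s ∈ S, Com Δ {a} {b} s := by
    intro s hs
    refine ⟨?_, ?_, ?_, ?_⟩
    · rw [Finset.mem_singleton]
      exact (hne a h.ha s hs).symm
    · rw [Finset.mem_singleton]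
      exact (hne b h.hb s hs).symm
    · rw [touch_single]
      exact adj_symm (h.sa s hs)
    · rw [touch_single]
      exact adj_symm (h.sb s hs)
  have hyy : ∀ y ∈ S, ∀ y' ∈ S, y ≠ x → y ≠ z → y' ≠ x → y' ≠ z → y ≠ y' → adj Δ y y' := by
    intro y hy y' hy' hyx hyz hy'x hy'z hyy'
    by_contra hn
    have e1 := hay y hy hyx hyz
    have e2 := hay y' hy' hy'x hy'z
    exact Pl.r6 h.inP hpl (hcom x hxS) (hcom y hy) (hcom z hzS) (hcom y' hy') (adj_symm e1.1) e1.2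
      (adj_symm e2.2) e2.1 hnxz hn hxz hyy'
  have hax : ∀ c ∈ vs Δ \ S, adj Δ c x ∧ adj Δ c z := by
    intro c hc
    obtain ⟨s, hs, t, ht, hst, hnst⟩ := HC1_nb_clq h hno hc
    have hsS := HC1_nb_sub h hc hs
    have htS := HC1_nb_sub h hc ht
    rw [hΔ.mem_nb_single] at hs ht
    by_cases hsx : s = x
    · subst hsx
      by_cases htz : t = z
      · subst htz
        exact ⟨hs, ht⟩
      · exact absurd (adj_symm (hay t htS (Ne.symm hst) htz).1) hnst
    · by_cases hsz : s = z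
      · subst hsz
        by_cases htx : t = x
        · subst htx
          exact ⟨ht, hs⟩
        · exact absurd (adj_symm (hay t htS htx (Ne.symm hst)).2) hnst
      · by_cases htx : t = x
        · subst htx
          exact absurd (hay s hsS hsx hsz).1 hnst
        · by_cases htz : t = z
          · subst htz
            exact absurd (hay s hsS hsx hsz).2 hnst
          · exact absurd (hyy s hsS t htS hsx hsz htx htz hst) hnst
  exact ⟨x, z, { h with
    j3 := ⟨j, hj, hja, hjb⟩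
    hx := hxS
    hz := hzS
    xz := hxz
    nxz := hnxz
    ax := hax
    ay := hay
    yy := hyy
    noHol := hno }⟩

end Pool.Agent.Lib.MP_73b196_co.St
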