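import Pool.Agent.Lib.MP_73b196_co.St.HSpecB

/-!
# Theorem H, module HT6 (Lemma Z)
-/

set_option autoImplicit false

namespace Pool.Agent.Lib.MP_73b196_co.St

variable {V : Type} [Fintype V] [DecidableEq V] {Δ : Set (Finset V)} {A B C D F S : Finset V}
  {a b c d i j l x y z : V}

/-- Adding a vertex to a face: pairs and triples suffice. -/
theorem HT6_ins (h : InP Δ) (hF : F ∈ Δ) (hc : c ∈ vs Δ) (h1 : ∀ f ∈ F, f ≠ c → adj Δ c f)
    (h2 : ∀ f ∈ F, ∀ g ∈ F, f ≠ c → g ≠ c → f ≠ g → ({c, f, g} : Finset V) ∈ Δ) :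
    insert c F ∈ Δ := by
  have hΔ := h.cx
  refine h.clq_mem ⟨?_, ?_⟩ ?_
  · exact Finset.insert_subset hc (hΔ.sub_vs hF)
  · intro u hu v hv huv
    rw [Finset.mem_insert] at hu hv
    rcases hu with rfl | hu <;> rcases hv with rfl | hv
    · exact absurd rfl huv
    · exact h1 v hv (Ne.symm huv)
    · exact adj_symm (h1 u hu huv)
    · exact hΔ.adj_of_face hF hu hv huv
  · intro u hu v hv w hw huv huw hvw
    rw [Finset.mem_insert] at hu hv hw
    by_cases hup : u = c
    · subst hup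
      have hv' : v ∈ F := hv.resolve_left (Ne.symm huv)
      have hw' : w ∈ F := hw.resolve_left (Ne.symm huw)
      exact h2 v hv' w hw' (Ne.symm huv) (Ne.symm huw) hvw
    · have hu' : u ∈ F := hu.resolve_left hup
      by_cases hvp : v = c
      · subst hvp
        have hw' : w ∈ F := hw.resolve_left (Ne.symm hvw)
        have h3 := h2 u hu' w hw' huv (Ne.symm hvw) huw
        rwa [Finset.insert_comm] at h3
      · have hv' : v ∈ F := hv.resolve_left hvp
        by_cases hwp : w = c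
        · subst hwp
          have h3 := h2 u hu' v hv' huw hvw huv
          have e1 : ({w, u, v} : Finset V) = {u, v, w} := by
            rw [Finset.insert_comm, Finset.pair_comm]
          rwa [e1] at h3
        · have hw' : w ∈ F := hw.resolve_left hwp
          exact hΔ.down F hF _ (Finset.insert_subset hu' (Finset.insert_subset hv'
            (Finset.singleton_subset_iff.2 hw')))

omit [Fintype V] in
theorem HT6_rot (h : ({x, y, z} : Finset V) ∈ Δ) : ({z, x, y} : Finset V) ∈ Δ := by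
  have e1 : ({z, x, y} : Finset V) = {x, y, z} := by
    rw [Finset.insert_comm, Finset.pair_comm]
  rw [e1]
  exact h

/-- **HT6**: Lemma Z. -/
theorem tHT6 : StmtHT6 := by
  intro V _ _ Δ h a B hmop z hz v hv hvz hnzv hns
  have hΔ := h.inP.cx
  have hpl : Pl Δ {a} B := hmop.pl hΔ
  have hcom : ∀ s ∈ nb Δ {a}, Com Δ {a} B s := fun s hs => hmop.com hs
  have haz : adj Δ a z := hΔ.mem_nb_single.1 hz
  have hav : adj Δ a v := hΔ.mem_nb_single.1 hv
  have haB : ∀ y ∈ B, ¬ adj Δ a y := fun y hy h1 =>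
    hpl.n (touch_single_left.2 ⟨y, hy, h1⟩)
  have haB' : a ∉ B := fun h1 => Finset.disjoint_left.1 hmop.d (Finset.mem_singleton_self a) h1
  have hSB : ∀ s ∈ nb Δ {a}, s ∉ B ∧ ∃ y ∈ B, adj Δ s y := fun s hs =>
    ⟨(hcom s hs).2.1, touch_single_left.1 (hcom s hs).2.2.2⟩
  have hno : ∀ x ∈ nb Δ {a}, ∀ y ∈ nb Δ {a}, ∀ w ∈ nb Δ {a}, ¬ Hol Δ x y w := by
    intro x hx y hy w hw hh
    exact hnzv (Pl.r2 h.inP hpl (hcom x hx) (hcom y hy) (hcom w hw) hh (hcom z hz) (hcom v hv)
      (Ne.symm hvz))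
  have hvs := vs_con_edge hΔ haz
  obtain ⟨c, hc⟩ := h.con_apex haz hns
  have hcv : c ∈ vs Δ \ {a} := by
    rw [← hvs, mem_vs]
    exact hc ∅ (hΔ.con).empty
  rw [Finset.mem_sdiff, Finset.mem_singleton] at hcv
  obtain ⟨hcv, hca⟩ := hcv
  -- (1)
  have hcz : c ≠ z := by
    rintro rfl
    obtain ⟨y, hy, hvy⟩ := (hSB v hv).2
    have hya : a ≠ y := fun e => haB' (e ▸ hy)
    have hyc : c ≠ y := fun e => (hSB c hz).1 (e ▸ hy)
    have na : a ∉ ({v, y} : Finset V) := by
      rw [Finset.mem_insert, Finset.mem_singleton, not_or]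
      exact ⟨hav.1, hya⟩
    have nc : c ∉ ({v, y} : Finset V) := by
      rw [Finset.mem_insert, Finset.mem_singleton, not_or]
      exact ⟨Ne.symm hvz, hyc⟩
    have h1 := hc {v, y} ((mem_con_avoid hΔ na nc).2 hvy.2)
    rcases (mem_con_insert hΔ haz.1 na nc).1 h1 with h2 | h2
    · exact hnzv (hΔ.adj_of_face h2 (by simp) (by simp) (Ne.symm hvz))
    · exact haB y hy (hΔ.adj_of_face h2 (by simp) (by simp) hya)
  -- (3)
  have h3 : ∀ F ∈ Δ, a ∉ F → z ∉ F → insert c F ∈ Δ := by
    intro F hF haF hzF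
    refine (mem_con_avoid hΔ ?_ ?_).1 (hc F ((mem_con_avoid hΔ haF hzF).2 hF))
    · rw [Finset.mem_insert, not_or]
      exact ⟨Ne.symm hca, haF⟩
    · rw [Finset.mem_insert, not_or]
      exact ⟨Ne.symm hcz, hzF⟩
  -- the general step for faces with the contracted vertex
  have hstep : ∀ x, x ≠ a → x ≠ z → (({z, x} : Finset V) ∈ Δ ∨ ({a, x} : Finset V) ∈ Δ) →
      ({z, c, x} : Finset V) ∈ Δ ∨ ({a, c, x} : Finset V) ∈ Δ := by
    intro x hxa hxz hx
    have h1 : insert z ({x} : Finset V) ∈ con Δ {a, z} z :=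
      (mem_con_insert hΔ haz.1 (by
        rw [Finset.mem_singleton]
        exact Ne.symm hxa) (by
        rw [Finset.mem_singleton]
        exact Ne.symm hxz)).2 hx
    have h2 := hc _ h1
    rw [Finset.insert_comm] at h2
    refine (mem_con_insert hΔ haz.1 ?_ ?_).1 h2
    · rw [Finset.mem_insert, Finset.mem_singleton, not_or]
      exact ⟨Ne.symm hca, Ne.symm hxa⟩
    · rw [Finset.mem_insert, Finset.mem_singleton, not_or]
      exact ⟨Ne.symm hcz, Ne.symm hxz⟩
  -- (4)
  have h4 : adj Δ c z := by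
    obtain ⟨y, hy, hzy⟩ := (hSB z hz).2
    have hya : y ≠ a := fun e => haB' (e ▸ hy)
    by_cases hyc : y = c
    · subst hyc
      exact adj_symm hzy
    · rcases hstep y hya hzy.1.symm (Or.inl hzy.2) with h1 | h1
      · exact hΔ.adj_of_face h1 (by simp) (by simp) hcz
      · exact absurd (hΔ.adj_of_face h1 (by simp) (by simp) (Ne.symm hya)) (haB y hy)
  -- (5)
  have h5 : ∀ x, adj Δ z x → x ≠ a → x ≠ c → ({z, c, x} : Finset V) ∈ Δ := by
    intro x hzx hxa hxc
    rcases hstep x hxa hzx.1.symm (Or.inl hzx.2) with h1 | h1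
    · exact h1
    · by_contra hn
      have hax : adj Δ a x := hΔ.adj_of_face h1 (by simp) (by simp) (Ne.symm hxa)
      have hac : adj Δ a c := hΔ.adj_of_face h1 (by simp) (by simp) (Ne.symm hca)
      have hcx : adj Δ c x := hΔ.adj_of_face h1 (by simp) (by simp) (Ne.symm hxc)
      exact hno z hz c (hΔ.mem_nb_single.2 hac) x (hΔ.mem_nb_single.2 hax)
        ⟨adj_symm h4, hzx, hcx, hn⟩
  -- (6)
  have h6 : ConesDel Δ a c := by
    refine ⟨hca, ?_⟩
    intro F hF haF
    by_cases hzF : z ∈ F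
    · have hE : F.erase z ∈ Δ := hΔ.down F hF _ (Finset.erase_subset z F)
      have hE' : insert c (F.erase z) ∈ Δ :=
        h3 _ hE (fun h1 => haF (Finset.mem_of_mem_erase h1)) (Finset.notMem_erase z F)
      refine HT6_ins h.inP hF hcv ?_ ?_
      · intro f hf hfc
        by_cases hfz : f = z
        · subst hfz
          exact h4
        · exact hΔ.adj_of_face hE' (Finset.mem_insert_self _ _)
            (Finset.mem_insert_of_mem (Finset.mem_erase.2 ⟨hfz, hf⟩)) (Ne.symm hfc)
      · intro f hf g hg hfc hgc hfg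
        by_cases hfz : f = z
        · subst hfz
          have h7 := h5 g (hΔ.adj_of_face hF hf hg hfg) (fun e => haF (e ▸ hg)) hgc
          rwa [Finset.insert_comm] at h7
        · by_cases hgz : g = z
          · subst hgz
            have h7 := h5 f (hΔ.adj_of_face hF hg hf (Ne.symm hfg)) (fun e => haF (e ▸ hf)) hfc
            exact HT6_rot (HT6_rot h7)
          · exact hΔ.down _ hE' _ (Finset.insert_subset (Finset.mem_insert_self _ _)
              (Finset.insert_subset (Finset.mem_insert_of_mem (Finset.mem_erase.2 ⟨hfz, hf⟩))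
                (Finset.singleton_subset_iff.2
                  (Finset.mem_insert_of_mem (Finset.mem_erase.2 ⟨hgz, hg⟩)))))
    · exact h3 F hF haF hzF
  -- (7)
  have h7 : ∀ t ∈ nb Δ {a}, t ≠ z → ¬ adj Δ z t → ({a, c, t} : Finset V) ∈ Δ := by
    intro t ht htz hnt
    have hat : adj Δ a t := hΔ.mem_nb_single.1 ht
    rcases hstep t hat.1.symm htz (Or.inr hat.2) with h8 | h8
    · exact absurd (hΔ.adj_of_face h8 (by simp) (by simp) (Ne.symm htz)) hnt
    · exact h8
  have hac : adj Δ a c :=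
    hΔ.adj_of_face (h7 v hv hvz hnzv) (by simp) (by simp) (Ne.symm hca)
  have hcS : c ∈ nb Δ {a} := hΔ.mem_nb_single.2 hac
  have hadj : ∀ v ∈ vs Δ, v ≠ c → adj Δ c v := by
    intro w hw hwc
    by_cases hwa : w = a
    · subst hwa
      exact adj_symm hac
    · have h8 := h6.2 {w} (mem_vs.1 hw) (by
        rw [Finset.mem_singleton]
        exact Ne.symm hwa)
      exact hΔ.adj_of_face h8 (by simp) (by simp) (Ne.symm hwc)
  -- (8)
  have hkey : ∀ x ∈ nb Δ {a}, x ≠ c → ({a, c, x} : Finset V) ∉ Δ → x = z := by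
    intro x hx hxc hnx
    by_contra hxz
    have hzx : adj Δ z x := by
      by_contra hn
      exact hnx (h7 x hx hxz hn)
    have h8 := Pl.r3 h.inP hpl (hcom z hz) (hcom v hv) (hcom c hcS) (hcom x hx) (Ne.symm hvz) hnzv
      (fun e => hnzv (e ▸ adj_symm h4)) (fun e => hnzv (e ▸ hzx))
      (hadj x (hΔ.adj_vs hzx).2 hxc) h4 (adj_symm hzx)
    exact hnx (hΔ.fill_three.1 h8.1)
  have hex : ∃ x ∈ nb Δ {a}, x ≠ c ∧ ({a, c, x} : Finset V) ∉ Δ := by
    by_contra hn
    push Not at hn
    refine h.noApex c (h.inP.apex_of hcv hadj ?_)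
    intro u w huw huc hwc
    by_cases hua : u = a
    · subst hua
      have h8 := hn w (hΔ.mem_nb_single.2 huw) hwc
      rwa [Finset.insert_comm] at h8
    · by_cases hwa : w = a
      · subst hwa
        exact HT6_rot (HT6_rot (hn u (hΔ.mem_nb_single.2 (adj_symm huw)) huc))
      · exact h6.2 {u, w} huw.2 (by
          rw [Finset.mem_insert, Finset.mem_singleton, not_or]
          exact ⟨Ne.symm hua, Ne.symm hwa⟩)
  obtain ⟨x, hx, hxc, hnx⟩ := hex
  have hxz := hkey x hx hxc hnx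
  subst hxz
  refine ⟨c, hcS, hcz, h6, hnx, ?_⟩
  intro w hw hwc hwx
  by_contra hn
  exact hwx (hkey w hw hwc hn)

end Pool.Agent.Lib.MP_73b196_co.St
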