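import Pool.Agent.Lib.MP_73b196_co.St.HSpecC
import Pool.Agent.Lib.MP_73b196_co.St.HT6
import Pool.Agent.Lib.MP_73b196_co.St.HC1

/-!
# Theorem H, module H83
-/

set_option autoImplicit false

namespace Pool.Agent.Lib.MP_73b196_co.St

variable {V : Type} [Fintype V] [DecidableEq V] {Δ : Set (Finset V)} {A B C D E F F1 S X : Finset V}
  {a b c d e f f' f2 g i j l x y z : V}

theorem H83_cm5 (hA : Conn Δ A) (hB : Conn Δ B) (hC : Conn Δ C) (hD : Conn Δ D) (hE : Conn Δ E)
    (h1 : Disjoint A B ∧ touch Δ A B) (h2 : Disjoint A C ∧ touch Δ A C)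
    (h3 : Disjoint A D ∧ touch Δ A D) (h4 : Disjoint A E ∧ touch Δ A E)
    (h5 : Disjoint B C ∧ touch Δ B C) (h6 : Disjoint B D ∧ touch Δ B D)
    (h7 : Disjoint B E ∧ touch Δ B E) (h8 : Disjoint C D ∧ touch Δ C D)
    (h9 : Disjoint C E ∧ touch Δ C E) (h10 : Disjoint D E ∧ touch Δ D E) :
    CM Δ [A, B, C, D, E] := by
  refine ⟨?_, ?_⟩
  · intro G hG
    simp only [List.mem_cons, List.not_mem_nil, or_false] at hG
    rcases hG with rfl | rfl | rfl | rfl | rfl
    · exact hA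
    · exact hB
    · exact hC
    · exact hD
    · exact hE
  · simp only [List.pairwise_cons, List.mem_cons, List.not_mem_nil, or_false, forall_eq_or_imp,
      forall_eq]
    exact ⟨⟨h1, h2, h3, h4⟩, ⟨h5, h6, h7⟩, ⟨h8, h9⟩, h10, by simp⟩

theorem H83_ss (h : adj Δ x y) : Disjoint ({x} : Finset V) {y} ∧ touch Δ {x} {y} :=
  ⟨Finset.disjoint_singleton.2 h.1, touch_single.2 h⟩

theorem H83_sc (hx : x ∉ C) (ht : touch Δ {x} C) : Disjoint ({x} : Finset V) C ∧ touch Δ {x} C :=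
  ⟨Finset.disjoint_singleton_left.2 hx, ht⟩

theorem H83_sw (h : Disjoint A B ∧ touch Δ A B) : Disjoint B A ∧ touch Δ B A :=
  ⟨h.1.symm, touch_symm h.2⟩

/-- A vertex whose union with a face is no face, although it is adjacent to all of the face. -/
theorem H83_hol (h : InP Δ) (hF : F ∈ Δ) (hc : c ∈ vs Δ) (hcF : c ∉ F)
    (h1 : ∀ f ∈ F, adj Δ c f) (hn : insert c F ∉ Δ) : ∃ f ∈ F, ∃ g ∈ F, Hol Δ c f g := by
  by_contra hno
  push Not at hno
  refine hn (HT6_ins h hF hc (fun f hf _ => h1 f hf) ?_)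
  intro f hf g hg _ _ hfg
  by_contra hfg'
  exact hno f hf g hg ⟨h1 f hf, h1 g hg, h.cx.adj_of_face hF hf hg hfg, hfg'⟩

/-- The clique case, with the names fixed. -/
theorem H83_clq (h : InP Δ) (hf : Full Δ X C) (hK : Clq Δ (nb Δ X)) (he : e ∈ nb Δ X)
    (hx : x ∈ nb Δ X) (hff : f ∈ nb Δ X) (hff' : f' ∈ nb Δ X) (hex : e ≠ x) (hef : e ≠ f)
    (hef' : e ≠ f') (hxf : x ≠ f) (hxf' : x ≠ f') (hne : f ≠ f')
    (hn : ({x, f, f'} : Finset V) ∉ Δ) (h1 : ¬ fill Δ [C, {e}, {f}]) : False := by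
  have hΔ := h.cx
  have hcom : ∀ s ∈ nb Δ X, s ∉ C ∧ touch Δ {s} C := fun s hs =>
    ⟨(hf.com hs).2.1, (hf.com hs).2.2.2⟩
  have hadj : ∀ s ∈ nb Δ X, ∀ t ∈ nb Δ X, s ≠ t → adj Δ s t := hK.2
  have hv : ∀ s ∈ nb Δ X, s ∈ vs Δ := fun s hs => hK.1 hs
  have hm : CM Δ [{f}, C, {e}, {x}, {f'}] := by
    refine H83_cm5 (conn_single (hv f hff)) hf.cB (conn_single (hv e he)) (conn_single (hv x hx))
      (conn_single (hv f' hff')) (H83_sc (hcom f hff).1 (hcom f hff).2)
      (H83_ss (hadj f hff e he (Ne.symm hef))) (H83_ss (hadj f hff x hx (Ne.symm hxf)))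
      (H83_ss (hadj f hff f' hff' hne)) (H83_sw (H83_sc (hcom e he).1 (hcom e he).2))
      (H83_sw (H83_sc (hcom x hx).1 (hcom x hx).2))
      (H83_sw (H83_sc (hcom f' hff').1 (hcom f' hff').2)) (H83_ss (hadj e he x hx hex))
      (H83_ss (hadj e he f' hff' hef')) (H83_ss (hadj x hx f' hff' hxf'))
  rcases h.k5 _ _ _ _ _ hm with h2 | h2
  · exact h1 (Rules_sub h2 (by simp))
  · rw [hΔ.fill_three] at h2
    refine hn ?_
    rwa [Finset.insert_comm] at h2

/-- **H83**. -/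
theorem tH83 : StmtH83 := by
  intro V _ _ Δ h X C B F1 e x f2 hf hN hex heF hxF hB hBC hf2C hf2B hf2t hef2 hxf2 heB hxB hFB hf2F
    hneF hnxF
  have hΔ := h.cx
  have hpl : Pl Δ X C := hf.pl hΔ
  have hcom : ∀ s ∈ nb Δ X, Com Δ X C s := fun s hs => hf.com hs
  have heN : e ∈ nb Δ X := by
    rw [hN]
    exact Finset.mem_insert_self _ _
  have hxN : x ∈ nb Δ X := by
    rw [hN]
    exact Finset.mem_insert_of_mem (Finset.mem_insert_self _ _)
  have hFN : ∀ f ∈ F1, f ∈ nb Δ X := by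
    intro f hf'
    rw [hN]
    exact Finset.mem_insert_of_mem (Finset.mem_insert_of_mem hf')
  have hF1 : F1 ∈ Δ := hΔ.down _ hf2F _ (Finset.subset_insert _ _)
  have hev : e ∈ vs Δ := nb_sub heN
  have hxv : x ∈ vs Δ := nb_sub hxN
  have hfv : ∀ f ∈ F1, f ∈ vs Δ := fun f hf' => nb_sub (hFN f hf')
  have hf2v : f2 ∈ vs Δ := (hΔ.adj_vs hef2).2
  have hff2 : ∀ f ∈ F1, f ≠ f2 := by
    rintro f hf' rfl
    exact (hcom f (hFN f hf')).2.1 hf2C
  have hadjf2 : ∀ f ∈ F1, adj Δ f f2 := fun f hf' =>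
    hΔ.adj_of_face hf2F (Finset.mem_insert_of_mem hf') (Finset.mem_insert_self _ _) (hff2 f hf')
  have hadjF : ∀ f ∈ F1, ∀ g ∈ F1, f ≠ g → adj Δ f g := fun f hf' g hg hfg =>
    hΔ.adj_of_face hF1 hf' hg hfg
  have hnoface : ∀ F ∈ Δ, (F ∩ X).Nonempty → ∀ v ∈ F, v ∉ C := by
    intro F hF h1 v hv hvC
    exact hpl.no_face hΔ hF h1 ⟨v, Finset.mem_inter.2 ⟨hv, hvC⟩⟩
  have heC : e ∉ C := (hcom e heN).2.1
  have hxC : x ∉ C := (hcom x hxN).2.1
  have heX : e ∉ X := (hcom e heN).1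
  have hxX : x ∉ X := (hcom x hxN).1
  have hXC : ∀ v ∈ X, v ∉ C := fun v hv hvC => Finset.disjoint_left.1 hf.d hv hvC
  have hxf2' : x ≠ f2 := fun e' => hxC (e' ▸ hf2C)
  by_cases hK : Clq Δ (nb Δ X)
  · -- (2)
    have hadj : ∀ s ∈ nb Δ X, ∀ t ∈ nb Δ X, s ≠ t → adj Δ s t := hK.2
    have hne : ∀ f ∈ F1, e ≠ f ∧ x ≠ f := by
      intro f hf'
      exact ⟨fun e' => heF (e' ▸ hf'), fun e' => hxF (e' ▸ hf')⟩
    obtain ⟨f, hf1, f', hf1', hh⟩ := H83_hol h hF1 hev heF
      (fun f hf' => hadj e heN f (hFN f hf') (hne f hf').1) hneF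
    obtain ⟨g, hg1, g', hg1', hh'⟩ := H83_hol h hF1 hxv hxF
      (fun f hf' => hadj x hxN f (hFN f hf') (hne f hf').2) hnxF
    have hshare := h.hol_share hK heN (hFN f hf1) (hFN f' hf1') hxN (hFN g hg1) (hFN g' hg1') hh hh'
    have hff' : f ≠ f' := hh.2.2.1.1
    -- `{f, f'} = {g, g'}`
    have hsub : ({e, f, f'} : Finset V) ∩ {x, g, g'} ⊆ ({f, f'} : Finset V) ∩ {g, g'} := by
      intro v hv
      simp only [Finset.mem_inter, Finset.mem_insert, Finset.mem_singleton] at hv ⊢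
      obtain ⟨hv1, hv2⟩ := hv
      have e1 : v ≠ e := by
        rintro rfl
        rcases hv2 with h3 | h3 | h3
        · exact hex h3
        · exact (hne g hg1).1 h3
        · exact (hne g' hg1').1 h3
      have e2 : v ≠ x := by
        rintro rfl
        rcases hv1 with h3 | h3 | h3
        · exact hex h3.symm
        · exact (hne f hf1).2 h3
        · exact (hne f' hf1').2 h3
      exact ⟨hv1.resolve_left e1, hv2.resolve_left e2⟩
    have h2 : 2 ≤ (({f, f'} : Finset V) ∩ {g, g'}).card := hshare.trans (Finset.card_le_card hsub)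
    have h3 : ({f, f'} : Finset V) ∩ {g, g'} = {f, f'} := by
      refine Finset.eq_of_subset_of_card_le Finset.inter_subset_left ?_
      rw [Finset.card_pair hff']
      exact h2
    have h4 : ({f, f'} : Finset V) ⊆ {g, g'} := by
      rw [← h3]
      exact Finset.inter_subset_right
    have h5 : ({f, f'} : Finset V) = {g, g'} := by
      refine Finset.eq_of_subset_of_card_le h4 ?_
      rw [Finset.card_pair hff', Finset.card_pair hh'.2.2.1.1]
    have hnx : ({x, f, f'} : Finset V) ∉ Δ := by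
      have e1 : ({x, f, f'} : Finset V) = {x, g, g'} := by
        rw [h5]
      rw [e1]
      exact hh'.2.2.2
    have hfill : fill Δ [C, {f}, {f'}] := by
      refine ⟨_, hf2F, ?_⟩
      intro E hE
      simp only [List.mem_cons, List.not_mem_nil, or_false] at hE
      rcases hE with rfl | rfl | rfl
      · exact ⟨f2, Finset.mem_inter.2 ⟨Finset.mem_insert_self _ _, hf2C⟩⟩
      · exact ⟨f, Finset.mem_inter.2 ⟨Finset.mem_insert_of_mem hf1, by simp⟩⟩
      · exact ⟨f', Finset.mem_inter.2 ⟨Finset.mem_insert_of_mem hf1', by simp⟩⟩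
    have hr5 := Pl.r5 h hpl.symm (hcom e heN).symm (hcom f (hFN f hf1)).symm
      (hcom f' (hFN f' hf1')).symm hh
    by_cases h6 : fill Δ [C, {e}, {f}]
    · by_cases h7 : fill Δ [C, {e}, {f'}]
      · exact hr5 ⟨h6, h7, hfill⟩
      · refine H83_clq h hf hK heN hxN (hFN f' hf1') (hFN f hf1) hex (hne f' hf1').1 (hne f hf1).1
          (hne f' hf1').2 (hne f hf1).2 hff'.symm ?_ h7
        rw [Finset.pair_comm]
        exact hnx
    · exact H83_clq h hf hK heN hxN (hFN f hf1) (hFN f' hf1') hex (hne f hf1).1 (hne f' hf1').1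
        (hne f hf1).2 (hne f' hf1').2 hff' hnx h6
  · -- (1)
    have hno : ∀ u ∈ nb Δ X, ∀ v ∈ nb Δ X, ∀ w ∈ nb Δ X, ¬ Hol Δ u v w := by
      intro u hu v hv w hw hh
      refine hK ⟨nb_sub, ?_⟩
      intro s hs t ht hst
      exact Pl.r2 h hpl (hcom u hu) (hcom v hv) (hcom w hw) hh (hcom s hs) (hcom t ht) hst
    have hex1 : ∀ u ∈ nb Δ X, u ∉ F1 → insert u F1 ∉ Δ → ∃ f ∈ F1, ¬ adj Δ u f := by
      intro u hu huF hn
      by_contra hno'
      push Not at hno'
      obtain ⟨f, hf1, g, hg1, hh⟩ := H83_hol h hF1 (nb_sub hu) huF hno' hn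
      exact hno u hu f (hFN f hf1) g (hFN g hg1) hh
    obtain ⟨f, hfF, hnef⟩ := hex1 e heN heF hneF
    obtain ⟨g, hgF, hnxg⟩ := hex1 x hxN hxF hnxF
    have hfN := hcom f (hFN f hfF)
    have hgN := hcom g (hFN g hgF)
    have hcBx : Conn Δ (insert x B) := hB.insert hxv hxB
    have hcef : Conn Δ {e, f2} := conn_pair hΔ hef2
    have d1 : Disjoint X (insert x B) := by
      rw [Finset.disjoint_insert_right]
      exact ⟨hxX, hf.d.mono_right hBC⟩
    have d2 : Disjoint X ({e, f2} : Finset V) := by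
      rw [Finset.disjoint_insert_right, Finset.disjoint_singleton_right]
      exact ⟨heX, fun h1 => hXC f2 h1 hf2C⟩
    have d3 : Disjoint (insert x B) ({e, f2} : Finset V) := by
      rw [Finset.disjoint_insert_right, Finset.disjoint_singleton_right, Finset.mem_insert,
        Finset.mem_insert, not_or, not_or]
      exact ⟨⟨hex, fun h1 => heC (hBC h1)⟩, hxf2'.symm, hf2B⟩
    have d4 : ∀ s ∈ F1, Disjoint ({s} : Finset V) (insert x B) := by
      intro s hs
      rw [Finset.disjoint_singleton_left, Finset.mem_insert, not_or]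
      exact ⟨fun e' => hxF (e' ▸ hs), fun h1 => (hcom s (hFN s hs)).2.1 (hBC h1)⟩
    have d5 : ∀ s ∈ F1, Disjoint ({s} : Finset V) ({e, f2} : Finset V) := by
      intro s hs
      rw [Finset.disjoint_singleton_left, Finset.mem_insert, Finset.mem_singleton, not_or]
      exact ⟨fun e' => heF (e' ▸ hs), hff2 s hs⟩
    have t1 : touch Δ X (insert x B) :=
      touch_mono (Finset.Subset.refl _) (by simp) (touch_symm (hcom x hxN).2.2.1)
    have t2 : touch Δ X ({e, f2} : Finset V) :=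
      touch_mono (Finset.Subset.refl _) (by simp) (touch_symm (hcom e heN).2.2.1)
    have t3 : touch Δ (insert x B) ({e, f2} : Finset V) :=
      touch_mono (Finset.subset_insert _ _) (by simp) (touch_symm hf2t)
    have t4 : ∀ s ∈ F1, touch Δ {s} (insert x B) := fun s hs =>
      touch_mono (Finset.Subset.refl _) (Finset.subset_insert _ _) (hFB s hs)
    have t5 : ∀ s ∈ F1, touch Δ {s} ({e, f2} : Finset V) := fun s hs =>
      ⟨s, by simp, f2, by simp, hadjf2 s hs⟩
    have n1 : ¬ fill Δ [X, insert x B, {g}] := by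
      rw [HC1_fill3]
      rintro ⟨F, hF, h1, ⟨v, hv⟩, h3⟩
      rw [HC1_s] at h3
      rw [Finset.mem_inter, Finset.mem_insert] at hv
      rcases hv with ⟨hvF, rfl | hv⟩
      · exact hnxg (hΔ.adj_of_face hF hvF h3 (fun e' => hxF (e' ▸ hgF)))
      · exact hnoface F hF h1 v hvF (hBC hv)
    have n2 : ¬ fill Δ [X, {e, f2}, {f}] := by
      rw [HC1_fill3]
      rintro ⟨F, hF, h1, h2, h3⟩
      rw [HC1_s] at h3
      rw [HC1_p] at h2
      rcases h2 with h2 | h2
      · exact hnef (hΔ.adj_of_face hF h2 h3 (fun e' => heF (e' ▸ hfF)))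
      · exact hnoface F hF h1 f2 h2 hf2C
    by_cases hfg : f = g
    · subst hfg
      have hm : CM Δ [X, {f}, insert x B, {e, f2}] :=
        HC1_cm4 hf.cA (conn_single (hfv f hfF)) hcBx hcef
          (H83_sw (H83_sc hfN.1 hfN.2.2.1)) ⟨d1, t1⟩ ⟨d2, t2⟩ ⟨d4 f hfF, t4 f hfF⟩
          ⟨d5 f hfF, t5 f hfF⟩ ⟨d3, t3⟩
      have h3 := (h.k4two hm (fun h1 => n1 (Rules_sub h1 (by simp)))
        (fun h1 => n2 (Rules_sub h1 (by simp)))).1
      have hxe : adj Δ x e := by
        rw [HC1_fill3] at h3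
        obtain ⟨F, hF, h1, ⟨v, hv⟩, h2⟩ := h3
        rw [HC1_p] at h2
        have heF' : e ∈ F := h2.resolve_right (fun h4 => hnoface F hF h1 f2 h4 hf2C)
        rw [Finset.mem_inter, Finset.mem_insert] at hv
        rcases hv with ⟨hvF, rfl | hv⟩
        · exact hΔ.adj_of_face hF hvF heF' hex.symm
        · exact absurd (hBC hv) (hnoface F hF h1 v hvF)
      have hcXf : Conn Δ (insert f X) := hf.cA.insert (hfv f hfF) hfN.2.2.1
      have hcBf : Conn Δ (insert f2 B) := hB.insert hf2v hf2t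
      have hBf2C : ∀ v ∈ insert f2 B, v ∈ C := by
        intro v hv
        rcases Finset.mem_insert.1 hv with rfl | hv
        · exact hf2C
        · exact hBC hv
      have hm2 : CM Δ [insert f2 B, insert f X, {x}, {e}] := by
        refine HC1_cm4 hcBf hcXf (conn_single hxv) (conn_single hev) ⟨?_, ?_⟩ ⟨?_, ?_⟩ ⟨?_, ?_⟩
          ⟨?_, ?_⟩ ⟨?_, ?_⟩ (H83_ss hxe)
        · rw [Finset.disjoint_left]
          intro v hv hv'
          rcases Finset.mem_insert.1 hv' with rfl | hv'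
          · exact hfN.2.1 (hBf2C v hv)
          · exact hXC v hv' (hBf2C v hv)
        · exact ⟨f2, by simp, f, by simp, adj_symm (hadjf2 f hfF)⟩
        · rw [Finset.disjoint_singleton_right]
          exact fun h1 => hxC (hBf2C x h1)
        · exact touch_symm (touch_mono (Finset.Subset.refl _) (Finset.subset_insert _ _) hxB)
        · rw [Finset.disjoint_singleton_right]
          exact fun h1 => heC (hBf2C e h1)
        · exact ⟨f2, by simp, e, by simp, adj_symm hef2⟩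
        · rw [Finset.disjoint_singleton_right, Finset.mem_insert, not_or]
          exact ⟨fun e' => hxF (e' ▸ hfF), hxX⟩
        · exact touch_symm (touch_mono (Finset.Subset.refl _) (Finset.subset_insert _ _)
            (hcom x hxN).2.2.1)
        · rw [Finset.disjoint_singleton_right, Finset.mem_insert, not_or]
          exact ⟨fun e' => heF (e' ▸ hfF), heX⟩
        · exact touch_symm (touch_mono (Finset.Subset.refl _) (Finset.subset_insert _ _)
            (hcom e heN).2.2.1)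
      refine h.k4three hm2 ?_ ?_ ?_
      · rw [HC1_fill3]
        rintro ⟨F, hF, ⟨v, hv⟩, ⟨w, hw⟩, h4⟩
        rw [HC1_s] at h4
        rw [Finset.mem_inter] at hv hw
        rcases Finset.mem_insert.1 hw.2 with rfl | hwX
        · exact hnxg (hΔ.adj_of_face hF h4 hw.1 (fun e' => hxF (e' ▸ hfF)))
        · exact hnoface F hF ⟨w, Finset.mem_inter.2 ⟨hw.1, hwX⟩⟩ v hv.1 (hBf2C v hv.2)
      · rw [HC1_fill3]
        rintro ⟨F, hF, ⟨v, hv⟩, ⟨w, hw⟩, h4⟩
        rw [HC1_s] at h4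
        rw [Finset.mem_inter] at hv hw
        rcases Finset.mem_insert.1 hw.2 with rfl | hwX
        · exact hnef (hΔ.adj_of_face hF h4 hw.1 (fun e' => heF (e' ▸ hfF)))
        · exact hnoface F hF ⟨w, Finset.mem_inter.2 ⟨hw.1, hwX⟩⟩ v hv.1 (hBf2C v hv.2)
      · rw [HC1_fill3]
        rintro ⟨F, hF, ⟨v, hv⟩, h3', h4⟩
        rw [HC1_s] at h3' h4
        rw [Finset.mem_inter] at hv
        rcases Finset.mem_insert.1 hv.2 with rfl | hvB
        · exact hxf2 (hΔ.adj_of_face hF h3' hv.1 hxf2')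
        · refine heB (touch_single_left.2 ⟨v, hvB, hΔ.adj_of_face hF h4 hv.1 ?_⟩)
          rintro rfl
          exact heC (hBC hvB)
    · have hm : CM Δ [X, insert x B, {g}, {e, f2}, {f}] :=
        H83_cm5 hf.cA hcBx (conn_single (hfv g hgF)) hcef (conn_single (hfv f hfF)) ⟨d1, t1⟩
          (H83_sw (H83_sc hgN.1 hgN.2.2.1)) ⟨d2, t2⟩ (H83_sw (H83_sc hfN.1 hfN.2.2.1))
          (H83_sw ⟨d4 g hgF, t4 g hgF⟩) ⟨d3, t3⟩ (H83_sw ⟨d4 f hfF, t4 f hfF⟩)
          ⟨d5 g hgF, t5 g hgF⟩ (H83_ss (hadjF g hgF f hfF (Ne.symm hfg)))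
          (H83_sw ⟨d5 f hfF, t5 f hfF⟩)
      rcases h.k5 _ _ _ _ _ hm with h1 | h1
      · exact n1 h1
      · exact n2 h1

end Pool.Agent.Lib.MP_73b196_co.St
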