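import Pool.Agent.Lib.MP_73b196_co.St.HSpecC

/-!
# Theorem H, section 8: the minimal near-face separator cuts off one vertex
-/

set_option autoImplicit false
set_option linter.unusedSectionVars false

namespace Pool.Agent.Lib.MP_73b196_co.St

variable {V : Type} [Fintype V] [DecidableEq V] {Δ : Set (Finset V)}
  {A B C E F F' P Q R W X : Finset V} {a b e v w x : V}

/-- A connected subset of a split set lies on one side. -/
theorem H84_side (hE : Conn Δ E) (hER : E ⊆ R) (hPQ : P ∪ Q = R) (hd : Disjoint P Q)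
    (ht : ¬ touch Δ P Q) : E ⊆ P ∨ E ⊆ Q := by
  have key : ∀ P Q : Finset V, P ∪ Q = R → Disjoint P Q → ¬ touch Δ P Q → (E ∩ P).Nonempty →
      E ⊆ P := by
    intro P Q hPQ _ ht hne
    refine hE.sub_of_closed hER ?_ hne
    intro h
    refine ht (touch_mono (Finset.Subset.refl _) ?_ h)
    intro v hv
    rw [Finset.mem_sdiff, ← hPQ, Finset.mem_union] at hv
    exact hv.1.resolve_left hv.2
  obtain ⟨u, hu⟩ := hE.2.1
  have h1 : u ∈ P ∪ Q := by
    rw [hPQ]
    exact hER hu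
  rcases Finset.mem_union.1 h1 with h2 | h2
  · exact Or.inl (key P Q hPQ hd ht ⟨u, Finset.mem_inter.2 ⟨hu, h2⟩⟩)
  · refine Or.inr (key Q P ?_ hd.symm (fun t => ht (touch_symm t))
      ⟨u, Finset.mem_inter.2 ⟨hu, h2⟩⟩)
    rw [Finset.union_comm]
    exact hPQ

/-- The neighbourhood of a component of `W \ {e}`. -/
theorem H84_nb (h : IsCx Δ) (hX : IsComp Δ (W \ {e}) X) : nb Δ X ⊆ insert e (nb Δ W) := by
  intro v hv
  obtain ⟨h1, h2, h3⟩ := mem_nb.1 hv
  rw [Finset.mem_insert]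
  by_cases hve : v = e
  · exact Or.inl hve
  · right
    have hXW : X ⊆ W := hX.1.trans Finset.sdiff_subset
    refine h.mem_nb_of ?_ (touch_mono (Finset.Subset.refl _) hXW h3)
    intro hvW
    obtain ⟨c, hc, hvc⟩ := touch_single_left.1 h3
    exact h2 (hX.mem_of_adj hc (Finset.mem_sdiff.2 ⟨hvW, by
      rw [Finset.mem_singleton]
      exact hve⟩) (adj_symm hvc))

/-- The main case. -/
theorem H84_core (hPI : StmtHPI) (h81 : StmtH81) (h83 : StmtH83) {x : V} {F : Finset V}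
    (hE : Ext Δ W B x F) (he : e ∈ W) {F' P Q : Finset V} (hFS : FS Δ e F' P Q) (hxP : x ∈ P)
    (hF2 : F \ F' ⊆ Q) (hne : (F \ F').Nonempty) : W = {e} := by
  have hc := hE.bad.inP.cx
  have hpl := hE.toFull.pl hc
  have hF'W := h81 V Δ W B x F hE e he F' P Q hFS
  by_contra hW
  have hWne : ∃ w ∈ W, w ≠ e := by
    by_contra hno
    push Not at hno
    apply hW
    ext w
    rw [Finset.mem_singleton]
    exact ⟨fun hw => hno w hw, fun hw => hw ▸ he⟩
  have hxW : x ∉ W := by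
    have : x ∈ nb Δ W := by
      rw [hE.eq]
      exact Finset.mem_insert_self _ _
    exact (mem_nb.1 this).2.1
  have hFn : ∀ f ∈ F, f ∈ nb Δ W := by
    intro f hf
    rw [hE.eq]
    exact Finset.mem_insert_of_mem hf
  have hxn : x ∈ nb Δ W := by
    rw [hE.eq]
    exact Finset.mem_insert_self _ _
  -- facts on components
  have comp : ∀ X, IsComp Δ (W \ {e}) X → e ∉ X ∧ X ⊆ W ∧ e ∈ nb Δ X ∧ X ⊆ P ∧ x ∈ nb Δ X := by
    intro X hX
    have hXW : X ⊆ W := hX.1.trans Finset.sdiff_subset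
    have heX : e ∉ X := by
      intro h1
      have := Finset.mem_sdiff.1 (hX.1 h1)
      simp at this
    have hXR : X ⊆ (vs Δ \ {e}) \ F' := by
      intro v hv
      rw [Finset.mem_sdiff, Finset.mem_sdiff, Finset.mem_singleton]
      refine ⟨⟨hX.2.1.1 hv, ?_⟩, fun hvF => Finset.disjoint_left.1 hF'W hvF (hXW hv)⟩
      rintro rfl
      exact heX hv
    have hnb := H84_nb hc hX
    have henb : e ∈ nb Δ X := by
      have ht := hE.cA.comp_touch (B := {e}) (Finset.singleton_subset_iff.2 he)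
        (Finset.singleton_nonempty e) hX
      exact hc.mem_nb_of heX (touch_symm ht)
    -- if `x` is no neighbour then contradiction
    have hxx : x ∈ nb Δ X := by
      by_contra hno
      refine hPI V Δ W B x F hE e he X hX.2.1 hXW heX e F hE.face ?_ (Or.inl rfl)
      intro v hv
      rcases Finset.mem_insert.1 (hnb hv) with h1 | h1
      · exact Finset.mem_insert.2 (Or.inl h1)
      · rw [hE.eq] at h1
        rcases Finset.mem_insert.1 h1 with h2 | h2
        · exact absurd (h2 ▸ hv) hno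
        · exact Finset.mem_insert_of_mem h2
    refine ⟨heX, hXW, henb, ?_, hxx⟩
    rcases H84_side hX.2.1 hXR hFS.un hFS.d hFS.nt with h1 | h1
    · exact h1
    · exfalso
      exact hFS.nt (touch_mono (Finset.singleton_subset_iff.2 hxP) h1 (mem_nb.1 hxx).2.2)
  -- one component
  obtain ⟨w, hw, hwe⟩ := hWne
  have hWv : W \ {e} ⊆ vs Δ := Finset.sdiff_subset.trans hE.cA.1
  obtain ⟨X, hX, _⟩ := exists_comp hWv (Finset.mem_sdiff.2 ⟨hw, by
    rw [Finset.mem_singleton]
    exact hwe⟩)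
  obtain ⟨heX, hXW, henb, hXP, hxX⟩ := comp X hX
  have hnb := H84_nb hc hX
  have heB : e ∉ B := fun h1 => Finset.disjoint_left.1 hE.d he h1
  have hex : e ≠ x := fun h1 => hxW (h1 ▸ he)
  obtain ⟨f2, hf2⟩ := hne
  have hf2Q := hF2 hf2
  rw [Finset.mem_sdiff] at hf2
  have hf2n := hFn f2 hf2.1
  have hf2B : f2 ∉ B ∧ touch Δ {f2} B := by
    have := hf2n
    rw [hE.n] at this
    exact (mem_nb.1 this).2
  have hf2W : f2 ∉ W := (mem_nb.1 hf2n).2.1
  have hf2X : f2 ∉ nb Δ X := fun h1 => hFS.nt (touch_symm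
    (touch_mono (Finset.singleton_subset_iff.2 hf2Q) hXP (mem_nb.1 h1).2.2))
  have hef2 : adj Δ e f2 := by
    obtain ⟨u, hu, hfu⟩ := touch_single_left.1 (mem_nb.1 hf2n).2.2
    by_cases hue : u = e
    · subst hue
      exact adj_symm hfu
    · exfalso
      obtain ⟨Y, hY, huY⟩ := exists_comp hWv (Finset.mem_sdiff.2 ⟨hu, by
        rw [Finset.mem_singleton]
        exact hue⟩)
      exact hFS.nt ⟨u, (comp Y hY).2.2.2.1 huY, f2, hf2Q, adj_symm hfu⟩
  have hxf2 : ¬ adj Δ x f2 := fun h1 => hFS.nt ⟨x, hxP, f2, hf2Q, h1⟩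
  have cB2 : Conn Δ (insert f2 B) := hE.cB.insert (nb_sub hf2n) hf2B.2
  have dB2 : Disjoint (insert f2 B) (X ∪ nb Δ X) := by
    rw [Finset.disjoint_insert_left, Finset.mem_union, not_or]
    refine ⟨⟨fun h1 => hf2W (hXW h1), hf2X⟩, ?_⟩
    rw [Finset.disjoint_left]
    intro v hvB hv
    rcases Finset.mem_union.1 hv with h1 | h1
    · exact Finset.disjoint_left.1 hE.d (hXW h1) hvB
    · rcases Finset.mem_insert.1 (hnb h1) with h2 | h2
      · exact heB (h2 ▸ hvB)
      · rw [hE.n] at h2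
        exact (mem_nb.1 h2).2.1 hvB
  have heB2 : e ∉ insert f2 B := by
    rw [Finset.mem_insert, not_or]
    exact ⟨hef2.1, heB⟩
  have heB2n : e ∈ nb Δ (insert f2 B) := hc.mem_nb_of heB2
    (touch_single_left.2 ⟨f2, Finset.mem_insert_self _ _, hef2⟩)
  have hPI2 : ∀ (u : V) (Φ : Finset V), Φ ∈ Δ → nb Δ X ⊆ insert u Φ → False := by
    intro u Φ hΦ hsub
    exact hPI V Δ W B x F hE e he X hX.2.1 hXW heX u Φ hΦ hsub
      (Or.inr ⟨insert f2 B, cB2, Finset.subset_insert _ _, dB2, Finset.mem_union_right _ heB2n⟩)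
  -- the set F1
  have hF1 : nb Δ X = insert e (insert x (nb Δ X ∩ F)) := by
    ext v
    rw [Finset.mem_insert, Finset.mem_insert, Finset.mem_inter]
    constructor
    · intro hv
      rcases Finset.mem_insert.1 (hnb hv) with h1 | h1
      · exact Or.inl h1
      · rw [hE.eq] at h1
        rcases Finset.mem_insert.1 h1 with h2 | h2
        · exact Or.inr (Or.inl h2)
        · exact Or.inr (Or.inr ⟨hv, h2⟩)
    · rintro (h1 | h1 | h1)
      · exact h1 ▸ henb
      · exact h1 ▸ hxX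
      · exact h1.1
  have heF1 : insert e (nb Δ X ∩ F) ∉ Δ := by
    intro h1
    refine hPI2 x _ h1 ?_
    intro v hv
    rw [hF1] at hv
    simp only [Finset.mem_insert] at hv ⊢
    tauto
  have hxF1 : insert x (nb Δ X ∩ F) ∉ Δ := by
    intro h1
    refine hPI2 e _ h1 ?_
    intro v hv
    rw [hF1] at hv
    exact hv
  -- the component C
  obtain ⟨C, hC, hfC⟩ := exists_comp (Δ := Δ) (U := vs Δ \ (X ∪ nb Δ X)) Finset.sdiff_subset
    (v := f2) (Finset.mem_sdiff.2 ⟨nb_sub hf2n, Finset.disjoint_left.1 dB2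
      (Finset.mem_insert_self _ _)⟩)
  have hB2C : insert f2 B ⊆ C := by
    refine hC.sub_of_conn cB2 ?_ ⟨f2, Finset.mem_inter.2 ⟨Finset.mem_insert_self _ _, hfC⟩⟩
    intro v hv
    exact Finset.mem_sdiff.2 ⟨cB2.1 hv, Finset.disjoint_left.1 dB2 hv⟩
  have hBC : B ⊆ C := (Finset.subset_insert _ _).trans hB2C
  have hCX : ∀ v ∈ C, v ∉ X ∧ v ∉ nb Δ X := by
    intro v hv
    have := (Finset.mem_sdiff.1 (hC.1 hv)).2
    rwa [Finset.mem_union, not_or] at this
  have hnC : nb Δ C ⊆ nb Δ X := (exists_sep hc hX.2.1 hC).choose_spec.2.2.2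
  have htB : ∀ v ∈ nb Δ W, touch Δ {v} B := by
    intro v hv
    rw [hE.n] at hv
    exact (mem_nb.1 hv).2.2
  have hnX : nb Δ X ⊆ nb Δ C := by
    intro v hv
    have hvC : v ∉ C := fun h1 => (hCX v h1).2 hv
    rcases Finset.mem_insert.1 (hnb hv) with h1 | h1
    · refine hc.mem_nb_of hvC (touch_single_left.2 ⟨f2, hfC, ?_⟩)
      rw [h1]
      exact hef2
    · exact hc.mem_nb_of hvC (touch_mono (Finset.Subset.refl _) hBC (htB v h1))
  have hfull : Full Δ X C := by
    refine ⟨hX.2.1, hC.2.1, ?_, Finset.Subset.antisymm hnX hnC⟩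
    rw [Finset.disjoint_right]
    exact fun v hv => (hCX v hv).1
  refine h83 V Δ hE.bad.inP X C B (nb Δ X ∩ F) e x f2 hfull hF1 hex ?_ ?_ hE.cB hBC hfC hf2B.1
    hf2B.2 hef2 hxf2 ?_ (htB x hxn) ?_ ?_ heF1 hxF1
  · intro h1
    exact (mem_nb.1 (hFn e (Finset.mem_inter.1 h1).2)).2.1 he
  · intro h1
    exact hE.xF (Finset.mem_inter.1 h1).2
  · exact fun t => hpl.n (touch_mono (Finset.singleton_subset_iff.2 he) (Finset.Subset.refl _) t)
  · intro f hf
    exact htB f (hFn f (Finset.mem_inter.1 hf).2)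
  · refine hc.down F hE.face _ ?_
    intro v hv
    rcases Finset.mem_insert.1 hv with h1 | h1
    · exact h1 ▸ hf2.1
    · exact (Finset.mem_inter.1 h1).2

/-- **H84** -/
theorem tH84 (hPI : StmtHPI) (h81 : StmtH81) (h82b : StmtH82b) (h83 : StmtH83) (h7 : StmtHT7) :
    StmtH84 := by
  intro V _ _ Δ W B x F hE e he B' hM
  obtain ⟨F', P, Q, hFS⟩ := h7 V Δ hE.bad e B' hM
  obtain ⟨_, hne, h1 | h1⟩ := h82b V Δ W B x F hE e he F' P Q hFS
  · exact H84_core hPI h81 h83 hE he hFS h1.1 h1.2 hne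
  · exact H84_core hPI h81 h83 hE he hFS.symm h1.1 h1.2 hne

end Pool.Agent.Lib.MP_73b196_co.St
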