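import Pool.Agent.Lib.MP_73b196_co.St.HSpecC

/-!
# Theorem H, H9: the last situation is impossible
-/

set_option autoImplicit false

namespace Pool.Agent.Lib.MP_73b196_co.St

theorem tH9 (h6 : StmtHT6) (h6b : StmtHT6b) (h92 : StmtH92) (h93 : StmtH93) (h94 : StmtH94)
    (h95 : StmtH95) : StmtH9 := by
  intro V _ _ Δ v B x F hL
  have hcx := hL.bad.inP.cx
  have hxn : x ∈ nb Δ {v} := by
    rw [hL.eq]
    exact Finset.mem_insert_self _ _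
  have hFn : ∀ f ∈ F, f ∈ nb Δ {v} := by
    intro f hf
    rw [hL.eq]
    exact Finset.mem_insert_of_mem hf
  have hFx : ∀ f ∈ F, f ≠ x := by
    rintro f hf rfl
    exact hL.xF hf
  obtain ⟨hns, f1, hf1, hn1⟩ := h92 V Δ v B x F hL
  obtain ⟨c, hc, hcx', hcd, hcz, -⟩ := h6 V Δ hL.bad v B hL.mop x hxn f1 (hFn f1 hf1) (hFx f1 hf1)
    hn1 hns
  have hcF : c ∈ F := by
    rw [hL.eq] at hc
    exact Finset.mem_of_mem_insert_of_ne hc hcx'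
  obtain ⟨p1, -, Y, hY⟩ := h93 V Δ v B x F hL
  have fs := p1 Y hY.1
  obtain ⟨-, ⟨f0, hf0⟩, hsep⟩ := hL.sep _ _ _ fs
  have hsub : F \ (nb Δ Y \ {v}) ⊆ (vs Δ \ {v}) \ (Y ∪ nb Δ Y) := by
    rcases hsep with h1 | h1
    · exact h1.2
    · exfalso
      exact Finset.disjoint_left.1 fs.d hY.1.2.1 h1.1
  have hvF : ∀ f ∈ F, f ≠ v := by
    rintro f hf rfl
    have := (mem_nb.1 (hFn f hf)).2.1
    exact this (Finset.mem_singleton_self _)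
  have hmem : ∀ f ∈ F, f ∉ nb Δ Y → f ∉ Y ∧ ¬ adj Δ f x := by
    intro f hf hfY
    have h1 : f ∈ (vs Δ \ {v}) \ (Y ∪ nb Δ Y) := hsub (Finset.mem_sdiff.2 ⟨hf, fun h2 =>
      hfY (Finset.mem_sdiff.1 h2).1⟩)
    have h2 : f ∉ Y := fun h3 => (Finset.mem_sdiff.1 h1).2 (Finset.mem_union_left _ h3)
    refine ⟨h2, fun h3 => hfY ?_⟩
    exact hcx.mem_nb_of h2 (touch_single_left.2 ⟨x, hY.1.2.1, h3⟩)
  have key : ∀ f ∈ F, f ∉ nb Δ Y → insert f (nb Δ Y \ {v}) ∈ Δ ∧ ∃ f' ∈ F, f' ≠ f ∧ f' ∉ nb Δ Y := by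
    intro f hf hfY
    have hna : ¬ adj Δ f x := (hmem f hf hfY).2
    have hna' : ¬ NS (con Δ {v, f} f) := by
      intro hns'
      have := h6b V Δ hL.bad v B hL.mop x hxn f1 (hFn f1 hf1) (hFx f1 hf1) hn1 hns f (hFn f hf) x hxn
        (hFx f hf).symm hna hns'
      exact hFx f hf this.symm
    obtain ⟨F0, P, Q, hcs⟩ := cs_of_con hcx hL.bad.conn (hcx.mem_nb_single.1 (hFn f hf)) hna'
    exact h94 V Δ v B x F hL Y hY c hcF hcd hcz f hf hfY F0 P Q hcs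
  rw [Finset.mem_sdiff] at hf0
  have hf0Y : f0 ∉ nb Δ Y := by
    intro h1
    refine hf0.2 (Finset.mem_sdiff.2 ⟨h1, ?_⟩)
    rw [Finset.mem_singleton]
    exact hvF f0 hf0.1
  exact h95 V Δ v B x F hL Y hY.1 (fun f hf hfY => (key f hf hfY).1)
    ⟨f0, hf0.1, hf0Y, (key f0 hf0.1 hf0Y).2⟩

end Pool.Agent.Lib.MP_73b196_co.St
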