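import Pool.Agent.Lib.MP_73b196_co.St.HSpecC

/-!
# H90: the last situation exists
-/

set_option autoImplicit false

namespace Pool.Agent.Lib.MP_73b196_co.St

theorem tH90 (h1 : StmtHE1) (h2 : StmtHE2) (h82b : StmtH82b) (h84 : StmtH84) : StmtH90 := by
  intro V _ _ Δ h
  obtain ⟨W, B, x, F, hE⟩ := h2 V Δ h
  obtain ⟨e, he, B', hm⟩ := h1 V Δ h W B hE.toFull
  have hW : W = {e} := h84 V Δ W B x F hE e he B' hm
  subst hW
  exact ⟨e, B, x, F, hE.bad, hE.toFull, hE.xF, hE.face, hE.eq,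
    fun F' P Q hFS => h82b V Δ {e} B x F hE e he F' P Q hFS⟩

end Pool.Agent.Lib.MP_73b196_co.St
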