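import Pool.Agent.Lib.MP_73b196_co.St.HSpecC

/-!
# Theorem H, section 9.1: the rest is connected
-/

set_option autoImplicit false
set_option linter.unusedSectionVars false

namespace Pool.Agent.Lib.MP_73b196_co.St

variable {V : Type} [Fintype V] [DecidableEq V] {Δ : Set (Finset V)}
  {A B C E F F' P Q R W X : Finset V} {a b e f v w x y : V}

/-- A connected subset of a split set lies on one side. -/
theorem H91_side (hE : Conn Δ E) (hER : E ⊆ R) (hPQ : P ∪ Q = R) (hd : Disjoint P Q)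
    (ht : ¬ touch Δ P Q) : E ⊆ P ∨ E ⊆ Q := by
  have key : ∀ P Q : Finset V, P ∪ Q = R → Disjoint P Q → ¬ touch Δ P Q → (E ∩ P).Nonempty →
      E ⊆ P := by
    intro P Q hPQ _ ht hne
    refine hE.sub_of_closed hER ?_ hne
    intro h
    refine ht (touch_mono (Finset.Subset.refl _) ?_ h)
    intro v hv
    rw [Finset.mem_sdiff, ← hPQ, Finset.mem_union] at hv
    exact hv.1.resolve_left hv.2
  obtain ⟨u, hu⟩ := hE.2.1
  have h1 : u ∈ P ∪ Q := by
    rw [hPQ]
    exact hER hu
  rcases Finset.mem_union.1 h1 with h2 | h2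
  · exact Or.inl (key P Q hPQ hd ht ⟨u, Finset.mem_inter.2 ⟨hu, h2⟩⟩)
  · refine Or.inr (key Q P ?_ hd.symm (fun t => ht (touch_symm t))
      ⟨u, Finset.mem_inter.2 ⟨hu, h2⟩⟩)
    rw [Finset.union_comm]
    exact hPQ

/-- A connected set adjacent to both sides of a face separator meets the face. -/
theorem H91_meet (hFS : FS Δ v F' P Q) (hx : x ∈ P) (hf : f ∈ Q) (cE : Conn Δ E) (hv : v ∉ E)
    (tx : touch Δ {x} E) (tf : touch Δ {f} E) : ∃ u ∈ E, u ∈ F' := by
  by_contra hno
  push Not at hno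
  have hER : E ⊆ (vs Δ \ {v}) \ F' := by
    intro u hu
    rw [Finset.mem_sdiff, Finset.mem_sdiff, Finset.mem_singleton]
    refine ⟨⟨cE.1 hu, ?_⟩, hno u hu⟩
    rintro rfl
    exact hv hu
  rcases H91_side cE hER hFS.un hFS.d hFS.nt with h1 | h1
  · exact hFS.nt (touch_symm (touch_mono (Finset.singleton_subset_iff.2 hf) h1 tf))
  · exact hFS.nt (touch_mono (Finset.singleton_subset_iff.2 hx) h1 tx)

/-- The final contradiction. -/
theorem H91_end (hP : InP Δ) (hFS : FS Δ v F' P Q) (hx : x ∈ P) (hfQ : f ∈ Q) (cE : Conn Δ E)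
    (cB : Conn Δ B) (hvE : v ∉ E) (hvB : v ∉ B) (pl : Pl Δ E B) (txE : touch Δ {x} E)
    (tfE : touch Δ {f} E) (txB : touch Δ {x} B) (tfB : touch Δ {f} B) : False := by
  obtain ⟨u, hu, huF⟩ := H91_meet hFS hx hfQ cE hvE txE tfE
  obtain ⟨w, hw, hwF⟩ := H91_meet hFS hx hfQ cB hvB txB tfB
  exact pl.no_face hP.cx hFS.face ⟨u, Finset.mem_inter.2 ⟨huF, hu⟩⟩
    ⟨w, Finset.mem_inter.2 ⟨hwF, hw⟩⟩

/-- **H91** -/
theorem tH91 (h7 : StmtHT7) (h7d : StmtHT7d) : StmtH91 := by
  intro V _ _ Δ v B x F hL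
  have hbad := hL.bad
  have hP := hbad.inP
  have hc := hP.cx
  have hf : Full Δ {v} B := hL.mop
  have hpl := hf.pl hc
  have hcv := hf.comp hc
  have hcB : IsComp Δ (vs Δ \ nb Δ {v}) B := by
    have := hf.symm.comp hc
    rwa [← hf.n] at this
  have hvB : v ∉ B := Finset.disjoint_singleton_left.1 hf.d
  apply Finset.Subset.antisymm
  · intro u hu
    rw [Finset.mem_sdiff, Finset.mem_sdiff, Finset.mem_singleton]
    refine ⟨⟨hf.cB.1 hu, fun h1 => hvB (h1 ▸ hu)⟩, ?_⟩
    exact (Finset.mem_sdiff.1 (hcB.1 hu)).2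
  · intro r hr
    by_contra hrB
    rw [Finset.mem_sdiff, Finset.mem_sdiff, Finset.mem_singleton] at hr
    obtain ⟨E, hE, hrE⟩ := exists_comp (Δ := Δ) (U := vs Δ \ nb Δ {v}) Finset.sdiff_subset
      (Finset.mem_sdiff.2 ⟨hr.1.1, hr.2⟩)
    have hEB : E ≠ B := by
      rintro rfl
      exact hrB hrE
    have hEv : E ≠ {v} := by
      rintro rfl
      exact hr.1.2 (Finset.mem_singleton.1 hrE)
    have plB := hE.pl hcB hEB
    have plv := hE.pl hcv hEv
    have hvE : v ∉ E := Finset.disjoint_singleton_right.1 plv.d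
    have hnclq := (h7d V Δ hbad).2 v B hL.mop
    have hnE : nb Δ E ⊆ nb Δ {v} := IsComp.nb_sub hc hE
    have hcom : ∀ s ∈ nb Δ {v}, Com Δ {v} B s := fun s hs => hf.com hs
    have hnohol : ∀ a ∈ nb Δ {v}, ∀ b ∈ nb Δ {v}, ∀ c ∈ nb Δ {v}, ¬ Hol Δ a b c := by
      intro a ha b hb c hc' hT
      exact hnclq ⟨nb_sub, fun s hs t ht hst => Pl.r2 hP hpl (hcom a ha) (hcom b hb) (hcom c hc')
        hT (hcom s hs) (hcom t ht) hst⟩
    have hnf : nb Δ E ∉ Δ := by
      refine nb_notMem hc hbad.conn hE.2.1 ⟨v, ?_⟩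
      rw [Finset.mem_sdiff, Finset.mem_union, not_or]
      refine ⟨hf.cA.1 (Finset.mem_singleton_self v), hvE, fun h1 => ?_⟩
      have := (mem_nb.1 (hnE h1)).2.1
      exact this (Finset.mem_singleton_self v)
    have hex : ∃ s ∈ nb Δ E, ∃ t ∈ nb Δ E, s ≠ t ∧ ¬ adj Δ s t := by
      by_contra hno
      push Not at hno
      exact hnf (hP.mem_of_noHol ⟨nb_sub, hno⟩ (fun a ha b hb c hc' =>
        hnohol a (hnE ha) b (hnE hb) c (hnE hc')))
    have hxf : x ∈ nb Δ E ∧ ∃ f ∈ nb Δ E, f ∈ F ∧ ¬ adj Δ x f := by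
      obtain ⟨s, hs, t, ht, hst, hn⟩ := hex
      have h1 := hnE hs
      have h2 := hnE ht
      rw [hL.eq, Finset.mem_insert] at h1 h2
      rcases h1 with h1 | h1
      · subst h1
        exact ⟨hs, t, ht, h2.resolve_left (Ne.symm hst), hn⟩
      · rcases h2 with h2 | h2
        · subst h2
          exact ⟨ht, s, hs, h1, fun h3 => hn (adj_symm h3)⟩
        · exact absurd (hc.adj_of_face hL.face h1 h2 hst) hn
    obtain ⟨hxE, f, hfE, hfF, hnxf⟩ := hxf
    have hFn : ∀ y ∈ F, y ∈ nb Δ {v} := by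
      intro y hy
      rw [hL.eq]
      exact Finset.mem_insert_of_mem hy
    have hxn : x ∈ nb Δ {v} := hnE hxE
    have hxv : adj Δ v x := hc.mem_nb_single.1 hxn
    have hnotE : ∀ s ∈ nb Δ {v}, s ∉ E := fun s hs h1 => (Finset.mem_sdiff.1 (hE.1 h1)).2 hs
    have hfx : f ≠ x := by
      rintro rfl
      exact hL.xF hfF
    have hall : ∀ y ∈ F, y ≠ f → adj Δ x y := by
      intro y hy hyf
      by_contra hnxy
      have hyn := hFn y hy
      have hvy : adj Δ v y := hc.mem_nb_single.1 hyn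
      have hyx : y ≠ x := by
        rintro rfl
        exact hL.xF hy
      have comx := hcom x hxn
      have comy := hcom y hyn
      have comf := hcom f (hFn f hfF)
      have tfE := (mem_nb.1 hfE).2.2
      have txE := (mem_nb.1 hxE).2.2
      have cE : Conn Δ (insert f E) := hE.2.1.insert (nb_sub hfE) tfE
      have cB : Conn Δ (insert y B) := hf.cB.insert (nb_sub hyn) comy.2.2.2
      have hvf : adj Δ v f := hc.mem_nb_single.1 (hFn f hfF)
      have hM : CM Δ [{x}, insert f E, {v}, insert y B] := by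
        refine HRul_cons (conn_single (nb_sub hxn)) ?_ (HRul_cm3 cE hf.cA cB ⟨?_, ?_⟩ ⟨?_, ?_⟩
          ⟨?_, ?_⟩)
        · simp only [List.mem_cons, List.not_mem_nil, or_false, forall_eq_or_imp, forall_eq]
          refine ⟨⟨?_, ?_⟩, HRul_pair (adj_symm hxv), ?_, ?_⟩
          · rw [Finset.disjoint_singleton_left, Finset.mem_insert, not_or]
            exact ⟨Ne.symm hfx, hnotE x hxn⟩
          · exact touch_mono (Finset.Subset.refl _) (Finset.subset_insert _ _) txE
          · rw [Finset.disjoint_singleton_left, Finset.mem_insert, not_or]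
            exact ⟨Ne.symm hyx, comx.2.1⟩
          · exact touch_mono (Finset.Subset.refl _) (Finset.subset_insert _ _) comx.2.2.2
        · rw [Finset.disjoint_singleton_right, Finset.mem_insert, not_or]
          exact ⟨hvf.1, hvE⟩
        · exact touch_mono (Finset.singleton_subset_iff.2 (Finset.mem_insert_self _ _))
            (Finset.Subset.refl _) (touch_single.2 (adj_symm hvf))
        · rw [Finset.disjoint_insert_left, Finset.disjoint_insert_right, Finset.mem_insert, not_or]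
          exact ⟨⟨Ne.symm hyf, comf.2.1⟩, hnotE y hyn, plB.d⟩
        · exact touch_mono (Finset.singleton_subset_iff.2 (Finset.mem_insert_self _ _))
            (Finset.subset_insert _ _) comf.2.2.2
        · rw [Finset.disjoint_singleton_left, Finset.mem_insert, not_or]
          exact ⟨hvy.1, hvB⟩
        · exact touch_single_left.2 ⟨y, Finset.mem_insert_self _ _, hvy⟩
      refine hP.k4three hM ?_ ?_ ?_
      · rintro ⟨G, hG, hGL⟩
        have hxG := HRul_mem (hGL {x} (by simp))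
        rcases HRul_meet (hGL (insert f E) (by simp)) with h1 | h1
        · exact hnxf (hc.adj_of_face hG hxG h1 (Ne.symm hfx))
        · exact plv.no_face hc hG h1 (hGL {v} (by simp))
      · rintro ⟨G, hG, hGL⟩
        have hxG := HRul_mem (hGL {x} (by simp))
        rcases HRul_meet (hGL (insert f E) (by simp)) with h1 | h1
        · exact hnxf (hc.adj_of_face hG hxG h1 (Ne.symm hfx))
        · rcases HRul_meet (hGL (insert y B) (by simp)) with h2 | h2
          · exact hnxy (hc.adj_of_face hG hxG h2 (Ne.symm hyx))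
          · exact plB.no_face hc hG h1 h2
      · rintro ⟨G, hG, hGL⟩
        have hxG := HRul_mem (hGL {x} (by simp))
        rcases HRul_meet (hGL (insert y B) (by simp)) with h2 | h2
        · exact hnxy (hc.adj_of_face hG hxG h2 (Ne.symm hyx))
        · exact hpl.no_face hc hG (hGL {v} (by simp)) h2
    obtain ⟨F', P, Q, hFS⟩ := h7 V Δ hbad v B hL.mop
    have fin : ∀ P Q : Finset V, FS Δ v F' P Q → x ∈ P → F \ F' ⊆ Q → (F \ F').Nonempty →
        False := by
      intro P Q hFS hxP hFQ hne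
      obtain ⟨g, hg⟩ := hne
      have hgQ := hFQ hg
      have hgf : g = f := by
        by_contra hgf
        exact hFS.nt ⟨x, hxP, g, hgQ, hall g (Finset.mem_sdiff.1 hg).1 hgf⟩
      subst hgf
      exact H91_end hP hFS hxP hgQ hE.2.1 hf.cB hvE hvB plB (mem_nb.1 hxE).2.2 (mem_nb.1 hfE).2.2
        (hcom x hxn).2.2.2 (hcom g (hFn g hfF)).2.2.2
    obtain ⟨_, hne, h1 | h1⟩ := hL.sep F' P Q hFS
    · exact fin P Q hFS h1.1 h1.2 hne
    · exact fin Q P hFS.symm h1.1 h1.2 hne

end Pool.Agent.Lib.MP_73b196_co.St
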