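import Pool.Agent.Lib.MP_73b196_co.St.HSpecC

/-!
# Theorem H, H92: the contraction of `v x` has no face separator
-/

set_option autoImplicit false

namespace Pool.Agent.Lib.MP_73b196_co.St

theorem tH92 (h91 : StmtH91) (h7d : StmtHT7d) : StmtH92 := by
  intro V _ _ Δ v B x F hL
  have hcx := hL.bad.inP.cx
  have hxn : x ∈ nb Δ {v} := by
    rw [hL.eq]
    exact Finset.mem_insert_self _ _
  have hFn : ∀ f ∈ F, f ∈ nb Δ {v} := by
    intro f hf
    rw [hL.eq]
    exact Finset.mem_insert_of_mem hf
  have hvx : adj Δ v x := hcx.mem_nb_single.1 hxn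
  refine ⟨?_, ?_⟩
  · by_contra hn
    obtain ⟨F0, P, Q, hcs⟩ := cs_of_con hcx hL.bad.conn hvx hn
    rcases hcs.face with h1 | h1
    · have hfs : FS Δ v (insert x F0) P Q := by
        refine ⟨h1, ?_, ?_, hcs.d, hcs.neP, hcs.neQ, hcs.nt⟩
        · rw [Finset.mem_insert, not_or]
          exact ⟨hvx.1, hcs.na⟩
        · rw [hcs.un]
          ext w
          simp only [Finset.mem_sdiff, Finset.mem_insert, Finset.mem_singleton]
          tauto
      exact (hL.sep _ _ _ hfs).1 (Finset.mem_insert_self _ _)
    · have hF0 : F0 ⊆ F := by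
        intro f hf
        have hvf : v ≠ f := by
          rintro rfl
          exact hcs.na hf
        have h2 : f ∈ nb Δ {v} := hcx.mem_nb_single.2 (hcx.adj_of_face h1
          (Finset.mem_insert_self _ _) (Finset.mem_insert_of_mem hf) hvf)
        rw [hL.eq, Finset.mem_insert] at h2
        rcases h2 with rfl | h2
        · exact absurd hf hcs.nz
        · exact h2
      have hB := h91 V Δ v B x F hL
      have hun : B ∪ (F \ F0) = P ∪ Q := by
        rw [hcs.un, hB, hL.eq]
        ext w
        simp only [Finset.mem_sdiff, Finset.mem_insert, Finset.mem_singleton, Finset.mem_union]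
        constructor
        · rintro (⟨⟨h2, h3⟩, h4⟩ | ⟨h2, h3⟩)
          · rw [not_or] at h4
            exact ⟨⟨h2, fun h5 => h5.elim h3 h4.1⟩, fun h5 => h4.2 (hF0 h5)⟩
          · refine ⟨⟨nb_sub (hFn w h2), ?_⟩, h3⟩
            rintro (rfl | rfl)
            · exact (mem_nb.1 (hFn w h2)).2.1 (Finset.mem_singleton_self _)
            · exact hL.xF h2
        · rintro ⟨⟨h2, h3⟩, h4⟩
          rw [not_or] at h3
          by_cases h5 : w ∈ F
          · exact Or.inr ⟨h5, h4⟩
          · exact Or.inl ⟨⟨h2, h3.1⟩, fun h6 => h6.elim h3.2 h5⟩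
      have hc : Conn Δ (B ∪ (F \ F0)) := by
        refine hL.mop.cB.attach (fun f hf => nb_sub (hFn f (Finset.mem_sdiff.1 hf).1)) ?_
        intro f hf
        have h2 := hFn f (Finset.mem_sdiff.1 hf).1
        rw [hL.mop.n] at h2
        exact (mem_nb.1 h2).2.2
      exact hcs.nt (hc.touch_of hcs.neP hcs.neQ hcs.d hun.symm)
  · by_contra hn
    push Not at hn
    apply (h7d V Δ hL.bad).2 v B hL.mop
    refine ⟨nb_sub, ?_⟩
    intro s hs t ht hst
    rw [hL.eq, Finset.mem_insert] at hs ht
    rcases hs with rfl | hs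
    · rcases ht with rfl | ht
      · exact absurd rfl hst
      · exact hn t ht
    · rcases ht with rfl | ht
      · exact adj_symm (hn s hs)
      · exact hcx.adj_of_face hL.face hs ht hst

end Pool.Agent.Lib.MP_73b196_co.St
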