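import Pool.Agent.Lib.MP_73b196_co.St.HSpecC

/-!
# Theorem H, H93: the maximal set `Y`
-/

set_option autoImplicit false

namespace Pool.Agent.Lib.MP_73b196_co.St

theorem tH93 (h0 : StmtHE0) (h7 : StmtHT7) : StmtH93 := by
  intro V _ _ Δ v B x F hL
  have hcx := hL.bad.inP.cx
  have p1 : ∀ Y, SY Δ v x Y → FS Δ v (nb Δ Y \ {v}) Y ((vs Δ \ {v}) \ (Y ∪ nb Δ Y)) := by
    intro Y hY
    obtain ⟨hc, hx, hv, hf, hne⟩ := hY
    refine ⟨hf, ?_, ?_, ?_, hc.2.1, hne, ?_⟩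
    · rw [Finset.mem_sdiff, Finset.mem_singleton]
      exact fun h1 => h1.2 rfl
    · ext w
      simp only [Finset.mem_sdiff, Finset.mem_union, Finset.mem_singleton]
      constructor
      · rintro (h1 | ⟨⟨h1, h2⟩, h3⟩)
        · refine ⟨⟨hc.1 h1, ?_⟩, fun h2 => (mem_nb.1 h2.1).2.1 h1⟩
          rintro rfl
          exact hv h1
        · exact ⟨⟨h1, h2⟩, fun h4 => h3 (Or.inr h4.1)⟩
      · rintro ⟨⟨h1, h2⟩, h3⟩
        by_cases h4 : w ∈ Y
        · exact Or.inl h4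
        · refine Or.inr ⟨⟨h1, h2⟩, ?_⟩
          rintro (h5 | h5)
          · exact h4 h5
          · exact h3 ⟨h5, h2⟩
    · rw [Finset.disjoint_left]
      intro w hw h1
      exact (Finset.mem_sdiff.1 h1).2 (Finset.mem_union_left _ hw)
    · rintro ⟨a, ha, b, hb, hab⟩
      rw [Finset.mem_sdiff, Finset.mem_union, not_or] at hb
      exact hb.2.2 (hcx.mem_nb_of hb.2.1 (touch_single_left.2 ⟨a, ha, adj_symm hab⟩))
  have p2 : ∀ F' P Q : Finset V, FS Δ v F' P Q → x ∈ P → ∃ Y, SY Δ v x Y ∧ Y ⊆ P ∧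
      nb Δ Y ⊆ insert v F' ∧ IsComp Δ ((vs Δ \ {v}) \ F') Y := by
    intro F' P Q hfs hx
    obtain ⟨X, hX, hxX, hXP, hnb, hcomp⟩ := h0 V Δ hcx v F' P Q hfs x hx
    have hPs : P ⊆ (vs Δ \ {v}) \ F' := by
      rw [← hfs.un]
      exact Finset.subset_union_left
    have hQs : Q ⊆ (vs Δ \ {v}) \ F' := by
      rw [← hfs.un]
      exact Finset.subset_union_right
    refine ⟨X, ⟨hX, hxX, ?_, ?_, ?_⟩, hXP, hnb, hcomp⟩
    · intro h1
      have h2 := hPs (hXP h1)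
      rw [Finset.mem_sdiff, Finset.mem_sdiff, Finset.mem_singleton] at h2
      exact h2.1.2 rfl
    · refine hcx.down F' hfs.face _ ?_
      intro w hw
      rw [Finset.mem_sdiff, Finset.mem_singleton] at hw
      exact Finset.mem_of_mem_insert_of_ne (hnb hw.1) hw.2
    · obtain ⟨q, hq⟩ := hfs.neQ
      have hq' := hQs hq
      refine ⟨q, ?_⟩
      rw [Finset.mem_sdiff, Finset.mem_union, not_or]
      refine ⟨(Finset.mem_sdiff.1 hq').1, fun h1 => Finset.disjoint_left.1 hfs.d (hXP h1) hq,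
        fun h1 => ?_⟩
      rw [Finset.mem_sdiff, Finset.mem_sdiff, Finset.mem_singleton] at hq'
      exact hq'.2 (Finset.mem_of_mem_insert_of_ne (hnb h1) hq'.1.2)
  refine ⟨p1, p2, ?_⟩
  obtain ⟨Y0, hY0⟩ : ∃ Y, SY Δ v x Y := by
    obtain ⟨F', P, Q, hfs⟩ := h7 V Δ hL.bad v B hL.mop
    rcases (hL.sep F' P Q hfs).2.2 with h1 | h1
    · obtain ⟨Y, hY, -⟩ := p2 F' P Q hfs h1.1
      exact ⟨Y, hY⟩
    · obtain ⟨Y, hY, -⟩ := p2 F' Q P hfs.symm h1.1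
      exact ⟨Y, hY⟩
  classical
  obtain ⟨Y, hY, hmax⟩ := Finset.exists_max_image
    ((Finset.univ : Finset (Finset V)).filter fun Y => SY Δ v x Y)
    (fun Y => (Y ∪ nb Δ Y).card * ((vs Δ).card + 1) + Y.card)
    ⟨Y0, Finset.mem_filter.2 ⟨Finset.mem_univ _, hY0⟩⟩
  have hY' := (Finset.mem_filter.1 hY).2
  refine ⟨Y, hY', ?_⟩
  intro Y' hSY
  have h1 : (Y' ∪ nb Δ Y').card * ((vs Δ).card + 1) + Y'.card ≤
      (Y ∪ nb Δ Y).card * ((vs Δ).card + 1) + Y.card :=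
    hmax Y' (Finset.mem_filter.2 ⟨Finset.mem_univ _, hSY⟩)
  have h2 : Y.card ≤ (vs Δ).card := Finset.card_le_card hY'.1.1
  refine ⟨?_, ?_⟩
  · by_contra hlt
    rw [not_le] at hlt
    have h3 : ((Y ∪ nb Δ Y).card + 1) * ((vs Δ).card + 1) ≤
        (Y' ∪ nb Δ Y').card * ((vs Δ).card + 1) := Nat.mul_le_mul_right _ hlt
    rw [Nat.add_mul, Nat.one_mul] at h3
    omega
  · intro he
    rw [he] at h1
    omega

end Pool.Agent.Lib.MP_73b196_co.St
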