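import Pool.Agent.Lib.MP_73b196_co.St.HSpecC

/-!
# Theorem H, section 9.4: the contraction of `v f`
-/

set_option autoImplicit false
set_option linter.unusedSectionVars false

namespace Pool.Agent.Lib.MP_73b196_co.St

variable {V : Type} [Fintype V] [DecidableEq V] {Δ : Set (Finset V)}
  {B F F' F0 P Q Y : Finset V} {c f v x : V}

/-- The step with a face separator. -/
theorem H94_step (h93 : StmtH93) (hL : Lst Δ v B x F) (hY : MY Δ v x Y) (hfY : f ∉ Y)
    (hfn : f ∉ nb Δ Y) (hfF' : f ∈ F') (hFS : FS Δ v F' P Q) (hx : x ∈ P)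
    (hne : (F \ F').Nonempty) :
    insert f (nb Δ Y \ {v}) ∈ Δ ∧ ∃ f' ∈ F, f' ≠ f ∧ f' ∉ nb Δ Y := by
  have hc := hL.bad.inP.cx
  obtain ⟨Y', hSY, hYP, hYn, hcomp⟩ := (h93 V Δ v B x F hL).2.1 F' P Q hFS hx
  have hdis : ∀ u ∈ Y, u ∉ F' := by
    intro u hu huF
    have huf : f ≠ u := fun e => hfY (e ▸ hu)
    exact hfn (hc.mem_nb_of hfY (touch_single_left.2 ⟨u, hu,
      hc.adj_of_face hFS.face hfF' huF huf⟩))
  have hYY' : Y ⊆ Y' := by
    refine hcomp.sub_of_conn hY.1.1 ?_ ⟨x, Finset.mem_inter.2 ⟨hY.1.2.1, hSY.2.1⟩⟩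
    intro u hu
    rw [Finset.mem_sdiff, Finset.mem_sdiff, Finset.mem_singleton]
    refine ⟨⟨hY.1.1.1 hu, ?_⟩, hdis u hu⟩
    rintro rfl
    exact hY.1.2.2.1 hu
  have hsub : Y ∪ nb Δ Y ⊆ Y' ∪ nb Δ Y' := by
    intro u hu
    rw [Finset.mem_union] at hu ⊢
    rcases hu with h1 | h1
    · exact Or.inl (hYY' h1)
    · by_cases h2 : u ∈ Y'
      · exact Or.inl h2
      · exact Or.inr (hc.mem_nb_of h2 (touch_mono (Finset.Subset.refl _) hYY'
          (mem_nb.1 h1).2.2))
  have hmax := hY.2 Y' hSY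
  have hcard : (Y' ∪ nb Δ Y').card = (Y ∪ nb Δ Y).card :=
    le_antisymm hmax.1 (Finset.card_le_card hsub)
  have hEq : Y = Y' := Finset.eq_of_subset_of_card_le hYY' (hmax.2 hcard)
  have hFF : ∀ g ∈ nb Δ Y, g ≠ v → g ∈ F' := by
    intro g hg hgv
    rw [hEq] at hg
    exact (Finset.mem_insert.1 (hYn hg)).resolve_left hgv
  refine ⟨hc.down F' hFS.face _ ?_, ?_⟩
  · intro g hg
    rcases Finset.mem_insert.1 hg with h1 | h1
    · exact h1 ▸ hfF'
    · rw [Finset.mem_sdiff, Finset.mem_singleton] at h1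
      exact hFF g h1.1 h1.2
  · obtain ⟨f', hf'⟩ := hne
    rw [Finset.mem_sdiff] at hf'
    refine ⟨f', hf'.1, fun e => hf'.2 (e ▸ hfF'), fun h1 => hf'.2 (hFF f' h1 ?_)⟩
    rintro rfl
    have : f' ∈ nb Δ {f'} := by
      rw [hL.eq]
      exact Finset.mem_insert_of_mem hf'.1
    exact (mem_nb.1 this).2.1 (Finset.mem_singleton_self _)

/-- **H94** -/
theorem tH94 (h93 : StmtH93) : StmtH94 := by
  intro V _ _ Δ v B x F hL Y hY c hcF hcone hvcx f hfF hfn F0 P Q hCS
  have hc := hL.bad.inP.cx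
  have hFS1 := (h93 V Δ v B x F hL).1 Y hY.1
  obtain ⟨hxF, _, hside⟩ := hL.sep _ _ _ hFS1
  have hxY := hY.1.2.1
  have hF2 : F \ (nb Δ Y \ {v}) ⊆ (vs Δ \ {v}) \ (Y ∪ nb Δ Y) := by
    rcases hside with h1 | h1
    · exact h1.2
    · exfalso
      have := (Finset.mem_sdiff.1 h1.1).2
      exact this (Finset.mem_union_left _ hxY)
  have hfY : f ∉ Y := by
    have h1 := hF2 (Finset.mem_sdiff.2 ⟨hfF, fun h1 => hfn (Finset.mem_sdiff.1 h1).1⟩)
    exact fun h2 => (Finset.mem_sdiff.1 h1).2 (Finset.mem_union_left _ h2)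
  have hfx : ¬ adj Δ f x := fun h1 => hfn (hc.mem_nb_of hfY (touch_single_left.2 ⟨x, hxY, h1⟩))
  have hfnv : f ∈ nb Δ {v} := by
    rw [hL.eq]
    exact Finset.mem_insert_of_mem hfF
  have hxnv : x ∈ nb Δ {v} := by
    rw [hL.eq]
    exact Finset.mem_insert_self _ _
  have hvf : v ≠ f := (hc.mem_nb_single.1 hfnv).1
  have hvx : v ≠ x := (hc.mem_nb_single.1 hxnv).1
  have hcx : c ≠ x := by
    rintro rfl
    exact hL.xF hcF
  have hcadj : ∀ u ∈ vs Δ, u ≠ v → u ≠ c → adj Δ c u := by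
    intro u hu huv huc
    exact ⟨Ne.symm huc, hcone.2 {u} (mem_vs.1 hu) (by
      rw [Finset.mem_singleton]
      exact Ne.symm huv)⟩
  have hcv : c ∈ vs Δ := hc.sub_vs hL.face hcF
  have hcf : c ≠ f := by
    rintro rfl
    exact hfx (hcadj x (nb_sub hxnv) (Ne.symm hvx) (Ne.symm hcx))
  have hface : insert f F0 ∈ Δ := by
    rcases hCS.face with h1 | h1
    · exact h1
    · have hF0 : F0 ⊆ insert x F := by
        intro u hu
        rw [← hL.eq, hc.mem_nb_single]
        refine hc.adj_of_face h1 (Finset.mem_insert_self _ _) (Finset.mem_insert_of_mem hu) ?_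
        rintro rfl
        exact hCS.na hu
      by_cases hxF0 : x ∈ F0
      · exfalso
        have hcF0 : c ∈ F0 := by
          by_contra hno
          have hcPQ : c ∈ P ∪ Q := by
            rw [hCS.un, Finset.mem_sdiff, Finset.mem_sdiff, Finset.mem_insert,
              Finset.mem_singleton, not_or]
            exact ⟨⟨hcv, hcone.1, hcf⟩, hno⟩
          have hsubP : ∀ u ∈ P ∪ Q, u ∈ vs Δ ∧ u ≠ v := by
            intro u hu
            rw [hCS.un, Finset.mem_sdiff, Finset.mem_sdiff, Finset.mem_insert,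
              Finset.mem_singleton, not_or] at hu
            exact ⟨hu.1.1, hu.1.2.1⟩
          rcases Finset.mem_union.1 hcPQ with h2 | h2
          · obtain ⟨q, hq⟩ := hCS.neQ
            have h3 := hsubP q (Finset.mem_union_right _ hq)
            have hqc : q ≠ c := by
              rintro rfl
              exact Finset.disjoint_left.1 hCS.d h2 hq
            exact hCS.nt ⟨c, h2, q, hq, hcadj q h3.1 h3.2 hqc⟩
          · obtain ⟨q, hq⟩ := hCS.neP
            have h3 := hsubP q (Finset.mem_union_left _ hq)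
            have hqc : q ≠ c := by
              rintro rfl
              exact Finset.disjoint_left.1 hCS.d hq h2
            exact hCS.nt ⟨q, hq, c, h2, adj_symm (hcadj q h3.1 h3.2 hqc)⟩
        refine hvcx (hc.down _ h1 _ ?_)
        intro u hu
        simp only [Finset.mem_insert, Finset.mem_singleton] at hu ⊢
        rcases hu with rfl | rfl | rfl
        · exact Or.inl rfl
        · exact Or.inr hcF0
        · exact Or.inr hxF0
      · refine hc.down F hL.face _ ?_
        intro u hu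
        rcases Finset.mem_insert.1 hu with h2 | h2
        · exact h2 ▸ hfF
        · rcases Finset.mem_insert.1 (hF0 h2) with h3 | h3
          · exact absurd (h3 ▸ h2) hxF0
          · exact h3
  have hFS : FS Δ v (insert f F0) P Q := by
    refine ⟨hface, ?_, ?_, hCS.d, hCS.neP, hCS.neQ, hCS.nt⟩
    · rw [Finset.mem_insert, not_or]
      exact ⟨hvf, hCS.na⟩
    · rw [hCS.un]
      ext u
      simp only [Finset.mem_sdiff, Finset.mem_insert, Finset.mem_singleton, not_or]
      tauto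
  obtain ⟨_, hne, h1 | h1⟩ := hL.sep _ _ _ hFS
  · exact H94_step h93 hL hY hfY hfn (Finset.mem_insert_self _ _) hFS h1.1 hne
  · exact H94_step h93 hL hY hfY hfn (Finset.mem_insert_self _ _) hFS.symm h1.1 hne

end Pool.Agent.Lib.MP_73b196_co.St
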