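import Pool.Agent.Lib.MP_73b196_co.St.HSpecC
import Pool.Agent.Lib.MP_73b196_co.St.H83

/-!
# Theorem H, module H95
-/

set_option autoImplicit false

namespace Pool.Agent.Lib.MP_73b196_co.St

variable {V : Type} [Fintype V] [DecidableEq V] {Δ : Set (Finset V)} {A B C D E F G S X Y : Finset V}
  {a b c d e f f' g i j l v x y z : V}

theorem H95_conn (hne : A.Nonempty) (hA : Clq Δ A) : Conn Δ A := by
  refine ⟨hA.1, hne, ?_⟩
  rintro B hB ⟨b, hb⟩ ⟨c, hc⟩
  refine ⟨b, hb, c, hc, hA.2 b (hB hb) c (Finset.mem_sdiff.1 hc).1 ?_⟩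
  rintro rfl
  exact (Finset.mem_sdiff.1 hc).2 hb

/-- The hollow triangle with one vertex in the face `G` and two vertices in `F`. -/
theorem H95_key (h : InP Δ) (hY : Conn Δ Y) (hvY : v ∉ Y) (hv : v ∈ vs Δ) (hvt : touch Δ {v} Y)
    (hgY : g ∉ Y) (hgt : touch Δ {g} Y) (hgv : g ≠ v) (hngv : ¬ adj Δ v g)
    (hfY : f ∉ Y) (hfn : ∀ y ∈ Y, ¬ adj Δ f y) (hfv : adj Δ v f)
    (hfY' : f' ∉ Y) (hfn' : ∀ y ∈ Y, ¬ adj Δ f' y) (hfv' : adj Δ v f') (hh : Hol Δ g f f') :
    False := by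
  have hΔ := h.cx
  have hcY : Conn Δ (insert v Y) := hY.insert hv hvt
  have hm : CM Δ [{g}, insert v Y, {f}, {f'}] := by
    refine HC1_cm4 (conn_single (hΔ.adj_vs hh.1).1) hcY (conn_single (hΔ.adj_vs hh.1).2)
      (conn_single (hΔ.adj_vs hh.2.1).2) ⟨?_, ?_⟩ (H83_ss hh.1) (H83_ss hh.2.1) ⟨?_, ?_⟩ ⟨?_, ?_⟩
      (H83_ss hh.2.2.1)
    · rw [Finset.disjoint_singleton_left, Finset.mem_insert, not_or]
      exact ⟨hgv, hgY⟩
    · exact touch_mono (Finset.Subset.refl _) (Finset.subset_insert _ _) hgt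
    · rw [Finset.disjoint_singleton_right, Finset.mem_insert, not_or]
      exact ⟨hfv.1.symm, hfY⟩
    · exact ⟨v, by simp, f, by simp, hfv⟩
    · rw [Finset.disjoint_singleton_right, Finset.mem_insert, not_or]
      exact ⟨hfv'.1.symm, hfY'⟩
    · exact ⟨v, by simp, f', by simp, hfv'⟩
  refine h.k4three hm ?_ ?_ ?_
  · rw [HC1_fill3]
    rintro ⟨F, hF, h1, ⟨w, hw⟩, h3⟩
    rw [HC1_s] at h1 h3
    rw [Finset.mem_inter, Finset.mem_insert] at hw
    rcases hw with ⟨hwF, rfl | hw⟩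
    · exact hngv (hΔ.adj_of_face hF hwF h1 (Ne.symm hgv))
    · exact hfn w hw (hΔ.adj_of_face hF h3 hwF (fun e => hfY (e ▸ hw)))
  · rw [HC1_fill3]
    rintro ⟨F, hF, h1, ⟨w, hw⟩, h3⟩
    rw [HC1_s] at h1 h3
    rw [Finset.mem_inter, Finset.mem_insert] at hw
    rcases hw with ⟨hwF, rfl | hw⟩
    · exact hngv (hΔ.adj_of_face hF hwF h1 (Ne.symm hgv))
    · exact hfn' w hw (hΔ.adj_of_face hF h3 hwF (fun e => hfY' (e ▸ hw)))
  · rw [hΔ.fill_three]
    exact hh.2.2.2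

/-- **H95**. -/
theorem tH95 (h93 : StmtH93) (h5 : StmtHT5) : StmtH95 := by
  intro V _ _ Δ v B x F hl Y hY hins htwo
  have h := hl.bad.inP
  have hΔ := h.cx
  obtain ⟨hYc, hxY, hvY, hFs, hneY⟩ := id hY
  have fs := (h93 V Δ v B x F hl).1 Y hY
  obtain ⟨hxFs, hFne, hsep⟩ := hl.sep _ _ _ fs
  have hsub : F \ (nb Δ Y \ {v}) ⊆ (vs Δ \ {v}) \ (Y ∪ nb Δ Y) := by
    rcases hsep with h1 | h1
    · exact h1.2
    · exact absurd hxY (fun h2 => Finset.disjoint_left.1 fs.d h2 h1.1)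
  have hvN : v ∉ nb Δ {v} := fun h1 => (mem_nb.1 h1).2.1 (Finset.mem_singleton_self v)
  have hvF : v ∉ F := by
    intro h1
    apply hvN
    rw [hl.eq]
    exact Finset.mem_insert_of_mem h1
  have hvv : v ∈ vs Δ := hl.mop.cA.1 (Finset.mem_singleton_self v)
  have hvF' : ∀ f ∈ F, adj Δ v f := by
    intro f hf
    rw [← hΔ.mem_nb_single, hl.eq]
    exact Finset.mem_insert_of_mem hf
  have hvx : adj Δ v x := by
    rw [← hΔ.mem_nb_single, hl.eq]
    exact Finset.mem_insert_self _ _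
  have hvt : touch Δ {v} Y := touch_single_left.2 ⟨x, hxY, hvx⟩
  have hvnb : v ∈ nb Δ Y := hΔ.mem_nb_of hvY hvt
  -- membership in the two parts
  have m2 : ∀ f, f ∈ F \ (nb Δ Y \ {v}) ↔ f ∈ F ∧ f ∉ nb Δ Y := by
    intro f
    rw [Finset.mem_sdiff, Finset.mem_sdiff, Finset.mem_singleton]
    constructor
    · rintro ⟨h1, h2⟩
      refine ⟨h1, fun h3 => h2 ⟨h3, ?_⟩⟩
      rintro rfl
      exact hvF h1
    · rintro ⟨h1, h2⟩
      exact ⟨h1, fun h3 => h2 h3.1⟩
  have hnY : ∀ f ∈ F \ (nb Δ Y \ {v}), f ∉ Y ∧ ∀ y ∈ Y, ¬ adj Δ f y := by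
    intro f hf
    have h1 := hsub hf
    refine ⟨?_, ?_⟩
    · rw [Finset.mem_sdiff, Finset.mem_union, not_or] at h1
      exact h1.2.1
    · intro y hy hfy
      exact fs.nt ⟨y, hy, f, h1, adj_symm hfy⟩
  have hface : ∀ f ∈ F \ (nb Δ Y \ {v}), insert f (nb Δ Y \ {v}) ∈ Δ := by
    intro f hf
    rw [m2] at hf
    exact hins f hf.1 hf.2
  have hne2 : ∀ f ∈ F \ (nb Δ Y \ {v}), ∀ g ∈ nb Δ Y \ {v}, f ≠ g := by
    rintro f hf g hg rfl
    exact (Finset.mem_sdiff.1 hf).2 hg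
  have hadj2 : ∀ f ∈ F \ (nb Δ Y \ {v}), ∀ g ∈ nb Δ Y \ {v}, adj Δ f g := by
    intro f hf g hg
    exact hΔ.adj_of_face (hface f hf) (Finset.mem_insert_self _ _) (Finset.mem_insert_of_mem hg)
      (hne2 f hf g hg)
  have hFF : F \ (nb Δ Y \ {v}) ⊆ F := Finset.sdiff_subset
  set F2 := F \ (nb Δ Y \ {v}) with hF2
  set Fs := nb Δ Y \ {v} with hFsd
  have hclq : Clq Δ (F2 ∪ Fs) := by
    refine ⟨Finset.union_subset (hFF.trans (hΔ.sub_vs hl.face)) (hΔ.sub_vs hFs), ?_⟩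
    intro s hs t ht hst
    rcases Finset.mem_union.1 hs with hs | hs <;> rcases Finset.mem_union.1 ht with ht | ht
    · exact hΔ.adj_of_face hl.face (hFF hs) (hFF ht) hst
    · exact hadj2 s hs t ht
    · exact adj_symm (hadj2 t ht s hs)
    · exact hΔ.adj_of_face hFs hs ht hst
  have hkey : ∀ g ∈ Fs, ∀ f ∈ F2, ∀ f' ∈ F2, ¬ Hol Δ g f f' := by
    intro g hg f hf f' hf' hh
    have hgF : g ∉ F := by
      intro h1
      exact hh.2.2.2 (hΔ.down F hl.face _ (Finset.insert_subset h1 (Finset.insert_subset (hFF hf)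
        (Finset.singleton_subset_iff.2 (hFF hf')))))
    have hg' := Finset.mem_sdiff.1 hg
    have hgn := mem_nb.1 hg'.1
    have hgv : g ≠ v := by
      rw [Finset.mem_singleton] at hg'
      exact hg'.2
    refine H95_key h hYc hvY hvv hvt hgn.2.1 hgn.2.2 hgv ?_ (hnY f hf).1 (hnY f hf).2
      (hvF' f (hFF hf)) (hnY f' hf').1 (hnY f' hf').2 (hvF' f' (hFF hf')) hh
    intro h1
    rw [← hΔ.mem_nb_single, hl.eq, Finset.mem_insert] at h1
    rcases h1 with rfl | h1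
    · exact hxFs hg
    · exact hgF h1
  have hU : F2 ∪ Fs ∈ Δ := by
    refine h.mem_of_noHol hclq ?_
    intro a ha b hb c hc hh
    have hins' : ∀ f ∈ F2 ∪ Fs, insert f Fs ∈ Δ := by
      intro f hf
      rcases Finset.mem_union.1 hf with hf | hf
      · exact hface f hf
      · rw [Finset.insert_eq_self.2 hf]
        exact hFs
    rcases Finset.mem_union.1 ha with ha' | ha' <;> rcases Finset.mem_union.1 hb with hb' | hb' <;>
      rcases Finset.mem_union.1 hc with hc' | hc'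
    · exact hh.2.2.2 (hΔ.down F hl.face _ (Finset.insert_subset (hFF ha')
        (Finset.insert_subset (hFF hb') (Finset.singleton_subset_iff.2 (hFF hc')))))
    · exact hkey c hc' a ha' b hb' hh.rot.rot
    · exact hkey b hb' a ha' c hc' hh.swap
    · exact hh.2.2.2 (hΔ.down _ (hins' a ha) _ (Finset.insert_subset (by simp)
        (Finset.insert_subset (by simp [hb']) (Finset.singleton_subset_iff.2 (by simp [hc'])))))
    · exact hkey a ha' b hb' c hc' hh
    · exact hh.2.2.2 (hΔ.down _ (hins' b hb) _ (Finset.insert_subset (by simp [ha'])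
        (Finset.insert_subset (by simp) (Finset.singleton_subset_iff.2 (by simp [hc'])))))
    · exact hh.2.2.2 (hΔ.down _ (hins' c hc) _ (Finset.insert_subset (by simp [ha'])
        (Finset.insert_subset (by simp [hb']) (Finset.singleton_subset_iff.2 (by simp)))))
    · exact hh.2.2.2 (hΔ.down _ hFs _ (Finset.insert_subset ha'
        (Finset.insert_subset hb' (Finset.singleton_subset_iff.2 hc'))))
  -- everything is `Y ∪ {v} ∪ F2 ∪ Fs`
  have hall : ∀ w ∈ vs Δ, w = v ∨ w ∈ Y ∨ w ∈ F2 ∨ w ∈ Fs := by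
    have hcY : Conn Δ (insert v Y) := hYc.insert hvv hvt
    have hnb : nb Δ (insert v Y) ⊆ F2 ∪ Fs := by
      intro w hw
      obtain ⟨hwv, hwY, hwt⟩ := mem_nb.1 hw
      rw [Finset.mem_insert, not_or] at hwY
      have hwt' : touch Δ {w} Y ∨ adj Δ v w := by
        obtain ⟨y, hy, hwy⟩ := touch_single_left.1 hwt
        rcases Finset.mem_insert.1 hy with rfl | hy
        · exact Or.inr (adj_symm hwy)
        · exact Or.inl (touch_single_left.2 ⟨y, hy, hwy⟩)
      by_cases hwn : w ∈ nb Δ Y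
      · refine Finset.mem_union_right _ ?_
        rw [hFsd, Finset.mem_sdiff, Finset.mem_singleton]
        exact ⟨hwn, hwY.1⟩
      · rcases hwt' with h1 | h1
        · exact absurd (hΔ.mem_nb_of hwY.2 h1) hwn
        · rw [← hΔ.mem_nb_single, hl.eq, Finset.mem_insert] at h1
          rcases h1 with rfl | h1
          · exact absurd hxY hwY.2
          · exact Finset.mem_union_left _ ((m2 w).2 ⟨h1, hwn⟩)
    intro w hw
    by_contra hn
    rw [not_or, not_or, not_or] at hn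
    refine nb_notMem hΔ hl.bad.conn hcY ⟨w, ?_⟩ (hΔ.down _ hU _ hnb)
    rw [Finset.mem_sdiff, Finset.mem_union, Finset.mem_insert, not_or, not_or]
    refine ⟨hw, ⟨hn.1, hn.2.1⟩, fun h1 => ?_⟩
    rcases Finset.mem_union.1 (hnb h1) with h2 | h2
    · exact hn.2.2.1 h2
    · exact hn.2.2.2 h2
  have hvF2 : v ∉ F2 := fun h1 => hvF (hFF h1)
  obtain ⟨f0, hf0⟩ := hFne
  have hclq2 : Clq Δ F2 :=
    ⟨hFF.trans (hΔ.sub_vs hl.face), fun s hs t ht hst =>
      hΔ.adj_of_face hl.face (hFF hs) (hFF ht) hst⟩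
  have hfull : Full Δ F2 Y := by
    refine ⟨H95_conn ⟨f0, hf0⟩ hclq2, hYc, ?_, ?_⟩
    · rw [Finset.disjoint_left]
      exact fun f hf => (hnY f hf).1
    · ext w
      constructor
      · intro hw
        obtain ⟨hwv, hwF, hwt⟩ := mem_nb.1 hw
        rcases hall w hwv with rfl | h1 | h1 | h1
        · exact hvnb
        · obtain ⟨f, hf, hwf⟩ := touch_single_left.1 hwt
          exact absurd (adj_symm hwf) ((hnY f hf).2 w h1)
        · exact absurd h1 hwF
        · exact (Finset.mem_sdiff.1 h1).1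
      · intro hw
        by_cases hwv : w = v
        · subst hwv
          exact hΔ.mem_nb_of hvF2 (touch_single_left.2 ⟨f0, hf0, hvF' f0 (hFF hf0)⟩)
        · have hwFs : w ∈ Fs := by
            rw [hFsd, Finset.mem_sdiff, Finset.mem_singleton]
            exact ⟨hw, hwv⟩
          refine hΔ.mem_nb_of (fun h1 => hne2 w h1 w hwFs rfl)
            (touch_single_left.2 ⟨f0, hf0, adj_symm (hadj2 f0 hf0 w hwFs)⟩)
  have hmin : ∀ A' B' : Finset V, Full Δ A' B' → A' ⊆ F2 → A' = F2 := by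
    intro A' B' hf hA
    by_contra hne
    obtain ⟨f', hf', hfA'⟩ : ∃ f' ∈ F2, f' ∉ A' := by
      by_contra hn
      push Not at hn
      exact hne (Finset.Subset.antisymm hA hn)
    obtain ⟨f, hfA⟩ := hf.cA.2.1
    have hfF2 := hA hfA
    have hff' : adj Δ f' f := hclq2.2 f' hf' f hfF2 (fun e => hfA' (e ▸ hfA))
    have h1 : f' ∈ nb Δ A' := hΔ.mem_nb_of hfA' (touch_single_left.2 ⟨f, hfA, hff'⟩)
    obtain ⟨w, hw, hfw⟩ := touch_single_left.1 (hf.com h1).2.2.2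
    have hdis : ∀ s ∈ A', s ∉ B' := fun s hs hs' => Finset.disjoint_left.1 hf.d hs hs'
    have hwA : w ∉ A' := fun h2 => hdis w h2 hw
    have hfw' : adj Δ w f := by
      have hwf : w ≠ f := fun e => hwA (e ▸ hfA)
      rcases hall w (hΔ.adj_vs hfw).2 with rfl | h2 | h2 | h2
      · exact hvF' f (hFF hfF2)
      · exact absurd hfw ((hnY f' hf').2 w h2)
      · exact hclq2.2 w h2 f hfF2 hwf
      · exact adj_symm (hadj2 f hfF2 w h2)
    have h2 : w ∈ nb Δ A' := hΔ.mem_nb_of hwA (touch_single_left.2 ⟨f, hfA, hfw'⟩)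
    exact (hf.com h2).2.1 hw
  obtain ⟨a, ha⟩ := h5 V Δ hl.bad F2 Y hfull hmin
  obtain ⟨f, hf, hfn, f', hf', hff', hfn'⟩ := htwo
  have h1 : f ∈ F2 := (m2 f).2 ⟨hf, hfn⟩
  have h2 : f' ∈ F2 := (m2 f').2 ⟨hf', hfn'⟩
  rw [ha, Finset.mem_singleton] at h1 h2
  exact hff' (h2.trans h1.symm)

end Pool.Agent.Lib.MP_73b196_co.St
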