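import Pool.Agent.Lib.MP_73b196_co.St.HSpecA

/-!
# Theorem H, base case: HA
-/

set_option autoImplicit false

namespace Pool.Agent.Lib.MP_73b196_co.St

variable {V : Type} [Fintype V] [DecidableEq V] {Δ : Set (Finset V)} {A B C D E S F W : Finset V}
  {a b c d p q s t u v w x y z : V}

theorem HA_cm3 (hA : Conn Δ A) (hB : Conn Δ B) (hC : Conn Δ C)
    (hAB : Disjoint A B ∧ touch Δ A B) (hAC : Disjoint A C ∧ touch Δ A C)
    (hBC : Disjoint B C ∧ touch Δ B C) : CM Δ [A, B, C] := by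
  refine ⟨?_, ?_⟩
  · intro T hT
    simp only [List.mem_cons, List.not_mem_nil, or_false] at hT
    rcases hT with rfl | rfl | rfl <;> assumption
  · simp only [List.pairwise_cons, List.mem_cons, List.not_mem_nil, or_false,
      forall_eq_or_imp, forall_eq]
    exact ⟨⟨hAB, hAC⟩, hBC, fun T hT => absurd hT (by simp), List.Pairwise.nil⟩

theorem HA_clq (hC : Clq Δ C) (hne : C.Nonempty) : Conn Δ C := by
  refine ⟨hC.1, hne, ?_⟩
  rintro B hB ⟨x, hx⟩ ⟨y, hy⟩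
  have hy' := Finset.mem_sdiff.1 hy
  refine ⟨x, hx, y, hy, hC.2 x (hB hx) y hy'.1 ?_⟩
  rintro rfl
  exact hy'.2 hx

/-- The common hollow triangles in `S`. -/
theorem HA_hol (h1 : StmtHA1) (h2 : StmtHA2) (h : BC Δ S a b) (hS : Clq Δ S) :
    ∃ u ∈ S, ∃ v ∈ S, adj Δ u v ∧ (∃ w ∈ S, w ≠ u ∧ w ≠ v) ∧
      (∀ w ∈ S, w ≠ u → w ≠ v → Hol Δ u v w) ∧
      ∀ x ∈ S, ∀ y ∈ S, ∀ z ∈ S, Hol Δ x y z →
        u ∈ ({x, y, z} : Finset V) ∧ v ∈ ({x, y, z} : Finset V) := by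
  obtain ⟨u, hu, v, hv, w, hw, hh, hau, hav, haw, hn, h3, h4⟩ := h1 V Δ S a b h hS a h.ha
  have h5 : ∀ x ∈ S, ∀ y ∈ S, ∀ z ∈ S, Hol Δ x y z →
      u ∈ ({x, y, z} : Finset V) ∧ v ∈ ({x, y, z} : Finset V) := fun x hx y hy z hz hxyz =>
    h4 x hx y hy z hz (h.sa x hx) (h.sa y hy) (h.sa z hz) hxyz
  refine ⟨u, hu, v, hv, hh.1, ⟨w, hw, hh.2.1.1.symm, hh.2.2.1.1.symm⟩, ?_, h5⟩
  intro q hq hqu hqv
  obtain ⟨x, hx, y, hy, hqxy⟩ := h2 V Δ S a b h hS q hq
  have h6 := h5 q hq x hx y hy hqxy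
  simp only [Finset.mem_insert, Finset.mem_singleton] at h6
  have huv : u ≠ v := hh.1.1
  rcases h6 with ⟨h7 | h7 | h7, h8 | h8 | h8⟩
  · exact absurd h7.symm hqu
  · exact absurd h7.symm hqu
  · exact absurd h7.symm hqu
  · exact absurd h8.symm hqv
  · exact absurd (h7.trans h8.symm) huv
  · subst h7 h8
    exact hqxy.rot
  · exact absurd h8.symm hqv
  · subst h7 h8
    exact hqxy.rot.swap
  · exact absurd (h7.trans h8.symm) huv

/-- The vertices outside `S`. -/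
theorem HA_out (h1 : StmtHA1) (h : BC Δ S a b) (hS : Clq Δ S) (huv : adj Δ u v)
    (hu : u ∈ S) (hv : v ∈ S)
    (hW : ∀ w ∈ S, w ≠ u → w ≠ v → Hol Δ u v w)
    (h5 : ∀ x ∈ S, ∀ y ∈ S, ∀ z ∈ S, Hol Δ x y z →
        u ∈ ({x, y, z} : Finset V) ∧ v ∈ ({x, y, z} : Finset V)) (hc : c ∈ vs Δ \ S) :
    adj Δ c u ∧ adj Δ c v ∧ ∃ w' ∈ S, w' ≠ u ∧ w' ≠ v ∧ adj Δ c w' ∧
      (({c, u, v} : Finset V) ∈ Δ → (∀ w ∈ S, w ≠ u → w ≠ v → adj Δ c w → w = w') ∧
        (({c, u, w'} : Finset V) ∉ Δ ∨ ({c, v, w'} : Finset V) ∉ Δ)) := by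
  obtain ⟨uc, huc, vc, hvc, wc, hwc, hh, acu, acv, acw, hn, h3, h4⟩ := h1 V Δ S a b h hS c hc
  have h6 := h5 uc huc vc hvc wc hwc hh
  have huv' : u ≠ v := huv.1
  have hadj : ∀ x ∈ ({uc, vc, wc} : Finset V), adj Δ c x := by
    intro x hx
    simp only [Finset.mem_insert, Finset.mem_singleton] at hx
    rcases hx with rfl | rfl | rfl <;> assumption
  refine ⟨hadj u h6.1, hadj v h6.2, ?_⟩
  have acu' := hadj u h6.1
  have acv' := hadj v h6.2
  have key : ∀ w', w' ∈ S → w' ≠ u → w' ≠ v → adj Δ c w' →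
      (({uc, vc} : Finset V) = {u, v} ∨ ({uc, vc} : Finset V) = {u, w'} ∨
        ({uc, vc} : Finset V) = {v, w'}) → ∃ w' ∈ S, w' ≠ u ∧ w' ≠ v ∧ adj Δ c w' ∧
      (({c, u, v} : Finset V) ∈ Δ → (∀ w ∈ S, w ≠ u → w ≠ v → adj Δ c w → w = w') ∧
        (({c, u, w'} : Finset V) ∉ Δ ∨ ({c, v, w'} : Finset V) ∉ Δ)) := by
    intro w' hw' hwu hwv hcw hcase
    refine ⟨w', hw', hwu, hwv, hcw, fun hface => ?_⟩
    have h7 : w' ∈ ({uc, vc} : Finset V) := by
      rcases hcase with e | e | e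
      · rw [e] at hn
        exact absurd hface hn
      · rw [e]; simp
      · rw [e]; simp
    refine ⟨?_, ?_⟩
    · intro w hw hwu2 hwv2 hcw2
      have h8 := h4 u hu v hv w hw acu' acv' hcw2 (hW w hw hwu2 hwv2)
      have h9 : w' ∈ ({u, v, w} : Finset V) := by
        simp only [Finset.mem_insert, Finset.mem_singleton] at h7
        rcases h7 with e | e
        · rw [e]; exact h8.1
        · rw [e]; exact h8.2
      simp only [Finset.mem_insert, Finset.mem_singleton] at h9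
      rcases h9 with e | e | e
      · exact absurd e hwu
      · exact absurd e hwv
      · exact e.symm
    · rcases hcase with e | e | e
      · rw [e] at hn
        exact absurd hface hn
      · left
        rw [← e]; exact hn
      · right
        rw [← e]; exact hn
  have n1 : uc ≠ vc := hh.1.1
  have n2 : uc ≠ wc := hh.2.1.1
  have n3 : vc ≠ wc := hh.2.2.1.1
  simp only [Finset.mem_insert, Finset.mem_singleton] at h6
  rcases h6 with ⟨e1 | e1 | e1, e2 | e2 | e2⟩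
  · exact absurd (e1.trans e2.symm) huv'
  · subst e1 e2
    exact key wc hwc n2.symm n3.symm acw (Or.inl rfl)
  · subst e1 e2
    exact key vc hvc n1.symm n3 acv (Or.inr (Or.inl rfl))
  · subst e1 e2
    exact key wc hwc n3.symm n2.symm acw (Or.inl (Finset.pair_comm _ _))
  · exact absurd (e1.trans e2.symm) huv'
  · subst e1 e2
    exact key uc huc n1 n2 acu (Or.inr (Or.inl (Finset.pair_comm _ _)))
  · subst e1 e2
    exact key vc hvc n3 n1.symm acv (Or.inr (Or.inr rfl))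
  · subst e1 e2
    exact key uc huc n2 n1 acu (Or.inr (Or.inr (Finset.pair_comm _ _)))
  · exact absurd (e1.trans e2.symm) huv'

theorem tHA (h1 : StmtHA1) (h2 : StmtHA2) : StmtHA := by
  classical
  intro V _ _ Δ S a b h hS
  have hcx := h.inP.cx
  obtain ⟨u, hu, v, hv, huv, ⟨w0, hw0, hw0u, hw0v⟩, hW, h5⟩ := HA_hol h1 h2 h hS
  have hout := fun {c : V} (hc : c ∈ vs Δ \ S) => HA_out h1 h hS huv hu hv hW h5 hc
  have huS := h.sub hu
  have hvS := h.sub hv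
  have huv' : u ≠ v := huv.1
  have key3 : ∀ {F : Finset V} {x y z : V}, F ∈ Δ → x ∈ F → y ∈ F → z ∈ F →
      ({x, y, z} : Finset V) ∈ Δ := by
    intro F x y z hF hx hy hz
    exact hcx.down F hF _ (Finset.insert_subset hx (Finset.insert_subset hy
      (Finset.singleton_subset_iff.2 hz)))
  let W : Finset V := S \ {u, v}
  have mW : ∀ {w}, w ∈ W ↔ w ∈ S ∧ w ≠ u ∧ w ≠ v := by
    intro w
    simp only [W, Finset.mem_sdiff, Finset.mem_insert, Finset.mem_singleton, not_or]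
  let P3 : V → Prop := fun c => ({c, u, v} : Finset V) ∉ Δ
  let P2 : V → Prop := fun c => ({c, u, v} : Finset V) ∈ Δ ∧
    ∃ w ∈ W, adj Δ c w ∧ ({c, u, w} : Finset V) ∉ Δ
  let P1 : V → Prop := fun c => ({c, u, v} : Finset V) ∈ Δ ∧
    ¬ ∃ w ∈ W, adj Δ c w ∧ ({c, u, w} : Finset V) ∉ Δ
  let X1 : Finset V := {u} ∪ (vs Δ \ S).filter P1
  let X2 : Finset V := {v} ∪ (vs Δ \ S).filter P2
  let X3 : Finset V := W ∪ (vs Δ \ S).filter P3
  have m1 : ∀ {t}, t ∈ X1 ↔ t = u ∨ (t ∈ vs Δ \ S ∧ P1 t) := by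
    intro t
    simp only [X1, Finset.mem_union, Finset.mem_singleton, Finset.mem_filter]
  have m2 : ∀ {t}, t ∈ X2 ↔ t = v ∨ (t ∈ vs Δ \ S ∧ P2 t) := by
    intro t
    simp only [X2, Finset.mem_union, Finset.mem_singleton, Finset.mem_filter]
  have m3 : ∀ {t}, t ∈ X3 ↔ t ∈ W ∨ (t ∈ vs Δ \ S ∧ P3 t) := by
    intro t
    simp only [X3, Finset.mem_union, Finset.mem_filter]
  have hWv : W ⊆ vs Δ := fun t ht => h.sub (mW.1 ht).1
  have hWc : Conn Δ W := by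
    refine HA_clq ⟨hWv, ?_⟩ ⟨w0, mW.2 ⟨hw0, hw0u, hw0v⟩⟩
    intro x hx y hy hxy
    exact hS.2 x (mW.1 hx).1 y (mW.1 hy).1 hxy
  have c1 : Conn Δ X1 := by
    refine (conn_single huS).attach ((Finset.filter_subset _ _).trans Finset.sdiff_subset) ?_
    intro c hc
    exact touch_single.2 (hout (Finset.mem_filter.1 hc).1).1
  have c2 : Conn Δ X2 := by
    refine (conn_single hvS).attach ((Finset.filter_subset _ _).trans Finset.sdiff_subset) ?_
    intro c hc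
    exact touch_single.2 (hout (Finset.mem_filter.1 hc).1).2.1
  have c3 : Conn Δ X3 := by
    refine hWc.attach ((Finset.filter_subset _ _).trans Finset.sdiff_subset) ?_
    intro c hc
    obtain ⟨-, -, w', hw', hwu, hwv, hcw, -⟩ := hout (Finset.mem_filter.1 hc).1
    exact ⟨c, by simp, w', mW.2 ⟨hw', hwu, hwv⟩, hcw⟩
  have nS : ∀ {t s}, t ∈ vs Δ \ S → s ∈ S → t ≠ s := by
    rintro t s ht hs rfl
    exact (Finset.mem_sdiff.1 ht).2 hs
  have d12 : Disjoint X1 X2 := by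
    rw [Finset.disjoint_left]
    intro t h6 h7
    rcases m1.1 h6 with e | ⟨h8, h9⟩ <;> rcases m2.1 h7 with e' | ⟨h8', h9'⟩
    · exact huv' (e.symm.trans e')
    · exact nS h8' hu e
    · exact nS h8 hv e'
    · exact h9.2 h9'.2
  have d13 : Disjoint X1 X3 := by
    rw [Finset.disjoint_left]
    intro t h6 h7
    rcases m1.1 h6 with e | ⟨h8, h9⟩ <;> rcases m3.1 h7 with e' | ⟨h8', h9'⟩
    · exact (mW.1 e').2.1 e
    · exact nS h8' hu e
    · exact nS h8 (mW.1 e').1 rfl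
    · exact h9' h9.1
  have d23 : Disjoint X2 X3 := by
    rw [Finset.disjoint_left]
    intro t h6 h7
    rcases m2.1 h6 with e | ⟨h8, h9⟩ <;> rcases m3.1 h7 with e' | ⟨h8', h9'⟩
    · exact (mW.1 e').2.2 e
    · exact nS h8' hv e
    · exact nS h8 (mW.1 e').1 rfl
    · exact h9' h9.1
  have mu : u ∈ X1 := m1.2 (Or.inl rfl)
  have mv : v ∈ X2 := m2.2 (Or.inl rfl)
  have mw : w0 ∈ X3 := m3.2 (Or.inl (mW.2 ⟨hw0, hw0u, hw0v⟩))
  have hh0 := hW w0 hw0 hw0u hw0v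
  refine h.nchp ⟨X1, X2, X3, HA_cm3 c1 c2 c3 ⟨d12, u, mu, v, mv, huv⟩
    ⟨d13, u, mu, w0, mw, hh0.2.1⟩ ⟨d23, v, mv, w0, mw, hh0.2.2.1⟩, ?_, ?_⟩
  · ext t
    simp only [Finset.mem_union]
    constructor
    · rintro ((h6 | h6) | h6)
      · exact c1.1 h6
      · exact c2.1 h6
      · exact c3.1 h6
    · intro ht
      by_cases htS : t ∈ S
      · by_cases htu : t = u
        · exact Or.inl (Or.inl (m1.2 (Or.inl htu)))
        · by_cases htv : t = v
          · exact Or.inl (Or.inr (m2.2 (Or.inl htv)))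
          · exact Or.inr (m3.2 (Or.inl (mW.2 ⟨htS, htu, htv⟩)))
      · have ht' : t ∈ vs Δ \ S := Finset.mem_sdiff.2 ⟨ht, htS⟩
        by_cases h6 : ({t, u, v} : Finset V) ∈ Δ
        · by_cases h7 : ∃ w ∈ W, adj Δ t w ∧ ({t, u, w} : Finset V) ∉ Δ
          · exact Or.inl (Or.inr (m2.2 (Or.inr ⟨ht', h6, h7⟩)))
          · exact Or.inl (Or.inl (m1.2 (Or.inr ⟨ht', h6, h7⟩)))
        · exact Or.inr (m3.2 (Or.inr ⟨ht', h6⟩))
  · rintro ⟨F, hF, hL⟩
    obtain ⟨t1, h6⟩ := hL X1 (by simp)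
    obtain ⟨t2, h7⟩ := hL X2 (by simp)
    obtain ⟨t3, h8⟩ := hL X3 (by simp)
    rw [Finset.mem_inter] at h6 h7 h8
    have n12 : t1 ≠ t2 := by
      rintro rfl
      exact Finset.disjoint_left.1 d12 h6.2 h7.2
    have n13 : t1 ≠ t3 := by
      rintro rfl
      exact Finset.disjoint_left.1 d13 h6.2 h8.2
    have n23 : t2 ≠ t3 := by
      rintro rfl
      exact Finset.disjoint_left.1 d23 h7.2 h8.2
    have a12 := hcx.adj_of_face hF h6.1 h7.1 n12
    have a13 := hcx.adj_of_face hF h6.1 h8.1 n13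
    have a23 := hcx.adj_of_face hF h7.1 h8.1 n23
    rcases m3.1 h8.2 with e3 | ⟨e3, q3⟩
    · have hw3 := mW.1 e3
      rcases m2.1 h7.2 with e2 | ⟨e2, q2⟩
      · rcases m1.1 h6.2 with e1 | ⟨e1, q1⟩
        · subst e1 e2
          exact (hW t3 hw3.1 hw3.2.1 hw3.2.2).2.2.2 (key3 hF h6.1 h7.1 h8.1)
        · subst e2
          obtain ⟨-, -, w', hw', hwu, hwv, hcw, himp⟩ := hout e1
          obtain ⟨h9, h10⟩ := himp q1.1
          have e4 : t3 = w' := h9 t3 hw3.1 hw3.2.1 hw3.2.2 a13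
          subst e4
          rcases h10 with h10 | h10
          · exact q1.2 ⟨t3, e3, a13, h10⟩
          · exact h10 (key3 hF h6.1 h7.1 h8.1)
      · rcases m1.1 h6.2 with e1 | ⟨e1, q1⟩
        · subst e1
          obtain ⟨-, -, w', hw', hwu, hwv, hcw, himp⟩ := hout e2
          obtain ⟨h9, h10⟩ := himp q2.1
          have e4 : t3 = w' := h9 t3 hw3.1 hw3.2.1 hw3.2.2 a23
          obtain ⟨w1, hw1, h11, h12⟩ := q2.2
          have hw1' := mW.1 hw1
          have e5 : w1 = w' := h9 w1 hw1'.1 hw1'.2.1 hw1'.2.2 h11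
          rw [e5, ← e4] at h12
          exact h12 (key3 hF h7.1 h6.1 h8.1)
        · exact h.ind _ e1 _ e2 a12
    · rcases m2.1 h7.2 with e2 | ⟨e2, q2⟩
      · rcases m1.1 h6.2 with e1 | ⟨e1, q1⟩
        · subst e1 e2
          exact q3 (key3 hF h8.1 h6.1 h7.1)
        · exact h.ind _ e1 _ e3 a13
      · exact h.ind _ e2 _ e3 a23

end Pool.Agent.Lib.MP_73b196_co.St
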