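import Pool.Agent.Lib.MP_73b196_co.St.HSpecA

/-!
# Theorem H, base case: the vertices outside a clique separator
-/

set_option autoImplicit false

namespace Pool.Agent.Lib.MP_73b196_co.St

theorem HA1_share {V : Type} [DecidableEq V] {c x y : V} {T : Finset V}
    (h : 2 ≤ (({c, x, y} : Finset V) ∩ T).card) (hc : c ∉ T) : x ∈ T ∧ y ∈ T := by
  constructor
  · by_contra hx
    have h1 : (({c, x, y} : Finset V) ∩ T) ⊆ {y} := by
      intro t ht
      simp only [Finset.mem_inter, Finset.mem_insert, Finset.mem_singleton] at ht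
      rw [Finset.mem_singleton]
      rcases ht with ⟨rfl | rfl | rfl, h2⟩
      · exact absurd h2 hc
      · exact absurd h2 hx
      · rfl
    have := Finset.card_le_card h1
    rw [Finset.card_singleton] at this
    omega
  · by_contra hx
    have h1 : (({c, x, y} : Finset V) ∩ T) ⊆ {x} := by
      intro t ht
      simp only [Finset.mem_inter, Finset.mem_insert, Finset.mem_singleton] at ht
      rw [Finset.mem_singleton]
      rcases ht with ⟨rfl | rfl | rfl, h2⟩
      · exact absurd h2 hc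
      · rfl
      · exact absurd h2 hx
    have := Finset.card_le_card h1
    rw [Finset.card_singleton] at this
    omega

/-- The other pole. -/
theorem HA1_pole {V : Type} [Fintype V] [DecidableEq V] {Δ : Set (Finset V)} {S : Finset V}
    {a b : V} (h : BC Δ S a b) {c : V} (hc : c ∈ vs Δ \ S) :
    ∃ d ∈ vs Δ \ S, c ≠ d ∧ (∀ s ∈ S, adj Δ d s) ∧ Pl Δ {c} {d} := by
  have key : ∀ d ∈ vs Δ \ S, c ≠ d → Pl Δ {c} {d} := by
    intro d hd hcd
    refine ⟨conn_single (Finset.mem_sdiff.1 hc).1, conn_single (Finset.mem_sdiff.1 hd).1, ?_, ?_⟩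
    · rw [Finset.disjoint_singleton]
      exact hcd
    · rw [touch_single]
      exact h.ind c hc d hd
  by_cases hca : c = a
  · subst hca
    exact ⟨b, h.hb, h.hab, h.sb, key b h.hb h.hab⟩
  · exact ⟨a, h.ha, hca, h.sa, key a h.ha hca⟩

theorem HA1_com {V : Type} [Fintype V] [DecidableEq V] {Δ : Set (Finset V)} {c d t : V}
    (h1 : adj Δ c t) (h2 : adj Δ d t) : Com Δ {c} {d} t := by
  refine ⟨?_, ?_, touch_single.2 (adj_symm h1), touch_single.2 (adj_symm h2)⟩
  · rw [Finset.mem_singleton]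
    exact h1.1.symm
  · rw [Finset.mem_singleton]
    exact h2.1.symm

theorem HA1_nbS {V : Type} [Fintype V] [DecidableEq V] {Δ : Set (Finset V)} {S : Finset V}
    {a b : V} (h : BC Δ S a b) {c : V} (hc : c ∈ vs Δ \ S) : nb Δ {c} ⊆ S := by
  intro v hv
  by_contra hn
  exact h.ind c hc v (Finset.mem_sdiff.2 ⟨nb_sub hv, hn⟩) (h.inP.cx.mem_nb_single.1 hv)

theorem HA1_nface {V : Type} [Fintype V] [DecidableEq V] {Δ : Set (Finset V)} {S : Finset V}
    {a b : V} (h : BC Δ S a b) {c : V} (hc : c ∈ vs Δ \ S) : nb Δ {c} ∉ Δ := by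
  obtain ⟨d, hd, hcd, -, -⟩ := HA1_pole h hc
  refine nb_notMem h.inP.cx h.conn (conn_single (Finset.mem_sdiff.1 hc).1) ⟨d, ?_⟩
  rw [Finset.mem_sdiff, Finset.mem_union, not_or, Finset.mem_singleton]
  exact ⟨(Finset.mem_sdiff.1 hd).1, hcd.symm, fun hn => (Finset.mem_sdiff.1 hd).2
    (HA1_nbS h hc hn)⟩

theorem tHA1 : StmtHA1 := by
  intro V _ _ Δ S a b h hS c hc
  have hcx := h.inP.cx
  have hNS := HA1_nbS h hc
  have hcS := (Finset.mem_sdiff.1 hc).2
  have hNclq : Clq Δ (nb Δ {c}) :=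
    ⟨nb_sub, fun x hx y hy hxy => hS.2 x (hNS hx) y (hNS hy) hxy⟩
  obtain ⟨x0, hx0, y0, hy0, z0, hz0, hT0⟩ : ∃ x ∈ nb Δ {c}, ∃ y ∈ nb Δ {c}, ∃ z ∈ nb Δ {c},
      Hol Δ x y z := by
    by_contra hn
    refine HA1_nface h hc (h.inP.mem_of_noHol hNclq ?_)
    intro x hx y hy z hz hxyz
    exact hn ⟨x, hx, y, hy, z, hz, hxyz⟩
  obtain ⟨d, hd, hcd, hdS, hpl⟩ := HA1_pole h hc
  have hadj : ∀ x, x ∈ nb Δ {c} ↔ adj Δ c x := fun x => hcx.mem_nb_single
  have hcom : ∀ x ∈ nb Δ {c}, Com Δ {c} {d} x := fun x hx =>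
    HA1_com ((hadj x).1 hx) (hdS x (hNS hx))
  obtain ⟨u, hu, v, hv, w, hw, hT, huv⟩ : ∃ u ∈ nb Δ {c}, ∃ v ∈ nb Δ {c}, ∃ w ∈ nb Δ {c},
      Hol Δ u v w ∧ ({c, u, v} : Finset V) ∉ Δ := by
    by_contra hn
    refine hpl.r5 h.inP (hcom x0 hx0) (hcom y0 hy0) (hcom z0 hz0) hT0 ⟨?_, ?_, ?_⟩
    · rw [hcx.fill_three]
      by_contra hn'
      exact hn ⟨x0, hx0, y0, hy0, z0, hz0, hT0, hn'⟩
    · rw [hcx.fill_three]
      by_contra hn'
      exact hn ⟨x0, hx0, z0, hz0, y0, hy0, hT0.rot.rot.swap, hn'⟩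
    · rw [hcx.fill_three]
      by_contra hn'
      exact hn ⟨y0, hy0, z0, hz0, x0, hx0, hT0.rot, hn'⟩
  have hcu := (hadj u).1 hu
  have hcv := (hadj v).1 hv
  have hcw := (hadj w).1 hw
  -- the clique {c} ∪ N(c)
  have hK : Clq Δ (insert c (nb Δ {c})) := by
    refine ⟨Finset.insert_subset (Finset.mem_sdiff.1 hc).1 nb_sub, ?_⟩
    intro x hx y hy hxy
    rcases Finset.mem_insert.1 hx with rfl | hx
    · rcases Finset.mem_insert.1 hy with rfl | hy
      · exact absurd rfl hxy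
      · exact (hadj y).1 hy
    · rcases Finset.mem_insert.1 hy with rfl | hy
      · exact adj_symm ((hadj x).1 hx)
      · exact hNclq.2 x hx y hy hxy
  have hcK : c ∈ insert c (nb Δ {c}) := Finset.mem_insert_self _ _
  have hinK : ∀ x, adj Δ c x → x ∈ insert c (nb Δ {c}) := fun x hx =>
    Finset.mem_insert_of_mem ((hadj x).2 hx)
  refine ⟨u, hNS hu, v, hNS hv, w, hNS hw, hT, hcu, hcv, hcw, huv, ?_, ?_⟩
  · intro x hx y hy hcx' hcy hxy hn
    have hhol : Hol Δ c x y := ⟨hcx', hcy, hS.2 x hx y hy hxy, hn⟩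
    have hshare := h.inP.hol_share hK hcK (hinK x hcx') (hinK y hcy) (hinK u hcu) (hinK v hcv)
      (hinK w hcw) hhol hT
    have hcT : c ∉ ({u, v, w} : Finset V) := by
      simp only [Finset.mem_insert, Finset.mem_singleton, not_or]
      exact ⟨hcu.1, hcv.1, hcw.1⟩
    obtain ⟨hxT, hyT⟩ := HA1_share hshare hcT
    -- not two edges of T unfilled
    have h5 : ∀ p q r : V, Hol Δ p q r → p ∈ nb Δ {c} → q ∈ nb Δ {c} → r ∈ nb Δ {c} →
        ({c, p, q} : Finset V) ∉ Δ → ({c, p, r} : Finset V) ∉ Δ → False := by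
      intro p q r hpqr hp hq hr h1 h2
      have hcp := (hadj p).1 hp
      have hcq := (hadj q).1 hq
      have hcr := (hadj r).1 hr
      rcases h.inP.r5' (conn_single (Finset.mem_sdiff.1 hc).1)
        (fun e => hcp.1 (Finset.mem_singleton.1 e).symm)
        (fun e => hcq.1 (Finset.mem_singleton.1 e).symm)
        (fun e => hcr.1 (Finset.mem_singleton.1 e).symm)
        (touch_single.2 (adj_symm hcp)) (touch_single.2 (adj_symm hcq))
        (touch_single.2 (adj_symm hcr)) hpqr with h3 | h3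
      · exact h1 (hcx.fill_three.1 h3)
      · exact h2 (hcx.fill_three.1 h3)
    have hsw : ∀ p q : V, ({c, p, q} : Finset V) = {c, q, p} := fun p q => by
      rw [Finset.pair_comm p q]
    simp only [Finset.mem_insert, Finset.mem_singleton] at hxT hyT
    rcases hxT with rfl | rfl | rfl <;> rcases hyT with rfl | rfl | rfl
    · exact absurd rfl hxy
    · rfl
    · exact (h5 x v y hT hu hv hw huv hn).elim
    · exact Finset.pair_comm _ _
    · exact absurd rfl hxy
    · exact (h5 x u y hT.swap hv hu hw (by rw [hsw]; exact huv) hn).elim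
    · exact (h5 y v x hT hu hv hw huv (by rw [hsw]; exact hn)).elim
    · exact (h5 y u x hT.swap hv hu hw (by rw [hsw]; exact huv) (by rw [hsw]; exact hn)).elim
    · exact absurd rfl hxy
  · intro x hx y hy z hz hcx' hcy hcz hxyz
    have hhol : Hol Δ c u v := ⟨hcu, hcv, hT.1, huv⟩
    have hshare := h.inP.hol_share hK hcK (hinK u hcu) (hinK v hcv) (hinK x hcx') (hinK y hcy)
      (hinK z hcz) hhol hxyz
    have hcT : c ∉ ({x, y, z} : Finset V) := by
      simp only [Finset.mem_insert, Finset.mem_singleton, not_or]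
      exact ⟨hcx'.1, hcy.1, hcz.1⟩
    exact HA1_share hshare hcT

end Pool.Agent.Lib.MP_73b196_co.St
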