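import Pool.Agent.Lib.MP_73b196_co.St.HSpecA

/-!
# Theorem H, base case: every vertex of a clique separator lies in a hollow triangle
-/

set_option autoImplicit false

namespace Pool.Agent.Lib.MP_73b196_co.St

theorem tHA2 (h1 : StmtHA1) : StmtHA2 := by
  intro V _ _ Δ S a b h hS q hq
  have hcx := h.inP.cx
  by_contra hno
  have hno' : ∀ x ∈ S, ∀ y ∈ S, ¬ Hol Δ q x y := fun x hx y hy hn => hno ⟨x, hx, y, hy, hn⟩
  have hqv : q ∈ vs Δ := h.sub hq
  -- triples in S are filled
  have hfS : ∀ s ∈ S, ∀ t ∈ S, adj Δ s t → s ≠ q → t ≠ q → ({q, s, t} : Finset V) ∈ Δ := by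
    intro s hs t ht hst hsq htq
    by_contra hn
    exact hno' s hs t ht ⟨hS.2 q hq s hs hsq.symm, hS.2 q hq t ht htq.symm, hst, hn⟩
  have hqc : ∀ c ∈ vs Δ \ S, adj Δ q c ∧ ∀ s ∈ S, adj Δ c s → s ≠ q →
      ({q, c, s} : Finset V) ∈ Δ := by
    intro c hc
    have hcS := (Finset.mem_sdiff.1 hc).2
    obtain ⟨u, hu, v, hv, w, hw, hT, hcu, hcv, hcw, huv, h2, -⟩ := h1 V Δ S a b h hS c hc
    have hqu : u ≠ q := by
      rintro rfl
      exact hno' v hv w hw hT
    have hqv' : v ≠ q := by
      rintro rfl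
      exact hno' u hu w hw hT.swap
    have hqw : w ≠ q := by
      rintro rfl
      exact hno' u hu v hv hT.rot.rot
    have hqc : q ≠ c := fun e => hcS (e ▸ hq)
    have hadj : adj Δ q c := by
      by_contra hn
      have hpl : Pl Δ {q} {c} := by
        refine ⟨conn_single hqv, conn_single (Finset.mem_sdiff.1 hc).1, ?_, ?_⟩
        · rw [Finset.disjoint_singleton]
          exact hqc
        · rw [touch_single]
          exact hn
      have hcom : ∀ t ∈ S, t ≠ q → adj Δ c t → Com Δ {q} {c} t := by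
        intro t ht htq hct
        refine ⟨?_, ?_, touch_single.2 (hS.2 t ht q hq htq), touch_single.2 (adj_symm hct)⟩
        · rw [Finset.mem_singleton]
          exact htq
        · rw [Finset.mem_singleton]
          exact hct.1.symm
      refine hpl.r5 h.inP (hcom u hu hqu hcu) (hcom v hv hqv' hcv) (hcom w hw hqw hcw) hT
        ⟨?_, ?_, ?_⟩
      · rw [hcx.fill_three]
        exact hfS u hu v hv hT.1 hqu hqv'
      · rw [hcx.fill_three]
        exact hfS u hu w hw hT.2.1 hqu hqw
      · rw [hcx.fill_three]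
        exact hfS v hv w hw hT.2.2.1 hqv' hqw
    refine ⟨hadj, ?_⟩
    intro s hs hcs hsq
    by_contra hn
    rw [Finset.insert_comm] at hn
    have h3 := h2 q hq s hs (adj_symm hadj) hcs hsq.symm hn
    have h4 : q ∈ ({u, v} : Finset V) := by
      rw [← h3]
      exact Finset.mem_insert_self _ _
    simp only [Finset.mem_insert, Finset.mem_singleton] at h4
    rcases h4 with h4 | h4
    · exact hqu h4.symm
    · exact hqv' h4.symm
  refine h.noApex q (h.inP.apex_of hqv ?_ ?_)
  · intro v hv hvq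
    by_cases hvS : v ∈ S
    · exact hS.2 q hq v hvS hvq.symm
    · exact (hqc v (Finset.mem_sdiff.2 ⟨hv, hvS⟩)).1
  · intro u v huv huq hvq
    obtain ⟨hu, hv⟩ := hcx.adj_vs huv
    by_cases huS : u ∈ S
    · by_cases hvS : v ∈ S
      · exact hfS u huS v hvS huv huq hvq
      · rw [Finset.pair_comm u v]
        exact (hqc v (Finset.mem_sdiff.2 ⟨hv, hvS⟩)).2 u huS (adj_symm huv) huq
    · by_cases hvS : v ∈ S
      · exact (hqc u (Finset.mem_sdiff.2 ⟨hu, huS⟩)).2 v hvS huv hvq
      · exact absurd huv (h.ind u (Finset.mem_sdiff.2 ⟨hu, huS⟩) v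
          (Finset.mem_sdiff.2 ⟨hv, hvS⟩))

end Pool.Agent.Lib.MP_73b196_co.St
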