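import Pool.Agent.Lib.MP_73b196_co.St.HSpecA

/-!
# Theorem H, base case: no hollow triangle in a separator which is no clique
-/

set_option autoImplicit false

namespace Pool.Agent.Lib.MP_73b196_co.St

theorem tHB0 : StmtHB0 := by
  intro V _ _ Δ S a b h hS x hx y hy z hz hT
  have hpl : Pl Δ {a} {b} := by
    refine ⟨conn_single (Finset.mem_sdiff.1 h.ha).1, conn_single (Finset.mem_sdiff.1 h.hb).1, ?_, ?_⟩
    · rw [Finset.disjoint_singleton]
      exact h.hab
    · rw [touch_single]
      exact h.ind a h.ha b h.hb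
  have hcom : ∀ t ∈ S, Com Δ {a} {b} t := by
    intro t ht
    have h1 := h.sa t ht
    have h2 := h.sb t ht
    refine ⟨?_, ?_, touch_single.2 (adj_symm h1), touch_single.2 (adj_symm h2)⟩
    · rw [Finset.mem_singleton]
      exact h1.1.symm
    · rw [Finset.mem_singleton]
      exact h2.1.symm
  refine hS ⟨h.sub, ?_⟩
  intro s hs t ht hst
  exact hpl.r2 h.inP (hcom x hx) (hcom y hy) (hcom z hz) hT (hcom s hs) (hcom t ht) hst

end Pool.Agent.Lib.MP_73b196_co.St
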