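import Pool.Agent.Lib.MP_73b196_co.St.HSpecA

/-!
# Statement HB1 of the base case of Theorem H
-/

set_option autoImplicit false

namespace Pool.Agent.Lib.MP_73b196_co.St

/-- **HB1** -/
theorem tHB1 (h0 : StmtHB0) : StmtHB1 := by
  intro V _ _ Δ S a b h hncl hout p hp hpS
  have hcx := h.inP.cx
  have ha := Finset.mem_sdiff.1 h.ha
  have hb := Finset.mem_sdiff.1 h.hb
  have hne : ∀ u ∈ vs Δ \ S, ∀ s ∈ S, u ≠ s := by
    rintro u hu s hs rfl
    exact (Finset.mem_sdiff.1 hu).2 hs
  have hpall : ∀ v ∈ vs Δ, v ≠ p → adj Δ p v := by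
    intro v hv hvp
    by_cases hvS : v ∈ S
    · exact hpS v hvS hvp
    · rcases hout v (Finset.mem_sdiff.2 ⟨hv, hvS⟩) with rfl | rfl
      · exact adj_symm (h.sa p hp)
      · exact adj_symm (h.sb p hp)
  have hPl : Pl Δ {a} {b} := ⟨conn_single ha.1, conn_single hb.1,
    Finset.disjoint_singleton.2 h.hab, fun ht => h.ind a h.ha b h.hb (touch_single.1 ht)⟩
  have hCom : ∀ s ∈ S, Com Δ {a} {b} s := by
    intro s hs
    refine ⟨?_, ?_, touch_single.2 (adj_symm (h.sa s hs)), touch_single.2 (adj_symm (h.sb s hs))⟩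
    · rw [Finset.mem_singleton]
      exact (hne a h.ha s hs).symm
    · rw [Finset.mem_singleton]
      exact (hne b h.hb s hs).symm
  -- the unfilled triple
  obtain ⟨y, hy, hyp, hyf⟩ : ∃ y ∈ S, y ≠ p ∧
      (({a, p, y} : Finset V) ∉ Δ ∨ ({b, p, y} : Finset V) ∉ Δ) := by
    have hna := h.noApex p
    have hex : ∃ s t, adj Δ s t ∧ s ≠ p ∧ t ≠ p ∧ ({p, s, t} : Finset V) ∉ Δ := by
      by_contra hcon
      push Not at hcon
      exact hna (h.inP.apex_of (h.sub hp) hpall fun u v huv hu hv => hcon u v huv hu hv)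
    obtain ⟨s, t, hst, hsp, htp, hf⟩ := hex
    obtain ⟨hs, ht⟩ := hcx.adj_vs hst
    have hswap : ∀ u v : V, ({p, u, v} : Finset V) = {u, p, v} := fun u v =>
      Finset.insert_comm _ _ _
    have hswap' : ∀ u v : V, ({p, u, v} : Finset V) = {v, p, u} := by
      intro u v
      ext w
      simp only [Finset.mem_insert, Finset.mem_singleton]
      tauto
    by_cases hsS : s ∈ S
    · by_cases htS : t ∈ S
      · exact (h0 V Δ S a b h hncl p hp s hsS t htS
          ⟨hpS s hsS hsp, hpS t htS htp, hst, hf⟩).elim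
      · refine ⟨s, hsS, hsp, ?_⟩
        rw [hswap'] at hf
        rcases hout t (Finset.mem_sdiff.2 ⟨ht, htS⟩) with rfl | rfl
        · exact Or.inl hf
        · exact Or.inr hf
    · by_cases htS : t ∈ S
      · refine ⟨t, htS, htp, ?_⟩
        rw [hswap] at hf
        rcases hout s (Finset.mem_sdiff.2 ⟨hs, hsS⟩) with rfl | rfl
        · exact Or.inl hf
        · exact Or.inr hf
      · exact (h.ind s (Finset.mem_sdiff.2 ⟨hs, hsS⟩) t (Finset.mem_sdiff.2 ⟨ht, htS⟩) hst).elim
  -- the rule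
  have key : ∀ x ∈ S, ∀ x' ∈ S, x ≠ x' → ¬ adj Δ x x' → p ≠ x' → y ≠ x' → adj Δ p x →
      adj Δ y x → False := by
    intro x hx x' hx' hxx hn hpx' hyx' hpx hyx
    obtain ⟨f1, f2⟩ := Pl.r3 h.inP hPl (hCom x hx) (hCom x' hx') (hCom p hp) (hCom y hy) hxx hn
      hpx' hyx' (hpS y hy hyp) hpx hyx
    rcases hyf with hyf | hyf
    · exact hyf (hcx.fill_three.1 f1)
    · exact hyf (hcx.fill_three.1 f2)
  refine ⟨y, hy, hyp, ?_, ?_, hyf⟩
  · by_contra hcon
    push Not at hcon
    apply hncl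
    refine ⟨h.sub, ?_⟩
    intro x hx x' hx' hxx
    by_contra hn
    have hpx : p ≠ x := by
      rintro rfl
      exact hn (hpS x' hx' hxx.symm)
    have hpx' : p ≠ x' := by
      rintro rfl
      exact hn (adj_symm (hpS x hx hxx))
    have hyx : y ≠ x := by
      rintro rfl
      exact hn (hcon x' hx' hxx.symm)
    have hyx' : y ≠ x' := by
      rintro rfl
      exact hn (adj_symm (hcon x hx hxx))
    exact key x hx x' hx' hxx hn hpx' hyx' (hpS x hx hpx.symm) (hcon x hx hyx.symm)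
  · intro x hx hxy hadj s hs hsx
    by_contra hn
    have hsy : y ≠ s := by
      rintro rfl
      exact hn hadj
    have hps : p ≠ s := by
      rintro rfl
      exact hn (adj_symm (hpS x hx hsx.symm))
    have hpx : p ≠ x := by
      rintro rfl
      exact hn (hpS s hs hsx)
    exact key x hx s hs hsx.symm hn hps hsy (hpS x hx hpx.symm) (adj_symm hadj)

end Pool.Agent.Lib.MP_73b196_co.St
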