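import Pool.Agent.Lib.MP_73b196_co.St.HSpecA

/-!
# Theorem H, base case: HB2
-/

set_option autoImplicit false

namespace Pool.Agent.Lib.MP_73b196_co.St

variable {V : Type} [Fintype V] [DecidableEq V] {Δ : Set (Finset V)} {A B C D E S F : Finset V}
  {a b c d p q s t u v w x y z : V}

theorem HB2_ss (h : adj Δ x y) : Disjoint ({x} : Finset V) {y} ∧ touch Δ {x} {y} :=
  ⟨Finset.disjoint_singleton.2 h.1, touch_single.2 h⟩

theorem HB2_sp (h1 : x ≠ d) (h2 : x ≠ y) (h : adj Δ x d ∨ adj Δ x y) :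
    Disjoint ({x} : Finset V) {d, y} ∧ touch Δ {x} {d, y} := by
  refine ⟨?_, ?_⟩
  · rw [Finset.disjoint_singleton_left]
    simp [h1, h2]
  · rcases h with h | h
    · exact ⟨x, by simp, d, by simp, h⟩
    · exact ⟨x, by simp, y, by simp, h⟩

theorem HB2_ps (h1 : x ≠ d) (h2 : x ≠ y) (h : adj Δ x d ∨ adj Δ x y) :
    Disjoint ({d, y} : Finset V) {x} ∧ touch Δ {d, y} {x} :=
  ⟨(HB2_sp h1 h2 h).1.symm, touch_symm (HB2_sp h1 h2 h).2⟩

theorem HB2_cm4 (hA : Conn Δ A) (hB : Conn Δ B) (hC : Conn Δ C) (hD : Conn Δ D)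
    (hAB : Disjoint A B ∧ touch Δ A B) (hAC : Disjoint A C ∧ touch Δ A C)
    (hAD : Disjoint A D ∧ touch Δ A D) (hBC : Disjoint B C ∧ touch Δ B C)
    (hBD : Disjoint B D ∧ touch Δ B D) (hCD : Disjoint C D ∧ touch Δ C D) :
    CM Δ [A, B, C, D] := by
  refine ⟨?_, ?_⟩
  · intro T hT
    simp only [List.mem_cons, List.not_mem_nil, or_false] at hT
    rcases hT with rfl | rfl | rfl | rfl <;> assumption
  · simp only [List.pairwise_cons, List.mem_cons, List.not_mem_nil, or_false,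
      forall_eq_or_imp, forall_eq]
    exact ⟨⟨hAB, hAC, hAD⟩, ⟨hBC, hBD⟩, hCD, fun T hT => absurd hT (by simp), List.Pairwise.nil⟩

theorem HB2_cm5 (hA : Conn Δ A) (hB : Conn Δ B) (hC : Conn Δ C) (hD : Conn Δ D) (hE : Conn Δ E)
    (hAB : Disjoint A B ∧ touch Δ A B) (hAC : Disjoint A C ∧ touch Δ A C)
    (hAD : Disjoint A D ∧ touch Δ A D) (hAE : Disjoint A E ∧ touch Δ A E)
    (hBC : Disjoint B C ∧ touch Δ B C)
    (hBD : Disjoint B D ∧ touch Δ B D) (hBE : Disjoint B E ∧ touch Δ B E)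
    (hCD : Disjoint C D ∧ touch Δ C D) (hCE : Disjoint C E ∧ touch Δ C E)
    (hDE : Disjoint D E ∧ touch Δ D E) :
    CM Δ [A, B, C, D, E] := by
  refine ⟨?_, ?_⟩
  · intro T hT
    simp only [List.mem_cons, List.not_mem_nil, or_false] at hT
    rcases hT with rfl | rfl | rfl | rfl | rfl <;> assumption
  · simp only [List.pairwise_cons, List.mem_cons, List.not_mem_nil, or_false,
      forall_eq_or_imp, forall_eq]
    exact ⟨⟨hAB, hAC, hAD, hAE⟩, ⟨hBC, hBD, hBE⟩, ⟨hCD, hCE⟩, hDE,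
      fun T hT => absurd hT (by simp), List.Pairwise.nil⟩

/-- A face meeting `{x}`, `{w}` and `{d, y}`. -/
theorem HB2_fill (h : IsCx Δ) (hf : fill Δ [{x}, {w}, {d, y}]) :
    ({x, w, d} : Finset V) ∈ Δ ∨ ({x, w, y} : Finset V) ∈ Δ := by
  obtain ⟨F, hF, hL⟩ := hf
  obtain ⟨x', h1⟩ := hL {x} (by simp)
  obtain ⟨w', h2⟩ := hL {w} (by simp)
  obtain ⟨t, h3⟩ := hL {d, y} (by simp)
  rw [Finset.mem_inter, Finset.mem_singleton] at h1 h2
  rw [Finset.mem_inter, Finset.mem_insert, Finset.mem_singleton] at h3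
  obtain ⟨h1, rfl⟩ := h1
  obtain ⟨h2, rfl⟩ := h2
  obtain ⟨h3, rfl | rfl⟩ := h3
  · left
    exact h.down F hF _ (Finset.insert_subset h1 (Finset.insert_subset h2
      (Finset.singleton_subset_iff.2 h3)))
  · right
    exact h.down F hF _ (Finset.insert_subset h1 (Finset.insert_subset h2
      (Finset.singleton_subset_iff.2 h3)))

/-- No face contains two nonadjacent vertices. -/
theorem HB2_na (h : IsCx Δ) (hF : F ∈ Δ) (hx : x ∈ F) (hy : y ∈ F) (hxy : x ≠ y)
    (hn : ¬ adj Δ x y) : False := hn (h.adj_of_face hF hx hy hxy)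

/-- Data for HB2 with the poles `c`, `d`. -/
theorem HB2_core (h : BC Δ S c d) {p' y' : V} (hp : p ∈ S) (hp' : p' ∈ S) (hy : y ∈ S)
    (hy' : y' ∈ S) (ap : ∀ s ∈ S, s ≠ p → adj Δ p s) (ap' : ∀ s ∈ S, s ≠ p' → adj Δ p' s)
    (hz : ∃ z ∈ S, z ≠ y ∧ ¬ adj Δ y z) (hz' : ∃ z ∈ S, z ≠ y' ∧ ¬ adj Δ y' z)
    (hN : ∀ x ∈ S, x ≠ y → adj Δ x y → ∀ s ∈ S, s ≠ x → adj Δ x s)
    (hyp : y ≠ p) (hyp' : y' ≠ p')
    (hu : ({c, p, y} : Finset V) ∉ Δ) :
    (({c, p', y'} : Finset V) ∉ Δ → y = y') ∧ ({d, p', y'} : Finset V) ∈ Δ := by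
  have hcx := h.inP.cx
  have hcS : c ∉ S := (Finset.mem_sdiff.1 h.ha).2
  have hdS : d ∉ S := (Finset.mem_sdiff.1 h.hb).2
  have hcv : c ∈ vs Δ := (Finset.mem_sdiff.1 h.ha).1
  have hdv : d ∈ vs Δ := (Finset.mem_sdiff.1 h.hb).1
  have hcd : ¬ adj Δ c d := h.ind c h.ha d h.hb
  have hdc : ¬ adj Δ d c := h.ind d h.hb c h.ha
  have nS : ∀ {s}, s ∈ S → s ≠ c ∧ s ≠ d := fun {s} hs =>
    ⟨fun e => hcS (e ▸ hs), fun e => hdS (e ▸ hs)⟩
  have conS : ∀ {s}, s ∈ S → Conn Δ {s} := fun {s} hs => conn_single (h.sub hs)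
  have hyy : ∀ {w}, w ∈ S → (∃ z ∈ S, z ≠ w ∧ ¬ adj Δ w z) → y ≠ w → ¬ adj Δ y w := by
    intro w hw hzw hne hadj
    obtain ⟨z, hz, hzn, hna⟩ := hzw
    exact hna (hN w hw hne.symm (adj_symm hadj) z hz hzn)
  have hpne : ∀ {w}, (∃ z ∈ S, z ≠ w ∧ ¬ adj Δ w z) → w ≠ p ∧ w ≠ p' := by
    intro w hzw
    obtain ⟨z, hz, hzn, hna⟩ := hzw
    refine ⟨?_, ?_⟩
    · rintro rfl
      exact hna (ap z hz hzn)
    · rintro rfl
      exact hna (ap' z hz hzn)
  have nyp := hpne hz
  have nyp' := hpne hz'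
  -- adjacencies
  have acp := h.sa p hp
  have acp' := h.sa p' hp'
  have acy := h.sa y hy
  have acy' := h.sa y' hy'
  have adp := h.sb p hp
  have adp' := h.sb p' hp'
  have ady := h.sb y hy
  have ady' := h.sb y' hy'
  have apy := ap y hy nyp.1
  have apy' := ap y' hy' nyp'.1
  have ap'y := ap' y hy nyp.2
  have ap'y' := ap' y' hy' nyp'.2
  refine ⟨fun hu' => ?_, ?_⟩
  · by_contra hne
    have hnyy := hyy hy' hz' hne
    have hE : Conn Δ {d, y'} := conn_pair hcx ady'
    have f1 : ¬ fill Δ [{c}, {p}, {y}] := fun hf => hu (hcx.fill_three.1 hf)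
    have f2 : ¬ fill Δ [{c}, {p'}, {d, y'}] := by
      intro hf
      rcases HB2_fill hcx hf with h1 | h1
      · exact HB2_na hcx h1 (x := c) (y := d) (by simp) (by simp) h.hab hcd
      · exact hu' h1
    have f3 : ¬ fill Δ [{c}, {y}, {d, y'}] := by
      intro hf
      rcases HB2_fill hcx hf with h1 | h1
      · exact HB2_na hcx h1 (x := c) (y := d) (by simp) (by simp) h.hab hcd
      · exact HB2_na hcx h1 (x := y) (y := y') (by simp) (by simp) hne hnyy
    by_cases hpp : p = p'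
    · subst hpp
      refine h.inP.k4three (HB2_cm4 (conn_single hcv) (conS hp) (conS hy) hE (HB2_ss acp)
        (HB2_ss acy) (HB2_sp h.hab (nS hy').1.symm (Or.inr acy')) (HB2_ss apy)
        (HB2_sp (nS hp).2 nyp'.1.symm (Or.inr apy')) (HB2_sp (nS hy).2 hne (Or.inl (adj_symm ady))))
        f1 f2 f3
    · rcases h.inP.k5 {c} {p} {y} {p'} {d, y'} (HB2_cm5 (conn_single hcv) (conS hp) (conS hy)
        (conS hp') hE (HB2_ss acp) (HB2_ss acy) (HB2_ss acp')
        (HB2_sp h.hab (nS hy').1.symm (Or.inr acy')) (HB2_ss apy)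
        (HB2_ss (ap p' hp' (Ne.symm hpp))) (HB2_sp (nS hp).2 nyp'.1.symm (Or.inr apy'))
        (HB2_ss (adj_symm ap'y)) (HB2_sp (nS hy).2 hne (Or.inl (adj_symm ady)))
        (HB2_sp (nS hp').2 nyp'.2.symm (Or.inr ap'y'))) with h1 | h1
      · exact f1 h1
      · exact f2 h1
  · by_contra hu'
    by_cases hne : y = y'
    · subst hne
      obtain ⟨z, hzS, hzy, hnz⟩ := hz
      have hzp : z ≠ p := by
        rintro rfl
        exact hnz (adj_symm apy)
      have hzp' : z ≠ p' := by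
        rintro rfl
        exact hnz (adj_symm ap'y)
      have hE : Conn Δ {d, z} := conn_pair hcx (h.sb z hzS)
      have f1 : ¬ fill Δ [{y}, {c}, {p}] := by
        intro hf
        have h1 := hcx.fill_three.1 hf
        have e : ({y, c, p} : Finset V) = {c, p, y} := by
          ext t; simp only [Finset.mem_insert, Finset.mem_singleton]; tauto
        rw [e] at h1
        exact hu h1
      have f2 : ¬ fill Δ [{y}, {p'}, {d, z}] := by
        intro hf
        rcases HB2_fill hcx hf with h1 | h1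
        · have e : ({y, p', d} : Finset V) = {d, p', y} := by
            ext t; simp only [Finset.mem_insert, Finset.mem_singleton]; tauto
          rw [e] at h1
          exact hu' h1
        · exact HB2_na hcx h1 (x := y) (y := z) (by simp) (by simp) hzy.symm hnz
      have f3 : ¬ fill Δ [{y}, {c}, {d, z}] := by
        intro hf
        rcases HB2_fill hcx hf with h1 | h1
        · exact HB2_na hcx h1 (x := c) (y := d) (by simp) (by simp) h.hab hcd
        · exact HB2_na hcx h1 (x := y) (y := z) (by simp) (by simp) hzy.symm hnz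
      by_cases hpp : p = p'
      · subst hpp
        exact h.inP.k4three (HB2_cm4 (conS hy) (conn_single hcv) (conS hp) hE
          (HB2_ss (adj_symm acy)) (HB2_ss (adj_symm apy))
          (HB2_sp (nS hy).2 hzy.symm (Or.inl (adj_symm ady))) (HB2_ss acp)
          (HB2_sp h.hab (nS hzS).1.symm (Or.inr (h.sa z hzS)))
          (HB2_sp (nS hp).2 hzp.symm (Or.inl (adj_symm adp)))) f1 f3 f2
      · rcases h.inP.k5 {y} {c} {p} {p'} {d, z} (HB2_cm5 (conS hy) (conn_single hcv) (conS hp)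
          (conS hp') hE (HB2_ss (adj_symm acy)) (HB2_ss (adj_symm apy)) (HB2_ss (adj_symm ap'y))
          (HB2_sp (nS hy).2 hzy.symm (Or.inl (adj_symm ady))) (HB2_ss acp) (HB2_ss acp')
          (HB2_sp h.hab (nS hzS).1.symm (Or.inr (h.sa z hzS)))
          (HB2_ss (ap p' hp' (Ne.symm hpp)))
          (HB2_sp (nS hp).2 hzp.symm (Or.inl (adj_symm adp)))
          (HB2_sp (nS hp').2 hzp'.symm (Or.inl (adj_symm adp')))) with h1 | h1
        · exact f1 h1
        · exact f2 h1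
    · have hnyy := hyy hy' hz' hne
      have hE : Conn Δ {d, y} := conn_pair hcx ady
      have f1 : ¬ fill Δ [{d, y}, {c}, {p}] := by
        intro hf
        have hf' : fill Δ [{c}, {p}, {d, y}] := Rules_sub hf (by simp)
        rcases HB2_fill hcx hf' with h1 | h1
        · exact HB2_na hcx h1 (x := c) (y := d) (by simp) (by simp) h.hab hcd
        · exact hu h1
      have f2 : ¬ fill Δ [{d, y}, {p'}, {y'}] := by
        intro hf
        have hf' : fill Δ [{p'}, {y'}, {d, y}] := Rules_sub hf (by simp)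
        rcases HB2_fill hcx hf' with h1 | h1
        · have e : ({p', y', d} : Finset V) = {d, p', y'} := by
            ext t; simp only [Finset.mem_insert, Finset.mem_singleton]; tauto
          rw [e] at h1
          exact hu' h1
        · exact HB2_na hcx h1 (x := y) (y := y') (by simp) (by simp) hne hnyy
      have f3 : ¬ fill Δ [{d, y}, {c}, {y'}] := by
        intro hf
        have hf' : fill Δ [{c}, {y'}, {d, y}] := Rules_sub hf (by simp)
        rcases HB2_fill hcx hf' with h1 | h1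
        · exact HB2_na hcx h1 (x := c) (y := d) (by simp) (by simp) h.hab hcd
        · exact HB2_na hcx h1 (x := y) (y := y') (by simp) (by simp) hne hnyy
      by_cases hpp : p = p'
      · subst hpp
        exact h.inP.k4three (HB2_cm4 hE (conn_single hcv) (conS hp) (conS hy')
          (HB2_ps h.hab (nS hy).1.symm (Or.inr acy)) (HB2_ps (nS hp).2 nyp.1.symm (Or.inr apy))
          (HB2_ps (nS hy').2 (Ne.symm hne) (Or.inl (adj_symm ady'))) (HB2_ss acp) (HB2_ss acy')
          (HB2_ss apy')) f1 f3 f2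
      · rcases h.inP.k5 {d, y} {c} {p} {p'} {y'} (HB2_cm5 hE (conn_single hcv) (conS hp)
          (conS hp') (conS hy') (HB2_ps h.hab (nS hy).1.symm (Or.inr acy))
          (HB2_ps (nS hp).2 nyp.1.symm (Or.inr apy))
          (HB2_ps (nS hp').2 nyp.2.symm (Or.inr ap'y))
          (HB2_ps (nS hy').2 (Ne.symm hne) (Or.inl (adj_symm ady'))) (HB2_ss acp) (HB2_ss acp')
          (HB2_ss acy') (HB2_ss (ap p' hp' (Ne.symm hpp))) (HB2_ss apy') (HB2_ss ap'y'))
          with h1 | h1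
        · exact f1 h1
        · exact f2 h1

theorem tHB2 : StmtHB2 := by
  intro V _ _ Δ S a b h p hp p' hp' y hy y' hy' c hc c' hc' ap ap' hz hz' hN hN' hyp hyp' hu hu'
  have key : ∀ c d, BC Δ S c d → ({c, p, y} : Finset V) ∉ Δ →
      (c' = c ∨ c' = d) → y = y' ∧ c = c' := by
    intro c d hcd hu1 hc'
    have h1 := HB2_core hcd hp hp' hy hy' ap ap' hz hz' hN hyp hyp' hu1
    rcases hc' with rfl | rfl
    · exact ⟨h1.1 hu', rfl⟩
    · exact absurd h1.2 hu'
  simp only [Finset.mem_insert, Finset.mem_singleton] at hc hc'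
  rcases hc with rfl | rfl
  · exact key _ _ h hu hc'
  · exact key _ _ h.symm hu (Or.symm hc')

end Pool.Agent.Lib.MP_73b196_co.St
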