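import Pool.Agent.Lib.MP_73b196_co.St.HSpecA

/-!
# Base case, HB3: a vertex of `S` adjacent to all of `S`, two poles
-/

set_option autoImplicit false

namespace Pool.Agent.Lib.MP_73b196_co.St

theorem HB3_aux {V : Type} [Fintype V] [DecidableEq V] {Δ : Set (Finset V)} {S : Finset V}
    {a b c p y : V} (h1 : StmtHB1) (h2 : StmtHB2) (h : BC Δ S a b) (hn : ¬ Clq Δ S)
    (htwo : ∀ c ∈ vs Δ \ S, c = a ∨ c = b) (hp : p ∈ S) (hpS : ∀ s ∈ S, s ≠ p → adj Δ p s)
    (hy : y ∈ S) (hyp : y ≠ p) (hy' : ∃ y' ∈ S, y' ≠ y ∧ ¬ adj Δ y y')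
    (hnei : ∀ x ∈ S, x ≠ y → adj Δ x y → ∀ s ∈ S, s ≠ x → adj Δ x s)
    (hc : c ∈ ({a, b} : Finset V)) (hcpy : ({c, p, y} : Finset V) ∉ Δ) : False := by
  have hcv : c ∈ vs Δ \ S ∧ adj Δ c y := by
    simp only [Finset.mem_insert, Finset.mem_singleton] at hc
    rcases hc with rfl | rfl
    · exact ⟨h.ha, h.sa y hy⟩
    · exact ⟨h.hb, h.sb y hy⟩
  have key : ∀ v ∈ S, v ≠ y → adj Δ v y → ({c, v, y} : Finset V) ∉ Δ := by
    intro v hv hvy hadj
    have hvS := hnei v hv hvy hadj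
    obtain ⟨y2, hy2, hy2v, hy2', hnei2, hbad⟩ := h1 V Δ S a b h hn htwo v hv hvS
    rcases hbad with hbad | hbad
    · obtain ⟨e1, e2⟩ := h2 V Δ S a b h p hp v hv y hy y2 hy2 c hc a (by simp) hpS hvS hy' hy2'
        hnei hnei2 hyp hy2v hcpy hbad
      rw [e1, e2]
      exact hbad
    · obtain ⟨e1, e2⟩ := h2 V Δ S a b h p hp v hv y hy y2 hy2 c hc b (by simp) hpS hvS hy' hy2'
        hnei hnei2 hyp hy2v hcpy hbad
      rw [e1, e2]
      exact hbad
  have hE : EdgeFacet Δ c y := by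
    refine ⟨hcv.2.1, hcv.2.2, ?_⟩
    intro F hF hcF hyF
    ext v
    simp only [Finset.mem_insert, Finset.mem_singleton]
    constructor
    · intro hv
      by_contra hne
      rw [not_or] at hne
      by_cases hvS : v ∈ S
      · refine key v hvS hne.2 (h.inP.cx.adj_of_face hF hv hyF hne.2) ?_
        refine h.inP.cx.down F hF _ ?_
        intro t ht
        simp only [Finset.mem_insert, Finset.mem_singleton] at ht
        rcases ht with rfl | rfl | rfl <;> assumption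
      · exact h.ind c hcv.1 v (Finset.mem_sdiff.2 ⟨h.inP.cx.sub_vs hF hv, hvS⟩)
          (h.inP.cx.adj_of_face hF hcF hv (Ne.symm hne.1))
    · rintro (rfl | rfl) <;> assumption
  exact h.nchp (chp_of_edgeFacet h.inP.cx h.conn hE)

theorem tHB3 (_h0 : StmtHB0) (h1 : StmtHB1) (h2 : StmtHB2) : StmtHB3 := by
  intro V _ _ Δ S a b h hn htwo p hp hpS
  obtain ⟨y, hy, hyp, hy', hnei, hbad⟩ := h1 V Δ S a b h hn htwo p hp hpS
  rcases hbad with hbad | hbad
  · exact HB3_aux h1 h2 h hn htwo hp hpS hy hyp hy' hnei (c := a) (by simp) hbad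
  · exact HB3_aux h1 h2 h hn htwo hp hpS hy hyp hy' hnei (c := b) (by simp) hbad

end Pool.Agent.Lib.MP_73b196_co.St
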