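import Pool.Agent.Lib.MP_73b196_co.St.HSpecA

/-!
# Base case, HB4: two poles, no vertex of `S` adjacent to all of `S`, an unfilled edge
-/

set_option autoImplicit false

namespace Pool.Agent.Lib.MP_73b196_co.St

variable {V : Type} [Fintype V] [DecidableEq V] {Δ : Set (Finset V)} {A B C D S : Finset V}
  {a b x z : V}

theorem HB4_cm4 (hA : Conn Δ A) (hB : Conn Δ B) (hC : Conn Δ C) (hD : Conn Δ D)
    (hAB : Disjoint A B ∧ touch Δ A B) (hAC : Disjoint A C ∧ touch Δ A C)
    (hAD : Disjoint A D ∧ touch Δ A D) (hBC : Disjoint B C ∧ touch Δ B C)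
    (hBD : Disjoint B D ∧ touch Δ B D) (hCD : Disjoint C D ∧ touch Δ C D) :
    CM Δ [A, B, C, D] := by
  refine ⟨?_, ?_⟩
  · intro T hT
    simp only [List.mem_cons, List.not_mem_nil, or_false] at hT
    rcases hT with rfl | rfl | rfl | rfl <;> assumption
  · simp only [List.pairwise_cons, List.mem_cons, List.not_mem_nil, or_false,
      forall_eq_or_imp, forall_eq]
    refine ⟨⟨hAB, hAC, hAD⟩, ⟨hBC, hBD⟩, hCD, ?_, List.Pairwise.nil⟩
    intro T hT
    exact absurd hT (by simp)

theorem HB4_cm3 (hA : Conn Δ A) (hB : Conn Δ B) (hC : Conn Δ C)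
    (hAB : Disjoint A B ∧ touch Δ A B) (hAC : Disjoint A C ∧ touch Δ A C)
    (hBC : Disjoint B C ∧ touch Δ B C) : CM Δ [A, B, C] := by
  refine ⟨?_, ?_⟩
  · intro T hT
    simp only [List.mem_cons, List.not_mem_nil, or_false] at hT
    rcases hT with rfl | rfl | rfl <;> assumption
  · simp only [List.pairwise_cons, List.mem_cons, List.not_mem_nil, or_false,
      forall_eq_or_imp, forall_eq]
    refine ⟨⟨hAB, hAC⟩, hBC, ?_, List.Pairwise.nil⟩
    intro T hT
    exact absurd hT (by simp)

theorem HB4_pl (h : BC Δ S a b) : Pl Δ {a} {b} := by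
  have ha := Finset.mem_sdiff.1 h.ha
  have hb := Finset.mem_sdiff.1 h.hb
  refine ⟨conn_single ha.1, conn_single hb.1, ?_, ?_⟩
  · rw [Finset.disjoint_singleton]
    exact h.hab
  · rw [touch_single]
    exact h.ind a h.ha b h.hb

theorem HB4_com (h : BC Δ S a b) {s : V} (hs : s ∈ S) : Com Δ {a} {b} s := by
  have ha := Finset.mem_sdiff.1 h.ha
  have hb := Finset.mem_sdiff.1 h.hb
  refine ⟨?_, ?_, touch_single.2 (adj_symm (h.sa s hs)), touch_single.2 (adj_symm (h.sb s hs))⟩
  · rw [Finset.mem_singleton]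
    rintro rfl
    exact ha.2 hs
  · rw [Finset.mem_singleton]
    rintro rfl
    exact hb.2 hs

theorem tHB4 (_h0 : StmtHB0) : StmtHB4 := by
  classical
  intro V _ _ Δ S a b h hn htwo hnu x hx z hz hxz hbad
  have cx := h.inP.cx
  have ha := Finset.mem_sdiff.1 h.ha
  have hb := Finset.mem_sdiff.1 h.hb
  have hab : ¬ adj Δ a b := h.ind a h.ha b h.hb
  have neA : ∀ s ∈ S, s ≠ a := by
    rintro s hs rfl
    exact ha.2 hs
  have neB : ∀ s ∈ S, s ≠ b := by
    rintro s hs rfl
    exact hb.2 hs
  have pl := HB4_pl h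
  have one : ∀ u ∈ S, u ≠ x → u ≠ z → adj Δ u x ∨ adj Δ u z := by
    intro u hu hux huz
    have hm : CM Δ [{a}, {x}, {z}, {b, u}] := by
      refine HB4_cm4 (conn_single ha.1) (conn_single (h.sub hx)) (conn_single (h.sub hz))
        (conn_pair cx (h.sb u hu)) ⟨?_, ?_⟩ ⟨?_, ?_⟩ ⟨?_, ?_⟩ ⟨?_, ?_⟩ ⟨?_, ?_⟩ ⟨?_, ?_⟩
      · rw [Finset.disjoint_singleton]
        exact (neA x hx).symm
      · exact touch_single.2 (h.sa x hx)
      · rw [Finset.disjoint_singleton]
        exact (neA z hz).symm
      · exact touch_single.2 (h.sa z hz)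
      · rw [Finset.disjoint_singleton_left]
        simp only [Finset.mem_insert, Finset.mem_singleton, not_or]
        exact ⟨h.hab, (neA u hu).symm⟩
      · exact touch_single_left.2 ⟨u, by simp, h.sa u hu⟩
      · rw [Finset.disjoint_singleton]
        exact hxz.1
      · exact touch_single.2 hxz
      · rw [Finset.disjoint_singleton_left]
        simp only [Finset.mem_insert, Finset.mem_singleton, not_or]
        exact ⟨neB x hx, hux.symm⟩
      · exact touch_single_left.2 ⟨b, by simp, adj_symm (h.sb x hx)⟩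
      · rw [Finset.disjoint_singleton_left]
        simp only [Finset.mem_insert, Finset.mem_singleton, not_or]
        exact ⟨neB z hz, huz.symm⟩
      · exact touch_single_left.2 ⟨b, by simp, adj_symm (h.sb z hz)⟩
    have key : ∀ w : V, w ≠ u → fill Δ [{a}, {w}, {b, u}] → adj Δ u w := by
      rintro w hwu ⟨F, hF, hFA⟩
      obtain ⟨t1, h1⟩ := hFA {a} (by simp)
      obtain ⟨t2, h2⟩ := hFA {w} (by simp)
      obtain ⟨t3, h3⟩ := hFA {b, u} (by simp)
      simp only [Finset.mem_inter, Finset.mem_singleton, Finset.mem_insert] at h1 h2 h3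
      obtain ⟨h1, rfl⟩ := h1
      obtain ⟨h2, rfl⟩ := h2
      obtain ⟨h3, rfl | rfl⟩ := h3
      · exact absurd (cx.adj_of_face hF h1 h3 h.hab) hab
      · exact cx.adj_of_face hF h3 h2 hwu.symm
    rcases h.inP.k4 _ _ _ _ hm with h4 | h4 | h4
    · exact absurd (cx.fill_three.1 h4) hbad
    · exact Or.inl (key x hux.symm h4)
    · exact Or.inr (key z huz.symm h4)
  have two : ∀ u ∈ S, adj Δ u x → adj Δ u z → False := by
    intro u hu hux huz
    obtain ⟨y, hy, hyu, hny⟩ := hnu u hu
    have hyx : x ≠ y := by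
      rintro rfl
      exact hny hux
    have hyz : z ≠ y := by
      rintro rfl
      exact hny huz
    have := Pl.r3 h.inP pl (HB4_com h hu) (HB4_com h hy) (HB4_com h hx) (HB4_com h hz) hyu.symm hny
      hyx hyz hxz (adj_symm hux) (adj_symm huz)
    exact hbad (cx.fill_three.1 this.1)
  have three : ∀ u ∈ S, ∀ v ∈ S, adj Δ u x → adj Δ v z → u ≠ z → v ≠ x → adj Δ u v → False := by
    intro u hu v hv hux hvz huz hvx huv
    exact Pl.r6 h.inP pl (HB4_com h hx) (HB4_com h hu) (HB4_com h hv) (HB4_com h hz)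
      (adj_symm hux) huv hvz (adj_symm hxz) (fun hxv => two v hv (adj_symm hxv) hvz)
      (fun huz' => two u hu hux huz') hvx.symm huz
  refine h.nchp ⟨{x, b}, {z} ∪ S.filter (fun u => u ≠ x ∧ adj Δ u z),
    {a} ∪ S.filter (fun u => u ≠ z ∧ adj Δ u x), ?_, ?_, ?_⟩
  · refine HB4_cm3 (conn_pair cx (adj_symm (h.sb x hx))) ?_ ?_ ⟨?_, ?_⟩ ⟨?_, ?_⟩ ⟨?_, ?_⟩
    · refine (conn_single (h.sub hz)).attach ((Finset.filter_subset _ _).trans h.sub) ?_
      intro t ht
      exact touch_single.2 (Finset.mem_filter.1 ht).2.2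
    · refine (conn_single ha.1).attach ((Finset.filter_subset _ _).trans h.sub) ?_
      intro t ht
      exact touch_single.2 (adj_symm (h.sa t (Finset.mem_filter.1 ht).1))
    · rw [Finset.disjoint_left]
      intro t ht ht'
      simp only [Finset.mem_insert, Finset.mem_singleton, Finset.mem_union,
        Finset.mem_filter] at ht ht'
      rcases ht with rfl | rfl
      · rcases ht' with ht' | ht'
        · exact hxz.1 ht'
        · exact ht'.2.1 rfl
      · rcases ht' with ht' | ht'
        · exact neB z hz ht'.symm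
        · exact hb.2 ht'.1
    · exact ⟨x, by simp, z, by simp, hxz⟩
    · rw [Finset.disjoint_left]
      intro t ht ht'
      simp only [Finset.mem_insert, Finset.mem_singleton, Finset.mem_union,
        Finset.mem_filter] at ht ht'
      rcases ht with rfl | rfl
      · rcases ht' with ht' | ht'
        · exact neA _ hx ht'
        · exact ht'.2.2.1 rfl
      · rcases ht' with ht' | ht'
        · exact h.hab ht'.symm
        · exact hb.2 ht'.1
    · exact ⟨x, by simp, a, by simp, adj_symm (h.sa x hx)⟩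
    · rw [Finset.disjoint_left]
      intro t ht ht'
      simp only [Finset.mem_singleton, Finset.mem_union, Finset.mem_filter] at ht ht'
      rcases ht with rfl | ht
      · rcases ht' with ht' | ht'
        · exact neA _ hz ht'
        · exact ht'.2.1 rfl
      · rcases ht' with rfl | ht'
        · exact ha.2 ht.1
        · exact two t ht.1 ht'.2.2 ht.2.2
    · exact ⟨z, by simp, a, by simp, adj_symm (h.sa z hz)⟩
  · ext t
    simp only [Finset.mem_insert, Finset.mem_singleton, Finset.mem_union, Finset.mem_filter]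
    constructor
    · rintro (((rfl | rfl) | (rfl | ht)) | (rfl | ht))
      · exact h.sub hx
      · exact hb.1
      · exact h.sub hz
      · exact h.sub ht.1
      · exact ha.1
      · exact h.sub ht.1
    · intro ht
      by_cases htS : t ∈ S
      · by_cases htx : t = x
        · exact Or.inl (Or.inl (Or.inl htx))
        by_cases htz : t = z
        · exact Or.inl (Or.inr (Or.inl htz))
        rcases one t htS htx htz with h1 | h1
        · exact Or.inr (Or.inr ⟨htS, htz, h1⟩)
        · exact Or.inl (Or.inr (Or.inr ⟨htS, htx, h1⟩))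
      · rcases htwo t (Finset.mem_sdiff.2 ⟨ht, htS⟩) with h1 | h1
        · exact Or.inr (Or.inl h1)
        · exact Or.inl (Or.inl (Or.inr h1))
  · rintro ⟨F, hF, hFA⟩
    obtain ⟨p, hp⟩ := hFA {x, b} (by simp)
    obtain ⟨q, hq⟩ := hFA ({z} ∪ S.filter (fun u => u ≠ x ∧ adj Δ u z)) (by simp)
    obtain ⟨r, hr⟩ := hFA ({a} ∪ S.filter (fun u => u ≠ z ∧ adj Δ u x)) (by simp)
    simp only [Finset.mem_inter, Finset.mem_singleton, Finset.mem_insert, Finset.mem_union,
      Finset.mem_filter] at hp hq hr
    obtain ⟨hpF, hp⟩ := hp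
    obtain ⟨hqF, hq⟩ := hq
    obtain ⟨hrF, hr⟩ := hr
    rcases hp with rfl | rfl
    · rcases hq with rfl | hq
      · rcases hr with rfl | hr
        · refine hbad (cx.down F hF _ ?_)
          intro t ht
          simp only [Finset.mem_insert, Finset.mem_singleton] at ht
          rcases ht with rfl | rfl | rfl <;> assumption
        · exact two r hr.1 hr.2.2 (cx.adj_of_face hF hrF hqF hr.2.1)
      · exact two q hq.1 (cx.adj_of_face hF hqF hpF hq.2.1) hq.2.2
    · rcases hr with rfl | hr
      · exact hab (cx.adj_of_face hF hrF hpF h.hab)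
      · rcases hq with rfl | hq
        · exact two r hr.1 hr.2.2 (cx.adj_of_face hF hrF hqF hr.2.1)
        · have hrq : r ≠ q := by
            rintro rfl
            exact two r hr.1 hr.2.2 hq.2.2
          exact three r hr.1 q hq.1 hr.2.2 hq.2.2 hr.2.1 hq.2.1 (cx.adj_of_face hF hrF hqF hrq)

end Pool.Agent.Lib.MP_73b196_co.St
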