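import Pool.Agent.Lib.MP_73b196_co.St.HSpecA

/-!
# Theorem H, base case: HB5
-/

set_option autoImplicit false

namespace Pool.Agent.Lib.MP_73b196_co.St

variable {V : Type} [Fintype V] [DecidableEq V] {Δ : Set (Finset V)} {A B C D E S F : Finset V}
  {a b c d p q s t u v w x y z : V}

theorem HB5_cm3 (hA : Conn Δ A) (hB : Conn Δ B) (hC : Conn Δ C)
    (hAB : Disjoint A B ∧ touch Δ A B) (hAC : Disjoint A C ∧ touch Δ A C)
    (hBC : Disjoint B C ∧ touch Δ B C) : CM Δ [A, B, C] := by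
  refine ⟨?_, ?_⟩
  · intro T hT
    simp only [List.mem_cons, List.not_mem_nil, or_false] at hT
    rcases hT with rfl | rfl | rfl <;> assumption
  · simp only [List.pairwise_cons, List.mem_cons, List.not_mem_nil, or_false,
      forall_eq_or_imp, forall_eq]
    exact ⟨⟨hAB, hAC⟩, hBC, fun T hT => absurd hT (by simp), List.Pairwise.nil⟩

theorem HB5_cm4 (hA : Conn Δ A) (hB : Conn Δ B) (hC : Conn Δ C) (hD : Conn Δ D)
    (hAB : Disjoint A B ∧ touch Δ A B) (hAC : Disjoint A C ∧ touch Δ A C)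
    (hAD : Disjoint A D ∧ touch Δ A D) (hBC : Disjoint B C ∧ touch Δ B C)
    (hBD : Disjoint B D ∧ touch Δ B D) (hCD : Disjoint C D ∧ touch Δ C D) :
    CM Δ [A, B, C, D] := by
  refine ⟨?_, ?_⟩
  · intro T hT
    simp only [List.mem_cons, List.not_mem_nil, or_false] at hT
    rcases hT with rfl | rfl | rfl | rfl <;> assumption
  · simp only [List.pairwise_cons, List.mem_cons, List.not_mem_nil, or_false,
      forall_eq_or_imp, forall_eq]
    exact ⟨⟨hAB, hAC, hAD⟩, ⟨hBC, hBD⟩, hCD, fun T hT => absurd hT (by simp), List.Pairwise.nil⟩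

theorem HB5_na (h : IsCx Δ) (hF : F ∈ Δ) (hx : x ∈ F) (hy : y ∈ F) (hxy : x ≠ y)
    (hn : ¬ adj Δ x y) : False := hn (h.adj_of_face hF hx hy hxy)

theorem HB5_ne (h : BC Δ S a b) : S.Nonempty := by
  by_contra hn
  rw [Finset.not_nonempty_iff_eq_empty] at hn
  have h1 := h.conn ∅ h.inP.cx.empty
  have ha := Finset.mem_sdiff.1 h.ha
  have hb := Finset.mem_sdiff.1 h.hb
  obtain ⟨x, hx, t, ht, hxt⟩ := h1.2.2 {a} (by
    rw [Finset.singleton_subset_iff, Finset.sdiff_empty]; exact ha.1)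
    (Finset.singleton_nonempty a) ⟨b, by
      rw [Finset.mem_sdiff, Finset.sdiff_empty, Finset.mem_singleton]
      exact ⟨hb.1, h.hab.symm⟩⟩
  rw [Finset.mem_singleton] at hx
  subst hx
  rw [Finset.mem_sdiff, Finset.sdiff_empty] at ht
  exact h.ind x h.ha t (by rw [hn, Finset.sdiff_empty]; exact ht.1) hxt

/-- `S` is connected. -/
theorem HB5_conn (h : BC Δ S a b) (h2 : ∀ c ∈ vs Δ \ S, c = a ∨ c = b) : Conn Δ S := by
  by_contra hn
  obtain ⟨s, hs⟩ := HB5_ne h
  obtain ⟨C, hC, hsC⟩ := exists_comp h.sub hs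
  have ha := Finset.mem_sdiff.1 h.ha
  have hb := Finset.mem_sdiff.1 h.hb
  have hne : (S \ C).Nonempty := by
    rw [Finset.sdiff_nonempty]
    intro hSC
    have : C = S := Finset.Subset.antisymm hC.1 hSC
    rw [← this] at hn
    exact hn hC.2.1
  obtain ⟨t, ht⟩ := hne
  have htS := Finset.mem_sdiff.1 ht
  have haC : a ∉ C := fun hx => ha.2 (hC.1 hx)
  have hbC : b ∉ C := fun hx => hb.2 (hC.1 hx)
  have hB : Conn Δ ({b} ∪ (S \ C)) := by
    refine (conn_single hb.1).attach (Finset.sdiff_subset.trans h.sub) ?_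
    intro u hu
    exact touch_single.2 (adj_symm (h.sb u (Finset.mem_sdiff.1 hu).1))
  refine h.nchp ⟨{a}, {b} ∪ (S \ C), C, HB5_cm3 (conn_single ha.1) hB hC.2.1 ⟨?_, ?_⟩ ⟨?_, ?_⟩
    ⟨?_, ?_⟩, ?_, ?_⟩
  · rw [Finset.disjoint_singleton_left]
    simp only [Finset.mem_union, Finset.mem_singleton, Finset.mem_sdiff, not_or, not_and]
    exact ⟨h.hab, fun hx => absurd hx ha.2⟩
  · exact ⟨a, by simp, t, by simp [htS.1, htS.2], h.sa t htS.1⟩
  · rw [Finset.disjoint_singleton_left]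
    exact haC
  · exact ⟨a, by simp, s, hsC, h.sa s hs⟩
  · rw [Finset.disjoint_union_left, Finset.disjoint_singleton_left]
    exact ⟨hbC, Finset.sdiff_disjoint⟩
  · exact ⟨b, by simp, s, hsC, h.sb s hs⟩
  · ext t
    simp only [Finset.mem_union, Finset.mem_singleton, Finset.mem_sdiff]
    constructor
    · rintro ((rfl | rfl | ⟨h1, -⟩) | h1)
      · exact ha.1
      · exact hb.1
      · exact h.sub h1
      · exact h.sub (hC.1 h1)
    · intro h1
      by_cases htS : t ∈ S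
      · by_cases htC : t ∈ C
        · exact Or.inr htC
        · exact Or.inl (Or.inr (Or.inr ⟨htS, htC⟩))
      · rcases h2 t (Finset.mem_sdiff.2 ⟨h1, htS⟩) with rfl | rfl
        · exact Or.inl (Or.inl rfl)
        · exact Or.inl (Or.inr (Or.inl rfl))
  · rintro ⟨F, hF, hL⟩
    obtain ⟨a', h3⟩ := hL {a} (by simp)
    obtain ⟨t, h4⟩ := hL ({b} ∪ (S \ C)) (by simp)
    obtain ⟨s, h5⟩ := hL C (by simp)
    rw [Finset.mem_inter, Finset.mem_singleton] at h3
    rw [Finset.mem_inter, Finset.mem_union, Finset.mem_singleton] at h4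
    rw [Finset.mem_inter] at h5
    obtain ⟨h3, rfl⟩ := h3
    obtain ⟨h4, rfl | h6⟩ := h4
    · exact HB5_na h.inP.cx hF h3 h4 h.hab (h.ind _ h.ha _ h.hb)
    · rw [Finset.mem_sdiff] at h6
      have hst : s ≠ t := by
        rintro rfl
        exact h6.2 h5.2
      exact hC.2.2 ⟨s, h5.2, t, Finset.mem_sdiff.2 h6, h.inP.cx.adj_of_face hF h5.1 h4 hst⟩

/-- No private neighbours on both sides of an edge. -/
theorem HB5_edge (h : BC Δ S a b)
    (hE : ∀ x ∈ S, ∀ z ∈ S, adj Δ x z → ({a, x, z} : Finset V) ∈ Δ ∧ ({b, x, z} : Finset V) ∈ Δ)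
    (hx : x ∈ S) (hz : z ∈ S) (hxz : adj Δ x z) (hu : u ∈ S) (hv : v ∈ S) (hux : adj Δ u x)
    (huz : ¬ adj Δ u z) (nuz : u ≠ z) (hvz : adj Δ v z) (hvx : ¬ adj Δ v x) (nvx : v ≠ x) :
    False := by
  have hcx := h.inP.cx
  have ha := Finset.mem_sdiff.1 h.ha
  have hb := Finset.mem_sdiff.1 h.hb
  have nS : ∀ {s}, s ∈ S → s ≠ a ∧ s ≠ b := fun {s} hs =>
    ⟨fun e => ha.2 (e ▸ hs), fun e => hb.2 (e ▸ hs)⟩
  have nuv : u ≠ v := by
    rintro rfl
    exact hvx hux
  have hcm : CM Δ [{a, u}, {b, v}, {x}, {z}] := by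
    refine HB5_cm4 (conn_pair hcx (h.sa u hu)) (conn_pair hcx (h.sb v hv))
      (conn_single (h.sub hx)) (conn_single (h.sub hz)) ⟨?_, ?_⟩ ⟨?_, ?_⟩ ⟨?_, ?_⟩ ⟨?_, ?_⟩
      ⟨?_, ?_⟩ ⟨?_, ?_⟩
    · rw [Finset.disjoint_left]
      intro t ht ht'
      simp only [Finset.mem_insert, Finset.mem_singleton] at ht ht'
      rcases ht with rfl | rfl <;> rcases ht' with h1 | h1
      · exact h.hab h1
      · exact (nS hv).1 h1.symm
      · exact (nS hu).2 h1
      · exact nuv h1
    · exact ⟨a, by simp, v, by simp, h.sa v hv⟩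
    · rw [Finset.disjoint_singleton_right]
      simp [(nS hx).1, hux.1.symm]
    · exact ⟨a, by simp, x, by simp, h.sa x hx⟩
    · rw [Finset.disjoint_singleton_right]
      simp [(nS hz).1, nuz.symm]
    · exact ⟨a, by simp, z, by simp, h.sa z hz⟩
    · rw [Finset.disjoint_singleton_right]
      simp [(nS hx).2, nvx.symm]
    · exact ⟨b, by simp, x, by simp, h.sb x hx⟩
    · rw [Finset.disjoint_singleton_right]
      simp [(nS hz).2, hvz.1.symm]
    · exact ⟨b, by simp, z, by simp, h.sb z hz⟩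
    · exact Finset.disjoint_singleton.2 hxz.1
    · exact touch_single.2 hxz
  have key : ∀ {F : Finset V} {L : List (Finset V)}, F ∈ Δ →
      (∀ A ∈ L, ∃ t ∈ F, t ∈ A) → fill Δ L := by
    intro F L hF hL
    refine ⟨F, hF, fun A hA => ?_⟩
    obtain ⟨t, h1, h2⟩ := hL A hA
    exact ⟨t, Finset.mem_inter.2 ⟨h1, h2⟩⟩
  have f1 : fill Δ [{a, u}, {b, v}, {x}] := by
    refine key (hE u hu x hx hux).2 ?_
    intro A hA
    simp only [List.mem_cons, List.not_mem_nil, or_false] at hA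
    rcases hA with rfl | rfl | rfl
    · exact ⟨u, by simp, by simp⟩
    · exact ⟨b, by simp, by simp⟩
    · exact ⟨x, by simp, by simp⟩
  have f2 : fill Δ [{a, u}, {b, v}, {z}] := by
    refine key (hE v hv z hz hvz).1 ?_
    intro A hA
    simp only [List.mem_cons, List.not_mem_nil, or_false] at hA
    rcases hA with rfl | rfl | rfl
    · exact ⟨a, by simp, by simp⟩
    · exact ⟨v, by simp, by simp⟩
    · exact ⟨z, by simp, by simp⟩
  have f3 : fill Δ [{a, u}, {x}, {z}] := by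
    refine key (hE x hx z hz hxz).1 ?_
    intro A hA
    simp only [List.mem_cons, List.not_mem_nil, or_false] at hA
    rcases hA with rfl | rfl | rfl
    · exact ⟨a, by simp, by simp⟩
    · exact ⟨x, by simp, by simp⟩
    · exact ⟨z, by simp, by simp⟩
  have f4 : fill Δ [{b, v}, {x}, {z}] := by
    refine key (hE x hx z hz hxz).2 ?_
    intro A hA
    simp only [List.mem_cons, List.not_mem_nil, or_false] at hA
    rcases hA with rfl | rfl | rfl
    · exact ⟨b, by simp, by simp⟩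
    · exact ⟨x, by simp, by simp⟩
    · exact ⟨z, by simp, by simp⟩
  obtain ⟨F, hF, hL⟩ := h.inP.k4all hcm f1 f2 f3 f4
  obtain ⟨s, h1⟩ := hL {a, u} (by simp)
  obtain ⟨t, h2⟩ := hL {b, v} (by simp)
  obtain ⟨x', h3⟩ := hL {x} (by simp)
  obtain ⟨z', h4⟩ := hL {z} (by simp)
  rw [Finset.mem_inter, Finset.mem_singleton] at h3 h4
  rw [Finset.mem_inter, Finset.mem_insert, Finset.mem_singleton] at h1 h2
  obtain ⟨h3, rfl⟩ := h3
  obtain ⟨h4, rfl⟩ := h4
  obtain ⟨h1, rfl | rfl⟩ := h1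
  · obtain ⟨h2, rfl | rfl⟩ := h2
    · exact HB5_na hcx hF h1 h2 h.hab (h.ind _ h.ha _ h.hb)
    · exact HB5_na hcx hF h2 h3 nvx hvx
  · exact HB5_na hcx hF h1 h4 nuz huz

theorem tHB5 : StmtHB5 := by
  classical
  intro V _ _ Δ S a b h h2 hnon hE
  obtain ⟨x, hx, hmax⟩ := Finset.exists_max_image S (fun x => (S.filter fun s => adj Δ x s).card)
    (HB5_ne h)
  obtain ⟨t, ht, htx, hnt⟩ := hnon x hx
  have hconn := HB5_conn h h2
  obtain ⟨z, hz, v, hv, hzv⟩ := hconn.2.2 (insert x (S.filter fun s => adj Δ x s)) (by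
    rw [Finset.insert_subset_iff]
    exact ⟨hx, Finset.filter_subset _ _⟩) (Finset.insert_nonempty _ _) ⟨t, by
      rw [Finset.mem_sdiff, Finset.mem_insert, Finset.mem_filter]
      refine ⟨ht, ?_⟩
      rintro (h1 | h1)
      · exact htx h1
      · exact hnt h1.2⟩
  rw [Finset.mem_sdiff, Finset.mem_insert, Finset.mem_filter, not_or] at hv
  obtain ⟨hvS, nvx, hv⟩ := hv
  have hnxv : ¬ adj Δ x v := fun hh => hv ⟨hvS, hh⟩
  rw [Finset.mem_insert, Finset.mem_filter] at hz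
  rcases hz with rfl | ⟨hzS, hxz⟩
  · exact hnxv hzv
  have hsub : insert x (insert v ((S.filter fun s => adj Δ x s).erase z)) ⊆
      S.filter fun s => adj Δ z s := by
    intro u hu
    rw [Finset.mem_insert, Finset.mem_insert, Finset.mem_erase, Finset.mem_filter] at hu
    rw [Finset.mem_filter]
    rcases hu with rfl | rfl | ⟨huz, huS, hxu⟩
    · exact ⟨hx, adj_symm hxz⟩
    · exact ⟨hvS, hzv⟩
    · refine ⟨huS, ?_⟩
      by_contra hnzu
      exact HB5_edge h hE hx hzS hxz huS hvS (adj_symm hxu) (fun hh => hnzu (adj_symm hh)) huz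
        (adj_symm hzv) (fun hh => hnxv (adj_symm hh)) nvx
  have h1 := Finset.card_le_card hsub
  have h3 := hmax z hzS
  have hzm : z ∈ S.filter fun s => adj Δ x s := Finset.mem_filter.2 ⟨hzS, hxz⟩
  have h4 := Finset.card_erase_add_one hzm
  have hvn : v ∉ (S.filter fun s => adj Δ x s).erase z := by
    rw [Finset.mem_erase, Finset.mem_filter]
    exact fun hh => hnxv hh.2.2
  have hxn : x ∉ insert v ((S.filter fun s => adj Δ x s).erase z) := by
    rw [Finset.mem_insert, Finset.mem_erase, Finset.mem_filter]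
    rintro (hh | hh)
    · exact nvx hh.symm
    · exact hh.2.2.1 rfl
  rw [Finset.card_insert_of_notMem hxn, Finset.card_insert_of_notMem hvn] at h1
  omega

end Pool.Agent.Lib.MP_73b196_co.St
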