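import Pool.Agent.Lib.MP_73b196_co.St.Base

/-!
# The rules for clique models
-/

set_option autoImplicit false

namespace Pool.Agent.Lib.MP_73b196_co.St

variable {V : Type} [Fintype V] [DecidableEq V] {Δ Γ : Set (Finset V)}
  {A B C D F S U X Y : Finset V} {a b p s v x y : V} {L L' : List (Finset V)}

omit [Fintype V] in
theorem Rules_sub (h : fill Δ L) (hs : ∀ A ∈ L', A ∈ L) : fill Δ L' := by
  obtain ⟨F, hF, h⟩ := h
  exact ⟨F, hF, fun A hA => h A (hs A hA)⟩

theorem Rules_pair (h : CM Δ L) : ∀ A ∈ L, ∀ B ∈ L, A ≠ B → Disjoint A B ∧ touch Δ A B := by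
  have hs : Std.Symm fun A B : Finset V => Disjoint A B ∧ touch Δ A B :=
    ⟨fun A B hAB => ⟨hAB.1.symm, touch_symm hAB.2⟩⟩
  intro A hA B hB hAB
  exact h.2.forall hA hB hAB

theorem InP.k4two (h : InP Δ) (hm : CM Δ [A, B, C, D]) (h1 : ¬ fill Δ [A, B, C])
    (h2 : ¬ fill Δ [A, B, D]) : fill Δ [A, C, D] ∧ fill Δ [B, C, D] := by
  refine ⟨?_, ?_⟩
  · rcases h.k4 A B C D hm with h3 | h3 | h3
    · exact absurd h3 h1
    · exact absurd h3 h2
    · exact h3
  · have hm' : CM Δ [B, A, C, D] := CM_perm (List.Perm.swap B A [C, D]) hm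
    rcases h.k4 B A C D hm' with h3 | h3 | h3
    · exact absurd (Rules_sub h3 (by simp)) h1
    · exact absurd (Rules_sub h3 (by simp)) h2
    · exact h3

theorem InP.k4three (h : InP Δ) (hm : CM Δ [A, B, C, D]) (h1 : ¬ fill Δ [A, B, C])
    (h2 : ¬ fill Δ [A, B, D]) (h3 : ¬ fill Δ [A, C, D]) : False := by
  rcases h.k4 A B C D hm with h4 | h4 | h4
  · exact h1 h4
  · exact h2 h4
  · exact h3 h4

theorem InP.k4all (h : InP Δ) (hm : CM Δ [A, B, C, D]) (h1 : fill Δ [A, B, C])
    (h2 : fill Δ [A, B, D]) (h3 : fill Δ [A, C, D]) (h4 : fill Δ [B, C, D]) :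
    fill Δ [A, B, C, D] := by
  have hp := Rules_pair hm
  have hmem : ∀ E ∈ ({A, B, C, D} : Finset (Finset V)), E ∈ [A, B, C, D] := by
    intro E hE
    simpa using hE
  obtain ⟨F, hF, hFA⟩ := h.nf {A, B, C, D} (fun E hE => hm.1 E (hmem E hE))
    (fun E hE E' hE' hne => hp E (hmem E hE) E' (hmem E' hE') hne) (by
      intro E1 hE1 E2 hE2 E3 hE3 h12 h13 h23
      simp only [Finset.mem_insert, Finset.mem_singleton] at hE1 hE2 hE3
      rcases hE1 with e1 | e1 | e1 | e1 <;> rcases hE2 with e2 | e2 | e2 | e2 <;>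
        rcases hE3 with e3 | e3 | e3 | e3 <;> subst e1 <;>
        first
        | exact absurd e2.symm h12
        | exact absurd e3.symm h13
        | exact absurd (e2.trans e3.symm) h23
        | (refine Rules_sub h1 ?_; simp [e2, e3]; done)
        | (refine Rules_sub h2 ?_; simp [e2, e3]; done)
        | (refine Rules_sub h3 ?_; simp [e2, e3]; done)
        | (refine Rules_sub h4 ?_; simp [e2, e3]; done))
  refine ⟨F, hF, fun E hE => hFA E ?_⟩
  simpa using hE

/-- A clique all of whose triples are faces is a face. -/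
theorem InP.clq_mem (h : InP Δ) (hC : Clq Δ C)
    (h3 : ∀ a ∈ C, ∀ b ∈ C, ∀ c ∈ C, a ≠ b → a ≠ c → b ≠ c → ({a, b, c} : Finset V) ∈ Δ) :
    C ∈ Δ := by
  obtain ⟨F, hF, hFA⟩ := h.nf (C.image fun v => {v}) (by
      intro A hA
      obtain ⟨v, hv, rfl⟩ := Finset.mem_image.1 hA
      exact conn_single (hC.1 hv)) (by
      intro A hA B hB hAB
      obtain ⟨a, ha, rfl⟩ := Finset.mem_image.1 hA
      obtain ⟨b, hb, rfl⟩ := Finset.mem_image.1 hB
      have hab : a ≠ b := fun e => hAB (by rw [e])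
      exact ⟨Finset.disjoint_singleton.2 hab, touch_single.2 (hC.2 a ha b hb hab)⟩) (by
      intro A hA B hB D hD hAB hAD hBD
      obtain ⟨a, ha, rfl⟩ := Finset.mem_image.1 hA
      obtain ⟨b, hb, rfl⟩ := Finset.mem_image.1 hB
      obtain ⟨d, hd, rfl⟩ := Finset.mem_image.1 hD
      exact h.cx.fill_three.2 (h3 a ha b hb d hd (fun e => hAB (by rw [e]))
        (fun e => hAD (by rw [e])) (fun e => hBD (by rw [e]))))
  refine h.cx.down F hF C fun v hv => ?_
  obtain ⟨w, hw⟩ := hFA {v} (Finset.mem_image.2 ⟨v, hv, rfl⟩)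
  rw [Finset.mem_inter, Finset.mem_singleton] at hw
  rw [← hw.2]
  exact hw.1

/-- The same with one connected set in addition. -/
theorem InP.clq_fill (h : InP Δ) (hC : Clq Δ C) (hX : Conn Δ X) (hd : Disjoint X C)
    (ht : ∀ c ∈ C, touch Δ {c} X)
    (h3 : ∀ a ∈ C, ∀ b ∈ C, ∀ c ∈ C, a ≠ b → a ≠ c → b ≠ c → ({a, b, c} : Finset V) ∈ Δ)
    (h2 : ∀ a ∈ C, ∀ b ∈ C, a ≠ b → fill Δ [X, {a}, {b}]) :
    ∃ F ∈ Δ, C ⊆ F ∧ (F ∩ X).Nonempty := by
  have hdis : ∀ c ∈ C, Disjoint ({c} : Finset V) X := by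
    intro c hc
    rw [Finset.disjoint_singleton_left]
    intro hcX
    exact Finset.disjoint_left.1 hd hcX hc
  obtain ⟨F, hF, hFA⟩ := h.nf (insert X (C.image fun v => {v})) (by
      intro A hA
      rcases Finset.mem_insert.1 hA with rfl | hA
      · exact hX
      · obtain ⟨v, hv, rfl⟩ := Finset.mem_image.1 hA
        exact conn_single (hC.1 hv)) (by
      intro A hA B hB hAB
      rcases Finset.mem_insert.1 hA with e1 | hA' <;> rcases Finset.mem_insert.1 hB with e2 | hB'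
      · exact absurd (e1.trans e2.symm) hAB
      · subst e1
        obtain ⟨b, hb, rfl⟩ := Finset.mem_image.1 hB'
        exact ⟨(hdis b hb).symm, touch_symm (ht b hb)⟩
      · subst e2
        obtain ⟨a, ha, rfl⟩ := Finset.mem_image.1 hA'
        exact ⟨hdis a ha, ht a ha⟩
      · obtain ⟨a, ha, rfl⟩ := Finset.mem_image.1 hA'
        obtain ⟨b, hb, rfl⟩ := Finset.mem_image.1 hB'
        have hab : a ≠ b := fun e => hAB (by rw [e])
        exact ⟨Finset.disjoint_singleton.2 hab, touch_single.2 (hC.2 a ha b hb hab)⟩) (by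
      intro A hA B hB D hD hAB hAD hBD
      rcases Finset.mem_insert.1 hA with e1 | hA' <;>
        rcases Finset.mem_insert.1 hB with e2 | hB' <;>
        rcases Finset.mem_insert.1 hD with e3 | hD'
      · exact absurd (e1.trans e2.symm) hAB
      · exact absurd (e1.trans e2.symm) hAB
      · exact absurd (e1.trans e3.symm) hAD
      · subst e1
        obtain ⟨b, hb, rfl⟩ := Finset.mem_image.1 hB'
        obtain ⟨d, hd, rfl⟩ := Finset.mem_image.1 hD'
        exact h2 b hb d hd (fun e => hBD (by rw [e]))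
      · exact absurd (e2.trans e3.symm) hBD
      · subst e2
        obtain ⟨a, ha, rfl⟩ := Finset.mem_image.1 hA'
        obtain ⟨d, hd, rfl⟩ := Finset.mem_image.1 hD'
        exact Rules_sub (h2 a ha d hd (fun e => hAD (by rw [e]))) (by simp)
      · subst e3
        obtain ⟨a, ha, rfl⟩ := Finset.mem_image.1 hA'
        obtain ⟨b, hb, rfl⟩ := Finset.mem_image.1 hB'
        exact Rules_sub (h2 a ha b hb (fun e => hAB (by rw [e]))) (by simp)
      · obtain ⟨a, ha, rfl⟩ := Finset.mem_image.1 hA'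
        obtain ⟨b, hb, rfl⟩ := Finset.mem_image.1 hB'
        obtain ⟨d, hd, rfl⟩ := Finset.mem_image.1 hD'
        exact h.cx.fill_three.2 (h3 a ha b hb d hd (fun e => hAB (by rw [e]))
          (fun e => hAD (by rw [e])) (fun e => hBD (by rw [e]))))
  refine ⟨F, hF, fun v hv => ?_, hFA X (Finset.mem_insert_self _ _)⟩
  obtain ⟨w, hw⟩ := hFA {v} (Finset.mem_insert_of_mem (Finset.mem_image.2 ⟨v, hv, rfl⟩))
  rw [Finset.mem_inter, Finset.mem_singleton] at hw
  rw [← hw.2]
  exact hw.1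

end Pool.Agent.Lib.MP_73b196_co.St
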