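import Pool.Agent.Lib.MP_73b196_co.St.HDefs
import Pool.Agent.Lib.MP_73b196_co.St.Rules
import Pool.Agent.Lib.MP_73b196_co.St.Ctr

/-!
# Basic lemmas for Theorem H: neighbourhoods, full components, cone vertices
-/

set_option autoImplicit false

namespace Pool.Agent.Lib.MP_73b196_co.St

variable {V : Type} [Fintype V] [DecidableEq V] {Δ : Set (Finset V)} {A B C S F X K : Finset V}
  {a b c d e f p s v x y z : V}

theorem mem_nb : v ∈ nb Δ C ↔ v ∈ vs Δ ∧ v ∉ C ∧ touch Δ {v} C := by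
  classical
  simp only [nb, Finset.mem_filter]

theorem nb_sub : nb Δ C ⊆ vs Δ := fun _ hv => (mem_nb.1 hv).1

theorem nb_disj : Disjoint C (nb Δ C) :=
  Finset.disjoint_left.2 fun _ hv hv' => (mem_nb.1 hv').2.1 hv

theorem IsCx.mem_nb_of (h : IsCx Δ) (hv : v ∉ C) (ht : touch Δ {v} C) : v ∈ nb Δ C := by
  refine mem_nb.2 ⟨?_, hv, ht⟩
  obtain ⟨w, hw, u, hu, hwu⟩ := ht
  rw [Finset.mem_singleton] at hw
  subst hw
  exact (h.adj_vs hwu).1

theorem IsCx.mem_nb_single (h : IsCx Δ) : s ∈ nb Δ {a} ↔ adj Δ a s := by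
  constructor
  · intro hs
    exact adj_symm (touch_single.1 (mem_nb.1 hs).2.2)
  · intro hs
    refine h.mem_nb_of ?_ (touch_single.2 (adj_symm hs))
    rw [Finset.mem_singleton]
    exact hs.1.symm

theorem Full.symm (h : Full Δ A B) : Full Δ B A := ⟨h.cB, h.cA, h.d.symm, h.n.symm⟩

/-- A vertex of `B` adjacent to `A` would lie in `nb Δ A = nb Δ B`. -/
theorem Full.pl (h : IsCx Δ) (hf : Full Δ A B) : Pl Δ A B := by
  refine ⟨hf.cA, hf.cB, hf.d, ?_⟩
  rintro ⟨a, ha, b, hb, hab⟩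
  have h1 : b ∈ nb Δ A := h.mem_nb_of (fun hbA => Finset.disjoint_left.1 hf.d hbA hb)
    (touch_single_left.2 ⟨a, ha, adj_symm hab⟩)
  rw [hf.n] at h1
  exact (mem_nb.1 h1).2.1 hb

theorem Full.com (hf : Full Δ A B) (hs : s ∈ nb Δ A) : Com Δ A B s := by
  have h1 := mem_nb.1 hs
  have h2 : s ∈ nb Δ B := by rw [← hf.n]; exact hs
  have h3 := mem_nb.1 h2
  exact ⟨h1.2.1, h3.2.1, h1.2.2, h3.2.2⟩

theorem Pl.symm (h : Pl Δ A B) : Pl Δ B A := ⟨h.cB, h.cA, h.d.symm, fun ht => h.n (touch_symm ht)⟩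

theorem Com.symm (h : Com Δ A B x) : Com Δ B A x := ⟨h.2.1, h.1, h.2.2.2, h.2.2.1⟩

theorem Pl.no_face (h : IsCx Δ) (hp : Pl Δ A B) (hF : F ∈ Δ) (h1 : (F ∩ A).Nonempty)
    (h2 : (F ∩ B).Nonempty) : False := by
  obtain ⟨a, ha⟩ := h1
  obtain ⟨b, hb⟩ := h2
  rw [Finset.mem_inter] at ha hb
  exact hp.n ⟨a, ha.2, b, hb.2, h.adj_of_face hF ha.1 hb.1
    (fun e => Finset.disjoint_left.1 hp.d ha.2 (e ▸ hb.2))⟩

theorem HBas_comp (h : IsCx Δ) (hC : Conn Δ C) : IsComp Δ (vs Δ \ nb Δ C) C := by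
  refine ⟨?_, hC, ?_⟩
  · intro v hv
    exact Finset.mem_sdiff.2 ⟨hC.1 hv, Finset.disjoint_left.1 nb_disj hv⟩
  · rintro ⟨a, ha, b, hb, hab⟩
    rw [Finset.mem_sdiff, Finset.mem_sdiff] at hb
    exact hb.1.2 (h.mem_nb_of hb.2 (touch_single_left.2 ⟨a, ha, adj_symm hab⟩))

theorem Full.comp (h : IsCx Δ) (hf : Full Δ A B) : IsComp Δ (vs Δ \ nb Δ A) A :=
  HBas_comp h hf.cA

theorem IsComp.nb_sub (h : IsCx Δ) (hC : IsComp Δ (vs Δ \ S) C) : nb Δ C ⊆ S := by
  have _ := h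
  intro v hv
  by_contra hn
  obtain ⟨h1, h2, h3⟩ := mem_nb.1 hv
  obtain ⟨c, hc, hvc⟩ := touch_single_left.1 h3
  exact h2 (hC.mem_of_adj hc (Finset.mem_sdiff.2 ⟨h1, hn⟩) (adj_symm hvc))

/-- Two different components are two poles. -/
theorem IsComp.pl (hC : IsComp Δ S A) (hC' : IsComp Δ S B) (hne : A ≠ B) : Pl Δ A B := by
  have hd : Disjoint A B := by
    rw [Finset.disjoint_iff_inter_eq_empty]
    by_contra hn
    exact hne (hC.eq_of hC' (Finset.nonempty_iff_ne_empty.2 hn))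
  refine ⟨hC.2.1, hC'.2.1, hd, ?_⟩
  intro ht
  refine hC.2.2 (touch_mono (Finset.Subset.refl A) ?_ ht)
  intro v hv
  exact Finset.mem_sdiff.2 ⟨hC'.1 hv, fun hA => Finset.disjoint_left.1 hd hA hv⟩

theorem conn_pair (h : IsCx Δ) (hab : adj Δ a b) : Conn Δ {a, b} := by
  obtain ⟨ha, hb⟩ := h.adj_vs hab
  exact (conn_single hb).insert ha (touch_single.2 hab)

/-- **(Sep)** `X` connected, `C` a component of the vertices which are neither in `X` nor adjacent to `X`:
`nb Δ C ⊆ nb Δ X` is a minimal separator; its full components are `C` and the component `X'` containing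
`X` (of the complement of `nb Δ C`). -/
theorem exists_sep (h : IsCx Δ) (hX : Conn Δ X) (hC : IsComp Δ (vs Δ \ (X ∪ nb Δ X)) C) :
    ∃ X', IsComp Δ (vs Δ \ nb Δ C) X' ∧ X ⊆ X' ∧ Full Δ X' C ∧ nb Δ C ⊆ nb Δ X := by
  have hCX : ∀ v ∈ C, v ∉ X ∧ v ∉ nb Δ X := by
    intro v hv
    have := Finset.mem_sdiff.1 (hC.1 hv)
    rw [Finset.mem_union, not_or] at this
    exact this.2
  have hs : nb Δ C ⊆ nb Δ X := by
    intro v hv
    have h1 := IsComp.nb_sub h hC hv
    rcases Finset.mem_union.1 h1 with h2 | h2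
    · exfalso
      obtain ⟨c, hc, hvc⟩ := touch_single_left.1 (mem_nb.1 hv).2.2
      exact (hCX c hc).2 (h.mem_nb_of (hCX c hc).1 (touch_single_left.2 ⟨v, h2, adj_symm hvc⟩))
    · exact h2
  have hXU : X ⊆ vs Δ \ nb Δ C := by
    intro v hv
    exact Finset.mem_sdiff.2 ⟨hX.1 hv, fun hn => (mem_nb.1 (hs hn)).2.1 hv⟩
  obtain ⟨x, hx⟩ := hX.2.1
  obtain ⟨X', hX', hxX'⟩ := exists_comp Finset.sdiff_subset (hXU hx)
  have hXX' : X ⊆ X' := hX'.sub_of_conn hX hXU ⟨x, Finset.mem_inter.2 ⟨hx, hxX'⟩⟩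
  have hCc : IsComp Δ (vs Δ \ nb Δ C) C := HBas_comp h hC.2.1
  have hne : X' ≠ C := by
    rintro rfl
    exact (hCX x hxX').1 hx
  refine ⟨X', hX', hXX', ⟨hX'.2.1, hC.2.1, (hX'.pl hCc hne).d, ?_⟩, hs⟩
  refine Finset.Subset.antisymm (IsComp.nb_sub h hX') ?_
  intro v hv
  refine h.mem_nb_of ?_ (touch_mono (Finset.Subset.refl _) hXX' (mem_nb.1 (hs hv)).2.2)
  intro hvX'
  exact (Finset.mem_sdiff.1 (hX'.1 hvX')).2 hv

/-- If no face separates `Δ` then the neighbourhood of a connected set which does not reach everything is not a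
face. -/
theorem nb_notMem (h : IsCx Δ) (hconn : ∀ F ∈ Δ, Conn Δ (vs Δ \ F)) (hC : Conn Δ C)
    (hne : (vs Δ \ (C ∪ nb Δ C)).Nonempty) : nb Δ C ∉ Δ := by
  intro hF
  have h1 := HBas_comp h hC
  refine h1.2.2 ((hconn _ hF).2.2 C h1.1 hC.2.1 ?_)
  obtain ⟨v, hv⟩ := hne
  refine ⟨v, ?_⟩
  rw [Finset.mem_sdiff, Finset.mem_union, not_or] at hv
  rw [Finset.mem_sdiff, Finset.mem_sdiff]
  exact ⟨⟨hv.1, hv.2.2⟩, hv.2.1⟩

theorem Full.notMem (h : IsCx Δ) (hconn : ∀ F ∈ Δ, Conn Δ (vs Δ \ F)) (hf : Full Δ A B) :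
    nb Δ A ∉ Δ := by
  refine nb_notMem h hconn hf.cA ?_
  obtain ⟨b, hb⟩ := hf.cB.2.1
  refine ⟨b, ?_⟩
  rw [Finset.mem_sdiff, Finset.mem_union, not_or]
  refine ⟨hf.cB.1 hb, fun hA => Finset.disjoint_left.1 hf.d hA hb, ?_⟩
  rw [hf.n]
  exact Finset.disjoint_left.1 nb_disj hb

/-- If `vs Δ ∈ Δ` then every vertex is a cone vertex. -/
theorem Bad.conn (h : Bad Δ) : ∀ F ∈ Δ, Conn Δ (vs Δ \ F) := by
  intro F hF
  refine h.ns F hF ?_
  by_contra hn
  rw [Finset.not_nonempty_iff_eq_empty, Finset.sdiff_eq_empty_iff_subset] at hn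
  obtain ⟨p, hp⟩ := h.ne
  refine h.noApex p fun G hG => ?_
  refine h.inP.cx.down F hF _ ?_
  exact Finset.insert_subset (hn hp) ((h.inP.cx.sub_vs hG).trans hn)

/-- A universal vertex without unfilled triple is a cone vertex (`InP.clq_mem`). -/
theorem InP.apex_of (h : InP Δ) (hp : p ∈ vs Δ) (h1 : ∀ v ∈ vs Δ, v ≠ p → adj Δ p v)
    (h2 : ∀ u v, adj Δ u v → u ≠ p → v ≠ p → ({p, u, v} : Finset V) ∈ Δ) : Apex Δ p := by
  intro F hF
  have hFv := h.cx.sub_vs hF
  refine h.clq_mem ⟨Finset.insert_subset hp hFv, ?_⟩ ?_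
  · intro u hu v hv huv
    rcases Finset.mem_insert.1 hu with rfl | hu'
    · rcases Finset.mem_insert.1 hv with rfl | hv'
      · exact absurd rfl huv
      · exact h1 v (hFv hv') huv.symm
    · rcases Finset.mem_insert.1 hv with rfl | hv'
      · exact adj_symm (h1 u (hFv hu') huv)
      · exact h.cx.adj_of_face hF hu' hv' huv
  · intro u hu v hv w hw huv huw hvw
    by_cases hup : u = p
    · subst hup
      have hv' := Finset.mem_of_mem_insert_of_ne hv huv.symm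
      have hw' := Finset.mem_of_mem_insert_of_ne hw huw.symm
      exact h2 v w (h.cx.adj_of_face hF hv' hw' hvw) huv.symm huw.symm
    by_cases hvp : v = p
    · subst hvp
      have hu' := Finset.mem_of_mem_insert_of_ne hu huv
      have hw' := Finset.mem_of_mem_insert_of_ne hw hvw.symm
      have := h2 u w (h.cx.adj_of_face hF hu' hw' huw) huv hvw.symm
      rwa [Finset.insert_comm] at this
    by_cases hwp : w = p
    · subst hwp
      have hu' := Finset.mem_of_mem_insert_of_ne hu huw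
      have hv' := Finset.mem_of_mem_insert_of_ne hv hvw
      have := h2 u v (h.cx.adj_of_face hF hu' hv' huv) huw hvw
      have he : ({u, v, w} : Finset V) = {w, u, v} := by
        ext t
        simp only [Finset.mem_insert, Finset.mem_singleton]
        tauto
      rwa [he]
    · refine h.cx.down F hF _ ?_
      intro t ht
      simp only [Finset.mem_insert, Finset.mem_singleton] at ht
      rcases ht with rfl | rfl | rfl
      · exact Finset.mem_of_mem_insert_of_ne hu hup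
      · exact Finset.mem_of_mem_insert_of_ne hv hvp
      · exact Finset.mem_of_mem_insert_of_ne hw hwp

/-- A clique without hollow triangle is a face (`InP.clq_mem`). -/
theorem InP.mem_of_noHol (h : InP Δ) (hC : Clq Δ C)
    (h1 : ∀ a ∈ C, ∀ b ∈ C, ∀ c ∈ C, ¬ Hol Δ a b c) : C ∈ Δ := by
  refine h.clq_mem hC ?_
  intro a ha b hb c hc hab hac hbc
  by_contra hn
  exact h1 a ha b hb c hc ⟨hC.2 a ha b hb hab, hC.2 a ha c hc hac, hC.2 b hb c hc hbc, hn⟩

theorem Hol.rot (h : Hol Δ a b c) : Hol Δ b c a := by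
  refine ⟨h.2.2.1, adj_symm h.1, adj_symm h.2.1, ?_⟩
  have he : ({b, c, a} : Finset V) = {a, b, c} := by
    ext t
    simp only [Finset.mem_insert, Finset.mem_singleton]
    tauto
  rw [he]
  exact h.2.2.2

theorem Hol.swap (h : Hol Δ a b c) : Hol Δ b a c := by
  refine ⟨adj_symm h.1, h.2.2.1, h.2.1, ?_⟩
  rw [Finset.insert_comm]
  exact h.2.2.2

theorem HBas_move (h : Hol Δ a b c) (hx : x ∈ ({a, b, c} : Finset V)) :
    ∃ y z, Hol Δ x y z ∧ y ∈ ({a, b, c} : Finset V) ∧ z ∈ ({a, b, c} : Finset V) := by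
  simp only [Finset.mem_insert, Finset.mem_singleton] at hx
  rcases hx with rfl | rfl | rfl
  · exact ⟨b, c, h, by simp, by simp⟩
  · exact ⟨c, a, h.rot, by simp, by simp⟩
  · exact ⟨a, b, h.rot.rot, by simp, by simp⟩

/-- Two hollow triangles in a clique share two vertices (`InP.k5`, `InP.k6` with single vertices). -/
theorem InP.hol_share (h : InP Δ) (hK : Clq Δ K) (ha : a ∈ K) (hb : b ∈ K) (hc : c ∈ K)
    (hd : d ∈ K) (he : e ∈ K) (hf : f ∈ K) (h1 : Hol Δ a b c) (h2 : Hol Δ d e f) :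
    2 ≤ (({a, b, c} : Finset V) ∩ {d, e, f}).card := by
  by_contra hn
  have hle : (({a, b, c} : Finset V) ∩ {d, e, f}).card ≤ 1 := by omega
  rw [Finset.card_le_one] at hle
  have hTK : ({a, b, c} : Finset V) ⊆ K := by
    intro t ht
    simp only [Finset.mem_insert, Finset.mem_singleton] at ht
    rcases ht with rfl | rfl | rfl <;> assumption
  have hTK' : ({d, e, f} : Finset V) ⊆ K := by
    intro t ht
    simp only [Finset.mem_insert, Finset.mem_singleton] at ht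
    rcases ht with rfl | rfl | rfl <;> assumption
  by_cases hx : ∃ x, x ∈ ({a, b, c} : Finset V) ∩ {d, e, f}
  · obtain ⟨x, hx⟩ := hx
    have hx1 := Finset.mem_inter.1 hx
    obtain ⟨y, z, h3, hy, hz⟩ := HBas_move h1 hx1.1
    obtain ⟨y', z', h4, hy', hz'⟩ := HBas_move h2 hx1.2
    have key : ∀ u ∈ ({a, b, c} : Finset V), ∀ w ∈ ({d, e, f} : Finset V), u ≠ x → u ≠ w := by
      intro u hu w hw hux huw
      subst huw
      exact hux (hle u (Finset.mem_inter.2 ⟨hu, hw⟩) x hx)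
    have n1 := key y hy y' hy' h3.1.1.symm
    have n2 := key y hy z' hz' h3.1.1.symm
    have n3 := key z hz y' hy' h3.2.1.1.symm
    have n4 := key z hz z' hz' h3.2.1.1.symm
    have hxK := hTK hx1.1
    have hyK := hTK hy
    have hzK := hTK hz
    have hyK' := hTK' hy'
    have hzK' := hTK' hz'
    rcases h.k5 {x} {y} {z} {y'} {z'} (by
      refine ⟨?_, ?_⟩
      · intro T hT
        simp only [List.mem_cons, List.not_mem_nil, or_false] at hT
        rcases hT with rfl | rfl | rfl | rfl | rfl <;> exact conn_single (hK.1 (by assumption))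
      · simp only [List.pairwise_cons, List.mem_cons, List.not_mem_nil, or_false,
          forall_eq_or_imp, forall_eq, Finset.disjoint_singleton, touch_single]
        refine ⟨⟨⟨h3.1.1, h3.1⟩, ⟨h3.2.1.1, h3.2.1⟩, ⟨h4.1.1, h4.1⟩, ⟨h4.2.1.1, h4.2.1⟩⟩,
          ⟨⟨h3.2.2.1.1, h3.2.2.1⟩, ⟨n1, hK.2 _ hyK _ hyK' n1⟩, ⟨n2, hK.2 _ hyK _ hzK' n2⟩⟩,
          ⟨⟨n3, hK.2 _ hzK _ hyK' n3⟩, ⟨n4, hK.2 _ hzK _ hzK' n4⟩⟩,
          ⟨h4.2.2.1.1, h4.2.2.1⟩, ?_, ?_⟩
        · intro T hT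
          exact absurd hT (by simp)
        · exact List.Pairwise.nil) with h5 | h5
    · exact h3.2.2.2 (h.cx.fill_three.1 h5)
    · exact h4.2.2.2 (h.cx.fill_three.1 h5)
  · have key : ∀ u ∈ ({a, b, c} : Finset V), ∀ w ∈ ({d, e, f} : Finset V), u ≠ w := by
      intro u hu w hw huw
      subst huw
      exact hx ⟨u, Finset.mem_inter.2 ⟨hu, hw⟩⟩
    have hpair : ∀ u ∈ ({a, b, c} : Finset V), ∀ w ∈ ({d, e, f} : Finset V), u ≠ w ∧ adj Δ u w :=
      fun u hu w hw => ⟨key u hu w hw, hK.2 _ (hTK hu) _ (hTK' hw) (key u hu w hw)⟩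
    have ma : a ∈ ({a, b, c} : Finset V) := by simp
    have mb : b ∈ ({a, b, c} : Finset V) := by simp
    have mc : c ∈ ({a, b, c} : Finset V) := by simp
    have md : d ∈ ({d, e, f} : Finset V) := by simp
    have me : e ∈ ({d, e, f} : Finset V) := by simp
    have mf : f ∈ ({d, e, f} : Finset V) := by simp
    rcases h.k6 {a} {b} {c} {d} {e} {f} (by
      refine ⟨?_, ?_⟩
      · intro T hT
        simp only [List.mem_cons, List.not_mem_nil, or_false] at hT
        rcases hT with rfl | rfl | rfl | rfl | rfl | rfl <;>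
          exact conn_single (hK.1 (by assumption))
      · simp only [List.pairwise_cons, List.mem_cons, List.not_mem_nil, or_false,
          forall_eq_or_imp, forall_eq, Finset.disjoint_singleton, touch_single]
        refine ⟨⟨⟨h1.1.1, h1.1⟩, ⟨h1.2.1.1, h1.2.1⟩, hpair a ma d md, hpair a ma e me,
            hpair a ma f mf⟩,
          ⟨⟨h1.2.2.1.1, h1.2.2.1⟩, hpair b mb d md, hpair b mb e me, hpair b mb f mf⟩,
          ⟨hpair c mc d md, hpair c mc e me, hpair c mc f mf⟩,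
          ⟨⟨h2.1.1, h2.1⟩, ⟨h2.2.1.1, h2.2.1⟩⟩,
          ⟨h2.2.2.1.1, h2.2.2.1⟩, ?_, ?_⟩
        · intro T hT
          exact absurd hT (by simp)
        · exact List.Pairwise.nil) with h5 | h5
    · exact h1.2.2.2 (h.cx.fill_three.1 h5)
    · exact h2.2.2.2 (h.cx.fill_three.1 h5)

/-- An edge facet gives a covering hollow partition `{x}, {y}, rest`. -/
theorem chp_of_edgeFacet (h : IsCx Δ) (hconn : ∀ F ∈ Δ, Conn Δ (vs Δ \ F))
    (he : EdgeFacet Δ x y) : CHP Δ := by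
  have hxy : adj Δ x y := ⟨he.ne, he.mem⟩
  obtain ⟨hx, hy⟩ := h.adj_vs hxy
  have hC := hconn _ he.mem
  have key : ∀ u w : V, u ≠ w → u ∈ vs Δ → w ∈ vs Δ → ({u, w} : Finset V) = {x, y} →
      touch Δ {u} (vs Δ \ {x, y}) := by
    intro u w huw hu hw hxy
    have h1 : (vs Δ \ {w}) \ {u} = vs Δ \ {x, y} := by
      rw [← hxy]
      ext t
      simp only [Finset.mem_sdiff, Finset.mem_singleton, Finset.mem_insert]
      tauto
    have h2 := (hconn {w} (mem_vs.1 hw)).2.2 {u} (by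
      rw [Finset.singleton_subset_iff, Finset.mem_sdiff, Finset.mem_singleton]
      exact ⟨hu, huw⟩) (Finset.singleton_nonempty u) (by rw [h1]; exact hC.2.1)
    rwa [h1] at h2
  refine ⟨{x}, {y}, vs Δ \ {x, y}, ⟨?_, ?_⟩, ?_, ?_⟩
  · intro T hT
    simp only [List.mem_cons, List.not_mem_nil, or_false] at hT
    rcases hT with rfl | rfl | rfl
    · exact conn_single hx
    · exact conn_single hy
    · exact hC
  · simp only [List.pairwise_cons, List.mem_cons, List.not_mem_nil, or_false,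
      forall_eq_or_imp, forall_eq]
    refine ⟨⟨⟨?_, touch_single.2 hxy⟩, ?_, key x y he.ne hx hy rfl⟩,
      ⟨?_, key y x he.ne.symm hy hx (Finset.pair_comm y x)⟩, ?_, ?_⟩
    · rw [Finset.disjoint_singleton]
      exact he.ne
    · rw [Finset.disjoint_singleton_left]
      simp
    · rw [Finset.disjoint_singleton_left]
      simp
    · intro T hT
      exact absurd hT (by simp)
    · exact List.Pairwise.nil
  · ext t
    simp only [Finset.mem_union, Finset.mem_sdiff, Finset.mem_singleton, Finset.mem_insert]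
    constructor
    · rintro ((rfl | rfl) | ht)
      · exact hx
      · exact hy
      · exact ht.1
    · intro ht
      tauto
  · rintro ⟨F, hF, hFA⟩
    obtain ⟨t1, h1⟩ := hFA {x} (by simp)
    obtain ⟨t2, h2⟩ := hFA {y} (by simp)
    obtain ⟨t3, h3⟩ := hFA (vs Δ \ {x, y}) (by simp)
    rw [Finset.mem_inter, Finset.mem_singleton] at h1 h2
    rw [Finset.mem_inter, Finset.mem_sdiff] at h3
    have hxF : x ∈ F := h1.2 ▸ h1.1
    have hyF : y ∈ F := h2.2 ▸ h2.1
    have := he.facet F hF hxF hyF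
    rw [this] at h3
    exact h3.2.2 h3.1

end Pool.Agent.Lib.MP_73b196_co.St
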