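import Pool.Agent.Lib.MP_73b196_co.St.HSpecA

/-!
# Theorem H: the base case
-/

set_option autoImplicit false

namespace Pool.Agent.Lib.MP_73b196_co.St

theorem tHBase (hA : StmtHA) (hB3 : StmtHB3) (hB4 : StmtHB4) (hB5 : StmtHB5) (hC1 : StmtHC1)
    (hC6 : StmtHC6) : StmtHBase := by
  intro V _ _ Δ S a b h
  by_cases hS : Clq Δ S
  · exact hA V Δ S a b h hS
  by_cases h3 : ∃ j ∈ vs Δ \ S, j ≠ a ∧ j ≠ b
  · obtain ⟨x, z, hc⟩ := hC1 V Δ S a b h hS h3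
    exact hC6 V Δ S a b x z hc
  have h2 : ∀ c ∈ vs Δ \ S, c = a ∨ c = b := by
    intro c hc
    by_contra hn
    rw [not_or] at hn
    exact h3 ⟨c, hc, hn⟩
  by_cases hp : ∃ p ∈ S, ∀ s ∈ S, s ≠ p → adj Δ p s
  · obtain ⟨p, hpS, hp⟩ := hp
    exact hB3 V Δ S a b h hS h2 p hpS hp
  have hn : ∀ p ∈ S, ∃ s ∈ S, s ≠ p ∧ ¬ adj Δ p s := by
    intro p hpS
    by_contra hcon
    refine hp ⟨p, hpS, ?_⟩
    intro s hs hsp
    by_contra hna
    exact hcon ⟨s, hs, hsp, hna⟩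
  refine hB5 V Δ S a b h h2 hn ?_
  intro x hx z hz hxz
  constructor
  · by_contra hf
    exact hB4 V Δ S a b h hS h2 hn x hx z hz hxz hf
  · by_contra hf
    exact hB4 V Δ S b a h.symm hS (fun c hc => (h2 c hc).symm) hn x hx z hz hxz hf

end Pool.Agent.Lib.MP_73b196_co.St
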