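import Pool.Agent.Lib.MP_73b196_co.St.HBas

/-!
# Deletion of a dominated vertex and contraction of an edge, for Theorem H
-/

set_option autoImplicit false

namespace Pool.Agent.Lib.MP_73b196_co.St

variable {V : Type} [Fintype V] [DecidableEq V] {Δ : Set (Finset V)} {A B C S F P Q X K : Finset V}
  {a b c d e f p s v w x y z : V}

/-- Covering hollow partitions lift through contractions (`lft A a`, `touch_con`, `conn_con`, `fill_con`). -/
theorem chp_of_con (h : IsCx Δ) (hA : Conn Δ A) (ha : a ∈ A) (hc : CHP (con Δ A a)) : CHP Δ := by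
  obtain ⟨P, Q, R, hm, hu, hf⟩ := hc
  have hv : ∀ B ∈ [P, Q, R], B ⊆ vs (con Δ A a) := fun B hB => (hm.1 B hB).1
  refine ⟨lft A a P, lft A a Q, lft A a R, Ctr_CM h hA ha hm, ?_, ?_⟩
  · ext v
    have e1 : v ∈ lft A a P ∪ lft A a Q ∪ lft A a R ↔
        (if v ∈ A then a else v) ∈ P ∪ Q ∪ R := by
      simp only [Finset.mem_union, Ctr_mem_lft]
    rw [e1, hu, vs_con h hA.1 ha, Finset.mem_insert, Finset.mem_sdiff]
    by_cases hvA : v ∈ A
    · rw [if_pos hvA]
      simp only [true_or, true_iff]
      exact hA.1 hvA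
    · rw [if_neg hvA]
      constructor
      · rintro (rfl | h1)
        · exact absurd ha hvA
        · exact h1.1
      · exact fun h1 => Or.inr ⟨h1, hvA⟩
  · exact fun h1 => hf ((fill_con h ha hv).2 h1)

theorem vs_del : vs (ind Δ (vs Δ \ {a})) = vs Δ \ {a} := by
  rw [vs_ind]
  exact Finset.inter_eq_right.2 Finset.sdiff_subset

theorem HCon_chp_aux {R : Finset V} (h : IsCx Δ) (ha : a ∈ vs Δ) (hpa : p ≠ a)
    (hd : ∀ F ∈ Δ, a ∈ F → insert p F ∈ Δ) (hm : CM Δ [P, Q, R])
    (hu : P ∪ Q ∪ R = vs Δ \ {a}) (hf : ¬ fill Δ [P, Q, R]) (hp : p ∈ P) : CHP Δ := by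
  have haP : a ∉ P := by
    intro h1
    have h2 : a ∈ vs Δ \ {a} := by
      rw [← hu]
      exact Finset.mem_union_left _ (Finset.mem_union_left _ h1)
    simp at h2
  have haQ : a ∉ Q := by
    intro h1
    have h2 : a ∈ vs Δ \ {a} := by
      rw [← hu]
      exact Finset.mem_union_left _ (Finset.mem_union_right _ h1)
    simp at h2
  have haR : a ∉ R := by
    intro h1
    have h2 : a ∈ vs Δ \ {a} := by
      rw [← hu]
      exact Finset.mem_union_right _ h1
    simp at h2
  have hap : adj Δ a p := by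
    refine ⟨hpa.symm, ?_⟩
    have h1 := hd {a} (mem_vs.1 ha) (Finset.mem_singleton_self a)
    rw [Finset.pair_comm]
    exact h1
  have hpair : ∀ B ∈ [Q, R], Disjoint P B ∧ touch Δ P B := by
    have h1 := hm.2
    rw [List.pairwise_cons] at h1
    exact h1.1
  have hQR : Disjoint Q R ∧ touch Δ Q R := by
    have h1 := hm.2
    rw [List.pairwise_cons, List.pairwise_cons] at h1
    exact h1.2.1 R (by simp)
  refine ⟨insert a P, Q, R, ⟨?_, ?_⟩, ?_, ?_⟩
  · intro B hB
    simp only [List.mem_cons, List.not_mem_nil, or_false] at hB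
    rcases hB with rfl | rfl | rfl
    · exact (hm.1 P (by simp)).insert ha (touch_single_left.2 ⟨p, hp, hap⟩)
    · exact hm.1 B (by simp)
    · exact hm.1 B (by simp)
  · rw [List.pairwise_cons, List.pairwise_cons]
    refine ⟨?_, ?_, by simp⟩
    · intro B hB
      have h1 := hpair B hB
      refine ⟨?_, touch_mono (Finset.subset_insert a P) (Finset.Subset.refl _) h1.2⟩
      rw [Finset.disjoint_insert_left]
      refine ⟨?_, h1.1⟩
      simp only [List.mem_cons, List.not_mem_nil, or_false] at hB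
      rcases hB with rfl | rfl
      · exact haQ
      · exact haR
    · intro B hB
      simp only [List.mem_cons, List.not_mem_nil, or_false] at hB
      subst hB
      exact hQR
  · rw [Finset.insert_union, Finset.insert_union, hu]
    ext v
    simp only [Finset.mem_insert, Finset.mem_sdiff, Finset.mem_singleton]
    constructor
    · rintro (rfl | h1)
      · exact ha
      · exact h1.1
    · intro h1
      by_cases hva : v = a
      · exact Or.inl hva
      · exact Or.inr ⟨h1, hva⟩
  · rintro ⟨F, hF, hL⟩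
    have h1 := hL (insert a P) (by simp)
    have h2 := hL Q (by simp)
    have h3 := hL R (by simp)
    by_cases hFP : (F ∩ P).Nonempty
    · refine hf ⟨F, hF, ?_⟩
      intro B hB
      simp only [List.mem_cons, List.not_mem_nil, or_false] at hB
      rcases hB with rfl | rfl | rfl
      · exact hFP
      · exact h2
      · exact h3
    · have haF : a ∈ F := by
        obtain ⟨v, hv⟩ := h1
        rw [Finset.mem_inter, Finset.mem_insert] at hv
        rcases hv.2 with rfl | h4
        · exact hv.1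
        · exact absurd ⟨v, Finset.mem_inter.2 ⟨hv.1, h4⟩⟩ hFP
      refine hf ⟨insert p F, hd F hF haF, ?_⟩
      intro B hB
      simp only [List.mem_cons, List.not_mem_nil, or_false] at hB
      rcases hB with rfl | rfl | rfl
      · exact ⟨p, Finset.mem_inter.2 ⟨Finset.mem_insert_self _ _, hp⟩⟩
      · exact h2.mono (Finset.inter_subset_inter_right (Finset.subset_insert p F))
      · exact h3.mono (Finset.inter_subset_inter_right (Finset.subset_insert p F))

/-- If `p` dominates `a`, a covering hollow partition of `Δ - a` extends to `Δ`: put `a` into the part of `p`.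
A face `F` which meets all parts only with the help of `a`: `insert p F` is a face, remove `a`. -/
theorem chp_of_del (h : IsCx Δ) (ha : a ∈ vs Δ) (hpa : p ≠ a)
    (hd : ∀ F ∈ Δ, a ∈ F → insert p F ∈ Δ) (hc : CHP (ind Δ (vs Δ \ {a}))) : CHP Δ := by
  obtain ⟨P, Q, R, hm, hu, hf⟩ := hc
  rw [vs_del] at hu
  have hsub : ∀ B ∈ [P, Q, R], B ⊆ vs Δ \ {a} := by
    intro B hB
    have h1 := (hm.1 B hB).1
    rwa [vs_del] at h1
  have hm' : CM Δ [P, Q, R] := by
    refine ⟨fun B hB => (conn_ind (hsub B hB)).1 (hm.1 B hB), ?_⟩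
    refine hm.2.imp_of_mem ?_
    intro B C hB hC hBC
    exact ⟨hBC.1, (touch_ind (hsub B hB) (hsub C hC)).1 hBC.2⟩
  have hf' : ¬ fill Δ [P, Q, R] := fun h1 => hf ((h.fill_ind (by simp) hsub).2 h1)
  have hpv : p ∈ P ∪ Q ∪ R := by
    rw [hu, Finset.mem_sdiff, Finset.mem_singleton]
    exact ⟨h.sub_vs (hd {a} (mem_vs.1 ha) (Finset.mem_singleton_self a))
      (Finset.mem_insert_self _ _), hpa⟩
  rw [Finset.mem_union, Finset.mem_union] at hpv
  rcases hpv with (h1 | h1) | h1
  · exact HCon_chp_aux h ha hpa hd hm' hu hf' h1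
  · refine HCon_chp_aux (P := Q) (Q := P) (R := R) h ha hpa hd
      (CM_perm (List.Perm.swap Q P [R]) hm') ?_ ?_ h1
    · rw [← hu, Finset.union_comm Q P]
    · exact fun h2 => hf' (Rules_sub h2 (by simp))
  · refine HCon_chp_aux (P := R) (Q := P) (R := Q) h ha hpa hd
      (CM_perm (by
        have h3 : [P, Q, R] = [P, Q] ++ [R] := rfl
        rw [h3]
        exact List.perm_append_comm) hm') ?_ ?_ h1
    · rw [← hu, Finset.union_assoc, Finset.union_comm R (P ∪ Q)]
    · exact fun h2 => hf' (Rules_sub h2 (by simp))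

theorem ns_del_iff (h : IsCx Δ) : ¬ NS (ind Δ (vs Δ \ {a})) ↔ ∃ F P Q, FS Δ a F P Q := by
  constructor
  · intro hn
    unfold NS at hn
    push Not at hn
    obtain ⟨F, hF, hne, hc⟩ := hn
    rw [vs_del] at hne hc
    rw [conn_ind Finset.sdiff_subset] at hc
    obtain ⟨P, Q, h1, h2, h3, h4, h5⟩ :=
      not_conn (Finset.sdiff_subset.trans Finset.sdiff_subset) hne hc
    refine ⟨F, P, Q, hF.1, ?_, h1, h2, h3, h4, h5⟩
    intro haF
    have h6 := hF.2 haF
    simp at h6
  · rintro ⟨F, P, Q, hfs⟩ hns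
    have hFU : F ⊆ vs Δ \ {a} := by
      intro v hv
      rw [Finset.mem_sdiff, Finset.mem_singleton]
      refine ⟨h.sub_vs hfs.face hv, ?_⟩
      rintro rfl
      exact hfs.na hv
    have h1 := hns F ⟨hfs.face, hFU⟩ (by
      rw [vs_del, ← hfs.un]
      exact hfs.neP.mono Finset.subset_union_left)
    rw [vs_del, conn_ind Finset.sdiff_subset] at h1
    exact hfs.nt (h1.touch_of hfs.neP hfs.neQ hfs.d hfs.un)

/-- `F` plus the contracted vertex is a face separator of the contraction of the edge `az`; `P`, `Q` are the two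
sides. -/
structure CS (Δ : Set (Finset V)) (a z : V) (F P Q : Finset V) : Prop where
  na : a ∉ F
  nz : z ∉ F
  face : insert z F ∈ Δ ∨ insert a F ∈ Δ
  un : P ∪ Q = (vs Δ \ {a, z}) \ F
  d : Disjoint P Q
  neP : P.Nonempty
  neQ : Q.Nonempty
  nt : ¬ touch Δ P Q

theorem mem_con_avoid (h : IsCx Δ) (ha : a ∉ F) (hz : z ∉ F) :
    F ∈ con Δ {a, z} z ↔ F ∈ Δ := by
  constructor
  · rintro ⟨G, hG, hGF⟩
    have h1 : ∀ v ∈ G, v ∉ ({a, z} : Finset V) := by
      intro v hv hva
      refine hz ?_
      rw [← hGF, Finset.mem_image]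
      exact ⟨v, hv, if_pos hva⟩
    have h2 : G.image (fun v => if v ∈ ({a, z} : Finset V) then z else v) = G := by
      have h3 : G.image (fun v => if v ∈ ({a, z} : Finset V) then z else v) = G.image id :=
        Finset.image_congr (fun v hv => if_neg (h1 v hv))
      rw [h3, Finset.image_id]
    rw [← hGF, h2]
    exact hG
  · intro hF
    refine ⟨F, hF, ?_⟩
    have h3 : F.image (fun v => if v ∈ ({a, z} : Finset V) then z else v) = F.image id := by
      refine Finset.image_congr (fun v hv => if_neg ?_)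
      rw [Finset.mem_insert, Finset.mem_singleton]
      rintro (rfl | rfl)
      · exact ha hv
      · exact hz hv
    rw [h3, Finset.image_id]

theorem mem_con_insert (h : IsCx Δ) (haz : a ≠ z) (ha : a ∉ F) (hz : z ∉ F) :
    insert z F ∈ con Δ {a, z} z ↔ insert z F ∈ Δ ∨ insert a F ∈ Δ := by
  have himg : F.image (fun v => if v ∈ ({a, z} : Finset V) then z else v) = F := by
    have h3 : F.image (fun v => if v ∈ ({a, z} : Finset V) then z else v) = F.image id := by
      refine Finset.image_congr (fun v hv => if_neg ?_)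
      rw [Finset.mem_insert, Finset.mem_singleton]
      rintro (rfl | rfl)
      · exact ha hv
      · exact hz hv
    rw [h3, Finset.image_id]
  constructor
  · rintro ⟨G, hG, hGF⟩
    have hFG : F ⊆ G := by
      intro v hv
      have h1 : v ∈ G.image (fun v => if v ∈ ({a, z} : Finset V) then z else v) := by
        rw [hGF]
        exact Finset.mem_insert_of_mem hv
      obtain ⟨w, hw, hwv⟩ := Finset.mem_image.1 h1
      by_cases hwa : w ∈ ({a, z} : Finset V)
      · rw [if_pos hwa] at hwv
        subst hwv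
        exact absurd hv hz
      · rw [if_neg hwa] at hwv
        subst hwv
        exact hw
    have h1 : z ∈ G.image (fun v => if v ∈ ({a, z} : Finset V) then z else v) := by
      rw [hGF]
      exact Finset.mem_insert_self _ _
    obtain ⟨w, hw, hwz⟩ := Finset.mem_image.1 h1
    by_cases hwa : w ∈ ({a, z} : Finset V)
    · rw [Finset.mem_insert, Finset.mem_singleton] at hwa
      rcases hwa with rfl | rfl
      · exact Or.inr (h.down G hG _ (Finset.insert_subset hw hFG))
      · exact Or.inl (h.down G hG _ (Finset.insert_subset hw hFG))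
    · rw [if_neg hwa] at hwz
      subst hwz
      exact Or.inl (h.down G hG _ (Finset.insert_subset hw hFG))
  · rintro (h1 | h1)
    · refine ⟨_, h1, ?_⟩
      rw [Finset.image_insert, himg, if_pos (by simp)]
    · refine ⟨_, h1, ?_⟩
      rw [Finset.image_insert, himg, if_pos (by simp)]

theorem vs_con_edge (h : IsCx Δ) (haz : adj Δ a z) : vs (con Δ {a, z} z) = vs Δ \ {a} := by
  have hv := h.adj_vs haz
  rw [vs_con h (Finset.insert_subset hv.1 (Finset.singleton_subset_iff.2 hv.2)) (by simp)]
  ext v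
  simp only [Finset.mem_insert, Finset.mem_sdiff, Finset.mem_singleton, not_or]
  constructor
  · rintro (rfl | h1)
    · exact ⟨hv.2, haz.1.symm⟩
    · exact ⟨h1.1, h1.2.1⟩
  · rintro ⟨h1, h2⟩
    by_cases hvz : v = z
    · exact Or.inl hvz
    · exact Or.inr ⟨h1, h2, hvz⟩

/-- A face separator of the contraction which avoids the contracted vertex would be a face separator of `Δ`
(the image of a connected set is connected), so it contains it. -/
theorem cs_of_con (h : IsCx Δ) (hconn : ∀ F ∈ Δ, Conn Δ (vs Δ \ F)) (haz : adj Δ a z)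
    (hn : ¬ NS (con Δ {a, z} z)) : ∃ F P Q, CS Δ a z F P Q := by
  have hv := h.adj_vs haz
  have hcon : Conn Δ {a, z} := conn_pair h haz
  have hzm : z ∈ ({a, z} : Finset V) := by simp
  have hvs := vs_con_edge h haz
  unfold NS at hn
  push Not at hn
  obtain ⟨G, hG, hne, hc⟩ := hn
  have hGv : G ⊆ vs (con Δ {a, z} z) := (h.con).sub_vs hG
  have haG : a ∉ G := by
    intro h1
    have h2 := hGv h1
    rw [hvs] at h2
    simp at h2
  have hzG : z ∈ G := by
    by_contra hzG
    have hGΔ : G ∈ Δ := (mem_con_avoid h haG hzG).1 hG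
    refine hc ((conn_con h hcon hzm Finset.sdiff_subset).2 ?_)
    have e1 : lft {a, z} z (vs (con Δ {a, z} z) \ G) = vs Δ \ G := by
      ext v
      rw [Ctr_mem_lft, hvs]
      by_cases hva : v ∈ ({a, z} : Finset V)
      · rw [if_pos hva]
        simp only [Finset.mem_sdiff, Finset.mem_singleton]
        refine iff_of_true ⟨⟨hv.2, haz.1.symm⟩, hzG⟩ ?_
        rw [Finset.mem_insert, Finset.mem_singleton] at hva
        rcases hva with rfl | rfl
        · exact ⟨hv.1, haG⟩
        · exact ⟨hv.2, hzG⟩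
      · rw [if_neg hva]
        rw [Finset.mem_insert, Finset.mem_singleton, not_or] at hva
        simp only [Finset.mem_sdiff, Finset.mem_singleton]
        exact ⟨fun h1 => ⟨h1.1.1, h1.2⟩, fun h1 => ⟨⟨h1.1, hva.1⟩, h1.2⟩⟩
    rw [e1]
    exact hconn G hGΔ
  obtain ⟨P, Q, h1, h2, h3, h4, h5⟩ := not_conn Finset.sdiff_subset hne hc
  have hPv : P ⊆ vs (con Δ {a, z} z) \ G := by
    rw [← h1]
    exact Finset.subset_union_left
  have hQv : Q ⊆ vs (con Δ {a, z} z) \ G := by
    rw [← h1]
    exact Finset.subset_union_right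
  have hlft : ∀ B : Finset V, B ⊆ vs (con Δ {a, z} z) \ G → lft {a, z} z B = B := by
    intro B hB
    have hzB : z ∉ B := fun h6 => (Finset.mem_sdiff.1 (hB h6)).2 hzG
    ext v
    rw [Ctr_mem_lft]
    by_cases hva : v ∈ ({a, z} : Finset V)
    · rw [if_pos hva]
      refine iff_of_false hzB ?_
      rw [Finset.mem_insert, Finset.mem_singleton] at hva
      rcases hva with rfl | rfl
      · intro h6
        have h7 := (Finset.mem_sdiff.1 (hB h6)).1
        rw [hvs] at h7
        simp at h7
      · exact hzB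
    · rw [if_neg hva]
  have hins : insert z (G.erase z) = G := Finset.insert_erase hzG
  refine ⟨G.erase z, P, Q, ?_, Finset.notMem_erase z G, ?_, ?_, h2, h3, h4, ?_⟩
  · exact fun h6 => haG (Finset.mem_of_mem_erase h6)
  · refine (mem_con_insert h haz.1 (fun h6 => haG (Finset.mem_of_mem_erase h6))
      (Finset.notMem_erase z G)).1 ?_
    rw [hins]
    exact hG
  · rw [h1, hvs]
    ext v
    simp only [Finset.mem_sdiff, Finset.mem_singleton, Finset.mem_insert, Finset.mem_erase, not_or,
      not_and]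
    constructor
    · rintro ⟨⟨h6, h7⟩, h8⟩
      refine ⟨⟨h6, h7, ?_⟩, fun _ => h8⟩
      rintro rfl
      exact h8 hzG
    · rintro ⟨⟨h6, h7, h8⟩, h9⟩
      exact ⟨⟨h6, h7⟩, h9 h8⟩
  · intro h6
    refine h5 ((touch_con h hzm h2 (hPv.trans Finset.sdiff_subset)
      (hQv.trans Finset.sdiff_subset)).2 ?_)
    rw [hlft P hPv, hlft Q hQv]
    exact h6

/-- The minimality of the counterexample for the contraction of an edge. -/
theorem Bad.con_apex (h : Bad Δ) (haz : adj Δ a z) (hn : NS (con Δ {a, z} z)) :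
    ∃ c, Apex (con Δ {a, z} z) c := by
  have hΔ := h.inP.cx
  have hv := hΔ.adj_vs haz
  have hcon : Conn Δ {a, z} := conn_pair hΔ haz
  have hzm : z ∈ ({a, z} : Finset V) := by simp
  have hvs := vs_con_edge hΔ haz
  refine h.min (con Δ {a, z} z) ?_ (h.inP.con hcon hzm) ?_ hn ?_
  · rw [hvs]
    exact Finset.card_lt_card (Finset.sdiff_ssubset (Finset.singleton_subset_iff.2 hv.1)
      (Finset.singleton_nonempty a))
  · rw [hvs]
    exact ⟨z, Finset.mem_sdiff.2 ⟨hv.2, by
      rw [Finset.mem_singleton]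
      exact haz.1.symm⟩⟩
  · exact fun h1 => h.nchp (chp_of_con hΔ hcon hzm h1)

/-- The minimality of the counterexample for the deletion of a dominated vertex. -/
theorem Bad.del_apex (h : Bad Δ) (ha : a ∈ vs Δ) (hpa : p ≠ a)
    (hd : ∀ F ∈ Δ, a ∈ F → insert p F ∈ Δ) (hn : NS (ind Δ (vs Δ \ {a}))) :
    ∃ c ∈ vs Δ, ConesDel Δ a c := by
  have hΔ := h.inP.cx
  have hp : p ∈ vs Δ := hΔ.sub_vs (hd {a} (mem_vs.1 ha) (Finset.mem_singleton_self a))
      (Finset.mem_insert_self _ _)
  obtain ⟨c, hc⟩ := h.min (ind Δ (vs Δ \ {a})) (by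
      rw [vs_del]
      exact Finset.card_lt_card (Finset.sdiff_ssubset (Finset.singleton_subset_iff.2 ha)
        (Finset.singleton_nonempty a))) (h.inP.ind _) (by
      rw [vs_del]
      exact ⟨p, Finset.mem_sdiff.2 ⟨hp, by
        rw [Finset.mem_singleton]
        exact hpa⟩⟩) hn (fun h1 => h.nchp (chp_of_del hΔ ha hpa hd h1))
  have hc0 := hc ∅ ⟨hΔ.empty, Finset.empty_subset _⟩
  have hcv : c ∈ vs Δ \ {a} := hc0.2 (Finset.mem_insert_self _ _)
  rw [Finset.mem_sdiff, Finset.mem_singleton] at hcv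
  refine ⟨c, hcv.1, hcv.2, ?_⟩
  intro F hF haF
  refine (hc F ⟨hF, ?_⟩).1
  intro v hv
  rw [Finset.mem_sdiff, Finset.mem_singleton]
  refine ⟨hΔ.sub_vs hF hv, ?_⟩
  rintro rfl
  exact haF hv

/-- `p` dominates `a` if all triples with an edge of the closed neighbourhood of `a` are filled. -/
theorem InP.dominates (h : InP Δ) (hpa : adj Δ p a)
    (h1 : ∀ s ∈ nb Δ {a}, s ≠ p → ({a, p, s} : Finset V) ∈ Δ)
    (h2 : ∀ s ∈ nb Δ {a}, ∀ t ∈ nb Δ {a}, s ≠ p → t ≠ p → adj Δ s t → ({p, s, t} : Finset V) ∈ Δ) :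
    ∀ F ∈ Δ, a ∈ F → insert p F ∈ Δ := by
  intro F hF haF
  have hΔ := h.cx
  have hT : ∀ s ∈ F, ∀ t ∈ F, s ≠ p → t ≠ p → s ≠ t → ({p, s, t} : Finset V) ∈ Δ := by
    intro s hs t ht hsp htp hst
    by_cases hsa : s = a
    · subst hsa
      have h3 := h1 t (hΔ.mem_nb_single.2 (hΔ.adj_of_face hF hs ht hst)) htp
      rwa [Finset.insert_comm] at h3
    · by_cases hta : t = a
      · subst hta
        have h3 := h1 s (hΔ.mem_nb_single.2 (hΔ.adj_of_face hF ht hs (Ne.symm hst))) hsp
        have e1 : ({t, p, s} : Finset V) = {p, s, t} := by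
          rw [Finset.insert_comm, Finset.pair_comm]
        rwa [e1] at h3
      · exact h2 s (hΔ.mem_nb_single.2 (hΔ.adj_of_face hF haF hs (Ne.symm hsa))) t
          (hΔ.mem_nb_single.2 (hΔ.adj_of_face hF haF ht (Ne.symm hta))) hsp htp
          (hΔ.adj_of_face hF hs ht hst)
  have hP : ∀ s ∈ F, s ≠ p → adj Δ p s := by
    intro s hs hsp
    by_cases hsa : s = a
    · subst hsa
      exact hpa
    · have h3 := hT a haF s hs hpa.1.symm hsp (Ne.symm hsa)
      exact hΔ.adj_of_face h3 (by simp) (by simp) (Ne.symm hsp)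
  refine h.clq_mem ⟨?_, ?_⟩ ?_
  · exact Finset.insert_subset (hΔ.adj_vs hpa).1 (hΔ.sub_vs hF)
  · intro u hu v hv huv
    rw [Finset.mem_insert] at hu hv
    rcases hu with rfl | hu <;> rcases hv with rfl | hv
    · exact absurd rfl huv
    · exact hP v hv (Ne.symm huv)
    · exact adj_symm (hP u hu huv)
    · exact hΔ.adj_of_face hF hu hv huv
  · intro u hu v hv w hw huv huw hvw
    rw [Finset.mem_insert] at hu hv hw
    by_cases hup : u = p
    · subst hup
      have hv' : v ∈ F := hv.resolve_left (Ne.symm huv)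
      have hw' : w ∈ F := hw.resolve_left (Ne.symm huw)
      exact hT v hv' w hw' (Ne.symm huv) (Ne.symm huw) hvw
    · have hu' : u ∈ F := hu.resolve_left hup
      by_cases hvp : v = p
      · subst hvp
        have hw' : w ∈ F := hw.resolve_left (Ne.symm hvw)
        have h3 := hT u hu' w hw' huv (Ne.symm hvw) huw
        rwa [Finset.insert_comm] at h3
      · have hv' : v ∈ F := hv.resolve_left hvp
        by_cases hwp : w = p
        · subst hwp
          have h3 := hT u hu' v hv' huw hvw huv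
          have e1 : ({w, u, v} : Finset V) = {u, v, w} := by
            rw [Finset.insert_comm, Finset.pair_comm]
          rwa [e1] at h3
        · have hw' : w ∈ F := hw.resolve_left hwp
          exact hΔ.down F hF _ (Finset.insert_subset hu' (Finset.insert_subset hv'
            (Finset.singleton_subset_iff.2 hw')))

end Pool.Agent.Lib.MP_73b196_co.St
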