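import Pool.Agent.Lib.MP_73b196_co.St.HRul
import Pool.Agent.Lib.MP_73b196_co.St.HCon

/-!
# Theorem H, stage 1: the base case (all components of the complement of a minimal separator are single vertices)

Statements with complete proofs in the docstrings, one module `St/<Name>.lean` for each, theorem
`Pool.Agent.Lib.MP_73b196_co.St.t<Name>`; the statements under `Uses` are hypotheses of the theorem.
Notation of the proofs: `x ~ y` is `adj Δ x y`; `c x y filled` means `{c, x, y} ∈ Δ` (`IsCx.fill_three`);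
`a`, `b` are the two poles (`a ~ s`, `b ~ s` for all `s ∈ S`); the vertices of `vs Δ \ S` are pairwise
nonadjacent, so a face contains at most one of them; `N(c)` is `nb Δ {c}` and is contained in `S`, it is not a
face for `c ∈ vs Δ \ S` (`nb_notMem`, since the vertex `a` or `b` different from `c` is not in `{c} ∪ N(c)`).
`K4{A, B, C, D}`, `K5{...}` are clique models used with `InP.k4`, `InP.k5`, `InP.k4two`, `InP.k4three`,
`InP.k4all`. A set like `j + z` is `insert z {j}` (connected if `j ~ z`, `conn_pair`).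
-/

set_option autoImplicit false

namespace Pool.Agent.Lib.MP_73b196_co.St

theorem BC.symm {V : Type} [Fintype V] [DecidableEq V] {Δ : Set (Finset V)} {S : Finset V} {a b : V}
    (h : BC Δ S a b) : BC Δ S b a where
  inP := h.inP
  conn := h.conn
  nchp := h.nchp
  noApex := h.noApex
  sub := h.sub
  ha := h.hb
  hb := h.ha
  hab := h.hab.symm
  ind := h.ind
  sa := h.sb
  sb := h.sa

/-- **HA1** `S` a clique. Proof. `N(c) ⊆ S` is a clique and no face, so it contains a hollow triangle `T`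
(`InP.mem_of_noHol`). Let `d` be one of `a`, `b`, `d ≠ c`. `{c}` and `{d}` are two poles (`Pl`), the vertices of
`T` are common neighbours. By `Pl.r5` (with `A = {c}`) some edge `uv` of `T` is not filled with `c`; `w` is the
third vertex. If `c x y` is unfilled, `x, y ∈ N(c)`: `Hol c x y` and `T` are hollow triangles in the clique
`{c} ∪ N(c)`, so they share two vertices (`InP.hol_share`), `c ∉ T`, so `x, y ∈ T`; if `{x,y} ≠ {u,v}` two edges
of `T` are unfilled with `c`, contrary to `InP.r5'`. A hollow triangle `x y z` in `N(c)` shares two vertices with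
`Hol c u v`, so it contains `u` and `v`. -/
def StmtHA1 : Prop := ∀ (V : Type) [Fintype V] [DecidableEq V] (Δ : Set (Finset V)) (S : Finset V)
  (a b : V), BC Δ S a b → Clq Δ S → ∀ c ∈ vs Δ \ S, ∃ u ∈ S, ∃ v ∈ S, ∃ w ∈ S, Hol Δ u v w ∧
    adj Δ c u ∧ adj Δ c v ∧ adj Δ c w ∧ ({c, u, v} : Finset V) ∉ Δ ∧
    (∀ x ∈ S, ∀ y ∈ S, adj Δ c x → adj Δ c y → x ≠ y → ({c, x, y} : Finset V) ∉ Δ →
      ({x, y} : Finset V) = {u, v}) ∧
    (∀ x ∈ S, ∀ y ∈ S, ∀ z ∈ S, adj Δ c x → adj Δ c y → adj Δ c z → Hol Δ x y z →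
      u ∈ ({x, y, z} : Finset V) ∧ v ∈ ({x, y, z} : Finset V))

/-- **HA2** Uses HA1. `S` a clique: every `q ∈ S` lies in a hollow triangle of `S`. Proof. Otherwise `q` is a
cone vertex (`InP.apex_of`, contradiction to `noApex`): let `c ∈ vs Δ \ S` and `T = {u,v,w}` from HA1. `q ∉ T`.
`q` fills the three edges of `T` (otherwise `q` lies in a hollow triangle). If `q` is not adjacent to `c` then
`{q}`, `{c}` are poles and `Pl.r5` with `A = {q}` is contradicted. So `q ~ c`. For `s ∈ S`, `c ~ s`, `s ≠ q`: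
`{q, c, s} ∈ Δ`, otherwise `{q, s} = {u, v}` by HA1 and `q ∈ T`. For an edge `s t` in `S`: `{q, s, t} ∈ Δ`
because `q` is in no hollow triangle. An edge which is not in `S` contains exactly one vertex `c` outside
`S`. -/
def StmtHA2 : Prop := ∀ (V : Type) [Fintype V] [DecidableEq V] (Δ : Set (Finset V)) (S : Finset V)
  (a b : V), BC Δ S a b → Clq Δ S → ∀ q ∈ S, ∃ x ∈ S, ∃ y ∈ S, Hol Δ q x y

/-- **HA** Uses HA1, HA2. Proof. HA1 for `c = a` gives `u, v`; all hollow triangles in `S` contain `u` and `v`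
(all of `S` is adjacent to `a`). `W := S \ {u, v}`; by HA2 `Hol u v w` for all `w ∈ W`; `W` is not empty.
Let `c ∈ vs Δ \ S`: HA1 for `c` gives `uc, vc, wc`; the hollow triangle `{uc, vc, wc}` contains `u, v`, so it is
`{u, v, w'}`, `w' ∈ W`, all adjacent to `c`; the unique unfilled edge `{uc, vc}` of `c` is `uv`, `uw'` or `vw'`,
and every hollow triangle of `S` in `N(c)` contains it; so in the last two cases `w'` is the only vertex of `W`
adjacent to `c` (for `w ∈ W`, `w ~ c`, `{u, v, w}` is a hollow triangle in `N(c)`).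
Covering hollow partition: `X3 = W ∪ {c : {c,u,v} ∉ Δ}`; `X2 = {v} ∪ {c : {c,u,v} ∈ Δ and some w ∈ W, w ~ c,
{c,u,w} ∉ Δ}`; `X1 = {u} ∪` the other `c` (they have `{c,v,w'} ∉ Δ`). Connected: `W` is a clique, every `c` is
adjacent to `u`, `v` and to some `w'`. Pairwise adjacent by `u ~ v`, `u ~ w`, `v ~ w`. Unfilled: three vertices
of a face, one in each part; at most one of them is outside `S`; none: `{u,v,w}`; in `X3`: `{c,u,v} ∉ Δ`; in
`X2`: `{c,u,w} ∈ Δ` with `w ~ c`, `w = w'`, contradiction; in `X1`: `{c,v,w}`, `w = w'`, contradiction. -/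
def StmtHA : Prop := ∀ (V : Type) [Fintype V] [DecidableEq V] (Δ : Set (Finset V)) (S : Finset V)
  (a b : V), BC Δ S a b → Clq Δ S → False

/-- **HB0** Proof. `{a}`, `{b}` are poles; if `Hol x y z` with `x, y, z ∈ S` then `S` is a clique by `Pl.r2`. -/
def StmtHB0 : Prop := ∀ (V : Type) [Fintype V] [DecidableEq V] (Δ : Set (Finset V)) (S : Finset V)
  (a b : V), BC Δ S a b → ¬ Clq Δ S → ∀ x ∈ S, ∀ y ∈ S, ∀ z ∈ S, ¬ Hol Δ x y z

/-- **HB1** Uses HB0. `p ∈ S` adjacent to all of `S`, only the two poles outside `S`. Proof. `p` is adjacent to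
all vertices; it is no cone vertex, so (`InP.apex_of`) there is an edge `s t` (`s, t ≠ p`) with `{p,s,t} ∉ Δ`.
Not both in `S` (HB0). So `{c, p, y} ∉ Δ`, `c = a` or `c = b`, `y ∈ S`. `y` has a non-neighbour in `S`:
otherwise let `x, x' ∈ S` be nonadjacent (`S` is no clique); `Pl.r3` with the pair `x, x'` and `z, w := p, y`
(both adjacent to `x`, different from `x'`) shows that `a p y`, `b p y` are filled. A vertex `x ∈ S`, `x ~ y`
is adjacent to all of `S`: otherwise `x` is not adjacent to `x2 ∈ S`; `x2 ≠ y`; `Pl.r3` with the pair `x, x2`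
and `z, w := p, y` (`p ~ x`, `y ~ x`) gives the same contradiction (`x ≠ p` since `p` is adjacent to all). -/
def StmtHB1 : Prop := ∀ (V : Type) [Fintype V] [DecidableEq V] (Δ : Set (Finset V)) (S : Finset V)
  (a b : V), BC Δ S a b → ¬ Clq Δ S → (∀ c ∈ vs Δ \ S, c = a ∨ c = b) →
  ∀ p ∈ S, (∀ s ∈ S, s ≠ p → adj Δ p s) →
  ∃ y ∈ S, y ≠ p ∧ (∃ y' ∈ S, y' ≠ y ∧ ¬ adj Δ y y') ∧
    (∀ x ∈ S, x ≠ y → adj Δ x y → ∀ s ∈ S, s ≠ x → adj Δ x s) ∧
    (({a, p, y} : Finset V) ∉ Δ ∨ ({b, p, y} : Finset V) ∉ Δ)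

/-- **HB2** `p, p'` adjacent to all of `S` (`p = p'` is allowed); `y, y' ∈ S` not adjacent to all of `S`, but
all their neighbours in `S` are; `{c, p, y} ∉ Δ`, `{c', p', y'} ∉ Δ`, `c, c' ∈ {a, b}`. Then `y = y'` and
`c = c'`. Proof. `y ≠ y'` implies `y` not adjacent to `y'`. `cs` denotes the pole different from `c`. No face
contains both poles. All vertices of `S` are adjacent to `p, p'` and to both poles.
(1) `y ≠ y'`, `c = c'`. `p ≠ p'`: K5 with `{c}, {p}, {y}, {p'}, cs + y'`: `(c, p, y)` and `(c, p', cs + y')`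
are unfilled and share exactly `c`. `p = p'`: K4 with `{c}, {p}, {y}, cs + y'`: `(c,p,y)`, `(c, p, cs + y')`,
`(c, y, cs + y')` are unfilled.
(2) `y ≠ y'`, `c ≠ c'` (`c' = cs`). `p ≠ p'`: K5 with `c' + y, {c}, {p}, {p'}, {y'}`: `(c, p, c' + y)` and
`(c' + y, p', y')` are unfilled. `p = p'`: K4 with `{c}, {p}, c' + y, {y'}`: `(c, p, c' + y)`,
`(p, c' + y, y')`, `(c, c' + y, y')` are unfilled.
(3) `y = y'`, `c ≠ c'`. Let `z ∈ S` be a non-neighbour of `y`. `p ≠ p'`: K5 with `{y}, {c}, {p}, c' + z, {p'}`: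
`(y, c, p)` and `(y, c' + z, p')`. `p = p'`: K4 with `{y}, {c}, {p}, c' + z`: `(y,c,p)`, `(y, p, c' + z)`,
`(y, c, c' + z)` are unfilled. -/
def StmtHB2 : Prop := ∀ (V : Type) [Fintype V] [DecidableEq V] (Δ : Set (Finset V)) (S : Finset V)
  (a b : V), BC Δ S a b → ∀ p ∈ S, ∀ p' ∈ S, ∀ y ∈ S, ∀ y' ∈ S, ∀ c ∈ ({a, b} : Finset V),
  ∀ c' ∈ ({a, b} : Finset V), (∀ s ∈ S, s ≠ p → adj Δ p s) → (∀ s ∈ S, s ≠ p' → adj Δ p' s) →
  (∃ z ∈ S, z ≠ y ∧ ¬ adj Δ y z) → (∃ z ∈ S, z ≠ y' ∧ ¬ adj Δ y' z) →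
  (∀ x ∈ S, x ≠ y → adj Δ x y → ∀ s ∈ S, s ≠ x → adj Δ x s) →
  (∀ x ∈ S, x ≠ y' → adj Δ x y' → ∀ s ∈ S, s ≠ x → adj Δ x s) →
  y ≠ p → y' ≠ p' → ({c, p, y} : Finset V) ∉ Δ → ({c', p', y'} : Finset V) ∉ Δ → y = y' ∧ c = c'

/-- **HB3** Uses HB0, HB1, HB2. Proof. Fix the pair `(c, y)` of HB1 for `p0`. By HB1 and HB2 `{c, p, y} ∉ Δ` for
all `p ∈ S` which are adjacent to all of `S`; these are exactly the neighbours of `y` in `S` (HB1). So `c y` is an
edge facet: a face containing `c, y` and a third vertex `v`: `v ∈ S` (no other pole is adjacent to `c`),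
`v ~ y`, so `v` is adjacent to all of `S` and `{c, v, y} ∉ Δ`. `chp_of_edgeFacet`. -/
def StmtHB3 : Prop := ∀ (V : Type) [Fintype V] [DecidableEq V] (Δ : Set (Finset V)) (S : Finset V)
  (a b : V), BC Δ S a b → ¬ Clq Δ S → (∀ c ∈ vs Δ \ S, c = a ∨ c = b) →
  ∀ p ∈ S, (∀ s ∈ S, s ≠ p → adj Δ p s) → False

/-- **HB4** Uses HB0. Only two poles, no vertex of `S` is adjacent to all of `S`, an edge `xz` of `S` with
`{a, x, z} ∉ Δ`. Proof. Let `u ∈ S \ {x, z}`. K4 with `{a}, {x}, {z}, b + u`: unfilled `(a,x,z)`; `(a, x, b + u)`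
is filled only by `{a,x,u}`, `(a, z, b + u)` only by `{a,z,u}`; so `u ~ x` or `u ~ z`. Not both: `u` has a
non-neighbour `y ∈ S`, `y ≠ x, z`; `Pl.r3` with the pair `u, y` and `x, z` (both adjacent to `u`) gives
`{a, x, z} ∈ Δ`. So `S = {x, z} ∪ Ax ∪ Az` (neighbours of `x`, of `z`), disjoint. No edge between `u ∈ Ax` and
`u' ∈ Az`: `x, u, u', z` would be an induced 4-cycle (`Pl.r6`). Covering hollow partition `{x, b}`,
`{z} ∪ Az`, `{a} ∪ Ax`: connected, pairwise adjacent (`x ~ z`, `x ~ a`, `z ~ a`); a face with a vertex in each: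
`x, z, a` is unfilled; `x, z, u ∈ Ax`: `z` not adjacent to `u`; `x, u' ∈ Az` not adjacent; `b` and `a` not in one
face; `b, z, u` and `b, u', u`: not adjacent. -/
def StmtHB4 : Prop := ∀ (V : Type) [Fintype V] [DecidableEq V] (Δ : Set (Finset V)) (S : Finset V)
  (a b : V), BC Δ S a b → ¬ Clq Δ S → (∀ c ∈ vs Δ \ S, c = a ∨ c = b) →
  (∀ p ∈ S, ∃ s ∈ S, s ≠ p ∧ ¬ adj Δ p s) → ∀ x ∈ S, ∀ z ∈ S, adj Δ x z →
  ({a, x, z} : Finset V) ∉ Δ → False

/-- **HB5** Only two poles, no vertex of `S` is adjacent to all of `S`, all edges of `S` are filled with `a` and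
`b`. Proof. `S` is connected: otherwise (`not_conn`; `S` is not empty because it is no face) `S = S1 ∪ S2`
without an edge between, take for `S2` a component (`exists_comp`) and for `S1` the rest (not empty): covering
hollow partition `{a}`, `{b} ∪ S1`, `S2`. For an edge `xz` of `S` there are no `u, v ∈ S` with `u ~ x`, `u` not
`~ z`, `u ≠ z`, `v ~ z`, `v` not `~ x`, `v ≠ x`: K4 with `a + u`, `b + v`, `{x}`, `{z}`: `(a+u, b+v, x)` by
`{b, u, x}`, `(a+u, b+v, z)` by `{a, v, z}`, `(a+u, x, z)` by `{a,x,z}`, `(b+v, x, z)` by `{b,x,z}`; so a face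
contains `x`, `z`, one of `a, u` and one of `b, v`: `a, b` no; `u`: not adjacent to `z`; `v`: not adjacent to
`x`. Let `x ∈ S` have the largest number of neighbours in `S`. Some vertex of `S` is not adjacent to `x`; as
`S` is connected there are `z, v ∈ S` with `z ~ x`, `v ~ z`, `v` not `~ x`, `v ≠ x`. Every neighbour `u ≠ z` of
`x` in `S` is a neighbour of `z`. So `z` has more neighbours: those of `x` except `z`, and `x`, and `v`.
Contradiction. -/
def StmtHB5 : Prop := ∀ (V : Type) [Fintype V] [DecidableEq V] (Δ : Set (Finset V)) (S : Finset V)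
  (a b : V), BC Δ S a b → (∀ c ∈ vs Δ \ S, c = a ∨ c = b) →
  (∀ p ∈ S, ∃ s ∈ S, s ≠ p ∧ ¬ adj Δ p s) →
  (∀ x ∈ S, ∀ z ∈ S, adj Δ x z → ({a, x, z} : Finset V) ∈ Δ ∧ ({b, x, z} : Finset V) ∈ Δ) → False

/-- The situation of part (c) of the base case: at least three vertices outside `S`, `S` no clique. -/
structure Cc {V : Type} [Fintype V] [DecidableEq V] (Δ : Set (Finset V)) (S : Finset V)
    (a b x z : V) : Prop extends BC Δ S a b where
  j3 : ∃ j ∈ vs Δ \ S, j ≠ a ∧ j ≠ b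
  hx : x ∈ S
  hz : z ∈ S
  xz : x ≠ z
  nxz : ¬ adj Δ x z
  ax : ∀ c ∈ vs Δ \ S, adj Δ c x ∧ adj Δ c z
  ay : ∀ y ∈ S, y ≠ x → y ≠ z → adj Δ y x ∧ adj Δ y z
  yy : ∀ y ∈ S, ∀ y' ∈ S, y ≠ x → y ≠ z → y' ≠ x → y' ≠ z → y ≠ y' → adj Δ y y'
  noHol : ∀ s ∈ S, ∀ t ∈ S, ∀ u ∈ S, ¬ Hol Δ s t u

/-- **HC1** Uses HB0. Proof. Let `j` be the third vertex outside `S`. `N(j) ⊆ S` is no face and contains no
hollow triangle (HB0), so it is no clique (`InP.mem_of_noHol`): `x, z ∈ N(j)` not adjacent. Let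
`y ∈ S \ {x, z}`. K4 with `j + z`, `{x}`, `{a}`, `b + y`: `(j+z, x, a)` is unfilled; `(j+z, x, b+y)` is filled
only by `{j,x,y}`; `(j+z, a, b+y)` only by `{a,z,y}`; `(x, a, b+y)` only by `{a,x,y}`. So at most one of the last
three is unfilled; with `x <-> z`: at most one of `{j,z,y}, {a,x,y}, {a,z,y}` is unfilled. Hence `y ~ x` and
`y ~ z`. `yy`: if `y, y'` are not adjacent then `x y z y'` is an induced 4-cycle of common neighbours of `{a}`
and `{b}` (`Pl.r6`). So `S \ {x}` and `S \ {z}` are cliques without hollow triangle, faces. `ax`: for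
`c ∈ vs Δ \ S` the set `N(c) ⊆ S` is no face, so it contains `x` and `z`. -/
def StmtHC1 : Prop := ∀ (V : Type) [Fintype V] [DecidableEq V] (Δ : Set (Finset V)) (S : Finset V)
  (a b : V), BC Δ S a b → ¬ Clq Δ S → (∃ j ∈ vs Δ \ S, j ≠ a ∧ j ≠ b) → ∃ x z, Cc Δ S a b x z

/-- **HC2** Proof. Let `l` be a vertex outside `S`, `l ≠ c` (`a` or `b`). `l ~ z`, `l ~ x`. K5 with `{c}, {x},
l + z, {y}, {y'}`: `(c, x, l + z)` is unfilled, so `(c, y, y')` is filled. -/
def StmtHC2 : Prop := ∀ (V : Type) [Fintype V] [DecidableEq V] (Δ : Set (Finset V)) (S : Finset V)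
  (a b x z : V), Cc Δ S a b x z → ∀ c ∈ vs Δ \ S, ∀ y ∈ S, ∀ y' ∈ S, y ≠ x → y ≠ z → y' ≠ x →
  y' ≠ z → y ≠ y' → adj Δ c y → adj Δ c y' → ({c, y, y'} : Finset V) ∈ Δ

/-- **HC3** `i` is bad for `y` if `{i,x,y} ∉ Δ` or `{i,z,y} ∉ Δ`. If `c` is bad for `y` and `c ~ y`, then exactly
one of `{c,x,y}`, `{c,z,y}` is no face and no other `i` is bad for `y`. Proof. Say `{c,x,y} ∉ Δ` (the case
`{c,z,y} ∉ Δ` is the same with `x` and `z` exchanged). Let `i ≠ c`. If there is `l ∈ {a, b}` with `l ≠ i, c`: K4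
with `i + z`, `{x}`, `{c}`, `l + y`: `(i+z, x, c)` is unfilled; `(i+z, x, l+y)` is filled only by `{i,x,y}`,
`(i+z, c, l+y)` only by `{c,z,y}`, `(x, c, l+y)` only by `{c,x,y}`, which is unfilled; so `{i,x,y}` and
`{c,z,y}` are faces; with `x <-> z`: at most one of `{i,z,y}, {c,z,y}, {c,x,y}` is unfilled, so `{i,z,y} ∈ Δ`.
If `{i, c} = {a, b}`: `Pl.r4` for the poles `{a}, {b}`, the nonadjacent pair `x, z` and `y`: at most one of the
four triples is unfilled. To see that `{c,z,y} ∈ Δ` take any `i ≠ c`. -/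
def StmtHC3 : Prop := ∀ (V : Type) [Fintype V] [DecidableEq V] (Δ : Set (Finset V)) (S : Finset V)
  (a b x z : V), Cc Δ S a b x z → ∀ c ∈ vs Δ \ S, ∀ y ∈ S, y ≠ x → y ≠ z → adj Δ c y →
  (({c, x, y} : Finset V) ∉ Δ ∨ ({c, z, y} : Finset V) ∉ Δ) →
  (({c, x, y} : Finset V) ∈ Δ ∨ ({c, z, y} : Finset V) ∈ Δ) ∧
  ∀ i ∈ vs Δ \ S, i ≠ c → ({i, x, y} : Finset V) ∈ Δ ∧ ({i, z, y} : Finset V) ∈ Δ

/-- **HC4** Uses HC3. The sets of bad vertices form a chain. Proof. Suppose `i` is bad for `y` and not for `y'`,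
`j` is bad for `y'` and not for `y`; `y ≠ y'`, `i ≠ j`. K4 with `{x}, {y}, {y'}, {z, i, j}` (connected: `z ~ i`,
`z ~ j`): `(x,y,y')` is filled (no hollow triangle in `S`), `(x, y, *)` by `{j,x,y}`, `(x, y', *)` by
`{i,x,y'}`, `(y, y', *)` by `{z,y,y'}`; so a face contains `x, y, y'` and `i` or `j` (not `z`): `{i,x,y} ∈ Δ` or
`{j,x,y'} ∈ Δ`. The same with `z`: `{i,z,y} ∈ Δ` or `{j,z,y'} ∈ Δ`. If `{i,x,y} ∈ Δ`: then `i ~ y`,
`{i,z,y} ∉ Δ`, so `{j,z,y'} ∈ Δ`, `j ~ y'`, `{j,x,y'} ∉ Δ`. If `{i,x,y} ∉ Δ` then `{j,x,y'} ∈ Δ`, `j ~ y'`,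
`{j,z,y'} ∉ Δ`, `{i,z,y} ∈ Δ`, `i ~ y`. So, up to exchanging `x` and `z`: `{i,x,y} ∉ Δ`, `{j,z,y'} ∉ Δ`,
`i ~ y`, `j ~ y'`; also `i ~ y'`, `j ~ y`. K5 with `j + x`, `{i}`, `{y}`, `{z}`, `{y'}`: `(i, y, j + x)` and
`(j + x, z, y')` are unfilled and share exactly `j + x`. -/
def StmtHC4 : Prop := ∀ (V : Type) [Fintype V] [DecidableEq V] (Δ : Set (Finset V)) (S : Finset V)
  (a b x z : V), Cc Δ S a b x z → ∀ i ∈ vs Δ \ S, ∀ j ∈ vs Δ \ S, ∀ y ∈ S, ∀ y' ∈ S,
  y ≠ x → y ≠ z → y' ≠ x → y' ≠ z →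
  (({i, x, y} : Finset V) ∉ Δ ∨ ({i, z, y} : Finset V) ∉ Δ) →
  ({i, x, y'} : Finset V) ∈ Δ → ({i, z, y'} : Finset V) ∈ Δ →
  (({j, x, y'} : Finset V) ∉ Δ ∨ ({j, z, y'} : Finset V) ∉ Δ) →
  ({j, x, y} : Finset V) ∈ Δ → ({j, z, y} : Finset V) ∈ Δ → False

/-- **HC5** Uses HC2, HC4. Some `i` is bad for all `y`. Proof. For `y ∈ S \ {x, z}` let `I y` be the set (Finset
filter) of the `i ∈ vs Δ \ S` which are bad for `y`. `I y` is not empty: otherwise `y` is a cone vertex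
(`InP.apex_of`): `y ~ x, z` and all of `S`; `y ~ i` for all `i` since `{i,x,y} ∈ Δ`; edges in `S`: no hollow
triangle; edges `i x`, `i z`: not bad; edges `i y'`: HC2. If `S \ {x, z}` is empty take `i = a`. Otherwise take
`y0` with the smallest `(I y0).card`; let `i ∈ I y0`. If `i ∉ I y` then by HC4 no `j` is in `I y` but not in
`I y0`, so `I y ⊆ I y0`, without `i`: smaller cardinality, contradiction. -/
def StmtHC5 : Prop := ∀ (V : Type) [Fintype V] [DecidableEq V] (Δ : Set (Finset V)) (S : Finset V)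
  (a b x z : V), Cc Δ S a b x z → ∃ i ∈ vs Δ \ S, ∀ y ∈ S, y ≠ x → y ≠ z →
  (({i, x, y} : Finset V) ∉ Δ ∨ ({i, z, y} : Finset V) ∉ Δ)

/-- **HC6** Uses HC3, HC5. Proof. Let `i` be bad for all `y`. There is `w ∈ {x, z}` such that `{i, w, y} ∉ Δ` for
all `y ∈ S \ {x, z}` with `i ~ y`: otherwise (HC3: exactly one of the two is no face) there are `y ≠ y'`,
adjacent to `i`, with `{i,z,y} ∉ Δ`, `{i,x,y'} ∉ Δ`; let `l ∈ {a, b}`, `l ≠ i`; K5 with `{i}, {z}, {y}, l + x,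
{y'}`: `(i, z, y)` and `(i, l + x, y')` are unfilled and share exactly `i`. So `i w` is an edge facet: a third
vertex `v` of a face containing `i, w` is in `S`, `v ≠ x, z` (`x` is not adjacent to `z`), `v ~ i`, and
`{i, w, v} ∉ Δ`. `chp_of_edgeFacet`. -/
def StmtHC6 : Prop := ∀ (V : Type) [Fintype V] [DecidableEq V] (Δ : Set (Finset V)) (S : Finset V)
  (a b x z : V), Cc Δ S a b x z → False

/-- **HBase** Uses HA, HB3, HB4, HB5, HC1, HC6. Proof. `S` is no clique (HA). If there is a third vertex outside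
`S`: HC1, HC6. Otherwise only `a`, `b` are outside `S`: if some `p ∈ S` is adjacent to all of `S`: HB3. If some
edge of `S` is unfilled with `a` or with `b`: HB4 (for `b` use `BC.symm`). Otherwise HB5. -/
def StmtHBase : Prop := ∀ (V : Type) [Fintype V] [DecidableEq V] (Δ : Set (Finset V))
  (S : Finset V) (a b : V), BC Δ S a b → False

end Pool.Agent.Lib.MP_73b196_co.St
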