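import Pool.Agent.Lib.MP_73b196_co.St.HTool
import Pool.Agent.Lib.MP_73b196_co.St.HSpecA

/-!
# Statement HC2 of the base case of Theorem H
-/

set_option autoImplicit false

namespace Pool.Agent.Lib.MP_73b196_co.St

/-- The argument of HC2 for a fixed pole `l`. -/
theorem HC2_aux {V : Type} [Fintype V] [DecidableEq V] {Δ : Set (Finset V)} {S : Finset V}
    {a b x z c l y y' : V} (h : Cc Δ S a b x z) (hc : c ∈ vs Δ \ S) (hl : l ∈ vs Δ \ S)
    (hlc : l ≠ c) (hls : ∀ s ∈ S, adj Δ l s) (hy : y ∈ S) (hy' : y' ∈ S) (yx : y ≠ x)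
    (yz : y ≠ z) (yx' : y' ≠ x) (yz' : y' ≠ z) (hyy : y ≠ y') (cy : adj Δ c y)
    (cy' : adj Δ c y') : ({c, y, y'} : Finset V) ∈ Δ := by
  have hne : ∀ u ∈ vs Δ \ S, ∀ s ∈ S, u ≠ s := by
    rintro u hu s hs rfl
    exact (Finset.mem_sdiff.1 hu).2 hs
  have cx := (h.ax c hc).1
  have cz := (h.ax c hc).2
  have lx := hls x h.hx
  have lz := hls z h.hz
  have ly := hls y hy
  have ly' := hls y' hy'
  have ncl : ¬ adj Δ c l := h.ind c hc l hl
  have hM : CM Δ [{c}, {x}, insert z {l}, {y}, {y'}] := by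
    refine HTool_cons (conn_single (Finset.mem_sdiff.1 hc).1) ?_
      (HTool_cons (conn_single (h.sub h.hx)) ?_
        (HTool_cm3 (conn_pair h.inP.cx (adj_symm lz)) (conn_single (h.sub hy))
          (conn_single (h.sub hy')) ⟨?_, ?_⟩ ⟨?_, ?_⟩ (HTool_pair (h.yy y hy y' hy' yx yz yx' yz' hyy))))
    · simp only [List.mem_cons, List.not_mem_nil, or_false, forall_eq_or_imp, forall_eq]
      refine ⟨HTool_pair cx, ⟨?_, ?_⟩, HTool_pair cy, HTool_pair cy'⟩
      · rw [Finset.disjoint_singleton_left, Finset.mem_insert, Finset.mem_singleton]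
        rintro (e | e)
        · exact cz.1 e
        · exact hlc e.symm
      · exact touch_mono (A := {c}) (B := {z}) (Finset.Subset.refl _) (by simp)
          (touch_single.2 cz)
    · simp only [List.mem_cons, List.not_mem_nil, or_false, forall_eq_or_imp, forall_eq]
      refine ⟨⟨?_, ?_⟩, HTool_pair (adj_symm (h.ay y hy yx yz).1),
        HTool_pair (adj_symm (h.ay y' hy' yx' yz').1)⟩
      · rw [Finset.disjoint_singleton_left, Finset.mem_insert, Finset.mem_singleton]
        rintro (e | e)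
        · exact h.xz e
        · exact lx.1 e.symm
      · exact touch_mono (A := {x}) (B := {l}) (Finset.Subset.refl _) (by simp)
          (touch_single.2 (adj_symm lx))
    · rw [Finset.disjoint_singleton_right, Finset.mem_insert, Finset.mem_singleton]
      rintro (e | e)
      · exact yz e
      · exact ly.1 e.symm
    · exact touch_mono (A := {z}) (B := {y}) (by simp) (Finset.Subset.refl _)
        (touch_single.2 (adj_symm (h.ay y hy yx yz).2))
    · rw [Finset.disjoint_singleton_right, Finset.mem_insert, Finset.mem_singleton]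
      rintro (e | e)
      · exact yz' e
      · exact ly'.1 e.symm
    · exact touch_mono (A := {z}) (B := {y'}) (by simp) (Finset.Subset.refl _)
        (touch_single.2 (adj_symm (h.ay y' hy' yx' yz').2))
  rcases h.inP.k5 _ _ _ _ _ hM with hf | hf
  · exfalso
    obtain ⟨F, hF, hFL⟩ := hf
    have m1 : c ∈ F := HTool_mem (hFL _ (by simp))
    have m2 : x ∈ F := HTool_mem (hFL _ (by simp))
    rcases HTool_meet (hFL (insert z {l}) (by simp)) with e | e
    · exact h.nxz (h.inP.cx.adj_of_face hF m2 e h.xz)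
    · exact ncl (h.inP.cx.adj_of_face hF m1 (HTool_mem e) hlc.symm)
  · exact h.inP.cx.fill_three.1 hf

/-- **HC2** -/
theorem tHC2 : StmtHC2 := by
  intro V _ _ Δ S a b x z h c hc y hy y' hy' yx yz yx' yz' hyy cy cy'
  by_cases hca : a = c
  · refine HC2_aux h hc h.hb ?_ h.sb hy hy' yx yz yx' yz' hyy cy cy'
    rintro rfl
    exact h.hab hca
  · exact HC2_aux h hc h.ha hca h.sa hy hy' yx yz yx' yz' hyy cy cy'

end Pool.Agent.Lib.MP_73b196_co.St
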