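import Pool.Agent.Lib.MP_73b196_co.St.HC1

/-!
# Theorem H, base case, module HC3
-/

set_option autoImplicit false

namespace Pool.Agent.Lib.MP_73b196_co.St

variable {V : Type} [Fintype V] [DecidableEq V] {Δ : Set (Finset V)} {A B C D F S : Finset V}
  {a b c d i j l x y z : V}

/-- The four triples of two vertices `c`, `i` outside `S` with `x, z, y`. -/
theorem HC3_aux (h : Cc Δ S a b x z) (hc : c ∈ vs Δ \ S) (hi : i ∈ vs Δ \ S) (hic : i ≠ c)
    (hy : y ∈ S) (hyx : y ≠ x) (hyz : y ≠ z) (hcy : adj Δ c y) :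
    (({c, x, y} : Finset V) ∈ Δ ∨ ({c, z, y} : Finset V) ∈ Δ) ∧
    (({i, x, y} : Finset V) ∈ Δ ∨ (({c, x, y} : Finset V) ∈ Δ ∧ ({c, z, y} : Finset V) ∈ Δ)) ∧
    (({i, z, y} : Finset V) ∈ Δ ∨ (({c, x, y} : Finset V) ∈ Δ ∧ ({c, z, y} : Finset V) ∈ Δ)) := by
  have hΔ := h.inP.cx
  have hne : ∀ c ∈ vs Δ \ S, ∀ s ∈ S, c ≠ s := by
    rintro c hc s hs rfl
    exact (Finset.mem_sdiff.1 hc).2 hs
  have hnzx : ¬ adj Δ z x := fun h1 => h.nxz (adj_symm h1)
  by_cases hiy : adj Δ i y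
  · have hpl : Pl Δ {c} {i} := by
      refine ⟨conn_single (Finset.mem_sdiff.1 hc).1, conn_single (Finset.mem_sdiff.1 hi).1, ?_, ?_⟩
      · rw [Finset.disjoint_singleton]
        exact hic.symm
      · rw [touch_single]
        exact h.ind c hc i hi
    have hcom : ∀ s ∈ S, adj Δ c s → adj Δ i s → Com Δ {c} {i} s := by
      intro s hs h1 h2
      refine ⟨?_, ?_, ?_, ?_⟩
      · rw [Finset.mem_singleton]
        exact (hne c hc s hs).symm
      · rw [Finset.mem_singleton]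
        exact (hne i hi s hs).symm
      · rw [touch_single]
        exact adj_symm h1
      · rw [touch_single]
        exact adj_symm h2
    have hr := Pl.r4 h.inP hpl (hcom x h.hx (h.ax c hc).1 (h.ax i hi).1)
      (hcom z h.hz (h.ax c hc).2 (h.ax i hi).2) (hcom y hy hcy hiy) h.xz h.nxz
      (h.ay y hy hyx hyz).1 (h.ay y hy hyx hyz).2
    simp only [hΔ.fill_three] at hr
    obtain ⟨h1, h2, h3, h4, h5, -⟩ := hr
    tauto
  · obtain ⟨l, hl, hlc, hli, hls⟩ : ∃ l ∈ vs Δ \ S, l ≠ c ∧ l ≠ i ∧ ∀ s ∈ S, adj Δ l s := by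
      by_cases hac : a = c
      · refine ⟨b, h.hb, fun e => h.hab (hac.trans e.symm), ?_, h.sb⟩
        rintro rfl
        exact hiy (h.sb y hy)
      · refine ⟨a, h.ha, hac, ?_, h.sa⟩
        rintro rfl
        exact hiy (h.sa y hy)
    have k1 := HC1_k4 (i := i) (c := c) (l := l) (x := x) (z := z) (y := y) h.inP
      (h.ind i hi c hc) (h.ind i hi l hl) (h.ind c hc l hl) hic hli.symm hlc.symm h.nxz h.xz
      (h.ax i hi).1 (h.ax i hi).2 (h.ax c hc).1 (h.ax c hc).2 (hls x h.hx) (hls z h.hz)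
      (hls y hy) hcy (hne i hi y hy) hyx.symm hyz.symm
    have k2 := HC1_k4 (i := i) (c := c) (l := l) (x := z) (z := x) (y := y) h.inP
      (h.ind i hi c hc) (h.ind i hi l hl) (h.ind c hc l hl) hic hli.symm hlc.symm hnzx h.xz.symm
      (h.ax i hi).2 (h.ax i hi).1 (h.ax c hc).2 (h.ax c hc).1 (hls z h.hz) (hls x h.hx)
      (hls y hy) hcy (hne i hi y hy) hyz.symm hyx.symm
    obtain ⟨h1, h2, h3⟩ := k1
    obtain ⟨h4, h5, h6⟩ := k2
    tauto

/-- **HC3**: a bad vertex `c` adjacent to `y` is the only one. -/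
theorem tHC3 : StmtHC3 := by
  intro V _ _ Δ S a b x z h c hc y hy hyx hyz hcy hbad
  refine ⟨?_, ?_⟩
  · obtain ⟨i, hi, hic⟩ : ∃ i ∈ vs Δ \ S, i ≠ c := by
      by_cases hac : a = c
      · exact ⟨b, h.hb, fun e => h.hab (hac.trans e.symm)⟩
      · exact ⟨a, h.ha, hac⟩
    exact (HC3_aux h hc hi hic hy hyx hyz hcy).1
  · intro i hi hic
    obtain ⟨h1, h2, h3⟩ := HC3_aux h hc hi hic hy hyx hyz hcy
    refine ⟨?_, ?_⟩
    · rcases h2 with h2 | h2
      · exact h2
      · rcases hbad with h4 | h4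
        · exact absurd h2.1 h4
        · exact absurd h2.2 h4
    · rcases h3 with h3 | h3
      · exact h3
      · rcases hbad with h4 | h4
        · exact absurd h3.1 h4
        · exact absurd h3.2 h4

end Pool.Agent.Lib.MP_73b196_co.St
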