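import Pool.Agent.Lib.MP_73b196_co.St.HSpecA

/-!
# Theorem H, base case: the sets of bad vertices form a chain
-/

set_option autoImplicit false

namespace Pool.Agent.Lib.MP_73b196_co.St

variable {V : Type} [Fintype V] [DecidableEq V] {Δ : Set (Finset V)}
  {A B C D E S : Finset V} {a b x z i j y y' u v w : V}

theorem HC4_cm4 (cA : Conn Δ A) (cB : Conn Δ B) (cC : Conn Δ C) (cD : Conn Δ D)
    (hAB : Disjoint A B ∧ touch Δ A B) (hAC : Disjoint A C ∧ touch Δ A C)
    (hAD : Disjoint A D ∧ touch Δ A D) (hBC : Disjoint B C ∧ touch Δ B C)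
    (hBD : Disjoint B D ∧ touch Δ B D) (hCD : Disjoint C D ∧ touch Δ C D) :
    CM Δ [A, B, C, D] := by
  refine ⟨?_, ?_⟩
  · intro T hT
    simp only [List.mem_cons, List.not_mem_nil, or_false] at hT
    rcases hT with rfl | rfl | rfl | rfl <;> assumption
  · refine List.Pairwise.cons ?_ (List.Pairwise.cons ?_ (List.Pairwise.cons ?_
      (List.Pairwise.cons ?_ List.Pairwise.nil)))
    · intro T hT
      simp only [List.mem_cons, List.not_mem_nil, or_false] at hT
      rcases hT with rfl | rfl | rfl <;> assumption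
    · intro T hT
      simp only [List.mem_cons, List.not_mem_nil, or_false] at hT
      rcases hT with rfl | rfl <;> assumption
    · intro T hT
      simp only [List.mem_cons, List.not_mem_nil, or_false] at hT
      rcases hT with rfl
      assumption
    · intro T hT
      exact absurd hT (by simp)

theorem HC4_cm5 (cA : Conn Δ A) (cB : Conn Δ B) (cC : Conn Δ C) (cD : Conn Δ D)
    (cE : Conn Δ E)
    (hAB : Disjoint A B ∧ touch Δ A B) (hAC : Disjoint A C ∧ touch Δ A C)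
    (hAD : Disjoint A D ∧ touch Δ A D) (hAE : Disjoint A E ∧ touch Δ A E)
    (hBC : Disjoint B C ∧ touch Δ B C)
    (hBD : Disjoint B D ∧ touch Δ B D) (hBE : Disjoint B E ∧ touch Δ B E)
    (hCD : Disjoint C D ∧ touch Δ C D) (hCE : Disjoint C E ∧ touch Δ C E)
    (hDE : Disjoint D E ∧ touch Δ D E) :
    CM Δ [A, B, C, D, E] := by
  have h4 := HC4_cm4 cB cC cD cE hBC hBD hBE hCD hCE hDE
  refine ⟨?_, ?_⟩
  · intro T hT
    rcases List.mem_cons.1 hT with rfl | hT
    · exact cA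
    · exact h4.1 T hT
  · refine List.Pairwise.cons ?_ h4.2
    intro T hT
    simp only [List.mem_cons, List.not_mem_nil, or_false] at hT
    rcases hT with rfl | rfl | rfl | rfl <;> assumption

/-- Two different adjacent vertices as a pair of singletons. -/
theorem HC4_ss (h : adj Δ u v) : Disjoint ({u} : Finset V) {v} ∧ touch Δ {u} {v} :=
  ⟨Finset.disjoint_singleton.2 h.1, touch_single.2 h⟩

/-- A vertex and a set containing a neighbour of it. -/
theorem HC4_sA (hv : v ∈ A) (h : adj Δ u v) (hu : u ∉ A) :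
    Disjoint ({u} : Finset V) A ∧ touch Δ {u} A :=
  ⟨Finset.disjoint_singleton_left.2 hu, touch_single_left.2 ⟨v, hv, h⟩⟩

theorem HC4_As (hv : v ∈ A) (h : adj Δ u v) (hu : u ∉ A) :
    Disjoint A ({u} : Finset V) ∧ touch Δ A {u} :=
  ⟨(HC4_sA hv h hu).1.symm, touch_symm (HC4_sA hv h hu).2⟩

omit [Fintype V] in
theorem HC4_fill (h : ({u, v, w} : Finset V) ∈ Δ) (hu : u ∈ A) (hv : v ∈ B) (hw : w ∈ C) :
    fill Δ [A, B, C] := by
  refine ⟨_, h, ?_⟩
  intro T hT
  simp only [List.mem_cons, List.not_mem_nil, or_false] at hT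
  rcases hT with rfl | rfl | rfl
  · exact ⟨u, by simp [hu]⟩
  · exact ⟨v, by simp [hv]⟩
  · exact ⟨w, by simp [hw]⟩

theorem Cc.swap (h : Cc Δ S a b x z) : Cc Δ S a b z x where
  toBC := h.toBC
  j3 := h.j3
  hx := h.hz
  hz := h.hx
  xz := h.xz.symm
  nxz := fun hn => h.nxz (adj_symm hn)
  ax := fun c hc => ⟨(h.ax c hc).2, (h.ax c hc).1⟩
  ay := fun y hy h1 h2 => ⟨(h.ay y hy h2 h1).2, (h.ay y hy h2 h1).1⟩
  yy := fun y hy y' hy' h1 h2 h3 h4 h5 => h.yy y hy y' hy' h2 h1 h4 h3 h5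
  noHol := h.noHol

/-- The K4 step. -/
theorem HC4_k4 (h : Cc Δ S a b x z) (hi : i ∈ vs Δ \ S) (hj : j ∈ vs Δ \ S)
    (hy : y ∈ S) (hy' : y' ∈ S) (hyx : y ≠ x) (hyz : y ≠ z) (hyx' : y' ≠ x) (hyz' : y' ≠ z)
    (hyy : y ≠ y') (h2 : ({i, x, y'} : Finset V) ∈ Δ) (h5 : ({j, x, y} : Finset V) ∈ Δ) :
    ({i, x, y} : Finset V) ∈ Δ ∨ ({j, x, y'} : Finset V) ∈ Δ := by
  have hcx := h.inP.cx
  have hi' := Finset.mem_sdiff.1 hi
  have hj' := Finset.mem_sdiff.1 hj
  have nS : ∀ {c s : V}, c ∉ S → s ∈ S → s ≠ c := fun hc hs e => hc (e ▸ hs)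
  have hxz := h.ax i hi
  have hxzj := h.ax j hj
  have e1 := h.ay y hy hyx hyz
  have e2 := h.ay y' hy' hyx' hyz'
  have e3 := h.yy y hy y' hy' hyx hyz hyx' hyz' hyy
  have cT : Conn Δ {j, z, i} :=
    (conn_pair hcx (adj_symm hxz.2)).insert hj'.1 (touch_single_left.2 ⟨z, by simp, hxzj.2⟩)
  have hxT : x ∉ ({j, z, i} : Finset V) := by
    simp only [Finset.mem_insert, Finset.mem_singleton, not_or]
    exact ⟨nS hj'.2 h.hx, h.xz, nS hi'.2 h.hx⟩
  have hyT : y ∉ ({j, z, i} : Finset V) := by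
    simp only [Finset.mem_insert, Finset.mem_singleton, not_or]
    exact ⟨nS hj'.2 hy, hyz, nS hi'.2 hy⟩
  have hyT' : y' ∉ ({j, z, i} : Finset V) := by
    simp only [Finset.mem_insert, Finset.mem_singleton, not_or]
    exact ⟨nS hj'.2 hy', hyz', nS hi'.2 hy'⟩
  have hS3 : ∀ s : V, s ∈ S → s ≠ y → s ≠ y' → adj Δ y s → adj Δ y' s →
      ({s, y, y'} : Finset V) ∈ Δ := by
    intro s hs _ _ hsy hsy'
    by_contra hn
    exact h.noHol s hs y hy y' hy' ⟨adj_symm hsy, adj_symm hsy', e3, hn⟩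
  have hm : CM Δ [{x}, {y}, {y'}, {j, z, i}] :=
    HC4_cm4 (conn_single (h.sub h.hx)) (conn_single (h.sub hy)) (conn_single (h.sub hy')) cT
      (HC4_ss (adj_symm e1.1)) (HC4_ss (adj_symm e2.1))
      (HC4_sA (v := i) (by simp) (adj_symm hxz.1) hxT)
      (HC4_ss e3) (HC4_sA (v := z) (by simp) e1.2 hyT) (HC4_sA (v := z) (by simp) e2.2 hyT')
  have f1 : fill Δ [{x}, {y}, {y'}] :=
    hcx.fill_three.2 (hS3 x h.hx hyx.symm hyx'.symm e1.1 e2.1)
  have f2 : fill Δ [{x}, {y}, ({j, z, i} : Finset V)] :=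
    HC4_fill (u := x) (v := y) (w := j) (by
      rw [show ({x, y, j} : Finset V) = {j, x, y} by ext t; simp; tauto]; exact h5)
      (by simp) (by simp) (by simp)
  have f3 : fill Δ [{x}, {y'}, ({j, z, i} : Finset V)] :=
    HC4_fill (u := x) (v := y') (w := i) (by
      rw [show ({x, y', i} : Finset V) = {i, x, y'} by ext t; simp; tauto]; exact h2)
      (by simp) (by simp) (by simp)
  have f4 : fill Δ [{y}, {y'}, ({j, z, i} : Finset V)] :=
    HC4_fill (u := y) (v := y') (w := z) (by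
      rw [show ({y, y', z} : Finset V) = {z, y, y'} by ext t; simp; tauto]
      exact hS3 z h.hz hyz.symm hyz'.symm e1.2 e2.2) (by simp) (by simp) (by simp)
  obtain ⟨F, hF, hFA⟩ := h.inP.k4all hm f1 f2 f3 f4
  have gx : x ∈ F := by
    obtain ⟨t, ht⟩ := hFA {x} (by simp)
    simp only [Finset.mem_inter, Finset.mem_singleton] at ht
    exact ht.2 ▸ ht.1
  have gy : y ∈ F := by
    obtain ⟨t, ht⟩ := hFA {y} (by simp)
    simp only [Finset.mem_inter, Finset.mem_singleton] at ht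
    exact ht.2 ▸ ht.1
  have gy' : y' ∈ F := by
    obtain ⟨t, ht⟩ := hFA {y'} (by simp)
    simp only [Finset.mem_inter, Finset.mem_singleton] at ht
    exact ht.2 ▸ ht.1
  obtain ⟨t, ht⟩ := hFA {j, z, i} (by simp)
  simp only [Finset.mem_inter, Finset.mem_insert, Finset.mem_singleton] at ht
  have sub3 : ∀ {p q r : V}, p ∈ F → q ∈ F → r ∈ F → ({p, q, r} : Finset V) ∈ Δ := by
    intro p q r hp hq hr
    refine hcx.down F hF _ ?_
    intro s hs
    simp only [Finset.mem_insert, Finset.mem_singleton] at hs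
    rcases hs with rfl | rfl | rfl <;> assumption
  rcases ht with ⟨htF, rfl | rfl | rfl⟩
  · exact Or.inr (sub3 htF gx gy')
  · exact absurd (hcx.adj_of_face hF gx htF h.xz) h.nxz
  · exact Or.inl (sub3 htF gx gy)

/-- The K5 step. -/
theorem HC4_k5 (h : Cc Δ S a b x z) (hi : i ∈ vs Δ \ S) (hj : j ∈ vs Δ \ S) (hij : i ≠ j)
    (hy : y ∈ S) (hy' : y' ∈ S) (hyx : y ≠ x) (hyz : y ≠ z) (hyx' : y' ≠ x) (hyz' : y' ≠ z)
    (hyy : y ≠ y') (hiy : adj Δ i y) (hiy' : adj Δ i y') (h1 : ({i, x, y} : Finset V) ∉ Δ)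
    (h2 : ({j, z, y'} : Finset V) ∉ Δ) : False := by
  have hcx := h.inP.cx
  have hi' := Finset.mem_sdiff.1 hi
  have hj' := Finset.mem_sdiff.1 hj
  have nS : ∀ {c s : V}, c ∉ S → s ∈ S → s ≠ c := fun hc hs e => hc (e ▸ hs)
  have hxz := h.ax i hi
  have hxzj := h.ax j hj
  have e1 := h.ay y hy hyx hyz
  have e2 := h.ay y' hy' hyx' hyz'
  have e3 := h.yy y hy y' hy' hyx hyz hyx' hyz' hyy
  have cT : Conn Δ {j, x} := conn_pair hcx hxzj.1
  have hiT : i ∉ ({j, x} : Finset V) := by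
    simp only [Finset.mem_insert, Finset.mem_singleton, not_or]
    exact ⟨hij, (nS hi'.2 h.hx).symm⟩
  have hyT : y ∉ ({j, x} : Finset V) := by
    simp only [Finset.mem_insert, Finset.mem_singleton, not_or]
    exact ⟨nS hj'.2 hy, hyx⟩
  have hyT' : y' ∉ ({j, x} : Finset V) := by
    simp only [Finset.mem_insert, Finset.mem_singleton, not_or]
    exact ⟨nS hj'.2 hy', hyx'⟩
  have hzT : z ∉ ({j, x} : Finset V) := by
    simp only [Finset.mem_insert, Finset.mem_singleton, not_or]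
    exact ⟨nS hj'.2 h.hz, h.xz.symm⟩
  have hm : CM Δ [{j, x}, {i}, {y}, {z}, {y'}] :=
    HC4_cm5 cT (conn_single hi'.1) (conn_single (h.sub hy)) (conn_single (h.sub h.hz))
      (conn_single (h.sub hy'))
      (HC4_As (v := x) (by simp) hxz.1 hiT) (HC4_As (v := x) (by simp) e1.1 hyT)
      (HC4_As (v := j) (by simp) (adj_symm hxzj.2) hzT) (HC4_As (v := x) (by simp) e2.1 hyT')
      (HC4_ss hiy) (HC4_ss hxz.2) (HC4_ss hiy') (HC4_ss e1.2) (HC4_ss e3)
      (HC4_ss (adj_symm e2.2))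
  have hmem : ∀ {F : Finset V} {p : V}, (F ∩ {p}).Nonempty → p ∈ F := by
    rintro F p ⟨t, ht⟩
    simp only [Finset.mem_inter, Finset.mem_singleton] at ht
    exact ht.2 ▸ ht.1
  have sub3 : ∀ {F : Finset V} {p q r : V}, F ∈ Δ → p ∈ F → q ∈ F → r ∈ F →
      ({p, q, r} : Finset V) ∈ Δ := by
    intro F p q r hF hp hq hr
    refine hcx.down F hF _ ?_
    intro s hs
    simp only [Finset.mem_insert, Finset.mem_singleton] at hs
    rcases hs with rfl | rfl | rfl <;> assumption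
  rcases h.inP.k5 _ _ _ _ _ hm with ⟨F, hF, hFA⟩ | ⟨F, hF, hFA⟩
  · have g1 := hmem (hFA {i} (by simp))
    have g2 := hmem (hFA {y} (by simp))
    obtain ⟨t, ht⟩ := hFA {j, x} (by simp)
    simp only [Finset.mem_inter, Finset.mem_insert, Finset.mem_singleton] at ht
    rcases ht with ⟨htF, rfl | rfl⟩
    · exact h.ind i hi _ hj (hcx.adj_of_face hF g1 htF hij)
    · exact h1 (sub3 hF g1 htF g2)
  · have g1 := hmem (hFA {z} (by simp))
    have g2 := hmem (hFA {y'} (by simp))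
    obtain ⟨t, ht⟩ := hFA {j, x} (by simp)
    simp only [Finset.mem_inter, Finset.mem_insert, Finset.mem_singleton] at ht
    rcases ht with ⟨htF, rfl | rfl⟩
    · exact h2 (sub3 hF htF g1 g2)
    · exact h.nxz (hcx.adj_of_face hF htF g1 h.xz)

theorem tHC4 (_h3 : StmtHC3) : StmtHC4 := by
  intro V _ _ Δ S a b x z h i hi j hj y hy y' hy' hyx hyz hyx' hyz' h1 h2 h3 h4 h5 h6
  have hcx := h.inP.cx
  have hi' := Finset.mem_sdiff.1 hi
  have hj' := Finset.mem_sdiff.1 hj
  have nS : ∀ {c s : V}, c ∉ S → s ∈ S → c ≠ s := fun hc hs e => hc (e ▸ hs)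
  have hij : i ≠ j := by
    rintro rfl
    rcases h1 with h1 | h1
    · exact h1 h5
    · exact h1 h6
  have hyy : y ≠ y' := by
    rintro rfl
    rcases h1 with h1 | h1
    · exact h1 h2
    · exact h1 h3
  have hiy' : adj Δ i y' := hcx.adj_of_face h2 (by simp) (by simp) (nS hi'.2 hy')
  have kx := HC4_k4 h hi hj hy hy' hyx hyz hyx' hyz' hyy h2 h5
  have kz := HC4_k4 h.swap hi hj hy hy' hyz hyx hyz' hyx' hyy h3 h6
  by_cases hA : ({i, x, y} : Finset V) ∈ Δ
  · have hB : ({i, z, y} : Finset V) ∉ Δ := by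
      rcases h1 with h1 | h1
      · exact absurd hA h1
      · exact h1
    have hC : ({j, z, y'} : Finset V) ∈ Δ := by
      rcases kz with k | k
      · exact absurd k hB
      · exact k
    have hD : ({j, x, y'} : Finset V) ∉ Δ := by
      rcases h4 with h4 | h4
      · exact h4
      · exact absurd hC h4
    have hiy : adj Δ i y := hcx.adj_of_face hA (by simp) (by simp) (nS hi'.2 hy)
    exact HC4_k5 h.swap hi hj hij hy hy' hyz hyx hyz' hyx' hyy hiy hiy' hB hD
  · have hC : ({j, x, y'} : Finset V) ∈ Δ := by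
      rcases kx with k | k
      · exact absurd k hA
      · exact k
    have hD : ({j, z, y'} : Finset V) ∉ Δ := by
      rcases h4 with h4 | h4
      · exact absurd hC h4
      · exact h4
    have hE : ({i, z, y} : Finset V) ∈ Δ := by
      rcases kz with k | k
      · exact k
      · exact absurd k hD
    have hiy : adj Δ i y := hcx.adj_of_face hE (by simp) (by simp) (nS hi'.2 hy)
    exact HC4_k5 h hi hj hij hy hy' hyx hyz hyx' hyz' hyy hiy hiy' hA hD

end Pool.Agent.Lib.MP_73b196_co.St
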