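import Pool.Agent.Lib.MP_73b196_co.St.HSpecA

/-!
# Base case, HC5: some vertex outside `S` is bad for all `y`
-/

set_option autoImplicit false

namespace Pool.Agent.Lib.MP_73b196_co.St

open Classical in
/-- The vertices outside `S` which are bad for `y`. -/
noncomputable def HC5_I {V : Type} [Fintype V] [DecidableEq V] (Δ : Set (Finset V)) (S : Finset V)
    (x z y : V) : Finset V :=
  (vs Δ \ S).filter fun i => ({i, x, y} : Finset V) ∉ Δ ∨ ({i, z, y} : Finset V) ∉ Δ

theorem HC5_mem {V : Type} [Fintype V] [DecidableEq V] {Δ : Set (Finset V)} {S : Finset V}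
    {x z y i : V} : i ∈ HC5_I Δ S x z y ↔ i ∈ vs Δ \ S ∧
      (({i, x, y} : Finset V) ∉ Δ ∨ ({i, z, y} : Finset V) ∉ Δ) := by
  classical
  simp only [HC5_I, Finset.mem_filter]

/-- Every `y` has a bad vertex. -/
theorem HC5_ne {V : Type} [Fintype V] [DecidableEq V] {Δ : Set (Finset V)} {S : Finset V}
    {a b x z y : V} (h2 : StmtHC2) (h : Cc Δ S a b x z) (hy : y ∈ S) (hyx : y ≠ x)
    (hyz : y ≠ z) : (HC5_I Δ S x z y).Nonempty := by
  by_contra hne
  have cx := h.inP.cx
  have good : ∀ i ∈ vs Δ \ S, ({i, x, y} : Finset V) ∈ Δ ∧ ({i, z, y} : Finset V) ∈ Δ := by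
    intro i hi
    by_contra hc
    refine hne ⟨i, HC5_mem.2 ⟨hi, ?_⟩⟩
    by_contra hc'
    rw [not_or, not_not, not_not] at hc'
    exact hc hc'
  have adjy : ∀ v ∈ vs Δ, v ≠ y → adj Δ y v := by
    intro v hv hvy
    by_cases hvS : v ∈ S
    · by_cases hvx : v = x
      · rw [hvx]
        exact (h.ay y hy hyx hyz).1
      by_cases hvz : v = z
      · rw [hvz]
        exact (h.ay y hy hyx hyz).2
      exact h.yy y hy v hvS hyx hyz hvx hvz hvy.symm
    · have := (good v (Finset.mem_sdiff.2 ⟨hv, hvS⟩)).1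
      exact cx.adj_of_face this (by simp) (by simp) hvy.symm
  have perm : ∀ p q r : V, ({p, q, r} : Finset V) = {r, p, q} := by
    intro p q r
    ext t
    simp only [Finset.mem_insert, Finset.mem_singleton]
    tauto
  have perm2 : ∀ p q r : V, ({p, q, r} : Finset V) = {p, r, q} := by
    intro p q r
    ext t
    simp only [Finset.mem_insert, Finset.mem_singleton]
    tauto
  have mixed : ∀ u ∈ vs Δ \ S, ∀ v ∈ S, adj Δ u v → v ≠ y → ({y, u, v} : Finset V) ∈ Δ := by
    intro u hu v hv huv hvy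
    have huV := (Finset.mem_sdiff.1 hu).1
    have huy : u ≠ y := by
      rintro rfl
      exact (Finset.mem_sdiff.1 hu).2 hy
    by_cases hvx : v = x
    · rw [hvx, ← perm]
      exact (good u hu).1
    by_cases hvz : v = z
    · rw [hvz, ← perm]
      exact (good u hu).2
    have := h2 V Δ S a b x z h u hu y hy v hv hyx hyz hvx hvz hvy.symm
      (adj_symm (adjy u huV huy)) huv
    rw [Finset.insert_comm]
    exact this
  refine h.noApex y (h.inP.apex_of (h.sub hy) adjy ?_)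
  intro u v huv huy hvy
  obtain ⟨hu, hv⟩ := cx.adj_vs huv
  by_cases huS : u ∈ S
  · by_cases hvS : v ∈ S
    · by_contra hc
      exact h.noHol y hy u huS v hvS ⟨adjy u hu huy, adjy v hv hvy, huv, hc⟩
    · rw [perm2]
      exact mixed v (Finset.mem_sdiff.2 ⟨hv, hvS⟩) u huS (adj_symm huv) huy
  · by_cases hvS : v ∈ S
    · exact mixed u (Finset.mem_sdiff.2 ⟨hu, huS⟩) v hvS huv hvy
    · exact absurd huv (h.ind u (Finset.mem_sdiff.2 ⟨hu, huS⟩) v (Finset.mem_sdiff.2 ⟨hv, hvS⟩))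

theorem tHC5 (h2 : StmtHC2) (h4 : StmtHC4) : StmtHC5 := by
  classical
  intro V _ _ Δ S a b x z h
  by_cases hne : (S.filter fun y => y ≠ x ∧ y ≠ z).Nonempty
  · obtain ⟨y0, hy0, hmin⟩ := Finset.exists_min_image _ (fun y => (HC5_I Δ S x z y).card) hne
    rw [Finset.mem_filter] at hy0
    obtain ⟨hy0S, hy0x, hy0z⟩ := hy0
    obtain ⟨i, hi⟩ := HC5_ne h2 h hy0S hy0x hy0z
    have hi' := HC5_mem.1 hi
    refine ⟨i, hi'.1, ?_⟩
    intro y hy hyx hyz
    by_contra hc
    rw [not_or, not_not, not_not] at hc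
    have hsub : HC5_I Δ S x z y ⊆ HC5_I Δ S x z y0 := by
      intro j hj
      by_contra hj0
      have hj' := HC5_mem.1 hj
      have hj1 : ¬ (({j, x, y0} : Finset V) ∉ Δ ∨ ({j, z, y0} : Finset V) ∉ Δ) :=
        fun hc' => hj0 (HC5_mem.2 ⟨hj'.1, hc'⟩)
      rw [not_or, not_not, not_not] at hj1
      exact h4 V Δ S a b x z h i hi'.1 j hj'.1 y0 hy0S y hy hy0x hy0z hyx hyz hi'.2 hc.1 hc.2
        hj'.2 hj1.1 hj1.2
    have hlt : (HC5_I Δ S x z y).card < (HC5_I Δ S x z y0).card := by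
      refine Finset.card_lt_card ((Finset.ssubset_iff_of_subset hsub).2 ⟨i, hi, ?_⟩)
      intro hiy
      have := (HC5_mem.1 hiy).2
      rcases this with h1 | h1
      · exact h1 hc.1
      · exact h1 hc.2
    have := hmin y (Finset.mem_filter.2 ⟨hy, hyx, hyz⟩)
    exact absurd hlt (not_lt.2 this)
  · refine ⟨a, h.ha, ?_⟩
    intro y hy hyx hyz
    exact absurd ⟨y, Finset.mem_filter.2 ⟨hy, hyx, hyz⟩⟩ hne

end Pool.Agent.Lib.MP_73b196_co.St
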