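import Pool.Agent.Lib.MP_73b196_co.St.HC4

/-!
# Theorem H, base case (c): the final contradiction
-/

set_option autoImplicit false

namespace Pool.Agent.Lib.MP_73b196_co.St

variable {V : Type} [Fintype V] [DecidableEq V] {Δ : Set (Finset V)}
  {A B C D E S : Finset V} {a b x z i j y y' u v w l : V}

/-- `i` bad for all `y`, `{i, w, y} ∉ Δ` for all `y` adjacent to `i`: then `i w` is an edge facet. -/
theorem HC6_facet (h : Cc Δ S a b x z) (hi : i ∈ vs Δ \ S)
    (hw : ∀ y ∈ S, y ≠ x → y ≠ z → adj Δ i y → ({i, x, y} : Finset V) ∉ Δ) : False := by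
  have hcx := h.inP.cx
  have hi' := Finset.mem_sdiff.1 hi
  have hix := (h.ax i hi).1
  refine h.nchp (chp_of_edgeFacet hcx h.conn (x := i) (y := x) ⟨hix.1, hix.2, ?_⟩)
  intro F hF hiF hxF
  refine Finset.Subset.antisymm ?_ ?_
  · intro v hv
    by_contra hn
    simp only [Finset.mem_insert, Finset.mem_singleton, not_or] at hn
    have hiv : adj Δ i v := hcx.adj_of_face hF hiF hv (Ne.symm hn.1)
    have hvS : v ∈ S := by
      by_contra hvS
      exact h.ind i hi v (Finset.mem_sdiff.2 ⟨hcx.sub_vs hF hv, hvS⟩) hiv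
    have hvz : v ≠ z := by
      rintro rfl
      exact h.nxz (hcx.adj_of_face hF hxF hv h.xz)
    refine hw v hvS hn.2 hvz hiv (hcx.down F hF _ ?_)
    intro s hs
    simp only [Finset.mem_insert, Finset.mem_singleton] at hs
    rcases hs with rfl | rfl | rfl <;> assumption
  · intro s hs
    simp only [Finset.mem_insert, Finset.mem_singleton] at hs
    rcases hs with rfl | rfl <;> assumption

theorem tHC6 (_h3 : StmtHC3) (h5 : StmtHC5) : StmtHC6 := by
  intro V _ _ Δ S a b x z h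
  have hcx := h.inP.cx
  obtain ⟨i, hi, hbad⟩ := h5 V Δ S a b x z h
  have hi' := Finset.mem_sdiff.1 hi
  have nS : ∀ {c s : V}, c ∉ S → s ∈ S → s ≠ c := fun hc hs e => hc (e ▸ hs)
  by_cases hX : ∀ y ∈ S, y ≠ x → y ≠ z → adj Δ i y → ({i, x, y} : Finset V) ∉ Δ
  · exact HC6_facet h hi hX
  by_cases hZ : ∀ y ∈ S, y ≠ z → y ≠ x → adj Δ i y → ({i, z, y} : Finset V) ∉ Δ
  · exact HC6_facet h.swap hi hZ
  push Not at hX hZ
  obtain ⟨y, hy, hyx, hyz, hiy, hy1⟩ := hX
  obtain ⟨y', hy', hyz', hyx', hiy', hy1'⟩ := hZ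
  have hy2 : ({i, z, y} : Finset V) ∉ Δ := by
    rcases hbad y hy hyx hyz with h1 | h1
    · exact absurd hy1 h1
    · exact h1
  have hy2' : ({i, x, y'} : Finset V) ∉ Δ := by
    rcases hbad y' hy' hyx' hyz' with h1 | h1
    · exact h1
    · exact absurd hy1' h1
  have hyy : y ≠ y' := by
    rintro rfl
    exact hy2' hy1
  obtain ⟨l, hl, hli⟩ : ∃ l ∈ vs Δ \ S, l ≠ i := by
    by_cases hia : a = i
    · exact ⟨b, h.hb, fun e => h.hab (hia.trans e.symm)⟩
    · exact ⟨a, h.ha, hia⟩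
  have hl' := Finset.mem_sdiff.1 hl
  have hxz := h.ax i hi
  have hxzl := h.ax l hl
  have e1 := h.ay y hy hyx hyz
  have e2 := h.ay y' hy' hyx' hyz'
  have e3 := h.yy y hy y' hy' hyx hyz hyx' hyz' hyy
  have cT : Conn Δ {l, x} := conn_pair hcx hxzl.1
  have hiT : i ∉ ({l, x} : Finset V) := by
    simp only [Finset.mem_insert, Finset.mem_singleton, not_or]
    exact ⟨hli.symm, (nS hi'.2 h.hx).symm⟩
  have hyT : y ∉ ({l, x} : Finset V) := by
    simp only [Finset.mem_insert, Finset.mem_singleton, not_or]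
    exact ⟨nS hl'.2 hy, hyx⟩
  have hyT' : y' ∉ ({l, x} : Finset V) := by
    simp only [Finset.mem_insert, Finset.mem_singleton, not_or]
    exact ⟨nS hl'.2 hy', hyx'⟩
  have hzT : z ∉ ({l, x} : Finset V) := by
    simp only [Finset.mem_insert, Finset.mem_singleton, not_or]
    exact ⟨nS hl'.2 h.hz, h.xz.symm⟩
  have hm : CM Δ [{i}, {z}, {y}, {l, x}, {y'}] :=
    HC4_cm5 (conn_single hi'.1) (conn_single (h.sub h.hz)) (conn_single (h.sub hy)) cT
      (conn_single (h.sub hy'))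
      (HC4_ss hxz.2) (HC4_ss hiy) (HC4_sA (v := x) (by simp) hxz.1 hiT) (HC4_ss hiy')
      (HC4_ss (adj_symm e1.2)) (HC4_sA (v := l) (by simp) (adj_symm hxzl.2) hzT)
      (HC4_ss (adj_symm e2.2)) (HC4_sA (v := x) (by simp) e1.1 hyT) (HC4_ss e3)
      (HC4_As (v := x) (by simp) e2.1 hyT')
  have hmem : ∀ {F : Finset V} {p : V}, (F ∩ {p}).Nonempty → p ∈ F := by
    rintro F p ⟨t, ht⟩
    simp only [Finset.mem_inter, Finset.mem_singleton] at ht
    exact ht.2 ▸ ht.1
  have sub3 : ∀ {F : Finset V} {p q r : V}, F ∈ Δ → p ∈ F → q ∈ F → r ∈ F →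
      ({p, q, r} : Finset V) ∈ Δ := by
    intro F p q r hF hp hq hr
    refine hcx.down F hF _ ?_
    intro s hs
    simp only [Finset.mem_insert, Finset.mem_singleton] at hs
    rcases hs with rfl | rfl | rfl <;> assumption
  rcases h.inP.k5 _ _ _ _ _ hm with ⟨F, hF, hFA⟩ | ⟨F, hF, hFA⟩
  · exact hy2 (sub3 hF (hmem (hFA {i} (by simp))) (hmem (hFA {z} (by simp)))
      (hmem (hFA {y} (by simp))))
  · have g1 := hmem (hFA {i} (by simp))
    have g2 := hmem (hFA {y'} (by simp))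
    obtain ⟨t, ht⟩ := hFA {l, x} (by simp)
    simp only [Finset.mem_inter, Finset.mem_insert, Finset.mem_singleton] at ht
    rcases ht with ⟨htF, rfl | rfl⟩
    · exact h.ind i hi _ hl (hcx.adj_of_face hF g1 htF hli.symm)
    · exact hy2' (sub3 hF g1 htF g2)

end Pool.Agent.Lib.MP_73b196_co.St
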