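import Pool.Agent.Lib.MP_73b196_co.St.Base
import Pool.Agent.Lib.MP_73b196_co.St.Comp

/-!
# Definitions for Theorem H (the second half of S2)

Theorem H: a complex of the class without face separator and without a covering hollow partition has a cone
vertex.
-/

set_option autoImplicit false

namespace Pool.Agent.Lib.MP_73b196_co.St

variable {V : Type} [Fintype V] [DecidableEq V]

/-- Covering hollow partition: `vs Δ` is the union of three disjoint connected pairwise adjacent sets which no
face meets. -/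
def CHP (Δ : Set (Finset V)) : Prop :=
  ∃ A B C, CM Δ [A, B, C] ∧ A ∪ B ∪ C = vs Δ ∧ ¬ fill Δ [A, B, C]

/-- No face separator (what remains may be empty). -/
def NS (Δ : Set (Finset V)) : Prop := ∀ F ∈ Δ, (vs Δ \ F).Nonempty → Conn Δ (vs Δ \ F)

open Classical in
/-- The neighbourhood of a set. -/
noncomputable def nb (Δ : Set (Finset V)) (C : Finset V) : Finset V :=
  (vs Δ).filter fun v => v ∉ C ∧ touch Δ {v} C

/-- Hollow triangle. -/
def Hol (Δ : Set (Finset V)) (a b c : V) : Prop :=
  adj Δ a b ∧ adj Δ a c ∧ adj Δ b c ∧ ({a, b, c} : Finset V) ∉ Δ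

/-- `A` and `B` are full components of the same minimal separator `nb Δ A = nb Δ B`. -/
structure Full (Δ : Set (Finset V)) (A B : Finset V) : Prop where
  cA : Conn Δ A
  cB : Conn Δ B
  d : Disjoint A B
  n : nb Δ A = nb Δ B

/-- Two disjoint connected sets without an edge between them (two poles). -/
structure Pl (Δ : Set (Finset V)) (A B : Finset V) : Prop where
  cA : Conn Δ A
  cB : Conn Δ B
  d : Disjoint A B
  n : ¬ touch Δ A B

/-- `x` is a common neighbour of `A` and `B`. -/
def Com (Δ : Set (Finset V)) (A B : Finset V) (x : V) : Prop :=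
  x ∉ A ∧ x ∉ B ∧ touch Δ {x} A ∧ touch Δ {x} B

/-- A counterexample of Theorem H with the least number of vertices. -/
structure Bad (Δ : Set (Finset V)) : Prop where
  inP : InP Δ
  ne : (vs Δ).Nonempty
  ns : NS Δ
  nchp : ¬ CHP Δ
  noApex : ∀ p, ¬ Apex Δ p
  min : ∀ Δ' : Set (Finset V), (vs Δ').card < (vs Δ).card → InP Δ' → (vs Δ').Nonempty → NS Δ' →
    ¬ CHP Δ' → ∃ p, Apex Δ' p

/-- `a` is a moplex (a full component with one vertex), `B` is another full component of its separator
`nb Δ {a}`. -/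
def Mop (Δ : Set (Finset V)) (a : V) (B : Finset V) : Prop := Full Δ {a} B

/-- `p` is a cone vertex of `Δ` minus the vertex `a`. -/
def ConesDel (Δ : Set (Finset V)) (a p : V) : Prop := p ≠ a ∧ ∀ F ∈ Δ, a ∉ F → insert p F ∈ Δ

/-- `F` is a face separator of `Δ` minus the vertex `a`; `P` and `Q` are the two sides. -/
structure FS (Δ : Set (Finset V)) (a : V) (F P Q : Finset V) : Prop where
  face : F ∈ Δ
  na : a ∉ F
  un : P ∪ Q = (vs Δ \ {a}) \ F
  d : Disjoint P Q
  neP : P.Nonempty
  neQ : Q.Nonempty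
  nt : ¬ touch Δ P Q

/-- Situation of the base case: all components of `vs Δ \ S` are single vertices, `a` and `b` are full. -/
structure BC (Δ : Set (Finset V)) (S : Finset V) (a b : V) : Prop where
  inP : InP Δ
  conn : ∀ F ∈ Δ, Conn Δ (vs Δ \ F)
  nchp : ¬ CHP Δ
  noApex : ∀ p, ¬ Apex Δ p
  sub : S ⊆ vs Δ
  ha : a ∈ vs Δ \ S
  hb : b ∈ vs Δ \ S
  hab : a ≠ b
  ind : ∀ u ∈ vs Δ \ S, ∀ v ∈ vs Δ \ S, ¬ adj Δ u v
  sa : ∀ s ∈ S, adj Δ a s
  sb : ∀ s ∈ S, adj Δ b s

/-- A near-face separator: `nb Δ W = nb Δ B` is contained in a face plus one vertex. -/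
structure NF (Δ : Set (Finset V)) (W B : Finset V) : Prop extends Full Δ W B where
  near : ∃ x ∈ nb Δ W, nb Δ W \ {x} ∈ Δ

/-- A near-face separator `nb Δ W = x + F` with `W` inclusion-minimal. -/
structure Ext (Δ : Set (Finset V)) (W B : Finset V) (x : V) (F : Finset V) : Prop extends
    Full Δ W B where
  bad : Bad Δ
  xF : x ∉ F
  face : F ∈ Δ
  eq : nb Δ W = insert x F
  minW : ∀ W' B', NF Δ W' B' → W' ⊆ W → W' = W

end Pool.Agent.Lib.MP_73b196_co.St
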