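import Pool.Agent.Lib.MP_73b196_co.St.HSpecB

/-!
# A moplex is dominated
-/

set_option autoImplicit false

namespace Pool.Agent.Lib.MP_73b196_co.St

theorem tHDom (hP : StmtHP) : StmtHDom := by
  intro V _ _ Δ h a B hm
  have cx := h.inP.cx
  obtain ⟨p, hp, h1, h2, h3⟩ := hP V Δ h {a} B hm
  obtain ⟨_, h5⟩ := h3 {a} (Full.comp cx hm)
  have hpa : adj Δ p a := adj_symm (cx.mem_nb_single.1 hp)
  refine ⟨p, hpa, h.inP.dominates hpa ?_ ?_⟩
  · intro s hs hsp
    exact cx.fill_three.1 (h5 s hs hsp (mem_nb.1 hs).2.2)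
  · intro s hs t ht hsp htp hst
    exact h2 s hs t ht hst hsp htp

end Pool.Agent.Lib.MP_73b196_co.St
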