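import Pool.Agent.Lib.MP_73b196_co.St.HSpecC

/-!
# Theorem H: from a face separator of a deletion to a component
-/

set_option autoImplicit false

namespace Pool.Agent.Lib.MP_73b196_co.St

theorem tHE0 : StmtHE0 := by
  intro V _ _ Δ hc a F P Q h u hu
  have hPU : P ⊆ (vs Δ \ {a}) \ F := by
    rw [← h.un]
    exact Finset.subset_union_left
  have hUv : (vs Δ \ {a}) \ F ⊆ vs Δ := Finset.sdiff_subset.trans Finset.sdiff_subset
  obtain ⟨X, hX, huX⟩ := exists_comp hUv (hPU hu)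
  refine ⟨X, hX.2.1, huX, ?_, ?_, hX⟩
  · refine hX.2.1.sub_of_closed hX.1 ?_ ⟨u, Finset.mem_inter.2 ⟨huX, hu⟩⟩
    intro ht
    refine h.nt (touch_mono (Finset.Subset.refl _) ?_ ht)
    intro v hv
    rw [Finset.mem_sdiff, ← h.un, Finset.mem_union] at hv
    exact hv.1.resolve_left hv.2
  · intro v hv
    obtain ⟨h1, h2, h3⟩ := mem_nb.1 hv
    rw [Finset.mem_insert]
    by_contra hn
    rw [not_or] at hn
    obtain ⟨x, hx, hvx⟩ := touch_single_left.1 h3
    refine h2 (hX.mem_of_adj hx ?_ (adj_symm hvx))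
    rw [Finset.mem_sdiff, Finset.mem_sdiff, Finset.mem_singleton]
    exact ⟨⟨h1, hn.1⟩, hn.2⟩

end Pool.Agent.Lib.MP_73b196_co.St
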