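import Pool.Agent.Lib.MP_73b196_co.St.HSpecC

/-!
# Theorem H: every full component contains a moplex
-/

set_option autoImplicit false

namespace Pool.Agent.Lib.MP_73b196_co.St

theorem tHE1 (h2 : StmtHQ2) (h5 : StmtHT5) : StmtHE1 := by
  intro V _ _ Δ hbad W B hf
  obtain ⟨A', B', hf', hsub, hmin⟩ := (h2 V Δ hbad.inP.cx).2 W B hf
  obtain ⟨a, ha⟩ := h5 V Δ hbad A' B' hf' hmin
  refine ⟨a, hsub (by rw [ha]; exact Finset.mem_singleton_self a), B', ?_⟩
  unfold Mop
  rw [← ha]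
  exact hf'

end Pool.Agent.Lib.MP_73b196_co.St
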