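import Pool.Agent.Lib.MP_73b196_co.St.HSpecC

/-!
# Theorem H: a minimal near-face separator exists
-/

set_option autoImplicit false

namespace Pool.Agent.Lib.MP_73b196_co.St

theorem HE2_nf {V : Type} [Fintype V] [DecidableEq V] {Δ : Set (Finset V)} (hc : IsCx Δ)
    (hconn : ∀ F ∈ Δ, Conn Δ (vs Δ \ F)) {W B Φ : Finset V} {u : V} (hf : Full Δ W B) (hΦ : Φ ∈ Δ)
    (hs : nb Δ W ⊆ insert u Φ) : u ∈ nb Δ W ∧ NF Δ W B := by
  have h1 := hf.notMem hc hconn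
  have hu : u ∈ nb Δ W := by
    by_contra hn
    refine h1 (hc.down Φ hΦ _ ?_)
    intro v hv
    rcases Finset.mem_insert.1 (hs hv) with rfl | h2
    · exact absurd hv hn
    · exact h2
  refine ⟨hu, ⟨hf, u, hu, hc.down Φ hΦ _ ?_⟩⟩
  intro v hv
  rw [Finset.mem_sdiff, Finset.mem_singleton] at hv
  exact (Finset.mem_insert.1 (hs hv.1)).resolve_left hv.2

theorem tHE2 (q1 : StmtHQ1) (q2 : StmtHQ2) (h0 : StmtHE0) (h1 : StmtHE1) (h7 : StmtHT7) :
    StmtHE2 := by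
  intro V _ _ Δ hbad
  classical
  have hc := hbad.inP.cx
  obtain ⟨x0, hx0, y0, hy0, hne, hnadj⟩ := q1 V Δ hbad
  obtain ⟨A, B0, hAB⟩ := (q2 V Δ hc).1 x0 hx0 y0 hy0 hne hnadj
  obtain ⟨e, heA, B', hmop⟩ := h1 V Δ hbad A B0 hAB
  obtain ⟨F, P, Q, hFS⟩ := h7 V Δ hbad e B' hmop
  obtain ⟨u, hu⟩ := hFS.neP
  obtain ⟨q, hq⟩ := hFS.neQ
  obtain ⟨X, hX, huX, hXP, hXn, hXc⟩ := h0 V Δ hc e F P Q hFS u hu
  have hqU : q ∈ (vs Δ \ {e}) \ F := by
    rw [← hFS.un]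
    exact Finset.mem_union_right _ hq
  rw [Finset.mem_sdiff, Finset.mem_sdiff, Finset.mem_singleton] at hqU
  have hq2 : q ∈ vs Δ \ (X ∪ nb Δ X) := by
    rw [Finset.mem_sdiff, Finset.mem_union, not_or]
    refine ⟨hqU.1.1, fun h => Finset.disjoint_left.1 hFS.d (hXP h) hq, fun h => ?_⟩
    rcases Finset.mem_insert.1 (hXn h) with h' | h'
    · exact hqU.1.2 h'
    · exact hqU.2 h'
  obtain ⟨C, hC, hqC⟩ := exists_comp Finset.sdiff_subset hq2
  obtain ⟨X', -, -, hfull, hsub⟩ := exists_sep hc hX hC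
  have hnf := HE2_nf hc hbad.conn hfull hFS.face (u := e) (by
    rw [hfull.n]
    exact hsub.trans hXn)
  obtain ⟨W, hW, hmin⟩ := (Finset.univ.filter fun W : Finset V => ∃ B, NF Δ W B).exists_min_image
    Finset.card ⟨X', by
      rw [Finset.mem_filter]
      exact ⟨Finset.mem_univ _, C, hnf.2⟩⟩
  rw [Finset.mem_filter] at hW
  obtain ⟨B, hB⟩ := hW.2
  obtain ⟨x, hx, hface⟩ := hB.near
  refine ⟨W, B, x, nb Δ W \ {x}, ⟨hB.toFull, hbad, ?_, hface, ?_, ?_⟩⟩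
  · rw [Finset.mem_sdiff, Finset.mem_singleton]
    exact fun h => h.2 rfl
  · ext v
    rw [Finset.mem_insert, Finset.mem_sdiff, Finset.mem_singleton]
    constructor
    · intro hv
      by_cases hvx : v = x
      · exact Or.inl hvx
      · exact Or.inr ⟨hv, hvx⟩
    · rintro (rfl | hv)
      · exact hx
      · exact hv.1
  · intro W' B'' hW' hsub'
    refine Finset.eq_of_subset_of_card_le hsub' (hmin W' ?_)
    rw [Finset.mem_filter]
    exact ⟨Finset.mem_univ _, B'', hW'⟩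

end Pool.Agent.Lib.MP_73b196_co.St
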