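import Pool.Agent.Lib.MP_73b196_co.St.HSpecB

/-!
# Lemma M
-/

set_option autoImplicit false
set_option linter.unusedSectionVars false

namespace Pool.Agent.Lib.MP_73b196_co.St

variable {V : Type} [Fintype V] [DecidableEq V] {Δ : Set (Finset V)}
  {A B F : Finset V} {a p v x y z : V}

/-- The set `B + y` and a vertex outside. -/
theorem HM_ins (hvB : v ∉ B) (hvy : v ≠ y) (h : adj Δ v y ∨ touch Δ {v} B) :
    Disjoint ({v} : Finset V) (insert y B) ∧ touch Δ {v} (insert y B) := by
  refine ⟨?_, ?_⟩
  · rw [Finset.disjoint_singleton_left, Finset.mem_insert, not_or]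
    exact ⟨hvy, hvB⟩
  · rcases h with h | h
    · exact touch_single_left.2 ⟨y, Finset.mem_insert_self _ _, h⟩
    · exact touch_mono (Finset.Subset.refl _) (Finset.subset_insert _ _) h

/-- A triple `a, x, B + y` with `a ∈ A` and `x` not adjacent to `y` is not filled. -/
theorem HM_not (h : IsCx Δ) (hp : Pl Δ A B) (ha : a ∈ A) (hxy : x ≠ y) (hn : ¬ adj Δ x y)
    (hF : F ∈ Δ) (h1 : a ∈ F) (h2 : x ∈ F) (h3 : (F ∩ insert y B).Nonempty) : False := by
  obtain ⟨w, hw⟩ := h3
  rw [Finset.mem_inter, Finset.mem_insert] at hw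
  rcases hw.2 with e | e
  · subst e
    exact hn (h.adj_of_face hF h2 hw.1 hxy)
  · exact hp.no_face h hF ⟨a, Finset.mem_inter.2 ⟨h1, ha⟩⟩ ⟨w, Finset.mem_inter.2 ⟨hw.1, e⟩⟩

/-- **HM** Lemma M. -/
theorem tHM : StmtHM := by
  intro V _ _ Δ hP hconn A B hf hcl a ha a' ha' haa' p hp hpa hph x hx hxa hxp
  by_contra hn
  have hc := hP.cx
  have hpl := hf.pl hc
  have hpA : p ∉ A := (mem_nb.1 hp).2.1
  have apne : p ≠ a := fun e => hpA (e ▸ ha)
  have aap : adj Δ a p := hcl a ha p (Finset.mem_union_right _ hp) apne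
  have aax : adj Δ a x := hcl a ha x hx hxa
  have apx : adj Δ p x := by
    rcases Finset.mem_union.1 hx with h1 | h1
    · exact adj_symm (hcl x h1 p (Finset.mem_union_right _ hp) (Ne.symm hxp))
    · exact hpa x h1 hxp
  have hHol : Hol Δ a p x := ⟨aap, aax, apx, hn⟩
  by_cases hcq : Clq Δ (nb Δ A)
  · have hK : Clq Δ (A ∪ nb Δ A) := by
      refine ⟨Finset.union_subset hf.cA.1 nb_sub, ?_⟩
      intro u hu v hv huv
      rcases Finset.mem_union.1 hu with h1 | h1
      · exact hcl u h1 v hv (Ne.symm huv)
      · rcases Finset.mem_union.1 hv with h2 | h2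
        · exact adj_symm (hcl v h2 u hu huv)
        · exact hcq.2 u h1 v h2 huv
    have hnf := hf.notMem hc hconn
    have hex : ∃ t1 ∈ nb Δ A, ∃ t2 ∈ nb Δ A, ∃ t3 ∈ nb Δ A, Hol Δ t1 t2 t3 := by
      by_contra hno
      push Not at hno
      exact hnf (hP.mem_of_noHol hcq hno)
    obtain ⟨t1, h1, t2, h2, t3, h3, hT⟩ := hex
    have hs := hP.hol_share hK (Finset.mem_union_left _ ha) (Finset.mem_union_right _ hp) hx
      (Finset.mem_union_right _ h1) (Finset.mem_union_right _ h2) (Finset.mem_union_right _ h3)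
      hHol hT
    have hsub : ({a, p, x} : Finset V) ∩ {t1, t2, t3} ⊆ {x} := by
      intro v hv
      rw [Finset.mem_inter] at hv
      simp only [Finset.mem_insert, Finset.mem_singleton] at hv
      rw [Finset.mem_singleton]
      rcases hv.1 with e | e | e
      · exfalso
        subst e
        have hva : v ∈ nb Δ A := by
          rcases hv.2 with e | e | e <;> subst e <;> assumption
        exact (mem_nb.1 hva).2.1 ha
      · exfalso
        subst e
        rcases hv.2 with e | e | e
        · subst e
          exact hph t2 h2 t3 h3 hT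
        · subst e
          exact hph t3 h3 t1 h1 hT.rot
        · subst e
          exact hph t1 h1 t2 h2 hT.rot.rot
      · exact e
    have := Finset.card_le_card hsub
    rw [Finset.card_singleton] at this
    omega
  · -- common facts
    have hex : ∃ y ∈ nb Δ A, ∃ y' ∈ nb Δ A, y ≠ y' ∧ ¬ adj Δ y y' := by
      by_contra hno
      push Not at hno
      exact hcq ⟨nb_sub, fun u hu v hv huv => hno u hu v hv huv⟩
    have hAB : ∀ u ∈ A, u ∉ B := fun u hu hu' => Finset.disjoint_left.1 hf.d hu hu'
    have hnB : ∀ u ∈ nb Δ A, u ∉ B ∧ touch Δ {u} B := fun u hu => ⟨(hf.com hu).2.1,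
      (hf.com hu).2.2.2⟩
    have hnA : ∀ u ∈ nb Δ A, u ∉ A := fun u hu => (mem_nb.1 hu).2.1
    have hpB := hnB p hp
    have hxB : x ∉ B := by
      rcases Finset.mem_union.1 hx with h1 | h1
      · exact hAB x h1
      · exact (hnB x h1).1
    by_cases hi : x ∈ nb Δ A ∧ ∃ y ∈ nb Δ A, y ≠ x ∧ ¬ adj Δ x y
    · obtain ⟨hxn, y, hy, hyx, hxy⟩ := hi
      have hyp : p ≠ y := by
        rintro rfl
        exact hxy (adj_symm apx)
      have hyB := hnB y hy
      have hyA := hnA y hy
      have cB : Conn Δ (insert y B) := hf.cB.insert (nb_sub hy) hyB.2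
      have hay : adj Δ a y := hcl a ha y (Finset.mem_union_right _ hy) (fun e => hyA (e ▸ ha))
      have hay' : adj Δ a' y := hcl a' ha' y (Finset.mem_union_right _ hy)
        (fun e => hyA (e ▸ ha'))
      have hxa' : adj Δ a' x := hcl a' ha' x hx (fun e => hnA x hxn (e ▸ ha'))
      have hpa' : adj Δ a' p := hcl a' ha' p (Finset.mem_union_right _ hp)
        (fun e => hpA (e ▸ ha'))
      have haa : adj Δ a a' := hcl a ha a' (Finset.mem_union_left _ ha') (Ne.symm haa')
      have hM : CM Δ [{x}, {a}, {p}, {a'}, insert y B] := by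
        refine HRul_cons (conn_single (hc.adj_vs aax).2) ?_
          (HRul_cons (conn_single (hc.adj_vs aax).1) ?_
            (HRul_cm3 (conn_single (hc.adj_vs aap).2) (conn_single (hc.adj_vs haa).2) cB
              (HRul_pair (adj_symm hpa')) (HM_ins hpB.1 hyp (Or.inr hpB.2))
              (HM_ins (hAB a' ha') hay'.1 (Or.inl hay'))))
        · simp only [List.mem_cons, List.not_mem_nil, or_false, forall_eq_or_imp, forall_eq]
          exact ⟨HRul_pair (adj_symm aax), HRul_pair (adj_symm apx), HRul_pair (adj_symm hxa'),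
            HM_ins hxB (Ne.symm hyx) (Or.inr (hnB x hxn).2)⟩
        · simp only [List.mem_cons, List.not_mem_nil, or_false, forall_eq_or_imp, forall_eq]
          exact ⟨HRul_pair aap, HRul_pair haa, HM_ins (hAB a ha) hay.1 (Or.inl hay)⟩
      rcases hP.k5 _ _ _ _ _ hM with hfl | hfl
      · have := hc.fill_three.1 hfl
        apply hn
        have e : ({a, p, x} : Finset V) = {x, a, p} := by
          ext t
          simp only [Finset.mem_insert, Finset.mem_singleton]
          tauto
        rw [e]
        exact this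
      · obtain ⟨F, hF, hFL⟩ := hfl
        exact HM_not hc hpl ha' (Ne.symm hyx) hxy hF (HRul_mem (hFL _ (by simp)))
          (HRul_mem (hFL _ (by simp))) (hFL _ (by simp))
    · have hxall : ∀ y ∈ nb Δ A, y ≠ x → adj Δ x y := by
        intro y hy hyx
        rcases Finset.mem_union.1 hx with h1 | h1
        · exact hcl x h1 y (Finset.mem_union_right _ hy) hyx
        · by_contra hno
          exact hi ⟨h1, y, hy, hyx, hno⟩
      obtain ⟨y, hy, y', hy', hyy', hnad⟩ := hex
      have hyx : y ≠ x := by
        rintro rfl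
        exact hnad (hxall y' hy' (Ne.symm hyy'))
      have hyx' : y' ≠ x := by
        rintro rfl
        exact hnad (adj_symm (hxall y hy hyy'))
      have hyp : y ≠ p := by
        rintro rfl
        exact hnad (hpa y' hy' (Ne.symm hyy'))
      have hyp' : p ≠ y' := by
        rintro rfl
        exact hnad (adj_symm (hpa y hy hyy'))
      have hyB := hnB y hy
      have hyB' := hnB y' hy'
      have cB : Conn Δ (insert y' B) := hf.cB.insert (nb_sub hy') hyB'.2
      have hay : adj Δ a y := hcl a ha y (Finset.mem_union_right _ hy)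
        (fun e => hnA y hy (e ▸ ha))
      have hay' : adj Δ a y' := hcl a ha y' (Finset.mem_union_right _ hy')
        (fun e => hnA y' hy' (e ▸ ha))
      have hM : CM Δ [{a}, {p}, {x}, {y}, insert y' B] := by
        refine HRul_cons (conn_single (hc.adj_vs aax).1) ?_
          (HRul_cons (conn_single (hc.adj_vs aap).2) ?_
            (HRul_cm3 (conn_single (hc.adj_vs aax).2) (conn_single (nb_sub hy)) cB
              (HRul_pair (hxall y hy hyx))
              (HM_ins hxB (Ne.symm hyx') (Or.inl (hxall y' hy' hyx')))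
              (HM_ins hyB.1 hyy' (Or.inr hyB.2))))
        · simp only [List.mem_cons, List.not_mem_nil, or_false, forall_eq_or_imp, forall_eq]
          exact ⟨HRul_pair aap, HRul_pair aax, HRul_pair hay,
            HM_ins (hAB a ha) hay'.1 (Or.inl hay')⟩
        · simp only [List.mem_cons, List.not_mem_nil, or_false, forall_eq_or_imp, forall_eq]
          exact ⟨HRul_pair apx, HRul_pair (hpa y hy hyp), HM_ins hpB.1 hyp' (Or.inr hpB.2)⟩
      rcases hP.k5 _ _ _ _ _ hM with hfl | hfl
      · exact hn (hc.fill_three.1 hfl)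
      · obtain ⟨F, hF, hFL⟩ := hfl
        exact HM_not hc hpl ha hyy' hnad hF (HRul_mem (hFL _ (by simp)))
          (HRul_mem (hFL _ (by simp))) (hFL _ (by simp))

end Pool.Agent.Lib.MP_73b196_co.St
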