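import Pool.Agent.Lib.MP_73b196_co.St.HSpecB

/-!
# Deletion of a vertex of a minimal full component with at least two vertices
-/

set_option autoImplicit false

namespace Pool.Agent.Lib.MP_73b196_co.St

variable {V : Type} [Fintype V] [DecidableEq V] {Δ : Set (Finset V)} {A B F P Q : Finset V}
  {a a' : V}

theorem HM2_symm (h : FS Δ a F P Q) : FS Δ a F Q P where
  face := h.face
  na := h.na
  un := by rw [Finset.union_comm]; exact h.un
  d := h.d.symm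
  neP := h.neQ
  neQ := h.neP
  nt := fun ht => h.nt (touch_symm ht)

theorem HM2_nb (hconn : ∀ F ∈ Δ, Conn Δ (vs Δ \ F)) (h : FS Δ a F P Q) : ∃ q ∈ Q, adj Δ a q := by
  have hQs : Q ⊆ vs Δ \ F := by
    intro v hv
    have : v ∈ (vs Δ \ {a}) \ F := by
      rw [← h.un]
      exact Finset.mem_union_right _ hv
    simp only [Finset.mem_sdiff] at this ⊢
    exact ⟨this.1.1, this.2⟩
  have hPs : P ⊆ vs Δ \ F := by
    intro v hv
    have : v ∈ (vs Δ \ {a}) \ F := by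
      rw [← h.un]
      exact Finset.mem_union_left _ hv
    simp only [Finset.mem_sdiff] at this ⊢
    exact ⟨this.1.1, this.2⟩
  obtain ⟨p, hp⟩ := h.neP
  obtain ⟨q, hq, w, hw, hqw⟩ := (hconn F h.face).2.2 Q hQs h.neQ
    ⟨p, Finset.mem_sdiff.2 ⟨hPs hp, Finset.disjoint_left.1 h.d hp⟩⟩
  rw [Finset.mem_sdiff, Finset.mem_sdiff] at hw
  by_cases hwa : w = a
  · subst hwa
    exact ⟨q, hq, adj_symm hqw⟩
  · exfalso
    have hw2 : w ∈ P ∪ Q := by
      rw [h.un, Finset.mem_sdiff, Finset.mem_sdiff, Finset.mem_singleton]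
      exact ⟨⟨hw.1.1, hwa⟩, hw.1.2⟩
    rcases Finset.mem_union.1 hw2 with hwP | hwQ
    · exact h.nt ⟨w, hwP, q, hq, adj_symm hqw⟩
    · exact hw.2 hwQ

theorem HM2_case1 (cx : IsCx Δ) (hconn : ∀ F ∈ Δ, Conn Δ (vs Δ \ F))
    (hcl : ∀ a ∈ A, ∀ v ∈ A ∪ nb Δ A, v ≠ a → adj Δ a v) (ha : a ∈ A) {a1 : V} (ha1 : a1 ∈ A)
    (h : FS Δ a F P Q) (haP : a1 ∈ P) : False := by
  obtain ⟨q, hq, haq⟩ := HM2_nb hconn h
  have hqU : q ∈ A ∪ nb Δ A := by
    by_cases hqA : q ∈ A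
    · exact Finset.mem_union_left _ hqA
    · exact Finset.mem_union_right _ (cx.mem_nb_of hqA (touch_single_left.2 ⟨a, ha, adj_symm haq⟩))
  have hne : q ≠ a1 := by
    rintro rfl
    exact Finset.disjoint_left.1 h.d haP hq
  exact h.nt ⟨a1, haP, q, hq, hcl a1 ha1 q hqU hne⟩

theorem HM2_case2 (cx : IsCx Δ) (hconn : ∀ F ∈ Δ, Conn Δ (vs Δ \ F)) (hf : Full Δ A B)
    (ha : a ∈ A) (hAF : ∀ a1 ∈ A, a1 ≠ a → a1 ∈ F) (h : FS Δ a F P Q) (hBP : B ⊆ P) : False := by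
  obtain ⟨q, hq, haq⟩ := HM2_nb hconn h
  have hqm : q ∈ (vs Δ \ {a}) \ F := by
    rw [← h.un]
    exact Finset.mem_union_right _ hq
  rw [Finset.mem_sdiff, Finset.mem_sdiff, Finset.mem_singleton] at hqm
  have hqA : q ∉ A := fun hqA => hqm.2 (hAF q hqA hqm.1.2)
  have hqN : q ∈ nb Δ A := cx.mem_nb_of hqA (touch_single_left.2 ⟨a, ha, adj_symm haq⟩)
  rw [hf.n] at hqN
  obtain ⟨b, hb, hqb⟩ := touch_single_left.1 (mem_nb.1 hqN).2.2
  exact h.nt ⟨b, hBP hb, q, hq, adj_symm hqb⟩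

theorem tHM2 : StmtHM2 := by
  intro V _ _ Δ cx hconn A B hf hcl a ha a' ha' haa'
  by_contra hns
  obtain ⟨F, P, Q, h⟩ := (ns_del_iff cx).1 hns
  have hadjU : ∀ a1 ∈ A, ∀ v, adj Δ a1 v → v ∈ A ∪ nb Δ A := by
    intro a1 ha1 v hv
    by_cases hvA : v ∈ A
    · exact Finset.mem_union_left _ hvA
    · exact Finset.mem_union_right _ (cx.mem_nb_of hvA (touch_single_left.2 ⟨a1, ha1, adj_symm hv⟩))
  by_cases hc : ∃ a1 ∈ A, a1 ≠ a ∧ a1 ∉ F
  · obtain ⟨a1, ha1, hne, haF⟩ := hc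
    have hm : a1 ∈ P ∪ Q := by
      rw [h.un, Finset.mem_sdiff, Finset.mem_sdiff, Finset.mem_singleton]
      exact ⟨⟨hf.cA.1 ha1, hne⟩, haF⟩
    rcases Finset.mem_union.1 hm with h1 | h1
    · exact HM2_case1 cx hconn hcl ha ha1 h h1
    · exact HM2_case1 cx hconn hcl ha ha1 (HM2_symm h) h1
  · have hAF : ∀ a1 ∈ A, a1 ≠ a → a1 ∈ F := by
      intro a1 ha1 hne
      by_contra hn
      exact hc ⟨a1, ha1, hne, hn⟩
    have ha'F := hAF a' ha' haa'.symm
    have hBU : B ⊆ P ∪ Q := by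
      intro v hv
      rw [h.un, Finset.mem_sdiff, Finset.mem_sdiff, Finset.mem_singleton]
      have hvA : v ∉ A := fun hvA => Finset.disjoint_left.1 hf.d hvA hv
      refine ⟨⟨hf.cB.1 hv, ?_⟩, ?_⟩
      · rintro rfl
        exact hvA ha
      · intro hvF
        have hva : a' ≠ v := by
          rintro rfl
          exact hvA ha'
        rcases Finset.mem_union.1 (hadjU a' ha' v (cx.adj_of_face h.face ha'F hvF hva)) with h1 | h1
        · exact hvA h1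
        · rw [hf.n] at h1
          exact (mem_nb.1 h1).2.1 hv
    obtain ⟨b, hb⟩ := hf.cB.2.1
    have key : ∀ P Q : Finset V, FS Δ a F P Q → B ⊆ P ∪ Q → b ∈ P → B ⊆ P := by
      intro P Q h hBU hbP
      refine hf.cB.sub_of_closed hBU ?_ ⟨b, Finset.mem_inter.2 ⟨hb, hbP⟩⟩
      rw [Finset.union_sdiff_left, h.d.symm.sdiff_eq_left]
      exact h.nt
    rcases Finset.mem_union.1 (hBU hb) with h1 | h1
    · exact HM2_case2 cx hconn hf ha hAF h (key P Q h hBU h1)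
    · exact HM2_case2 cx hconn hf ha hAF (HM2_symm h)
        (key Q P (HM2_symm h) (by rw [Finset.union_comm]; exact hBU) h1)

end Pool.Agent.Lib.MP_73b196_co.St
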