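import Pool.Agent.Lib.MP_73b196_co.St.HSpecB

/-!
# Theorem H, module HP (a cone vertex of the minimal separators)
-/

set_option autoImplicit false

namespace Pool.Agent.Lib.MP_73b196_co.St

variable {V : Type} [Fintype V] [DecidableEq V] {Δ : Set (Finset V)} {A B C D F G S : Finset V}
  {a b c d i j l p q x y z : V}

omit [Fintype V] in
theorem HP_image (hd : Disjoint G C) : G.image (fun v => if v ∈ C then c else v) = G := by
  have h3 : G.image (fun v => if v ∈ C then c else v) = G.image id := by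
    refine Finset.image_congr (fun v hv => if_neg ?_)
    exact fun h1 => Finset.disjoint_left.1 hd hv h1
  rw [h3, Finset.image_id]

omit [Fintype V] in
theorem HP_of_avoid (hG : G ∈ Δ) (hd : Disjoint G C) : G ∈ con Δ C c :=
  ⟨G, hG, HP_image hd⟩

omit [Fintype V] in
theorem HP_of_meet (h : IsCx Δ) (hF : F ∈ Δ) (hy : y ∈ F) (hyC : y ∈ C) (hG : G ⊆ F)
    (hd : Disjoint G C) : insert c G ∈ con Δ C c := by
  refine ⟨insert y G, h.down F hF _ (Finset.insert_subset hy hG), ?_⟩
  rw [Finset.image_insert, HP_image hd, if_pos hyC]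

omit [Fintype V] in
theorem HP_avoid (hc : c ∈ C) (hG : G ∈ con Δ C c) (hcG : c ∉ G) : G ∈ Δ := by
  obtain ⟨F, hF, hFG⟩ := hG
  have hd : Disjoint F C := by
    rw [Finset.disjoint_left]
    intro v hv hvC
    refine hcG ?_
    rw [← hFG, Finset.mem_image]
    exact ⟨v, hv, if_pos hvC⟩
  rw [HP_image hd] at hFG
  rw [← hFG]
  exact hF

omit [Fintype V] in
theorem HP_meet (hc : c ∈ C) (hG : G ∈ con Δ C c) (hcG : c ∈ G) :
    ∃ F ∈ Δ, (∀ v ∈ G, v ≠ c → v ∈ F) ∧ (F ∩ C).Nonempty := by
  obtain ⟨F, hF, hFG⟩ := hG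
  refine ⟨F, hF, ?_, ?_⟩
  · intro v hv hvc
    rw [← hFG, Finset.mem_image] at hv
    obtain ⟨w, hw, hwv⟩ := hv
    by_cases hwC : w ∈ C
    · rw [if_pos hwC] at hwv
      exact absurd hwv.symm hvc
    · rw [if_neg hwC] at hwv
      rw [← hwv]
      exact hw
  · rw [← hFG, Finset.mem_image] at hcG
    obtain ⟨w, hw, hwc⟩ := hcG
    by_cases hwC : w ∈ C
    · exact ⟨w, Finset.mem_inter.2 ⟨hw, hwC⟩⟩
    · rw [if_neg hwC] at hwc
      subst hwc
      exact absurd hc hwC

/-- **HP**: a minimal separator has a cone vertex which also fills the edges towards all components. -/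
theorem tHP (h1 : StmtHP1) (h2 : StmtHBase) : StmtHP := by
  intro V _ _ Δ h A B hf
  have hΔ := h.inP.cx
  have hfB := hf.symm
  have hcA : IsComp Δ (vs Δ \ nb Δ A) A := hf.comp hΔ
  have hcB : IsComp Δ (vs Δ \ nb Δ A) B := by
    have h3 := hfB.comp hΔ
    rwa [← hf.n] at h3
  by_cases hall : ∀ C, IsComp Δ (vs Δ \ nb Δ A) C → ∃ v, C = {v}
  · exfalso
    obtain ⟨a, rfl⟩ := hall A hcA
    obtain ⟨b, rfl⟩ := hall B hcB
    refine h2 V Δ (nb Δ {a}) a b
      { inP := h.inP
        conn := h.conn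
        nchp := h.nchp
        noApex := h.noApex
        sub := nb_sub
        ha := hcA.1 (Finset.mem_singleton_self a)
        hb := hcB.1 (Finset.mem_singleton_self b)
        hab := fun e => by
          have h3 := hf.d
          rw [Finset.disjoint_singleton] at h3
          exact h3 e
        ind := ?_
        sa := fun s hs => ?_
        sb := fun s hs => ?_ }
    · intro u hu v hv huv
      obtain ⟨C, hC, huC⟩ := exists_comp (U := vs Δ \ nb Δ {a}) Finset.sdiff_subset hu
      have hvC := hC.mem_of_adj huC hv huv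
      obtain ⟨w, rfl⟩ := hall C hC
      rw [Finset.mem_singleton] at huC hvC
      exact huv.1 (huC.trans hvC.symm)
    · exact adj_symm (touch_single.1 (hf.com hs).2.2.1)
    · exact adj_symm (touch_single.1 (hf.com hs).2.2.2)
  · push Not at hall
    obtain ⟨C0, hC0, hne⟩ := hall
    obtain ⟨c, hc⟩ := hC0.2.1.2.1
    have hC0v : C0 ⊆ vs Δ := hC0.1.trans Finset.sdiff_subset
    have hvs := vs_con hΔ hC0v hc
    obtain ⟨c', hc', hcc'⟩ : ∃ c' ∈ C0, c' ≠ c := by
      by_contra hn
      push Not at hn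
      refine hne c (Finset.Subset.antisymm ?_ (Finset.singleton_subset_iff.2 hc))
      intro v hv
      rw [Finset.mem_singleton]
      exact hn v hv
    obtain ⟨p, hp⟩ := h.min (con Δ C0 c) (by
        rw [hvs]
        refine Finset.card_lt_card ⟨Finset.insert_subset (hC0v hc) Finset.sdiff_subset, ?_⟩
        intro h3
        have h4 := h3 (hC0v hc')
        rw [Finset.mem_insert, Finset.mem_sdiff] at h4
        rcases h4 with h4 | h4
        · exact hcc' h4
        · exact h4.2 hc') (h.inP.con hC0.2.1 hc) ⟨c, by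
          rw [hvs]
          exact Finset.mem_insert_self _ _⟩ (h1 V Δ hΔ h.conn A B hf C0 c hC0 hc)
        (fun h3 => h.nchp (chp_of_con hΔ hC0.2.1 hc h3))
    have hpv : p ∈ insert c (vs Δ \ C0) := by
      rw [← hvs, mem_vs]
      exact hp ∅ (hΔ.con).empty
    have hcc : ({c} : Finset V) ∈ con Δ C0 c := by
      rw [← mem_vs, hvs]
      exact Finset.mem_insert_self _ _
    have hSC : ∀ s ∈ nb Δ A, s ∉ C0 := fun s hs h3 =>
      (Finset.mem_sdiff.1 (hC0.1 h3)).2 hs
    have hSc : ∀ s ∈ nb Δ A, s ≠ c := fun s hs h3 => hSC s hs (h3 ▸ hc)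
    -- two different components do not meet a face
    have hcomp : ∀ D, IsComp Δ (vs Δ \ nb Δ A) D → D ≠ C0 → ∀ F ∈ Δ, (F ∩ D).Nonempty →
        (F ∩ C0).Nonempty → False := by
      intro D hD hDC F hF h3 h4
      exact Pl.no_face hΔ (IsComp.pl hD hC0 hDC) hF h3 h4
    have hdisj : ∀ D, IsComp Δ (vs Δ \ nb Δ A) D → D ≠ C0 → ∀ v ∈ D, v ∉ C0 := by
      intro D hD hDC v hv hvC
      exact hDC (hD.eq_of hC0 ⟨v, Finset.mem_inter.2 ⟨hv, hvC⟩⟩)
    have hpS : p ∈ nb Δ A := by
      by_contra hpS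
      rw [Finset.mem_insert, Finset.mem_sdiff] at hpv
      rcases hpv with rfl | ⟨hpv, hpC⟩
      · obtain ⟨D, hD, hDC⟩ : ∃ D, IsComp Δ (vs Δ \ nb Δ A) D ∧ D ≠ C0 := by
          by_cases hAC : A = C0
          · refine ⟨B, hcB, fun e => ?_⟩
            have h3 := hf.d
            rw [hAC, e] at h3
            obtain ⟨v, hv⟩ := hC0.2.1.2.1
            exact Finset.disjoint_left.1 h3 hv hv
          · exact ⟨A, hcA, hAC⟩
        obtain ⟨q, hq⟩ := hD.2.1.2.1
        have hqC := hdisj D hD hDC q hq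
        have h3 : ({q} : Finset V) ∈ con Δ C0 p := by
          refine HP_of_avoid (mem_vs.1 (hD.2.1.1 hq)) ?_
          rw [Finset.disjoint_singleton_left]
          exact hqC
        obtain ⟨F, hF, h4, h5⟩ := HP_meet hc (hp _ h3) (Finset.mem_insert_self _ _)
        refine hcomp D hD hDC F hF ⟨q, Finset.mem_inter.2 ⟨h4 q (by simp) ?_, hq⟩⟩ h5
        rintro rfl
        exact hqC hc
      · have hpc : p ≠ c := fun e => hpC (e ▸ hc)
        obtain ⟨D, hD, hpD⟩ := exists_comp (U := vs Δ \ nb Δ A) Finset.sdiff_subset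
          (Finset.mem_sdiff.2 ⟨hpv, hpS⟩)
        have hDC : D ≠ C0 := fun e => hpC (e ▸ hpD)
        obtain ⟨F, hF, h4, h5⟩ := HP_meet hc (hp _ hcc) (by simp)
        exact hcomp D hD hDC F hF ⟨p, Finset.mem_inter.2 ⟨h4 p (by simp) hpc, hpD⟩⟩ h5
    have hpc : p ≠ c := hSc p hpS
    have hpC : p ∉ C0 := hSC p hpS
    -- faces away from `C0`
    have hav : ∀ G ∈ Δ, Disjoint G C0 → insert p G ∈ Δ := by
      intro G hG hd
      refine HP_avoid hc (hp G (HP_of_avoid hG hd)) ?_
      rw [Finset.mem_insert, not_or]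
      exact ⟨Ne.symm hpc, fun h3 => Finset.disjoint_left.1 hd h3 hc⟩
    have hd1 : ∀ x, x ∉ C0 → Disjoint ({x} : Finset V) C0 := by
      intro x hx
      rw [Finset.disjoint_singleton_left]
      exact hx
    have hd2 : ∀ x y, x ∉ C0 → y ∉ C0 → Disjoint ({x, y} : Finset V) C0 := by
      intro x y hx hy
      rw [Finset.disjoint_insert_left]
      exact ⟨hx, hd1 y hy⟩
    refine ⟨p, hpS, ?_, ?_, ?_⟩
    · intro s hs hsp
      have h3 := hav {s} (mem_vs.1 (nb_sub hs)) (hd1 s (hSC s hs))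
      exact hΔ.adj_of_face h3 (by simp) (by simp) (Ne.symm hsp)
    · intro s hs t ht hst _ _
      exact hav {s, t} hst.2 (hd2 s t (hSC s hs) (hSC t ht))
    · intro C hC
      have hpC' : p ∉ C := fun h3 => (Finset.mem_sdiff.1 (hC.1 h3)).2 hpS
      by_cases hCC : C = C0
      · subst hCC
        refine ⟨?_, ?_⟩
        · obtain ⟨F, hF, h4, y, hy⟩ := HP_meet hc (hp _ hcc) (by simp)
          rw [Finset.mem_inter] at hy
          refine touch_single_left.2 ⟨y, hy.2, hΔ.adj_of_face hF (h4 p (by simp) hpc) hy.1 ?_⟩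
          rintro rfl
          exact hpC hy.2
        · intro s hs hsp ht
          obtain ⟨y, hy, hsy⟩ := touch_single_left.1 ht
          have h3 : insert c ({s} : Finset V) ∈ con Δ C c :=
            HP_of_meet hΔ hsy.2 (by simp) hy (by simp) (hd1 s (hSC s hs))
          obtain ⟨F, hF, h4, h5⟩ := HP_meet hc (hp _ h3) (by simp)
          refine ⟨F, hF, ?_⟩
          intro E hE
          simp only [List.mem_cons, List.not_mem_nil, or_false] at hE
          rcases hE with rfl | rfl | rfl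
          · exact h5
          · exact ⟨p, Finset.mem_inter.2 ⟨h4 p (by simp) hpc, by simp⟩⟩
          · exact ⟨s, Finset.mem_inter.2 ⟨h4 s (by simp) (hSc s hs), by simp⟩⟩
      · have hdC := hdisj C hC hCC
        refine ⟨?_, ?_⟩
        · obtain ⟨x, hx⟩ := hC.2.1.2.1
          have h3 := hav {x} (mem_vs.1 (hC.2.1.1 hx)) (hd1 x (hdC x hx))
          refine touch_single_left.2 ⟨x, hx, hΔ.adj_of_face h3 (by simp) (by simp) ?_⟩
          rintro rfl
          exact hpC' hx
        · intro s hs hsp ht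
          obtain ⟨x, hx, hsx⟩ := touch_single_left.1 ht
          have h3 := hav {s, x} hsx.2 (hd2 s x (hSC s hs) (hdC x hx))
          refine ⟨_, h3, ?_⟩
          intro E hE
          simp only [List.mem_cons, List.not_mem_nil, or_false] at hE
          rcases hE with rfl | rfl | rfl
          · exact ⟨x, Finset.mem_inter.2 ⟨by simp, hx⟩⟩
          · exact ⟨p, Finset.mem_inter.2 ⟨by simp, by simp⟩⟩
          · exact ⟨s, Finset.mem_inter.2 ⟨by simp, by simp⟩⟩

end Pool.Agent.Lib.MP_73b196_co.St
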