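import Pool.Agent.Lib.MP_73b196_co.St.HSpecB

/-!
# Contracting a component of the complement of a minimal separator
-/

set_option autoImplicit false
set_option linter.unusedSectionVars false

namespace Pool.Agent.Lib.MP_73b196_co.St

variable {V : Type} [Fintype V] [DecidableEq V] {Δ : Set (Finset V)}
  {A B C D E F G P Q R S F0 : Finset V} {a b c v w : V}

/-- A part of a splitting. -/
theorem HP1_sub (hE : Conn Δ E) (hER : E ⊆ R) (hPQ : P ∪ Q = R) (hd : Disjoint P Q)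
    (ht : ¬ touch Δ P Q) (hne : (E ∩ P).Nonempty) : E ⊆ P := by
  refine hE.sub_of_closed hER ?_ hne
  intro h
  refine ht (touch_mono (Finset.Subset.refl _) ?_ h)
  intro v hv
  rw [Finset.mem_sdiff, ← hPQ, Finset.mem_union] at hv
  exact hv.1.resolve_left hv.2

/-- The main step. -/
theorem HP1_core (h : IsCx Δ) (hconn : ∀ F ∈ Δ, Conn Δ (vs Δ \ F))
    (hC : IsComp Δ (vs Δ \ S) C) (hD : IsComp Δ (vs Δ \ S) D) (hne : D ≠ C) (hS : S ∉ Δ)
    (hSv : S ⊆ vs Δ) (hDS : ∀ s ∈ S, touch Δ {s} D) (hF0 : F0 ∈ Δ) (hF0S : F0 ⊆ S)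
    (hR : ((vs Δ \ C) \ F0).Nonempty) : Conn Δ ((vs Δ \ C) \ F0) := by
  by_contra hn
  obtain ⟨P, Q, hPQ, hd, hP, hQ, ht⟩ := not_conn
    (Finset.sdiff_subset.trans Finset.sdiff_subset) hR hn
  have hDC := hD.pl hC hne
  have hDR : D ⊆ (vs Δ \ C) \ F0 := by
    intro v hv
    rw [Finset.mem_sdiff, Finset.mem_sdiff]
    refine ⟨⟨hD.2.1.1 hv, Finset.disjoint_left.1 hDC.d hv⟩, fun hvF => ?_⟩
    exact (Finset.mem_sdiff.1 (hD.1 hv)).2 (hF0S hvF)
  have hSR : S \ F0 ⊆ (vs Δ \ C) \ F0 := by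
    intro v hv
    rw [Finset.mem_sdiff] at hv
    rw [Finset.mem_sdiff, Finset.mem_sdiff]
    exact ⟨⟨hSv hv.1, fun hvC => (Finset.mem_sdiff.1 (hC.1 hvC)).2 hv.1⟩, hv.2⟩
  have hc0 : Conn Δ (D ∪ (S \ F0)) := hD.2.1.attach (Finset.sdiff_subset.trans hSv)
    (fun s hs => hDS s (Finset.mem_sdiff.1 hs).1)
  have key : ∀ P Q : Finset V, P ∪ Q = (vs Δ \ C) \ F0 → Disjoint P Q → Q.Nonempty →
      ¬ touch Δ P Q → D ∪ (S \ F0) ⊆ P → False := by
    intro P Q hPQ hd hQ ht hsub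
    obtain ⟨v, hv⟩ := hQ
    have hvP : v ∉ P := fun hvP => Finset.disjoint_left.1 hd hvP hv
    have hvR : v ∈ (vs Δ \ C) \ F0 := by
      rw [← hPQ]
      exact Finset.mem_union_right _ hv
    rw [Finset.mem_sdiff, Finset.mem_sdiff] at hvR
    have hvS : v ∉ S := fun hvS =>
      hvP (hsub (Finset.mem_union_right _ (Finset.mem_sdiff.2 ⟨hvS, hvR.2⟩)))
    obtain ⟨E, hE, hvE⟩ := exists_comp (Δ := Δ) (U := vs Δ \ S) Finset.sdiff_subset
      (Finset.mem_sdiff.2 ⟨hvR.1.1, hvS⟩)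
    have hEC : E ≠ C := by
      rintro rfl
      exact hvR.1.2 hvE
    have hED : E ≠ D := by
      rintro rfl
      exact hvP (hsub (Finset.mem_union_left _ hvE))
    have hER : E ⊆ (vs Δ \ C) \ F0 := by
      intro u hu
      rw [Finset.mem_sdiff, Finset.mem_sdiff]
      exact ⟨⟨hE.2.1.1 hu, Finset.disjoint_left.1 (hE.pl hC hEC).d hu⟩,
        fun huF => (Finset.mem_sdiff.1 (hE.1 hu)).2 (hF0S huF)⟩
    have hEQ : E ⊆ Q := by
      refine HP1_sub hE.2.1 hER (P := Q) (Q := P) ?_ hd.symm (fun t => ht (touch_symm t))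
        ⟨v, Finset.mem_inter.2 ⟨hvE, hv⟩⟩
      rw [Finset.union_comm]
      exact hPQ
    have hnE := IsComp.nb_sub h hE
    have hnf : nb Δ E ∉ Δ := by
      refine nb_notMem h hconn hE.2.1 ?_
      obtain ⟨d, hd⟩ := hD.2.1.2.1
      refine ⟨d, ?_⟩
      rw [Finset.mem_sdiff, Finset.mem_union, not_or]
      exact ⟨hD.2.1.1 hd, Finset.disjoint_right.1 (hE.pl hD hED).d hd,
        fun hn => (Finset.mem_sdiff.1 (hD.1 hd)).2 (hnE hn)⟩
    have hns : ¬ nb Δ E ⊆ F0 := fun hs => hnf (h.down F0 hF0 _ hs)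
    obtain ⟨s, hs, hsF⟩ := Finset.not_subset.1 hns
    have hsP : s ∈ P := hsub (Finset.mem_union_right _ (Finset.mem_sdiff.2 ⟨hnE hs, hsF⟩))
    exact ht (touch_mono (Finset.singleton_subset_iff.2 hsP) hEQ (mem_nb.1 hs).2.2)
  have hc0R : D ∪ (S \ F0) ⊆ (vs Δ \ C) \ F0 := Finset.union_subset hDR hSR
  obtain ⟨d, hd0⟩ := hD.2.1.2.1
  have hdPQ : d ∈ P ∪ Q := by
    rw [hPQ]
    exact hDR hd0
  rcases Finset.mem_union.1 hdPQ with h1 | h1
  · exact key P Q hPQ hd hQ ht (HP1_sub hc0 hc0R hPQ hd ht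
      ⟨d, Finset.mem_inter.2 ⟨Finset.mem_union_left _ hd0, h1⟩⟩)
  · have hQP : Q ∪ P = (vs Δ \ C) \ F0 := by
      rw [Finset.union_comm]
      exact hPQ
    exact key Q P hQP hd.symm hP (fun t => ht (touch_symm t)) (HP1_sub hc0 hc0R hQP hd.symm
      (fun t => ht (touch_symm t)) ⟨d, Finset.mem_inter.2 ⟨Finset.mem_union_left _ hd0, h1⟩⟩)

/-- **HP1** -/
theorem tHP1 : StmtHP1 := by
  intro V _ _ Δ h hconn A B hf C c hC hc G hG hne
  have hvs : vs (con Δ C c) = insert c (vs Δ \ C) := vs_con h hC.2.1.1 hc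
  obtain ⟨F, hF, rfl⟩ := hG
  rw [conn_con h hC.2.1 hc Finset.sdiff_subset]
  have hmem : ∀ v, v ∈ lft C c (vs (con Δ C c) \ F.image fun v => if v ∈ C then c else v) ↔
      (if v ∈ C then c else v) ∈ insert c (vs Δ \ C) ∧
        (if v ∈ C then c else v) ∉ F.image fun v => if v ∈ C then c else v := by
    intro v
    rw [Ctr_mem_lft, hvs, Finset.mem_sdiff]
  by_cases hFC : ∃ w ∈ F, w ∈ C
  · obtain ⟨w, hwF, hwC⟩ := hFC
    have hcG : c ∈ F.image fun v => if v ∈ C then c else v :=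
      Finset.mem_image.2 ⟨w, hwF, if_pos hwC⟩
    have e1 : lft C c (vs (con Δ C c) \ F.image fun v => if v ∈ C then c else v) =
        (vs Δ \ C) \ (F \ C) := by
      ext v
      rw [hmem]
      by_cases hv : v ∈ C
      · rw [if_pos hv]
        refine iff_of_false (fun h1 => h1.2 hcG) ?_
        rw [Finset.mem_sdiff, Finset.mem_sdiff]
        exact fun h1 => h1.1.2 hv
      · rw [if_neg hv, Finset.mem_sdiff, Finset.mem_sdiff, Finset.mem_sdiff, Finset.mem_insert,
          Finset.mem_sdiff, Finset.mem_image]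
        have hvc : v ≠ c := fun e => hv (e ▸ hc)
        constructor
        · rintro ⟨h1, h2⟩
          refine ⟨h1.resolve_left hvc, fun h3 => h2 ⟨v, h3.1, if_neg hv⟩⟩
        · rintro ⟨h1, h2⟩
          refine ⟨Or.inr h1, ?_⟩
          rintro ⟨u, hu, huv⟩
          by_cases huC : u ∈ C
          · rw [if_pos huC] at huv
            exact hvc huv.symm
          · rw [if_neg huC] at huv
            subst huv
            exact h2 ⟨hu, huC⟩
    have hne' : ((vs Δ \ C) \ (F \ C)).Nonempty := by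
      obtain ⟨u, hu⟩ := hne
      have hu' := hu
      rw [Finset.mem_sdiff, hvs, Finset.mem_insert] at hu
      have huc : u ≠ c := fun e => hu.2 (e ▸ hcG)
      have huC : u ∉ C := (Finset.mem_sdiff.1 (hu.1.resolve_left huc)).2
      refine ⟨u, ?_⟩
      rw [← e1, hmem, if_neg huC]
      exact ⟨Finset.mem_insert_of_mem (hu.1.resolve_left huc), hu.2⟩
    rw [e1]
    have hF0 : F \ C ∈ Δ := h.down F hF _ Finset.sdiff_subset
    have hF0S : F \ C ⊆ nb Δ A := by
      intro v hv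
      rw [Finset.mem_sdiff] at hv
      refine IsComp.nb_sub h hC (h.mem_nb_of hv.2 (touch_single_left.2 ⟨w, hwC, ?_⟩))
      refine h.adj_of_face hF hv.1 hwF ?_
      rintro rfl
      exact hv.2 hwC
    have hAc := hf.comp h
    have hBc : IsComp Δ (vs Δ \ nb Δ A) B := by
      have := hf.symm.comp h
      rwa [← hf.n] at this
    have hS := hf.notMem h hconn
    by_cases hAC : A = C
    · have hBC : B ≠ C := by
        rintro rfl
        obtain ⟨a, ha⟩ := hf.cA.2.1
        exact Finset.disjoint_left.1 hf.d ha (hAC ▸ ha)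
      exact HP1_core h hconn hC hBc hBC hS nb_sub (fun s hs => (hf.com hs).2.2.2) hF0 hF0S hne'
    · exact HP1_core h hconn hC hAc hAC hS nb_sub (fun s hs => (hf.com hs).2.2.1) hF0 hF0S hne'
  · push Not at hFC
    have e1 : lft C c (vs (con Δ C c) \ F.image fun v => if v ∈ C then c else v) = vs Δ \ F := by
      ext v
      rw [hmem, Finset.mem_sdiff]
      have hcF : c ∉ F.image fun v => if v ∈ C then c else v := by
        intro h1
        obtain ⟨u, hu, huc⟩ := Finset.mem_image.1 h1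
        rw [if_neg (hFC u hu)] at huc
        subst huc
        exact hFC _ hu hc
      by_cases hv : v ∈ C
      · rw [if_pos hv]
        exact iff_of_true ⟨Finset.mem_insert_self _ _, hcF⟩ ⟨hC.2.1.1 hv, fun h1 => hFC v h1 hv⟩
      · rw [if_neg hv, Finset.mem_insert, Finset.mem_sdiff, Finset.mem_image]
        have hvc : v ≠ c := fun e => hv (e ▸ hc)
        constructor
        · rintro ⟨h1, h2⟩
          exact ⟨(h1.resolve_left hvc).1, fun h3 => h2 ⟨v, h3, if_neg hv⟩⟩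
        · rintro ⟨h1, h2⟩
          refine ⟨Or.inr ⟨h1, hv⟩, ?_⟩
          rintro ⟨u, hu, huv⟩
          rw [if_neg (hFC u hu)] at huv
          subst huv
          exact h2 hu
    rw [e1]
    exact hconn F hF

end Pool.Agent.Lib.MP_73b196_co.St
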