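import Pool.Agent.Lib.MP_73b196_co.St.HE2

/-!
# Theorem H: no near-face separator inside a minimal one
-/

set_option autoImplicit false

namespace Pool.Agent.Lib.MP_73b196_co.St

theorem tHPI : StmtHPI := by
  intro V _ _ Δ W B x F hE e he X hX hXW heX u Φ hΦ hXn hor
  have hc := hE.bad.inP.cx
  have hconn := hE.bad.conn
  have hfull : Full Δ W B := hE.toFull
  have hn : nb Δ W = nb Δ B := hfull.n
  have hXnW : nb Δ X ⊆ W ∪ nb Δ W := by
    intro v hv
    obtain ⟨h1, h2, h3⟩ := mem_nb.1 hv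
    rw [Finset.mem_union]
    by_cases hvW : v ∈ W
    · exact Or.inl hvW
    · exact Or.inr (hc.mem_nb_of hvW (touch_mono (Finset.Subset.refl _) hXW h3))
  have hBX : ∀ b ∈ B, b ∉ X ∧ b ∉ nb Δ X := by
    intro b hb
    have hbW : b ∉ W := fun h => Finset.disjoint_left.1 hfull.d h hb
    refine ⟨fun h => hbW (hXW h), fun h => ?_⟩
    rcases Finset.mem_union.1 (hXnW h) with h' | h'
    · exact hbW h'
    · rw [hn] at h'
      exact Finset.disjoint_left.1 nb_disj hb h'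
  have hBU : B ⊆ vs Δ \ (X ∪ nb Δ X) := by
    intro b hb
    rw [Finset.mem_sdiff, Finset.mem_union, not_or]
    exact ⟨hfull.cB.1 hb, hBX b hb⟩
  obtain ⟨b0, hb0⟩ := hfull.cB.2.1
  obtain ⟨C', hC', hb0C⟩ := exists_comp Finset.sdiff_subset (hBU hb0)
  have hBC : B ⊆ C' := hC'.sub_of_conn hfull.cB hBU ⟨b0, Finset.mem_inter.2 ⟨hb0, hb0C⟩⟩
  obtain ⟨X', hX'c, hXX', hfull', hsub⟩ := exists_sep hc hX hC'
  obtain ⟨huT, hNF⟩ := HE2_nf hc hconn hfull' hΦ (u := u) (by
    rw [hfull'.n]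
    exact hsub.trans hXn)
  -- the vertices adjacent to C' are not in X'
  have key : ∀ t, touch Δ {t} C' → t ∉ X' := by
    intro t ht htX
    by_cases htC : t ∈ C'
    · exact Finset.disjoint_left.1 hfull'.d htX htC
    · have h1 : t ∈ nb Δ C' := hc.mem_nb_of htC ht
      rw [← hfull'.n] at h1
      exact Finset.disjoint_left.1 nb_disj htX h1
  have hX'W : X' ⊆ W := by
    refine (hfull.comp hc).sub_of_conn hfull'.cA ?_ ?_
    · intro t ht
      rw [Finset.mem_sdiff]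
      refine ⟨hfull'.cA.1 ht, fun h => ?_⟩
      rw [hn] at h
      exact key t (touch_mono (Finset.Subset.refl _) hBC (mem_nb.1 h).2.2) ht
    · obtain ⟨y, hy⟩ := hX.2.1
      exact ⟨y, Finset.mem_inter.2 ⟨hXX' hy, hXW hy⟩⟩
  have hX'eq : X' = W := hE.minW X' C' hNF hX'W
  have heX' : e ∈ X' := by rw [hX'eq]; exact he
  rcases hor with rfl | ⟨C, hC, hBC2, hdis, heC⟩
  · exact Finset.disjoint_left.1 nb_disj heX' huT
  · have hCC' : C ⊆ C' := by
      refine hC'.sub_of_conn hC ?_ ⟨b0, Finset.mem_inter.2 ⟨hBC2 hb0, hb0C⟩⟩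
      intro v hv
      rw [Finset.mem_sdiff]
      exact ⟨hC.1 hv, Finset.disjoint_left.1 hdis hv⟩
    rcases Finset.mem_union.1 heC with h1 | h1
    · exact Finset.disjoint_left.1 hfull'.d heX' (hCC' h1)
    · exact key e (touch_mono (Finset.Subset.refl _) hCC' (mem_nb.1 h1).2.2) heX'

end Pool.Agent.Lib.MP_73b196_co.St
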