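import Pool.Agent.Lib.MP_73b196_co.St.HSpecB

/-!
# The 1-skeleton of a least counterexample is not complete
-/

set_option autoImplicit false

namespace Pool.Agent.Lib.MP_73b196_co.St

variable {V : Type} [Fintype V] [DecidableEq V] {Δ : Set (Finset V)}

theorem HQ1_two {v x y : V} {T : Finset V} (hv : v ∉ T)
    (h : 2 ≤ (({v, x, y} : Finset V) ∩ T).card) : x ∈ T ∧ y ∈ T := by
  by_contra hn
  have h1 : (({v, x, y} : Finset V) ∩ T).card ≤ 1 := by
    rw [Finset.card_le_one]
    intro s hs t ht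
    rw [Finset.mem_inter] at hs ht
    simp only [Finset.mem_insert, Finset.mem_singleton] at hs ht
    obtain ⟨hs1, hs2⟩ := hs
    obtain ⟨ht1, ht2⟩ := ht
    rcases hs1 with e1 | e1 | e1 <;> rcases ht1 with e2 | e2 | e2
    · rw [e1, e2]
    · exact absurd (e1 ▸ hs2) hv
    · exact absurd (e1 ▸ hs2) hv
    · exact absurd (e2 ▸ ht2) hv
    · rw [e1, e2]
    · exact absurd ⟨e1 ▸ hs2, e2 ▸ ht2⟩ hn
    · exact absurd (e2 ▸ ht2) hv
    · exact absurd ⟨e2 ▸ ht2, e1 ▸ hs2⟩ hn
    · rw [e1, e2]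
  omega

theorem HQ1_ren {i j k x y : V} (h : Hol Δ i j k) (hx : x ∈ ({i, j, k} : Finset V))
    (hy : y ∈ ({i, j, k} : Finset V)) (hxy : x ≠ y) :
    ∃ w, Hol Δ x y w ∧ ({x, y, w} : Finset V) = {i, j, k} := by
  simp only [Finset.mem_insert, Finset.mem_singleton] at hx hy
  rcases hx with rfl | rfl | rfl <;> rcases hy with rfl | rfl | rfl
  · exact absurd rfl hxy
  · exact ⟨k, h, rfl⟩
  · exact ⟨j, h.rot.rot.swap, by rw [Finset.pair_comm]⟩
  · exact ⟨k, h.swap, by rw [Finset.insert_comm]⟩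
  · exact absurd rfl hxy
  · exact ⟨i, h.rot, by ext t; simp only [Finset.mem_insert, Finset.mem_singleton]; tauto⟩
  · exact ⟨j, h.rot.rot, by ext t; simp only [Finset.mem_insert, Finset.mem_singleton]; tauto⟩
  · exact ⟨i, h.rot.swap, by ext t; simp only [Finset.mem_insert, Finset.mem_singleton]; tauto⟩
  · exact absurd rfl hxy

theorem HQ1_ef (cx : IsCx Δ) {x y : V} (hxy : adj Δ x y)
    (h : ∀ w ∈ vs Δ, w ≠ x → w ≠ y → ({x, y, w} : Finset V) ∉ Δ) : EdgeFacet Δ x y := by
  refine ⟨hxy.1, hxy.2, ?_⟩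
  intro F hF hxF hyF
  ext w
  simp only [Finset.mem_insert, Finset.mem_singleton]
  constructor
  · intro hw
    by_contra hn
    rw [not_or] at hn
    refine h w (cx.sub_vs hF hw) hn.1 hn.2 (cx.down F hF _ ?_)
    intro t ht
    simp only [Finset.mem_insert, Finset.mem_singleton] at ht
    rcases ht with rfl | rfl | rfl <;> assumption
  · rintro (rfl | rfl) <;> assumption

theorem tHQ1 : StmtHQ1 := by
  intro V _ _ Δ h
  by_contra hn
  have cx := h.inP.cx
  have hall : ∀ x ∈ vs Δ, ∀ y ∈ vs Δ, x ≠ y → adj Δ x y := by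
    intro x hx y hy hxy
    by_contra hc
    exact hn ⟨x, hx, y, hy, hxy, hc⟩
  have hclq : Clq Δ (vs Δ) := ⟨Finset.Subset.refl _, hall⟩
  have hol : ∀ v ∈ vs Δ, ∃ x y, Hol Δ v x y := by
    intro v hv
    by_contra hc
    refine h.noApex v (h.inP.apex_of hv (fun w hw hwv => hall v hv w hw hwv.symm) ?_)
    intro u w huw huv hwv
    by_contra hc2
    obtain ⟨hu, hw⟩ := cx.adj_vs huw
    exact hc ⟨u, w, hall v hv u hu huv.symm, hall v hv w hw hwv.symm, huw, hc2⟩
  have share : ∀ a b c d e f : V, Hol Δ a b c → Hol Δ d e f →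
      2 ≤ (({a, b, c} : Finset V) ∩ {d, e, f}).card := by
    intro a b c d e f h1 h2
    exact h.inP.hol_share hclq (cx.adj_vs h1.1).1 (cx.adj_vs h1.1).2 (cx.adj_vs h1.2.1).2
      (cx.adj_vs h2.1).1 (cx.adj_vs h2.1).2 (cx.adj_vs h2.2.1).2 h1 h2
  obtain ⟨i, hi⟩ := h.ne
  obtain ⟨j, k, hT⟩ := hol i hi
  by_cases hv : ∃ v ∈ vs Δ, v ∉ ({i, j, k} : Finset V)
  · obtain ⟨v, hv, hvT⟩ := hv
    obtain ⟨x, y, hvxy⟩ := hol v hv
    obtain ⟨hx, hy⟩ := HQ1_two hvT (share v x y i j k hvxy hT)
    obtain ⟨k', hk', hTk⟩ := HQ1_ren hT hx hy hvxy.2.2.1.1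
    rw [← hTk] at hvT
    refine h.nchp (chp_of_edgeFacet cx h.conn (HQ1_ef cx hvxy.2.2.1 ?_))
    intro w hw hwx hwy hface
    have hwv : w ≠ v := by
      rintro rfl
      refine hvxy.2.2.2 ?_
      have e : ({w, x, y} : Finset V) = {x, y, w} := by
        ext t
        simp only [Finset.mem_insert, Finset.mem_singleton]
        tauto
      rw [e]
      exact hface
    have hwk : w ≠ k' := by
      rintro rfl
      exact hk'.2.2.2 hface
    obtain ⟨s, t, hwst⟩ := hol w hw
    have hw1 : w ∉ ({x, y, k'} : Finset V) := by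
      simp only [Finset.mem_insert, Finset.mem_singleton, not_or]
      exact ⟨hwx, hwy, hwk⟩
    have hw2 : w ∉ ({v, x, y} : Finset V) := by
      simp only [Finset.mem_insert, Finset.mem_singleton, not_or]
      exact ⟨hwv, hwx, hwy⟩
    have h1 := HQ1_two hw1 (share w s t x y k' hwst hk')
    have h2 := HQ1_two hw2 (share w s t v x y hwst hvxy)
    have key : ∀ r : V, r ∈ ({x, y, k'} : Finset V) → r ∈ ({v, x, y} : Finset V) → r = x ∨ r = y := by
      intro r hr1 hr2
      have hrv : r ≠ v := by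
        rintro rfl
        exact hvT hr1
      simp only [Finset.mem_insert, Finset.mem_singleton] at hr2
      rcases hr2 with e | e | e
      · exact absurd e hrv
      · exact Or.inl e
      · exact Or.inr e
    have hst : s ≠ t := hwst.2.2.1.1
    refine hwst.2.2.2 ?_
    have e : ({w, s, t} : Finset V) = {x, y, w} := by
      rcases key s h1.1 h2.1 with e1 | e1 <;> rcases key t h1.2 h2.2 with e2 | e2
      · exact absurd (e1.trans e2.symm) hst
      · rw [e1, e2]
        ext t
        simp only [Finset.mem_insert, Finset.mem_singleton]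
        tauto
      · rw [e1, e2]
        ext t
        simp only [Finset.mem_insert, Finset.mem_singleton]
        tauto
      · exact absurd (e1.trans e2.symm) hst
    rw [e]
    exact hface
  · refine h.nchp (chp_of_edgeFacet cx h.conn (HQ1_ef cx hT.1 ?_))
    intro w hw hwi hwj hface
    have hwk : w = k := by
      by_contra hwk
      refine hv ⟨w, hw, ?_⟩
      simp only [Finset.mem_insert, Finset.mem_singleton, not_or]
      exact ⟨hwi, hwj, hwk⟩
    rw [hwk] at hface
    exact hT.2.2.2 hface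

end Pool.Agent.Lib.MP_73b196_co.St
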