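import Pool.Agent.Lib.MP_73b196_co.St.HSpecB

/-!
# Theorem H, HQ2: existence of full components and of minimal ones
-/

set_option autoImplicit false

namespace Pool.Agent.Lib.MP_73b196_co.St

theorem tHQ2 : StmtHQ2 := by
  intro V _ _ Δ h
  classical
  refine ⟨?_, ?_⟩
  · intro x hx y hy hxy hn
    have hX : Conn Δ {x} := conn_single hx
    obtain ⟨C, hC, -⟩ := exists_comp (Δ := Δ) (U := vs Δ \ ({x} ∪ nb Δ {x})) (v := y)
      Finset.sdiff_subset (by
        rw [Finset.mem_sdiff, Finset.mem_union, Finset.mem_singleton, not_or]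
        exact ⟨hy, fun e => hxy e.symm, fun e => hn (h.mem_nb_single.1 e)⟩)
    obtain ⟨X', -, -, hf, -⟩ := exists_sep h hX hC
    exact ⟨X', C, hf⟩
  · intro A B hf
    obtain ⟨A', hA', hmin⟩ := Finset.exists_min_image
      (A.powerset.filter fun A' => ∃ B', Full Δ A' B') Finset.card ⟨A, by
        rw [Finset.mem_filter, Finset.mem_powerset]
        exact ⟨Finset.Subset.refl A, B, hf⟩⟩
    rw [Finset.mem_filter, Finset.mem_powerset] at hA'
    obtain ⟨hA'A, B', hf'⟩ := hA'
    refine ⟨A', B', hf', hA'A, fun A'' B'' hf'' hsub => ?_⟩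
    refine Finset.eq_of_subset_of_card_le hsub (hmin A'' ?_)
    rw [Finset.mem_filter, Finset.mem_powerset]
    exact ⟨hsub.trans hA'A, B'', hf''⟩

end Pool.Agent.Lib.MP_73b196_co.St
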