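import Pool.Agent.Lib.MP_73b196_co.St.HSpecB

/-!
# Theorem H, HQ3: minimal full components are cliques with closed neighbourhoods `A + S`
-/

set_option autoImplicit false

namespace Pool.Agent.Lib.MP_73b196_co.St

variable {V : Type} [Fintype V] [DecidableEq V] {Δ : Set (Finset V)} {A B : Finset V} {a : V}

/-- Step (1): `a` is adjacent to all of `nb Δ A`. -/
theorem HQ3_step1 (h : IsCx Δ) (hf : Full Δ A B)
    (hmin : ∀ A' B' : Finset V, Full Δ A' B' → A' ⊆ A → A' = A) (ha : a ∈ A) :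
    nb Δ A ⊆ nb Δ {a} := by
  have hpl := Full.pl h hf
  have hav : a ∈ vs Δ := hf.cA.1 ha
  have hB : B ⊆ vs Δ \ ({a} ∪ nb Δ {a}) := by
    intro b hb
    rw [Finset.mem_sdiff, Finset.mem_union, Finset.mem_singleton, not_or]
    refine ⟨hf.cB.1 hb, ?_, ?_⟩
    · rintro rfl
      exact Finset.disjoint_left.1 hf.d ha hb
    · intro hn
      exact hpl.n ⟨a, ha, b, hb, h.mem_nb_single.1 hn⟩
  obtain ⟨b, hb⟩ := hf.cB.2.1
  obtain ⟨C, hC, hbC⟩ := exists_comp (Δ := Δ) (U := vs Δ \ ({a} ∪ nb Δ {a}))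
    Finset.sdiff_subset (hB hb)
  have hBC : B ⊆ C := hC.sub_of_conn hf.cB hB ⟨b, Finset.mem_inter.2 ⟨hb, hbC⟩⟩
  obtain ⟨X, hXc, haX, hXf, hnb⟩ := exists_sep h (conn_single hav) hC
  have haX' : a ∈ X := haX (Finset.mem_singleton_self a)
  have hXA : X ⊆ vs Δ \ nb Δ A := by
    intro s hs
    rw [Finset.mem_sdiff]
    refine ⟨hXf.cA.1 hs, fun hsA => ?_⟩
    have hsB := Full.com hf hsA
    have hsC : touch Δ {s} C := touch_mono (Finset.Subset.refl _) hBC hsB.2.2.2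
    by_cases hsa : s ∈ nb Δ {a}
    · have hsnC : s ∉ C := by
        intro hsC'
        have := Finset.mem_sdiff.1 (hC.1 hsC')
        exact this.2 (Finset.mem_union_right _ hsa)
      have h1 : s ∈ nb Δ C := h.mem_nb_of hsnC hsC
      rw [← hXf.n] at h1
      exact (mem_nb.1 h1).2.1 hs
    · have hne : s ≠ a := by
        rintro rfl
        exact hsB.1 ha
      have h1 : s ∈ vs Δ \ ({a} ∪ nb Δ {a}) := by
        rw [Finset.mem_sdiff, Finset.mem_union, Finset.mem_singleton, not_or]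
        exact ⟨hXf.cA.1 hs, hne, hsa⟩
      obtain ⟨c, hc, hsc⟩ := touch_single_left.1 hsC
      exact Finset.disjoint_left.1 hXf.d hs (hC.mem_of_adj hc h1 (adj_symm hsc))
  have hXsub : X ⊆ A := (Full.comp h hf).sub_of_conn hXf.cA hXA
    ⟨a, Finset.mem_inter.2 ⟨haX', ha⟩⟩
  have hXeq : X = A := hmin X C hXf hXsub
  subst hXeq
  rw [hXf.n]
  exact hnb

theorem tHQ3 : StmtHQ3 := by
  intro V _ _ Δ h A B hf hmin a ha v hv hva
  have h1 := HQ3_step1 h hf hmin ha
  have hav : a ∈ vs Δ := hf.cA.1 ha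
  rcases Finset.mem_union.1 hv with hv | hv
  · by_contra hn
    have hvU : v ∈ vs Δ \ ({a} ∪ nb Δ {a}) := by
      rw [Finset.mem_sdiff, Finset.mem_union, Finset.mem_singleton, not_or]
      exact ⟨hf.cA.1 hv, hva, fun h2 => hn (h.mem_nb_single.1 h2)⟩
    obtain ⟨C, hC, hvC⟩ := exists_comp (Δ := Δ) (U := vs Δ \ ({a} ∪ nb Δ {a}))
      Finset.sdiff_subset hvU
    obtain ⟨X, _, _, hXf, _⟩ := exists_sep h (conn_single hav) hC
    have hCA : C ⊆ A := by
      refine (Full.comp h hf).sub_of_conn hC.2.1 ?_ ⟨v, Finset.mem_inter.2 ⟨hvC, hv⟩⟩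
      intro s hs
      have h2 := Finset.mem_sdiff.1 (hC.1 hs)
      rw [Finset.mem_sdiff]
      exact ⟨h2.1, fun h3 => h2.2 (Finset.mem_union_right _ (h1 h3))⟩
    have h3 : C = A := hmin C X hXf.symm hCA
    rw [← h3] at ha
    have h4 := Finset.mem_sdiff.1 (hC.1 ha)
    exact h4.2 (Finset.mem_union_left _ (Finset.mem_singleton_self a))
  · exact h.mem_nb_single.1 (h1 hv)

end Pool.Agent.Lib.MP_73b196_co.St
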