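import Pool.Agent.Lib.MP_73b196_co.St.HBas

/-!
# Rules for common neighbours of two nonadjacent connected sets (poles) `A`, `B`

Each rule is a model of `InP.k4`, `InP.k5` or `InP.k6` (see `Rules.lean` for `InP.k4two`, `InP.k4three`,
`InP.k4all`). No face meets `A` and `B` (`Pl.no_face`).
-/

set_option autoImplicit false

namespace Pool.Agent.Lib.MP_73b196_co.St

variable {V : Type} [Fintype V] [DecidableEq V] {Δ : Set (Finset V)} {A B C S F X K : Finset V}
  {a b c d e f p s v w x y z p1 p2 p3 p4 : V}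

/-! ### Auxiliary lemmas -/

/-- Clique models with three sets. -/
theorem HRul_cm3 {A B C : Finset V} (hA : Conn Δ A) (hB : Conn Δ B) (hC : Conn Δ C)
    (hAB : Disjoint A B ∧ touch Δ A B) (hAC : Disjoint A C ∧ touch Δ A C)
    (hBC : Disjoint B C ∧ touch Δ B C) : CM Δ [A, B, C] := by
  refine ⟨?_, ?_⟩
  · intro E hE
    simp only [List.mem_cons, List.not_mem_nil, or_false] at hE
    rcases hE with rfl | rfl | rfl <;> assumption
  · simp only [List.pairwise_cons, List.mem_cons, List.not_mem_nil, or_false, forall_eq_or_imp,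
      forall_eq, false_imp_iff, implies_true, List.Pairwise.nil, and_true]
    exact ⟨⟨hAB, hAC⟩, hBC⟩

/-- Clique models with one more set. -/
theorem HRul_cons {L : List (Finset V)} (hA : Conn Δ A)
    (hL : ∀ B ∈ L, Disjoint A B ∧ touch Δ A B) (h : CM Δ L) : CM Δ (A :: L) := by
  refine ⟨?_, List.pairwise_cons.2 ⟨hL, h.2⟩⟩
  intro E hE
  rcases List.mem_cons.1 hE with rfl | hE
  · exact hA
  · exact h.1 E hE

theorem HRul_pair (h : adj Δ a b) :
    Disjoint ({a} : Finset V) {b} ∧ touch Δ {a} {b} :=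
  ⟨Finset.disjoint_singleton.2 h.1, touch_single.2 h⟩

theorem HRul_vs (h : IsCx Δ) (ht : touch Δ {x} A) : x ∈ vs Δ := by
  obtain ⟨b, _, hb⟩ := touch_single_left.1 ht
  exact (h.adj_vs hb).1

theorem HRul_sing (h : IsCx Δ) (hxA : x ∉ A) (ht : touch Δ {x} A) :
    Conn Δ {x} ∧ (Disjoint A {x} ∧ touch Δ A {x}) ∧ (Disjoint {x} A ∧ touch Δ {x} A) :=
  ⟨conn_single (HRul_vs h ht), ⟨Finset.disjoint_singleton_right.2 hxA, touch_symm ht⟩,
    Finset.disjoint_singleton_left.2 hxA, ht⟩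

/-- The set `B + y` in clique models with `A` and common neighbours. -/
theorem HRul_ins (h : IsCx Δ) (hp : Pl Δ A B) (hy : Com Δ A B y) :
    Conn Δ (insert y B) ∧ (Disjoint A (insert y B) ∧ touch Δ A (insert y B)) ∧
      ∀ x, Com Δ A B x → x ≠ y → Disjoint {x} (insert y B) ∧ touch Δ {x} (insert y B) := by
  refine ⟨hp.cB.insert (HRul_vs h hy.2.2.1) hy.2.2.2, ⟨?_, ?_⟩, ?_⟩
  · rw [Finset.disjoint_insert_right]
    exact ⟨hy.1, hp.d⟩
  · exact touch_mono (Finset.Subset.refl _) (Finset.singleton_subset_iff.2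
      (Finset.mem_insert_self _ _)) (touch_symm hy.2.2.1)
  · intro x hx hxy
    refine ⟨?_, touch_mono (Finset.Subset.refl _) (Finset.subset_insert _ _) hx.2.2.2⟩
    rw [Finset.disjoint_singleton_left, Finset.mem_insert]
    rintro (e | e)
    · exact hxy e
    · exact hx.2.1 e

omit [Fintype V] in
theorem HRul_meet {F : Finset V} (h : (F ∩ insert y B).Nonempty) :
    y ∈ F ∨ (F ∩ B).Nonempty := by
  obtain ⟨w, hw⟩ := h
  rw [Finset.mem_inter, Finset.mem_insert] at hw
  rcases hw.2 with e | e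
  · exact Or.inl (e ▸ hw.1)
  · exact Or.inr ⟨w, Finset.mem_inter.2 ⟨hw.1, e⟩⟩

omit [Fintype V] in
theorem HRul_mem {F : Finset V} (h : (F ∩ {y}).Nonempty) : y ∈ F := by
  obtain ⟨w, hw⟩ := h
  rw [Finset.mem_inter, Finset.mem_singleton] at hw
  exact hw.2 ▸ hw.1

omit [Fintype V] in
theorem HRul_ne {F : Finset V} (h : y ∈ F) : (F ∩ {y}).Nonempty :=
  ⟨y, Finset.mem_inter.2 ⟨h, Finset.mem_singleton_self _⟩⟩

/-- A face which meets `A` and `B + y` contains `y`. -/
theorem HRul_fill (h : IsCx Δ) (hp : Pl Δ A B) {L : List (Finset V)} (hL : A ∈ L)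
    (hf : fill Δ (insert y B :: L)) : fill Δ ({y} :: L) := by
  obtain ⟨F, hF, hFL⟩ := hf
  refine ⟨F, hF, ?_⟩
  intro E hE
  rcases List.mem_cons.1 hE with rfl | hE
  · rcases HRul_meet (hFL _ (List.mem_cons_self ..)) with e | e
    · exact HRul_ne e
    · exact (hp.no_face h hF (hFL A (List.mem_cons_of_mem _ hL)) e).elim
  · exact hFL E (List.mem_cons_of_mem _ hE)

/-- A face which contains `x`, not adjacent to `y`, and meets `B + y`, meets `B`. -/
theorem HRul_fill' (h : IsCx Δ) (hn : ¬ adj Δ x y) (hxy : x ≠ y) {L : List (Finset V)}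
    (hL : {x} ∈ L) (hf : fill Δ (insert y B :: L)) : fill Δ (B :: L) := by
  obtain ⟨F, hF, hFL⟩ := hf
  refine ⟨F, hF, ?_⟩
  intro E hE
  rcases List.mem_cons.1 hE with rfl | hE
  · rcases HRul_meet (hFL _ (List.mem_cons_self ..)) with e | e
    · exact (hn (h.adj_of_face hF (HRul_mem (hFL _ (List.mem_cons_of_mem _ hL))) e hxy)).elim
    · exact e
  · exact hFL E (List.mem_cons_of_mem _ hE)

theorem HRul_not (h : IsCx Δ) (hp : Pl Δ A B) (hxy : x ≠ y) (hn : ¬ adj Δ x y)
    {L : List (Finset V)} (hA : A ∈ L) (hx : {x} ∈ L) (hB : insert y B ∈ L) : ¬ fill Δ L := by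
  rintro ⟨F, hF, hFL⟩
  rcases HRul_meet (hFL _ hB) with e | e
  · exact hn (h.adj_of_face hF (HRul_mem (hFL _ hx)) e hxy)
  · exact hp.no_face h hF (hFL _ hA) e

/-- `x` not adjacent to `y`: `A`, `{x}`, `B + y` is an unfilled triple of a clique model. -/
theorem Pl.r0 (h : InP Δ) (hp : Pl Δ A B) (hx : Com Δ A B x) (hy : Com Δ A B y) (hxy : x ≠ y)
    (hn : ¬ adj Δ x y) : CM Δ [A, {x}, insert y B] ∧ ¬ fill Δ [A, {x}, insert y B] := by
  obtain ⟨c1, d1, d2⟩ := HRul_ins h.cx hp hy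
  obtain ⟨c3, d3, -⟩ := HRul_sing h.cx hx.1 hx.2.2.1
  exact ⟨HRul_cm3 hp.cA c3 c1 d3 d1 (d2 x hx hxy),
    HRul_not h.cx hp hxy hn (by simp) (by simp) (by simp)⟩

private theorem r2aux (h : InP Δ) (hp : Pl Δ A B) (ha : Com Δ A B a) (hb : Com Δ A B b)
    (hc : Com Δ A B c) (ht : Hol Δ a b c) (hs : Com Δ A B s) (has : a ≠ s) : adj Δ a s := by
  by_contra hn
  obtain ⟨c1, d1, d2⟩ := HRul_ins h.cx hp hs
  obtain ⟨ca, da, da'⟩ := HRul_sing h.cx ha.1 ha.2.2.1
  obtain ⟨cb, db, -⟩ := HRul_sing h.cx hb.1 hb.2.2.1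
  obtain ⟨cc, dc, -⟩ := HRul_sing h.cx hc.1 hc.2.2.1
  have hbs : b ≠ s := fun e => hn (e ▸ ht.1)
  have hcs : c ≠ s := fun e => hn (e ▸ ht.2.1)
  have d3 := d2 b hb hbs
  have d4 := d2 c hc hcs
  have hM : CM Δ [{a}, A, insert s B, {b}, {c}] := by
    refine HRul_cons ca ?_ (HRul_cons hp.cA ?_ (HRul_cm3 c1 cb cc ⟨d3.1.symm, touch_symm d3.2⟩
      ⟨d4.1.symm, touch_symm d4.2⟩ (HRul_pair ht.2.2.1)))
    · simp only [List.mem_cons, List.not_mem_nil, or_false, forall_eq_or_imp, forall_eq]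
      exact ⟨da', d2 a ha has, HRul_pair ht.1, HRul_pair ht.2.1⟩
    · simp only [List.mem_cons, List.not_mem_nil, or_false, forall_eq_or_imp, forall_eq]
      exact ⟨d1, db, dc⟩
  rcases h.k5 _ _ _ _ _ hM with hf | hf
  · exact HRul_not h.cx hp has hn (by simp) (by simp) (by simp) hf
  · exact ht.2.2.2 (h.cx.fill_three.1 hf)

/-- If the common neighbours contain a hollow triangle `T = {a, b, c}`, they are pairwise adjacent.
Proof. Case 1: some `t ∈ T` is not adjacent to some common neighbour `s` (`s ∉ T`). K5 with the sets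
`A, {t}, B + s` and the other two vertices of `T`: the unfilled triples `(A, t, B + s)` and `T` share exactly
`{t}`. Case 2: all common neighbours outside `T` are adjacent to all of `T`; so `x, y ∉ T` if `x` is not
adjacent to `y`: K6 with `A, {x}, B + y, {a}, {b}, {c}`. -/
theorem Pl.r2 (h : InP Δ) (hp : Pl Δ A B) (ha : Com Δ A B a) (hb : Com Δ A B b)
    (hc : Com Δ A B c) (ht : Hol Δ a b c) (hx : Com Δ A B x) (hy : Com Δ A B y) (hxy : x ≠ y) :
    adj Δ x y := by
  by_contra hn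
  have hTb : Hol Δ b a c := ⟨adj_symm ht.1, ht.2.2.1, ht.2.1, by
    rw [Finset.insert_comm]
    exact ht.2.2.2⟩
  have hTc : Hol Δ c a b := ⟨adj_symm ht.2.1, adj_symm ht.2.2.1, ht.1, by
    rw [Finset.insert_comm, Finset.pair_comm]
    exact ht.2.2.2⟩
  have hxa : x ≠ a := fun e => hn (e ▸ r2aux h hp ha hb hc ht hy (e ▸ hxy))
  have hxb : x ≠ b := fun e => hn (e ▸ r2aux h hp hb ha hc hTb hy (e ▸ hxy))
  have hxc : x ≠ c := fun e => hn (e ▸ r2aux h hp hc ha hb hTc hy (e ▸ hxy))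
  have hya : y ≠ a := fun e => hn (adj_symm (e ▸ r2aux h hp ha hb hc ht hx (e ▸ hxy.symm)))
  have hyb : y ≠ b := fun e => hn (adj_symm (e ▸ r2aux h hp hb ha hc hTb hx (e ▸ hxy.symm)))
  have hyc : y ≠ c := fun e => hn (adj_symm (e ▸ r2aux h hp hc ha hb hTc hx (e ▸ hxy.symm)))
  obtain ⟨c1, d1, d2⟩ := HRul_ins h.cx hp hy
  obtain ⟨cx, dx, -⟩ := HRul_sing h.cx hx.1 hx.2.2.1
  obtain ⟨ca, da, -⟩ := HRul_sing h.cx ha.1 ha.2.2.1
  obtain ⟨cb, db, -⟩ := HRul_sing h.cx hb.1 hb.2.2.1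
  obtain ⟨cc, dc, -⟩ := HRul_sing h.cx hc.1 hc.2.2.1
  have e1 := d2 a ha hya.symm
  have e2 := d2 b hb hyb.symm
  have e3 := d2 c hc hyc.symm
  have hM : CM Δ [A, {x}, insert y B, {a}, {b}, {c}] := by
    refine HRul_cons hp.cA ?_ (HRul_cons cx ?_ (HRul_cons c1 ?_ (HRul_cm3 ca cb cc
      (HRul_pair ht.1) (HRul_pair ht.2.1) (HRul_pair ht.2.2.1))))
    · simp only [List.mem_cons, List.not_mem_nil, or_false, forall_eq_or_imp, forall_eq]
      exact ⟨dx, d1, da, db, dc⟩
    · simp only [List.mem_cons, List.not_mem_nil, or_false, forall_eq_or_imp, forall_eq]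
      exact ⟨d2 x hx hxy, HRul_pair (adj_symm (r2aux h hp ha hb hc ht hx hxa.symm)),
        HRul_pair (adj_symm (r2aux h hp hb ha hc hTb hx hxb.symm)),
        HRul_pair (adj_symm (r2aux h hp hc ha hb hTc hx hxc.symm))⟩
    · simp only [List.mem_cons, List.not_mem_nil, or_false, forall_eq_or_imp, forall_eq]
      exact ⟨⟨e1.1.symm, touch_symm e1.2⟩, ⟨e2.1.symm, touch_symm e2.2⟩,
        ⟨e3.1.symm, touch_symm e3.2⟩⟩
  rcases h.k6 _ _ _ _ _ _ hM with hf | hf
  · exact HRul_not h.cx hp hxy hn (by simp) (by simp) (by simp) hf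
  · exact ht.2.2.2 (h.cx.fill_three.1 hf)

private theorem r3aux (h : InP Δ) (hp : Pl Δ A B) (hx : Com Δ A B x) (hy : Com Δ A B y)
    (hz : Com Δ A B z) (hw : Com Δ A B w) (hxy : x ≠ y) (hn : ¬ adj Δ x y) (hzy : z ≠ y)
    (hwy : w ≠ y) (hzw : adj Δ z w) (hzx : adj Δ z x) (hwx : adj Δ w x) :
    fill Δ [A, {z}, {w}] := by
  obtain ⟨c1, d1, d2⟩ := HRul_ins h.cx hp hy
  obtain ⟨cx, dx, -⟩ := HRul_sing h.cx hx.1 hx.2.2.1
  obtain ⟨cz, dz, -⟩ := HRul_sing h.cx hz.1 hz.2.2.1
  obtain ⟨cw, dw, -⟩ := HRul_sing h.cx hw.1 hw.2.2.1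
  have e1 := d2 z hz hzy
  have e2 := d2 w hw hwy
  have hM : CM Δ [A, {x}, insert y B, {z}, {w}] := by
    refine HRul_cons hp.cA ?_ (HRul_cons cx ?_ (HRul_cm3 c1 cz cw ⟨e1.1.symm, touch_symm e1.2⟩
      ⟨e2.1.symm, touch_symm e2.2⟩ (HRul_pair hzw)))
    · simp only [List.mem_cons, List.not_mem_nil, or_false, forall_eq_or_imp, forall_eq]
      exact ⟨dx, d1, dz, dw⟩
    · simp only [List.mem_cons, List.not_mem_nil, or_false, forall_eq_or_imp, forall_eq]
      exact ⟨d2 x hx hxy, HRul_pair (adj_symm hzx), HRul_pair (adj_symm hwx)⟩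
  rcases h.k5 _ _ _ _ _ hM with hf | hf
  · exact (HRul_not h.cx hp hxy hn (by simp) (by simp) (by simp) hf).elim
  · exact hf

/-- K5 with `A, {x}, B + y, {z}, {w}`: `(A, x, B + y)` and `(A, z, w)` share exactly `A`. The same with `A`
and `B` exchanged. -/
theorem Pl.r3 (h : InP Δ) (hp : Pl Δ A B) (hx : Com Δ A B x) (hy : Com Δ A B y)
    (hz : Com Δ A B z) (hw : Com Δ A B w) (hxy : x ≠ y) (hn : ¬ adj Δ x y) (hzy : z ≠ y)
    (hwy : w ≠ y) (hzw : adj Δ z w) (hzx : adj Δ z x) (hwx : adj Δ w x) :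
    fill Δ [A, {z}, {w}] ∧ fill Δ [B, {z}, {w}] :=
  ⟨r3aux h hp hx hy hz hw hxy hn hzy hwy hzw hzx hwx,
    r3aux h hp.symm hx.symm hy.symm hz.symm hw.symm hxy hn hzy hwy hzw hzx hwx⟩

private theorem r4aux (h : InP Δ) (hp : Pl Δ A B) (hx : Com Δ A B x) (hy : Com Δ A B y)
    (hz : Com Δ A B z) (hxy : x ≠ y) (hn : ¬ adj Δ x y) (hzx : adj Δ z x) (hzy : adj Δ z y) :
    (fill Δ [A, {x}, {z}] ∨ fill Δ [A, {y}, {z}]) ∧ (fill Δ [A, {x}, {z}] ∨ fill Δ [B, {x}, {z}]) ∧
    (fill Δ [A, {y}, {z}] ∨ fill Δ [B, {x}, {z}]) := by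
  obtain ⟨c1, d1, d2⟩ := HRul_ins h.cx hp hy
  obtain ⟨cx, dx, dx'⟩ := HRul_sing h.cx hx.1 hx.2.2.1
  obtain ⟨cz, dz, dz'⟩ := HRul_sing h.cx hz.1 hz.2.2.1
  have e1 := d2 x hx hxy
  have e2 := d2 z hz hzy.1
  have hM : CM Δ [A, {x}, {z}, insert y B] := by
    refine HRul_cons hp.cA ?_ (HRul_cm3 cx cz c1 (HRul_pair (adj_symm hzx)) e1 e2)
    simp only [List.mem_cons, List.not_mem_nil, or_false, forall_eq_or_imp, forall_eq]
    exact ⟨dx, dz, d1⟩
  have hu : ¬ fill Δ [A, {x}, insert y B] :=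
    HRul_not h.cx hp hxy hn (by simp) (by simp) (by simp)
  have f1 : fill Δ [A, {z}, insert y B] → fill Δ [A, {y}, {z}] := by
    intro hf
    have := HRul_fill (y := y) (L := [A, {z}]) h.cx hp (by simp) (Rules_sub hf (by simp))
    exact Rules_sub this (by simp)
  have f2 : fill Δ [{x}, {z}, insert y B] → fill Δ [B, {x}, {z}] := by
    intro hf
    have := HRul_fill' (B := B) (L := [{x}, {z}]) h.cx hn hxy (by simp) (Rules_sub hf (by simp))
    exact Rules_sub this (by simp)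
  refine ⟨?_, ?_, ?_⟩
  · rcases h.k4 _ _ _ _ hM with hf | hf | hf
    · exact Or.inl hf
    · exact (hu hf).elim
    · exact Or.inr (f1 hf)
  · have hM' : CM Δ [{x}, A, {z}, insert y B] := CM_perm (List.Perm.swap _ _ _) hM
    rcases h.k4 _ _ _ _ hM' with hf | hf | hf
    · exact Or.inl (Rules_sub hf (by simp))
    · exact (hu (Rules_sub hf (by simp))).elim
    · exact Or.inr (f2 hf)
  · by_contra hcon
    push Not at hcon
    have g1 : ¬ fill Δ [A, {z}, insert y B] := fun hf => hcon.1 (f1 hf)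
    have g2 : ¬ fill Δ [{x}, {z}, insert y B] := fun hf => hcon.2 (f2 hf)
    have hM' : CM Δ [insert y B, A, {x}, {z}] := by
      refine CM_perm ?_ hM
      exact (List.perm_append_comm (l₁ := [A, {x}, {z}]) (l₂ := [insert y B]))
    exact h.k4three hM' (fun hf => hu (Rules_sub hf (by simp)))
      (fun hf => g1 (Rules_sub hf (by simp))) (fun hf => g2 (Rules_sub hf (by simp)))

/-- At most one of `Axz, Ayz, Bxz, Byz` is unfilled. K4 with `A, {x}, {z}, B + y` (`(A, x, B + y)` is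
unfilled; `(A, z, B + y)` is filled iff `Ayz` is; `(x, z, B + y)` is filled iff `Bxz` is), and the three
images under `x <-> y`, `A <-> B`. -/
theorem Pl.r4 (h : InP Δ) (hp : Pl Δ A B) (hx : Com Δ A B x) (hy : Com Δ A B y)
    (hz : Com Δ A B z) (hxy : x ≠ y) (hn : ¬ adj Δ x y) (hzx : adj Δ z x) (hzy : adj Δ z y) :
    (fill Δ [A, {x}, {z}] ∨ fill Δ [A, {y}, {z}]) ∧ (fill Δ [A, {x}, {z}] ∨ fill Δ [B, {x}, {z}]) ∧
    (fill Δ [A, {x}, {z}] ∨ fill Δ [B, {y}, {z}]) ∧ (fill Δ [A, {y}, {z}] ∨ fill Δ [B, {x}, {z}]) ∧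
    (fill Δ [A, {y}, {z}] ∨ fill Δ [B, {y}, {z}]) ∧ (fill Δ [B, {x}, {z}] ∨ fill Δ [B, {y}, {z}]) := by
  have hn' : ¬ adj Δ y x := fun e => hn (adj_symm e)
  obtain ⟨a1, a2, a3⟩ := r4aux h hp hx hy hz hxy hn hzx hzy
  obtain ⟨b1, b2, b3⟩ := r4aux h hp hy hx hz hxy.symm hn' hzy hzx
  obtain ⟨c1, -, -⟩ := r4aux h hp.symm hx.symm hy.symm hz.symm hxy hn hzx hzy
  exact ⟨a1, a2, b3, a3, b2, c1⟩

private theorem r5aux (h : InP Δ) (hp : Pl Δ A B) (ha : Com Δ A B a) (hb : Com Δ A B b)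
    (hc : Com Δ A B c) (ht : Hol Δ a b c) (h1 : fill Δ [A, {a}, {b}]) (h2 : fill Δ [A, {a}, {c}])
    (h3 : fill Δ [A, {b}, {c}]) (h4 : fill Δ [B, {b}, {c}]) : False := by
  obtain ⟨c1, d1, d2⟩ := HRul_ins h.cx hp ha
  obtain ⟨cb, db, -⟩ := HRul_sing h.cx hb.1 hb.2.2.1
  obtain ⟨cc, dc, -⟩ := HRul_sing h.cx hc.1 hc.2.2.1
  have e1 := d2 b hb (adj_symm ht.1).1
  have e2 := d2 c hc (adj_symm ht.2.1).1
  have hM : CM Δ [A, insert a B, {b}, {c}] := by
    refine HRul_cons hp.cA ?_ (HRul_cm3 c1 cb cc ⟨e1.1.symm, touch_symm e1.2⟩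
      ⟨e2.1.symm, touch_symm e2.2⟩ (HRul_pair ht.2.2.1))
    simp only [List.mem_cons, List.not_mem_nil, or_false, forall_eq_or_imp, forall_eq]
    exact ⟨d1, db, dc⟩
  have hup : ∀ {L L' : List (Finset V)}, fill Δ L → (∀ E ∈ L', ∃ E' ∈ L, E' ⊆ E) →
      fill Δ L' := by
    rintro L L' ⟨F, hF, hFL⟩ hh
    refine ⟨F, hF, fun E hE => ?_⟩
    obtain ⟨E', hE', hs⟩ := hh E hE
    exact (hFL E' hE').mono (Finset.inter_subset_inter_left hs)
  have hf := h.k4all hM
    (hup h1 (by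
      intro E hE
      simp only [List.mem_cons, List.not_mem_nil, or_false] at hE
      rcases hE with rfl | rfl | rfl
      · exact ⟨_, by simp, Finset.Subset.refl _⟩
      · exact ⟨{a}, by simp, by simp⟩
      · exact ⟨{b}, by simp, Finset.Subset.refl _⟩))
    (hup h2 (by
      intro E hE
      simp only [List.mem_cons, List.not_mem_nil, or_false] at hE
      rcases hE with rfl | rfl | rfl
      · exact ⟨_, by simp, Finset.Subset.refl _⟩
      · exact ⟨{a}, by simp, by simp⟩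
      · exact ⟨{c}, by simp, Finset.Subset.refl _⟩))
    h3
    (hup h4 (by
      intro E hE
      simp only [List.mem_cons, List.not_mem_nil, or_false] at hE
      rcases hE with rfl | rfl | rfl
      · exact ⟨B, by simp, Finset.subset_insert _ _⟩
      · exact ⟨{b}, by simp, Finset.Subset.refl _⟩
      · exact ⟨{c}, by simp, Finset.Subset.refl _⟩))
  obtain ⟨F, hF, hFL⟩ := hf
  rcases HRul_meet (hFL (insert a B) (by simp)) with e | e
  · refine ht.2.2.2 (h.cx.down F hF _ ?_)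
    intro u hu
    simp only [Finset.mem_insert, Finset.mem_singleton] at hu
    rcases hu with rfl | rfl | rfl
    · exact e
    · exact HRul_mem (hFL _ (by simp))
    · exact HRul_mem (hFL _ (by simp))
  · exact hp.no_face h.cx hF (hFL A (by simp)) e

/-- Not all three edges of a hollow triangle of common neighbours are filled with `A`. Proof. Suppose they are.
K4 with `B, {a}, {b}, {c}`: `B` fills at least two edges, say `B` fills `bc` (rename). K4 with
`B + a, {b}, {c}, A`: `(B + a) b c` by `B b c`; `(B + a) b A` by `a b A`; `(B + a) c A` by `a c A`;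
`b c A`. So a face meets all four: it contains `b`, `c`, a vertex of `A` and `a` (then `{a, b, c}` is a face) or
a vertex of `B` (`Pl.no_face`). Contradiction. -/
theorem Pl.r5 (h : InP Δ) (hp : Pl Δ A B) (ha : Com Δ A B a) (hb : Com Δ A B b)
    (hc : Com Δ A B c) (ht : Hol Δ a b c) :
    ¬ (fill Δ [A, {a}, {b}] ∧ fill Δ [A, {a}, {c}] ∧ fill Δ [A, {b}, {c}]) := by
  rintro ⟨h1, h2, h3⟩
  obtain ⟨ca, da, -⟩ := HRul_sing h.cx ha.2.1 ha.2.2.2
  obtain ⟨cb, db, -⟩ := HRul_sing h.cx hb.2.1 hb.2.2.2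
  obtain ⟨cc, dc, -⟩ := HRul_sing h.cx hc.2.1 hc.2.2.2
  have hM : CM Δ [B, {a}, {b}, {c}] := by
    refine HRul_cons hp.cB ?_ (HRul_cm3 ca cb cc (HRul_pair ht.1) (HRul_pair ht.2.1)
      (HRul_pair ht.2.2.1))
    simp only [List.mem_cons, List.not_mem_nil, or_false, forall_eq_or_imp, forall_eq]
    exact ⟨da, db, dc⟩
  have hTb : Hol Δ b a c := ⟨adj_symm ht.1, ht.2.2.1, ht.2.1, by
    rw [Finset.insert_comm]
    exact ht.2.2.2⟩
  have hTc : Hol Δ c a b := ⟨adj_symm ht.2.1, adj_symm ht.2.2.1, ht.1, by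
    rw [Finset.insert_comm, Finset.pair_comm]
    exact ht.2.2.2⟩
  rcases h.k4 _ _ _ _ hM with hf | hf | hf
  · exact r5aux h hp hc ha hb hTc (Rules_sub h2 (by simp)) (Rules_sub h3 (by simp)) h1 hf
  · exact r5aux h hp hb ha hc hTb (Rules_sub h1 (by simp)) h3 h2 hf
  · exact r5aux h hp ha hb hc ht h1 h2 h3 hf

/-- At most one edge of a hollow triangle is not filled with a connected set `A` adjacent to all three
vertices: K4 with `A, {a}, {b}, {c}`. -/
theorem InP.r5' (h : InP Δ) (hA : Conn Δ A) (haA : a ∉ A) (hbA : b ∉ A) (hcA : c ∉ A)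
    (ha : touch Δ {a} A) (hb : touch Δ {b} A) (hc : touch Δ {c} A) (ht : Hol Δ a b c) :
    fill Δ [A, {a}, {b}] ∨ fill Δ [A, {a}, {c}] := by
  obtain ⟨ca, -, da⟩ := HRul_sing h.cx haA ha
  obtain ⟨cb, db, -⟩ := HRul_sing h.cx hbA hb
  obtain ⟨cc, dc, -⟩ := HRul_sing h.cx hcA hc
  have hM : CM Δ [{a}, A, {b}, {c}] := by
    refine HRul_cons ca ?_ (HRul_cm3 hA cb cc db dc (HRul_pair ht.2.2.1))
    simp only [List.mem_cons, List.not_mem_nil, or_false, forall_eq_or_imp, forall_eq]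
    exact ⟨da, HRul_pair ht.1, HRul_pair ht.2.1⟩
  rcases h.k4 _ _ _ _ hM with hf | hf | hf
  · exact Or.inl (Rules_sub hf (by simp))
  · exact Or.inr (Rules_sub hf (by simp))
  · exact (ht.2.2.2 (h.cx.fill_three.1 hf)).elim

omit [Fintype V] in
private theorem fill_up {L L' : List (Finset V)} (h : fill Δ L) (hh : ∀ E ∈ L', ∃ E' ∈ L, E' ⊆ E) :
    fill Δ L' := by
  obtain ⟨F, hF, hFL⟩ := h
  refine ⟨F, hF, fun E hE => ?_⟩
  obtain ⟨E', hE', hs⟩ := hh E hE
  exact (hFL E' hE').mono (Finset.inter_subset_inter_left hs)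

/-- Two opposite edges of a 4-cycle are not both unfilled with `A`. -/
private theorem r6opp (h : InP Δ) (hp : Pl Δ A B) (h1 : Com Δ A B p1) (h2 : Com Δ A B p2)
    (h3 : Com Δ A B p3) (h4 : Com Δ A B p4) (h12 : adj Δ p1 p2) (h23 : adj Δ p2 p3)
    (h34 : adj Δ p3 p4) (h41 : adj Δ p4 p1) (h13 : ¬ adj Δ p1 p3) (h24 : ¬ adj Δ p2 p4)
    (n13 : p1 ≠ p3) (n24 : p2 ≠ p4) : fill Δ [A, {p1}, {p2}] ∨ fill Δ [A, {p3}, {p4}] := by
  by_contra hcon
  push Not at hcon
  obtain ⟨c1, d1, -⟩ := HRul_sing h.cx h1.1 h1.2.2.1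
  obtain ⟨c2, d2, -⟩ := HRul_sing h.cx h2.1 h2.2.2.1
  obtain ⟨c3, d3, -⟩ := HRul_sing h.cx h3.1 h3.2.2.1
  obtain ⟨c4, d4, -⟩ := HRul_sing h.cx h4.1 h4.2.2.1
  have c23 : Conn Δ (insert p2 {p3}) := c3.insert (h.cx.adj_vs h23).1 (touch_single.2 h23)
  have hM : CM Δ [insert p2 {p3}, A, {p1}, {p4}] := by
    refine HRul_cons c23 ?_ (HRul_cm3 hp.cA c1 c4 d1 d4 (HRul_pair (adj_symm h41)))
    simp only [List.mem_cons, List.not_mem_nil, or_false, forall_eq_or_imp, forall_eq]
    refine ⟨⟨?_, ?_⟩, ⟨?_, ?_⟩, ⟨?_, ?_⟩⟩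
    · rw [Finset.disjoint_insert_left, Finset.disjoint_singleton_left]
      exact ⟨h2.1, h3.1⟩
    · exact touch_mono (by simp) (Finset.Subset.refl _) h2.2.2.1
    · rw [Finset.disjoint_singleton_right, Finset.mem_insert, Finset.mem_singleton]
      rintro (e | e)
      · exact h12.1 e
      · exact n13 e
    · exact touch_mono (A := {p2}) (by simp) (Finset.Subset.refl _) (touch_single.2 (adj_symm h12))
    · rw [Finset.disjoint_singleton_right, Finset.mem_insert, Finset.mem_singleton]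
      rintro (e | e)
      · exact n24 e.symm
      · exact h34.1 e.symm
    · exact touch_mono (A := {p3}) (by simp) (Finset.Subset.refl _) (touch_single.2 h34)
  have key : ∀ F ∈ Δ, (F ∩ insert p2 {p3}).Nonempty → p2 ∈ F ∨ p3 ∈ F := by
    intro F _ hFm
    rcases HRul_meet hFm with e | e
    · exact Or.inl e
    · exact Or.inr (HRul_mem e)
  refine h.k4three hM ?_ ?_ ?_
  · rintro ⟨F, hF, hFL⟩
    rcases key F hF (hFL _ (by simp)) with e | e
    · refine hcon.1 ⟨F, hF, ?_⟩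
      intro E hE
      simp only [List.mem_cons, List.not_mem_nil, or_false] at hE
      rcases hE with rfl | rfl | rfl
      · exact hFL _ (by simp)
      · exact hFL _ (by simp)
      · exact HRul_ne e
    · exact h13 (h.cx.adj_of_face hF (HRul_mem (hFL {p1} (by simp))) e n13)
  · rintro ⟨F, hF, hFL⟩
    rcases key F hF (hFL _ (by simp)) with e | e
    · exact h24 (h.cx.adj_of_face hF e (HRul_mem (hFL {p4} (by simp))) n24)
    · refine hcon.2 ⟨F, hF, ?_⟩
      intro E hE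
      simp only [List.mem_cons, List.not_mem_nil, or_false] at hE
      rcases hE with rfl | rfl | rfl
      · exact hFL _ (by simp)
      · exact HRul_ne e
      · exact hFL _ (by simp)
  · rintro ⟨F, hF, hFL⟩
    rcases key F hF (hFL _ (by simp)) with e | e
    · exact h24 (h.cx.adj_of_face hF e (HRul_mem (hFL {p4} (by simp))) n24)
    · exact h13 (h.cx.adj_of_face hF (HRul_mem (hFL {p1} (by simp))) e n13)

/-- `A` fills three edges `p1p2`, `p2p3`, `p3p4` of the 4-cycle: impossible. -/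
private theorem r6aux (h : InP Δ) (hp : Pl Δ A B) (h1 : Com Δ A B p1) (h2 : Com Δ A B p2)
    (h3 : Com Δ A B p3) (h4 : Com Δ A B p4) (h12 : adj Δ p1 p2) (h23 : adj Δ p2 p3)
    (h34 : adj Δ p3 p4) (h41 : adj Δ p4 p1) (h13 : ¬ adj Δ p1 p3) (h24 : ¬ adj Δ p2 p4)
    (n13 : p1 ≠ p3) (n24 : p2 ≠ p4) (f12 : fill Δ [A, {p1}, {p2}]) (f23 : fill Δ [A, {p2}, {p3}])
    (f34 : fill Δ [A, {p3}, {p4}]) : False := by
  obtain ⟨c1, a1, -⟩ := HRul_sing h.cx h1.1 h1.2.2.1
  obtain ⟨c2, a2, -⟩ := HRul_sing h.cx h2.1 h2.2.2.1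
  obtain ⟨c3, a3, -⟩ := HRul_sing h.cx h3.1 h3.2.2.1
  obtain ⟨c4, a4, -⟩ := HRul_sing h.cx h4.1 h4.2.2.1
  have c41 : Conn Δ (insert p4 {p1}) := c1.insert (h.cx.adj_vs h41).1 (touch_single.2 h41)
  -- `B` fills `p2p3` or `p1p2` (r4 at `p2`)
  have hor : fill Δ [B, {p1}, {p2}] ∨ fill Δ [B, {p2}, {p3}] :=
    (Pl.r4 h hp h1 h3 h2 n13 h13 (adj_symm h12) h23).2.2.2.2.2.imp id
      (fun hf => Rules_sub hf (by simp))
  rcases hor with g | g
  · -- `B` fills `p1p2`: K4 with `A`, `B + p3`, `{p4, p1}`, `{p2}`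
    obtain ⟨cB, dB, eB⟩ := HRul_ins h.cx hp h3
    have e2 := eB p2 h2 h23.1
    have hM : CM Δ [A, insert p3 B, insert p4 {p1}, {p2}] := by
      refine HRul_cons hp.cA ?_ (HRul_cm3 cB c41 c2 ⟨?_, ?_⟩ ⟨e2.1.symm, touch_symm e2.2⟩ ⟨?_, ?_⟩)
      · simp only [List.mem_cons, List.not_mem_nil, or_false, forall_eq_or_imp, forall_eq]
        refine ⟨dB, ⟨?_, ?_⟩, a2⟩
        · rw [Finset.disjoint_insert_right, Finset.disjoint_singleton_right]
          exact ⟨h4.1, h1.1⟩
        · exact touch_mono (Finset.Subset.refl _) (B := {p4}) (by simp) a4.2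
      · rw [Finset.disjoint_insert_right, Finset.disjoint_singleton_right, Finset.mem_insert,
          Finset.mem_insert]
        refine ⟨?_, ?_⟩
        · rintro (e | e)
          · exact h34.1 e.symm
          · exact h4.2.1 e
        · rintro (e | e)
          · exact n13 e
          · exact h1.2.1 e
      · exact touch_mono (A := {p3}) (B := {p4}) (by simp) (by simp) (touch_single.2 h34)
      · rw [Finset.disjoint_singleton_right, Finset.mem_insert, Finset.mem_singleton]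
        rintro (e | e)
        · exact n24 e
        · exact h12.1 e.symm
      · exact touch_mono (A := {p1}) (B := {p2}) (by simp) (Finset.Subset.refl _)
          (touch_single.2 h12)
    obtain ⟨F, hF, hFL⟩ := h.k4all hM
      (fill_up f34 (by
        intro E hE
        simp only [List.mem_cons, List.not_mem_nil, or_false] at hE
        rcases hE with rfl | rfl | rfl
        · exact ⟨_, List.mem_cons_self .., Finset.Subset.refl _⟩
        · exact ⟨{p3}, by simp, by simp⟩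
        · exact ⟨{p4}, by simp, by simp⟩))
      (fill_up f23 (by
        intro E hE
        simp only [List.mem_cons, List.not_mem_nil, or_false] at hE
        rcases hE with rfl | rfl | rfl
        · exact ⟨_, List.mem_cons_self .., Finset.Subset.refl _⟩
        · exact ⟨{p3}, by simp, by simp⟩
        · exact ⟨{p2}, by simp, Finset.Subset.refl _⟩))
      (fill_up f12 (by
        intro E hE
        simp only [List.mem_cons, List.not_mem_nil, or_false] at hE
        rcases hE with rfl | rfl | rfl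
        · exact ⟨_, List.mem_cons_self .., Finset.Subset.refl _⟩
        · exact ⟨{p1}, by simp, by simp⟩
        · exact ⟨{p2}, by simp, Finset.Subset.refl _⟩))
      (fill_up g (by
        intro E hE
        simp only [List.mem_cons, List.not_mem_nil, or_false] at hE
        rcases hE with rfl | rfl | rfl
        · exact ⟨B, by simp, by simp⟩
        · exact ⟨{p1}, by simp, by simp⟩
        · exact ⟨{p2}, by simp, Finset.Subset.refl _⟩))
    have m2 : p2 ∈ F := HRul_mem (hFL _ (by simp))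
    rcases HRul_meet (hFL (insert p3 B) (by simp)) with e | e
    · rcases HRul_meet (hFL (insert p4 {p1}) (by simp)) with e' | e'
      · exact h24 (h.cx.adj_of_face hF m2 e' n24)
      · exact h13 (h.cx.adj_of_face hF (HRul_mem e') e n13)
    · exact hp.no_face h.cx hF (hFL A (by simp)) e
  · -- `B` fills `p2p3`: K4 with `A`, `B + {p4, p1}`, `{p2}`, `{p3}`
    have cB : Conn Δ (insert p4 (insert p1 B)) := by
      refine Conn.insert (hp.cB.insert (h.cx.adj_vs h12).1 h1.2.2.2) (h.cx.adj_vs h41).1 ?_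
      exact touch_mono (Finset.Subset.refl _) (B := {p1}) (by simp) (touch_single.2 h41)
    have hM : CM Δ [A, insert p4 (insert p1 B), {p2}, {p3}] := by
      refine HRul_cons hp.cA ?_ (HRul_cm3 cB c2 c3 ⟨?_, ?_⟩ ⟨?_, ?_⟩ (HRul_pair h23))
      · simp only [List.mem_cons, List.not_mem_nil, or_false, forall_eq_or_imp, forall_eq]
        refine ⟨⟨?_, ?_⟩, a2, a3⟩
        · rw [Finset.disjoint_insert_right, Finset.disjoint_insert_right]
          exact ⟨h4.1, h1.1, hp.d⟩
        · exact touch_mono (Finset.Subset.refl _) (B := {p4}) (by simp) a4.2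
      · rw [Finset.disjoint_singleton_right, Finset.mem_insert, Finset.mem_insert]
        rintro (e | e | e)
        · exact n24 e
        · exact h12.1 e.symm
        · exact h2.2.1 e
      · exact touch_mono (A := {p1}) (B := {p2}) (by simp) (Finset.Subset.refl _)
          (touch_single.2 h12)
      · rw [Finset.disjoint_singleton_right, Finset.mem_insert, Finset.mem_insert]
        rintro (e | e | e)
        · exact h34.1 e
        · exact n13 e.symm
        · exact h3.2.1 e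
      · exact touch_mono (A := {p4}) (B := {p3}) (by simp) (Finset.Subset.refl _)
          (touch_single.2 (adj_symm h34))
    obtain ⟨F, hF, hFL⟩ := h.k4all hM
      (fill_up f12 (by
        intro E hE
        simp only [List.mem_cons, List.not_mem_nil, or_false] at hE
        rcases hE with rfl | rfl | rfl
        · exact ⟨_, List.mem_cons_self .., Finset.Subset.refl _⟩
        · exact ⟨{p1}, by simp, by simp⟩
        · exact ⟨{p2}, by simp, Finset.Subset.refl _⟩))
      (fill_up f34 (by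
        intro E hE
        simp only [List.mem_cons, List.not_mem_nil, or_false] at hE
        rcases hE with rfl | rfl | rfl
        · exact ⟨_, List.mem_cons_self .., Finset.Subset.refl _⟩
        · exact ⟨{p4}, by simp, by simp⟩
        · exact ⟨{p3}, by simp, Finset.Subset.refl _⟩))
      f23
      (fill_up g (by
        intro E hE
        simp only [List.mem_cons, List.not_mem_nil, or_false] at hE
        rcases hE with rfl | rfl | rfl
        · exact ⟨B, by simp, by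
            intro u hu
            exact Finset.mem_insert_of_mem (Finset.mem_insert_of_mem hu)⟩
        · exact ⟨{p2}, by simp, Finset.Subset.refl _⟩
        · exact ⟨{p3}, by simp, Finset.Subset.refl _⟩))
    have m2 : p2 ∈ F := HRul_mem (hFL _ (by simp))
    have m3 : p3 ∈ F := HRul_mem (hFL _ (by simp))
    rcases HRul_meet (hFL (insert p4 (insert p1 B)) (by simp)) with e | e
    · exact h24 (h.cx.adj_of_face hF m2 e n24)
    · rcases HRul_meet e with e' | e'
      · exact h13 (h.cx.adj_of_face hF e' m3 n13)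
      · exact hp.no_face h.cx hF (hFL A (by simp)) e'

/-- The common neighbours contain no induced 4-cycle `p1 p2 p3 p4`. Proof. `A` misses at most one edge of the
cycle: two edges with a common vertex by `Pl.r4`; the opposite edges `p1p2`, `p3p4` by K4 with
`A, {p1}, {p2, p3}, {p4}` (unfilled: `(A, p1, {p2,p3})` as `p1` is not adjacent to `p3`, `(A, {p2,p3}, p4)` as
`p2` is not adjacent to `p4`, `(p1, {p2,p3}, p4)`; all three contradict K4), similarly `p2p3`, `p4p1`. The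
same for `B`. So there are three edges filled with `A`, and one of them, which is not opposite to the fourth
edge or is, is filled with `B`: cut the cycle at the three edges filled with `A`; the arcs are `Z1, Z2, Z3`,
choose the names such that the edge between `Z2` and `Z3` is filled with `B`. K4 with `A, B + Z1, Z2, Z3`:
`(A, B + Z1, Z2)`, `(A, B + Z1, Z3)`, `(A, Z2, Z3)` are filled by the three edges, `(B + Z1, Z2, Z3)` by the
edge between `Z2` and `Z3`. A face meeting all four meets `A`, so not `B`, so it contains a vertex of each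
arc: three pairwise adjacent vertices of the 4-cycle, impossible. (Only one arc has two vertices.) -/
theorem Pl.r6 (h : InP Δ) (hp : Pl Δ A B) (h1 : Com Δ A B p1) (h2 : Com Δ A B p2)
    (h3 : Com Δ A B p3) (h4 : Com Δ A B p4) (h12 : adj Δ p1 p2) (h23 : adj Δ p2 p3)
    (h34 : adj Δ p3 p4) (h41 : adj Δ p4 p1) (h13 : ¬ adj Δ p1 p3) (h24 : ¬ adj Δ p2 p4)
    (n13 : p1 ≠ p3) (n24 : p2 ≠ p4) : False := by
  have h31 : ¬ adj Δ p3 p1 := fun e => h13 (adj_symm e)
  have h42 : ¬ adj Δ p4 p2 := fun e => h24 (adj_symm e)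
  have s : ∀ {u v : V}, fill Δ [A, {u}, {v}] → fill Δ [A, {v}, {u}] := fun hf =>
    Rules_sub hf (by simp)
  -- at each vertex
  have a2 : fill Δ [A, {p1}, {p2}] ∨ fill Δ [A, {p2}, {p3}] :=
    (Pl.r4 h hp h1 h3 h2 n13 h13 (adj_symm h12) h23).1.imp id s
  have a3 : fill Δ [A, {p2}, {p3}] ∨ fill Δ [A, {p3}, {p4}] :=
    (Pl.r4 h hp h2 h4 h3 n24 h24 (adj_symm h23) h34).1.imp id s
  have a4 : fill Δ [A, {p3}, {p4}] ∨ fill Δ [A, {p4}, {p1}] :=
    (Pl.r4 h hp h3 h1 h4 n13.symm h31 (adj_symm h34) h41).1.imp id s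
  have a1 : fill Δ [A, {p4}, {p1}] ∨ fill Δ [A, {p1}, {p2}] :=
    (Pl.r4 h hp h4 h2 h1 n24.symm h42 (adj_symm h41) h12).1.imp id s
  have o1 := r6opp h hp h1 h2 h3 h4 h12 h23 h34 h41 h13 h24 n13 n24
  have o2 := r6opp h hp h2 h3 h4 h1 h23 h34 h41 h12 h24 h31 n24 n13.symm
  by_cases f12 : fill Δ [A, {p1}, {p2}]
  · by_cases f23 : fill Δ [A, {p2}, {p3}]
    · by_cases f34 : fill Δ [A, {p3}, {p4}]
      · exact r6aux h hp h1 h2 h3 h4 h12 h23 h34 h41 h13 h24 n13 n24 f12 f23 f34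
      · have f41 := a4.resolve_left f34
        exact r6aux h hp h4 h1 h2 h3 h41 h12 h23 h34 h42 h13 n24.symm n13 f41 f12 f23
    · have f34 := a3.resolve_left f23
      have f41 := o2.resolve_left f23
      exact r6aux h hp h3 h4 h1 h2 h34 h41 h12 h23 h31 h42 n13.symm n24.symm f34 f41 f12
  · have f23 := a2.resolve_left f12
    have f34 := o1.resolve_left f12
    have f41 := a1.resolve_right f12
    exact r6aux h hp h2 h3 h4 h1 h23 h34 h41 h12 h24 h31 n24 n13.symm f23 f34 f41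

end Pool.Agent.Lib.MP_73b196_co.St
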