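import Pool.Agent.Lib.MP_73b196_co.St.HSpecA

/-!
# Theorem H, stage 2: sections 3 to 7 (minimal separators, moplexes, deletion of a moplex)

Statements with complete proofs in the docstrings, one module `St/<Name>.lean` for each, theorem
`Pool.Agent.Lib.MP_73b196_co.St.t<Name>`; the statements under `Uses` are hypotheses of the theorem.
`Bad Δ` is a counterexample of Theorem H with the least number of vertices; `Bad.conn` : every face has a connected
(nonempty) complement. `N(C)` is `nb Δ C`. `x ~ y` is `adj Δ x y`.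
-/

set_option autoImplicit false

namespace Pool.Agent.Lib.MP_73b196_co.St

/-- **HP1** Contracting a component of the complement of a minimal separator gives no face separator. Proof.
`S := nb Δ A`. Let `G` be a face of `con Δ C c`, the image of `F ∈ Δ`, and `R = vs (con Δ C c) \ G` (`vs_con`).
By `conn_con` we must show that `lft C c R` is connected in `Δ`. (1) `c ∉ G`: then `F ∩ C = ∅`, `G = F`,
`lft C c R = vs Δ \ F`, connected. (2) `c ∈ G`: `F0 := F \ C = G \ {c}` is a face; `F` meets `C`, so the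
elements of `F0` are adjacent to `C`, `F0 ⊆ nb Δ C ⊆ S` (`IsComp.nb_sub`). `lft C c R = R = vs Δ \ C \ F0`. `S` is
no face (`Full.notMem`), so `S \ F0` is not empty. Let `D` be one of the full components `A`, `B`
(`Full.comp`), `D ≠ C`. `D ∪ (S \ F0)` is connected (`Conn.attach`). Suppose `R = P ∪ Q` without an edge between
`P` and `Q`, nonempty, `D ∪ (S \ F0) ⊆ P` (`Conn.sub_of_closed`). Let `v ∈ Q`, `E` the component of
`vs Δ \ S` which contains `v` (`exists_comp`). `E ≠ C, D`; `E ⊆ R`, so `E ⊆ Q`. `nb Δ E ⊆ S` is no face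
(`nb_notMem`: the vertices of `D` are neither in `E` nor in `nb Δ E`), so it has an element in `S \ F0 ⊆ P`:
contradiction. -/
def StmtHP1 : Prop := ∀ (V : Type) [Fintype V] [DecidableEq V] (Δ : Set (Finset V)), IsCx Δ →
  (∀ F ∈ Δ, Conn Δ (vs Δ \ F)) → ∀ A B : Finset V, Full Δ A B → ∀ (C : Finset V) (c : V),
  IsComp Δ (vs Δ \ nb Δ A) C → c ∈ C → NS (con Δ C c)

/-- **HP** Uses HP1, HBase. Proof. `S := nb Δ A`. If all components of `vs Δ \ S` have one vertex, `A = {a}`,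
`B = {b}` and `BC Δ S a b` (two adjacent vertices outside `S` would lie in one component): contradiction by
HBase. So let `C0` be a component with at least two vertices, `c ∈ C0`, `Δ' = con Δ C0 c`. `Δ'` is in the class
(`InP.con`), smaller (`vs_con`), `NS` (HP1), has no CHP (`chp_of_con`): `Bad.min` gives a cone vertex `p` of
`Δ'`. `p ∈ S`: otherwise let `q ∈ vs Δ'` be outside `S` and not in the component of `p` (`q = c` if
`p ∉ C0`, `q ∈ A` or `q ∈ B` if `p = c`); `{p, q} ∈ Δ'` lifts to a face of `Δ` which meets two different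
components of `vs Δ \ S`, impossible (`IsComp.pl`, `Pl.no_face`). Now a face `G` of `Δ'` which does not contain
`c` is a face of `Δ`, and if `c ∈ G` some face `F` of `Δ` has `F \ C0 = G \ {c}` and meets `C0`. Apply this to
`insert p G`: `G = {s}`, `G = {s, t}`, `G = {c}`, `G = {s, c}` (`C = C0`), `G = {x}`, `G = {s, x}` with
`x ∈ C` (`C ≠ C0`). -/
def StmtHP : Prop := ∀ (V : Type) [Fintype V] [DecidableEq V] (Δ : Set (Finset V)), Bad Δ →
  ∀ A B : Finset V, Full Δ A B → ∃ p ∈ nb Δ A, (∀ s ∈ nb Δ A, s ≠ p → adj Δ p s) ∧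
    (∀ s ∈ nb Δ A, ∀ t ∈ nb Δ A, adj Δ s t → s ≠ p → t ≠ p → ({p, s, t} : Finset V) ∈ Δ) ∧
    ∀ C, IsComp Δ (vs Δ \ nb Δ A) C → touch Δ {p} C ∧
      ∀ s ∈ nb Δ A, s ≠ p → touch Δ {s} C → fill Δ [C, {p}, {s}]

/-- **HQ1** The 1-skeleton is not complete. Proof. Suppose `Clq Δ (vs Δ)`. Every vertex `v` lies in a hollow
triangle (otherwise it is a cone vertex by `InP.apex_of`). Two hollow triangles share at least two vertices
(`InP.hol_share`). Let `T = {i, j, k}` be a hollow triangle. If there is a vertex `v ∉ T`, its hollow triangle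
shares exactly two vertices with `T`; rename such that it is `{i, j, v}`. Then every vertex `w ∉ {i, j}` satisfies
`{i, j, w} ∉ Δ`: for `w = k, v` clear; for the others the hollow triangle of `w` contains two vertices of `T` and
two vertices of `{i, j, v}`, so it is `{i, j, w}`. If there is no vertex outside `T` the same holds trivially. So
`i j` is an edge facet, `chp_of_edgeFacet`. -/
def StmtHQ1 : Prop := ∀ (V : Type) [Fintype V] [DecidableEq V] (Δ : Set (Finset V)), Bad Δ →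
  ∃ x ∈ vs Δ, ∃ y ∈ vs Δ, x ≠ y ∧ ¬ adj Δ x y

/-- **HQ2** Existence of full components and of minimal ones. Proof. (1) `x, y` not adjacent: `{x}` is connected,
`y ∉ {x} ∪ nb Δ {x}`, let `C` be the component of `y` in `vs Δ \ ({x} ∪ nb Δ {x})`, `exists_sep`. (2) Take the
smallest cardinality. -/
def StmtHQ2 : Prop := ∀ (V : Type) [Fintype V] [DecidableEq V] (Δ : Set (Finset V)), IsCx Δ →
  (∀ x ∈ vs Δ, ∀ y ∈ vs Δ, x ≠ y → ¬ adj Δ x y → ∃ A B, Full Δ A B) ∧
  ∀ A B : Finset V, Full Δ A B → ∃ A' B' : Finset V, Full Δ A' B' ∧ A' ⊆ A ∧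
    ∀ A'' B'' : Finset V, Full Δ A'' B'' → A'' ⊆ A' → A'' = A'

/-- **HQ3** Minimal full components are cliques with `N[a] = A + S`. Proof. (1) Let `a ∈ A`. No vertex of `B` is
in `{a} ∪ nb Δ {a}` (`Full.pl`); let `C` be the component of `vs Δ \ ({a} ∪ nb Δ {a})` which contains `B`
(`exists_comp`, `IsComp.sub_of_conn`). `exists_sep` with `X = {a}`: `X' ∋ a`, `Full Δ X' C`,
`nb Δ C ⊆ nb Δ {a}`. No `s ∈ nb Δ A` is in `X'`: `s` is adjacent to `B ⊆ C`; if `s ∈ nb Δ {a}` then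
`s ∈ nb Δ C = nb Δ X'`, not in `X'`; otherwise `s ∈ C` (component), disjoint from `X'`. So the connected set
`X'` lies in the component `A` of `vs Δ \ nb Δ A` (`Full.comp`); minimality: `X' = A`. So
`nb Δ A = nb Δ C ⊆ nb Δ {a}`: `a` is adjacent to all of `nb Δ A`. (2) Let `a, a' ∈ A`, `a ≠ a'` not adjacent.
Let `C'` be the component of `vs Δ \ ({a} ∪ nb Δ {a})` which contains `a'`. It does not meet
`nb Δ A ⊆ nb Δ {a}`, so `C' ⊆ A`; `a ∉ C'`. `exists_sep` gives `Full Δ X'' C'`, so `C'` is a full component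
(`Full.symm`), contrary to the minimality of `A`. -/
def StmtHQ3 : Prop := ∀ (V : Type) [Fintype V] [DecidableEq V] (Δ : Set (Finset V)), IsCx Δ →
  ∀ A B : Finset V, Full Δ A B → (∀ A' B' : Finset V, Full Δ A' B' → A' ⊆ A → A' = A) →
  ∀ a ∈ A, ∀ v ∈ A ∪ nb Δ A, v ≠ a → adj Δ a v

/-- **HM** Lemma M. Proof. `S := nb Δ A`; the vertices of `S` are common neighbours of the poles `A`, `B`
(`Full.pl`, `Full.com`). Suppose `{a, p, x} ∉ Δ`; then `Hol a p x` (`p ~ x`: if `x ∈ S` by hypothesis, if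
`x ∈ A` by `hcl`). Case 1: `S` is a clique. `A ∪ S` is a clique. `S` is no face (`Full.notMem`), so it
contains a hollow triangle `T` (`InP.mem_of_noHol`), `p ∉ T`, `a ∉ T`; `T` and `{a, p, x}` share at most `x`:
contradiction to `InP.hol_share`. Case 2: `S` is no clique. (i) `x ∈ S` and there is `y ∈ S`, `y ≠ x`, `y` not
adjacent to `x`. K5 with `{x}, {a}, {p}, {a'}, B + y`: `(x, a, p)` is unfilled and `(x, a', B + y)` is unfilled
(`a'` is not adjacent to `B`, `x` not to `y`); all pairs are adjacent (`hcl`; `p ~ y`, so `y ≠ p`).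
(ii) Otherwise `x` is adjacent to all other vertices of `S` (`x ∈ A` or not (i)); let `y, y' ∈ S` be not
adjacent, `y ≠ y'` (`y, y' ≠ p, x`). K5 with `{a}, {p}, {x}, {y}, B + y'`: `(a, p, x)` and `(a, y, B + y')` are
unfilled. -/
def StmtHM : Prop := ∀ (V : Type) [Fintype V] [DecidableEq V] (Δ : Set (Finset V)), InP Δ →
  (∀ F ∈ Δ, Conn Δ (vs Δ \ F)) → ∀ A B : Finset V, Full Δ A B →
  (∀ a ∈ A, ∀ v ∈ A ∪ nb Δ A, v ≠ a → adj Δ a v) → ∀ a ∈ A, ∀ a' ∈ A, a ≠ a' → ∀ p ∈ nb Δ A,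
  (∀ s ∈ nb Δ A, s ≠ p → adj Δ p s) → (∀ s ∈ nb Δ A, ∀ t ∈ nb Δ A, ¬ Hol Δ p s t) →
  ∀ x ∈ A ∪ nb Δ A, x ≠ a → x ≠ p → ({a, p, x} : Finset V) ∈ Δ

/-- **HM2** Proof. Let `F` be a face, `a ∉ F`, `P ∪ Q = vs Δ \ {a} \ F` without an edge between `P` and `Q`,
nonempty (`ns_del_iff`). `vs Δ \ F = P ∪ Q ∪ {a}` is connected, so `a` is adjacent to `P` and to `Q`. The closed
neighbourhood of every `a' ∈ A` is `A ∪ nb Δ A` (a neighbour of `a'` outside `A` is in `nb Δ A`; `hcl`).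
Case 1: some `a' ∈ A`, `a' ≠ a`, `a' ∉ F`; say `a' ∈ P`; `a` is adjacent to some `q ∈ Q`,
`q ∈ A ∪ nb Δ A`, `q ≠ a'`, so `a' ~ q`: contradiction. Case 2: `A \ {a} ⊆ F`. There is `a' ∈ A`,
`a' ≠ a`, `a' ∈ F`, so `F ⊆ A ∪ nb Δ A`, so `F` is disjoint from `B`. `B` is connected, `B ⊆ P` say. `a` is
adjacent to some `q ∈ Q`; `q ∉ A` (all of `A \ {a}` is in `F`), so `q ∈ nb Δ A = nb Δ B` is adjacent to
`B ⊆ P`: contradiction. -/
def StmtHM2 : Prop := ∀ (V : Type) [Fintype V] [DecidableEq V] (Δ : Set (Finset V)), IsCx Δ →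
  (∀ F ∈ Δ, Conn Δ (vs Δ \ F)) → ∀ A B : Finset V, Full Δ A B →
  (∀ a ∈ A, ∀ v ∈ A ∪ nb Δ A, v ≠ a → adj Δ a v) → ∀ a ∈ A, ∀ a' ∈ A, a ≠ a' →
  NS (ind Δ (vs Δ \ {a}))

/-- **HT5** Uses HP, HQ3, HM, HM2. A minimal full component is a single vertex. Proof. Let `a ≠ a'` be in `A`.
HQ3 gives the closed neighbourhoods (`hcl`); `nb Δ {a} = (A \ {a}) ∪ nb Δ A`. HP gives `p ∈ nb Δ A` adjacent to
all of `nb Δ A`, in no hollow triangle in `nb Δ A`. By HM (for `a`, and for every `x ∈ A \ {a}` in the place of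
`a`, with `a` in the place of `a'`) all triples `{a, p, x}`, `{p, x, x'}` with `x ∈ A`, `x' ∈ nb Δ {a}` are
faces; with `{p, s, t} ∈ Δ` for adjacent `s, t ∈ nb Δ A` this gives that `p` dominates `a`
(`InP.dominates`). By HM2 and `Bad.del_apex` there is `q ∈ vs Δ` with `ConesDel Δ a q`. `q` is adjacent to `a'` and
to `B` (or in it), so `q ∈ nb Δ A` (`q ∉ A` because `A` is not adjacent to `B`; `q` is `a'` or adjacent to `a'`).
`q` is adjacent to all of `nb Δ A` and in no hollow triangle in `nb Δ A` (`ConesDel`), so by HM all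
`{a, q, x} ∈ Δ`, `x ∈ nb Δ {a}`, `x ≠ q`. So `q` is a cone vertex of `Δ` (`InP.apex_of`: edges avoiding `a` by
`ConesDel`, edges `a x`), contradiction. -/
def StmtHT5 : Prop := ∀ (V : Type) [Fintype V] [DecidableEq V] (Δ : Set (Finset V)), Bad Δ →
  ∀ A B : Finset V, Full Δ A B → (∀ A' B' : Finset V, Full Δ A' B' → A' ⊆ A → A' = A) →
  ∃ a, A = {a}

/-- **HDom** Uses HP. Proof. HP for `A = {a}`; `{a}` is a component of `vs Δ \ nb Δ {a}` (`Full.comp`), every
`s ∈ nb Δ {a}` touches it, so `{a, p, s} ∈ Δ` (`IsCx.fill_three`). `InP.dominates`. -/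
def StmtHDom : Prop := ∀ (V : Type) [Fintype V] [DecidableEq V] (Δ : Set (Finset V)), Bad Δ →
  ∀ (a : V) (B : Finset V), Mop Δ a B → ∃ p, adj Δ p a ∧ ∀ F ∈ Δ, a ∈ F → insert p F ∈ Δ

/-- **HT6** Lemma Z. Proof. `S := nb Δ {a}`, poles `{a}`, `B`; `a ~ z`. By `Bad.con_apex` the contraction
`Δ' = con Δ {a, z} z` has a cone vertex `c`. Faces of `Δ'`: `mem_con_avoid`, `mem_con_insert` (the contracted
vertex is `z`). No vertex of `B` is adjacent to `a`; `S` contains no hollow triangle (`Pl.r2` for `z`, `v`).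
(1) `c ≠ z`: otherwise let `y ∈ B`, `y ~ v` (`v ∈ S = nb Δ B`): `{v, y} ∈ Δ'`, so `{z, v, y} ∈ Δ'`, so
`{z,v,y} ∈ Δ` or `{a,v,y} ∈ Δ`, but `v` is not adjacent to `z` and `y` not to `a`. (2) `c ≠ a`
(`vs_con_edge`). (3) `F ∈ Δ`, `a, z ∉ F` implies `insert c F ∈ Δ`. (4) `c ~ z`: let `y ∈ B`, `y ~ z`; if
`y = c` clear; otherwise `{z, y} ∈ Δ'` so `{z, y, c} ∈ Δ'`, so `{z,y,c} ∈ Δ` or `{a,y,c} ∈ Δ`, the latter is
impossible. (5) `x ~ z`, `x ≠ a, c`: `{z, x, c} ∈ Δ'`; if not `{z,x,c} ∈ Δ` then `{a,x,c} ∈ Δ`, so `x, c ∈ S`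
and `Hol z x c` in `S` (`x ~ c` by (3)), contradiction. So `{z,x,c} ∈ Δ`. (6) `ConesDel Δ a c`: `F ∈ Δ`,
`a ∉ F`; if `z ∉ F` by (3); if `z ∈ F`: `insert c F` is a clique (4), its triples are faces ((3), (5)):
`InP.clq_mem`. (7) For `t ∈ S`, `t ≠ z`, `t` not adjacent to `z` (`t ≠ c` by (4)): `{a,t} ∈ Δ`, so
`{z, t} ∈ Δ'`, `{z,t,c} ∈ Δ'`, so `{a,t,c} ∈ Δ`. For `t = v`: `c ~ a`, `c ∈ S`. (8) `c` is no cone vertex of
`Δ`, so by (6) and `InP.apex_of` there is `x ∈ S`, `x ≠ c`, with `{a, c, x} ∉ Δ`. For every such `x`: `x = z`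
or `x ~ z` by (7). If `x ~ z`: `Pl.r3` with the nonadjacent pair `z, v` and `c, x` (`c ~ z`, `x ~ z`, `c ~ x`,
both `≠ v`) gives `{a, c, x} ∈ Δ`, contradiction. So `x = z`: `{a,c,z} ∉ Δ` and `{a,c,x} ∈ Δ` for the others. -/
def StmtHT6 : Prop := ∀ (V : Type) [Fintype V] [DecidableEq V] (Δ : Set (Finset V)), Bad Δ →
  ∀ (a : V) (B : Finset V), Mop Δ a B → ∀ z ∈ nb Δ {a}, ∀ v ∈ nb Δ {a}, v ≠ z → ¬ adj Δ z v →
  NS (con Δ {a, z} z) → ∃ c ∈ nb Δ {a}, c ≠ z ∧ ConesDel Δ a c ∧ ({a, c, z} : Finset V) ∉ Δ ∧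
    ∀ x ∈ nb Δ {a}, x ≠ c → x ≠ z → ({a, c, x} : Finset V) ∈ Δ

/-- **HT6b** Uses HT6. At most one such `z`. Proof. HT6 gives `c` for `z` and `c'` for `z'`; `c ≠ c'` since
`{a, c, z'} ∈ Δ` if `z' ≠ c`, and `c ≠ z'` because `c` is adjacent to all vertices except possibly itself
(`ConesDel` and `c ∈ nb Δ {a}`) and `z'` is not (`v'`); similarly `c' ≠ z`. If `z ~ z'`: K5 with `{a}, {c}, {z},
{c'}, {z'}`. Otherwise: K5 with `{a}, {c}, {z}, {c'}, B + z'` (`z ~ B`): `(a, c', B + z')` is unfilled since `a`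
is not adjacent to `B`. -/
def StmtHT6b : Prop := ∀ (V : Type) [Fintype V] [DecidableEq V] (Δ : Set (Finset V)), Bad Δ →
  ∀ (a : V) (B : Finset V), Mop Δ a B → ∀ z ∈ nb Δ {a}, ∀ v ∈ nb Δ {a}, v ≠ z → ¬ adj Δ z v →
  NS (con Δ {a, z} z) → ∀ z' ∈ nb Δ {a}, ∀ v' ∈ nb Δ {a}, v' ≠ z' → ¬ adj Δ z' v' →
  NS (con Δ {a, z'} z') → z = z'

/-- **HT7a** Uses HDom. Proof. By HDom and `Bad.del_apex` there is `k` with `ConesDel Δ a k`. Suppose `S = nb Δ {a}`
is a clique. It is no face, so it contains a hollow triangle `T`; `k ∉ T` (otherwise `T ∈ Δ`). `k` fills all edges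
of `T`. If `k` is not adjacent to `a`: poles `{k}`, `{a}` (`k ≠ a`), the vertices of `T` are common neighbours,
`Pl.r5` with `A = {k}` is contradicted. If `k ~ a`: `k` is no cone vertex of `Δ`, so `{a,k,x} ∉ Δ` for some
`x ∈ S` (`InP.apex_of`, `ConesDel`); `Hol a k x` and `T` lie in the clique `{a} ∪ S` and share at most `x`:
contradiction to `InP.hol_share`. -/
def StmtHT7a : Prop := ∀ (V : Type) [Fintype V] [DecidableEq V] (Δ : Set (Finset V)), Bad Δ →
  ∀ (a : V) (B : Finset V), Mop Δ a B → NS (ind Δ (vs Δ \ {a})) →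
  (∃ k ∈ vs Δ, ConesDel Δ a k) ∧ ¬ Clq Δ (nb Δ {a})

/-- **HT7b** Proof. If `insert z F ∈ Δ` then `FS Δ a (insert z F) P Q`, contrary to `ns_del_iff`. So
`insert a F ∈ Δ` and `F ⊆ nb Δ {a}`. `k` is adjacent to all other vertices of `P ∪ Q`, so `k ∉ P ∪ Q`, `k ≠ a`,
and `k ≠ z` since `v ≠ z` is not adjacent to `z` (`v ≠ a`, `v ∈ nb Δ {a}`): `k ∈ F`. -/
def StmtHT7b : Prop := ∀ (V : Type) [Fintype V] [DecidableEq V] (Δ : Set (Finset V)), Bad Δ →
  ∀ a : V, NS (ind Δ (vs Δ \ {a})) → ∀ z ∈ nb Δ {a}, ∀ v ∈ nb Δ {a}, v ≠ z → ¬ adj Δ z v →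
  ∀ F P Q, CS Δ a z F P Q → insert a F ∈ Δ ∧ F ⊆ nb Δ {a} ∧ ∀ k ∈ vs Δ, ConesDel Δ a k → k ∈ F

/-- **HT7c** The vertices which are not adjacent to `D`. Here `y ∈ D`, `D` is the component of
`(vs Δ \ {a}) \ (nb Δ {a} \ {y})` which contains `y`, `{a, k, y} ∉ Δ` and all `k'` with `ConesDel Δ a k'` are in
`nb Δ {a}`. Proof. `y` is not adjacent to everything: `y` is no `ConesDel` vertex by assumption. Suppose
`v` is not adjacent to `D`. Let `R` be the set of all vertices `≠ a` outside `D` which are not adjacent to `D` and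
not `ConesDel`; `v ∈ R`; let `Q` be the component of `R` which contains `v`. Let `K` be the set of the
`ConesDel` vertices. A neighbour `q ≠ a` of `Q` outside `Q` and `K` is adjacent to `D` (it is not in `D`, and not
in `R`), so `q ∈ nb Δ {a} \ {y}` (otherwise it would belong to the component `D`; `q ≠ y` because `q ∉ D`). Two
different such `q1, q2` are adjacent: otherwise K5 with `D, {a}, {k}, {q1}, Q + q2`: `(D, a, k)` is unfilled
(the only vertex of `D` adjacent to `a` is `y`), `(D, q1, Q + q2)` is unfilled (`Q` is not adjacent to `D`, `q1`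
not to `q2`); pairs: `k` is adjacent to all; `a ~ y`, `a ~ q1, q2`. So the set `N` of these `q` is a clique in
`nb Δ {a}`, which contains no hollow triangle (`Pl.r2`, since `nb Δ {a}` is no clique), so `N ∈ Δ`, and
`N ∪ K ∈ Δ` (add the elements of `K` one by one, `ConesDel`). `N ∪ K` separates `Q` from `y` in
`Δ - a` (`y ∉ K`, `y ∉ N`): `FS`, contradiction to `ns_del_iff`. -/
def StmtHT7c : Prop := ∀ (V : Type) [Fintype V] [DecidableEq V] (Δ : Set (Finset V)), Bad Δ →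
  ∀ (a : V) (B : Finset V), Mop Δ a B → NS (ind Δ (vs Δ \ {a})) → ¬ Clq Δ (nb Δ {a}) →
  (∀ k ∈ vs Δ, ConesDel Δ a k → k ∈ nb Δ {a}) → ∀ k ∈ vs Δ, ConesDel Δ a k →
  ∀ y ∈ nb Δ {a}, y ≠ k → ¬ ConesDel Δ a y → ({a, k, y} : Finset V) ∉ Δ →
  ∀ D, IsComp Δ ((vs Δ \ {a}) \ (nb Δ {a} \ {y})) D → y ∈ D →
  ∀ v ∈ vs Δ, v ≠ a → v ∉ D → ¬ ConesDel Δ a v → touch Δ {v} D

/-- **HT7** Uses HT6, HT6b, HT7a, HT7b, HT7c. `Δ - a` has a face separator for every moplex `a`. Proof. Otherwise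
`NS (ind Δ (vs Δ \ {a}))` (`ns_del_iff`). HT7a: there is `k0` with `ConesDel`, `S := nb Δ {a}` is no clique, so
there are `z1 ≠ z2` in `S` not adjacent; each has a non-neighbour. (a) Some `ConesDel` vertex `k` is not in `S`.
For `z = z1` and `z = z2`: if `NS (con Δ {a, z} z)` fails, `cs_of_con` gives `CS Δ a z F P Q` and by HT7b
`k ∈ F ⊆ S`, contradiction. So both are `NS` and HT6b gives `z1 = z2`, contradiction. (b) All `ConesDel` vertices
are in `S`. `k := k0` is no cone vertex of `Δ`, `k ~ a`, so there is `y ∈ S`, `y ≠ k`, `{a, k, y} ∉ Δ`. Choose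
`z ∈ {z1, z2}`, `z ≠ y`, with its non-neighbour `v`. If `NS (con Δ {a,z} z)`: HT6 gives `c ∈ S` with
`ConesDel Δ a c`, `{a,c,z} ∉ Δ` and `{a,c,x} ∈ Δ` for the other `x`. `k ≠ z` (`k` is adjacent to all). `c ≠ k` (as
`y ≠ z`), `y ≠ c` (`{a, c, k} ∈ Δ` as `k ≠ z`). If `y ~ z`: K5 with `{a}, {k}, {y}, {c}, {z}`; otherwise K5
with `{a}, {k}, {y}, {c}, B + z`: contradiction. So there is `CS Δ a z F P Q` (`cs_of_con`); by HT7b all
`ConesDel` vertices are in `F`, `insert a F ∈ Δ`, so `y ∉ F` (`{a, k, y} ∉ Δ`), in particular `y` is not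
`ConesDel`. Let `D` be the component of `y` in `(vs Δ \ {a}) \ (S \ {y})`. `D` is disjoint from `F ⊆ S` and does
not contain `z`; by HT7c every vertex of `(P ∪ Q) \ D` is adjacent to `D`; `D ⊆ P ∪ Q`, `D` is connected: `D ⊆ P`
say, then every vertex of `Q` is adjacent to `D ⊆ P`, contradiction. -/
def StmtHT7 : Prop := ∀ (V : Type) [Fintype V] [DecidableEq V] (Δ : Set (Finset V)), Bad Δ →
  ∀ (a : V) (B : Finset V), Mop Δ a B → ∃ F P Q, FS Δ a F P Q

/-- **HT7d** Uses HT7. The neighbourhood of a moplex is no clique, and both sides of a face separator of `Δ - a`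
contain a neighbour of `a`. Proof. The second part holds for every vertex `a`: `vs Δ \ F = {a} ∪ P ∪ Q` is
connected (`Bad.conn`). If `nb Δ {a}` is a clique, take `FS Δ a F P Q` (HT7): `a` has a neighbour in `P` and one in
`Q`, they are adjacent, contradiction. -/
def StmtHT7d : Prop := ∀ (V : Type) [Fintype V] [DecidableEq V] (Δ : Set (Finset V)), Bad Δ →
  (∀ (a : V) (F P Q : Finset V), a ∈ vs Δ → FS Δ a F P Q →
    (∃ u ∈ P, adj Δ a u) ∧ ∃ w ∈ Q, adj Δ a w) ∧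
  ∀ (a : V) (B : Finset V), Mop Δ a B → ¬ Clq Δ (nb Δ {a})

end Pool.Agent.Lib.MP_73b196_co.St
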