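import Pool.Agent.Lib.MP_73b196_co.St.HSpecB

/-!
# Theorem H, stage 3: sections 8 and 9 and the theorem

Statements with complete proofs in the docstrings, one module `St/<Name>.lean` for each, theorem
`Pool.Agent.Lib.MP_73b196_co.St.t<Name>`; the statements under `Uses` are hypotheses of the theorem.
`Bad.conn` : every face has a connected (nonempty) complement. `T = nb Δ W`. `x ~ y` is `adj Δ x y`.
-/

set_option autoImplicit false

namespace Pool.Agent.Lib.MP_73b196_co.St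

theorem FS.symm {V : Type} [Fintype V] [DecidableEq V] {Δ : Set (Finset V)} {a : V}
    {F P Q : Finset V} (h : FS Δ a F P Q) : FS Δ a F Q P where
  face := h.face
  na := h.na
  un := by rw [Finset.union_comm]; exact h.un
  d := h.d.symm
  neP := h.neQ
  neQ := h.neP
  nt := fun ht => h.nt (touch_symm ht)

/-- **HE0** From a face separator of `Δ - a` to a component. Proof. `X` is the component of `(vs Δ \ {a}) \ F` which
contains `u` (`exists_comp`, `Conn.sub_of_closed` gives `X ⊆ P`). A neighbour of `X` outside `X` is `a` or in `F`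
(otherwise it would belong to the component). -/
def StmtHE0 : Prop := ∀ (V : Type) [Fintype V] [DecidableEq V] (Δ : Set (Finset V)), IsCx Δ →
  ∀ (a : V) (F P Q : Finset V), FS Δ a F P Q → ∀ u ∈ P, ∃ X, Conn Δ X ∧ u ∈ X ∧ X ⊆ P ∧
    nb Δ X ⊆ insert a F ∧ IsComp Δ ((vs Δ \ {a}) \ F) X

/-- **HE1** Uses HQ2, HT5. Every full component contains a moplex. Proof. HQ2 gives a minimal full component
inside `W`; HT5. -/
def StmtHE1 : Prop := ∀ (V : Type) [Fintype V] [DecidableEq V] (Δ : Set (Finset V)), Bad Δ →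
  ∀ W B : Finset V, Full Δ W B → ∃ e ∈ W, ∃ B', Mop Δ e B'

/-- **HE2** Uses HQ1, HQ2, HE0, HE1, HT7. A minimal near-face separator exists. Proof. HQ1, HQ2, HE1 give a moplex
`e`, HT7 a face separator `FS Δ e F P Q`, HE0 a connected `X ⊆ P` with `nb Δ X ⊆ insert e F`. A vertex `q ∈ Q` is
not in `X ∪ nb Δ X`; let `C` be the component of `vs Δ \ (X ∪ nb Δ X)` which contains `q`; `exists_sep`:
`Full Δ X' C`, `nb Δ C ⊆ nb Δ X ⊆ insert e F`. `nb Δ C = nb Δ X'` is no face (`Full.notMem`), so it contains `e`,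
and `nb Δ X' \ {e} ⊆ F` is a face: `NF Δ X' C`. Choose `NF Δ W B` with `W.card` smallest, `x` from `near`,
`F := nb Δ W \ {x}`; `minW`: a subset of `W` with at least as many elements is `W`. -/
def StmtHE2 : Prop := ∀ (V : Type) [Fintype V] [DecidableEq V] (Δ : Set (Finset V)), Bad Δ →
  ∃ W B x F, Ext Δ W B x F

/-- **HPI** Proof. `nb Δ X ⊆ W ∪ nb Δ W` (a neighbour of `X ⊆ W` is in `W` or in `nb Δ W`), so `B` is disjoint
from `X ∪ nb Δ X` (`B` is disjoint from `W` and from `nb Δ B = nb Δ W`). Let `C'` be the component of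
`vs Δ \ (X ∪ nb Δ X)` which contains `B`; in the second alternative `C ⊆ C'` (connected, contains `B`).
`exists_sep`: `X' ⊇ X`, `IsComp Δ (vs Δ \ nb Δ C') X'`, `Full Δ X' C'`, `T' := nb Δ C' ⊆ nb Δ X ⊆ insert u Φ`.
`T'` is no face (`Full.notMem`), so `u ∈ T'` and `T' \ {u} ⊆ Φ` is a face: `NF Δ X' C'`. `X' ⊆ W`: let
`t ∈ nb Δ W = nb Δ B`; `t` is adjacent to `B ⊆ C'`; so `t ∈ C'` or `t ∈ nb Δ C' = nb Δ X'`; in both cases
`t ∉ X'`. So the connected set `X'`, which meets `W`, lies in the component `W` of `vs Δ \ nb Δ W`. By `minW`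
`X' = W`, so `e ∈ X'`. But `e = u ∈ T' = nb Δ X'`, or `e ∈ C ⊆ C'`, or `e ∈ nb Δ C`, then `e ∈ C'` or
`e ∈ nb Δ C' = nb Δ X'`: in all cases `e ∉ X'`. Contradiction. -/
def StmtHPI : Prop := ∀ (V : Type) [Fintype V] [DecidableEq V] (Δ : Set (Finset V))
  (W B : Finset V) (x : V) (F : Finset V), Ext Δ W B x F → ∀ e ∈ W, ∀ X, Conn Δ X → X ⊆ W → e ∉ X →
  ∀ (u : V) (Φ : Finset V), Φ ∈ Δ → nb Δ X ⊆ insert u Φ →
  (u = e ∨ ∃ C, Conn Δ C ∧ B ⊆ C ∧ Disjoint C (X ∪ nb Δ X) ∧ e ∈ C ∪ nb Δ C) → False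

/-- **H81** Uses HPI, HE0. Proof. `T := nb Δ W = nb Δ B`. Suppose `w ∈ F' ∩ W`. All vertices of the face `F'` are
`w` or adjacent to `w`, so `F' ⊆ W ∪ T`, and `F' ∩ B = ∅`. `B ∪ (T \ F')` is connected (`Conn.attach`) and
contained in `P ∪ Q` (`e ∈ W`); say it is in `P` (`FS.symm`). `Q ⊆ W`: let `q ∈ Q`, `q ∉ W`; `q ∉ T` (as
`T \ F' ⊆ P`); let `E` be the component of `vs Δ \ T` which contains `q`; `E ≠ W`, so `E` is disjoint from `W`
(both are components, `Full.comp`), from `F'` and from `{e}`; so `E ⊆ Q`. `nb Δ E ⊆ T` is no face (`nb_notMem`;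
the vertices of `W` are not in `E ∪ nb Δ E`), so it contains some `t ∉ F'` (`T ∩ F'` is a face), `t ∈ P` is
adjacent to `E ⊆ Q`, contradiction. HE0 (for `FS.symm`) gives a connected `X ⊆ Q ⊆ W`, `e ∉ X`,
`nb Δ X ⊆ insert e F'`. HPI with `u = e`, `Φ = F'`. -/
def StmtH81 : Prop := ∀ (V : Type) [Fintype V] [DecidableEq V] (Δ : Set (Finset V))
  (W B : Finset V) (x : V) (F : Finset V), Ext Δ W B x F → ∀ e ∈ W,
  ∀ F' P Q : Finset V, FS Δ e F' P Q → Disjoint F' W

/-- **H82** Uses HPI, H81, HT7d. Proof. Suppose `T \ F' ⊆ P`, `T = nb Δ W`. `F'` is disjoint from `W` (H81). Let `X`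
be a component of `W \ {e}`. `X ⊆ P ∪ Q`, so `X ⊆ P` or `X ⊆ Q`. `nb Δ X ⊆ {e} ∪ T` (a neighbour of `X` in `W`
outside `X` is `e`). If `X ⊆ Q`, then the elements of `nb Δ X ∩ T` are adjacent to `Q`, so they are not in `P`,
so they are in `F'`: `nb Δ X ⊆ insert e F'`, HPI with `u = e`, contradiction. So `W \ {e} ⊆ P` (`exists_comp`).
By HT7d `e` is adjacent to some `w ∈ Q`; `w ∈ W` or `w ∈ T`; `w ∈ W \ {e} ⊆ P` is impossible; `w ∈ T`,
`w ∉ F'` gives `w ∈ P`, impossible. -/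
def StmtH82 : Prop := ∀ (V : Type) [Fintype V] [DecidableEq V] (Δ : Set (Finset V))
  (W B : Finset V) (x : V) (F : Finset V), Ext Δ W B x F → ∀ e ∈ W,
  ∀ F' P Q : Finset V, FS Δ e F' P Q → ¬ nb Δ W \ F' ⊆ P

/-- **H82b** Uses H82. Proof. `F \ F'` is a set of pairwise adjacent vertices in `P ∪ Q` (`e ∈ W` is not in
`F ⊆ nb Δ W`), so it lies in `P` or in `Q`. By H82 (also for `FS.symm`) `nb Δ W \ F'` is neither in `P` nor in
`Q`. So `x ∉ F'`, `F \ F'` is not empty and lies on the other side than `x`. -/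
def StmtH82b : Prop := ∀ (V : Type) [Fintype V] [DecidableEq V] (Δ : Set (Finset V))
  (W B : Finset V) (x : V) (F : Finset V), Ext Δ W B x F → ∀ e ∈ W,
  ∀ F' P Q : Finset V, FS Δ e F' P Q → x ∉ F' ∧ (F \ F').Nonempty ∧
    ((x ∈ P ∧ F \ F' ⊆ Q) ∨ (x ∈ Q ∧ F \ F' ⊆ P))

/-- **H83** Proof. `X`, `C` are poles (`Full.pl`), the elements of `N := nb Δ X = {e, x} ∪ F1` are common
neighbours. `F1 ⊆ insert f2 F1` is a face. Two vertices of different poles are not adjacent; `f2 ∈ C`.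
(1) `N` is no clique. Then `N` contains no hollow triangle (`Pl.r2`), so `insert e F1`, which is no face, is no
clique (`InP.mem_of_noHol`), so some `f ∈ F1` is not adjacent to `e`; similarly some `g ∈ F1` is not adjacent to
`x`. Sets: `X`, `B + x`, `{e, f2}`, `{f}`, `{g}`: connected; `X` is adjacent to `x, e, f, g`; `B + x` is adjacent to
`f2` (`f2` touches `B`), to `f` and `g` (they touch `B`); `{e, f2}` is adjacent to `f`, `g` through `f2`. They are
disjoint. `(X, B + x, g)` is unfilled (`x` not `~ g`, `X` not adjacent to `B`), `(X, {e,f2}, f)` is unfilled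
(`e` not `~ f`, `X` not adjacent to `f2`). If `f ≠ g`: K5 (they share exactly `X`). If `f = g`: K4 with `X`, `{f}`,
`B + x`, `{e, f2}`: these two are unfilled, so `(X, B + x, {e, f2})` is filled (`InP.k4two`), by a face which
contains `x` and `e`: `x ~ e`. K4 with `X + f`, `{x}`, `{e}`, `B + f2`: pairs: `X ~ x`, `X ~ e`, `f ~ f2`,
`x ~ e`, `x ~ B`, `e ~ f2`; `(X+f, x, B+f2)` unfilled: `x` is not adjacent to `f` and `f2`, `X` not to
`B + f2`; `(X+f, e, B+f2)` unfilled: `e` is not adjacent to `f` and `B`, `X` not to `f2`; `(x, e, B+f2)`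
unfilled: `x` is not adjacent to `f2`, `e` not to `B`. Three unfilled triples: contradiction.
(2) `N` is a clique. `insert e F1` is a clique and no face, `F1` is a face, so there is a hollow triangle
`e f f'` with `f, f' ∈ F1` (`InP.mem_of_noHol`); similarly `x g g'`, `g, g' ∈ F1`; by `InP.hol_share`
`{g, g'} = {f, f'}`. `(C, f, f')` is filled by `{f2, f, f'}`. By `Pl.r5` (poles `C`, `X`) `C` misses `e f` or
`e f'`, say `e f` (rename). K5 with `{f}`, `C`, `{e}`, `{x}`, `{f'}`: `(f, C, e)` and `(f, x, f')` are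
unfilled. -/
def StmtH83 : Prop := ∀ (V : Type) [Fintype V] [DecidableEq V] (Δ : Set (Finset V)), InP Δ →
  ∀ (X C B F1 : Finset V) (e x f2 : V), Full Δ X C → nb Δ X = insert e (insert x F1) → e ≠ x →
  e ∉ F1 → x ∉ F1 → Conn Δ B → B ⊆ C → f2 ∈ C → f2 ∉ B → touch Δ {f2} B → adj Δ e f2 → ¬ adj Δ x f2 →
  ¬ touch Δ {e} B → touch Δ {x} B → (∀ f ∈ F1, touch Δ {f} B) → insert f2 F1 ∈ Δ →
  insert e F1 ∉ Δ → insert x F1 ∉ Δ → False

/-- **H84** Uses HPI, H81, H82b, H83, HT7. `W = {e}`. Proof. HT7 gives `FS Δ e F' P Q`; by H82b we may assume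
`x ∈ P`, `F2 := F \ F' ⊆ Q`, not empty, `x ∉ F'` (`FS.symm`). `T := nb Δ W = insert x F`. `F'` is disjoint from `W`
(H81). Suppose `W ≠ {e}`. Let `X` be a component of `W \ {e}`; `e ∈ nb Δ X` (`Conn.comp_touch`);
`nb Δ X ⊆ {e} ∪ T`; `X ⊆ P` or `X ⊆ Q`. (i) `X ⊆ P`: if `X ⊆ Q` then `x ∈ P` is not adjacent to `X`, so
`nb Δ X ⊆ insert e F`, HPI with `u = e`, `Φ = F`. (ii) `x ∈ nb Δ X`, otherwise the same. (iii) `nb Δ X` is
disjoint from `F2 ⊆ Q`. Put `F1 := nb Δ X ∩ F ⊆ F ∩ F'`; `nb Δ X = {e, x} ∪ F1`. (iv) Let `f2 ∈ F2`: it is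
adjacent to a vertex of `W`; this vertex is `e`, because all others are in `P` by (i) (applied to their
components) and `f2 ∈ Q`. `f2` is adjacent to `B` (`F ⊆ T = nb Δ B`), not to `x ∈ P`. (v) `B ∪ {f2}` is
connected, contains `B`, is disjoint from `X ∪ nb Δ X`, and `e` is adjacent to it. So by HPI (second alternative)
`nb Δ X` is not contained in `insert u Φ` for any `u` and any face `Φ`: `insert e F1 ∉ Δ` (`u = x`) and
`insert x F1 ∉ Δ` (`u = e`). (vi) Let `C` be the component of `vs Δ \ (X ∪ nb Δ X)` which contains `B ∪ {f2}`.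
`nb Δ C = nb Δ X`: `⊆` because `C` is a component; `e` is adjacent to `f2`, `x` and the elements of `F1` are in
`T = nb Δ B`, so they are adjacent to `B ⊆ C`. So `Full Δ X C`. `e ∈ W` is not adjacent to `B` (`Full.pl`).
`insert f2 F1 ⊆ F` is a face. H83. -/
def StmtH84 : Prop := ∀ (V : Type) [Fintype V] [DecidableEq V] (Δ : Set (Finset V))
  (W B : Finset V) (x : V) (F : Finset V), Ext Δ W B x F → ∀ e ∈ W, ∀ B', Mop Δ e B' → W = {e}

/-- The last situation: `v` is a moplex, `nb Δ {v} = x + F` with a face `F`; every face separator of `Δ - v`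
separates `x` from the rest of `F`. -/
structure Lst {V : Type} [Fintype V] [DecidableEq V] (Δ : Set (Finset V)) (v : V) (B : Finset V)
    (x : V) (F : Finset V) : Prop where
  bad : Bad Δ
  mop : Mop Δ v B
  xF : x ∉ F
  face : F ∈ Δ
  eq : nb Δ {v} = insert x F
  sep : ∀ F' P Q : Finset V, FS Δ v F' P Q → x ∉ F' ∧ (F \ F').Nonempty ∧
    ((x ∈ P ∧ F \ F' ⊆ Q) ∨ (x ∈ Q ∧ F \ F' ⊆ P))

/-- **H90** Uses HE1, HE2, H82b, H84. Proof. HE2, HE1 for the full component `W`, H84: `W = {e}`; so `Full Δ {e} B`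
and H82b. -/
def StmtH90 : Prop := ∀ (V : Type) [Fintype V] [DecidableEq V] (Δ : Set (Finset V)), Bad Δ →
  ∃ v B x F, Lst Δ v B x F

/-- **H91** Uses HT7, HT7d. The rest `R = (vs Δ \ {v}) \ nb Δ {v}` is connected and equal to `B`. Proof. `B ⊆ R`
is a component of `vs Δ \ nb Δ {v}` (`Full.comp`). Suppose `R ≠ B`; let `E` be the component of
`vs Δ \ nb Δ {v}` of a vertex of `R \ B`, `E ≠ B`, `E ≠ {v}`. `S := nb Δ {v} = insert x F` is no clique (HT7d), so it
contains no hollow triangle (`Pl.r2`, poles `{v}`, `B`). `nb Δ E ⊆ S` is no face (`nb_notMem`), so it is no clique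
(`InP.mem_of_noHol`): it contains `x` and some `f ∈ F` not adjacent to `x` (`F` is a clique). Let `y ∈ F`,
`y ≠ f`. K4 with `{x}`, `E + f`, `{v}`, `B + y`: pairs: `x ~ E`, `x ~ v`, `x ~ B`, `f ~ v`, `f ~ B`, `v ~ y`.
`(x, E + f, v)` is unfilled (`x` not `~ f`, `E` not adjacent to `v`). If `x` is not adjacent to `y`:
`(x, E + f, B + y)` is unfilled (`E`, `B` are not adjacent) and `(x, v, B + y)` is unfilled (`v` is not adjacent
to `B`): contradiction to `InP.k4three`. So `x ~ y`: `f` is the only vertex of `F` not adjacent to `x`. HT7: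
`FS Δ v F' P Q`; by `Lst.sep` (and `FS.symm`) `x ∈ P`, `∅ ≠ F \ F' ⊆ Q`, so no vertex of `F \ F'` is adjacent to
`x`: `F \ F' = {f}`, `f ∈ Q`. `B` is connected and adjacent to `x` and `f`, so it meets `F'`; the same for `E`
(`v ∉ B, E`). So `F'` contains adjacent vertices of `B` and `E` (or `B ∩ E ≠ ∅`), contradiction. -/
def StmtH91 : Prop := ∀ (V : Type) [Fintype V] [DecidableEq V] (Δ : Set (Finset V)) (v : V)
  (B : Finset V) (x : V) (F : Finset V), Lst Δ v B x F → B = (vs Δ \ {v}) \ nb Δ {v}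

/-- **H92** Uses H91, HT7d. The contraction of `v x` has no face separator, and `x` has a non-neighbour in `F`.
Proof. The second part: `nb Δ {v} = insert x F` is no clique (HT7d), `F` is a clique. First part: otherwise
(`cs_of_con`) `CS Δ v x F0 P Q`. If `insert x F0 ∈ Δ` then `FS Δ v (insert x F0) P Q`, contrary to `Lst.sep`
(`x ∉ F'`). So `insert v F0 ∈ Δ` and `F0 ⊆ nb Δ {v}`, `x ∉ F0`: `F0 ⊆ F`. `P ∪ Q = B ∪ (F \ F0)` (H91) is
connected (`Conn.attach`, all of `F` touches `B`): contradiction. -/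
def StmtH92 : Prop := ∀ (V : Type) [Fintype V] [DecidableEq V] (Δ : Set (Finset V)) (v : V)
  (B : Finset V) (x : V) (F : Finset V), Lst Δ v B x F → NS (con Δ {v, x} x) ∧
    ∃ f ∈ F, ¬ adj Δ x f

/-- `Y` is a connected set containing `x`, not `v`, whose neighbourhood is a face plus `v`, and which does not reach
everything. -/
def SY {V : Type} [Fintype V] [DecidableEq V] (Δ : Set (Finset V)) (v x : V) (Y : Finset V) : Prop :=
  Conn Δ Y ∧ x ∈ Y ∧ v ∉ Y ∧ nb Δ Y \ {v} ∈ Δ ∧ ((vs Δ \ {v}) \ (Y ∪ nb Δ Y)).Nonempty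

/-- `Y` is a set as in `SY` with the largest `|Y ∪ nb Y|`, and among these with the largest `|Y|`. -/
def MY {V : Type} [Fintype V] [DecidableEq V] (Δ : Set (Finset V)) (v x : V) (Y : Finset V) : Prop :=
  SY Δ v x Y ∧ ∀ Y', SY Δ v x Y' → (Y' ∪ nb Δ Y').card ≤ (Y ∪ nb Δ Y).card ∧
    ((Y' ∪ nb Δ Y').card = (Y ∪ nb Δ Y).card → Y'.card ≤ Y.card)

/-- **H93** Uses HE0, HT7. Proof. (1) `SY` gives the face separator: the neighbours of `Y` except `v` are in the
face; (2) from a face separator with `x ∈ P`: HE0 with `u = x` gives `X` with `nb Δ X ⊆ insert v F'`; a vertex of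
`Q` is not in `X ∪ nb Δ X`; (3) by HT7, `Lst.sep`, `FS.symm` and (2) there is a `Y` with `SY`; choose one with the
largest value of `|Y ∪ nb Y| * (|vs Δ| + 1) + |Y|`. -/
def StmtH93 : Prop := ∀ (V : Type) [Fintype V] [DecidableEq V] (Δ : Set (Finset V)) (v : V)
  (B : Finset V) (x : V) (F : Finset V), Lst Δ v B x F →
  (∀ Y, SY Δ v x Y → FS Δ v (nb Δ Y \ {v}) Y ((vs Δ \ {v}) \ (Y ∪ nb Δ Y))) ∧
  (∀ F' P Q : Finset V, FS Δ v F' P Q → x ∈ P → ∃ Y, SY Δ v x Y ∧ Y ⊆ P ∧ nb Δ Y ⊆ insert v F' ∧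
    IsComp Δ ((vs Δ \ {v}) \ F') Y) ∧
  ∃ Y, MY Δ v x Y

/-- **H94** Uses H93. `F# := nb Δ Y \ {v}`, `f ∈ F \ F#`. Proof. `f ∉ Y` since by H93 (1) and `Lst.sep`
`F \ F#` lies on the other side than `x` (`x ∈ Y`); so `f` is not adjacent to `x`. Let `CS Δ v f F0 P Q`. (1)
`insert f F0 ∈ Δ`: otherwise `insert v F0 ∈ Δ`, so `F0 ⊆ nb Δ {v} = insert x F`. `c ∈ F0`: `c` is adjacent to all
vertices of `P ∪ Q` (`ConesDel`), so it is not in `P ∪ Q`; `c ≠ v`; `c ≠ f` because `c ~ x`. `x ∈ F0`,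
otherwise `insert f F0 ⊆ F` is a face. So `{v, c, x} ⊆ insert v F0` is a face, contradiction. (2) So
`F' := insert f F0` is a face and `FS Δ v F' P Q`. By `Lst.sep` `x ∉ F'`; let `x ∈ P` (`FS.symm`). H93 (2) gives
`Y'` with `SY Δ v x Y'`, `Y' ⊆ P`, `nb Δ Y' ⊆ insert v F'`, `Y'` a component of `(vs Δ \ {v}) \ F'`. `F'` is
disjoint from `Y`: its vertices are `f` or adjacent to `f`, and `f` is not in `Y ∪ nb Δ Y`. So the connected set
`Y` (it contains `x` and lies in `(vs Δ \ {v}) \ F'`) is contained in `Y'`. `Y ∪ nb Δ Y ⊆ Y' ∪ nb Δ Y'`. By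
`MY` the cardinalities are equal and `Y'.card ≤ Y.card`, so `Y' = Y`. Hence every `g ∈ F#` is in `F'`: otherwise
`g ∈ (vs Δ \ {v}) \ F'` is adjacent to `Y = Y'`, so `g ∈ Y' = Y`, impossible. So `insert f F# ⊆ F'` is a face.
By `Lst.sep` `F \ F'` is not empty: `f' ∈ F`, `f' ∉ F'`, so `f' ≠ f`, `f' ∉ F#`. -/
def StmtH94 : Prop := ∀ (V : Type) [Fintype V] [DecidableEq V] (Δ : Set (Finset V)) (v : V)
  (B : Finset V) (x : V) (F : Finset V), Lst Δ v B x F → ∀ Y, MY Δ v x Y → ∀ c ∈ F, ConesDel Δ v c →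
  ({v, c, x} : Finset V) ∉ Δ → ∀ f ∈ F, f ∉ nb Δ Y → ∀ F0 P Q : Finset V, CS Δ v f F0 P Q →
  insert f (nb Δ Y \ {v}) ∈ Δ ∧ ∃ f' ∈ F, f' ≠ f ∧ f' ∉ nb Δ Y

/-- **H95** Uses H93, HT5. Proof. `F# := nb Δ Y \ {v}`, `F2 := F \ F# = F \ nb Δ Y` (`v ∉ F`). By H93 (1) and
`Lst.sep` `F2` is disjoint from `Y`, and lies in `Q := (vs Δ \ {v}) \ (Y ∪ nb Δ Y)`, no vertex of `F2` is adjacent
to `Y`. `v ∈ nb Δ Y` (`v ~ x`). `F2 ∪ F#` is a clique. It is a face (`InP.mem_of_noHol`): let `g f f'` be a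
hollow triangle in it; not all three in `F`; not two of them in `F#` (`insert f F# ∈ Δ`); so (rename) `g ∈ F#`,
`g ∉ F`, `f, f' ∈ F2`; `g ≠ x`, so `g` is not adjacent to `v` (`nb Δ {v} = insert x F`). K4 with `{g}`, `Y + v`,
`{f}`, `{f'}`: `g ~ Y`, `v ~ f, f'`; `(g, Y+v, f)`, `(g, Y+v, f')` are unfilled (`v` not `~ g`, `Y` not adjacent to
`f, f'`), `(g, f, f')` is unfilled: contradiction (`InP.k4three`). `nb Δ (Y + v) ⊆ F2 ∪ F#`; `Y + v` is
connected; by `nb_notMem` (a subset of a face is a face) `vs Δ = Y ∪ {v} ∪ F2 ∪ F#`; so `Q = F2`. Now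
`Full Δ F2 Y`: `F2` is a nonempty clique; `nb Δ F2 = insert v F#` (all of `F#` is adjacent to `F2`, `v ~ f`; no
other vertices), `nb Δ Y = insert v F#`. `F2` is minimal: let `Full Δ A' B'`, `A' ⊆ F2`, and suppose
`f' ∈ F2 \ A'`; let `f ∈ A'`. `f' ~ f`, so `f' ∈ nb Δ A' = nb Δ B'`, `f'` is adjacent to some `h ∈ B'`;
`h ∈ F2 ∪ F# ∪ {v}` (no vertex of `Y` is adjacent to `f'`), so `h = f` or `h ~ f`: then `h ∈ A'` or
`h ∈ nb Δ A' = nb Δ B'`, both impossible for `h ∈ B'`. HT5: `F2` is a single vertex, contrary to the two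
elements. -/
def StmtH95 : Prop := ∀ (V : Type) [Fintype V] [DecidableEq V] (Δ : Set (Finset V)) (v : V)
  (B : Finset V) (x : V) (F : Finset V), Lst Δ v B x F → ∀ Y, SY Δ v x Y →
  (∀ f ∈ F, f ∉ nb Δ Y → insert f (nb Δ Y \ {v}) ∈ Δ) →
  (∃ f ∈ F, f ∉ nb Δ Y ∧ ∃ f' ∈ F, f' ≠ f ∧ f' ∉ nb Δ Y) → False

/-- **H9** Uses HT6, HT6b, H92, H93, H94, H95. Proof. H92: `NS (con Δ {v,x} x)` and `x` has a non-neighbour; HT6
with `a = v`, `z = x`: `c ∈ nb Δ {v}`, `c ≠ x`, so `c ∈ F`, `ConesDel Δ v c`, `{v, c, x} ∉ Δ`. H93: `MY Δ v x Y`.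
By H93 (1) and `Lst.sep` there is `f0 ∈ F \ nb Δ Y`, and no vertex of `F \ nb Δ Y` is adjacent to `x`. If
`NS (con Δ {v, f} f)` for some `f ∈ F \ nb Δ Y`: HT6b with `z = x`, `z' = f` (nonadjacent to each other) gives
`x = f`, contradiction. So for all these `f` there is `CS Δ v f F0 P Q` (`cs_of_con`), H94; then H95. -/
def StmtH9 : Prop := ∀ (V : Type) [Fintype V] [DecidableEq V] (Δ : Set (Finset V)) (v : V)
  (B : Finset V) (x : V) (F : Finset V), Lst Δ v B x F → False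

/-- **TH** Uses H90, H9. Theorem H. Proof. Otherwise there is a counterexample with the smallest number of vertices:
it is `Bad`. H90, H9. -/
def StmtTH : Prop := ∀ (V : Type) [Fintype V] [DecidableEq V] (Δ : Set (Finset V)), InP Δ →
  (vs Δ).Nonempty → NS Δ → ¬ CHP Δ → ∃ p, Apex Δ p

end Pool.Agent.Lib.MP_73b196_co.St
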