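import Pool.Agent.Lib.MP_73b196_co.St.HSpecB

/-!
# Theorem H, HT5

A minimal full component is a single vertex.
-/

set_option autoImplicit false

namespace Pool.Agent.Lib.MP_73b196_co.St

variable {V : Type} [Fintype V] [DecidableEq V] {Δ : Set (Finset V)}

theorem HT5_adj (hΔ : IsCx Δ) {a k v : V} (hk : ConesDel Δ a k) (hv : v ∈ vs Δ) (hva : v ≠ a)
    (hvk : v ≠ k) : adj Δ k v := by
  have h := hk.2 {v} (mem_vs.1 hv) (by simpa using hva.symm)
  exact hΔ.adj_of_face h (by simp) (by simp) hvk.symm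

theorem HT5_tri (hΔ : IsCx Δ) {a k u v : V} (hk : ConesDel Δ a k) (huv : adj Δ u v) (hu : u ≠ a)
    (hv : v ≠ a) : ({k, u, v} : Finset V) ∈ Δ := by
  refine hk.2 _ huv.2 ?_
  simp only [Finset.mem_insert, Finset.mem_singleton, not_or]
  exact ⟨hu.symm, hv.symm⟩

theorem tHT5 (h1 : StmtHP) (h2 : StmtHQ3) (h3 : StmtHM) (h4 : StmtHM2) : StmtHT5 := by
  intro V _ _ Δ hbad A B hf hmin
  have hin := hbad.inP
  have hΔ := hin.cx
  by_contra hno
  obtain ⟨a, ha⟩ := hf.cA.2.1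
  obtain ⟨a', ha', hne⟩ : ∃ a' ∈ A, a ≠ a' := by
    by_contra hh
    push Not at hh
    refine hno ⟨a, Finset.ext fun x => ?_⟩
    rw [Finset.mem_singleton]
    exact ⟨fun hx => (hh x hx).symm, fun hx => hx ▸ ha⟩
  have hcl := h2 V Δ hΔ A B hf hmin
  obtain ⟨p, hp, hp1, hp2, -⟩ := h1 V Δ hbad A B hf
  have hnA : ∀ s ∈ nb Δ A, s ∉ A := fun s hs => (mem_nb.1 hs).2.1
  have hpHol : ∀ s ∈ nb Δ A, ∀ t ∈ nb Δ A, ¬ Hol Δ p s t := fun s hs t ht hh =>
    hh.2.2.2 (hp2 s hs t ht hh.2.2.1 (fun h => hh.1.1 h.symm) (fun h => hh.2.1.1 h.symm))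
  have hM : ∀ x ∈ A, ∀ x' ∈ A, x ≠ x' → ∀ z ∈ A ∪ nb Δ A, z ≠ x → z ≠ p →
      ({x, p, z} : Finset V) ∈ Δ := fun x hx x' hx' hxx' =>
    h3 V Δ hin hbad.conn A B hf hcl x hx x' hx' hxx' p hp hp1 hpHol
  have hnb : ∀ s, adj Δ a s → s ∈ A ∪ nb Δ A := fun s hs => by
    rw [Finset.mem_union]
    by_cases h : s ∈ A
    · exact Or.inl h
    · exact Or.inr (hΔ.mem_nb_of h ⟨s, by simp, a, ha, adj_symm hs⟩)
  have hap : adj Δ a p := hcl a ha p (Finset.mem_union_right _ hp) fun h => hnA p hp (h ▸ ha)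
  have hdom := hin.dominates (adj_symm hap)
    (fun s hs hsp => hM a ha a' ha' hne s (hnb s (hΔ.mem_nb_single.1 hs))
      (hΔ.mem_nb_single.1 hs).1.symm hsp)
    (fun s hs t ht hsp htp hst => by
      have hs' := hΔ.mem_nb_single.1 hs
      have ht' := hΔ.mem_nb_single.1 ht
      have hs2 := hnb s hs'
      have ht2 := hnb t ht'
      by_cases hsA : s ∈ A
      · have := hM s hsA a ha hs'.1.symm t ht2 hst.1.symm htp
        rwa [Finset.insert_comm] at this
      · by_cases htA : t ∈ A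
        · have := hM t htA a ha ht'.1.symm s hs2 hst.1 hsp
          rw [Finset.insert_comm, Finset.pair_comm] at this
          exact this
        · exact hp2 s ((Finset.mem_union.1 hs2).resolve_left hsA) t
            ((Finset.mem_union.1 ht2).resolve_left htA) hst hsp htp)
  have hav : a ∈ vs Δ := hf.cA.1 ha
  have hpa : p ≠ a := hap.1.symm
  obtain ⟨q, hq, hqc⟩ := hbad.del_apex hav hpa hdom
    (h4 V Δ hΔ hbad.conn A B hf hcl a ha a' ha' hne)
  have hpl : Pl Δ A B := Full.pl hΔ hf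
  obtain ⟨b, hb⟩ := hf.cB.2.1
  have hbA : b ∉ A := fun h => Finset.disjoint_left.1 hf.d h hb
  have hqB : q ∉ B := fun hqB => by
    have hqa' : a' ≠ q := fun h => Finset.disjoint_left.1 hf.d ha' (h ▸ hqB)
    exact hpl.n ⟨a', ha', q, hqB, adj_symm (HT5_adj hΔ hqc (hf.cA.1 ha') hne.symm hqa')⟩
  have hqS : q ∈ nb Δ A := by
    rw [hf.n]
    refine hΔ.mem_nb_of hqB ⟨q, by simp, b, hb, ?_⟩
    exact HT5_adj hΔ hqc (hf.cB.1 hb) (fun h => hbA (h ▸ ha)) (fun h => hqB (h ▸ hb))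
  have hSa : ∀ s ∈ nb Δ A, s ≠ a := fun s hs h => hnA s hs (h ▸ ha)
  have hqM : ∀ x ∈ A ∪ nb Δ A, x ≠ a → x ≠ q → ({a, q, x} : Finset V) ∈ Δ :=
    h3 V Δ hin hbad.conn A B hf hcl a ha a' ha' hne q hqS
      (fun s hs hsq => HT5_adj hΔ hqc (nb_sub hs) (hSa s hs) hsq)
      (fun s hs t ht hh => hh.2.2.2 (HT5_tri hΔ hqc hh.2.2.1 (hSa s hs) (hSa t ht)))
  have haq : adj Δ a q := hcl a ha q (Finset.mem_union_right _ hqS) (hSa q hqS)
  refine hbad.noApex q (hin.apex_of hq ?_ ?_)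
  · intro v hv hvq
    by_cases hva : v = a
    · subst hva
      exact adj_symm haq
    · exact HT5_adj hΔ hqc hv hva hvq
  · intro u v huv huq hvq
    by_cases hua : u = a
    · subst hua
      have := hqM v (hnb v huv) huv.1.symm hvq
      rwa [Finset.insert_comm] at this
    · by_cases hva : v = a
      · subst hva
        have := hqM u (hnb u (adj_symm huv)) huv.1 huq
        rw [Finset.insert_comm, Finset.pair_comm] at this
        exact this
      · exact HT5_tri hΔ hqc huv hua hva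

end Pool.Agent.Lib.MP_73b196_co.St
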