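import Pool.Agent.Lib.MP_73b196_co.St.HTool
import Pool.Agent.Lib.MP_73b196_co.St.HSpecB

/-!
# Statement HT6b of Theorem H
-/

set_option autoImplicit false

namespace Pool.Agent.Lib.MP_73b196_co.St

/-- **HT6b** -/
theorem tHT6b (h6 : StmtHT6) : StmtHT6b := by
  intro V _ _ Δ hΔ a B hm z hz v hv hvz hnzv hns z' hz' v' hv' hvz' hnzv' hns'
  by_contra hzz
  obtain ⟨c, hc, hcz, hcd, hcf, hcx⟩ := h6 V Δ hΔ a B hm z hz v hv hvz hnzv hns
  obtain ⟨c', hc', hcz', hcd', hcf', hcx'⟩ := h6 V Δ hΔ a B hm z' hz' v' hv' hvz' hnzv' hns'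
  have hcx0 := hΔ.inP.cx
  have hP := hm.pl hcx0
  have hcom : ∀ s ∈ nb Δ {a}, Com Δ {a} B s := fun s hs => Full.com hm hs
  have hadj : ∀ d ∈ nb Δ {a}, ConesDel Δ a d → ∀ s ∈ nb Δ {a}, s ≠ d → adj Δ d s := by
    intro d hd hdd s hs hsd
    have hsa : a ∉ ({s} : Finset V) := by
      rw [Finset.mem_singleton]
      rintro rfl
      exact (mem_nb.1 hs).2.1 (Finset.mem_singleton_self _)
    exact ⟨hsd.symm, hdd.2 {s} (mem_vs.1 (mem_nb.1 hs).1) hsa⟩
  have hcc : c ≠ z' := by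
    rintro rfl
    exact hnzv' (hadj c hc hcd v' hv' hvz')
  have hcc' : c' ≠ z := by
    rintro rfl
    exact hnzv (hadj c' hc' hcd' v hv hvz)
  have hne : c ≠ c' := by
    rintro rfl
    exact hcf' (hcx z' hz' hcc.symm (Ne.symm hzz))
  have sc := HTool_sing hcx0 (hcom c hc).1 (hcom c hc).2.2.1
  have sz := HTool_sing hcx0 (hcom z hz).1 (hcom z hz).2.2.1
  have sc' := HTool_sing hcx0 (hcom c' hc').1 (hcom c' hc').2.2.1
  have sz' := HTool_sing hcx0 (hcom z' hz').1 (hcom z' hz').2.2.1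
  have c_z := hadj c hc hcd z hz hcz.symm
  have c_c' := hadj c hc hcd c' hc' hne.symm
  have c_z' := hadj c hc hcd z' hz' hcc.symm
  have c'_z := hadj c' hc' hcd' z hz hcc'.symm
  have c'_z' := hadj c' hc' hcd' z' hz' hcz'.symm
  by_cases hadjz : adj Δ z z'
  · have hM : CM Δ [{a}, {c}, {z}, {c'}, {z'}] := by
      refine HTool_cons hP.cA ?_ (HTool_cons sc.1 ?_ (HTool_cm3 sz.1 sc'.1 sz'.1
        (HTool_pair (adj_symm c'_z)) (HTool_pair hadjz) (HTool_pair c'_z')))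
      · simp only [List.mem_cons, List.not_mem_nil, or_false, forall_eq_or_imp, forall_eq]
        exact ⟨sc.2.1, sz.2.1, sc'.2.1, sz'.2.1⟩
      · simp only [List.mem_cons, List.not_mem_nil, or_false, forall_eq_or_imp, forall_eq]
        exact ⟨HTool_pair c_z, HTool_pair c_c', HTool_pair c_z'⟩
    rcases hΔ.inP.k5 _ _ _ _ _ hM with hf | hf
    · exact hcf (hcx0.fill_three.1 hf)
    · exact hcf' (hcx0.fill_three.1 hf)
  · obtain ⟨i1, i2, i3⟩ := HTool_ins hcx0 hP (hcom z' hz')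
    have hM : CM Δ [{a}, {c}, {z}, {c'}, insert z' B] := by
      refine HTool_cons hP.cA ?_ (HTool_cons sc.1 ?_ (HTool_cm3 sz.1 sc'.1 i1
        (HTool_pair (adj_symm c'_z)) (i3 z (hcom z hz) hzz) (i3 c' (hcom c' hc') hcz')))
      · simp only [List.mem_cons, List.not_mem_nil, or_false, forall_eq_or_imp, forall_eq]
        exact ⟨sc.2.1, sz.2.1, sc'.2.1, i2⟩
      · simp only [List.mem_cons, List.not_mem_nil, or_false, forall_eq_or_imp, forall_eq]
        exact ⟨HTool_pair c_z, HTool_pair c_c', i3 c (hcom c hc) hcc⟩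
    rcases hΔ.inP.k5 _ _ _ _ _ hM with hf | hf
    · exact hcf (hcx0.fill_three.1 hf)
    · have hf' := HTool_fill (y := z') (L := [{a}, {c'}]) hcx0 hP (by simp)
        (Rules_sub hf (by simp))
      exact hcf' (hcx0.fill_three.1 (Rules_sub hf' (by simp)))

end Pool.Agent.Lib.MP_73b196_co.St
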