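import Pool.Agent.Lib.MP_73b196_co.St.HSpecB

/-!
# HT7: a moplex deletion has a face separator
-/

set_option autoImplicit false

namespace Pool.Agent.Lib.MP_73b196_co.St

variable {V : Type} [Fintype V] [DecidableEq V] {Δ : Set (Finset V)} {B : Finset V}
  {a c k v y z : V}

theorem HT7_adj (hk : ConesDel Δ a k) (hv : v ∈ vs Δ) (hva : v ≠ a) (hvk : v ≠ k) :
    adj Δ k v :=
  ⟨hvk.symm, hk.2 {v} (mem_vs.1 hv) (by
    rw [Finset.mem_singleton]
    exact hva.symm)⟩

/-- K5 with `{a}, {k}, {y}, {c}, B + z`. -/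
theorem HT7_k5 (h : InP Δ) (hM : Mop Δ a B) (hk : ConesDel Δ a k) (hc : ConesDel Δ a c)
    (hkS : k ∈ nb Δ {a}) (hcS : c ∈ nb Δ {a}) (hyS : y ∈ nb Δ {a}) (hzS : z ∈ nb Δ {a})
    (hkz : k ≠ z) (hcz : c ≠ z) (hyz : y ≠ z) (hck : c ≠ k) (hyc : y ≠ c) (hyk : y ≠ k)
    (h1 : ({a, k, y} : Finset V) ∉ Δ) (h2 : ({a, c, z} : Finset V) ∉ Δ) : False := by
  have hp : Pl Δ {a} B := Full.pl h.cx hM
  have hcom : ∀ s ∈ nb Δ {a}, Com Δ {a} B s := fun s hs => Full.com hM hs
  obtain ⟨cZ, dZ, eZ⟩ := HRul_ins h.cx hp (hcom z hzS)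
  have hsing : ∀ s ∈ nb Δ {a}, s ≠ a := by
    intro s hs e
    exact (mem_nb.1 hs).2.1 (by rw [e]; exact Finset.mem_singleton_self _)
  have hvs : ∀ s ∈ nb Δ {a}, s ∈ vs Δ := fun s hs => nb_sub hs
  have hav : ∀ s ∈ nb Δ {a}, Disjoint ({a} : Finset V) {s} ∧ touch Δ {a} {s} := fun s hs =>
    HRul_pair (h.cx.mem_nb_single.1 hs)
  have hky : adj Δ k y := HT7_adj hk (hvs y hyS) (hsing y hyS) hyk
  have hkc : adj Δ k c := HT7_adj hk (hvs c hcS) (hsing c hcS) hck
  have hcy : adj Δ c y := HT7_adj hc (hvs y hyS) (hsing y hyS) hyc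
  have hM5 : CM Δ [{a}, {k}, {y}, {c}, insert z B] := by
    refine HRul_cons hM.cA ?_ (HRul_cons (conn_single (hvs k hkS)) ?_
      (HRul_cm3 (conn_single (hvs y hyS)) (conn_single (hvs c hcS)) cZ
        (HRul_pair (adj_symm hcy)) (eZ y (hcom y hyS) hyz) (eZ c (hcom c hcS) hcz)))
    · simp only [List.mem_cons, List.not_mem_nil, or_false, forall_eq_or_imp, forall_eq]
      exact ⟨hav k hkS, hav y hyS, hav c hcS, dZ⟩
    · simp only [List.mem_cons, List.not_mem_nil, or_false, forall_eq_or_imp, forall_eq]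
      exact ⟨HRul_pair hky, HRul_pair hkc, eZ k (hcom k hkS) hkz⟩
  rcases h.k5 _ _ _ _ _ hM5 with hf | hf
  · exact h1 (h.cx.fill_three.1 hf)
  · have hf' : fill Δ (insert z B :: [{a}, {c}]) := Rules_sub hf (by simp)
    have h3 := h.cx.fill_three.1 (HRul_fill h.cx hp (by simp) hf')
    apply h2
    have e : ({a, c, z} : Finset V) = {z, a, c} := by
      ext t
      simp only [Finset.mem_insert, Finset.mem_singleton]
      tauto
    rw [e]
    exact h3

theorem tHT7 (h6 : StmtHT6) (h6b : StmtHT6b) (h7a : StmtHT7a) (h7b : StmtHT7b)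
    (h7c : StmtHT7c) : StmtHT7 := by
  intro V _ _ Δ hB a B hM
  by_contra hcon
  have h := hB.inP.cx
  have hns : NS (ind Δ (vs Δ \ {a})) := by
    by_contra hn
    exact hcon ((ns_del_iff h).1 hn)
  obtain ⟨⟨k, hkv, hk⟩, hncl⟩ := h7a V Δ hB a B hM hns
  have hex : ∃ z1 ∈ nb Δ {a}, ∃ z2 ∈ nb Δ {a}, z1 ≠ z2 ∧ ¬ adj Δ z1 z2 := by
    by_contra hn
    push Not at hn
    exact hncl ⟨nb_sub, fun u hu v hv huv => hn u hu v hv huv⟩
  obtain ⟨z1, hz1, z2, hz2, h12, hn12⟩ := hex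
  have hn21 : ¬ adj Δ z2 z1 := fun e => hn12 (adj_symm e)
  have hcs : ∀ z ∈ nb Δ {a}, ∀ v ∈ nb Δ {a}, v ≠ z → ¬ adj Δ z v → ¬ NS (con Δ {a, z} z) →
      ∃ F P Q, CS Δ a z F P Q ∧ insert a F ∈ Δ ∧ F ⊆ nb Δ {a} ∧
        ∀ k ∈ vs Δ, ConesDel Δ a k → k ∈ F := by
    intro z hz v hv hvz hn hns'
    obtain ⟨F, P, Q, hCS⟩ := cs_of_con h hB.conn (h.mem_nb_single.1 hz) hns'
    exact ⟨F, P, Q, hCS, h7b V Δ hB a hns z hz v hv hvz hn F P Q hCS⟩
  have hall : ∀ k ∈ vs Δ, ConesDel Δ a k → k ∈ nb Δ {a} := by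
    intro k hk hkc
    by_contra hkS
    have hN : ∀ z ∈ nb Δ {a}, ∀ v ∈ nb Δ {a}, v ≠ z → ¬ adj Δ z v → NS (con Δ {a, z} z) := by
      intro z hz v hv hvz hn
      by_contra hns'
      obtain ⟨F, P, Q, -, -, hF, hkF⟩ := hcs z hz v hv hvz hn hns'
      exact hkS (hF (hkF k hk hkc))
    exact h12 (h6b V Δ hB a B hM z1 hz1 z2 hz2 h12.symm hn12 (hN z1 hz1 z2 hz2 h12.symm hn12)
      z2 hz2 z1 hz1 h12 hn21 (hN z2 hz2 z1 hz1 h12 hn21))
  have hkS := hall k hkv hk
  have hak : adj Δ a k := h.mem_nb_single.1 hkS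
  have hsing : ∀ s ∈ nb Δ {a}, s ≠ a := by
    intro s hs e
    exact (mem_nb.1 hs).2.1 (by rw [e]; exact Finset.mem_singleton_self _)
  have hy : ∃ y, adj Δ a y ∧ y ≠ k ∧ ({a, k, y} : Finset V) ∉ Δ := by
    by_contra hn
    push Not at hn
    refine hB.noApex k (hB.inP.apex_of hkv ?_ ?_)
    · intro v hv hvk
      by_cases hva : v = a
      · rw [hva]
        exact adj_symm hak
      · exact HT7_adj hk hv hva hvk
    · intro u v huv huk hvk
      by_cases hua : u = a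
      · subst hua
        rw [Finset.insert_comm]
        exact hn v huv hvk
      · by_cases hva : v = a
        · subst hva
          have h3 := hn u (adj_symm huv) huk
          have e : ({k, u, v} : Finset V) = {v, k, u} := by
            ext t
            simp only [Finset.mem_insert, Finset.mem_singleton]
            tauto
          rw [e]
          exact h3
        · refine hk.2 {u, v} huv.2 ?_
          rw [Finset.mem_insert, Finset.mem_singleton]
          rintro (e | e)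
          · exact hua e.symm
          · exact hva e.symm
  obtain ⟨y, hay, hyk, hyn⟩ := hy
  have hyS : y ∈ nb Δ {a} := h.mem_nb_single.2 hay
  have hzv : ∃ z ∈ nb Δ {a}, ∃ v ∈ nb Δ {a}, z ≠ y ∧ v ≠ z ∧ ¬ adj Δ z v := by
    by_cases h1 : z1 = y
    · exact ⟨z2, hz2, z1, hz1, fun e => h12 (h1.trans e.symm), h12, hn21⟩
    · exact ⟨z1, hz1, z2, hz2, h1, h12.symm, hn12⟩
  obtain ⟨z, hzS, v, hvS, hzy, hvz, hnzv⟩ := hzv
  have hkz : k ≠ z := by
    rintro rfl
    exact hnzv (HT7_adj hk (nb_sub hvS) (hsing v hvS) hvz)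
  by_cases hNS : NS (con Δ {a, z} z)
  · obtain ⟨c, hcS, hcz, hcd, hcn, hcx⟩ := h6 V Δ hB a B hM z hzS v hvS hvz hnzv hNS
    have hck : c ≠ k := by
      rintro rfl
      exact hyn (hcx y hyS hyk hzy.symm)
    have hyc : y ≠ c := by
      rintro rfl
      have h3 := hcx k hkS hck.symm hkz
      rw [Finset.pair_comm] at h3
      exact hyn h3
    exact HT7_k5 hB.inP hM hk hcd hkS hcS hyS hzS hkz hcz hzy.symm hck hyc hyk hyn hcn
  · obtain ⟨F, P, Q, hCS, hFa, hFS, hFk⟩ := hcs z hzS v hvS hvz hnzv hNS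
    have hkF := hFk k hkv hk
    have hyF : y ∉ F := by
      intro hyF
      refine hyn (h.down _ hFa _ ?_)
      intro t ht
      simp only [Finset.mem_insert, Finset.mem_singleton] at ht
      rcases ht with rfl | rfl | rfl
      · exact Finset.mem_insert_self _ _
      · exact Finset.mem_insert_of_mem hkF
      · exact Finset.mem_insert_of_mem hyF
    have hyc : ¬ ConesDel Δ a y := fun hc => hyF (hFk y (nb_sub hyS) hc)
    have hUs : (vs Δ \ {a}) \ (nb Δ {a} \ {y}) ⊆ vs Δ :=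
      Finset.sdiff_subset.trans Finset.sdiff_subset
    have hyU : y ∈ (vs Δ \ {a}) \ (nb Δ {a} \ {y}) := by
      rw [Finset.mem_sdiff, Finset.mem_sdiff, Finset.mem_sdiff, Finset.mem_singleton,
        Finset.mem_singleton]
      exact ⟨⟨nb_sub hyS, hsing y hyS⟩, fun e => e.2 rfl⟩
    obtain ⟨D, hD, hyD⟩ := exists_comp hUs hyU
    have hDU : ∀ t ∈ D, t ∈ vs Δ ∧ t ≠ a ∧ (t ∈ nb Δ {a} → t = y) := by
      intro t ht
      have h3 := hD.1 ht
      rw [Finset.mem_sdiff, Finset.mem_sdiff, Finset.mem_sdiff, Finset.mem_singleton,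
        Finset.mem_singleton] at h3
      refine ⟨h3.1.1, h3.1.2, fun h4 => ?_⟩
      by_contra h5
      exact h3.2 ⟨h4, h5⟩
    have hDPQ : D ⊆ (vs Δ \ {a, z}) \ F := by
      intro t ht
      obtain ⟨h3, h4, h5⟩ := hDU t ht
      rw [Finset.mem_sdiff, Finset.mem_sdiff, Finset.mem_insert, Finset.mem_singleton, not_or]
      refine ⟨⟨h3, h4, ?_⟩, ?_⟩
      · rintro rfl
        exact hzy (h5 hzS)
      · intro h6
        have h7 := h5 (hFS h6)
        rw [h7] at h6
        exact hyF h6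
    have side : ∀ P Q : Finset V, P ∪ Q = (vs Δ \ {a, z}) \ F → Disjoint P Q → Q.Nonempty →
        ¬ touch Δ P Q → y ∈ P → False := by
      intro P Q hun hd hQ hnt hyP
      have hDP : D ⊆ P := by
        refine Conn.sub_of_closed hD.2.1 hDPQ ?_ ⟨y, Finset.mem_inter.2 ⟨hyD, hyP⟩⟩
        intro ht
        refine hnt (touch_mono (Finset.Subset.refl _) ?_ ht)
        intro t ht'
        rw [Finset.mem_sdiff, ← hun, Finset.mem_union] at ht'
        exact ht'.1.resolve_left ht'.2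
      obtain ⟨q, hq⟩ := hQ
      have hqU : q ∈ (vs Δ \ {a, z}) \ F := by
        rw [← hun]
        exact Finset.mem_union_right _ hq
      rw [Finset.mem_sdiff, Finset.mem_sdiff, Finset.mem_insert, not_or] at hqU
      have hqD : q ∉ D := fun h3 => Finset.disjoint_left.1 hd (hDP h3) hq
      have ht := h7c V Δ hB a B hM hns hncl hall k hkv hk y hyS hyk hyc hyn D hD hyD q hqU.1.1
        hqU.1.2.1 hqD (fun hc => hqU.2 (hFk q hqU.1.1 hc))
      refine hnt (touch_symm (touch_mono (Finset.singleton_subset_iff.2 hq) hDP ht))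
    have hyPQ := hDPQ hyD
    rw [← hCS.un, Finset.mem_union] at hyPQ
    rcases hyPQ with h3 | h3
    · exact side P Q hCS.un hCS.d hCS.neQ hCS.nt h3
    · refine side Q P ?_ hCS.d.symm hCS.neP (fun ht => hCS.nt (touch_symm ht)) h3
      rw [Finset.union_comm]
      exact hCS.un

end Pool.Agent.Lib.MP_73b196_co.St
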