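import Pool.Agent.Lib.MP_73b196_co.St.HSpecB

/-!
# Theorem H, HT7a: if `Δ - a` has no face separator, there is a `ConesDel` vertex and `nb Δ {a}` is no clique
-/

set_option autoImplicit false

namespace Pool.Agent.Lib.MP_73b196_co.St

theorem tHT7a (h1 : StmtHDom) : StmtHT7a := by
  intro V _ _ Δ hb a B hm hns
  have hcx := hb.inP.cx
  have hav : a ∈ vs Δ := hm.cA.1 (Finset.mem_singleton_self a)
  obtain ⟨p, hpa, hdom⟩ := h1 V Δ hb a B hm
  obtain ⟨k, hk, hcd⟩ := hb.del_apex hav hpa.1 hdom hns
  refine ⟨⟨k, hk, hcd⟩, fun hclq => ?_⟩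
  -- a hollow triangle in the clique
  have hnot : nb Δ {a} ∉ Δ := Full.notMem hcx hb.conn hm
  have hT : ∃ x ∈ nb Δ {a}, ∃ y ∈ nb Δ {a}, ∃ z ∈ nb Δ {a}, Hol Δ x y z := by
    by_contra hn
    refine hnot (hb.inP.mem_of_noHol hclq ?_)
    intro x hx y hy z hz hh
    exact hn ⟨x, hx, y, hy, z, hz, hh⟩
  obtain ⟨x, hx, y, hy, z, hz, hh⟩ := hT
  have hax : adj Δ a x := hcx.mem_nb_single.1 hx
  have hay : adj Δ a y := hcx.mem_nb_single.1 hy
  have haz : adj Δ a z := hcx.mem_nb_single.1 hz
  -- `k` fills all edges of `T`
  have hkf : ∀ u w, adj Δ a u → adj Δ a w → adj Δ u w → ({k, u, w} : Finset V) ∈ Δ := by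
    intro u w hu hw huw
    refine hcd.2 _ huw.2 ?_
    rw [Finset.mem_insert, Finset.mem_singleton]
    rintro (e | e)
    · exact hu.1 e
    · exact hw.1 e
  have f1 := hkf x y hax hay hh.1
  have f2 := hkf x z hax haz hh.2.1
  have f3 := hkf y z hay haz hh.2.2.1
  have hkx : k ≠ x := by
    rintro rfl
    exact hh.2.2.2 (hcd.2 _ hh.2.2.1.2 (by
      rw [Finset.mem_insert, Finset.mem_singleton]
      rintro (e | e)
      · exact hay.1 e
      · exact haz.1 e))
  have hky : k ≠ y := by
    rintro rfl
    refine hh.2.2.2 ?_
    rw [Finset.insert_comm]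
    exact f2
  have hkz : k ≠ z := by
    rintro rfl
    refine hh.2.2.2 ?_
    have e : ({x, y, k} : Finset V) = {k, x, y} := by
      ext t
      simp only [Finset.mem_insert, Finset.mem_singleton]
      tauto
    rw [e]
    exact f1
  have hxk : adj Δ x k := hcx.adj_of_face f1 (by simp) (by simp) hkx.symm
  have hyk : adj Δ y k := hcx.adj_of_face f1 (by simp) (by simp) hky.symm
  have hzk : adj Δ z k := hcx.adj_of_face f2 (by simp) (by simp) hkz.symm
  by_cases hka : adj Δ k a
  · -- some `x'` with `{a, k, x'} ∉ Δ`
    have hex : ∃ w ∈ nb Δ {a}, w ≠ k ∧ ({a, k, w} : Finset V) ∉ Δ := by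
      by_contra hn
      push Not at hn
      refine hb.noApex k (hb.inP.apex_of hk ?_ ?_)
      · intro v hv hvk
        by_cases hva : v = a
        · rw [hva]
          exact hka
        · have := hcd.2 {v} (mem_vs.1 hv) (by
            rw [Finset.mem_singleton]
            exact fun e => hva e.symm)
          exact ⟨hvk.symm, this⟩
      · intro u v huv huk hvk
        by_cases hua : u = a
        · subst hua
          have h2 := hn v (hcx.mem_nb_single.2 huv) hvk
          rw [Finset.insert_comm]
          exact h2
        · by_cases hva : v = a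
          · subst hva
            have h2 := hn u (hcx.mem_nb_single.2 (adj_symm huv)) huk
            have e : ({k, u, v} : Finset V) = {v, k, u} := by
              ext t
              simp only [Finset.mem_insert, Finset.mem_singleton]
              tauto
            rw [e]
            exact h2
          · refine hcd.2 _ huv.2 ?_
            rw [Finset.mem_insert, Finset.mem_singleton]
            rintro (e | e)
            · exact hua e.symm
            · exact hva e.symm
    obtain ⟨w, hw, hwk, hwn⟩ := hex
    have haw : adj Δ a w := hcx.mem_nb_single.1 hw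
    have hkn : k ∈ nb Δ {a} := hcx.mem_nb_single.2 (adj_symm hka)
    have hkw : adj Δ k w := hclq.2 k hkn w hw hwk.symm
    have hhol : Hol Δ a k w := ⟨adj_symm hka, haw, hkw, hwn⟩
    have hK : Clq Δ (insert a (nb Δ {a})) := by
      refine ⟨Finset.insert_subset hav nb_sub, ?_⟩
      intro u hu v hv huv
      rcases Finset.mem_insert.1 hu with rfl | hu'
      · rcases Finset.mem_insert.1 hv with rfl | hv'
        · exact absurd rfl huv
        · exact hcx.mem_nb_single.1 hv'
      · rcases Finset.mem_insert.1 hv with rfl | hv'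
        · exact adj_symm (hcx.mem_nb_single.1 hu')
        · exact hclq.2 u hu' v hv' huv
    have h2 := hb.inP.hol_share hK (Finset.mem_insert_self _ _) (Finset.mem_insert_of_mem hkn)
      (Finset.mem_insert_of_mem hw) (Finset.mem_insert_of_mem hx) (Finset.mem_insert_of_mem hy)
      (Finset.mem_insert_of_mem hz) hhol hh
    have h3 : ({a, k, w} : Finset V) ∩ {x, y, z} ⊆ {w} := by
      intro t ht
      rw [Finset.mem_inter] at ht
      simp only [Finset.mem_insert, Finset.mem_singleton] at ht ⊢
      obtain ⟨h4, h5⟩ := ht
      rcases h4 with rfl | rfl | rfl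
      · rcases h5 with e | e | e
        · exact absurd e hax.1
        · exact absurd e hay.1
        · exact absurd e haz.1
      · rcases h5 with e | e | e
        · exact absurd e hkx
        · exact absurd e hky
        · exact absurd e hkz
      · rfl
    have h4 := Finset.card_le_card h3
    rw [Finset.card_singleton] at h4
    omega
  · -- poles `{k}`, `{a}`
    have hpl : Pl Δ {k} {a} := by
      refine ⟨conn_single hk, conn_single hav, ?_, ?_⟩
      · rw [Finset.disjoint_singleton]
        exact hcd.1
      · rw [touch_single]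
        exact hka
    have hcom : ∀ u, adj Δ a u → adj Δ u k → Com Δ {k} {a} u := by
      intro u hu huk
      refine ⟨?_, ?_, touch_single.2 huk, touch_single.2 (adj_symm hu)⟩
      · rw [Finset.mem_singleton]
        exact huk.1
      · rw [Finset.mem_singleton]
        exact hu.1.symm
    exact hpl.r5 hb.inP (hcom x hax hxk) (hcom y hay hyk) (hcom z haz hzk) hh
      ⟨hcx.fill_three.2 f1, hcx.fill_three.2 f2, hcx.fill_three.2 f3⟩

end Pool.Agent.Lib.MP_73b196_co.St
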