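import Pool.Agent.Lib.MP_73b196_co.St.HSpecB

/-!
# Theorem H: HT7b
-/

set_option autoImplicit false

namespace Pool.Agent.Lib.MP_73b196_co.St

/-- A cone vertex of `Δ - a` is adjacent to every other vertex. -/
theorem HT7b_adj {V : Type} [Fintype V] [DecidableEq V] {Δ : Set (Finset V)} {a k u : V}
    (hk : ConesDel Δ a k) (hu : u ∈ vs Δ) (hua : u ≠ a) (hku : k ≠ u) : adj Δ k u := by
  refine ⟨hku, hk.2 {u} (mem_vs.1 hu) ?_⟩
  rw [Finset.mem_singleton]
  exact hua.symm

theorem tHT7b : StmtHT7b := by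
  intro V _ _ Δ hΔ a hns z hz v hv hvz hzv F P Q hcs
  have hcx := hΔ.inP.cx
  have haz : adj Δ a z := hcx.mem_nb_single.1 hz
  have hav : adj Δ a v := hcx.mem_nb_single.1 hv
  have hface : insert a F ∈ Δ := by
    rcases hcs.face with h1 | h1
    · exfalso
      refine (ns_del_iff hcx).2 ⟨insert z F, P, Q, h1, ?_, ?_, hcs.d, hcs.neP, hcs.neQ, hcs.nt⟩ hns
      · rw [Finset.mem_insert, not_or]
        exact ⟨haz.1, hcs.na⟩
      · rw [hcs.un]
        ext t
        simp only [Finset.mem_sdiff, Finset.mem_insert, Finset.mem_singleton, not_or]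
        tauto
    · exact h1
  refine ⟨hface, ?_, ?_⟩
  · intro t ht
    refine hcx.mem_nb_single.2 (hcx.adj_of_face hface (Finset.mem_insert_self _ _)
      (Finset.mem_insert_of_mem ht) ?_)
    rintro rfl
    exact hcs.na ht
  · intro k hk hck
    by_contra hkF
    have hkz : k ≠ z := by
      rintro rfl
      exact hzv (HT7b_adj hck (hcx.adj_vs hav).2 hav.1.symm hvz.symm)
    have hsub : ∀ t ∈ P ∪ Q, t ∈ vs Δ ∧ t ≠ a := by
      intro t ht
      rw [hcs.un] at ht
      simp only [Finset.mem_sdiff, Finset.mem_insert, Finset.mem_singleton, not_or] at ht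
      exact ⟨ht.1.1, ht.1.2.1⟩
    have hkPQ : k ∈ P ∪ Q := by
      rw [hcs.un]
      simp only [Finset.mem_sdiff, Finset.mem_insert, Finset.mem_singleton, not_or]
      exact ⟨⟨hk, hck.1, hkz⟩, hkF⟩
    rcases Finset.mem_union.1 hkPQ with h1 | h1
    · obtain ⟨q, hq⟩ := hcs.neQ
      have h2 := hsub q (Finset.mem_union_right _ hq)
      exact hcs.nt ⟨k, h1, q, hq, HT7b_adj hck h2.1 h2.2 (by
        rintro rfl
        exact Finset.disjoint_left.1 hcs.d h1 hq)⟩
    · obtain ⟨q, hq⟩ := hcs.neP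
      have h2 := hsub q (Finset.mem_union_left _ hq)
      exact hcs.nt ⟨q, hq, k, h1, adj_symm (HT7b_adj hck h2.1 h2.2 (by
        rintro rfl
        exact Finset.disjoint_left.1 hcs.d hq h1))⟩

end Pool.Agent.Lib.MP_73b196_co.St
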