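import Pool.Agent.Lib.MP_73b196_co.St.HSpecB

/-!
# Theorem H, HT7c

The vertices which are not adjacent to the component `D`.
-/

set_option autoImplicit false

namespace Pool.Agent.Lib.MP_73b196_co.St

variable {V : Type} [Fintype V] [DecidableEq V] {Δ : Set (Finset V)}

/-- A `ConesDel` vertex is adjacent to all other vertices different from `a`. -/
theorem HT7c_adj (hΔ : IsCx Δ) {a k v : V} (hk : ConesDel Δ a k) (hv : v ∈ vs Δ) (hva : v ≠ a)
    (hvk : v ≠ k) : adj Δ k v := by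
  have h := hk.2 {v} (mem_vs.1 hv) (by simpa using hva.symm)
  exact hΔ.adj_of_face h (by simp) (by simp) hvk.symm

theorem HT7c_ins (hΔ : IsCx Δ) {a : V} {N K : Finset V} (hN : N ∈ Δ) (haN : a ∉ N)
    (hK : ∀ k ∈ K, ConesDel Δ a k) : N ∪ K ∈ Δ := by
  classical
  induction K using Finset.induction_on with
  | empty => simpa using hN
  | insert k K hkK ih =>
    have h1 := ih fun x hx => hK x (Finset.mem_insert_of_mem hx)
    have hk := hK k (Finset.mem_insert_self _ _)
    have h2 := hk.2 _ h1 (by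
      rw [Finset.mem_union]
      rintro (h | h)
      · exact haN h
      · exact (hK a (Finset.mem_insert_of_mem h)).1 rfl)
    rwa [Finset.union_insert]

theorem tHT7c : StmtHT7c := by
  classical
  intro V _ _ Δ hbad a B hM hns hncl hcS k hk hkc y hy hyk hyc haky D hD hyD v hv hva hvD hvc
  by_contra hnt
  have hin := hbad.inP
  have hΔ := hin.cx
  have hDs := hD.1
  have hDc := hD.2.1
  have hay : adj Δ a y := hΔ.mem_nb_single.1 hy
  have hav : a ∈ vs Δ := (hΔ.adj_vs hay).1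
  have hyv : y ∈ vs Δ := (hΔ.adj_vs hay).2
  have hka : adj Δ a k := hΔ.mem_nb_single.1 (hcS k hk hkc)
  have haD : a ∉ D := fun h => by
    have := hDs h
    simp at this
  have hSD : ∀ s ∈ nb Δ {a}, s ≠ y → s ∉ D := fun s hs hsy h => by
    have := hDs h
    simp only [Finset.mem_sdiff, Finset.mem_singleton, not_and, not_not] at this
    exact hsy (this.2 hs)
  set R : Finset V := (vs Δ).filter fun u => u ≠ a ∧ u ∉ D ∧ ¬ touch Δ {u} D ∧ ¬ ConesDel Δ a u
    with hR
  have hvR : v ∈ R := by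
    rw [hR, Finset.mem_filter]
    exact ⟨hv, hva, hvD, hnt, hvc⟩
  obtain ⟨Q, hQ, hvQ⟩ := exists_comp (Δ := Δ) (U := R) (Finset.filter_subset _ _) hvR
  have hQR : ∀ u ∈ Q, u ∈ vs Δ ∧ u ≠ a ∧ u ∉ D ∧ ¬ touch Δ {u} D ∧ ¬ ConesDel Δ a u := fun u hu => by
    have := hQ.1 hu
    rwa [hR, Finset.mem_filter] at this
  set K : Finset V := (vs Δ).filter fun u => ConesDel Δ a u with hK
  set N : Finset V := (vs Δ).filter fun u => u ≠ a ∧ u ∉ Q ∧ ¬ ConesDel Δ a u ∧ touch Δ {u} Q with hN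
  have hNm : ∀ q ∈ N, q ∈ vs Δ ∧ q ≠ a ∧ q ∉ Q ∧ ¬ ConesDel Δ a q ∧ touch Δ {q} Q := fun q hq => by
    rwa [hN, Finset.mem_filter] at hq
  have hQD : Disjoint Q D := Finset.disjoint_left.2 fun u hu => (hQR u hu).2.2.1
  have hND : ∀ q ∈ N, q ∉ D := fun q hq hqD => by
    obtain ⟨x, hx, u, hu, hxu⟩ := (hNm q hq).2.2.2.2
    rw [Finset.mem_singleton] at hx
    subst hx
    exact (hQR u hu).2.2.2.1 ⟨u, by simp, x, hqD, adj_symm hxu⟩
  have hNt : ∀ q ∈ N, touch Δ {q} D := fun q hq => by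
    by_contra hn
    obtain ⟨h1, h2, h3, h4, h5⟩ := hNm q hq
    have hqR : q ∈ R := by
      rw [hR, Finset.mem_filter]
      exact ⟨h1, h2, hND q hq, hn, h4⟩
    obtain ⟨x, hx, u, hu, hxu⟩ := h5
    rw [Finset.mem_singleton] at hx
    subst hx
    exact h3 (hQ.mem_of_adj hu hqR (adj_symm hxu))
  have hNS : ∀ q ∈ N, q ∈ nb Δ {a} := fun q hq => by
    by_contra hn
    obtain ⟨h1, h2, h3, h4, h5⟩ := hNm q hq
    obtain ⟨x, hx, u, hu, hxu⟩ := hNt q hq
    rw [Finset.mem_singleton] at hx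
    subst hx
    refine hND x hq (hD.mem_of_adj hu ?_ (adj_symm hxu))
    simp [h1, h2, hn]
  have hNadj : ∀ q1 ∈ N, ∀ q2 ∈ N, q1 ≠ q2 → adj Δ q1 q2 := fun q1 h1 q2 h2 hne => by
    obtain ⟨a1, a2, a3, a4, a5⟩ := hNm q1 h1
    obtain ⟨b1, b2, b3, b4, b5⟩ := hNm q2 h2
    have haq1 : adj Δ a q1 := hΔ.mem_nb_single.1 (hNS q1 h1)
    have haq2 : adj Δ a q2 := hΔ.mem_nb_single.1 (hNS q2 h2)
    have hkq1 : k ≠ q1 := fun h => a4 (h ▸ hkc)
    have hkq2 : k ≠ q2 := fun h => b4 (h ▸ hkc)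
    have hk1 : adj Δ k q1 := HT7c_adj hΔ hkc a1 a2 hkq1.symm
    have hk2 : adj Δ k q2 := HT7c_adj hΔ hkc b1 b2 hkq2.symm
    have hky : adj Δ k y := HT7c_adj hΔ hkc hyv hay.1.symm hyk
    have hkD : k ∉ D := hSD k (hcS k hk hkc) hyk.symm
    have hkQ : k ∉ Q := fun h => (hQR k h).2.2.2.2 hkc
    have haQ : a ∉ Q := fun h => (hQR a h).2.1 rfl
    have hCM : CM Δ [D, {a}, {k}, {q1}, insert q2 Q] := by
      refine HRul_cons hDc ?_ (HRul_cons (conn_single hav) ?_ (HRul_cm3 (conn_single hk)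
        (conn_single a1) (hQ.2.1.insert b1 b5) (HRul_pair hk1) ⟨?_, ?_⟩ ⟨?_, ?_⟩))
      · intro X hX
        simp only [List.mem_cons, List.not_mem_nil, or_false] at hX
        rcases hX with rfl | rfl | rfl | rfl
        · exact ⟨by simpa using haD, ⟨y, hyD, a, by simp, adj_symm hay⟩⟩
        · exact ⟨by simpa using hkD, ⟨y, hyD, k, by simp, adj_symm hky⟩⟩
        · exact ⟨by simpa using hND q1 h1, touch_symm (hNt q1 h1)⟩
        · refine ⟨?_, ?_⟩
          · rw [Finset.disjoint_insert_right]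
            exact ⟨hND q2 h2, hQD.symm⟩
          · exact touch_mono (Finset.Subset.refl _) (by simp) (touch_symm (hNt q2 h2))
      · intro X hX
        simp only [List.mem_cons, List.not_mem_nil, or_false] at hX
        rcases hX with rfl | rfl | rfl
        · exact HRul_pair hka
        · exact HRul_pair haq1
        · refine ⟨?_, ⟨a, by simp, q2, by simp, haq2⟩⟩
          rw [Finset.disjoint_singleton_left, Finset.mem_insert]
          rintro (h | h)
          · exact haq2.1 h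
          · exact haQ h
      · rw [Finset.disjoint_singleton_left, Finset.mem_insert]
        rintro (h | h)
        · exact hkq2 h
        · exact hkQ h
      · exact ⟨k, by simp, q2, by simp, hk2⟩
      · rw [Finset.disjoint_singleton_left, Finset.mem_insert]
        rintro (h | h)
        · exact hne h
        · exact a3 h
      · exact touch_mono (Finset.Subset.refl _) (Finset.subset_insert _ _) a5
    rcases hin.k5 _ _ _ _ _ hCM with ⟨F, hF, hm⟩ | ⟨F, hF, hm⟩
    · exfalso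
      obtain ⟨d, hd⟩ := hm D (by simp)
      have haF := HRul_mem (hm {a} (by simp))
      have hkF := HRul_mem (hm {k} (by simp))
      rw [Finset.mem_inter] at hd
      have hda : d ≠ a := fun h => haD (h ▸ hd.2)
      have hds : d ∈ nb Δ {a} := hΔ.mem_nb_single.2 (hΔ.adj_of_face hF haF hd.1 hda.symm)
      have hdy : d = y := by
        by_contra hne'
        exact hSD d hds hne' hd.2
      subst hdy
      refine haky (hΔ.down F hF _ ?_)
      intro x hx
      simp only [Finset.mem_insert, Finset.mem_singleton] at hx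
      rcases hx with rfl | rfl | rfl
      · exact haF
      · exact hkF
      · exact hd.1
    · obtain ⟨d, hd⟩ := hm D (by simp)
      have hq1F := HRul_mem (hm {q1} (by simp))
      rw [Finset.mem_inter] at hd
      rcases HRul_meet (hm (insert q2 Q) (by simp)) with h | ⟨u, hu⟩
      · exact hΔ.adj_of_face hF hq1F h hne
      · exfalso
        rw [Finset.mem_inter] at hu
        have hud : u ≠ d := fun h => (hQR u hu.2).2.2.1 (h ▸ hd.2)
        exact (hQR u hu.2).2.2.2.1 ⟨u, by simp, d, hd.2, hΔ.adj_of_face hF hu.1 hd.1 hud⟩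
  have hpl : Pl Δ {a} B := Full.pl hΔ hM
  have hNF : N ∈ Δ := by
    refine hin.mem_of_noHol ⟨fun q hq => (hNm q hq).1, hNadj⟩ ?_
    intro x hx z hz w hw hh
    apply hncl
    refine ⟨nb_sub, ?_⟩
    intro s hs t ht hst
    exact Pl.r2 hin hpl (Full.com hM (hNS x hx)) (Full.com hM (hNS z hz)) (Full.com hM (hNS w hw)) hh
      (Full.com hM hs) (Full.com hM ht) hst
  have haN : a ∉ N := fun h => (hNm a h).2.1 rfl
  have haK : a ∉ K := fun h => by
    rw [hK, Finset.mem_filter] at h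
    exact h.2.1 rfl
  have hNK : N ∪ K ∈ Δ := HT7c_ins hΔ hNF haN fun k hk => by
    rw [hK, Finset.mem_filter] at hk
    exact hk.2
  refine (ns_del_iff hΔ).2 ⟨N ∪ K, Q, ((vs Δ \ {a}) \ (N ∪ K)) \ Q, ?_⟩ hns
  refine ⟨hNK, ?_, ?_, Finset.disjoint_sdiff, ⟨v, hvQ⟩, ⟨y, ?_⟩, ?_⟩
  · rw [Finset.mem_union]
    rintro (h | h)
    · exact haN h
    · exact haK h
  · apply Finset.union_sdiff_of_subset
    intro u hu
    obtain ⟨c1, c2, c3, c4, c5⟩ := hQR u hu
    simp only [Finset.mem_sdiff, Finset.mem_singleton, Finset.mem_union, not_or]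
    refine ⟨⟨c1, c2⟩, fun h => (hNm u h).2.2.1 hu, fun h => ?_⟩
    rw [hK, Finset.mem_filter] at h
    exact c5 h.2
  · simp only [Finset.mem_sdiff, Finset.mem_singleton, Finset.mem_union, not_or]
    refine ⟨⟨⟨hyv, hay.1.symm⟩, fun h => hND y h hyD, fun h => ?_⟩, fun h => (hQR y h).2.2.1 hyD⟩
    rw [hK, Finset.mem_filter] at h
    exact hyc h.2
  · rintro ⟨q, hq, r, hr, hqr⟩
    simp only [Finset.mem_sdiff, Finset.mem_singleton, Finset.mem_union, not_or] at hr
    obtain ⟨⟨⟨r1, r2⟩, r3, r4⟩, r5⟩ := hr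
    apply r3
    rw [hN, Finset.mem_filter]
    refine ⟨r1, r2, r5, fun h => r4 ?_, ⟨r, by simp, q, hq, adj_symm hqr⟩⟩
    rw [hK, Finset.mem_filter]
    exact ⟨r1, h⟩

end Pool.Agent.Lib.MP_73b196_co.St
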