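import Pool.Agent.Lib.MP_73b196_co.St.HSpecB

/-!
# Theorem H: HT7d
-/

set_option autoImplicit false

namespace Pool.Agent.Lib.MP_73b196_co.St

/-- One side: `a` has a neighbour in `P`. -/
theorem HT7d_aux {V : Type} [Fintype V] [DecidableEq V] {Δ : Set (Finset V)} (hΔ : Bad Δ)
    {a : V} {F P Q : Finset V} (ha : a ∈ vs Δ) (hF : F ∈ Δ) (haF : a ∉ F)
    (hun : P ∪ Q = (vs Δ \ {a}) \ F) (hd : Disjoint P Q) (hP : P.Nonempty) (hnt : ¬ touch Δ P Q) :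
    ∃ u ∈ P, adj Δ a u := by
  have hc := hΔ.conn F hF
  have haP : a ∉ P := by
    intro h1
    have h2 : a ∈ P ∪ Q := Finset.mem_union_left _ h1
    rw [hun] at h2
    simp at h2
  have hu : P ∪ insert a Q = vs Δ \ F := by
    rw [Finset.union_insert, hun]
    ext t
    simp only [Finset.mem_sdiff, Finset.mem_insert, Finset.mem_singleton]
    constructor
    · rintro (rfl | h1)
      · exact ⟨ha, haF⟩
      · exact ⟨h1.1.1, h1.2⟩
    · rintro ⟨h1, h2⟩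
      by_cases hta : t = a
      · exact Or.inl hta
      · exact Or.inr ⟨⟨h1, hta⟩, h2⟩
  have hdd : Disjoint P (insert a Q) := Finset.disjoint_insert_right.2 ⟨haP, hd⟩
  obtain ⟨p, hp, q, hq, hpq⟩ := hc.touch_of hP (Finset.insert_nonempty a Q) hdd hu
  rcases Finset.mem_insert.1 hq with rfl | hq
  · exact ⟨p, hp, adj_symm hpq⟩
  · exact absurd ⟨p, hp, q, hq, hpq⟩ hnt

theorem HT7d_both {V : Type} [Fintype V] [DecidableEq V] {Δ : Set (Finset V)} (hΔ : Bad Δ)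
    {a : V} {F P Q : Finset V} (ha : a ∈ vs Δ) (hfs : FS Δ a F P Q) :
    (∃ u ∈ P, adj Δ a u) ∧ ∃ w ∈ Q, adj Δ a w := by
  refine ⟨HT7d_aux hΔ ha hfs.face hfs.na hfs.un hfs.d hfs.neP hfs.nt, ?_⟩
  refine HT7d_aux (Q := P) hΔ ha hfs.face hfs.na ?_ hfs.d.symm hfs.neQ
    (fun h => hfs.nt (touch_symm h))
  rw [Finset.union_comm]
  exact hfs.un

theorem tHT7d (h7 : StmtHT7) : StmtHT7d := by
  intro V _ _ Δ hΔ
  refine ⟨fun a F P Q ha hfs => HT7d_both hΔ ha hfs, ?_⟩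
  intro a B hm hclq
  obtain ⟨F, P, Q, hfs⟩ := h7 V Δ hΔ a B hm
  have hcx := hΔ.inP.cx
  have ha : a ∈ vs Δ := hm.cA.1 (Finset.mem_singleton_self a)
  obtain ⟨⟨u, hu, hau⟩, w, hw, haw⟩ := HT7d_both hΔ ha hfs
  refine hfs.nt ⟨u, hu, w, hw, hclq.2 u (hcx.mem_nb_single.2 hau) w (hcx.mem_nb_single.2 haw) ?_⟩
  rintro rfl
  exact Finset.disjoint_left.1 hfs.d hu hw

end Pool.Agent.Lib.MP_73b196_co.St
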