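import Pool.Agent.Lib.MP_73b196_co.St.HBas

/-!
# Tools for clique models (with common neighbours of two poles)
-/

set_option autoImplicit false

namespace Pool.Agent.Lib.MP_73b196_co.St

variable {V : Type} [Fintype V] [DecidableEq V] {Δ : Set (Finset V)} {A B C S F X K : Finset V}
  {a b c d e f p s v w x y z p1 p2 p3 p4 : V}

/-- Clique models with three sets. -/
theorem HTool_cm3 {A B C : Finset V} (hA : Conn Δ A) (hB : Conn Δ B) (hC : Conn Δ C)
    (hAB : Disjoint A B ∧ touch Δ A B) (hAC : Disjoint A C ∧ touch Δ A C)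
    (hBC : Disjoint B C ∧ touch Δ B C) : CM Δ [A, B, C] := by
  refine ⟨?_, ?_⟩
  · intro E hE
    simp only [List.mem_cons, List.not_mem_nil, or_false] at hE
    rcases hE with rfl | rfl | rfl <;> assumption
  · simp only [List.pairwise_cons, List.mem_cons, List.not_mem_nil, or_false, forall_eq_or_imp,
      forall_eq, false_imp_iff, implies_true, List.Pairwise.nil, and_true]
    exact ⟨⟨hAB, hAC⟩, hBC⟩

/-- Clique models with one more set. -/
theorem HTool_cons {L : List (Finset V)} (hA : Conn Δ A)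
    (hL : ∀ B ∈ L, Disjoint A B ∧ touch Δ A B) (h : CM Δ L) : CM Δ (A :: L) := by
  refine ⟨?_, List.pairwise_cons.2 ⟨hL, h.2⟩⟩
  intro E hE
  rcases List.mem_cons.1 hE with rfl | hE
  · exact hA
  · exact h.1 E hE

theorem HTool_pair (h : adj Δ a b) :
    Disjoint ({a} : Finset V) {b} ∧ touch Δ {a} {b} :=
  ⟨Finset.disjoint_singleton.2 h.1, touch_single.2 h⟩

theorem HTool_vs (h : IsCx Δ) (ht : touch Δ {x} A) : x ∈ vs Δ := by
  obtain ⟨b, _, hb⟩ := touch_single_left.1 ht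
  exact (h.adj_vs hb).1

theorem HTool_sing (h : IsCx Δ) (hxA : x ∉ A) (ht : touch Δ {x} A) :
    Conn Δ {x} ∧ (Disjoint A {x} ∧ touch Δ A {x}) ∧ (Disjoint {x} A ∧ touch Δ {x} A) :=
  ⟨conn_single (HTool_vs h ht), ⟨Finset.disjoint_singleton_right.2 hxA, touch_symm ht⟩,
    Finset.disjoint_singleton_left.2 hxA, ht⟩

/-- The set `B + y` in clique models with `A` and common neighbours. -/
theorem HTool_ins (h : IsCx Δ) (hp : Pl Δ A B) (hy : Com Δ A B y) :
    Conn Δ (insert y B) ∧ (Disjoint A (insert y B) ∧ touch Δ A (insert y B)) ∧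
      ∀ x, Com Δ A B x → x ≠ y → Disjoint {x} (insert y B) ∧ touch Δ {x} (insert y B) := by
  refine ⟨hp.cB.insert (HTool_vs h hy.2.2.1) hy.2.2.2, ⟨?_, ?_⟩, ?_⟩
  · rw [Finset.disjoint_insert_right]
    exact ⟨hy.1, hp.d⟩
  · exact touch_mono (Finset.Subset.refl _) (Finset.singleton_subset_iff.2
      (Finset.mem_insert_self _ _)) (touch_symm hy.2.2.1)
  · intro x hx hxy
    refine ⟨?_, touch_mono (Finset.Subset.refl _) (Finset.subset_insert _ _) hx.2.2.2⟩
    rw [Finset.disjoint_singleton_left, Finset.mem_insert]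
    rintro (e | e)
    · exact hxy e
    · exact hx.2.1 e

omit [Fintype V] in
theorem HTool_meet {F : Finset V} (h : (F ∩ insert y B).Nonempty) :
    y ∈ F ∨ (F ∩ B).Nonempty := by
  obtain ⟨w, hw⟩ := h
  rw [Finset.mem_inter, Finset.mem_insert] at hw
  rcases hw.2 with e | e
  · exact Or.inl (e ▸ hw.1)
  · exact Or.inr ⟨w, Finset.mem_inter.2 ⟨hw.1, e⟩⟩

omit [Fintype V] in
theorem HTool_mem {F : Finset V} (h : (F ∩ {y}).Nonempty) : y ∈ F := by
  obtain ⟨w, hw⟩ := h
  rw [Finset.mem_inter, Finset.mem_singleton] at hw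
  exact hw.2 ▸ hw.1

omit [Fintype V] in
theorem HTool_ne {F : Finset V} (h : y ∈ F) : (F ∩ {y}).Nonempty :=
  ⟨y, Finset.mem_inter.2 ⟨h, Finset.mem_singleton_self _⟩⟩

/-- A face which meets `A` and `B + y` contains `y`. -/
theorem HTool_fill (h : IsCx Δ) (hp : Pl Δ A B) {L : List (Finset V)} (hL : A ∈ L)
    (hf : fill Δ (insert y B :: L)) : fill Δ ({y} :: L) := by
  obtain ⟨F, hF, hFL⟩ := hf
  refine ⟨F, hF, ?_⟩
  intro E hE
  rcases List.mem_cons.1 hE with rfl | hE
  · rcases HTool_meet (hFL _ (List.mem_cons_self ..)) with e | e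
    · exact HTool_ne e
    · exact (hp.no_face h hF (hFL A (List.mem_cons_of_mem _ hL)) e).elim
  · exact hFL E (List.mem_cons_of_mem _ hE)

/-- A face which contains `x`, not adjacent to `y`, and meets `B + y`, meets `B`. -/
theorem HTool_fill' (h : IsCx Δ) (hn : ¬ adj Δ x y) (hxy : x ≠ y) {L : List (Finset V)}
    (hL : {x} ∈ L) (hf : fill Δ (insert y B :: L)) : fill Δ (B :: L) := by
  obtain ⟨F, hF, hFL⟩ := hf
  refine ⟨F, hF, ?_⟩
  intro E hE
  rcases List.mem_cons.1 hE with rfl | hE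
  · rcases HTool_meet (hFL _ (List.mem_cons_self ..)) with e | e
    · exact (hn (h.adj_of_face hF (HTool_mem (hFL _ (List.mem_cons_of_mem _ hL))) e hxy)).elim
    · exact e
  · exact hFL E (List.mem_cons_of_mem _ hE)

theorem HTool_not (h : IsCx Δ) (hp : Pl Δ A B) (hxy : x ≠ y) (hn : ¬ adj Δ x y)
    {L : List (Finset V)} (hA : A ∈ L) (hx : {x} ∈ L) (hB : insert y B ∈ L) : ¬ fill Δ L := by
  rintro ⟨F, hF, hFL⟩
  rcases HTool_meet (hFL _ hB) with e | e
  · exact hn (h.adj_of_face hF (HTool_mem (hFL _ hx)) e hxy)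
  · exact hp.no_face h hF (hFL _ hA) e

theorem HTool_up {L L' : List (Finset V)} (h : fill Δ L) (hh : ∀ E ∈ L', ∃ E' ∈ L, E' ⊆ E) :
    fill Δ L' := by
  obtain ⟨F, hF, hFL⟩ := h
  refine ⟨F, hF, fun E hE => ?_⟩
  obtain ⟨E', hE', hs⟩ := hh E hE
  exact (hFL E' hE').mono (Finset.inter_subset_inter_left hs)


end Pool.Agent.Lib.MP_73b196_co.St
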