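import Pool.Agent.Lib.MP_73b196_co.St.FinSpec

/-!
# I6: all complexes of the class have Markov degree at most four
-/

set_option autoImplicit false
set_option linter.unusedSectionVars false

namespace Pool.Agent.Lib.MP_73b196_co.St

open Pool.Agent.Lib.MP_73b196_co.Fib (Dg PP ad cone pw On)

variable {V : Type} [Fintype V] [DecidableEq V] {Δ : Set (Finset V)}

theorem I6_mono {n m : ℕ} (h : n ≤ m) (hD : HD V m) : HD V n := fun Δ hc =>
  hD Δ (lt_of_lt_of_le hc h)

theorem I6_monoE {n m : ℕ} (h : n ≤ m) (hE : HE V m) : HE V n := fun Δ x y hc =>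
  hE Δ x y (lt_of_lt_of_le hc h)

theorem tI6 (hS2 : StmtS2) (hH7 : StmtH7) (hI1 : StmtI1) (hI2 : StmtI2) (hI3 : StmtI3)
    (hI4 : StmtI4) (hI5 : StmtI5) : StmtI6 := by
  intro V _ _ Δ hP
  have key : ∀ n : ℕ, HD V n ∧ HE V n := by
    intro n
    induction n with
    | zero => exact ⟨fun Δ h => absurd h (Nat.not_lt_zero _), fun Δ x y h => absurd h (Nat.not_lt_zero _)⟩
    | succ n ih =>
      refine ⟨?_, ?_⟩
      · intro Δ hn hP
        have hD : HD V (vs Δ).card := I6_mono (Nat.lt_succ_iff.1 hn) ih.1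
        have hE : HE V (vs Δ).card := I6_monoE (Nat.lt_succ_iff.1 hn) ih.2
        by_cases h0 : vs Δ = ∅ ∨ ∃ p, Apex Δ p
        · exact hI1 V Δ hD hP h0
        rw [not_or] at h0
        obtain ⟨h0, hap⟩ := h0
        by_cases hconn : ∀ F ∈ Δ, Conn Δ (vs Δ \ F)
        · have hI : Irr Δ := ⟨fun p hp => hap ⟨p, hp⟩, hconn⟩
          rcases hS2 V Δ hP hI with ⟨x, y, hxy⟩ | h | ⟨a, b, c, hab, hac, hbc, hnf, hnc⟩
          · exact hI5 V Δ x y hD hE ⟨hP, hI, hxy⟩
          · exact hI3 V Δ hD hE hP hI h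
          · exact hI4 V Δ a b c hD hP hI hab hac hbc hnf hnc
        · push Not at hconn
          obtain ⟨F, hF, hn'⟩ := hconn
          by_cases hne : (vs Δ \ F).Nonempty
          · obtain ⟨A, B, h1, h2, h3, h4, h5⟩ := not_conn Finset.sdiff_subset hne hn'
            exact hI2 V Δ F A B hD hP hF h1 h2 h3 h4 h5
          · exfalso
            rw [Finset.sdiff_nonempty, not_not] at hne
            obtain ⟨p, hp⟩ := Finset.nonempty_iff_ne_empty.2 h0
            refine hap ⟨p, fun G hG => hP.cx.down F hF _ ?_⟩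
            rw [Finset.insert_subset_iff]
            exact ⟨hne hp, (hP.cx.sub_vs hG).trans hne⟩
      · intro Δ x y hn hP hxy
        have hD : HD V (vs Δ).card := I6_mono (Nat.lt_succ_iff.1 hn) ih.1
        have hE : HE V (vs Δ).card := I6_monoE (Nat.lt_succ_iff.1 hn) ih.2
        exact hH7 V Δ x y hD hE hP hxy
  exact (key ((vs Δ).card + 1)).1 Δ (Nat.lt_succ_self _) hP

end Pool.Agent.Lib.MP_73b196_co.St
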