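import Pool.Agent.Lib.MP_73b196_co.St.Spec

/-!
# A minimum separator exists
-/

set_option autoImplicit false

namespace Pool.Agent.Lib.MP_73b196_co.St

variable {V : Type} [Fintype V] [DecidableEq V] {Δ : Set (Finset V)} {x y : V}

/-- The set of all vertices except `x`, `y` separates `x` from `y` in `Δ` minus the facet `xy`. -/
theorem Min_spl (h : Ctx Δ x y) : Spl Δ x y (vs Δ \ {x, y}) {x} {y} := by
  have hsub := h.inP.cx.sub_vs h.ef.mem
  have hx : x ∈ vs Δ := hsub (by simp)
  have hy : y ∈ vs Δ := hsub (by simp)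
  refine ⟨?_, ?_, ?_, ?_, by simp, by simp, ?_⟩
  · ext v
    simp only [Finset.mem_union, Finset.mem_sdiff, Finset.mem_insert, Finset.mem_singleton]
    constructor
    · rintro ((rfl | h1) | rfl)
      · exact hx
      · exact h1.1
      · exact hy
    · intro hv
      tauto
  · rw [Finset.disjoint_singleton_left]
    simp
  · rw [Finset.disjoint_singleton_left, Finset.mem_singleton]
    exact h.ef.ne
  · rw [Finset.disjoint_singleton_right]
    simp
  · intro F hF
    have hFs := h.inP.cx.sub_vs hF
    by_cases h1 : x ∈ F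
    · by_cases h2 : y ∈ F
      · exact Or.inr (Or.inr (h.ef.facet F hF h1 h2))
      · left
        intro v hv
        have hvs := hFs hv
        simp only [Finset.mem_union, Finset.mem_sdiff, Finset.mem_insert, Finset.mem_singleton]
        by_cases h3 : v = x
        · exact Or.inl h3
        · by_cases h4 : v = y
          · exact absurd (h4 ▸ hv) h2
          · exact Or.inr ⟨hvs, by simp [h3, h4]⟩
    · right; left
      intro v hv
      have hvs := hFs hv
      simp only [Finset.mem_union, Finset.mem_sdiff, Finset.mem_insert, Finset.mem_singleton]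
      by_cases h3 : v = y
      · exact Or.inl h3
      · by_cases h4 : v = x
        · exact absurd (h4 ▸ hv) h1
        · exact Or.inr ⟨hvs, by simp [h3, h4]⟩

theorem tMin (hA4 : StmtA4) : StmtMin := by
  classical
  intro V _ _ Δ x y h
  have hex : ∃ n, ∃ S X Y : Finset V, Spl Δ x y S X Y ∧ S.card = n :=
    ⟨_, _, _, _, Min_spl h, rfl⟩
  obtain ⟨S, X, Y, hS, hc⟩ := Nat.find_spec hex
  have hmin : ∀ S' X' Y', Spl Δ x y S' X' Y' → S.card ≤ S'.card := by
    intro S' X' Y' h'
    rw [hc]
    exact Nat.find_min' hex ⟨S', X', Y', h', rfl⟩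
  obtain ⟨T, X', Y', hT, hMS⟩ := hA4 V Δ x y S X Y h hS
  exact ⟨T, X', Y', hMS, fun S' X'' Y'' h' => (Finset.card_le_card hT).trans (hmin S' X'' Y'' h')⟩

end Pool.Agent.Lib.MP_73b196_co.St
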