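import Pool.Agent.Lib.MP_73b196_co.St.Cyc
import Pool.Agent.Lib.MP_73b196_co.St.HDefs

/-!
# S2, first half: no covering hollow partition (statements with complete proofs in the docstrings)

Definitions: `St/Defs.lean`, `St/Cyc.lean` (hollow cycles `HC Δ n z`, arcs, `Off`, `At`, `Fl`; read its lemmas
first: `HC.cm`, `HC.not_fill`, `HC.fill_arcs`, `HC.fill_arcs_wrap`, `HC.no_three`, `HC.not_adj`, `HC.adj_window`,
`HC.window`, `HC.strict_window`, `HC.shift`, `HC.refl`, `fl_shift`, `fl_refl`, `touch_arc`, `fl_union`, `Fl.at`,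
`Fl.face`, `HC.comp_off`, `HC.comp_closed`, `comp_disj`, `HC.ctr_at`, `HC.sm_at`, `HC.sm_fl`, `HC.bg_fl`, `HC.bg_at` and
the transfer lemmas for shifts, reflections and congruent indices); rules for models:
`St/Rules.lean` (`k4two`, `k4three`, `k4all`, `Rules_sub`), `InP.k5`, `InP.x6`; connected sets: `St/Base.lean`,
components: `St/Comp.lean`. One module `St/<Name>.lean` for each statement, theorem
`Pool.Agent.Lib.MP_73b196_co.St.t<Name>`; the statements under `uses` are hypotheses, e.g.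
`theorem tY2 (h1 : StmtY1) : StmtY2`.

Notation in the docstrings: `n`, `z` the hollow cycle, indices are integers, `z (i+n) = z i`; edge `i` is the edge
`z i, z (i+1)`; `[a,b)` is the arc `arc z a b`; cut `i` is the place between `z i` and `z (i+1)`. `K4{A,B,C,D}`: show
`CM Δ [A,B,C,D]`, apply `k4three` or `k4all`. All statements are invariant under shifting and reflecting the
cycle (`HC.shift`, `HC.refl`), so an index may be normalised.
-/

set_option autoImplicit false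

namespace Pool.Agent.Lib.MP_73b196_co.St

/-! ## The gap lemma -/

/-- **Y1** Gap lemma. Proof. `P = [a,b)`, `Q = [b,c)`, `R = [c,a+n)`, `CM Δ [X,P,Q,R]` (`HC.cm`, `touch_arc`,
`Off.disj`), `[P,Q,R]` is not filled (`HC.not_fill`). `[X,P,Q]`, `[X,Q,R]`, `[X,P,R]` are filled iff `Fl (b-1)`,
`Fl (c-1)`, `Fl (a-1)` (`HC.fill_arcs`, `HC.fill_arcs_wrap`). If two of them fail then `k4three`. -/
def StmtY1 : Prop := ∀ (V : Type) [Fintype V] [DecidableEq V] (Δ : Set (Finset V)) (n : ℕ)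
  (z : ℤ → V) (X : Finset V) (a b c : ℤ), InP Δ → HC Δ n z → Conn Δ X → Off z X →
  a < b → b < c → c < a + n → (∃ i, a ≤ i ∧ i < b ∧ At Δ z X i) →
  (∃ i, b ≤ i ∧ i < c ∧ At Δ z X i) → (∃ i, c ≤ i ∧ i < a + n ∧ At Δ z X i) →
  (Fl Δ z X (a - 1) ∨ Fl Δ z X (b - 1)) ∧ (Fl Δ z X (a - 1) ∨ Fl Δ z X (c - 1)) ∧
    (Fl Δ z X (b - 1) ∨ Fl Δ z X (c - 1))

/-- **Y2** (uses `Y1`) The attachments form an interval. Proof. Move the three attachments of `At3` into the
window `e < i ≤ e+n` (`HC.window`, `HC.at_congr`; they stay different). Let `a` be the least and `b` the greatest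
attachment in the window; a third one `j` satisfies `a < j < b`. Let `a ≤ i < b` and suppose `¬ Fl i`. If `j ≤ i`:
`Y1` for the arcs `[e+1,j), [j,i+1), [i+1,e+1+n)` (they contain `a`, `j`, `b`): `Fl e` or `Fl i`, contradiction.
If `i < j`: `Y1` for `[e+1,i+1), [i+1,j+1), [j+1,e+1+n)` (`a`, `j`, `b`): again `Fl e` or `Fl i`. -/
def StmtY2 : Prop := ∀ (V : Type) [Fintype V] [DecidableEq V] (Δ : Set (Finset V)) (n : ℕ)
  (z : ℤ → V) (X : Finset V) (e : ℤ), InP Δ → HC Δ n z → Conn Δ X → Off z X → At3 Δ n z X →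
  ¬ Fl Δ z X e → ∃ a b : ℤ, e < a ∧ a + 2 ≤ b ∧ b ≤ e + n ∧ (∀ i, a ≤ i → i < b → Fl Δ z X i) ∧
    (∀ i, e < i → i < a → ¬ At Δ z X i) ∧ (∀ i, b < i → i ≤ e + n → ¬ At Δ z X i)

/-- **Y3** (uses `Y2`) Every attachment is an end of a filled edge, and two consecutive edges are filled. Proof.
If all edges are filled this is clear. Otherwise take `e` with `¬ Fl e` and `a`, `b` from `Y2`. The index `i` is
congruent to some `j` with `e < j ≤ e+n` (`HC.window` for `e+1`), so `a ≤ j ≤ b` and `Fl j` (`j < b`) or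
`Fl (j-1)` (`j = b`). `Fl a` and `Fl (a+1)`. -/
def StmtY3 : Prop := ∀ (V : Type) [Fintype V] [DecidableEq V] (Δ : Set (Finset V)) (n : ℕ)
  (z : ℤ → V) (X : Finset V), InP Δ → HC Δ n z → Conn Δ X → Off z X → At3 Δ n z X →
  (∀ i, At Δ z X i → Fl Δ z X (i - 1) ∨ Fl Δ z X i) ∧ ∃ i, Fl Δ z X i ∧ Fl Δ z X (i + 1)

/-! ## The fan lemma: two components of the complement of an induced cycle -/

/-- **Y4** Proof. Suppose `Fl X (i-1)` and `Fl X (i+1)`. `K4{X, X' ∪ [i+2,i+n), {z i}, {z (i+1)}}`: `X'` touches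
`[i+2,i+n)` (`At3 X'`: at most two attachments are congruent to `i`, `i+1`), `X` touches it (`Fl X (i+1)` gives
`At X (i+2)`). All triples are filled: `X, .., z i` by the edge `i-1` (`z (i-1) = z (i-1+n)` is in the arc),
`X, .., z (i+1)` by the edge `i+1`, `X, z i, z (i+1)`, and `.., z i, z (i+1)` by `Fl X' i`. `k4all` gives a face
`F` with `x ∈ X`, `z i`, `z (i+1)` and `y`: `y ∈ X'` contradicts `¬ touch X X'`, `y = z j`, `i+2 ≤ j < i+n`
contradicts `HC.no_three`. -/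
def StmtY4 : Prop := ∀ (V : Type) [Fintype V] [DecidableEq V] (Δ : Set (Finset V)) (n : ℕ)
  (z : ℤ → V) (X X' : Finset V) (i : ℤ), InP Δ → HC Δ n z → 4 ≤ n → Conn Δ X → Conn Δ X' →
  Off z X → Off z X' → Disjoint X X' → ¬ touch Δ X X' → At3 Δ n z X' → Fl Δ z X i → Fl Δ z X' i →
  ¬ (Fl Δ z X (i - 1) ∧ Fl Δ z X (i + 1))

/-- **Y5** Proof. `InP.x6` with `v = [4,n+1)`, `w = {z 3}`, `s = X`, `t = {z 2}`, `u = {z 1}`, `z = X'`. Filled:
`v,w,s` by the edge 3, `w,s,t` by the edge 2, `s,t,u` by the edge 1 (`X`), `t,u,z` by the edge 1 (`X'`), `u,z,v` by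
the edge 0 (`X'`; `z 0 = z n` is in `v`). `v,s,u` is not filled: a face with `z j` (`4 ≤ j ≤ n`), `x`, `z 1` has
`z j` adjacent to `z 1`, so `j = n` and `Fl X 0`. Not touching: `v,t` (`HC.arc_not_touch`), `w,u` (`n ≥ 4`), `w,z`
(`¬ At X' 3`), `s,z`. -/
def StmtY5 : Prop := ∀ (V : Type) [Fintype V] [DecidableEq V] (Δ : Set (Finset V)) (n : ℕ)
  (z : ℤ → V) (X X' : Finset V), InP Δ → HC Δ n z → 4 ≤ n → Conn Δ X → Conn Δ X' →
  Off z X → Off z X' → Disjoint X X' → ¬ touch Δ X X' → ¬ Fl Δ z X 0 → Fl Δ z X 1 →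
  Fl Δ z X 2 → Fl Δ z X 3 → Fl Δ z X' 0 → Fl Δ z X' 1 → ¬ At Δ z X' 3 → False

/-- **Y6** Proof. Here `n = 4`, `z 4 = z 0`. `K4{X ∪ {z 0}, {z 1}, {z 2, z 3}, X'}`: `X` touches `z 0 = z 4`
(`Fl X 3`). All triples are filled: `X z1 z2`, `z0 z1 X'`, `z0 z3 X'` (`Fl X' 3`, `z 4 = z 0`), `z1 z2 X'`. `k4all`:
a face with `x'`, `z 1`, one of `z 2, z 3` and one element of `X ∪ {z 0}`: an element of `X` contradicts
`¬ touch X X'`, `z 0` contradicts `HC.no_three`. -/
def StmtY6 : Prop := ∀ (V : Type) [Fintype V] [DecidableEq V] (Δ : Set (Finset V))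
  (z : ℤ → V) (X X' : Finset V), InP Δ → HC Δ 4 z → Conn Δ X → Conn Δ X' →
  Off z X → Off z X' → Disjoint X X' → ¬ touch Δ X X' → Fl Δ z X 1 →
  Fl Δ z X 2 → Fl Δ z X 3 → Fl Δ z X' 0 → Fl Δ z X' 1 → Fl Δ z X' 3 → False

/-- **Y7** (uses `Y2`, `Y4`, `Y5`, `Y6`) Proof. Shift so that `i = 1`: `Fl X 1`, `Fl X' 1`; show `Ctr X 1` or
`Ctr X 2`. By `Y4` not both `Fl X 0`, `Fl X 2`; `X` has two consecutive filled edges near: by symmetry
(reflection `i ↦ 3 - i` of the vertices, which exchanges the edges 0 and 2 and fixes the edge 1, and exchanges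
`Ctr 1`, `Ctr 2`) assume `¬ Fl X 0`. `Y2` with `e = 0`: `a ≤ 1` because of `At X 1`, so `a = 1`: `X` fills the edges
`1, .., b-1`, `3 ≤ b ≤ n`, and is not attached to `b+1, .., n`. If `b = 3`: `Ctr X 2`. Let `b ≥ 4` (so `Fl X 2`,
`Fl X 3`). By `Y4` for `X'` and the edge 1: not both `Fl X' 0`, `Fl X' 2`. If `Fl X' 2`: `Y4` for `X` and the edge 2
(`Fl X 1`, `Fl X 3`) is a contradiction. So `¬ Fl X' 2`. `Y2` for `X'` with `e = 2 - n`: as `At X' 2`, `b' = 2`: `X'`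
fills the edges `a', .., 1`, `3 - n ≤ a' ≤ 0`, and is not attached to `i` with `2 - n < i < a'`. If `¬ At X' 3`:
`Y5`. Otherwise `z 3 = z (3-n)` and so `a' = 3 - n`; `X'` fills all edges `3-n, .., 1`, in particular the edge
`3 ≡ 3 - n`. `Y4` for `X` and the edge 3: `¬ Fl X 4`, so `b = 4`. If `n = 4`: `Y6`. If `n ≥ 5`: `X` is not attached to
`z n = z 0` and `Y5` for the reflected cycle `i ↦ 3 - i` with `X`, `X'` exchanged is a contradiction: `Fl X' 2` fails,
`X'` fills the edges `1, 0, -1` (`-1 ≥ 3-n`), `X` fills the edges `2, 1`, and `¬ At X 0`. -/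
def StmtY7 : Prop := ∀ (V : Type) [Fintype V] [DecidableEq V] (Δ : Set (Finset V)) (n : ℕ)
  (z : ℤ → V) (X X' : Finset V) (i : ℤ), InP Δ → HC Δ n z → 4 ≤ n → Conn Δ X → Conn Δ X' →
  Off z X → Off z X' → Disjoint X X' → ¬ touch Δ X X' → At3 Δ n z X → At3 Δ n z X' →
  Fl Δ z X i → Fl Δ z X' i → Ctr Δ n z X i ∨ Ctr Δ n z X (i + 1)

/-- **Y8** No three consecutive centres. Proof. Shift so that `c = 1`. `InP.x6` with `v = [4,n+1)`, `w = X₁`,
`s = X₂ ∪ {z 1}` (connected, `At X₂ 1`), `t = {z 2}`, `u = {z 3}`, `z = X₃`. Filled: `v,w,s` by the edge 0 of `X₁`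
(`z 0 = z n`), `w,s,t` by the edge 1 of `X₁`, `s,t,u` by the edge 2 of `X₂`, `t,u,z` by the edge 2 of `X₃`, `u,z,v`
by the edge 3 of `X₃`. `v,s,u` is not filled: a face with `z j`, `4 ≤ j ≤ n`, `z 3` and an element of `X₂` gives
`At X₂ j`, excluded by `Ctr X₂ 2`; with `z 1`: `HC.no_three`. Not touching: `v,t`; `w,u` (`Ctr X₁ 1`); `w,z`; `s,z`
(`At X₃ 1`, that is `At X₃ (n+1)`, is excluded by `Ctr X₃ 3`). -/
def StmtY8 : Prop := ∀ (V : Type) [Fintype V] [DecidableEq V] (Δ : Set (Finset V)) (n : ℕ)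
  (z : ℤ → V) (X₁ X₂ X₃ : Finset V) (c : ℤ), InP Δ → HC Δ n z → 4 ≤ n → Conn Δ X₁ → Conn Δ X₂ →
  Conn Δ X₃ → Off z X₁ → Off z X₂ → Off z X₃ → Disjoint X₁ X₂ → Disjoint X₁ X₃ → Disjoint X₂ X₃ →
  ¬ touch Δ X₁ X₂ → ¬ touch Δ X₁ X₃ → ¬ touch Δ X₂ X₃ → Ctr Δ n z X₁ c → Ctr Δ n z X₂ (c + 1) →
  Ctr Δ n z X₃ (c + 2) → False

/-- **Y9** Every edge of a hollow cycle is filled by a component of the complement. Proof. `{z i, z (i+1)}` is not
a facet (`noEF`): some face `F` contains it and a further vertex `w`. `w` is not on the cycle (`HC.no_three`), so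
`w ∈ vs Δ \ arc z 0 n`; `exists_comp`. -/
def StmtY9 : Prop := ∀ (V : Type) [Fintype V] [DecidableEq V] (Δ : Set (Finset V)) (n : ℕ)
  (z : ℤ → V) (i : ℤ), Vio Δ → HC Δ n z →
  ∃ X, IsComp Δ (vs Δ \ arc z 0 n) X ∧ Fl Δ z X i

/-- **Y10** A component has at least three attachments. Proof. Let `N` be the set of all `z i`, `0 ≤ i < n`, with
`At X i`. If `¬ At3` then `N` has at most two elements. `X` touches nothing outside `X ∪ N` (`IsComp.mem_of_adj`),
and `vs Δ \ N \ X` contains a vertex of the cycle (`n ≥ 4`), so `vs Δ \ N` is not connected. But `N` is `∅`, one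
vertex, or two adjacent vertices, so a face (`Vio.conn`), or two nonadjacent vertices (`Vio.noPair`). -/
def StmtY10 : Prop := ∀ (V : Type) [Fintype V] [DecidableEq V] (Δ : Set (Finset V)) (n : ℕ)
  (z : ℤ → V) (X : Finset V), Vio Δ → HC Δ n z → 4 ≤ n →
  IsComp Δ (vs Δ \ arc z 0 n) X → At3 Δ n z X

/-- **Y11** (uses `Y2`, `Y3`, `Y10`) Every component shares a filled edge with another one. Proof. Let `X' ≠ X`
be another component (`U = vs Δ \ arc z 0 n` is not connected), both have `At3` (`Y10`). Suppose `X` shares no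
filled edge with any other component. `X'` fills two consecutive edges (`Y3`) which `X` does not fill. So some `e`
has `¬ Fl X e`; `Y2` gives `a`, `b` (`b - a ≥ 2`, edges `a, .., b-1` filled by `X`, all attachments in `a, .., b`
modulo `n`). Two edges are not filled by `X`, so `b ≤ a + n - 2`, and `z a`, `z b` are different and not adjacent
(`HC.not_adj`). Let `W = X ∪ [a+1,b)`. Nothing outside `W ∪ {z a, z b}` is adjacent to `W`: a neighbour of `X` is in `X`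
or an attachment; a neighbour of `z i`, `a < i < b`, on the cycle is `z (i-1)` or `z (i+1)`; a neighbour off the
cycle lies in a component `Y` with `At Y i`, and `Fl Y (i-1)` or `Fl Y i` (`Y3`), both edges are filled by `X`, so
`Y = X`. `z (b+1)` is not in `W ∪ {z a, z b}`. So `vs Δ \ {z a, z b}` is not connected, contrary to `noPair`. -/
def StmtY11 : Prop := ∀ (V : Type) [Fintype V] [DecidableEq V] (Δ : Set (Finset V)) (n : ℕ)
  (z : ℤ → V) (X : Finset V), Vio Δ → HC Δ n z → 4 ≤ n → ¬ Conn Δ (vs Δ \ arc z 0 n) →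
  IsComp Δ (vs Δ \ arc z 0 n) X → ∃ X' i, IsComp Δ (vs Δ \ arc z 0 n) X' ∧ X' ≠ X ∧
    Fl Δ z X i ∧ Fl Δ z X' i

/-- **Y12** (uses `Y7`, `Y8`, `Y9`, `Y10`, `Y11`) FAN LEMMA, `n ≥ 4`. Proof. Suppose not (`U = vs Δ \ arc z 0 n` is not empty by `Y9`). Every component of
`U = vs Δ \ arc z 0 n` has a centre (`Y10`, `Y11`, `Y7`; different components are disjoint and do not touch:
`IsComp.eq_of`, `IsComp.mem_of_adj`; components are off the cycle). The centre of `X` is unique modulo `n` (the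
attachments are `c-1, c, c+1` modulo `n`, `n ≥ 4`), and `At X i` holds iff `i ≡ c-1, c, c+1`. Case 1: there is a
component `X` with centre `c` and no component has a centre congruent to `c-1` or `c+1`. Then every component
attached to `z c` has the centre `c`, so its attachments are `z (c-1), z c, z (c+1)`. `W` = `z c` and these
components: no edge leaves `W ∪ {z (c-1), z (c+1)}` from `W`, `z (c+2)` is outside, `z (c-1)`, `z (c+1)` are not adjacent:
contradiction to `noPair`. Case 2: otherwise there are components with centres `d` and `d+1` (`d = c` or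
`d = c-1`). By `Y8` no component has centre `d-1` or `d+2`. So every component attached to `z d` or `z (d+1)` has
centre `d` or `d+1` and its attachments are among `z (d-1), .., z (d+2)`. If `n ≥ 5`: `z (d-1)`, `z (d+2)` are not
adjacent, `W` = `z d, z (d+1)` and these components, `z (d+3)` is outside: contradiction to `noPair`. If `n = 4`: by
`Y9` some component fills the edge `d+2` (ends `z (d+2)`, `z (d+3) = z (d-1)`); both ends are among its three
attachments, its centre is `d+2` or `d+3 ≡ d-1` (for the centre `d` the attachments are `d-1, d, d+1`, for `d+1`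
they are `d, d+1, d+2`): contradiction. -/
def StmtY12 : Prop := ∀ (V : Type) [Fintype V] [DecidableEq V] (Δ : Set (Finset V)) (n : ℕ)
  (z : ℤ → V), Vio Δ → HC Δ n z → 4 ≤ n → Conn Δ (vs Δ \ arc z 0 n)

/-- **Y13** (uses `Y9`, `Y12`) FAN LEMMA. Proof. `n = 3`: `arc z 0 3 = {z 0, z 1, z 2}`, `noTri`. `n ≥ 4`: `Y12`.
`Y9` gives `Fl` (`Fl.mono`). -/
def StmtY13 : Prop := ∀ (V : Type) [Fintype V] [DecidableEq V] (Δ : Set (Finset V)) (n : ℕ)
  (z : ℤ → V), Vio Δ → HC Δ n z → Conn Δ (vs Δ \ arc z 0 n) ∧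
  ∀ i, Fl Δ z (vs Δ \ arc z 0 n) i

/-! ## Two adjacent sets which together fill a hollow cycle -/

/-- **Y14** The (2,2)-lemma. Proof. All consecutive `C`s touch, `A` touches `C1, C2, C3`, `B` touches `C3, C4, C1`
(filled triples of disjoint sets, `IsCx.adj_of_face`). (a) `A` does not touch `C4`: otherwise
`K4{A, C1 ∪ C2, C3, C4}`: `[C1∪C2,C3,C4]` unfilled (`C1` not `C3`, `C2` not `C4`), `[A,C1∪C2,C4]` unfilled
(`A,C4,C1`; `C2` not `C4`), `[A,C3,C4]` unfilled: `k4three`. In the same way `B` does not touch `C2`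
(`K4{B, C3 ∪ C4, C1, C2}`). (b) `K4{A, B, C1, C3 ∪ C4}`: `[A,C1,C3∪C4]` is unfilled, so (`k4three`) `[A,B,C1]` is filled
or `[A,B,C3∪C4]` is filled, and then `[A,B,C3]` by (a). (c) Not both `[A,B,C1]`, `[A,B,C3]`:
`K4{C1 ∪ C2, C3 ∪ C4, A, B}`: filled by `A,C2,C3`; `B,C4,C1`; `A,B,C1`; `A,B,C3`. `k4all`: a face meeting all: the
elements in `C1 ∪ C2`, `C3 ∪ C4` are in `C2, C3` (then `B` touches `C2`) or `C1, C4` (then `A` touches `C4`), or in `C1, C3`
or `C2, C4`: impossible. (d) If `[A,B,C1]` is filled and `[A,B,C3]` is not: `InP.x6` with `v = C3`, `w = C2`, `s = A`,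
`t = C1`, `u = B`, `z = C4`. If `[A,B,C3]` is filled and `[A,B,C1]` is not: the same with `C1`, `C3` exchanged and `C2`,
`C4` kept: `v = C1`, `w = C2`, `s = A`, `t = C3`, `u = B`, `z = C4`. -/
def StmtY14 : Prop := ∀ (V : Type) [Fintype V] [DecidableEq V] (Δ : Set (Finset V))
  (A B C1 C2 C3 C4 : Finset V), InP Δ → (∀ X ∈ [A, B, C1, C2, C3, C4], Conn Δ X) →
  [A, B, C1, C2, C3, C4].Pairwise (fun X Y => Disjoint X Y) → touch Δ A B → ¬ touch Δ C1 C3 →
  ¬ touch Δ C2 C4 → fill Δ [A, C1, C2] → fill Δ [A, C2, C3] → fill Δ [B, C3, C4] →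
  fill Δ [B, C4, C1] → ¬ fill Δ [A, C3, C4] → ¬ fill Δ [A, C4, C1] → ¬ fill Δ [B, C1, C2] →
  ¬ fill Δ [B, C2, C3] → False

/-- **Y15** Proof. If `A` touches `P` and `B` touches `Q` then `A, B, P, Q, R` pairwise touch (`A` touches `Q, R`
because `[A,Q,R]` is filled, `B` touches `R, P`), and `InP.k5` for `R; A, P; B, Q` gives a contradiction: `[R,A,P]`
and `[R,B,Q]` are not filled. So `A` does not touch `P` (then `[A,P,Q]` is not filled, so `[B,P,Q]` is), or `B`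
does not touch `Q` (then `[A,P,Q]` is filled). -/
def StmtY15 : Prop := ∀ (V : Type) [Fintype V] [DecidableEq V] (Δ : Set (Finset V))
  (A B P Q R : Finset V), InP Δ → (∀ X ∈ [A, B, P, Q, R], Conn Δ X) →
  [A, B, P, Q, R].Pairwise (fun X Y => Disjoint X Y) → touch Δ A B → CM Δ [P, Q, R] →
  ¬ fill Δ [A, R, P] → ¬ fill Δ [B, Q, R] → fill Δ [A, Q, R] → fill Δ [B, R, P] →
  (fill Δ [A, P, Q] ∨ fill Δ [B, P, Q]) →
  (¬ touch Δ A P ∧ fill Δ [B, P, Q]) ∨ (¬ touch Δ B Q ∧ fill Δ [A, P, Q])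

/-- **Y16** (uses `Y15`) Types, one side. Proof. `Y15` with `P = [1,e+1)`, `Q = [e+1,b+1)`, `R = [b+1,n+1)`: the cuts
are `0 ≡ n` (between `R` and `P`), `e` (`P`, `Q`), `b` (`Q`, `R`): `HC.fill_arcs`, `HC.fill_arcs_wrap` with `a = 1`;
`fill_perm` for the order in the list. -/
def StmtY16 : Prop := ∀ (V : Type) [Fintype V] [DecidableEq V] (Δ : Set (Finset V)) (n : ℕ)
  (z : ℤ → V) (A B : Finset V) (b e : ℤ), InP Δ → HC Δ n z → Conn Δ A → Conn Δ B → Off z A →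
  Off z B → Disjoint A B → touch Δ A B → (∀ i, Fl Δ z A i ∨ Fl Δ z B i) → ¬ Fl Δ z A 0 →
  ¬ Fl Δ z B b → 0 < e → e < b → b < n →
  ((∀ i, 1 ≤ i → i ≤ e → ¬ At Δ z A i) ∧ Fl Δ z B e) ∨
    ((∀ i, e + 1 ≤ i → i ≤ b → ¬ At Δ z B i) ∧ Fl Δ z A e)

/-- **Y17** (uses `Y14`, `Y16`) Two edges on the same side have the same type. Proof. Let `0 < e < e' < b`. By
`Y16` (and `Fl.at`) exactly one of `Fl A e`, `Fl B e` holds (first case: `¬ At A e`; second case: `¬ At B (e+1)`), the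
same for `e'`. (a) `Fl A e` implies `Fl A e'`: `Fl A e` excludes the first case for `e`, so `B` is not attached to
`e+1, .., b`, in particular `¬ At B e'`, so `¬ Fl B e'`. (b) Suppose `Fl A e'` and not `Fl A e`. `Y14` with
`C1 = [e+1,e'+1)`, `C2 = [e'+1,b+1)`, `C3 = [b+1,n+1)`, `C4 = [1,e+1)`: the edges between them are `e'` (only `A`), `b`
(only `A`), `0` (only `B`), `e` (only `B`). `C1`, `C3` and `C2`, `C4` do not touch (`HC.arc_not_touch`). -/
def StmtY17 : Prop := ∀ (V : Type) [Fintype V] [DecidableEq V] (Δ : Set (Finset V)) (n : ℕ)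
  (z : ℤ → V) (A B : Finset V) (b e e' : ℤ), InP Δ → HC Δ n z → Conn Δ A → Conn Δ B → Off z A →
  Off z B → Disjoint A B → touch Δ A B → (∀ i, Fl Δ z A i ∨ Fl Δ z B i) → ¬ Fl Δ z A 0 →
  ¬ Fl Δ z B b → 0 < e → e < e' → e' < b → b < n →
  (Fl Δ z A e ↔ Fl Δ z A e') ∧ ¬ (Fl Δ z A e ∧ Fl Δ z B e) ∧ ¬ (Fl Δ z A e' ∧ Fl Δ z B e')

/-- **Y18** (uses `Y14`, `Y16`) Two edges on different sides have the same type. Proof. As in `Y17` exactly one of
`Fl A e`, `Fl B e` holds. For `g` use `Y16` for the reflected cycle `i ↦ z (1 - i)` (it maps the edge `i` to the edge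
`-i`, `fl_refl`), with `n - b`, `n - g` instead of `b`, `e` (`HC.fl_congr`): exactly one of `Fl A g`, `Fl B g` holds.
(a) `e` only `A`, `g` only `B`: `Y14` with `C1 = [1,e+1)`, `C2 = [e+1,b+1)`, `C3 = [b+1,g+1)`, `C4 = [g+1,n+1)` (edges `e`:
`A`, `b`: `A`, `g`: `B`, `0`: `B`). (b) `e` only `B`, `g` only `A`: `C1 = [e+1,b+1)`, `C2 = [b+1,g+1)`,
`C3 = [g+1,n+1)`, `C4 = [1,e+1)` (edges `b`: `A`, `g`: `A`, `0`: `B`, `e`: `B`). -/
def StmtY18 : Prop := ∀ (V : Type) [Fintype V] [DecidableEq V] (Δ : Set (Finset V)) (n : ℕ)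
  (z : ℤ → V) (A B : Finset V) (b e g : ℤ), InP Δ → HC Δ n z → Conn Δ A → Conn Δ B → Off z A →
  Off z B → Disjoint A B → touch Δ A B → (∀ i, Fl Δ z A i ∨ Fl Δ z B i) → ¬ Fl Δ z A 0 →
  ¬ Fl Δ z B b → 0 < e → e < b → b < g → g < n → (Fl Δ z A e ↔ Fl Δ z A g)

/-- **Y19** (uses `Y16`, `Y17`, `Y18`) All edges have the same type. Proof. For `e, e' < b` and for `e < b < e'`:
`Y16` (exclusive), `Y17`, `Y18` and symmetry. For `e, e' > b`: `Y17` for the reflected cycle `i ↦ z (1 - i)` with `n - b`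
in the place of `b` (as in `Y18`). Exclusive: `Y16` for the cycle, resp. the reflected cycle. -/
def StmtY19 : Prop := ∀ (V : Type) [Fintype V] [DecidableEq V] (Δ : Set (Finset V)) (n : ℕ)
  (z : ℤ → V) (A B : Finset V) (b e e' : ℤ), InP Δ → HC Δ n z → Conn Δ A → Conn Δ B → Off z A →
  Off z B → Disjoint A B → touch Δ A B → (∀ i, Fl Δ z A i ∨ Fl Δ z B i) → ¬ Fl Δ z A 0 →
  ¬ Fl Δ z B b → 0 < b → b < n → 0 < e → e < n → e ≠ b → 0 < e' → e' < n → e' ≠ b →
  (Fl Δ z A e ↔ Fl Δ z A e') ∧ ¬ (Fl Δ z A e ∧ Fl Δ z B e)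

/-- **Y20** (uses `Y2`, `Y19`) PATTERN LEMMA. Proof. Shift so that `¬ Fl A 0`. Some `b` with `0 < b < n` has
`¬ Fl B b` (`HC.window`; `Fl B 0`). By `Y19` all edges `e` with `0 < e < n`, `e ≠ b` have the same type, exclusively.
There is at least one (`n ≥ 3`). (1) They are filled by `B` and not by `A`. Then `Bg B b` (`Fl B 0` as well), and
`Fl A b`. If `A` were attached to some `z i`, `b+1 < i < b+n`, then `At3 A` (`b, b+1, i`), and `Y2` with `e = 0` gives two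
consecutive edges in `0 < i < n` filled by `A`; but only `b` is: contradiction. So `Sm A b`. (2) They are filled
by `A` and not by `B`: then `Bg A 0`, `Fl B 0`, and `Sm B 0`: otherwise `At3 B`, `Y2` for `B` with `e = b` gives two
consecutive edges in `b < i < b+n` filled by `B`, but only `n ≡ 0` is. -/
def StmtY20 : Prop := ∀ (V : Type) [Fintype V] [DecidableEq V] (Δ : Set (Finset V)) (n : ℕ)
  (z : ℤ → V) (A B : Finset V), InP Δ → HC Δ n z → Conn Δ A → Conn Δ B → Off z A →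
  Off z B → Disjoint A B → touch Δ A B → (∀ i, Fl Δ z A i ∨ Fl Δ z B i) → ¬ (∀ i, Fl Δ z A i) →
  ¬ (∀ i, Fl Δ z B i) → ∃ k, (Sm Δ n z A k ∧ Bg Δ n z B k) ∨ (Sm Δ n z B k ∧ Bg Δ n z A k)

/-- **Y21** The complement of the pattern lemma. Proof. `B` is attached to all vertices of the cycle. At least
one: `K4{A, B, {z k}, {z (k+1)}}`: `[B, z k, z (k+1)]` is not filled; if `[A,B,z k]`, `[A,B,z (k+1)]` are unfilled
too, `k4three`. Not both: `R = [k+2,k+n+1)` (it contains `z (k+n) = z k`), `K4{R, A, B, {z (k+1)}}`: filled: `R,A,B` by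
`z k`; `R,A,z (k+1)` by `Fl A k`; `R,B,z (k+1)` by `Fl B (k+1)`; `A,B,z (k+1)`. `k4all`: a face with `z j`
(`k+2 ≤ j ≤ k+n`), `a`, `b`, `z (k+1)`: `At A j`, so `j = k+n` (`Sm`), so `Fl B k`: contradiction. -/
def StmtY21 : Prop := ∀ (V : Type) [Fintype V] [DecidableEq V] (Δ : Set (Finset V)) (n : ℕ)
  (z : ℤ → V) (A B : Finset V) (k : ℤ), InP Δ → HC Δ n z → Conn Δ A → Conn Δ B → Off z A →
  Off z B → Disjoint A B → touch Δ A B → Sm Δ n z A k → Bg Δ n z B k →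
  (fill Δ [A, B, {z k}] ∨ fill Δ [A, B, {z (k + 1)}]) ∧
    ¬ (fill Δ [A, B, {z k}] ∧ fill Δ [A, B, {z (k + 1)}])

/-! ## The apex lemma -/

/-- **Y22** A path. Proof. Let `N` be the set of `w` and all elements of `W` adjacent to `w`. `E ⊆ W \ N`; let `C` be
the component of `W \ N` which contains `E` (`exists_comp`, `IsComp.sub_of_conn`). `C` touches `N`
(`Conn.comp_touch`): `c ∈ C`, `q ∈ N`, `c ~ q`; `q ≠ w` because `c ∉ N`; so `q` is adjacent to `w`. If `q` touches `E` we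
are done. Otherwise `c ∉ E`; let `Q` be the component of `C \ E` which contains `c`; it touches `E`
(`Conn.comp_touch`), `q`, and not `w` (`Q ⊆ C ⊆ W \ N`). -/
def StmtY22 : Prop := ∀ (V : Type) [Fintype V] [DecidableEq V] (Δ : Set (Finset V))
  (W E : Finset V) (w : V), IsCx Δ → Conn Δ W → Conn Δ E → E ⊆ W → w ∈ W → w ∉ E →
  ¬ touch Δ E {w} → ∃ q ∈ W, q ≠ w ∧ q ∉ E ∧ adj Δ q w ∧ (touch Δ {q} E ∨ (¬ touch Δ {q} E ∧
    ∃ Q, Conn Δ Q ∧ Q ⊆ W \ E ∧ w ∉ Q ∧ q ∉ Q ∧ touch Δ Q E ∧ touch Δ Q {q} ∧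
      ¬ touch Δ Q {w}))

/-- **Y23** (uses `Y22`) The big case for a hollow triangle `u, v, w`. Proof. `t` is different from `u, v, w`
(`{t,u,w}, {t,v,w} ∈ Δ`, `{u,v,w} ∉ Δ`, `{t,u,v} ∉ Δ`, `u, v, w` pairwise adjacent). `Y22` for `W = vs Δ \ {u,v,t}`, `E`, `w`
gives `q` and possibly `Q1`. `Q := {q}` resp. `Q := Q1 ∪ {q}`: connected, disjoint from `E, u, v, t, w`, touches `E` and
`w`. (1) `InP.k5` for `Q ∪ {w}, u, v, t, E` (pairwise touching): `t,u,v` is unfilled, so the triples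
`(Q∪w), E` with `u`, `v`, `t` are filled, and as `E` does not touch `w`: `[Q,E,u]`, `[Q,E,v]`, `[Q,E,t]` are filled.
`[E,t,u]` is unfilled, so `[Q∪w, v, u]` is filled, and as `{u,v,w} ∉ Δ`: `[Q,u,v]` is filled. (2) `InP.k5` for
`w, u, v, t, E ∪ Q`: `t,u,v` is unfilled: `[w,Q,u]`, `[w,Q,v]`, `[w,Q,t]` are filled (`E` does not touch `w`); `w,u,v` is
unfilled: `[E∪Q,t,u]` is filled, so `[Q,t,u]` is filled. Case `Q = {q}`: `{q,u,v}, {q,u,w}, {q,v,w} ∈ Δ`. Case
`Q = Q1 ∪ {q}`, `q` does not touch `E`, `Q1` does not touch `w`: so `[Q1,E,u]`, `[Q1,E,v]`, `[Q1,E,t]`, `{w,q,u}`, `{w,q,v}`,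
`{w,q,t}` are filled. (a) If `[Q1,t,u]` is filled: `K4{{w,u}, E ∪ Q1, {t}, {v}}`: filled by `u,Q1,t`; `u,E,v`;
`w,t,v`; `E,t,v`. `k4all`: a face with `t, v`, an element of `E ∪ Q1` and `w` (not touching) or `u` (`{t,u,v} ∉ Δ`).
(b) If `{q,u,v} ∈ Δ`: `K4{E ∪ {t}, {w,q}, {u}, {v}}`: filled by `t,w,u`; `t,w,v`; `E,u,v`; `q,u,v`. `k4all`: a face with
`u, v`, and `w` (`{u,v,w} ∉ Δ`), or `q` and an element of `E` (not touching) or `t` (`{t,u,v} ∉ Δ`). (c) So `[Q1,t,u]` and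
`{q,u,v}` are unfilled: `InP.k5` for `{u}; Q1, {t}; {q}, {v}`: contradiction. -/
def StmtY23 : Prop := ∀ (V : Type) [Fintype V] [DecidableEq V] (Δ : Set (Finset V))
  (u v w t : V) (E : Finset V), InP Δ → Conn Δ (vs Δ \ {u, v, t}) → adj Δ u v → adj Δ u w →
  adj Δ v w → ({u, v, w} : Finset V) ∉ Δ → adj Δ t w → ({t, u, w} : Finset V) ∈ Δ →
  ({t, v, w} : Finset V) ∈ Δ → ({t, u, v} : Finset V) ∉ Δ → Conn Δ E → u ∉ E → v ∉ E → w ∉ E →
  t ∉ E → touch Δ E {t} → fill Δ [E, {u}, {v}] → ¬ touch Δ E {w} → fill Δ [E, {t}, {v}] →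
  ¬ fill Δ [E, {t}, {u}] →
  ∃ q, q ≠ u ∧ q ≠ v ∧ q ≠ w ∧ ({q, u, v} : Finset V) ∈ Δ ∧ ({q, u, w} : Finset V) ∈ Δ ∧
    ({q, v, w} : Finset V) ∈ Δ

/-- **Y24** Vertices which can be removed. Proof. (1) Let `x ∈ D`, `|D| ≥ 2`. Among the connected sets `C` with
`x ∈ C ⊆ D`, `C ≠ D` take one with maximal `|C|` (`{x}` is one). Some `d ∈ D \ C` touches `C` (`D` is connected);
`C + d` is connected, so `C + d = D` and `D \ {d} = C`; `d ≠ x`. (2) Let `|D| ≥ 3`. By (1) (twice, second time with `x := d1`)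
there is `d1` with `D1 = D \ {d1}` connected; by (1) for `D1`, there are `d2 ≠ d2'` in `D1` with `D1 \ {d2}`,
`D1 \ {d2'}` connected. `d1` touches `D1` (`D` is connected). If `d1` touches `D1 \ {d2}`, then
`D \ {d2} = (D1 \ {d2}) + d1` is connected, take `d1, d2`. Otherwise `d1` touches only `d2` in `D1`, so it touches
`D1 \ {d2'}`: take `d1, d2'`. -/
def StmtY24 : Prop := ∀ (V : Type) [Fintype V] [DecidableEq V] (Δ : Set (Finset V))
  (D : Finset V), IsCx Δ → Conn Δ D →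
  (2 ≤ D.card → ∀ x ∈ D, ∃ d ∈ D, d ≠ x ∧ Conn Δ (D \ {d})) ∧
  (3 ≤ D.card → ∃ d1 ∈ D, ∃ d2 ∈ D, d1 ≠ d2 ∧ Conn Δ (D \ {d1}) ∧ Conn Δ (D \ {d2}) ∧
    Conn Δ (D \ {d1, d2}))

/-- **Y25** (uses `Y14`, `Y20`, `Y21`) Two small vertices, normal form. Proof. `d1` is attached to `z 0, z 1` only,
`d2` to `z 1, z 2` only, `T` is not attached to `z 1`. Let `α = [d1,T,z 0]`, `β = [d1,d2,z 1]`, `γ = [d2,T,z 2]` (filled
or not). `Y21` for `{d1}`, `T ∪ {d2}`, `k = 0`: exactly one of `α`, `β` is filled (`d2` is not attached to `z 0`, `T` not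
to `z 1`). `Y21` for `{d2}`, `T ∪ {d1}`, `k = 1`: exactly one of `β`, `γ`. (1) `d1 ~ d2`, `n = 3`: `Y21` for `T`,
`{d1,d2}`, `k = 2` (`Sm T 2`: `Fl T 2` and `¬ At T 4`; `Bg {d1,d2} 2`: the edges `3 ≡ 0` and `4 ≡ 1` are filled, the
edge 2 is not): exactly one of `[T,{d1,d2},z 2] = γ`, `[T,{d1,d2},z 3] = α`. Contradiction. (2) `d1 ~ d2`, `n ≥ 4`: `Y20`
for `T`, `{d1,d2}` (`T` does not fill the edge 0, `{d1,d2}` not the edge 2): `Sm T k` is impossible (`T` is attached to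
`2, 3, 4`), `Bg T k` is impossible (`T` does not fill the edges 0 and 1). (3) `d1`, `d2` not adjacent: `β` is not
filled, so `α`, `γ` are. `Y14` with `C1 = {z 1}`, `C2 = {d1}`, `C3 = T`, `C4 = {d2}`, `A = {z 0}`, `B = [2,n)`: `A,C1,C2` by
`Fl {d1} 0`; `A,C2,C3` by `α`; `B,C3,C4` by `γ`; `B,C4,C1` by `Fl {d2} 1`; `z 0` is not adjacent to `d2`, `d1` is not
attached to `[2,n)`; `z 0` touches `[2,n)` (`z (n-1)`). -/
def StmtY25 : Prop := ∀ (V : Type) [Fintype V] [DecidableEq V] (Δ : Set (Finset V)) (n : ℕ)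
  (z : ℤ → V) (T : Finset V) (d1 d2 : V), InP Δ → HC Δ n z → Conn Δ T → Off z T →
  (∀ i, z i ≠ d1) → (∀ i, z i ≠ d2) → d1 ∈ vs Δ → d2 ∈ vs Δ → d1 ≠ d2 → d1 ∉ T → d2 ∉ T →
  touch Δ {d1} T → touch Δ {d2} T → Sm Δ n z {d1} 0 → Sm Δ n z {d2} 1 → ¬ At Δ z T 1 →
  (∀ i, 2 ≤ i → i < n → Fl Δ z T i) → False

/-- **Y26** (uses `Y1`, `Y24`, `Y25`) Not all removable vertices are small. Proof. Take `d1, d2` from `Y24`,
`T = D \ {d1,d2}`; `T` touches `d1` (`D \ {d2}` is connected) and `d2`. `Sm {d1} k1`, `Bg (D \ {d1}) k1`, `Sm {d2} k2`,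
`Bg (D \ {d2}) k2`. A small set fills only the edge `k` modulo `n`. `k1 ≢ k2`: `d2 ∈ D \ {d1}` fills `k2`, but
`D \ {d1}` does not fill `k1`. `T` does not fill `k1`, `k2` and fills all other edges (`fl_union`:
`D \ {d1} = T ∪ {d2}`). Shift so that `k1 = 0` and `0 < k2 < n`, `k := k2`. Claim: `k = 1` or `k = n-1`. Otherwise
`2 ≤ k ≤ n-2`, `Fl T 1`, `Fl T (k+1)`, `Y1` for the arcs `[1,2), [2,k+1), [k+1,n+1)` (attachments 1, 2, `k+1`): `Fl T 0` or
`Fl T k`, contradiction. If `k = n-1` exchange `d1, d2` and shift by `-1`: so `k = 1`. `¬ At T 1`: otherwise `Y1` for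
`[1,2), [2,3), [3,n+1)` (attachments 1, 2, 3, `Fl T 2`): `Fl T 0` or `Fl T 1`. Now `Y25`. -/
def StmtY26 : Prop := ∀ (V : Type) [Fintype V] [DecidableEq V] (Δ : Set (Finset V)) (n : ℕ)
  (z : ℤ → V) (D : Finset V), InP Δ → HC Δ n z → Conn Δ D → Off z D → 3 ≤ D.card →
  (∀ d ∈ D, Conn Δ (D \ {d}) → ∃ k, Sm Δ n z {d} k ∧ Bg Δ n z (D \ {d}) k) → False

/-- **Y27** (uses `Y13`, `Y20`, `Y24`, `Y26`) Proof. By `Y13` there is a connected `D ⊆ vs Δ \ arc z 0 n` which fills all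
edges; take one with minimal `|D|`. If `|D| = 1`, `D = {t}`: apex. Let `|D| ≥ 2`. If `d ∈ D` and `D \ {d}` is
connected, then `{d}`, `D \ {d}` satisfy the hypotheses of `Y20` (they touch as `D` is connected; by minimality
neither of them fills all edges). So `Sm {d} k ∧ Bg (D \ {d}) k` or `Sm (D \ {d}) k ∧ Bg {d} k`. If the second case
occurs for some `d`: `t = d`, `E = D \ {d}`. Otherwise, if `|D| ≥ 3`: `Y26`. If `|D| = 2`, `D = {d,d'}`:
`Bg {d'} k` and `Sm {d'} k'` contradict each other (`n ≥ 3`: a big set fills two edges, a small one only one). -/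
def StmtY27 : Prop := ∀ (V : Type) [Fintype V] [DecidableEq V] (Δ : Set (Finset V)) (n : ℕ)
  (z : ℤ → V), Vio Δ → HC Δ n z → (∃ t, Ap Δ z t) ∨ ∃ t E k, Conn Δ E ∧ Off z E ∧
    (∀ i, z i ≠ t) ∧ t ∈ vs Δ ∧ t ∉ E ∧ touch Δ E {t} ∧ Sm Δ n z E k ∧ Bg Δ n z {t} k

/-- **Y28** A hollow triangle is a hollow cycle. Proof. `z i = a, b, c` for `i % 3 = 0, 1, 2`. -/
def StmtY28 : Prop := ∀ (V : Type) [Fintype V] [DecidableEq V] (Δ : Set (Finset V)) (a b c : V),
  IsCx Δ → adj Δ a b → adj Δ a c → adj Δ b c → ({a, b, c} : Finset V) ∉ Δ →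
  ∃ z : ℤ → V, HC Δ 3 z ∧ z 0 = a ∧ z 1 = b ∧ z 2 = c

/-- **Y29** (uses `Y21`, `Y23`, `Y27`, `Y28`) Hollow triangles have an apex. Proof. `Y28`, `Y27`. An apex of the
cycle is what we want. In the second case shift so that `k = 0`: `u, v, w = z 0, z 1, z 2` is `{a,b,c}`, `t` is adjacent to
all three, `{t,z 1,z 2}`, `{t,z 2,z 0} ∈ Δ`, `{t,z 0,z 1} ∉ Δ`, `E` fills `z 0, z 1` and does not touch `z 2`. By `Y21` exactly
one of `[E,t,z 0]`, `[E,t,z 1]` is filled: `Y23` with `u = z 0`, `v = z 1` or with `u = z 1`, `v = z 0`; `noTri` for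
`{u,v,t}`. -/
def StmtY29 : Prop := ∀ (V : Type) [Fintype V] [DecidableEq V] (Δ : Set (Finset V)) (a b c : V),
  Vio Δ → adj Δ a b → adj Δ a c → adj Δ b c → ({a, b, c} : Finset V) ∉ Δ →
  ∃ t, t ≠ a ∧ t ≠ b ∧ t ≠ c ∧ ({t, a, b} : Finset V) ∈ Δ ∧ ({t, a, c} : Finset V) ∈ Δ ∧
    ({t, b, c} : Finset V) ∈ Δ

/-- **Y30** (uses `Y2`, `Y20`, `Y27`, `Y29`) APEX LEMMA. Proof. `n = 3`: `Y29` for `z 0, z 1, z 2`. Let `n ≥ 4`,
`Y27`; in the second case shift so that `k = 0`: `u = z 0`, `v = z 1`, `t` fills all edges except the edge 0. `u, v, t` is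
a hollow triangle; apex `q` (`Y29`); `q` is not on the cycle (no vertex of the cycle is adjacent to `z 0` and `z 1`,
`n ≥ 4`). (1) `{z 2,q,v,t} ∈ Δ`: `K4{[2,n+1), {q}, {v}, {t}}`: filled: `u,q,v`; `u,q,t` (`u = z n`); `z 2,v,t`; `q,v,t`. `k4all`:
a face with `q, v, t, z j`, `2 ≤ j ≤ n`; `j = n` contradicts `{u,v,t} ∉ Δ`; `z j ~ v = z 1` gives `j = 2`. (2) In the same
way `{z (n-1),q,u,t} ∈ Δ` (`K4{[1,n), {q}, {u}, {t}}`). So `q` fills the edges `-1, 0, 1` and `At3 q`. If `q` fills all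
edges it is an apex. Otherwise `Y20` for `{t}`, `{q}` (adjacent; `q` fills the edge 0): one of them is small, but
both are attached to at least four vertices (`z (n-1), z 0, z 1, z 2`, `n ≥ 4`): contradiction. -/
def StmtY30 : Prop := ∀ (V : Type) [Fintype V] [DecidableEq V] (Δ : Set (Finset V)) (n : ℕ)
  (z : ℤ → V), Vio Δ → HC Δ n z → ∃ t, Ap Δ z t

/-- **Y31** A hollow partition contains a hollow cycle. Proof. A list `L` is a path in `A` if it is nonempty, its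
elements are in `A`, and consecutive elements are adjacent. In a connected set any two elements are joined by
a path. So there are paths `LA` in `A`, `LB` in `B`, `LC` in `C` such that the last element of `LA` is adjacent to
the first one of `LB`, the last one of `LB` to the first one of `LC`, the last one of `LC` to the first one of `LA`.
Take them with minimal total length `n`. `z i` = the element with index `i % n` of `LA ++ LB ++ LC`. By minimality
there is no shortcut: inside one path no repetition and no edge between elements which are not consecutive;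
for `p` in `LA` and `q` in `LB` adjacent, `p` is the last and `q` the first element (otherwise cut `LA` after `p` and
`LB` before `q`); similarly for `LB, LC` and `LC, LA`. `n ≥ 3`. Hollow: three different pairwise adjacent elements
of the cycle: `n = 3` and they are in `A`, `B`, `C`, not a face as `[A,B,C]` is not filled. (Alternatively define
`z` on closed walks `ℤ → V` of period `n` and take `n` minimal.) `a = 0`, `b = |LA|`, `c = |LA| + |LB|`. -/
def StmtY31 : Prop := ∀ (V : Type) [Fintype V] [DecidableEq V] (Δ : Set (Finset V))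
  (A B C : Finset V), IsCx Δ → CM Δ [A, B, C] → ¬ fill Δ [A, B, C] →
  ∃ (n : ℕ) (z : ℤ → V) (a b c : ℤ), HC Δ n z ∧ a < b ∧ b < c ∧ c < a + n ∧ arc z a b ⊆ A ∧
    arc z b c ⊆ B ∧ arc z c (a + n) ⊆ C

/-- **YC** (uses `Y30`, `Y31`) S2, first half: there is no covering hollow partition. Proof. `Y31` gives a hollow
cycle with arcs in `A`, `B`, `C`, `Y30` an apex `t`; `t ∈ vs Δ = A ∪ B ∪ C`. If `t ∈ A`: `{t, z (c-1), z c} ∈ Δ` with
`z (c-1) ∈ B`, `z c ∈ C` fills `[A,B,C]`. If `t ∈ B`: the edge `a+n-1` (`z (a+n-1) ∈ C`, `z (a+n) = z a ∈ A`). If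
`t ∈ C`: the edge `b-1`. -/
def StmtYC : Prop := ∀ (V : Type) [Fintype V] [DecidableEq V] (Δ : Set (Finset V)), Vio Δ →
  ¬ CHP Δ

end Pool.Agent.Lib.MP_73b196_co.St
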