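import Pool.Agent.Lib.MP_73b196_co.St.HSpecC
import Pool.Agent.Lib.MP_73b196_co.St.SpecC
import Pool.Agent.Lib.MP_73b196_co.St.FinSpec

/-!
# The second half of the structure theorem from Theorem H and the absence of covering hollow partitions
-/

set_option autoImplicit false

namespace Pool.Agent.Lib.MP_73b196_co.St

theorem tS2 (hTH : StmtTH) (hYC : StmtYC) : StmtS2 := by
  intro V _ _ Δ hP hI
  by_contra hcon
  have h1 : ∀ x y, ¬ EdgeFacet Δ x y := fun x y h => hcon (Or.inl ⟨x, y, h⟩)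
  have h2 : NoPair Δ := by
    by_contra h
    exact hcon (Or.inr (Or.inl h))
  have h3 : ∀ a b c, adj Δ a b → adj Δ a c → adj Δ b c → ({a, b, c} : Finset V) ∉ Δ →
      Conn Δ (vs Δ \ {a, b, c}) := by
    intro a b c hab hac hbc h
    by_contra hc
    exact hcon (Or.inr (Or.inr ⟨a, b, c, hab, hac, hbc, h, hc⟩))
  have hne : (vs Δ).Nonempty := by
    obtain ⟨v, hv⟩ := (hI.conn ∅ hP.cx.empty).2.1
    exact ⟨v, (Finset.mem_sdiff.1 hv).1⟩
  obtain ⟨p, hp⟩ := hTH V Δ hP hne (fun F hF _ => hI.conn F hF)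
    (hYC V Δ ⟨hP, hI.conn, h1, h2, h3⟩)
  exact hI.noApex p hp

end Pool.Agent.Lib.MP_73b196_co.St
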