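import Pool.Agent.Lib.MP_73b196_co.St.Spec

/-!
# Theorem A: common neighbours give a cone vertex
-/

set_option autoImplicit false

namespace Pool.Agent.Lib.MP_73b196_co.St

theorem tThmA (hB4 : StmtB4) (hC7 : StmtC7) (hD7 : StmtD7) (hMin : StmtMin) : StmtThmA := by
  intro V _ _ n
  induction n with
  | zero =>
    intro Δ x y hn
    exact absurd hn (Nat.not_lt_zero _)
  | succ n ih =>
    intro Δ x y hn h hK
    have hA : HypA V (vs Δ).card := by
      intro Δ' x' y' hlt
      exact ih Δ' x' y' (by omega)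
    obtain ⟨S, X, Y, hm, hmin⟩ := hMin V Δ x y h
    by_cases hq : Clq Δ S
    · exact hC7 V Δ x y S X Y hA h (hB4 V Δ x y hA h hK) hK hm hq
    · exact hD7 V Δ x y S X Y hA h hm hmin hq

end Pool.Agent.Lib.MP_73b196_co.St
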