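import Pool.Agent.Lib.MP_73b196_co.St.Spec

/-!
# The structure theorem for edge facets
-/

set_option autoImplicit false

namespace Pool.Agent.Lib.MP_73b196_co.St

theorem ThmS_step (hB1 : StmtB1) (hB2 : StmtB2) (hMin : StmtMin) (hA : StmtThmA) (hD7 : StmtD7)
    (hE1 : StmtE1) (hE4 : StmtE4) (hF8 : StmtF8) (V : Type) [Fintype V] [DecidableEq V] (n : ℕ) :
    HypS V n := by
  induction n with
  | zero =>
    intro Δ x y hn
    exact absurd hn (Nat.not_lt_zero _)
  | succ n ih =>
    intro Δ x y hn h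
    have hS : HypS V (vs Δ).card := by
      intro Δ' x' y' hlt
      exact ih Δ' x' y' (by omega)
    by_cases hK : ∃ p, adj Δ x p ∧ adj Δ y p
    · exact Or.inl (hA V _ Δ x y (Nat.lt_succ_self _) h hK)
    have hK' : ∀ p, ¬ (adj Δ x p ∧ adj Δ y p) := fun p hp => hK ⟨p, hp⟩
    by_cases hcut : ∃ u X Y, Spl Δ x y {u} X Y
    · exact Or.inr (Or.inl hcut)
    have hcut' : ∀ u X Y, ¬ Spl Δ x y {u} X Y := fun u X Y hu => hcut ⟨u, X, Y, hu⟩
    by_cases hN : NoPair Δ
    swap
    · have hN' : ∃ a ∈ vs Δ, ∃ b ∈ vs Δ, a ≠ b ∧ ¬ adj Δ a b ∧ ¬ Conn Δ (vs Δ \ {a, b}) := by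
        by_contra hcon
        apply hN
        intro a ha b hb hab hnab
        by_contra hc
        exact hcon ⟨a, ha, b, hb, hab, hnab, hc⟩
      obtain ⟨a, ha, b, hb, hab, hnab, hc⟩ := hN'
      obtain ⟨W, hW, hx, hy, hne, hta, htb, hD⟩ := hB1 V Δ x y a b h ha hb hab hnab hc
      refine Or.inr (Or.inl (hB2 V Δ x y a b W h ha hb hab hnab hW hx hy hta htb (hS _ x y ?_ hD)))
      have h1 : vs (insert {a, b} (ind Δ (W ∪ {a, b}))) ⊂ vs Δ := by
        refine Finset.ssubset_iff_subset_ne.2 ⟨?_, ?_⟩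
        · intro v hv
          rw [mem_vs] at hv
          rcases hv with hv | hv
          · exfalso
            have ha' : a ∈ ({v} : Finset V) := by rw [hv]; simp
            have hb' : b ∈ ({v} : Finset V) := by rw [hv]; simp
            rw [Finset.mem_singleton] at ha' hb'
            exact hab (ha'.trans hb'.symm)
          · exact mem_vs.2 hv.1
        · intro heq
          apply hne
          apply Finset.Subset.antisymm
          · intro v hv
            rcases Finset.mem_union.1 hv with hv | hv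
            · exact (Finset.mem_sdiff.1 (hW.1 hv)).1
            · rcases Finset.mem_insert.1 hv with rfl | hv
              · exact ha
              · rw [Finset.mem_singleton.1 hv]
                exact hb
          · intro v hv
            rw [← heq, mem_vs] at hv
            rcases hv with hv | hv
            · exfalso
              have ha' : a ∈ ({v} : Finset V) := by rw [hv]; simp
              have hb' : b ∈ ({v} : Finset V) := by rw [hv]; simp
              rw [Finset.mem_singleton] at ha' hb'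
              exact hab (ha'.trans hb'.symm)
            · exact hv.2 (Finset.mem_singleton_self v)
      exact Finset.card_lt_card h1
    obtain ⟨S, X, Y, hm, hmin⟩ := hMin V Δ x y h
    have hq : Clq Δ S := by
      by_contra hq
      obtain ⟨p, hp⟩ := hD7 V Δ x y S X Y (hA V _) h hm hmin hq
      exact hK ⟨p, hp.adj_left h.mem_left h.ef.ne, hp.adj_right h.mem_right h.ef.ne⟩
    by_cases hbig : ∃ S' X' Y', MS Δ x y S' X' Y' ∧ Clq Δ S' ∧ X' ≠ {x} ∧ Y' ≠ {y}
    · obtain ⟨S', X', Y', hm', hq', hX', hY'⟩ := hbig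
      right; right
      by_cases h1 : ∃ a ∈ S', adj Δ x a
      · by_cases h2 : ∃ b ∈ S', adj Δ y b
        · obtain ⟨a, ha, hxa⟩ := h1
          obtain ⟨b, hb, hyb⟩ := h2
          exact hE1 V Δ x y a b S' X' Y' (hA V _) h hK' hm' hq' hX' hY' ha hxa hb hyb
        · refine (hE4 V Δ y x S' Y' X' hS h.symm (fun p hp => hK' p ⟨hp.2, hp.1⟩)
            (fun u X Y hu => hcut' u Y X hu.symm) hm'.symm hq' hY' hX' ?_).symm
          exact fun p hp hyp => h2 ⟨p, hp, hyp⟩
      · exact hE4 V Δ x y S' X' Y' hS h hK' hcut' hm' hq' hX' hY'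
          (fun p hp hxp => h1 ⟨p, hp, hxp⟩)
    · exfalso
      have hone : ∀ S' X' Y', MS Δ x y S' X' Y' → Clq Δ S' → X' = {x} ∨ Y' = {y} := by
        intro S' X' Y' hm' hq'
        by_contra hcon
        push Not at hcon
        exact hbig ⟨S', X', Y', hm', hq', hcon.1, hcon.2⟩
      rcases hone S X Y hm hq with rfl | rfl
      · exact hF8 V Δ x y S Y hS ⟨h, hN, hK', hcut', hm, hq, hone⟩
      · refine hF8 V Δ y x S X hS ⟨h.symm, hN, fun p hp => hK' p ⟨hp.2, hp.1⟩,
          fun u X Y hu => hcut' u Y X hu.symm, hm.symm, hq, ?_⟩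
        intro S' X' Y' hm' hq'
        exact (hone S' Y' X' hm'.symm hq').symm

theorem tThmS (hB1 : StmtB1) (hB2 : StmtB2) (hMin : StmtMin) (hA : StmtThmA) (hD7 : StmtD7)
    (hE1 : StmtE1) (hE4 : StmtE4) (hF8 : StmtF8) : StmtThmS := by
  intro V _ _ Δ x y h
  exact ThmS_step hB1 hB2 hMin hA hD7 hE1 hE4 hF8 V ((vs Δ).card + 1) Δ x y (Nat.lt_succ_self _) h

end Pool.Agent.Lib.MP_73b196_co.St
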