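import Pool.Agent.Lib.MP_73b196_co.St.A1
import Pool.Agent.Lib.MP_73b196_co.St.A2
import Pool.Agent.Lib.MP_73b196_co.St.A3
import Pool.Agent.Lib.MP_73b196_co.St.A4
import Pool.Agent.Lib.MP_73b196_co.St.A5
import Pool.Agent.Lib.MP_73b196_co.St.A6
import Pool.Agent.Lib.MP_73b196_co.St.B1
import Pool.Agent.Lib.MP_73b196_co.St.B2
import Pool.Agent.Lib.MP_73b196_co.St.B3
import Pool.Agent.Lib.MP_73b196_co.St.B4
import Pool.Agent.Lib.MP_73b196_co.St.C1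
import Pool.Agent.Lib.MP_73b196_co.St.C2
import Pool.Agent.Lib.MP_73b196_co.St.C3
import Pool.Agent.Lib.MP_73b196_co.St.C4
import Pool.Agent.Lib.MP_73b196_co.St.C5
import Pool.Agent.Lib.MP_73b196_co.St.C6
import Pool.Agent.Lib.MP_73b196_co.St.C7
import Pool.Agent.Lib.MP_73b196_co.St.D1
import Pool.Agent.Lib.MP_73b196_co.St.D2
import Pool.Agent.Lib.MP_73b196_co.St.D3
import Pool.Agent.Lib.MP_73b196_co.St.D4
import Pool.Agent.Lib.MP_73b196_co.St.D5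
import Pool.Agent.Lib.MP_73b196_co.St.D6
import Pool.Agent.Lib.MP_73b196_co.St.D7
import Pool.Agent.Lib.MP_73b196_co.St.E1
import Pool.Agent.Lib.MP_73b196_co.St.E2
import Pool.Agent.Lib.MP_73b196_co.St.E3
import Pool.Agent.Lib.MP_73b196_co.St.E4
import Pool.Agent.Lib.MP_73b196_co.St.F1
import Pool.Agent.Lib.MP_73b196_co.St.F2
import Pool.Agent.Lib.MP_73b196_co.St.F3
import Pool.Agent.Lib.MP_73b196_co.St.F4
import Pool.Agent.Lib.MP_73b196_co.St.F5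
import Pool.Agent.Lib.MP_73b196_co.St.F6
import Pool.Agent.Lib.MP_73b196_co.St.F7
import Pool.Agent.Lib.MP_73b196_co.St.F8
import Pool.Agent.Lib.MP_73b196_co.St.Min
import Pool.Agent.Lib.MP_73b196_co.St.ThmA
import Pool.Agent.Lib.MP_73b196_co.St.ThmS

/-!
# The structure theorem for edge facets (S3), without hypotheses
-/

set_option autoImplicit false

namespace Pool.Agent.Lib.MP_73b196_co.St

theorem s3A2 : StmtA2 := tA2 tA1

theorem s3A4 : StmtA4 := tA4 s3A2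

theorem s3A6 : StmtA6 := tA6 s3A4 tA5

theorem s3B4 : StmtB4 := tB4 tB1 tB2 tB3

theorem s3C1 : StmtC1 := tC1 s3A2 tA5

theorem s3C3 : StmtC3 := tC3 s3A2 s3C1 tC2

theorem s3C4 : StmtC4 := tC4 s3C3

theorem s3C7 : StmtC7 := tC7 s3A2 s3C4 (tC6 s3A2 s3A4 tC2 s3C4 tC5)

theorem s3D7 : StmtD7 := tD7 (tD4 s3A2 (tD3 (tA3 tA1) (tD2 tD1))) (tD6 tC2 tD5)

theorem s3Min : StmtMin := tMin s3A4

theorem s3ThmA : StmtThmA := tThmA s3B4 s3C7 s3D7 s3Min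

theorem s3E1 : StmtE1 := tE1 tA1 s3C3

theorem s3E4 : StmtE4 := tE4 s3C1 s3C3 s3E1 (tE2 s3A2 s3A6 s3C1) tE3 s3ThmA

theorem s3F1 : StmtF1 := tF1 s3A4 tA5

theorem s3F8 : StmtF8 := tF8 s3F1 (tF2 s3A2 s3A4 tC5 s3F1) (tF3 s3A6) tF4 tF5 (tF6 s3A4 s3A6)
  (tF7 s3A6)

/-- The structure theorem for edge facets. -/
theorem thmS : StmtThmS := tThmS tB1 tB2 s3Min s3ThmA s3D7 s3E1 s3E4 s3F8

end Pool.Agent.Lib.MP_73b196_co.St
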