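import Pool.Agent.Lib.MP_73b196_co.St.Base

/-!
# Symmetry, edge facets and separators
-/

set_option autoImplicit false
set_option linter.unusedSectionVars false

namespace Pool.Agent.Lib.MP_73b196_co.St

variable {V : Type} [Fintype V] [DecidableEq V] {Δ Γ : Set (Finset V)}
  {A B C D F S U X Y : Finset V} {a b p s v x y : V} {L L' : List (Finset V)}

/-! ### Symmetry -/

theorem EdgeFacet.symm (h : EdgeFacet Δ x y) : EdgeFacet Δ y x where
  ne := h.ne.symm
  mem := by
    rw [Finset.pair_comm]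
    exact h.mem
  facet F hF hy hx := by
    rw [Finset.pair_comm]
    exact h.facet F hF hx hy

theorem Ctx.symm (h : Ctx Δ x y) : Ctx Δ y x := ⟨h.inP, h.irr, h.ef.symm⟩

theorem ApexD.symm (h : ApexD Δ x y p) : ApexD Δ y x p := by
  refine ⟨h.2.1, h.1, fun F hF hne => h.2.2 F hF ?_⟩
  rw [Finset.pair_comm]
  exact hne

theorem Spl.symm (h : Spl Δ x y S X Y) : Spl Δ y x S Y X where
  un := by
    rw [← h.un, Finset.union_assoc, Finset.union_comm Y, Finset.union_comm S]
  dXS := h.dSY.symm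
  dXY := h.dXY.symm
  dSY := h.dXS.symm
  hx := h.hy
  hy := h.hx
  face F hF := by
    rcases h.face F hF with h1 | h1 | h1
    · exact Or.inr (Or.inl h1)
    · exact Or.inl h1
    · refine Or.inr (Or.inr ?_)
      rw [h1, Finset.pair_comm]

theorem MS.symm (h : MS Δ x y S X Y) : MS Δ y x S Y X :=
  { h.toSpl.symm with
    cX := h.cY
    cY := h.cX
    tX := h.tY
    tY := h.tX }

theorem PMS.symm (h : PMS Δ x y S X Y) : PMS Δ y x S Y X where
  hx := h.hy
  hy := h.hx
  cX := h.cY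
  cY := h.cX
  sS := h.sS
  dXS := h.dSY.symm
  dXY := h.dXY.symm
  dSY := h.dXS.symm
  tX := h.tY
  tY := h.tX
  xy F hF h1 h2 := by
    rw [Finset.pair_comm]
    exact h.xy F hF h2 h1

theorem Crossed.symm (h : Crossed Δ x y) : Crossed Δ y x := by
  obtain ⟨s, t, X, Y, hst, h1, h2, h3⟩ := h
  have e : ({s, t} : Finset V) = {t, s} := Finset.pair_comm s t
  rw [e] at h1 h2 h3
  exact ⟨t, s, Y, X, hst.symm, h1.symm, h3, h2⟩

theorem Concl.symm (h : Concl Δ x y) : Concl Δ y x := by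
  rcases h with ⟨p, hp⟩ | ⟨u, X, Y, h⟩ | h
  · exact Or.inl ⟨p, hp.symm⟩
  · exact Or.inr (Or.inl ⟨u, Y, X, h.symm⟩)
  · exact Or.inr (Or.inr h.symm)

theorem MS.pms (h : MS Δ x y S X Y) : PMS Δ x y S X Y where
  hx := h.hx
  hy := h.hy
  cX := h.cX
  cY := h.cY
  sS := by
    rw [← h.un]
    exact Finset.subset_union_right.trans Finset.subset_union_left
  dXS := h.dXS
  dXY := h.dXY
  dSY := h.dSY
  tX := h.tX
  tY := h.tY
  xy F hF h1 h2 := by
    obtain ⟨a, ha⟩ := h1
    obtain ⟨b, hb⟩ := h2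
    rw [Finset.mem_inter] at ha hb
    rcases h.face F hF with h3 | h3 | h3
    · exfalso
      rcases Finset.mem_union.1 (h3 hb.1) with h4 | h4
      · exact Finset.disjoint_left.1 h.dXY h4 hb.2
      · exact Finset.disjoint_left.1 h.dSY h4 hb.2
    · exfalso
      rcases Finset.mem_union.1 (h3 ha.1) with h4 | h4
      · exact Finset.disjoint_left.1 h.dXY ha.2 h4
      · exact Finset.disjoint_left.1 h.dXS ha.2 h4
    · exact h3

/-! ### Edge facets and separators -/

/-- A triple containing both sides is unfilled. -/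
theorem PMS.not_fill (h : PMS Δ x y S X Y) (hx : x ∉ A) (hy : y ∉ A) : ¬ fill Δ [X, Y, A] := by
  rintro ⟨F, hF, hF'⟩
  have h1 := h.xy F hF (hF' X (by simp)) (hF' Y (by simp))
  obtain ⟨v, hv⟩ := hF' A (by simp)
  rw [Finset.mem_inter, h1, Finset.mem_insert, Finset.mem_singleton] at hv
  rcases hv.1 with h2 | h2
  · exact hx (h2 ▸ hv.2)
  · exact hy (h2 ▸ hv.2)

/-- The only edge between the sides is `xy`. -/
theorem Spl.no_edge (h : Spl Δ x y S X Y) (ha : a ∈ X) (hb : b ∈ Y) (hab : adj Δ a b) :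
    a = x ∧ b = y := by
  rcases h.face _ hab.2 with h3 | h3 | h3
  · exfalso
    have h5 : b ∈ ({a, b} : Finset V) := by simp
    rcases Finset.mem_union.1 (h3 h5) with h4 | h4
    · exact Finset.disjoint_left.1 h.dXY h4 hb
    · exact Finset.disjoint_left.1 h.dSY h4 hb
  · exfalso
    have h5 : a ∈ ({a, b} : Finset V) := by simp
    rcases Finset.mem_union.1 (h3 h5) with h4 | h4
    · exact Finset.disjoint_left.1 h.dXY ha h4
    · exact Finset.disjoint_left.1 h.dXS ha h4
  · have h5 : a ∈ ({a, b} : Finset V) := by simp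
    have h6 : b ∈ ({a, b} : Finset V) := by simp
    rw [h3, Finset.mem_insert, Finset.mem_singleton] at h5 h6
    constructor
    · rcases h5 with h5 | h5
      · exact h5
      · exact absurd (h5 ▸ h.hy) (Finset.disjoint_left.1 h.dXY ha)
    · rcases h6 with h6 | h6
      · exact absurd hb (Finset.disjoint_left.1 h.dXY (h6 ▸ h.hx))
      · exact h6

/-- A face other than `xy` which meets `X` lies in `X ∪ S`. -/
theorem Spl.sub_left (h : Spl Δ x y S X Y) (hF : F ∈ Δ) (hne : F ≠ {x, y}) (hX : (F ∩ X).Nonempty) :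
    F ⊆ X ∪ S := by
  rcases h.face F hF with h3 | h3 | h3
  · exact h3
  · exfalso
    obtain ⟨a, ha⟩ := hX
    rw [Finset.mem_inter] at ha
    rcases Finset.mem_union.1 (h3 ha.1) with h4 | h4
    · exact Finset.disjoint_left.1 h.dXY ha.2 h4
    · exact Finset.disjoint_left.1 h.dXS ha.2 h4
  · exact absurd h3 hne

theorem Spl.sub_right (h : Spl Δ x y S X Y) (hF : F ∈ Δ) (hne : F ≠ {x, y})
    (hY : (F ∩ Y).Nonempty) : F ⊆ Y ∪ S :=
  h.symm.sub_left hF (by rw [Finset.pair_comm]; exact hne) hY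

/-- A common neighbour of `x` and `y` lies in every separator. -/
theorem Spl.mem_of_common (h : Spl Δ x y S X Y) (hx : adj Δ x p) (hy : adj Δ y p) : p ∈ S := by
  have hxy : x ≠ y := fun e => Finset.disjoint_left.1 h.dXY h.hx (e ▸ h.hy)
  have h1 : ({x, p} : Finset V) ≠ {x, y} := by
    intro e
    have h5 : p ∈ ({x, p} : Finset V) := by simp
    rw [e, Finset.mem_insert, Finset.mem_singleton] at h5
    rcases h5 with h5 | h5
    · exact hx.1 h5.symm
    · exact hy.1 h5.symm
  have h2 : ({y, p} : Finset V) ≠ {x, y} := by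
    intro e
    have h5 : p ∈ ({y, p} : Finset V) := by simp
    rw [e, Finset.mem_insert, Finset.mem_singleton] at h5
    rcases h5 with h5 | h5
    · exact hx.1 h5.symm
    · exact hy.1 h5.symm
  have h3 := h.sub_left hx.2 h1 ⟨x, Finset.mem_inter.2 ⟨by simp, h.hx⟩⟩
  have h4 := h.sub_right hy.2 h2 ⟨y, Finset.mem_inter.2 ⟨by simp, h.hy⟩⟩
  have h5 : p ∈ X ∪ S := h3 (by simp)
  have h6 : p ∈ Y ∪ S := h4 (by simp)
  rcases Finset.mem_union.1 h5 with h7 | h7
  · rcases Finset.mem_union.1 h6 with h8 | h8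
    · exact absurd h8 (Finset.disjoint_left.1 h.dXY h7)
    · exact h8
  · exact h7

/-- If one side is `{x}`, the separator is the set of neighbours of `x` other than `y`. -/
theorem MS.mem_iff (h : MS Δ x y S {x} Y) : p ∈ S ↔ adj Δ x p ∧ p ≠ y := by
  constructor
  · intro hp
    refine ⟨adj_symm (touch_single.1 (h.tX p hp)), ?_⟩
    rintro rfl
    exact Finset.disjoint_left.1 h.dSY hp h.hy
  · rintro ⟨h1, h2⟩
    have h3 : ({x, p} : Finset V) ≠ {x, y} := by
      intro e
      have h5 : p ∈ ({x, p} : Finset V) := by simp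
      rw [e, Finset.mem_insert, Finset.mem_singleton] at h5
      rcases h5 with h5 | h5
      · exact h1.1 h5.symm
      · exact h2 h5
    have h4 := h.toSpl.sub_left h1.2 h3 ⟨x, Finset.mem_inter.2 ⟨by simp, h.hx⟩⟩
    have h5 : p ∈ {x} ∪ S := h4 (by simp)
    rcases Finset.mem_union.1 h5 with h7 | h7
    · exact absurd (Finset.mem_singleton.1 h7).symm h1.1
    · exact h7

theorem Ctx.mem_left (h : Ctx Δ x y) : x ∈ vs Δ :=
  mem_vs.2 (h.inP.cx.down _ h.ef.mem _ (by simp))

theorem Ctx.mem_right (h : Ctx Δ x y) : y ∈ vs Δ :=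
  mem_vs.2 (h.inP.cx.down _ h.ef.mem _ (by simp))

theorem Ctx.adj (h : Ctx Δ x y) : adj Δ x y := ⟨h.ef.ne, h.ef.mem⟩

theorem ApexD.adj_left (h : ApexD Δ x y p) (hx : x ∈ vs Δ) (hxy : x ≠ y) : adj Δ x p := by
  have h1 : ({x} : Finset V) ≠ {x, y} := by
    intro e
    have h5 : y ∈ ({x, y} : Finset V) := by simp
    rw [← e, Finset.mem_singleton] at h5
    exact hxy h5.symm
  refine ⟨h.1.symm, ?_⟩
  rw [Finset.pair_comm]
  exact h.2.2 {x} (mem_vs.1 hx) h1

theorem ApexD.adj_right (h : ApexD Δ x y p) (hy : y ∈ vs Δ) (hxy : x ≠ y) : adj Δ y p :=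
  h.symm.adj_left hy hxy.symm

end Pool.Agent.Lib.MP_73b196_co.St
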