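import Pool.Agent.Lib.MP_73b196_co.St.Comp
import Pool.Agent.Lib.MP_73b196_co.St.Ctr
import Pool.Agent.Lib.MP_73b196_co.St.Rules
import Pool.Agent.Lib.MP_73b196_co.St.Sep

/-!
# Structure theorem for edge facets (S3): statements with complete proofs in the docstrings

Definitions: `St/Defs.lean`; lemmas: `St/Base.lean` (faces, touching, connected sets), `St/Rules.lean` (the
rules `k4two`, `k4three`, `k4all`, `clq_mem`, `clq_fill` for models), `St/Sep.lean` (symmetry, separators),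
`St/Comp.lean` (components, growing of connected sets), `St/Ctr.lean` (contraction). One module `St/<Name>.lean` for each
statement, theorem `Pool.Agent.Lib.MP_73b196_co.St.t<Name>`; the statements under `uses` are hypotheses, e.g.
`theorem tA2 (h1 : StmtA1) : StmtA2`.

Notation in the docstrings: `V = vs Δ`; `x, y` are the ends of the edge facet; `K` is the set of common
neighbours of `x` and `y`; `K4{A,B,C,D}` means: `[A,B,C,D]` is a clique model (`CM`), apply `k4two`,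
`k4three` or `k4all`; a union of a vertex and a set is written `x + A`. A face which meets both sides of a
separator is `{x,y}` (`Spl.sub_left`, `Spl.no_edge`, `PMS.not_fill`).
-/

set_option autoImplicit false

namespace Pool.Agent.Lib.MP_73b196_co.St

/-! ## A. Minimal separators -/

/-- **A1** Proof. `K4{X,Y,s,s'}`: `X` and `Y` touch by the edge `xy`; the triples `X,Y,s` and `X,Y,s'` are
unfilled (`PMS.not_fill`; `x, y ∉ S`). `k4two`. -/
def StmtA1 : Prop := ∀ (V : Type) [Fintype V] [DecidableEq V] (Δ : Set (Finset V)) (x y : V)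
  (S X Y : Finset V) (s s' : V), InP Δ → EdgeFacet Δ x y → PMS Δ x y S X Y → s ∈ S → s' ∈ S →
  adj Δ s s' → fill Δ [X, {s}, {s'}] ∧ fill Δ [Y, {s}, {s'}]

/-- **A2** (uses `A1`) Proof. Triples `a,b,c` in the clique `C` are faces: `K5{a; b,c; X,Y}`, that is
`InP.k5` with the sets `{a}, {b}, {c}, X, Y`: `{a},X,Y` is unfilled. Then `clq_mem`, `clq_fill` with `A1`. -/
def StmtA2 : Prop := ∀ (V : Type) [Fintype V] [DecidableEq V] (Δ : Set (Finset V)) (x y : V)
  (S X Y C : Finset V), InP Δ → EdgeFacet Δ x y → PMS Δ x y S X Y → C ⊆ S → Clq Δ C →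
  C ∈ Δ ∧ (∃ F ∈ Δ, C ⊆ F ∧ (F ∩ X).Nonempty) ∧ ∃ F ∈ Δ, C ⊆ F ∧ (F ∩ Y).Nonempty

/-- **A3** (uses `A1`) A connected part of `S` has a dominating vertex. Proof. (1) `S` contains no induced
path `s1 s2 s3 s4`: `K4{X+s1, Y+s4, s2, s3}`: all four triples are filled: `Y s1 s2` filled (`A1`) gives
`(X+s1)(Y+s4)s2`; `X s3 s4` gives `(X+s1)(Y+s4)s3`; `X s2 s3` and `Y s2 s3`. By `k4all` some face contains
`s2, s3` and meets `X+s1` and `Y+s4`: but `s1` is not adjacent to `s3`, `s4` not to `s2`, and a face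
meeting `X` and `Y` is `{x,y}`. (2) no induced 4-cycle `s1 s2 s3 s4`: the sets `s3; s4, s1+s2; X, Y`
contradict `k5`: `s3,s4,(s1+s2)` is unfilled (`s1 s3` and `s2 s4` are nonadjacent), `s3,X,Y` is unfilled.
(3) Let `d ∈ C` have the maximal number of neighbours in `C`. If `d` does not dominate `C`, then (connectedness
of `C`: the set of `d` and its neighbours in `C` touches the rest) there are `a, b ∈ C` with `d ~ a ~ b`,
`d ≠ b` not adjacent to `b`. By maximality there is `c ∈ C`, `c ≠ a`, adjacent to `d`, not adjacent to `a`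
(the neighbours of `a` include `b` which is not a neighbour of `d`). If `c ~ b` then `c d a b` is an induced
4-cycle, otherwise `c d a b` is an induced path. -/
def StmtA3 : Prop := ∀ (V : Type) [Fintype V] [DecidableEq V] (Δ : Set (Finset V)) (x y : V)
  (S X Y C : Finset V), InP Δ → EdgeFacet Δ x y → PMS Δ x y S X Y → C ⊆ S → Conn Δ C →
  ∃ d ∈ C, ∀ c ∈ C, c ≠ d → adj Δ d c

/-- **A4** (uses `A2`) Every separator contains a minimal one. Proof. Take `S ⊆ U` with `Spl Δ x y S X Y` for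
some `X, Y`, and `|S|` minimal. `X'` = the component of `X` containing `x`, `Y'` = the component of `Y`
containing `y`. Every `s ∈ S` touches `X'`: otherwise `Spl Δ x y (S-s) X' (V - X' - (S-s))`. The same for
`Y'`. So `PMS Δ x y S X' Y'`. Suppose `R = V - (X'+S+Y')` is nonempty, `E` a component of `R`; `E` touches
neither `X'` nor `Y'`. Let `N` be the set of `s ∈ S` touching `E`. If `N ∈ Δ` then `V - N` is connected
(`Irr.conn`), but `E` has no edges to the rest of `V - N`, which contains `x`. So `N ∉ Δ`, by `A2` `N` is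
not a clique: `s ≠ s'` in `N` nonadjacent. `K4{X', Y', E+s, s'}`: the triples `X'Y'(E+s)`, `X'Y's'` are
unfilled, `X'(E+s)s'` as well (`X'` does not touch `E`, `s` is not adjacent to `s'`): `k4three`. So
`X'+S+Y' = V`, and `MS Δ x y S X' Y'`. -/
def StmtA4 : Prop := ∀ (V : Type) [Fintype V] [DecidableEq V] (Δ : Set (Finset V)) (x y : V)
  (U X Y : Finset V), Ctx Δ x y → Spl Δ x y U X Y → ∃ S X' Y', S ⊆ U ∧ MS Δ x y S X' Y'

/-- **A5** Proof. Let `U = ∅`. `V - x` is connected (`{x}` is a face) and contains `y`; `X - x` has no edges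
to `Y` (`Spl.no_edge`), so `X = {x}`, and `Y = {y}` in the same way. So `V = {x,y}` and `x` is a cone
vertex of `Δ`. -/
def StmtA5 : Prop := ∀ (V : Type) [Fintype V] [DecidableEq V] (Δ : Set (Finset V)) (x y : V)
  (U X Y : Finset V), Ctx Δ x y → Spl Δ x y U X Y → U.Nonempty

/-- **A6** (uses `A4`, `A5`) If there is no separator with one element, a separator with two elements is
minimal, with the same sides. Proof. `A4` gives `S' ⊆ {s,t}` with `MS Δ x y S' X' Y'`; `S'` is nonempty and not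
a singleton, so `S' = {s,t}`. `X'` is connected, `x ∈ X ∩ X'`, `X' ⊆ V - {s,t} = X + Y`, `y ∉ X'`, and there
is no edge between `X` and `Y` other than `xy`: so `X' ⊆ X`; similarly `Y' ⊆ Y`; both are partitions of
`V - {s,t}`. -/
def StmtA6 : Prop := ∀ (V : Type) [Fintype V] [DecidableEq V] (Δ : Set (Finset V)) (x y s t : V)
  (X Y : Finset V), Ctx Δ x y → (∀ u X Y, ¬ Spl Δ x y {u} X Y) → s ≠ t → Spl Δ x y {s, t} X Y →
  MS Δ x y {s, t} X Y

/-! ## B. Separating pairs of nonadjacent vertices -/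

/-- **B1** The reduction for a separating nonadjacent pair. Proof. `{x,y} ≠ {a,b}`. Let `W` be the component of
`V - {a,b}` which contains `x` or `y` (the elements of `{x,y} - {a,b}` are in one component, they are
adjacent if there are two). Every component `C` of `V - {a,b}` touches `a` and `b`: if it does not touch `a`, the
face `{b}` separates `C` from `a` (`Irr.conn`). Let `E ≠ W` be another component (`exists_comp_notMem`).
`D2 = insert {a,b} (ind Δ (W+a+b))` is `ind (con Δ (E+a) a) (W+a+b)`: a face `F` meeting `E` is contained in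
`E+a+b`, its image is contained in `{a,b}`; a face not meeting `E` is unchanged. So `InP D2` (`InP.con`,
`InP.ind`). `xy` is a facet of `D2`. No cone vertex: it would be `x` or `y` (as `xy` is a facet) and also `a`
or `b` (as `ab` is a facet of `D2`), say `a` (symmetric); but `b` touches `W` in `w`, and `{b,w}+a` is not
a face. Let `F ∈ D2`. If `F = {a,b}` then `V(D2) - F = W` is connected. Otherwise `F ∈ Δ`, `V - F` is
connected; if `V(D2) - F = A + B` without edges of `D2` between, let `R = V - (W+a+b)` be the rest; `a`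
and `b` (if not in `F`) lie in the same part, say not in `B` (if `{a,b}` meets `B` exchange `A` and `B`); then
`B` has no edges to `A + (R - F)`: contradiction. -/
def StmtB1 : Prop := ∀ (V : Type) [Fintype V] [DecidableEq V] (Δ : Set (Finset V)) (x y a b : V),
  Ctx Δ x y → a ∈ vs Δ → b ∈ vs Δ → a ≠ b → ¬ adj Δ a b → ¬ Conn Δ (vs Δ \ {a, b}) →
  ∃ W, IsComp Δ (vs Δ \ {a, b}) W ∧ x ∈ W ∪ {a, b} ∧ y ∈ W ∪ {a, b} ∧ W ∪ {a, b} ≠ vs Δ ∧
    touch Δ {a} W ∧ touch Δ {b} W ∧ Ctx (insert {a, b} (ind Δ (W ∪ {a, b}))) x y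

/-- **B2** Proof. `D2 = insert {a,b} (ind Δ (W+a+b))`, `R = V - (W+a+b)`. Every face of `Δ` is contained in
`W+a+b` or in `R+a+b`. EXTENSION: `Spl D2 x y {u} X1 Y1` implies a splitting of `Δ` by `u`: `{a,b} ∈ D2` is
contained in `X1+u` or in `Y1+u` (it is not `{x,y}`); add `R` to this side. Cases of `Concl D2 x y`:
(1) `ApexD D2 x y p`: `{a,b}+p ∈ D2`, so `p ∈ {a,b}`, say `p = a` (symmetric). `b` is adjacent to some
`w ∈ W`; if `{b,w} ≠ {x,y}` then `{b,w}+a ∈ D2`, impossible. So `b` has only one neighbour `w` in `W`,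
`{b,w} = {x,y}`. Say `b = x` (else exchange `x`, `y`). Then `Spl D2 x y {a} {x} (W+b+a - {x,a})`: a face of
`D2` containing `x` other than `xy` is contained in `{x,a}`. Extension. (2) `Spl D2 x y {u} ..`: extension.
(3) `Crossed`: `s, t, X1, Y1`. `{a,b}` is contained in `X1+s+t` or in `Y1+s+t`; say the first (exchange
`x,y` and `s,t`). `{a,b}+s ∈ D2`, so `s ∈ {a,b}`, say `s = a`. Every face of `D2` inside `X1+s+t` which
contains `b` is contained in `{a,b}`. If `b = t`: `Spl D2 x y {a} X1 (Y1+b)`. If `b ≠ t` then `b ∈ X1`; `b` is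
adjacent to some `w ∈ W`, `{b,w}` is not contained in `X1+s+t`, so (`b ∈ X1`) `{b,w} = {x,y}`, `b = x`, and
`Spl D2 x y {a} {x} (V(D2) - {x,a})`. Extension. -/
def StmtB2 : Prop := ∀ (V : Type) [Fintype V] [DecidableEq V] (Δ : Set (Finset V)) (x y a b : V)
  (W : Finset V), Ctx Δ x y → a ∈ vs Δ → b ∈ vs Δ → a ≠ b → ¬ adj Δ a b →
  IsComp Δ (vs Δ \ {a, b}) W → x ∈ W ∪ {a, b} → y ∈ W ∪ {a, b} → touch Δ {a} W → touch Δ {b} W →
  Concl (insert {a, b} (ind Δ (W ∪ {a, b}))) x y → ∃ u X Y, Spl Δ x y {u} X Y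

/-- **B3** Proof. `p = u` (`Spl.mem_of_common`). `{x,u}` is a face, so `V - {x,u}` is connected and contains
`y`; `X - x` has no edges to `Y`, so `X = {x}`. Similarly `Y = {y}`. -/
def StmtB3 : Prop := ∀ (V : Type) [Fintype V] [DecidableEq V] (Δ : Set (Finset V)) (x y p u : V)
  (X Y : Finset V), Ctx Δ x y → adj Δ x p → adj Δ y p → Spl Δ x y {u} X Y → vs Δ = {x, y, p}

/-- **B4** (uses `B1`, `B2`, `B3`) Proof. Suppose `a, b` are nonadjacent and `V - {a,b}` is not connected.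
`B1` gives `W`, `D2` with `Ctx D2 x y`; `vs D2 = W+a+b` is smaller. The common neighbour `p` is in `W+a+b`
(otherwise it is in another component of `V - {a,b}`, so `x, y ∈ {a,b}`, but `x ~ y`), so `HypA` gives
`ApexD D2 x y q`, hence `Concl D2 x y`, and `B2`, `B3` give `V = {x,y,p}`, three pairwise adjacent
vertices: contradiction. -/
def StmtB4 : Prop := ∀ (V : Type) [Fintype V] [DecidableEq V] (Δ : Set (Finset V)) (x y : V),
  HypA V (vs Δ).card → Ctx Δ x y → (∃ p, adj Δ x p ∧ adj Δ y p) → NoPair Δ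

/-! ## C. A minimal separator which is a clique -/

/-- **C1** (uses `A2`, `A5`) The contraction of the side `Y` to `y`. Proof. `S ≠ ∅` (`A5`). `con Δ Y y = GX`:
the image of `F` is `F` if `F ∩ Y = ∅` (then `F ⊆ X+S`), `{x,y}` for `F = {x,y}`, and a subset of `S+y` if
`F ⊆ Y+S`; conversely by `A2` there is a face `F0` with `S ⊆ F0`, `F0 ∩ Y ≠ ∅`, and subsets of `F0` give all
subsets of `S+y` (`S ∈ Δ` by `A2`). `InP` by `InP.con`. `xy` is a facet. No cone vertex: it would be `x` or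
`y`; `x`: `{y,s}+x` with `s ∈ S`; `y`: `{s,x'}+y` where `x' ∈ X` is adjacent to `s ∈ S`. Connectedness of
`V(GX) - F`, `V(GX) = X+S+y`: (1) `F ∈ Δ`, `F ⊆ X+S`: `V - F` is connected in `Δ`, lift the two parts (the
part containing `y` gets `Y`). (2) `F ⊆ S+y` with `y ∈ F`: the rest is `X` together with some `s ∈ S`, all
of them touch `X`: `Conn.attach`. (3) `F = {x,y}`: the rest is `(X-x)+S`; two parts without edges: the
clique `S` is contained in one of them, the other one `B` is contained in `X - x` and has no edges to the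
rest of `V - {x,y}` in `Δ`; but this set is connected in `Δ`. -/
def StmtC1 : Prop := ∀ (V : Type) [Fintype V] [DecidableEq V] (Δ : Set (Finset V)) (x y : V)
  (S X Y : Finset V), Ctx Δ x y → MS Δ x y S X Y → Clq Δ S →
  Ctx (GX Δ X S x y) x y ∧ vs (GX Δ X S x y) = insert y (X ∪ S)

/-- **C2** Cone vertices and common neighbours. Proof. `P` = the set of all `p` with `ApexD Δ x y p`, nonempty,
`a ∉ P`, `x, y ∉ P`. Adding elements of `P` to a face other than `xy` gives a face. `D' = ind Δ (V - P)`: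
`InP`, the edge facet `xy`, common neighbour `a`, smaller than `Δ`. No `ApexD D' x y q`: such a `q` would be
`ApexD Δ x y` (for `F ∈ Δ`, `F ≠ xy`, one has `F - P ≠ xy`, add `q`, then the elements of `F ∩ P`). So by
`HypA` `D'` is not irreducible. A cone vertex of `D'` is `x` or `y`, but `{y,a}+x`, `{x,a}+y` are not faces.
So there is `F ∈ D'` with `V - P - F` not connected. If `F ≠ xy` then `F ∪ P ∈ Δ` and `V - (F ∪ P)` is
connected: contradiction. So `Q = V - P - {x,y}` is not connected; it contains `a`; let `E` be a component of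
`Q` with `a ∉ E` (`exists_comp_notMem`). `E` touches `x`: `P + y` is a face of `Δ` (`{y} ≠ xy`), so
`V - (P+y) = Q + x` is connected, and `E` has no edges to `Q - E`. Similarly `E` touches `y`. -/
def StmtC2 : Prop := ∀ (V : Type) [Fintype V] [DecidableEq V] (Δ : Set (Finset V)) (x y a : V),
  HypA V (vs Δ).card → Ctx Δ x y → (∃ p, ApexD Δ x y p) → adj Δ x a → adj Δ y a →
  ¬ ApexD Δ x y a → ∃ E, Conn Δ E ∧ x ∉ E ∧ y ∉ E ∧ a ∉ E ∧ (∀ p ∈ E, ¬ ApexD Δ x y p) ∧
    (∀ e ∈ E, ∀ v, adj Δ e v → v ∈ E ∨ v = x ∨ v = y ∨ ApexD Δ x y v) ∧ touch Δ {x} E ∧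
    touch Δ {y} E

/-- **C3** (uses `A2`, `C1`, `C2`) Proof. `D = GX Δ X S x y` is smaller than `Δ` (`Y ≠ {y}`), `p` is a common
neighbour of `x` and `y` in `D`, so some `q` is `ApexD D x y` (`HypA`). Claim: `p` is `ApexD D x y`.
Otherwise take `E` from `C2` for `D`, `a := p`. `E` touches `y` in `D`, and the neighbours of `y` in `D` are
`x` and the elements of `S`; so there is `e ∈ E ∩ S`, adjacent to `p` (clique), so `p ∈ E`, or `p = x`,
`p = y`, or `p` is `ApexD`: contradiction. Now `F ∈ Δ`, `F ⊆ X+S` is in `D`, `F ≠ xy`, so `F+p ∈ D`, and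
`F+p ⊆ X+S` is a face of `Δ` (a subset of `S+y` without `y` is a subset of `S ∈ Δ`, `A2`). -/
def StmtC3 : Prop := ∀ (V : Type) [Fintype V] [DecidableEq V] (Δ : Set (Finset V)) (x y p : V)
  (S X Y : Finset V), HypA V (vs Δ).card → Ctx Δ x y → MS Δ x y S X Y → Clq Δ S → Y ≠ {y} →
  p ∈ S → adj Δ x p → ∀ F ∈ Δ, F ⊆ X ∪ S → insert p F ∈ Δ

/-- **C4** (uses `C3`) Proof. The common neighbour `p` is in `S` (`Spl.mem_of_common`). `C3` for both sides
(`MS.symm`, `Ctx.symm`), `Spl.face`. -/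
def StmtC4 : Prop := ∀ (V : Type) [Fintype V] [DecidableEq V] (Δ : Set (Finset V)) (x y : V)
  (S X Y : Finset V), HypA V (vs Δ).card → Ctx Δ x y → (∃ p, adj Δ x p ∧ adj Δ y p) →
  MS Δ x y S X Y → Clq Δ S → X ≠ {x} → Y ≠ {y} → ∃ q, ApexD Δ x y q

/-- **C5** The contraction of `y` to `s`, if the side of `y` is `{y}`. Proof. `D = insert {x,s} (ind Δ (V - y))`
`= con Δ {y,s} s`: the faces containing `y` are `xy` and subsets of `S+y` (their images are subsets of `S`,
which is a face). So `InP D`. (`S ∈ Δ`: use `PMS` and `k5`/`clq_mem` as in `A2`, or take `A2` as an additional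
hypothesis of the module.) `V(D) = X+S`. `xs` is a facet of `D`, as `x, s` are nonadjacent in `Δ`. No cone
vertex of `D`: it would be `x` or `s`; `x`: `{s,s'}+x` contains `x, s`; `s`: `X ≠ {x}` (otherwise `s` touches
`{x}`), so `x` has a neighbour `q ∈ X`, `{x,q}+s`. Suppose `F ∈ D` and `V(D) - F` is not connected in `D`;
let `B, C` be the two parts. (1) `F = {x,s}`: by `NoPair` `V - {x,s}` is connected; it is `B + C + y`; the
neighbours of `y` in it are in the clique `S - s`, nonempty; the clique lies in one part, the other part has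
no edges at all: contradiction. (2) `F ∈ Δ`, `F ⊆ X+S`; `V - F = B + C + y` is connected. If `s ∉ F`, say
`s ∈ B`: then `B+y` touches `C` in `Δ`: `y` is adjacent to some `c ∈ C`: `c = x`, but `xs` is an edge of `D`;
or `c ∈ S`, adjacent to `s`: contradiction. So `s ∈ F`, hence `x ∉ F`; say `x ∈ B`. `B+y` touches `C`: `y` is
adjacent to some `c ∈ C ∩ S`. So `S` is not contained in `F`, and `S - F ⊆ C` (clique). Then
`Spl Δ x y F B (C+y)`. -/
def StmtC5 : Prop := ∀ (V : Type) [Fintype V] [DecidableEq V] (Δ : Set (Finset V)) (x y s s' : V)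
  (S X : Finset V), Ctx Δ x y → NoPair Δ → MS Δ x y S X {y} → Clq Δ S → S ∈ Δ → s ∈ S →
  ¬ adj Δ x s → s' ∈ S → s' ≠ s → Ctx (insert {x, s} (ind Δ (vs Δ \ {y}))) x s ∨
    ∃ F ∈ Δ, s ∈ F ∧ ¬ S ⊆ F ∧ ∃ X' Y', Spl Δ x y F X' Y'

/-- **C6** (uses `A2`, `A4`, `C2`, `C4`, `C5`) Proof. Let `p` be the common neighbour, `p ∈ S`. Let `s ∈ S`
be not adjacent to `x` (so `s ≠ p`). `C5` with `s' := p`. First case: `D = insert {x,s} (ind Δ (V-y))` is
smaller than `Δ`, `p` is a common neighbour of `x` and `s`, so some `q` is `ApexD D x s` (`HypA`). If such a `q`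
is in `S` then `ApexD Δ x y q`: for `F ∈ Δ`, `F ≠ xy`: `F ⊆ X+S`: `F ∈ D`, `F ≠ {x,s}`, `F+q ∈ D`, and
`F + q ≠ {x,s}`; or `F ⊆ S+y ∈ Δ` (`A2`). If no such `q` is in `S`: `p` is not `ApexD D x s`, `C2` for `D` and
`a := p` gives `E`. `E ∩ S = ∅`: an element of `E ∩ S` is adjacent to `p`. `K4{x, y, s+E, p}` in `Δ` (`E`
touches `x` and `s`): the triples `x,y,(s+E)`, `x,y,p` are unfilled (`xy` is a facet), and `x,(s+E),p` is
unfilled: `x` is not adjacent to `s`, `p` is not adjacent to elements of `E`: `k4three`, contradiction.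
Second case: `A4` gives `S2 ⊆ F` with `MS Δ x y S2 X2 Y2`; `S2` is a clique. `Y2 ≠ {y}` (otherwise
`S2 = S ⊆ F`, `MS.mem_iff` for the symmetric statement). If `X2 ≠ {x}`: `C4`. Otherwise `X2 = {x}`,
`S2 = N(x) - y` (`MS.mem_iff`) and `S2 + s ⊆ F` is a face. So (if there is no `ApexD`) for all `s ∈ S` not
adjacent to `x` the set `(N(x) - y) + s` is a face; for `s` adjacent to `x` it is `N(x) - y` itself. There is at
least one `s ∈ S` not adjacent to `x`: otherwise `x+S` is a face (`K4{x,y,s,s'}` and `clq_mem`), but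
`V - (x+S)` is `(X-x)+y`, not connected, as `X ≠ {x}`. -/
def StmtC6 : Prop := ∀ (V : Type) [Fintype V] [DecidableEq V] (Δ : Set (Finset V)) (x y : V)
  (S X : Finset V), HypA V (vs Δ).card → Ctx Δ x y → NoPair Δ → (∃ p, adj Δ x p ∧ adj Δ y p) →
  MS Δ x y S X {y} → Clq Δ S → X ≠ {x} → (∃ q, ApexD Δ x y q) ∨
    ∃ S2 Y2, MS Δ x y S2 {x} Y2 ∧ Clq Δ S2 ∧ ∀ s ∈ S, insert s S2 ∈ Δ

/-- **C7** (uses `A2`, `C4`, `C6`) Proof. `X ≠ {x}`, `Y ≠ {y}`: `C4`. `X = {x}`, `Y = {y}`: `V = {x,y}+S`,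
`S+x ∈ Δ`, `S+y ∈ Δ` (`A2`), so the common neighbour `p ∈ S` is `ApexD`. `X ≠ {x}`, `Y = {y}` (the remaining
case is symmetric): `C6` gives `S2`, `Y2`. `Y2 ≠ {y}`: otherwise `S2 = N(x) - y ⊆ S`, every `v ∈ V` is in
`{x}+S2+{y}`, so `X ⊆ {x}`. `C6` for `(y,x)` and `MS Δ y x S2 Y2 {x}`: `S3, X3` with `MS Δ y x S3 {y} X3`,
`S3 = N(y) - x = S` (`MS.mem_iff`), and `S + t ∈ Δ` for all `t ∈ S2`. So `F = S ∪ S2` is a clique all of
whose triples are faces: `F ∈ Δ` (`clq_mem`). `V - F` is connected and contains `x, y`, whose neighbours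
outside `F` are only `y` and `x`: `V = F+x+y`. `x+S2 ∈ Δ`, `y+S ∈ Δ` (`A2`). The common neighbour
`p ∈ S ∩ S2` is `ApexD`: a face containing `x` (and not `y`) is contained in `x+S2`, a face containing `y` is
contained in `y+S`, the other ones in `F`. -/
def StmtC7 : Prop := ∀ (V : Type) [Fintype V] [DecidableEq V] (Δ : Set (Finset V)) (x y : V)
  (S X Y : Finset V), HypA V (vs Δ).card → Ctx Δ x y → NoPair Δ →
  (∃ p, adj Δ x p ∧ adj Δ y p) → MS Δ x y S X Y → Clq Δ S → ∃ q, ApexD Δ x y q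

/-! ## D. A minimum separator which is not a clique -/

/-- **D1** Two disjoint connections (Menger for two paths). Proof. By the hypothesis for `u = s2` there is a
connected `A ⊆ U` with `s1 ∈ A`, `s2 ∉ A`, `A ∩ T ≠ ∅`. Among all pairs of disjoint connected sets
`A, B ⊆ U` with `s1 ∈ A`, `s2 ∈ B`, `A ∩ T ≠ ∅` take one with `|B|` maximal. If `B ∩ T ≠ ∅` we are done. Let
`B ∩ T = ∅`. Every `v ∈ U - B` touching `B` is in `A` (otherwise `B+v` is better). For `a ∈ A - s1` touching `B`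
let `A1(a)` be the component of `U - B - a` containing `s1`; it does not meet `T` (otherwise the pair
`A1(a)`, `B+a` is better). There is such an `a`: by the hypothesis for `u = s1` there is a connected
`Q ⊆ U - s1` with `s2 ∈ Q` meeting `T`; it leaves `B`. Choose `a` with `|A1(a)|` maximal, and apply the
hypothesis to `u = a`: `Q ⊆ U - a` connected, meeting `T`, and meeting `M = B + A1(a)` (in `s1` or `s2`).
`M ∩ T = ∅`, so there is an edge from `m ∈ Q ∩ M` to `v ∈ Q - M`, `v ≠ a`. `m ∈ A1(a)`: then `v ∈ B` or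
`v ∈ A1(a)`, impossible. `m ∈ B`: so `v ∈ A - s1` touches `B`, and `A1(a) ∪ {a}` is connected (`A` is connected,
so its part containing `s1` reaches `a`: the component of `A - a` containing `s1` touches `a` and lies in
`A1(a)`) and is contained in `U - B - v`: so `A1(v)` is larger than `A1(a)`: contradiction. -/
def StmtD1 : Prop := ∀ (V : Type) [Fintype V] [DecidableEq V] (Δ : Set (Finset V))
  (U T : Finset V) (s1 s2 : V), U ⊆ vs Δ → s1 ∈ U → s2 ∈ U → s1 ≠ s2 →
  (∀ u ∈ U, ∃ Q, Conn Δ Q ∧ Q ⊆ U \ {u} ∧ (s1 ∈ Q ∨ s2 ∈ Q) ∧ (Q ∩ T).Nonempty) →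
  ∃ A B, Disjoint A B ∧ Conn Δ A ∧ Conn Δ B ∧ A ⊆ U ∧ B ⊆ U ∧ s1 ∈ A ∧ s2 ∈ B ∧
    (A ∩ T).Nonempty ∧ (B ∩ T).Nonempty

/-- **D2** (uses `D1`) Nonadjacent vertices of a minimum separator do not touch a common component of `Y - y`.
Proof. `U = (Y-y)+s1+s2`, `T` = the elements of `U` adjacent to `y`. The hypothesis of `D1` holds: let `u ∈ U`
and suppose that no connected `Q ⊆ U - u` containing `s1` or `s2` meets `T`. Let `M` be the union of these `Q`,
`S' = (S - s1 - s2) + u`, `X' = X + M`, `Y' = V - X' - S'`. Then `Spl Δ x y S' X' Y'`: let `F ≠ xy` be a face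
with `f ∈ F ∩ X'`, `g ∈ F ∩ Y'`. `g ∉ S` (an element of `S - S'` is `s1` or `s2`, different from `u`, and lies in
`M`), so `g ∈ Y`, and `f ∈ X` is impossible. `f ∈ M`: if `g = y` then `f ∈ T`; otherwise `Q + g` shows
`g ∈ M`: contradictions. But `|S'| < |S|`: contradiction to the minimality. So `D1` gives `A ∋ s1`, `B ∋ s2`.
`W = C + s1 + s2 + A + B` is connected; by `grow` there are disjoint connected `A' ⊇ A`, `B' ⊇ B` with
`A' + B' = W`, touching each other. `K4{X, y, A', B'}`: `X, y, A'` and `X, y, B'` are unfilled (`xy` is a facet),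
`X, A', B'` is unfilled: `A' ∩ S = {s1}`, `B' ∩ S = {s2}`, these are not adjacent, and `X` does not touch
`Y - y`. `k4three`. -/
def StmtD2 : Prop := ∀ (V : Type) [Fintype V] [DecidableEq V] (Δ : Set (Finset V)) (x y s1 s2 : V)
  (S X Y C : Finset V), Ctx Δ x y → MS Δ x y S X Y →
  (∀ S' X' Y', Spl Δ x y S' X' Y' → S.card ≤ S'.card) → s1 ∈ S → s2 ∈ S → s1 ≠ s2 →
  ¬ adj Δ s1 s2 → IsComp Δ (Y \ {y}) C → touch Δ {s1} C → touch Δ {s2} C → False

/-- **D3** (uses `A3`, `D2`) Let `P = dom Δ S`, `R = V - (P + x + y)`. Proof. `S - P ≠ ∅` as `S` is not a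
clique. `S - P` is not connected: otherwise `A3` gives a vertex dominating `S - P`, hence `S`, so in `P`. Let
`s1 ∈ S - P`, `S1` the component of `S - P` containing `s1`, `S2` another component, `s2 ∈ S2`. Let `M` consist
of `S1`, the components of `X - x` touching `S1` and the components of `Y - y` touching `S1`. There is no edge
between `M` and `R - M`: by `D2` (for `Y`, and for `X` by symmetry) a component of `X - x` or `Y - y`
touching `S1` touches no element of `(S - P) - S1`, as these are not adjacent to `S1`. So the component `W1` of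
`R` containing `s1` is contained in `M` (`Conn.sub_of_closed`) and does not contain `s2`. -/
def StmtD3 : Prop := ∀ (V : Type) [Fintype V] [DecidableEq V] (Δ : Set (Finset V)) (x y : V)
  (S X Y : Finset V), Ctx Δ x y → MS Δ x y S X Y →
  (∀ S' X' Y', Spl Δ x y S' X' Y' → S.card ≤ S'.card) → ¬ Clq Δ S →
  ∃ s1 ∈ S \ dom Δ S, ∃ s2 ∈ S \ dom Δ S, ∃ W1 W2,
    IsComp Δ (vs Δ \ (dom Δ S ∪ {x, y})) W1 ∧ IsComp Δ (vs Δ \ (dom Δ S ∪ {x, y})) W2 ∧
    s1 ∈ W1 ∧ s2 ∈ W2 ∧ W1 ≠ W2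

/-- **D4** (uses `A2`, `D3`) Proof. `s1, s2, W1, W2` from `D3`. `W1` touches `x`: `s1` touches `X`; if `s1` is
not adjacent to `x` it is adjacent to some element of `X - x`, whose component in `X - x` is contained in `W1`
and touches `x` (`Conn.comp_touch`). Similarly `y`, and `W2`. `P ≠ ∅`: otherwise `V - {x,y} = R` is connected
(`xy` is a face), but it has the components `W1 ≠ W2`. Let `a ∈ P`, `a ~ s1, s2`. `K4{x, y, W1, a+W2}`: the
triples containing `x, y` are unfilled, so `x W1 (a+W2)` and `y W1 (a+W2)` are filled; `W1` does not touch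
`W2`, so `[x, a, W1]` and `[y, a, W1]` are filled, in particular `a ~ x, y`. `K4{x,y,a,a'}` for `a, a' ∈ P` gives
the faces `xaa'`, `yaa'`; `P` is a clique in `S`, so `P+x, P+y ∈ Δ` (`A2`, `clq_mem`). Let `W` be any component
of `R`. `V - (P+y)` is connected, so `W` touches `x` (there are no edges between components of `R`);
similarly `y`. So `W ∩ S ≠ ∅` (otherwise the connected set `W` lies in `X - x` or in `Y - y`, but it touches
`y` and `x`), and every `a ∈ P` is adjacent to an element of `W`. Let `W' ∈ {W1, W2}`, `W' ≠ W`.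
`K4{x, y, W, a+W'}` as before gives that `[x,a,W]` and `[y,a,W]` are filled. -/
def StmtD4 : Prop := ∀ (V : Type) [Fintype V] [DecidableEq V] (Δ : Set (Finset V)) (x y : V)
  (S X Y : Finset V), Ctx Δ x y → MS Δ x y S X Y →
  (∀ S' X' Y', Spl Δ x y S' X' Y' → S.card ≤ S'.card) → ¬ Clq Δ S →
  (dom Δ S).Nonempty ∧ insert x (dom Δ S) ∈ Δ ∧ insert y (dom Δ S) ∈ Δ ∧
    (∃ W1 W2, IsComp Δ (vs Δ \ (dom Δ S ∪ {x, y})) W1 ∧
      IsComp Δ (vs Δ \ (dom Δ S ∪ {x, y})) W2 ∧ W1 ≠ W2) ∧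
    ∀ W, IsComp Δ (vs Δ \ (dom Δ S ∪ {x, y})) W → touch Δ {x} W ∧ touch Δ {y} W ∧
      ∀ a ∈ dom Δ S, fill Δ [{x}, {a}, W] ∧ fill Δ [{y}, {a}, W]

/-- **D5** Proof. `D = ind Δ (W+P+x+y)`. `InP.ind`, `xy` is a facet of `D`. No cone vertex: it would be `x` or
`y`, but `{y,a}+x`, `{x,a}+y` (`a ∈ P`) are not faces. Let `F ∈ D`, `A, B` two parts of `V(D) - F` without
edges between. `P+x+y` minus `F` is not empty (`x, y, a` are not in one face) and pairwise adjacent, so it
lies in one part, say in `B`; then `A ⊆ W`. `V - F` is connected in `Δ`; `A` touches `V - F - A`: the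
neighbours of `A ⊆ W` are in `W+P+x+y`, so in `B`: contradiction. -/
def StmtD5 : Prop := ∀ (V : Type) [Fintype V] [DecidableEq V] (Δ : Set (Finset V)) (x y : V)
  (P W : Finset V), Ctx Δ x y → P.Nonempty → x ∉ P → y ∉ P → insert x P ∈ Δ → insert y P ∈ Δ →
  IsComp Δ (vs Δ \ (P ∪ {x, y})) W → Ctx (ind Δ (W ∪ (P ∪ {x, y}))) x y

/-- **D6** (uses `C2`, `D5`) A common cone vertex of all pieces. Proof. `R = V - (P+x+y)`. For a component `W`
of `R` let `D(W) = ind Δ (W+P+x+y)` (irreducible by `D5`, smaller than `Δ`, as there are two components), and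
`Q(W)` = the set of all `p` with `ApexD D(W) x y p`. The elements of `P` are common neighbours of `x, y`, so
`Q(W) ≠ ∅` (`HypA`). For `a ∈ P - Q(W)` let `E(W)` be the set from `C2` for `D(W)`; it is a subset of `W` (an
element `e` of `E(W) ∩ P` would be adjacent to `a`, so `a ∈ E(W)` or `a ∈ Q(W)`), it touches `x` and `y`, and
its neighbours in `D(W)` outside itself are `x, y` and elements of `Q(W)`; the elements of `Q(W)` are
adjacent to all other vertices of `D(W)`.
(a) If `P` is not contained in `Q(W)` then `Q(W) ⊆ P`: let `a ∈ P - Q(W)`, `b ∈ Q(W) - P`, so `b ∈ W`; let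
`W' ≠ W` be another component. `K4{x+E(W)+W', y, a, b}`: filled triples: `(..),y,a` by `[y,a,W']` filled;
`(..),y,b`: `e ∈ E(W)` adjacent to `y`, `{e,y}+b ∈ D(W)`; `(..),a,b`: `{x,a}+b`; `y,a,b`: `{y,a}+b`. By `k4all`
there is a face containing `y, a, b` and meeting `x+E(W)+W'`: not in `x` (`xy` is a facet), not in `E(W)` (not
adjacent to `a`), not in `W'` (`b ∈ W` is not adjacent to `W'`). Contradiction.
(b) If `P` is contained neither in `Q(W)` nor in `Q(W')`, then `Q(W) ⊆ Q(W')` or `Q(W') ⊆ Q(W)`: otherwise let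
`b ∈ Q(W) - Q(W')`, `c ∈ Q(W') - Q(W)`, both in `P`; `K4{x+E(W)+E(W'), y, b, c}`, where `E(W)` is for `a := c`
and `E(W')` for `a := b`: filled: `y,b` with `e ∈ E(W)`; `y,c` with `e ∈ E(W')`; `x,b,c` and `y,b,c` (`P+x`, `P+y`
are faces). A face containing `y, b, c` does not meet `x`, `E(W)` (not adjacent to `c`), `E(W')` (not adjacent
to `b`). Contradiction with `k4all`.
If `P ⊆ Q(W)` for all `W`, take any `p ∈ P`. Otherwise choose `W0` with `P` not in `Q(W0)` and `|Q(W0)|` minimal,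
and `p ∈ Q(W0) ⊆ P`: for every `W`, `P ⊆ Q(W)` or `Q(W0) ⊆ Q(W)` (by (b) and minimality), so `p ∈ Q(W)`. -/
def StmtD6 : Prop := ∀ (V : Type) [Fintype V] [DecidableEq V] (Δ : Set (Finset V)) (x y : V)
  (P : Finset V), HypA V (vs Δ).card → Ctx Δ x y → P.Nonempty → x ∉ P → y ∉ P →
  insert x P ∈ Δ → insert y P ∈ Δ →
  (∃ W1 W2, IsComp Δ (vs Δ \ (P ∪ {x, y})) W1 ∧ IsComp Δ (vs Δ \ (P ∪ {x, y})) W2 ∧ W1 ≠ W2) →
  (∀ W, IsComp Δ (vs Δ \ (P ∪ {x, y})) W → touch Δ {x} W ∧ touch Δ {y} W ∧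
    ∀ a ∈ P, fill Δ [{x}, {a}, W] ∧ fill Δ [{y}, {a}, W]) →
  ∃ p, ∀ W, IsComp Δ (vs Δ \ (P ∪ {x, y})) W → ApexD (ind Δ (W ∪ (P ∪ {x, y}))) x y p

/-- **D7** (uses `D4`, `D6`) Proof. `P = dom Δ S` (`x, y ∉ S`). `p` from `D6`. Let `F ∈ Δ`, `F ≠ xy`. If `F`
meets `R`, in a component `W`, then `F ⊆ W+P+x+y`; otherwise `F ⊆ P+x+y` and any component `W` does. So
`F ∈ ind Δ (W+P+x+y)` and `F+p` is a face. -/
def StmtD7 : Prop := ∀ (V : Type) [Fintype V] [DecidableEq V] (Δ : Set (Finset V)) (x y : V)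
  (S X Y : Finset V), HypA V (vs Δ).card → Ctx Δ x y → MS Δ x y S X Y →
  (∀ S' X' Y', Spl Δ x y S' X' Y' → S.card ≤ S'.card) → ¬ Clq Δ S → ∃ q, ApexD Δ x y q

/-- **Min** (uses `A4`) There is a minimum separator. Proof. `Spl Δ x y (V - {x,y}) {x} {y}` holds (`xy` is a
facet); take a `Spl` with `|S|` minimal and apply `A4`. -/
def StmtMin : Prop := ∀ (V : Type) [Fintype V] [DecidableEq V] (Δ : Set (Finset V)) (x y : V),
  Ctx Δ x y → ∃ S X Y, MS Δ x y S X Y ∧ ∀ S' X' Y', Spl Δ x y S' X' Y' → S.card ≤ S'.card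

/-- **ThmA** (uses `B4`, `C7`, `D7`, `Min`) Proof. Strong induction on `n`. -/
def StmtThmA : Prop := ∀ (V : Type) [Fintype V] [DecidableEq V] (n : ℕ), HypA V n

/-! ## E. No common neighbour: a clique separator with two large sides -/

/-- **E1** (uses `A1`, `C3`) Both sides have a cone vertex. Proof. By `C3` `a` is a cone vertex of the side
`X+S`, `b` of the side `Y+S` (in particular `b` is adjacent to all other vertices of `Y+S`). `a ≠ b`, `x` is not
adjacent to `b`, `y` not to `a`. If `S = {a,b}`: `Crossed`. Otherwise let `c ∈ S`, `c ≠ a, b`; `v = {x,y}`.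
(1) `c ~ x`, so `c` is not adjacent to `y`. `A1`: some face contains `a, c` and `z ∈ Y`; `z ≠ y`; `Z` = the
component of `Y - y` containing `z`. `k5` for `v; {a},{b}; {c},Z` (all pairwise touching: `y` touches `Z`): the
triples `v,a,b` and `v,c,Z` are unfilled: contradiction. (2) `c ~ y`: symmetric. (3) `c` is adjacent neither to
`x` nor to `y`: `A1`: faces `w b c` (`w ∈ X`, `w ≠ x` as `b` is not adjacent to `x`) and `z a c` (`z ∈ Y - y`); `W`,
`Z` their components in `X - x`, `Y - y`. `k5` for `v; {a},{b}; c+W, Z`: `v,a,b` is unfilled, `v,(c+W),Z` as well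
(`Z` does not touch `X`, `c` is not adjacent to `y`). -/
def StmtE1 : Prop := ∀ (V : Type) [Fintype V] [DecidableEq V] (Δ : Set (Finset V)) (x y a b : V)
  (S X Y : Finset V), HypA V (vs Δ).card → Ctx Δ x y → (∀ p, ¬ (adj Δ x p ∧ adj Δ y p)) →
  MS Δ x y S X Y → Clq Δ S → X ≠ {x} → Y ≠ {y} → a ∈ S → adj Δ x a → b ∈ S → adj Δ y b →
  Crossed Δ x y

/-- **E2** (uses `A2`, `A6`, `C1`) Lifting the crossed cones of the contraction `Γ = GX Δ X S x y`. Proof.
Let `s, t, X1, Y1` be from `Crossed Γ x y`. `x ∈ X1`, `y ∈ Y1`, so `s, t ∈ X+S`. `Spl Δ x y {s,t} X1 (Y1 ∪ Y)`: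
a face `F ≠ xy` of `Δ` inside `X+S` is in `Γ`; for a face `F ⊆ Y+S` the set `(F ∩ S)+y` is in `Γ`, not
contained in `X1+s+t`, so `F ∩ S ⊆ Y1+s+t`. By `A6` it is an `MS`. `t ∈ S`: `{y} ∪ {t} ∈ Γ`. For `F ∈ Δ`,
`F ⊆ X1+s+t ⊆ X+S`: `F+s ∈ Γ` without `y`, so `F+s ∈ Δ` (`S ∈ Δ`, `A2`); similarly for `t`. `X1 ≠ {x}`: if
`X1 = {x}` then `t` is `ApexD Γ x y`: for faces inside `Y1+s+t` clear; `t` touches `X1 = {x}`, so
`{x,t} ∈ Γ`, `{x,s,t} ∈ Γ`. -/
def StmtE2 : Prop := ∀ (V : Type) [Fintype V] [DecidableEq V] (Δ : Set (Finset V)) (x y : V)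
  (S X Y : Finset V), Ctx Δ x y → (∀ u X Y, ¬ Spl Δ x y {u} X Y) → MS Δ x y S X Y → Clq Δ S →
  (¬ ∃ p, ApexD (GX Δ X S x y) x y p) → Crossed (GX Δ X S x y) x y →
  ∃ s t X1 Y1, s ≠ t ∧ t ∈ S ∧ X1 ⊆ X ∪ S ∧ X1 ≠ {x} ∧ MS Δ x y {s, t} X1 (Y1 ∪ Y) ∧
    Y1 ⊆ insert y (X ∪ S) ∧
    (∀ F ∈ Δ, F ⊆ X1 ∪ {s, t} → insert s F ∈ Δ) ∧
    (∀ F ∈ Δ, F ⊆ X ∪ S → F ⊆ Y1 ∪ {s, t} → insert t F ∈ Δ)

/-- **E3** (the minor `X6`) Proof. `u ≠ s`: `u ~ y` (`{y}+u ∈ Δ`), `s ~ x`, so `u = s` is a common neighbour.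
`{u,y} ∈ Δ` and `u ∉ {s,t}` give `u ∈ Y'`. `s ∈ X2` (`s ~ x`, `s ≠ u, t`). Let `s' = X2 - X'`. It is connected:
`X2` is connected (`MS`), and the only vertex of `X2 - X'` touching `X'` is `s` (`X'` has no edges to `Y'`
except `xy`, `y ∉ X2`, and `t ∉ X2`). `v = {x,y}`, `W` = a component of `X' - x` touching `t` (`t` touches `X'`,
not `x`), `Z` = a component of `Y2 - y` touching `t` (`t` touches `Y2`, not `y`). `InP.x6` for
`v, W, s', {t}, {u}, Z`: filled: `v W s'` (`w ∈ W` adjacent to `x`, `{x,w}+s`), `W s' t` (`{w',t}+s`), `s' t u`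
(`u` touches `X2` in a vertex `v0`; `v0 ∉ X'`, as `u ∈ Y'` and `u ≠ y`; so `v0 ∈ s'`, and `{u,v0}+t ∈ Δ`),
`t u Z` (`{z,t}+u`), `u Z v` (`{y,z}+u`). Not filled: `v s' u` (`u ∈ Y'` is not adjacent to `x`; `y` does not
touch `s' ⊆ X2`, the only edge between `X2` and `Y2` is `xy`). Not touching: `v,t`; `W,u`; `W,Z`; `s',Z`. -/
def StmtE3 : Prop := ∀ (V : Type) [Fintype V] [DecidableEq V] (Δ : Set (Finset V)) (x y s t u : V)
  (X' Y' X2 Y2 : Finset V), Ctx Δ x y → (∀ p, ¬ (adj Δ x p ∧ adj Δ y p)) →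
  MS Δ x y {s, t} X' Y' → s ≠ t → (∀ F ∈ Δ, F ⊆ X' ∪ {s, t} → insert s F ∈ Δ) →
  ¬ adj Δ x t → ¬ adj Δ y t → MS Δ x y {u, t} X2 Y2 → u ≠ t → X' ⊆ X2 →
  (∀ F ∈ Δ, F ⊆ Y2 ∪ {u, t} → insert u F ∈ Δ) →
  (∀ F ∈ Δ, F ⊆ Y' ∪ {s, t} → F ⊆ X2 ∪ {u, t} → insert t F ∈ Δ) → False

/-- **E4** (uses `C1`, `C3`, `E1`, `E2`, `E3`, `ThmA`) Proof. `Γ = GX Δ X S x y`: `Ctx Γ x y`, smaller than `Δ`
(`Y ≠ {y}`), so `Concl Γ x y` (`HypS`). No `ApexD Γ x y p`: such a `p` is adjacent to `x` and `y` in `Γ`, so `p ∈ S`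
and `p ~ x`. No cut vertex of `Γ`: `Spl Γ x y {u} X1 Y1` gives `Spl Δ x y {u} X1 (Y1 ∪ Y)`. So `Crossed Γ x y`
and `E2` gives `s, t, X' := X1, Y' := Y1 ∪ Y` with `MS Δ x y {s,t} X' Y'`, `X' ≠ {x}`, `s` a cone vertex of the
side `X'+s+t`. `s ~ t` (`t` touches `X'`), so `{s,t}` is a clique; `x ~ s`, so `y` is not adjacent to `s`, and
`Y' ≠ {y}`. If `y ~ t`: `E1` for `a = s`, `b = t`. Otherwise consider `Γ' = GX Δ Y' {s,t} y x` (roles of `x, y`
exchanged; `Ctx`, smaller than `Δ` since `X' ≠ {x}`, no `ApexD`, no cut vertex, for the same reasons, as no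
element of `{s,t}` is adjacent to `y`). `E2` gives `u, s2 ∈ {s,t}`, `Y1, X1` with
`MS Δ y x {u,s2} Y1 (X1 ∪ X')`, `u` a cone vertex of the side `Y1+u+s2`, and `F+s2 ∈ Δ` for
`F ⊆ Y'+s+t`, `F ⊆ X1+u+s2`. If `s2 = s`: `Crossed Δ x y` with `s, u` (a face inside `(X1 ∪ X')+s+u` is
contained in `X'+s+t` or in `Y'+s+t`). If `s2 = t` and `t` is a cone vertex of the side `X'+s+t`: `Crossed` with
`t, u`. Otherwise `x` is not adjacent to `t` (`C3` for the separator `{s,t}`), and `E3` (with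
`X2 = X1 ∪ X'`, `Y2 = Y1`) gives a contradiction. -/
def StmtE4 : Prop := ∀ (V : Type) [Fintype V] [DecidableEq V] (Δ : Set (Finset V)) (x y : V)
  (S X Y : Finset V), HypS V (vs Δ).card → Ctx Δ x y → (∀ p, ¬ (adj Δ x p ∧ adj Δ y p)) →
  (∀ u X Y, ¬ Spl Δ x y {u} X Y) → MS Δ x y S X Y → Clq Δ S → X ≠ {x} → Y ≠ {y} →
  (∀ p ∈ S, ¬ adj Δ x p) → Crossed Δ x y

/-! ## F. No common neighbour, all clique separators have a side with one element -/

/-- The hypotheses of part F; the side of `x` is `{x}`. -/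
structure FH {V : Type} [Fintype V] [DecidableEq V] (Δ : Set (Finset V)) (x y : V)
    (S Y : Finset V) : Prop where
  ctx : Ctx Δ x y
  noPair : NoPair Δ
  noK : ∀ p, ¬ (adj Δ x p ∧ adj Δ y p)
  noCut : ∀ u X Y, ¬ Spl Δ x y {u} X Y
  ms : MS Δ x y S {x} Y
  clq : Clq Δ S
  one : ∀ S' X' Y', MS Δ x y S' X' Y' → Clq Δ S' → X' = {x} ∨ Y' = {y}

/-- **F1** (uses `A4`, `A5`) `S` and the set of neighbours of `y` have at least two elements. Proof. `S` is a
separator, nonempty and not a singleton. `V - {x,y}` is replaced by: `N = N(y) - x` satisfies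
`Spl Δ x y N (V - N - y) {y}`, so it is nonempty and not a singleton. -/
def StmtF1 : Prop := ∀ (V : Type) [Fintype V] [DecidableEq V] (Δ : Set (Finset V)) (x y : V)
  (S Y : Finset V), FH Δ x y S Y → (∃ s ∈ S, ∃ s' ∈ S, s ≠ s') ∧
    ∃ t t', t ≠ t' ∧ t ≠ x ∧ t' ≠ x ∧ adj Δ y t ∧ adj Δ y t'

/-- **F2** (uses `A2`, `A4`, `C5`, `F1`) Some contraction of `x` into `S` is irreducible. Proof. Suppose not. For
`s ∈ S` (`¬ y ~ s` as `s ~ x`) take `C5` with `x, y` exchanged, `MS Δ y x S Y {x}`: there is a face `F ∋ s`, not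
containing `S`, with a `Spl Δ y x F ..`. `A4`: `MS Δ y x S2 X2 Y2`, `S2 ⊆ F` a clique. By `FH.one` `X2 = {y}` or
`Y2 = {x}`; in the second case `S2 = N(x) - y = S ⊆ F`, impossible. So `S2 = N(y) - x` and `S2 + s` is a
face, for every `s ∈ S`. Let `s ≠ s'` in `S`, `t ≠ t'` in `S2`, `v = {x,y}`: `k5` for `v; {s},{t}; {s'},{t'}`:
`v,s,t` and `v,s',t'` are unfilled, as there are no common neighbours of `x, y`. -/
def StmtF2 : Prop := ∀ (V : Type) [Fintype V] [DecidableEq V] (Δ : Set (Finset V)) (x y : V)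
  (S Y : Finset V), FH Δ x y S Y →
  ∃ s ∈ S, Ctx (insert {y, s} (ind Δ (vs Δ \ {x}))) y s

/-- **F3** (uses `A6`) The contraction has a cone vertex. Proof. `D = insert {y,s} (ind Δ (V - x))` is smaller than
`Δ`, `HypS`: `Concl D y s`. (V): `Spl D y s {u} X1 Y1` gives `Spl Δ y x {u} X1 (Y1+x)`: a face `F ∋ x`,
`F ≠ xy`, is contained in `S+x`, and `S - u ⊆ Y1`, as `S` is a clique containing `s ∈ Y1`; contradiction to
`noCut`. (X): `s1, t1, X1, Y1`; in the same way `Spl Δ y x {s1,t1} X1 (Y1+x)`, so `MS` by `A6`; `s1 ~ t1`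
(`{t1}+s1`), `FH.one` gives `X1 = {y}` (the other side contains `s ≠ x`). Then `t1` is `ApexD D y s`: faces inside
`Y1+s1+t1` clear; `t1` touches `{y}`, so `{y,t1,s1} ∈ D`. -/
def StmtF3 : Prop := ∀ (V : Type) [Fintype V] [DecidableEq V] (Δ : Set (Finset V)) (x y s : V)
  (S Y : Finset V), HypS V (vs Δ).card → FH Δ x y S Y → s ∈ S →
  Ctx (insert {y, s} (ind Δ (vs Δ \ {x}))) y s →
  ∃ a, ApexD (insert {y, s} (ind Δ (vs Δ \ {x}))) y s a

/-- **F4** Uniqueness of the cone vertex. Proof. `a, a'` are adjacent to `y`, so not to `x`, so they are not in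
`S`; they are adjacent to all elements of `S` and to each other. Let `s ≠ s'` be in `S`, `v = {x,y}`: `k5` for
`v; {a},{s}; {a'},{s'}`. -/
def StmtF4 : Prop := ∀ (V : Type) [Fintype V] [DecidableEq V] (Δ : Set (Finset V))
  (x y s s' a a' : V) (S Y : Finset V), FH Δ x y S Y → s ∈ S → s' ∈ S → s ≠ s' →
  ApexD (insert {y, s} (ind Δ (vs Δ \ {x}))) y s a →
  ApexD (insert {y, s} (ind Δ (vs Δ \ {x}))) y s a' → a = a'

/-- **F5** The rest is irreducible. Proof. `D = insert {y,s} (ind Δ (V - x))`,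
`D' = insert {y,s} (ind Δ (V - x - a)) = ind D (V(D) - a)` (`a ≠ y, s`). `InP.ind`, edge facet `ys`. No cone
vertex: it would be `y` or `s`; `s`: `y` has a neighbour `u ≠ a, x` in `Δ` (hypothesis), `{y,u}+s`; `y`:
`{s,s'}+y`. Let `F ∈ D'`. `F ≠ {y,s}`: `F + a ∈ D`, `V(D) - (F+a)` is connected in `D`. `F = {y,s}`: let
`Q = V - {x,a,y,s}`, it contains `s'`. Suppose `Q` is not connected. `E1` = the component of `Q` containing
`s'`, it contains `S - s`; `E2` = a component with `s' ∉ E2`. `E1`, `E2` touch `y` and `s`: `{a,s}` and `{a,y}`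
are faces of `D`, so `Q + y` and `Q + s` are connected. `K4{y+E2, x, s, E1}` in `Δ`: `(y+E2),x,s`,
`(y+E2),x,E1` are unfilled (`N(x) = S+y`, `xy` is a facet), `(y+E2),s,E1` is unfilled (`y` is not adjacent to
`s`, `E1` does not touch `E2`): `k4three`. -/
def StmtF5 : Prop := ∀ (V : Type) [Fintype V] [DecidableEq V] (Δ : Set (Finset V))
  (x y s s' a u : V) (S Y : Finset V), FH Δ x y S Y → s ∈ S → s' ∈ S → s ≠ s' →
  Ctx (insert {y, s} (ind Δ (vs Δ \ {x}))) y s →
  ApexD (insert {y, s} (ind Δ (vs Δ \ {x}))) y s a → adj Δ y u → u ≠ x → u ≠ a →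
  Ctx (insert {y, s} (ind Δ (vs Δ \ {x, a}))) y s

/-- **F6** (uses `A4`, `A6`) The neighbours of `y`. Proof. `D' = insert {y,s} (ind Δ (V - x - a))`. `HypS`:
`Concl D' y s`. No `ApexD D' y s a'`: it would be `ApexD` of `D = insert {y,s} (ind Δ (V - x))` (as
`a` is), and different from `a`: hypothesis. TRANSFER: `Spl D' y s N X1 Y1` gives
`Spl Δ y x (N+a) X1 (Y1+x)` (a face `F ≠ xy` without `x`: `F - a ∈ D'`, `F - a ≠ {y,s}`; with `x`:
`F ⊆ S+x`, `S - N ⊆ Y1` as `S` is a clique containing `s ∈ Y1`, and `a ∉ S`). (V) with `u`: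
`Spl Δ y x {a,u} X1 (Y1+x)`, `MS` by `A6`, `a ~ u`, `FH.one`: `X1 = {y}`, as the other side contains `s`.
(X) with `s1, t1, X1, Y1`; we may assume that `D'` has no cut vertex (otherwise (V)), so by `A6`
`MS D' y s {s1,t1} X1 Y1`. Transfer: `Spl Δ y x {a,s1,t1} X1 (Y1+x)`, `A4`: `MS Δ y x S2 X2 Y2`,
`S2 ⊆ {a,s1,t1}`, a clique; `FH.one`: `X2 = {y}` (`Y2 = {x}` would give `S2 = S ∋ s`). So
`S2 = N(y) - x`, which contains `a`. If `S2 = {a,s1}` or `{a,t1}`: done. `S2 = {a}` contradicts `noCut`. If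
`S2 = {a,s1,t1}`: the neighbours of `y` in `D'` are `s1, t1, s`, so the connected set `X1` is `{y}`; then `t1`
is `ApexD D' y s`: `t1` touches `{y}`, `{y,t1}+s1 ∈ D'`. Contradiction. -/
def StmtF6 : Prop := ∀ (V : Type) [Fintype V] [DecidableEq V] (Δ : Set (Finset V))
  (x y s a : V) (S Y : Finset V), HypS V (vs Δ).card → FH Δ x y S Y → s ∈ S →
  ApexD (insert {y, s} (ind Δ (vs Δ \ {x}))) y s a →
  (∀ a', ApexD (insert {y, s} (ind Δ (vs Δ \ {x}))) y s a' → a' = a) →
  Ctx (insert {y, s} (ind Δ (vs Δ \ {x, a}))) y s →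
  ∃ u Y2, u ≠ a ∧ MS Δ y x {a, u} {y} Y2

/-- **F7** (uses `A6`) The contradiction. Proof. `a` is adjacent to all vertices of `V - x` (other than `a`);
`a, u` are adjacent to `y`, so not to `x`, so not in `S`. `C` = the component of `u` in
`V - ({x,y,a}+S)`; it does not touch `x` (`N(x) = S+y`). If `C` touches `s1 ≠ s2` in `S`: `v = {x,y}`, `k5` for
`v; {a},{s1}; C,{s2}`: `v,a,s1` and `v,C,s2` are unfilled; the sets touch pairwise (`v` touches `C` by `y ~ u`).
If `C` touches no element of `S`: `Spl Δ x y {a} (V - C - y - a) (C+y)` (the neighbours of `y` are `x, a, u`):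
contradiction to `noCut`. If `C` touches exactly one `t0 ∈ S`:
`Spl Δ x y {t0,a} (V - C - y - t0 - a) (C+y)`, `MS` by `A6`, `t0 ~ a`; `FH.one`: the side of `y` contains
`u ≠ y`, the side of `x` contains `x` and `S - t0 ≠ ∅`: contradiction. -/
def StmtF7 : Prop := ∀ (V : Type) [Fintype V] [DecidableEq V] (Δ : Set (Finset V))
  (x y s s' a u : V) (S Y Y2 : Finset V), FH Δ x y S Y → s ∈ S → s' ∈ S → s ≠ s' →
  ApexD (insert {y, s} (ind Δ (vs Δ \ {x}))) y s a → u ≠ a → MS Δ y x {a, u} {y} Y2 → False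

/-- **F8** (uses `F1`, ..., `F7`) Proof. `F1`, `F2` (some `s ∈ S`), `F3` (`a`), `F4`, `F5` (with `u` one of the two
neighbours of `y` from `F1`), `F6`, `F7`. -/
def StmtF8 : Prop := ∀ (V : Type) [Fintype V] [DecidableEq V] (Δ : Set (Finset V))
  (x y : V) (S Y : Finset V), HypS V (vs Δ).card → FH Δ x y S Y → False

/-- **ThmS** (uses `B1`, `B2`, `Min`, `ThmA`, `D7`, `E1`, `E4`, `F8`) THE STRUCTURE THEOREM FOR EDGE FACETS. Proof.
Strong induction on `|V|` (`HypS V n` for all `n`). If `x, y` have a common neighbour: `ThmA`. If not `NoPair`: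
`B1`, the induction hypothesis for `D2`, `B2` give a cut vertex. If there is a cut vertex: done. Otherwise let
`S` be a minimum separator (`Min`). It is a clique: otherwise `D7` gives an `ApexD`, which is a common
neighbour. If there is an `MS Δ x y S' X' Y'` with `S'` a clique, `X' ≠ {x}`, `Y' ≠ {y}`: if no element of `S'` is
adjacent to `x`: `E4`; if no element is adjacent to `y`: `E4` with `x, y` exchanged (`Crossed.symm`);
otherwise `E1`. If not: the sides of `S` show `X = {x}` or `Y = {y}`, and `F8` (for `x, y` or `y, x`) gives a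
contradiction. -/
def StmtThmS : Prop := ∀ (V : Type) [Fintype V] [DecidableEq V] (Δ : Set (Finset V)) (x y : V),
  Ctx Δ x y → Concl Δ x y

end Pool.Agent.Lib.MP_73b196_co.St
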