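import Pool.Agent.Lib.MP_73b196_co.St.HSpecC

/-!
# Theorem H
-/

set_option autoImplicit false

namespace Pool.Agent.Lib.MP_73b196_co.St

theorem tTH (h90 : StmtH90) (h9 : StmtH9) : StmtTH := by
  intro V _ _ Δ
  suffices H : ∀ n : ℕ, ∀ Δ : Set (Finset V), (vs Δ).card = n → InP Δ → (vs Δ).Nonempty → NS Δ →
      ¬ CHP Δ → ∃ p, Apex Δ p from H _ Δ rfl
  intro n
  induction n using Nat.strong_induction_on with
  | _ n ih =>
    intro Δ hn hP hne hns hch
    by_contra hno
    have hb : Bad Δ :=
      { inP := hP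
        ne := hne
        ns := hns
        nchp := hch
        noApex := fun p hp => hno ⟨p, hp⟩
        min := by
          intro Δ' hc h1 h2 h3 h4
          rw [hn] at hc
          exact ih _ hc Δ' rfl h1 h2 h3 h4 }
    obtain ⟨v, B, x, F, hl⟩ := h90 V Δ hb
    exact h9 V Δ v B x F hl

end Pool.Agent.Lib.MP_73b196_co.St
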