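import Pool.Agent.Lib.MP_73b196_co.St.HA1
import Pool.Agent.Lib.MP_73b196_co.St.HA2
import Pool.Agent.Lib.MP_73b196_co.St.HA
import Pool.Agent.Lib.MP_73b196_co.St.HB0
import Pool.Agent.Lib.MP_73b196_co.St.HB1
import Pool.Agent.Lib.MP_73b196_co.St.HB2
import Pool.Agent.Lib.MP_73b196_co.St.HB3
import Pool.Agent.Lib.MP_73b196_co.St.HB4
import Pool.Agent.Lib.MP_73b196_co.St.HB5
import Pool.Agent.Lib.MP_73b196_co.St.HC1
import Pool.Agent.Lib.MP_73b196_co.St.HC2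
import Pool.Agent.Lib.MP_73b196_co.St.HC3
import Pool.Agent.Lib.MP_73b196_co.St.HC4
import Pool.Agent.Lib.MP_73b196_co.St.HC5
import Pool.Agent.Lib.MP_73b196_co.St.HC6
import Pool.Agent.Lib.MP_73b196_co.St.HBase
import Pool.Agent.Lib.MP_73b196_co.St.HP1
import Pool.Agent.Lib.MP_73b196_co.St.HP
import Pool.Agent.Lib.MP_73b196_co.St.HQ1
import Pool.Agent.Lib.MP_73b196_co.St.HQ2
import Pool.Agent.Lib.MP_73b196_co.St.HQ3
import Pool.Agent.Lib.MP_73b196_co.St.HM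
import Pool.Agent.Lib.MP_73b196_co.St.HM2
import Pool.Agent.Lib.MP_73b196_co.St.HT5
import Pool.Agent.Lib.MP_73b196_co.St.HDom
import Pool.Agent.Lib.MP_73b196_co.St.HT6
import Pool.Agent.Lib.MP_73b196_co.St.HT6b
import Pool.Agent.Lib.MP_73b196_co.St.HT7a
import Pool.Agent.Lib.MP_73b196_co.St.HT7b
import Pool.Agent.Lib.MP_73b196_co.St.HT7c
import Pool.Agent.Lib.MP_73b196_co.St.HT7
import Pool.Agent.Lib.MP_73b196_co.St.HT7d
import Pool.Agent.Lib.MP_73b196_co.St.HE0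
import Pool.Agent.Lib.MP_73b196_co.St.HE1
import Pool.Agent.Lib.MP_73b196_co.St.HE2
import Pool.Agent.Lib.MP_73b196_co.St.HPI
import Pool.Agent.Lib.MP_73b196_co.St.H81
import Pool.Agent.Lib.MP_73b196_co.St.H82
import Pool.Agent.Lib.MP_73b196_co.St.H82b
import Pool.Agent.Lib.MP_73b196_co.St.H83
import Pool.Agent.Lib.MP_73b196_co.St.H84
import Pool.Agent.Lib.MP_73b196_co.St.H90
import Pool.Agent.Lib.MP_73b196_co.St.H91
import Pool.Agent.Lib.MP_73b196_co.St.H92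
import Pool.Agent.Lib.MP_73b196_co.St.H93
import Pool.Agent.Lib.MP_73b196_co.St.H94
import Pool.Agent.Lib.MP_73b196_co.St.H95
import Pool.Agent.Lib.MP_73b196_co.St.H9
import Pool.Agent.Lib.MP_73b196_co.St.TH

/-!
# Theorem H: no face separator and no covering hollow partition implies a cone vertex
-/

set_option autoImplicit false

namespace Pool.Agent.Lib.MP_73b196_co.St

theorem hHA2 : StmtHA2 := tHA2 tHA1

theorem hHB1 : StmtHB1 := tHB1 tHB0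

theorem hHC3 : StmtHC3 := tHC3

theorem hHC5 : StmtHC5 := tHC5 tHC2 (tHC4 hHC3)

theorem hHBase : StmtHBase :=
  tHBase (tHA tHA1 hHA2) (tHB3 tHB0 hHB1 tHB2) (tHB4 tHB0) tHB5 (tHC1 tHB0) (tHC6 hHC3 hHC5)

theorem hHP : StmtHP := tHP tHP1 hHBase

theorem hHDom : StmtHDom := tHDom hHP

theorem hHT5 : StmtHT5 := tHT5 hHP tHQ3 tHM tHM2

theorem hHT6b : StmtHT6b := tHT6b tHT6

theorem hHT7 : StmtHT7 := tHT7 tHT6 hHT6b (tHT7a hHDom) tHT7b tHT7c

theorem hHT7d : StmtHT7d := tHT7d hHT7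

theorem hHE1 : StmtHE1 := tHE1 tHQ2 hHT5

theorem hHE2 : StmtHE2 := tHE2 tHQ1 tHQ2 tHE0 hHE1 hHT7

theorem hH81 : StmtH81 := tH81 tHPI tHE0

theorem hH82 : StmtH82 := tH82 tHPI hH81 hHT7d

theorem hH82b : StmtH82b := tH82b hH82

theorem hH84 : StmtH84 := tH84 tHPI hH81 hH82b tH83 hHT7

theorem hH90 : StmtH90 := tH90 hHE1 hHE2 hH82b hH84

theorem hH91 : StmtH91 := tH91 hHT7 hHT7d

theorem hH92 : StmtH92 := tH92 hH91 hHT7d

theorem hH93 : StmtH93 := tH93 tHE0 hHT7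

theorem hH94 : StmtH94 := tH94 hH93

theorem hH95 : StmtH95 := tH95 hH93 hHT5

theorem hH9 : StmtH9 := tH9 tHT6 hHT6b hH92 hH93 hH94 hH95

/-- Theorem H. -/
theorem thmH : StmtTH := tTH hH90 hH9

end Pool.Agent.Lib.MP_73b196_co.St
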