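import Pool.Agent.Lib.MP_73b196_co.St.SpecC

/-!
# Gap lemma
-/

set_option autoImplicit false

namespace Pool.Agent.Lib.MP_73b196_co.St

theorem Y1_fill {V : Type} [DecidableEq V] {Δ : Set (Finset V)} {L : List (Finset V)}
    {A B C : Finset V} (h : fill Δ L) (hA : A ∈ L) (hB : B ∈ L) (hC : C ∈ L) :
    fill Δ [A, B, C] := by
  obtain ⟨F, hF, h⟩ := h
  refine ⟨F, hF, ?_⟩
  intro D hD
  simp only [List.mem_cons, List.not_mem_nil, or_false] at hD
  rcases hD with rfl | rfl | rfl
  · exact h _ hA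
  · exact h _ hB
  · exact h _ hC

theorem tY1 : StmtY1 := by
  intro V _ _ Δ n z X a b c hP h hX hoff hab hbc hca ha hb hca'
  have hc := hP.cx
  have hcm := h.cm hc hab hbc hca
  have hm : CM Δ [X, arc z a b, arc z b c, arc z c (a + n)] := by
    refine ⟨?_, ?_⟩
    · intro A hA
      rcases List.mem_cons.1 hA with rfl | hA
      · exact hX
      · exact hcm.1 A hA
    · rw [List.pairwise_cons]
      refine ⟨?_, hcm.2⟩
      intro A hA
      simp only [List.mem_cons, List.not_mem_nil, or_false] at hA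
      rcases hA with rfl | rfl | rfl
      · exact ⟨hoff.disj, touch_arc.2 ha⟩
      · exact ⟨hoff.disj, touch_arc.2 hb⟩
      · exact ⟨hoff.disj, touch_arc.2 hca'⟩
  have f1 := h.fill_arcs hc hoff hab hbc hca
  have f2 := h.fill_arcs (a := b) (b := c) (c := a + n) hc hoff hbc hca (by omega)
  have f3 := h.fill_arcs_wrap hc hoff hab hbc hca
  have hn := h.not_fill hc hab.le hbc.le hca.le
  generalize arc z a b = P at *
  generalize arc z b c = Q at *
  generalize arc z c (a + n) = R at *
  have g1 : ¬ fill Δ [P, X, Q] ↔ ¬ Fl Δ z X (b - 1) := by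
    rw [← f1]
    exact not_congr (fill_perm (List.Perm.swap _ _ _))
  have g3 : ¬ fill Δ [P, X, R] ↔ ¬ Fl Δ z X (a - 1) := by
    rw [← f3]
    exact not_congr (fill_perm (List.Perm.swap _ _ _))
  refine ⟨?_, ?_, ?_⟩
  · by_contra hcon
    rw [not_or] at hcon
    exact hP.k4three (CM_perm (List.Perm.swap _ _ _) hm) (g1.2 hcon.2) (g3.2 hcon.1) hn
  · by_contra hcon
    rw [not_or] at hcon
    have hp : [X, P, Q, R].Perm [R, X, P, Q] :=
      (List.perm_append_comm : ([X, P, Q] ++ [R]).Perm ([R] ++ [X, P, Q]))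
    refine hP.k4three (CM_perm hp hm) ?_ ?_ ?_
    · intro hf
      exact hcon.1 (f3.1 (Y1_fill hf (by simp) (by simp) (by simp)))
    · intro hf
      exact hcon.2 (f2.1 (Y1_fill hf (by simp) (by simp) (by simp)))
    · intro hf
      exact hn (Y1_fill hf (by simp) (by simp) (by simp))
  · by_contra hcon
    rw [not_or] at hcon
    have hp : [X, P, Q, R].Perm [Q, X, P, R] :=
      ((List.Perm.swap _ _ _).cons X).trans (List.Perm.swap _ _ _)
    refine hP.k4three (CM_perm hp hm) ?_ ?_ ?_
    · intro hf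
      exact hcon.1 (f1.1 (Y1_fill hf (by simp) (by simp) (by simp)))
    · intro hf
      exact hcon.2 (f2.1 (Y1_fill hf (by simp) (by simp) (by simp)))
    · intro hf
      exact hn (Y1_fill hf (by simp) (by simp) (by simp))

end Pool.Agent.Lib.MP_73b196_co.St
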