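import Pool.Agent.Lib.MP_73b196_co.St.SpecC

/-!
# Y10: a component of the complement has at least three attachments
-/

set_option autoImplicit false

namespace Pool.Agent.Lib.MP_73b196_co.St

/-- A set of vertices of the cycle which contains all attachments, but not all vertices, separates. -/
private theorem y10_sep {V : Type} [Fintype V] [DecidableEq V] {Δ : Set (Finset V)} {n : ℕ}
    {z : ℤ → V} {X N : Finset V} {j : ℤ} (hc : IsCx Δ) (hC : HC Δ n z)
    (hX : IsComp Δ (vs Δ \ arc z 0 n) X) (hN : N ⊆ arc z 0 n) (hA : ∀ i, At Δ z X i → z i ∈ N)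
    (hj : z j ∉ N) : ¬ Conn Δ (vs Δ \ N) := by
  intro h
  have hoff := hC.comp_off hX
  have hXs : X ⊆ vs Δ \ N := by
    intro x hx
    have h1 := Finset.mem_sdiff.1 (hX.1 hx)
    exact Finset.mem_sdiff.2 ⟨h1.1, fun h2 => h1.2 (hN h2)⟩
  obtain ⟨x, hx, y, hy, hxy⟩ := h.2.2 X hXs hX.2.1.2.1
    ⟨z j, Finset.mem_sdiff.2 ⟨Finset.mem_sdiff.2 ⟨hC.mem_vs hc j, hj⟩, hoff j⟩⟩
  rw [Finset.mem_sdiff, Finset.mem_sdiff] at hy
  by_cases hya : y ∈ arc z 0 n
  · obtain ⟨i, _, _, rfl⟩ := mem_arc.1 hya
    exact hy.1.2 (hA i ⟨x, hx, z i, Finset.mem_singleton_self _, hxy⟩)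
  · exact hX.2.2 ⟨x, hx, y, Finset.mem_sdiff.2 ⟨Finset.mem_sdiff.2 ⟨hy.1.1, hya⟩, hy.2⟩, hxy⟩

theorem tY10 : StmtY10 := by
  intro V _ _ Δ n z X hV hC hn hX
  have hc := hV.inP.cx
  by_contra h3
  have harc : ∀ i, z i ∈ arc z 0 n := by
    intro i
    have := hC.mem_all 0 i
    rwa [zero_add] at this
  by_cases h0 : ∃ i, At Δ z X i
  · obtain ⟨i, hi⟩ := h0
    by_cases h1 : ∃ j, i < j ∧ j < i + n ∧ At Δ z X j
    · obtain ⟨j, hij, hjn, hj⟩ := h1
      -- all attachments are `z i` or `z j`
      have hall : ∀ k, At Δ z X k → z k ∈ ({z i, z j} : Finset V) := by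
        intro k hk
        rw [Finset.mem_insert, Finset.mem_singleton]
        obtain ⟨l, hl1, hl2, hl3, hl4⟩ := hC.window i k
        have hl : At Δ z X l := (hC.at_congr hl4).1 hk
        by_contra hcon
        push Not at hcon
        have e1 : l ≠ i := fun e => hcon.1 (by rw [← hl3, e])
        have e2 : l ≠ j := fun e => hcon.2 (by rw [← hl3, e])
        rcases lt_or_gt_of_ne e2 with g | g
        · exact h3 ⟨i, l, j, by omega, g, hjn, hi, hl, hj⟩
        · exact h3 ⟨i, j, l, hij, g, hl2, hi, hj, hl⟩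
      obtain ⟨k, hk1, hk2⟩ : ∃ k, z k ≠ z i ∧ z k ≠ z j := by
        by_cases e : j = i + 1
        · exact ⟨i + 2, (hC.ne_of (by omega) (by omega)).symm,
            by rw [e]; exact (hC.ne_of (by omega) (by omega)).symm⟩
        · exact ⟨i + 1, (hC.ne_of (by omega) (by omega)).symm, hC.ne_of (by omega) (by omega)⟩
      have hsep := y10_sep (j := k) hc hC hX (N := {z i, z j}) (by
        intro v hv
        simp only [Finset.mem_insert, Finset.mem_singleton] at hv
        rcases hv with rfl | rfl <;> exact harc _) hall (by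
        simp only [Finset.mem_insert, Finset.mem_singleton, not_or]
        exact ⟨hk1, hk2⟩)
      by_cases hadj : adj Δ (z i) (z j)
      · exact hsep (hV.conn _ hadj.2)
      · exact hsep (hV.noPair _ (hC.mem_vs hc i) _ (hC.mem_vs hc j) (hC.ne_of hij hjn) hadj)
    · have hall : ∀ k, At Δ z X k → z k ∈ ({z i} : Finset V) := by
        intro k hk
        rw [Finset.mem_singleton]
        obtain ⟨l, hl1, hl2, hl3, hl4⟩ := hC.window i k
        have hl : At Δ z X l := (hC.at_congr hl4).1 hk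
        by_contra hcon
        have e1 : l ≠ i := fun e => hcon (by rw [← hl3, e])
        exact h1 ⟨l, by omega, hl2, hl⟩
      refine y10_sep (j := i + 1) hc hC hX (N := {z i}) ?_ hall ?_
        (hV.conn _ (mem_vs.1 (hC.mem_vs hc i)))
      · intro v hv
        rw [Finset.mem_singleton] at hv
        exact hv ▸ harc i
      · rw [Finset.mem_singleton]
        exact (hC.ne_of (by omega) (by omega)).symm
  · push Not at h0
    exact y10_sep (j := 0) hc hC hX (N := ∅) (Finset.empty_subset _)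
      (fun i hi => absurd hi (h0 i)) (Finset.notMem_empty _) (hV.conn _ hc.empty)

end Pool.Agent.Lib.MP_73b196_co.St
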