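import Pool.Agent.Lib.MP_73b196_co.St.SpecC

/-!
# Y11: every component shares a filled edge with another one
-/

set_option autoImplicit false

namespace Pool.Agent.Lib.MP_73b196_co.St

section Y11

variable {V : Type} [Fintype V] [DecidableEq V] {Δ : Set (Finset V)} {n : ℕ} {z : ℤ → V}

/-- If the components attached to the inner vertices of the arc from `a` to `b` are attached to this arc only
then `z a`, `z b` is a separating nonadjacent pair. -/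
theorem Y11_sep (h : Vio Δ) (hz : HC Δ n z) {a b : ℤ} (hab : a + 2 ≤ b) (hba : b + 2 ≤ a + n)
    (hX : ∀ X, IsComp Δ (vs Δ \ arc z 0 n) X → (∃ i, a < i ∧ i < b ∧ At Δ z X i) →
      ∀ j, b < j → j < a + n → ¬ At Δ z X j) : False := by
  classical
  have hc := h.inP.cx
  have hne : z a ≠ z b := hz.ne_of (by omega) (by omega)
  have hna : ¬ adj Δ (z a) (z b) := hz.not_adj (by omega) (by omega)
  have hconn := h.noPair (z a) (hz.mem_vs hc a) (z b) (hz.mem_vs hc b) hne hna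
  let W : Finset V := (vs Δ).filter fun v => (∃ i, a < i ∧ i < b ∧ z i = v) ∨
    ∃ X, IsComp Δ (vs Δ \ arc z 0 n) X ∧ v ∈ X ∧ ∃ i, a < i ∧ i < b ∧ At Δ z X i
  have hWmem : ∀ v, v ∈ W ↔ v ∈ vs Δ ∧ ((∃ i, a < i ∧ i < b ∧ z i = v) ∨
      ∃ X, IsComp Δ (vs Δ \ arc z 0 n) X ∧ v ∈ X ∧ ∃ i, a < i ∧ i < b ∧ At Δ z X i) := fun v =>
    Finset.mem_filter
  have hoff : ∀ X, IsComp Δ (vs Δ \ arc z 0 n) X → Off z X := fun X hXc => hz.comp_off hXc
  have hsub : W ⊆ vs Δ \ {z a, z b} := by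
    intro v hv
    obtain ⟨hv1, hv2⟩ := (hWmem v).1 hv
    rw [Finset.mem_sdiff, Finset.mem_insert, Finset.mem_singleton, not_or]
    refine ⟨hv1, ?_⟩
    rcases hv2 with ⟨i, h1, h2, rfl⟩ | ⟨X, hXc, hvX, _⟩
    · exact ⟨(hz.ne_of (i := a) (j := i) h1 (by omega)).symm,
        hz.ne_of (i := i) (j := b) h2 (by omega)⟩
    · exact ⟨(hoff X hXc).ne hvX, (hoff X hXc).ne hvX⟩
  have hW1 : W.Nonempty := ⟨z (a + 1), (hWmem _).2 ⟨hz.mem_vs hc _, Or.inl ⟨a + 1, by omega,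
    by omega, rfl⟩⟩⟩
  have hW2 : ((vs Δ \ {z a, z b}) \ W).Nonempty := by
    refine ⟨z (b + 1), ?_⟩
    rw [Finset.mem_sdiff, Finset.mem_sdiff, Finset.mem_insert, Finset.mem_singleton, not_or]
    refine ⟨⟨hz.mem_vs hc _, (hz.ne_of (i := a) (j := b + 1) (by omega) (by omega)).symm,
      (hz.ne_of (i := b) (j := b + 1) (by omega) (by omega)).symm⟩, ?_⟩
    intro hv
    obtain ⟨_, hv2⟩ := (hWmem _).1 hv
    rcases hv2 with ⟨i, h1, h2, h3⟩ | ⟨X, hXc, hvX, _⟩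
    · exact hz.ne_of (i := i) (j := b + 1) (by omega) (by omega) h3
    · exact (hoff X hXc) _ hvX
  obtain ⟨x, hx, y, hy, hxy⟩ := hconn.2.2 W hsub hW1 hW2
  rw [Finset.mem_sdiff, Finset.mem_sdiff, Finset.mem_insert, Finset.mem_singleton, not_or] at hy
  obtain ⟨⟨hyv, hya, hyb⟩, hyW⟩ := hy
  -- a vertex of the cycle outside `W`, `z a`, `z b` lies between `b` and `a + n`
  have hout : ∀ j, z j = y → ∃ j', b < j' ∧ j' < a + n ∧ z j' = y ∧ (n : ℤ) ∣ j - j' := by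
    intro j hj
    obtain ⟨j', h1, h2, h3, h4⟩ := hz.window a j
    refine ⟨j', ?_, h2, h3.trans hj, h4⟩
    by_contra h5
    rcases eq_or_lt_of_le h1 with h6 | h6
    · exact hya (by rw [← hj, ← h3, h6])
    · rcases eq_or_lt_of_le (not_lt.1 h5) with h7 | h7
      · exact hyb (by rw [← hj, ← h3, h7])
      · exact hyW ((hWmem _).2 ⟨hyv, Or.inl ⟨j', h6, h7, h3.trans hj⟩⟩)
  obtain ⟨_, hx2⟩ := (hWmem x).1 hx
  rcases hx2 with ⟨i, h1, h2, rfl⟩ | ⟨X, hXc, hxX, i, h1, h2, hi⟩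
  · by_cases hyc : y ∈ arc z 0 n
    · obtain ⟨j, _, _, hj⟩ := mem_arc.1 hyc
      obtain ⟨j', h3, h4, h5, _⟩ := hout j hj
      rw [← h5] at hxy
      rcases hz.adj_window (i := i) (j := j') (by omega) (by omega) hxy with h6 | h6 <;> omega
    · obtain ⟨Y, hY, hyY⟩ := exists_comp (U := vs Δ \ arc z 0 n) Finset.sdiff_subset
        (Finset.mem_sdiff.2 ⟨hyv, hyc⟩)
      exact hyW ((hWmem _).2 ⟨hyv, Or.inr ⟨Y, hY, hyY, i, h1, h2, y, hyY, z i,
        Finset.mem_singleton_self _, adj_symm hxy⟩⟩)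
  · rcases hz.comp_closed hc hXc hxX hxy with h3 | ⟨j, hj, hj'⟩
    · exact hyW ((hWmem _).2 ⟨hyv, Or.inr ⟨X, hXc, h3, i, h1, h2, hi⟩⟩)
    · obtain ⟨j', h3, h4, _, h6⟩ := hout j hj
      exact hX X hXc ⟨i, h1, h2, hi⟩ j' h3 h4 ((hz.at_congr h6).1 hj')

end Y11

theorem tY11 (h2 : StmtY2) (h3 : StmtY3) (h10 : StmtY10) : StmtY11 := by
  intro V _ _ Δ n z X h hz hn hno hX
  have hc := h.inP.cx
  by_contra hcon
  push Not at hcon
  obtain ⟨v, hv⟩ := hX.2.1.2.1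
  obtain ⟨X', hX', hvX'⟩ := exists_comp_notMem (U := vs Δ \ arc z 0 n) Finset.sdiff_subset
    (hX.1 hv) hno
  have hne : X' ≠ X := fun e => hvX' (e ▸ hv)
  obtain ⟨i, hi1, hi2⟩ := (h3 V Δ n z X' h.inP hz hX'.2.1 (hz.comp_off hX')
    (h10 V Δ n z X' h hz hn hX')).2
  have hn1 : ¬ Fl Δ z X i := fun hf => hcon X' i hX' hne hf hi1
  have hn2 : ¬ Fl Δ z X (i + 1) := fun hf => hcon X' (i + 1) hX' hne hf hi2
  obtain ⟨a, b, ha, hab, hb, hfl, hA1, hA2⟩ := h2 V Δ n z X (i + 1) h.inP hz hX.2.1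
    (hz.comp_off hX) (h10 V Δ n z X h hz hn hX) hn2
  have hb' : b ≤ i + n := by
    by_contra hb'
    have h4 : b = i + 1 + n := by omega
    have h5 := hfl (i + n) (by omega) (by omega)
    exact hn1 ((hz.fl_congr ⟨1, by ring⟩).1 h5)
  refine Y11_sep h hz (a := a) (b := b) hab (by omega) ?_
  rintro Y hY ⟨l, hl1, hl2, hl3⟩ j hj1 hj2 hj3
  by_cases hYX : Y = X
  · subst hYX
    by_cases h5 : j ≤ i + 1 + n
    · exact hA2 j hj1 h5 hj3
    · exact hA1 (j - n) (by omega) (by omega) ((hz.at_congr ⟨1, by ring⟩).1 hj3)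
  · rcases (h3 V Δ n z Y h.inP hz hY.2.1 (hz.comp_off hY)
      (h10 V Δ n z Y h hz hn hY)).1 l hl3 with h5 | h5
    · exact hcon Y (l - 1) hY hYX (hfl _ (by omega) (by omega)) h5
    · exact hcon Y l hY hYX (hfl _ (by omega) (by omega)) h5

end Pool.Agent.Lib.MP_73b196_co.St
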