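import Pool.Agent.Lib.MP_73b196_co.St.Y11

/-!
# Y12: the fan lemma, n at least four
-/

set_option autoImplicit false

namespace Pool.Agent.Lib.MP_73b196_co.St

section Y12

variable {V : Type} [Fintype V] [DecidableEq V] {Δ : Set (Finset V)} {n : ℕ} {z : ℤ → V}
  {X : Finset V} {c d i : ℤ}

/-- If a set with centre `c` is attached to `z i` then it has the centre `i-1`, `i` or `i+1`. -/
theorem Y12_near (hz : HC Δ n z) (hc : IsCx Δ) (hX : Off z X) (h : Ctr Δ n z X c)
    (hi : At Δ z X i) : Ctr Δ n z X (i - 1) ∨ Ctr Δ n z X i ∨ Ctr Δ n z X (i + 1) := by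
  rcases (hz.ctr_at hc hX h).1 hi with h1 | h1 | h1
  · refine Or.inr (Or.inr ((hz.ctr_congr ?_).2 h))
    have e : i + 1 - c = i - (c - 1) := by ring
    rw [e]
    exact h1
  · exact Or.inr (Or.inl ((hz.ctr_congr h1).2 h))
  · refine Or.inl ((hz.ctr_congr ?_).2 h)
    have e : i - 1 - c = i - (c + 1) := by ring
    rw [e]
    exact h1

/-- Centres which are close to each other are equal. -/
theorem Y12_uniq (_hz : HC Δ n z) (hc : IsCx Δ) (hX : Off z X) (hn : 4 ≤ n) (h : Ctr Δ n z X c)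
    (h' : Ctr Δ n z X d) (h1 : c < d) (h2 : d ≤ c + 2) : False := by
  have h3 : At Δ z X (d + 1) := (Fl.at hc hX h'.2.1).2
  rcases (by omega : d = c + 1 ∨ d = c + 2) with rfl | rfl
  · exact h.2.2 (c + 1 + 1) (by omega) (by omega) h3
  · have h4 : At Δ z X (c + 2) := (Fl.at hc hX h'.2.1).1
    exact h.2.2 (c + 2) (by omega) (by omega) h4

end Y12

theorem tY12 (h7 : StmtY7) (h8 : StmtY8) (h9 : StmtY9) (h10 : StmtY10) (h11 : StmtY11) :
    StmtY12 := by
  intro V _ _ Δ n z h hz hn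
  have hc := h.inP.cx
  by_contra hno
  -- every component has a centre
  have H : ∀ X, IsComp Δ (vs Δ \ arc z 0 n) X → ∃ c, Ctr Δ n z X c := by
    intro X hX
    obtain ⟨X', i, hX', hne, hi, hi'⟩ := h11 V Δ n z X h hz hn hno hX
    obtain ⟨hd, hnt⟩ := comp_disj hX hX' (Ne.symm hne)
    rcases h7 V Δ n z X X' i h.inP hz hn hX.2.1 hX'.2.1 (hz.comp_off hX) (hz.comp_off hX') hd hnt
      (h10 V Δ n z X h hz hn hX) (h10 V Δ n z X' h hz hn hX') hi hi' with h1 | h1
    · exact ⟨_, h1⟩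
    · exact ⟨_, h1⟩
  have Hat : ∀ X, IsComp Δ (vs Δ \ arc z 0 n) X → ∀ i, At Δ z X i →
      Ctr Δ n z X (i - 1) ∨ Ctr Δ n z X i ∨ Ctr Δ n z X (i + 1) := by
    intro X hX i hi
    obtain ⟨c, hcX⟩ := H X hX
    exact Y12_near hz hc (hz.comp_off hX) hcX hi
  -- no three consecutive centres
  have H8 : ∀ X₁ X₂ X₃ c, IsComp Δ (vs Δ \ arc z 0 n) X₁ → IsComp Δ (vs Δ \ arc z 0 n) X₂ →
      IsComp Δ (vs Δ \ arc z 0 n) X₃ → Ctr Δ n z X₁ c → Ctr Δ n z X₂ (c + 1) →
      Ctr Δ n z X₃ (c + 2) → False := by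
    intro X₁ X₂ X₃ c k1 k2 k3 c1 c2 c3
    have n12 : X₁ ≠ X₂ := by
      rintro rfl
      exact Y12_uniq hz hc (hz.comp_off k1) hn c1 c2 (by omega) (by omega)
    have n13 : X₁ ≠ X₃ := by
      rintro rfl
      exact Y12_uniq hz hc (hz.comp_off k1) hn c1 c3 (by omega) (by omega)
    have n23 : X₂ ≠ X₃ := by
      rintro rfl
      exact Y12_uniq hz hc (hz.comp_off k2) hn c2 c3 (by omega) (by omega)
    obtain ⟨d12, t12⟩ := comp_disj k1 k2 n12
    obtain ⟨d13, t13⟩ := comp_disj k1 k3 n13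
    obtain ⟨d23, t23⟩ := comp_disj k2 k3 n23
    exact h8 V Δ n z X₁ X₂ X₃ c h.inP hz hn k1.2.1 k2.2.1 k3.2.1 (hz.comp_off k1) (hz.comp_off k2)
      (hz.comp_off k3) d12 d13 d23 t12 t13 t23 c1 c2 c3
  -- two consecutive centres are impossible
  have H2 : ∀ X Y d, IsComp Δ (vs Δ \ arc z 0 n) X → IsComp Δ (vs Δ \ arc z 0 n) Y →
      Ctr Δ n z X d → Ctr Δ n z Y (d + 1) → False := by
    intro X Y d hX hY cX cY
    have k1 : ∀ T, IsComp Δ (vs Δ \ arc z 0 n) T → ¬ Ctr Δ n z T (d - 1) := by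
      intro T hT cT
      refine H8 T X Y (d - 1) hT hX hY cT ?_ ?_
      · rw [sub_add_cancel]
        exact cX
      · have e : d - 1 + 2 = d + 1 := by ring
        rw [e]
        exact cY
    have k2 : ∀ T, IsComp Δ (vs Δ \ arc z 0 n) T → ¬ Ctr Δ n z T (d + 2) := by
      intro T hT cT
      exact H8 X Y T d hX hY hT cX cY cT
    by_cases hn5 : 5 ≤ n
    · refine Y11_sep h hz (a := d - 1) (b := d + 2) (by omega) (by omega) ?_
      rintro T hT ⟨i, hi1, hi2, hi3⟩ j hj1 hj2 hj3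
      have k3 : Ctr Δ n z T d ∨ Ctr Δ n z T (d + 1) := by
        rcases (by omega : i = d ∨ i = d + 1) with rfl | rfl
        · rcases Hat T hT i hi3 with h1 | h1 | h1
          · exact absurd h1 (k1 T hT)
          · exact Or.inl h1
          · exact Or.inr h1
        · rcases Hat T hT (d + 1) hi3 with h1 | h1 | h1
          · rw [add_sub_cancel_right] at h1
            exact Or.inl h1
          · exact Or.inr h1
          · have e : d + 1 + 1 = d + 2 := by ring
            rw [e] at h1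
            exact absurd h1 (k2 T hT)
      rcases k3 with k3 | k3
      · exact k3.2.2 j (by omega) (by omega) hj3
      · exact k3.2.2 j (by omega) (by omega) hj3
    · have hn4 : n = 4 := by omega
      subst hn4
      obtain ⟨T, hT, hfT⟩ := h9 V Δ 4 z (d + 2) h hz
      have hTo := hz.comp_off hT
      obtain ⟨ha1, ha2⟩ := Fl.at hc hTo hfT
      rcases Hat T hT (d + 2) ha1 with h1 | h1 | h1
      · have e : d + 2 - 1 = d + 1 := by ring
        rw [e] at h1
        exact h1.2.2 (d + 2 + 1) (by omega) (by push_cast; omega) ha2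
      · exact k2 T hT h1
      · refine k1 T hT ((hz.ctr_congr ?_).1 h1)
        exact ⟨1, by push_cast; ring⟩
  -- the end
  obtain ⟨X, hX, _⟩ := h9 V Δ n z 0 h hz
  obtain ⟨c, cX⟩ := H X hX
  refine Y11_sep h hz (a := c - 1) (b := c + 1) (by omega) (by omega) ?_
  rintro T hT ⟨i, hi1, hi2, hi3⟩ j hj1 hj2 hj3
  have hic : i = c := by omega
  subst hic
  rcases Hat T hT i hi3 with h1 | h1 | h1
  · exact H2 T X (i - 1) hT hX h1 (by rw [sub_add_cancel]; exact cX)
  · exact h1.2.2 j (by omega) (by omega) hj3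
  · exact H2 X T i hX hT cX h1

end Pool.Agent.Lib.MP_73b196_co.St
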