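import Pool.Agent.Lib.MP_73b196_co.St.SpecC

/-!
# Y13: the fan lemma
-/

set_option autoImplicit false

namespace Pool.Agent.Lib.MP_73b196_co.St

theorem Y13_arc {V : Type} [Fintype V] [DecidableEq V] (z : ℤ → V) : arc z 0 3 = {z 0, z 1, z 2} := by
  ext v
  rw [mem_arc]
  simp only [Finset.mem_insert, Finset.mem_singleton]
  constructor
  · rintro ⟨i, h1, h2, rfl⟩
    have h3 : i = 0 ∨ i = 1 ∨ i = 2 := by omega
    rcases h3 with rfl | rfl | rfl
    · exact Or.inl rfl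
    · exact Or.inr (Or.inl rfl)
    · exact Or.inr (Or.inr rfl)
  · rintro (rfl | rfl | rfl)
    · exact ⟨0, by omega, by omega, rfl⟩
    · exact ⟨1, by omega, by omega, rfl⟩
    · exact ⟨2, by omega, by omega, rfl⟩

theorem tY13 (h9 : StmtY9) (h12 : StmtY12) : StmtY13 := by
  intro V _ _ Δ n z hV h
  have h3 := h.three
  refine ⟨?_, fun i => ?_⟩
  · rcases Nat.eq_or_lt_of_le h3 with h4 | h4
    · subst h4
      have e : ((3 : ℕ) : ℤ) = 3 := rfl
      rw [e, Y13_arc]
      refine hV.noTri _ _ _ ((h.adjIff _ _).2 (Or.inr ⟨0, by norm_num⟩))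
        ((h.adjIff _ _).2 (Or.inl ⟨-1, by norm_num⟩)) ((h.adjIff _ _).2 (Or.inr ⟨0, by norm_num⟩))
        (h.hollow 0 1 2 (h.ne_of (by omega) (by omega)) (h.ne_of (by omega) (by omega))
          (h.ne_of (by omega) (by omega)))
    · exact h12 V Δ n z hV h h4
  · obtain ⟨X, hX, hf⟩ := h9 V Δ n z i hV h
    exact hf.mono hX.1

end Pool.Agent.Lib.MP_73b196_co.St
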