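import Pool.Agent.Lib.MP_73b196_co.St.SpecC

/-!
# The (2,2)-lemma
-/

set_option autoImplicit false
set_option linter.unusedSectionVars false

namespace Pool.Agent.Lib.MP_73b196_co.St

variable {V : Type} [Fintype V] [DecidableEq V] {Δ : Set (Finset V)}
  {A B C D X Y Z A' B' C' C1 C2 C3 C4 : Finset V} {L : List (Finset V)}

theorem Y14_touch (hc : IsCx Δ) (h : fill Δ L) (hA : A ∈ L) (hB : B ∈ L) (hd : Disjoint A B) :
    touch Δ A B := by
  obtain ⟨F, hF, hm⟩ := h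
  obtain ⟨a, ha⟩ := hm A hA
  obtain ⟨b, hb⟩ := hm B hB
  rw [Finset.mem_inter] at ha hb
  refine ⟨a, ha.2, b, hb.2, hc.adj_of_face hF ha.1 hb.1 ?_⟩
  rintro rfl
  exact Finset.disjoint_left.1 hd ha.2 hb.2

theorem Y14_mono (h : fill Δ [A, B, C]) (hA : A ⊆ A') (hB : B ⊆ B') (hC : C ⊆ C') :
    fill Δ [A', B', C'] := by
  obtain ⟨F, hF, hm⟩ := h
  refine ⟨F, hF, fun D hD => ?_⟩
  simp only [List.mem_cons, List.not_mem_nil, or_false] at hD
  rcases hD with rfl | rfl | rfl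
  · exact (hm A (by simp)).mono (Finset.inter_subset_inter_left hA)
  · exact (hm B (by simp)).mono (Finset.inter_subset_inter_left hB)
  · exact (hm C (by simp)).mono (Finset.inter_subset_inter_left hC)

theorem Y14_split (h : fill Δ [A, B, X ∪ Y]) : fill Δ [A, B, X] ∨ fill Δ [A, B, Y] := by
  obtain ⟨F, hF, hm⟩ := h
  obtain ⟨x, hx⟩ := hm (X ∪ Y) (by simp)
  rw [Finset.mem_inter, Finset.mem_union] at hx
  rcases hx.2 with h | h
  · refine Or.inl ⟨F, hF, fun D hD => ?_⟩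
    simp only [List.mem_cons, List.not_mem_nil, or_false] at hD
    rcases hD with rfl | rfl | rfl
    · exact hm _ (by simp)
    · exact hm _ (by simp)
    · exact ⟨x, Finset.mem_inter.2 ⟨hx.1, h⟩⟩
  · refine Or.inr ⟨F, hF, fun D hD => ?_⟩
    simp only [List.mem_cons, List.not_mem_nil, or_false] at hD
    rcases hD with rfl | rfl | rfl
    · exact hm _ (by simp)
    · exact hm _ (by simp)
    · exact ⟨x, Finset.mem_inter.2 ⟨hx.1, h⟩⟩

theorem Y14_CM (hA : Conn Δ A) (hB : Conn Δ B) (hC : Conn Δ C) (hD : Conn Δ D)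
    (dAB : Disjoint A B) (dAC : Disjoint A C) (dAD : Disjoint A D) (dBC : Disjoint B C)
    (dBD : Disjoint B D) (dCD : Disjoint C D) (tAB : touch Δ A B) (tAC : touch Δ A C)
    (tAD : touch Δ A D) (tBC : touch Δ B C) (tBD : touch Δ B D) (tCD : touch Δ C D) :
    CM Δ [A, B, C, D] := by
  refine ⟨?_, ?_⟩
  · intro E hE
    simp only [List.mem_cons, List.not_mem_nil, or_false] at hE
    rcases hE with rfl | rfl | rfl | rfl <;> assumption
  · simp only [List.pairwise_cons, List.mem_cons, List.not_mem_nil, or_false, List.Pairwise.nil,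
      and_true, IsEmpty.forall_iff, implies_true, forall_eq_or_imp, forall_eq]
    exact ⟨⟨⟨dAB, tAB⟩, ⟨dAC, tAC⟩, dAD, tAD⟩, ⟨⟨dBC, tBC⟩, dBD, tBD⟩, dCD, tCD⟩

/-- The hypotheses. -/
structure Y14_H (Δ : Set (Finset V)) (A B C1 C2 C3 C4 : Finset V) : Prop where
  cA : Conn Δ A
  cB : Conn Δ B
  c1 : Conn Δ C1
  c2 : Conn Δ C2
  c3 : Conn Δ C3
  c4 : Conn Δ C4
  dAB : Disjoint A B
  dA1 : Disjoint A C1
  dA2 : Disjoint A C2
  dA3 : Disjoint A C3
  dA4 : Disjoint A C4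
  dB1 : Disjoint B C1
  dB2 : Disjoint B C2
  dB3 : Disjoint B C3
  dB4 : Disjoint B C4
  d12 : Disjoint C1 C2
  d13 : Disjoint C1 C3
  d14 : Disjoint C1 C4
  d23 : Disjoint C2 C3
  d24 : Disjoint C2 C4
  d34 : Disjoint C3 C4
  tAB : touch Δ A B
  n13 : ¬ touch Δ C1 C3
  n24 : ¬ touch Δ C2 C4
  fA12 : fill Δ [A, C1, C2]
  fA23 : fill Δ [A, C2, C3]
  fB34 : fill Δ [B, C3, C4]
  fB41 : fill Δ [B, C4, C1]
  nA34 : ¬ fill Δ [A, C3, C4]
  nA41 : ¬ fill Δ [A, C4, C1]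
  nB12 : ¬ fill Δ [B, C1, C2]
  nB23 : ¬ fill Δ [B, C2, C3]

/-- The symmetry. -/
theorem Y14_H.symm (h : Y14_H Δ A B C1 C2 C3 C4) : Y14_H Δ B A C3 C4 C1 C2 where
  cA := h.cB
  cB := h.cA
  c1 := h.c3
  c2 := h.c4
  c3 := h.c1
  c4 := h.c2
  dAB := h.dAB.symm
  dA1 := h.dB3
  dA2 := h.dB4
  dA3 := h.dB1
  dA4 := h.dB2
  dB1 := h.dA3
  dB2 := h.dA4
  dB3 := h.dA1
  dB4 := h.dA2
  d12 := h.d34
  d13 := h.d13.symm
  d14 := h.d23.symm
  d23 := h.d14.symm
  d24 := h.d24.symm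
  d34 := h.d12
  tAB := touch_symm h.tAB
  n13 := fun t => h.n13 (touch_symm t)
  n24 := fun t => h.n24 (touch_symm t)
  fA12 := h.fB34
  fA23 := h.fB41
  fB34 := h.fA12
  fB41 := h.fA23
  nA34 := h.nB12
  nA41 := h.nB23
  nB12 := h.nA34
  nB23 := h.nA41

/-- Step (a). -/
theorem Y14_a (hP : InP Δ) (h : Y14_H Δ A B C1 C2 C3 C4) : ¬ touch Δ A C4 := by
  intro t
  have t12 := Y14_touch hP.cx h.fA12 (A := C1) (B := C2) (by simp) (by simp) h.d12
  have t23 := Y14_touch hP.cx h.fA23 (A := C2) (B := C3) (by simp) (by simp) h.d23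
  have t34 := Y14_touch hP.cx h.fB34 (A := C3) (B := C4) (by simp) (by simp) h.d34
  have t41 := Y14_touch hP.cx h.fB41 (A := C4) (B := C1) (by simp) (by simp) h.d14.symm
  have tA1 := Y14_touch hP.cx h.fA12 (A := A) (B := C1) (by simp) (by simp) h.dA1
  have tA3 := Y14_touch hP.cx h.fA23 (A := A) (B := C3) (by simp) (by simp) h.dA3
  have c12 : Conn Δ (C1 ∪ C2) := h.c1.union h.c2 (Or.inl t12)
  have hm : CM Δ [C4, C3, C1 ∪ C2, A] := Y14_CM h.c4 h.c3 c12 h.cA h.d34.symm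
    (Finset.disjoint_union_right.2 ⟨h.d14.symm, h.d24.symm⟩) h.dA4.symm
    (Finset.disjoint_union_right.2 ⟨h.d13.symm, h.d23.symm⟩) h.dA3.symm
    (Finset.disjoint_union_left.2 ⟨h.dA1.symm, h.dA2.symm⟩) (touch_symm t34)
    (touch_union_right.2 (Or.inl t41)) (touch_symm t)
    (touch_union_right.2 (Or.inr (touch_symm t23))) (touch_symm tA3)
    (touch_union_left.2 (Or.inl (touch_symm tA1)))
  refine hP.k4three hm ?_ ?_ ?_
  · intro hf
    rcases Y14_split hf with hf | hf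
    · exact h.n13 (touch_symm (Y14_touch hP.cx hf (by simp) (by simp) h.d13.symm))
    · exact h.n24 (touch_symm (Y14_touch hP.cx hf (by simp) (by simp) h.d24.symm))
  · exact fun hf => h.nA34 (Rules_sub hf (by simp))
  · intro hf
    have hf' : fill Δ [C4, A, C1 ∪ C2] := Rules_sub hf (by simp)
    rcases Y14_split hf' with hf | hf
    · exact h.nA41 (Rules_sub hf (by simp))
    · exact h.n24 (touch_symm (Y14_touch hP.cx hf (by simp) (by simp) h.d24.symm))

/-- Step (b). -/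
theorem Y14_b (hP : InP Δ) (h : Y14_H Δ A B C1 C2 C3 C4) :
    fill Δ [A, B, C1] ∨ fill Δ [A, B, C3] := by
  by_contra hn
  push Not at hn
  have t34 := Y14_touch hP.cx h.fB34 (A := C3) (B := C4) (by simp) (by simp) h.d34
  have t41 := Y14_touch hP.cx h.fB41 (A := C4) (B := C1) (by simp) (by simp) h.d14.symm
  have tA1 := Y14_touch hP.cx h.fA12 (A := A) (B := C1) (by simp) (by simp) h.dA1
  have tA3 := Y14_touch hP.cx h.fA23 (A := A) (B := C3) (by simp) (by simp) h.dA3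
  have tB1 := Y14_touch hP.cx h.fB41 (A := B) (B := C1) (by simp) (by simp) h.dB1
  have tB3 := Y14_touch hP.cx h.fB34 (A := B) (B := C3) (by simp) (by simp) h.dB3
  have c34 : Conn Δ (C3 ∪ C4) := h.c3.union h.c4 (Or.inl t34)
  have hm : CM Δ [A, B, C1, C3 ∪ C4] := Y14_CM h.cA h.cB h.c1 c34 h.dAB h.dA1
    (Finset.disjoint_union_right.2 ⟨h.dA3, h.dA4⟩) h.dB1
    (Finset.disjoint_union_right.2 ⟨h.dB3, h.dB4⟩)
    (Finset.disjoint_union_right.2 ⟨h.d13, h.d14⟩) h.tAB tA1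
    (touch_union_right.2 (Or.inl tA3)) tB1 (touch_union_right.2 (Or.inl tB3))
    (touch_union_right.2 (Or.inr (touch_symm t41)))
  refine hP.k4three hm hn.1 ?_ ?_
  · intro hf
    rcases Y14_split hf with hf | hf
    · exact hn.2 hf
    · exact Y14_a hP h (Y14_touch hP.cx hf (by simp) (by simp) h.dA4)
  · intro hf
    rcases Y14_split hf with hf | hf
    · exact h.n13 (Y14_touch hP.cx hf (by simp) (by simp) h.d13)
    · exact h.nA41 (Rules_sub hf (by simp))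

/-- Step (c). -/
theorem Y14_c (hP : InP Δ) (h : Y14_H Δ A B C1 C2 C3 C4) :
    ¬ (fill Δ [A, B, C1] ∧ fill Δ [A, B, C3]) := by
  rintro ⟨f1, f3⟩
  have t12 := Y14_touch hP.cx h.fA12 (A := C1) (B := C2) (by simp) (by simp) h.d12
  have t34 := Y14_touch hP.cx h.fB34 (A := C3) (B := C4) (by simp) (by simp) h.d34
  have t41 := Y14_touch hP.cx h.fB41 (A := C4) (B := C1) (by simp) (by simp) h.d14.symm
  have tA1 := Y14_touch hP.cx h.fA12 (A := A) (B := C1) (by simp) (by simp) h.dA1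
  have tA3 := Y14_touch hP.cx h.fA23 (A := A) (B := C3) (by simp) (by simp) h.dA3
  have tB1 := Y14_touch hP.cx h.fB41 (A := B) (B := C1) (by simp) (by simp) h.dB1
  have tB3 := Y14_touch hP.cx h.fB34 (A := B) (B := C3) (by simp) (by simp) h.dB3
  have c12 : Conn Δ (C1 ∪ C2) := h.c1.union h.c2 (Or.inl t12)
  have c34 : Conn Δ (C3 ∪ C4) := h.c3.union h.c4 (Or.inl t34)
  have hm : CM Δ [A, B, C1 ∪ C2, C3 ∪ C4] := Y14_CM h.cA h.cB c12 c34 h.dAB
    (Finset.disjoint_union_right.2 ⟨h.dA1, h.dA2⟩)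
    (Finset.disjoint_union_right.2 ⟨h.dA3, h.dA4⟩)
    (Finset.disjoint_union_right.2 ⟨h.dB1, h.dB2⟩)
    (Finset.disjoint_union_right.2 ⟨h.dB3, h.dB4⟩)
    (Finset.disjoint_union_left.2 ⟨Finset.disjoint_union_right.2 ⟨h.d13, h.d14⟩,
      Finset.disjoint_union_right.2 ⟨h.d23, h.d24⟩⟩) h.tAB
    (touch_union_right.2 (Or.inl tA1)) (touch_union_right.2 (Or.inl tA3))
    (touch_union_right.2 (Or.inl tB1)) (touch_union_right.2 (Or.inl tB3))
    (touch_union_left.2 (Or.inl (touch_union_right.2 (Or.inr (touch_symm t41)))))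
  obtain ⟨F, hF, hFm⟩ := hP.k4all hm
    (Y14_mono f1 (Finset.Subset.refl _) (Finset.Subset.refl _) Finset.subset_union_left)
    (Y14_mono f3 (Finset.Subset.refl _) (Finset.Subset.refl _) Finset.subset_union_left)
    (Y14_mono h.fA23 (Finset.Subset.refl _) Finset.subset_union_right Finset.subset_union_left)
    (Y14_mono (Rules_sub h.fB41 (by simp) : fill Δ [B, C1, C4]) (Finset.Subset.refl _)
      Finset.subset_union_left Finset.subset_union_right)
  obtain ⟨a, ha⟩ := hFm A (by simp)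
  obtain ⟨b, hb⟩ := hFm B (by simp)
  obtain ⟨x, hx⟩ := hFm (C1 ∪ C2) (by simp)
  obtain ⟨y, hy⟩ := hFm (C3 ∪ C4) (by simp)
  rw [Finset.mem_inter] at ha hb hx hy
  have key : ∀ {P Q : Finset V} {p q : V}, p ∈ F → q ∈ F → p ∈ P → q ∈ Q → Disjoint P Q →
      touch Δ P Q := by
    intro P Q p q hp hq hpP hqQ hd
    refine ⟨p, hpP, q, hqQ, hP.cx.adj_of_face hF hp hq ?_⟩
    rintro rfl
    exact Finset.disjoint_left.1 hd hpP hqQ
  rcases Finset.mem_union.1 hx.2 with h1 | h1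
  · rcases Finset.mem_union.1 hy.2 with h2 | h2
    · exact h.n13 (key hx.1 hy.1 h1 h2 h.d13)
    · exact Y14_a hP h (key ha.1 hy.1 ha.2 h2 h.dA4)
  · exact Y14_a hP h.symm (key hb.1 hx.1 hb.2 h1 h.dB2)

/-- **Y14** The (2,2)-lemma. -/
theorem tY14 : StmtY14 := by
  intro V _ _ Δ A B C1 C2 C3 C4 hP hcon hdis tAB n13 n24 fA12 fA23 fB34 fB41 nA34 nA41 nB12 nB23
  simp only [List.pairwise_cons, List.mem_cons, List.not_mem_nil, or_false, List.Pairwise.nil,
    and_true, IsEmpty.forall_iff, implies_true, forall_eq_or_imp, forall_eq] at hdis hcon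
  obtain ⟨⟨dAB, dA1, dA2, dA3, dA4⟩, ⟨dB1, dB2, dB3, dB4⟩, ⟨d12, d13, d14⟩, ⟨d23, d24⟩, d34⟩ := hdis
  obtain ⟨cA, cB, c1, c2, c3, c4⟩ := hcon
  have h : Y14_H Δ A B C1 C2 C3 C4 := ⟨cA, cB, c1, c2, c3, c4, dAB, dA1, dA2, dA3, dA4, dB1, dB2,
    dB3, dB4, d12, d13, d14, d23, d24, d34, tAB, n13, n24, fA12, fA23, fB34, fB41, nA34, nA41,
    nB12, nB23⟩
  have nA4 := Y14_a hP h
  have nB2 := Y14_a hP h.symm
  have hc := Y14_c hP h
  rcases Y14_b hP h with f | f
  · refine hP.x6 C3 C2 A C1 B C4 ?_ ?_ (Rules_sub fA23 (by simp)) (Rules_sub fA12 (by simp))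
      (Rules_sub f (by simp)) (Rules_sub fB41 (by simp)) (Rules_sub fB34 (by simp))
      (fun f3 => hc ⟨f, Rules_sub f3 (by simp)⟩) (fun t => n13 (touch_symm t))
      (fun t => nB2 (touch_symm t)) n24 nA4
    · intro E hE
      simp only [List.mem_cons, List.not_mem_nil, or_false] at hE
      rcases hE with rfl | rfl | rfl | rfl | rfl | rfl <;> assumption
    · simp only [List.pairwise_cons, List.mem_cons, List.not_mem_nil, or_false, List.Pairwise.nil,
        and_true, IsEmpty.forall_iff, implies_true, forall_eq_or_imp, forall_eq]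
      exact ⟨⟨d23.symm, dA3.symm, d13.symm, dB3.symm, d34⟩, ⟨dA2.symm, d12.symm, dB2.symm, d24⟩,
        ⟨dA1, dAB, dA4⟩, ⟨dB1.symm, d14⟩, dB4⟩
  · refine hP.x6 C1 C2 A C3 B C4 ?_ ?_ (Rules_sub fA12 (by simp)) (Rules_sub fA23 (by simp))
      (Rules_sub f (by simp)) (Rules_sub fB34 (by simp)) (Rules_sub fB41 (by simp))
      (fun f1 => hc ⟨Rules_sub f1 (by simp), f⟩) n13
      (fun t => nB2 (touch_symm t)) n24 nA4
    · intro E hE
      simp only [List.mem_cons, List.not_mem_nil, or_false] at hE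
      rcases hE with rfl | rfl | rfl | rfl | rfl | rfl <;> assumption
    · simp only [List.pairwise_cons, List.mem_cons, List.not_mem_nil, or_false, List.Pairwise.nil,
        and_true, IsEmpty.forall_iff, implies_true, forall_eq_or_imp, forall_eq]
      exact ⟨⟨d12, dA1.symm, d13, dB1.symm, d14⟩, ⟨dA2.symm, d23, dB2.symm, d24⟩,
        ⟨dA3, dAB, dA4⟩, ⟨dB3.symm, d34⟩, dB4⟩

end Pool.Agent.Lib.MP_73b196_co.St
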