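import Pool.Agent.Lib.MP_73b196_co.St.SpecC

/-!
# Y15: three arcs and two sets
-/

set_option autoImplicit false

namespace Pool.Agent.Lib.MP_73b196_co.St

theorem Y15_touch {V : Type} [Fintype V] [DecidableEq V] {Δ : Set (Finset V)} {A B C : Finset V}
    (hc : IsCx Δ) (h : fill Δ [A, B, C]) (h1 : Disjoint A B) (h2 : Disjoint A C) :
    touch Δ A B ∧ touch Δ A C := by
  refine ⟨(hc.touch_iff_fill h1).2 (Rules_sub h (by simp)),
    (hc.touch_iff_fill h2).2 (Rules_sub h (by simp))⟩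

theorem tY15 : StmtY15 := by
  intro V _ _ Δ A B P Q R hP hcn hdj ht hm nA nB fA fB hf
  have hc := hP.cx
  simp only [List.pairwise_cons, List.mem_cons, List.not_mem_nil, or_false,
    List.Pairwise.nil, and_true, IsEmpty.forall_iff, implies_true, forall_eq_or_imp,
    forall_eq] at hdj
  obtain ⟨⟨dAB, dAP, dAQ, dAR⟩, ⟨dBP, dBQ, dBR⟩, ⟨dPQ, dPR⟩, dQR⟩ := hdj
  have hp := Rules_pair hm
  have tA := Y15_touch hc fA dAQ dAR
  have tB := Y15_touch hc fB dBR dBP
  by_cases h1 : touch Δ A P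
  · by_cases h2 : touch Δ B Q
    · exfalso
      have hm2 := hm.2
      simp only [List.pairwise_cons, List.mem_cons, List.not_mem_nil, or_false,
        List.Pairwise.nil, and_true, IsEmpty.forall_iff, implies_true, forall_eq_or_imp,
        forall_eq] at hm2
      obtain ⟨⟨⟨_, tPQ⟩, ⟨_, tPR⟩⟩, ⟨_, tQR⟩⟩ := hm2
      have hk : CM Δ [R, A, P, B, Q] := by
        refine ⟨?_, ?_⟩
        · intro X hX
          refine hcn X ?_
          simp only [List.mem_cons, List.not_mem_nil, or_false] at hX ⊢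
          tauto
        · simp only [List.pairwise_cons, List.mem_cons, List.not_mem_nil, or_false,
            List.Pairwise.nil, and_true, IsEmpty.forall_iff, implies_true, forall_eq_or_imp,
            forall_eq]
          exact ⟨⟨⟨dAR.symm, touch_symm tA.2⟩, ⟨dPR.symm, touch_symm tPR⟩,
            ⟨dBR.symm, touch_symm tB.1⟩, dQR.symm, touch_symm tQR⟩,
            ⟨⟨dAP, h1⟩, ⟨dAB, ht⟩, dAQ, tA.1⟩, ⟨⟨dBP.symm, touch_symm tB.2⟩, dPQ, tPQ⟩, dBQ, h2⟩
      rcases hP.k5 _ _ _ _ _ hk with h4 | h4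
      · exact nA (Rules_sub h4 (by simp))
      · exact nB (Rules_sub h4 (by simp))
    · refine Or.inr ⟨h2, ?_⟩
      rcases hf with h3 | h3
      · exact h3
      · exact absurd (Y15_touch hc h3 dBP dBQ).2 h2
  · refine Or.inl ⟨h1, ?_⟩
    rcases hf with h3 | h3
    · exact absurd (Y15_touch hc h3 dAP dAQ).1 h1
    · exact h3

end Pool.Agent.Lib.MP_73b196_co.St
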