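import Pool.Agent.Lib.MP_73b196_co.St.SpecC

/-!
# Y16: types, one side
-/

set_option autoImplicit false

namespace Pool.Agent.Lib.MP_73b196_co.St

theorem tY16 (h15 : StmtY15) : StmtY16 := by
  intro V _ _ Δ n z A B b e hP h cA cB oA oB hd ht hc hA hB h1 h2 h3
  have hx := hP.cx
  have e0 : (1 : ℤ) - 1 = 0 := by norm_num
  have en : e + 1 - 1 = e := by ring
  have eb : b + 1 - 1 = b := by ring
  -- the three cuts for `A` and `B`
  have cut : ∀ X : Finset V, Off z X →
      (fill Δ [X, arc z 1 (e + 1), arc z (e + 1) (b + 1)] ↔ Fl Δ z X e) ∧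
      (fill Δ [X, arc z (e + 1) (b + 1), arc z (b + 1) (1 + n)] ↔ Fl Δ z X b) ∧
      (fill Δ [X, arc z (b + 1) (1 + n), arc z 1 (e + 1)] ↔ Fl Δ z X 0) := by
    intro X oX
    refine ⟨?_, ?_, ?_⟩
    · have := h.fill_arcs hx oX (a := 1) (b := e + 1) (c := b + 1) (by omega) (by omega) (by omega)
      rwa [en] at this
    · have := h.fill_arcs hx oX (a := e + 1) (b := b + 1) (c := 1 + n) (by omega) (by omega)
        (by omega)
      rwa [eb] at this
    · have := h.fill_arcs_wrap hx oX (a := 1) (b := e + 1) (c := b + 1) (by omega) (by omega)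
        (by omega)
      rw [e0] at this
      rw [← this]
      exact fill_perm ((List.Perm.swap _ _ _).cons X)
  obtain ⟨a1, a2, a3⟩ := cut A oA
  obtain ⟨b1, b2, b3⟩ := cut B oB
  have cP := h.arc_conn hx (a := 1) (b := e + 1) (by omega)
  have cQ := h.arc_conn hx (a := e + 1) (b := b + 1) (by omega)
  have cR := h.arc_conn hx (a := b + 1) (b := 1 + n) (by omega)
  have hm := h.cm hx (a := 1) (b := e + 1) (c := b + 1) (by omega) (by omega) (by omega)
  have fA : Fl Δ z A b := (hc b).resolve_right hB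
  have fB : Fl Δ z B 0 := (hc 0).resolve_left hA
  rcases h15 V Δ A B (arc z 1 (e + 1)) (arc z (e + 1) (b + 1)) (arc z (b + 1) (1 + n)) hP
    (by
      intro X hX
      simp only [List.mem_cons, List.not_mem_nil, or_false] at hX
      rcases hX with rfl | rfl | rfl | rfl | rfl <;> assumption)
    (by
      simp only [List.pairwise_cons, List.mem_cons, List.not_mem_nil, or_false,
        List.Pairwise.nil, and_true, IsEmpty.forall_iff, implies_true, forall_eq_or_imp,
        forall_eq]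
      exact ⟨⟨hd, oA.disj, oA.disj, oA.disj⟩, ⟨oB.disj, oB.disj, oB.disj⟩,
        ⟨h.arc_disj le_rfl (by omega), h.arc_disj (by omega) (by omega)⟩,
        h.arc_disj le_rfl (by omega)⟩)
    ht hm (fun h4 => hA (a3.1 h4)) (fun h4 => hB (b2.1 h4)) (a2.2 fA) (b3.2 fB)
    ((hc e).imp a1.2 b1.2) with ⟨h4, h5⟩ | ⟨h4, h5⟩
  · refine Or.inl ⟨fun i h6 h7 h8 => h4 (touch_arc.2 ⟨i, h6, by omega, h8⟩), b1.1 h5⟩
  · refine Or.inr ⟨fun i h6 h7 h8 => h4 (touch_arc.2 ⟨i, h6, by omega, h8⟩), a1.1 h5⟩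

end Pool.Agent.Lib.MP_73b196_co.St
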