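import Pool.Agent.Lib.MP_73b196_co.St.SpecC

/-!
# Y17: two edges on the same side have the same type
-/

set_option autoImplicit false

namespace Pool.Agent.Lib.MP_73b196_co.St

/-- Four arcs: the (2,2)-pattern is impossible. -/
private theorem y17_four (h14 : StmtY14) {V : Type} [Fintype V] [DecidableEq V]
    {Δ : Set (Finset V)} {n : ℕ} {z : ℤ → V} {A B : Finset V} {p q r s : ℤ} (hP : InP Δ)
    (hC : HC Δ n z) (hA : Conn Δ A) (hB : Conn Δ B) (oA : Off z A) (oB : Off z B)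
    (dAB : Disjoint A B) (tAB : touch Δ A B) (h1 : p < q) (h2 : q < r) (h3 : r < s)
    (h4 : s < p + n) (a1 : Fl Δ z A (q - 1)) (a2 : Fl Δ z A (r - 1)) (b3 : Fl Δ z B (s - 1))
    (b4 : Fl Δ z B (p - 1)) (a3 : ¬ Fl Δ z A (s - 1)) (a4 : ¬ Fl Δ z A (p - 1))
    (b1 : ¬ Fl Δ z B (q - 1)) (b2 : ¬ Fl Δ z B (r - 1)) : False := by
  have hc := hP.cx
  have w : ∀ {X : Finset V}, Off z X →
      (fill Δ [X, arc z s (p + n), arc z p q] ↔ Fl Δ z X (p - 1)) := by
    intro X hX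
    rw [← hC.fill_arcs_wrap hc hX (a := p) (b := q) (c := s) h1 (by omega) h4]
    exact fill_perm ((List.Perm.swap _ _ _).cons X)
  refine h14 V Δ A B (arc z p q) (arc z q r) (arc z r s) (arc z s (p + n)) hP ?_ ?_ tAB ?_ ?_
    ((hC.fill_arcs hc oA h1 h2 (by omega)).2 a1) ((hC.fill_arcs hc oA h2 h3 (by omega)).2 a2)
    ((hC.fill_arcs hc oB h3 h4 (by omega)).2 b3) ((w oB).2 b4)
    (fun hf => a3 ((hC.fill_arcs hc oA h3 h4 (by omega)).1 hf)) (fun hf => a4 ((w oA).1 hf))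
    (fun hf => b1 ((hC.fill_arcs hc oB h1 h2 (by omega)).1 hf))
    (fun hf => b2 ((hC.fill_arcs hc oB h2 h3 (by omega)).1 hf))
  · intro X hX
    simp only [List.mem_cons, List.not_mem_nil, or_false] at hX
    rcases hX with rfl | rfl | rfl | rfl | rfl | rfl
    · exact hA
    · exact hB
    · exact hC.arc_conn hc h1
    · exact hC.arc_conn hc h2
    · exact hC.arc_conn hc h3
    · exact hC.arc_conn hc h4
  · simp only [List.pairwise_cons, List.mem_cons, List.not_mem_nil, or_false, List.Pairwise.nil,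
      and_true, IsEmpty.forall_iff, implies_true, forall_eq_or_imp, forall_eq]
    exact ⟨⟨dAB, oA.disj, oA.disj, oA.disj, oA.disj⟩, ⟨oB.disj, oB.disj, oB.disj, oB.disj⟩,
      ⟨hC.arc_disj le_rfl (by omega), hC.arc_disj (by omega) (by omega),
        hC.arc_disj (by omega) le_rfl⟩,
      ⟨hC.arc_disj le_rfl (by omega), hC.arc_disj (by omega) (by omega)⟩,
      hC.arc_disj le_rfl (by omega)⟩
  · exact hC.arc_not_touch h2 (by omega)
  · exact hC.arc_not_touch h3 (by omega)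

/-- Exactly one of the two sets fills an edge. -/
private theorem y17_excl (h16 : StmtY16) {V : Type} [Fintype V] [DecidableEq V]
    {Δ : Set (Finset V)} {n : ℕ} {z : ℤ → V} {A B : Finset V} {b e : ℤ} (hP : InP Δ)
    (hC : HC Δ n z) (hA : Conn Δ A) (hB : Conn Δ B) (oA : Off z A) (oB : Off z B)
    (dAB : Disjoint A B) (tAB : touch Δ A B) (hall : ∀ i, Fl Δ z A i ∨ Fl Δ z B i)
    (nA : ¬ Fl Δ z A 0) (nB : ¬ Fl Δ z B b) (h1 : 0 < e) (h2 : e < b) (h3 : b < n) :
    (¬ Fl Δ z A e ∧ Fl Δ z B e) ∨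
      ((∀ i, e + 1 ≤ i → i ≤ b → ¬ At Δ z B i) ∧ Fl Δ z A e ∧ ¬ Fl Δ z B e) := by
  rcases h16 V Δ n z A B b e hP hC hA hB oA oB dAB tAB hall nA nB h1 h2 h3 with ⟨g1, g2⟩ | ⟨g1, g2⟩
  · exact Or.inl ⟨fun hf => g1 e (by omega) le_rfl (hf.at hP.cx oA).1, g2⟩
  · exact Or.inr ⟨g1, g2, fun hf => g1 (e + 1) le_rfl (by omega) (hf.at hP.cx oB).2⟩

theorem tY17 (h14 : StmtY14) (h16 : StmtY16) : StmtY17 := by
  intro V _ _ Δ n z A B b e e' hP hC hA hB oA oB dAB tAB hall nA nB h1 h2 h3 h4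
  have x1 := y17_excl h16 hP hC hA hB oA oB dAB tAB hall nA nB h1 (h2.trans h3) h4
  have x2 := y17_excl h16 hP hC hA hB oA oB dAB tAB hall nA nB (h1.trans h2) h3 h4
  refine ⟨⟨?_, ?_⟩, ?_, ?_⟩
  · intro hf
    rcases x1 with g | g
    · exact absurd hf g.1
    · rcases hall e' with h | h
      · exact h
      · exact absurd (h.at hP.cx oB).1 (g.1 e' (by omega) (by omega))
  · intro hf
    by_contra hn
    have hBe : Fl Δ z B e := (hall e).resolve_left hn
    have hBe' : ¬ Fl Δ z B e' := by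
      rcases x2 with g | g
      · exact absurd hf g.1
      · exact g.2.2
    have hAb : Fl Δ z A b := (hall b).resolve_right nB
    have hB0 : Fl Δ z B 0 := (hall 0).resolve_left nA
    have c0 : ∀ {X : Finset V}, Fl Δ z X ((n : ℤ) + 1 - 1) ↔ Fl Δ z X 0 := by
      intro X
      exact hC.fl_congr ⟨1, by ring⟩
    have e1 : e' + 1 - 1 = e' := by ring
    have e2 : b + 1 - 1 = b := by ring
    have e3 : e + 1 - 1 = e := by ring
    exact y17_four h14 (p := e + 1) (q := e' + 1) (r := b + 1) (s := n + 1) hP hC hA hB oA oB dAB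
      tAB (by omega) (by omega) (by omega) (by omega) (by rwa [e1]) (by rwa [e2]) (c0.2 hB0)
      (by rwa [e3]) (fun h => nA (c0.1 h)) (by rwa [e3]) (by rwa [e1]) (by rwa [e2])
  · rintro ⟨g1, g2⟩
    rcases x1 with g | g
    · exact g.1 g1
    · exact g.2.2 g2
  · rintro ⟨g1, g2⟩
    rcases x2 with g | g
    · exact g.1 g1
    · exact g.2.2 g2

end Pool.Agent.Lib.MP_73b196_co.St
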