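import Pool.Agent.Lib.MP_73b196_co.St.SpecC

/-!
# Y18: two edges on different sides have the same type
-/

set_option autoImplicit false

namespace Pool.Agent.Lib.MP_73b196_co.St

namespace Y18

variable {V : Type} [Fintype V] [DecidableEq V] {Δ : Set (Finset V)} {n : ℕ} {z : ℤ → V}
  {A B : Finset V}

/-- Four arcs with the types `A, A, B, B`: the (2,2)-lemma. -/
theorem four (h14 : StmtY14) (hI : InP Δ) (hz : HC Δ n z) (cA : Conn Δ A) (cB : Conn Δ B)
    (oA : Off z A) (oB : Off z B) (hd : Disjoint A B) (ht : touch Δ A B) {a1 a2 a3 a4 : ℤ}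
    (h1 : a1 < a2) (h2 : a2 < a3) (h3 : a3 < a4) (h4 : a4 < a1 + n)
    (f1 : Fl Δ z A (a2 - 1)) (f2 : Fl Δ z A (a3 - 1)) (f3 : Fl Δ z B (a4 - 1))
    (f4 : Fl Δ z B (a1 - 1)) (g1 : ¬ Fl Δ z B (a2 - 1)) (g2 : ¬ Fl Δ z B (a3 - 1))
    (g3 : ¬ Fl Δ z A (a4 - 1)) (g4 : ¬ Fl Δ z A (a1 - 1)) : False := by
  have hc := hI.cx
  refine h14 V Δ A B (arc z a1 a2) (arc z a2 a3) (arc z a3 a4) (arc z a4 (a1 + n)) hI ?_ ?_ ht
    (hz.arc_not_touch h2 h4) (hz.arc_not_touch h3 (by omega)) ?_ ?_ ?_ ?_ ?_ ?_ ?_ ?_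
  · intro X hX
    simp only [List.mem_cons, List.not_mem_nil, or_false] at hX
    rcases hX with rfl | rfl | rfl | rfl | rfl | rfl
    · exact cA
    · exact cB
    · exact hz.arc_conn hc h1
    · exact hz.arc_conn hc h2
    · exact hz.arc_conn hc h3
    · exact hz.arc_conn hc h4
  · simp only [List.pairwise_cons, List.mem_cons, List.not_mem_nil, or_false, List.Pairwise.nil,
      and_true, IsEmpty.forall_iff, implies_true, forall_eq_or_imp, forall_eq]
    refine ⟨⟨hd, oA.disj, oA.disj, oA.disj, oA.disj⟩, ⟨oB.disj, oB.disj, oB.disj, oB.disj⟩, ⟨?_, ?_, ?_⟩,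
      ⟨?_, ?_⟩, ?_⟩
    · exact hz.arc_disj le_rfl (by omega)
    · exact hz.arc_disj (by omega) (by omega)
    · exact hz.arc_disj (by omega) (by omega)
    · exact hz.arc_disj le_rfl (by omega)
    · exact hz.arc_disj (by omega) (by omega)
    · exact hz.arc_disj le_rfl (by omega)
  · exact (hz.fill_arcs hc oA h1 h2 (by omega)).2 f1
  · exact (hz.fill_arcs hc oA h2 h3 (by omega)).2 f2
  · exact (hz.fill_arcs hc oB h3 h4 (by omega)).2 f3
  · exact Rules_sub ((hz.fill_arcs_wrap hc oB (c := a4) h1 (by omega) h4).2 f4) (by simp)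
  · exact fun h => g3 ((hz.fill_arcs hc oA h3 h4 (by omega)).1 h)
  · exact fun h => g4 ((hz.fill_arcs_wrap hc oA (c := a4) h1 (by omega) h4).1
      (Rules_sub h (by simp)))
  · exact fun h => g1 ((hz.fill_arcs hc oB h1 h2 (by omega)).1 h)
  · exact fun h => g2 ((hz.fill_arcs hc oB h2 h3 (by omega)).1 h)

/-- Exactly one of the two sets fills the edge `e`. -/
theorem excl (h16 : StmtY16) (hI : InP Δ) (hz : HC Δ n z) (cA : Conn Δ A) (cB : Conn Δ B)
    (oA : Off z A) (oB : Off z B) (hd : Disjoint A B) (ht : touch Δ A B)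
    (hf : ∀ i, Fl Δ z A i ∨ Fl Δ z B i) {b e : ℤ} (hA : ¬ Fl Δ z A 0) (hB : ¬ Fl Δ z B b)
    (h1 : 0 < e) (h2 : e < b) (h3 : b < n) : Fl Δ z B e ↔ ¬ Fl Δ z A e := by
  have hc := hI.cx
  rcases h16 V Δ n z A B b e hI hz cA cB oA oB hd ht hf hA hB h1 h2 h3 with ⟨h4, h5⟩ | ⟨h4, h5⟩
  · exact ⟨fun _ h6 => h4 e (by omega) le_rfl (Fl.at hc oA h6).1, fun _ => h5⟩
  · exact ⟨fun h6 => absurd (Fl.at hc oB h6).2 (h4 _ le_rfl (by omega)), fun h6 => absurd h5 h6⟩

end Y18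

theorem tY18 (h14 : StmtY14) (h16 : StmtY16) : StmtY18 := by
  intro V _ _ Δ n z A B b e g hI hz cA cB oA oB hd ht hf hA hB h1 h2 h3 h4
  have hc := hI.cx
  have he : Fl Δ z B e ↔ ¬ Fl Δ z A e :=
    Y18.excl h16 hI hz cA cB oA oB hd ht hf hA hB h1 h2 (by omega)
  have hg : Fl Δ z B g ↔ ¬ Fl Δ z A g := by
    have h5 := Y18.excl (z := fun i => z (1 - i)) (b := n - b) (e := n - g) h16 hI (hz.refl 1) cA cB
      (off_refl 1 oA) (off_refl 1 oB) hd ht (fun i => by rw [fl_refl, fl_refl]; exact hf _)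
      (by rw [fl_refl]; simpa using hA)
      (by
        rw [fl_refl]
        intro h6
        exact hB ((hz.fl_congr ⟨-1, by ring⟩).1 h6))
      (by omega) (by omega) (by omega)
    rw [fl_refl, fl_refl] at h5
    rwa [hz.fl_congr (X := B) (i := 1 - (↑n - g) - 1) (j := g) ⟨-1, by ring⟩,
      hz.fl_congr (X := A) (i := 1 - (↑n - g) - 1) (j := g) ⟨-1, by ring⟩] at h5
  have hAb : Fl Δ z A b := (hf b).resolve_right hB
  have hB0 : Fl Δ z B 0 := (hf 0).resolve_left hA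
  constructor
  · intro h5
    by_contra h6
    have h7 := hg.2 h6
    have h8 : ¬ Fl Δ z B e := fun h => he.1 h h5
    refine Y18.four (a1 := 1) (a2 := e + 1) (a3 := b + 1) (a4 := g + 1) h14 hI hz cA cB oA oB hd ht
      (by omega) (by omega) (by omega) (by omega) ?_ ?_ ?_ ?_ ?_ ?_ ?_ ?_
    · rwa [add_sub_cancel_right]
    · rwa [add_sub_cancel_right]
    · rwa [add_sub_cancel_right]
    · simpa using hB0
    · rwa [add_sub_cancel_right]
    · rwa [add_sub_cancel_right]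
    · rwa [add_sub_cancel_right]
    · simpa using hA
  · intro h5
    by_contra h6
    have h7 := he.2 h6
    have h8 : ¬ Fl Δ z B g := fun h => hg.1 h h5
    have hn0 : ∀ X : Finset V, Fl Δ z X ((n : ℤ) + 1 - 1) ↔ Fl Δ z X 0 := by
      intro X
      exact hz.fl_congr ⟨1, by ring⟩
    refine Y18.four (a1 := e + 1) (a2 := b + 1) (a3 := g + 1) (a4 := n + 1) h14 hI hz cA cB oA oB hd
      ht (by omega) (by omega) (by omega) (by omega) ?_ ?_ ?_ ?_ ?_ ?_ ?_ ?_
    · rwa [add_sub_cancel_right]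
    · rwa [add_sub_cancel_right]
    · exact (hn0 B).2 hB0
    · rwa [add_sub_cancel_right]
    · rwa [add_sub_cancel_right]
    · rwa [add_sub_cancel_right]
    · exact fun h => hA ((hn0 A).1 h)
    · rwa [add_sub_cancel_right]

end Pool.Agent.Lib.MP_73b196_co.St
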