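import Pool.Agent.Lib.MP_73b196_co.St.SpecC

/-!
# Y19: all edges have the same type
-/

set_option autoImplicit false

namespace Pool.Agent.Lib.MP_73b196_co.St

/-- Two edges between `0` and `b`. -/
private theorem y19_side (h16 : StmtY16) (h17 : StmtY17) {V : Type} [Fintype V] [DecidableEq V]
    {Δ : Set (Finset V)} {n : ℕ} {z : ℤ → V} {A B : Finset V} {b e e' : ℤ} (hP : InP Δ)
    (hC : HC Δ n z) (hA : Conn Δ A) (hB : Conn Δ B) (oA : Off z A) (oB : Off z B)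
    (dAB : Disjoint A B) (tAB : touch Δ A B) (hall : ∀ i, Fl Δ z A i ∨ Fl Δ z B i)
    (nA : ¬ Fl Δ z A 0) (nB : ¬ Fl Δ z B b) (h1 : 0 < e) (h2 : e < b) (h1' : 0 < e')
    (h2' : e' < b) (h3 : b < n) :
    (Fl Δ z A e ↔ Fl Δ z A e') ∧ ¬ (Fl Δ z A e ∧ Fl Δ z B e) := by
  have hx : ¬ (Fl Δ z A e ∧ Fl Δ z B e) := by
    rintro ⟨f1, f2⟩
    rcases h16 V Δ n z A B b e hP hC hA hB oA oB dAB tAB hall nA nB h1 h2 h3 with
      ⟨g1, g2⟩ | ⟨g1, g2⟩
    · exact g1 e (by omega) le_rfl (f1.at hP.cx oA).1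
    · exact g1 (e + 1) le_rfl (by omega) (f2.at hP.cx oB).2
  refine ⟨?_, hx⟩
  rcases lt_trichotomy e e' with h | h | h
  · exact (h17 V Δ n z A B b e e' hP hC hA hB oA oB dAB tAB hall nA nB h1 h h2' h3).1
  · rw [h]
  · exact (h17 V Δ n z A B b e' e hP hC hA hB oA oB dAB tAB hall nA nB h1' h h2 h3).1.symm

theorem tY19 (h16 : StmtY16) (h17 : StmtY17) (h18 : StmtY18) : StmtY19 := by
  intro V _ _ Δ n z A B b e e' hP hC hA hB oA oB dAB tAB hall nA nB hb0 hbn h1 h2 h3 h1' h2' h3'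
  -- the reflected cycle
  have hC' := hC.refl 1
  have key : ∀ {X : Finset V} (i : ℤ), Fl Δ (fun i => z (1 - i)) X (n - i) ↔ Fl Δ z X i := by
    intro X i
    rw [fl_refl]
    exact hC.fl_congr ⟨-1, by ring⟩
  have hall' : ∀ i, Fl Δ (fun i => z (1 - i)) A i ∨ Fl Δ (fun i => z (1 - i)) B i := by
    intro i
    rw [fl_refl, fl_refl]
    exact hall _
  have nA' : ¬ Fl Δ (fun i => z (1 - i)) A 0 := by
    rw [fl_refl]
    exact nA
  have nB' : ¬ Fl Δ (fun i => z (1 - i)) B (n - b) := fun h => nB ((key b).1 h)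
  have right : ∀ {u v : ℤ}, b < u → u < n → b < v → v < n →
      (Fl Δ z A u ↔ Fl Δ z A v) ∧ ¬ (Fl Δ z A u ∧ Fl Δ z B u) := by
    intro u v g1 g2 g3 g4
    have := y19_side h16 h17 (e := n - u) (e' := n - v) hP hC' hA hB (off_refl 1 oA)
      (off_refl 1 oB) dAB tAB hall' nA' nB' (by omega) (by omega) (by omega) (by omega) (by omega)
    rwa [key, key, key] at this
  rcases lt_or_gt_of_ne h3 with g | g <;> rcases lt_or_gt_of_ne h3' with g' | g'
  · exact y19_side h16 h17 hP hC hA hB oA oB dAB tAB hall nA nB h1 g h1' g' hbn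
  · exact ⟨h18 V Δ n z A B b e e' hP hC hA hB oA oB dAB tAB hall nA nB h1 g g' h2',
      (y19_side h16 h17 hP hC hA hB oA oB dAB tAB hall nA nB h1 g h1 g hbn).2⟩
  · exact ⟨(h18 V Δ n z A B b e' e hP hC hA hB oA oB dAB tAB hall nA nB h1' g' g h2).symm,
      (right g h2 g h2).2⟩
  · exact right g h2 g' h2'

end Pool.Agent.Lib.MP_73b196_co.St
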