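import Pool.Agent.Lib.MP_73b196_co.St.SpecC

/-!
# The attachments form an interval
-/

set_option autoImplicit false

namespace Pool.Agent.Lib.MP_73b196_co.St

theorem Y2_sub {n i j i' j' : ℤ} (hi : n ∣ i - i') (hj : n ∣ j - j') (h1 : i < j) (h2 : j < i + n) :
    i' ≠ j' := by
  rintro rfl
  have h3 : n ∣ (j - i') - (i - i') := dvd_sub hj hi
  have e : (j - i') - (i - i') = j - i := by ring
  rw [e] at h3
  have h4 := Int.le_of_dvd (by omega) h3
  omega

theorem tY2 (h1 : StmtY1) : StmtY2 := by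
  intro V _ _ Δ n z X e hP h hX hoff hat hne
  classical
  have hn3 := h.pos
  obtain ⟨i, j, k, hij, hjk, hki, hi, hj, hk⟩ := hat
  obtain ⟨i', hi1, hi2, hi3, hi4⟩ := h.at_window (e + 1) hi
  obtain ⟨j', hj1, hj2, hj3, hj4⟩ := h.at_window (e + 1) hj
  obtain ⟨k', hk1, hk2, hk3, hk4⟩ := h.at_window (e + 1) hk
  have nij : i' ≠ j' := Y2_sub hi4 hj4 hij (by omega)
  have njk : j' ≠ k' := Y2_sub hj4 hk4 hjk (by omega)
  have nik : i' ≠ k' := Y2_sub hi4 hk4 (by omega) hki
  set W : Finset ℤ := (Finset.Ioc e (e + n)).filter (fun t => At Δ z X t) with hW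
  have hmem : ∀ t, t ∈ W ↔ (e < t ∧ t ≤ e + n) ∧ At Δ z X t := by
    intro t
    rw [hW, Finset.mem_filter, Finset.mem_Ioc]
  have hiW : i' ∈ W := (hmem _).2 ⟨⟨by omega, by omega⟩, hi3⟩
  have hjW : j' ∈ W := (hmem _).2 ⟨⟨by omega, by omega⟩, hj3⟩
  have hkW : k' ∈ W := (hmem _).2 ⟨⟨by omega, by omega⟩, hk3⟩
  have hWne : W.Nonempty := ⟨i', hiW⟩
  obtain ⟨a, ha, hamin⟩ := W.exists_min_image id hWne
  obtain ⟨b, hb, hbmax⟩ := W.exists_max_image id hWne
  simp only [id] at hamin hbmax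
  obtain ⟨⟨ha1, ha2⟩, ha3⟩ := (hmem a).1 ha
  obtain ⟨⟨hb1, hb2⟩, hb3⟩ := (hmem b).1 hb
  obtain ⟨m, hm1, hm2, hm3⟩ : ∃ m, a < m ∧ m < b ∧ At Δ z X m := by
    have a1 := hamin i' hiW
    have a2 := hamin j' hjW
    have a3 := hamin k' hkW
    have b1 := hbmax i' hiW
    have b2 := hbmax j' hjW
    have b3 := hbmax k' hkW
    by_cases c1 : i' = a
    · by_cases c2 : j' = b
      · exact ⟨k', by omega, by omega, hk3⟩
      · exact ⟨j', by omega, by omega, hj3⟩
    · by_cases c2 : i' = b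
      · by_cases c3 : j' = a
        · exact ⟨k', by omega, by omega, hk3⟩
        · exact ⟨j', by omega, by omega, hj3⟩
      · exact ⟨i', by omega, by omega, hi3⟩
  refine ⟨a, b, ha1, by omega, hb2, ?_, ?_, ?_⟩
  · intro t hat hbt
    by_contra hf
    rcases le_or_gt m t with hmt | hmt
    · have h2 := (h1 V Δ n z X (e + 1) m (t + 1) hP h hX hoff (by omega) (by omega) (by omega)
        ⟨a, by omega, by omega, ha3⟩ ⟨m, by omega, by omega, hm3⟩ ⟨b, by omega, by omega, hb3⟩).2.1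
      rw [add_sub_cancel_right, add_sub_cancel_right] at h2
      rcases h2 with h2 | h2
      · exact hne h2
      · exact hf h2
    · have h2 := (h1 V Δ n z X (e + 1) (t + 1) (m + 1) hP h hX hoff (by omega) (by omega)
        (by omega) ⟨a, by omega, by omega, ha3⟩ ⟨m, by omega, by omega, hm3⟩
        ⟨b, by omega, by omega, hb3⟩).1
      rw [add_sub_cancel_right, add_sub_cancel_right] at h2
      rcases h2 with h2 | h2
      · exact hne h2
      · exact hf h2
  · intro t ht1 ht2 ht3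
    have := hamin t ((hmem t).2 ⟨⟨ht1, by omega⟩, ht3⟩)
    omega
  · intro t ht1 ht2 ht3
    have := hbmax t ((hmem t).2 ⟨⟨by omega, ht2⟩, ht3⟩)
    omega

end Pool.Agent.Lib.MP_73b196_co.St
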