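import Pool.Agent.Lib.MP_73b196_co.St.SpecC

/-!
# Y20: the pattern lemma
-/

set_option autoImplicit false

namespace Pool.Agent.Lib.MP_73b196_co.St

theorem Y20_zero (h2 : StmtY2) (h19 : StmtY19) (V : Type) [Fintype V] [DecidableEq V]
    (Δ : Set (Finset V)) (n : ℕ) (z : ℤ → V) (A B : Finset V) (b : ℤ) (hP : InP Δ)
    (h : HC Δ n z) (cA : Conn Δ A) (cB : Conn Δ B) (oA : Off z A) (oB : Off z B)
    (hd : Disjoint A B) (ht : touch Δ A B) (hc : ∀ i, Fl Δ z A i ∨ Fl Δ z B i)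
    (hA : ¬ Fl Δ z A 0) (hb0 : 0 < b) (hbn : b < n) (hB : ¬ Fl Δ z B b) :
    ∃ k, (Sm Δ n z A k ∧ Bg Δ n z B k) ∨ (Sm Δ n z B k ∧ Bg Δ n z A k) := by
  have h3 := h.pos
  have fA : Fl Δ z A b := (hc b).resolve_right hB
  have fB : Fl Δ z B 0 := (hc 0).resolve_left hA
  obtain ⟨e, he0, hen, heb⟩ : ∃ e : ℤ, 0 < e ∧ e < n ∧ e ≠ b := by
    by_cases h4 : b = 1
    · exact ⟨2, by omega, by omega, by omega⟩
    · exact ⟨1, by omega, by omega, fun h5 => h4 h5.symm⟩
  have key : ∀ i : ℤ, 0 < i → i < n → i ≠ b →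
      (Fl Δ z A e ↔ Fl Δ z A i) ∧ ¬ (Fl Δ z A i ∧ Fl Δ z B i) := by
    intro i h5 h6 h7
    refine ⟨(h19 V Δ n z A B b e i hP h cA cB oA oB hd ht hc hA hB hb0 hbn he0 hen heb
      h5 h6 h7).1, ?_⟩
    exact (h19 V Δ n z A B b i e hP h cA cB oA oB hd ht hc hA hB hb0 hbn h5 h6 h7
      he0 hen heb).2
  by_cases hAe : Fl Δ z A e
  · -- all other edges are filled by `A` only
    have kA : ∀ i : ℤ, 0 < i → i < n → i ≠ b → Fl Δ z A i ∧ ¬ Fl Δ z B i := by
      intro i h5 h6 h7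
      have h8 := key i h5 h6 h7
      have h9 := h8.1.1 hAe
      exact ⟨h9, fun h10 => h8.2 ⟨h9, h10⟩⟩
    refine ⟨0, Or.inr ⟨⟨fB, ?_⟩, hA, ?_⟩⟩
    · intro i h5 h6 h7
      have t3 : At3 Δ n z B := ⟨0, 1, i, by omega, by omega, by omega,
        (Fl.at hP.cx oB fB).1, (Fl.at hP.cx oB fB).2, h7⟩
      obtain ⟨a', b', g1, g2, g3, g4, _, _⟩ := h2 V Δ n z B b hP h cB oB t3 hB
      have only : ∀ j : ℤ, b < j → j < b + n → Fl Δ z B j → j = n := by
        intro j h8 h9 h10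
        rcases lt_trichotomy j n with h11 | h11 | h11
        · exact absurd h10 (kA j (by omega) h11 (by omega)).2
        · exact h11
        · have h12 := (h.fl_congr (X := B) (i := j) (j := j - n) ⟨1, by ring⟩).1 h10
          exact absurd h12 (kA (j - n) (by omega) (by omega) (by omega)).2
      have e1 := only a' g1 (by omega) (g4 a' le_rfl (by omega))
      have e2 := only (a' + 1) (by omega) (by omega) (g4 (a' + 1) (by omega) (by omega))
      omega
    · intro i h5 h6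
      by_cases h7 : i = b
      · rw [h7]
        exact fA
      · exact (kA i h5 (by omega) h7).1
  · -- all other edges are filled by `B` only
    have kB : ∀ i : ℤ, 0 < i → i < n → i ≠ b → ¬ Fl Δ z A i ∧ Fl Δ z B i := by
      intro i h5 h6 h7
      have h8 := key i h5 h6 h7
      have h9 : ¬ Fl Δ z A i := fun h10 => hAe (h8.1.2 h10)
      exact ⟨h9, (hc i).resolve_left h9⟩
    refine ⟨b, Or.inl ⟨⟨fA, ?_⟩, hB, ?_⟩⟩
    · intro i h5 h6 h7
      have t3 : At3 Δ n z A := ⟨b, b + 1, i, by omega, by omega, by omega,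
        (Fl.at hP.cx oA fA).1, (Fl.at hP.cx oA fA).2, h7⟩
      obtain ⟨a', b', g1, g2, g3, g4, _, _⟩ := h2 V Δ n z A 0 hP h cA oA t3 hA
      have only : ∀ j : ℤ, 0 < j → j < n → Fl Δ z A j → j = b := by
        intro j h8 h9 h10
        by_contra h11
        exact (kB j h8 h9 h11).1 h10
      have e1 := only a' g1 (by omega) (g4 a' le_rfl (by omega))
      have e2 := only (a' + 1) (by omega) (by omega) (g4 (a' + 1) (by omega) (by omega))
      omega
    · intro i h5 h6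
      rcases lt_trichotomy i n with h7 | h7 | h7
      · exact (kB i (by omega) h7 (by omega)).2
      · exact (h.fl_congr (X := B) (i := i) (j := 0) ⟨1, by omega⟩).2 fB
      · exact (h.fl_congr (X := B) (i := i) (j := i - n) ⟨1, by ring⟩).2
          (kB (i - n) (by omega) (by omega) (by omega)).2

theorem tY20 (h2 : StmtY2) (h19 : StmtY19) : StmtY20 := by
  intro V _ _ Δ n z A B hP h cA cB oA oB hd ht hc hA hB
  obtain ⟨m, hm⟩ := not_forall.1 hA
  obtain ⟨l, hl⟩ := not_forall.1 hB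
  have hne : ¬ (n : ℤ) ∣ l - m := by
    intro hdv
    rcases hc m with h4 | h4
    · exact hm h4
    · exact hl ((h.fl_congr hdv).2 h4)
  obtain ⟨j, h5, h6, h7⟩ := h.strict_window m l hne
  have hc' : ∀ i, Fl Δ (fun i => z (i + m)) A i ∨ Fl Δ (fun i => z (i + m)) B i := by
    intro i
    rw [fl_shift, fl_shift]
    exact hc _
  have hA' : ¬ Fl Δ (fun i => z (i + m)) A 0 := by
    rw [fl_shift, zero_add]
    exact hm
  have hB' : ¬ Fl Δ (fun i => z (i + m)) B (j - m) := by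
    rw [fl_shift, sub_add_cancel]
    exact fun h8 => hl ((h.fl_congr h7).2 h8)
  obtain ⟨k, hk⟩ := Y20_zero h2 h19 V Δ n (fun i => z (i + m)) A B (j - m) hP (h.shift m) cA cB
    (off_shift m oA) (off_shift m oB) hd ht hc' hA' (by omega) (by omega) hB'
  rw [sm_shift, bg_shift, sm_shift, bg_shift] at hk
  exact ⟨k + m, hk⟩

end Pool.Agent.Lib.MP_73b196_co.St
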