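import Pool.Agent.Lib.MP_73b196_co.St.SpecC

/-!
# Y21: the complement of the pattern lemma
-/

set_option autoImplicit false

namespace Pool.Agent.Lib.MP_73b196_co.St

section
variable {V : Type} [DecidableEq V] {Δ : Set (Finset V)} {A B C D F : Finset V} {a b c d : V}

theorem Y21_intro (hF : F ∈ Δ) (ha : a ∈ F) (hA : a ∈ A) (hb : b ∈ F) (hB : b ∈ B) (hc : c ∈ F)
    (hC : c ∈ C) : fill Δ [A, B, C] := by
  refine ⟨F, hF, fun X hX => ?_⟩
  simp only [List.mem_cons, List.not_mem_nil, or_false] at hX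
  rcases hX with rfl | rfl | rfl
  · exact ⟨a, Finset.mem_inter.2 ⟨ha, hA⟩⟩
  · exact ⟨b, Finset.mem_inter.2 ⟨hb, hB⟩⟩
  · exact ⟨c, Finset.mem_inter.2 ⟨hc, hC⟩⟩

theorem Y21_elim (h : fill Δ [A, B, C]) : ∃ F ∈ Δ, (∃ a ∈ F, a ∈ A) ∧ (∃ b ∈ F, b ∈ B) ∧
    ∃ c ∈ F, c ∈ C := by
  obtain ⟨F, hF, hm⟩ := h
  obtain ⟨x, hx⟩ := hm A (by simp)
  obtain ⟨y, hy⟩ := hm B (by simp)
  obtain ⟨w, hw⟩ := hm C (by simp)
  rw [Finset.mem_inter] at hx hy hw
  exact ⟨F, hF, ⟨x, hx⟩, ⟨y, hy⟩, ⟨w, hw⟩⟩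

theorem Y21_elim4 (h : fill Δ [A, B, C, D]) : ∃ F ∈ Δ, (∃ a ∈ F, a ∈ A) ∧ (∃ b ∈ F, b ∈ B) ∧
    (∃ c ∈ F, c ∈ C) ∧ ∃ d ∈ F, d ∈ D := by
  obtain ⟨F, hF, hm⟩ := h
  obtain ⟨x, hx⟩ := hm A (by simp)
  obtain ⟨y, hy⟩ := hm B (by simp)
  obtain ⟨w, hw⟩ := hm C (by simp)
  obtain ⟨u, hu⟩ := hm D (by simp)
  rw [Finset.mem_inter] at hx hy hw hu
  exact ⟨F, hF, ⟨x, hx⟩, ⟨y, hy⟩, ⟨w, hw⟩, ⟨u, hu⟩⟩

end

theorem tY21 : StmtY21 := by
  intro V _ _ Δ n z A B k hP h cA cB oA oB hd ht hs hb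
  have h3 := h.pos
  have aA : At Δ z A k ∧ At Δ z A (k + 1) := Fl.at hP.cx oA hs.1
  have aB : ∀ i, At Δ z B i := h.bg_at hP.cx oB hb
  have ek : z (k + n) = z k := h.eq_add k
  have hzk : Conn Δ {z k} := conn_single (h.mem_vs hP.cx k)
  have hzk1 : Conn Δ {z (k + 1)} := conn_single (h.mem_vs hP.cx (k + 1))
  have dj : ∀ (X : Finset V) (i : ℤ), Off z X → Disjoint X {z i} := by
    intro X i hX
    rw [Finset.disjoint_singleton_right]
    exact hX i
  constructor
  · have hm : CM Δ [B, {z k}, {z (k + 1)}, A] := by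
      refine ⟨?_, ?_⟩
      · intro X hX
        simp only [List.mem_cons, List.not_mem_nil, or_false] at hX
        rcases hX with rfl | rfl | rfl | rfl
        · exact cB
        · exact hzk
        · exact hzk1
        · exact cA
      · simp only [List.pairwise_cons, List.mem_cons, List.not_mem_nil, or_false,
          List.Pairwise.nil, and_true, IsEmpty.forall_iff, implies_true, forall_eq_or_imp,
          forall_eq]
        refine ⟨⟨⟨dj B k oB, aB k⟩, ⟨dj B (k + 1) oB, aB (k + 1)⟩, hd.symm, touch_symm ht⟩,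
          ⟨⟨?_, touch_single.2 (h.adj_succ k)⟩, (dj A k oA).symm, touch_symm aA.1⟩,
          (dj A (k + 1) oA).symm, touch_symm aA.2⟩
        rw [Finset.disjoint_singleton]
        exact h.ne_of (by omega) (by omega)
    rcases hP.k4 _ _ _ _ hm with h4 | h4 | h4
    · exact absurd h4 hb.1
    · exact Or.inl (Rules_sub h4 (by simp))
    · exact Or.inr (Rules_sub h4 (by simp))
  · rintro ⟨f1, f2⟩
    have hkR : z k ∈ arc z (k + 2) (k + n + 1) := by
      rw [← ek]
      exact mem_arc_of (by omega) (by omega)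
    have hm : CM Δ [arc z (k + 2) (k + n + 1), A, B, {z (k + 1)}] := by
      refine ⟨?_, ?_⟩
      · intro X hX
        simp only [List.mem_cons, List.not_mem_nil, or_false] at hX
        rcases hX with rfl | rfl | rfl | rfl
        · exact h.arc_conn hP.cx (by omega)
        · exact cA
        · exact cB
        · exact hzk1
      · simp only [List.pairwise_cons, List.mem_cons, List.not_mem_nil, or_false,
          List.Pairwise.nil, and_true, IsEmpty.forall_iff, implies_true, forall_eq_or_imp,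
          forall_eq]
        refine ⟨⟨⟨oA.disj.symm, ?_⟩, ⟨oB.disj.symm, ?_⟩, ?_, ?_⟩, ⟨⟨hd, ht⟩,
          dj A (k + 1) oA, aA.2⟩, dj B (k + 1) oB, aB (k + 1)⟩
        · exact touch_mono (Finset.singleton_subset_iff.2 hkR) (Finset.Subset.refl _)
            (touch_symm aA.1)
        · exact touch_mono (Finset.singleton_subset_iff.2 hkR) (Finset.Subset.refl _)
            (touch_symm (aB k))
        · have h5 := h.arc_disj (a := k + 1) (b := k + 1 + 1) (c := k + 2) (d := k + n + 1)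
            (by omega) (by omega)
          rw [arc_single] at h5
          exact h5.symm
        · have h5 := h.arc_touch (a := k + 1) (b := k + 1 + 1) (c := k + n + 1)
            (by omega) (by omega)
          rw [arc_single] at h5
          have e : k + 1 + 1 = k + 2 := by ring
          rw [e] at h5
          exact touch_symm h5
    have g1 : fill Δ [arc z (k + 2) (k + n + 1), A, B] := by
      obtain ⟨F, hF, ⟨x, hx, hx'⟩, ⟨y, hy, hy'⟩, ⟨w, hw, hw'⟩⟩ := Y21_elim f1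
      rw [Finset.mem_singleton] at hw'
      exact Y21_intro hF hw (hw' ▸ hkR) hx hx' hy hy'
    have g2 : fill Δ [arc z (k + 2) (k + n + 1), A, {z (k + 1)}] := by
      obtain ⟨F, hF, ⟨x, hx, hx'⟩, ⟨y, hy, hy'⟩, ⟨w, hw, hw'⟩⟩ := Y21_elim hs.1
      rw [Finset.mem_singleton] at hy'
      exact Y21_intro hF hy (hy' ▸ hkR) hx hx' hw hw'
    have g3 : fill Δ [arc z (k + 2) (k + n + 1), B, {z (k + 1)}] := by
      obtain ⟨F, hF, ⟨x, hx, hx'⟩, ⟨y, hy, hy'⟩, ⟨w, hw, hw'⟩⟩ :=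
        Y21_elim (hb.2 (k + 1) (by omega) (by omega))
      rw [Finset.mem_singleton] at hw'
      refine Y21_intro hF hw ?_ hx hx' hy hy'
      rw [hw']
      exact mem_arc_of (by omega) (by omega)
    obtain ⟨F, hF, ⟨x, hx, hx'⟩, ⟨y, hy, hy'⟩, ⟨w, hw, hw'⟩, ⟨u, hu, hu'⟩⟩ :=
      Y21_elim4 (hP.k4all hm g1 g2 g3 f2)
    obtain ⟨j, h5, h6, rfl⟩ := mem_arc.1 hx'
    rw [Finset.mem_singleton] at hu'
    subst hu'
    have h7 : At Δ z A j := ⟨y, hy', z j, Finset.mem_singleton_self _,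
      hP.cx.adj_of_face hF hy hx (oA.ne hy')⟩
    have h8 : j = k + n := by
      by_contra h9
      exact hs.2 j (by omega) (by omega) h7
    subst h8
    rw [ek] at hx
    exact hb.1 (fl_of_face hF hw hw' hx hu)

end Pool.Agent.Lib.MP_73b196_co.St
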