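import Pool.Agent.Lib.MP_73b196_co.St.SpecC

/-!
# Y22: a path
-/

set_option autoImplicit false

namespace Pool.Agent.Lib.MP_73b196_co.St

theorem tY22 : StmtY22 := by
  classical
  intro V _ _ Δ W E w hc cW cE hEW hwW hwE hEw
  -- the closed neighbourhood of `w` in `W`
  obtain ⟨N, hN⟩ : ∃ N : Finset V, ∀ v, v ∈ N ↔ v ∈ W ∧ (v = w ∨ adj Δ v w) :=
    ⟨W.filter fun v => v = w ∨ adj Δ v w, fun v => by rw [Finset.mem_filter]⟩
  have hNW : N ⊆ W := fun v hv => ((hN v).1 hv).1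
  have hwN : w ∈ N := (hN w).2 ⟨hwW, Or.inl rfl⟩
  have hEN : E ⊆ W \ N := by
    intro v hv
    rw [Finset.mem_sdiff]
    refine ⟨hEW hv, fun hv' => ?_⟩
    rcases ((hN v).1 hv').2 with h1 | h1
    · exact hwE (h1 ▸ hv)
    · exact hEw ⟨v, hv, w, Finset.mem_singleton_self _, h1⟩
  obtain ⟨e, he⟩ := cE.2.1
  obtain ⟨C, hC, heC⟩ := exists_comp (Finset.sdiff_subset.trans cW.1) (hEN he)
  have hEC : E ⊆ C := hC.sub_of_conn cE hEN ⟨e, Finset.mem_inter.2 ⟨he, heC⟩⟩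
  obtain ⟨c, hcC, q, hq, hcq⟩ := cW.comp_touch hNW ⟨w, hwN⟩ hC
  have hCN : ∀ v ∈ C, v ∉ N := fun v hv => (Finset.mem_sdiff.1 (hC.1 hv)).2
  have hCW : C ⊆ W := hC.1.trans Finset.sdiff_subset
  have hqw : q ≠ w := by
    intro h1
    rw [h1] at hcq
    exact hCN c hcC ((hN c).2 ⟨hCW hcC, Or.inr hcq⟩)
  have hqC : q ∉ C := fun h1 => hCN q h1 hq
  have hadj : adj Δ q w := (((hN q).1 hq).2).resolve_left hqw
  refine ⟨q, hNW hq, hqw, fun h1 => hqC (hEC h1), hadj, ?_⟩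
  by_cases hqE : touch Δ {q} E
  · exact Or.inl hqE
  refine Or.inr ⟨hqE, ?_⟩
  have hcE : c ∉ E := fun h1 => hqE ⟨q, Finset.mem_singleton_self _, c, h1, adj_symm hcq⟩
  obtain ⟨Q, hQ, hcQ⟩ := exists_comp (U := C \ E) (Finset.sdiff_subset.trans hC.2.1.1)
    (Finset.mem_sdiff.2 ⟨hcC, hcE⟩)
  have hQC : Q ⊆ C := hQ.1.trans Finset.sdiff_subset
  refine ⟨Q, hQ.2.1, ?_, ?_, ?_, hC.2.1.comp_touch hEC cE.2.1 hQ, ?_, ?_⟩
  · intro v hv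
    rw [Finset.mem_sdiff]
    exact ⟨hCW (hQC hv), (Finset.mem_sdiff.1 (hQ.1 hv)).2⟩
  · exact fun h1 => hCN w (hQC h1) hwN
  · exact fun h1 => hqC (hQC h1)
  · exact ⟨c, hcQ, q, Finset.mem_singleton_self _, hcq⟩
  · rintro ⟨v, hv, v', hv', hvv⟩
    rw [Finset.mem_singleton] at hv'
    rw [hv'] at hvv
    exact hCN v (hQC hv) ((hN v).2 ⟨hCW (hQC hv), Or.inr hvv⟩)

end Pool.Agent.Lib.MP_73b196_co.St
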