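import Pool.Agent.Lib.MP_73b196_co.St.SpecC

/-!
# Y23: the big case for a hollow triangle
-/

set_option autoImplicit false

namespace Pool.Agent.Lib.MP_73b196_co.St

section Y23

variable {V : Type} [Fintype V] [DecidableEq V] {Δ : Set (Finset V)} {A B C D E F Q : Finset V}
  {u v w t : V}

omit [Fintype V] in
theorem Y23_fill3 (hc : IsCx Δ) : fill Δ [A, B, C] ↔
    ∃ a ∈ A, ∃ b ∈ B, ∃ c ∈ C, ({a, b, c} : Finset V) ∈ Δ := by
  constructor
  · rintro ⟨F, hF, hm⟩
    obtain ⟨a, ha⟩ := hm A (by simp)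
    obtain ⟨b, hb⟩ := hm B (by simp)
    obtain ⟨c, hcc⟩ := hm C (by simp)
    rw [Finset.mem_inter] at ha hb hcc
    refine ⟨a, ha.2, b, hb.2, c, hcc.2, hc.down F hF _ ?_⟩
    intro x hx
    simp only [Finset.mem_insert, Finset.mem_singleton] at hx
    rcases hx with rfl | rfl | rfl
    · exact ha.1
    · exact hb.1
    · exact hcc.1
  · rintro ⟨a, ha, b, hb, c, hcc, hF⟩
    refine ⟨_, hF, fun X hX => ?_⟩
    simp only [List.mem_cons, List.not_mem_nil, or_false] at hX
    rcases hX with rfl | rfl | rfl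
    · exact ⟨a, by simp [ha]⟩
    · exact ⟨b, by simp [hb]⟩
    · exact ⟨c, by simp [hcc]⟩

omit [Fintype V] in
theorem Y23_fill4 (hc : IsCx Δ) (h : fill Δ [A, B, C, D]) :
    ∃ a ∈ A, ∃ b ∈ B, ∃ c ∈ C, ∃ d ∈ D, ({a, b, c, d} : Finset V) ∈ Δ := by
  obtain ⟨F, hF, hm⟩ := h
  obtain ⟨a, ha⟩ := hm A (by simp)
  obtain ⟨b, hb⟩ := hm B (by simp)
  obtain ⟨c, hcc⟩ := hm C (by simp)
  obtain ⟨d, hd⟩ := hm D (by simp)
  rw [Finset.mem_inter] at ha hb hcc hd
  refine ⟨a, ha.2, b, hb.2, c, hcc.2, d, hd.2, hc.down F hF _ ?_⟩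
  intro x hx
  simp only [Finset.mem_insert, Finset.mem_singleton] at hx
  rcases hx with rfl | rfl | rfl | rfl
  · exact ha.1
  · exact hb.1
  · exact hcc.1
  · exact hd.1

theorem Y23_cm4 (hA : Conn Δ A) (hB : Conn Δ B) (hC : Conn Δ C) (hD : Conn Δ D)
    (hAB : Disjoint A B ∧ touch Δ A B) (hAC : Disjoint A C ∧ touch Δ A C)
    (hAD : Disjoint A D ∧ touch Δ A D) (hBC : Disjoint B C ∧ touch Δ B C)
    (hBD : Disjoint B D ∧ touch Δ B D) (hCD : Disjoint C D ∧ touch Δ C D) :
    CM Δ [A, B, C, D] := by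
  refine ⟨?_, ?_⟩
  · intro X hX
    simp only [List.mem_cons, List.not_mem_nil, or_false] at hX
    rcases hX with rfl | rfl | rfl | rfl <;> assumption
  · simp only [List.pairwise_cons, List.mem_cons, List.not_mem_nil, or_false, List.Pairwise.nil,
      and_true, IsEmpty.forall_iff, implies_true, forall_eq_or_imp, forall_eq]
    exact ⟨⟨hAB, hAC, hAD⟩, ⟨hBC, hBD⟩, hCD⟩

theorem Y23_cm5 (hA : Conn Δ A) (hB : Conn Δ B) (hC : Conn Δ C) (hD : Conn Δ D) (hE : Conn Δ E)
    (hAB : Disjoint A B ∧ touch Δ A B) (hAC : Disjoint A C ∧ touch Δ A C)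
    (hAD : Disjoint A D ∧ touch Δ A D) (hAE : Disjoint A E ∧ touch Δ A E)
    (hBC : Disjoint B C ∧ touch Δ B C) (hBD : Disjoint B D ∧ touch Δ B D)
    (hBE : Disjoint B E ∧ touch Δ B E) (hCD : Disjoint C D ∧ touch Δ C D)
    (hCE : Disjoint C E ∧ touch Δ C E) (hDE : Disjoint D E ∧ touch Δ D E) :
    CM Δ [A, B, C, D, E] := by
  refine ⟨?_, ?_⟩
  · intro X hX
    simp only [List.mem_cons, List.not_mem_nil, or_false] at hX
    rcases hX with rfl | rfl | rfl | rfl | rfl <;> assumption
  · simp only [List.pairwise_cons, List.mem_cons, List.not_mem_nil, or_false, List.Pairwise.nil,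
      and_true, IsEmpty.forall_iff, implies_true, forall_eq_or_imp, forall_eq]
    exact ⟨⟨hAB, hAC, hAD, hAE⟩, ⟨hBC, hBD, hBE⟩, ⟨hCD, hCE⟩, hDE⟩

/-- The standing situation of Y23. -/
structure Y23_S (Δ : Set (Finset V)) (u v w t : V) (E : Finset V) : Prop where
  inP : InP Δ
  uv : adj Δ u v
  uw : adj Δ u w
  vw : adj Δ v w
  huvw : ({u, v, w} : Finset V) ∉ Δ
  tw : adj Δ t w
  tu : adj Δ t u
  tv : adj Δ t v
  htuw : ({t, u, w} : Finset V) ∈ Δ
  htvw : ({t, v, w} : Finset V) ∈ Δ
  htuv : ({t, u, v} : Finset V) ∉ Δ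
  cE : Conn Δ E
  uE : u ∉ E
  vE : v ∉ E
  wE : w ∉ E
  tE : t ∉ E
  Et : touch Δ E {t}
  Euv : fill Δ [E, {u}, {v}]
  Ew : ¬ touch Δ E {w}
  Etv : fill Δ [E, {t}, {v}]
  Etu : ¬ fill Δ [E, {t}, {u}]

omit [Fintype V] in
theorem Y23_swap12 (h : fill Δ [A, B, C]) : fill Δ [B, A, C] := Rules_sub h (by simp)

omit [Fintype V] in
theorem Y23_rot (h : fill Δ [A, B, C]) : fill Δ [B, C, A] := Rules_sub h (by simp)

theorem Y23_touch (hc : IsCx Δ) (hd : Disjoint A B) (h : fill Δ [A, B, C]) : touch Δ A B :=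
  (hc.touch_iff_fill hd).2 (Rules_sub h (by simp))

theorem Y23_touch' (hc : IsCx Δ) (hd : Disjoint A C) (h : fill Δ [A, B, C]) : touch Δ A C :=
  (hc.touch_iff_fill hd).2 (Rules_sub h (by simp))

omit [Fintype V] [DecidableEq V] in
theorem Y23_dis (h : u ∉ E) : Disjoint ({u} : Finset V) E := Finset.disjoint_singleton_left.2 h

/-- The K5 models (1) and (2). -/
theorem Y23_main (h : Y23_S Δ u v w t E) (cQ : Conn Δ Q) (dQE : Disjoint Q E) (uQ : u ∉ Q)
    (vQ : v ∉ Q) (wQ : w ∉ Q) (tQ : t ∉ Q) (QE : touch Δ Q E) (Qw : touch Δ Q {w}) :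
    fill Δ [Q, E, {u}] ∧ fill Δ [Q, E, {v}] ∧ fill Δ [Q, E, {t}] ∧ fill Δ [Q, {u}, {v}] ∧
      fill Δ [{w}, Q, {u}] ∧ fill Δ [{w}, Q, {v}] ∧ fill Δ [{w}, Q, {t}] ∧
      fill Δ [Q, {t}, {u}] := by
  have hc := h.inP.cx
  have mu := (hc.adj_vs h.uv).1
  have mv := (hc.adj_vs h.uv).2
  have mw := (hc.adj_vs h.uw).2
  have mt := (hc.adj_vs h.tw).1
  have cu := conn_single mu
  have cv := conn_single mv
  have cw := conn_single mw
  have ct := conn_single mt
  have huv : u ≠ v := h.uv.1
  have huw : u ≠ w := h.uw.1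
  have hvw : v ≠ w := h.vw.1
  have htw : t ≠ w := h.tw.1
  have htu : t ≠ u := h.tu.1
  have htv : t ≠ v := h.tv.1
  have tEu : touch Δ E {u} := Y23_touch hc (Y23_dis h.uE).symm h.Euv
  have tEv : touch Δ E {v} := Y23_touch' hc (Y23_dis h.vE).symm h.Euv
  -- no face through E and w
  have noEw : ∀ a b c : V, a ∈ E → b = w ∨ c = w → ({a, b, c} : Finset V) ∉ Δ := by
    intro a b c ha hbc hF
    have hne : a ≠ w := fun e => h.wE (e ▸ ha)
    refine h.Ew ⟨a, ha, w, Finset.mem_singleton_self _, hc.adj_of_face hF (by simp) ?_ hne⟩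
    rcases hbc with rfl | rfl <;> simp
  have cQw : Conn Δ (Q ∪ {w}) := cQ.union cw (Or.inl Qw)
  have dQw : ∀ x : V, x ∉ Q → x ≠ w → Disjoint (Q ∪ {w}) ({x} : Finset V) := by
    intro x hx hxw
    rw [Finset.disjoint_singleton_right, Finset.mem_union, Finset.mem_singleton]
    push Not
    exact ⟨hx, hxw⟩
  have dQwE : Disjoint (Q ∪ {w}) E := by
    rw [Finset.disjoint_union_left]
    exact ⟨dQE, Finset.disjoint_singleton_left.2 h.wE⟩
  have tw' : ∀ x : V, adj Δ x w → touch Δ (Q ∪ {w}) ({x} : Finset V) := by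
    intro x hx
    exact ⟨w, by simp, x, by simp, adj_symm hx⟩
  have tQwE : touch Δ (Q ∪ {w}) E := touch_mono Finset.subset_union_left (Finset.Subset.refl _) QE
  have P : ∀ a b : V, adj Δ a b → Disjoint ({a} : Finset V) {b} ∧ touch Δ ({a} : Finset V) {b} := by
    intro a b hab
    exact ⟨Finset.disjoint_singleton.2 hab.1, touch_single.2 hab⟩
  -- the first family
  have PQu : Disjoint ({u} : Finset V) (Q ∪ {w}) ∧ touch Δ {u} (Q ∪ {w}) :=
    ⟨(dQw u uQ huw).symm, touch_symm (tw' u h.uw)⟩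
  have PQv : Disjoint ({v} : Finset V) (Q ∪ {w}) ∧ touch Δ {v} (Q ∪ {w}) :=
    ⟨(dQw v vQ hvw).symm, touch_symm (tw' v h.vw)⟩
  have PQt : Disjoint ({t} : Finset V) (Q ∪ {w}) ∧ touch Δ {t} (Q ∪ {w}) :=
    ⟨(dQw t tQ htw).symm, touch_symm (tw' t h.tw)⟩
  have Pu : Disjoint ({u} : Finset V) E ∧ touch Δ {u} E := ⟨Y23_dis h.uE, touch_symm tEu⟩
  have Pv : Disjoint ({v} : Finset V) E ∧ touch Δ {v} E := ⟨Y23_dis h.vE, touch_symm tEv⟩
  have Pt : Disjoint ({t} : Finset V) E ∧ touch Δ {t} E := ⟨Y23_dis h.tE, touch_symm h.Et⟩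
  have PQE : Disjoint (Q ∪ {w}) E ∧ touch Δ (Q ∪ {w}) E := ⟨dQwE, tQwE⟩
  -- extraction
  have ext1 : ∀ x : V, fill Δ [{x}, Q ∪ {w}, E] → fill Δ [Q, E, {x}] := by
    intro x hx
    obtain ⟨a, ha, b, hb, c, hcE, hF⟩ := (Y23_fill3 hc).1 hx
    rw [Finset.mem_union, Finset.mem_singleton] at hb
    rcases hb with hb | hb
    · refine (Y23_fill3 hc).2 ⟨b, hb, c, hcE, a, ha, ?_⟩
      have e : ({b, c, a} : Finset V) = {a, b, c} := by ext y; simp only [Finset.mem_insert, Finset.mem_singleton]; tauto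
      rw [e]
      exact hF
    · exfalso
      refine noEw c b a hcE (Or.inl hb) ?_
      have e : ({c, b, a} : Finset V) = {a, b, c} := by ext y; simp only [Finset.mem_insert, Finset.mem_singleton]; tauto
      rw [e]
      exact hF
  have unf : ¬ fill Δ [{u}, {t}, {v}] := fun hf => h.htuv (by
    have := hc.fill_three.1 hf
    have e : ({t, u, v} : Finset V) = {u, t, v} := by ext y; simp only [Finset.mem_insert, Finset.mem_singleton]; tauto
    rw [e]
    exact this)
  have unf2 : ¬ fill Δ [{v}, {t}, {u}] := fun hf => unf (Rules_sub hf (by simp))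
  have unf3 : ¬ fill Δ [{t}, {u}, {v}] := fun hf => unf (Rules_sub hf (by simp))
  have r1 : fill Δ [Q, E, {u}] := by
    rcases h.inP.k5 {u} {t} {v} (Q ∪ {w}) E (Y23_cm5 cu ct cv cQw h.cE (P _ _ (adj_symm h.tu))
      (P _ _ h.uv) PQu Pu (P _ _ h.tv) PQt Pt PQv Pv PQE) with hf | hf
    · exact absurd hf unf
    · exact ext1 u hf
  have r2 : fill Δ [Q, E, {v}] := by
    rcases h.inP.k5 {v} {t} {u} (Q ∪ {w}) E (Y23_cm5 cv ct cu cQw h.cE (P _ _ (adj_symm h.tv))
      (P _ _ (adj_symm h.uv)) PQv Pv (P _ _ h.tu) PQt Pt PQu Pu PQE) with hf | hf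
    · exact absurd hf unf2
    · exact ext1 v hf
  have r3 : fill Δ [Q, E, {t}] := by
    rcases h.inP.k5 {t} {u} {v} (Q ∪ {w}) E (Y23_cm5 ct cu cv cQw h.cE (P _ _ h.tu)
      (P _ _ h.tv) PQt Pt (P _ _ h.uv) PQu Pu PQv Pv PQE) with hf | hf
    · exact absurd hf unf3
    · exact ext1 t hf
  have r4 : fill Δ [Q, {u}, {v}] := by
    rcases h.inP.k5 {u} {t} E (Q ∪ {w}) {v} (Y23_cm5 cu ct h.cE cQw cv (P _ _ (adj_symm h.tu))
      Pu PQu (P _ _ h.uv) Pt PQt (P _ _ h.tv) ⟨dQwE.symm, touch_symm tQwE⟩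
      ⟨Pv.1.symm, touch_symm Pv.2⟩ ⟨PQv.1.symm, touch_symm PQv.2⟩) with hf | hf
    · exact absurd (Rules_sub hf (by simp)) h.Etu
    · obtain ⟨a, ha, b, hb, c, hcE, hF⟩ := (Y23_fill3 hc).1 hf
      rw [Finset.mem_singleton] at ha hcE
      subst ha
      subst hcE
      rw [Finset.mem_union, Finset.mem_singleton] at hb
      rcases hb with hb | hb
      · refine (Y23_fill3 hc).2 ⟨b, hb, a, by simp, c, by simp, ?_⟩
        have e : ({b, a, c} : Finset V) = {a, b, c} := by ext y; simp only [Finset.mem_insert, Finset.mem_singleton]; tauto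
        rw [e]
        exact hF
      · exfalso
        subst hb
        apply h.huvw
        have e : ({a, c, b} : Finset V) = {a, b, c} := by ext y; simp only [Finset.mem_insert, Finset.mem_singleton]; tauto
        rw [e]
        exact hF
  -- the second family
  have cEQ : Conn Δ (E ∪ Q) := h.cE.union cQ (Or.inl (touch_symm QE))
  have QP : ∀ x : V, x ∉ Q → Disjoint ({x} : Finset V) E ∧ touch Δ {x} E →
      Disjoint ({x} : Finset V) (E ∪ Q) ∧ touch Δ {x} (E ∪ Q) := by
    intro x hx hp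
    refine ⟨?_, touch_mono (Finset.Subset.refl _) Finset.subset_union_left hp.2⟩
    rw [Finset.disjoint_union_right]
    exact ⟨hp.1, Y23_dis hx⟩
  have Ru := QP u uQ Pu
  have Rv := QP v vQ Pv
  have Rt := QP t tQ Pt
  have Rw : Disjoint ({w} : Finset V) (E ∪ Q) ∧ touch Δ {w} (E ∪ Q) := by
    refine ⟨?_, touch_mono (Finset.Subset.refl _) Finset.subset_union_right (touch_symm Qw)⟩
    rw [Finset.disjoint_union_right]
    exact ⟨Y23_dis h.wE, Y23_dis wQ⟩
  have ext2 : ∀ x : V, fill Δ [{x}, {w}, E ∪ Q] → fill Δ [{w}, Q, {x}] := by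
    intro x hx
    obtain ⟨a, ha, b, hb, c, hcE, hF⟩ := (Y23_fill3 hc).1 hx
    rw [Finset.mem_singleton] at hb
    rw [Finset.mem_union] at hcE
    rcases hcE with hcE | hcE
    · exfalso
      refine noEw c b a hcE (Or.inl hb) ?_
      have e : ({c, b, a} : Finset V) = {a, b, c} := by ext y; simp only [Finset.mem_insert, Finset.mem_singleton]; tauto
      rw [e]
      exact hF
    · refine (Y23_fill3 hc).2 ⟨b, by simp [hb], c, hcE, a, ha, ?_⟩
      have e : ({b, c, a} : Finset V) = {a, b, c} := by ext y; simp only [Finset.mem_insert, Finset.mem_singleton]; tauto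
      rw [e]
      exact hF
  have s1 : fill Δ [{w}, Q, {u}] := by
    rcases h.inP.k5 {u} {t} {v} {w} (E ∪ Q) (Y23_cm5 cu ct cv cw cEQ (P _ _ (adj_symm h.tu))
      (P _ _ h.uv) (P _ _ h.uw) Ru (P _ _ h.tv) (P _ _ h.tw) Rt (P _ _ h.vw) Rv Rw) with hf | hf
    · exact absurd hf unf
    · exact ext2 u hf
  have s2 : fill Δ [{w}, Q, {v}] := by
    rcases h.inP.k5 {v} {t} {u} {w} (E ∪ Q) (Y23_cm5 cv ct cu cw cEQ (P _ _ (adj_symm h.tv))
      (P _ _ (adj_symm h.uv)) (P _ _ h.vw) Rv (P _ _ h.tu) (P _ _ h.tw) Rt (P _ _ h.uw) Ru Rw)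
      with hf | hf
    · exact absurd hf unf2
    · exact ext2 v hf
  have s3 : fill Δ [{w}, Q, {t}] := by
    rcases h.inP.k5 {t} {u} {v} {w} (E ∪ Q) (Y23_cm5 ct cu cv cw cEQ (P _ _ h.tu)
      (P _ _ h.tv) (P _ _ h.tw) Rt (P _ _ h.uv) (P _ _ h.uw) Ru (P _ _ h.vw) Rv Rw) with hf | hf
    · exact absurd hf unf3
    · exact ext2 t hf
  have s4 : fill Δ [Q, {t}, {u}] := by
    rcases h.inP.k5 {u} {w} {v} (E ∪ Q) {t} (Y23_cm5 cu cw cv cEQ ct (P _ _ h.uw)
      (P _ _ h.uv) Ru (P _ _ (adj_symm h.tu)) (P _ _ (adj_symm h.vw)) Rw (P _ _ (adj_symm h.tw)) Rv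
      (P _ _ (adj_symm h.tv)) ⟨Rt.1.symm, touch_symm Rt.2⟩) with hf | hf
    · exfalso
      apply h.huvw
      have := hc.fill_three.1 hf
      have e : ({u, v, w} : Finset V) = {u, w, v} := by ext y; simp only [Finset.mem_insert, Finset.mem_singleton]; tauto
      rw [e]
      exact this
    · obtain ⟨a, ha, b, hb, c, hcE, hF⟩ := (Y23_fill3 hc).1 hf
      rw [Finset.mem_union] at hb
      rcases hb with hb | hb
      · exfalso
        refine h.Etu ((Y23_fill3 hc).2 ⟨b, hb, c, hcE, a, ha, ?_⟩)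
        have e : ({b, c, a} : Finset V) = {a, b, c} := by ext y; simp only [Finset.mem_insert, Finset.mem_singleton]; tauto
        rw [e]
        exact hF
      · refine (Y23_fill3 hc).2 ⟨b, hb, c, hcE, a, ha, ?_⟩
        have e : ({b, c, a} : Finset V) = {a, b, c} := by ext y; simp only [Finset.mem_insert, Finset.mem_singleton]; tauto
        rw [e]
        exact hF
  exact ⟨r1, r2, r3, r4, s1, s2, s3, s4⟩

end Y23

theorem tY23 (h22 : StmtY22) : StmtY23 := by
  intro V _ _ Δ u v w t E hP hW huv huw hvw huvw htw htuw htvw htuv hcE huE hvE hwE htE hEt hEuv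
    hEw hEtv hEtu
  have hc := hP.cx
  have htu : t ≠ u := by
    rintro rfl
    apply htuv
    have e : ({t, t, v} : Finset V) = {t, v} := by ext y; simp
    rw [e]
    exact huv.2
  have htv : t ≠ v := by
    rintro rfl
    apply htuv
    have e : ({t, u, t} : Finset V) = {u, t} := by ext y; simp only [Finset.mem_insert, Finset.mem_singleton]; tauto
    rw [e]
    exact huv.2
  have atu : adj Δ t u := hc.adj_of_face htuw (by simp) (by simp) htu
  have atv : adj Δ t v := hc.adj_of_face htvw (by simp) (by simp) htv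
  have S : Y23_S Δ u v w t E := ⟨hP, huv, huw, hvw, huvw, htw, atu, atv, htuw, htvw, htuv, hcE, huE,
    hvE, hwE, htE, hEt, hEuv, hEw, hEtv, hEtu⟩
  have hEW : E ⊆ vs Δ \ {u, v, t} := by
    intro x hx
    rw [Finset.mem_sdiff]
    refine ⟨hcE.1 hx, ?_⟩
    simp only [Finset.mem_insert, Finset.mem_singleton, not_or]
    exact ⟨fun e => huE (e ▸ hx), fun e => hvE (e ▸ hx), fun e => htE (e ▸ hx)⟩
  have hwW : w ∈ vs Δ \ {u, v, t} := by
    rw [Finset.mem_sdiff]
    refine ⟨(hc.adj_vs huw).2, ?_⟩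
    simp only [Finset.mem_insert, Finset.mem_singleton, not_or]
    exact ⟨huw.1.symm, hvw.1.symm, htw.1.symm⟩
  obtain ⟨q, hqW, hqw, hqE, aqw, hq⟩ := h22 V Δ _ E w hc hW hcE hEW hwW hwE hEw
  have hqm := Finset.mem_sdiff.1 hqW
  simp only [Finset.mem_insert, Finset.mem_singleton, not_or] at hqm
  obtain ⟨hqv, hqu', hqv', hqt'⟩ := hqm
  rcases hq with hq | ⟨hq, Q1, cQ1, hQ1W, wQ1, qQ1, Q1E, Q1q, Q1w⟩
  · -- one vertex
    obtain ⟨_, _, _, r4, s1, s2, _, _⟩ := Y23_main S (Q := {q}) (conn_single hqv)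
      (Finset.disjoint_singleton_left.2 hqE) (by simpa using (Ne.symm hqu')) (by simpa using (Ne.symm hqv'))
      (by simpa using hqw.symm) (by simpa using (Ne.symm hqt')) hq (touch_single.2 aqw)
    refine ⟨q, hqu', hqv', hqw, hc.fill_three.1 r4, ?_, ?_⟩
    · exact hc.fill_three.1 (Rules_sub s1 (by simp))
    · exact hc.fill_three.1 (Rules_sub s2 (by simp))
  · exfalso
    have nQ1 : ∀ x ∈ Q1, x ≠ u ∧ x ≠ v ∧ x ≠ t ∧ x ∉ E := by
      intro x hx
      have h1 := Finset.mem_sdiff.1 (hQ1W hx)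
      have h2 := Finset.mem_sdiff.1 h1.1
      simp only [Finset.mem_insert, Finset.mem_singleton, not_or] at h2
      exact ⟨h2.2.1, h2.2.2.1, h2.2.2.2, h1.2⟩
    have cQ : Conn Δ (Q1 ∪ {q}) := cQ1.union (conn_single hqv) (Or.inl Q1q)
    have dQE : Disjoint (Q1 ∪ {q}) E := by
      rw [Finset.disjoint_left]
      intro x hx
      rw [Finset.mem_union, Finset.mem_singleton] at hx
      rcases hx with hx | rfl
      · exact (nQ1 x hx).2.2.2
      · exact hqE
    have nQ : ∀ y : V, (∀ x ∈ Q1, x ≠ y) → q ≠ y → y ∉ Q1 ∪ {q} := by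
      intro y h1 h2 h3
      rw [Finset.mem_union, Finset.mem_singleton] at h3
      rcases h3 with h3 | h3
      · exact h1 y h3 rfl
      · exact h2 h3.symm
    obtain ⟨r1, r2, r3, r4, s1, s2, s3, s4⟩ := Y23_main S (Q := Q1 ∪ {q}) cQ dQE
      (nQ u (fun x hx => (nQ1 x hx).1) hqu') (nQ v (fun x hx => (nQ1 x hx).2.1) hqv')
      (nQ w (fun x hx e => wQ1 (e ▸ hx)) hqw) (nQ t (fun x hx => (nQ1 x hx).2.2.1) hqt')
      (touch_mono Finset.subset_union_left (Finset.Subset.refl _) Q1E)
      (touch_mono Finset.subset_union_right (Finset.Subset.refl _) (touch_single.2 aqw))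
    -- q does not touch E
    have ext1 : ∀ x : V, fill Δ [Q1 ∪ {q}, E, {x}] → fill Δ [Q1, E, {x}] := by
      intro x hx
      obtain ⟨a, ha, b, hb, c, hcx, hF⟩ := (Y23_fill3 hc).1 hx
      rw [Finset.mem_union, Finset.mem_singleton] at ha
      rcases ha with ha | ha
      · exact (Y23_fill3 hc).2 ⟨a, ha, b, hb, c, hcx, hF⟩
      · exfalso
        subst ha
        exact hq ⟨a, Finset.mem_singleton_self _, b, hb,
          hc.adj_of_face hF (by simp) (by simp) (fun e => hqE (e ▸ hb))⟩
    have ext2 : ∀ x : V, fill Δ [{w}, Q1 ∪ {q}, {x}] → ({w, q, x} : Finset V) ∈ Δ := by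
      intro x hx
      obtain ⟨a, ha, b, hb, c, hcx, hF⟩ := (Y23_fill3 hc).1 hx
      rw [Finset.mem_singleton] at ha hcx
      rw [Finset.mem_union, Finset.mem_singleton] at hb
      rcases hb with hb | hb
      · exfalso
        subst ha
        exact Q1w ⟨b, hb, a, Finset.mem_singleton_self _,
          hc.adj_of_face hF (by simp) (by simp) (fun e => wQ1 (e ▸ hb))⟩
      · rw [← ha, ← hb, ← hcx]
        exact hF
    have r1' := ext1 u r1
    have r2' := ext1 v r2
    have r3' := ext1 t r3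
    have s1' := ext2 u s1
    have s2' := ext2 v s2
    have s3' := ext2 t s3
    have mu := (hc.adj_vs huv).1
    have mv := (hc.adj_vs huv).2
    have mw := (hc.adj_vs huw).2
    have mt := (hc.adj_vs htw).1
    have P : ∀ a b : V, adj Δ a b →
        Disjoint ({a} : Finset V) {b} ∧ touch Δ ({a} : Finset V) {b} := by
      intro a b hab
      exact ⟨Finset.disjoint_singleton.2 hab.1, touch_single.2 hab⟩
    have tEu : touch Δ E {u} := Y23_touch hc (Y23_dis huE).symm hEuv
    have tEv : touch Δ E {v} := Y23_touch' hc (Y23_dis hvE).symm hEuv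
    by_cases ha : fill Δ [Q1, {t}, {u}]
    · -- (a)
      have c1 : Conn Δ ({w, u} : Finset V) := by
        have := (conn_single mw).union (conn_single mu) (Or.inl (touch_single.2 (adj_symm huw)))
        exact this
      have c2 : Conn Δ (E ∪ Q1) := hcE.union cQ1 (Or.inl (touch_symm Q1E))
      have nEQ : ∀ y : V, y ∉ E → (∀ x ∈ Q1, x ≠ y) → y ∉ E ∪ Q1 := by
        intro y h1 h2 h3
        rcases Finset.mem_union.1 h3 with h3 | h3
        · exact h1 h3
        · exact h2 y h3 rfl
      have nu := nEQ u huE (fun x hx => (nQ1 x hx).1)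
      have nv := nEQ v hvE (fun x hx => (nQ1 x hx).2.1)
      have nt := nEQ t htE (fun x hx => (nQ1 x hx).2.2.1)
      have nw := nEQ w hwE (fun x hx e => wQ1 (e ▸ hx))
      have hcm : CM Δ [{w, u}, E ∪ Q1, {t}, {v}] := by
        refine Y23_cm4 c1 c2 (conn_single mt) (conn_single mv) ⟨?_, ?_⟩ ⟨?_, ?_⟩ ⟨?_, ?_⟩
          ⟨?_, ?_⟩ ⟨?_, ?_⟩ (P _ _ atv)
        · rw [Finset.disjoint_left]
          intro x hx
          simp only [Finset.mem_insert, Finset.mem_singleton] at hx
          rcases hx with rfl | rfl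
          · exact nw
          · exact nu
        · exact touch_mono (by simp) Finset.subset_union_left (touch_symm tEu)
        · simp only [Finset.disjoint_singleton_right, Finset.mem_insert, Finset.mem_singleton,
            not_or]
          exact ⟨htw.1, htu⟩
        · exact ⟨w, by simp, t, by simp, adj_symm htw⟩
        · simp only [Finset.disjoint_singleton_right, Finset.mem_insert, Finset.mem_singleton,
            not_or]
          exact ⟨hvw.1, huv.1.symm⟩
        · exact ⟨w, by simp, v, by simp, adj_symm hvw⟩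
        · exact (Y23_dis nt).symm
        · exact touch_mono Finset.subset_union_left (Finset.Subset.refl _) hEt
        · exact (Y23_dis nv).symm
        · exact touch_mono Finset.subset_union_left (Finset.Subset.refl _) tEv
      have f1 : fill Δ [{w, u}, E ∪ Q1, {t}] := by
        obtain ⟨a, ha1, b, hb1, c, hc1, hF⟩ := (Y23_fill3 hc).1 ha
        rw [Finset.mem_singleton] at hb1 hc1
        subst hb1
        subst hc1
        refine (Y23_fill3 hc).2 ⟨c, by simp, a, Finset.mem_union_right _ ha1, b, by simp, ?_⟩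
        have e : ({c, a, b} : Finset V) = {a, b, c} := by ext y; simp only [Finset.mem_insert, Finset.mem_singleton]; tauto
        rw [e]
        exact hF
      have f2 : fill Δ [{w, u}, E ∪ Q1, {v}] := by
        obtain ⟨a, ha1, b, hb1, c, hc1, hF⟩ := (Y23_fill3 hc).1 hEuv
        rw [Finset.mem_singleton] at hb1 hc1
        subst hb1
        subst hc1
        refine (Y23_fill3 hc).2 ⟨b, by simp, a, Finset.mem_union_left _ ha1, c, by simp, ?_⟩
        have e : ({b, a, c} : Finset V) = {a, b, c} := by ext y; simp only [Finset.mem_insert, Finset.mem_singleton]; tauto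
        rw [e]
        exact hF
      have f3 : fill Δ [{w, u}, {t}, {v}] := by
        refine (Y23_fill3 hc).2 ⟨w, by simp, t, by simp, v, by simp, ?_⟩
        have e : ({w, t, v} : Finset V) = {t, v, w} := by ext y; simp only [Finset.mem_insert, Finset.mem_singleton]; tauto
        rw [e]
        exact htvw
      have f4 : fill Δ [E ∪ Q1, {t}, {v}] := by
        obtain ⟨a, ha1, b, hb1, c, hc1, hF⟩ := (Y23_fill3 hc).1 hEtv
        exact (Y23_fill3 hc).2 ⟨a, Finset.mem_union_left _ ha1, b, hb1, c, hc1, hF⟩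
      obtain ⟨x, hx, y, hy, c, hc1, d, hd1, hF⟩ := Y23_fill4 hc (hP.k4all hcm f1 f2 f3 f4)
      rw [Finset.mem_singleton] at hc1 hd1
      subst hc1
      subst hd1
      simp only [Finset.mem_insert, Finset.mem_singleton] at hx
      rcases hx with rfl | rfl
      · rcases Finset.mem_union.1 hy with hy | hy
        · exact hEw ⟨y, hy, x, Finset.mem_singleton_self _,
            hc.adj_of_face hF (by simp) (by simp) (fun e => hwE (e ▸ hy))⟩
        · exact Q1w ⟨y, hy, x, Finset.mem_singleton_self _,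
            hc.adj_of_face hF (by simp) (by simp) (fun e => wQ1 (e ▸ hy))⟩
      · refine htuv (hc.down _ hF _ ?_)
        intro a ha
        simp only [Finset.mem_insert, Finset.mem_singleton] at ha ⊢
        tauto
    · by_cases hb : ({q, u, v} : Finset V) ∈ Δ
      · -- (b)
        have c1 : Conn Δ (E ∪ {t}) := hcE.union (conn_single mt) (Or.inl hEt)
        have c2 : Conn Δ ({w, q} : Finset V) := by
          have := (conn_single mw).union (conn_single hqv) (Or.inl (touch_single.2 (adj_symm aqw)))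
          exact this
        have hcm : CM Δ [E ∪ {t}, {w, q}, {u}, {v}] := by
          refine Y23_cm4 c1 c2 (conn_single mu) (conn_single mv) ⟨?_, ?_⟩ ⟨?_, ?_⟩ ⟨?_, ?_⟩
            ⟨?_, ?_⟩ ⟨?_, ?_⟩ (P _ _ huv)
          · rw [Finset.disjoint_right]
            intro x hx hx'
            simp only [Finset.mem_insert, Finset.mem_singleton] at hx
            rw [Finset.mem_union, Finset.mem_singleton] at hx'
            rcases hx with rfl | rfl
            · rcases hx' with h1 | h1
              · exact hwE h1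
              · exact htw.1 h1.symm
            · rcases hx' with h1 | h1
              · exact hqE h1
              · exact hqt' h1
          · exact ⟨t, by simp, w, by simp, htw⟩
          · rw [Finset.disjoint_singleton_right, Finset.mem_union, Finset.mem_singleton]
            push Not
            exact ⟨huE, htu.symm⟩
          · exact ⟨t, by simp, u, by simp, atu⟩
          · rw [Finset.disjoint_singleton_right, Finset.mem_union, Finset.mem_singleton]
            push Not
            exact ⟨hvE, htv.symm⟩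
          · exact ⟨t, by simp, v, by simp, atv⟩
          · simp only [Finset.disjoint_singleton_right, Finset.mem_insert, Finset.mem_singleton,
              not_or]
            exact ⟨huw.1, fun e => hqu' e.symm⟩
          · exact ⟨w, by simp, u, by simp, adj_symm huw⟩
          · simp only [Finset.disjoint_singleton_right, Finset.mem_insert, Finset.mem_singleton,
              not_or]
            exact ⟨hvw.1, fun e => hqv' e.symm⟩
          · exact ⟨w, by simp, v, by simp, adj_symm hvw⟩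
        have f1 : fill Δ [E ∪ {t}, {w, q}, {u}] := by
          refine (Y23_fill3 hc).2 ⟨t, by simp, w, by simp, u, by simp, ?_⟩
          have e : ({t, w, u} : Finset V) = {t, u, w} := by ext y; simp only [Finset.mem_insert, Finset.mem_singleton]; tauto
          rw [e]
          exact htuw
        have f2 : fill Δ [E ∪ {t}, {w, q}, {v}] := by
          refine (Y23_fill3 hc).2 ⟨t, by simp, w, by simp, v, by simp, ?_⟩
          have e : ({t, w, v} : Finset V) = {t, v, w} := by ext y; simp only [Finset.mem_insert, Finset.mem_singleton]; tauto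
          rw [e]
          exact htvw
        have f3 : fill Δ [E ∪ {t}, {u}, {v}] := by
          obtain ⟨a, ha1, b, hb1, c, hc1, hF⟩ := (Y23_fill3 hc).1 hEuv
          exact (Y23_fill3 hc).2 ⟨a, Finset.mem_union_left _ ha1, b, hb1, c, hc1, hF⟩
        have f4 : fill Δ [{w, q}, {u}, {v}] :=
          (Y23_fill3 hc).2 ⟨q, by simp, u, by simp, v, by simp, hb⟩
        obtain ⟨x, hx, y, hy, c, hc1, d, hd1, hF⟩ := Y23_fill4 hc (hP.k4all hcm f1 f2 f3 f4)
        rw [Finset.mem_singleton] at hc1 hd1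
        subst hc1
        subst hd1
        simp only [Finset.mem_insert, Finset.mem_singleton] at hy
        rcases hy with rfl | rfl
        · refine huvw (hc.down _ hF _ ?_)
          intro a ha
          simp only [Finset.mem_insert, Finset.mem_singleton] at ha ⊢
          tauto
        · rw [Finset.mem_union, Finset.mem_singleton] at hx
          rcases hx with hx | rfl
          · exact hq ⟨y, Finset.mem_singleton_self _, x, hx,
              hc.adj_of_face hF (by simp) (by simp) (fun e => hqE (e ▸ hx))⟩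
          · refine htuv (hc.down _ hF _ ?_)
            intro a ha
            simp only [Finset.mem_insert, Finset.mem_singleton] at ha ⊢
            tauto
      · -- (c)
        have dQ1 : ∀ y : V, (∀ x ∈ Q1, x ≠ y) → Disjoint Q1 ({y} : Finset V) := by
          intro y h1
          rw [Finset.disjoint_singleton_right]
          intro h2
          exact h1 y h2 rfl
        have du := dQ1 u (fun x hx => (nQ1 x hx).1)
        have dv := dQ1 v (fun x hx => (nQ1 x hx).2.1)
        have dt := dQ1 t (fun x hx => (nQ1 x hx).2.2.1)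
        have dq := dQ1 q (fun x hx e => qQ1 (e ▸ hx))
        have tu1 : touch Δ Q1 {u} := Y23_touch' hc du r1'
        have tv1 : touch Δ Q1 {v} := Y23_touch' hc dv r2'
        have tt1 : touch Δ Q1 {t} := Y23_touch' hc dt r3'
        have aqu : adj Δ q u := hc.adj_of_face s1' (by simp) (by simp) hqu'
        have aqv : adj Δ q v := hc.adj_of_face s2' (by simp) (by simp) hqv'
        have aqt : adj Δ q t := hc.adj_of_face s3' (by simp) (by simp) hqt'
        rcases hP.k5 {u} Q1 {t} {q} {v} (Y23_cm5 (conn_single mu) cQ1 (conn_single mt)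
          (conn_single hqv) (conn_single mv) ⟨du.symm, touch_symm tu1⟩ (P _ _ (adj_symm atu))
          (P _ _ (adj_symm aqu)) (P _ _ huv) ⟨dt, tt1⟩ ⟨dq, Q1q⟩ ⟨dv, tv1⟩ (P _ _ (adj_symm aqt))
          (P _ _ atv) (P _ _ aqv)) with hf | hf
        · exact ha (Rules_sub hf (by simp))
        · exact hb (by
            have := hc.fill_three.1 hf
            have e : ({q, u, v} : Finset V) = {u, q, v} := by ext y; simp only [Finset.mem_insert, Finset.mem_singleton]; tauto
            rw [e]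
            exact this)

end Pool.Agent.Lib.MP_73b196_co.St
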