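import Pool.Agent.Lib.MP_73b196_co.St.SpecC

/-!
# Y24: vertices which can be removed from a connected set
-/

set_option autoImplicit false

namespace Pool.Agent.Lib.MP_73b196_co.St

theorem Y24_one {V : Type} [Fintype V] [DecidableEq V] {Δ : Set (Finset V)} {D : Finset V}
    (cD : Conn Δ D) (h2 : 2 ≤ D.card) {x : V} (hx : x ∈ D) :
    ∃ d ∈ D, d ≠ x ∧ Conn Δ (D \ {d}) := by
  classical
  have hxD : ({x} : Finset V) ≠ D := by
    intro e
    rw [← e, Finset.card_singleton] at h2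
    omega
  obtain ⟨C, hC, hmax⟩ := Finset.exists_max_image
    (D.powerset.filter fun C => Conn Δ C ∧ x ∈ C ∧ C ≠ D) Finset.card ⟨{x}, by
      rw [Finset.mem_filter, Finset.mem_powerset]
      exact ⟨Finset.singleton_subset_iff.2 hx, conn_single (cD.1 hx),
        Finset.mem_singleton_self x, hxD⟩⟩
  rw [Finset.mem_filter, Finset.mem_powerset] at hC
  obtain ⟨hCD, cC, hxC, hne⟩ := hC
  have hr : (D \ C).Nonempty := by
    rw [Finset.sdiff_nonempty]
    exact fun h => hne (Finset.Subset.antisymm hCD h)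
  obtain ⟨c, hc, d, hd, hcd⟩ := cD.2.2 C hCD cC.2.1 hr
  rw [Finset.mem_sdiff] at hd
  have h3 : Conn Δ (insert d C) :=
    cC.insert (cD.1 hd.1) (touch_single_left.2 ⟨c, hc, adj_symm hcd⟩)
  have h4 : insert d C = D := by
    by_contra h5
    have h6 := hmax (insert d C) (by
      rw [Finset.mem_filter, Finset.mem_powerset, Finset.insert_subset_iff]
      exact ⟨⟨hd.1, hCD⟩, h3, Finset.mem_insert_of_mem hxC, h5⟩)
    rw [Finset.card_insert_of_notMem hd.2] at h6
    omega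
  refine ⟨d, hd.1, fun e => hd.2 (e ▸ hxC), ?_⟩
  have h5 : D \ {d} = C := by
    rw [← h4]
    ext v
    simp only [Finset.mem_sdiff, Finset.mem_insert, Finset.mem_singleton]
    constructor
    · rintro ⟨h6 | h6, h7⟩
      · exact absurd h6 h7
      · exact h6
    · intro h6
      exact ⟨Or.inr h6, fun h7 => hd.2 (h7 ▸ h6)⟩
  rw [h5]
  exact cC

theorem tY24 : StmtY24 := by
  classical
  intro V _ _ Δ D _ cD
  refine ⟨fun h2 x hx => Y24_one cD h2 hx, fun h3 => ?_⟩
  obtain ⟨x, hx⟩ := cD.2.1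
  obtain ⟨d1, hd1, _, c1⟩ := Y24_one cD (by omega) hx
  have k1 : (D \ {d1}).card + 1 = D.card := by
    rw [Finset.sdiff_singleton_eq_erase]
    exact Finset.card_erase_add_one hd1
  obtain ⟨y, hy⟩ := c1.2.1
  obtain ⟨d2, hd2, _, c2⟩ := Y24_one c1 (by omega) hy
  obtain ⟨d3, hd3, h32, c3⟩ := Y24_one c1 (by omega) hd2
  have fin : ∀ d ∈ D \ {d1}, Conn Δ ((D \ {d1}) \ {d}) → touch Δ {d1} ((D \ {d1}) \ {d}) →
      ∃ d1 ∈ D, ∃ d2 ∈ D, d1 ≠ d2 ∧ Conn Δ (D \ {d1}) ∧ Conn Δ (D \ {d2}) ∧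
        Conn Δ (D \ {d1, d2}) := by
    intro d hd cd td
    rw [Finset.mem_sdiff, Finset.mem_singleton] at hd
    refine ⟨d1, hd1, d, hd.1, fun e => hd.2 e.symm, c1, ?_, ?_⟩
    · have e1 : D \ {d} = insert d1 ((D \ {d1}) \ {d}) := by
        ext v
        simp only [Finset.mem_sdiff, Finset.mem_insert, Finset.mem_singleton]
        constructor
        · rintro ⟨h4, h5⟩
          by_cases h6 : v = d1
          · exact Or.inl h6
          · exact Or.inr ⟨⟨h4, h6⟩, h5⟩
        · rintro (h4 | ⟨⟨h4, _⟩, h5⟩)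
          · rw [h4]
            exact ⟨hd1, fun e => hd.2 e.symm⟩
          · exact ⟨h4, h5⟩
      rw [e1]
      exact cd.insert (cD.1 hd1) td
    · have e2 : D \ {d1, d} = (D \ {d1}) \ {d} := by
        ext v
        simp only [Finset.mem_sdiff, Finset.mem_insert, Finset.mem_singleton, not_or]
        tauto
      rw [e2]
      exact cd
  have ht : touch Δ {d1} (D \ {d1}) :=
    cD.2.2 {d1} (Finset.singleton_subset_iff.2 hd1) (Finset.singleton_nonempty d1) c1.2.1
  obtain ⟨a, ha, b, hb, hab⟩ := ht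
  by_cases hb2 : b = d2
  · refine fin d3 hd3 c3 ⟨a, ha, b, ?_, hab⟩
    rw [Finset.mem_sdiff, Finset.mem_singleton]
    exact ⟨hb, fun e => h32 (e.symm.trans hb2)⟩
  · refine fin d2 hd2 c2 ⟨a, ha, b, ?_, hab⟩
    rw [Finset.mem_sdiff, Finset.mem_singleton]
    exact ⟨hb, hb2⟩

end Pool.Agent.Lib.MP_73b196_co.St
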