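import Pool.Agent.Lib.MP_73b196_co.St.SpecC

/-!
# Two small vertices, normal form
-/

set_option autoImplicit false
set_option linter.unusedSectionVars false

namespace Pool.Agent.Lib.MP_73b196_co.St

variable {V : Type} [Fintype V] [DecidableEq V] {Δ : Set (Finset V)} {n : ℕ} {z : ℤ → V}
  {A B C T X Y : Finset V} {d1 d2 : V} {i : ℤ} {L : List (Finset V)}

theorem Y25_touch (hc : IsCx Δ) (h : fill Δ L) (hA : A ∈ L) (hB : B ∈ L) (hd : Disjoint A B) :
    touch Δ A B := by
  obtain ⟨F, hF, hm⟩ := h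
  obtain ⟨a, ha⟩ := hm A hA
  obtain ⟨b, hb⟩ := hm B hB
  rw [Finset.mem_inter] at ha hb
  refine ⟨a, ha.2, b, hb.2, hc.adj_of_face hF ha.1 hb.1 ?_⟩
  rintro rfl
  exact Finset.disjoint_left.1 hd ha.2 hb.2

theorem Y25_split : fill Δ [A, X ∪ Y, B] ↔ fill Δ [A, X, B] ∨ fill Δ [A, Y, B] := by
  constructor
  · intro h
    obtain ⟨F, hF, hm⟩ := h
    obtain ⟨x, hx⟩ := hm (X ∪ Y) (by simp)
    rw [Finset.mem_inter, Finset.mem_union] at hx
    rcases hx.2 with h | h
    · refine Or.inl ⟨F, hF, fun D hD => ?_⟩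
      simp only [List.mem_cons, List.not_mem_nil, or_false] at hD
      rcases hD with rfl | rfl | rfl
      · exact hm _ (by simp)
      · exact ⟨x, Finset.mem_inter.2 ⟨hx.1, h⟩⟩
      · exact hm _ (by simp)
    · refine Or.inr ⟨F, hF, fun D hD => ?_⟩
      simp only [List.mem_cons, List.not_mem_nil, or_false] at hD
      rcases hD with rfl | rfl | rfl
      · exact hm _ (by simp)
      · exact ⟨x, Finset.mem_inter.2 ⟨hx.1, h⟩⟩
      · exact hm _ (by simp)
  · rintro (h | h)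
    · obtain ⟨F, hF, hm⟩ := h
      refine ⟨F, hF, fun D hD => ?_⟩
      simp only [List.mem_cons, List.not_mem_nil, or_false] at hD
      rcases hD with rfl | rfl | rfl
      · exact hm _ (by simp)
      · exact (hm X (by simp)).mono (Finset.inter_subset_inter_left Finset.subset_union_left)
      · exact hm _ (by simp)
    · obtain ⟨F, hF, hm⟩ := h
      refine ⟨F, hF, fun D hD => ?_⟩
      simp only [List.mem_cons, List.not_mem_nil, or_false] at hD
      rcases hD with rfl | rfl | rfl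
      · exact hm _ (by simp)
      · exact (hm Y (by simp)).mono (Finset.inter_subset_inter_left Finset.subset_union_right)
      · exact hm _ (by simp)

/-- A filled list with `X` and `z i`: `X` is attached to `z i`. -/
theorem Y25_at (hc : IsCx Δ) (h : fill Δ L) (hX : X ∈ L) (hi : {z i} ∈ L) (oX : Off z X) :
    At Δ z X i :=
  Y25_touch hc h hX hi (Finset.disjoint_singleton_right.2 (oX i))

/-- The hypotheses. -/
structure Y25_H (Δ : Set (Finset V)) (n : ℕ) (z : ℤ → V) (T : Finset V) (d1 d2 : V) : Prop where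
  hP : InP Δ
  hz : HC Δ n z
  cT : Conn Δ T
  oT : Off z T
  o1 : Off z {d1}
  o2 : Off z {d2}
  v1 : d1 ∈ vs Δ
  v2 : d2 ∈ vs Δ
  ne : d1 ≠ d2
  m1 : d1 ∉ T
  m2 : d2 ∉ T
  t1 : touch Δ {d1} T
  t2 : touch Δ {d2} T
  s1 : Sm Δ n z {d1} 0
  s2 : Sm Δ n z {d2} 1
  nT : ¬ At Δ z T 1
  fT : ∀ i : ℤ, 2 ≤ i → i < n → Fl Δ z T i

/-- Attachments of `d1`. -/
theorem Y25_n1 (h : Y25_H Δ n z T d1 d2) (h2 : 2 ≤ i) (hi : i < n) : ¬ At Δ z {d1} i := by
  have := h.s1.2 i (by omega) (by omega)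
  exact this

/-- Attachments of `d2`. -/
theorem Y25_n2 (h : Y25_H Δ n z T d1 d2) : ¬ At Δ z {d2} 0 := by
  intro t
  have h3 := h.hz.pos
  exact h.s2.2 n (by omega) (by omega) ((h.hz.at_congr ⟨1, by ring⟩).2 t)

/-- Step A: exactly one of `α` and `β`. -/
theorem Y25_A (h21 : StmtY21) (h : Y25_H Δ n z T d1 d2) :
    (fill Δ [{d1}, T, {z 0}] ∨ fill Δ [{d1}, {d2}, {z 1}]) ∧
      ¬ (fill Δ [{d1}, T, {z 0}] ∧ fill Δ [{d1}, {d2}, {z 1}]) := by
  have h3 := h.hz.pos
  have hbg : Bg Δ n z (T ∪ {d2}) 0 := by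
    refine ⟨?_, fun i h1 h2 => ?_⟩
    · rw [fl_union]
      rintro (f | f)
      · have := (Fl.at h.hP.cx h.oT f).2
        exact h.nT (by simpa using this)
      · exact Y25_n2 h (Fl.at h.hP.cx h.o2 f).1
    · rw [fl_union]
      rcases eq_or_ne i 1 with rfl | h4
      · exact Or.inr h.s2.1
      · exact Or.inl (h.fT i (by omega) (by omega))
  have h5 := h21 V Δ n z {d1} (T ∪ {d2}) 0 h.hP h.hz (conn_single h.v1)
    (h.cT.union (conn_single h.v2) (Or.inl (touch_symm h.t2))) h.o1 (h.oT.union h.o2)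
    (by
      rw [Finset.disjoint_singleton_left, Finset.mem_union, Finset.mem_singleton]
      rintro (e | e)
      · exact h.m1 e
      · exact h.ne e)
    (touch_union_right.2 (Or.inl h.t1)) h.s1 hbg
  rw [Y25_split, Y25_split, zero_add] at h5
  have e1 : ¬ fill Δ [{d1}, {d2}, {z 0}] := fun f =>
    Y25_n2 h (Y25_at h.hP.cx f (by simp) (by simp) h.o2)
  have e2 : ¬ fill Δ [{d1}, T, {z 1}] := fun f =>
    h.nT (Y25_at h.hP.cx f (by simp) (by simp) h.oT)
  constructor
  · rcases h5.1 with (f | f) | (f | f)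
    · exact Or.inl f
    · exact absurd f e1
    · exact absurd f e2
    · exact Or.inr f
  · rintro ⟨f, g⟩
    exact h5.2 ⟨Or.inl f, Or.inr g⟩

/-- Step B: exactly one of `β` and `γ`. -/
theorem Y25_B (h21 : StmtY21) (h : Y25_H Δ n z T d1 d2) :
    (fill Δ [{d2}, {d1}, {z 1}] ∨ fill Δ [{d2}, T, {z 2}]) ∧
      ¬ (fill Δ [{d2}, {d1}, {z 1}] ∧ fill Δ [{d2}, T, {z 2}]) := by
  have h3 := h.hz.pos
  have hbg : Bg Δ n z (T ∪ {d1}) 1 := by
    refine ⟨?_, fun i h1 h2 => ?_⟩
    · rw [fl_union]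
      rintro (f | f)
      · exact h.nT (Fl.at h.hP.cx h.oT f).1
      · have := (Fl.at h.hP.cx h.o1 f).2
        exact Y25_n1 h (i := 2) (by omega) (by omega) (by simpa using this)
    · rw [fl_union]
      rcases eq_or_ne i n with rfl | h4
      · exact Or.inr ((h.hz.fl_congr ⟨1, by ring⟩).2 h.s1.1)
      · exact Or.inl (h.fT i (by omega) (by omega))
  have h5 := h21 V Δ n z {d2} (T ∪ {d1}) 1 h.hP h.hz (conn_single h.v2)
    (h.cT.union (conn_single h.v1) (Or.inl (touch_symm h.t1))) h.o2 (h.oT.union h.o1)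
    (by
      rw [Finset.disjoint_singleton_left, Finset.mem_union, Finset.mem_singleton]
      rintro (e | e)
      · exact h.m2 e
      · exact h.ne e.symm)
    (touch_union_right.2 (Or.inl h.t2)) h.s2 hbg
  rw [Y25_split, Y25_split] at h5
  norm_num at h5
  have e1 : ¬ fill Δ [{d2}, {d1}, {z 2}] := fun f =>
    Y25_n1 h (i := 2) (by omega) (by omega) (Y25_at h.hP.cx f (by simp) (by simp) h.o1)
  have e2 : ¬ fill Δ [{d2}, T, {z 1}] := fun f =>
    h.nT (Y25_at h.hP.cx f (by simp) (by simp) h.oT)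
  constructor
  · rcases h5.1 with (f | f) | (f | f)
    · exact absurd f e2
    · exact Or.inl f
    · exact Or.inr f
    · exact absurd f e1
  · rintro ⟨f, g⟩
    have := h5.2
    tauto

/-- Case 1: `d1` and `d2` adjacent, `n = 3`. -/
theorem Y25_one (h21 : StmtY21) (h : Y25_H Δ 3 z T d1 d2) (ha : adj Δ d1 d2) : False := by
  have hA := Y25_A h21 h
  have hB := Y25_B h21 h
  have hs : Sm Δ 3 z T 2 := by
    refine ⟨h.fT 2 (by omega) (by norm_num), fun i h1 h2 h3 => ?_⟩
    have : i = 4 := by push_cast at h2; omega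
    subst this
    exact h.nT ((h.hz.at_congr ⟨1, by norm_num⟩).1 h3)
  have hb : Bg Δ 3 z ({d1} ∪ {d2}) 2 := by
    refine ⟨?_, fun i h1 h2 => ?_⟩
    · rw [fl_union]
      rintro (f | f)
      · exact Y25_n1 h (i := 2) (by omega) (by norm_num) (Fl.at h.hP.cx h.o1 f).1
      · have := (Fl.at h.hP.cx h.o2 f).2
        exact Y25_n2 h ((h.hz.at_congr ⟨1, by norm_num⟩).1 this)
    · rw [fl_union]
      have : i = 3 ∨ i = 4 := by push_cast at h2; omega
      rcases this with rfl | rfl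
      · exact Or.inl ((h.hz.fl_congr ⟨1, by norm_num⟩).2 h.s1.1)
      · exact Or.inr ((h.hz.fl_congr ⟨1, by norm_num⟩).2 h.s2.1)
  have h5 := h21 V Δ 3 z T ({d1} ∪ {d2}) 2 h.hP h.hz h.cT
    ((conn_single h.v1).union (conn_single h.v2) (Or.inl (touch_single.2 ha))) h.oT
    (h.o1.union h.o2)
    (by
      rw [Finset.disjoint_union_right, Finset.disjoint_singleton_right,
        Finset.disjoint_singleton_right]
      exact ⟨h.m1, h.m2⟩)
    (touch_union_right.2 (Or.inl (touch_symm h.t1))) hs hb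
  rw [Y25_split, Y25_split] at h5
  have e3 : z (2 + 1) = z 0 := h.hz.eq_of ⟨1, by norm_num⟩
  rw [e3] at h5
  have e1 : ¬ fill Δ [T, {d1}, {z 2}] := fun f =>
    Y25_n1 h (i := 2) (by omega) (by norm_num) (Y25_at h.hP.cx f (by simp) (by simp) h.o1)
  have e2 : ¬ fill Δ [T, {d2}, {z 0}] := fun f =>
    Y25_n2 h (Y25_at h.hP.cx f (by simp) (by simp) h.o2)
  have p1 : fill Δ [{d1}, T, {z 0}] ↔ fill Δ [T, {d1}, {z 0}] := fill_perm (List.Perm.swap _ _ _)
  have p2 : fill Δ [{d2}, T, {z 2}] ↔ fill Δ [T, {d2}, {z 2}] := fill_perm (List.Perm.swap _ _ _)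
  have p3 : fill Δ [{d2}, {d1}, {z 1}] ↔ fill Δ [{d1}, {d2}, {z 1}] :=
    fill_perm (List.Perm.swap _ _ _)
  tauto

/-- Case 2: `d1` and `d2` adjacent, `n ≥ 4`. -/
theorem Y25_two (h20 : StmtY20) (h : Y25_H Δ n z T d1 d2) (hn : 4 ≤ n) (ha : adj Δ d1 d2) :
    False := by
  have n0 : ¬ Fl Δ z T 0 := fun f => h.nT (by simpa using (Fl.at h.hP.cx h.oT f).2)
  have n1 : ¬ Fl Δ z T 1 := fun f => h.nT (Fl.at h.hP.cx h.oT f).1
  have hone : ¬ (n : ℤ) ∣ 1 := by
    intro hd
    have := Int.le_of_dvd (by norm_num) hd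
    omega
  have hall : ∀ i, Fl Δ z T i ∨ Fl Δ z ({d1} ∪ {d2}) i := by
    intro i
    obtain ⟨j, j0, j1, _, hj⟩ := h.hz.window 0 i
    rw [h.hz.fl_congr hj, h.hz.fl_congr hj, fl_union]
    rcases eq_or_ne j 0 with rfl | e0
    · exact Or.inr (Or.inl h.s1.1)
    rcases eq_or_ne j 1 with rfl | e1
    · exact Or.inr (Or.inr h.s2.1)
    exact Or.inl (h.fT j (by omega) (by omega))
  obtain ⟨k, hk⟩ := h20 V Δ n z T ({d1} ∪ {d2}) h.hP h.hz h.cT
    ((conn_single h.v1).union (conn_single h.v2) (Or.inl (touch_single.2 ha))) h.oT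
    (h.o1.union h.o2)
    (by
      rw [Finset.disjoint_union_right, Finset.disjoint_singleton_right,
        Finset.disjoint_singleton_right]
      exact ⟨h.m1, h.m2⟩)
    (touch_union_right.2 (Or.inl (touch_symm h.t1))) hall (fun f => n0 (f 0)) (by
      intro f
      have f2 := f 2
      rw [fl_union] at f2
      rcases f2 with f2 | f2
      · exact Y25_n1 h (i := 2) (by omega) (by omega) (Fl.at h.hP.cx h.o1 f2).1
      · rw [h.hz.sm_fl h.hP.cx h.o2 h.s2] at f2
        exact hone (by simpa using f2))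
  rcases hk with ⟨hk, _⟩ | ⟨_, hk⟩
  · have f2 := (h.hz.sm_fl h.hP.cx h.oT hk).1 (h.fT 2 (by omega) (by omega))
    have f3 := (h.hz.sm_fl h.hP.cx h.oT hk).1 (h.fT 3 (by omega) (by omega))
    have := dvd_sub f3 f2
    apply hone
    have e : (3 : ℤ) - k - (2 - k) = 1 := by ring
    rwa [e] at this
  · have f0 := mt (h.hz.bg_fl hk).2 n0
    have f1 := mt (h.hz.bg_fl hk).2 n1
    rw [not_not] at f0 f1
    have := dvd_sub f1 f0
    apply hone
    have e : (1 : ℤ) - k - (0 - k) = 1 := by ring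
    rwa [e] at this

/-- Case 3: `d1` and `d2` not adjacent. -/
theorem Y25_three (h14 : StmtY14) (h21 : StmtY21) (h : Y25_H Δ n z T d1 d2)
    (ha : ¬ adj Δ d1 d2) : False := by
  have h3 := h.hz.pos
  have hA := Y25_A h21 h
  have hB := Y25_B h21 h
  have nb : ¬ fill Δ [{d1}, {d2}, {z 1}] := fun f => ha (touch_single.1
    (Y25_touch h.hP.cx f (A := {d1}) (B := {d2}) (by simp) (by simp)
      (Finset.disjoint_singleton.2 h.ne)))
  have nb' : ¬ fill Δ [{d2}, {d1}, {z 1}] := fun f => nb (Rules_sub f (by simp))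
  have fa : fill Δ [{d1}, T, {z 0}] := hA.1.resolve_right nb
  have fg : fill Δ [{d2}, T, {z 2}] := hB.1.resolve_left nb'
  have no1 : ∀ L, fill Δ L → {d1} ∈ L → arc z 2 n ∈ L → False := by
    intro L f m1 m2
    have := Y25_touch h.hP.cx f m1 m2 h.o1.disj
    rw [touch_arc] at this
    obtain ⟨i, h1, h2, h4⟩ := this
    exact Y25_n1 h h1 h2 h4
  have no2 : ∀ L, fill Δ L → {d2} ∈ L → {z 0} ∈ L → False := fun L f m1 m2 =>
    Y25_n2 h (Y25_at h.hP.cx f m1 m2 h.o2)
  have sub2 : ({z 2} : Finset V) ⊆ arc z 2 n :=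
    Finset.singleton_subset_iff.2 (mem_arc_of (by omega) (by omega))
  have hmono : ∀ {P Q : Finset V}, fill Δ [P, Q, {z 2}] → fill Δ [arc z 2 n, P, Q] := by
    intro P Q f
    obtain ⟨F, hF, hm⟩ := f
    refine ⟨F, hF, fun D hD => ?_⟩
    simp only [List.mem_cons, List.not_mem_nil, or_false] at hD
    rcases hD with rfl | rfl | rfl
    · exact (hm {z 2} (by simp)).mono (Finset.inter_subset_inter_left sub2)
    · exact hm _ (by simp)
    · exact hm _ (by simp)
  refine h14 V Δ {z 0} (arc z 2 n) {z 1} {d1} T {d2} h.hP ?_ ?_ ?_ ?_ ?_ ?_ ?_ ?_ ?_ ?_ ?_ ?_ ?_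
  · intro X hX
    simp only [List.mem_cons, List.not_mem_nil, or_false] at hX
    rcases hX with rfl | rfl | rfl | rfl | rfl | rfl
    · exact conn_single (h.hz.mem_vs h.hP.cx 0)
    · exact h.hz.arc_conn h.hP.cx (by omega)
    · exact conn_single (h.hz.mem_vs h.hP.cx 1)
    · exact conn_single h.v1
    · exact h.cT
    · exact conn_single h.v2
  · have da : ∀ i : ℤ, 0 ≤ i → i < 2 → Disjoint ({z i} : Finset V) (arc z 2 n) := by
      intro i h1 h2
      rw [Finset.disjoint_singleton_left]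
      intro hm
      obtain ⟨j, h4, h5, h6⟩ := mem_arc.1 hm
      exact h.hz.ne_of (i := i) (j := j) (by omega) (by omega) h6.symm
    simp only [List.pairwise_cons, List.mem_cons, List.not_mem_nil, or_false, List.Pairwise.nil,
      and_true, IsEmpty.forall_iff, implies_true, forall_eq_or_imp, forall_eq]
    refine ⟨⟨da 0 le_rfl (by norm_num), ?_, ?_, ?_, ?_⟩,
      ⟨(da 1 (by norm_num) (by norm_num)).symm, h.o1.disj.symm, h.oT.disj.symm, h.o2.disj.symm⟩,
      ⟨?_, ?_, ?_⟩, ⟨?_, ?_⟩, ?_⟩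
    · exact Finset.disjoint_singleton.2 (h.hz.ne_of (by norm_num) (by omega))
    · exact Finset.disjoint_singleton_left.2 (h.o1 0)
    · exact Finset.disjoint_singleton_left.2 (h.oT 0)
    · exact Finset.disjoint_singleton_left.2 (h.o2 0)
    · exact Finset.disjoint_singleton_left.2 (h.o1 1)
    · exact Finset.disjoint_singleton_left.2 (h.oT 1)
    · exact Finset.disjoint_singleton_left.2 (h.o2 1)
    · exact Finset.disjoint_singleton_left.2 h.m1
    · exact Finset.disjoint_singleton.2 h.ne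
    · exact Finset.disjoint_singleton_right.2 h.m2
  · refine touch_single_left.2 ⟨z (n - 1), mem_arc_of (by omega) (by omega), ?_⟩
    exact (h.hz.adjIff _ _).2 (Or.inl ⟨-1, by ring⟩)
  · exact fun t => h.nT (touch_symm t)
  · exact fun t => ha (touch_single.1 t)
  · have := h.s1.1
    unfold Fl at this
    rw [zero_add] at this
    exact Rules_sub this (by simp)
  · exact Rules_sub fa (by simp)
  · exact hmono (Rules_sub fg (by simp))
  · have := h.s2.1
    unfold Fl at this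
    norm_num at this
    exact hmono (Rules_sub this (by simp))
  · exact fun f => no2 _ f (by simp) (by simp)
  · exact fun f => no2 _ f (by simp) (by simp)
  · exact fun f => no1 _ f (by simp) (by simp)
  · exact fun f => no1 _ f (by simp) (by simp)

/-- **Y25** Two small vertices, normal form. -/
theorem tY25 (h14 : StmtY14) (h20 : StmtY20) (h21 : StmtY21) : StmtY25 := by
  intro V _ _ Δ n z T d1 d2 hP hz cT oT o1 o2 v1 v2 ne m1 m2 t1 t2 s1 s2 nT fT
  have h : Y25_H Δ n z T d1 d2 := ⟨hP, hz, cT, oT,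
    fun i => by rw [Finset.mem_singleton]; exact o1 i,
    fun i => by rw [Finset.mem_singleton]; exact o2 i, v1, v2, ne, m1, m2, t1, t2, s1, s2, nT,
    fun i hi hin => by
      obtain ⟨m, rfl⟩ := Int.eq_ofNat_of_zero_le (show 0 ≤ i by omega)
      exact fT m (by omega) (by omega)⟩
  by_cases ha : adj Δ d1 d2
  · rcases eq_or_ne n 3 with rfl | hn
    · exact Y25_one h21 h ha
    · exact Y25_two h20 h (by have := hz.three; omega) ha
  · exact Y25_three h14 h21 h ha

end Pool.Agent.Lib.MP_73b196_co.St
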