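import Pool.Agent.Lib.MP_73b196_co.St.SpecC

/-!
# Y26: not all removable vertices are small
-/

set_option autoImplicit false

namespace Pool.Agent.Lib.MP_73b196_co.St

namespace Y26

variable {V : Type} [Fintype V] [DecidableEq V] {Δ : Set (Finset V)} {n : ℕ} {z : ℤ → V}
  {T : Finset V} {d1 d2 : V}

/-- The final step: the two small edges are consecutive. -/
theorem fin (h1 : StmtY1) (h25 : StmtY25) (hI : InP Δ) (hz : HC Δ n z) (cT : Conn Δ T)
    (oT : Off z T) (o1 : Off z {d1}) (o2 : Off z {d2}) (v1 : d1 ∈ vs Δ) (v2 : d2 ∈ vs Δ)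
    (hne : d1 ≠ d2) (m1 : d1 ∉ T) (m2 : d2 ∉ T) (t1 : touch Δ {d1} T) (t2 : touch Δ {d2} T) {k : ℤ}
    (s1 : Sm Δ n z {d1} k) (s2 : Sm Δ n z {d2} (k + 1))
    (hf : ∀ i, Fl Δ z T i ↔ ¬ (n : ℤ) ∣ i - k ∧ ¬ (n : ℤ) ∣ i - (k + 1)) : False := by
  have h3 := hz.pos
  have hc := hI.cx
  have key : ∀ i : ℤ, 2 ≤ i → i < n → Fl Δ z T (i + k) := by
    intro i h4 h5
    rw [hf]
    refine ⟨fun h6 => ?_, fun h6 => ?_⟩
    · have h7 := Int.le_of_dvd (by omega) h6
      omega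
    · have h7 := Int.le_of_dvd (by omega) h6
      omega
  have f0 : ¬ Fl Δ z T k := fun h => ((hf k).1 h).1 (by simp)
  have f1 : ¬ Fl Δ z T (k + 1) := fun h => ((hf (k + 1)).1 h).2 (by simp)
  refine h25 V Δ n (fun i => z (i + k)) T d1 d2 hI (hz.shift k) cT (off_shift k oT)
    (fun i h => o1 (i + k) (Finset.mem_singleton.2 h)) (fun i h => o2 (i + k) (Finset.mem_singleton.2 h))
    v1 v2 hne m1 m2 t1 t2 ?_ ?_ ?_ ?_
  · rw [sm_shift, zero_add]
    exact s1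
  · rw [sm_shift, add_comm]
    exact s2
  · intro h4
    rw [at_shift] at h4
    have h5 := Fl.at hc oT (key 2 le_rfl (by omega))
    have h6 := h1 V Δ n z T (1 + k) (2 + k) (3 + k) hI hz cT oT (by omega) (by omega) (by omega)
      ⟨1 + k, le_rfl, by omega, h4⟩ ⟨2 + k, le_rfl, by omega, h5.1⟩
      ⟨3 + k, le_rfl, by omega, by
        have e : 2 + k + 1 = 3 + k := by ring
        rw [← e]
        exact h5.2⟩
    have e1 : 1 + k - 1 = k := by ring
    have e2 : 2 + k - 1 = k + 1 := by ring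
    rw [e1, e2] at h6
    rcases h6.1 with h7 | h7
    · exact f0 h7
    · exact f1 h7
  · intro i h4 h5
    rw [fl_shift]
    exact key i (by exact_mod_cast h4) (by exact_mod_cast h5)

end Y26

theorem tY26 (h1 : StmtY1) (h24 : StmtY24) (h25 : StmtY25) : StmtY26 := by
  intro V _ _ Δ n z D hI hz cD oD hcard hall
  have h3 := hz.pos
  have hc := hI.cx
  obtain ⟨d1, hd1, d2, hd2, hne, c1, c2, cT⟩ := (h24 V Δ D hc cD).2 hcard
  set T := D \ {d1, d2} with hT
  have e1 : T ∪ {d2} = D \ {d1} := by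
    ext v
    simp only [hT, Finset.mem_union, Finset.mem_sdiff, Finset.mem_insert, Finset.mem_singleton]
    constructor
    · rintro (⟨h4, h5⟩ | rfl)
      · exact ⟨h4, fun h => h5 (Or.inl h)⟩
      · exact ⟨hd2, fun h => hne h.symm⟩
    · rintro ⟨h4, h5⟩
      by_cases h6 : v = d2
      · exact Or.inr h6
      · exact Or.inl ⟨h4, fun h => h.elim h5 h6⟩
  have e2 : T ∪ {d1} = D \ {d2} := by
    ext v
    simp only [hT, Finset.mem_union, Finset.mem_sdiff, Finset.mem_insert, Finset.mem_singleton]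
    constructor
    · rintro (⟨h4, h5⟩ | rfl)
      · exact ⟨h4, fun h => h5 (Or.inr h)⟩
      · exact ⟨hd1, hne⟩
    · rintro ⟨h4, h5⟩
      by_cases h6 : v = d1
      · exact Or.inr h6
      · exact Or.inl ⟨h4, fun h => h.elim h6 h5⟩
  have m1 : d1 ∉ T := by simp [hT]
  have m2 : d2 ∉ T := by simp [hT]
  have t1 : touch Δ {d1} T := by
    refine touch_symm (c2.touch_of cT.2.1 (Finset.singleton_nonempty d1) ?_ e2)
    exact Finset.disjoint_singleton_right.2 m1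
  have t2 : touch Δ {d2} T := by
    refine touch_symm (c1.touch_of cT.2.1 (Finset.singleton_nonempty d2) ?_ e1)
    exact Finset.disjoint_singleton_right.2 m2
  have oT : Off z T := oD.mono Finset.sdiff_subset
  have o1 : Off z {d1} := oD.mono (Finset.singleton_subset_iff.2 hd1)
  have o2 : Off z {d2} := oD.mono (Finset.singleton_subset_iff.2 hd2)
  obtain ⟨k1, s1, b1⟩ := hall d1 hd1 c1
  obtain ⟨k2, s2, b2⟩ := hall d2 hd2 c2
  have g1 : ∀ i, (Fl Δ z T i ∨ (n : ℤ) ∣ i - k2) ↔ ¬ (n : ℤ) ∣ i - k1 := by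
    intro i
    rw [← hz.sm_fl hc o2 s2, ← hz.bg_fl b1, ← e1, fl_union]
  have g2 : ∀ i, (Fl Δ z T i ∨ (n : ℤ) ∣ i - k1) ↔ ¬ (n : ℤ) ∣ i - k2 := by
    intro i
    rw [← hz.sm_fl hc o1 s1, ← hz.bg_fl b2, ← e2, fl_union]
  have hk : ¬ (n : ℤ) ∣ k2 - k1 := (g1 k2).1 (Or.inr (by simp))
  have hf : ∀ i, Fl Δ z T i ↔ ¬ (n : ℤ) ∣ i - k1 ∧ ¬ (n : ℤ) ∣ i - k2 := by
    intro i
    constructor
    · intro h
      exact ⟨(g1 i).1 (Or.inl h), (g2 i).1 (Or.inl h)⟩
    · rintro ⟨h4, h5⟩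
      exact ((g1 i).2 h4).resolve_right h5
  obtain ⟨k, hk1, hk2, hk3⟩ := hz.strict_window k1 k2 hk
  have s2' : Sm Δ n z {d2} k := (hz.sm_congr hk3).1 s2
  have hdv : ∀ i : ℤ, (n : ℤ) ∣ i - k2 ↔ (n : ℤ) ∣ i - k := by
    intro i
    have e : i - k = (i - k2) + (k2 - k) := by ring
    rw [e]
    exact (Int.dvd_add_left hk3).symm
  have hf' : ∀ i, Fl Δ z T i ↔ ¬ (n : ℤ) ∣ i - k1 ∧ ¬ (n : ℤ) ∣ i - k := by
    intro i
    rw [hf, hdv]
  by_cases hA : k = k1 + 1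
  · subst hA
    exact Y26.fin h1 h25 hI hz cT oT o1 o2 (cD.1 hd1) (cD.1 hd2) hne m1 m2 t1 t2 s1 s2' hf'
  by_cases hB : k = k1 + n - 1
  · refine Y26.fin (k := k) h1 h25 hI hz cT oT o2 o1 (cD.1 hd2) (cD.1 hd1) hne.symm m2 m1 t2 t1 s2'
      ((hz.sm_congr ⟨-1, by rw [hB]; ring⟩).1 s1) ?_
    intro i
    rw [hf', and_comm]
    have e : i - (k + 1) = (i - k1) + (-1) * n := by rw [hB]; ring
    have h5 : (n : ℤ) ∣ i - (k + 1) ↔ (n : ℤ) ∣ i - k1 := by
      rw [e]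
      exact Int.dvd_add_left (Dvd.intro_left _ rfl)
    rw [h5]
  · -- the two edges are far apart
    have f1 : Fl Δ z T (k1 + 1) := by
      rw [hf']
      refine ⟨fun h4 => ?_, fun h4 => ?_⟩
      · have h5 := Int.le_of_dvd (by omega) h4
        omega
      · have h5 := Int.le_of_dvd (by omega) ((dvd_neg.2 h4 : (n : ℤ) ∣ -(k1 + 1 - k)))
        omega
    have f2 : Fl Δ z T (k + 1) := by
      rw [hf']
      refine ⟨fun h4 => ?_, fun h4 => ?_⟩
      · have h5 := Int.le_of_dvd (by omega) h4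
        omega
      · have h5 := Int.le_of_dvd (by omega) h4
        omega
    have n1 : ¬ Fl Δ z T k1 := fun h => ((hf' k1).1 h).1 (by simp)
    have n2 : ¬ Fl Δ z T k := fun h => ((hf' k).1 h).2 (by simp)
    have h6 := h1 V Δ n z T (k1 + 1) (k1 + 2) (k + 1) hI hz cT oT (by omega) (by omega) (by omega)
      ⟨k1 + 1, le_rfl, by omega, (Fl.at hc oT f1).1⟩
      ⟨k1 + 2, le_rfl, by omega, by
        have e : k1 + 1 + 1 = k1 + 2 := by ring
        rw [← e]
        exact (Fl.at hc oT f1).2⟩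
      ⟨k + 1, le_rfl, by omega, (Fl.at hc oT f2).1⟩
    rw [add_sub_cancel_right, add_sub_cancel_right] at h6
    rcases h6.2.1 with h7 | h7
    · exact n1 h7
    · exact n2 h7

end Pool.Agent.Lib.MP_73b196_co.St
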