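import Pool.Agent.Lib.MP_73b196_co.St.SpecC

/-!
# Y27: apex or a big vertex
-/

set_option autoImplicit false

namespace Pool.Agent.Lib.MP_73b196_co.St

theorem tY27 (h13 : StmtY13) (h20 : StmtY20) (h26 : StmtY26) : StmtY27 := by
  classical
  intro V _ _ Δ n z hV h
  have hP := hV.inP
  have h3 := h.pos
  obtain ⟨cU, fU⟩ := h13 V Δ n z hV h
  obtain ⟨D, hD, hmin⟩ := Finset.exists_min_image
    ((vs Δ \ arc z 0 n).powerset.filter fun D => Conn Δ D ∧ ∀ i, Fl Δ z D i) Finset.card
    ⟨vs Δ \ arc z 0 n, by
      rw [Finset.mem_filter, Finset.mem_powerset]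
      exact ⟨Finset.Subset.refl _, cU, fU⟩⟩
  rw [Finset.mem_filter, Finset.mem_powerset] at hD
  obtain ⟨hDU, cD, fD⟩ := hD
  have oD : Off z D := h.off_of_sub hDU
  by_cases hbig : ∃ d ∈ D, ∃ k, Conn Δ (D \ {d}) ∧ Sm Δ n z (D \ {d}) k ∧ Bg Δ n z {d} k
  · obtain ⟨d, hd, k, c1, s1, b1⟩ := hbig
    refine Or.inr ⟨d, D \ {d}, k, c1, oD.mono Finset.sdiff_subset, fun i e => oD i (e ▸ hd),
      cD.1 hd, by simp, ?_, s1, b1⟩
    have h4 : touch Δ {d} (D \ {d}) :=
      cD.2.2 {d} (Finset.singleton_subset_iff.2 hd) (Finset.singleton_nonempty d) c1.2.1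
    exact touch_symm h4
  · -- every removable vertex is small
    have hsmall : 2 ≤ D.card → ∀ d ∈ D, Conn Δ (D \ {d}) →
        ∃ k, Sm Δ n z {d} k ∧ Bg Δ n z (D \ {d}) k := by
      intro hcard d hd c1
      have hlt : (D \ {d}).card < D.card := Finset.card_lt_card (by
        rw [Finset.ssubset_iff_subset_ne]
        refine ⟨Finset.sdiff_subset, fun e => ?_⟩
        have h5 : d ∈ D \ {d} := by
          rw [e]
          exact hd
        simp at h5)
      have hcov : ∀ i, Fl Δ z {d} i ∨ Fl Δ z (D \ {d}) i := by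
        intro i
        have h5 : Fl Δ z ({d} ∪ (D \ {d})) i := by
          rw [Finset.union_sdiff_of_subset (Finset.singleton_subset_iff.2 hd)]
          exact fD i
        exact fl_union.1 h5
      have n1 : ¬ ∀ i, Fl Δ z {d} i := by
        intro h5
        have h6 := hmin {d} (by
          rw [Finset.mem_filter, Finset.mem_powerset]
          exact ⟨Finset.singleton_subset_iff.2 (hDU hd), conn_single (cD.1 hd), h5⟩)
        rw [Finset.card_singleton] at h6
        omega
      have n2 : ¬ ∀ i, Fl Δ z (D \ {d}) i := by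
        intro h5
        have h6 := hmin (D \ {d}) (by
          rw [Finset.mem_filter, Finset.mem_powerset]
          exact ⟨Finset.sdiff_subset.trans hDU, c1, h5⟩)
        omega
      have ht : touch Δ {d} (D \ {d}) :=
        cD.2.2 {d} (Finset.singleton_subset_iff.2 hd) (Finset.singleton_nonempty d) c1.2.1
      obtain ⟨k, hk | hk⟩ := h20 V Δ n z {d} (D \ {d}) hP h (conn_single (cD.1 hd)) c1
        (oD.mono (Finset.singleton_subset_iff.2 hd)) (oD.mono Finset.sdiff_subset)
        Finset.disjoint_sdiff ht hcov n1 n2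
      · exact ⟨k, hk⟩
      · exact absurd ⟨d, hd, k, c1, hk⟩ hbig
    have hpos : 0 < D.card := Finset.card_pos.2 cD.2.1
    rcases lt_trichotomy D.card 2 with hc | hc | hc
    · -- one vertex: an apex
      obtain ⟨t, ht⟩ := Finset.card_eq_one.1 (show D.card = 1 by omega)
      subst ht
      refine Or.inl ⟨t, fun i e => oD i (e ▸ Finset.mem_singleton_self _), fun i => ?_⟩
      obtain ⟨x, hx, hF⟩ := (fD i).face hP.cx
      rw [Finset.mem_singleton] at hx
      rw [← hx]
      exact hF
    · -- two vertices
      obtain ⟨d, d', hne, hDe⟩ := Finset.card_eq_two.1 hc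
      have e1 : D \ {d} = {d'} := by
        rw [hDe]
        ext v
        simp only [Finset.mem_sdiff, Finset.mem_insert, Finset.mem_singleton]
        constructor
        · rintro ⟨h5 | h5, h6⟩
          · exact absurd h5 h6
          · exact h5
        · intro h5
          exact ⟨Or.inr h5, fun h6 => hne (h6 ▸ h5)⟩
      have e2 : D \ {d'} = {d} := by
        rw [hDe]
        ext v
        simp only [Finset.mem_sdiff, Finset.mem_insert, Finset.mem_singleton]
        constructor
        · rintro ⟨h5 | h5, h6⟩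
          · exact h5
          · exact absurd h5 h6
        · intro h5
          exact ⟨Or.inl h5, fun h6 => hne (h5 ▸ h6)⟩
      have hdD : d ∈ D := by rw [hDe]; simp
      have hdD' : d' ∈ D := by rw [hDe]; simp
      obtain ⟨k, _, b1⟩ := hsmall (by omega) d hdD (by
        rw [e1]
        exact conn_single (cD.1 hdD'))
      obtain ⟨k', s2, _⟩ := hsmall (by omega) d' hdD' (by
        rw [e2]
        exact conn_single (cD.1 hdD))
      rw [e1] at b1
      have o' : Off z {d'} := oD.mono (Finset.singleton_subset_iff.2 hdD')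
      have g1 := (h.sm_fl hP.cx o' s2).1 (b1.2 (k + 1) (by omega) (by omega))
      have g2 := (h.sm_fl hP.cx o' s2).1 (b1.2 (k + 2) (by omega) (by omega))
      have g3 := dvd_sub g2 g1
      have e : k + 2 - k' - (k + 1 - k') = 1 := by ring
      rw [e] at g3
      have g4 := Int.le_of_dvd (by norm_num) g3
      omega
    · exact absurd (h26 V Δ n z D hP h cD oD (by omega) (hsmall (by omega))) id

end Pool.Agent.Lib.MP_73b196_co.St
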