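import Pool.Agent.Lib.MP_73b196_co.St.SpecC

/-!
# Y28: a hollow triangle is a hollow cycle
-/

set_option autoImplicit false

namespace Pool.Agent.Lib.MP_73b196_co.St

/-- The periodic sequence `a, b, c`. -/
def Y28_z {V : Type} (a b c : V) (i : ℤ) : V := if i % 3 = 0 then a else if i % 3 = 1 then b else c

theorem Y28_val {V : Type} (a b c : V) (i : ℤ) :
    (i % 3 = 0 ∧ Y28_z a b c i = a) ∨ (i % 3 = 1 ∧ Y28_z a b c i = b) ∨
      (i % 3 = 2 ∧ Y28_z a b c i = c) := by
  have h : i % 3 = 0 ∨ i % 3 = 1 ∨ i % 3 = 2 := by omega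
  unfold Y28_z
  rcases h with h | h | h
  · exact Or.inl ⟨h, by simp [h]⟩
  · exact Or.inr (Or.inl ⟨h, by simp [h]⟩)
  · exact Or.inr (Or.inr ⟨h, by simp [h]⟩)

theorem tY28 : StmtY28 := by
  intro V _ _ Δ a b c hc hab hac hbc habc
  refine ⟨Y28_z a b c, ⟨by norm_num, ?_, ?_, ?_⟩, rfl, rfl, rfl⟩
  · intro i j
    have e : ((3 : ℕ) : ℤ) = 3 := rfl
    rw [e]
    rcases Y28_val a b c i with ⟨h1, h2⟩ | ⟨h1, h2⟩ | ⟨h1, h2⟩ <;>
      rcases Y28_val a b c j with ⟨h3, h4⟩ | ⟨h3, h4⟩ | ⟨h3, h4⟩ <;> rw [h2, h4]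
    · exact iff_of_true rfl (by omega)
    · exact iff_of_false hab.1 (by omega)
    · exact iff_of_false hac.1 (by omega)
    · exact iff_of_false hab.1.symm (by omega)
    · exact iff_of_true rfl (by omega)
    · exact iff_of_false hbc.1 (by omega)
    · exact iff_of_false hac.1.symm (by omega)
    · exact iff_of_false hbc.1.symm (by omega)
    · exact iff_of_true rfl (by omega)
  · intro i j
    have e : ((3 : ℕ) : ℤ) = 3 := rfl
    rw [e]
    rcases Y28_val a b c i with ⟨h1, h2⟩ | ⟨h1, h2⟩ | ⟨h1, h2⟩ <;>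
      rcases Y28_val a b c j with ⟨h3, h4⟩ | ⟨h3, h4⟩ | ⟨h3, h4⟩ <;> rw [h2, h4]
    · exact iff_of_false (fun h => h.1 rfl) (by omega)
    · exact iff_of_true hab (by omega)
    · exact iff_of_true hac (by omega)
    · exact iff_of_true (adj_symm hab) (by omega)
    · exact iff_of_false (fun h => h.1 rfl) (by omega)
    · exact iff_of_true hbc (by omega)
    · exact iff_of_true (adj_symm hac) (by omega)
    · exact iff_of_true (adj_symm hbc) (by omega)
    · exact iff_of_false (fun h => h.1 rfl) (by omega)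
  · intro i j k h1 h2 h3 hF
    refine habc ?_
    have e : ({a, b, c} : Finset V) = {Y28_z a b c i, Y28_z a b c j, Y28_z a b c k} := by
      rcases Y28_val a b c i with ⟨_, e1⟩ | ⟨_, e1⟩ | ⟨_, e1⟩ <;>
        rcases Y28_val a b c j with ⟨_, e2⟩ | ⟨_, e2⟩ | ⟨_, e2⟩ <;>
        rcases Y28_val a b c k with ⟨_, e3⟩ | ⟨_, e3⟩ | ⟨_, e3⟩ <;>
        rw [e1, e2] at h1 <;> rw [e1, e3] at h2 <;> rw [e2, e3] at h3 <;> rw [e1, e2, e3] <;>
        first
        | exact absurd rfl h1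
        | exact absurd rfl h2
        | exact absurd rfl h3
        | (ext v; simp only [Finset.mem_insert, Finset.mem_singleton]; tauto)
    rw [e]
    exact hF

end Pool.Agent.Lib.MP_73b196_co.St
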