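import Pool.Agent.Lib.MP_73b196_co.St.SpecC

/-!
# Y29: hollow triangles have an apex
-/

set_option autoImplicit false

namespace Pool.Agent.Lib.MP_73b196_co.St

namespace Y29

variable {V : Type} [Fintype V] [DecidableEq V] {Δ : Set (Finset V)}
  {u v w t : V} {E : Finset V}

/-- `Y23` in the two symmetric cases. -/
theorem core (h23 : StmtY23) (hV : Vio Δ) (auv : adj Δ u v) (auw : adj Δ u w) (avw : adj Δ v w)
    (huvw : ({u, v, w} : Finset V) ∉ Δ) (tu : t ≠ u) (tv : t ≠ v) (tw : t ≠ w)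
    (f1 : ({t, u, w} : Finset V) ∈ Δ) (f2 : ({t, v, w} : Finset V) ∈ Δ)
    (f3 : ({t, u, v} : Finset V) ∉ Δ) (cE : Conn Δ E) (hu : u ∉ E) (hv : v ∉ E) (hw : w ∉ E)
    (htE : t ∉ E) (tE : touch Δ E {t}) (g1 : fill Δ [E, {u}, {v}]) (g2 : ¬ touch Δ E {w})
    (g3 : fill Δ [E, {t}, {v}] ∨ fill Δ [E, {t}, {u}])
    (g4 : ¬ (fill Δ [E, {t}, {v}] ∧ fill Δ [E, {t}, {u}])) :
    ∃ q, q ≠ u ∧ q ≠ v ∧ q ≠ w ∧ ({q, u, v} : Finset V) ∈ Δ ∧ ({q, u, w} : Finset V) ∈ Δ ∧
      ({q, v, w} : Finset V) ∈ Δ := by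
  have hc := hV.inP.cx
  have atu : adj Δ t u := hc.adj_of_face f1 (by simp) (by simp) tu
  have atv : adj Δ t v := hc.adj_of_face f2 (by simp) (by simp) tv
  have atw : adj Δ t w := hc.adj_of_face f1 (by simp) (by simp) tw
  have e1 : ({t, u, v} : Finset V) = {u, v, t} := by
    ext x
    simp only [Finset.mem_insert, Finset.mem_singleton]
    tauto
  have e2 : ({v, u, t} : Finset V) = {u, v, t} := by
    ext x
    simp only [Finset.mem_insert, Finset.mem_singleton]
    tauto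
  have hcon : Conn Δ (vs Δ \ {u, v, t}) :=
    hV.noTri u v t auv (adj_symm atu) (adj_symm atv) (by rw [← e1]; exact f3)
  rcases g3 with g5 | g5
  · have g6 : ¬ fill Δ [E, {t}, {u}] := fun h => g4 ⟨g5, h⟩
    exact h23 V Δ u v w t E hV.inP hcon auv auw avw huvw atw f1 f2 f3 cE hu hv hw htE tE g1 g2 g5 g6
  · have g6 : ¬ fill Δ [E, {t}, {v}] := fun h => g4 ⟨h, g5⟩
    obtain ⟨q, q1, q2, q3, h1, h2, h3⟩ := h23 V Δ v u w t E hV.inP (by rw [e2]; exact hcon)
      (adj_symm auv) avw auw (by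
        intro h
        apply huvw
        have e : ({u, v, w} : Finset V) = {v, u, w} := by
          ext x
          simp only [Finset.mem_insert, Finset.mem_singleton]
          tauto
        rwa [e]) atw f2 f1 (by
        intro h
        apply f3
        have e : ({t, u, v} : Finset V) = {t, v, u} := by
          ext x
          simp only [Finset.mem_insert, Finset.mem_singleton]
          tauto
        rwa [e]) cE hv hu hw htE tE (Rules_sub g1 (by simp)) g2 g5 g6
    refine ⟨q, q2, q1, q3, ?_, h3, h2⟩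
    rw [Finset.pair_comm u v]
    exact h1

/-- Every hollow cycle with three vertices has an apex. -/
theorem apex (h21 : StmtY21) (h23 : StmtY23) (h27 : StmtY27) (hV : Vio Δ) {z : ℤ → V}
    (hz : HC Δ 3 z) : ∃ t, Ap Δ z t := by
  have hI := hV.inP
  have hc := hI.cx
  rcases h27 V Δ 3 z hV hz with h | ⟨t, E, k, cE, oE, htz, tvs, htE, tE, hs, hb⟩
  · exact h
  have ot : Off z {t} := fun i h => htz i (Finset.mem_singleton.1 h)
  have fls : ∀ {q : V} {i : ℤ}, Fl Δ z {q} i ↔ ({q, z i, z (i + 1)} : Finset V) ∈ Δ := by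
    intro q i
    exact hc.fill_three
  obtain ⟨h1, h2⟩ := h21 V Δ 3 z E {t} k hI hz cE (conn_single tvs) oE ot
    (Finset.disjoint_singleton_right.2 htE) tE hs hb
  have e3 : z (k + 3) = z k := hz.eq_add k
  have n01 : z k ≠ z (k + 1) := hz.ne_of (by omega) (by push_cast; omega)
  have n02 : z k ≠ z (k + 2) := hz.ne_of (by omega) (by push_cast; omega)
  have n12 : z (k + 1) ≠ z (k + 2) := hz.ne_of (by omega) (by push_cast; omega)
  have a12 : adj Δ (z (k + 1)) (z (k + 2)) := by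
    have := hz.adj_succ (k + 1)
    rwa [add_assoc, show (1 : ℤ) + 1 = 2 by norm_num] at this
  have a02 : adj Δ (z k) (z (k + 2)) := by
    have := hz.adj_succ (k + 2)
    rw [add_assoc, show (2 : ℤ) + 1 = 3 by norm_num, e3] at this
    exact adj_symm this
  have f2 : ({t, z (k + 1), z (k + 2)} : Finset V) ∈ Δ := by
    have := fls.1 (hb.2 (k + 1) (by omega) (by push_cast; omega))
    rwa [add_assoc, show (1 : ℤ) + 1 = 2 by norm_num] at this
  have f1 : ({t, z k, z (k + 2)} : Finset V) ∈ Δ := by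
    have := fls.1 (hb.2 (k + 2) (by omega) (by push_cast; omega))
    rw [add_assoc, show (2 : ℤ) + 1 = 3 by norm_num, e3, Finset.pair_comm] at this
    exact this
  obtain ⟨q, q1, q2, q3, h3, h4, h5⟩ := core (u := z k) (v := z (k + 1)) (w := z (k + 2)) (t := t)
    (E := E) h23 hV (hz.adj_succ k) a02 a12 (hz.hollow _ _ _ n01 n02 n12) (htz _).symm (htz _).symm
    (htz _).symm f1 f2 (fun h => hb.1 (fls.2 h)) cE (oE _) (oE _) (oE _) htE tE hs.1
    (by
      intro h
      exact hs.2 (k + 2) (by omega) (by push_cast; omega) h) h1.symm (fun h => h2 ⟨h.2, h.1⟩)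
  refine ⟨q, fun i => ?_, fun i => ?_⟩
  · obtain ⟨j, h6, h7, h8, _⟩ := hz.window k i
    rw [← h8]
    have h9 : j = k ∨ j = k + 1 ∨ j = k + 2 := by
      push_cast at h7
      omega
    rcases h9 with rfl | rfl | rfl
    · exact q1.symm
    · exact q2.symm
    · exact q3.symm
  · rw [← fls]
    obtain ⟨j, h6, h7, _, h8⟩ := hz.window k i
    rw [hz.fl_congr h8, fls]
    have h9 : j = k ∨ j = k + 1 ∨ j = k + 2 := by
      push_cast at h7
      omega
    rcases h9 with rfl | rfl | rfl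
    · exact h3
    · rw [add_assoc, show (1 : ℤ) + 1 = 2 by norm_num]
      exact h5
    · rw [add_assoc, show (2 : ℤ) + 1 = 3 by norm_num, e3, Finset.pair_comm]
      exact h4

end Y29

theorem tY29 (h21 : StmtY21) (h23 : StmtY23) (h27 : StmtY27) (h28 : StmtY28) : StmtY29 := by
  intro V _ _ Δ a b c hV hab hac hbc habc
  have hc := hV.inP.cx
  obtain ⟨z, hz, z0, z1, z2⟩ := h28 V Δ a b c hc hab hac hbc habc
  obtain ⟨t, ht, hf⟩ := Y29.apex h21 h23 h27 hV hz
  have e3 : z (2 + 1) = a := by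
    rw [← z0]
    exact hz.eq_of ⟨1, by norm_num⟩
  refine ⟨t, ?_, ?_, ?_, ?_, ?_, ?_⟩
  · rw [← z0]
    exact (ht 0).symm
  · rw [← z1]
    exact (ht 1).symm
  · rw [← z2]
    exact (ht 2).symm
  · have := hf 0
    rwa [zero_add, z0, z1] at this
  · have := hf 2
    rwa [z2, e3, Finset.pair_comm] at this
  · have := hf 1
    rwa [z1, show (1 : ℤ) + 1 = 2 by norm_num, z2] at this

end Pool.Agent.Lib.MP_73b196_co.St
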