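import Pool.Agent.Lib.MP_73b196_co.St.SpecC

/-!
# Every attachment is an end of a filled edge
-/

set_option autoImplicit false

namespace Pool.Agent.Lib.MP_73b196_co.St

theorem tY3 (h2 : StmtY2) : StmtY3 := by
  intro V _ _ Δ n z X hP h hX hoff hat
  have hn3 := h.pos
  by_cases hall : ∀ i, Fl Δ z X i
  · exact ⟨fun i _ => Or.inr (hall i), 0, hall 0, hall _⟩
  · push Not at hall
    obtain ⟨e, he⟩ := hall
    obtain ⟨a, b, ha, hab, hb, hf, hl, hr⟩ := h2 V Δ n z X e hP h hX hoff hat he
    refine ⟨?_, a, hf a le_rfl (by omega), hf (a + 1) (by omega) (by omega)⟩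
    intro i hi
    obtain ⟨j, hj1, hj2, hj3, hj4⟩ := h.at_window (e + 1) hi
    have hja : a ≤ j := by
      by_contra hcon
      exact hl j (by omega) (by omega) hj3
    have hjb : j ≤ b := by
      by_contra hcon
      exact hr j (by omega) (by omega) hj3
    rcases lt_or_eq_of_le hjb with h3 | h3
    · exact Or.inr ((h.fl_congr hj4).2 (hf j hja h3))
    · refine Or.inl ((h.fl_congr (i := i - 1) (j := j - 1) ?_).2 (hf (j - 1) (by omega) (by omega)))
      have e1 : i - 1 - (j - 1) = i - j := by ring
      rw [e1]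
      exact hj4

end Pool.Agent.Lib.MP_73b196_co.St
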