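import Pool.Agent.Lib.MP_73b196_co.St.SpecC

/-!
# Y30: the apex lemma
-/

set_option autoImplicit false

namespace Pool.Agent.Lib.MP_73b196_co.St

namespace Y30

variable {V : Type} [Fintype V] [DecidableEq V] {Δ : Set (Finset V)} {n : ℕ} {z : ℤ → V}
  {t q : V}

/-- Filling by a single vertex. -/
theorem fl_single (hc : IsCx Δ) {i : ℤ} :
    Fl Δ z {t} i ↔ ({t, z i, z (i + 1)} : Finset V) ∈ Δ := by
  unfold Fl
  exact hc.fill_three

/-- `q` fills the next edge. -/
theorem next (hI : InP Δ) (hz : HC Δ n z) (h4 : 4 ≤ n) (ht : ∀ i, z i ≠ t) (hq : ∀ i, z i ≠ q)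
    (hb : Bg Δ n z {t} 0) (htq : q ≠ t) (h1 : ({q, z 0, z 1} : Finset V) ∈ Δ)
    (h2 : ({q, z 0, t} : Finset V) ∈ Δ) (h3 : ({q, z 1, t} : Finset V) ∈ Δ) :
    ({q, z 1, z 2} : Finset V) ∈ Δ := by
  have hc := hI.cx
  have hn := hz.pos
  have ot : Off z {t} := fun i h => ht i (Finset.mem_singleton.1 h)
  have oq : Off z {q} := fun i h => hq i (Finset.mem_singleton.1 h)
  have azn : z (0 + n) = z 0 := hz.eq_add 0
  rw [zero_add] at azn
  have hadj01 : z 0 ≠ z 1 := hz.ne_of (by omega) (by omega)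
  have aq1 : adj Δ q (z 1) := hc.adj_of_face h1 (by simp) (by simp) (hq 1).symm
  have aqt : adj Δ q t := hc.adj_of_face h2 (by simp) (by simp) htq
  have a1t : adj Δ (z 1) t := hc.adj_of_face h3 (by simp) (by simp) (ht 1)
  have aq0 : adj Δ q (z 0) := hc.adj_of_face h1 (by simp) (by simp) (hq 0).symm
  have m0 : z 0 ∈ arc z 2 (n + 1) := azn ▸ mem_arc_of (by omega) (by omega)
  have m2 : z 2 ∈ arc z 2 (n + 1) := mem_arc_of (by omega) (by omega)
  have f1 : ({t, z 1, z 2} : Finset V) ∈ Δ := fl_single hc |>.1 (hb.2 1 (by omega) (by omega))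
  have hCM : CM Δ [arc z 2 (n + 1), {q}, {z 1}, {t}] := by
    refine ⟨?_, ?_⟩
    · intro X hX
      simp only [List.mem_cons, List.not_mem_nil, or_false] at hX
      rcases hX with rfl | rfl | rfl | rfl
      · exact hz.arc_conn hc (by omega)
      · exact conn_single (hc.adj_vs aqt).1
      · exact conn_single (hc.adj_vs a1t).1
      · exact conn_single (hc.adj_vs a1t).2
    · simp only [List.pairwise_cons, List.mem_cons, List.not_mem_nil, or_false, List.Pairwise.nil,
        and_true, IsEmpty.forall_iff, implies_true, forall_eq_or_imp, forall_eq]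
      refine ⟨⟨⟨oq.disj.symm, z 0, m0, q, Finset.mem_singleton_self _, adj_symm aq0⟩, ⟨?_, z 2, m2,
        z 1, Finset.mem_singleton_self _, adj_symm (hz.adj_succ 1)⟩,
        ⟨ot.disj.symm, z 2, m2, t, Finset.mem_singleton_self _,
          hc.adj_of_face f1 (by simp) (by simp) (ht 2)⟩⟩,
        ⟨⟨Finset.disjoint_singleton.2 (hq 1).symm, touch_single.2 aq1⟩,
          ⟨Finset.disjoint_singleton.2 htq, touch_single.2 aqt⟩⟩,
        ⟨Finset.disjoint_singleton.2 (ht 1), touch_single.2 a1t⟩⟩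
      rw [Finset.disjoint_singleton_right]
      intro h
      obtain ⟨i, h5, h6, h7⟩ := mem_arc.1 h
      exact hz.ne_of (i := 1) (j := i) (by omega) (by omega) h7.symm
  have hfill : fill Δ [arc z 2 (n + 1), {q}, {z 1}, {t}] := by
    refine hI.k4all hCM ⟨_, h1, ?_⟩ ⟨_, h2, ?_⟩ ⟨_, f1, ?_⟩ ⟨_, h3, ?_⟩
    · intro A hA
      simp only [List.mem_cons, List.not_mem_nil, or_false] at hA
      rcases hA with rfl | rfl | rfl
      · exact ⟨z 0, Finset.mem_inter.2 ⟨by simp, m0⟩⟩
      · exact ⟨q, by simp⟩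
      · exact ⟨z 1, by simp⟩
    · intro A hA
      simp only [List.mem_cons, List.not_mem_nil, or_false] at hA
      rcases hA with rfl | rfl | rfl
      · exact ⟨z 0, Finset.mem_inter.2 ⟨by simp, m0⟩⟩
      · exact ⟨q, by simp⟩
      · exact ⟨t, by simp⟩
    · intro A hA
      simp only [List.mem_cons, List.not_mem_nil, or_false] at hA
      rcases hA with rfl | rfl | rfl
      · exact ⟨z 2, Finset.mem_inter.2 ⟨by simp, m2⟩⟩
      · exact ⟨z 1, by simp⟩
      · exact ⟨t, by simp⟩
    · intro A hA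
      simp only [List.mem_cons, List.not_mem_nil, or_false] at hA
      rcases hA with rfl | rfl | rfl
      · exact ⟨q, by simp⟩
      · exact ⟨z 1, by simp⟩
      · exact ⟨t, by simp⟩
  obtain ⟨F, hF, hm⟩ := hfill
  have hqF : q ∈ F := by
    obtain ⟨x, hx⟩ := hm {q} (by simp)
    rw [Finset.mem_inter, Finset.mem_singleton] at hx
    exact hx.2 ▸ hx.1
  have h1F : z 1 ∈ F := by
    obtain ⟨x, hx⟩ := hm {z 1} (by simp)
    rw [Finset.mem_inter, Finset.mem_singleton] at hx
    exact hx.2 ▸ hx.1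
  have htF : t ∈ F := by
    obtain ⟨x, hx⟩ := hm {t} (by simp)
    rw [Finset.mem_inter, Finset.mem_singleton] at hx
    exact hx.2 ▸ hx.1
  obtain ⟨x, hx⟩ := hm (arc z 2 (n + 1)) (by simp)
  rw [Finset.mem_inter] at hx
  obtain ⟨j, h5, h6, rfl⟩ := mem_arc.1 hx.2
  have h7 : z 1 ≠ z j := hz.ne_of (by omega) (by omega)
  rcases hz.adj_window (i := 1) (j := j) (by omega) (by omega)
    (hc.adj_of_face hF h1F hx.1 h7) with h8 | h8
  · have e : j = 2 := by omega
    subst e
    refine hc.down F hF _ ?_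
    intro w hw
    simp only [Finset.mem_insert, Finset.mem_singleton] at hw
    rcases hw with rfl | rfl | rfl
    · exact hqF
    · exact h1F
    · exact hx.1
  · exfalso
    have e : j = n := by omega
    rw [e, azn] at hx
    refine hb.1 (fl_single hc |>.2 (hc.down F hF _ ?_))
    intro w hw
    simp only [Finset.mem_insert, Finset.mem_singleton] at hw
    rcases hw with rfl | rfl | rfl
    · exact htF
    · exact hx.1
    · exact h1F

theorem big (h20 : StmtY20) (h29 : StmtY29) (hV : Vio Δ) (hz : HC Δ n z) (h4 : 4 ≤ n)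
    (ht : ∀ i, z i ≠ t) (hb : Bg Δ n z {t} 0) : ∃ q, Ap Δ z q := by
  have hI := hV.inP
  have hc := hI.cx
  have hn := hz.pos
  have ot : Off z {t} := fun i h => ht i (Finset.mem_singleton.1 h)
  have hat : ∀ i, adj Δ (z i) t := by
    intro i
    exact adj_symm (touch_single.1 (hz.bg_at hc ot hb i))
  obtain ⟨q, q0, q1, qt, f1, f2, f3⟩ := h29 V Δ (z 0) (z 1) t hV (hz.adj_succ 0) (hat 0) (hat 1)
    (by
      intro h
      refine hb.1 ((fl_single hc).2 ?_)
      have e : ({t, z 0, z (0 + 1)} : Finset V) = {z 0, z 1, t} := by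
        rw [zero_add]
        ext w
        simp only [Finset.mem_insert, Finset.mem_singleton]
        tauto
      rwa [e])
  have h01 : z 0 ≠ z 1 := hz.ne_of (by omega) (by omega)
  have hq : ∀ i, z i ≠ q := by
    intro i e
    rw [← e] at f1 q0 q1
    exact hz.no_three hc f1 (i := i) (j := 0) (k := 1) (by simp) (by simp) (by simp) q0 q1 h01
  have oq : Off z {q} := fun i h => hq i (Finset.mem_singleton.1 h)
  have g1 : ({q, z 1, z 2} : Finset V) ∈ Δ := next hI hz h4 ht hq hb qt f1 f2 f3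
  have g0 : Fl Δ z {q} 0 := (fl_single hc).2 (by rw [zero_add]; exact f1)
  have g1' : Fl Δ z {q} 1 := (fl_single hc).2 g1
  by_cases hall : ∀ i, Fl Δ z {q} i
  · exact ⟨q, hq, fun i => (fl_single hc).1 (hall i)⟩
  exfalso
  have aqt : adj Δ t q := hc.adj_of_face f2 (by simp) (by simp) (Ne.symm qt)
  obtain ⟨k, h5 | h5⟩ := h20 V Δ n z {t} {q} hI hz (conn_single (hc.adj_vs aqt).1)
    (conn_single (hc.adj_vs aqt).2) ot oq (Finset.disjoint_singleton.2 (Ne.symm qt))
    (touch_single.2 aqt) (by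
      intro i
      by_cases h6 : (n : ℤ) ∣ i - 0
      · exact Or.inr ((hz.fl_congr h6).2 g0)
      · exact Or.inl ((hz.bg_fl hb).2 h6)) (fun h => hb.1 (h 0)) hall
  · have h6 := (hz.sm_fl hc ot h5.1).1 (hb.2 1 (by omega) (by omega))
    have h7 := (hz.sm_fl hc ot h5.1).1 (hb.2 2 (by omega) (by omega))
    have h8 := dvd_sub h7 h6
    have e : (2 - k - (1 - k) : ℤ) = 1 := by ring
    rw [e] at h8
    have := Int.le_of_dvd (by omega) h8
    omega
  · have h6 := (hz.sm_fl hc oq h5.1).1 g0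
    have h7 := (hz.sm_fl hc oq h5.1).1 g1'
    have h8 := dvd_sub h7 h6
    have e : (1 - k - (0 - k) : ℤ) = 1 := by ring
    rw [e] at h8
    have := Int.le_of_dvd (by omega) h8
    omega

end Y30

theorem tY30 (_h2 : StmtY2) (h20 : StmtY20) (h27 : StmtY27) (h29 : StmtY29) : StmtY30 := by
  intro V _ _ Δ n z hV hz
  have hc := hV.inP.cx
  have hn := hz.three
  rcases Nat.lt_or_ge n 4 with h4 | h4
  · have h3 : n = 3 := by omega
    subst h3
    obtain ⟨t, t0, t1, t2, f1, f2, f3⟩ := h29 V Δ (z 0) (z 1) (z 2) hV (hz.adj_succ 0)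
      ((hz.adjIff 0 2).2 (Or.inl ⟨-1, by norm_num⟩)) (hz.adj_succ 1)
      (hz.hollow 0 1 2 (hz.ne_of (by norm_num) (by norm_num)) (hz.ne_of (by norm_num) (by norm_num))
        (hz.ne_of (by norm_num) (by norm_num)))
    refine ⟨t, fun i => ?_, fun i => ?_⟩
    · obtain ⟨j, h5, h6, h7, _⟩ := hz.window 0 i
      rw [← h7]
      have h8 : j = 0 ∨ j = 1 ∨ j = 2 := by
        push_cast at h6
        omega
      rcases h8 with rfl | rfl | rfl
      · exact t0.symm
      · exact t1.symm
      · exact t2.symm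
    · rw [← Y30.fl_single hc]
      obtain ⟨j, h5, h6, _, h7⟩ := hz.window 0 i
      rw [hz.fl_congr h7, Y30.fl_single hc]
      have h8 : j = 0 ∨ j = 1 ∨ j = 2 := by
        push_cast at h6
        omega
      rcases h8 with rfl | rfl | rfl
      · exact f1
      · exact f3
      · have e : z (2 + 1) = z 0 := hz.eq_of ⟨1, by norm_num⟩
        rw [e, Finset.pair_comm (z 2) (z 0)]
        exact f2
  · rcases h27 V Δ n z hV hz with ⟨t, h5⟩ | ⟨t, E, k, _, _, h7, _, _, _, _, h12⟩
    · exact ⟨t, h5⟩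
    · obtain ⟨q, h13, h14⟩ := Y30.big (z := fun i => z (i + k)) (t := t) h20 h29 hV (hz.shift k) h4
        (fun i => h7 _) (by rw [bg_shift, zero_add]; exact h12)
      refine ⟨q, fun i => ?_, fun i => ?_⟩
      · have := h13 (i - k)
        simpa using this
      · have := h14 (i - k)
        have e1 : i - k + k = i := by ring
        have e2 : i - k + 1 + k = i + 1 := by ring
        simp only [e1, e2] at this
        exact this

end Pool.Agent.Lib.MP_73b196_co.St
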