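import Pool.Agent.Lib.MP_73b196_co.St.SpecC

/-!
# Y31: a hollow partition contains a hollow cycle
-/

set_option autoImplicit false

namespace Pool.Agent.Lib.MP_73b196_co.St

section Y31

variable {V : Type} [Fintype V] [DecidableEq V] {Δ : Set (Finset V)} {A B C : Finset V}

/-- A closed walk through `A`, `B`, `C`. -/
structure Y31_W (Δ : Set (Finset V)) (A B C : Finset V) (n p q : ℕ) (w : ℕ → V) : Prop where
  hp : 0 < p
  hq : p < q
  hn : q < n
  wA : ∀ i, i < p → w i ∈ A
  wB : ∀ i, p ≤ i → i < q → w i ∈ B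
  wC : ∀ i, q ≤ i → i < n → w i ∈ C
  ad : ∀ i, i + 1 < n → adj Δ (w i) (w (i + 1))
  cl : adj Δ (w (n - 1)) (w 0)

theorem Y31_path (hA : Conn Δ A) {x y : V} (hx : x ∈ A) (hy : y ∈ A) :
    ∃ (m : ℕ) (u : ℕ → V), u 0 = x ∧ u m = y ∧ (∀ i, i ≤ m → u i ∈ A) ∧
      ∀ i, i < m → adj Δ (u i) (u (i + 1)) := by
  classical
  by_contra hno
  let R : Finset V := A.filter fun v => ∃ (m : ℕ) (u : ℕ → V), u 0 = x ∧ u m = v ∧
    (∀ i, i ≤ m → u i ∈ A) ∧ ∀ i, i < m → adj Δ (u i) (u (i + 1))
  have hxR : x ∈ R := by
    refine Finset.mem_filter.2 ⟨hx, 0, fun _ => x, rfl, rfl, fun _ _ => hx, fun i hi => ?_⟩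
    omega
  have hyR : y ∉ R := fun h => hno (Finset.mem_filter.1 h).2
  obtain ⟨r, hr, s, hs, hrs⟩ := hA.2.2 R (Finset.filter_subset _ _) ⟨x, hxR⟩
    ⟨y, Finset.mem_sdiff.2 ⟨hy, hyR⟩⟩
  obtain ⟨_, m, u, h0, h1, h2, h3⟩ := Finset.mem_filter.1 hr
  rw [Finset.mem_sdiff] at hs
  apply hs.2
  refine Finset.mem_filter.2 ⟨hs.1, m + 1, fun i => if i ≤ m then u i else s, ?_, ?_, ?_, ?_⟩
  · simpa using h0
  · simp
  · intro i _
    by_cases h : i ≤ m
    · simp only [h, if_true]
      exact h2 i h
    · simp only [h, if_false]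
      exact hs.1
  · intro i hi
    by_cases h : i + 1 ≤ m
    · have h' : i ≤ m := by omega
      simp only [h, h', if_true]
      exact h3 i (by omega)
    · have h' : i = m := by omega
      subst h'
      simp only [le_refl, if_true, h, if_false, h1]
      exact hrs

theorem Y31_exists (hm : CM Δ [A, B, C]) : ∃ n p q w, Y31_W Δ A B C n p q w := by
  have hcA := hm.1 A (by simp)
  have hcB := hm.1 B (by simp)
  have hcC := hm.1 C (by simp)
  have hp := hm.2
  simp only [List.pairwise_cons, List.mem_cons, List.not_mem_nil, or_false, List.Pairwise.nil,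
    and_true, IsEmpty.forall_iff, implies_true, forall_eq_or_imp, forall_eq] at hp
  obtain ⟨⟨⟨_, hAB⟩, _, hAC⟩, _, hBC⟩ := hp
  obtain ⟨a1, ha1, b0, hb0, hab⟩ := hAB
  obtain ⟨b1, hb1, c0, hc0, hbc⟩ := hBC
  obtain ⟨a0, ha0, c1, hc1, hac⟩ := hAC
  obtain ⟨l, u, hu0, hu1, hu2, hu3⟩ := Y31_path hcA ha0 ha1
  obtain ⟨m, v, hv0, hv1, hv2, hv3⟩ := Y31_path hcB hb0 hb1
  obtain ⟨k, t, ht0, ht1, ht2, ht3⟩ := Y31_path hcC hc0 hc1
  refine ⟨l + m + k + 3, l + 1, l + m + 2, fun i => if i ≤ l then u i else
    if i ≤ l + m + 1 then v (i - l - 1) else t (i - l - m - 2), ?_⟩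
  constructor
  · omega
  · omega
  · omega
  · intro i hi
    have h1 : i ≤ l := by omega
    simp only [h1, if_true]
    exact hu2 i h1
  · intro i hi hi'
    have h1 : ¬ i ≤ l := by omega
    have h2 : i ≤ l + m + 1 := by omega
    simp only [h1, h2, if_true, if_false]
    exact hv2 _ (by omega)
  · intro i hi hi'
    have h1 : ¬ i ≤ l := by omega
    have h2 : ¬ i ≤ l + m + 1 := by omega
    simp only [h1, h2, if_false]
    exact ht2 _ (by omega)
  · intro i hi
    rcases lt_trichotomy i l with h | h | h
    · have h1 : i ≤ l := by omega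
      have h2 : i + 1 ≤ l := by omega
      simp only [h1, h2, if_true]
      exact hu3 i h
    · subst h
      have h1 : ¬ i + 1 ≤ i := by omega
      have h2 : i + 1 ≤ i + m + 1 := by omega
      have h3 : i + 1 - i - 1 = 0 := by omega
      simp only [le_refl, h1, h2, if_true, if_false, h3, hu1, hv0]
      exact hab
    · rcases lt_trichotomy i (l + m + 1) with h' | h' | h'
      · have h1 : ¬ i ≤ l := by omega
        have h2 : ¬ i + 1 ≤ l := by omega
        have h3 : i ≤ l + m + 1 := by omega
        have h4 : i + 1 ≤ l + m + 1 := by omega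
        have h5 : i + 1 - l - 1 = i - l - 1 + 1 := by omega
        simp only [h1, h2, h3, h4, if_true, if_false, h5]
        exact hv3 _ (by omega)
      · subst h'
        have h1 : ¬ l + m + 1 ≤ l := by omega
        have h2 : ¬ l + m + 1 + 1 ≤ l := by omega
        have h4 : ¬ l + m + 1 + 1 ≤ l + m + 1 := by omega
        have h5 : l + m + 1 - l - 1 = m := by omega
        have h6 : l + m + 1 + 1 - l - m - 2 = 0 := by omega
        simp only [h1, h2, h4, le_refl, if_true, if_false, h5, h6, hv1, ht0]
        exact hbc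
      · have h1 : ¬ i ≤ l := by omega
        have h2 : ¬ i + 1 ≤ l := by omega
        have h3 : ¬ i ≤ l + m + 1 := by omega
        have h4 : ¬ i + 1 ≤ l + m + 1 := by omega
        have h5 : i + 1 - l - m - 2 = i - l - m - 2 + 1 := by omega
        simp only [h1, h2, h3, h4, if_false, h5]
        exact ht3 _ (by omega)
  · have h1 : ¬ l + m + k + 3 - 1 ≤ l := by omega
    have h2 : ¬ l + m + k + 3 - 1 ≤ l + m + 1 := by omega
    have h5 : l + m + k + 3 - 1 - l - m - 2 = k := by omega
    simp only [h1, h2, if_false, h5, ht1, Nat.zero_le, if_true, hu0]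
    exact adj_symm hac

omit [Fintype V] in
/-- Cutting out the part strictly between `i` and `j = i + d + 1`. -/
theorem Y31_cut {n p q : ℕ} {w : ℕ → V} (h : Y31_W Δ A B C n p q w) {i d : ℕ}
    (hj : i + d + 1 < n) (hij : adj Δ (w i) (w (i + d + 1))) {p' q' : ℕ} (hp : 0 < p')
    (hq : p' < q') (hn : q' < n - d)
    (hA : ∀ k, k < p' → (k ≤ i → k < p) ∧ (i < k → k + d < p))
    (hB : ∀ k, p' ≤ k → k < q' → (k ≤ i → p ≤ k ∧ k < q) ∧ (i < k → p ≤ k + d ∧ k + d < q))
    (hC : ∀ k, q' ≤ k → k < n - d → (k ≤ i → q ≤ k) ∧ (i < k → q ≤ k + d)) :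
    Y31_W Δ A B C (n - d) p' q' (fun k => if k ≤ i then w k else w (k + d)) := by
  constructor
  · exact hp
  · exact hq
  · exact hn
  · intro k hk
    by_cases h1 : k ≤ i
    · simp only [h1, if_true]
      exact h.wA k ((hA k hk).1 h1)
    · simp only [h1, if_false]
      exact h.wA _ ((hA k hk).2 (by omega))
  · intro k hk hk'
    by_cases h1 : k ≤ i
    · simp only [h1, if_true]
      exact h.wB k ((hB k hk hk').1 h1).1 ((hB k hk hk').1 h1).2
    · simp only [h1, if_false]
      exact h.wB _ ((hB k hk hk').2 (by omega)).1 ((hB k hk hk').2 (by omega)).2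
  · intro k hk hk'
    by_cases h1 : k ≤ i
    · simp only [h1, if_true]
      exact h.wC k ((hC k hk hk').1 h1) (by omega)
    · simp only [h1, if_false]
      exact h.wC _ ((hC k hk hk').2 (by omega)) (by omega)
  · intro k hk
    rcases lt_trichotomy k i with h1 | h1 | h1
    · have h2 : k ≤ i := by omega
      have h3 : k + 1 ≤ i := by omega
      simp only [h2, h3, if_true]
      exact h.ad k (by omega)
    · subst h1
      have h3 : ¬ k + 1 ≤ k := by omega
      have h4 : k + 1 + d = k + d + 1 := by omega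
      simp only [le_refl, if_true, h3, if_false, h4]
      exact hij
    · have h2 : ¬ k ≤ i := by omega
      have h3 : ¬ k + 1 ≤ i := by omega
      have h4 : k + 1 + d = k + d + 1 := by omega
      simp only [h2, h3, if_false, h4]
      exact h.ad _ (by omega)
  · have h2 : ¬ n - d - 1 ≤ i := by omega
    have h4 : n - d - 1 + d = n - 1 := by omega
    simp only [h2, if_false, h4, Nat.zero_le, if_true]
    exact h.cl

/-- Cutting out the part outside the window from `i` to `j`. -/
theorem Y31_wrap {n p q : ℕ} {w : ℕ → V} (h : Y31_W Δ A B C n p q w) {i j : ℕ}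
    (hi : i < p) (hqj : q ≤ j) (hj : j < n) (hij : adj Δ (w i) (w j)) :
    Y31_W Δ A B C (j - i + 1) (p - i) (q - i) (fun k => w (k + i)) := by
  have h1 := h.hp
  have h2 := h.hq
  have h3 := h.hn
  constructor
  · omega
  · omega
  · omega
  · intro k hk
    exact h.wA _ (by omega)
  · intro k hk hk'
    exact h.wB _ (by omega) (by omega)
  · intro k hk hk'
    exact h.wC _ (by omega) (by omega)
  · intro k hk
    have e : k + 1 + i = k + i + 1 := by omega
    simp only [e]
    exact h.ad _ (by omega)
  · have e : j - i + 1 - 1 + i = j := by omega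
    simp only [e, Nat.zero_add]
    exact adj_symm hij

/-- In a shortest walk there is no shortcut. -/
theorem Y31_min {n p q : ℕ} {w : ℕ → V} (h : Y31_W Δ A B C n p q w)
    (hmin : ∀ m, m < n → ∀ p q w, ¬ Y31_W Δ A B C m p q w) {i j : ℕ} (hij : i < j) (hj : j < n)
    (hadj : adj Δ (w i) (w j)) : j = i + 1 ∨ (i = 0 ∧ j = n - 1) := by
  have h1 := h.hp
  have h2 := h.hq
  have h3 := h.hn
  by_contra hno
  push Not at hno
  obtain ⟨hno1, hno2⟩ := hno
  by_cases hc : i < p ∧ q ≤ j
  · exact hmin _ (by omega) _ _ _ (Y31_wrap h hc.1 hc.2 hj hadj)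
  · obtain ⟨d, rfl⟩ : ∃ d, j = i + d + 1 := ⟨j - i - 1, by omega⟩
    have hd : 0 < d := by omega
    by_cases c1 : i + d + 1 < p
    · exact hmin _ (by omega) _ _ _ (Y31_cut h hj hadj (p' := p - d) (q' := q - d) (by omega)
        (by omega) (by omega) (fun k hk => ⟨fun _ => by omega, fun _ => by omega⟩)
        (fun k hk hk' => ⟨fun _ => by omega, fun _ => by omega⟩)
        (fun k hk hk' => ⟨fun _ => by omega, fun _ => by omega⟩))
    · by_cases c2 : i < p
      · exact hmin _ (by omega) _ _ _ (Y31_cut h hj hadj (p' := i + 1) (q' := q - d) (by omega)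
          (by omega) (by omega) (fun k hk => ⟨fun _ => by omega, fun _ => by omega⟩)
          (fun k hk hk' => ⟨fun _ => by omega, fun _ => by omega⟩)
          (fun k hk hk' => ⟨fun _ => by omega, fun _ => by omega⟩))
      · by_cases c3 : i + d + 1 < q
        · exact hmin _ (by omega) _ _ _ (Y31_cut h hj hadj (p' := p) (q' := q - d) (by omega)
            (by omega) (by omega) (fun k hk => ⟨fun _ => by omega, fun _ => by omega⟩)
            (fun k hk hk' => ⟨fun _ => by omega, fun _ => by omega⟩)
            (fun k hk hk' => ⟨fun _ => by omega, fun _ => by omega⟩))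
        · by_cases c4 : i < q
          · exact hmin _ (by omega) _ _ _ (Y31_cut h hj hadj (p' := p) (q' := i + 1) (by omega)
              (by omega) (by omega) (fun k hk => ⟨fun _ => by omega, fun _ => by omega⟩)
              (fun k hk hk' => ⟨fun _ => by omega, fun _ => by omega⟩)
              (fun k hk hk' => ⟨fun _ => by omega, fun _ => by omega⟩))
          · exact hmin _ (by omega) _ _ _ (Y31_cut h hj hadj (p' := p) (q' := q) (by omega)
              (by omega) (by omega) (fun k hk => ⟨fun _ => by omega, fun _ => by omega⟩)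
              (fun k hk hk' => ⟨fun _ => by omega, fun _ => by omega⟩)
              (fun k hk hk' => ⟨fun _ => by omega, fun _ => by omega⟩))

end Y31

theorem tY31 : StmtY31 := by
  classical
  intro V _ _ Δ A B C hc hm hf
  have hex : ∃ n : ℕ, ∃ p q w, Y31_W Δ A B C n p q w := Y31_exists hm
  obtain ⟨p, q, w, hw⟩ := Nat.find_spec hex
  have hmin : ∀ m, m < Nat.find hex → ∀ p q w, ¬ Y31_W Δ A B C m p q w := fun m hmn p q w hW =>
    Nat.find_min hex hmn ⟨p, q, w, hW⟩
  generalize Nat.find hex = n at hw hmin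
  have h1 := hw.hp
  have h2 := hw.hq
  have h3 := hw.hn
  have hpw := hm.2
  simp only [List.pairwise_cons, List.mem_cons, List.not_mem_nil, or_false, List.Pairwise.nil,
    and_true, IsEmpty.forall_iff, implies_true, forall_eq_or_imp, forall_eq] at hpw
  obtain ⟨⟨⟨dAB, _⟩, dAC, _⟩, dBC, _⟩ := hpw
  -- injectivity
  have hinj : ∀ i j, i < j → j < n → w i ≠ w j := by
    intro i j hij hj he
    by_cases h4 : j + 1 < n
    · have h5 : adj Δ (w i) (w (j + 1)) := he ▸ hw.ad j h4
      rcases Y31_min hw hmin (by omega) h4 h5 with h6 | ⟨h6, h7⟩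
      · omega
      · subst h6
        have h8 : w 0 ∈ A := hw.wA 0 h1
        by_cases h9 : j < q
        · have h10 : w j ∈ B := hw.wB j (by omega) h9
          exact Finset.disjoint_left.1 dAB h8 (he ▸ h10)
        · have h10 : w j ∈ C := hw.wC j (by omega) hj
          exact Finset.disjoint_left.1 dAC h8 (he ▸ h10)
    · have h5 : j = n - 1 := by omega
      subst h5
      have h6 : adj Δ (w 0) (w i) := he ▸ adj_symm hw.cl
      have h7 : 0 < i := by
        rcases Nat.eq_zero_or_pos i with h | h
        · subst h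
          exact absurd rfl h6.1
        · exact h
      rcases Y31_min hw hmin h7 (by omega) h6 with h8 | ⟨_, h8⟩
      · have h9 : w (n - 1) ∈ C := hw.wC _ (by omega) (by omega)
        by_cases h10 : i < p
        · exact Finset.disjoint_left.1 dAC (hw.wA i h10) (he ▸ h9)
        · exact Finset.disjoint_left.1 dBC (hw.wB i (by omega) (by omega)) (he ▸ h9)
      · omega
  have hinj' : ∀ i j, i < n → j < n → w i = w j → i = j := by
    intro i j hi hj he
    rcases lt_trichotomy i j with h | h | h
    · exact absurd he (hinj i j h hj)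
    · exact h
    · exact absurd he.symm (hinj j i h hi)
  have hadj : ∀ i j, i < n → j < n → (adj Δ (w i) (w j) ↔
      (j = i + 1 ∨ i = j + 1 ∨ (i = 0 ∧ j = n - 1) ∨ (j = 0 ∧ i = n - 1))) := by
    intro i j hi hj
    constructor
    · intro h
      rcases lt_trichotomy i j with h4 | h4 | h4
      · rcases Y31_min hw hmin h4 hj h with h5 | h5
        · exact Or.inl h5
        · exact Or.inr (Or.inr (Or.inl h5))
      · subst h4
        exact absurd rfl h.1
      · rcases Y31_min hw hmin h4 hi (adj_symm h) with h5 | h5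
        · exact Or.inr (Or.inl h5)
        · exact Or.inr (Or.inr (Or.inr h5))
    · rintro (h | h | ⟨h, h'⟩ | ⟨h, h'⟩)
      · subst h
        exact hw.ad i hj
      · subst h
        exact adj_symm (hw.ad j hi)
      · subst h
        subst h'
        exact adj_symm hw.cl
      · subst h
        subst h'
        exact hw.cl
  have hnz : (0 : ℤ) < n := by omega
  -- the residues
  let r : ℤ → ℕ := fun m => (m % (n : ℤ)).toNat
  have hr1 : ∀ m, (r m : ℤ) = m % n := fun m =>
    Int.toNat_of_nonneg (Int.emod_nonneg m (by omega))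
  have hr2 : ∀ m, r m < n := by
    intro m
    have h4 := hr1 m
    have h5 := Int.emod_lt_of_pos m hnz
    omega
  have hr3 : ∀ m, ∃ t : ℤ, m = r m + n * t := by
    intro m
    refine ⟨m / n, ?_⟩
    rw [hr1]
    exact (Int.emod_add_mul_ediv m n).symm
  have hr4 : ∀ m : ℤ, 0 ≤ m → m < n → (r m : ℤ) = m := by
    intro m h4 h5
    rw [hr1, Int.emod_eq_of_lt h4 h5]
  have hdv : ∀ (i j c : ℤ), (n : ℤ) ∣ i - j - c ↔ (n : ℤ) ∣ (r i : ℤ) - r j - c := by
    intro i j c
    obtain ⟨s, hs⟩ := hr3 i
    obtain ⟨t, ht⟩ := hr3 j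
    have e : i - j - c = ((r i : ℤ) - r j - c) + n * (s - t) := by
      nth_rewrite 1 [hs, ht]
      ring
    rw [e]
    exact (dvd_add_left (dvd_mul_right _ _))
  have hz : HC Δ n (fun m => w (r m)) := by
    have hperm : ∀ i j : ℤ, w (r i) = w (r j) ↔ (n : ℤ) ∣ i - j := by
      intro i j
      have h4 := hdv i j 0
      rw [sub_zero, sub_zero] at h4
      rw [h4]
      constructor
      · intro he
        rw [hinj' _ _ (hr2 i) (hr2 j) he, sub_self]
        exact dvd_zero _
      · rintro ⟨t, ht⟩
        have h5 := hr2 i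
        have h6 := hr2 j
        have h7 : t = 0 := by
          rcases lt_trichotomy t 0 with h | h | h
          · exfalso
            nlinarith
          · exact h
          · exfalso
            nlinarith
        subst h7
        have h8 : r i = r j := by omega
        rw [h8]
    have hadjI : ∀ i j : ℤ, adj Δ (w (r i)) (w (r j)) ↔
        (n : ℤ) ∣ i - j - 1 ∨ (n : ℤ) ∣ i - j + 1 := by
      intro i j
      have h4 := hdv i j 1
      have h5 := hdv i j (-1)
      rw [sub_neg_eq_add, sub_neg_eq_add] at h5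
      rw [h4, h5, hadj _ _ (hr2 i) (hr2 j)]
      have h6 := hr2 i
      have h7 := hr2 j
      constructor
      · rintro (h | h | ⟨h, h'⟩ | ⟨h, h'⟩)
        · exact Or.inr ⟨0, by omega⟩
        · exact Or.inl ⟨0, by omega⟩
        · exact Or.inl ⟨-1, by omega⟩
        · exact Or.inr ⟨1, by omega⟩
      · rintro (⟨t, ht⟩ | ⟨t, ht⟩)
        · have h8 : t = 0 ∨ t = -1 := by
            have h9 : t < 1 := by
              by_contra h
              nlinarith
            have h10 : -2 < t := by
              by_contra h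
              nlinarith
            omega
          rcases h8 with rfl | rfl
          · right; left; omega
          · right; right; left; omega
        · have h8 : t = 0 ∨ t = 1 := by
            have h9 : t < 2 := by
              by_contra h
              nlinarith
            have h10 : -1 < t := by
              by_contra h
              nlinarith
            omega
          rcases h8 with rfl | rfl
          · left; omega
          · right; right; right; omega
    refine ⟨by omega, hperm, hadjI, ?_⟩
    intro i j k hij hik hjk hF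
    have a1 : adj Δ (w (r i)) (w (r j)) := hc.adj_of_face hF (by simp) (by simp) hij
    have a2 : adj Δ (w (r i)) (w (r k)) := hc.adj_of_face hF (by simp) (by simp) hik
    have a3 : adj Δ (w (r j)) (w (r k)) := hc.adj_of_face hF (by simp) (by simp) hjk
    rw [hadj _ _ (hr2 _) (hr2 _)] at a1 a2 a3
    have n1 : r i ≠ r j := fun e => hij (by rw [e])
    have n2 : r i ≠ r k := fun e => hik (by rw [e])
    have n3 : r j ≠ r k := fun e => hjk (by rw [e])
    have b1 := hr2 i
    have b2 := hr2 j
    have b3 := hr2 k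
    generalize r i = x at *
    generalize r j = y at *
    generalize r k = s at *
    have hn3 : n = 3 := by omega
    subst hn3
    have hp1 : p = 1 := by omega
    have hq2 : q = 2 := by omega
    subst hp1
    subst hq2
    have m0 : w 0 ∈ A := hw.wA 0 (by omega)
    have m1 : w 1 ∈ B := hw.wB 1 (by omega) (by omega)
    have m2 : w 2 ∈ C := hw.wC 2 (by omega) (by omega)
    have hall : ∀ t, t < 3 → w t ∈ ({w x, w y, w s} : Finset V) := by
      intro t ht
      have : t = x ∨ t = y ∨ t = s := by omega
      rcases this with rfl | rfl | rfl <;> simp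
    apply hf
    refine ⟨_, hF, fun D hD => ?_⟩
    simp only [List.mem_cons, List.not_mem_nil, or_false] at hD
    rcases hD with rfl | rfl | rfl
    · exact ⟨w 0, Finset.mem_inter.2 ⟨hall 0 (by omega), m0⟩⟩
    · exact ⟨w 1, Finset.mem_inter.2 ⟨hall 1 (by omega), m1⟩⟩
    · exact ⟨w 2, Finset.mem_inter.2 ⟨hall 2 (by omega), m2⟩⟩
  refine ⟨n, fun m => w (r m), 0, p, q, hz, by omega, by omega, by omega, ?_, ?_, ?_⟩
  · intro v hv
    obtain ⟨i, h4, h5, rfl⟩ := mem_arc.1 hv
    have h6 := hr4 i h4 (by omega)
    exact hw.wA _ (by omega)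
  · intro v hv
    obtain ⟨i, h4, h5, rfl⟩ := mem_arc.1 hv
    have h6 := hr4 i (by omega) (by omega)
    exact hw.wB _ (by omega) (by omega)
  · intro v hv
    obtain ⟨i, h4, h5, rfl⟩ := mem_arc.1 hv
    have h6 := hr4 i (by omega) (by omega)
    exact hw.wC _ (by omega) (by omega)

end Pool.Agent.Lib.MP_73b196_co.St
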