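import Pool.Agent.Lib.MP_73b196_co.St.SpecC

/-!
# Fan lemma, first step
-/

set_option autoImplicit false
set_option linter.unusedSectionVars false

namespace Pool.Agent.Lib.MP_73b196_co.St

variable {V : Type} [Fintype V] [DecidableEq V] {Δ : Set (Finset V)}
  {A B C D X X' F : Finset V} {a b c x y : V} {z : ℤ → V} {n : ℕ} {i j k p q : ℤ}

theorem Y4_CM (hA : Conn Δ A) (hB : Conn Δ B) (hC : Conn Δ C) (hD : Conn Δ D)
    (dAB : Disjoint A B) (dAC : Disjoint A C) (dAD : Disjoint A D) (dBC : Disjoint B C)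
    (dBD : Disjoint B D) (dCD : Disjoint C D) (tAB : touch Δ A B) (tAC : touch Δ A C)
    (tAD : touch Δ A D) (tBC : touch Δ B C) (tBD : touch Δ B D) (tCD : touch Δ C D) :
    CM Δ [A, B, C, D] := by
  refine ⟨?_, ?_⟩
  · intro E hE
    simp only [List.mem_cons, List.not_mem_nil, or_false] at hE
    rcases hE with rfl | rfl | rfl | rfl
    · exact hA
    · exact hB
    · exact hC
    · exact hD
  · rw [List.pairwise_cons, List.pairwise_cons, List.pairwise_cons]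
    refine ⟨?_, ?_, ?_, List.pairwise_singleton _ _⟩
    · intro E hE
      simp only [List.mem_cons, List.not_mem_nil, or_false] at hE
      rcases hE with rfl | rfl | rfl
      · exact ⟨dAB, tAB⟩
      · exact ⟨dAC, tAC⟩
      · exact ⟨dAD, tAD⟩
    · intro E hE
      simp only [List.mem_cons, List.not_mem_nil, or_false] at hE
      rcases hE with rfl | rfl
      · exact ⟨dBC, tBC⟩
      · exact ⟨dBD, tBD⟩
    · intro E hE
      simp only [List.mem_cons, List.not_mem_nil, or_false] at hE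
      subst hE
      exact ⟨dCD, tCD⟩

theorem Y4_fill (hF : F ∈ Δ) (ha : a ∈ F) (haA : a ∈ A) (hb : b ∈ F) (hbB : b ∈ B) (hc : c ∈ F)
    (hcC : c ∈ C) : fill Δ [A, B, C] := by
  refine ⟨F, hF, ?_⟩
  intro D hD
  simp only [List.mem_cons, List.not_mem_nil, or_false] at hD
  rcases hD with rfl | rfl | rfl
  · exact ⟨a, Finset.mem_inter.2 ⟨ha, haA⟩⟩
  · exact ⟨b, Finset.mem_inter.2 ⟨hb, hbB⟩⟩
  · exact ⟨c, Finset.mem_inter.2 ⟨hc, hcC⟩⟩

theorem Y4_get (h : fill Δ [A, B, C, D]) : ∃ F ∈ Δ, (∃ x ∈ F, x ∈ A) ∧ (∃ x ∈ F, x ∈ B) ∧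
    (∃ x ∈ F, x ∈ C) ∧ ∃ x ∈ F, x ∈ D := by
  obtain ⟨F, hF, hm⟩ := h
  obtain ⟨x, hx⟩ := hm A (by simp)
  obtain ⟨y, hy⟩ := hm B (by simp)
  obtain ⟨u, hu⟩ := hm C (by simp)
  obtain ⟨v, hv⟩ := hm D (by simp)
  rw [Finset.mem_inter] at hx hy hu hv
  exact ⟨F, hF, ⟨x, hx.1, hx.2⟩, ⟨y, hy.1, hy.2⟩, ⟨u, hu.1, hu.2⟩, ⟨v, hv.1, hv.2⟩⟩

theorem Y4_sub (hi : (n : ℤ) ∣ i - p) (hj : (n : ℤ) ∣ j - q) (h1 : i < j) (h2 : j < i + n) :
    p ≠ q := by
  rintro rfl
  have h3 : (n : ℤ) ∣ (j - p) - (i - p) := dvd_sub hj hi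
  have e : (j - p) - (i - p) = j - i := by ring
  rw [e] at h3
  have h4 := Int.le_of_dvd (by omega) h3
  omega

/-- A set with three attachments is attached to the vertices outside any edge. -/
theorem Y4_at3 (h : HC Δ n z) (h3 : At3 Δ n z X) (i : ℤ) :
    ∃ j, i + 2 ≤ j ∧ j < i + n ∧ At Δ z X j := by
  obtain ⟨p, q, r, hpq, hqr, hrp, hp, hq, hr⟩ := h3
  obtain ⟨p', hp1, hp2, hp3, hp4⟩ := h.at_window i hp
  obtain ⟨q', hq1, hq2, hq3, hq4⟩ := h.at_window i hq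
  obtain ⟨r', hr1, hr2, hr3, hr4⟩ := h.at_window i hr
  have npq : p' ≠ q' := Y4_sub hp4 hq4 hpq (by omega)
  have nqr : q' ≠ r' := Y4_sub hq4 hr4 hqr (by omega)
  have npr : p' ≠ r' := Y4_sub hp4 hr4 (by omega) hrp
  by_cases c1 : i + 2 ≤ p'
  · exact ⟨p', c1, hp2, hp3⟩
  · by_cases c2 : i + 2 ≤ q'
    · exact ⟨q', c2, hq2, hq3⟩
    · exact ⟨r', by omega, hr2, hr3⟩

theorem Y4_nface (hc : IsCx Δ) (hd : Disjoint X X') (ht : ¬ touch Δ X X') (hF : F ∈ Δ)
    (hx : x ∈ F) (hxX : x ∈ X) (hy : y ∈ F) (hyX : y ∈ X') : False := by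
  refine ht ⟨x, hxX, y, hyX, hc.adj_of_face hF hx hy ?_⟩
  rintro rfl
  exact Finset.disjoint_left.1 hd hxX hyX

theorem tY4 : StmtY4 := by
  intro V _ _ Δ n z X X' i hP h hn hX hX' hoff hoff' hd ht hat hf hf' hff
  obtain ⟨hl, hr⟩ := hff
  have hc := hP.cx
  obtain ⟨j0, hj1, hj2, hj3⟩ := Y4_at3 h hat i
  have hn' : (4 : ℤ) ≤ n := by exact_mod_cast hn
  have e1 : z (i - 1 + n) = z (i - 1) := h.eq_add (i - 1)
  have m1 : z (i - 1) ∈ arc z (i + 2) (i + n) := by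
    rw [← e1]
    exact mem_arc_of (by omega) (by omega)
  have m2 : z (i + 2) ∈ arc z (i + 2) (i + n) := mem_arc_of (by omega) (by omega)
  have hB : Conn Δ (X' ∪ arc z (i + 2) (i + n)) :=
    hX'.union (h.arc_conn hc (by omega)) (Or.inl (touch_arc.2 ⟨j0, hj1, hj2, hj3⟩))
  have hni : ∀ j, i + 2 ≤ j → j < i + n → z i ≠ z j := fun j h1 h2 => h.ne_of (by omega) h2
  have hni' : ∀ j, i + 2 ≤ j → j < i + n → z (i + 1) ≠ z j := fun j h1 h2 =>
    h.ne_of (by omega) (by omega)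
  have a1 := Fl.at hc hoff hf
  have a2 := Fl.at hc hoff hr
  have e2 : i + 1 + 1 = i + 2 := by ring
  rw [e2] at a2
  have e3 : i - 1 + 1 = i := by ring
  have adj1 : adj Δ (z (i - 1)) (z i) := by
    have := h.adj_succ (i - 1)
    rwa [e3] at this
  have adj2 : adj Δ (z (i + 1)) (z (i + 2)) := by
    have := h.adj_succ (i + 1)
    rwa [e2] at this
  have hcm : CM Δ [X, X' ∪ arc z (i + 2) (i + n), {z i}, {z (i + 1)}] := by
    refine Y4_CM hX hB (conn_single (h.mem_vs hc i)) (conn_single (h.mem_vs hc _))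
      (Finset.disjoint_union_right.2 ⟨hd, hoff.disj⟩) (Finset.disjoint_singleton_right.2 (hoff i))
      (Finset.disjoint_singleton_right.2 (hoff _)) ?_ ?_ ?_ ?_ a1.1 a1.2 ?_ ?_
      (touch_single.2 (h.adj_succ i))
    · rw [Finset.disjoint_singleton_right, Finset.mem_union, not_or]
      refine ⟨hoff' i, fun hm => ?_⟩
      obtain ⟨j, h1, h2, h3⟩ := mem_arc.1 hm
      exact hni j h1 h2 h3.symm
    · rw [Finset.disjoint_singleton_right, Finset.mem_union, not_or]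
      refine ⟨hoff' _, fun hm => ?_⟩
      obtain ⟨j, h1, h2, h3⟩ := mem_arc.1 hm
      exact hni' j h1 h2 h3.symm
    · rw [Finset.disjoint_singleton]
      exact h.ne_of (by omega) (by omega)
    · exact touch_mono (Finset.Subset.refl _) Finset.subset_union_right
        (touch_arc.2 ⟨i + 2, by omega, by omega, a2.2⟩)
    · exact ⟨z (i - 1), Finset.mem_union_right _ m1, z i, Finset.mem_singleton_self _, adj1⟩
    · exact ⟨z (i + 2), Finset.mem_union_right _ m2, z (i + 1), Finset.mem_singleton_self _,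
        adj_symm adj2⟩
  have f1 : fill Δ [X, X' ∪ arc z (i + 2) (i + n), {z i}] := by
    obtain ⟨x, hx, hF⟩ := hl.face hc
    rw [e3] at hF
    exact Y4_fill hF (Finset.mem_insert_self _ _) hx (b := z (i - 1)) (by simp)
      (Finset.mem_union_right _ m1) (c := z i) (by simp) (Finset.mem_singleton_self _)
  have f2 : fill Δ [X, X' ∪ arc z (i + 2) (i + n), {z (i + 1)}] := by
    obtain ⟨x, hx, hF⟩ := hr.face hc
    rw [e2] at hF
    exact Y4_fill hF (Finset.mem_insert_self _ _) hx (b := z (i + 2)) (by simp)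
      (Finset.mem_union_right _ m2) (c := z (i + 1)) (by simp) (Finset.mem_singleton_self _)
  have f4 : fill Δ [X' ∪ arc z (i + 2) (i + n), {z i}, {z (i + 1)}] := by
    obtain ⟨x, hx, hF⟩ := hf'.face hc
    exact Y4_fill hF (Finset.mem_insert_self _ _) (Finset.mem_union_left _ hx) (b := z i) (by simp)
      (Finset.mem_singleton_self _) (c := z (i + 1)) (by simp) (Finset.mem_singleton_self _)
  obtain ⟨F, hF, ⟨x, hxF, hxX⟩, ⟨y, hyF, hyY⟩, ⟨u, huF, hu⟩, ⟨v, hvF, hv⟩⟩ :=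
    Y4_get (hP.k4all hcm f1 f2 hf f4)
  rw [Finset.mem_singleton] at hu hv
  subst hu hv
  rcases Finset.mem_union.1 hyY with hy | hy
  · exact Y4_nface hc hd ht hF hxF hxX hyF hy
  · obtain ⟨j, h1, h2, rfl⟩ := mem_arc.1 hy
    exact h.no_three hc hF huF hvF hyF (h.ne_of (by omega) (by omega)) (hni j h1 h2) (hni' j h1 h2)

end Pool.Agent.Lib.MP_73b196_co.St
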