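import Pool.Agent.Lib.MP_73b196_co.St.Y4

/-!
# Fan lemma, second step
-/

set_option autoImplicit false

namespace Pool.Agent.Lib.MP_73b196_co.St

theorem tY5 : StmtY5 := by
  intro V _ _ Δ n z X X' hP h hn hX hX' hoff hoff' hd ht g0 f1 f2 f3 f0' f1' hat
  have hc := hP.cx
  have hn' : (4 : ℤ) ≤ n := by exact_mod_cast hn
  have e0 : z n = z 0 := by
    have := h.eq_add 0
    rwa [zero_add] at this
  have e1 : (1 : ℤ) + 1 = 2 := by norm_num
  have e2 : (2 : ℤ) + 1 = 3 := by norm_num
  have e3 : (3 : ℤ) + 1 = 4 := by norm_num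
  have e4 : (0 : ℤ) + 1 = 1 := by norm_num
  obtain ⟨x1, hx1, hF1⟩ := f1.face hc
  obtain ⟨x2, hx2, hF2⟩ := f2.face hc
  obtain ⟨x3, hx3, hF3⟩ := f3.face hc
  obtain ⟨y0, hy0, hG0⟩ := f0'.face hc
  obtain ⟨y1, hy1, hG1⟩ := f1'.face hc
  rw [e1] at hF1 hG1
  rw [e2] at hF2
  rw [e3] at hF3
  rw [e4] at hG0
  refine hP.x6 (arc z 4 (n + 1)) {z 3} X {z 2} {z 1} X' ?_ ?_ ?_ ?_ ?_ ?_ ?_ ?_ ?_ ?_ ?_ ?_
  · intro A hA
    simp only [List.mem_cons, List.not_mem_nil, or_false] at hA
    rcases hA with rfl | rfl | rfl | rfl | rfl | rfl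
    · exact h.arc_conn hc (by omega)
    · exact conn_single (h.mem_vs hc _)
    · exact hX
    · exact conn_single (h.mem_vs hc _)
    · exact conn_single (h.mem_vs hc _)
    · exact hX'
  · have harc : ∀ i : ℤ, 1 ≤ i → i < 4 → z i ∉ arc z 4 (n + 1) := by
      intro i h1 h2 h3
      obtain ⟨j, h4, h5, h6⟩ := mem_arc.1 h3
      exact h.ne_of (i := i) (j := j) (by omega) (by omega) h6.symm
    have d31 : z 3 ≠ z 1 := (h.ne_of (by norm_num) (by omega)).symm
    have d32 : z 3 ≠ z 2 := (h.ne_of (by norm_num) (by omega)).symm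
    have d21 : z 2 ≠ z 1 := (h.ne_of (by norm_num) (by omega)).symm
    simp only [List.pairwise_cons, List.mem_cons, List.not_mem_nil, or_false, forall_eq_or_imp,
      forall_eq, List.Pairwise.nil, IsEmpty.forall_iff, implies_true, and_true]
    refine ⟨⟨?_, ?_, ?_, ?_, ?_⟩, ⟨?_, ?_, ?_, ?_⟩, ⟨?_, ?_, ?_⟩, ⟨?_, ?_⟩, ?_⟩
    · rw [Finset.disjoint_singleton_right]; exact harc 3 (by norm_num) (by norm_num)
    · exact hoff.disj.symm
    · rw [Finset.disjoint_singleton_right]; exact harc 2 (by norm_num) (by norm_num)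
    · rw [Finset.disjoint_singleton_right]; exact harc 1 (by norm_num) (by norm_num)
    · exact hoff'.disj.symm
    · rw [Finset.disjoint_singleton_left]; exact hoff _
    · rw [Finset.disjoint_singleton]; exact d32
    · rw [Finset.disjoint_singleton]; exact d31
    · rw [Finset.disjoint_singleton_left]; exact hoff' _
    · rw [Finset.disjoint_singleton_right]; exact hoff _
    · rw [Finset.disjoint_singleton_right]; exact hoff _
    · exact hd
    · rw [Finset.disjoint_singleton]; exact d21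
    · rw [Finset.disjoint_singleton_left]; exact hoff' _
    · rw [Finset.disjoint_singleton_left]; exact hoff' _
  · exact Y4_fill hF3 (a := z 4) (by simp) (mem_arc_of (by norm_num) (by omega)) (b := z 3)
      (by simp) (Finset.mem_singleton_self _) (c := x3) (by simp) hx3
  · exact Y4_fill hF2 (a := z 3) (by simp) (Finset.mem_singleton_self _) (b := x2) (by simp) hx2
      (c := z 2) (by simp) (Finset.mem_singleton_self _)
  · exact Y4_fill hF1 (a := x1) (by simp) hx1 (b := z 2) (by simp) (Finset.mem_singleton_self _)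
      (c := z 1) (by simp) (Finset.mem_singleton_self _)
  · exact Y4_fill hG1 (a := z 2) (by simp) (Finset.mem_singleton_self _) (b := z 1) (by simp)
      (Finset.mem_singleton_self _) (c := y1) (by simp) hy1
  · refine Y4_fill hG0 (a := z 1) (by simp) (Finset.mem_singleton_self _) (b := y0) (by simp)
      hy0 (c := z 0) (by simp) ?_
    rw [← e0]
    exact mem_arc_of hn' (by omega)
  · rintro ⟨F, hF, hm⟩
    obtain ⟨u, hu⟩ := hm (arc z 4 (n + 1)) (by simp)
    obtain ⟨x, hx⟩ := hm X (by simp)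
    obtain ⟨v, hv⟩ := hm {z 1} (by simp)
    rw [Finset.mem_inter] at hu hx hv
    rw [Finset.mem_singleton] at hv
    obtain ⟨j, h4, h5, rfl⟩ := mem_arc.1 hu.2
    have hz1 : z 1 ∈ F := hv.2 ▸ hv.1
    have hadj : adj Δ (z 1) (z j) := hc.adj_of_face hF hz1 hu.1 (h.ne_of (by omega) (by omega))
    rcases h.adj_window (by omega) (by omega) hadj with h6 | h6
    · omega
    · have h7 : j = n := by omega
      rw [h7, e0] at hu
      exact g0 (fl_of_face hF hx.1 hx.2 hu.1 (by rw [e4]; exact hz1))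
  · intro htt
    have h8 := h.arc_not_touch (a := 2) (b := 3) (c := 4) (d := n + 1) (by norm_num) (by omega)
    have e5 : arc z 2 3 = {z 2} := arc_single z 2
    rw [e5] at h8
    exact h8 (touch_symm htt)
  · intro htt
    exact h.not_adj (i := 1) (j := 3) (by norm_num) (by omega) (adj_symm (touch_single.1 htt))
  · intro htt
    exact hat (touch_symm htt)
  · exact ht

end Pool.Agent.Lib.MP_73b196_co.St
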