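import Pool.Agent.Lib.MP_73b196_co.St.Y4

/-!
# Fan lemma, the case of a 4-cycle
-/

set_option autoImplicit false

namespace Pool.Agent.Lib.MP_73b196_co.St

theorem tY6 : StmtY6 := by
  intro V _ _ Δ z X X' hP h hX hX' hoff hoff' hd ht f1 f2 f3 f0' f1' f3'
  have hc := hP.cx
  have e0 : z 4 = z 0 := by
    have := h.eq_add 0
    rw [zero_add] at this
    exact_mod_cast this
  have e1 : (1 : ℤ) + 1 = 2 := by norm_num
  have e2 : (2 : ℤ) + 1 = 3 := by norm_num
  have e3 : (3 : ℤ) + 1 = 4 := by norm_num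
  have e4 : (0 : ℤ) + 1 = 1 := by norm_num
  have a0' := Fl.at hc hoff' f0'
  have a1' := Fl.at hc hoff' f1'
  have a3 := Fl.at hc hoff f3
  rw [e4] at a0'
  rw [e1] at a1'
  rw [e3] at a3
  obtain ⟨x1, hx1, hF1⟩ := f1.face hc
  obtain ⟨y0, hy0, hG0⟩ := f0'.face hc
  obtain ⟨y1, hy1, hG1⟩ := f1'.face hc
  obtain ⟨y3, hy3, hG3⟩ := f3'.face hc
  rw [e1] at hF1 hG1
  rw [e4] at hG0
  rw [e3, e0] at hG3
  have m2 : z 2 ∈ arc z 2 4 := mem_arc_of (by norm_num) (by norm_num)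
  have m3 : z 3 ∈ arc z 2 4 := mem_arc_of (by norm_num) (by norm_num)
  have m0 : z 0 ∈ X ∪ {z 0} := Finset.mem_union_right _ (Finset.mem_singleton_self _)
  have t0 : touch Δ X {z 0} := by
    have := a3.2
    unfold At at this
    rwa [e0] at this
  have adj01 : adj Δ (z 0) (z 1) := h.adj_succ 0
  have adj12 : adj Δ (z 1) (z 2) := h.adj_succ 1
  have adj30 : adj Δ (z 3) (z 0) := by
    have := h.adj_succ 3
    rwa [e3, e0] at this
  have d0 : ∀ j : ℤ, 1 ≤ j → j < 4 → z 0 ≠ z j := fun j h1 h2 =>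
    h.ne_of (by omega) (by push_cast; omega)
  have d1 : ∀ j : ℤ, 2 ≤ j → j < 4 → z 1 ≠ z j := fun j h1 h2 =>
    h.ne_of (by omega) (by push_cast; omega)
  have hcm : CM Δ [X ∪ {z 0}, {z 1}, arc z 2 4, X'] := by
    refine Y4_CM (hX.union (conn_single (h.mem_vs hc _)) (Or.inl t0)) (conn_single (h.mem_vs hc _))
      (h.arc_conn hc (by norm_num)) hX' ?_ ?_ ?_ ?_ ?_ ?_ ?_ ?_ ?_ ?_ ?_ ?_
    · rw [Finset.disjoint_singleton_right, Finset.mem_union, not_or, Finset.mem_singleton]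
      exact ⟨hoff _, (d0 1 le_rfl (by norm_num)).symm⟩
    · rw [Finset.disjoint_union_left, Finset.disjoint_singleton_left]
      refine ⟨hoff.disj, fun hm => ?_⟩
      obtain ⟨j, h1, h2, h3⟩ := mem_arc.1 hm
      exact d0 j (by omega) h2 h3.symm
    · rw [Finset.disjoint_union_left, Finset.disjoint_singleton_left]
      exact ⟨hd, hoff' _⟩
    · rw [Finset.disjoint_singleton_left]
      intro hm
      obtain ⟨j, h1, h2, h3⟩ := mem_arc.1 hm
      exact d1 j h1 h2 h3.symm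
    · rw [Finset.disjoint_singleton_left]
      exact hoff' _
    · exact hoff'.disj.symm
    · exact ⟨z 0, m0, z 1, Finset.mem_singleton_self _, adj01⟩
    · exact ⟨z 0, m0, z 3, m3, adj_symm adj30⟩
    · exact touch_symm (touch_mono (Finset.Subset.refl _) Finset.subset_union_right a0'.1)
    · exact ⟨z 1, Finset.mem_singleton_self _, z 2, m2, adj12⟩
    · exact touch_symm a0'.2
    · exact touch_symm (touch_arc.2 ⟨2, le_rfl, by norm_num, a1'.2⟩)
  have g1 : fill Δ [X ∪ {z 0}, {z 1}, arc z 2 4] :=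
    Y4_fill hF1 (a := x1) (by simp) (Finset.mem_union_left _ hx1) (b := z 1) (by simp)
      (Finset.mem_singleton_self _) (c := z 2) (by simp) m2
  have g2 : fill Δ [X ∪ {z 0}, {z 1}, X'] :=
    Y4_fill hG0 (a := z 0) (by simp) m0 (b := z 1) (by simp)
      (Finset.mem_singleton_self _) (c := y0) (by simp) hy0
  have g3 : fill Δ [X ∪ {z 0}, arc z 2 4, X'] :=
    Y4_fill hG3 (a := z 0) (by simp) m0 (b := z 3) (by simp) m3 (c := y3) (by simp) hy3
  have g4 : fill Δ [{z 1}, arc z 2 4, X'] :=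
    Y4_fill hG1 (a := z 1) (by simp) (Finset.mem_singleton_self _) (b := z 2) (by simp) m2
      (c := y1) (by simp) hy1
  obtain ⟨F, hF, ⟨a, haF, ha⟩, ⟨b, hbF, hb⟩, ⟨c, hcF, hcc⟩, ⟨y, hyF, hy⟩⟩ :=
    Y4_get (hP.k4all hcm g1 g2 g3 g4)
  rw [Finset.mem_singleton] at hb
  subst hb
  rcases Finset.mem_union.1 ha with ha | ha
  · exact Y4_nface hc hd ht hF haF ha hyF hy
  · rw [Finset.mem_singleton] at ha
    subst ha
    obtain ⟨j, h1, h2, rfl⟩ := mem_arc.1 hcc
    exact h.no_three hc hF haF hbF hcF (d0 1 le_rfl (by norm_num)) (d0 j (by omega) h2)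
      (d1 j h1 h2)

end Pool.Agent.Lib.MP_73b196_co.St
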