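import Pool.Agent.Lib.MP_73b196_co.St.SpecC

/-!
# Two components which fill the same edge: one of them has a centre
-/

set_option autoImplicit false
set_option linter.unusedSectionVars false

namespace Pool.Agent.Lib.MP_73b196_co.St

variable {V : Type} [Fintype V] [DecidableEq V] {Δ : Set (Finset V)} {n : ℕ} {z : ℤ → V}
  {X X' : Finset V}

/-- The normalised case. -/
theorem Y7_core (h2 : StmtY2) (h4 : StmtY4) (h5 : StmtY5) (h6 : StmtY6) (hP : InP Δ)
    (hz : HC Δ n z) (hn : 4 ≤ n) (cX : Conn Δ X) (cX' : Conn Δ X') (oX : Off z X)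
    (oX' : Off z X') (hd : Disjoint X X') (ht : ¬ touch Δ X X') (t3 : At3 Δ n z X)
    (t3' : At3 Δ n z X') (f1 : Fl Δ z X 1) (f1' : Fl Δ z X' 1) (n0 : ¬ Fl Δ z X 0) :
    Ctr Δ n z X 2 := by
  have ht' : ¬ touch Δ X' X := fun t => ht (touch_symm t)
  obtain ⟨a, b, ha0, hab, hbn, hfl, _, hat⟩ := h2 V Δ n z X 0 hP hz cX oX t3 n0
  have a1 : a = 1 := by
    by_contra hne
    rename_i hlow
    exact hlow 1 (by omega) (by omega) (Fl.at hP.cx oX f1).1
  subst a1
  rcases eq_or_ne b 3 with hb | hb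
  · subst hb
    refine ⟨?_, hfl 2 (by omega) (by omega), fun i h1 h3 => hat i (by omega) (by omega)⟩
    have : (2 : ℤ) - 1 = 1 := by norm_num
    rw [this]
    exact f1
  · exfalso
    have g2 : Fl Δ z X 2 := hfl 2 (by omega) (by omega)
    have g3 : Fl Δ z X 3 := hfl 3 (by omega) (by omega)
    have n2' : ¬ Fl Δ z X' 2 := by
      intro g2'
      have := h4 V Δ n z X X' 2 hP hz hn cX cX' oX oX' hd ht t3' g2 g2'
      exact this ⟨by simpa using f1, by simpa using g3⟩
    have n2n : ¬ Fl Δ z X' (2 - n) := fun g => n2' ((hz.fl_congr ⟨-1, by ring⟩).1 g)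
    obtain ⟨a', b', ha0', hab', hbn', hfl', hlow', hat'⟩ :=
      h2 V Δ n z X' (2 - n) hP hz cX' oX' t3' n2n
    have b2 : b' = 2 := by
      by_contra hne
      have h7 := (Fl.at hP.cx oX' f1').2
      exact hat' 2 (by omega) (by omega) (by simpa using h7)
    subst b2
    have g0' : Fl Δ z X' 0 := hfl' 0 (by omega) (by omega)
    by_cases t : At Δ z X' 3
    · have a3 : a' = 3 - n := by
        by_contra hne
        refine hlow' (3 - n) (by omega) (by omega) ?_
        exact (hz.at_congr ⟨-1, by ring⟩).2 t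
      subst a3
      have g3' : Fl Δ z X' 3 :=
        (hz.fl_congr ⟨-1, by ring⟩).1 (hfl' (3 - n) (by omega) (by omega))
      have n4 : ¬ Fl Δ z X 4 := by
        intro g4
        have := h4 V Δ n z X X' 3 hP hz hn cX cX' oX oX' hd ht t3' g3 g3'
        exact this ⟨by simpa using g2, by simpa using g4⟩
      have b4 : b = 4 := by
        by_contra hne
        exact n4 (hfl 4 (by omega) (by omega))
      subst b4
      rcases eq_or_ne n 4 with hn4 | hn4
      · subst hn4
        exact h6 V Δ z X X' hP hz cX cX' oX oX' hd ht f1 g2 g3 g0' f1' g3'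
      · have nat0 : ¬ At Δ z X 0 := by
          intro t0
          refine hat n (by omega) (by omega) ?_
          exact (hz.at_congr ⟨1, by ring⟩).2 t0
        have gm : Fl Δ z X' (-1) := hfl' (-1) (by omega) (by omega)
        refine h5 V Δ n (fun i => z (3 - i)) X' X hP (hz.refl 3) hn cX' cX (off_refl 3 oX')
          (off_refl 3 oX) hd.symm ht' ?_ ?_ ?_ ?_ ?_ ?_ ?_
        · rw [fl_refl]
          norm_num
          exact n2'
        · rw [fl_refl]
          norm_num
          exact f1'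
        · rw [fl_refl]
          norm_num
          exact g0'
        · rw [fl_refl]
          norm_num
          exact gm
        · rw [fl_refl]
          norm_num
          exact g2
        · rw [fl_refl]
          norm_num
          exact f1
        · rw [at_refl]
          norm_num
          exact nat0
    · exact h5 V Δ n z X X' hP hz hn cX cX' oX oX' hd ht n0 f1 g2 g3 g0' f1' t

/-- The case `i = 1`. -/
theorem Y7_one (h2 : StmtY2) (h4 : StmtY4) (h5 : StmtY5) (h6 : StmtY6) (hP : InP Δ)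
    (hz : HC Δ n z) (hn : 4 ≤ n) (cX : Conn Δ X) (cX' : Conn Δ X') (oX : Off z X)
    (oX' : Off z X') (hd : Disjoint X X') (ht : ¬ touch Δ X X') (t3 : At3 Δ n z X)
    (t3' : At3 Δ n z X') (f1 : Fl Δ z X 1) (f1' : Fl Δ z X' 1) :
    Ctr Δ n z X 1 ∨ Ctr Δ n z X 2 := by
  by_cases n0 : Fl Δ z X 0
  · left
    have h7 := h4 V Δ n z X X' 1 hP hz hn cX cX' oX oX' hd ht t3' f1 f1'
    have n2 : ¬ Fl Δ z X 2 := fun g2 => h7 ⟨by simpa using n0, by simpa using g2⟩
    have h8 : Ctr Δ n (fun i => z (3 - i)) X 2 := by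
      refine Y7_core h2 h4 h5 h6 hP (hz.refl 3) hn cX cX' (off_refl 3 oX) (off_refl 3 oX') hd ht
        ((at3_refl 3).2 t3) ((at3_refl 3).2 t3') ?_ ?_ ?_
      · rw [fl_refl]
        norm_num
        exact f1
      · rw [fl_refl]
        norm_num
        exact f1'
      · rw [fl_refl]
        norm_num
        exact n2
    rw [hz.ctr_refl] at h8
    norm_num at h8
    exact h8
  · exact Or.inr (Y7_core h2 h4 h5 h6 hP hz hn cX cX' oX oX' hd ht t3 t3' f1 f1' n0)

/-- **Y7** -/
theorem tY7 (h2 : StmtY2) (h4 : StmtY4) (h5 : StmtY5) (h6 : StmtY6) : StmtY7 := by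
  intro V _ _ Δ n z X X' i hP hz hn cX cX' oX oX' hd ht t3 t3' f f'
  have e1 : (1 : ℤ) + (i - 1) = i := by ring
  have e2 : (2 : ℤ) + (i - 1) = i + 1 := by ring
  have h7 := Y7_one h2 h4 h5 h6 hP (hz.shift (i - 1)) hn cX cX' (off_shift (i - 1) oX)
    (off_shift (i - 1) oX') hd ht ((at3_shift (i - 1)).2 t3) ((at3_shift (i - 1)).2 t3')
    (by rw [fl_shift, e1]; exact f) (by rw [fl_shift, e1]; exact f')
  rw [ctr_shift, ctr_shift, e1, e2] at h7
  exact h7

end Pool.Agent.Lib.MP_73b196_co.St
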