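import Pool.Agent.Lib.MP_73b196_co.St.SpecC

/-!
# Y8: no three consecutive centres
-/

set_option autoImplicit false

namespace Pool.Agent.Lib.MP_73b196_co.St

section
variable {V : Type} [DecidableEq V] {Δ : Set (Finset V)} {A B C F : Finset V} {a b c : V}

theorem Y8_intro (hF : F ∈ Δ) (ha : a ∈ F) (hA : a ∈ A) (hb : b ∈ F) (hB : b ∈ B) (hc : c ∈ F)
    (hC : c ∈ C) : fill Δ [A, B, C] := by
  refine ⟨F, hF, fun X hX => ?_⟩
  simp only [List.mem_cons, List.not_mem_nil, or_false] at hX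
  rcases hX with rfl | rfl | rfl
  · exact ⟨a, Finset.mem_inter.2 ⟨ha, hA⟩⟩
  · exact ⟨b, Finset.mem_inter.2 ⟨hb, hB⟩⟩
  · exact ⟨c, Finset.mem_inter.2 ⟨hc, hC⟩⟩

theorem Y8_elim (h : fill Δ [A, B, C]) : ∃ F ∈ Δ, (∃ a ∈ F, a ∈ A) ∧ (∃ b ∈ F, b ∈ B) ∧
    ∃ c ∈ F, c ∈ C := by
  obtain ⟨F, hF, hm⟩ := h
  obtain ⟨x, hx⟩ := hm A (by simp)
  obtain ⟨y, hy⟩ := hm B (by simp)
  obtain ⟨w, hw⟩ := hm C (by simp)
  rw [Finset.mem_inter] at hx hy hw
  exact ⟨F, hF, ⟨x, hx⟩, ⟨y, hy⟩, ⟨w, hw⟩⟩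

theorem Y8_fl {z : ℤ → V} {X : Finset V} {i : ℤ} (h : Fl Δ z X i) :
    ∃ F ∈ Δ, (∃ x ∈ F, x ∈ X) ∧ z i ∈ F ∧ z (i + 1) ∈ F := by
  obtain ⟨F, hF, ⟨x, hx, hx'⟩, ⟨y, hy, hy'⟩, ⟨w, hw, hw'⟩⟩ := Y8_elim h
  rw [Finset.mem_singleton] at hy' hw'
  exact ⟨F, hF, ⟨x, hx, hx'⟩, hy' ▸ hy, hw' ▸ hw⟩

end

theorem Y8_one (V : Type) [Fintype V] [DecidableEq V] (Δ : Set (Finset V)) (n : ℕ)
    (z : ℤ → V) (X₁ X₂ X₃ : Finset V) (hP : InP Δ) (h : HC Δ n z) (h4 : 4 ≤ n)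
    (c1 : Conn Δ X₁) (c2 : Conn Δ X₂) (c3 : Conn Δ X₃) (o1 : Off z X₁) (o2 : Off z X₂)
    (o3 : Off z X₃) (d12 : Disjoint X₁ X₂) (d13 : Disjoint X₁ X₃) (d23 : Disjoint X₂ X₃)
    (_t12 : ¬ touch Δ X₁ X₂) (t13 : ¬ touch Δ X₁ X₃) (t23 : ¬ touch Δ X₂ X₃)
    (s1 : Ctr Δ n z X₁ 1) (s2 : Ctr Δ n z X₂ 2) (s3 : Ctr Δ n z X₃ 3) : False := by
  have hc := hP.cx
  have h4' : (4 : ℤ) ≤ n := by exact_mod_cast h4
  have e0 : (1 : ℤ) - 1 = 0 := by norm_num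
  have e1 : (2 : ℤ) - 1 = 1 := by norm_num
  have e2 : (3 : ℤ) - 1 = 2 := by norm_num
  have f0 := s1.1
  rw [e0] at f0
  have g1 := s2.1
  rw [e1] at g1
  have k2 := s3.1
  rw [e2] at k2
  have f1 := s1.2.1
  have g2 := s2.2.1
  have k3 := s3.2.1
  have z0 : z 0 ∈ arc z 4 (n + 1) := by
    have e : z (n : ℤ) = z 0 := h.eq_of ⟨1, by ring⟩
    rw [← e]
    exact mem_arc_of (by omega) (by omega)
  have sing : ∀ (X : Finset V) (i : ℤ), Off z X → Disjoint X {z i} := by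
    intro X i hX
    rw [Finset.disjoint_singleton_right]
    exact hX i
  have cs : Conn Δ (X₂ ∪ {z 1}) :=
    c2.union (conn_single (h.mem_vs hc 1)) (Or.inl (Fl.at hc o2 g1).1)
  have nat : ∀ (X : Finset V) (i : ℤ), ¬ At Δ z X i → ∀ x ∈ X, ¬ adj Δ x (z i) := by
    intro X i hn x hx hxi
    exact hn ⟨x, hx, z i, Finset.mem_singleton_self _, hxi⟩
  have v2 : Disjoint (arc z 4 (n + 1)) {z 2} := by
    have := h.arc_disj (a := 2) (b := 2 + 1) (c := 4) (d := n + 1) (by omega) (by omega)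
    rw [arc_single] at this
    exact this.symm
  have v3 : Disjoint (arc z 4 (n + 1)) {z 3} := by
    have := h.arc_disj (a := 3) (b := 3 + 1) (c := 4) (d := n + 1) (by omega) (by omega)
    rw [arc_single] at this
    exact this.symm
  have v1 : Disjoint (arc z 4 (n + 1)) {z 1} := by
    have := h.arc_disj (a := 1) (b := 1 + 1) (c := 4) (d := n + 1) (by omega) (by omega)
    rw [arc_single] at this
    exact this.symm
  have ne : ∀ i j : ℤ, i < j → j < i + n → Disjoint ({z i} : Finset V) {z j} := by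
    intro i j h5 h6
    rw [Finset.disjoint_singleton]
    exact h.ne_of h5 h6
  refine hP.x6 (arc z 4 (n + 1)) X₁ (X₂ ∪ {z 1}) {z 2} {z 3} X₃ ?_ ?_ ?_ ?_ ?_ ?_ ?_ ?_ ?_ ?_ ?_ ?_
  · intro X hX
    simp only [List.mem_cons, List.not_mem_nil, or_false] at hX
    rcases hX with rfl | rfl | rfl | rfl | rfl | rfl
    · exact h.arc_conn hc (by omega)
    · exact c1
    · exact cs
    · exact conn_single (h.mem_vs hc 2)
    · exact conn_single (h.mem_vs hc 3)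
    · exact c3
  · simp only [List.pairwise_cons, List.mem_cons, List.not_mem_nil, or_false,
      List.Pairwise.nil, and_true, IsEmpty.forall_iff, implies_true, forall_eq_or_imp,
      forall_eq, Finset.disjoint_union_left, Finset.disjoint_union_right]
    exact ⟨⟨o1.disj.symm, ⟨o2.disj.symm, v1⟩, v2, v3, o3.disj.symm⟩,
      ⟨⟨d12, sing X₁ 1 o1⟩, sing X₁ 2 o1, sing X₁ 3 o1, d13⟩,
      ⟨⟨sing X₂ 2 o2, ne 1 2 (by omega) (by omega)⟩, ⟨sing X₂ 3 o2, ne 1 3 (by omega) (by omega)⟩,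
        d23, (sing X₃ 1 o3).symm⟩, ⟨ne 2 3 (by omega) (by omega), (sing X₃ 2 o3).symm⟩,
      (sing X₃ 3 o3).symm⟩
  · obtain ⟨F, hF, ⟨x, hx, hx'⟩, h5, h6⟩ := Y8_fl f0
    exact Y8_intro hF h5 z0 hx hx' h6 (Finset.mem_union_right _ (Finset.mem_singleton_self _))
  · obtain ⟨F, hF, ⟨x, hx, hx'⟩, h5, h6⟩ := Y8_fl f1
    exact Y8_intro hF hx hx' h5 (Finset.mem_union_right _ (Finset.mem_singleton_self _)) h6
      (Finset.mem_singleton_self _)
  · obtain ⟨F, hF, ⟨x, hx, hx'⟩, h5, h6⟩ := Y8_fl g2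
    exact Y8_intro hF hx (Finset.mem_union_left _ hx') h5 (Finset.mem_singleton_self _) h6
      (Finset.mem_singleton_self _)
  · obtain ⟨F, hF, ⟨x, hx, hx'⟩, h5, h6⟩ := Y8_fl k2
    exact Y8_intro hF h5 (Finset.mem_singleton_self _) h6 (Finset.mem_singleton_self _) hx hx'
  · obtain ⟨F, hF, ⟨x, hx, hx'⟩, h5, h6⟩ := Y8_fl k3
    exact Y8_intro hF h5 (Finset.mem_singleton_self _) hx hx' h6 (mem_arc_of (by omega) (by omega))
  · intro hf
    obtain ⟨F, hF, ⟨x, hx, hx'⟩, ⟨y, hy, hy'⟩, ⟨w, hw, hw'⟩⟩ := Y8_elim hf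
    obtain ⟨j, h5, h6, rfl⟩ := mem_arc.1 hx'
    rw [Finset.mem_singleton] at hw'
    subst hw'
    rcases Finset.mem_union.1 hy' with h7 | h7
    · exact nat X₂ j (s2.2.2 j (by omega) (by omega)) y h7
        (hc.adj_of_face hF hy hx (o2.ne h7))
    · rw [Finset.mem_singleton] at h7
      subst h7
      exact h.no_three hc hF hx hy hw (h.ne_of (i := 1) (j := j) (by omega) (by omega)).symm
        (h.ne_of (i := 3) (j := j) (by omega) (by omega)).symm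
        (h.ne_of (by omega) (by omega))
  · intro ht
    have := h.arc_not_touch (a := 2) (b := 2 + 1) (c := 4) (d := n + 1) (by omega) (by omega)
    rw [arc_single] at this
    exact this (touch_symm ht)
  · rintro ⟨x, hx, y, hy, hxy⟩
    rw [Finset.mem_singleton] at hy
    subst hy
    exact nat X₁ 3 (s1.2.2 3 (by omega) (by omega)) x hx hxy
  · exact t13
  · rintro ⟨x, hx, y, hy, hxy⟩
    rcases Finset.mem_union.1 hx with h7 | h7
    · exact t23 ⟨x, h7, y, hy, hxy⟩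
    · rw [Finset.mem_singleton] at h7
      subst h7
      have e : z (1 + n) = z 1 := h.eq_add 1
      rw [← e] at hxy
      exact nat X₃ (1 + n) (s3.2.2 (1 + n) (by omega) (by omega)) y hy (adj_symm hxy)

theorem tY8 : StmtY8 := by
  intro V _ _ Δ n z X₁ X₂ X₃ c hP h h4 c1 c2 c3 o1 o2 o3 d12 d13 d23 t12 t13 t23 s1 s2 s3
  refine Y8_one V Δ n (fun i => z (i + (c - 1))) X₁ X₂ X₃ hP (h.shift _) h4 c1 c2 c3
    (off_shift _ o1) (off_shift _ o2) (off_shift _ o3) d12 d13 d23 t12 t13 t23 ?_ ?_ ?_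
  · rw [ctr_shift]
    have e : 1 + (c - 1) = c := by ring
    rw [e]
    exact s1
  · rw [ctr_shift]
    have e : 2 + (c - 1) = c + 1 := by ring
    rw [e]
    exact s2
  · rw [ctr_shift]
    have e : 3 + (c - 1) = c + 2 := by ring
    rw [e]
    exact s3

end Pool.Agent.Lib.MP_73b196_co.St
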