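import Pool.Agent.Lib.MP_73b196_co.St.SpecC

/-!
# Y9: every edge of a hollow cycle is filled by a component of the complement
-/

set_option autoImplicit false

namespace Pool.Agent.Lib.MP_73b196_co.St

theorem tY9 : StmtY9 := by
  intro V _ _ Δ n z i hV h
  have h3 := h.pos
  have hc := hV.inP.cx
  by_contra hn
  refine hV.noEF (z i) (z (i + 1)) ⟨(h.adj_succ i).1, (h.adj_succ i).2, fun F hF h1 h2 => ?_⟩
  refine Finset.Subset.antisymm (fun w hw => ?_) (fun w hw => ?_)
  · by_contra h4
    simp only [Finset.mem_insert, Finset.mem_singleton, not_or] at h4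
    have h5 : w ∉ arc z 0 n := by
      intro h6
      obtain ⟨j, _, _, rfl⟩ := mem_arc.1 h6
      exact h.no_three hc hF h1 h2 hw (h.ne_of (by omega) (by omega)) (fun e => h4.1 e.symm)
        (fun e => h4.2 e.symm)
    have h6 : w ∈ vs Δ \ arc z 0 n := Finset.mem_sdiff.2 ⟨hc.sub_vs hF hw, h5⟩
    obtain ⟨X, hX, hwX⟩ := exists_comp Finset.sdiff_subset h6
    exact hn ⟨X, hX, fl_of_face hF hw hwX h1 h2⟩
  · simp only [Finset.mem_insert, Finset.mem_singleton] at hw
    rcases hw with rfl | rfl
    · exact h1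
    · exact h2

end Pool.Agent.Lib.MP_73b196_co.St
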