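import Pool.Agent.Lib.MP_73b196_co.St.SpecC

/-!
# YC: S2, first half: there is no covering hollow partition
-/

set_option autoImplicit false

namespace Pool.Agent.Lib.MP_73b196_co.St

theorem tYC (h30 : StmtY30) (h31 : StmtY31) : StmtYC := by
  intro V _ _ Δ hV ⟨A, B, C, hCM, hun, hnf⟩
  have hc := hV.inP.cx
  obtain ⟨n, z, a, b, c, hz, h1, h2, h3, hA, hB, hC⟩ := h31 V Δ A B C hc hCM hnf
  obtain ⟨t, ht, hf⟩ := h30 V Δ n z hV hz
  have htv : t ∈ A ∪ B ∪ C := by
    rw [hun]
    exact hc.sub_vs (hf 0) (by simp)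
  have key : ∀ {F X Y Z : Finset V} {x y w : V}, F ∈ Δ → x ∈ F → y ∈ F → w ∈ F → x ∈ X → y ∈ Y →
      w ∈ Z → fill Δ [X, Y, Z] := by
    intro F X Y Z x y w hF hx hy hw hX hY hZ
    refine ⟨F, hF, fun E hE => ?_⟩
    simp only [List.mem_cons, List.not_mem_nil, or_false] at hE
    rcases hE with rfl | rfl | rfl
    · exact ⟨x, Finset.mem_inter.2 ⟨hx, hX⟩⟩
    · exact ⟨y, Finset.mem_inter.2 ⟨hy, hY⟩⟩
    · exact ⟨w, Finset.mem_inter.2 ⟨hw, hZ⟩⟩
  simp only [Finset.mem_union] at htv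
  rcases htv with (h4 | h4) | h4
  · have h5 := hf (c - 1)
    rw [sub_add_cancel] at h5
    exact hnf (key (x := t) (y := z (c - 1)) (w := z c) h5 (by simp) (by simp) (by simp) h4
      (hB (mem_arc_of (by omega) (by omega))) (hC (mem_arc_of (by omega) (by omega))))
  · have h5 := hf (a + n - 1)
    rw [sub_add_cancel, hz.eq_add] at h5
    exact hnf (key (x := z a) (y := t) (w := z (a + n - 1)) h5 (by simp) (by simp) (by simp)
      (hA (mem_arc_of (by omega) (by omega))) h4 (hC (mem_arc_of (by omega) (by omega))))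
  · have h5 := hf (b - 1)
    rw [sub_add_cancel] at h5
    exact hnf (key (x := z (b - 1)) (y := z b) (w := t) h5 (by simp) (by simp) (by simp)
      (hA (mem_arc_of (by omega) (by omega))) (hB (mem_arc_of (by omega) (by omega))) h4)

end Pool.Agent.Lib.MP_73b196_co.St
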