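import Pool.Agent.Lib.MP_73b196_co.St.Y1
import Pool.Agent.Lib.MP_73b196_co.St.Y2
import Pool.Agent.Lib.MP_73b196_co.St.Y3
import Pool.Agent.Lib.MP_73b196_co.St.Y4
import Pool.Agent.Lib.MP_73b196_co.St.Y5
import Pool.Agent.Lib.MP_73b196_co.St.Y6
import Pool.Agent.Lib.MP_73b196_co.St.Y7
import Pool.Agent.Lib.MP_73b196_co.St.Y8
import Pool.Agent.Lib.MP_73b196_co.St.Y9
import Pool.Agent.Lib.MP_73b196_co.St.Y10
import Pool.Agent.Lib.MP_73b196_co.St.Y11
import Pool.Agent.Lib.MP_73b196_co.St.Y12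
import Pool.Agent.Lib.MP_73b196_co.St.Y13
import Pool.Agent.Lib.MP_73b196_co.St.Y14
import Pool.Agent.Lib.MP_73b196_co.St.Y15
import Pool.Agent.Lib.MP_73b196_co.St.Y16
import Pool.Agent.Lib.MP_73b196_co.St.Y17
import Pool.Agent.Lib.MP_73b196_co.St.Y18
import Pool.Agent.Lib.MP_73b196_co.St.Y19
import Pool.Agent.Lib.MP_73b196_co.St.Y20
import Pool.Agent.Lib.MP_73b196_co.St.Y21
import Pool.Agent.Lib.MP_73b196_co.St.Y22
import Pool.Agent.Lib.MP_73b196_co.St.Y23
import Pool.Agent.Lib.MP_73b196_co.St.Y24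
import Pool.Agent.Lib.MP_73b196_co.St.Y25
import Pool.Agent.Lib.MP_73b196_co.St.Y26
import Pool.Agent.Lib.MP_73b196_co.St.Y27
import Pool.Agent.Lib.MP_73b196_co.St.Y28
import Pool.Agent.Lib.MP_73b196_co.St.Y29
import Pool.Agent.Lib.MP_73b196_co.St.Y30
import Pool.Agent.Lib.MP_73b196_co.St.Y31
import Pool.Agent.Lib.MP_73b196_co.St.YC
import Pool.Agent.Lib.MP_73b196_co.St.FinSpec

/-!
# First half of S2

A complex of the class, irreducible up to cone vertices, without edge facet, without separating pair of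
nonadjacent vertices and without separating hollow triangle has no covering hollow partition.
-/

set_option autoImplicit false

namespace Pool.Agent.Lib.MP_73b196_co.St

theorem yHollow : StmtY30 ∧ StmtY31 := by
  have y1 := tY1
  have y2 := tY2 y1
  have y3 := tY3 y2
  have y7 := tY7 y2 tY4 tY5 tY6
  have y11 := tY11 y2 y3 tY10
  have y12 := tY12 y7 tY8 tY9 tY10 y11
  have y13 := tY13 tY9 y12
  have y16 := tY16 tY15
  have y17 := tY17 tY14 y16
  have y18 := tY18 tY14 y16
  have y19 := tY19 y16 y17 y18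
  have y20 := tY20 y2 y19
  have y25 := tY25 tY14 y20 tY21
  have y26 := tY26 y1 tY24 y25
  have y27 := tY27 y13 y20 y26
  have y23 := tY23 tY22
  have y29 := tY29 tY21 y23 y27 tY28
  exact ⟨tY30 y2 y20 y27 y29, tY31⟩

/-- There is no covering hollow partition in a violating complex. -/
theorem yChp : StmtYC := tYC yHollow.1 yHollow.2

/-- The statement of Theorem H: a complex of the class without separating face and without covering hollow
partition has a cone vertex. -/
def StmtThmH : Prop := ∀ (V : Type) [Fintype V] [DecidableEq V] (Δ : Set (Finset V)), InP Δ →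
  (∀ F ∈ Δ, Conn Δ (vs Δ \ F)) → ¬ CHP Δ → ∃ p, Apex Δ p

/-- S2 from Theorem H. -/
theorem s2_of_thmH (hH : StmtThmH) : StmtS2 := by
  intro V _ _ Δ hP hI
  by_contra hn
  push Not at hn
  obtain ⟨h1, h2, h3⟩ := hn
  have hV : Vio Δ := by
    refine ⟨hP, hI.conn, h1, h2, ?_⟩
    intro a b c hab hac hbc habc
    exact h3 a b c hab hac hbc habc
  obtain ⟨p, hp⟩ := hH V Δ hP hI.conn (yChp V Δ hV)
  exact hI.noApex p hp

end Pool.Agent.Lib.MP_73b196_co.St
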